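import Pool.Agent.P.MP_a2beea_nt.FC.Defs3

/-! The abstract argument. Cauchy-Schwarz for a positive semidefinite symmetric form on a `ℤ`-module
(the discriminant of `B (a x + b y) (a x + b y) ≥ 0` for all integers `a, b`; pass to rationals
and then to reals by density). Null vectors are orthogonal to everything and form a `σ`-stable
submodule. Put `Z = Q(σ) X`; `σ Z - Z = Q(σ) (σ X - X - σ D) + σ Q(σ) D` is null, so
`q B Z Z = B (σ Z) (σ Z) = B Z Z` and `Z` is null. Hence `s n = B (σ ^ n X) Y` satisfies the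
recurrence of `Q`, `Q.reverse * ∑ s n T ^ n` is a polynomial `A'`, and
`∑_{n ≥ 1} (s n - s (n - 1)) T ^ n = (1 - T) S - s 0`. -/

open Polynomial
open scoped TensorProduct NNReal IntermediateField

namespace Pool.Agent.FFC

open Classical


theorem abs_cs {M : Type*} [AddCommGroup M] (B : M →ₗ[ℤ] M →ₗ[ℤ] ℝ)
    (hs : ∀ x y, B x y = B y x) (hp : ∀ x, 0 ≤ B x x) (x y : M) :
    B x y ^ 2 ≤ B x x * B y y := by
  have hrat : ∀ r : ℚ, 0 ≤ B x x * ((r : ℝ) * r) + 2 * B x y * r + B y y := by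
    intro r
    have h := hp (r.num • x + (r.den : ℤ) • y)
    simp only [map_add, map_zsmul, LinearMap.add_apply, LinearMap.smul_apply, zsmul_eq_mul,
      hs y x] at h
    have hd : (0 : ℝ) < (r.den : ℝ) := by exact_mod_cast r.den_pos
    have hr : (r : ℝ) = (r.num : ℝ) / (r.den : ℝ) := by exact_mod_cast (Rat.num_div_den r).symm
    have e : B x x * ((r : ℝ) * r) + 2 * B x y * r + B y y =
        ((r.num : ℝ) * ((r.num : ℝ) * B x x) + (r.den : ℝ) * ((r.num : ℝ) * B x y) +
          ((r.num : ℝ) * ((r.den : ℝ) * B x y) + (r.den : ℝ) * ((r.den : ℝ) * B y y))) /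
          ((r.den : ℝ) ^ 2) := by
      rw [hr]; field_simp; ring
    rw [e]
    refine div_nonneg ?_ (by positivity)
    push_cast at h
    linarith
  have hreal : ∀ r : ℝ, 0 ≤ B x x * (r * r) + 2 * B x y * r + B y y := by
    intro r
    refine Rat.denseRange_cast.induction_on r ?_ hrat
    exact isClosed_le continuous_const (by fun_prop)
  have := discrim_le_zero hreal
  unfold discrim at this
  nlinarith

/-- The null vectors of a positive semidefinite form. -/
private def nul {M : Type*} [AddCommGroup M] (B : M →ₗ[ℤ] M →ₗ[ℤ] ℝ) : Submodule ℤ M :=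
  LinearMap.ker B

private theorem mem_nul {M : Type*} [AddCommGroup M] (B : M →ₗ[ℤ] M →ₗ[ℤ] ℝ)
    (hs : ∀ x y, B x y = B y x) (hp : ∀ x, 0 ≤ B x x) {x : M} (h : B x x = 0) : x ∈ nul B := by
  refine LinearMap.mem_ker.mpr (LinearMap.ext fun y => ?_)
  have := abs_cs B hs hp x y
  rw [h, zero_mul] at this
  exact pow_eq_zero_iff (two_ne_zero) |>.mp (le_antisymm this (sq_nonneg _))

private theorem nul_apply {M : Type*} [AddCommGroup M] {B : M →ₗ[ℤ] M →ₗ[ℤ] ℝ} {x : M}
    (h : x ∈ nul B) (y : M) : B x y = 0 := by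
  rw [LinearMap.mem_ker.mp h]; rfl

theorem abs_reg {M : Type*} [AddCommGroup M] (B : M →ₗ[ℤ] M →ₗ[ℤ] ℝ)
    (hs : ∀ x y, B x y = B y x) (hp : ∀ x, 0 ≤ B x x) (σ : Module.End ℤ M) {q : ℝ} (hq : 1 < q)
    (hσ : ∀ x y, B (σ x) (σ y) = q * B x y) {Q : ℤ[X]} (hQ : Q.Monic) (hQ1 : Q.eval 1 ≠ 0)
    {D X' : M} (hD : B (aeval σ Q D) (aeval σ Q D) = 0) (hX : B (σ X' - X' - σ D) = 0) (Y : M) :
    Reg (fun n => B ((σ ^ n) D) Y) (-B X' Y) := by
  have hσn : ∀ x ∈ nul B, σ x ∈ nul B := fun x hx =>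
    mem_nul B hs hp (by rw [hσ, nul_apply hx, mul_zero])
  have hpow : ∀ (n : ℕ), ∀ x ∈ nul B, (σ ^ n) x ∈ nul B := by
    intro n
    induction n with
    | zero => intro x hx; simpa using hx
    | succ n ih => intro x hx; rw [pow_succ', Module.End.mul_apply]; exact hσn _ (ih x hx)
  have hexp : ∀ x : M, aeval σ Q x =
      ∑ i ∈ Finset.range (Q.natDegree + 1), Q.coeff i • (σ ^ i) x := by
    intro x
    rw [aeval_eq_sum_range, LinearMap.sum_apply]
    rfl
  have hpoly : ∀ x ∈ nul B, aeval σ Q x ∈ nul B := by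
    intro x hx
    rw [hexp]
    exact Submodule.sum_mem _ fun i _ => Submodule.smul_mem _ _ (hpow i x hx)
  have hcomm : ∀ x : M, aeval σ Q (σ x) = σ (aeval σ Q x) := by
    intro x
    rw [hexp, hexp, map_sum]
    refine Finset.sum_congr rfl fun i _ => ?_
    rw [map_zsmul, ← Module.End.mul_apply, ← Module.End.mul_apply, ← pow_succ, ← pow_succ']
  have hW : σ X' - X' - σ D ∈ nul B := LinearMap.mem_ker.mpr hX
  have hZ1 : σ (aeval σ Q X') - aeval σ Q X' ∈ nul B := by
    have h := Submodule.add_mem _ (hpoly _ hW) (hσn _ (mem_nul B hs hp hD))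
    rw [map_sub, map_sub, hcomm, hcomm, sub_add_cancel] at h
    exact h
  have hZ : aeval σ Q X' ∈ nul B := by
    refine mem_nul B hs hp ?_
    have h1 := nul_apply hZ1 (σ (aeval σ Q X'))
    have h2 := nul_apply hZ1 (aeval σ Q X')
    rw [map_sub, LinearMap.sub_apply] at h1 h2
    rw [hσ, hs (aeval σ Q X') (σ (aeval σ Q X'))] at h1
    have h3 : (q - 1) * B (aeval σ Q X') (aeval σ Q X') = 0 := by linarith
    exact (mul_eq_zero.mp h3).resolve_left (by linarith)
  set s : ℕ → ℝ := fun n => B ((σ ^ n) X') Y with hsdef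
  have hrec : ∀ n, ∑ i ∈ Finset.range (Q.natDegree + 1), (Q.coeff i : ℝ) * s (n + i) = 0 := by
    intro n
    have h := nul_apply (hpow n _ hZ) Y
    rw [hexp, map_sum, map_sum, LinearMap.sum_apply] at h
    rw [← h]
    refine Finset.sum_congr rfl fun i _ => ?_
    rw [map_zsmul, map_zsmul, LinearMap.smul_apply, zsmul_eq_mul, ← Module.End.mul_apply,
      ← pow_add]
  have hc : ∀ n, B ((σ ^ (n + 1)) D) Y = s (n + 1) - s n := by
    intro n
    have h := nul_apply (hpow n _ hW) Y
    rw [map_sub, map_sub, map_sub, map_sub, LinearMap.sub_apply, LinearMap.sub_apply,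
      ← Module.End.mul_apply, ← Module.End.mul_apply, ← pow_succ] at h
    simp only [hsdef]
    linarith
  set R : ℝ[X] := ∑ i ∈ Finset.range (Q.natDegree + 1),
    C (Q.coeff i : ℝ) * X ^ (Q.natDegree - i) with hR
  have hRc : (R : PowerSeries ℝ) = ∑ i ∈ Finset.range (Q.natDegree + 1),
      PowerSeries.C (Q.coeff i : ℝ) * PowerSeries.X ^ (Q.natDegree - i) := by
    rw [hR, ← Polynomial.coeToPowerSeries.ringHom_apply, map_sum]
    refine Finset.sum_congr rfl fun i _ => ?_
    rw [Polynomial.coeToPowerSeries.ringHom_apply, Polynomial.coe_mul, Polynomial.coe_C,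
      Polynomial.coe_pow, Polynomial.coe_X]
  have hhigh : ∀ n, PowerSeries.coeff (n + Q.natDegree)
      ((R : PowerSeries ℝ) * PowerSeries.mk s) = 0 := by
    intro n
    rw [hRc, Finset.sum_mul, map_sum, ← hrec n]
    refine Finset.sum_congr rfl fun i hi => ?_
    have hi' : i ≤ Q.natDegree := Nat.lt_succ_iff.mp (Finset.mem_range.mp hi)
    have e : n + Q.natDegree = (n + i) + (Q.natDegree - i) := by omega
    rw [mul_assoc, PowerSeries.coeff_C_mul, e, PowerSeries.coeff_X_pow_mul, PowerSeries.coeff_mk]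
  set A' : ℝ[X] := PowerSeries.trunc Q.natDegree ((R : PowerSeries ℝ) * PowerSeries.mk s) with hA'
  have hA : (R : PowerSeries ℝ) * PowerSeries.mk s = (A' : PowerSeries ℝ) := by
    ext n
    rw [Polynomial.coeff_coe, hA', PowerSeries.coeff_trunc]
    split_ifs with h
    · rfl
    · obtain ⟨m, rfl⟩ := Nat.exists_eq_add_of_le' (not_lt.mp h)
      exact hhigh m
  have hR0 : R.eval 0 = 1 := by
    rw [hR, eval_finsetSum, Finset.sum_eq_single Q.natDegree]
    · simp [hQ.coeff_natDegree]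
    · intro i hi hne
      have hi' : i ≤ Q.natDegree := Nat.lt_succ_iff.mp (Finset.mem_range.mp hi)
      have : Q.natDegree - i ≠ 0 := by omega
      simp [this]
    · intro h
      exact absurd (Finset.self_mem_range_succ _) h
  have hR1 : R.eval 1 = ((Q.eval 1 : ℤ) : ℝ) := by
    rw [hR, eval_finsetSum, eval_eq_sum_range]
    push_cast
    simp
  have hR1' : R.eval 1 ≠ 0 := by rw [hR1]; exact_mod_cast hQ1
  have hgen : (PowerSeries.X * PowerSeries.mk fun n => B ((σ ^ (n + 1)) D) Y) =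
      (1 - PowerSeries.X) * PowerSeries.mk s - PowerSeries.C (s 0) := by
    ext n
    rcases n with _ | n
    · simp [sub_mul]
    · simp [sub_mul, PowerSeries.coeff_succ_X_mul, hc, PowerSeries.coeff_C]
  refine ⟨(1 - X) * A' - C (s 0) * R, R, by rw [hR0]; exact one_ne_zero, hR1', ?_, ?_⟩
  · rw [hgen]
    push_cast
    rw [← hA]
    ring
  · have : s 0 = B X' Y := by simp [hsdef]
    rw [eq_div_iff hR1']
    simp [this]

end Pool.Agent.FFC
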