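import Pool.Agent.P.MP_a2beea_nt.FC.Defs4

/-! Shtukas with legs at several levels, and the passage to the field of constants. -/

open Polynomial
open scoped TensorProduct NNReal IntermediateField

namespace Pool.Agent.FFC

noncomputable section

open Classical

/-- Interleaving of `l` sequences, shifted by `b`. -/
def ilv (l b : ℕ) (c : ℕ → ℕ → ℝ) (N : ℕ) : ℝ := c ((N + b) % l) ((N + b) / l)

section Lev

variable {k : Type*} [Field k] {E : Type*} [Field E] [Algebra k E]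
  {L : Type*} [Field L] [Algebra k L]

/-- The legs of level at most `b`. -/
def Dle (D : ℕ → (E →ₐ[k] L) →₀ ℤ) (b : ℕ) : (E →ₐ[k] L) →₀ ℤ := ∑ a ∈ Finset.range (b + 1), D a

/-- The legs of level larger than `b`. -/
def Dgt (D : ℕ → (E →ₐ[k] L) →₀ ℤ) (l b : ℕ) : (E →ₐ[k] L) →₀ ℤ :=
  ∑ a ∈ Finset.Ico (b + 1) l, D a

/-- All legs. -/
def Dtot (D : ℕ → (E →ₐ[k] L) →₀ ℤ) (l : ℕ) : (E →ₐ[k] L) →₀ ℤ := ∑ a ∈ Finset.range l, D a

/-- The degree of the part of `D` in the residue disc of `x`. -/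
def cnt (w : GV k L) (D : (E →ₐ[k] L) →₀ ℤ) (x : Pt k E L) : ℝ :=
  D.sum fun χ c => if red w (Pt.ofHom χ) = x then (c : ℝ) else 0

variable [IsDomain (L ⊗[k] E)]

/-- `G` is the value at `z` of the analytic function attached to `u`. -/
def IsG {C : Type*} [NormedField C] (j : L →+* C) (t : E) {n : ℕ} (e e' : Fin n → E)
    (J : AddSubgroup (FL k E L)) (u : FL k E L → PowerSeries C) (z : E →ₐ[k] L) (G : C) : Prop :=
  ∀ x ∈ J, HasSum (fun m => (∑ a, j (z (e' a)) *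
      PowerSeries.coeff m (u (tm 1 (e a) * x))) * j (z t) ^ m) (G * j (val (Pt.ofHom z) x))

variable [Fintype k] [IsAlgClosed L]

/-- The mean over the orbit at infinity. -/
def meanE (w : GV k L) (ε : Pt k E L → ℝ) (D : (E →ₐ[k] L) →₀ ℤ) (F : ℕ) (y : E →ₐ[k] L) : ℝ :=
  (∑ i ∈ Finset.range F, (ε (((fr k L)⁻¹ ^ i) • red w (Pt.ofHom y)) +
      cnt w D (((fr k L)⁻¹ ^ i) • red w (Pt.ofHom y)))) *
    ipt w (Pt.ofHom y) (red w (Pt.ofHom y)) / F

/-- A rank one shtuka with legs `D a` above `θ ^ p ^ a`, `a < l`, in general position. -/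
structure Sht2 (A : Subring L) (t : E) (θ : L) (p l : ℕ) (f : FL k E L)
    (I : AddSubgroup (FL k E L)) (D : ℕ → (E →ₐ[k] L) →₀ ℤ) : Prop where
  trans : Transcendental k θ
  mem : θ ∈ A
  alg_mem : ∀ c : k, algebraMap k L c ∈ A
  one_lt : 1 < p
  pow_eq : p ^ l = Fintype.card k
  ne : f ≠ 0
  lat : Lat A t I
  le : tauLat A t f I ≤ I
  pow : ∃ n : ℕ, ∀ x ∈ I,
    (∏ a ∈ Finset.range l, (tm 1 t - tm (θ ^ p ^ a) 1)) ^ n * x ∈ tauLat A t f I
  leg : ∀ a, ∀ y ∈ (D a).support, y t = θ ^ p ^ a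
  type : ∀ y : E →ₐ[k] L,
    dv t (tauLat A t f I) (Pt.ofHom y) = dv t I (Pt.ofHom y) + Dtot D l y
  gen0 : ∀ b < l, ∀ y : E →ₐ[k] L, y t = θ ^ p ^ b → dv t (tauLat A t f I) (Pt.ofHom y) = 0
  gen : ∀ b < l, ∀ y : E →ₐ[k] L, y t = θ ^ p ^ b → ∀ i : ℕ, 1 ≤ i →
    dv t I (Pt.ofHom (tw ((fr k L)⁻¹ ^ i) y)) = 0

/-- The lattice `N` of level `b`. -/
structure Lev (A : Subring L) (t : E) (θ : L) (p l : ℕ) (f : FL k E L)
    (I : AddSubgroup (FL k E L)) (D : ℕ → (E →ₐ[k] L) →₀ ℤ) (b : ℕ) (A' : Subring L)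
    (N : AddSubgroup (FL k E L)) : Prop where
  lt : b < l
  sub : A' ≤ A
  mem : θ ^ p ^ b ∈ A'
  alg_mem : ∀ c : k, algebraMap k L c ∈ A'
  lat : Lat A' t N
  le : N ≤ I
  tau : ∀ x ∈ I, f * mapF (fr k L) x ∈ N
  type : ∀ y : E →ₐ[k] L, dv t N (Pt.ofHom y) = dv t I (Pt.ofHom y) + Dle D b y

variable {θ : L}

/-- The height of a divisor. -/
def htD (P : PD k θ) (t : E) (D : (E →ₐ[k] L) →₀ ℤ) : ℝ :=
  D.sum fun χ c => (c : ℝ) * ht P t (Pt.ofHom χ)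

/-- The mean of the periodic part. -/
def meanI (P : PD k θ) (t : E) (D : (E →ₐ[k] L) →₀ ℤ) (F : ℕ) (y : E →ₐ[k] L) : ℝ :=
  degD D * ht P t (Pt.ofHom y) - (∑ i ∈ Finset.range F, cI P D (i + 1) y) / F

/-- The geometric expression for the height. -/
def HB (P : PD k θ) (t : E) (F l b : ℕ) (D : ℕ → (E →ₐ[k] L) →₀ ℤ) (X : (E →ₐ[k] L) →₀ ℤ)
    (y : E →ₐ[k] L) : ℝ :=
  -BB P t X (Finsupp.single y 1) + degD (Dle D b) * ht P t (Pt.ofHom y) +
    (htD P t (Dgt D l b) + Fintype.card k * htD P t (Dle D b)) / ((Fintype.card k : ℝ) - 1) +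
    regP F (fun n => cI P (Dtot D l) n y) + cI P (Dgt D l b) 0 y +
    degD (Dtot D l) * (((F : ℝ) + 1) / 2) * ht P t (Pt.ofHom y)

end Lev

section Two

variable (k₀ : Type*) [Field k₀] [Fintype k₀] {k : Type*} [Field k]
  {E K : Type*} [Field E] [Field K] [Algebra (RatFunc k₀) E] [Algebra (RatFunc k₀) K]
  [Algebra k E] {L : Type*} [Field L] [Algebra K L] [Algebra k L]

/-- The point `y` is the `b`-th Frobenius twist of the embedding `φ`. -/
def IsLift (φ : E →ₐ[RatFunc k₀] K) (b : ℕ) (y : E →ₐ[k] L) : Prop :=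
  ∀ a, y a = algebraMap K L (φ a) ^ Fintype.card k₀ ^ b

variable (k L) in
/-- The divisor of the legs of level `a`. -/
def legs2 [Fintype (E →ₐ[RatFunc k₀] K)] (d : (E →ₐ[RatFunc k₀] K) → ℕ) (a : ℕ) :
    (E →ₐ[k] L) →₀ ℤ :=
  ∑ φ, if h : ∃ y : E →ₐ[k] L, IsLift k₀ φ a y then Finsupp.single h.choose (d φ : ℤ) else 0

/-- The `q₀ ^ b`-th powers of the members of `O_K`. -/
def AKp (OK K L : Type*) [CommRing OK] [Field K] [Field L] [Algebra OK K] [Algebra K L]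
    [Algebra k₀ L] (b : ℕ) : Subring L :=
  (AK OK K L).map (FiniteField.frobeniusAlgHom k₀ L ^ b : L →ₐ[k₀] L).toRingHom

/-- The centre of a valuation. -/
def cent (OK K : Type*) [CommRing OK] [Field K] [Algebra OK K] [Algebra K L]
    (v : Valuation L ℝ≥0) : Ideal OK :=
  Ideal.span {c | v (algebraMap K L (algebraMap OK K c)) < 1}

variable {k₀} in
/-- The mean of `d (g⁻¹ φ)` over a Frobenius coset. -/
def psi {OK : Type*} [CommRing OK] [Algebra OK K] (d : (E →ₐ[RatFunc k₀] K) → ℕ)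
    (φ : E →ₐ[RatFunc k₀] K) (N : ℕ) (𝔔 : Ideal OK) : ℝ :=
  (∑ᶠ g ∈ frobSet k₀ K 𝔔 N, (d ((g⁻¹ : K ≃ₐ[RatFunc k₀] K).toAlgHom.comp φ) : ℝ)) /
    (frobSet k₀ K 𝔔 N).ncard

variable {k₀}

/-- `res` is the restriction of automorphisms of `L` to `K`. -/
def IsRes2 {θ : L} (res : GG k θ →* (K ≃ₐ[RatFunc k₀] K)) : Prop :=
  ∀ η x, algebraMap K L (res η x) = η.1 (algebraMap K L x)

variable {OE OK : Type*} [CommRing OE] [CommRing OK] [Algebra k₀ OE] [Algebra k₀ OK]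
  [Algebra OE E] [Algebra OK K]

variable (K) in
/-- `ρ` is the natural map from `O_K ⊗ O_E` to the function field of one component. -/
def IsRho2 (ρ : OK ⊗[k₀] OE →+* FL k E L) : Prop :=
  ∀ (c : OK) (b : OE),
    ρ (c ⊗ₜ[k₀] b) = tm (algebraMap K L (algebraMap OK K c)) (algebraMap OE E b)

/-- The idempotents of the components. -/
structure IsIdem (ρ : OK ⊗[k₀] OE →+* FL k E L) (l : ℕ) (ε : ℕ → OK ⊗[k₀] OE) : Prop where
  val : ∀ b < l, ∀ b' < l, ρ ((sig k₀ OE OK ^ b') (ε b)) = if b' = b then 1 else 0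
  inj : ∀ r, (∀ b < l, ρ ((sig k₀ OE OK ^ b) r) = 0) → r = 0

variable {M : Type*} [AddCommGroup M] [Module (OK ⊗[k₀] OE) M]

variable (k₀ OE OK) in
/-- The image of `τ ^ b (σ^* M)`. -/
def Nb (τ : M →+ M) (μ : M →+ FL k E L) (b : ℕ) : AddSubgroup (FL k E L) where
  carrier := {y | ∃ x ∈ dRLat k₀ OE OK τ, y = μ (τ^[b] x)}
  zero_mem' := ⟨0, zero_mem _, by rw [iterate_map_zero, map_zero]⟩
  add_mem' := by
    rintro _ _ ⟨x, hx, rfl⟩ ⟨y, hy, rfl⟩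
    exact ⟨x + y, add_mem hx hy, by rw [iterate_map_add, map_add]⟩
  neg_mem' := by
    rintro _ ⟨x, hx, rfl⟩
    exact ⟨-x, neg_mem hx, by rw [iterate_map_neg, map_neg]⟩

variable [Fintype k] [IsAlgClosed L] [IsDomain (L ⊗[k] E)]

/-- `μ` maps one component of the motive into the function field. -/
structure IsEmb2 (ρ : OK ⊗[k₀] OE →+* FL k E L) (l : ℕ) (ε : ℕ → OK ⊗[k₀] OE) (τ : M →+ M)
    (μ : M →+ FL k E L) (f : FL k E L) (I : AddSubgroup (FL k E L)) : Prop where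
  ker : ∀ x, μ x = 0 ↔ ε 0 • x = 0
  smul : ∀ (r : OK ⊗[k₀] OE) (x : M), μ (r • x) = ρ r * μ x
  range : μ.range = I
  tau : ∀ x : M, μ (τ^[l] x) = f * mapF (fr k L) (μ x)

end Two

end

end Pool.Agent.FFC
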