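import Pool.Agent.P.MP_a2beea_nt.FC.Ht
import Pool.Agent.P.MP_a2beea_nt.FC.Defs5

/-! Additivity in the divisor (`Finsupp.sum_add_index'`), and the levels. `lev_inj`: `p ^ a` divides a
power of the cardinality of `k` (`l ≠ 0`), and `fr k L` is injective. -/

open Polynomial
open scoped TensorProduct NNReal IntermediateField

namespace Pool.Agent.FFC

open Classical

set_option linter.unusedSectionVars false

variable {k : Type*} [Field k] [Fintype k] {E : Type*} [Field E] [Algebra k E] {t : E}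
  {L : Type*} [Field L] [Algebra k L] [IsAlgClosed L]
  [IsDomain (L ⊗[k] E)]
  [Nonempty (GV k L)]
  {θ : L}
  {A A' : Subring L} {f : FL k E L} {I J N : AddSubgroup (FL k E L)}
  {D : ℕ → (E →ₐ[k] L) →₀ ℤ} {p l b : ℕ} {y : E →ₐ[k] L}
  {X Y : (E →ₐ[k] L) →₀ ℤ}

theorem Dle_add_Dgt (D : ℕ → (E →ₐ[k] L) →₀ ℤ) (hb : b < l) :
    Dle D b + Dgt D l b = Dtot D l := Finset.sum_range_add_sum_Ico D hb

theorem degD_add (X Y : (E →ₐ[k] L) →₀ ℤ) : degD (X + Y) = degD X + degD Y :=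
  Finsupp.sum_add_index' (fun _ => Int.cast_zero) fun _ _ _ => Int.cast_add _ _

theorem degD_sum {ι : Type*} (s : Finset ι) (X : ι → (E →ₐ[k] L) →₀ ℤ) :
    degD (∑ i ∈ s, X i) = ∑ i ∈ s, degD (X i) := by
  induction s using Finset.induction_on with
  | empty => simp [degD]
  | insert i s hi ih => rw [Finset.sum_insert hi, Finset.sum_insert hi, degD_add, ih]

theorem htD_add (P : PD k θ) (t : E) (X Y : (E →ₐ[k] L) →₀ ℤ) :
    htD P t (X + Y) = htD P t X + htD P t Y :=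
  Finsupp.sum_add_index' (fun _ => by simp) fun _ _ _ => by rw [Int.cast_add, add_mul]

theorem htD_sum (P : PD k θ) (t : E) {ι : Type*} (s : Finset ι) (X : ι → (E →ₐ[k] L) →₀ ℤ) :
    htD P t (∑ i ∈ s, X i) = ∑ i ∈ s, htD P t (X i) := by
  induction s using Finset.induction_on with
  | empty => simp [htD]
  | insert i s hi ih => rw [Finset.sum_insert hi, Finset.sum_insert hi, htD_add, ih]

theorem cL_sum (w : GV k L) {ι : Type*} (s : Finset ι) (X : ι → (E →ₐ[k] L) →₀ ℤ) (n : ℕ)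
    (y : E →ₐ[k] L) : cL w (∑ i ∈ s, X i) n y = ∑ i ∈ s, cL w (X i) n y := by
  induction s using Finset.induction_on with
  | empty => simp [cL]
  | insert i s hi ih =>
    rw [Finset.sum_insert hi, Finset.sum_insert hi, ← ih]
    exact Finsupp.sum_add_index' (fun _ => by simp) fun _ _ _ => by rw [Int.cast_add, add_mul]

theorem cI_sum (h : FF k t) (P : PD k θ) {ι : Type*} (s : Finset ι) (X : ι → (E →ₐ[k] L) →₀ ℤ)
    (n : ℕ) (y : E →ₐ[k] L) : cI P (∑ i ∈ s, X i) n y = ∑ i ∈ s, cI P (X i) n y := by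
  simp only [cI, cL_sum]
  exact avg_sum P s fun i _ => (adm_cL h P (X i) n y).1 none

theorem mem_support_sum {s : Finset ℕ} {χ : E →ₐ[k] L} (hχ : χ ∈ (∑ a ∈ s, D a).support) :
    ∃ a ∈ s, χ ∈ (D a).support := by
  simpa only [Finset.mem_biUnion] using Finsupp.support_finsetSum hχ

private theorem add2_pow_inj (htr : Transcendental k θ) {m n : ℕ} (h : θ ^ m = θ ^ n) : m = n := by
  by_contra hne
  exact htr ⟨Polynomial.X ^ m - Polynomial.X ^ n,
    sub_ne_zero.2 fun e => hne (by simpa using congrArg natDegree e), by simp [h]⟩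

theorem lev_ne (htr : Transcendental k θ) (hp : 1 < p) {a b : ℕ} (hab : a ≠ b) :
    θ ^ p ^ a ≠ θ ^ p ^ b := fun e => hab (Nat.pow_right_injective hp (add2_pow_inj htr e))

theorem lev_trans (htr : Transcendental k θ) (hp : 1 < p) (a : ℕ) :
    Transcendental k (θ ^ p ^ a) := htr.pow (by positivity)

theorem lev_inj (hl : p ^ l = Fintype.card k) (a : ℕ) {x x' : L} (hx : x ^ p ^ a = x' ^ p ^ a) :
    x = x' := by
  have h0 : 1 ≤ l := Nat.pos_of_ne_zero fun e => by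
    rw [e, pow_zero] at hl
    exact Fintype.one_lt_card.ne hl
  obtain ⟨c, hc⟩ : ∃ c, l * a = a + c := Nat.exists_eq_add_of_le (Nat.le_mul_of_pos_left a h0)
  refine (fr k L ^ a).injective ?_
  rw [fr_pow_apply, fr_pow_apply, ← hl, ← pow_mul, hc, pow_add, pow_mul, pow_mul, hx]

theorem one_lt_lev (w : GV k L) (hθ : 1 < w.v θ) (hp : 1 < p) (a : ℕ) :
    1 < w.v (θ ^ p ^ a) := by
  rw [map_pow]
  exact one_lt_pow₀ hθ (by positivity)

theorem lev_lt (w : GV k L) (hθ : 1 < w.v θ) (hp : 1 < p) {a b : ℕ} (hab : b < a) :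
    w.v (θ ^ p ^ b) < w.v (θ ^ p ^ a) := by
  rw [map_pow, map_pow]
  exact pow_lt_pow_right₀ hθ (Nat.pow_lt_pow_right hp hab)

theorem lev_lt_pow (w : GV k L) (hθ : 1 < w.v θ) (hp : 1 < p) (hl : p ^ l = Fintype.card k)
    (hb : b < l) (a : ℕ) : w.v (θ ^ p ^ b) < w.v (θ ^ p ^ a) ^ Fintype.card k := by
  rw [← hl, ← map_pow, ← pow_mul, ← pow_add]
  exact lev_lt w hθ hp (by omega)

theorem bk_t_ne2 (htr : Transcendental k θ) (hp : 1 < p) (hl : p ^ l = Fintype.card k)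
    (hb : b < l) (hy : y t = θ ^ p ^ b) {i : ℕ} (hi : 1 ≤ i) (a : ℕ) :
    (tw ((fr k L)⁻¹ ^ i) y) t ≠ θ ^ p ^ a := by
  intro e
  have e1 : ((fr k L)⁻¹ ^ i) (θ ^ p ^ b) = θ ^ p ^ a := by
    rw [← hy]
    exact e
  have e2 : (fr k L ^ i) (θ ^ p ^ a) = θ ^ p ^ b := by
    rw [← e1, ← AlgEquiv.mul_apply, inv_pow, mul_inv_cancel, AlgEquiv.one_apply]
  rw [fr_pow_apply, ← hl, ← pow_mul, ← pow_mul, ← pow_add] at e2
  have : l ≤ l * i := Nat.le_mul_of_pos_right l hi
  exact lev_ne htr hp (by omega) e2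

theorem tw_ne2 (htr : Transcendental k θ) (hp : 1 < p) (hl : p ^ l = Fintype.card k)
    {χ : E →ₐ[k] L} {a n : ℕ} (hχ : χ t = θ ^ p ^ a) (hy : y t = θ ^ p ^ b)
    (hlt : b < l * n + a) : tw (fr k L ^ n) χ ≠ y := by
  intro e
  have e1 : (fr k L ^ n) (χ t) = y t := by
    rw [← e]
    rfl
  rw [hχ, hy, fr_pow_apply, ← hl, ← pow_mul, ← pow_mul, ← pow_add] at e1
  exact lev_ne htr hp (by omega) e1

theorem ht_lev (P : PD k θ) {m : ℕ} (hy : y t = θ ^ m) :
    ht P t (Pt.ofHom y) = m * (Real.log (Fintype.card k) / dg k t) := by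
  simp only [ht, Pt.ofHom_ev, hy, map_pow, NNReal.coe_pow, Real.posLog_pow]
  rw [← mul_div_assoc, ← II_posLog_theta P]
  congr 1
  have z : ∀ v, v ≠ none → (fun η => Real.posLog ((P.W v η).v θ)) = fun _ => (0 : ℝ) := by
    rintro (_ | π) hv
    · exact absurd rfl hv
    · funext η
      rw [Real.posLog_eq_zero_iff, abs_of_nonneg (NNReal.coe_nonneg _)]
      exact_mod_cast P.W_fin_le π η
  unfold II
  rw [finsum_eq_single _ none, finsum_eq_single _ none]
  · simp only [P.W_inf, avg_const]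
  · intro v hv
    simp only [z v hv, avg_const]
  · intro v hv
    simp only [congrFun (z v hv), mul_zero, avg_const]

theorem W_fin_lev (P : PD k θ) {m : ℕ} (hy : y t = θ ^ m) (π) (η : GG k θ) :
    (P.W (some π) η).v (y t) ≤ 1 := by
  rw [hy, map_pow]
  exact pow_le_one₀ zero_le (P.W_fin_le π η)

theorem W_inf_one_lt (P : PD k θ) (η : GG k θ) : 1 < (P.W none η).v θ := by
  rw [P.W_inf]
  exact_mod_cast Fintype.one_lt_card

end Pool.Agent.FFC
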