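import Pool.Agent.P.MP_a2beea_nt.FC.Defs3

/-! Means over a group of functions which factor through a finite quotient. `avg_eq`: the fibres of
`G ⧸ H → G ⧸ per Φ` all have `H.relIndex (per Φ)` elements. For `Loc.finiteIndex`: the period
group contains the pointwise stabilizer of the finite set `S`, and each `s ∈ S` has a finite orbit
(roots of its minimal polynomial over `k⟮θ⟯`; members of `GG k θ` fix `k⟮θ⟯`).
`avg_shift`: the period group of the shifted function is a conjugate; if the index is `0` both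
sides are `0`. -/

open Polynomial
open scoped TensorProduct NNReal IntermediateField

namespace Pool.Agent.FFC

open Classical

variable {k : Type*} [Field k] [Fintype k] {L : Type*} [Field L] [Algebra k L] [IsAlgClosed L]
  {θ : L}

theorem per_eq_of_mk {G : Type*} [Group G] {Φ : G → ℝ} {a b : G}
    (h : (a : G ⧸ per Φ) = (b : G ⧸ per Φ)) : Φ a = Φ b := by
  have h1 : a⁻¹ * b ∈ per Φ := QuotientGroup.eq.mp h
  have h2 := h1 a
  rw [mul_inv_cancel_left] at h2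
  exact h2.symm

theorem avg_eq {G : Type*} [Group G] {Φ : G → ℝ} (H : Subgroup G) [H.FiniteIndex]
    (hH : H ≤ per Φ) : avg Φ = (∑ᶠ c : G ⧸ H, Φ c.out) / H.index := by
  haveI : (per Φ).FiniteIndex := Subgroup.finiteIndex_of_le hH
  haveI : Finite (G ⧸ H) := Subgroup.finite_quotient_of_finiteIndex
  haveI : Finite (G ⧸ per Φ) := Subgroup.finite_quotient_of_finiteIndex
  haveI : Finite (per Φ ⧸ H.subgroupOf (per Φ)) := Subgroup.finite_quotient_of_finiteIndex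
  haveI := Fintype.ofFinite (G ⧸ H)
  haveI := Fintype.ofFinite (G ⧸ per Φ)
  haveI := Fintype.ofFinite (per Φ ⧸ H.subgroupOf (per Φ))
  have key : ∀ c : G ⧸ H, Φ c.out = Φ ((Subgroup.quotientEquivProdOfLE hH c).1).out := by
    intro c
    apply per_eq_of_mk
    rw [QuotientGroup.out_eq']
    induction c using QuotientGroup.induction_on with
    | H a =>
      have h1 : ((Subgroup.quotientEquivProdOfLE hH (a : G ⧸ H)).1) = (a : G ⧸ per Φ) := rfl
      rw [h1, QuotientGroup.eq]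
      apply hH
      rw [← QuotientGroup.eq, QuotientGroup.out_eq']
  have h2 : (∑ᶠ c : G ⧸ H, Φ c.out) =
      (H.relIndex (per Φ) : ℝ) * ∑ᶠ d : G ⧸ per Φ, Φ d.out := by
    rw [finsum_congr key,
      finsum_comp_equiv (Subgroup.quotientEquivProdOfLE hH) (f := fun p => Φ p.1.out),
      finsum_eq_sum_of_fintype, finsum_eq_sum_of_fintype, Fintype.sum_prod_type, Finset.mul_sum]
    refine Finset.sum_congr rfl fun d _ => ?_
    simp only [Finset.sum_const, Finset.card_univ, nsmul_eq_mul]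
    rw [Subgroup.relIndex, Subgroup.index, Nat.card_eq_fintype_card]
  have h3 : (H.index : ℝ) = (H.relIndex (per Φ) : ℝ) * (per Φ).index := by
    rw [← Nat.cast_mul, Subgroup.relIndex_mul_index hH]
  have h4 : (H.relIndex (per Φ) : ℝ) ≠ 0 := by
    intro h0
    have h5 : (H.index : ℝ) ≠ 0 := Nat.cast_ne_zero.mpr Subgroup.FiniteIndex.index_ne_zero
    rw [h3, h0, zero_mul] at h5
    exact h5 rfl
  rw [h2, h3, avg, mul_div_mul_left _ _ h4]

theorem avg_const {G : Type*} [Group G] (c : ℝ) : avg (fun _ : G => c) = c := by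
  rw [avg_eq (⊤ : Subgroup G) (fun _ _ _ => rfl), Subgroup.index_top]
  haveI : Unique (G ⧸ (⊤ : Subgroup G)) :=
    ⟨⟨((1 : G) : G ⧸ (⊤ : Subgroup G))⟩, fun a => QuotientGroup.subsingleton_quotient_top.elim _ _⟩
  simp [finsum_unique]

theorem avg_shift {G : Type*} [Group G] (Φ : G → ℝ) (g : G) :
    avg (fun η => Φ (η * g)) = avg Φ := by
  have hm : ∀ a b : G, a⁻¹ * b ∈ per (fun η => Φ (η * g)) ↔ (a * g)⁻¹ * (b * g) ∈ per Φ := by
    intro a b
    constructor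
    · intro h x
      have := h (x * g⁻¹)
      simp only [mul_inv_rev, mul_assoc, inv_mul_cancel, mul_one] at this ⊢
      exact this
    · intro h x
      have := h (x * g)
      simp only [mul_inv_rev, mul_assoc, mul_inv_cancel_left] at this ⊢
      exact this
  let e : G ⧸ per (fun η => Φ (η * g)) ≃ G ⧸ per Φ :=
    Quotient.congr (Equiv.mulRight g) fun a b => by
      rw [QuotientGroup.leftRel_apply, QuotientGroup.leftRel_apply]
      exact hm a b
  have he : ∀ a : G, e (a : G ⧸ per (fun η => Φ (η * g))) = ((a * g : G) : G ⧸ per Φ) :=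
    fun a => rfl
  unfold avg
  rw [← finsum_comp_equiv e, Subgroup.index, Subgroup.index, Nat.card_congr e]
  congr 1
  refine finsum_congr fun c => ?_
  apply per_eq_of_mk
  rw [QuotientGroup.out_eq', ← he, QuotientGroup.out_eq']

theorem avg_comp_surj {G G' : Type*} [Group G] [Group G'] [Finite G'] (ρ : G →* G')
    (hρ : Function.Surjective ρ) (Ψ : G' → ℝ) :
    avg (fun η => Ψ (ρ η)) = (∑ᶠ g, Ψ g) / Nat.card G' := by
  let e : G ⧸ ρ.ker ≃* G' := QuotientGroup.quotientKerEquivOfSurjective ρ hρ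
  have he : ∀ a : G, e (a : G ⧸ ρ.ker) = ρ a := fun a => rfl
  haveI : Finite (G ⧸ ρ.ker) := Finite.of_equiv _ e.toEquiv.symm
  haveI : ρ.ker.FiniteIndex := Subgroup.finiteIndex_of_finite_quotient
  rw [avg_eq ρ.ker (fun h hh g => by
    have : ρ h = 1 := hh
    simp only [map_mul, this, mul_one]), Subgroup.index, Nat.card_congr e.toEquiv,
    ← finsum_comp_equiv e.toEquiv]
  congr 1
  refine finsum_congr fun c => ?_
  have : e c = ρ c.out := by rw [← he, QuotientGroup.out_eq']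
  rw [← this]
  rfl

theorem Loc.finiteIndex (P : PD k θ) {Φ : GG k θ → ℝ} (h : Loc Φ) : (per Φ).FiniteIndex := by
  obtain ⟨S, hS⟩ := h
  have hfix : ∀ (η : GG k θ) (x : k⟮θ⟯), η.1 (x : L) = x := by
    intro η x
    have h1 : k⟮θ⟯ ≤ IntermediateField.fixedField (GG k θ) := by
      rw [IntermediateField.adjoin_simple_le_iff, IntermediateField.mem_fixedField_iff]
      intro f hf
      exact hf
    exact (IntermediateField.mem_fixedField_iff _ _).mp (h1 x.2) η.1 η.2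
  have hfin : ∀ s : L, (MulAction.stabilizer (GG k θ) s).FiniteIndex := by
    intro s
    have hi : IsIntegral k⟮θ⟯ s := (P.alg s).isIntegral
    have hsub : MulAction.orbit (GG k θ) s ⊆ (minpoly k⟮θ⟯ s).rootSet L := by
      rintro _ ⟨η, rfl⟩
      rw [Polynomial.mem_rootSet]
      refine ⟨minpoly.ne_zero hi, ?_⟩
      let φ : L →ₐ[k⟮θ⟯] L :=
        { (η.1 : L →+* L) with commutes' := fun x => hfix η x }
      have : (η • s : L) = φ s := rfl
      simp only [this]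
      rw [Polynomial.aeval_algHom_apply, minpoly.aeval, map_zero]
    have hf : (MulAction.orbit (GG k θ) s).Finite := (Polynomial.rootSet_finite _ _).subset hsub
    haveI : Finite (MulAction.orbit (GG k θ) s) := hf
    haveI : Finite (GG k θ ⧸ MulAction.stabilizer (GG k θ) s) :=
      Finite.of_equiv _ (MulAction.orbitEquivQuotientStabilizer (GG k θ) s)
    exact Subgroup.finiteIndex_of_finite_quotient
  haveI := Subgroup.finiteIndex_iInf' (s := S) (fun s => MulAction.stabilizer (GG k θ) s)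
    fun s _ => hfin s
  refine Subgroup.finiteIndex_of_le
    (H := ⨅ s ∈ S, MulAction.stabilizer (GG k θ) s) fun h hh g => hS _ _ fun s hs => ?_
  simp only [Subgroup.mem_iInf] at hh
  have h1 : h.1 s = s := hh s hs
  change g.1 (h.1 s) = g.1 s
  rw [h1]

theorem Loc.const (c : ℝ) : Loc (fun _ : GG k θ => c) := ⟨∅, fun _ _ _ => rfl⟩

theorem Loc.comp {Φ : GG k θ → ℝ} (h : Loc Φ) (F : ℝ → ℝ) : Loc fun η => F (Φ η) := by
  obtain ⟨S, hS⟩ := h
  exact ⟨S, fun η η' he => by simp only [hS η η' he]⟩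

theorem Loc.comp₂ {Φ Ψ : GG k θ → ℝ} (h : Loc Φ) (h' : Loc Ψ) (F : ℝ → ℝ → ℝ) :
    Loc fun η => F (Φ η) (Ψ η) := by
  obtain ⟨S, hS⟩ := h
  obtain ⟨T, hT⟩ := h'
  refine ⟨S ∪ T, fun η η' he => ?_⟩
  simp only [hS η η' fun s hs => he s (Finset.mem_union_left _ hs),
    hT η η' fun s hs => he s (Finset.mem_union_right _ hs)]

theorem Loc.sum {ι : Type*} (s : Finset ι) {Φ : ι → GG k θ → ℝ} (h : ∀ i ∈ s, Loc (Φ i)) :
    Loc fun η => ∑ i ∈ s, Φ i η := by
  induction s using Finset.induction_on with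
  | empty => simpa using Loc.const (k := k) (θ := θ) 0
  | insert a s ha ih =>
    simp only [Finset.sum_insert ha]
    exact (h a (Finset.mem_insert_self _ _)).comp₂
      (ih fun i hi => h i (Finset.mem_insert_of_mem hi)) (· + ·)

theorem Loc.shift {Φ : GG k θ → ℝ} (h : Loc Φ) (g : GG k θ) : Loc fun η => Φ (η * g) := by
  obtain ⟨S, hS⟩ := h
  refine ⟨S.image g.1, fun η η' he => hS _ _ fun s hs => ?_⟩
  exact he _ (Finset.mem_image_of_mem _ hs)

theorem avg_add (P : PD k θ) {Φ Ψ : GG k θ → ℝ} (h : Loc Φ) (h' : Loc Ψ) :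
    avg (fun η => Φ η + Ψ η) = avg Φ + avg Ψ := by
  haveI := h.finiteIndex P
  haveI := h'.finiteIndex P
  haveI : Finite (GG k θ ⧸ (per Φ ⊓ per Ψ)) := Subgroup.finite_quotient_of_finiteIndex
  rw [avg_eq (per Φ ⊓ per Ψ) inf_le_left, avg_eq (per Φ ⊓ per Ψ) inf_le_right,
    avg_eq (per Φ ⊓ per Ψ) (fun x hx g => by simp only [hx.1 g, hx.2 g]),
    finsum_add_distrib (Set.toFinite _) (Set.toFinite _), add_div]

theorem avg_sub (P : PD k θ) {Φ Ψ : GG k θ → ℝ} (h : Loc Φ) (h' : Loc Ψ) :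
    avg (fun η => Φ η - Ψ η) = avg Φ - avg Ψ := by
  have := avg_add P (h.comp₂ h' (· - ·)) h'
  simp only [sub_add_cancel] at this
  rw [eq_sub_iff_add_eq]
  exact this.symm

theorem avg_const_mul (P : PD k θ) {Φ : GG k θ → ℝ} (h : Loc Φ) (c : ℝ) :
    avg (fun η => c * Φ η) = c * avg Φ := by
  haveI := h.finiteIndex P
  rw [avg_eq (Φ := fun η => c * Φ η) (per Φ) (fun x hx g => by simp only [hx g]), avg,
    ← mul_finsum, mul_div_assoc]

theorem avg_sum (P : PD k θ) {ι : Type*} (s : Finset ι) {Φ : ι → GG k θ → ℝ}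
    (h : ∀ i ∈ s, Loc (Φ i)) : avg (fun η => ∑ i ∈ s, Φ i η) = ∑ i ∈ s, avg (Φ i) := by
  induction s using Finset.induction_on with
  | empty => simpa using avg_const (G := GG k θ) 0
  | insert a s ha ih =>
    simp only [Finset.sum_insert ha]
    rw [avg_add P (h a (Finset.mem_insert_self _ _))
      (Loc.sum s fun i hi => h i (Finset.mem_insert_of_mem hi)),
      ih fun i hi => h i (Finset.mem_insert_of_mem hi)]

theorem avg_mono (P : PD k θ) {Φ Ψ : GG k θ → ℝ} (h : Loc Φ) (h' : Loc Ψ)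
    (hle : ∀ η, Φ η ≤ Ψ η) : avg Φ ≤ avg Ψ := by
  haveI := h.finiteIndex P
  haveI := h'.finiteIndex P
  haveI : Finite (GG k θ ⧸ (per Φ ⊓ per Ψ)) := Subgroup.finite_quotient_of_finiteIndex
  rw [avg_eq (per Φ ⊓ per Ψ) inf_le_left, avg_eq (per Φ ⊓ per Ψ) inf_le_right]
  exact div_le_div_of_nonneg_right
    (finsum_le_finsum' (Set.toFinite _) (Set.toFinite _) fun c => hle _) (Nat.cast_nonneg _)

theorem avg_regP (P : PD k θ) (F : ℕ) {Φ : ℕ → GG k θ → ℝ} (h : ∀ n, Loc (Φ n)) :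
    Loc (fun η => regP F fun n => Φ n η) ∧
      avg (fun η => regP F fun n => Φ n η) = regP F fun n => avg (Φ n) := by
  have hs : ∀ i ∈ Finset.range F, Loc fun η => ((i : ℝ) + 1) * Φ (i + 1) η :=
    fun i _ => (h (i + 1)).comp fun x => ((i : ℝ) + 1) * x
  have he : (fun η => regP F fun n => Φ n η) =
      fun η => (-(F : ℝ)⁻¹) * ∑ i ∈ Finset.range F, ((i : ℝ) + 1) * Φ (i + 1) η := by
    funext η
    unfold regP
    ring
  rw [he]
  refine ⟨(Loc.sum _ hs).comp fun x => (-(F : ℝ)⁻¹) * x, ?_⟩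
  rw [avg_const_mul P (Loc.sum _ hs), avg_sum P _ hs]
  unfold regP
  rw [Finset.sum_congr rfl fun i _ => avg_const_mul P (h (i + 1)) ((i : ℝ) + 1)]
  ring

theorem PD.W_comap (P : PD k θ) (v : Pl k) (η g : GG k θ) :
    (P.W v η).comap g.1 = P.W v (η * g) := by
  unfold PD.W GV.comap
  congr 1

section Gen

variable {ι : Type*}

/-- Admissible families over an arbitrary index type. -/
def AdmG (Φ : ι → GG k θ → ℝ) : Prop := (∀ v, Loc (Φ v)) ∧ {v | Φ v ≠ 0}.Finite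

theorem AdmG.comp₂ {Φ Ψ : ι → GG k θ → ℝ} (h : AdmG Φ) (h' : AdmG Ψ) (F : ℝ → ℝ → ℝ)
    (hF : F 0 0 = 0) : AdmG fun v η => F (Φ v η) (Ψ v η) := by
  refine ⟨fun v => (h.1 v).comp₂ (h'.1 v) F, (h.2.union h'.2).subset fun v hv => ?_⟩
  by_contra hn
  simp only [Set.mem_union, Set.mem_setOf_eq, not_or, not_not] at hn
  apply hv
  funext η
  simp [hn.1, hn.2, hF]

theorem AdmG.zero : AdmG fun (_ : ι) (_ : GG k θ) => (0 : ℝ) :=
  ⟨fun _ => Loc.const 0, Set.finite_empty.subset fun _ hv => hv rfl⟩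

theorem AdmG.sum {κ : Type*} (s : Finset κ) {Φ : κ → ι → GG k θ → ℝ}
    (h : ∀ i ∈ s, AdmG (Φ i)) : AdmG fun v η => ∑ i ∈ s, Φ i v η := by
  induction s using Finset.induction_on with
  | empty => simpa using AdmG.zero (k := k) (θ := θ) (ι := ι)
  | insert a s ha ih =>
    simp only [Finset.sum_insert ha]
    exact (h a (Finset.mem_insert_self _ _)).comp₂
      (ih fun i hi => h i (Finset.mem_insert_of_mem hi)) (· + ·) (add_zero 0)

theorem AdmG.supp {Φ : ι → GG k θ → ℝ} (h : AdmG Φ) :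
    (Function.support fun v => avg (Φ v)).Finite := by
  refine h.2.subset fun v hv h0 => hv ?_
  change avg (Φ v) = 0
  rw [h0]
  exact avg_const 0

theorem AdmG.add_eq (P : PD k θ) {Φ Ψ : ι → GG k θ → ℝ} (h : AdmG Φ) (h' : AdmG Ψ) :
    ∑ᶠ v, avg (fun η => Φ v η + Ψ v η) = ∑ᶠ v, avg (Φ v) + ∑ᶠ v, avg (Ψ v) := by
  rw [← finsum_add_distrib h.supp h'.supp]
  exact finsum_congr fun v => avg_add P (h.1 v) (h'.1 v)

theorem AdmG.sub_eq (P : PD k θ) {Φ Ψ : ι → GG k θ → ℝ} (h : AdmG Φ) (h' : AdmG Ψ) :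
    ∑ᶠ v, avg (fun η => Φ v η - Ψ v η) = ∑ᶠ v, avg (Φ v) - ∑ᶠ v, avg (Ψ v) := by
  rw [← finsum_sub_distrib h.supp h'.supp]
  exact finsum_congr fun v => avg_sub P (h.1 v) (h'.1 v)

theorem AdmG.mul_eq (P : PD k θ) {Φ : ι → GG k θ → ℝ} (h : AdmG Φ) (c : ℝ) :
    ∑ᶠ v, avg (fun η => c * Φ v η) = c * ∑ᶠ v, avg (Φ v) := by
  rw [mul_finsum]
  exact finsum_congr fun v => avg_const_mul P (h.1 v) c

theorem AdmG.sum_eq (P : PD k θ) {κ : Type*} (s : Finset κ) {Φ : κ → ι → GG k θ → ℝ}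
    (h : ∀ i ∈ s, AdmG (Φ i)) :
    ∑ᶠ v, avg (fun η => ∑ i ∈ s, Φ i v η) = ∑ i ∈ s, ∑ᶠ v, avg (Φ i v) := by
  rw [sum_finsum_comm s (fun i v => avg (Φ i v)) fun i hi => (h i hi).supp]
  exact finsum_congr fun v => avg_sum P s fun i hi => (h i hi).1 v

end Gen

theorem Adm.admF {Φ : Pl k → GG k θ → ℝ} (h : Adm Φ) : AdmF Φ :=
  ⟨fun π => h.1 (some π), h.2.preimage (Option.some_injective _).injOn⟩

theorem Adm.add {Φ Ψ : Pl k → GG k θ → ℝ} (h : Adm Φ) (h' : Adm Ψ) :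
    Adm fun v η => Φ v η + Ψ v η := AdmG.comp₂ h h' (· + ·) (add_zero 0)

theorem Adm.sub {Φ Ψ : Pl k → GG k θ → ℝ} (h : Adm Φ) (h' : Adm Ψ) :
    Adm fun v η => Φ v η - Ψ v η := AdmG.comp₂ h h' (· - ·) (sub_zero 0)

theorem Adm.const_mul {Φ : Pl k → GG k θ → ℝ} (h : Adm Φ) (c : ℝ) :
    Adm fun v η => c * Φ v η := AdmG.comp₂ h h (fun x _ => c * x) (mul_zero c)

theorem Adm.sum {ι : Type*} (s : Finset ι) {Φ : ι → Pl k → GG k θ → ℝ}
    (h : ∀ i ∈ s, Adm (Φ i)) : Adm fun v η => ∑ i ∈ s, Φ i v η := AdmG.sum s h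

theorem Adm.shift {Φ : Pl k → GG k θ → ℝ} (h : Adm Φ) (g : GG k θ) :
    Adm fun v η => Φ v (η * g) := by
  refine ⟨fun v => (h.1 v).shift g, h.2.subset fun v hv h0 => hv ?_⟩
  funext η
  simp [h0]

theorem AdmF.add {Φ Ψ : Pl k → GG k θ → ℝ} (h : AdmF Φ) (h' : AdmF Ψ) :
    AdmF fun v η => Φ v η + Ψ v η :=
  AdmG.comp₂ (Φ := fun π => Φ (some π)) (Ψ := fun π => Ψ (some π)) h h' (· + ·) (add_zero 0)

theorem AdmF.sub {Φ Ψ : Pl k → GG k θ → ℝ} (h : AdmF Φ) (h' : AdmF Ψ) :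
    AdmF fun v η => Φ v η - Ψ v η :=
  AdmG.comp₂ (Φ := fun π => Φ (some π)) (Ψ := fun π => Ψ (some π)) h h' (· - ·) (sub_zero 0)

theorem AdmF.const_mul {Φ : Pl k → GG k θ → ℝ} (h : AdmF Φ) (c : ℝ) :
    AdmF fun v η => c * Φ v η :=
  AdmG.comp₂ (Φ := fun π => Φ (some π)) (Ψ := fun π => Φ (some π)) h h (fun x _ => c * x)
    (mul_zero c)

theorem AdmF.sum {ι : Type*} (s : Finset ι) {Φ : ι → Pl k → GG k θ → ℝ}
    (h : ∀ i ∈ s, AdmF (Φ i)) : AdmF fun v η => ∑ i ∈ s, Φ i v η :=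
  AdmG.sum s (Φ := fun i π => Φ i (some π)) h

theorem AdmF.congr {Φ Ψ : Pl k → GG k θ → ℝ} (h : AdmF Φ)
    (he : ∀ π η, Φ (some π) η = Ψ (some π) η) : AdmF Ψ := by
  have : ∀ π, Ψ (some π) = Φ (some π) := fun π => funext fun η => (he π η).symm
  unfold AdmF
  simp only [this]
  exact h

theorem II_eq {Φ : Pl k → GG k θ → ℝ} (h : Adm Φ) : II Φ = avg (Φ none) + Ifin Φ :=
  finsum_option (f := fun v => avg (Φ v)) (AdmG.supp (Φ := fun π => Φ (some π)) h.admF)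

theorem II_add (P : PD k θ) {Φ Ψ : Pl k → GG k θ → ℝ} (h : Adm Φ) (h' : Adm Ψ) :
    II (fun v η => Φ v η + Ψ v η) = II Φ + II Ψ := AdmG.add_eq P h h'

theorem II_sub (P : PD k θ) {Φ Ψ : Pl k → GG k θ → ℝ} (h : Adm Φ) (h' : Adm Ψ) :
    II (fun v η => Φ v η - Ψ v η) = II Φ - II Ψ := AdmG.sub_eq P h h'

theorem II_const_mul (P : PD k θ) {Φ : Pl k → GG k θ → ℝ} (h : Adm Φ) (c : ℝ) :
    II (fun v η => c * Φ v η) = c * II Φ := AdmG.mul_eq P h c

theorem II_sum (P : PD k θ) {ι : Type*} (s : Finset ι) {Φ : ι → Pl k → GG k θ → ℝ}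
    (h : ∀ i ∈ s, Adm (Φ i)) : II (fun v η => ∑ i ∈ s, Φ i v η) = ∑ i ∈ s, II (Φ i) :=
  AdmG.sum_eq P s h

/-- Finitely supported combinations. -/
theorem II_finsum (P : PD k θ) {ι : Type*} {c : ι → ℝ} (hc : (Function.support c).Finite)
    {Φ : ι → Pl k → GG k θ → ℝ} (h : ∀ i, Adm (Φ i)) :
    Adm (fun v η => ∑ᶠ i, c i * Φ i v η) ∧
      II (fun v η => ∑ᶠ i, c i * Φ i v η) = ∑ᶠ i, c i * II (Φ i) := by
  have h1 : ∀ f : ι → ℝ, ∑ᶠ i, c i * f i = ∑ i ∈ hc.toFinset, c i * f i := by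
    intro f
    apply finsum_eq_sum_of_support_subset
    intro i hi
    simp only [Set.Finite.coe_toFinset, Function.mem_support]
    intro h0
    exact hi (by simp [h0])
  simp only [h1]
  have h2 : ∀ i ∈ hc.toFinset, Adm fun v η => c i * Φ i v η := fun i _ => (h i).const_mul (c i)
  refine ⟨Adm.sum _ h2, ?_⟩
  rw [II_sum P _ h2]
  exact Finset.sum_congr rfl fun i _ => II_const_mul P (h i) (c i)

theorem II_mono (P : PD k θ) {Φ Ψ : Pl k → GG k θ → ℝ} (h : Adm Φ) (h' : Adm Ψ)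
    (hle : ∀ v η, Φ v η ≤ Ψ v η) : II Φ ≤ II Ψ :=
  finsum_le_finsum' (AdmG.supp h) (AdmG.supp h') fun v => avg_mono P (h.1 v) (h'.1 v) (hle v)

theorem II_zero : II (fun (_ : Pl k) (_ : GG k θ) => (0 : ℝ)) = 0 := by
  unfold II
  simp only [avg_const, finsum_zero]

theorem II_shift (Φ : Pl k → GG k θ → ℝ) (g : GG k θ) :
    II (fun v η => Φ v (η * g)) = II Φ :=
  finsum_congr fun v => avg_shift (Φ v) g

theorem Ifin_congr {Φ Ψ : Pl k → GG k θ → ℝ} (he : ∀ π η, Φ (some π) η = Ψ (some π) η) :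
    Ifin Φ = Ifin Ψ :=
  finsum_congr fun π => congrArg avg (funext (he π))

theorem Ifin_add (P : PD k θ) {Φ Ψ : Pl k → GG k θ → ℝ} (h : AdmF Φ) (h' : AdmF Ψ) :
    Ifin (fun v η => Φ v η + Ψ v η) = Ifin Φ + Ifin Ψ :=
  AdmG.add_eq P (Φ := fun π => Φ (some π)) (Ψ := fun π => Ψ (some π)) h h'

theorem Ifin_sub (P : PD k θ) {Φ Ψ : Pl k → GG k θ → ℝ} (h : AdmF Φ) (h' : AdmF Ψ) :
    Ifin (fun v η => Φ v η - Ψ v η) = Ifin Φ - Ifin Ψ :=
  AdmG.sub_eq P (Φ := fun π => Φ (some π)) (Ψ := fun π => Ψ (some π)) h h'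

theorem Ifin_const_mul (P : PD k θ) {Φ : Pl k → GG k θ → ℝ} (h : AdmF Φ) (c : ℝ) :
    Ifin (fun v η => c * Φ v η) = c * Ifin Φ :=
  AdmG.mul_eq P (Φ := fun π => Φ (some π)) h c

theorem Ifin_sum (P : PD k θ) {ι : Type*} (s : Finset ι) {Φ : ι → Pl k → GG k θ → ℝ}
    (h : ∀ i ∈ s, AdmF (Φ i)) :
    Ifin (fun v η => ∑ i ∈ s, Φ i v η) = ∑ i ∈ s, Ifin (Φ i) :=
  AdmG.sum_eq P s (Φ := fun i π => Φ i (some π)) h

theorem Ifin_shift (Φ : Pl k → GG k θ → ℝ) (g : GG k θ) :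
    Ifin (fun v η => Φ v (η * g)) = Ifin Φ :=
  finsum_congr fun π => avg_shift (Φ (some π)) g

end Pool.Agent.FFC
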