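import Pool.Agent.P.MP_a2beea_nt.FC.Stmt

/-! Definitions used in the statement of the product formula with absolute periods. -/

open Polynomial
open scoped TensorProduct

namespace Pool.Agent.FFC

noncomputable section

variable (k : Type*) [Field k] [Fintype k]
variable (OE OK : Type*) [CommRing OE] [CommRing OK]
  [Algebra k OE] [Algebra k[X] OE] [Algebra k OK]
variable {K : Type*} [Field K] [Algebra (RatFunc k) K] [Algebra OK K]
variable {M : Type*} [AddCommGroup M] [Module (OK ⊗[k] OE) M]
variable {C : Type*} [NormedField C] [Algebra K C]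

/-- The Betti homology lattice of `M ⊗_{O_K, η} C`. -/
def cycles (τ : M →+ M) (η : K ≃ₐ[RatFunc k] K) : AddSubgroup (M →+ PowerSeries C) where
  carrier := {u | IsCycle (k := k) (OE := OE) (OK := OK) τ η u}
  zero_mem' := ⟨fun _ => by simp, fun _ _ => by simp, fun _ => by simp,
    fun _ _ => by simp [Fintype.card_ne_zero]⟩
  add_mem' := by
    rintro u v hu hv
    refine ⟨fun x => ?_, fun c x => ?_, fun x => ?_, fun x n => ?_⟩
    · have := (hu.tate x).add (hv.tate x)
      rw [add_zero] at this
      refine squeeze_zero (fun _ => norm_nonneg _) (fun n => ?_) this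
      rw [AddMonoidHom.add_apply, map_add]
      exact norm_add_le _ _
    · rw [AddMonoidHom.add_apply, AddMonoidHom.add_apply, hu.smul_const, hv.smul_const, mul_add]
    · rw [AddMonoidHom.add_apply, AddMonoidHom.add_apply, hu.smul_t, hv.smul_t, mul_add]
    · letI : Algebra k C := ((algebraMap K C).comp ((algebraMap (RatFunc k) K).comp
        (algebraMap k (RatFunc k)))).toAlgebra
      rw [AddMonoidHom.add_apply, AddMonoidHom.add_apply, map_add, map_add, hu.twist, hv.twist]
      exact (map_add (FiniteField.frobeniusAlgHom k C) _ _).symm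
  neg_mem' := by
    rintro u hu
    refine ⟨fun x => ?_, fun c x => ?_, fun x => ?_, fun x n => ?_⟩
    · simpa using hu.tate x
    · rw [AddMonoidHom.neg_apply, AddMonoidHom.neg_apply, hu.smul_const, mul_neg]
    · rw [AddMonoidHom.neg_apply, AddMonoidHom.neg_apply, hu.smul_t, mul_neg]
    · letI : Algebra k C := ((algebraMap K C).comp ((algebraMap (RatFunc k) K).comp
        (algebraMap k (RatFunc k)))).toAlgebra
      rw [AddMonoidHom.neg_apply, AddMonoidHom.neg_apply, map_neg, map_neg, hu.twist]
      exact (map_neg (FiniteField.frobeniusAlgHom k C) _).symm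

/-- The multiples `x ↦ u (b x)`, `b ∈ O_E`, of a cycle. -/
def cycSpan (u : M →+ PowerSeries C) : AddSubgroup (M →+ PowerSeries C) where
  carrier := {v | ∃ b : OE, ∀ x, v x = u (((1 : OK) ⊗ₜ[k] b : OK ⊗[k] OE) • x)}
  zero_mem' := ⟨0, fun x => by simp⟩
  add_mem' := by
    rintro v v' ⟨b, hb⟩ ⟨b', hb'⟩
    exact ⟨b + b', fun x => by
      rw [AddMonoidHom.add_apply, hb, hb', TensorProduct.tmul_add, add_smul, map_add]⟩
  neg_mem' := by
    rintro v ⟨b, hb⟩
    exact ⟨-b, fun x => by
      rw [AddMonoidHom.neg_apply, hb, TensorProduct.tmul_neg, neg_smul, map_neg]⟩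

/-- The index of `O_E u` in the Betti homology lattice. -/
def bettiIndex (τ : M →+ M) (η : K ≃ₐ[RatFunc k] K) (u : M →+ PowerSeries C) : ℕ :=
  (cycSpan k OE OK u).relIndex (cycles k OE OK τ η)

end

end Pool.Agent.FFC
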