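import Pool.Agent.P.MP_a2beea_nt.FC.Defs3
import Pool.Agent.P.MP_a2beea_nt.FC.Stmt2

/-! Bases of lattices and solutions of Frobenius difference equations. -/

open Polynomial
open scoped TensorProduct NNReal IntermediateField

namespace Pool.Agent.FFC

noncomputable section

open Classical

section Tate

variable {C : Type*} [NormedField C]

/-- The series converges on the closed disc of radius `ρ`. -/
def Conv (ρ : ℝ) (U : PowerSeries C) : Prop :=
  Filter.Tendsto (fun n => ‖PowerSeries.coeff n U‖ * ρ ^ n) Filter.atTop (nhds 0)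

/-- The value of a series. -/
def evS (c : C) (U : PowerSeries C) : C := ∑' n, PowerSeries.coeff n U * c ^ n

variable (k : Type*) [Field k] [Fintype k] [Algebra k C]

/-- The Frobenius twist of a series. -/
def twS : PowerSeries C →+* PowerSeries C :=
  PowerSeries.map (FiniteField.frobeniusAlgHom k C).toRingHom

theorem coeff_twS (U : PowerSeries C) (n : ℕ) :
    PowerSeries.coeff n (twS k U) = PowerSeries.coeff n U ^ Fintype.card k := rfl

variable (C) in
/-- A polynomial over `k` as a series over `C`. -/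
def polS : k[X] →+* PowerSeries C :=
  (Polynomial.coeToPowerSeries.ringHom).comp (Polynomial.mapRingHom (algebraMap k C))

variable {ι : Type*} [Fintype ι]

/-- The solutions in the Tate algebra of `U ^ (1) = Φ U`. -/
def Sol (Φ : Matrix ι ι C[X]) : AddSubgroup (ι → PowerSeries C) where
  carrier := {U | (∀ c, Conv 1 (U c)) ∧ ∀ c, twS k (U c) = ∑ d, (Φ c d : PowerSeries C) * U d}
  zero_mem' := ⟨fun _ => by simp [Conv], fun _ => by simp⟩
  add_mem' := by
    rintro U V ⟨hU, hU'⟩ ⟨hV, hV'⟩
    refine ⟨fun c => ?_, fun c => ?_⟩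
    · have := (hU c).add (hV c)
      rw [add_zero] at this
      refine squeeze_zero (fun _ => by positivity) (fun n => ?_) this
      simp only [Pi.add_apply, map_add, one_pow, mul_one]
      exact norm_add_le _ _
    · simp only [Pi.add_apply, map_add, hU', hV', mul_add, Finset.sum_add_distrib]
  neg_mem' := by
    rintro U ⟨hU, hU'⟩
    refine ⟨fun c => ?_, fun c => ?_⟩
    · simpa [Conv] using hU c
    · simp only [Pi.neg_apply, map_neg, hU', mul_neg, Finset.sum_neg_distrib]

/-- The `k[X]`-span of a family of vectors. -/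
def SpanK (U : ι → ι → PowerSeries C) : AddSubgroup (ι → PowerSeries C) where
  carrier := {V | ∃ P : ι → k[X], ∀ c, V c = ∑ a, polS C k (P a) * U a c}
  zero_mem' := ⟨0, fun _ => by simp⟩
  add_mem' := by
    rintro V V' ⟨P, hP⟩ ⟨P', hP'⟩
    exact ⟨P + P', fun c => by
      simp only [Pi.add_apply, hP, hP', map_add, add_mul, Finset.sum_add_distrib]⟩
  neg_mem' := by
    rintro V ⟨P, hP⟩
    exact ⟨-P, fun c => by
      simp only [Pi.neg_apply, hP, map_neg, neg_mul, Finset.sum_neg_distrib]⟩

end Tate

section Basis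

variable {k : Type*} [Field k] {E : Type*} [Field E] [Algebra k E]
  {L : Type*} [Field L] [Algebra k L]

/-- `lg` enumerates the points above `c`. -/
def IsEnum (t : E) (c : L) {n : ℕ} (lg : Fin n → (E →ₐ[k] L)) : Prop :=
  Function.Injective lg ∧ ∀ y : E →ₐ[k] L, y t = c ↔ ∃ a, lg a = y

variable [IsDomain (L ⊗[k] E)]

/-- `b` is a basis of the lattice `I` over `A[t]` after inverting the nonzero scalars. -/
structure IsBasis (A : Subring L) (t : E) (I : AddSubgroup (FL k E L)) {n : ℕ}
    (b : Fin n → FL k E L) : Prop where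
  mem : ∀ c, b c ∈ I
  span : ∀ x ∈ I, ∃ a ∈ A, a ≠ 0 ∧ ∃ Q : Fin n → L[X], (∀ c i, (Q c).coeff i ∈ A) ∧
    tm a 1 * x = ∑ c, eval₂ (tmL k E L) (tm 1 t) (Q c) * b c
  indep : ∀ Q : Fin n → L[X], ∑ c, eval₂ (tmL k E L) (tm 1 t) (Q c) * b c = 0 → Q = 0

variable (k) in
/-- The lattice generated by the dual basis. -/
def J0 (A : Subring L) (t : E) {n : ℕ} (e' : Fin n → E) : AddSubgroup (FL k E L) :=
  AddSubgroup.closure {x | ∃ r ∈ RA k A t, ∃ a, x = r * tm 1 (e' a)}

/-- The degree of the divisor of a lattice. -/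
def degL (t : E) (I : AddSubgroup (FL k E L)) : ℝ := ∑ᶠ z : Pt k E L, (dv t I z : ℝ)

/-- The degree of a divisor supported at non-constant points. -/
def degD (D : (E →ₐ[k] L) →₀ ℤ) : ℝ := D.sum fun _ c => (c : ℝ)

end Basis

end

end Pool.Agent.FFC
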