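import Pool.Agent.P.MP_a2beea_nt.FC.Ht

/-! The intersection number with a constant point is the height. `pole_local`: in the local formula
for `u` (Gauss norm one, no zero or pole at non-constant points) only the term `z = red w y`
survives. `ip_le_ht`: let `N = m * dg + 1 - g` be the dimension of `LL k t m`, `a_i` a basis,
`b_i = a_i` if `t ∈ x.O` and `b_i = a_i * t⁻¹ ^ m` otherwise (so `b_i ∈ x.O`). Take the
polynomials `P_i` of degree `< N - 1` from `expansion`; there are constants `c_i`, not all zero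
(work over the field `algebraicClosure k L`), with `∑ c_i P_i = 0`. The value
`β = ∑ c_i y(a_i)` is nonzero (`ConstT.ord_ofHom`, linear independence of the `a_i`), and for
every `w`: `log |β| ≤ m * posLog |y t| - (N - 1) * ipt w y x` (`LL_bound` if `red w y ≠ x`). The
product formula gives `(N - 1) * ip ≤ m * dg * ht`; let `m → ∞`. Equality: if `t ∉ x.O` use
`pole_local` for `1 ⊗ t` and `deg_pole`; if `x t = c` use the local formula for
`1 ⊗ t - c ⊗ 1` and `deg_zero`: `∑ ord_z * ip y z = 0`, the poles contribute `- dg * ht`, the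
zeros have total multiplicity `dg`, and `x` is one of them. -/

open Polynomial
open scoped TensorProduct NNReal IntermediateField

namespace Pool.Agent.FFC

open Classical

variable {k : Type*} [Field k] [Fintype k] {E : Type*} [Field E] [Algebra k E] {t : E}
  {L : Type*} [Field L] [Algebra k L] [IsAlgClosed L]
  [IsDomain (L ⊗[k] E)]
  [Nonempty (GV k L)]
  {θ : L}

theorem htc_ev_pow (p : Pt k E L) {a : E} (ha : a ∈ p.O) (m : ℕ) : p.ev (a ^ m) = p.ev a ^ m := by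
  simpa using (p.ev_aeval ha (X ^ m)).2

theorem LL_bound {m : ℕ} {a : E} (ha : a ∈ LL k t m) (w : GV k L) {p : Pt k E L}
    (hp : t ∈ p.O) : w.v (p.ev a) ≤ max 1 (w.v (p.ev t)) ^ m := by
  have hk : ∀ c : k, algebraMap k E c ∈ redO w p := (red w p).alg_mem
  by_cases ht : t ∈ redO w p
  · exact (OO_le hk ht a ha.1).2.trans (one_le_pow₀ (le_max_left _ _))
  · have ht' : t⁻¹ ∈ redO w p := ((redO w p).mem_or_inv_mem t).resolve_left ht
    have h0 : t ≠ 0 := by
      rintro rfl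
      exact ht (zero_mem _)
    have hb := OO_le hk ht' _ ha.2
    have e : a = a * t⁻¹ ^ m * t ^ m := by
      rw [mul_assoc, ← mul_pow, inv_mul_cancel₀ h0, one_pow, mul_one]
    rw [e, p.ev_mul _ hb.1 _ (pow_mem hp m), htc_ev_pow p hp, map_mul, map_pow]
    calc w.v (p.ev (a * t⁻¹ ^ m)) * w.v (p.ev t) ^ m ≤ 1 * max 1 (w.v (p.ev t)) ^ m :=
          mul_le_mul' hb.2 (pow_le_pow_left' (le_max_right _ _) m)
      _ = _ := one_mul _

theorem htc_const (h : FF k t) {u : L ⊗[k] E} (hu : ConstT ⊤ u) {z : Pt k E L}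
    (hz : ord z (algebraMap (L ⊗[k] E) (FL k E L) u) ≠ 0) : z.O ≠ ⊤ := by
  intro htop
  obtain ⟨y, rfl⟩ := z.eq_ofHom htop
  exact hz (hu.ord_ofHom h y)

theorem htc_ipt_ne (h : FF k t) (w : GV k L) (p : Pt k E L) {z : Pt k E L} (hz : z.O ≠ ⊤)
    (hne : z ≠ red w p) : ipt w p z = 0 := by
  refine ipt_of_red_ne ?_
  rw [red_const h w hz]
  exact hne.symm

theorem htc_single (h : FF k t) (w : GV k L) {u : L ⊗[k] E} (hu : ConstT ⊤ u) (p : Pt k E L)
    (φ : ℤ → ℝ) (hφ : φ 0 = 0) :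
    ∑ᶠ z : Pt k E L, φ (ord z (algebraMap (L ⊗[k] E) (FL k E L) u)) * ipt w p z =
      φ (ord (red w p) (algebraMap (L ⊗[k] E) (FL k E L) u)) * ipt w p (red w p) := by
  refine finsum_eq_single _ _ fun z hz => ?_
  by_cases h0 : ord z (algebraMap (L ⊗[k] E) (FL k E L) u) = 0
  · rw [h0, hφ, zero_mul]
  · rw [htc_ipt_ne h w p (htc_const h hu h0) hz, mul_zero]

theorem htc_local (h : FF k t) (w : GV k L) {u : L ⊗[k] E} (hu : ConstT ⊤ u) (h0 : u ≠ 0)
    (y : E →ₐ[k] L) :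
    -Real.log (w.v (val (Pt.ofHom y) (algebraMap (L ⊗[k] E) (FL k E L) u))) =
      ∑ᶠ z : Pt k E L, (ord z (algebraMap (L ⊗[k] E) (FL k E L) u) : ℝ) *
        ipt w (Pt.ofHom y) z := by
  have := local_formula h w (lf_ne h0) (hu.ord_ofHom h y)
  rw [gauss_algebraMap, hu.gT_eq w h0] at this
  simpa using this

theorem pole_local (h : FF k t) (w : GV k L) {u : L ⊗[k] E} (hu : ConstT ⊤ u) (y : E →ₐ[k] L) :
    Real.posLog (w.v (val (Pt.ofHom y) (algebraMap (L ⊗[k] E) (FL k E L) u))) =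
      ∑ᶠ z : Pt k E L, ((max (-ord z (algebraMap (L ⊗[k] E) (FL k E L) u)) 0 : ℤ) : ℝ) *
        ipt w (Pt.ofHom y) z := by
  by_cases h0 : u = 0
  · subst h0
    rw [map_zero, (hasVal_zero _).val_eq]
    simp [ord_zero]
  · have h1 := htc_local h w hu h0 y
    rw [htc_single h w hu (Pt.ofHom y) (fun n => (n : ℝ)) (by simp)] at h1
    rw [htc_single h w hu (Pt.ofHom y) (fun n => ((max (-n) 0 : ℤ) : ℝ)) (by simp),
      Real.posLog_apply, neg_eq_iff_eq_neg.1 h1]
    have h2 := ipt_nonneg h w (Pt.ofHom y) (red w (Pt.ofHom y))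
    push_cast
    rw [max_mul_of_nonneg _ _ h2, zero_mul, max_comm, neg_mul]

theorem htc_rel {n : ℕ} (P : Fin (n + 1) → L[X]) (hP : ∀ i j, IsAlgebraic k ((P i).coeff j))
    (hd : ∀ i, (P i).degree < n) : ∃ c : Fin (n + 1) → L, (∀ i, IsAlgebraic k (c i)) ∧
      (∃ i, c i ≠ 0) ∧ ∀ x, ∑ i, c i * (P i).eval x = 0 := by
  let v : Fin (n + 1) → Fin n → algebraicClosure k L := fun i j =>
    ⟨(P i).coeff j, mem_algebraicClosure_iff.2 (hP i j)⟩
  have hv : ¬ LinearIndependent (algebraicClosure k L) v := by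
    intro hv
    have := hv.fintype_card_le_finrank
    simp at this
  obtain ⟨c, hc, i0, hi0⟩ := Fintype.not_linearIndependent_iff.1 hv
  refine ⟨fun i => c i, fun i => mem_algebraicClosure_iff.1 (c i).2,
    ⟨i0, fun h0 => hi0 (Subtype.ext h0)⟩, fun x => ?_⟩
  have e : ∑ i, C (c i : L) * P i = 0 := by
    ext j
    rw [finset_sum_coeff, coeff_zero]
    simp only [coeff_C_mul]
    by_cases hj : j < n
    · have h1 := congrArg (fun z : algebraicClosure k L => (z : L)) (congrFun hc ⟨j, hj⟩)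
      simpa [v] using h1
    · refine Finset.sum_eq_zero fun i _ => ?_
      rw [coeff_eq_zero_of_degree_lt ((hd i).trans_le (by exact_mod_cast not_lt.1 hj)), mul_zero]
  have := congrArg (eval x) e
  simpa [eval_finset_sum] using this

theorem htc_v_sum (w : GV k L) {n : ℕ} {c b : Fin n → L} (hc : ∀ i, IsAlgebraic k (c i))
    {r : ℝ≥0} (hb : ∀ i, w.v (b i) ≤ r) : w.v (∑ i, c i * b i) ≤ r := by
  refine w.v.map_sum_le fun i _ => ?_
  rw [map_mul]
  exact (mul_le_mul' (w.alg_le (hc i)) (hb i)).trans (one_mul _).le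

theorem htc_log_le {a b : ℝ≥0} (ha : a ≠ 0) (hab : a ≤ b) : Real.log a ≤ Real.log b :=
  Real.log_le_log (by positivity) (by exact_mod_cast hab)

theorem htc_log_max (a : ℝ≥0) (m : ℕ) :
    Real.log ((max 1 a ^ m : ℝ≥0) : ℝ) = m * Real.posLog a := by
  rw [Real.posLog_eq_log_max_one a.coe_nonneg]
  push_cast
  rw [Real.log_pow]

theorem htc_section (h : FF k t) (y : E →ₐ[k] L) {x : Pt k E L} (hx : x.O ≠ ⊤) {m n : ℕ}
    (hfin : FiniteDimensional k (LL k t m)) (hn : Module.finrank k (LL k t m) = n + 1) :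
    ∃ β : L, ∀ w : GV k L,
      Real.log (w.v β) ≤ m * Real.posLog (w.v (y t)) - n * ipt w (Pt.ofHom y) x := by
  let B := Module.finBasisOfFinrankEq k (LL k t m) hn
  let a : Fin (n + 1) → E := fun i => B i
  have ha : ∀ i, a i ∈ LL k t m := fun i => (B i).2
  have hli : LinearIndependent k a :=
    B.linearIndependent.map' (LL k t m).subtype (Submodule.ker_subtype _)
  obtain ⟨s, hs0, hs, hs'⟩ : ∃ s : E, s ≠ 0 ∧ (∀ i, a i * s ∈ x.O) ∧
      ∀ w : GV k L, w.v (y s⁻¹) ≤ max 1 (w.v (y t)) ^ m := by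
    by_cases ht : t ∈ x.O
    · refine ⟨1, one_ne_zero, fun i => ?_, fun w => ?_⟩
      · rw [mul_one]
        exact OO_le x.alg_mem ht _ (ha i).1
      · rw [inv_one, map_one, map_one]
        exact one_le_pow₀ (le_max_left _ _)
    · refine ⟨t⁻¹ ^ m, pow_ne_zero _ (inv_ne_zero h.ne_zero), fun i => ?_, fun w => ?_⟩
      · exact OO_le x.alg_mem ((x.O.mem_or_inv_mem t).resolve_left ht) _ (ha i).2
      · rw [inv_pow, inv_inv, map_pow, map_pow]
        exact pow_le_pow_left' (le_max_right _ _) m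
  choose P hP hd hP' using fun i => expansion h hx (hs i) n
  obtain ⟨c, hc, ⟨i0, hi0⟩, hrel⟩ := htc_rel P hP hd
  have hu : ConstT (⊤ : ValuationSubring E) (∑ i, c i ⊗ₜ[k] a i) :=
    ⟨n + 1, c, a, fun _ => ValuationSubring.mem_top _, hc, rfl⟩
  have hev : EvT (Pt.ofHom y) (∑ i, c i ⊗ₜ[k] a i) (∑ i, c i * y (a i)) :=
    ⟨n + 1, c, a, fun _ => ValuationSubring.mem_top _, rfl, rfl⟩
  have hu0 : ∑ i, c i ⊗ₜ[k] a i ≠ 0 := by
    obtain ⟨w⟩ := ‹Nonempty (GV k L)›
    intro h0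
    have h1 := gT_sum w Finset.univ hli c
    rw [(gT_eq_zero_iff w _).2 h0] at h1
    have h2 : w.v (c i0) ≤ Finset.univ.sup fun i => w.v (c i) :=
      Finset.le_sup (f := fun i => w.v (c i)) (Finset.mem_univ i0)
    rw [← h1, w.triv _ (hc i0) hi0] at h2
    exact absurd h2 (by simp)
  have hβ : ∑ i, c i * y (a i) ≠ 0 := DiscAux.ev_ne_zero h hev hu0 (hu.ord_ofHom h y)
  refine ⟨∑ i, c i * y (a i), fun w => ?_⟩
  have hβ' : w.v (∑ i, c i * y (a i)) ≠ 0 := by simpa using hβ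
  by_cases hr : red w (Pt.ofHom y) = x
  · have hO : redO w (Pt.ofHom y) = x.O := by rw [← hr]; rfl
    have hi : ipt w (Pt.ofHom y) x = -Real.log (w.v (y (unif x.O))) := by
      have := ipt_red h w (Pt.ofHom y)
      rwa [hr, hO] at this
    have hπ : w.v (y (unif x.O)) ≠ 0 := by
      have := v_unif_ne h w y
      rwa [hO] at this
    have e : ∑ i, c i * y (a i) =
        y s⁻¹ * ∑ i, c i * (y (a i * s) - (P i).eval (y (unif x.O))) := by
      simp only [mul_sub, Finset.sum_sub_distrib, hrel, sub_zero, Finset.mul_sum]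
      refine Finset.sum_congr rfl fun i _ => ?_
      have hys : y s ≠ 0 := by simpa using hs0
      rw [map_mul, map_inv₀]
      field_simp
    have hle : w.v (∑ i, c i * y (a i)) ≤ max 1 (w.v (y t)) ^ m * w.v (y (unif x.O)) ^ n := by
      rw [e, map_mul]
      exact mul_le_mul' (hs' w) (htc_v_sum w hc fun i => hP' i w (Pt.ofHom y) hr)
    have h1 := htc_log_le hβ' hle
    have hm0 : ((max 1 (w.v (y t)) ^ m : ℝ≥0) : ℝ) ≠ 0 := by positivity
    have hn0 : ((w.v (y (unif x.O)) ^ n : ℝ≥0) : ℝ) ≠ 0 := by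
      exact_mod_cast pow_ne_zero n hπ
    rw [NNReal.coe_mul, Real.log_mul hm0 hn0, htc_log_max, NNReal.coe_pow, Real.log_pow] at h1
    rw [hi]
    linarith
  · rw [htc_ipt_ne h w _ hx (Ne.symm hr), mul_zero, sub_zero, ← htc_log_max]
    refine htc_log_le hβ' (htc_v_sum w hc fun i => ?_)
    exact LL_bound (ha i) w (p := Pt.ofHom y) (ValuationSubring.mem_top _)

theorem htc_ht (h : FF k t) (P : PD k θ) (y : E →ₐ[k] L) :
    II (fun v η => Real.posLog ((P.W v η).v (y t))) = dg k t * ht P t (Pt.ofHom y) := by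
  have hd : (dg k t : ℝ) ≠ 0 := by exact_mod_cast h.dg_pos.ne'
  unfold ht
  rw [mul_div_cancel₀ _ hd]
  rfl

theorem ip_le_ht (h : FF k t) {g : ℕ} (hR : RR0 k t g) (P : PD k θ) (y : E →ₐ[k] L)
    {x : Pt k E L} (hx : x.O ≠ ⊤) : ip P (Pt.ofHom y) x ≤ ht P t (Pt.ofHom y) := by
  obtain ⟨hfin, m0, hm0⟩ := hR
  have hd := h.dg_pos
  have key : ∀ m, m0 ≤ m → g ≤ m → ((m : ℝ) * dg k t - g) * ip P (Pt.ofHom y) x ≤
      m * (dg k t * ht P t (Pt.ofHom y)) := by
    intro m h1 h2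
    have h3 : g ≤ m * dg k t := h2.trans (Nat.le_mul_of_pos_right m hd)
    have h4 := hm0 m h1
    obtain ⟨β, hβ⟩ := htc_section h y hx (hfin m) (n := m * dg k t - g) (by omega)
    have hA := (adm_posLog P (y t)).const_mul (m : ℝ)
    have hB := (adm_ipt h P (Pt.ofHom y) x).const_mul ((m * dg k t - g : ℕ) : ℝ)
    have h5 := II_mono P (adm_log P β) (hA.sub hB) fun v η => hβ (P.W v η)
    rw [prod_formula, II_sub P hA hB, II_const_mul P (adm_posLog P (y t)),
      II_const_mul P (adm_ipt h P (Pt.ofHom y) x), htc_ht h, Nat.cast_sub h3] at h5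
    push_cast at h5
    unfold ip
    linarith
  by_contra hlt
  rw [not_le] at hlt
  have hδ : 0 < ip P (Pt.ofHom y) x - ht P t (Pt.ofHom y) := sub_pos.2 hlt
  obtain ⟨m1, hm1⟩ := exists_nat_gt (g * ip P (Pt.ofHom y) x /
    (ip P (Pt.ofHom y) x - ht P t (Pt.ofHom y)))
  rw [div_lt_iff₀ hδ] at hm1
  have h1 := key (m0 + g + m1) (by omega) (by omega)
  have h2 : (m1 : ℝ) ≤ ((m0 + g + m1 : ℕ) : ℝ) * dg k t := by
    exact_mod_cast (by omega : m1 ≤ m0 + g + m1).trans (Nat.le_mul_of_pos_right _ hd)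
  nlinarith [mul_le_mul_of_nonneg_right h2 hδ.le]

theorem htc_zero {ι : Type*} {c a : ι → ℝ} {H : ℝ} (hc : (Function.support c).Finite)
    (hnn : ∀ z, 0 ≤ c z * (H - a z)) (he : ∑ᶠ z, c z * a z = (∑ᶠ z, c z) * H) {x : ι}
    (hx : c x ≠ 0) : a x = H := by
  rw [finsum_eq_sum_of_support_subset_of_finite _ (Function.support_mul_subset_left _ _) hc,
    finsum_eq_sum_of_support_subset_of_finite c subset_rfl hc, Finset.sum_mul] at he
  have h1 : ∑ z ∈ hc.toFinset, c z * (H - a z) = 0 := by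
    simp only [mul_sub, Finset.sum_sub_distrib, he, sub_self]
  have h2 := (Finset.sum_eq_zero_iff_of_nonneg fun z _ => hnn z).1 h1 x (hc.mem_toFinset.2 hx)
  exact (sub_eq_zero.1 ((mul_eq_zero.1 h2).resolve_left hx)).symm

theorem htc_fin (h : FF k t) (f : FL k E L) (φ : ℤ → ℝ) (hφ : φ 0 = 0) :
    (Function.support fun z : Pt k E L => φ (ord z f)).Finite := by
  refine (ord_finite h f).subset fun z hz h0 => hz ?_
  simp only [h0, hφ]

theorem htc_II_pole (h : FF k t) (P : PD k θ) {u : L ⊗[k] E} (hu : ConstT ⊤ u) (y : E →ₐ[k] L) :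
    II (fun v η => Real.posLog
        ((P.W v η).v (val (Pt.ofHom y) (algebraMap (L ⊗[k] E) (FL k E L) u)))) =
      ∑ᶠ z : Pt k E L, ((max (-ord z (algebraMap (L ⊗[k] E) (FL k E L) u)) 0 : ℤ) : ℝ) *
        ip P (Pt.ofHom y) z := by
  simp only [pole_local h _ hu y]
  exact (II_finsum P (htc_fin h _ (fun n => ((max (-n) 0 : ℤ) : ℝ)) (by simp))
    fun z => adm_ipt h P (Pt.ofHom y) z).2

theorem htc_ord_neg (h : FF k t) {z : Pt k E L} (hz : t ∉ z.O) : ord z (tm (1 : L) t) < 0 := by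
  have h1 : t⁻¹ ∈ z.O := (z.O.mem_or_inv_mem t).resolve_left hz
  have h2 := hasVal_tm z (1 : L) h1
  rw [z.ev_max _ h1 (by rwa [inv_inv]), mul_zero,
    hasVal_zero_iff h z (tm_ne_zero one_ne_zero (inv_ne_zero h.ne_zero))] at h2
  have h3 : (tm (1 : L) t⁻¹ : FL k E L) = (tm 1 t)⁻¹ := by rw [tm_inv, inv_one]
  rw [h3, ord_inv h] at h2
  omega

theorem htc_ord_nonneg (h : FF k t) {z : Pt k E L} (hz : t ∈ z.O) : 0 ≤ ord z (tm (1 : L) t) :=
  (hasVal_iff h z (tm_ne_zero one_ne_zero h.ne_zero)).1 ⟨_, hasVal_tm z 1 hz⟩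

theorem htc_cast (h : FF k t) (f : FL k E L) (φ : Pt k E L → ℤ → ℤ) (hφ : ∀ z, φ z 0 = 0) :
    ∑ᶠ z : Pt k E L, ((φ z (ord z f) : ℤ) : ℝ) = ((∑ᶠ z : Pt k E L, φ z (ord z f) : ℤ) : ℝ) := by
  refine ((Int.castAddHom ℝ).map_finsum ?_).symm
  refine (ord_finite h f).subset fun z hz h0 => hz ?_
  simp only [h0, hφ]

theorem htc_deg_pole (h : FF k t) :
    ∑ᶠ z : Pt k E L, ((max (-ord z (tm (1 : L) t)) 0 : ℤ) : ℝ) = dg k t := by
  rw [htc_cast h _ (fun _ n => max (-n) 0) (by simp)]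
  have h1 := deg_pole (L := L) h
  rw [finsum_mem_def] at h1
  have h2 : ∑ᶠ z : Pt k E L, max (-ord z (tm (1 : L) t)) 0 =
      -∑ᶠ z : Pt k E L, Set.indicator {p : Pt k E L | t ∉ p.O}
        (fun p => ord p (tm (1 : L) t)) z := by
    rw [← finsum_neg_distrib]
    refine finsum_congr fun z => ?_
    by_cases hz : t ∈ z.O
    · have := htc_ord_nonneg h hz
      rw [Set.indicator_of_notMem (by simpa using hz)]
      omega
    · have := htc_ord_neg h hz
      rw [Set.indicator_of_mem (by simpa using hz)]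
      omega
  rw [h2, h1]
  simp

theorem htc_ip_inf (h : FF k t) {g : ℕ} (hR : RR0 k t g) (P : PD k θ) (y : E →ₐ[k] L)
    {x : Pt k E L} (hx : t ∉ x.O) : ip P (Pt.ofHom y) x = ht P t (Pt.ofHom y) := by
  have hu : ConstT (⊤ : ValuationSubring E) ((1 : L) ⊗ₜ[k] t) :=
    DiscAux.const_tmul (ValuationSubring.mem_top _)
  have h1 := htc_II_pole h P hu y
  have h2 : val (Pt.ofHom y) (algebraMap (L ⊗[k] E) (FL k E L) ((1 : L) ⊗ₜ[k] t)) = y t := by
    have := (hasVal_tm (Pt.ofHom y) (1 : L) (a := t) (ValuationSubring.mem_top _)).val_eq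
    rwa [one_mul] at this
  rw [h2, htc_ht h, ← htc_deg_pole (L := L) h] at h1
  refine htc_zero (htc_fin h (tm (1 : L) t) (fun n => ((max (-n) 0 : ℤ) : ℝ)) (by simp))
    (fun z => ?_) h1.symm ?_
  · by_cases hz : ord z (tm (1 : L) t) = 0
    · simp [hz]
    · exact mul_nonneg (by exact_mod_cast le_max_right _ _)
        (sub_nonneg.2 (ip_le_ht h hR P y (htc_const h hu hz)))
  · have := htc_ord_neg h hx
    have h3 : max (-ord x (tm (1 : L) t)) 0 ≠ 0 := by omega
    exact_mod_cast h3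

theorem ip_const (h : FF k t) {g : ℕ} (hR : RR0 k t g) (P : PD k θ) (y : E →ₐ[k] L)
    {x : Pt k E L} (hx : x.O ≠ ⊤) : ip P (Pt.ofHom y) x = ht P t (Pt.ofHom y) := by
  by_cases hxt : t ∈ x.O
  swap
  · exact htc_ip_inf h hR P y hxt
  have hc : IsAlgebraic k (x.ev t) := x.alg_of_const h hx t
  have hu : ConstT (⊤ : ValuationSubring E) ((1 : L) ⊗ₜ[k] t - x.ev t ⊗ₜ[k] (1 : E)) :=
    GaussAux.const_sub (DiscAux.const_tmul (ValuationSubring.mem_top _))
      ⟨1, fun _ => x.ev t, fun _ => 1, fun _ => ValuationSubring.mem_top _, fun _ => hc, by simp⟩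
  have hf : algebraMap (L ⊗[k] E) (FL k E L) ((1 : L) ⊗ₜ[k] t - x.ev t ⊗ₜ[k] (1 : E)) =
      tm 1 t - tm (x.ev t) 1 := map_sub _ _ _
  have hf0 := sub_self_ne h (x.ev t)
  have hu0 : (1 : L) ⊗ₜ[k] t - x.ev t ⊗ₜ[k] (1 : E) ≠ 0 := by
    intro h0
    rw [h0, map_zero] at hf
    exact hf0 hf.symm
  have hval : ∀ z : Pt k E L, t ∈ z.O →
      HasVal z (tm 1 t - tm (x.ev t) 1 : FL k E L) (z.ev t - x.ev t) := by
    intro z hz
    have := (hasVal_tm z (1 : L) hz).sub (hasVal_tm z (x.ev t) (one_mem z.O))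
    rwa [one_mul, z.ev_one, mul_one] at this
  have hfin := htc_fin h (tm 1 t - tm (x.ev t) 1 : FL k E L) (fun n => (n : ℝ)) (by simp)
  have h1 := (II_finsum P hfin fun z => adm_ipt h P (Pt.ofHom y) z).2
  have h2 := fun w => htc_local h w hu hu0 y
  rw [hf] at h2
  simp only [← h2] at h1
  have h3 := II_const_mul P (adm_log P (val (Pt.ofHom y) (tm 1 t - tm (x.ev t) 1 : FL k E L))) (-1)
  simp only [neg_mul, one_mul] at h3
  rw [h3, prod_formula, neg_zero] at h1
  have h4 : ∑ᶠ z : Pt k E L, (ord z (tm 1 t - tm (x.ev t) 1 : FL k E L) : ℝ) = 0 := by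
    rw [htc_cast h _ (fun _ n => n) (fun _ => rfl), deg_zero h, Int.cast_zero]
  refine htc_zero hfin (fun z => ?_) (by rw [h4, zero_mul]; exact h1.symm) ?_
  · by_cases hz : ord z (tm 1 t - tm (x.ev t) 1 : FL k E L) = 0
    · simp [hz]
    · by_cases hzt : t ∈ z.O
      · exact mul_nonneg (by exact_mod_cast (hasVal_iff h z hf0).1 ⟨_, hval z hzt⟩)
          (sub_nonneg.2 (ip_le_ht h hR P y (htc_const h hu (by rwa [hf]))))
      · rw [htc_ip_inf h hR P y hzt, sub_self, mul_zero]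
  · have h5 := hval x hxt
    rw [sub_self, hasVal_zero_iff h x hf0] at h5
    exact_mod_cast h5.ne'

/-- The height can be computed with any function with constant coefficients. -/
theorem II_posLog_const (h : FF k t) {g : ℕ} (hR : RR0 k t g) (P : PD k θ) {u : L ⊗[k] E}
    (hu : ConstT ⊤ u) (y : E →ₐ[k] L) :
    II (fun v η => Real.posLog
        ((P.W v η).v (val (Pt.ofHom y) (algebraMap (L ⊗[k] E) (FL k E L) u)))) =
      (∑ᶠ z : Pt k E L, ((max (-ord z (algebraMap (L ⊗[k] E) (FL k E L) u)) 0 : ℤ) : ℝ)) *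
        ht P t (Pt.ofHom y) := by
  rw [htc_II_pole h P hu y, finsum_mul]
  refine finsum_congr fun z => ?_
  by_cases hz : ord z (algebraMap (L ⊗[k] E) (FL k E L) u) = 0
  · simp [hz]
  · rw [ip_const h hR P y (htc_const h hu hz)]

/-- The intersection number of a point with its Frobenius twist counts points. -/
theorem ip_fr_self (h : FF k t) {g : ℕ} (hR : RR0 k t g) (P : PD k θ) (φ : E →ₐ[k] L) {n : ℕ}
    (hn : 1 ≤ n) (hfin : {x : Pt k E L | x.O ≠ ⊤ ∧ (fr k L ^ n) • x = x}.Finite) :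
    ip P (Pt.ofHom (tw (fr k L ^ n) φ)) (Pt.ofHom φ) = nPts k L E n * ht P t (Pt.ofHom φ) := by
  have h1 : ∀ w : GV k L, ipt w (Pt.ofHom (tw (fr k L ^ n) φ)) (Pt.ofHom φ) =
      ∑ x ∈ hfin.toFinset, ipt w (Pt.ofHom φ) x := by
    intro w
    rw [ipt_leg h w rfl hn]
    have h2 : ∀ x ∈ hfin.toFinset, x ≠ red w (Pt.ofHom φ) → ipt w (Pt.ofHom φ) x = 0 :=
      fun x hx hne => htc_ipt_ne h w _ (hfin.mem_toFinset.1 hx).1 hne
    split_ifs with hr
    · exact (Finset.sum_eq_single_of_mem _ (hfin.mem_toFinset.2 ⟨red_ne_top h w _, hr⟩) h2).symm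
    · refine (Finset.sum_eq_zero fun x hx => h2 x hx ?_).symm
      rintro rfl
      exact hr (hfin.mem_toFinset.1 hx).2
  unfold ip
  simp only [h1]
  rw [II_sum P _ fun x _ => adm_ipt h P (Pt.ofHom φ) x, nPts, Set.ncard_eq_toFinset_card _ hfin,
    ← nsmul_eq_mul, ← Finset.sum_const]
  exact Finset.sum_congr rfl fun x hx => ip_const h hR P φ (hfin.mem_toFinset.1 hx).1

end Pool.Agent.FFC
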