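import Pool.Agent.P.MP_a2beea_nt.FC.LatR
import Pool.Agent.P.MP_a2beea_nt.FC.HtC
import Pool.Agent.P.MP_a2beea_nt.FC.Defs4

/-! Functions regular at the finite points. `mem_RA_top`: see `DegAux`, `DegBr` (the places of `FL`
over `L` are the points, `Dg.toPlace_bijective`, and the integral closure of `L[t]` is the
intersection of the valuation rings which contain `t`); or directly: the ideal of the
`r ∈ RA k ⊤ t` with `r x ∈ RA k ⊤ t` is contained in no maximal ideal (a maximal ideal is the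
kernel of the value at a point, `Pt.exists_of_hom` and the Nullstellensatz; `HasVal` and
`place_frac` give a denominator which is nonzero at the point).
`sum_ipt_fibre`: `local_formula` for `1 ⊗ t - c ⊗ 1` at `z`; its Gauss norm is `max 1 |c|`, its
zeros are the `lg a` (`ord_sub`), and the poles contribute `posLog |z t|` (for constant `z` both are
zero by `ipt_const`, otherwise `pole_local`).
`norm_mult`: for `c` transcendental and outside finitely many fibres,
`det T (c) = ∏_{y t = c} x(y)` (apply the points to `hT`; the matrix `lg a (e b)` is invertible by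
`DualB.orth`). Take any `w`, `ϖ` with `0 < |ϖ| < 1`, `c_N = β + ϖ ^ N` (transcendental for all `N`
but at most one). For large `N`, `log |det T (c_N)| = mult * N log |ϖ| + const`, and by
`local_formula` and `sum_ipt_fibre` (the points at infinity contribute a constant or a bounded
term), `∑ log |x(y)| = (∑_{z t = β} ord z x) * N log |ϖ| + bounded`. Any other proof is fine. -/

open Polynomial
open scoped TensorProduct NNReal IntermediateField

namespace Pool.Agent.FFC

open Classical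

variable {k : Type*} [Field k] [Fintype k] {E : Type*} [Field E] [Algebra k E] {t : E}
  {L : Type*} [Field L] [Algebra k L] [IsAlgClosed L]
  [IsDomain (L ⊗[k] E)]
  [Nonempty (GV k L)]
  {θ : L}
  {A : Subring L} {f : FL k E L} {I J : AddSubgroup (FL k E L)} {D : (E →ₐ[k] L) →₀ ℤ}
  {n : ℕ} {e e' : Fin n → E} {b : Fin n → FL k E L}

set_option linter.unusedSectionVars false

theorem hasVal_eval₂ {p : Pt k E L} (hp : t ∈ p.O) (Q : L[X]) :
    HasVal p (eval₂ (tmL k E L) (tm 1 t) Q) (Q.eval (p.ev t)) := by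
  induction Q using Polynomial.induction_on' with
  | add P Q hP hQ =>
    rw [eval₂_add, eval_add]
    exact hP.add hQ
  | monomial i c =>
    rw [eval₂_monomial, eval_monomial]
    have h1 := hasVal_tm p (1 : L) hp
    rw [one_mul] at h1
    exact (Dg.hasVal_const p c).mul (h1.pow i)

private theorem RTop_null {L B : Type*} [Field L] [IsAlgClosed L] [CommRing B] [Algebra L B]
    [Algebra.FiniteType L B] (𝔞 : Ideal B) (h𝔞 : 𝔞 ≠ ⊤) : ∃ φ : B →ₐ[L] L, ∀ r ∈ 𝔞, φ r = 0 := by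
  obtain ⟨𝔪, h𝔪, hle⟩ := Ideal.exists_le_maximal 𝔞 h𝔞
  let _ := Ideal.Quotient.field 𝔪
  have : Module.Finite L (B ⧸ 𝔪) := finite_of_finite_type_of_isJacobsonRing L (B ⧸ 𝔪)
  refine ⟨(IsAlgClosed.lift : (B ⧸ 𝔪) →ₐ[L] L).comp (Ideal.Quotient.mkₐ L 𝔪), fun r hr => ?_⟩
  rw [AlgHom.comp_apply, Ideal.Quotient.mkₐ_eq_mk, Ideal.Quotient.eq_zero_iff_mem.2 (hle hr),
    map_zero]

private theorem RTop_adjoin {S : Finset E} (hS : Algebra.adjoin k (S : Set E) = OO k t)
    (x : FL k E L) :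
    x ∈ Algebra.adjoin L (Dg.iota k E L '' (S : Set E)) ↔ x ∈ RA k (⊤ : Subring L) t := by
  constructor
  · intro hx
    induction hx using Algebra.adjoin_induction with
    | mem y hy =>
      obtain ⟨g, hg, rfl⟩ := hy
      exact tm_mem_RA (Subring.mem_top _) (hS ▸ Algebra.subset_adjoin hg)
    | algebraMap c => exact tm_mem_RA (Subring.mem_top _) (one_mem _)
    | add y z _ _ hy hz => exact add_mem hy hz
    | mul y z _ _ hy hz => exact mul_mem hy hz
  · intro hx
    refine (Subring.closure_le (t := (Algebra.adjoin L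
      (Dg.iota k E L '' (S : Set E))).toSubring)).2 ?_ hx
    rintro _ ⟨c, -, a, ha, rfl⟩
    have h1 : Algebra.adjoin k (S : Set E) ≤ ((Algebra.adjoin L
        (Dg.iota k E L '' (S : Set E))).restrictScalars k).comap (Dg.iota k E L) :=
      Algebra.adjoin_le fun g hg => Algebra.subset_adjoin (R := L) ⟨g, hg, rfl⟩
    rw [Dg.tm_eq]
    exact mul_mem (Subalgebra.algebraMap_mem _ c) (h1 (hS ▸ ha))

private theorem RTop_clear (h : FF k t) {p : Pt k E L} (hp : t ∈ p.O) {x : L ⊗[k] E} {c : L}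
    (hx : EvT p x c) : ∃ s ∈ OO k t, p.ev s ≠ 0 ∧
      algebraMap (L ⊗[k] E) (FL k E L) x * tm 1 s ∈ RA k (⊤ : Subring L) t := by
  have hO := OO_le p.alg_mem hp
  refine ord_evT_ind (fun x => ∃ s ∈ OO k t, p.ev s ≠ 0 ∧
    algebraMap (L ⊗[k] E) (FL k E L) x * tm 1 s ∈ RA k (⊤ : Subring L) t) ?_ ?_ ?_ hx
  · exact ⟨1, one_mem _, by rw [p.ev_one]; exact one_ne_zero, by
      rw [map_zero, zero_mul]; exact zero_mem _⟩
  · intro b a ha
    obtain ⟨b', hb', s, hs, h0, e⟩ := pts_frac h p hp ha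
    refine ⟨s, hs, h0, ?_⟩
    change tm b a * tm 1 s ∈ _
    rw [tm_mul, e]
    exact tm_mem_RA (Subring.mem_top _) hb'
  · rintro x y ⟨s, hs, h0, hx⟩ ⟨s', hs', h0', hy⟩
    refine ⟨s * s', mul_mem hs hs', ?_, ?_⟩
    · rw [p.ev_mul s (hO s hs) s' (hO s' hs')]
      exact mul_ne_zero h0 h0'
    · have e : (tm 1 (s * s') : FL k E L) = tm 1 s * tm 1 s' := by rw [tm_mul, one_mul]
      have h1 := add_mem (mul_mem hx (tm_mem_RA (Subring.mem_top (1 : L)) hs'))
        (mul_mem hy (tm_mem_RA (Subring.mem_top (1 : L)) hs))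
      rw [e, map_add]
      convert h1 using 1
      ring

theorem mem_RA_top (h : FF k t) {x : FL k E L}
    (hx : ∀ z : Pt k E L, t ∈ z.O → 0 ≤ ord z x) : x ∈ RA k (⊤ : Subring L) t := by
  obtain ⟨S, hS⟩ := OO_fg h
  set B := Algebra.adjoin L (Dg.iota k E L '' (S : Set E)) with hB
  have mB : ∀ y, y ∈ B ↔ y ∈ RA k (⊤ : Subring L) t := RTop_adjoin hS
  let 𝔞 : Ideal B :=
    { carrier := {r | (r : FL k E L) * x ∈ B}
      zero_mem' := by simp
      add_mem' := fun {r s} hr hs => by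
        change ((r : FL k E L) + s) * x ∈ B
        rw [add_mul]
        exact add_mem hr hs
      smul_mem' := fun r s hs => by
        change ((r : FL k E L) * s) * x ∈ B
        rw [mul_assoc]
        exact mul_mem r.2 hs }
  by_contra hn
  have h𝔞 : 𝔞 ≠ ⊤ := fun e => hn (by
    have h1 : (1 : B) ∈ 𝔞 := e ▸ Submodule.mem_top
    have h2 : ((1 : B) : FL k E L) * x ∈ B := h1
    rw [OneMemClass.coe_one, one_mul] at h2
    exact (mB x).1 h2)
  have : Algebra.FiniteType L B := Algebra.FiniteType.adjoin_of_finite (S.finite_toSet.image _)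
  obtain ⟨φ, hφ⟩ := RTop_null (L := L) 𝔞 h𝔞
  have hι : ∀ a : OO k t, Dg.iota k E L a ∈ B := fun a =>
    (mB _).2 (tm_mem_RA (Subring.mem_top _) a.2)
  let χ : OO k t →ₐ[k] L := (φ.restrictScalars k).comp
    (((Dg.iota k E L).comp (OO k t).val).codRestrict (B.restrictScalars k) hι)
  obtain ⟨p, hp, hχ⟩ := Pt.exists_of_hom h χ
  have hO := OO_le p.alg_mem hp
  have hv : ∀ r (hr : r ∈ B), HasVal p r (φ ⟨r, hr⟩) := by
    intro r hr
    induction hr using Algebra.adjoin_induction with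
    | mem y hy =>
      obtain ⟨g, hg, rfl⟩ := hy
      have hg' : g ∈ OO k t := hS ▸ Algebra.subset_adjoin hg
      have h1 := Dg.hasVal_iota p (hO g hg')
      rw [hχ ⟨g, hg'⟩] at h1
      exact h1
    | algebraMap c =>
      have h1 : φ ⟨algebraMap L (FL k E L) c, B.algebraMap_mem c⟩ = c := φ.commutes c
      rw [h1]
      exact Dg.hasVal_const p c
    | add y z hy' hz' hy hz =>
      have h1 := hy.add hz
      rw [← map_add] at h1
      exact h1
    | mul y z hy' hz' hy hz =>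
      have h1 := hy.mul hz
      rw [← map_mul] at h1
      exact h1
  obtain ⟨X', Y, cx, cy, hX, hY, hcy, e, -⟩ := hasVal_val h p (hx p hp)
  obtain ⟨s, hs, h0, hs'⟩ := RTop_clear h hp hX
  obtain ⟨u, hu, h0', hu'⟩ := RTop_clear h hp hY
  have hr : algebraMap (L ⊗[k] E) (FL k E L) Y * tm 1 u * tm 1 s ∈ B :=
    (mB _).2 (mul_mem hu' (tm_mem_RA (Subring.mem_top _) hs))
  have hr' : (⟨_, hr⟩ : B) ∈ 𝔞 := by
    have h1 := (mB _).2 (mul_mem hs' (tm_mem_RA (Subring.mem_top (1 : L)) hu))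
    rw [← e] at h1
    change algebraMap (L ⊗[k] E) (FL k E L) Y * tm 1 u * tm 1 s * x ∈ B
    convert h1 using 1
    ring
  have h1 : φ ⟨_, hr⟩ = 0 := hφ _ hr'
  have h2 := ((hY.hasVal.mul (hasVal_tm p 1 (hO u hu))).mul (hasVal_tm p 1 (hO s hs))).unique
    (hv _ hr)
  rw [h1, one_mul, one_mul] at h2
  exact mul_ne_zero (mul_ne_zero hcy h0') h0 h2

private theorem RTop_ev_ne (h : FF k t) {Q : L[X]} (hQ : Q ≠ 0) :
    eval₂ (tmL k E L) (tm 1 t) Q ≠ 0 := fun e => hQ (by
  refine Polynomial.funext fun c => ?_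
  obtain ⟨p, hp, rfl⟩ := fibre_nonempty h c
  have h1 := hasVal_eval₂ hp Q
  rw [e] at h1
  rw [eval_zero]
  exact h1.unique (hasVal_zero p))

private theorem RTop_ev_sub (c : L) :
    eval₂ (tmL k E L) (tm 1 t) (X - C c) = (tm 1 t - tm c 1 : FL k E L) := by
  rw [eval₂_sub, eval₂_X, eval₂_C, tmL_apply]

private theorem RTop_val_sub {z : Pt k E L} (hz : t ∈ z.O) (c : L) :
    HasVal z (tm 1 t - tm c 1 : FL k E L) (z.ev t - c) := by
  have h1 := hasVal_eval₂ hz (X - C c)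
  rwa [RTop_ev_sub, eval_sub, eval_X, eval_C] at h1

private theorem RTop_ord_pos (h : FF k t) {z : Pt k E L} (hz : t ∈ z.O) {c : L}
    (hc : z.ev t = c) : 0 < ord z (tm 1 t - tm c 1 : FL k E L) := by
  have h1 := RTop_val_sub hz c
  rw [hc, sub_self] at h1
  exact (hasVal_zero_iff h z (sub_self_ne h c)).1 h1

private theorem RTop_ord_nonneg (h : FF k t) {z : Pt k E L} (hz : t ∈ z.O) (c : L) :
    0 ≤ ord z (tm 1 t - tm c 1 : FL k E L) :=
  (hasVal_iff h z (sub_self_ne h c)).1 ⟨_, RTop_val_sub hz c⟩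

private theorem RTop_ord_zero (h : FF k t) {z : Pt k E L} (hz : t ∈ z.O) {c : L}
    (hc : z.ev t ≠ c) : ord z (tm 1 t - tm c 1 : FL k E L) = 0 :=
  ord_of_val h (RTop_val_sub hz c) (sub_ne_zero.2 hc)

private theorem RTop_ord_inf (h : FF k t) {z : Pt k E L} (hz : t ∉ z.O) (c : L) :
    ord z (tm 1 t - tm c 1 : FL k E L) = ord z (tm (1 : L) t) := by
  have hi : t⁻¹ ∈ z.O := (z.O.mem_or_inv_mem t).resolve_left hz
  have h1 := (hasVal_one z).sub (hasVal_tm z c hi)
  rw [z.ev_max _ hi (by rwa [inv_inv]), mul_zero, sub_zero] at h1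
  have e : (tm 1 t - tm c 1 : FL k E L) = tm 1 t * (1 - tm c t⁻¹) := by
    rw [mul_sub, mul_one, tm_mul, one_mul, mul_inv_cancel₀ h.ne_zero]
  have h2 := sub_self_ne h c
  rw [e] at h2 ⊢
  rw [ord_mul h z (left_ne_zero_of_mul h2) (right_ne_zero_of_mul h2),
    ord_of_val h h1 one_ne_zero, add_zero]

private theorem RTop_ord_pow (h : FF k t) (z : Pt k E L) (f : FL k E L) (m : ℕ) :
    ord z (f ^ m) = m * ord z f := by
  rw [← zpow_natCast, ord_zpow h]

private theorem RTop_denom (h : FF k t) (x : FL k E L) : ∃ p : L[X], p ≠ 0 ∧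
    (∀ β, (∀ z : Pt k E L, t ∈ z.O → z.ev t = β → 0 ≤ ord z x) → p.eval β ≠ 0) ∧
      eval₂ (tmL k E L) (tm 1 t) p * x ∈ RA k (⊤ : Subring L) t := by
  by_cases h0 : x = 0
  · exact ⟨1, one_ne_zero, fun _ _ => by simp, by rw [h0, mul_zero]; exact zero_mem _⟩
  set S := (ord_finite h x).toFinset.filter fun z => t ∈ z.O ∧ ord z x < 0 with hS
  have mS : ∀ z, z ∈ S ↔ t ∈ z.O ∧ ord z x < 0 := fun z => by
    rw [hS, Finset.mem_filter, Set.Finite.mem_toFinset]
    exact ⟨fun h => h.2, fun h => ⟨h.2.ne, h⟩⟩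
  have hp : (∏ z ∈ S, (X - C (z.ev t)) ^ (-ord z x).toNat : L[X]) ≠ 0 :=
    Finset.prod_ne_zero_iff.2 fun z _ => pow_ne_zero _ (X_sub_C_ne_zero _)
  refine ⟨_, hp, fun β hβ => ?_, mem_RA_top h fun z hz => ?_⟩
  · rw [eval_prod, Finset.prod_ne_zero_iff]
    intro z hz
    rw [eval_pow, eval_sub, eval_X, eval_C]
    refine pow_ne_zero _ (sub_ne_zero.2 fun e => ?_)
    exact absurd (hβ z ((mS z).1 hz).1 e.symm) (not_le.2 ((mS z).1 hz).2)
  · rw [ord_mul h z (RTop_ev_ne h hp) h0, eval₂_finsetProd]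
    simp only [eval₂_pow, RTop_ev_sub]
    rw [ord_prod h z S fun z' _ => pow_ne_zero _ (sub_self_ne h _)]
    simp only [RTop_ord_pow h]
    have hnn : ∀ z' ∈ S, (0 : ℤ) ≤ ((-ord z' x).toNat : ℤ) *
        ord z (tm 1 t - tm (z'.ev t) 1 : FL k E L) := fun z' _ =>
      mul_nonneg (Int.natCast_nonneg _) (RTop_ord_nonneg h hz _)
    by_cases hzS : z ∈ S
    · have h1 := Finset.single_le_sum hnn hzS
      have h2 := RTop_ord_pos h hz rfl
      have h3 := Int.self_le_toNat (-ord z x)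
      have h4 := Int.natCast_nonneg (-ord z x).toNat
      nlinarith
    · have h1 := Finset.sum_nonneg hnn
      have h2 : 0 ≤ ord z x := not_lt.1 fun hlt => hzS ((mS z).2 ⟨hz, hlt⟩)
      exact add_nonneg h1 h2

theorem exists_denom (h : FF k t) (x : FL k E L) (β : L)
    (hx : ∀ z : Pt k E L, t ∈ z.O → z.ev t = β → 0 ≤ ord z x) :
    ∃ p : L[X], p.eval β ≠ 0 ∧ eval₂ (tmL k E L) (tm 1 t) p * x ∈ RA k (⊤ : Subring L) t := by
  obtain ⟨p, -, h1, h2⟩ := RTop_denom h x
  exact ⟨p, h1 β hx, h2⟩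

theorem exists_denom0 (h : FF k t) (x : FL k E L) :
    ∃ p : L[X], p ≠ 0 ∧ eval₂ (tmL k E L) (tm 1 t) p * x ∈ RA k (⊤ : Subring L) t := by
  obtain ⟨p, h0, -, h2⟩ := RTop_denom h x
  exact ⟨p, h0, h2⟩

theorem eval₂_injective (h : FF k t) :
    Function.Injective fun Q : L[X] => eval₂ (tmL k E L) (tm 1 t) Q := by
  intro P Q e
  by_contra hne
  refine RTop_ev_ne h (sub_ne_zero.2 hne) ?_
  rw [eval₂_sub]
  exact sub_eq_zero.2 e

private theorem RTop_span (h : FF k t) (hd : DualB k t L e e') :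
    Submodule.span k⟮t⟯ (Set.range e) = ⊤ := by
  rw [eq_top_iff]
  intro x _
  obtain ⟨b, hb, Q, hQ, e1⟩ := OO_frac h x
  obtain ⟨P, hP⟩ := hd.span b hb
  have h0 := pts_aeval_ne h hQ
  have e2 : x = ∑ a, (⟨aeval t (P a) / aeval t Q,
      div_mem (h.chart.aeval_mem _) (h.chart.aeval_mem _)⟩ : k⟮t⟯) • e a := by
    rw [eq_div_of_mul_eq h0 e1, hP, Finset.sum_div]
    refine Finset.sum_congr rfl fun a _ => ?_
    rw [mul_div_right_comm]
    rfl
  rw [e2]
  exact Submodule.sum_mem _ fun a _ => Submodule.smul_mem _ _ (Submodule.subset_span ⟨a, rfl⟩)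

open scoped IntermediateField.algebraAdjoinAdjoin in
private theorem RTop_card (h : FF k t) (hd : DualB k t L e e') : n = dg k t := by
  have := h.fin
  apply le_antisymm
  · have h1 : LinearIndependent (Algebra.adjoin k {t}) e' := by
      rw [Fintype.linearIndependent_iff]
      intro g hg
      choose P hP using fun a => Pool.Agent.P.MP_a2beea_nt.RR.mem_adjoin_iff.1 (g a).2
      set N := Finset.univ.sup fun a => (P a).natDegree + 1 with hN
      have hlt : ∀ a, (P a).natDegree < N := fun a =>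
        Finset.le_sup (f := fun a => (P a).natDegree + 1) (Finset.mem_univ a)
      have h2 := linearIndependent_iff'.1 hd.indep (Finset.univ ×ˢ Finset.range N)
        (fun x => (P x.1).coeff x.2) (by
          rw [Finset.sum_product, ← hg]
          refine Finset.sum_congr rfl fun a _ => ?_
          rw [Subalgebra.smul_def, smul_eq_mul, ← hP, aeval_eq_sum_range' (hlt a), Finset.sum_mul]
          simp only [smul_mul_assoc])
      intro a
      have h3 : P a = 0 := by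
        ext j
        by_cases hj : j < N
        · exact h2 (a, j) (Finset.mem_product.2 ⟨Finset.mem_univ _, Finset.mem_range.2 hj⟩)
        · exact coeff_eq_zero_of_natDegree_lt ((hlt a).trans_le (not_lt.1 hj))
      apply Subtype.ext
      rw [← hP, h3, map_zero]
      rfl
    have h4 := (LinearIndependent.iff_fractionRing (Algebra.adjoin k {t}) k⟮t⟯).1 h1
    simpa [dg] using h4.fintype_card_le_finrank
  · simpa [dg] using finrank_le_of_span_eq_top (RTop_span h hd)

theorem DualB.indepL (h : FF k t) (hd : DualB k t L e e') (Q : Fin n → L[X])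
    (hQ : ∑ a, eval₂ (tmL k E L) (tm 1 t) (Q a) * tm 1 (e a) = 0) : Q = 0 := by
  have he : LinearIndependent k⟮t⟯ e :=
    linearIndependent_of_top_le_span_of_card_eq_finrank (RTop_span h hd).ge
      (by rw [Fintype.card_fin]; exact RTop_card h hd)
  funext a
  refine Dg.key_indep (Dg.iota k E L) h.trans he (fun v hv => ?_) Q hQ a
  exact (Module.Flat.linearIndependent_one_tmul (S := L) hv).map'
    (IsScalarTower.toAlgHom L (L ⊗[k] E) (FL k E L)).toLinearMap
    (LinearMap.ker_eq_bot.2 (IsFractionRing.injective (L ⊗[k] E) (FL k E L)))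

theorem exists_enum (h : FF k t) (hd : DualB k t L e e') {c : L} (hc : Transcendental k c) :
    ∃ lg : Fin n → (E →ₐ[k] L), IsEnum t c lg := by
  have hfin := hom_fibre_finite h c
  have hcard : hfin.toFinset.card = n := by
    rw [← Set.ncard_eq_toFinset_card _ hfin, hom_fibre_card h hc, RTop_card h hd]
  let q := (Finset.equivFinOfCardEq hcard).symm
  refine ⟨fun a => (q a).1, Subtype.val_injective.comp q.injective, fun y => ⟨fun hy => ?_, ?_⟩⟩
  · exact ⟨q.symm ⟨y, hfin.mem_toFinset.2 hy⟩, by simp⟩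
  · rintro ⟨a, rfl⟩
    exact hfin.mem_toFinset.1 (q a).2

theorem IsEnum.finsum {c : L} {lg : Fin n → (E →ₐ[k] L)} (hl : IsEnum t c lg) {M : Type*}
    [AddCommMonoid M] (F : (E →ₐ[k] L) → M) :
    ∑ᶠ y ∈ {y : E →ₐ[k] L | y t = c}, F y = ∑ a, F (lg a) := by
  have e1 : {y : E →ₐ[k] L | y t = c} = Set.range lg := Set.ext hl.2
  rw [e1, finsum_mem_range hl.1, finsum_eq_sum_of_fintype]

theorem det_mul_det (h : FF k t) (hd : DualB k t L e e') {c : L} {lg : Fin n → (E →ₐ[k] L)}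
    (hl : IsEnum t c lg) :
    (Matrix.of fun a a' => lg a (e a')).det * (Matrix.of fun a a' => lg a (e' a')).det = 1 := by
  rw [mul_comm, ← Matrix.det_transpose (Matrix.of fun a a' => lg a (e a')), ← Matrix.det_mul,
    ← Matrix.det_one (n := Fin n)]
  congr 1
  ext a b
  rw [Matrix.mul_apply, Matrix.one_apply]
  have h1 := hd.orth h (((hl.2 _).2 ⟨a, rfl⟩).trans ((hl.2 _).2 ⟨b, rfl⟩).symm)
  simpa only [hl.1.eq_iff, Matrix.of_apply, Matrix.transpose_apply] using h1

private theorem RTop_gauss (h : FF k t) (w : GV k L) (c : L) :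
    gauss w (tm 1 t - tm c 1 : FL k E L) = max 1 (w.v c) := by
  have hli : LinearIndependent k ![t, 1] := by
    rw [LinearIndependent.pair_iff]
    intro a b hab
    have h1 : aeval t (C a * X + C b) = 0 := by simpa [Algebra.smul_def] using hab
    have h2 := transcendental_iff.1 h.trans _ h1
    exact ⟨by simpa using congrArg (coeff · 1) h2, by simpa using congrArg (coeff · 0) h2⟩
  have h1 := gT_sum w Finset.univ hli ![1, -c]
  have e : (tm 1 t - tm c 1 : FL k E L) = algebraMap (L ⊗[k] E) (FL k E L)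
      (∑ i : Fin 2, (![1, -c] : Fin 2 → L) i ⊗ₜ[k] (![t, 1] : Fin 2 → E) i) := by
    simp [tm, TensorProduct.neg_tmul, sub_eq_add_neg]
  rw [e, gauss_algebraMap, h1]
  simp [Finset.univ_fin2]

private theorem RTop_pole (h : FF k t) (w : GV k L) {z : Pt k E L} (hz : t ∈ z.O) :
    ∑ᶠ y : Pt k E L, ((max (-ord y (tm (1 : L) t)) 0 : ℤ) : ℝ) * ipt w z y =
      Real.posLog (w.v (z.ev t)) := by
  by_cases hO : z.O = ⊤
  · obtain ⟨y, rfl⟩ := z.eq_ofHom hO
    have h1 := pole_local h w (DiscAux.const_tmul (ValuationSubring.mem_top t)) y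
    have h2 := (hasVal_tm (Pt.ofHom y) (1 : L) hz).val_eq
    rw [one_mul] at h2
    rw [← h2]
    exact h1.symm
  · have h1 : (w.v (z.ev t) : ℝ) ≤ 1 := by exact_mod_cast w.alg_le (Pt.alg_of_const h z hO t)
    rw [(Real.posLog_eq_zero_iff _).2 (by rwa [abs_of_nonneg (NNReal.coe_nonneg _)])]
    refine finsum_eq_zero_of_forall_eq_zero fun y => ?_
    by_cases hy : t ∈ y.O
    · rw [max_eq_right (neg_nonpos.2 (htc_ord_nonneg h hy)), Int.cast_zero, zero_mul]
    · rw [ipt_const h w hO fun e => hy (e ▸ ValuationSubring.mem_top t), mul_zero]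

theorem sum_ipt_fibre (h : FF k t) (w : GV k L) {c : L} (hc : Transcendental k c)
    {lg : Fin n → (E →ₐ[k] L)} (hl : IsEnum t c lg) {z : Pt k E L} (hz : t ∈ z.O)
    (hne : z.ev t ≠ c) :
    Real.log (w.v (c - z.ev t)) + ∑ a, ipt w (Pt.ofHom (lg a)) z =
      Real.posLog (w.v c) + Real.posLog (w.v (z.ev t)) := by
  have h1 := local_formula h w (sub_self_ne h c) (RTop_ord_zero h hz hne)
  have hinj : Function.Injective fun a => Pt.ofHom (lg a) := Pt.ofHom_injective.comp hl.1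
  have ho : ∀ y : Pt k E L, (ord y (tm 1 t - tm c 1 : FL k E L) : ℝ) * ipt w z y =
      (Set.range fun a => Pt.ofHom (lg a)).indicator (fun y => ipt w z y) y -
        ((max (-ord y (tm (1 : L) t)) 0 : ℤ) : ℝ) * ipt w z y := by
    intro y
    by_cases hy : t ∈ y.O
    · rw [max_eq_right (neg_nonpos.2 (htc_ord_nonneg h hy)), Int.cast_zero, zero_mul, sub_zero]
      by_cases hr : y ∈ Set.range fun a => Pt.ofHom (lg a)
      · rw [Set.indicator_of_mem hr]
        obtain ⟨a, rfl⟩ := hr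
        rw [ord_sub h, if_pos ((hl.2 _).2 ⟨a, rfl⟩), Int.cast_one, one_mul]
      · rw [Set.indicator_of_notMem hr, RTop_ord_zero h hy fun e => hr ?_, Int.cast_zero, zero_mul]
        have htop : y.O = ⊤ := by
          by_contra hn
          exact hc (e ▸ (Pt.const_iff h hy).1 hn)
        obtain ⟨y', rfl⟩ := y.eq_ofHom htop
        obtain ⟨a, ha⟩ := (hl.2 y').1 e
        exact ⟨a, congrArg Pt.ofHom ha⟩
    · have hr : y ∉ Set.range fun a => Pt.ofHom (lg a) := by
        rintro ⟨a, rfl⟩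
        exact hy (ValuationSubring.mem_top t)
      rw [Set.indicator_of_notMem hr, RTop_ord_inf h hy,
        max_eq_left (neg_nonneg.2 (htc_ord_neg h hy).le)]
      push_cast
      ring
  have f1 : (Function.support ((Set.range fun a => Pt.ofHom (lg a)).indicator
      fun y => ipt w z y)).Finite :=
    (Set.finite_range _).subset (Set.support_indicator_subset)
  have f2 : (Function.support fun y : Pt k E L =>
      ((max (-ord y (tm (1 : L) t)) 0 : ℤ) : ℝ) * ipt w z y).Finite :=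
    (ord_finite h (tm (1 : L) t)).subset fun y hy h0 => hy (by simp [h0])
  rw [finsum_congr ho, finsum_sub_distrib f1 f2, RTop_pole h w hz, ← finsum_mem_def,
    finsum_mem_range hinj, finsum_eq_sum_of_fintype, (RTop_val_sub hz c).val_eq, RTop_gauss h,
    Valuation.map_sub_swap, NNReal.coe_max, NNReal.coe_one,
    ← Real.posLog_eq_log_max_one (NNReal.coe_nonneg _)] at h1
  simp only [ipt_comm w z] at h1
  linarith

private theorem RTop_sep (h : FF k t) {z₀ : Pt k E L} (h₀ : t ∈ z₀.O) {ϖ : FL k E L} (hϖ : ϖ ≠ 0)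
    (S : Finset (Pt k E L)) (hS : ∀ z ∈ S, t ∈ z.O ∧ z ≠ z₀) :
    ∃ u : FL k E L, HasVal z₀ u 1 ∧ (∀ z : Pt k E L, t ∈ z.O → ∃ c, HasVal z u c) ∧
      ∀ z ∈ S, HasVal z u 0 ∧ HasVal z (u * ϖ) 0 := by
  induction S using Finset.induction_on with
  | empty => exact ⟨1, hasVal_one _, fun z _ => ⟨1, hasVal_one _⟩, by simp⟩
  | insert z₁ S _ ih =>
    obtain ⟨u, u1, u2, u3⟩ := ih fun z hz => hS z (Finset.mem_insert_of_mem hz)
    obtain ⟨h₁, hne⟩ := hS z₁ (Finset.mem_insert_self _ _)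
    obtain ⟨a, ha, hd⟩ : ∃ a ∈ OO k t, z₀.ev a - z₁.ev a ≠ 0 := by
      by_contra hc
      push Not at hc
      exact hne (Pt.ext_OO h h₁ h₀ fun a ha => (sub_eq_zero.1 (hc a ha)).symm)
    set v : FL k E L := tm (z₀.ev a - z₁.ev a)⁻¹ 1 * (tm 1 a - tm (z₁.ev a) 1) with hv
    have v1 : ∀ z : Pt k E L, t ∈ z.O →
        HasVal z v ((z₀.ev a - z₁.ev a)⁻¹ * (z.ev a - z₁.ev a)) := fun z hz =>
      (Dg.hasVal_const z _).mul ((Dg.hasVal_iota z (OO_le z.alg_mem hz a ha)).sub
        (Dg.hasVal_const z _))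
    have v2 := v1 z₀ h₀
    rw [inv_mul_cancel₀ hd] at v2
    have v3 := v1 z₁ h₁
    rw [sub_self, mul_zero] at v3
    have v0 : v ≠ 0 := fun e => one_ne_zero (v2.unique (e ▸ hasVal_zero z₀))
    set M := (-ord z₁ ϖ).toNat + 1 with hM
    have v4 : HasVal z₁ (v ^ M * ϖ) 0 := by
      rw [hasVal_zero_iff h z₁ (mul_ne_zero (pow_ne_zero _ v0) hϖ),
        ord_mul h z₁ (pow_ne_zero _ v0) hϖ, RTop_ord_pow h, hM]
      have h2 := (hasVal_zero_iff h z₁ v0).1 v3
      have h3 := Int.self_le_toNat (-ord z₁ ϖ)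
      have h4 := Int.natCast_nonneg (-ord z₁ ϖ).toNat
      push_cast
      nlinarith
    refine ⟨u * v ^ M, by simpa using u1.mul (v2.pow M), fun z hz => ?_, fun z hz => ?_⟩
    · obtain ⟨c, hc⟩ := u2 z hz
      exact ⟨_, hc.mul ((v1 z hz).pow M)⟩
    · rcases Finset.mem_insert.1 hz with rfl | hz'
      · obtain ⟨c, hc⟩ := u2 z h₁
        refine ⟨by simpa [hM] using hc.mul (v3.pow M), ?_⟩
        rw [mul_assoc]
        simpa using hc.mul v4
      · have h5 := (v1 z (hS z hz).1).pow M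
        refine ⟨by simpa using (u3 z hz').1.mul h5, ?_⟩
        rw [mul_right_comm]
        simpa using (u3 z hz').2.mul h5

private theorem RTop_unif (h : FF k t) {z₀ : Pt k E L} (h₀ : t ∈ z₀.O) (S : Finset (Pt k E L))
    (hS : ∀ z ∈ S, t ∈ z.O ∧ z ≠ z₀) :
    ∃ π : FL k E L, π ≠ 0 ∧ ord z₀ π = 1 ∧ ∀ z ∈ S, ord z π = 0 := by
  obtain ⟨ϖ, H⟩ := ord_par h z₀
  obtain ⟨u, u1, -, u3⟩ := RTop_sep h h₀ H.1 S hS
  have h1 := (hasVal_one z₀).sub u1
  rw [sub_self] at h1
  obtain ⟨c, hc⟩ := H.2.2 _ h1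
  have h2 := u1.add (h1.mul hc)
  rw [zero_mul, add_zero] at h2
  have h3 : u + (1 - u) * ((1 - u) / ϖ) ≠ 0 := fun e =>
    one_ne_zero (h2.unique (e ▸ hasVal_zero z₀))
  refine ⟨(u + (1 - u) * ((1 - u) / ϖ)) * ϖ, mul_ne_zero h3 H.1, ?_, fun z hz => ?_⟩
  · rw [ord_mul h z₀ h3 H.1, ord_of_val h h2 one_ne_zero, H.ord_eq h, zero_add]
  · have h4 := (hasVal_one z).sub (u3 z hz).1
    have h5 := (u3 z hz).2.add (h4.mul h4)
    rw [add_mul, mul_assoc, div_mul_cancel₀ _ H.1]
    exact ord_of_val h h5 (by simp)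

variable (t e) in
/-- `T` is the matrix of the multiplication by `x`. -/
private def RTop_Rep (x : FL k E L) (T : Matrix (Fin n) (Fin n) L[X]) : Prop :=
  ∀ a, tm 1 (e a) * x = ∑ a', eval₂ (tmL k E L) (tm 1 t) (T a a') * tm 1 (e a')

private theorem RTop_ex (hd : DualB k t L e e') {x : FL k E L} (hx : x ∈ RA k (⊤ : Subring L) t) :
    ∃ T, RTop_Rep t e x T := by
  choose T _ hT using fun a => RA_repr hd (fun _ => Subring.mem_top _)
    (mul_mem (tm_mem_RA (Subring.mem_top (1 : L)) (hd.mem a)) hx)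
  exact ⟨T, hT⟩

private theorem RTop_uniq (h : FF k t) (hd : DualB k t L e e') {x : FL k E L}
    {T T' : Matrix (Fin n) (Fin n) L[X]} (hT : RTop_Rep t e x T) (hT' : RTop_Rep t e x T') :
    T = T' := by
  funext a
  refine sub_eq_zero.1 (hd.indepL h (T a - T' a) ?_)
  simp only [Pi.sub_apply, eval₂_sub, sub_mul, Finset.sum_sub_distrib]
  rw [← hT a, ← hT' a, sub_self]

private theorem RTop_mul {x y : FL k E L} {T T' : Matrix (Fin n) (Fin n) L[X]}
    (hT : RTop_Rep t e x T) (hT' : RTop_Rep t e y T') : RTop_Rep t e (x * y) (T * T') := by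
  intro a
  rw [← mul_assoc, hT a, Finset.sum_mul]
  simp only [mul_assoc, hT' _, Matrix.mul_apply, eval₂_finsetSum, eval₂_mul, Finset.mul_sum,
    Finset.sum_mul]
  exact Finset.sum_comm

private theorem RTop_scal (p : L[X]) :
    RTop_Rep t e (eval₂ (tmL k E L) (tm 1 t) p) (Matrix.diagonal fun _ => p) := by
  intro a
  rw [Finset.sum_eq_single a, Matrix.diagonal_apply_eq, mul_comm]
  · intro b _ hb
    rw [Matrix.diagonal_apply_ne _ hb.symm, eval₂_zero, zero_mul]
  · simp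

private theorem RTop_one (hd : DualB k t L e e') : ∃ r : Fin n → FL k E L,
    (∀ a, r a ∈ RA k (⊤ : Subring L) t) ∧ ∑ a, r a * tm 1 (e a) = 1 := by
  obtain ⟨P, hP, -⟩ := hd.one
  refine ⟨fun a => tm 1 (aeval t (P a)),
    fun a => tm_mem_RA (Subring.mem_top _) (pts_aeval_mem t _), ?_⟩
  have h1 := congrArg (Dg.iota k E L) hP
  rw [map_one, map_sum] at h1
  simp only [map_mul, Dg.iota_apply] at h1
  exact h1.symm

private theorem RTop_mem (hd : DualB k t L e e') {x : FL k E L}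
    {T : Matrix (Fin n) (Fin n) L[X]} (hT : RTop_Rep t e x T) : x ∈ RA k (⊤ : Subring L) t := by
  obtain ⟨r, hr, h1⟩ := RTop_one hd
  rw [← one_mul x, ← h1, Finset.sum_mul]
  refine sum_mem fun a _ => ?_
  rw [mul_assoc, hT a]
  exact mul_mem (hr a) (sum_mem fun a' _ => mul_mem (eval₂_mem_RA fun _ => Subring.mem_top _)
    (tm_mem_RA (Subring.mem_top _) (hd.mem a')))

private theorem RTop_det (h : FF k t) (hd : DualB k t L e e') {x y : FL k E L}
    {T T' : Matrix (Fin n) (Fin n) L[X]} (hT : RTop_Rep t e x T) (hT' : RTop_Rep t e y T')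
    {p : L[X]} (hp : x * y = eval₂ (tmL k E L) (tm 1 t) p) : T.det * T'.det = p ^ n := by
  rw [← Matrix.det_mul, RTop_uniq h hd (RTop_mul hT hT') (hp ▸ RTop_scal p), Matrix.det_diagonal,
    Finset.prod_const, Finset.card_univ, Fintype.card_fin]

private theorem RTop_det_ne (h : FF k t) (hd : DualB k t L e e') {x : FL k E L} (hx : x ≠ 0)
    {T : Matrix (Fin n) (Fin n) L[X]} (hT : RTop_Rep t e x T) : T.det ≠ 0 := by
  obtain ⟨p, hp, h1⟩ := exists_denom0 h x⁻¹
  obtain ⟨T', hT'⟩ := RTop_ex hd h1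
  have h2 := RTop_det h hd hT hT' (p := p) (by rw [mul_left_comm, mul_inv_cancel₀ hx, mul_one])
  exact left_ne_zero_of_mul (h2 ▸ pow_ne_zero n hp)

private theorem RTop_root (hd : DualB k t L e e') {x : FL k E L}
    {T : Matrix (Fin n) (Fin n) L[X]} (hT : RTop_Rep t e x T) {z : Pt k E L} (hz : t ∈ z.O)
    (h0 : HasVal z x 0) : T.det.IsRoot (z.ev t) := by
  have he : ∀ a, HasVal z (tm 1 (e a) : FL k E L) (z.ev (e a)) := fun a =>
    Dg.hasVal_iota z (OO_le z.alg_mem hz _ (hd.mem a))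
  rw [IsRoot, ← coe_evalRingHom, RingHom.map_det, ← Matrix.exists_mulVec_eq_zero_iff]
  refine ⟨fun a => z.ev (e a), fun h1 => ?_, funext fun a => ?_⟩
  · obtain ⟨r, hr, h2⟩ := RTop_one hd
    have h3 := HasVal.sum Finset.univ fun a _ => (RA_val hz (hr a)).mul (he a)
    rw [h2, Finset.sum_eq_zero fun a _ => by rw [congrFun h1 a, Pi.zero_apply, mul_zero]] at h3
    exact one_ne_zero ((hasVal_one z).unique h3)
  · have h1 := HasVal.sum Finset.univ fun a' _ => (hasVal_eval₂ hz (T a a')).mul (he a')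
    have h2 := (he a).mul h0
    rw [hT a, mul_zero] at h2
    exact h1.unique h2

private theorem RTop_sum_mul (h : FF k t) (S : Finset (Pt k E L)) {x y : FL k E L} (hx : x ≠ 0)
    (hy : y ≠ 0) : ∑ z ∈ S, ord z (x * y) = ∑ z ∈ S, ord z x + ∑ z ∈ S, ord z y := by
  simp only [ord_mul h _ hx hy, Finset.sum_add_distrib]

private theorem RTop_rm {p : L[X]} {β : L} (hp : p.eval β ≠ 0) (m : ℕ) :
    p ^ m ≠ 0 ∧ (p ^ m).rootMultiplicity β = 0 :=
  ⟨pow_ne_zero _ fun e => hp (by rw [e, eval_zero]), rootMultiplicity_eq_zero fun e =>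
    pow_ne_zero m hp (by rwa [IsRoot, eval_pow] at e)⟩

private theorem RTop_le (h : FF k t) (hd : DualB k t L e e') {β : L} {S : Finset (Pt k E L)}
    (hS : ∀ z, z ∈ S ↔ t ∈ z.O ∧ z.ev t = β) (N : ℕ) : ∀ (x : FL k E L)
    (T : Matrix (Fin n) (Fin n) L[X]), x ≠ 0 → RTop_Rep t e x T → (N : ℤ) ≤ ∑ z ∈ S, ord z x →
      N ≤ T.det.rootMultiplicity β := by
  have hev : ∀ p : L[X], p.eval β ≠ 0 → ∀ z ∈ S, ord z (eval₂ (tmL k E L) (tm 1 t) p) = 0 :=
    fun p hp z hz => ord_of_val h (hasVal_eval₂ ((hS z).1 hz).1 p) (by rwa [((hS z).1 hz).2])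
  have hne : ∀ p : L[X], p.eval β ≠ 0 → eval₂ (tmL k E L) (tm 1 t) p ≠ 0 := fun p hp =>
    RTop_ev_ne h fun e => hp (by rw [e, eval_zero])
  induction N with
  | zero => exact fun _ _ _ _ _ => Nat.zero_le _
  | succ N ih =>
    intro x T hx hT hN
    have hnn : ∀ z ∈ S, 0 ≤ ord z x := fun z hz =>
      latB_ord_RA h ((hS z).1 hz).1 (RTop_mem hd hT) hx
    obtain ⟨z₀, hz₀, hpos⟩ : ∃ z ∈ S, 0 < ord z x := by
      by_contra hc
      push Not at hc
      have := Finset.sum_nonpos hc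
      omega
    obtain ⟨π, π0, π1, π2⟩ := RTop_unif h ((hS z₀).1 hz₀).1 (S.erase z₀) fun z hz =>
      ⟨((hS z).1 (Finset.mem_of_mem_erase hz)).1, Finset.ne_of_mem_erase hz⟩
    have π3 : ∀ z ∈ S, ord z π = if z = z₀ then 1 else 0 := fun z hz => by
      split_ifs with e
      · rw [e, π1]
      · exact π2 z (Finset.mem_erase.2 ⟨e, hz⟩)
    obtain ⟨p, hp, hp'⟩ := exists_denom h π β fun z h1 h2 => by
      rw [π3 z ((hS z).2 ⟨h1, h2⟩)]
      split_ifs <;> simp
    set ρ := eval₂ (tmL k E L) (tm 1 t) p * π with hρ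
    have ρ0 : ρ ≠ 0 := mul_ne_zero (hne p hp) π0
    have ρ3 : ∀ z ∈ S, ord z ρ = if z = z₀ then 1 else 0 := fun z hz => by
      rw [hρ, ord_mul h z (hne p hp) π0, hev p hp z hz, zero_add, π3 z hz]
    obtain ⟨q, hq, hq'⟩ := exists_denom h (x * ρ⁻¹) β fun z h1 h2 => by
      have hz := (hS z).2 ⟨h1, h2⟩
      rw [ord_mul h z hx (inv_ne_zero ρ0), ord_inv h, ρ3 z hz]
      have := hnn z hz
      split_ifs with e
      · rw [e]
        omega
      · omega
    set y := eval₂ (tmL k E L) (tm 1 t) q * (x * ρ⁻¹) with hy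
    have y0 : y ≠ 0 := mul_ne_zero (hne q hq) (mul_ne_zero hx (inv_ne_zero ρ0))
    have e1 : y * ρ = eval₂ (tmL k E L) (tm 1 t) q * x := by
      rw [hy, mul_assoc, mul_assoc, inv_mul_cancel₀ ρ0, mul_one]
    obtain ⟨Ty, hTy⟩ := RTop_ex hd hq'
    obtain ⟨Tρ, hTρ⟩ := RTop_ex hd hp'
    have e2 := RTop_sum_mul h S y0 ρ0
    rw [e1, RTop_sum_mul h S (hne q hq) hx, Finset.sum_eq_zero (hev q hq),
      Finset.sum_congr rfl ρ3, Finset.sum_ite_eq', if_pos hz₀] at e2
    have i1 := ih y Ty y0 hTy (by omega)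
    have i2 : 0 < Tρ.det.rootMultiplicity β := by
      rw [rootMultiplicity_pos (RTop_det_ne h hd ρ0 hTρ), ← ((hS z₀).1 hz₀).2]
      refine RTop_root hd hTρ ((hS z₀).1 hz₀).1 ((hasVal_zero_iff h z₀ ρ0).2 ?_)
      rw [ρ3 z₀ hz₀, if_pos rfl]
      exact one_pos
    have e3 := congrArg Matrix.det
      (RTop_uniq h hd (RTop_mul hTy hTρ) (e1 ▸ RTop_mul (RTop_scal q) hT))
    rw [Matrix.det_mul, Matrix.det_mul, Matrix.det_diagonal, Finset.prod_const] at e3
    have e4 := congrArg (rootMultiplicity β) e3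
    rw [rootMultiplicity_mul (mul_ne_zero (RTop_det_ne h hd y0 hTy) (RTop_det_ne h hd ρ0 hTρ)),
      rootMultiplicity_mul (mul_ne_zero (RTop_rm hq _).1 (RTop_det_ne h hd hx hT)),
      (RTop_rm hq _).2] at e4
    omega

private theorem RTop_deg (h : FF k t) {β : L} {S : Finset (Pt k E L)}
    (hS : ∀ z, z ∈ S ↔ t ∈ z.O ∧ z.ev t = β) :
    ∑ z ∈ S, ord z (tm 1 t - tm β 1 : FL k E L) = dg k t := by
  have h1 := deg_zero h (tm 1 t - tm β 1 : FL k E L)
  have h2 := deg_pole (L := L) h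
  have hI := inf_finite (L := L) h
  rw [finsum_mem_eq_finite_toFinset_sum _ hI] at h2
  rw [finsum_eq_sum_of_support_subset (s := S ∪ hI.toFinset), Finset.sum_union,
    Finset.sum_congr rfl fun z hz => RTop_ord_inf h (hI.mem_toFinset.1 hz) β, h2] at h1
  · omega
  · exact Finset.disjoint_left.2 fun z hz hz' => hI.mem_toFinset.1 hz' ((hS z).1 hz).1
  · intro z hz
    rw [Finset.coe_union]
    by_cases ht : t ∈ z.O
    · exact Or.inl ((hS z).2 ⟨ht, not_not.1 fun hne => hz (RTop_ord_zero h ht hne)⟩)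
    · exact Or.inr (hI.mem_toFinset.2 ht)

theorem norm_mult (h : FF k t) (hd : DualB k t L e e') {x : FL k E L} (hx : x ≠ 0)
    {T : Matrix (Fin n) (Fin n) L[X]}
    (hT : ∀ a, tm 1 (e a) * x = ∑ a', eval₂ (tmL k E L) (tm 1 t) (T a a') * tm 1 (e a')) (β : L) :
    T.det ≠ 0 ∧ (T.det.rootMultiplicity β : ℤ) =
      ∑ᶠ z ∈ {z : Pt k E L | t ∈ z.O ∧ z.ev t = β}, ord z x := by
  have hT' : RTop_Rep t e x T := hT
  refine ⟨RTop_det_ne h hd hx hT', ?_⟩
  rw [finsum_mem_eq_finite_toFinset_sum _ (fibre_finite h β)]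
  set S := (fibre_finite h β).toFinset with hS'
  have hS : ∀ z, z ∈ S ↔ t ∈ z.O ∧ z.ev t = β := fun z => (fibre_finite h β).mem_toFinset
  have hle : ∀ (y : FL k E L) (T : Matrix (Fin n) (Fin n) L[X]), y ≠ 0 → RTop_Rep t e y T →
      ∑ z ∈ S, ord z y ≤ T.det.rootMultiplicity β := fun y T hy hT => by
    have h0 : 0 ≤ ∑ z ∈ S, ord z y := Finset.sum_nonneg fun z hz =>
      latB_ord_RA h ((hS z).1 hz).1 (RTop_mem hd hT) hy
    have h1 := RTop_le h hd hS (∑ z ∈ S, ord z y).toNat y T hy hT (by omega)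
    omega
  have hnn : ∀ z ∈ S, 0 ≤ ord z x := fun z hz =>
    latB_ord_RA h ((hS z).1 hz).1 (RTop_mem hd hT') hx
  obtain ⟨m, hm⟩ := Int.eq_ofNat_of_zero_le (Finset.sum_nonneg hnn)
  have s0 := pow_ne_zero m (sub_self_ne h β)
  obtain ⟨q, hq, hq'⟩ := exists_denom h ((tm 1 t - tm β 1) ^ m * x⁻¹) β fun z h1 h2 => by
    have h3 := Finset.single_le_sum hnn ((hS z).2 ⟨h1, h2⟩)
    have h4 := RTop_ord_pos h h1 h2
    have h5 := Int.natCast_nonneg m
    rw [ord_mul h z s0 (inv_ne_zero hx), ord_inv h, RTop_ord_pow h]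
    nlinarith
  have q0 : eval₂ (tmL k E L) (tm 1 t) q ≠ 0 := RTop_ev_ne h fun e => hq (by rw [e, eval_zero])
  set y := eval₂ (tmL k E L) (tm 1 t) q * ((tm 1 t - tm β 1) ^ m * x⁻¹) with hy
  have y0 : y ≠ 0 := mul_ne_zero q0 (mul_ne_zero s0 (inv_ne_zero hx))
  have e1 : x * y = eval₂ (tmL k E L) (tm 1 t) q * (tm 1 t - tm β 1) ^ m := by
    rw [hy]
    field_simp
  obtain ⟨Ty, hTy⟩ := RTop_ex hd hq'
  have e2 := RTop_sum_mul h S hx y0
  rw [e1, RTop_sum_mul h S q0 s0, Finset.sum_eq_zero fun z hz => ord_of_val h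
    (hasVal_eval₂ ((hS z).1 hz).1 q) (by rwa [((hS z).1 hz).2])] at e2
  simp only [RTop_ord_pow h] at e2
  rw [← Finset.mul_sum, RTop_deg h hS, ← RTop_card h hd] at e2
  have e3 := congrArg (rootMultiplicity β) (RTop_det h hd hT' hTy (p := q * (X - C β) ^ m)
    (by rw [e1, eval₂_mul, eval₂_pow, RTop_ev_sub]))
  rw [rootMultiplicity_mul (mul_ne_zero (RTop_det_ne h hd hx hT') (RTop_det_ne h hd y0 hTy)),
    mul_pow, ← pow_mul, rootMultiplicity_mul (mul_ne_zero (RTop_rm hq _).1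
      (pow_ne_zero _ (X_sub_C_ne_zero β))), (RTop_rm hq _).2, rootMultiplicity_X_sub_C_pow] at e3
  have i1 := hle x T hx hT'
  have i2 := hle y Ty y0 hTy
  have e4 : (T.det.rootMultiplicity β : ℤ) + Ty.det.rootMultiplicity β = m * n := by
    rw [zero_add] at e3
    exact_mod_cast e3
  omega

end Pool.Agent.FFC
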