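import Pool.Agent.P.MP_a2beea_nt.FC.Defs4

/-! Convergent series over a complete ultrametric field. In such a field a series is summable iff
its terms tend to zero (`NonarchimedeanAddGroup.summable_iff_tendsto_cofinite_zero`), and the norm
of a sum is at most the largest norm of a term (`IsUltrametricDist.norm_tsum_le`, or its variants).
For products rescale or use `Summable.tsum_mul_tsum_eq_tsum_sum_antidiagonal` with
`Summable.mul_of_nonarchimedean`. It may be convenient to build the subring of the series with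
`Conv ρ` and the evaluation ring homomorphism on it. `Conv.div`: `coeff n V` is
`∑' m, coeff (n + 1 + m) U * α ^ m`. -/

open Polynomial
open scoped TensorProduct NNReal IntermediateField

namespace Pool.Agent.FFC

open Classical

variable {C : Type*} [NormedField C] [IsUltrametricDist C] [CompleteSpace C]
  {k : Type*} [Field k] [Fintype k] [Algebra k C] {ι : Type*} [Fintype ι] [DecidableEq ι]
  {ρ : ℝ} {U V : PowerSeries C} {c : C}

theorem alg_norm (k : Type*) [Field k] [Fintype k] [Algebra k C] {x : C} (hx : IsAlgebraic k x)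
    (h0 : x ≠ 0) : ‖x‖ = 1 := by
  have hint : IsIntegral k x := hx.isIntegral
  haveI : FiniteDimensional k k⟮x⟯ := IntermediateField.adjoin.finiteDimensional hint
  haveI : Finite k⟮x⟯ := Module.finite_of_finite k
  letI : Fintype k⟮x⟯ := Fintype.ofFinite _
  have h1 : (IntermediateField.AdjoinSimple.gen k x) ≠ 0 := by
    intro h
    apply h0
    have := congrArg (fun z : k⟮x⟯ => (z : C)) h
    simpa using this
  have h2 := FiniteField.pow_card_sub_one_eq_one _ h1
  have h3 : x ^ (Fintype.card k⟮x⟯ - 1) = 1 := by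
    have := congrArg (fun z : k⟮x⟯ => (z : C)) h2
    simpa using this
  have h4 : ‖x‖ ^ (Fintype.card k⟮x⟯ - 1) = 1 := by rw [← norm_pow, h3, norm_one]
  have h5 : Fintype.card k⟮x⟯ - 1 ≠ 0 := by
    have : 1 < Fintype.card k⟮x⟯ := Fintype.one_lt_card
    omega
  exact (pow_eq_one_iff_of_nonneg (norm_nonneg x) h5).1 h4

theorem Conv.add (hU : Conv ρ U) (hV : Conv ρ V) (hρ : 0 ≤ ρ) : Conv ρ (U + V) := by
  have := Filter.Tendsto.add hU hV
  rw [add_zero] at this
  refine squeeze_zero (fun _ => by positivity) (fun n => ?_) this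
  rw [map_add, ← add_mul]
  exact mul_le_mul_of_nonneg_right (norm_add_le _ _) (by positivity)

theorem Conv.neg (hU : Conv ρ U) : Conv ρ (-U) := by
  unfold Conv at hU ⊢
  simpa only [map_neg, norm_neg] using hU

theorem Conv.mul (hU : Conv ρ U) (hV : Conv ρ V) (hρ : 0 ≤ ρ) : Conv ρ (U * V) := by
  unfold Conv at hU hV ⊢
  obtain ⟨A, hA⟩ := hU.bddAbove_range
  obtain ⟨B, hB⟩ := hV.bddAbove_range
  have hA' : ∀ n, ‖PowerSeries.coeff n U‖ * ρ ^ n ≤ A := fun n => hA ⟨n, rfl⟩
  have hB' : ∀ n, ‖PowerSeries.coeff n V‖ * ρ ^ n ≤ B := fun n => hB ⟨n, rfl⟩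
  have hA0 : 0 ≤ A := le_trans (by positivity) (hA' 0)
  have hB0 : 0 ≤ B := le_trans (by positivity) (hB' 0)
  rw [Metric.tendsto_atTop] at hU hV ⊢
  intro ε hε
  have hδ : 0 < ε / (A + B + 1) := by positivity
  obtain ⟨N1, hN1⟩ := hU _ hδ
  obtain ⟨N2, hN2⟩ := hV _ hδ
  refine ⟨N1 + N2, fun n hn => ?_⟩
  rw [Real.dist_eq, sub_zero, abs_of_nonneg (by positivity), PowerSeries.coeff_mul]
  obtain ⟨⟨i, j⟩, hij, hle⟩ := IsUltrametricDist.exists_norm_finsetSum_le_of_nonempty
    (t := Finset.HasAntidiagonal.antidiagonal n) ⟨(0, n), by simp⟩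
    (fun p : ℕ × ℕ => PowerSeries.coeff p.1 U * PowerSeries.coeff p.2 V)
  have hij' : i + j = n := Finset.HasAntidiagonal.mem_antidiagonal.1 hij
  have e : ‖PowerSeries.coeff i U * PowerSeries.coeff j V‖ * ρ ^ n =
      (‖PowerSeries.coeff i U‖ * ρ ^ i) * (‖PowerSeries.coeff j V‖ * ρ ^ j) := by
    rw [norm_mul, ← hij', pow_add]; ring
  have hle' := mul_le_mul_of_nonneg_right hle (pow_nonneg hρ n)
  refine lt_of_le_of_lt hle' ?_
  simp only
  rw [e]
  have hlt : ε / (A + B + 1) * (A + B) < ε := by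
    rw [div_mul_eq_mul_div, div_lt_iff₀ (by positivity)]
    nlinarith
  by_cases hi : N1 ≤ i
  · have h1 := hN1 i hi
    rw [Real.dist_eq, sub_zero, abs_of_nonneg (by positivity)] at h1
    calc (‖PowerSeries.coeff i U‖ * ρ ^ i) * (‖PowerSeries.coeff j V‖ * ρ ^ j)
        ≤ ε / (A + B + 1) * (A + B) :=
          mul_le_mul h1.le (by linarith [hB' j]) (by positivity) hδ.le
      _ < ε := hlt
  · have h1 := hN2 j (by omega)
    rw [Real.dist_eq, sub_zero, abs_of_nonneg (by positivity)] at h1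
    calc (‖PowerSeries.coeff i U‖ * ρ ^ i) * (‖PowerSeries.coeff j V‖ * ρ ^ j)
        = (‖PowerSeries.coeff j V‖ * ρ ^ j) * (‖PowerSeries.coeff i U‖ * ρ ^ i) := mul_comm _ _
      _ ≤ ε / (A + B + 1) * (A + B) :=
          mul_le_mul h1.le (by linarith [hA' i]) (by positivity) hδ.le
      _ < ε := hlt

theorem conv_coe (ρ : ℝ) (Q : C[X]) : Conv ρ (Q : PowerSeries C) := by
  unfold Conv
  refine tendsto_const_nhds.congr' ?_
  filter_upwards [Filter.eventually_gt_atTop Q.natDegree] with n hn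
  rw [Polynomial.coeff_coe, Polynomial.coeff_eq_zero_of_natDegree_lt hn, norm_zero, zero_mul]

/-- The series that converge on the closed disc form a subring. -/
def solEv_sub (C : Type*) [NormedField C] [IsUltrametricDist C] [CompleteSpace C] (ρ : ℝ)
    (hρ : 0 ≤ ρ) : Subring (PowerSeries C) where
  carrier := {U | Conv ρ U}
  zero_mem' := by simpa using conv_coe ρ (0 : C[X])
  one_mem' := by simpa using conv_coe ρ (1 : C[X])
  add_mem' := fun hU hV => Conv.add hU hV hρ
  neg_mem' := fun hU => Conv.neg hU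
  mul_mem' := fun hU hV => Conv.mul hU hV hρ

theorem solEv_mem {hρ : 0 ≤ ρ} : U ∈ solEv_sub C ρ hρ ↔ Conv ρ U := Iff.rfl

theorem conv_sum {κ : Type*} (s : Finset κ) {W : κ → PowerSeries C} (hW : ∀ i ∈ s, Conv ρ (W i))
    (hρ : 0 ≤ ρ) : Conv ρ (∑ i ∈ s, W i) :=
  (solEv_mem (hρ := hρ)).1 (Subring.sum_mem _ fun i hi => solEv_mem.2 (hW i hi))

theorem conv_det {W : Matrix ι ι (PowerSeries C)} (hW : ∀ a b, Conv ρ (W a b)) (hρ : 0 ≤ ρ) :
    Conv ρ W.det := by
  refine (solEv_mem (hρ := hρ)).1 ?_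
  rw [Matrix.det_apply']
  refine Subring.sum_mem _ fun σ _ => Subring.mul_mem _ (intCast_mem _ _) ?_
  exact Subring.prod_mem _ fun i _ => solEv_mem.2 (hW _ _)

theorem conv_of_bound {R B : ℝ} (hB : ∀ n, ‖PowerSeries.coeff n U‖ * R ^ n ≤ B) (hρ : 0 ≤ ρ)
    (hR : ρ < R) : Conv ρ U := by
  have hR0 : 0 < R := lt_of_le_of_lt hρ hR
  have h1 : Filter.Tendsto (fun n : ℕ => B * (ρ / R) ^ n) Filter.atTop (nhds (B * 0)) :=
    (tendsto_pow_atTop_nhds_zero_of_lt_one (by positivity) ((div_lt_one hR0).2 hR)).const_mul B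
  rw [mul_zero] at h1
  refine squeeze_zero (fun _ => by positivity) (fun n => ?_) h1
  have e : ‖PowerSeries.coeff n U‖ * ρ ^ n = (‖PowerSeries.coeff n U‖ * R ^ n) * (ρ / R) ^ n := by
    rw [div_pow]
    field_simp
  rw [e]
  exact mul_le_mul_of_nonneg_right (hB n) (by positivity)

theorem Conv.twS (hU : Conv 1 U) : Conv 1 (twS k U) := by
  unfold Conv at hU ⊢
  simp only [one_pow, mul_one] at hU ⊢
  have := hU.pow (Fintype.card k)
  rw [zero_pow Fintype.card_ne_zero] at this
  simpa only [coeff_twS, norm_pow] using this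

theorem solEv_tendsto (hU : Conv ρ U) (hc : ‖c‖ ≤ ρ) :
    Filter.Tendsto (fun n => PowerSeries.coeff n U * c ^ n) Filter.atTop (nhds 0) := by
  rw [tendsto_zero_iff_norm_tendsto_zero]
  refine squeeze_zero (fun _ => norm_nonneg _) (fun n => ?_) hU
  rw [norm_mul, norm_pow]
  exact mul_le_mul_of_nonneg_left (pow_le_pow_left₀ (norm_nonneg c) hc n) (norm_nonneg _)

theorem solEv_summable {f : ℕ → C} (hf : Filter.Tendsto f Filter.atTop (nhds 0)) :
    Summable f := by
  rw [NonarchimedeanAddGroup.summable_iff_tendsto_cofinite_zero, Nat.cofinite_eq_atTop]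
  exact hf

theorem Conv.hasSum (hU : Conv ρ U) (hc : ‖c‖ ≤ ρ) :
    HasSum (fun n => PowerSeries.coeff n U * c ^ n) (evS c U) :=
  (solEv_summable (solEv_tendsto hU hc)).hasSum

theorem evS_add (hU : Conv ρ U) (hV : Conv ρ V) (hc : ‖c‖ ≤ ρ) :
    evS c (U + V) = evS c U + evS c V := by
  have h := (hU.hasSum hc).add (hV.hasSum hc)
  unfold evS at h ⊢
  rw [← h.tsum_eq]
  simp only [map_add, add_mul]

theorem evS_mul (hU : Conv ρ U) (hV : Conv ρ V) (hc : ‖c‖ ≤ ρ) :
    evS c (U * V) = evS c U * evS c V := by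
  have h1 := (hU.hasSum hc).summable
  have h2 := (hV.hasSum hc).summable
  have h3 : Summable fun x : ℕ × ℕ =>
      (PowerSeries.coeff x.1 U * c ^ x.1) * (PowerSeries.coeff x.2 V * c ^ x.2) := by
    rw [NonarchimedeanAddGroup.summable_iff_tendsto_cofinite_zero] at h1 h2 ⊢
    exact tendsto_mul_cofinite_nhds_zero h1 h2
  unfold evS
  rw [h1.tsum_mul_tsum_eq_tsum_sum_antidiagonal h2 h3]
  refine tsum_congr fun n => ?_
  rw [PowerSeries.coeff_mul, Finset.sum_mul]
  refine Finset.sum_congr rfl fun p hp => ?_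
  rw [← Finset.HasAntidiagonal.mem_antidiagonal.1 hp, pow_add]
  ring

theorem evS_coe (c : C) (Q : C[X]) : evS c (Q : PowerSeries C) = Q.eval c := by
  unfold evS
  rw [tsum_eq_sum (s := Finset.range (Q.natDegree + 1)), Polynomial.eval_eq_sum_range]
  · simp only [Polynomial.coeff_coe]
  · intro n hn
    rw [Polynomial.coeff_coe, Polynomial.coeff_eq_zero_of_natDegree_lt
      (by simpa [Nat.lt_succ_iff] using hn), zero_mul]

/-- Evaluation as a ring homomorphism on the convergent series. -/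
noncomputable def solEv_hom (c : C) (ρ : ℝ) (hc : ‖c‖ ≤ ρ) :
    solEv_sub C ρ (le_trans (norm_nonneg c) hc) →+* C where
  toFun U := evS c U.1
  map_zero' := by simpa using evS_coe c (0 : C[X])
  map_one' := by simpa using evS_coe c (1 : C[X])
  map_add' U V := evS_add U.2 V.2 hc
  map_mul' U V := evS_mul U.2 V.2 hc

theorem evS_sum {κ : Type*} (s : Finset κ) {W : κ → PowerSeries C} (hW : ∀ i ∈ s, Conv ρ (W i))
    (hc : ‖c‖ ≤ ρ) : evS c (∑ i ∈ s, W i) = ∑ i ∈ s, evS c (W i) := by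
  have hρ : 0 ≤ ρ := le_trans (norm_nonneg c) hc
  induction s using Finset.induction_on with
  | empty => simpa using evS_coe c (0 : C[X])
  | insert a s ha ih =>
    have hs : ∀ i ∈ s, Conv ρ (W i) := fun i hi => hW i (Finset.mem_insert_of_mem hi)
    rw [Finset.sum_insert ha, Finset.sum_insert ha,
      evS_add (hW a (Finset.mem_insert_self a s)) (conv_sum s hs hρ) hc, ih hs]

theorem evS_det {W : Matrix ι ι (PowerSeries C)} (hW : ∀ a b, Conv ρ (W a b)) (hc : ‖c‖ ≤ ρ) :
    evS c W.det = (W.map (evS c)).det := by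
  have hρ : 0 ≤ ρ := le_trans (norm_nonneg c) hc
  let W' : Matrix ι ι (solEv_sub C ρ hρ) := Matrix.of fun a b => ⟨W a b, hW a b⟩
  have h1 : W.det = (W'.det : PowerSeries C) := by
    have := (solEv_sub C ρ hρ).subtype.map_det W'
    rw [Subring.coe_subtype] at this
    rw [this]
    rfl
  have h2 := (solEv_hom c ρ hc).map_det W'
  rw [h1]
  exact h2

theorem norm_evS_le (hU : Conv 1 U) (hc : ‖c‖ ≤ 1) {B : ℝ}
    (hB : ∀ n, ‖PowerSeries.coeff n U‖ ≤ B) : ‖evS c U‖ ≤ B := by
  have _ := hU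
  refine IsUltrametricDist.norm_tsum_le_of_forall_le fun n => ?_
  rw [norm_mul, norm_pow]
  exact le_trans (mul_le_of_le_one_right (norm_nonneg _) (pow_le_one₀ (norm_nonneg c) hc)) (hB n)

theorem solEv_max {f : ℕ → ℝ} (h0 : ∀ n, 0 ≤ f n) (hf : Filter.Tendsto f Filter.atTop (nhds 0)) :
    ∃ n0, ∀ n, f n ≤ f n0 := by
  by_cases h : ∀ n, f n = 0
  · exact ⟨0, fun n => by rw [h n, h 0]⟩
  · push Not at h
    obtain ⟨m, hm⟩ := h
    have hm' : 0 < f m := lt_of_le_of_ne (h0 m) (Ne.symm hm)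
    obtain ⟨N, hN⟩ := Filter.eventually_atTop.1 (hf.eventually (gt_mem_nhds hm'))
    obtain ⟨n0, -, hn0⟩ := Finset.exists_max_image (Finset.range (N + m + 1)) f ⟨0, by simp⟩
    refine ⟨n0, fun n => ?_⟩
    by_cases hn : n < N + m + 1
    · exact hn0 n (Finset.mem_range.2 hn)
    · exact le_trans (hN n (by omega)).le (hn0 m (Finset.mem_range.2 (by omega)))

theorem solEv_tsum_lt {f : ℕ → C} (hf : Filter.Tendsto f Filter.atTop (nhds 0)) {B : ℝ}
    (hB : ∀ n, ‖f n‖ < B) : ‖∑' n, f n‖ < B := by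
  obtain ⟨n0, hn0⟩ := solEv_max (f := fun n => ‖f n‖) (fun _ => norm_nonneg _)
    (tendsto_zero_iff_norm_tendsto_zero.1 hf)
  exact lt_of_le_of_lt (IsUltrametricDist.norm_tsum_le_of_forall_le hn0) (hB n0)

theorem norm_evS_lt (hU : Conv 1 U) (hc : ‖c‖ ≤ 1) {B : ℝ}
    (hB : ∀ n, ‖PowerSeries.coeff n U‖ < B) : ‖evS c U‖ < B := by
  refine solEv_tsum_lt (solEv_tendsto hU hc) fun n => ?_
  rw [norm_mul, norm_pow]
  exact lt_of_le_of_lt (mul_le_of_le_one_right (norm_nonneg _) (pow_le_one₀ (norm_nonneg c) hc))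
    (hB n)

theorem evS_twS (hU : Conv 1 U) (hc : ‖c‖ ≤ 1) :
    evS (c ^ Fintype.card k) (twS k U) = evS c U ^ Fintype.card k := by
  have hcont : Continuous (FiniteField.frobeniusAlgHom k C) :=
    continuous_pow (Fintype.card k)
  have h := (hU.hasSum hc).map (FiniteField.frobeniusAlgHom k C) hcont
  have h' : HasSum (fun n => PowerSeries.coeff n (FFC.twS k U) * (c ^ Fintype.card k) ^ n)
      (evS c U ^ Fintype.card k) := by
    have e : (fun n => PowerSeries.coeff n (FFC.twS k U) * (c ^ Fintype.card k) ^ n) =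
        (FiniteField.frobeniusAlgHom k C) ∘ fun n => PowerSeries.coeff n U * c ^ n := by
      funext n
      rw [coeff_twS, ← pow_mul, mul_comm (Fintype.card k) n, pow_mul, ← mul_pow]
      rfl
    rw [e]
    exact h
  exact h'.tsum_eq

theorem Conv.div (hU : Conv 1 U) (hc : ‖c‖ ≤ 1) (h0 : evS c U = 0) :
    ∃ V, Conv 1 V ∧ U = (PowerSeries.X - PowerSeries.C c) * V := by
  have hU0 : Filter.Tendsto (fun n => ‖PowerSeries.coeff n U‖) Filter.atTop (nhds 0) := by
    simpa only [Conv, one_pow, mul_one] using hU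
  have hterm : ∀ n m, ‖PowerSeries.coeff n U * c ^ m‖ ≤ ‖PowerSeries.coeff n U‖ := by
    intro n m
    rw [norm_mul, norm_pow]
    exact mul_le_of_le_one_right (norm_nonneg _) (pow_le_one₀ (norm_nonneg c) hc)
  have hsum : ∀ n, Summable fun m => PowerSeries.coeff (m + n) U * c ^ m := by
    intro n
    refine solEv_summable ?_
    rw [tendsto_zero_iff_norm_tendsto_zero]
    exact squeeze_zero (fun _ => norm_nonneg _) (fun m => hterm _ _)
      (hU0.comp (Filter.tendsto_add_atTop_nat n))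
  -- the tails
  set T : ℕ → C := fun n => ∑' m, PowerSeries.coeff (m + n) U * c ^ m with hT
  have hrec : ∀ n, T n = PowerSeries.coeff n U + c * T (n + 1) := by
    intro n
    simp only [hT]
    rw [(hsum n).tsum_eq_zero_add, ← (hsum (n + 1)).tsum_mul_left]
    congr 1
    · simp
    · refine tsum_congr fun m => ?_
      rw [show m + 1 + n = m + (n + 1) by ring, pow_succ]
      ring
  have hT0 : T 0 = 0 := by
    rw [← h0]
    simp only [hT, evS, add_zero]
  refine ⟨PowerSeries.mk fun n => T (n + 1), ?_, ?_⟩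
  · unfold Conv
    simp only [one_pow, mul_one, PowerSeries.coeff_mk]
    rw [Metric.tendsto_atTop] at hU0 ⊢
    intro ε hε
    obtain ⟨N, hN⟩ := hU0 (ε / 2) (by positivity)
    refine ⟨N, fun n hn => ?_⟩
    rw [Real.dist_eq, sub_zero, abs_of_nonneg (norm_nonneg _)]
    refine lt_of_le_of_lt (IsUltrametricDist.norm_tsum_le_of_forall_le (C := ε / 2) fun m => ?_)
      (by linarith)
    have := hN (m + (n + 1)) (by omega)
    rw [Real.dist_eq, sub_zero, abs_of_nonneg (norm_nonneg _)] at this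
    exact le_trans (hterm _ _) this.le
  · ext n
    rw [sub_mul, map_sub, PowerSeries.coeff_C_mul, PowerSeries.coeff_mk]
    rcases n with _ | n
    · rw [PowerSeries.coeff_zero_X_mul]
      have := hrec 0
      rw [hT0] at this
      linear_combination -this
    · rw [PowerSeries.coeff_succ_X_mul, PowerSeries.coeff_mk]
      have := hrec (n + 1)
      linear_combination -this

theorem evS_unit {R B : ℝ} (hR : 1 < R) (hB : ∀ n, ‖PowerSeries.coeff n U‖ * R ^ n ≤ B)
    (hU : ∀ n, 1 ≤ n → ‖PowerSeries.coeff n U‖ < ‖PowerSeries.coeff 0 U‖) :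
    ∃ ρ : ℝ, 1 < ρ ∧ ∀ c : C, ‖c‖ ≤ ρ → ‖evS c U‖ = ‖PowerSeries.coeff 0 U‖ := by
  have h0 : 0 < ‖PowerSeries.coeff 0 U‖ := lt_of_le_of_lt (norm_nonneg _) (hU 1 le_rfl)
  set R' : ℝ := (1 + R) / 2 with hR'
  have hR1 : 1 < R' := by rw [hR']; linarith
  have hR2 : R' < R := by rw [hR']; linarith
  have hconv : Conv R' U := conv_of_bound hB (by linarith) hR2
  obtain ⟨N, hN⟩ := Filter.eventually_atTop.1 (Filter.Tendsto.eventually hconv (gt_mem_nhds h0))
  have hev : ∀ᶠ r in nhds (1 : ℝ), ∀ n ∈ Finset.range N, 1 ≤ n →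
      ‖PowerSeries.coeff n U‖ * r ^ n < ‖PowerSeries.coeff 0 U‖ := by
    rw [Filter.eventually_all_finset]
    intro n _
    by_cases hn : 1 ≤ n
    · have hc : Continuous fun r : ℝ => ‖PowerSeries.coeff n U‖ * r ^ n := by fun_prop
      have := hc.continuousAt (x := 1) |>.eventually (gt_mem_nhds (a := ‖PowerSeries.coeff 0 U‖)
        (by simpa using hU n hn))
      filter_upwards [this] with r hr _
      exact hr
    · exact Filter.Eventually.of_forall fun r h => absurd h hn
  have hev2 : ∀ᶠ r in nhds (1 : ℝ), r < R' := gt_mem_nhds hR1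
  obtain ⟨ρ, ⟨hρ1, hρ2⟩, hρ3⟩ :=
    (((hev.and hev2).filter_mono nhdsWithin_le_nhds).and
      (self_mem_nhdsWithin (a := (1 : ℝ)) (s := Set.Ioi 1))).exists
  have hρ3' : 1 < ρ := hρ3
  refine ⟨ρ, hρ3', fun c hc => ?_⟩
  have hc' : ‖c‖ ≤ R' := le_trans hc hρ2.le
  have hsum := (hconv.hasSum hc').summable
  have htail : ‖∑' n, PowerSeries.coeff (n + 1) U * c ^ (n + 1)‖ < ‖PowerSeries.coeff 0 U‖ := by
    refine solEv_tsum_lt (f := fun n => PowerSeries.coeff (n + 1) U * c ^ (n + 1))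
      ((solEv_tendsto hconv hc').comp (Filter.tendsto_add_atTop_nat 1)) fun n => ?_
    rw [norm_mul, norm_pow]
    by_cases hn : n + 1 < N
    · exact lt_of_le_of_lt (mul_le_mul_of_nonneg_left
        (pow_le_pow_left₀ (norm_nonneg c) hc _) (norm_nonneg _))
        (hρ1 _ (Finset.mem_range.2 hn) (by omega))
    · exact lt_of_le_of_lt (mul_le_mul_of_nonneg_left
        (pow_le_pow_left₀ (norm_nonneg c) hc' _) (norm_nonneg _)) (hN _ (by omega))
  unfold evS
  rw [hsum.tsum_eq_zero_add, pow_zero, mul_one,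
    IsUltrametricDist.norm_add_eq_max_of_norm_ne_norm htail.ne', max_eq_left htail.le]

theorem Conv.exists_max (hU : Conv 1 U) :
    ∃ n0, ∀ n, ‖PowerSeries.coeff n U‖ ≤ ‖PowerSeries.coeff n0 U‖ :=
  solEv_max (f := fun n => ‖PowerSeries.coeff n U‖) (fun _ => norm_nonneg _)
    (by simpa only [Conv, one_pow, mul_one] using hU)

/-- The reduction of a series. -/
theorem Conv.exists_red
    (hres : ∀ x : C, ‖x‖ ≤ 1 → ∃ c : C, IsAlgebraic k c ∧ ‖x - c‖ < 1)
    (hU : Conv 1 U) (hc : c ≠ 0) (hle : ∀ n, ‖PowerSeries.coeff n U‖ ≤ ‖c‖) :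
    ∃ P : C[X], (∀ n, IsAlgebraic k (P.coeff n)) ∧
      ∀ n, ‖PowerSeries.coeff n U - c * P.coeff n‖ < ‖c‖ := by
  have hc0 : 0 < ‖c‖ := norm_pos_iff.2 hc
  have hU0 : Filter.Tendsto (fun n => ‖PowerSeries.coeff n U‖) Filter.atTop (nhds 0) := by
    simpa only [Conv, one_pow, mul_one] using hU
  obtain ⟨N, hN⟩ := Filter.eventually_atTop.1 (hU0.eventually (gt_mem_nhds hc0))
  have hex : ∀ n, ∃ a : C, IsAlgebraic k a ∧ ‖PowerSeries.coeff n U - c * a‖ < ‖c‖ := by
    intro n
    obtain ⟨a, ha, ha'⟩ := hres (PowerSeries.coeff n U / c)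
      (by rw [norm_div]; exact (div_le_one hc0).2 (hle n))
    refine ⟨a, ha, ?_⟩
    have e : PowerSeries.coeff n U - c * a = c * (PowerSeries.coeff n U / c - a) := by
      field_simp
    rw [e, norm_mul]
    exact mul_lt_of_lt_one_right hc0 ha'
  choose a ha ha' using hex
  refine ⟨∑ n ∈ Finset.range N, Polynomial.monomial n (a n), fun n => ?_, fun n => ?_⟩
  · rw [Polynomial.finsetSum_coeff]
    simp only [Polynomial.coeff_monomial]
    rw [Finset.sum_ite_eq']
    split_ifs
    · exact ha n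
    · exact isAlgebraic_zero
  · rw [Polynomial.finsetSum_coeff]
    simp only [Polynomial.coeff_monomial]
    rw [Finset.sum_ite_eq']
    split_ifs with h
    · exact ha' n
    · rw [mul_zero, sub_zero]
      exact hN n (by simpa using h)

theorem solEv_coeff_polS (P : k[X]) (n : ℕ) :
    PowerSeries.coeff n (polS C k P) = algebraMap k C (P.coeff n) := by
  simp [polS]

theorem twS_polS (P : k[X]) : twS k (polS C k P) = polS C k P := by
  ext n
  rw [coeff_twS, solEv_coeff_polS, ← map_pow, FiniteField.pow_card]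

theorem polS_injective : Function.Injective (polS C k) := by
  intro P Q h
  ext n
  have := congrArg (PowerSeries.coeff n) h
  rw [solEv_coeff_polS, solEv_coeff_polS] at this
  exact (algebraMap k C).injective this

theorem SpanK_le_Sol {Φ : Matrix ι ι C[X]} {W : ι → ι → PowerSeries C}
    (hW : ∀ a, W a ∈ Sol k Φ) : SpanK k W ≤ Sol k Φ := by
  rintro V ⟨P, hP⟩
  refine ⟨fun c => ?_, fun c => ?_⟩
  · rw [hP c]
    refine conv_sum _ (fun a _ => Conv.mul ?_ ((hW a).1 c) zero_le_one) zero_le_one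
    exact conv_coe 1 ((P a).map (algebraMap k C))
  · simp only [hP, map_sum, map_mul, twS_polS, (hW _).2, Finset.mul_sum]
    rw [Finset.sum_comm]
    refine Finset.sum_congr rfl fun d _ => Finset.sum_congr rfl fun a _ => ?_
    ring

theorem twS_det {Φ : Matrix ι ι C[X]} {W : ι → ι → PowerSeries C} (hW : ∀ a, W a ∈ Sol k Φ) :
    twS k (Matrix.of W).det = ((Φ.det : C[X]) : PowerSeries C) * (Matrix.of W).det := by
  have h1 : (FFC.twS k).mapMatrix (Matrix.of W) =
      Matrix.of W * ((Polynomial.coeToPowerSeries.ringHom (R := C)).mapMatrix Φ).transpose := by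
    refine Matrix.ext fun a c => ?_
    simp only [RingHom.mapMatrix_apply, Matrix.map_apply, Matrix.of_apply, Matrix.mul_apply,
      Matrix.transpose_apply, Polynomial.coeToPowerSeries.ringHom_apply]
    rw [(hW a).2 c]
    exact Finset.sum_congr rfl fun d _ => mul_comm (Φ c d : PowerSeries C) (W a d)
  rw [RingHom.map_det, h1, Matrix.det_mul, Matrix.det_transpose, ← RingHom.map_det,
    Polynomial.coeToPowerSeries.ringHom_apply, mul_comm]

end Pool.Agent.FFC
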