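import Pool.Agent.P.MP_a2beea_nt.FC.Defs3

/-! Radius of convergence. Let `s n = max_a ‖coeff n (U a)‖ → 0`, `ρ = ‖θ‖`, `d` a bound for the
degrees and `b` for the norms of the coefficients of the `B a b`. The coefficient of `X ^ n`
gives `s n ≤ max (max_{1 ≤ i ≤ N} ρ ^ (-i) s (n - i)) (ρ ^ (-N) b max_{0 ≤ i ≤ d} s (n - i) ^ q)`
(binomial coefficients have norm `≤ 1`). For large `n` we have
`ρ ^ (-N) b s (n - i) ^ (q - 1) ≤ ρ ^ (-d) / 2`; the term `i = 0` is absorbed, and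
`s n ρ ^ n ≤ max_{m < n} s m ρ ^ m`. -/

open Polynomial
open scoped TensorProduct NNReal IntermediateField

namespace Pool.Agent.FFC

open Classical

theorem tate_div_one {C : Type*} [NormedField C] [IsUltrametricDist C] {θ : C} (hθ : 1 < ‖θ‖)
    (U : PowerSeries C) (n : ℕ) (K : ℝ)
    (h : ∀ m ≤ n, ‖PowerSeries.coeff m ((PowerSeries.X - PowerSeries.C θ) * U)‖ * ‖θ‖ ^ m ≤ K) :
    ∀ m ≤ n, ‖PowerSeries.coeff m U‖ * ‖θ‖ ^ m ≤ K := by
  have h0 : 0 < ‖θ‖ := by linarith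
  have key : ∀ m ≤ n, ‖PowerSeries.coeff m U‖ * ‖θ‖ ^ (m + 1) ≤ K := by
    intro m
    induction m with
    | zero =>
      intro hm
      have := h 0 hm
      rw [sub_mul, map_sub, PowerSeries.coeff_zero_X_mul, PowerSeries.coeff_C_mul, zero_sub,
        norm_neg, norm_mul, pow_zero, mul_one] at this
      rw [zero_add, pow_one, mul_comm]
      exact this
    | succ m ih =>
      intro hm
      have h1 := ih (by omega)
      have h2 := h (m + 1) hm
      rw [sub_mul, map_sub, PowerSeries.coeff_succ_X_mul, PowerSeries.coeff_C_mul] at h2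
      have h3 : ‖θ * PowerSeries.coeff (m + 1) U‖ ≤ max ‖PowerSeries.coeff m U‖
          ‖PowerSeries.coeff m U - θ * PowerSeries.coeff (m + 1) U‖ := by
        have h4 := IsUltrametricDist.norm_add_le_max (PowerSeries.coeff m U)
          (-(PowerSeries.coeff m U - θ * PowerSeries.coeff (m + 1) U))
        rw [norm_neg] at h4
        have e : PowerSeries.coeff m U + -(PowerSeries.coeff m U - θ * PowerSeries.coeff (m + 1) U)
          = θ * PowerSeries.coeff (m + 1) U := by ring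
        rwa [e] at h4
      rw [norm_mul] at h3
      have hp : 0 ≤ ‖θ‖ ^ (m + 1) := by positivity
      have e : ‖PowerSeries.coeff (m + 1) U‖ * ‖θ‖ ^ (m + 1 + 1)
          = (‖θ‖ * ‖PowerSeries.coeff (m + 1) U‖) * ‖θ‖ ^ (m + 1) := by ring
      rw [e]
      refine (mul_le_mul_of_nonneg_right h3 hp).trans ?_
      rw [max_mul_of_nonneg _ _ hp]
      exact max_le h1 h2
  intro m hm
  refine le_trans ?_ (key m hm)
  exact mul_le_mul_of_nonneg_left (pow_le_pow_right₀ hθ.le (Nat.le_succ m)) (norm_nonneg _)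

theorem tate_div {C : Type*} [NormedField C] [IsUltrametricDist C] {θ : C} (hθ : 1 < ‖θ‖)
    (N : ℕ) (U : PowerSeries C) (n : ℕ) (K : ℝ)
    (h : ∀ m ≤ n,
      ‖PowerSeries.coeff m ((PowerSeries.X - PowerSeries.C θ) ^ N * U)‖ * ‖θ‖ ^ m ≤ K) :
    ∀ m ≤ n, ‖PowerSeries.coeff m U‖ * ‖θ‖ ^ m ≤ K := by
  induction N with
  | zero => simpa using h
  | succ N ih =>
    apply ih
    apply tate_div_one hθ
    intro m hm
    have := h m hm
    rwa [pow_succ', mul_assoc] at this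

theorem tate_abs {C : Type*} [NormedField C] [IsUltrametricDist C] {ι : Type*} [Fintype ι]
    {θ : C} (hθ : 1 < ‖θ‖) {q : ℕ} (hq : 2 ≤ q) (N : ℕ) (U V : ι → PowerSeries C)
    (hU : ∀ a, Filter.Tendsto (fun n => ‖PowerSeries.coeff n (U a)‖) Filter.atTop (nhds 0))
    (hV : ∀ a n, ‖PowerSeries.coeff n (V a)‖ = ‖PowerSeries.coeff n (U a)‖ ^ q)
    (B : ι → ι → C[X])
    (hB : ∀ a, (PowerSeries.X - PowerSeries.C θ) ^ N * U a =
      ∑ b, (B a b : PowerSeries C) * V b) :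
    ∃ M : ℝ, ∀ a n, ‖PowerSeries.coeff n (U a)‖ * ‖θ‖ ^ n ≤ M := by
  have h0 : 0 < ‖θ‖ := by linarith
  obtain ⟨D, hD0, hD⟩ : ∃ D : ℝ, 0 ≤ D ∧ ∀ a b i, ‖(B a b).coeff i‖ * ‖θ‖ ^ i ≤ D := by
    refine ⟨∑ p : ι × ι, ∑ i ∈ (B p.1 p.2).support, ‖(B p.1 p.2).coeff i‖ * ‖θ‖ ^ i,
      by positivity, fun a b i => ?_⟩
    by_cases hi : i ∈ (B a b).support
    · refine le_trans (Finset.single_le_sum (f := fun i => ‖(B a b).coeff i‖ * ‖θ‖ ^ i)
        (fun j _ => by positivity) hi) ?_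
      exact Finset.single_le_sum
        (f := fun p : ι × ι => ∑ i ∈ (B p.1 p.2).support, ‖(B p.1 p.2).coeff i‖ * ‖θ‖ ^ i)
        (fun j _ => by positivity) (Finset.mem_univ (a, b))
    · rw [Polynomial.notMem_support_iff.mp hi, norm_zero, zero_mul]
      positivity
  obtain ⟨n0, hn0⟩ : ∃ n0 : ℕ, ∀ k ≥ n0, ∀ b,
      D * ‖PowerSeries.coeff k (U b)‖ ^ (q - 1) ≤ 1 / 2 := by
    rw [← Filter.eventually_atTop, Filter.eventually_all]
    intro b
    have h1 : Filter.Tendsto (fun k => D * ‖PowerSeries.coeff k (U b)‖ ^ (q - 1)) Filter.atTop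
        (nhds (D * 0 ^ (q - 1))) := ((hU b).pow (q - 1)).const_mul D
    rw [zero_pow (by omega), mul_zero] at h1
    exact h1.eventually (ge_mem_nhds (by norm_num))
  obtain ⟨K, hK0, hK⟩ : ∃ K : ℝ, 0 ≤ K ∧ ∀ k < n0, ∀ b,
      D * (‖PowerSeries.coeff k (U b)‖ ^ q * ‖θ‖ ^ k) ≤ K := by
    refine ⟨∑ p ∈ Finset.range n0 ×ˢ (Finset.univ : Finset ι),
      D * (‖PowerSeries.coeff p.1 (U p.2)‖ ^ q * ‖θ‖ ^ p.1), by positivity, fun k hk b => ?_⟩
    exact Finset.single_le_sum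
      (f := fun p : ℕ × ι => D * (‖PowerSeries.coeff p.1 (U p.2)‖ ^ q * ‖θ‖ ^ p.1))
      (fun j _ => by positivity) (a := (k, b)) (by simpa using hk)
  refine ⟨K, fun a n => ?_⟩
  obtain ⟨⟨a0, m0⟩, hm0, hmax⟩ := Finset.exists_max_image
    ((Finset.univ : Finset ι) ×ˢ Finset.range (n + 1))
    (fun p : ι × ℕ => ‖PowerSeries.coeff p.2 (U p.1)‖ * ‖θ‖ ^ p.2) ⟨(a, n), by simp⟩
  have hm0' : m0 ≤ n := by simpa [Nat.lt_succ_iff] using hm0
  set T := ‖PowerSeries.coeff m0 (U a0)‖ * ‖θ‖ ^ m0 with hT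
  have hT0 : 0 ≤ T := by positivity
  have hle : ∀ b, ∀ m ≤ n, ‖PowerSeries.coeff m (U b)‖ * ‖θ‖ ^ m ≤ T := fun b m hm =>
    hmax (b, m) (by simpa [Nat.lt_succ_iff] using hm)
  have hmain : T ≤ max K (T / 2) := by
    refine tate_div hθ N (U a0) n _ (fun m hm => ?_) m0 hm0'
    have hp : 0 < ‖θ‖ ^ m := by positivity
    have hnn : 0 ≤ max K (T / 2) / ‖θ‖ ^ m := div_nonneg (le_max_of_le_left hK0) hp.le
    rw [hB a0, map_sum, ← le_div_iff₀ hp]
    refine IsUltrametricDist.norm_sum_le_of_forall_le_of_nonneg hnn fun b _ => ?_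
    rw [PowerSeries.coeff_mul]
    refine IsUltrametricDist.norm_sum_le_of_forall_le_of_nonneg hnn fun p hp' => ?_
    obtain ⟨i, j⟩ := p
    have hij : i + j = m := by simpa using hp'
    rw [le_div_iff₀ hp, norm_mul, Polynomial.coeff_coe, hV]
    have e : ‖(B a0 b).coeff i‖ * ‖PowerSeries.coeff j (U b)‖ ^ q * ‖θ‖ ^ m
        = (‖(B a0 b).coeff i‖ * ‖θ‖ ^ i) * (‖PowerSeries.coeff j (U b)‖ ^ q * ‖θ‖ ^ j) := by
      rw [← hij, pow_add]; ring
    show ‖(B a0 b).coeff i‖ * ‖PowerSeries.coeff j (U b)‖ ^ q * ‖θ‖ ^ m ≤ _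
    rw [e]
    refine (mul_le_mul_of_nonneg_right (hD a0 b i) (by positivity)).trans ?_
    by_cases hj : j < n0
    · exact le_max_of_le_left (hK j hj b)
    · refine le_max_of_le_right ?_
      have h1 := hn0 j (by omega) b
      have h2 := hle b j (by omega)
      have e2 : D * (‖PowerSeries.coeff j (U b)‖ ^ q * ‖θ‖ ^ j)
          = (D * ‖PowerSeries.coeff j (U b)‖ ^ (q - 1)) *
            (‖PowerSeries.coeff j (U b)‖ * ‖θ‖ ^ j) := by
        obtain ⟨r, rfl⟩ : ∃ r, q = r + 1 := ⟨q - 1, by omega⟩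
        rw [Nat.add_sub_cancel, pow_succ]; ring
      rw [e2]
      calc _ ≤ (1 / 2) * T := mul_le_mul h1 h2 (by positivity) (by norm_num)
        _ = T / 2 := by ring
  refine (hle a n le_rfl).trans ?_
  rcases le_max_iff.mp hmain with h | h
  · exact h
  · linarith

end Pool.Agent.FFC
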