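import Pool.Agent.P.MP_a2beea_nt.FC.LatR
import Pool.Agent.P.MP_a2beea_nt.FC.Tate0

/-! Decay of the coefficients. For `Q` with coefficients in `A` and `x ∈ I`,
`u (Q(t) x) = (Q.map j) * u x`. Take generators `b a` of `I` from `Lat.fg`. Every member of
`tauLat` is `∑ Q_a(t) * (f * σ (b a))` with `Q_a` over `A` (closure induction: members of `RA` are
sums of `tm c a`, and `tm 1 a` commutes with `σ`; or use `Lat.fg` and `RA_repr`). Apply `tate_abs`
to `(t - θ) ^ N b a ∈ tauLat` with `U a = u (b a)`, `V a = u (f * σ (b a))`. -/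

open Polynomial
open scoped TensorProduct NNReal IntermediateField

namespace Pool.Agent.FFC

open Classical

variable {k : Type*} [Field k] [Fintype k] {E : Type*} [Field E] [Algebra k E] {t : E}
  {L : Type*} [Field L] [Algebra k L] [IsAlgClosed L]
  [IsDomain (L ⊗[k] E)]
  [Nonempty (GV k L)]
  {θ : L}
  {C : Type*} [NormedField C] [IsUltrametricDist C] [CompleteSpace C]
  {A : Subring L} {f : FL k E L} {I : AddSubgroup (FL k E L)} {D : (E →ₐ[k] L) →₀ ℤ}

/-- Evaluation of a polynomial over `A` at the function `t`. -/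
noncomputable def tateEv (k : Type*) [Field k] {E : Type*} [Field E] [Algebra k E] (t : E)
    {L : Type*} [Field L] [Algebra k L] (A : Subring L) : A[X] →+* FL k E L :=
  eval₂RingHom ((tmL k E L).comp A.subtype) (tm 1 t)

omit [Fintype k] [IsAlgClosed L] [IsDomain (L ⊗[k] E)] [Nonempty (GV k L)] in
theorem tate_ev_eq (Q : A[X]) :
    tateEv k t A Q = eval₂ (tmL k E L) (tm 1 t) (Q.map A.subtype) := by
  rw [eval₂_map]; rfl

omit [Fintype k] [IsAlgClosed L] [IsDomain (L ⊗[k] E)] [Nonempty (GV k L)] in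
theorem tate_ev_C (c : A) : tateEv k t A (Polynomial.C c) = tm (c : L) (1 : E) := by
  rw [tateEv, coe_eval₂RingHom, eval₂_C]; rfl

omit [Fintype k] [IsAlgClosed L] [IsDomain (L ⊗[k] E)] [Nonempty (GV k L)] in
theorem tate_ev_X : tateEv k t A X = tm (1 : L) t := by
  rw [tateEv, coe_eval₂RingHom, eval₂_X]

omit [Algebra k L] [IsAlgClosed L] [IsDomain (L ⊗[k] E)] [Nonempty (GV k L)] in
theorem tate_lift {Q : L[X]} (hQ : ∀ i, Q.coeff i ∈ A) : ∃ Q' : A[X], Q'.map A.subtype = Q :=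
  (Polynomial.mem_lifts _).1 ((Polynomial.lifts_iff_coeff_lifts _).2 fun n => ⟨⟨_, hQ n⟩, rfl⟩)

theorem tate_ev_mem (Q : A[X]) : tateEv k t A Q ∈ RA k A t := by
  rw [tate_ev_eq]
  exact eval₂_mem_RA fun i => by rw [coeff_map]; exact (Q.coeff i).2

omit [Nonempty (GV k L)] [IsUltrametricDist C] [CompleteSpace C] in
theorem tate_u_zero {j : L →+* C} {u : FL k E L → PowerSeries C} (hc : Cyc j A t f I u) :
    u 0 = 0 := by
  have := hc.add 0 I.zero_mem 0 I.zero_mem
  rw [add_zero] at this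
  exact left_eq_add.mp this

omit [Nonempty (GV k L)] [IsUltrametricDist C] [CompleteSpace C] in
theorem tate_u_sum {j : L →+* C} {u : FL k E L → PowerSeries C} (hc : Cyc j A t f I u)
    {ι : Type*} (s : Finset ι) (x : ι → FL k E L) (hx : ∀ i, x i ∈ I) :
    u (∑ i ∈ s, x i) = ∑ i ∈ s, u (x i) := by
  induction s using Finset.induction_on with
  | empty => simpa using tate_u_zero hc
  | insert i s hi ih =>
    rw [Finset.sum_insert hi, Finset.sum_insert hi,
      hc.add _ (hx i) _ (I.sum_mem fun i _ => hx i), ih]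

omit [IsUltrametricDist C] [CompleteSpace C] in
theorem tate_u_ev {j : L →+* C} {u : FL k E L → PowerSeries C} (hc : Cyc j A t f I u)
    (hl : Lat A t I) (Q : A[X]) {x : FL k E L} (hx : x ∈ I) :
    u (tateEv k t A Q * x) = ((Q.map (j.comp A.subtype) : C[X]) : PowerSeries C) * u x := by
  induction Q using Polynomial.induction_on with
  | C c => rw [tate_ev_C, hc.const c c.2 x hx, map_C, Polynomial.coe_C]; rfl
  | add P Q hP hQ =>
    rw [map_add, add_mul, hc.add _ (hl.mul_mem _ (tate_ev_mem P) x hx) _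
      (hl.mul_mem _ (tate_ev_mem Q) x hx), hP, hQ, Polynomial.map_add, Polynomial.coe_add, add_mul]
  | monomial n c ih =>
    rw [pow_succ, ← mul_assoc, mul_comm _ (X : A[X]), map_mul, tate_ev_X, mul_assoc,
      hc.tmul _ (hl.mul_mem _ (tate_ev_mem _) x hx), ih, Polynomial.map_mul _ (p := X), map_X,
      Polynomial.coe_mul X, Polynomial.coe_X, mul_assoc]

theorem Cyc.eval₂ {j : L →+* C} {u : FL k E L → PowerSeries C} (hc : Cyc j A t f I u)
    (hl : Lat A t I) {Q : L[X]} (hQ : ∀ i, Q.coeff i ∈ A) {x : FL k E L} (hx : x ∈ I) :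
    u (eval₂ (tmL k E L) (tm 1 t) Q * x) = ((Q.map j : C[X]) : PowerSeries C) * u x := by
  obtain ⟨Q', rfl⟩ := tate_lift hQ
  rw [← tate_ev_eq, tate_u_ev hc hl Q' hx, Polynomial.map_map]

/-- The combinations of the `w a` with coefficients in `A[t]`. -/
def tateSp (k : Type*) [Field k] {E : Type*} [Field E] [Algebra k E] (t : E)
    {L : Type*} [Field L] [Algebra k L] (A : Subring L) {n : ℕ} (w : Fin n → FL k E L) :
    AddSubgroup (FL k E L) where
  carrier := {x | ∃ Q : Fin n → A[X], x = ∑ a, tateEv k t A (Q a) * w a}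
  zero_mem' := ⟨0, by simp⟩
  add_mem' := by
    rintro x y ⟨P, rfl⟩ ⟨Q, rfl⟩
    exact ⟨P + Q, by simp [add_mul, Finset.sum_add_distrib]⟩
  neg_mem' := by
    rintro x ⟨P, rfl⟩
    exact ⟨-P, by simp⟩

omit [Fintype k] [IsAlgClosed L] [IsDomain (L ⊗[k] E)] [Nonempty (GV k L)] in
theorem tate_sp_mul {n : ℕ} {w : Fin n → FL k E L} (P : A[X]) {x : FL k E L}
    (hx : x ∈ tateSp k t A w) : tateEv k t A P * x ∈ tateSp k t A w := by
  obtain ⟨Q, rfl⟩ := hx
  exact ⟨fun a => P * Q a, by simp [Finset.mul_sum, mul_assoc]⟩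

/-- The `q`-th power map on `A`. -/
noncomputable def tateFr (k : Type*) [Field k] [Fintype k] {L : Type*} [Field L] [Algebra k L]
    [IsAlgClosed L] (A : Subring L) : A →+* A :=
  ((fr k L : L →+* L).comp A.subtype).codRestrict A fun c => by
    change fr k L c ∈ A
    rw [fr_apply]
    exact pow_mem c.2 _

omit [Nonempty (GV k L)] in
theorem tate_mapF_ev (Q : A[X]) :
    mapF (fr k L) (tateEv k t A Q) = tateEv k t A (Q.map (tateFr k A)) := by
  induction Q using Polynomial.induction_on with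
  | C c => rw [map_C, tate_ev_C, tate_ev_C, mapF_tm]; rfl
  | add P Q hP hQ => rw [map_add, map_add, hP, hQ, Polynomial.map_add, map_add]
  | monomial n c ih =>
    rw [pow_succ, ← mul_assoc, map_mul, map_mul, ih, Polynomial.map_mul _ (q := X), map_mul, map_X,
      tate_ev_X, mapF_tm, map_one]

omit [Nonempty (GV k L)] in
theorem tate_tau_sp (hl : Lat A t I) {n : ℕ} {b : Fin n → FL k E L} (hb : ∀ a, b a ∈ I)
    (hI : ∀ x ∈ I, x ∈ tateSp k t A b) {x : FL k E L} (hx : x ∈ tauLat A t f I) :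
    x ∈ tateSp k t A fun a => f * mapF (fr k L) (b a) := by
  have h1 : ∀ x ∈ I, f * mapF (fr k L) x ∈ tateSp k t A fun a => f * mapF (fr k L) (b a) := by
    intro x hx
    obtain ⟨Q, rfl⟩ := hI x hx
    refine ⟨fun a => (Q a).map (tateFr k A), ?_⟩
    rw [map_sum, Finset.mul_sum]
    refine Finset.sum_congr rfl fun a _ => ?_
    rw [map_mul, tate_mapF_ev]
    ring
  have h2 : ∀ r ∈ RA k A t, ∀ y ∈ tateSp k t A fun a => f * mapF (fr k L) (b a),
      r * y ∈ tateSp k t A fun a => f * mapF (fr k L) (b a) := by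
    intro r hr
    induction hr using Subring.closure_induction with
    | mem r hr =>
      obtain ⟨c, hc, a, ha, rfl⟩ := hr
      rintro y ⟨Q, rfl⟩
      rw [Finset.mul_sum]
      refine AddSubgroup.sum_mem _ fun i _ => ?_
      have h3 : (tm 1 a : FL k E L) * b i ∈ I :=
        hl.mul_mem _ (Subring.subset_closure ⟨1, one_mem A, a, ha, rfl⟩) _ (hb i)
      have h4 := tate_sp_mul (Polynomial.C ⟨c, hc⟩ * Q i) (h1 _ h3)
      have e : (tm c a : FL k E L) = tm c 1 * tm 1 a := by rw [tm_mul, mul_one, one_mul]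
      rw [map_mul, map_mul, tate_ev_C, mapF_tm, map_one] at h4
      convert h4 using 1
      rw [e]
      ring
    | zero => intro y _; rw [zero_mul]; exact zero_mem _
    | one => intro y hy; rwa [one_mul]
    | add r s _ _ hr hs => intro y hy; rw [add_mul]; exact add_mem (hr y hy) (hs y hy)
    | neg r _ hr => intro y hy; rw [neg_mul]; exact neg_mem (hr y hy)
    | mul r s _ _ hr hs => intro y hy; rw [mul_assoc]; exact hr _ (hs y hy)
  refine (AddSubgroup.closure_le _).2 ?_ hx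
  rintro y ⟨r, hr, x, hx, rfl⟩
  exact h2 r hr _ (h1 x hx)

omit [IsUltrametricDist C] [CompleteSpace C] in
theorem tate_bdd_add {ρ : ℝ} (hρ : 0 ≤ ρ) {U V : PowerSeries C}
    (hU : ∃ B : ℝ, ∀ n, ‖PowerSeries.coeff n U‖ * ρ ^ n ≤ B)
    (hV : ∃ B : ℝ, ∀ n, ‖PowerSeries.coeff n V‖ * ρ ^ n ≤ B) :
    ∃ B : ℝ, ∀ n, ‖PowerSeries.coeff n (U + V)‖ * ρ ^ n ≤ B := by
  obtain ⟨B, hB⟩ := hU
  obtain ⟨B', hB'⟩ := hV
  refine ⟨B + B', fun n => ?_⟩
  rw [map_add]
  refine (mul_le_mul_of_nonneg_right (norm_add_le _ _) (pow_nonneg hρ n)).trans ?_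
  rw [add_mul]
  exact add_le_add (hB n) (hB' n)

omit [IsUltrametricDist C] [CompleteSpace C] in
theorem tate_bdd_poly {ρ : ℝ} (hρ : 0 ≤ ρ) (P : C[X]) {U : PowerSeries C}
    (hU : ∃ B : ℝ, ∀ n, ‖PowerSeries.coeff n U‖ * ρ ^ n ≤ B) :
    ∃ B : ℝ, ∀ n, ‖PowerSeries.coeff n ((P : PowerSeries C) * U)‖ * ρ ^ n ≤ B := by
  induction P using Polynomial.induction_on with
  | C c =>
    obtain ⟨B, hB⟩ := hU
    refine ⟨‖c‖ * B, fun n => ?_⟩
    rw [Polynomial.coe_C, PowerSeries.coeff_C_mul, norm_mul, mul_assoc]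
    exact mul_le_mul_of_nonneg_left (hB n) (norm_nonneg c)
  | add P Q hP hQ => rw [Polynomial.coe_add, add_mul]; exact tate_bdd_add hρ hP hQ
  | monomial m c ih =>
    obtain ⟨B, hB⟩ := ih
    have hB0 : 0 ≤ B := le_trans (mul_nonneg (norm_nonneg _) (pow_nonneg hρ 0)) (hB 0)
    rw [pow_succ, ← mul_assoc, mul_comm _ (X : C[X]), Polynomial.coe_mul X, Polynomial.coe_X,
      mul_assoc]
    refine ⟨B * ρ, fun n => ?_⟩
    cases n with
    | zero =>
      rw [PowerSeries.coeff_zero_X_mul, norm_zero, zero_mul]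
      exact mul_nonneg hB0 hρ
    | succ n =>
      rw [PowerSeries.coeff_succ_X_mul, pow_succ ρ, ← mul_assoc]
      exact mul_le_mul_of_nonneg_right (hB n) hρ

omit [IsUltrametricDist C] [CompleteSpace C] in
theorem tate_bdd_sum {ρ : ℝ} (hρ : 0 ≤ ρ) {ι : Type*} (s : Finset ι) {U : ι → PowerSeries C}
    (hU : ∀ i, ∃ B : ℝ, ∀ n, ‖PowerSeries.coeff n (U i)‖ * ρ ^ n ≤ B) :
    ∃ B : ℝ, ∀ n, ‖PowerSeries.coeff n (∑ i ∈ s, U i)‖ * ρ ^ n ≤ B := by
  induction s using Finset.induction_on with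
  | empty => exact ⟨0, fun n => by simp⟩
  | insert i s hi ih => rw [Finset.sum_insert hi]; exact tate_bdd_add hρ (hU i) ih

omit [IsUltrametricDist C] [CompleteSpace C] in
theorem tate_u_sp {j : L →+* C} {u : FL k E L → PowerSeries C} (hc : Cyc j A t f I u)
    (hl : Lat A t I) {n : ℕ} {w : Fin n → FL k E L} (hw : ∀ a, w a ∈ I) (Q : Fin n → A[X]) :
    u (∑ a, tateEv k t A (Q a) * w a) =
      ∑ a, (((Q a).map (j.comp A.subtype) : C[X]) : PowerSeries C) * u (w a) := by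
  rw [tate_u_sum hc _ _ fun a => hl.mul_mem _ (tate_ev_mem _) _ (hw a)]
  exact Finset.sum_congr rfl fun a _ => tate_u_ev hc hl _ (hw a)

theorem tate_bound (h : FF k t) (hS : Sht A t θ f I D) {j : L →+* C}
    {u : FL k E L → PowerSeries C} (hc : Cyc j A t f I u) (hj : ‖j θ‖ = Fintype.card k) :
    (∀ x ∈ I, ∃ B : ℝ, ∀ n, ‖PowerSeries.coeff n (u x)‖ * (Fintype.card k : ℝ) ^ n ≤ B) ∧
      ∀ x ∈ tauLat A t f I, ∃ B : ℝ, ∀ n,
        ‖PowerSeries.coeff n (u x)‖ * ((Fintype.card k : ℝ) ^ Fintype.card k) ^ n ≤ B := by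
  obtain ⟨n, b, hb, hI⟩ := Lat.fg h hS.lat hS.alg_mem
  have hI' : ∀ x ∈ I, x ∈ tateSp k t A b := by
    intro x hx
    obtain ⟨Q, hQ, rfl⟩ := hI x hx
    choose Q' hQ' using fun a => tate_lift (hQ a)
    exact ⟨Q', Finset.sum_congr rfl fun a _ => by rw [tate_ev_eq, hQ']⟩
  have hw : ∀ a, f * mapF (fr k L) (b a) ∈ I := fun a => hS.le (mem_tauLat (hb a))
  obtain ⟨N, hN⟩ := hS.pow
  choose Q hQ using fun a => tate_tau_sp hS.lat hb hI' (hN _ (hb a))
  have hq : 2 ≤ Fintype.card k := Fintype.one_lt_card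
  have hθ : 1 < ‖j θ‖ := by
    rw [hj]
    exact_mod_cast hq
  obtain ⟨M, hM⟩ := tate_abs hθ hq N (fun a => u (b a)) (fun a => u (f * mapF (fr k L) (b a)))
    (fun a => hc.tate _ (hb a)) (fun a n => by rw [hc.twist _ (hb a), norm_pow])
    (fun a c => (Q a c).map (j.comp A.subtype)) (fun a => by
      rw [← tate_u_sp hc hS.lat hw, ← hQ a]
      have := tate_u_ev hc hS.lat ((X - Polynomial.C ⟨θ, hS.mem⟩) ^ N) (hb a)
      rw [map_pow, map_sub, tate_ev_X, tate_ev_C, Polynomial.map_pow, Polynomial.map_sub, map_X,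
        map_C, Polynomial.coe_pow, Polynomial.coe_sub, Polynomial.coe_X, Polynomial.coe_C] at this
      exact this.symm)
  rw [hj] at hM
  have h0 : (0 : ℝ) ≤ Fintype.card k := Nat.cast_nonneg _
  refine ⟨fun x hx => ?_, fun x hx => ?_⟩
  · obtain ⟨P, rfl⟩ := hI' x hx
    rw [tate_u_sp hc hS.lat hb]
    exact tate_bdd_sum h0 _ fun a => tate_bdd_poly h0 _ ⟨M, hM a⟩
  · obtain ⟨P, rfl⟩ := tate_tau_sp hS.lat hb hI' hx
    rw [tate_u_sp hc hS.lat hw]
    refine tate_bdd_sum (pow_nonneg h0 _) _ fun a => tate_bdd_poly (pow_nonneg h0 _) _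
      ⟨M ^ Fintype.card k, fun m => ?_⟩
    rw [hc.twist _ (hb a), norm_pow, ← pow_mul, mul_comm (Fintype.card k), pow_mul, ← mul_pow]
    exact pow_le_pow_left₀ (by positivity) (hM a m) _

end Pool.Agent.FFC
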