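import Pool.Agent.P.MP_a2beea_nt.FC.Emb0
import Pool.Agent.P.MP_a2beea_nt.FC.Tate
import Pool.Agent.P.MP_a2beea_nt.FC.SolEv
import Pool.Agent.P.MP_a2beea_nt.FC.RTop

/-! The Betti lattice in coordinates. Let `β c ∈ M` with `μ (β c) = b c`. The additive map
`v ↦ (c ↦ v (β c))` is injective on `cycles` (`IsBasis.span`), it maps `cycles` onto `Sol` and
`cycSpan u` onto `SpanK` (`DualB.span`, `DualB.mem`, `mem_OO_iff_range`); so the relative indices
agree (`AddSubgroup.relIndex_map_map_of_injective` after restricting to `cycles`, or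
`relIndex_comap`). For a cycle `v` and `x` with `a μ x = ∑ Q_c(t) b c` we have
`j a * v x = ∑ j Q_c * v (β c)`; if `a f σ(b c) = ∑ Q b` then `Q = a Φ` by `indep`. Onto: every
`x ∈ I` has unique coordinates `Q(x) : Fin n → L[X]` with `x = ∑ Q_c(t) b c` (divide by `a`), they
are additive in `x`; for `U ∈ Sol` put `v x = ∑ j Q_c(μ x) * U c`; the coordinates of `f σ x` are
`Q(x) ^ (σ) Φ`. -/

open Polynomial
open scoped TensorProduct NNReal IntermediateField

namespace Pool.Agent.FFC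

open Classical

variable {k : Type*} [Field k] [Fintype k] {E K : Type*} [Field E] [Field K]
  [Algebra k E] [Algebra k[X] E] [Algebra (RatFunc k) E] [IsScalarTower k k[X] E]
  [IsScalarTower k[X] (RatFunc k) E]
  [Algebra k K] [Algebra k[X] K] [Algebra (RatFunc k) K] [IsScalarTower k k[X] K]
  [IsScalarTower k[X] (RatFunc k) K]
  [FiniteDimensional (RatFunc k) E] [Algebra.IsSeparable (RatFunc k) E]
  [FiniteDimensional (RatFunc k) K] [IsGalois (RatFunc k) K]
  {OE OK : Type*} [CommRing OE] [CommRing OK]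
  [Algebra k OE] [Algebra k[X] OE] [Algebra OE E] [IsScalarTower k k[X] OE]
  [IsScalarTower k[X] OE E] [IsIntegralClosure OE k[X] E]
  [Algebra k OK] [Algebra k[X] OK] [Algebra OK K] [IsScalarTower k k[X] OK]
  [IsScalarTower k[X] OK K] [IsIntegralClosure OK k[X] K]
  {L : Type*} [Field L] [Algebra k L] [Algebra K L] [IsScalarTower k K L] [IsAlgClosed L]
  [Algebra.IsAlgebraic K L]
  [IsDomain (L ⊗[k] E)] [Nonempty (GV k L)]
  [Fintype (E →ₐ[RatFunc k] K)] {M : Type*} [AddCommGroup M] [Module (OK ⊗[k] OE) M]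
  {τ : M →+ M} {d : (E →ₐ[RatFunc k] K) → ℕ} {ρ : OK ⊗[k] OE →+* FL k E L}
  {μ : M →+ FL k E L} {f : FL k E L} {I : AddSubgroup (FL k E L)}
  {C : Type*} [NormedField C] [IsUltrametricDist C] [CompleteSpace C] [Algebra K C] [Algebra k C]
  [IsScalarTower k K C] {n : ℕ} {e e' : Fin n → E} {b : Fin n → FL k E L}

section Aux

set_option linter.unusedSectionVars false

/-- Polynomials in `t` as functions. -/
private noncomputable def betEv (k : Type*) [Field k] {E : Type*} [Field E] [Algebra k E] (t : E)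
    (L : Type*) [Field L] [Algebra k L] : L[X] →+* FL k E L :=
  eval₂RingHom (tmL k E L) (tm 1 t)

/-- Polynomials as series. -/
private noncomputable def betPj {L C : Type*} [Field L] [Field C] (j : L →+* C) :
    L[X] →+* PowerSeries C :=
  (Polynomial.coeToPowerSeries.ringHom).comp (Polynomial.mapRingHom j)

private theorem betEv_apply (t : E) (Q : L[X]) :
    betEv k t L Q = eval₂ (tmL k E L) (tm 1 t) Q := rfl

private theorem betEv_C (t : E) (c : L) : betEv k t L (Polynomial.C c) = tm c 1 := eval₂_C _ _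

private theorem betEv_X (t : E) : betEv k t L X = tm 1 t := eval₂_X _ _

private theorem betPj_apply (j : L →+* C) (Q : L[X]) :
    betPj j Q = ((Q.map j : C[X]) : PowerSeries C) := rfl

private theorem betPj_C (j : L →+* C) (c : L) :
    betPj j (Polynomial.C c) = PowerSeries.C (j c) := by
  rw [betPj_apply, map_C, coe_C]

private theorem betPj_X (j : L →+* C) : betPj j X = PowerSeries.X := by
  rw [betPj_apply, map_X, coe_X]

private theorem bet_mapF (t : E) (Q : L[X]) :
    mapF (fr k L) (betEv k t L Q) = betEv k t L (Q.map (fr k L : L →+* L)) := by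
  induction Q using Polynomial.induction_on with
  | C c => rw [map_C, betEv_C, betEv_C, mapF_tm]; rfl
  | add P Q hP hQ => rw [map_add, map_add, hP, hQ, Polynomial.map_add, map_add]
  | monomial m c ih =>
    rw [pow_succ, ← mul_assoc, map_mul, map_mul, ih, Polynomial.map_mul (q := X), map_mul, map_X,
      betEv_X, mapF_tm, map_one]

private theorem bet_twS (j : L →+* C) (Q : L[X]) :
    twS k (betPj j Q) = betPj j (Q.map (fr k L : L →+* L)) := by
  ext m
  rw [coeff_twS, betPj_apply, betPj_apply, coeff_coe, coeff_coe, coeff_map, coeff_map, coeff_map,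
    ← map_pow]
  rfl

private theorem bet_uniq {A : Subring L} {t : E} (hb : IsBasis A t I b) {Q Q' : Fin n → L[X]}
    (h : ∑ c, betEv k t L (Q c) * b c = ∑ c, betEv k t L (Q' c) * b c) : Q = Q' := by
  refine sub_eq_zero.1 (hb.indep _ ?_)
  simp only [← betEv_apply, Pi.sub_apply, map_sub, sub_mul, Finset.sum_sub_distrib, h, sub_self]

private theorem bet_coord {A : Subring L} {t : E} (hb : IsBasis A t I b) {x : FL k E L}
    (hx : x ∈ I) : ∃ Q : Fin n → L[X], x = ∑ c, betEv k t L (Q c) * b c := by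
  obtain ⟨a, -, ha, Q, -, hQ⟩ := hb.span x hx
  refine ⟨fun c => Polynomial.C a⁻¹ * Q c, ?_⟩
  simp only [map_mul, mul_assoc, ← Finset.mul_sum, betEv_C]
  simp only [betEv_apply]
  rw [← hQ, ← mul_assoc, tm_mul, inv_mul_cancel₀ ha, mul_one, tm_one, one_mul]

private theorem bet_rho_c (hρ : IsRho E K L ρ) (c : OK) :
    ρ (c ⊗ₜ[k] (1 : OE)) = tm (algebraMap K L (algebraMap OK K c)) 1 := by
  rw [hρ c 1, map_one]

private theorem bet_rho_b (hρ : IsRho E K L ρ) (c : OE) :
    ρ ((1 : OK) ⊗ₜ[k] c) = tm 1 (algebraMap OE E c) := by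
  rw [hρ 1 c, map_one, map_one]

private theorem bet_rho_t (hρ : IsRho E K L ρ) :
    ρ ((1 : OK) ⊗ₜ[k] algebraMap k[X] OE X) = tm 1 (tE k E) := by
  rw [bet_rho_b hρ, ← IsScalarTower.algebraMap_apply]

private theorem bet_poly (j : L →+* C) {η : K ≃ₐ[RatFunc k] K}
    (hj : ∀ x : K, j (algebraMap K L x) = algebraMap K C (η x)) (hρ : IsRho E K L ρ)
    {v : M →+ PowerSeries C} (hv : IsCycle (k := k) (OE := OE) (OK := OK) τ η v) {Q : L[X]}
    (hQ : ∀ i, Q.coeff i ∈ AK OK K L) :
    ∃ r : OK ⊗[k] OE, ρ r = betEv k (tE k E) L Q ∧ ∀ y, v (r • y) = betPj j Q * v y := by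
  obtain ⟨P, rfl⟩ : ∃ P : OK[X], P.map ((algebraMap K L).comp (algebraMap OK K)) = Q :=
    (mem_lifts _).1 ((lifts_iff_coeff_lifts _).2 hQ)
  clear hQ
  induction P using Polynomial.induction_on with
  | C c =>
    refine ⟨c ⊗ₜ[k] (1 : OE), ?_, fun y => ?_⟩
    · rw [map_C, betEv_C, bet_rho_c hρ]; rfl
    · rw [map_C, betPj_C, hv.smul_const, RingHom.comp_apply, hj]
  | add P Q hP hQ =>
    obtain ⟨r, h1, h2⟩ := hP
    obtain ⟨r', h3, h4⟩ := hQ
    refine ⟨r + r', ?_, fun y => ?_⟩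
    · rw [map_add, h1, h3, Polynomial.map_add, map_add]
    · rw [add_smul, map_add, h2, h4, Polynomial.map_add, map_add, add_mul]
  | monomial m c ih =>
    obtain ⟨r, h1, h2⟩ := ih
    refine ⟨r * ((1 : OK) ⊗ₜ[k] algebraMap k[X] OE X), ?_, fun y => ?_⟩
    · rw [map_mul, h1, bet_rho_t hρ, pow_succ, ← mul_assoc, Polynomial.map_mul (q := X), map_mul,
        map_X, betEv_X]
    · rw [mul_smul, h2, hv.smul_t, pow_succ, ← mul_assoc (Polynomial.C c),
        Polynomial.map_mul (q := X), map_mul, map_X, betPj_X, mul_assoc]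

private theorem bet_val (j : L →+* C) {η : K ≃ₐ[RatFunc k] K}
    (hj : ∀ x : K, j (algebraMap K L x) = algebraMap K C (η x)) (hρ : IsRho E K L ρ)
    (hμ : IsEmb ρ τ μ f I) (hb : IsBasis (AK OK K L) (tE k E) I b) {β : Fin n → M}
    (hβ : ∀ c, μ (β c) = b c) {v : M →+ PowerSeries C}
    (hv : IsCycle (k := k) (OE := OE) (OK := OK) τ η v) {x : M} {Q : Fin n → L[X]}
    (hQ : μ x = ∑ c, betEv k (tE k E) L (Q c) * b c) : v x = ∑ c, betPj j (Q c) * v (β c) := by
  obtain ⟨_, ⟨a, rfl⟩, ha, P, hP, e⟩ := hb.span (μ x) (hμ.range ▸ ⟨x, rfl⟩)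
  have e1 : P = fun c => Polynomial.C (algebraMap K L (algebraMap OK K a)) * Q c := by
    refine bet_uniq hb ?_
    simp only [map_mul, mul_assoc, ← Finset.mul_sum, betEv_C]
    rw [← hQ]
    exact e.symm
  choose r h1 h2 using fun c => bet_poly j hj hρ hv (hP c)
  have e2 : (a ⊗ₜ[k] (1 : OE) : OK ⊗[k] OE) • x = ∑ c, r c • β c := by
    apply hμ.inj
    rw [hμ.smul, map_sum, bet_rho_c hρ]
    simp only [hμ.smul, h1, hβ]
    exact e
  have e3 := hv.smul_const a x
  rw [e2, map_sum, ← hj] at e3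
  simp only [h2, e1, map_mul, mul_assoc, ← Finset.mul_sum, betPj_C] at e3
  refine (mul_left_cancel₀ ?_ e3).symm
  rw [Ne, ← map_zero PowerSeries.C, PowerSeries.C_injective.eq_iff, map_eq_zero]
  exact ha

private theorem bet_pol {η : K ≃ₐ[RatFunc k] K} {v : M →+ PowerSeries C}
    (hv : IsCycle (k := k) (OE := OE) (OK := OK) τ η v) (P : k[X]) (y : M) :
    v (((1 : OK) ⊗ₜ[k] algebraMap k[X] OE P : OK ⊗[k] OE) • y) = polS C k P * v y := by
  induction P using Polynomial.induction_on generalizing y with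
  | C c =>
    have e1 : ((1 : OK) ⊗ₜ[k] algebraMap k[X] OE (Polynomial.C c) : OK ⊗[k] OE)
        = algebraMap k OK c ⊗ₜ[k] (1 : OE) := by
      rw [← Polynomial.algebraMap_eq, ← IsScalarTower.algebraMap_apply,
        Algebra.algebraMap_eq_smul_one, Algebra.algebraMap_eq_smul_one, TensorProduct.smul_tmul]
    have e2 : algebraMap OK K (algebraMap k OK c) = algebraMap k K c := by
      rw [IsScalarTower.algebraMap_apply k k[X] OK, ← IsScalarTower.algebraMap_apply,
        ← IsScalarTower.algebraMap_apply]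
    have e3 : polS C k (Polynomial.C c) = PowerSeries.C (algebraMap k C c) := by
      change ((Polynomial.map _ _ : C[X]) : PowerSeries C) = _
      rw [map_C, coe_C]
    rw [e1, hv.smul_const, e2, ← Bridge_C K c, AlgEquiv.commutes, Bridge_C,
      ← IsScalarTower.algebraMap_apply, e3]
  | add P Q hP hQ =>
    rw [map_add, TensorProduct.tmul_add, add_smul, map_add, hP, hQ, map_add, add_mul]
  | monomial m c ih =>
    have e3 : polS C k X = PowerSeries.X := by
      change ((Polynomial.map _ _ : C[X]) : PowerSeries C) = _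
      rw [map_X, coe_X]
    rw [pow_succ, ← mul_assoc, map_mul, ← one_mul (1 : OK), ← Algebra.TensorProduct.tmul_mul_tmul,
      mul_smul, ih, hv.smul_t, map_mul (polS C k) _ X, e3, mul_assoc]

/-- The multiple of a cycle by an element of `O_E`. -/
private noncomputable def betMul (k : Type*) [Field k] {OE : Type*} (OK : Type*) [CommRing OE]
    [CommRing OK] [Algebra k OE] [Algebra k OK] {M : Type*} [AddCommGroup M]
    [Module (OK ⊗[k] OE) M] {C : Type*} [Field C] (u : M →+ PowerSeries C) (c : OE) :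
    M →+ PowerSeries C :=
  u.comp (DistribSMul.toAddMonoidHom M ((1 : OK) ⊗ₜ[k] c : OK ⊗[k] OE))

private theorem betMul_apply (u : M →+ PowerSeries C) (c : OE) (x : M) :
    betMul k OK u c x = u (((1 : OK) ⊗ₜ[k] c : OK ⊗[k] OE) • x) := rfl

private theorem betMul_cyc {η : K ≃ₐ[RatFunc k] K} (hρ : IsRho E K L ρ) (hμ : IsEmb ρ τ μ f I)
    {u : M →+ PowerSeries C} (hu : IsCycle (k := k) (OE := OE) (OK := OK) τ η u) (c : OE) :
    IsCycle (k := k) (OE := OE) (OK := OK) τ η (betMul k OK u c) := by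
  refine ⟨fun x => hu.tate _, fun a x => ?_, fun x => ?_, fun x m => ?_⟩
  · rw [betMul_apply, betMul_apply, smul_comm, hu.smul_const]
  · rw [betMul_apply, betMul_apply, smul_comm, hu.smul_t]
  · have e : ((1 : OK) ⊗ₜ[k] c : OK ⊗[k] OE) • τ x = τ (((1 : OK) ⊗ₜ[k] c : OK ⊗[k] OE) • x) := by
      apply hμ.inj
      rw [hμ.smul, hμ.tau, hμ.tau, hμ.smul, map_mul, bet_rho_b hρ, mapF_tm, map_one, mul_left_comm]
    rw [betMul_apply, betMul_apply, e, hu.twist]

private theorem bet_sol (j : L →+* C) {η : K ≃ₐ[RatFunc k] K}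
    (hj : ∀ x : K, j (algebraMap K L x) = algebraMap K C (η x)) (hρ : IsRho E K L ρ)
    (hμ : IsEmb ρ τ μ f I) (hb : IsBasis (AK OK K L) (tE k E) I b) {β : Fin n → M}
    (hβ : ∀ c, μ (β c) = b c) {Φ : Matrix (Fin n) (Fin n) L[X]}
    (hΦ : ∀ c, f * mapF (fr k L) (b c) = ∑ c', betEv k (tE k E) L (Φ c c') * b c')
    {v : M →+ PowerSeries C} (hv : IsCycle (k := k) (OE := OE) (OK := OK) τ η v) :
    (fun c => v (β c)) ∈ Sol k (Φ.map (Polynomial.map j)) := by
  refine ⟨fun c => ?_, fun c => ?_⟩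
  · simpa only [Conv, one_pow, mul_one] using hv.tate (β c)
  · have e : twS k (v (β c)) = v (τ (β c)) := by
      ext m
      rw [coeff_twS, hv.twist]
    exact e.trans (bet_val j hj hρ hμ hb hβ hv (by rw [hμ.tau, hβ, hΦ]))

private theorem bet_onto (j : L →+* C) {η : K ≃ₐ[RatFunc k] K}
    (hj : ∀ x : K, j (algebraMap K L x) = algebraMap K C (η x)) (hρ : IsRho E K L ρ)
    (hμ : IsEmb ρ τ μ f I) (hb : IsBasis (AK OK K L) (tE k E) I b) {β : Fin n → M}
    (hβ : ∀ c, μ (β c) = b c) {Φ : Matrix (Fin n) (Fin n) L[X]}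
    (hΦ : ∀ c, f * mapF (fr k L) (b c) = ∑ c', betEv k (tE k E) L (Φ c c') * b c')
    {U : Fin n → PowerSeries C} (hU : U ∈ Sol k (Φ.map (Polynomial.map j))) :
    ∃ v : M →+ PowerSeries C, IsCycle (k := k) (OE := OE) (OK := OK) τ η v ∧
      ∀ c, v (β c) = U c := by
  choose Q hQ using fun x : M => bet_coord hb (x := μ x) (hμ.range ▸ ⟨x, rfl⟩)
  have hU2 : ∀ c, twS k (U c) = ∑ d, betPj j (Φ c d) * U d := hU.2
  have hm : ∀ (r : OK ⊗[k] OE) (P : L[X]), ρ r = betEv k (tE k E) L P → ∀ x,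
      ∑ c, betPj j (Q (r • x) c) * U c = betPj j P * ∑ c, betPj j (Q x c) * U c := by
    intro r P hr x
    have e : Q (r • x) = fun c => P * Q x c := by
      refine bet_uniq hb ?_
      simp only [map_mul, mul_assoc, ← Finset.mul_sum]
      rw [← hQ, ← hQ, hμ.smul, hr]
    simp only [e, map_mul, mul_assoc, ← Finset.mul_sum]
  refine ⟨AddMonoidHom.mk' (fun x => ∑ c, betPj j (Q x c) * U c) fun x y => ?_,
    ⟨fun x => ?_, fun a x => ?_, fun x => ?_, fun x m => ?_⟩, fun c => ?_⟩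
  · have e : Q (x + y) = fun c => Q x c + Q y c := by
      refine bet_uniq hb ?_
      simp only [map_add, add_mul, Finset.sum_add_distrib]
      rw [← hQ, ← hQ, ← hQ, map_add]
    simp only [e, map_add, add_mul, Finset.sum_add_distrib]
  · have : Conv 1 (∑ c, betPj j (Q x c) * U c) :=
      conv_sum _ (fun c _ => (conv_coe 1 _).mul (hU.1 c) zero_le_one) zero_le_one
    simpa only [Conv, one_pow, mul_one, AddMonoidHom.mk'_apply] using this
  · exact (hm _ (Polynomial.C (algebraMap K L (algebraMap OK K a)))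
      (by rw [bet_rho_c hρ, betEv_C]) x).trans (by rw [betPj_C, hj]; rfl)
  · exact (hm _ X (by rw [bet_rho_t hρ, betEv_X]) x).trans (by rw [betPj_X]; rfl)
  · have e : Q (τ x) = fun d => ∑ c, (Q x c).map (fr k L : L →+* L) * Φ c d := by
      refine bet_uniq hb ?_
      rw [← hQ, hμ.tau, hQ x, map_sum, Finset.mul_sum]
      simp only [map_sum, Finset.sum_mul]
      rw [Finset.sum_comm]
      refine Finset.sum_congr rfl fun c _ => ?_
      rw [map_mul, mul_left_comm, hΦ, bet_mapF, Finset.mul_sum]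
      simp only [map_mul, mul_assoc]
    rw [← coeff_twS k]
    congr 1
    change ∑ c, betPj j (Q (τ x) c) * U c = twS k (∑ c, betPj j (Q x c) * U c)
    simp only [e, map_sum, map_mul, Finset.sum_mul, hU2, bet_twS, Finset.mul_sum, mul_assoc]
    exact Finset.sum_comm
  · have e : Q (β c) = Pi.single c 1 := by
      refine bet_uniq hb ?_
      rw [← hQ, hβ, Finset.sum_eq_single c (fun d _ hd => by rw [Pi.single_eq_of_ne hd]; simp)
        (by simp), Pi.single_eq_same, map_one, one_mul]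
    change ∑ d, betPj j (Q (β c) d) * U d = _
    rw [e, Finset.sum_eq_single c (fun d _ hd => by rw [Pi.single_eq_of_ne hd]; simp) (by simp),
      Pi.single_eq_same, map_one, one_mul]

end Aux

theorem bet_eq (h : FF k (tE k E)) (j : L →+* C) {η : K ≃ₐ[RatFunc k] K}
    (hj : ∀ x : K, j (algebraMap K L x) = algebraMap K C (η x))
    (hρ : IsRho E K L ρ) (hμ : IsEmb ρ τ μ f I) (hd : DualB k (tE k E) L e e')
    (hb : IsBasis (AK OK K L) (tE k E) I b) {Φ : Matrix (Fin n) (Fin n) L[X]}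
    (hΦ : ∀ c, f * mapF (fr k L) (b c) =
      ∑ c', eval₂ (tmL k E L) (tm 1 (tE k E)) (Φ c c') * b c')
    {u : M →+ PowerSeries C} (hu : IsCycle (k := k) (OE := OE) (OK := OK) τ η u)
    {u' : FL k E L → PowerSeries C} (hu' : ∀ x, u' (μ x) = u x) :
    (∀ a, (fun c => u' (tm 1 (e a) * b c)) ∈ Sol k (Φ.map (Polynomial.map j))) ∧
      bettiIndex k OE OK τ η u = (SpanK k fun a c => u' (tm 1 (e a) * b c)).relIndex
        (Sol k (Φ.map (Polynomial.map j))) := by
  choose β hβ using fun c => (show b c ∈ μ.range from hμ.range.symm ▸ hb.mem c)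
  choose ε hε using fun a => (mem_OO_iff_range (OE := OE) (e a)).1 (hd.mem a)
  have hW : ∀ a c, u' (tm 1 (e a) * b c) = betMul k OK u (ε a) (β c) := fun a c => by
    rw [betMul_apply, ← hu', hμ.smul, bet_rho_b hρ, hε, hβ]
  have hS : ∀ (P : Fin n → k[X]) (c : Fin n),
      betMul k OK u (∑ a, algebraMap k[X] OE (P a) * ε a) (β c)
        = ∑ a, polS C k (P a) * u' (tm 1 (e a) * b c) := fun P c => by
    rw [betMul_apply, TensorProduct.tmul_sum, Finset.sum_smul, map_sum]
    refine Finset.sum_congr rfl fun a _ => ?_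
    rw [← one_mul (1 : OK), ← Algebra.TensorProduct.tmul_mul_tmul, mul_smul, bet_pol hu, hW,
      betMul_apply]
  refine ⟨fun a => ?_, ?_⟩
  · simp only [hW]
    exact bet_sol j hj hρ hμ hb hβ hΦ (betMul_cyc hρ hμ hu _)
  let Θ : (M →+ PowerSeries C) →+ (Fin n → PowerSeries C) :=
    AddMonoidHom.mk' (fun v c => v (β c)) fun _ _ => rfl
  have e1 : (cycles k OE OK τ η).map Θ = Sol k (Φ.map (Polynomial.map j)) := by
    ext U
    refine ⟨?_, fun hU => ?_⟩
    · rintro ⟨v, hv, rfl⟩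
      exact bet_sol j hj hρ hμ hb hβ hΦ hv
    · obtain ⟨v, hv, h1⟩ := bet_onto j hj hρ hμ hb hβ hΦ hU
      exact ⟨v, hv, funext h1⟩
  rw [← e1, ← AddSubgroup.relIndex_comap, bettiIndex, AddSubgroup.relIndex, AddSubgroup.relIndex]
  congr 1
  ext ⟨v, hv⟩
  rw [AddSubgroup.mem_addSubgroupOf, AddSubgroup.mem_addSubgroupOf, AddSubgroup.mem_comap]
  refine ⟨?_, ?_⟩
  · rintro ⟨c, hc⟩
    obtain ⟨P, hP⟩ := hd.span _ ((mem_OO_iff_range (OE := OE) _).2 ⟨c, rfl⟩)
    have e2 : c = ∑ a, algebraMap k[X] OE (P a) * ε a := by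
      apply IsIntegralClosure.algebraMap_injective OE k[X] E
      rw [hP, map_sum]
      refine Finset.sum_congr rfl fun a _ => ?_
      rw [map_mul, hε, Bridge_aeval, ← IsScalarTower.algebraMap_apply]
    refine ⟨P, fun d => ?_⟩
    rw [← hS, ← e2]
    exact hc _
  · rintro ⟨P, hP⟩
    refine ⟨∑ a, algebraMap k[X] OE (P a) * ε a, fun x => ?_⟩
    obtain ⟨Q, hQ⟩ := bet_coord hb (x := μ x) (hμ.range ▸ ⟨x, rfl⟩)
    rw [← betMul_apply, bet_val j hj hρ hμ hb hβ (betMul_cyc hρ hμ hu _) hQ]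
    refine (bet_val j hj hρ hμ hb hβ hv hQ).trans (Finset.sum_congr rfl fun c _ => ?_)
    rw [hS]
    exact congrArg _ (hP c)

end Pool.Agent.FFC
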