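import Pool.Agent.P.MP_a2beea_nt.FC.Cyc2
import Pool.Agent.P.MP_a2beea_nt.FC.Bet

/-! The Betti lattice in coordinates; follow `Bet`. Let `β c ∈ M` with `μ (β c) = bs c`. The additive
map `v ↦ (c ↦ v (ε 0 • β c))` is injective on `cycles` (`IsBasis.span`, `IsEmb2.ker`,
`cycle_eq_zero`), it maps `cycles` onto `Sol` (`exists_cycle_of` for
`v' x = ∑ j Q_c(μ x) * U c`) and `cycSpan u` onto `SpanK` (`DualB.span`, `DualB.mem`, `mem_OO2`; a
constant `c : k` acts through `tm 1 c = tm c 1` (`tm_alg`), `hk`, `hjk`). For a cycle `v` the map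
`μ x ↦ v (ε 0 • x)` is well defined, `j`-semilinear over `AK`, `t`-linear and turns `f σ` into the
twist (compare `exists_cyc2`). -/

open Polynomial
open scoped TensorProduct NNReal IntermediateField

namespace Pool.Agent.FFC

open Classical

variable {k₀ : Type*} [Field k₀] [Fintype k₀] {E K : Type*} [Field E] [Field K]
  [Algebra k₀ E] [Algebra k₀[X] E] [Algebra (RatFunc k₀) E] [IsScalarTower k₀ k₀[X] E]
  [IsScalarTower k₀[X] (RatFunc k₀) E]
  [Algebra k₀ K] [Algebra k₀[X] K] [Algebra (RatFunc k₀) K] [IsScalarTower k₀ k₀[X] K]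
  [IsScalarTower k₀[X] (RatFunc k₀) K]
  [FiniteDimensional (RatFunc k₀) E] [Algebra.IsSeparable (RatFunc k₀) E]
  [FiniteDimensional (RatFunc k₀) K] [IsGalois (RatFunc k₀) K]
  {OE OK : Type*} [CommRing OE] [CommRing OK]
  [Algebra k₀ OE] [Algebra k₀[X] OE] [Algebra OE E] [IsScalarTower k₀ k₀[X] OE]
  [IsScalarTower k₀[X] OE E] [IsIntegralClosure OE k₀[X] E]
  [Algebra k₀ OK] [Algebra k₀[X] OK] [Algebra OK K] [IsScalarTower k₀ k₀[X] OK]
  [IsScalarTower k₀[X] OK K] [IsIntegralClosure OK k₀[X] K]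
  {L : Type*} [Field L] [Algebra k₀ L] [Algebra K L] [IsScalarTower k₀ K L] [IsAlgClosed L]
  [Algebra.IsAlgebraic K L]
  {k : Type*} [Field k] [Fintype k] [Algebra k₀ k] [Algebra k E] [IsScalarTower k₀ k E]
  [Algebra k L] [IsScalarTower k₀ k L]
  [IsDomain (L ⊗[k] E)] [Nonempty (GV k L)]
  [Fintype (E →ₐ[RatFunc k₀] K)] {M : Type*} [AddCommGroup M] [Module (OK ⊗[k₀] OE) M]
  {τ : M →+ M} {d : (E →ₐ[RatFunc k₀] K) → ℕ}
  {ρ : OK ⊗[k₀] OE →+* FL k E L} {ε : ℕ → OK ⊗[k₀] OE}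
  {μ : M →+ FL k E L} {f : FL k E L} {I : AddSubgroup (FL k E L)}
  {C : Type*} [NormedField C] [IsUltrametricDist C] [CompleteSpace C] [Algebra K C]
  {η : K ≃ₐ[RatFunc k₀] K} {u : M →+ PowerSeries C}
  [IsAlgClosed C] [Algebra k C] {n : ℕ} {e e' : Fin n → E} {bs : Fin n → FL k E L}

section Aux

set_option linter.unusedSectionVars false

/-- Polynomials in `t` as functions. -/
private noncomputable def bet2Ev (k : Type*) [Field k] {E : Type*} [Field E] [Algebra k E] (t : E)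
    (L : Type*) [Field L] [Algebra k L] [IsDomain (L ⊗[k] E)] : L[X] →+* FL k E L :=
  eval₂RingHom (tmL k E L) (tm 1 t)

/-- Polynomials as series. -/
private noncomputable def bet2Pj {L C : Type*} [Field L] [Field C] (j : L →+* C) :
    L[X] →+* PowerSeries C :=
  (Polynomial.coeToPowerSeries.ringHom).comp (Polynomial.mapRingHom j)

private theorem bet2Ev_apply (t : E) (Q : L[X]) :
    bet2Ev k t L Q = eval₂ (tmL k E L) (tm 1 t) Q := rfl

private theorem bet2Ev_C (t : E) (c : L) : bet2Ev k t L (Polynomial.C c) = tm c 1 := eval₂_C _ _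

private theorem bet2Ev_X (t : E) : bet2Ev k t L X = tm 1 t := eval₂_X _ _

private theorem bet2Pj_apply (j : L →+* C) (Q : L[X]) :
    bet2Pj j Q = ((Q.map j : C[X]) : PowerSeries C) := rfl

private theorem bet2Pj_C (j : L →+* C) (c : L) :
    bet2Pj j (Polynomial.C c) = PowerSeries.C (j c) := by
  rw [bet2Pj_apply, map_C, coe_C]

private theorem bet2Pj_X (j : L →+* C) : bet2Pj j X = PowerSeries.X := by
  rw [bet2Pj_apply, map_X, coe_X]

private theorem bet2_mapF (t : E) (Q : L[X]) :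
    mapF (fr k L) (bet2Ev k t L Q) = bet2Ev k t L (Q.map (fr k L : L →+* L)) := by
  induction Q using Polynomial.induction_on with
  | C c => rw [map_C, bet2Ev_C, bet2Ev_C, mapF_tm]; rfl
  | add P Q hP hQ => rw [map_add, map_add, hP, hQ, Polynomial.map_add, map_add]
  | monomial m c ih =>
    rw [pow_succ, ← mul_assoc, map_mul, map_mul, ih, Polynomial.map_mul (q := X), map_mul, map_X,
      bet2Ev_X, mapF_tm, map_one]

private theorem bet2_twS (j : L →+* C) (Q : L[X]) :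
    twS k (bet2Pj j Q) = bet2Pj j (Q.map (fr k L : L →+* L)) := by
  ext m
  rw [coeff_twS, bet2Pj_apply, bet2Pj_apply, coeff_coe, coeff_coe, coeff_map, coeff_map, coeff_map,
    ← map_pow]
  rfl

private theorem bet2_aeval (t : E) (P : k[X]) :
    bet2Ev k t L (P.map (algebraMap k L)) = tm 1 (aeval t P) := by
  induction P using Polynomial.induction_on with
  | C c => rw [map_C, bet2Ev_C, aeval_C, tm_alg]
  | add P Q hP hQ =>
    rw [Polynomial.map_add, map_add, hP, hQ, map_add, tm, tm, tm, ← map_add,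
      TensorProduct.tmul_add]
  | monomial m c ih =>
    rw [pow_succ, ← mul_assoc, Polynomial.map_mul (q := X), map_mul, ih, map_X, bet2Ev_X, tm_mul,
      map_mul (aeval t) _ X, aeval_X, one_mul]

private theorem bet2_polS (j : L →+* C) (hjk : ∀ c : k, j (algebraMap k L c) = algebraMap k C c)
    (P : k[X]) : bet2Pj j (P.map (algebraMap k L)) = polS C k P := by
  have e : j.comp (algebraMap k L) = algebraMap k C := RingHom.ext hjk
  rw [bet2Pj_apply, Polynomial.map_map, e]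
  rfl

private theorem bet2_uniq {A : Subring L} {t : E} (hb : IsBasis A t I bs) {Q Q' : Fin n → L[X]}
    (h : ∑ c, bet2Ev k t L (Q c) * bs c = ∑ c, bet2Ev k t L (Q' c) * bs c) : Q = Q' := by
  refine sub_eq_zero.1 (hb.indep _ ?_)
  simp only [← bet2Ev_apply, Pi.sub_apply, map_sub, sub_mul, Finset.sum_sub_distrib, h, sub_self]

private theorem bet2_coord {A : Subring L} {t : E} (hb : IsBasis A t I bs) {x : FL k E L}
    (hx : x ∈ I) : ∃ Q : Fin n → L[X], x = ∑ c, bet2Ev k t L (Q c) * bs c := by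
  obtain ⟨a, -, ha, Q, -, hQ⟩ := hb.span x hx
  refine ⟨fun c => Polynomial.C a⁻¹ * Q c, ?_⟩
  simp only [map_mul, mul_assoc, ← Finset.mul_sum, bet2Ev_C]
  simp only [bet2Ev_apply]
  rw [← hQ, ← mul_assoc, tm_mul, inv_mul_cancel₀ ha, mul_one, tm_one, one_mul]

private theorem bet2_rho_c (hρ : IsRho2 K ρ) (c : OK) :
    ρ (c ⊗ₜ[k₀] (1 : OE)) = tm (algebraMap K L (algebraMap OK K c)) 1 := by
  rw [hρ c 1, map_one]

private theorem bet2_rho_b (hρ : IsRho2 K ρ) (c : OE) :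
    ρ ((1 : OK) ⊗ₜ[k₀] c) = tm 1 (algebraMap OE E c) := by
  rw [hρ 1 c, map_one, map_one]

private theorem bet2_rho_t (hρ : IsRho2 K ρ) :
    ρ ((1 : OK) ⊗ₜ[k₀] algebraMap k₀[X] OE X) = tm 1 (tE k₀ E) := by
  rw [bet2_rho_b hρ, ← IsScalarTower.algebraMap_apply]

/-- The component of a cycle. -/
private noncomputable def bet2Z {R M : Type*} [CommRing R] [AddCommGroup M] [Module R M]
    {C : Type*} [Field C] (r : R) (u : M →+ PowerSeries C) : M →+ PowerSeries C :=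
  u.comp (DistribSMul.toAddMonoidHom M r)

private theorem bet2Z_apply (r : OK ⊗[k₀] OE) (u : M →+ PowerSeries C) (x : M) :
    bet2Z r u x = u (r • x) := rfl

private theorem bet2Z_eq (hμ : IsEmb2 ρ (Module.finrank k₀ k) ε τ μ f I) (v : M →+ PowerSeries C)
    {x y : M} (h : μ x = μ y) : bet2Z (ε 0) v x = bet2Z (ε 0) v y := by
  rw [← sub_eq_zero, ← map_sub, bet2Z_apply, (hμ.ker _).1 (by rw [map_sub, h, sub_self]), map_zero]

private theorem bet2Z_const {v : M →+ PowerSeries C}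
    (hv : IsCycle (k := k₀) (OE := OE) (OK := OK) τ η v) (r : OK ⊗[k₀] OE) (c : OK) (x : M) :
    bet2Z r v ((c ⊗ₜ[k₀] (1 : OE) : OK ⊗[k₀] OE) • x) =
      PowerSeries.C (algebraMap K C (η (algebraMap OK K c))) * bet2Z r v x := by
  rw [bet2Z_apply, bet2Z_apply, smul_comm, hv.smul_const]

private theorem bet2Z_t {v : M →+ PowerSeries C}
    (hv : IsCycle (k := k₀) (OE := OE) (OK := OK) τ η v) (r : OK ⊗[k₀] OE) (x : M) :
    bet2Z r v (((1 : OK) ⊗ₜ[k₀] algebraMap k₀[X] OE X : OK ⊗[k₀] OE) • x) =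
      PowerSeries.X * bet2Z r v x := by
  rw [bet2Z_apply, bet2Z_apply, smul_comm, hv.smul_t]

private theorem bet2_poly (j : L →+* C)
    (hj : ∀ x : K, j (algebraMap K L x) = algebraMap K C (η x)) (hρ : IsRho2 K ρ)
    {v : M →+ PowerSeries C} (hv : IsCycle (k := k₀) (OE := OE) (OK := OK) τ η v) {Q : L[X]}
    (hQ : ∀ i, Q.coeff i ∈ AK OK K L) :
    ∃ r : OK ⊗[k₀] OE, ρ r = bet2Ev k (tE k₀ E) L Q ∧
      ∀ y, bet2Z (ε 0) v (r • y) = bet2Pj j Q * bet2Z (ε 0) v y := by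
  obtain ⟨P, rfl⟩ : ∃ P : OK[X], P.map ((algebraMap K L).comp (algebraMap OK K)) = Q :=
    (mem_lifts _).1 ((lifts_iff_coeff_lifts _).2 hQ)
  clear hQ
  induction P using Polynomial.induction_on with
  | C c =>
    refine ⟨c ⊗ₜ[k₀] (1 : OE), ?_, fun y => ?_⟩
    · rw [map_C, bet2Ev_C, bet2_rho_c hρ]; rfl
    · rw [map_C, bet2Pj_C, bet2Z_const hv, RingHom.comp_apply, hj]
  | add P Q hP hQ =>
    obtain ⟨r, h1, h2⟩ := hP
    obtain ⟨r', h3, h4⟩ := hQ
    refine ⟨r + r', ?_, fun y => ?_⟩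
    · rw [map_add, h1, h3, Polynomial.map_add, map_add]
    · rw [add_smul, map_add, h2, h4, Polynomial.map_add, map_add, add_mul]
  | monomial m c ih =>
    obtain ⟨r, h1, h2⟩ := ih
    refine ⟨r * ((1 : OK) ⊗ₜ[k₀] algebraMap k₀[X] OE X), ?_, fun y => ?_⟩
    · rw [map_mul, h1, bet2_rho_t hρ, pow_succ, ← mul_assoc, Polynomial.map_mul (q := X), map_mul,
        map_X, bet2Ev_X]
    · rw [mul_smul, h2, bet2Z_t hv, pow_succ, ← mul_assoc (Polynomial.C c),
        Polynomial.map_mul (q := X), map_mul, map_X, bet2Pj_X, mul_assoc]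

private theorem bet2_val (j : L →+* C)
    (hj : ∀ x : K, j (algebraMap K L x) = algebraMap K C (η x)) (hρ : IsRho2 K ρ)
    (hμ : IsEmb2 ρ (Module.finrank k₀ k) ε τ μ f I) (hb : IsBasis (AK OK K L) (tE k₀ E) I bs)
    {β : Fin n → M} (hβ : ∀ c, μ (β c) = bs c) {v : M →+ PowerSeries C}
    (hv : IsCycle (k := k₀) (OE := OE) (OK := OK) τ η v) {x : M} {Q : Fin n → L[X]}
    (hQ : μ x = ∑ c, bet2Ev k (tE k₀ E) L (Q c) * bs c) :
    bet2Z (ε 0) v x = ∑ c, bet2Pj j (Q c) * bet2Z (ε 0) v (β c) := by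
  obtain ⟨_, ⟨a, rfl⟩, ha, P, hP, e⟩ := hb.span (μ x) (hμ.range ▸ ⟨x, rfl⟩)
  have e1 : P = fun c => Polynomial.C (algebraMap K L (algebraMap OK K a)) * Q c := by
    refine bet2_uniq hb ?_
    simp only [map_mul, mul_assoc, ← Finset.mul_sum, bet2Ev_C]
    rw [← hQ]
    exact e.symm
  choose r h1 h2 using fun c => bet2_poly (ε := ε) j hj hρ hv (hP c)
  have e2 : μ ((a ⊗ₜ[k₀] (1 : OE) : OK ⊗[k₀] OE) • x) = μ (∑ c, r c • β c) := by
    rw [hμ.smul, map_sum, bet2_rho_c hρ]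
    simp only [hμ.smul, h1, hβ]
    exact e
  have e3 := bet2Z_const hv (ε 0) a x
  rw [bet2Z_eq hμ v e2, map_sum, ← hj] at e3
  simp only [h2, e1, map_mul, mul_assoc, ← Finset.mul_sum, bet2Pj_C] at e3
  refine (mul_left_cancel₀ ?_ e3).symm
  rw [Ne, ← map_zero PowerSeries.C, PowerSeries.C_injective.eq_iff, map_eq_zero]
  exact ha

private theorem bet2_pol (j : L →+* C)
    (hj : ∀ x : K, j (algebraMap K L x) = algebraMap K C (η x))
    (hjk : ∀ c : k, j (algebraMap k L c) = algebraMap k C c)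
    (hk : ∀ c : k, algebraMap k L c ∈ AK OK K L) (hρ : IsRho2 K ρ)
    (hμ : IsEmb2 ρ (Module.finrank k₀ k) ε τ μ f I) {v : M →+ PowerSeries C}
    (hv : IsCycle (k := k₀) (OE := OE) (OK := OK) τ η v) {P : k[X]} {p : OE}
    (hp : algebraMap OE E p = aeval (tE k₀ E) P) (y : M) :
    bet2Z (ε 0) v (((1 : OK) ⊗ₜ[k₀] p : OK ⊗[k₀] OE) • y) = polS C k P * bet2Z (ε 0) v y := by
  obtain ⟨r, h1, h2⟩ := bet2_poly (ε := ε) j hj hρ hv (Q := P.map (algebraMap k L))
    (fun i => by rw [coeff_map]; exact hk _)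
  rw [← bet2_polS j hjk, ← h2]
  refine bet2Z_eq hμ v ?_
  rw [hμ.smul, hμ.smul, h1, bet2_aeval, bet2_rho_b hρ, hp]

private theorem bet2Z_cyc (hM : IsCMMotive OE OK d τ)
    (hu : IsCycle (k := k₀) (OE := OE) (OK := OK) τ η u) (c : OE) :
    IsCycle (k := k₀) (OE := OE) (OK := OK) τ η (bet2Z ((1 : OK) ⊗ₜ[k₀] c : OK ⊗[k₀] OE) u) := by
  refine ⟨fun x => hu.tate _, fun a x => bet2Z_const hu _ a x, fun x => bet2Z_t hu _ x,
    fun x m => ?_⟩
  have e : ((1 : OK) ⊗ₜ[k₀] c : OK ⊗[k₀] OE) • τ x =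
      τ (((1 : OK) ⊗ₜ[k₀] c : OK ⊗[k₀] OE) • x) := by
    rw [hM.semilinear, sig, Algebra.TensorProduct.map_tmul, map_one, AlgHom.id_apply]
  rw [bet2Z_apply, bet2Z_apply, e, hu.twist]

private theorem bet2_sol (j : L →+* C)
    (hj : ∀ x : K, j (algebraMap K L x) = algebraMap K C (η x)) (hρ : IsRho2 K ρ)
    (hε : IsIdem ρ (Module.finrank k₀ k) ε) (hM : IsCMMotive OE OK d τ)
    (hμ : IsEmb2 ρ (Module.finrank k₀ k) ε τ μ f I) (hb : IsBasis (AK OK K L) (tE k₀ E) I bs)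
    {β : Fin n → M} (hβ : ∀ c, μ (β c) = bs c) {Φ : Matrix (Fin n) (Fin n) L[X]}
    (hΦ : ∀ c, f * mapF (fr k L) (bs c) = ∑ c', bet2Ev k (tE k₀ E) L (Φ c c') * bs c')
    {v : M →+ PowerSeries C} (hv : IsCycle (k := k₀) (OE := OE) (OK := OK) τ η v) :
    (fun c => bet2Z (ε 0) v (β c)) ∈ Sol k (Φ.map (Polynomial.map j)) := by
  refine ⟨fun c => ?_, fun c => ?_⟩
  · simpa only [Conv, one_pow, mul_one, bet2Z_apply] using hv.tate (ε 0 • β c)
  · have e : twS k (bet2Z (ε 0) v (β c)) = bet2Z (ε 0) v (τ^[Module.finrank k₀ k] (β c)) := by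
      ext m
      have e0 : ε 0 • τ^[Module.finrank k₀ k] (β c) = τ^[Module.finrank k₀ k] (ε 0 • β c) := by
        rw [tau_iter hM, hε.sig_l hρ]
      rw [coeff_twS, bet2Z_apply, bet2Z_apply, e0, hv.iter, card_pow]
    exact e.trans (bet2_val j hj hρ hμ hb hβ hv (by rw [hμ.tau, hβ, hΦ]))

private theorem bet2_onto (j : L →+* C)
    (hj : ∀ x : K, j (algebraMap K L x) = algebraMap K C (η x)) (hρ : IsRho2 K ρ)
    (hε : IsIdem ρ (Module.finrank k₀ k) ε) (hM : IsCMMotive OE OK d τ)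
    (hμ : IsEmb2 ρ (Module.finrank k₀ k) ε τ μ f I) (hb : IsBasis (AK OK K L) (tE k₀ E) I bs)
    {β : Fin n → M} (hβ : ∀ c, μ (β c) = bs c) {Φ : Matrix (Fin n) (Fin n) L[X]}
    (hΦ : ∀ c, f * mapF (fr k L) (bs c) = ∑ c', bet2Ev k (tE k₀ E) L (Φ c c') * bs c')
    {U : Fin n → PowerSeries C} (hU : U ∈ Sol k (Φ.map (Polynomial.map j))) :
    ∃ v : M →+ PowerSeries C, IsCycle (k := k₀) (OE := OE) (OK := OK) τ η v ∧
      ∀ c, bet2Z (ε 0) v (β c) = U c := by
  choose Q hQ using fun x : M => bet2_coord hb (x := μ x) (hμ.range ▸ ⟨x, rfl⟩)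
  have hU2 : ∀ c, twS k (U c) = ∑ d, bet2Pj j (Φ c d) * U d := hU.2
  have hm : ∀ (r : OK ⊗[k₀] OE) (P : L[X]), ρ r = bet2Ev k (tE k₀ E) L P → ∀ x,
      ∑ c, bet2Pj j (Q (r • x) c) * U c = bet2Pj j P * ∑ c, bet2Pj j (Q x c) * U c := by
    intro r P hr x
    have e : Q (r • x) = fun c => P * Q x c := by
      refine bet2_uniq hb ?_
      simp only [map_mul, mul_assoc, ← Finset.mul_sum]
      rw [← hQ, ← hQ, hμ.smul, hr]
    simp only [e, map_mul, mul_assoc, ← Finset.mul_sum]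
  have hadd : ∀ x y, ∑ c, bet2Pj j (Q (x + y) c) * U c =
      ∑ c, bet2Pj j (Q x c) * U c + ∑ c, bet2Pj j (Q y c) * U c := by
    intro x y
    have e : Q (x + y) = fun c => Q x c + Q y c := by
      refine bet2_uniq hb ?_
      simp only [map_add, add_mul, Finset.sum_add_distrib]
      rw [← hQ, ← hQ, ← hQ, map_add]
    simp only [e, map_add, add_mul, Finset.sum_add_distrib]
  have hconv : ∀ x, Conv 1 (∑ c, bet2Pj j (Q x c) * U c) := fun x =>
    conv_sum _ (fun c _ => (conv_coe 1 _).mul (hU.1 c) zero_le_one) zero_le_one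
  obtain ⟨v, hv, hv'⟩ := exists_cycle_of (η := η) hρ hε hM
    (v' := AddMonoidHom.mk' (fun x => ∑ c, bet2Pj j (Q x c) * U c) hadd)
    hconv
    (fun a x => (hm _ (Polynomial.C (algebraMap K L (algebraMap OK K a)))
      (by rw [bet2_rho_c hρ, bet2Ev_C]) x).trans (by rw [bet2Pj_C, hj]; rfl))
    (fun x => (hm _ X (by rw [bet2_rho_t hρ, bet2Ev_X]) x).trans (by rw [bet2Pj_X]; rfl))
    (fun x => (hm _ 1 (by rw [hε.rho_zero, map_one]) x).trans (by rw [map_one, one_mul]; rfl))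
    (fun x m => by
      have e : Q (τ^[Module.finrank k₀ k] x) =
          fun d => ∑ c, (Q x c).map (fr k L : L →+* L) * Φ c d := by
        refine bet2_uniq hb ?_
        rw [← hQ, hμ.tau, hQ x, map_sum, Finset.mul_sum]
        simp only [map_sum, Finset.sum_mul]
        rw [Finset.sum_comm]
        refine Finset.sum_congr rfl fun c _ => ?_
        rw [map_mul, mul_left_comm, hΦ, bet2_mapF, Finset.mul_sum]
        simp only [map_mul, mul_assoc]
      rw [← coeff_twS k]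
      congr 1
      change ∑ c, bet2Pj j (Q (τ^[Module.finrank k₀ k] x) c) * U c =
        twS k (∑ c, bet2Pj j (Q x c) * U c)
      simp only [e, map_sum, map_mul, Finset.sum_mul, hU2, bet2_twS, Finset.mul_sum, mul_assoc]
      exact Finset.sum_comm)
  refine ⟨v, hv, fun c => ?_⟩
  have e : Q (β c) = Pi.single c 1 := by
    refine bet2_uniq hb ?_
    rw [← hQ, hβ, Finset.sum_eq_single c (fun d _ hd => by rw [Pi.single_eq_of_ne hd]; simp)
      (by simp), Pi.single_eq_same, map_one, one_mul]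
  rw [bet2Z_apply, hv']
  change ∑ d, bet2Pj j (Q (β c) d) * U d = _
  rw [e, Finset.sum_eq_single c (fun d _ hd => by rw [Pi.single_eq_of_ne hd]; simp) (by simp),
    Pi.single_eq_same, map_one, one_mul]

private theorem bet2_OO (t : E) (P : k[X]) : aeval t P ∈ OO k t := by
  have h1 : aeval t P ∈ Algebra.adjoin k {t} := Polynomial.aeval_mem_adjoin_singleton k t
  exact isIntegral_algebraMap (R := Algebra.adjoin k {t}) (A := E) (x := ⟨_, h1⟩)

end Aux

theorem bet_eq2 (h : FF k (tE k₀ E)) (j : L →+* C)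
    (hj : ∀ x : K, j (algebraMap K L x) = algebraMap K C (η x))
    (hjk : ∀ c : k, j (algebraMap k L c) = algebraMap k C c)
    (hk : ∀ c : k, algebraMap k L c ∈ AK OK K L) (hρ : IsRho2 K ρ)
    (hε : IsIdem ρ (Module.finrank k₀ k) ε) (hM : IsCMMotive OE OK d τ)
    (hμ : IsEmb2 ρ (Module.finrank k₀ k) ε τ μ f I) (hd : DualB k (tE k₀ E) L e e')
    (hb : IsBasis (AK OK K L) (tE k₀ E) I bs) {Φ : Matrix (Fin n) (Fin n) L[X]}
    (hΦ : ∀ c, f * mapF (fr k L) (bs c) =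
      ∑ c', eval₂ (tmL k E L) (tm 1 (tE k₀ E)) (Φ c c') * bs c')
    (hu : IsCycle (k := k₀) (OE := OE) (OK := OK) τ η u)
    {u' : FL k E L → PowerSeries C} (hu' : ∀ x, u' (μ x) = u (ε 0 • x)) :
    (∀ a, (fun c => u' (tm 1 (e a) * bs c)) ∈ Sol k (Φ.map (Polynomial.map j))) ∧
      bettiIndex k₀ OE OK τ η u = (SpanK k fun a c => u' (tm 1 (e a) * bs c)).relIndex
        (Sol k (Φ.map (Polynomial.map j))) := by
  choose β hβ using fun c => (show bs c ∈ μ.range from hμ.range.symm ▸ hb.mem c)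
  choose g hg using fun a => (mem_OO2 OE (e a)).1 (hd.mem a)
  choose p hp using fun P : k[X] => (mem_OO2 OE _).1 (bet2_OO (tE k₀ E) P)
  have hZ : ∀ (c : OE) (x : M), bet2Z (ε 0) (bet2Z ((1 : OK) ⊗ₜ[k₀] c : OK ⊗[k₀] OE) u) x =
      bet2Z (ε 0) u (((1 : OK) ⊗ₜ[k₀] c : OK ⊗[k₀] OE) • x) := fun c x => by
    rw [bet2Z_apply, bet2Z_apply, bet2Z_apply, smul_comm]
  have hW : ∀ a c, u' (tm 1 (e a) * bs c) =
      bet2Z (ε 0) (bet2Z ((1 : OK) ⊗ₜ[k₀] g a : OK ⊗[k₀] OE) u) (β c) := fun a c => by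
    rw [hZ, bet2Z_apply, ← hu', hμ.smul, bet2_rho_b hρ, hg, hβ]
  have hS : ∀ (P : Fin n → k[X]) (c : Fin n),
      bet2Z (ε 0) (bet2Z ((1 : OK) ⊗ₜ[k₀] (∑ a, p (P a) * g a) : OK ⊗[k₀] OE) u) (β c)
        = ∑ a, polS C k (P a) * u' (tm 1 (e a) * bs c) := fun P c => by
    rw [hZ, TensorProduct.tmul_sum, Finset.sum_smul, map_sum]
    refine Finset.sum_congr rfl fun a _ => ?_
    rw [← one_mul (1 : OK), ← Algebra.TensorProduct.tmul_mul_tmul, mul_smul,
      bet2_pol j hj hjk hk hρ hμ hu (hp (P a)), hW, hZ]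
  refine ⟨fun a => ?_, ?_⟩
  · simp only [hW]
    exact bet2_sol j hj hρ hε hM hμ hb hβ hΦ (bet2Z_cyc hM hu _)
  let Θ : (M →+ PowerSeries C) →+ (Fin n → PowerSeries C) :=
    AddMonoidHom.mk' (fun v c => bet2Z (ε 0) v (β c)) fun _ _ => rfl
  have e1 : (cycles k₀ OE OK τ η).map Θ = Sol k (Φ.map (Polynomial.map j)) := by
    ext U
    refine ⟨?_, fun hU => ?_⟩
    · rintro ⟨v, hv, rfl⟩
      exact bet2_sol j hj hρ hε hM hμ hb hβ hΦ hv
    · obtain ⟨v, hv, h1⟩ := bet2_onto j hj hρ hε hM hμ hb hβ hΦ hU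
      exact ⟨v, hv, funext h1⟩
  rw [← e1, ← AddSubgroup.relIndex_comap, bettiIndex, AddSubgroup.relIndex, AddSubgroup.relIndex]
  congr 1
  ext ⟨v, hv⟩
  rw [AddSubgroup.mem_addSubgroupOf, AddSubgroup.mem_addSubgroupOf, AddSubgroup.mem_comap]
  refine ⟨?_, ?_⟩
  · rintro ⟨c, hc⟩
    obtain ⟨P, hP⟩ := hd.span _ ((mem_OO2 OE _).2 ⟨c, rfl⟩)
    have e2 : c = ∑ a, p (P a) * g a := by
      apply IsIntegralClosure.algebraMap_injective OE k₀[X] E
      rw [hP, map_sum]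
      refine Finset.sum_congr rfl fun a _ => ?_
      rw [map_mul, hg, hp]
    refine ⟨P, fun d => ?_⟩
    rw [← hS, ← e2]
    exact hc _
  · rintro ⟨P, hP⟩
    have hc := bet2Z_cyc hM hu (∑ a, p (P a) * g a)
    have hz : v - bet2Z ((1 : OK) ⊗ₜ[k₀] (∑ a, p (P a) * g a) : OK ⊗[k₀] OE) u = 0 := by
      refine cycle_eq_zero hρ hε hM ((cycles k₀ OE OK τ η).sub_mem hv hc) fun x => ?_
      obtain ⟨Q, hQ⟩ := bet2_coord hb (x := μ x) (hμ.range ▸ ⟨x, rfl⟩)
      rw [AddMonoidHom.sub_apply, sub_eq_zero]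
      refine (bet2_val j hj hρ hμ hb hβ hv hQ).trans
        (Eq.trans ?_ (bet2_val j hj hρ hμ hb hβ hc hQ).symm)
      refine Finset.sum_congr rfl fun c _ => ?_
      rw [hS]
      exact congrArg _ (hP c)
    exact ⟨∑ a, p (P a) * g a, fun x => DFunLike.congr_fun (sub_eq_zero.1 hz) x⟩

end Pool.Agent.FFC
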