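import Pool.Agent.P.MP_a2beea_nt.FC.TateM

/-! Cycles are determined by one component. `cycle_eq_zero`: `τ^[b] (ε b • x) = ε 0 • τ^[b] x`
(`tau_iter`, `IsIdem.sig_pow`), so `u (ε b • x) = 0` by `IsCycle.iter`; sum over `b`.
`exists_cycle_of`: make `C` a `k₀`-algebra through `K`, let `r = (fr k₀ C).symm` be the inverse of
Frobenius and put `v x = ∑_{b = 1}^{l} PowerSeries.map (r ^ b) (v' (τ^[b] x))`. For the twist use
`v' (τ^[l + 1] x) = twist ^ l (v' (τ x))`; for `v (ε 0 • x)` use `IsIdem.orth`, `IsIdem.sig_l`,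
`h4`. The norm of `r c` is the `q₀`-th root of the norm of `c`. -/

open Polynomial
open scoped TensorProduct NNReal IntermediateField

namespace Pool.Agent.FFC

open Classical

theorem BetC_root (k₀ K C : Type*) [Field k₀] [Fintype k₀] [Field K] [Field C] [Algebra k₀ K]
    [Algebra K C] [IsAlgClosed C] : ∃ (φ : C →+* C) (s : ℕ → C →+* C),
      (∀ c, φ c = c ^ Fintype.card k₀) ∧ (∀ c, s 0 c = c) ∧ (∀ b c, φ (s (b + 1) c) = s b c) ∧
        ∀ b c, s b c ^ Fintype.card k₀ ^ b = c := by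
  let _ : Algebra k₀ C := ((algebraMap K C).comp (algebraMap k₀ K)).toAlgebra
  have h1 : ∀ c, (fr k₀ C).symm c ^ Fintype.card k₀ = c := fun c => (fr k₀ C).apply_symm_apply c
  have h2 : ∀ (b : ℕ) c, (((fr k₀ C).symm : C →+* C) ^ (b + 1)) c =
      (fr k₀ C).symm ((((fr k₀ C).symm : C →+* C) ^ b) c) := fun b c => by
    rw [pow_succ']
    rfl
  refine ⟨fr k₀ C, fun b => ((fr k₀ C).symm : C →+* C) ^ b, fun _ => rfl, fun _ => rfl,
    fun b c => ?_, fun b c => ?_⟩
  · rw [h2]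
    exact h1 _
  · induction b with
    | zero => simp
    | succ b ih => rw [h2, pow_succ', pow_mul, h1, ih]

theorem BetC_tendsto {C : Type*} [NormedField C] {s : C → C} {q b : ℕ}
    (hs : ∀ c, s c ^ q ^ b = c) {U : PowerSeries C} (hU : Conv 1 U) :
    Filter.Tendsto (fun n => s (PowerSeries.coeff n U)) Filter.atTop (nhds 0) := by
  rw [NormedAddGroup.tendsto_nhds_zero]
  intro e he
  have h1 := hU.eventually (gt_mem_nhds (pow_pos he (q ^ b)))
  filter_upwards [h1] with n hn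
  rw [one_pow, mul_one, ← hs (PowerSeries.coeff n U), norm_pow] at hn
  exact lt_of_pow_lt_pow_left₀ _ he.le hn

variable {k₀ : Type*} [Field k₀] [Fintype k₀] {E K : Type*} [Field E] [Field K]
  [Algebra k₀ E] [Algebra k₀[X] E] [Algebra (RatFunc k₀) E] [IsScalarTower k₀ k₀[X] E]
  [IsScalarTower k₀[X] (RatFunc k₀) E]
  [Algebra k₀ K] [Algebra k₀[X] K] [Algebra (RatFunc k₀) K] [IsScalarTower k₀ k₀[X] K]
  [IsScalarTower k₀[X] (RatFunc k₀) K]
  [FiniteDimensional (RatFunc k₀) E] [Algebra.IsSeparable (RatFunc k₀) E]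
  [FiniteDimensional (RatFunc k₀) K] [IsGalois (RatFunc k₀) K]
  {OE OK : Type*} [CommRing OE] [CommRing OK]
  [Algebra k₀ OE] [Algebra k₀[X] OE] [Algebra OE E] [IsScalarTower k₀ k₀[X] OE]
  [IsScalarTower k₀[X] OE E] [IsIntegralClosure OE k₀[X] E]
  [Algebra k₀ OK] [Algebra k₀[X] OK] [Algebra OK K] [IsScalarTower k₀ k₀[X] OK]
  [IsScalarTower k₀[X] OK K] [IsIntegralClosure OK k₀[X] K]
  {L : Type*} [Field L] [Algebra k₀ L] [Algebra K L] [IsScalarTower k₀ K L] [IsAlgClosed L]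
  [Algebra.IsAlgebraic K L]
  {k : Type*} [Field k] [Fintype k] [Algebra k₀ k] [Algebra k E] [IsScalarTower k₀ k E]
  [Algebra k L] [IsScalarTower k₀ k L]
  [IsDomain (L ⊗[k] E)] [Nonempty (GV k L)]
  [Fintype (E →ₐ[RatFunc k₀] K)] {M : Type*} [AddCommGroup M] [Module (OK ⊗[k₀] OE) M]
  {τ : M →+ M} {d : (E →ₐ[RatFunc k₀] K) → ℕ}
  {ρ : OK ⊗[k₀] OE →+* FL k E L} {ε : ℕ → OK ⊗[k₀] OE}
  {μ : M →+ FL k E L} {f : FL k E L} {I : AddSubgroup (FL k E L)}
  {C : Type*} [NormedField C] [IsUltrametricDist C] [CompleteSpace C] [Algebra K C]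
  {η : K ≃ₐ[RatFunc k₀] K} {u : M →+ PowerSeries C}

theorem cycle_eq_zero (hρ : IsRho2 K ρ) (hε : IsIdem ρ (Module.finrank k₀ k) ε)
    (hM : IsCMMotive OE OK d τ) (hu : IsCycle (k := k₀) (OE := OE) (OK := OK) τ η u)
    (h0 : ∀ x, u (ε 0 • x) = 0) : u = 0 := by
  have h1 : ∀ b < Module.finrank k₀ k, ∀ x, u (ε b • x) = 0 := by
    intro b hb x
    ext n
    have h2 := hu.iter b (ε b • x) n
    rw [tau_iter hM, hε.sig_pow hρ hb, h0, map_zero] at h2
    rw [map_zero]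
    exact pow_eq_zero_iff (pow_ne_zero b Fintype.card_ne_zero) |>.1 h2.symm
  ext1 x
  have h2 : x = ∑ b ∈ Finset.range (Module.finrank k₀ k), ε b • x := by
    rw [← Finset.sum_smul, hε.sum_eq, one_smul]
  rw [h2, map_sum, AddMonoidHom.zero_apply]
  exact Finset.sum_eq_zero fun b hb => h1 b (Finset.mem_range.1 hb) x

theorem exists_cycle_of [IsAlgClosed C] (hρ : IsRho2 K ρ) (hε : IsIdem ρ (Module.finrank k₀ k) ε)
    (hM : IsCMMotive OE OK d τ) {v' : M →+ PowerSeries C} (h1 : ∀ x, Conv 1 (v' x))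
    (h2 : ∀ (c : OK) (x : M), v' ((c ⊗ₜ[k₀] (1 : OE) : OK ⊗[k₀] OE) • x) =
      PowerSeries.C (algebraMap K C (η (algebraMap OK K c))) * v' x)
    (h3 : ∀ x : M, v' (((1 : OK) ⊗ₜ[k₀] algebraMap k₀[X] OE X : OK ⊗[k₀] OE) • x) =
      PowerSeries.X * v' x)
    (h4 : ∀ x, v' (ε 0 • x) = v' x)
    (h5 : ∀ x n, PowerSeries.coeff n (v' (τ^[(Module.finrank k₀ k)] x)) =
      PowerSeries.coeff n (v' x) ^ Fintype.card k) :
    ∃ v : M →+ PowerSeries C, IsCycle (k := k₀) (OE := OE) (OK := OK) τ η v ∧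
      ∀ x, v (ε 0 • x) = v' x := by
  obtain ⟨φ, s, hφ, hs0, hs1, hs2⟩ := BetC_root k₀ K C
  have hq : Fintype.card k = Fintype.card k₀ ^ Module.finrank k₀ k :=
    Module.card_eq_pow_finrank
  have hs3 : ∀ b c, s b (c ^ Fintype.card k₀ ^ b) = c := fun b c => by rw [map_pow, hs2]
  obtain ⟨l, hl⟩ : ∃ l, Module.finrank k₀ k = l + 1 :=
    ⟨Module.finrank k₀ k - 1, by have := Module.finrank_pos (R := k₀) (M := k); omega⟩
  let v : M →+ PowerSeries C := AddMonoidHom.mk'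
    (fun x => ∑ b ∈ Finset.range (l + 1), PowerSeries.map (s (b + 1)) (v' (τ^[b + 1] x)))
    (fun x y => by simp only [iterate_map_add, map_add, Finset.sum_add_distrib])
  have hv : ∀ x, v x =
      ∑ b ∈ Finset.range (l + 1), PowerSeries.map (s (b + 1)) (v' (τ^[b + 1] x)) := fun _ => rfl
  have hc : ∀ x n, PowerSeries.coeff n (v x) =
      ∑ b ∈ Finset.range (l + 1), s (b + 1) (PowerSeries.coeff n (v' (τ^[b + 1] x))) := by
    intro x n
    simp only [hv, map_sum, PowerSeries.coeff_map]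
  have h6 : ∀ x n, s (l + 1) (PowerSeries.coeff n (v' (τ^[l + 1] x))) =
      PowerSeries.coeff n (v' x) := by
    intro x n
    rw [← hl, h5, hq, hs3]
  refine ⟨v, ⟨fun x => ?_, fun c x => ?_, fun x => ?_, fun x n => ?_⟩, fun x => ?_⟩
  · rw [← tendsto_zero_iff_norm_tendsto_zero]
    simp only [hc]
    have h7 := tendsto_finsetSum (Finset.range (l + 1)) fun b _ =>
      BetC_tendsto (hs2 (b + 1)) (h1 (τ^[b + 1] x))
    simpa using h7
  · rw [hv, hv, Finset.mul_sum]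
    refine Finset.sum_congr rfl fun b _ => ?_
    rw [tau_iter hM, sig_pow_tmul, h2, map_mul, PowerSeries.map_C, map_pow, map_pow, map_pow, hs3]
  · rw [hv, hv, Finset.mul_sum]
    refine Finset.sum_congr rfl fun b _ => ?_
    rw [tau_iter hM, sig_pow_tmul, one_pow, h3, map_mul, PowerSeries.map_X]
  · rw [hc, hc, ← hφ, map_sum]
    simp only [hs1, ← Function.iterate_succ_apply]
    have h7 := Finset.sum_range_succ
      (fun b => s b (PowerSeries.coeff n (v' (τ^[b + 1] x)))) (l + 1)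
    rw [Finset.sum_range_succ' _ (l + 1), Function.iterate_succ_apply _ (l + 1), h6, hs0] at h7
    exact add_right_cancel h7
  · rw [hv, Finset.sum_range_succ, Finset.sum_eq_zero, zero_add]
    · ext n
      rw [PowerSeries.coeff_map, tau_iter hM, ← hl, hε.sig_l hρ, h4, hl, h6]
    · intro b hb
      rw [tau_iter hM, ← h4, smul_smul,
        hε.orth hρ (Nat.succ_pos b) (by have := Finset.mem_range.1 hb; omega), zero_smul,
        map_zero, map_zero]

end Pool.Agent.FFC
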