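import Pool.Agent.P.MP_a2beea_nt.FC.LatB
import Pool.Agent.P.MP_a2beea_nt.FC.HtC

/-! The local size of a lattice at a finite place. The values at `y` of the `m' i * m i ∈ RA` have
absolute value `≤ 1` and sum `1`, so some `s = m' i * m i` has `|s(y)| = 1`. Then `s` is a unit at
all points of the disc of `y` (`RA_intT`, `IntT.evT`) and has Gauss norm one (`IntT.exists_red`,
`ConstT.gT_eq`); `x * s = (m' i * x) * m i` shows that `m i` realises `supL`, `gaussL` and `dv`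
on the disc. Apply `local_formula` to `m i`. `sup_eigen`: `r * x` is in the set for `r` as in
`dif` and `x ∈ J`; conversely `x = ∑ (m' i * x) * m i` with `m' i * x` as in `dif`
(`Lat.inv_hasVal`). `dif_shift`: `dif A t φ' = g '' dif A t φ` for `g` from `exists_GG`
(`HasVal.map`, `RA_mapF`), then `PD.W_comap` and `Ifin_shift`. -/

open Polynomial
open scoped TensorProduct NNReal IntermediateField

namespace Pool.Agent.FFC

open Classical

variable {k : Type*} [Field k] [Fintype k] {E : Type*} [Field E] [Algebra k E] {t : E}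
  {L : Type*} [Field L] [Algebra k L] [IsAlgClosed L]
  [IsDomain (L ⊗[k] E)]
  [Nonempty (GV k L)]
  {θ : L}
  {A : Subring L} {f : FL k E L} {I J : AddSubgroup (FL k E L)} {D : (E →ₐ[k] L) →₀ ℤ}

theorem locF_red {w : GV k L} {y : E →ₐ[k] L} (hy : w.v (y t) ≤ 1) :
    t ∈ redO w (Pt.ofHom y) := ⟨ValuationSubring.mem_top _, hy⟩

theorem locF_top (y : E →ₐ[k] L) : t ∈ (Pt.ofHom y).O := ValuationSubring.mem_top _

/-- A local generator of the lattice on the disc of `y`. -/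
theorem locF_gen (hl : Lat A t J) (w : GV k L) (hA : ∀ c ∈ A, w.v c ≤ 1) {y : E →ₐ[k] L}
    (hy : w.v (y t) ≤ 1) {n : ℕ} {m m' : Fin n → FL k E L} (hm : ∀ i, m i ∈ J)
    (hm' : ∀ i, ∀ x ∈ J, m' i * x ∈ RA k A t) (hs : ∑ i, m' i * m i = 1) :
    ∃ i, w.v (val (Pt.ofHom y) (m' i * m i)) = 1 := by
  have hv : HasVal (Pt.ofHom y) (∑ i, m' i * m i) (∑ i, val (Pt.ofHom y) (m' i * m i)) :=
    HasVal.sum _ fun i _ => RA_val (locF_top y) (hm' i _ (hm i))
  rw [hs] at hv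
  have h1 := hv.unique (hasVal_one _)
  by_contra hne
  have hlt : w.v (∑ i, val (Pt.ofHom y) (m' i * m i)) < 1 := by
    refine w.v.map_sum_lt one_ne_zero fun i _ => ?_
    exact lt_of_le_of_ne (RA_val_le hA (locF_red hy) (hm' i _ (hm i))) fun e => hne ⟨i, e⟩
  rw [h1, map_one] at hlt
  exact lt_irrefl _ hlt

theorem locF_val (h : FF k t) (hl : Lat A t J) (w : GV k L) {y : E →ₐ[k] L}
    (h0 : dv t J (Pt.ofHom y) = 0) {m m' : FL k E L} (hm : m ∈ J)
    (hm' : ∀ x ∈ J, m' * x ∈ RA k A t) (h1 : w.v (val (Pt.ofHom y) (m' * m)) = 1)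
    {x : FL k E L} (hx : x ∈ J) :
    w.v (val (Pt.ofHom y) x) = w.v (val (Pt.ofHom y) (m' * x)) * w.v (val (Pt.ofHom y) m) := by
  have e1 := (hl.hasVal h h0 hx).mul (RA_val (locF_top y) (hm' m hm))
  have e2 := (RA_val (locF_top y) (hm' x hx)).mul (hl.hasVal h h0 hm)
  have e : x * (m' * m) = m' * x * m := by ring
  rw [e] at e1
  have e3 := congrArg w.v (e1.unique e2)
  rwa [map_mul, map_mul, h1, mul_one] at e3

theorem locF_sup (h : FF k t) (hl : Lat A t J) (w : GV k L) (hA : ∀ c ∈ A, w.v c ≤ 1)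
    {y : E →ₐ[k] L} (hy : w.v (y t) ≤ 1)
    (h0 : dv t J (Pt.ofHom y) = 0) {m m' : FL k E L} (hm : m ∈ J)
    (hm' : ∀ x ∈ J, m' * x ∈ RA k A t) (h1 : w.v (val (Pt.ofHom y) (m' * m)) = 1) :
    (∀ x ∈ J, w.v (val (Pt.ofHom y) x) ≤ w.v (val (Pt.ofHom y) m)) ∧
      supL w (Pt.ofHom y) J = w.v (val (Pt.ofHom y) m) ∧ val (Pt.ofHom y) m ≠ 0 := by
  have hle : ∀ x ∈ J, w.v (val (Pt.ofHom y) x) ≤ w.v (val (Pt.ofHom y) m) := by
    intro x hx
    rw [locF_val h hl w h0 hm hm' h1 hx]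
    exact mul_le_of_le_one_left' (RA_val_le hA (locF_red hy) (hm' x hx))
  refine ⟨hle, ?_, ?_⟩
  · refine IsGreatest.csSup_eq ⟨⟨m, hm, rfl⟩, ?_⟩
    rintro r ⟨x, hx, rfl⟩
    exact hle x hx
  · obtain ⟨x, hx, hx0⟩ := hl.exists_val_ne h h0
    intro e
    have := hle x hx
    rw [e, map_zero, nonpos_iff_eq_zero, map_eq_zero] at this
    exact hx0 this

theorem locF_gauss_le {w : GV k L} (hA : ∀ c ∈ A, w.v c ≤ 1) {r : FL k E L}
    (hr : r ∈ RA k A t) : gauss w r ≤ 1 := by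
  obtain ⟨x, hx, rfl⟩ := RA_intT (O := ⊤) hA (fun _ => ValuationSubring.mem_top _)
    (ValuationSubring.mem_top _) hr
  rw [gauss_algebraMap]
  exact hx.gT_le

theorem locF_unit (h : FF k t) {w : GV k L} (hA : ∀ c ∈ A, w.v c ≤ 1) {y : Pt k E L}
    (hy : t ∈ redO w y) {r : FL k E L} (hr : r ∈ RA k A t) (h1 : w.v (val y r) = 1) :
    gauss w r = 1 ∧ ∀ z : Pt k E L, red w z = red w y → ord z r = 0 := by
  obtain ⟨u, hu, rfl⟩ := RA_intT (O := redO w y) hA (red w y).alg_mem hy hr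
  obtain ⟨c0, hc0, -, hz⟩ := hu.evT
  rw [hc0.hasVal.val_eq] at h1
  refine ⟨?_, fun z hzy => ?_⟩
  · rw [gauss_algebraMap]
    refine le_antisymm hu.gT_le ?_
    obtain ⟨x0, x1, c, hx0, hx1, hc, e⟩ := hu.exists_red
    obtain ⟨c1, hc1, hc1', -⟩ := hx1.evT
    have hne : x0 ≠ 0 := by
      rintro rfl
      rw [zero_add] at e
      have h2 := (evT_tmul y c (one_mem y.O)).mul hc1
      rw [← e] at h2
      have h3 := hc0.unique h2
      rw [h3, y.ev_one, mul_one, map_mul] at h1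
      exact absurd h1 (mul_lt_one_of_nonneg_of_lt_one_left zero_le hc hc1').ne
    have h4 := hx0.gT_eq w hne
    have e' : x0 = u + -((c ⊗ₜ[k] (1 : E)) * x1) := by rw [e]; ring
    have h5 := gT_add_le w u (-((c ⊗ₜ[k] (1 : E)) * x1))
    rw [← e', h4, gT_neg, gT_mul, gT_tmul w c one_ne_zero] at h5
    rcases le_max_iff.mp h5 with h6 | h6
    · exact h6
    · exact absurd h6 (not_le.mpr (mul_lt_one_of_nonneg_of_lt_one_left zero_le hc hx1.gT_le))
  · obtain ⟨c, hc, hlt⟩ := hz z hzy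
    refine ord_of_val h hc.hasVal ?_
    rintro rfl
    rw [zero_sub, Valuation.map_neg, h1] at hlt
    exact lt_irrefl _ hlt

theorem locF_dif {g : L ≃ₐ[k] L} (hg : ∀ c ∈ A, g c ∈ A) {φ φ' : E →ₐ[k] L}
    (he : tw g φ = φ') {c : L} (hc : c ∈ dif A t φ) : g c ∈ dif A t φ' := by
  obtain ⟨r, hr, h0, rfl⟩ := hc
  have key : ∀ χ : E →ₐ[k] L,
      val (Pt.ofHom (tw g χ)) (mapF g r) = g (val (Pt.ofHom χ) r) := by
    intro χ
    have := (RA_val (locF_top χ) hr).map g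
    rw [Pt.smul_ofHom] at this
    exact this.val_eq
  refine ⟨mapF g r, RA_mapF hg hr, fun χ' ht hne => ?_, ?_⟩
  · have e : tw g (tw g.symm χ') = χ' := by
      ext a
      simp [tw]
    rw [← e, key, h0, map_zero]
    · have : φ' t = g (φ t) := by rw [← he]; rfl
      change g.symm (χ' t) = φ t
      rw [ht, this, AlgEquiv.symm_apply_apply]
    · intro e'
      exact hne (by rw [← e, e', he])
  · rw [← he, key]

theorem supL_spec (h : FF k t) (hl : Lat A t J) {y : E →ₐ[k] L} (h0 : dv t J (Pt.ofHom y) = 0) :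
    ∃ s : Finset L, ∀ w : GV k L, (∀ c ∈ A, w.v c ≤ 1) → w.v (y t) ≤ 1 →
      supL w (Pt.ofHom y) J = s.sup (fun c => w.v c) ∧ supL w (Pt.ofHom y) J ≠ 0 ∧
      (∃ x ∈ J, w.v (val (Pt.ofHom y) x) = supL w (Pt.ofHom y) J) ∧
      ∀ x ∈ J, w.v (val (Pt.ofHom y) x) ≤ supL w (Pt.ofHom y) J := by
  obtain ⟨n, m, m', hm, hm', hs⟩ := hl.inv
  refine ⟨Finset.univ.image fun i => val (Pt.ofHom y) (m i), fun w hA hy => ?_⟩
  obtain ⟨i, hi⟩ := locF_gen hl w hA hy hm hm' hs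
  obtain ⟨hle, he, hne⟩ := locF_sup h hl w hA hy h0 (hm i) (hm' i) hi
  rw [he]
  refine ⟨le_antisymm ?_ ?_, by simpa using hne, ⟨m i, hm i, rfl⟩, hle⟩
  · exact Finset.le_sup (f := fun c => w.v c)
      (Finset.mem_image_of_mem (fun i => val (Pt.ofHom y) (m i)) (Finset.mem_univ i))
  · refine Finset.sup_le fun c hc => ?_
    obtain ⟨j, -, rfl⟩ := Finset.mem_image.mp hc
    exact hle _ (hm j)

theorem loc_formula (h : FF k t) (hl : Lat A t J) (w : GV k L) (hA : ∀ c ∈ A, w.v c ≤ 1)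
    {y : E →ₐ[k] L} (hy : w.v (y t) ≤ 1) (h0 : dv t J (Pt.ofHom y) = 0) :
    -Real.log (supL w (Pt.ofHom y) J) = -Real.log (gaussL w J) + dI w t J y := by
  obtain ⟨n, m, m', hm, hm', hs⟩ := hl.inv
  obtain ⟨i, hi⟩ := locF_gen hl w hA hy hm hm' hs
  obtain ⟨-, he, hne⟩ := locF_sup h hl w hA hy h0 (hm i) (hm' i) hi
  obtain ⟨hg, hz⟩ := locF_unit h hA (locF_red hy) (hm' i _ (hm i)) hi
  have hs0 : m' i * m i ≠ 0 := by
    intro e
    rw [e, (hasVal_zero _).val_eq, map_zero] at hi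
    exact zero_ne_one hi
  have hm0 : m i ≠ 0 := right_ne_zero_of_mul hs0
  have hm0' : m' i ≠ 0 := left_ne_zero_of_mul hs0
  have ex : ∀ x : FL k E L, x * (m' i * m i) = m' i * x * m i := fun x => by ring
  have hG : gaussL w J = gauss w (m i) := by
    refine IsGreatest.csSup_eq ⟨⟨m i, hm i, rfl⟩, ?_⟩
    rintro r ⟨x, hx, rfl⟩
    have := congrArg (gauss w) (ex x)
    rw [gauss_mul, hg, mul_one, gauss_mul] at this
    rw [this]
    exact mul_le_of_le_one_left' (locF_gauss_le hA (hm' i x hx))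
  rw [he, hG, local_formula h w hm0 (ord_of_val h (hl.hasVal h h0 (hm i)) hne), dI]
  congr 1
  refine finsum_congr fun z => ?_
  by_cases hr : red w (Pt.ofHom y) = red w z
  · have hO : redO w z = redO w (Pt.ofHom y) := (congrArg Pt.O hr).symm
    have htz : t ∈ z.O := by
      have : t ∈ redO w z := hO ▸ locF_red hy
      exact this.1
    have : dv t J z = ord z (m i) := by
      refine dv_eq_of htz (fun x hx hx0 => ?_) ⟨m i, hm i, hm0, rfl⟩
      have e := congrArg (ord z) (ex x)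
      have hx' : m' i * x ≠ 0 := mul_ne_zero hm0' hx0
      rw [ord_mul h z hx0 hs0, hz z hr.symm, ord_mul h z hx' hm0] at e
      have hn := (hasVal_iff h z hx').mp ⟨_, RA_val htz (hm' i x hx)⟩
      omega
    rw [this]
  · rw [ipt_of_red_ne hr, mul_zero, mul_zero]

theorem admF_supL (h : FF k t) (hl : Lat A t J) (P : PD k θ)
    (hA : ∀ π η, ∀ c ∈ A, (P.W (some π) η).v c ≤ 1) {φ : E →ₐ[k] L} (hφ : φ t = θ)
    (h0 : dv t J (Pt.ofHom φ) = 0) :
    AdmF fun v η => Real.log (supL (P.W v η) (Pt.ofHom φ) J) := by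
  obtain ⟨s, hs⟩ := supL_spec h hl h0
  refine (adm_log_sup P s).admF.congr fun π η => ?_
  rw [(hs _ (hA π η) (by rw [hφ]; exact P.W_fin_le π η)).1]

theorem adm_dI (h : FF k t) (hl : Lat A t J) (P : PD k θ) (y : E →ₐ[k] L) :
    Adm fun v η => dI (P.W v η) t J y := by
  have hc : (Function.support fun z : Pt k E L => (dv t J z : ℝ)).Finite :=
    (hl.dv_finite h).subset fun z hz => by simpa using hz
  exact (II_finsum P hc fun z => adm_ipt h P (Pt.ofHom y) z).1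

theorem II_dI (h : FF k t) {g : ℕ} (hR : RR0 k t g) (hl : Lat A t J) (P : PD k θ)
    {y : E →ₐ[k] L} (h0 : dv t J (Pt.ofHom y) = 0) :
    II (fun v η => dI (P.W v η) t J y) =
      (∑ᶠ z : Pt k E L, (dv t J z : ℝ)) * ht P t (Pt.ofHom y) +
        (∑ᶠ z : Pt k E L, (dv t J z : ℝ) * ht P t z) -
        BB P t (dvN t J) (Finsupp.single y 1) := by
  have hf := hl.dv_finite h
  have hc : (Function.support fun z : Pt k E L => (dv t J z : ℝ)).Finite :=
    hf.subset fun z hz => by simpa using hz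
  have hsum : ∀ F : Pt k E L → ℝ, ∑ᶠ z : Pt k E L, (dv t J z : ℝ) * F z =
      ∑ z ∈ hf.toFinset, (dv t J z : ℝ) * F z := by
    intro F
    refine finsum_eq_sum_of_support_subset _ fun z hz => ?_
    have : dv t J z ≠ 0 := by
      intro e
      simp [e] at hz
    simpa using this
  have e1 : II (fun v η => dI (P.W v η) t J y) =
      ∑ᶠ z : Pt k E L, (dv t J z : ℝ) * ip P (Pt.ofHom y) z :=
    (II_finsum P hc fun z => adm_ipt h P (Pt.ofHom y) z).2
  have e2 : ∑ᶠ z : Pt k E L, (dv t J z : ℝ) = ∑ z ∈ hf.toFinset, (dv t J z : ℝ) := by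
    simpa using hsum fun _ => 1
  have e3 : BB P t (dvN t J) (Finsupp.single y 1) = ∑ z ∈ hf.toFinset, (dv t J z : ℝ) *
      (ht P t (Pt.ofHom y) + ht P t z - ip P (Pt.ofHom y) z) := by
    rw [← Finset.sum_subset (s₁ := (dvN t J).support.image Pt.ofHom), Finset.sum_image
      fun a _ b _ e => Pt.ofHom_injective e]
    · unfold BB
      refine Finset.sum_congr rfl fun a ha => ?_
      have hay : a ≠ y := by
        rintro rfl
        rw [Finsupp.mem_support_iff, hl.dvN_apply h] at ha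
        exact ha h0
      beta_reduce
      rw [Finsupp.sum_single_index (by simp), hl.dvN_apply h, kp, if_neg hay, kk,
        ip_comm P (Pt.ofHom a)]
      push_cast
      ring
    · intro z hz
      obtain ⟨a, ha, rfl⟩ := Finset.mem_image.mp hz
      rw [Finsupp.mem_support_iff, hl.dvN_apply h] at ha
      simpa using ha
    · intro z hz hz'
      have hO : z.O ≠ ⊤ := by
        intro e
        obtain ⟨a, rfl⟩ := z.eq_ofHom e
        refine hz' (Finset.mem_image_of_mem _ ?_)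
        rw [Finsupp.mem_support_iff, hl.dvN_apply h]
        simpa using hz
      rw [ip_const h hR P y hO, ht_const h P hO]
      ring
  rw [e1, e2, e3, hsum, hsum, Finset.sum_mul, ← Finset.sum_add_distrib,
    ← Finset.sum_sub_distrib]
  exact Finset.sum_congr rfl fun z _ => by ring

theorem sup_eigen (h : FF k t) (hl : Lat A t J) (w : GV k L) (hA : ∀ c ∈ A, w.v c ≤ 1)
    {φ : E →ₐ[k] L} (hφ : w.v (φ t) ≤ 1)
    (hJ : ∀ χ : E →ₐ[k] L, χ t = φ t → dv t J (Pt.ofHom χ) = 0) :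
    supS w {c | ∃ x ∈ J, (∀ χ : E →ₐ[k] L, χ t = φ t → χ ≠ φ → val (Pt.ofHom χ) x = 0) ∧
        c = val (Pt.ofHom φ) x} =
      supS w (dif A t φ) * supL w (Pt.ofHom φ) J := by
  obtain ⟨n, m, m', hm, hm', hs⟩ := hl.inv
  have h0 := hJ φ rfl
  obtain ⟨i, hi⟩ := locF_gen hl w hA hφ hm hm' hs
  obtain ⟨-, he, hne⟩ := locF_sup h hl w hA hφ h0 (hm i) (hm' i) hi
  have hpos : 0 < w.v (val (Pt.ofHom φ) (m i)) := pos_iff_ne_zero.mpr (by simpa using hne)
  have hne' : {r | ∃ x ∈ dif A t φ, r = w.v x}.Nonempty :=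
    ⟨_, _, ⟨0, zero_mem _, fun χ _ _ => (hasVal_zero _).val_eq, rfl⟩, rfl⟩
  have hbd : BddAbove {r | ∃ x ∈ dif A t φ, r = w.v x} := by
    refine ⟨1, ?_⟩
    rintro r ⟨x, ⟨u, hu, -, rfl⟩, rfl⟩
    exact RA_val_le hA (locF_red hφ) hu
  have hmap := (OrderIso.mulRight₀ _ hpos).map_csSup' hne' hbd
  rw [OrderIso.mulRight₀_apply] at hmap
  rw [he, supS, supS, hmap]
  congr 1
  ext r
  constructor
  · rintro ⟨c, ⟨x, hx, hχ, rfl⟩, rfl⟩
    refine ⟨_, ⟨_, ⟨m' i * x, hm' i x hx, fun χ h1 h2 => ?_, rfl⟩, rfl⟩, ?_⟩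
    · have := (hl.inv_hasVal h (hJ χ h1) (hm' i)).mul (hl.hasVal h (hJ χ h1) hx)
      rw [this.val_eq, hχ χ h1 h2, mul_zero]
    · rw [OrderIso.mulRight₀_apply, ← locF_val h hl w h0 (hm i) (hm' i) hi hx]
  · rintro ⟨_, ⟨_, ⟨u, hu, hχ, rfl⟩, rfl⟩, rfl⟩
    refine ⟨_, ⟨u * m i, hl.mul_mem u hu _ (hm i), fun χ h1 h2 => ?_, rfl⟩, ?_⟩
    · have := (RA_val (locF_top χ) hu).mul (hl.hasVal h (hJ χ h1) (hm i))
      rw [this.val_eq, hχ χ h1 h2, zero_mul]
    · have := (RA_val (locF_top φ) hu).mul (hl.hasVal h h0 (hm i))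
      rw [OrderIso.mulRight₀_apply, this.val_eq, map_mul]

theorem dif_shift (h : FF k t) (P : PD k θ) (hA : ∀ g : GG k θ, ∀ c ∈ A, g.1 c ∈ A)
    {φ φ' : E →ₐ[k] L} (hφ : φ t = θ) (hφ' : φ' t = θ) :
    Ifin (fun v η => Real.log (supS (P.W v η) (dif A t φ))) =
      Ifin (fun v η => Real.log (supS (P.W v η) (dif A t φ'))) := by
  obtain ⟨g, hg⟩ := exists_GG P h hφ hφ'
  have hg' : tw (g⁻¹ : GG k θ).1 φ' = φ := by
    rw [← hg]
    ext a
    exact g.1.symm_apply_apply (φ a)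
  rw [← Ifin_shift (fun v η => Real.log (supS (P.W v η) (dif A t φ))) g]
  refine Ifin_congr fun π η => ?_
  rw [← P.W_comap]
  congr 2
  unfold supS
  congr 1
  ext r
  constructor
  · rintro ⟨c, hc, rfl⟩
    exact ⟨g.1 c, locF_dif (hA g) hg hc, rfl⟩
  · rintro ⟨c, hc, rfl⟩
    refine ⟨(g⁻¹ : GG k θ).1 c, locF_dif (hA g⁻¹) hg' hc, ?_⟩
    rw [GV.comap_v]
    congr 1
    exact (g.1.apply_symm_apply c).symm

end Pool.Agent.FFC
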