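import Pool.Agent.P.MP_a2beea_nt.FC.DetB
import Pool.Agent.P.MP_a2beea_nt.FC.LocF

/-! The inverse different. The `k[t]`-span of the `e' a` is a nonzero fractional ideal of the Dedekind
domain `OO k t` (`DualB.mul`), hence invertible: `exists_diff`. `dif_mul_supL`:
`supL = max_a |φ (e' a)|`. For `c = r(φ) ∈ dif`, `r = ∑ Q_a(t) e a` (`RA_repr`),
`c φ(e' a) = ∑_χ r(χ) χ(e' a) = Q_a(φ t) ∈ A` (`DualB.orth'`). Conversely `φ (m' i) ∈ dif`: take
`r = ∑_a φ (m' i * e' a) ⊗ e a` and use `DualB.orth`; and `1 = ∑ φ (m' i) φ (m i)`.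
`Ifin_dif`: `loc_formula` for `J0`, `II_dI`, `II_eq`, `dI_J0_inf`; `dv J0` lives on the finite
constant points. `far_det_e`: `far_det` for `J0`, `det_mul_det`. -/

open Polynomial
open scoped TensorProduct NNReal IntermediateField

namespace Pool.Agent.FFC

open Classical

variable {k : Type*} [Field k] [Fintype k] {E : Type*} [Field E] [Algebra k E] {t : E}
  {L : Type*} [Field L] [Algebra k L] [IsAlgClosed L]
  [IsDomain (L ⊗[k] E)]
  [Nonempty (GV k L)]
  {θ : L}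
  {A : Subring L} {f : FL k E L} {I J : AddSubgroup (FL k E L)} {D : (E →ₐ[k] L) →₀ ℤ}
  {n : ℕ} {e e' : Fin n → E} {b : Fin n → FL k E L}

private theorem JZ_ded {R K : Type*} [CommRing R] [IsDedekindDomain R] [Field K] [Algebra R K]
    [IsFractionRing R K] {n : ℕ} (x : Fin n → K) (hx : ∃ a, x a ≠ 0) :
    ∃ m : Fin n → K, (∀ i a, ∃ r : R, algebraMap R K r = m i * x a) ∧ ∑ i, m i * x i = 1 := by
  let I : FractionalIdeal (nonZeroDivisors R) K :=
    ⟨Submodule.span R (Set.range x),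
      FractionalIdeal.isFractional_of_fg (Submodule.fg_span (Set.finite_range x))⟩
  have hmem : ∀ a, x a ∈ I := fun a => Submodule.subset_span ⟨a, rfl⟩
  have hI : I ≠ 0 := by
    obtain ⟨a, ha⟩ := hx
    intro h0
    have := hmem a
    rw [h0, FractionalIdeal.mem_zero_iff] at this
    exact ha this
  have h1 : (1 : K) ∈ (I : Submodule R K) * ((I⁻¹ : FractionalIdeal (nonZeroDivisors R) K) :
      Submodule R K) := by
    rw [← FractionalIdeal.coe_mul, mul_inv_cancel₀ hI]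
    exact FractionalIdeal.one_mem_one _
  have key : ∀ z ∈ (I : Submodule R K) * ((I⁻¹ : FractionalIdeal (nonZeroDivisors R) K) :
      Submodule R K), ∃ m : Fin n → K, (∀ i, m i ∈ ((I⁻¹ : FractionalIdeal (nonZeroDivisors R) K) :
      Submodule R K)) ∧ ∑ i, m i * x i = z := by
    intro z hz
    refine Submodule.mul_induction_on hz ?_ ?_
    · intro a ha b hb
      obtain ⟨c, rfl⟩ := (Submodule.mem_span_range_iff_exists_fun R).1 ha
      refine ⟨fun i => c i • b, fun i => Submodule.smul_mem _ _ hb, ?_⟩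
      rw [Finset.sum_mul]
      refine Finset.sum_congr rfl fun i _ => ?_
      rw [smul_mul_assoc, smul_mul_assoc, mul_comm]
    · rintro _ _ ⟨m, hm, rfl⟩ ⟨m', hm', rfl⟩
      refine ⟨m + m', fun i => add_mem (hm i) (hm' i), ?_⟩
      simp only [Pi.add_apply, add_mul, Finset.sum_add_distrib]
  obtain ⟨m, hm, hs⟩ := key 1 h1
  refine ⟨m, fun i a => ?_, hs⟩
  have h2 := (FractionalIdeal.mem_inv_iff hI).1 (hm i) (x a) (hmem a)
  exact (FractionalIdeal.mem_one_iff _).1 h2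

omit [Fintype k] [IsAlgClosed L] [IsDomain (L ⊗[k] E)] [Nonempty (GV k L)] in
private theorem JZ_ne (hd : DualB k t L e e') (a : Fin n) : e' a ≠ 0 := by
  simpa using hd.indep.ne_zero (a, 0)

omit [Fintype k] [IsAlgClosed L] [IsDomain (L ⊗[k] E)] [Nonempty (GV k L)] in
private theorem JZ_nonempty (hd : DualB k t L e e') : Nonempty (Fin n) := by
  obtain ⟨T, hT, -⟩ := hd.one
  by_contra h0
  rw [not_nonempty_iff] at h0
  simp at hT

omit [Fintype k] [IsAlgClosed L] [IsDomain (L ⊗[k] E)] [Nonempty (GV k L)] in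
private theorem JZ_diff (h : FF k t) (hd : DualB k t L e e') :
    ∃ m' : Fin n → E, (∀ i a, m' i * e' a ∈ OO k t) ∧ ∑ i, m' i * e' i = 1 := by
  have h1 := h.chart.ded.1
  have h2 := h.chart.ded.2.1
  obtain ⟨a0⟩ := JZ_nonempty hd
  obtain ⟨m, hm, hs⟩ := JZ_ded (R := P.MP_a2beea_nt.RR.Ou k t) e' ⟨a0, JZ_ne hd a0⟩
  refine ⟨m, fun i a => ?_, hs⟩
  obtain ⟨r, hr⟩ := hm i a
  rw [← hr, mem_OO_iff]
  exact r.2

/-- The functions which come from `E`. -/
private noncomputable def jzR (k : Type*) [Field k] (E : Type*) [Field E] [Algebra k E]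
    (L : Type*) [Field L] [Algebra k L] : E →+* FL k E L :=
  (algebraMap (L ⊗[k] E) (FL k E L)).comp
    (Algebra.TensorProduct.includeRight : E →ₐ[k] L ⊗[k] E).toRingHom

omit [Fintype k] [IsAlgClosed L] [IsDomain (L ⊗[k] E)] [Nonempty (GV k L)] in
private theorem jzR_apply (a : E) : jzR k E L a = tm 1 a := rfl

/-- Polynomials with coefficients in `A`. -/
private noncomputable def jzP (A : Subring L) : Subring L[X] := (mapRingHom A.subtype).range

omit [IsAlgClosed L] in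
private theorem mem_jzP {Q : L[X]} : Q ∈ jzP A ↔ ∀ i, Q.coeff i ∈ A := by
  have h1 : Q ∈ jzP A ↔ Q ∈ lifts A.subtype := by
    rw [mem_lifts]
    rfl
  rw [h1, lifts_iff_coeff_lifts]
  simp

/-- Evaluation at the coordinate function. -/
private noncomputable def jzE (k : Type*) [Field k] {E : Type*} [Field E] [Algebra k E] (t : E)
    (L : Type*) [Field L] [Algebra k L] : L[X] →+* FL k E L :=
  eval₂RingHom (tmL k E L) (tm 1 t)

omit [Fintype k] [IsAlgClosed L] [IsDomain (L ⊗[k] E)] [Nonempty (GV k L)] in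
private theorem jzE_apply (Q : L[X]) : jzE k t L Q = eval₂ (tmL k E L) (tm 1 t) Q := rfl

omit [Nonempty (GV k L)] in
private theorem jzE_map (P : k[X]) :
    jzE k t L (P.map (algebraMap k L)) = tm 1 (aeval t P) := by
  rw [jzE_apply, eval₂_map, ← jzR_apply (aeval t P), aeval_def, hom_eval₂, jzR_apply]
  congr 1
  ext c
  exact tm_alg c

omit [Nonempty (GV k L)] in
private theorem JZ_comb (P : Fin n → k[X]) (e : Fin n → E) :
    (tm 1 (∑ a, aeval t (P a) * e a) : FL k E L) =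
      ∑ a, jzE k t L ((P a).map (algebraMap k L)) * tm 1 (e a) := by
  rw [← jzR_apply, map_sum]
  refine Finset.sum_congr rfl fun a _ => ?_
  rw [map_mul, jzE_map, jzR_apply, jzR_apply]

omit [Nonempty (GV k L)] in
private theorem JZ_val_tm (y : E →ₐ[k] L) (c : L) (a : E) :
    HasVal (Pt.ofHom y) (tm c a) (c * y a) :=
  hasVal_tm (Pt.ofHom y) c (ValuationSubring.mem_top a)

omit [Fintype k] [IsAlgClosed L] [Nonempty (GV k L)] in
private theorem JZ_mem (a : Fin n) : (tm 1 (e' a) : FL k E L) ∈ J0 k A t e' :=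
  AddSubgroup.subset_closure ⟨1, one_mem _, a, (one_mul _).symm⟩

omit [Fintype k] [IsAlgClosed L] [Nonempty (GV k L)] in
private theorem JZ_repr {x : FL k E L} (hx : x ∈ J0 k A t e') :
    ∃ r : Fin n → FL k E L, (∀ a, r a ∈ RA k A t) ∧ x = ∑ a, r a * tm 1 (e' a) := by
  induction hx using AddSubgroup.closure_induction with
  | mem x hx =>
    obtain ⟨r, hr, a, rfl⟩ := hx
    refine ⟨Pi.single a r, fun b => ?_, ?_⟩
    · by_cases hb : b = a
      · rw [hb, Pi.single_eq_same]; exact hr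
      · rw [Pi.single_eq_of_ne hb]; exact zero_mem _
    · rw [Finset.sum_eq_single a (fun b _ hb => by rw [Pi.single_eq_of_ne hb, zero_mul])
        (fun h => absurd (Finset.mem_univ a) h), Pi.single_eq_same]
  | zero => exact ⟨0, fun _ => zero_mem _, by simp⟩
  | add x y _ _ hx hy =>
    obtain ⟨r, hr, rfl⟩ := hx
    obtain ⟨r', hr', rfl⟩ := hy
    refine ⟨r + r', fun a => add_mem (hr a) (hr' a), ?_⟩
    simp only [Pi.add_apply, add_mul, Finset.sum_add_distrib]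
  | neg x _ hx =>
    obtain ⟨r, hr, rfl⟩ := hx
    refine ⟨-r, fun a => neg_mem (hr a), ?_⟩
    simp only [Pi.neg_apply, neg_mul, Finset.sum_neg_distrib]

private theorem JZ_hasVal (y : E →ₐ[k] L) {r : Fin n → FL k E L} (hr : ∀ a, r a ∈ RA k A t) :
    HasVal (Pt.ofHom y) (∑ a, r a * tm 1 (e' a))
      (∑ a, val (Pt.ofHom y) (r a) * (1 * y (e' a))) :=
  HasVal.sum _ fun a _ => (RA_val (locF_top y) (hr a)).mul (JZ_val_tm y 1 (e' a))

private theorem JZ_dif_mul (h : FF k t) (hd : DualB k t L e e')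
    (hk : ∀ c : k, algebraMap k L c ∈ A) {φ : E →ₐ[k] L} (hφ : φ t ∈ A) {c : L}
    (hc : c ∈ dif A t φ) (a : Fin n) : φ (e' a) * c ∈ A := by
  obtain ⟨r, hr, h0, rfl⟩ := hc
  obtain ⟨Q, hQ, rfl⟩ := RA_repr hd hk hr
  have htr : Transcendental k (φ t) := fun ha =>
    h.trans ((isAlgebraic_algHom_iff φ φ.toRingHom.injective).1 ha)
  have hv : ∀ χ : E →ₐ[k] L, χ t = φ t →
      val (Pt.ofHom χ) (∑ b, eval₂ (tmL k E L) (tm 1 t) (Q b) * tm 1 (e b)) =
        ∑ b, (Q b).eval (φ t) * χ (e b) := by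
    intro χ hχ
    refine HasVal.val_eq (HasVal.sum _ fun b _ => ?_)
    have h1 := (hasVal_eval₂ (t := t) (locF_top χ) (Q b)).mul (JZ_val_tm χ 1 (e b))
    rwa [Pt.ofHom_ev, hχ, one_mul] at h1
  have hfin := hom_fibre_finite (L := L) h (φ t)
  have h1 : ∑ χ ∈ hfin.toFinset, χ (e' a) *
      val (Pt.ofHom χ) (∑ b, eval₂ (tmL k E L) (tm 1 t) (Q b) * tm 1 (e b)) =
      φ (e' a) * val (Pt.ofHom φ) (∑ b, eval₂ (tmL k E L) (tm 1 t) (Q b) * tm 1 (e b)) := by
    refine Finset.sum_eq_single φ (fun χ hχ hne => ?_) (fun hn => ?_)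
    · rw [h0 χ (hfin.mem_toFinset.1 hχ) hne, mul_zero]
    · exact absurd (hfin.mem_toFinset.2 rfl) hn
  have h2 : ∑ χ ∈ hfin.toFinset, χ (e' a) *
      val (Pt.ofHom χ) (∑ b, eval₂ (tmL k E L) (tm 1 t) (Q b) * tm 1 (e b)) =
      (Q a).eval (φ t) := by
    calc _ = ∑ χ ∈ hfin.toFinset, ∑ b, (Q b).eval (φ t) * (χ (e' a) * χ (e b)) := by
          refine Finset.sum_congr rfl fun χ hχ => ?_
          rw [hv χ (hfin.mem_toFinset.1 hχ), Finset.mul_sum]
          exact Finset.sum_congr rfl fun b _ => by ring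
      _ = ∑ b, (Q b).eval (φ t) * (if a = b then 1 else 0) := by
          rw [Finset.sum_comm]
          refine Finset.sum_congr rfl fun b _ => ?_
          rw [← Finset.mul_sum, ← hd.orth' h htr a b, finsum_mem_eq_finite_toFinset_sum _ hfin]
      _ = _ := by simp
  rw [← h1, h2, eval_eq_sum_range]
  exact sum_mem fun i _ => mul_mem (hQ a i) (pow_mem hφ i)

private theorem JZ_mem_dif (h : FF k t) (hd : DualB k t L e e') {φ : E →ₐ[k] L}
    (hφ : ∀ a ∈ OO k t, φ a ∈ A) {m : E} (hm : ∀ a, m * e' a ∈ OO k t) : φ m ∈ dif A t φ := by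
  have hv : ∀ χ : E →ₐ[k] L, χ t = φ t →
      val (Pt.ofHom χ) (∑ a, (tm (φ (m * e' a)) (e a) : FL k E L)) =
        φ m * if φ = χ then 1 else 0 := by
    intro χ hχ
    rw [← hd.orth h hχ.symm, Finset.mul_sum]
    refine HasVal.val_eq (HasVal.sum _ fun a _ => ?_)
    rw [← mul_assoc, ← map_mul]
    exact JZ_val_tm χ _ _
  refine ⟨∑ a, tm (φ (m * e' a)) (e a), sum_mem fun a _ => tm_mem_RA (hφ _ (hm a)) (hd.mem a),
    fun χ hχ hne => ?_, ?_⟩
  · rw [hv χ hχ, if_neg (Ne.symm hne), mul_zero]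
  · rw [hv φ rfl, if_pos rfl, mul_one]

theorem exists_diff (h : FF k t) (hd : DualB k t L e e') :
    ∃ (s : ℕ) (m m' : Fin s → E), (∀ i, ∃ P : Fin n → k[X], m i = ∑ a, aeval t (P a) * e' a) ∧
      (∀ i a, m' i * e' a ∈ OO k t) ∧ ∑ i, m' i * m i = 1 := by
  obtain ⟨m', h1, h2⟩ := JZ_diff h hd
  refine ⟨n, e', m', fun i => ⟨Pi.single i 1, ?_⟩, h1, h2⟩
  rw [Finset.sum_eq_single i (fun b _ hb => by rw [Pi.single_eq_of_ne hb, map_zero, zero_mul])
    (fun h => absurd (Finset.mem_univ i) h), Pi.single_eq_same, map_one, one_mul]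

theorem J0_lat (h : FF k t) (hd : DualB k t L e e') : Lat A t (J0 k A t e') := by
  obtain ⟨m', h1, h2⟩ := JZ_diff h hd
  refine ⟨fun r hr x hx => ?_, n, fun a => tm 1 (e' a), fun a => tm 1 (m' a), fun a => JZ_mem a,
    fun i x hx => ?_, ?_⟩
  · obtain ⟨s, hs, rfl⟩ := JZ_repr hx
    rw [Finset.mul_sum]
    refine sum_mem fun a _ => ?_
    rw [← mul_assoc]
    exact AddSubgroup.subset_closure ⟨_, mul_mem hr (hs a), a, rfl⟩
  · obtain ⟨s, hs, rfl⟩ := JZ_repr hx
    rw [Finset.mul_sum]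
    refine sum_mem fun a _ => ?_
    rw [mul_left_comm, tm_mul, one_mul]
    exact mul_mem (hs a) (tm_mem_RA (one_mem _) (h1 i a))
  · simp only [← jzR_apply, ← map_mul, ← map_sum, h2, map_one]

theorem J0_basis (h : FF k t) (hd : DualB k t L e e') (hk : ∀ c : k, algebraMap k L c ∈ A) :
    IsBasis A t (J0 k A t e') fun a => tm 1 (e' a) := by
  refine ⟨fun a => JZ_mem a, fun x hx => ⟨1, one_mem _, one_ne_zero, ?_⟩, fun Q hQ => ?_⟩
  · obtain ⟨s, hs, rfl⟩ := JZ_repr hx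
    choose Q hQ hQ' using fun a => RA_repr hd hk (hs a)
    choose M hM hM' using fun b => hd.mul (e b) (hd.mem b)
    refine ⟨fun c => ∑ a, ∑ b, Q a b * (M b a c).map (algebraMap k L), fun c => ?_, ?_⟩
    · refine mem_jzP.1 (sum_mem fun a _ => sum_mem fun b _ => mul_mem (mem_jzP.2 (hQ a b))
        (mem_jzP.2 fun i => ?_))
      rw [coeff_map]
      exact hk _
    · rw [tm_one, one_mul]
      simp only [← jzE_apply, map_sum, map_mul, Finset.sum_mul]
      rw [Finset.sum_comm]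
      refine Finset.sum_congr rfl fun a _ => ?_
      rw [hQ' a, Finset.sum_mul, Finset.sum_comm]
      refine Finset.sum_congr rfl fun b _ => ?_
      rw [mul_assoc, tm_mul, one_mul, hM' b a, JZ_comb, Finset.mul_sum]
      refine Finset.sum_congr rfl fun c _ => ?_
      rw [jzE_apply (Q a b), mul_assoc]
  · obtain ⟨w⟩ := ‹Nonempty (GV k L)›
    obtain ⟨N, hN⟩ : ∃ N : ℕ, ∀ c, (Q c).natDegree < N :=
      ⟨Finset.univ.sup (fun c => (Q c).natDegree) + 1, fun c =>
        Nat.lt_succ_of_le (Finset.le_sup (f := fun c => (Q c).natDegree) (Finset.mem_univ c))⟩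
    have h1 : algebraMap (L ⊗[k] E) (FL k E L) (∑ x ∈ Finset.univ ×ˢ Finset.range N,
        (Q x.1).coeff x.2 ⊗ₜ[k] (t ^ x.2 * e' x.1)) = 0 := by
      rw [← hQ, map_sum, Finset.sum_product]
      refine Finset.sum_congr rfl fun c _ => ?_
      rw [eval₂_eq_sum_range' _ (hN c), Finset.sum_mul]
      refine Finset.sum_congr rfl fun i _ => ?_
      rw [tmL_apply, ← jzR_apply t, ← map_pow, jzR_apply, tm_mul, tm_mul, mul_one, mul_one,
        one_mul]
      rfl
    rw [map_eq_zero_iff _ (IsFractionRing.injective (L ⊗[k] E) (FL k E L))] at h1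
    have h2 := gT_sum w (Finset.univ ×ˢ Finset.range N) hd.indep fun x => (Q x.1).coeff x.2
    rw [h1, (gT_eq_zero_iff w 0).2 rfl] at h2
    funext c
    ext i
    rw [Pi.zero_apply, coeff_zero]
    by_cases hi : i < N
    · have h3 := Finset.le_sup (f := fun x : Fin n × ℕ => w.v ((Q x.1).coeff x.2))
        (Finset.mem_product.2 ⟨Finset.mem_univ c, Finset.mem_range.2 hi⟩ :
          (c, i) ∈ Finset.univ ×ˢ Finset.range N)
      rw [← h2] at h3
      exact w.v.zero_iff.1 (le_antisymm h3 zero_le)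
    · exact coeff_eq_zero_of_natDegree_lt ((hN c).trans_le (not_lt.1 hi))

theorem J0_dv_ofHom (h : FF k t) (hd : DualB k t L e e') (y : E →ₐ[k] L) :
    dv t (J0 k A t e') (Pt.ofHom y) = 0 := by
  obtain ⟨a0⟩ := JZ_nonempty hd
  refine dv_eq_of (locF_top y) (fun x hx h0 => ?_)
    ⟨_, JZ_mem a0, tm_ne_zero one_ne_zero (JZ_ne hd a0), ord_tm_ofHom h y 1 _⟩
  obtain ⟨s, hs, rfl⟩ := JZ_repr hx
  exact (hasVal_iff h _ h0).1 ⟨_, JZ_hasVal y hs⟩

theorem J0_gaussL (h : FF k t) (hd : DualB k t L e e') (w : GV k L) (hA : ∀ c ∈ A, w.v c ≤ 1) :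
    gaussL w (J0 k A t e') = 1 := by
  obtain ⟨a0⟩ := JZ_nonempty hd
  have h1 : ∀ a, gauss w (tm 1 (e' a) : FL k E L) = 1 := fun a => by
    rw [tm, gauss_algebraMap, gT_tmul w 1 (JZ_ne hd a), map_one]
  refine IsGreatest.csSup_eq ⟨⟨_, JZ_mem a0, (h1 a0).symm⟩, ?_⟩
  rintro _ ⟨x, hx, rfl⟩
  suffices H : ∃ u : L ⊗[k] E, gT w u ≤ 1 ∧ x = algebraMap (L ⊗[k] E) (FL k E L) u by
    obtain ⟨u, hu, rfl⟩ := H
    rwa [gauss_algebraMap]
  induction hx using AddSubgroup.closure_induction with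
  | mem x hx =>
    obtain ⟨r, hr, a, rfl⟩ := hx
    obtain ⟨u, hu, rfl⟩ := RA_intT (O := ⊤) hA (fun _ => ValuationSubring.mem_top _)
      (ValuationSubring.mem_top _) hr
    refine ⟨u * (1 : L) ⊗ₜ[k] e' a, ?_, by rw [map_mul]; rfl⟩
    rw [gT_mul, gT_tmul w 1 (JZ_ne hd a), map_one, mul_one]
    exact hu.gT_le
  | zero => exact ⟨0, by rw [(gT_eq_zero_iff w 0).2 rfl]; exact zero_le, (map_zero _).symm⟩
  | add x y _ _ hx hy =>
    obtain ⟨u, hu, rfl⟩ := hx
    obtain ⟨u', hu', rfl⟩ := hy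
    exact ⟨u + u', (gT_add_le w u u').trans (max_le hu hu'), (map_add _ _ _).symm⟩
  | neg x _ hx =>
    obtain ⟨u, hu, rfl⟩ := hx
    exact ⟨-u, by rwa [gT_neg], (map_neg _ _).symm⟩

theorem dif_mul_supL (h : FF k t) (hd : DualB k t L e e') (hk : ∀ c : k, algebraMap k L c ∈ A)
    (w : GV k L) (hA : ∀ c ∈ A, w.v c ≤ 1) {φ : E →ₐ[k] L} (hφ : ∀ a ∈ OO k t, φ a ∈ A) :
    supS w (dif A t φ) * supL w (Pt.ofHom φ) (J0 k A t e') = 1 := by
  have ht : φ t ∈ A := hφ t (self_mem_OO t)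
  obtain ⟨s, hs⟩ := supL_spec h (J0_lat (A := A) h hd) (J0_dv_ofHom h hd φ)
  obtain ⟨-, hS, ⟨x, hx, hxS⟩, hle⟩ := hs w hA (hA _ ht)
  set S := supL w (Pt.ofHom φ) (J0 k A t e')
  have hup : ∀ c ∈ dif A t φ, w.v c * S ≤ 1 := by
    intro c hc
    obtain ⟨r, hr, rfl⟩ := JZ_repr hx
    rw [← hxS, (JZ_hasVal φ hr).val_eq, ← map_mul, Finset.mul_sum]
    refine hA _ (sum_mem fun a _ => ?_)
    rw [one_mul, mul_comm, mul_assoc]
    exact mul_mem (RA_val_mem hφ (hr a)) (JZ_dif_mul h hd hk ht hc a)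
  obtain ⟨m', h1, h2⟩ := JZ_diff h hd
  obtain ⟨i, hi⟩ : ∃ i, 1 ≤ w.v (φ (m' i)) * S := by
    by_contra hn
    push Not at hn
    have h3 : w.v (∑ i, φ (m' i) * φ (e' i)) < 1 := by
      refine w.v.map_sum_lt one_ne_zero fun i _ => lt_of_le_of_lt ?_ (hn i)
      have h4 := hle _ (JZ_mem i)
      rw [(JZ_val_tm φ 1 (e' i)).val_eq, one_mul] at h4
      rw [map_mul]
      exact mul_le_mul_right h4 _
    simp only [← map_mul, ← map_sum, h2, map_one, lt_self_iff_false] at h3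
  have hm := JZ_mem_dif h hd hφ (h1 i)
  have h5 : w.v (φ (m' i)) * S = 1 := le_antisymm (hup _ hm) hi
  have h6 : supS w (dif A t φ) = w.v (φ (m' i)) := by
    refine IsGreatest.csSup_eq ⟨⟨_, hm, rfl⟩, ?_⟩
    rintro _ ⟨c, hc, rfl⟩
    exact le_of_mul_le_mul_right ((hup c hc).trans hi) (pos_iff_ne_zero.2 hS)
  rw [h6, h5]

theorem dI_J0_inf (h : FF k t) (hd : DualB k t L e e') (w : GV k L) {y : E →ₐ[k] L}
    (hy : 1 < w.v (y t)) : dI w t (J0 k A t e') y = 0 := by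
  refine finsum_eq_zero_of_forall_eq_zero fun z => ?_
  by_cases hz : z.O = ⊤
  · obtain ⟨y', rfl⟩ := z.eq_ofHom hz
    rw [J0_dv_ofHom h hd, Int.cast_zero, zero_mul]
  · by_cases ht : t ∈ z.O
    · rw [ipt_of_red_ne, mul_zero]
      rw [red_const h w hz]
      intro he
      rw [← he, red_O, mem_redO] at ht
      exact absurd ht.2 (not_le.2 hy)
    · rw [dv, if_neg ht, Int.cast_zero, zero_mul]

theorem Ifin_dif (h : FF k t) {g : ℕ} (hR : RR0 k t g) (hd : DualB k t L e e') (P : PD k θ)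
    (hk : ∀ c : k, algebraMap k L c ∈ A) (hA : ∀ π η, ∀ c ∈ A, (P.W (some π) η).v c ≤ 1)
    {φ : E →ₐ[k] L} (hφθ : φ t = θ) (hφ : ∀ a ∈ OO k t, φ a ∈ A) :
    Ifin (fun v η => Real.log (supS (P.W v η) (dif A t φ))) =
      degL t (J0 k A t e') * (Real.log (Fintype.card k) / dg k t) := by
  have hl := J0_lat (A := A) h hd
  have h0 := J0_dv_ofHom (A := A) h hd φ
  have h1 : Ifin (fun v η => Real.log (supS (P.W v η) (dif A t φ))) =
      Ifin (fun v η => dI (P.W v η) t (J0 k A t e') φ) := by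
    refine Ifin_congr fun π η => ?_
    have h2 := loc_formula h hl (P.W (some π) η) (hA π η) (y := φ)
      (by rw [hφθ]; exact P.W_fin_le π η) h0
    rw [J0_gaussL h hd _ (hA π η), NNReal.coe_one, Real.log_one, neg_zero, zero_add] at h2
    rw [← h2, eq_inv_of_mul_eq_one_left (dif_mul_supL h hd hk _ (hA π η) hφ), NNReal.coe_inv,
      Real.log_inv]
  have h2 := II_eq (adm_dI h hl P φ)
  have h3 : (fun η => dI (P.W none η) t (J0 k A t e') φ) = fun _ => 0 := by
    funext η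
    refine dI_J0_inf h hd _ ?_
    rw [hφθ, P.W_inf]
    exact prod_one_lt_card
  have h4 : ∑ᶠ z : Pt k E L, (dv t (J0 k A t e') z : ℝ) * ht P t z = 0 := by
    refine finsum_eq_zero_of_forall_eq_zero fun z => ?_
    by_cases hz : z.O = ⊤
    · obtain ⟨y', rfl⟩ := z.eq_ofHom hz
      rw [J0_dv_ofHom h hd, Int.cast_zero, zero_mul]
    · rw [ht_const h P hz, mul_zero]
  have h5 : dvN t (J0 k A t e') = 0 := by
    ext y
    rw [hl.dvN_apply h, J0_dv_ofHom h hd, Finsupp.zero_apply]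
  rw [II_dI h hR hl P h0, h3, avg_const, zero_add, h4, h5, BB, Finsupp.sum_zero_index,
    ht_leg P hφθ, add_zero, sub_zero] at h2
  rw [h1, ← h2, degL]

theorem far_det_e (h : FF k t) (hd : DualB k t L e e') (hk : ∀ c : k, algebraMap k L c ∈ A)
    (w : GV k L) :
    ∃ κ : ℝ, ∀ c : L, 1 < w.v c → ∀ lg : Fin n → (E →ₐ[k] L), IsEnum t c lg →
      2 * Real.log (w.v (Matrix.of fun a a' => lg a (e a')).det) =
        κ - degL t (J0 k A t e') * Real.log (w.v c) := by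
  obtain ⟨κ, hκ⟩ := far_det h (J0_lat (A := A) h hd) hd (J0_basis h hd hk) w
  refine ⟨-κ, fun c hc lg hl => ?_⟩
  have htr : Transcendental k c := fun ha => absurd (w.alg_le ha) (not_le.2 hc)
  obtain ⟨-, h2⟩ := hκ c htr lg hl fun a => J0_dv_ofHom h hd _
  have h3 : (Matrix.of fun a a' => val (Pt.ofHom (lg a)) (tm 1 (e' a') : FL k E L)) =
      Matrix.of fun a a' => lg a (e' a') := by
    ext a a'
    rw [Matrix.of_apply, Matrix.of_apply, (JZ_val_tm (lg a) 1 (e' a')).val_eq, one_mul]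
  have h4 : ∑ a, dI w t (J0 k A t e') (lg a) = 0 := by
    refine Finset.sum_eq_zero fun a _ => dI_J0_inf h hd w ?_
    rwa [(hl.2 (lg a)).2 ⟨a, rfl⟩]
  have h5 : Real.posLog (w.v c) = Real.log (w.v c) := by
    refine Real.posLog_eq_log ?_
    rw [NNReal.abs_eq]
    exact_mod_cast hc.le
  rw [h3, h4, h5, eq_inv_of_mul_eq_one_right (det_mul_det h hd hl), map_inv₀, NNReal.coe_inv,
    Real.log_inv] at h2
  linarith

end Pool.Agent.FFC
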