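import Pool.Agent.P.MP_a2beea_nt.FC.SolM
import Pool.Agent.P.MP_a2beea_nt.FC.JZ
import Pool.Agent.P.MP_a2beea_nt.FC.Tate

/-! The determinant of the periods on the backward orbit. Let `lg` enumerate the legs
(`exists_enum`); `lg_i = tw (fr⁻¹ ^ i) ∘ lg` enumerates the points above `θ_i`. For `x ∈ I` and
`i ≥ 1`, `evS (j θ_i) (u x) = ∑_φ G i φ * j (x(φ_i))`: sum the hypothesis on `G` over the legs and
use `DualB.one`, `Cyc.eval₂` (or `DualB.orth'` for `x = e a * b c`). So with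
`U a c = u (e a * b c)`, `evS (j θ_i) (det U) = ∏ G i φ * j (det φ_i (e a)) * j (det (b c)(φ_i))`
(`tate_bound`, `conv_of_bound`, `evS_det`), which is nonzero (`far_det`, `det_mul_det`); so
`det U ≠ 0` and `sol_index` applies (the residue hypothesis follows from density and `GV.res`).
`log ‖j θ_i‖ = log q / q ^ i`. Combine with `far_det` for `I` (`Sht.gen`) and `far_det_e`. -/

set_option linter.unusedSectionVars false

open Polynomial
open scoped TensorProduct NNReal IntermediateField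

namespace Pool.Agent.FFC

open Classical

variable {k : Type*} [Field k] [Fintype k] {E : Type*} [Field E] [Algebra k E] {t : E}
  {L : Type*} [Field L] [Algebra k L] [IsAlgClosed L]
  [IsDomain (L ⊗[k] E)]
  [Nonempty (GV k L)]
  {θ : L}
  {C : Type*} [NormedField C] [IsUltrametricDist C] [CompleteSpace C]
  {A : Subring L} {f : FL k E L} {I : AddSubgroup (FL k E L)} {D : (E →ₐ[k] L) →₀ ℤ}
  [IsAlgClosed C] [Algebra k C] {n : ℕ} {e e' : Fin n → E} {b : Fin n → FL k E L}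

theorem BetF_enum {lg : Fin n → (E →ₐ[k] L)} (hl : IsEnum t θ lg) (g : L ≃ₐ[k] L) :
    IsEnum t (g θ) fun a => tw g (lg a) := by
  refine ⟨fun a a' e1 => hl.1 (AlgHom.ext fun x => g.injective (DFunLike.congr_fun e1 x)),
    fun y => ⟨fun hy => ?_, ?_⟩⟩
  · obtain ⟨a, ha⟩ := (hl.2 (tw g.symm y)).1 (by
      change g.symm (y t) = θ
      rw [hy, AlgEquiv.symm_apply_apply])
    refine ⟨a, ?_⟩
    change tw g (lg a) = y
    rw [ha]
    exact AlgHom.ext fun x => g.apply_symm_apply (y x)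
  · rintro ⟨a, rfl⟩
    change g (lg a t) = g θ
    rw [(hl.2 (lg a)).2 ⟨a, rfl⟩]

theorem BetF_pow {j : L →+* C} (hj : ‖j θ‖ = Fintype.card k) (i : ℕ) :
    ‖j (((fr k L)⁻¹ ^ i) θ)‖ ^ (Fintype.card k ^ i) = Fintype.card k := by
  rw [← norm_pow, ← map_pow, ← fr_pow_apply, ← AlgEquiv.mul_apply, inv_pow, mul_inv_cancel,
    AlgEquiv.one_apply, hj]

theorem BetF_one_lt {j : L →+* C} (hj : ‖j θ‖ = Fintype.card k) (i : ℕ) :
    1 < ‖j (((fr k L)⁻¹ ^ i) θ)‖ := by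
  have hq : (1 : ℝ) < Fintype.card k := by exact_mod_cast Fintype.one_lt_card
  by_contra h1
  have h2 := pow_le_one₀ (n := Fintype.card k ^ i) (norm_nonneg _) (not_lt.1 h1)
  rw [BetF_pow hj] at h2
  exact absurd hq (not_lt.2 h2)

theorem BetF_lt {j : L →+* C} (hj : ‖j θ‖ = Fintype.card k) {i : ℕ} (hi : 1 ≤ i) :
    ‖j (((fr k L)⁻¹ ^ i) θ)‖ < Fintype.card k := by
  have h1 := pow_lt_pow_right₀ (BetF_one_lt hj i)
    (Nat.one_lt_pow (by omega : i ≠ 0) (Fintype.one_lt_card (α := k)))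
  rwa [pow_one, BetF_pow hj] at h1

theorem BetF_log {j : L →+* C} (hj : ‖j θ‖ = Fintype.card k) (i : ℕ) :
    Real.log ‖j (((fr k L)⁻¹ ^ i) θ)‖ =
      Real.log (Fintype.card k) / (Fintype.card k : ℝ) ^ i := by
  have hq : (0 : ℝ) < Fintype.card k := by exact_mod_cast Fintype.card_pos
  have h1 := congrArg Real.log (BetF_pow hj i)
  rw [Real.log_pow, Nat.cast_pow] at h1
  rw [eq_div_iff (pow_pos hq i).ne', ← h1, mul_comm]

theorem BetF_small {j : L →+* C} (hj : ‖j θ‖ = Fintype.card k) {ρ : ℝ} (hρ : 1 < ρ) :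
    ∃ i0 : ℕ, ∀ i, i0 ≤ i → ‖j (((fr k L)⁻¹ ^ i) θ)‖ ≤ ρ := by
  have hq : (1 : ℝ) < Fintype.card k := by exact_mod_cast Fintype.one_lt_card
  have h1 : Filter.Tendsto (fun i : ℕ => Real.log (Fintype.card k) / (Fintype.card k : ℝ) ^ i)
      Filter.atTop (nhds 0) :=
    (tendsto_pow_atTop_atTop_of_one_lt hq).const_div_atTop _
  obtain ⟨i0, h2⟩ := Filter.eventually_atTop.1 (h1.eventually (gt_mem_nhds (Real.log_pos hρ)))
  refine ⟨i0, fun i hi => ?_⟩
  have h3 := h2 i hi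
  rw [← BetF_log hj] at h3
  exact ((Real.log_lt_log_iff (zero_lt_one.trans (BetF_one_lt hj i))
    (zero_lt_one.trans hρ)).1 h3).le

theorem BetF_res {j : L →+* C} (hjk : ∀ c : k, j (algebraMap k L c) = algebraMap k C c)
    (w : GV k L) (hw : ∀ x, (w.v x : ℝ) = ‖j x‖) (hdense : DenseRange j) (x : C) (hx : ‖x‖ ≤ 1) :
    ∃ c : C, IsAlgebraic k c ∧ ‖x - c‖ < 1 := by
  obtain ⟨y, hy⟩ := Metric.denseRange_iff.1 hdense x 1 one_pos
  rw [dist_eq_norm] at hy
  have h1 : ‖j y‖ ≤ 1 := by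
    have h2 := IsUltrametricDist.norm_add_le_max x (-(x - j y))
    rw [norm_neg, show x + -(x - j y) = j y by ring] at h2
    exact h2.trans (max_le hx hy.le)
  obtain ⟨c, hc, h3⟩ := w.res y (by
    rw [← hw] at h1
    exact_mod_cast h1)
  refine ⟨j c, hc.algHom { j with commutes' := hjk }, ?_⟩
  have h4 : ‖j (y - c)‖ < 1 := by
    rw [← hw]
    exact_mod_cast h3
  have h5 := IsUltrametricDist.norm_add_le_max (x - j y) (j (y - c))
  rw [show x - j y + j (y - c) = x - j c by rw [map_sub]; ring] at h5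
  exact h5.trans_lt (max_lt hy h4)

theorem BetF_det {j : L →+* C} {c : C} {U : Matrix (Fin n) (Fin n) (PowerSeries C)}
    (hU : ∀ a a', Conv ‖c‖ (U a a')) {P V : Matrix (Fin n) (Fin n) L} {G : Fin n → C}
    (hG : ∀ l a', HasSum (fun m => (∑ a, j (P l a) * PowerSeries.coeff m (U a a')) * c ^ m)
      (G l * j (V l a'))) : j P.det * evS c U.det = (∏ l, G l) * j V.det := by
  have e1 : P.map j * U.map (evS c) = Matrix.diagonal G * V.map j := by
    ext l a'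
    rw [Matrix.diagonal_mul, Matrix.mul_apply]
    refine HasSum.unique ?_ (hG l a')
    have h1 := hasSum_sum (s := Finset.univ) fun a _ =>
      ((hU a a').hasSum le_rfl).mul_left (j (P l a))
    simpa only [Finset.sum_mul, mul_assoc, Matrix.map_apply] using h1
  have e2 := congrArg Matrix.det e1
  rw [Matrix.det_mul, Matrix.det_mul, Matrix.det_diagonal, ← evS_det hU le_rfl] at e2
  rw [j.map_det, j.map_det]
  exact e2

theorem betti_far (h : FF k t) (hS : Sht A t θ f I D) (hd : DualB k t L e e')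
    (hb : IsBasis A t I b) {j : L →+* C} (hjk : ∀ c : k, j (algebraMap k L c) = algebraMap k C c)
    {u : FL k E L → PowerSeries C} (hc : Cyc j A t f I u) (w : GV k L)
    (hw : ∀ x, (w.v x : ℝ) = ‖j x‖) (hθ : w.v θ = Fintype.card k) (hdense : DenseRange j)
    {Φ : Matrix (Fin n) (Fin n) L[X]} {c₀ : L} {m : ℕ} (hc₀ : c₀ ≠ 0)
    (hΦ : Φ.det = Polynomial.C c₀ * (X - Polynomial.C θ) ^ m)
    (hsol : ∀ a, (fun c => u (tm 1 (e a) * b c)) ∈ Sol k (Φ.map (Polynomial.map j)))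
    {idx : ℕ} (hidx : idx = (SpanK k fun a c => u (tm 1 (e a) * b c)).relIndex
      (Sol k (Φ.map (Polynomial.map j)))) :
    ∀ G : ℕ → (E →ₐ[k] L) → C,
      (∀ (i : ℕ) (φ : E →ₐ[k] L), 1 ≤ i → φ t = θ → ∀ x ∈ I,
        HasSum (fun m => (∑ a, j ((tw ((fr k L)⁻¹ ^ i) φ) (e' a)) *
            PowerSeries.coeff m (u (tm 1 (e a) * x))) * j ((tw ((fr k L)⁻¹ ^ i) φ) t) ^ m)
          (G i φ * j (val (Pt.ofHom (tw ((fr k L)⁻¹ ^ i) φ)) x))) →
      (∀ (i : ℕ) (φ : E →ₐ[k] L), φ t = θ → G i φ ≠ 0) →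
      idx ≠ 0 ∧ ∃ (κ : ℝ) (i0 : ℕ), ∀ i, i0 ≤ i →
        ∑ᶠ φ ∈ {φ : E →ₐ[k] L | φ t = θ},
            (Real.log ‖G i φ‖ - dI w t I (tw ((fr k L)⁻¹ ^ i) φ)) =
          κ - (degL t I - degL t (J0 k A t e') -
            Real.log idx / Real.log (Fintype.card k)) * Real.log (Fintype.card k) / (Fintype.card k : ℝ) ^ i := by
  intro G hG hG0
  have hq : (1 : ℝ) < Fintype.card k := by exact_mod_cast Fintype.one_lt_card
  have hj : ‖j θ‖ = Fintype.card k := by rw [← hw, hθ, NNReal.coe_natCast]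
  obtain ⟨lg, hl⟩ := exists_enum h hd hS.trans
  have hlt : ∀ a, lg a t = θ := fun a => (hl.2 (lg a)).2 ⟨a, rfl⟩
  have htr : ∀ i : ℕ, Transcendental k (((fr k L)⁻¹ ^ i) θ) := fun i h1 =>
    hS.trans ((isAlgebraic_algHom_iff ((fr k L)⁻¹ ^ i).toAlgHom ((fr k L)⁻¹ ^ i).injective).1 h1)
  obtain ⟨κ₁, h1⟩ := far_det h hS.lat hd hb w
  obtain ⟨κ₂, h2⟩ := far_det_e h hd hS.alg_mem w
  have hmem : ∀ a c, tm 1 (e a) * b c ∈ I := fun a c =>
    hS.lat.mul_mem _ (tm_mem_RA A.one_mem (hd.mem a)) _ (hb.mem c)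
  have key : ∀ i : ℕ, 1 ≤ i →
      j (Matrix.of fun l a => tw ((fr k L)⁻¹ ^ i) (lg l) (e' a)).det *
        evS (j (((fr k L)⁻¹ ^ i) θ)) (Matrix.of fun a c => u (tm 1 (e a) * b c)).det =
      (∏ l, G i (lg l)) *
        j (Matrix.of fun l c => val (Pt.ofHom (tw ((fr k L)⁻¹ ^ i) (lg l))) (b c)).det := by
    intro i hi
    refine BetF_det (fun a c => ?_) fun l c => ?_
    · obtain ⟨B, hB⟩ := (tate_bound h hS hc hj).1 _ (hmem a c)
      exact conv_of_bound hB (norm_nonneg _) (BetF_lt hj hi)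
    · have h3 := hG i (lg l) hi (hlt l) (b c) (hb.mem c)
      have h4 : tw ((fr k L)⁻¹ ^ i) (lg l) t = ((fr k L)⁻¹ ^ i) θ := congrArg _ (hlt l)
      rw [h4] at h3
      exact h3
  have far := fun (i : ℕ) (hi : 1 ≤ i) => h1 _ (htr i) _ (BetF_enum hl ((fr k L)⁻¹ ^ i))
    fun a => hS.gen (lg a) (hlt a) i hi
  have hne : ∀ i : ℕ, 1 ≤ i → (∏ l, G i (lg l)) *
      j (Matrix.of fun l c => val (Pt.ofHom (tw ((fr k L)⁻¹ ^ i) (lg l))) (b c)).det ≠ 0 :=
    fun i hi => mul_ne_zero (Finset.prod_ne_zero_iff.2 fun l _ => hG0 i (lg l) (hlt l))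
      ((map_ne_zero j).2 (far i hi).1)
  have hδ : (Matrix.of fun a c => u (tm 1 (e a) * b c)).det ≠ 0 := by
    intro h0
    have h3 := key 1 le_rfl
    rw [h0] at h3
    refine hne 1 le_rfl ?_
    rw [← h3]
    simp [evS]
  have hΦ' : (Φ.map (Polynomial.map j)).det =
      Polynomial.C (j c₀) * (X - Polynomial.C (j θ)) ^ m := by
    have h3 := (Polynomial.mapRingHom j).map_det Φ
    rw [hΦ] at h3
    refine Eq.trans h3.symm ?_
    simp
  obtain ⟨N, κ₀, ρ, hN, hρ, h3⟩ := sol_index (BetF_res hjk w hw hdense) (hj ▸ hq)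
    ((map_ne_zero j).2 hc₀) hΦ' hsol hδ
  rw [← hidx] at hN
  obtain ⟨i0, hi0⟩ := BetF_small hj hρ
  refine ⟨hN ▸ pow_ne_zero _ Fintype.card_ne_zero, κ₀ - κ₁ - κ₂, max i0 1, fun i hi => ?_⟩
  have hi1 : 1 ≤ i := (le_max_right _ _).trans hi
  have e0 : Real.log idx / Real.log (Fintype.card k) = N := by
    rw [hN, Nat.cast_pow, Real.log_pow, mul_div_assoc, div_self (Real.log_pos hq).ne', mul_one]
  have e1 := h3 _ (BetF_one_lt hj i) (hi0 i ((le_max_left _ _).trans hi))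
  have e2 := (far i hi1).2
  have e3 := h2 _ (by
    have h4 := BetF_one_lt hj i
    rw [← hw] at h4
    exact_mod_cast h4) _ (BetF_enum hl ((fr k L)⁻¹ ^ i))
  have e4 := congrArg (fun x => Real.log ‖j x‖) (det_mul_det h hd (BetF_enum hl ((fr k L)⁻¹ ^ i)))
  have e5 := congrArg (fun x => Real.log ‖x‖) (key i hi1)
  have n1 := hne i hi1
  have n2 := n1
  rw [← key i hi1] at n2
  have n3 := left_ne_zero_of_mul_eq_one (det_mul_det h hd (BetF_enum hl ((fr k L)⁻¹ ^ i)))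
  simp only [map_mul, norm_mul, map_one, norm_one, Real.log_one] at e4 e5
  rw [Real.log_mul (norm_ne_zero_iff.2 ((map_ne_zero j).2 n3))
    (norm_ne_zero_iff.2 (left_ne_zero_of_mul n2))] at e4
  rw [Real.log_mul (norm_ne_zero_iff.2 (left_ne_zero_of_mul n2))
    (norm_ne_zero_iff.2 (right_ne_zero_of_mul n2)),
    Real.log_mul (norm_ne_zero_iff.2 (left_ne_zero_of_mul n1))
    (norm_ne_zero_iff.2 (right_ne_zero_of_mul n1)), norm_prod,
    Real.log_prod fun l _ => norm_ne_zero_iff.2 (hG0 i (lg l) (hlt l))] at e5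
  simp only [hw] at e2 e3
  rw [Real.posLog_eq_log (by rw [abs_norm]; exact (BetF_one_lt hj i).le)] at e2
  rw [BetF_log hj] at e1 e2 e3
  rw [hl.finsum, Finset.sum_sub_distrib, e0, mul_div_assoc]
  linarith

end Pool.Agent.FFC
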