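import Pool.Agent.P.MP_a2beea_nt.FC.Inf1
import Pool.Agent.P.MP_a2beea_nt.FC.SolEv
import Pool.Agent.P.MP_a2beea_nt.FC.Defs5

/-! The values of the analytic function attached to a cycle. Follow the proof of `inf1`: put
`Λ x = evS (j c) (u x)` (`Conv.hasSum`) and apply `functional` to the lattice `N` over `A'`.
`IsG.step`: the `q`-th power map of `C` is a continuous ring homomorphism (`inf1_frob`);
`tm 1 (e a) * (f * σ x) = f * σ (tm 1 (e a) * x)`; evaluate at an `x ∈ I` with a nonzero value at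
the point of index `i + 1` (`Lat.exists_val_ne`, `HasVal.map`, `bk_succ`). -/

open Polynomial
open scoped TensorProduct NNReal IntermediateField

namespace Pool.Agent.FFC

open Classical

variable {k : Type*} [Field k] [Fintype k] {E : Type*} [Field E] [Algebra k E] {t : E}
  {L : Type*} [Field L] [Algebra k L] [IsAlgClosed L]
  [IsDomain (L ⊗[k] E)]
  [Nonempty (GV k L)]
  {θ : L}
  {A A' : Subring L} {f : FL k E L} {I J N : AddSubgroup (FL k E L)}
  {D : ℕ → (E →ₐ[k] L) →₀ ℤ} {p l b : ℕ} {y : E →ₐ[k] L}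
  {C : Type*} [NormedField C] [IsUltrametricDist C] [CompleteSpace C]
  {n : ℕ} {e e' : Fin n → E} {j : L →+* C} {u : FL k E L → PowerSeries C}

theorem exists_isG (h : FF k t) (hN : Lat A' t N) (hk : ∀ c : k, algebraMap k L c ∈ A')
    (hsub : A' ≤ A) (hle : N ≤ I) (hd : DualB k t L e e') (hc : Cyc j A t f I u) {c : L}
    (hc₀ : Transcendental k c) (hconv : ∀ x ∈ N, Conv ‖j c‖ (u x)) :
    (∀ z : E →ₐ[k] L, z t = c → dv t N (Pt.ofHom z) = 0 → ∃ G, IsG j t e e' N u z G) ∧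
      ∀ G : (E →ₐ[k] L) → C, (∀ z : E →ₐ[k] L, z t = c → IsG j t e e' N u z (G z)) →
        ∀ x ∈ N, HasSum (fun m => PowerSeries.coeff m (u x) * j c ^ m)
          (∑ᶠ z ∈ {z : E →ₐ[k] L | z t = c}, G z * j (val (Pt.ofHom z) x)) := by
  have hΛ : ∀ x ∈ N, HasSum (fun m => PowerSeries.coeff m (u x) * j c ^ m) (evS (j c) (u x)) :=
    fun x hx => (hconv x hx).hasSum le_rfl
  have h1A : (1 : L) ∈ A' := A'.one_mem
  have hea : ∀ a, ∀ x ∈ N, tm 1 (e a) * x ∈ N := fun a x hx =>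
    hN.mul_mem _ (tm_mem_RA h1A (hd.mem a)) x hx
  have hfun := functional h hN hk hd j hc₀ (fun x => evS (j c) (u x))
    (fun x hx y hy => by
      refine (hΛ _ (add_mem hx hy)).unique ?_
      rw [hc.add x (hle hx) y (hle hy)]
      simp only [map_add, add_mul]
      exact (hΛ x hx).add (hΛ y hy))
    (fun c' hcA x hx => by
      refine (hΛ _ (hN.mul_mem _ (tm_mem_RA hcA (one_mem _)) x hx)).unique ?_
      rw [hc.const c' (hsub hcA) x (hle hx)]
      simp only [PowerSeries.coeff_C_mul, mul_assoc]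
      exact (hΛ x hx).mul_left _)
    (fun x hx => by
      refine (hΛ _ (hN.mul_mem _ (tm_mem_RA h1A (self_mem_OO t)) x hx)).unique ?_
      rw [hc.tmul x (hle hx)]
      exact inf1_X_mul (hΛ x hx))
  have hs : ∀ z : E →ₐ[k] L, z t = c → ∀ x ∈ N, HasSum (fun m => (∑ a, j (z (e' a)) *
      PowerSeries.coeff m (u (tm 1 (e a) * x))) * j (z t) ^ m)
      (∑ a, j (z (e' a)) * evS (j c) (u (tm 1 (e a) * x))) := by
    intro z hz x hx
    rw [hz]
    simp only [Finset.sum_mul, mul_assoc]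
    exact hasSum_sum fun a _ => (hΛ _ (hea a x hx)).mul_left _
  refine ⟨fun z hz h0 => ?_, fun G hG x hx => ?_⟩
  · obtain ⟨G, hG⟩ := hfun.1 z hz h0
    refine ⟨G, fun x hx => ?_⟩
    rw [← hG x hx]
    exact hs z hz x hx
  · have h1 := hΛ x hx
    have h2 := hfun.2 x hx
    rw [h2] at h1
    refine Eq.subst (motive := fun s => HasSum _ s) ?_ h1
    exact finsum_mem_congr rfl fun z hz => (hs z hz x hx).unique (hG z hz x hx)

theorem IsG.step (h : FF k t) (hl : Lat A t I) (hf : f ≠ 0) (hd : DualB k t L e e')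
    (hc : Cyc j A t f I u) (hN : ∀ x ∈ I, f * mapF (fr k L) x ∈ N) {i : ℕ} {G₀ G₁ : C}
    (h0 : IsG j t e e' N u (tw ((fr k L)⁻¹ ^ i) y) G₀)
    (h1 : IsG j t e e' I u (tw ((fr k L)⁻¹ ^ (i + 1)) y) G₁)
    (hf0 : ord (Pt.ofHom (tw ((fr k L)⁻¹ ^ i) y)) f = 0)
    (hI : dv t I (Pt.ofHom (tw ((fr k L)⁻¹ ^ (i + 1)) y)) = 0) :
    G₀ * j (val (Pt.ofHom (tw ((fr k L)⁻¹ ^ i) y)) f) = G₁ ^ Fintype.card k := by
  have _ := hf
  obtain ⟨Fr, hFr⟩ := inf1_frob (k := k) j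
  have hFc : Continuous Fr := by
    rw [show (Fr : C → C) = fun x => x ^ Fintype.card k from funext hFr]
    exact continuous_pow _
  obtain ⟨x, hx, hx0⟩ := hl.exists_val_ne h hI
  have hea : ∀ a, tm 1 (e a) * x ∈ I := fun a =>
    hl.mul_mem _ (tm_mem_RA A.one_mem (hd.mem a)) x hx
  have hz : ∀ a : E, (tw ((fr k L)⁻¹ ^ i) y) a =
      (tw ((fr k L)⁻¹ ^ (i + 1)) y) a ^ Fintype.card k := fun a => (inf1_pow i (y a)).symm
  have h2 := (h1 x hx).map Fr hFc
  have h3 := h0 _ (hN x hx)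
  have h4 : HasVal (Pt.ofHom (tw ((fr k L)⁻¹ ^ i) y)) (f * mapF (fr k L) x)
      (val (Pt.ofHom (tw ((fr k L)⁻¹ ^ i) y)) f *
        val (Pt.ofHom (tw ((fr k L)⁻¹ ^ (i + 1)) y)) x ^ Fintype.card k) := by
    refine (hasVal_val h _ hf0.ge).mul ?_
    have := (hl.hasVal h hI hx).map (fr k L)
    rwa [bk_succ, fr_apply] at this
  have h5 : G₀ * j (val (Pt.ofHom (tw ((fr k L)⁻¹ ^ i) y)) (f * mapF (fr k L) x)) =
      Fr (G₁ * j (val (Pt.ofHom (tw ((fr k L)⁻¹ ^ (i + 1)) y)) x)) := by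
    refine h3.unique ?_
    refine Eq.subst (motive := fun s => HasSum s _) ?_ h2
    funext m
    rw [Function.comp_apply, map_mul, map_sum, map_pow]
    congr 1
    · refine Finset.sum_congr rfl fun a _ => ?_
      have e1 : tm 1 (e a) * (f * mapF (fr k L) x) = f * mapF (fr k L) (tm 1 (e a) * x) := by
        rw [map_mul, mapF_tm, map_one]
        ring
      rw [e1, hc.twist _ (hea a), map_mul, hz (e' a), map_pow, hFr, hFr]
    · rw [hz t, map_pow, hFr]
  rw [h4.val_eq, hFr, mul_pow, map_mul, map_pow, ← mul_assoc] at h5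
  exact mul_right_cancel₀ (pow_ne_zero _ ((map_ne_zero j).2 hx0)) h5

theorem norm_bk_lt (hp : 1 < p) (hl : p ^ l = Fintype.card k) (hb : b < l) (hθ : 1 < ‖j θ‖)
    {i : ℕ} (hi : 1 ≤ i) : ‖j (((fr k L)⁻¹ ^ i) (θ ^ p ^ b))‖ < ‖j θ‖ := by
  have hq : 1 < Fintype.card k := Fintype.one_lt_card
  have hpow : ∀ n : ℕ, ((fr k L)⁻¹ ^ n) θ ^ Fintype.card k ^ n = θ := by
    intro n
    induction n with
    | zero => simp
    | succ n ih => rw [pow_succ' (Fintype.card k), pow_mul, inf1_pow, ih]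
  have h1 : ‖j θ‖ = ‖j (((fr k L)⁻¹ ^ i) θ)‖ ^ Fintype.card k ^ i := by
    rw [← norm_pow, ← map_pow, hpow]
  have h2 : 1 < ‖j (((fr k L)⁻¹ ^ i) θ)‖ := by
    rw [h1] at hθ
    exact (one_lt_pow_iff_of_nonneg (norm_nonneg _) (by positivity)).1 hθ
  rw [map_pow, map_pow, norm_pow, h1]
  refine pow_lt_pow_right₀ h2 ?_
  calc p ^ b < p ^ l := Nat.pow_lt_pow_right hp hb
    _ = Fintype.card k ^ 1 := by rw [hl, pow_one]
    _ ≤ Fintype.card k ^ i := Nat.pow_le_pow_right (by omega) hi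

end Pool.Agent.FFC
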