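import Pool.Agent.P.MP_a2beea_nt.FC.Inf2
import Pool.Agent.P.MP_a2beea_nt.FC.Defs5

/-! Approximation by an algebraic function. `exists_GV_root`: the norm is a valuation; `triv` and
`res` follow from those of `w`. For `inf2b` use the valuation `w₀` of `exists_GV_root` and follow
the proof of `inf2` (`Inf2_approx`, `Inf2_choose` with `q := ρ` and any `1 ≤ s < ρ`, `s > 1`;
for large `i` we have `‖j (y_i t)‖ ≤ s` by `far_tendsto` for `tm 1 t`, whose Gauss norm is `1`). -/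

set_option linter.unusedSectionVars false

open Polynomial
open scoped TensorProduct NNReal IntermediateField

namespace Pool.Agent.FFC

open Classical

variable {k : Type*} [Field k] [Fintype k] {E : Type*} [Field E] [Algebra k E] {t : E}
  {L : Type*} [Field L] [Algebra k L] [IsAlgClosed L]
  [IsDomain (L ⊗[k] E)]
  [Nonempty (GV k L)]
  {θ : L}
  {A A' : Subring L} {f : FL k E L} {I J N : AddSubgroup (FL k E L)}
  {D : ℕ → (E →ₐ[k] L) →₀ ℤ} {p l b : ℕ} {y : E →ₐ[k] L}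
  {C : Type*} [NormedField C] [IsUltrametricDist C] [CompleteSpace C]
  {n : ℕ} {e e' : Fin n → E} {j : L →+* C} {u : FL k E L → PowerSeries C}

theorem exists_GV_root (w : GV k L) {s : ℕ} (hs : s ≠ 0) (hw : ∀ x, (w.v x : ℝ) = ‖j x‖ ^ s) :
    ∃ w₀ : GV k L, ∀ x, (w₀.v x : ℝ) = ‖j x‖ := by
  let v : Valuation L ℝ≥0 := (NormedField.valuation (K := C)).comap j
  have hv : ∀ x, (v x : ℝ) = ‖j x‖ := fun x => rfl
  refine ⟨⟨v, fun c hc h0 => ?_, fun x hx => ?_⟩, hv⟩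
  · have h1 := hw c
    rw [w.triv c hc h0, NNReal.coe_one] at h1
    rw [← NNReal.coe_inj, hv, NNReal.coe_one]
    exact (pow_eq_one_iff_of_nonneg (norm_nonneg _) hs).1 h1.symm
  · have h1 : ‖j x‖ ≤ 1 := by
      rw [← hv]
      exact_mod_cast hx
    have h2 : w.v x ≤ 1 := by
      rw [← NNReal.coe_le_coe, hw]
      exact pow_le_one₀ (norm_nonneg _) h1
    obtain ⟨c, hc, h3⟩ := w.res x h2
    refine ⟨c, hc, ?_⟩
    rw [← NNReal.coe_lt_coe, hw, NNReal.coe_one, pow_lt_one_iff_of_nonneg (norm_nonneg _) hs] at h3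
    rw [← NNReal.coe_lt_coe, hv]
    exact h3

theorem Inf2b_ne (hl : Lat A t I) (hk : ∀ c : k, algebraMap k L c ∈ A)
    (hd : DualB k t L e e') (hc : Cyc j A t f I u)
    {x : FL k E L} (hx : x ∈ I) (hu : u x ≠ 0) :
    ∃ a m, PowerSeries.coeff m (u (tm 1 (e a) * x)) ≠ 0 := by
  by_contra hne
  push Not at hne
  have hz : ∀ a, u (tm 1 (e a) * x) = 0 := fun a => PowerSeries.ext fun m => by
    rw [hne a m, map_zero]
  obtain ⟨T, hT, -⟩ := hd.one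
  have hmem : ∀ a, tm 1 (e a) * x ∈ I := fun a =>
    hl.mul_mem _ (tm_mem_RA (one_mem A) (hd.mem a)) x hx
  have hQ : ∀ a i, ((T a).map (algebraMap k L)).coeff i ∈ A := fun a i => by
    rw [coeff_map]
    exact hk _
  have hx' : x = ∑ a, eval₂ (tmL k E L) (tm 1 t) ((T a).map (algebraMap k L)) *
      (tm 1 (e a) * x) := by
    have h1 := congrArg (Inf2_tmR k E L) hT
    rw [map_one, map_sum] at h1
    conv_lhs => rw [← one_mul x, h1, Finset.sum_mul]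
    refine Finset.sum_congr rfl fun a _ => ?_
    rw [Inf2_eval₂, map_mul, mul_assoc]
    rfl
  apply hu
  rw [hx', Inf2_u_sum hc _ fun a => hl.mul_mem _ (eval₂_mem_RA (hQ a)) _ (hmem a)]
  refine Finset.sum_eq_zero fun a _ => ?_
  rw [hc.eval₂ hl (hQ a) (hmem a), hz a, mul_zero]

theorem Inf2b_main (h : FF k t) (hl : Lat A t I) (hk : ∀ c : k, algebraMap k L c ∈ A)
    (hd : DualB k t L e e') (hc : Cyc j A t f I u) {ρ : ℝ} (hρ : 1 < ρ)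
    (hbd : ∀ x ∈ I, ∃ B : ℝ, ∀ m, ‖PowerSeries.coeff m (u x)‖ * ρ ^ m ≤ B)
    (w : GV k L) (hw : ∀ x, (w.v x : ℝ) = ‖j x‖) (hdense : DenseRange j) :
    ∃ Γ : FL k E L, Γ ≠ 0 ∧ ∀ φ : E →ₐ[k] L, ∃ i0 : ℕ, ∀ i, i0 ≤ i →
      ord (Pt.ofHom (tw ((fr k L)⁻¹ ^ i) φ)) Γ = 0 ∧
        ∀ G, IsG j t e e' I u (tw ((fr k L)⁻¹ ^ i) φ) G →
          ‖G‖ = w.v (val (Pt.ofHom (tw ((fr k L)⁻¹ ^ i) φ)) Γ) := by
  obtain ⟨x, hx, hu⟩ := hc.ne
  have hx0 : x ≠ 0 := by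
    rintro rfl
    exact hu (Inf2_u_zero hc)
  have hmem : ∀ a, tm 1 (e a) * x ∈ I := fun a =>
    hl.mul_mem _ (tm_mem_RA (one_mem A) (hd.mem a)) x hx
  obtain ⟨a0, m0, h0⟩ := Inf2b_ne hl hk hd hc hx hu
  have hs0 : (1 : ℝ) < (1 + ρ) / 2 := by linarith
  have hs1 : (1 : ℝ) ≤ (1 + ρ) / 2 := hs0.le
  have hs2 : (1 + ρ) / 2 < ρ := by linarith
  obtain ⟨M, c, δ, hδ, hM, h3, h1, h2⟩ := Inf2_choose hdense
    (U := fun a m => PowerSeries.coeff m (u (tm 1 (e a) * x))) hs1 hs2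
    (fun a => hbd _ (hmem a)) h0
  set Γ' : FL k E L := algebraMap (L ⊗[k] E) (FL k E L)
    (∑ p ∈ (Finset.univ : Finset (Fin n)) ×ˢ Finset.range M,
      c p.1 p.2 ⊗ₜ[k] (t ^ p.2 * e' p.1)) with hΓ'
  have hg : 3 * δ ≤ (gauss w Γ' : ℝ) := by
    rw [hΓ', gauss_algebraMap, gT_sum w _ hd.indep fun p : Fin n × ℕ => c p.1 p.2]
    refine h3.trans ?_
    rw [← hw]
    have hm : (a0, m0) ∈ (Finset.univ : Finset (Fin n)) ×ˢ Finset.range M := by simpa using hM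
    exact_mod_cast Finset.le_sup (f := fun p : Fin n × ℕ => w.v (c p.1 p.2)) hm
  have hΓ0 : Γ' ≠ 0 := by
    intro hz
    have : gauss w (0 : FL k E L) = 0 := by
      rw [← map_zero (algebraMap (L ⊗[k] E) (FL k E L)), gauss_algebraMap,
        (gT_eq_zero_iff w 0).2 rfl]
    rw [hz, this] at hg
    simp only [NNReal.coe_zero] at hg
    linarith
  have hval : ∀ y : E →ₐ[k] L, val (Pt.ofHom y) Γ' =
      ∑ p ∈ (Finset.univ : Finset (Fin n)) ×ˢ Finset.range M,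
        c p.1 p.2 * (y t ^ p.2 * y (e' p.1)) := by
    intro y
    refine HasVal.val_eq ?_
    rw [hΓ', map_sum]
    refine HasVal.sum _ fun p _ => ?_
    have := hasVal_tm (Pt.ofHom y) (c p.1 p.2) (a := t ^ p.2 * e' p.1)
      (ValuationSubring.mem_top _)
    rwa [Pt.ofHom_ev, map_mul, map_pow] at this
  have he' : ∀ a, e' a ≠ 0 := fun a => by
    simpa using hd.indep.ne_zero (a, 0)
  refine ⟨Γ' * x⁻¹, mul_ne_zero hΓ0 (inv_ne_zero hx0), fun φ => ?_⟩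
  obtain ⟨ho1, ht1⟩ := far_tendsto h w hΓ0 φ
  obtain ⟨ho2, -⟩ := far_tendsto h w hx0 φ
  have hb1 : ∀ᶠ i : ℕ in Filter.atTop,
      2 * δ < (w.v (val (Pt.ofHom (tw ((fr k L)⁻¹ ^ i) φ)) Γ') : ℝ) :=
    ht1.eventually (lt_mem_nhds (by linarith))
  have hb2 : ∀ᶠ i : ℕ in Filter.atTop, ∀ a, ‖j ((tw ((fr k L)⁻¹ ^ i) φ) (e' a))‖ ≤ 2 := by
    refine Filter.eventually_all.2 fun a => ?_
    obtain ⟨-, ht⟩ := far_tendsto h w (tm_ne_zero (k := k) (one_ne_zero : (1 : L) ≠ 0) (he' a)) φ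
    have hg1 : gauss w (tm (1 : L) (e' a) : FL k E L) = 1 := by
      rw [tm, gauss_algebraMap, gT_tmul w _ (he' a), map_one]
    rw [hg1] at ht
    filter_upwards [ht.eventually (gt_mem_nhds (by norm_num : ((1 : ℝ≥0) : ℝ) < 2))] with i hi
    rw [(hasVal_tm _ 1 (ValuationSubring.mem_top (e' a))).val_eq, one_mul, Pt.ofHom_ev, hw] at hi
    exact hi.le
  have hb3 : ∀ᶠ i : ℕ in Filter.atTop, ‖j ((tw ((fr k L)⁻¹ ^ i) φ) t)‖ ≤ (1 + ρ) / 2 := by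
    have ht0 : t ≠ 0 := by
      rintro rfl
      exact h.trans isAlgebraic_zero
    obtain ⟨-, ht⟩ := far_tendsto h w (tm_ne_zero (k := k) (one_ne_zero : (1 : L) ≠ 0) ht0) φ
    have hg1 : gauss w (tm (1 : L) t : FL k E L) = 1 := by
      rw [tm, gauss_algebraMap, gT_tmul w _ ht0, map_one]
    rw [hg1] at ht
    filter_upwards [ht.eventually (gt_mem_nhds (hs0 : ((1 : ℝ≥0) : ℝ) < (1 + ρ) / 2))] with i hi
    rw [(hasVal_tm _ 1 (ValuationSubring.mem_top t)).val_eq, one_mul, Pt.ofHom_ev, hw] at hi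
    exact hi.le
  obtain ⟨i0, hi0⟩ := Filter.eventually_atTop.1
    (ho1.and (ho2.and (hb1.and (hb2.and hb3))))
  refine ⟨i0, fun i hi => ?_⟩
  obtain ⟨o1, o2, b1, b2, hτ⟩ := hi0 i hi
  refine ⟨by rw [ord_mul h _ hΓ0 (inv_ne_zero hx0), ord_inv h, o1, o2]; rfl, fun G hG => ?_⟩
  obtain ⟨cx, hcx0, hcx⟩ := (ord_eq_zero_iff h _ hx0).1 o2
  have hv := ((hasVal_val h _ o1.ge).mul (hcx.inv hcx0)).val_eq
  have key := Inf2_approx (c := fun a m => j (c a m)) hδ.le (by norm_num : (0 : ℝ) ≤ 2) h1 h2 b2 hτ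
    (hG x hx)
  have hj' : ∑ p ∈ (Finset.univ : Finset (Fin n)) ×ˢ Finset.range M,
      j (c p.1 p.2) * (j ((tw ((fr k L)⁻¹ ^ i) φ) t) ^ p.2 * j ((tw ((fr k L)⁻¹ ^ i) φ) (e' p.1))) =
      j (val (Pt.ofHom (tw ((fr k L)⁻¹ ^ i) φ)) Γ') := by
    rw [hval, map_sum]
    simp only [map_mul, map_pow]
  rw [hj', hcx.val_eq] at key
  rw [hw] at b1
  have hn : ‖G * j cx‖ = ‖j (val (Pt.ofHom (tw ((fr k L)⁻¹ ^ i) φ)) Γ')‖ := by
    have hlt := key.trans_lt b1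
    have := IsUltrametricDist.norm_add_eq_max_of_norm_ne_norm hlt.ne
    rwa [sub_add_cancel, max_eq_right hlt.le] at this
  have hjx : ‖j cx‖ ≠ 0 := norm_ne_zero_iff.2 ((map_ne_zero j).2 hcx0)
  rw [hv, hw, map_mul, map_inv₀, norm_mul, norm_inv, ← hn, norm_mul, mul_inv_cancel_right₀ hjx]

theorem inf2b (h : FF k t) (hl : Lat A t I) (hk : ∀ c : k, algebraMap k L c ∈ A)
    (hd : DualB k t L e e') (hc : Cyc j A t f I u) {ρ : ℝ} (hρ : 1 < ρ)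
    (hbd : ∀ x ∈ I, ∃ B : ℝ, ∀ m, ‖PowerSeries.coeff m (u x)‖ * ρ ^ m ≤ B)
    (w : GV k L) {s : ℕ} (hs : s ≠ 0) (hw : ∀ x, (w.v x : ℝ) = ‖j x‖ ^ s)
    (hdense : DenseRange j) :
    ∃ Γ : FL k E L, Γ ≠ 0 ∧ ∀ y : E →ₐ[k] L, ∃ i0 : ℕ, ∀ i, i0 ≤ i →
      ord (Pt.ofHom (tw ((fr k L)⁻¹ ^ i) y)) Γ = 0 ∧ ∀ G, IsG j t e e' I u (tw ((fr k L)⁻¹ ^ i) y) G →
        ‖G‖ ^ s = w.v (val (Pt.ofHom (tw ((fr k L)⁻¹ ^ i) y)) Γ) := by
  obtain ⟨w₀, hw₀⟩ := exists_GV_root w hs hw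
  obtain ⟨Γ, hΓ, H⟩ := Inf2b_main h hl hk hd hc hρ hbd w₀ hw₀ hdense
  refine ⟨Γ, hΓ, fun y => (H y).imp fun i0 hi0 i hi => ⟨(hi0 i hi).1, fun G hG => ?_⟩⟩
  rw [(hi0 i hi).2 G hG, hw₀, hw]

end Pool.Agent.FFC
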