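import Pool.Agent.P.MP_a2beea_nt.FC.SolM2
import Pool.Agent.P.MP_a2beea_nt.FC.BetF
import Pool.Agent.P.MP_a2beea_nt.FC.Inf1b
import Pool.Agent.P.MP_a2beea_nt.FC.Inf2b
import Pool.Agent.P.MP_a2beea_nt.FC.Add2

/-! The determinant of the periods on the backward orbit. Follow the proofs of `IsBasis.phi` (`DetB`)
and `betti_far` (`BetF`), with `θ ^ p ^ b` in place of `θ`; `log (w.v x) = s * log ‖j x‖`. The
roots of `det (Φ.map (map j)) = (det Φ).map j` are among the `j θ ^ p ^ a`, of norm `> 1`. -/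

set_option linter.unusedSectionVars false
set_option linter.unusedVariables false

open Polynomial
open scoped TensorProduct NNReal IntermediateField Matrix

namespace Pool.Agent.FFC

open Classical

variable {k : Type*} [Field k] [Fintype k] {E : Type*} [Field E] [Algebra k E] {t : E}
  {L : Type*} [Field L] [Algebra k L] [IsAlgClosed L]
  [IsDomain (L ⊗[k] E)]
  [Nonempty (GV k L)]
  {θ : L}
  {A A' : Subring L} {f : FL k E L} {I J N : AddSubgroup (FL k E L)}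
  {D : ℕ → (E →ₐ[k] L) →₀ ℤ} {p l b : ℕ} {y : E →ₐ[k] L}
  {C : Type*} [NormedField C] [IsUltrametricDist C] [CompleteSpace C]
  {n : ℕ} {e e' : Fin n → E} {j : L →+* C} {u : FL k E L → PowerSeries C}
  [IsAlgClosed C] [Algebra k C] {bs : Fin n → FL k E L}

theorem BetF2_pow (x : L) (i : ℕ) :
    ‖j (((fr k L)⁻¹ ^ i) x)‖ ^ (Fintype.card k ^ i) = ‖j x‖ := by
  rw [← norm_pow, ← map_pow, ← fr_pow_apply, ← AlgEquiv.mul_apply, inv_pow, mul_inv_cancel,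
    AlgEquiv.one_apply]

theorem BetF2_one_lt {x : L} (hx : 1 < ‖j x‖) (i : ℕ) : 1 < ‖j (((fr k L)⁻¹ ^ i) x)‖ := by
  by_contra h1
  have h2 := pow_le_one₀ (n := Fintype.card k ^ i) (norm_nonneg _) (not_lt.1 h1)
  rw [BetF2_pow] at h2
  exact absurd hx (not_lt.2 h2)

theorem BetF2_log (x : L) (i : ℕ) :
    Real.log ‖j (((fr k L)⁻¹ ^ i) x)‖ = Real.log ‖j x‖ / (Fintype.card k : ℝ) ^ i := by
  have hq : (0 : ℝ) < Fintype.card k := by exact_mod_cast Fintype.card_pos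
  have h1 := congrArg Real.log (BetF2_pow (k := k) (j := j) x i)
  rw [Real.log_pow, Nat.cast_pow] at h1
  rw [eq_div_iff (pow_pos hq i).ne', ← h1, mul_comm]

theorem BetF2_small {x : L} (hx : 1 < ‖j x‖) {ρ : ℝ} (hρ : 1 < ρ) :
    ∃ i0 : ℕ, ∀ i, i0 ≤ i → ‖j (((fr k L)⁻¹ ^ i) x)‖ ≤ ρ := by
  have hq : (1 : ℝ) < Fintype.card k := by exact_mod_cast Fintype.one_lt_card
  have h1 : Filter.Tendsto (fun i : ℕ => Real.log ‖j x‖ / (Fintype.card k : ℝ) ^ i)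
      Filter.atTop (nhds 0) :=
    (tendsto_pow_atTop_atTop_of_one_lt hq).const_div_atTop _
  obtain ⟨i0, h2⟩ := Filter.eventually_atTop.1 (h1.eventually (gt_mem_nhds (Real.log_pos hρ)))
  refine ⟨i0, fun i hi => ?_⟩
  have h3 := h2 i hi
  rw [← BetF2_log] at h3
  exact ((Real.log_lt_log_iff (zero_lt_one.trans (BetF2_one_lt hx i))
    (zero_lt_one.trans hρ)).1 h3).le

theorem BetF2_lev (hp : 1 < p) (hθ : 1 < ‖j θ‖) (a : ℕ) : 1 < ‖j (θ ^ p ^ a)‖ := by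
  rw [map_pow, norm_pow]
  exact one_lt_pow₀ hθ (pow_ne_zero _ (by omega))

theorem BetF2_roots (hp : 1 < p) (hθ : 1 < ‖j θ‖) {Φ : Matrix (Fin n) (Fin n) L[X]} {m : ℕ}
    (hΦ : Φ.det ∣ (∏ a ∈ Finset.range l, (X - Polynomial.C (θ ^ p ^ a))) ^ m) :
    (Φ.map (Polynomial.map j)).det ≠ 0 ∧
      ∀ β : C, (Φ.map (Polynomial.map j)).det.IsRoot β → 1 < ‖β‖ := by
  have h1 : (Φ.map (Polynomial.map j)).det ∣
      (∏ a ∈ Finset.range l, (X - Polynomial.C (j (θ ^ p ^ a)))) ^ m := by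
    have h2 := map_dvd (Polynomial.mapRingHom j) hΦ
    rw [RingHom.map_det, map_pow, map_prod] at h2
    simp only [map_sub, coe_mapRingHom, map_X, map_C] at h2
    exact h2
  refine ⟨ne_zero_of_dvd_ne_zero (pow_ne_zero _ (Finset.prod_ne_zero_iff.2 fun a _ =>
    X_sub_C_ne_zero _)) h1, fun β hβ => ?_⟩
  have h2 := hβ.dvd h1
  rw [IsRoot.def, eval_pow, eval_prod] at h2
  obtain ⟨a, -, ha⟩ := Finset.prod_eq_zero_iff.1 (pow_eq_zero_iff'.1 h2).1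
  rw [eval_sub, eval_X, eval_C, sub_eq_zero] at ha
  rw [ha]
  exact BetF2_lev hp hθ a

theorem IsBasis.phi2 (h : FF k t) (hS : Sht2 A t θ p l f I D) (hb : IsBasis A t I bs) :
    ∃ (Φ : Matrix (Fin n) (Fin n) L[X]) (m : ℕ),
      Φ.det ∣ (∏ a ∈ Finset.range l, (X - Polynomial.C (θ ^ p ^ a))) ^ m ∧
      ∀ c, f * mapF (fr k L) (bs c) = ∑ c', eval₂ (tmL k E L) (tm 1 t) (Φ c c') * bs c' := by
  choose Φ hΦ using fun c => detB_le hb (hS.le (mem_tauLat (f := f) (hb.mem c)))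
  have h1 : ∀ x ∈ I, f * mapF (fr k L) x ∈ detBSp k t fun a => f * mapF (fr k L) (bs a) := by
    intro x hx
    obtain ⟨Q, rfl⟩ := detB_le hb hx
    refine ⟨fun a => (Q a).map (fr k L : L →+* L), ?_⟩
    rw [map_sum, Finset.mul_sum]
    exact Finset.sum_congr rfl fun a _ => by rw [map_mul, detB_mapF, mul_left_comm]
  have h2 : tauLat A t f I ≤ detBSp k t fun a => f * mapF (fr k L) (bs a) := by
    refine (AddSubgroup.closure_le _).2 ?_
    rintro y ⟨r, hr, x, hx, rfl⟩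
    refine detB_sp_RA (fun a ha i => ?_) hr _ (h1 x hx)
    have := h1 _ (hS.lat.mul_mem _ (tm_mem_RA (one_mem A) ha) _ (hb.mem i))
    rwa [map_mul, mapF_tm, map_one, mul_left_comm] at this
  obtain ⟨N, hN⟩ := hS.pow
  choose Ψ hΨ using fun c => h2 (hN _ (hb.mem c))
  obtain ⟨P, hP⟩ : ∃ P : L[X], P = ∏ a ∈ Finset.range l, (X - Polynomial.C (θ ^ p ^ a)) :=
    ⟨_, rfl⟩
  have hev : detBEv k t L P = ∏ a ∈ Finset.range l, (tm 1 t - tm (θ ^ p ^ a) 1) := by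
    rw [hP, map_prod]
    exact Finset.prod_congr rfl fun a _ => by rw [map_sub, detB_ev_X, detB_ev_C]
  have h3 : Matrix.of Ψ * Matrix.of Φ = P ^ N • (1 : Matrix (Fin n) (Fin n) L[X]) := by
    refine Matrix.ext fun c => congrFun (detB_inj (ε := detBEv k t L) hb.indep
      (P := Ψ c ᵥ* Matrix.of Φ) ?_)
    have e1 : (P ^ N • (1 : Matrix (Fin n) (Fin n) L[X])) c = Pi.single c (P ^ N) := by
      funext a
      simp [Matrix.one_apply, Pi.single_apply, eq_comm]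
    rw [← detB_vm, e1, detB_single, map_pow, hev, hΨ]
    simp only [Matrix.of_apply, ← hΦ]
  have h4 := congrArg Matrix.det h3
  rw [Matrix.det_mul, Matrix.det_smul, Matrix.det_one, mul_one, ← pow_mul, hP] at h4
  exact ⟨Matrix.of Φ, _, Dvd.intro_left _ h4, hΦ⟩

theorem betti_far2 (h : FF k t) (hS : Sht2 A t θ p l f I D) (hd : DualB k t L e e')
    (hbs : IsBasis A t I bs) (hjk : ∀ c : k, j (algebraMap k L c) = algebraMap k C c)
    (hc : Cyc j A t f I u)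
    (w : GV k L) {s : ℕ} (hs : s ≠ 0) (hw : ∀ x, (w.v x : ℝ) = ‖j x‖ ^ s)
    (hθ : 1 < w.v θ) (hdense : DenseRange j)
    (hbd : ∀ x ∈ I, ∃ B : ℝ, ∀ m, ‖PowerSeries.coeff m (u x)‖ * ‖j θ‖ ^ m ≤ B)
    {Φ : Matrix (Fin n) (Fin n) L[X]} {m : ℕ}
    (hΦ : Φ.det ∣ (∏ a ∈ Finset.range l, (X - Polynomial.C (θ ^ p ^ a))) ^ m)
    (hsol : ∀ a, (fun c => u (tm 1 (e a) * bs c)) ∈ Sol k (Φ.map (Polynomial.map j)))
    {idx : ℕ} (hidx : idx = (SpanK k fun a c => u (tm 1 (e a) * bs c)).relIndex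
      (Sol k (Φ.map (Polynomial.map j)))) (hb : b < l) {G : ℕ → (E →ₐ[k] L) → C}
    (hG : ∀ y : E →ₐ[k] L, y t = θ ^ p ^ b → ∀ i, 1 ≤ i →
      IsG j t e e' I u (tw ((fr k L)⁻¹ ^ i) y) (G i y) ∧ G i y ≠ 0) :
    idx ≠ 0 ∧ ∃ (κ : ℝ) (i0 : ℕ), ∀ i, i0 ≤ i →
      ∑ᶠ y ∈ {y : E →ₐ[k] L | y t = θ ^ p ^ b},
          (s * Real.log ‖G i y‖ - dI w t I (tw ((fr k L)⁻¹ ^ i) y)) =
        κ - (degL t I - degL t (J0 k A t e') - Real.log idx / Real.log (Fintype.card k)) *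
          Real.log (w.v (θ ^ p ^ b)) / (Fintype.card k : ℝ) ^ i := by
  have hq : (1 : ℝ) < Fintype.card k := by exact_mod_cast Fintype.one_lt_card
  have hv : ∀ x, 1 < w.v x ↔ 1 < ‖j x‖ := fun x => by
    rw [← NNReal.coe_lt_coe, hw, NNReal.coe_one, one_lt_pow_iff_of_nonneg (norm_nonneg _) hs]
  have hlog : ∀ x, Real.log (w.v x) = s * Real.log ‖j x‖ := fun x => by rw [hw, Real.log_pow]
  have hj : 1 < ‖j θ‖ := (hv θ).1 hθ
  have hjb := BetF2_lev hS.one_lt hj b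
  have htb := lev_trans hS.trans hS.one_lt b
  obtain ⟨w₀, hw₀⟩ := exists_GV_root w hs hw
  obtain ⟨lg, hl⟩ := exists_enum h hd htb
  have hlt : ∀ a, lg a t = θ ^ p ^ b := fun a => (hl.2 (lg a)).2 ⟨a, rfl⟩
  have htr : ∀ i : ℕ, Transcendental k (((fr k L)⁻¹ ^ i) (θ ^ p ^ b)) := fun i h1 =>
    htb ((isAlgebraic_algHom_iff ((fr k L)⁻¹ ^ i).toAlgHom ((fr k L)⁻¹ ^ i).injective).1 h1)
  obtain ⟨κ₁, h1⟩ := far_det h hS.lat hd hbs w
  obtain ⟨κ₂, h2⟩ := far_det_e h hd hS.alg_mem w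
  have hmem : ∀ a c, tm 1 (e a) * bs c ∈ I := fun a c =>
    hS.lat.mul_mem _ (tm_mem_RA A.one_mem (hd.mem a)) _ (hbs.mem c)
  have hG0 : ∀ i, 1 ≤ i → ∀ a, G i (lg a) ≠ 0 := fun i hi a => (hG _ (hlt a) i hi).2
  have key : ∀ i : ℕ, 1 ≤ i →
      j (Matrix.of fun l a => tw ((fr k L)⁻¹ ^ i) (lg l) (e' a)).det *
        evS (j (((fr k L)⁻¹ ^ i) (θ ^ p ^ b)))
          (Matrix.of fun a c => u (tm 1 (e a) * bs c)).det =
      (∏ l, G i (lg l)) *
        j (Matrix.of fun l c => val (Pt.ofHom (tw ((fr k L)⁻¹ ^ i) (lg l))) (bs c)).det := by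
    intro i hi
    refine BetF_det (fun a c => ?_) fun l c => ?_
    · obtain ⟨B, hB⟩ := hbd _ (hmem a c)
      exact conv_of_bound hB (norm_nonneg _) (norm_bk_lt hS.one_lt hS.pow_eq hb hj hi)
    · have h3 := (hG _ (hlt l) i hi).1 (bs c) (hbs.mem c)
      have h4 : tw ((fr k L)⁻¹ ^ i) (lg l) t = ((fr k L)⁻¹ ^ i) (θ ^ p ^ b) :=
        congrArg _ (hlt l)
      rw [h4] at h3
      exact h3
  have far := fun (i : ℕ) (hi : 1 ≤ i) => h1 _ (htr i) _ (BetF_enum hl ((fr k L)⁻¹ ^ i))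
    fun a => hS.gen b hb (lg a) (hlt a) i hi
  have hne : ∀ i : ℕ, 1 ≤ i → (∏ l, G i (lg l)) *
      j (Matrix.of fun l c => val (Pt.ofHom (tw ((fr k L)⁻¹ ^ i) (lg l))) (bs c)).det ≠ 0 :=
    fun i hi => mul_ne_zero (Finset.prod_ne_zero_iff.2 fun l _ => hG0 i hi l)
      ((map_ne_zero j).2 (far i hi).1)
  have hδ : (Matrix.of fun a c => u (tm 1 (e a) * bs c)).det ≠ 0 := by
    intro h0
    have h3 := key 1 le_rfl
    rw [h0] at h3
    refine hne 1 le_rfl ?_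
    rw [← h3]
    simp [evS]
  obtain ⟨hΦ0, hΦ1⟩ := BetF2_roots hS.one_lt hj hΦ
  obtain ⟨N, κ₀, ρ, hN, hρ, h3⟩ := sol_index2 (BetF_res hjk w₀ hw₀ hdense) hΦ0 hΦ1 hsol hδ
  rw [← hidx] at hN
  obtain ⟨i0, hi0⟩ := BetF2_small (k := k) hjb hρ
  refine ⟨hN ▸ pow_ne_zero _ Fintype.card_ne_zero, s * κ₀ - κ₁ - κ₂, max i0 1, fun i hi => ?_⟩
  have hi1 : 1 ≤ i := (le_max_right _ _).trans hi
  have e0 : Real.log idx / Real.log (Fintype.card k) = N := by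
    rw [hN, Nat.cast_pow, Real.log_pow, mul_div_assoc, div_self (Real.log_pos hq).ne', mul_one]
  have hone := (hv _).2 (BetF2_one_lt (k := k) hjb i)
  have e1 := h3 _ (BetF2_one_lt hjb i) (hi0 i ((le_max_left _ _).trans hi))
  have e2 := (far i hi1).2
  have e3 := h2 _ hone _ (BetF_enum hl ((fr k L)⁻¹ ^ i))
  have e4 := congrArg (fun x => Real.log ‖j x‖) (det_mul_det h hd (BetF_enum hl ((fr k L)⁻¹ ^ i)))
  have e5 := congrArg (fun x => Real.log ‖x‖) (key i hi1)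
  have n1 := hne i hi1
  have n2 := n1
  rw [← key i hi1] at n2
  have n3 := left_ne_zero_of_mul_eq_one (det_mul_det h hd (BetF_enum hl ((fr k L)⁻¹ ^ i)))
  simp only [map_mul, norm_mul, map_one, norm_one, Real.log_one] at e4 e5
  rw [Real.log_mul (norm_ne_zero_iff.2 ((map_ne_zero j).2 n3))
    (norm_ne_zero_iff.2 (left_ne_zero_of_mul n2))] at e4
  rw [Real.log_mul (norm_ne_zero_iff.2 (left_ne_zero_of_mul n2))
    (norm_ne_zero_iff.2 (right_ne_zero_of_mul n2)),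
    Real.log_mul (norm_ne_zero_iff.2 (left_ne_zero_of_mul n1))
    (norm_ne_zero_iff.2 (right_ne_zero_of_mul n1)), norm_prod,
    Real.log_prod fun l _ => norm_ne_zero_iff.2 (hG0 i hi1 l)] at e5
  rw [Real.posLog_eq_log (by
    rw [NNReal.abs_eq]
    exact_mod_cast hone.le)] at e2
  simp only [hlog] at e2 e3
  rw [BetF2_log] at e1 e2 e3
  rw [hl.finsum, Finset.sum_sub_distrib, e0, ← Finset.mul_sum, hlog]
  linear_combination s * e1 - e2 - e3 + s * e4 - s * e5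

end Pool.Agent.FFC
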