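import Pool.Agent.P.MP_a2beea_nt.FC.Defs3

/-! Regularized sums. For a periodic sequence `(1 - T ^ F) C(T) = A(T) = ∑_{i<F} c (i+1) T ^ (i+1)`;
if `A(1) = 0` divide by `1 - T`: `Q = 1 + T + … + T ^ (F - 1)`, `A = (1 - T) A₁`,
`A₁(1) = -A'(1)`. `Reg.analytic`: divide `A` and `Q` by their gcd (`PowerSeries ℝ` is a domain) so
that they are coprime and put `Z s = A(q ^ (-s)) / Q(q ^ (-s))`. For `re s > 1` the series
converges absolutely at `T = q ^ (-s)`, its sum `Σ` satisfies `Q(T) Σ = A(T)` (finite linear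
combination of shifted series), and `Q(T) ≠ 0` by coprimality. `s ↦ Q(q ^ (-s))` is entire. -/

open Polynomial
open scoped TensorProduct NNReal IntermediateField

namespace Pool.Agent.FFC

open Classical


theorem Reg.congr {c c' : ℕ → ℝ} {v : ℝ} (h : Reg c v) (he : ∀ n, 1 ≤ n → c n = c' n) :
    Reg c' v := by
  obtain ⟨A, Q, h0, h1, h2, h3⟩ := h
  refine ⟨A, Q, h0, h1, ?_, h3⟩
  have : (fun n => c' (n + 1)) = fun n => c (n + 1) := by
    funext n
    exact (he (n + 1) (by omega)).symm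
  rw [this]
  exact h2

theorem Reg.add {c c' : ℕ → ℝ} {v v' : ℝ} (h : Reg c v) (h' : Reg c' v') :
    Reg (fun n => c n + c' n) (v + v') := by
  obtain ⟨A, Q, h0, h1, h2, h3⟩ := h
  obtain ⟨A', Q', h0', h1', h2', h3'⟩ := h'
  refine ⟨A * Q' + A' * Q, Q * Q', ?_, ?_, ?_, ?_⟩
  · rw [eval_mul]
    exact mul_ne_zero h0 h0'
  · rw [eval_mul]
    exact mul_ne_zero h1 h1'
  · have e : (PowerSeries.mk fun n => c (n + 1) + c' (n + 1)) =
        (PowerSeries.mk fun n => c (n + 1)) + PowerSeries.mk fun n => c' (n + 1) := by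
      ext n
      simp
    rw [e, Polynomial.coe_add, Polynomial.coe_mul, Polynomial.coe_mul, Polynomial.coe_mul,
      ← h2, ← h2']
    ring
  · rw [h3, h3', eval_add, eval_mul, eval_mul, eval_mul]
    field_simp

theorem Reg.const_mul {c : ℕ → ℝ} {v : ℝ} (h : Reg c v) (a : ℝ) :
    Reg (fun n => a * c n) (a * v) := by
  obtain ⟨A, Q, h0, h1, h2, h3⟩ := h
  refine ⟨C a * A, Q, h0, h1, ?_, ?_⟩
  · have e : (PowerSeries.mk fun n => a * c (n + 1)) =
        PowerSeries.C a * PowerSeries.mk fun n => c (n + 1) := by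
      ext n
      simp
    rw [e, Polynomial.coe_mul, Polynomial.coe_C, ← h2]
    ring
  · rw [h3, eval_mul, eval_C, mul_div_assoc]

theorem reg_geom {q : ℝ} (hq : q ≠ 1) : Reg (fun n => q ^ n) (q / (1 - q)) := by
  refine ⟨C q * X, 1 + C (-q) * X, by simp, ?_, ?_, ?_⟩
  · simp only [eval_add, eval_one, eval_mul, eval_C, eval_X, mul_one]
    intro h
    exact hq (by linarith)
  · have e : (PowerSeries.mk fun n => q ^ (n + 1)) =
        PowerSeries.C q + PowerSeries.C q * (PowerSeries.X * PowerSeries.mk fun n => q ^ (n + 1)) := by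
      ext n
      rcases n with _ | n
      · simp
      · rw [map_add, PowerSeries.coeff_C_mul, PowerSeries.coeff_succ_X_mul, PowerSeries.coeff_mk,
          PowerSeries.coeff_mk, PowerSeries.coeff_C]
        simp
        ring
    rw [Polynomial.coe_add, Polynomial.coe_mul, Polynomial.coe_mul, Polynomial.coe_C,
      Polynomial.coe_C, Polynomial.coe_X, Polynomial.coe_one, map_neg]
    set S : PowerSeries ℝ := PowerSeries.mk fun n => q ^ (n + 1) with hS
    linear_combination PowerSeries.X * e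
  · simp only [eval_add, eval_one, eval_mul, eval_C, eval_X, mul_one]
    ring

theorem reg_periodic {F : ℕ} (hF : 0 < F) {c : ℕ → ℝ} (hc : ∀ n, 1 ≤ n → c (n + F) = c n)
    (h0 : ∑ i ∈ Finset.range F, c (i + 1) = 0) : Reg c (regP F c) := by
  set A0 : ℝ[X] := ∑ i ∈ Finset.range F, monomial i (c (i + 1)) with hA0
  set S : PowerSeries ℝ := PowerSeries.mk fun n => c (n + 1) with hS
  have e1 : S - PowerSeries.X ^ F * S = (A0 : PowerSeries ℝ) := by
    ext n
    rw [map_sub, PowerSeries.coeff_X_pow_mul', Polynomial.coeff_coe, hA0, finset_sum_coeff]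
    simp only [coeff_monomial, Finset.sum_ite_eq', Finset.mem_range, hS, PowerSeries.coeff_mk]
    by_cases hn : F ≤ n
    · rw [if_pos hn, if_neg (by omega)]
      have := hc (n - F + 1) (by omega)
      rw [show n - F + 1 + F = n + 1 by omega] at this
      rw [this, sub_self]
    · rw [if_neg hn, if_pos (by omega), sub_zero]
  have hr : (X * A0).IsRoot 1 := by
    rw [IsRoot.def, eval_mul, hA0, eval_finset_sum]
    simp [h0]
  obtain ⟨A1, hA1⟩ := dvd_iff_isRoot.mpr hr
  have hd : A1.eval 1 = ∑ i ∈ Finset.range F, ((i : ℝ) + 1) * c (i + 1) := by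
    have h1 := congrArg (fun p => (derivative p).eval 1) hA1
    simp only [derivative_mul, derivative_X, derivative_sub, derivative_C, eval_add, eval_mul,
      eval_X, eval_sub, eval_C, sub_self, zero_mul, add_zero, one_mul, sub_zero] at h1
    rw [← h1, hA0, derivative_sum, eval_finset_sum, eval_finset_sum, ← Finset.sum_add_distrib]
    refine Finset.sum_congr rfl fun i _ => ?_
    rw [derivative_monomial, eval_monomial, eval_monomial]
    simp only [one_pow, mul_one]
    ring
  refine ⟨-A1, ∑ i ∈ Finset.range F, X ^ i, ?_, ?_, ?_, ?_⟩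
  · rw [eval_finset_sum]
    simp only [eval_pow, eval_X]
    rw [zero_geom_sum, if_neg hF.ne']
    exact one_ne_zero
  · rw [eval_finset_sum]
    simp only [eval_pow, eval_X, one_pow, Finset.sum_const, Finset.card_range, nsmul_eq_mul,
      mul_one]
    exact_mod_cast hF.ne'
  · have hne : ((X - C 1 : ℝ[X]) : PowerSeries ℝ) ≠ 0 := by
      rw [Ne, Polynomial.coe_eq_zero_iff]
      exact X_sub_C_ne_zero 1
    apply mul_left_cancel₀ hne
    have g1 : (X - C 1 : ℝ[X]) * ∑ i ∈ Finset.range F, X ^ i = X ^ F - 1 := by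
      rw [C_1, mul_geom_sum]
    have g2 := congrArg (fun p : ℝ[X] => (p : PowerSeries ℝ)) g1
    have g3 := congrArg (fun p : ℝ[X] => (p : PowerSeries ℝ)) hA1
    simp only [Polynomial.coe_mul, Polynomial.coe_X] at g2 g3
    have g4 : ((X ^ F - 1 : ℝ[X]) : PowerSeries ℝ) = PowerSeries.X ^ F - 1 := by
      simp
    have g5 : ((-A1 : ℝ[X]) : PowerSeries ℝ) = -(A1 : PowerSeries ℝ) := by
      simp
    rw [g4] at g2
    rw [g5, ← mul_assoc, g2]
    linear_combination (-PowerSeries.X) * e1 - g3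
  · rw [eval_neg, hd, eval_finset_sum]
    simp [regP]

theorem regP_add (F : ℕ) (c c' : ℕ → ℝ) :
    regP F (fun n => c n + c' n) = regP F c + regP F c' := by
  simp only [regP, mul_add, Finset.sum_add_distrib]
  ring

theorem regP_const_mul (F : ℕ) (a : ℝ) (c : ℕ → ℝ) :
    regP F (fun n => a * c n) = a * regP F c := by
  have : ∑ i ∈ Finset.range F, ((i : ℝ) + 1) * (a * c (i + 1)) =
      a * ∑ i ∈ Finset.range F, ((i : ℝ) + 1) * c (i + 1) := by
    rw [Finset.mul_sum]
    exact Finset.sum_congr rfl fun i _ => by ring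
  simp only [regP, this]
  ring

theorem regP_sum (F : ℕ) {ι : Type*} (s : Finset ι) (c : ι → ℕ → ℝ) :
    regP F (fun n => ∑ i ∈ s, c i n) = ∑ i ∈ s, regP F (c i) := by
  induction s using Finset.induction_on with
  | empty => simp [regP]
  | insert j s hj ih =>
    simp only [Finset.sum_insert hj]
    rw [regP_add, ih]

theorem regP_congr (F : ℕ) {c c' : ℕ → ℝ} (he : ∀ n, 1 ≤ n → c n = c' n) :
    regP F c = regP F c' := by
  have : ∑ i ∈ Finset.range F, ((i : ℝ) + 1) * c (i + 1) =
      ∑ i ∈ Finset.range F, ((i : ℝ) + 1) * c' (i + 1) :=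
    Finset.sum_congr rfl fun i _ => by rw [he (i + 1) (by omega)]
  simp only [regP, this]

/-- The series `f` converges at `T` with sum `z`. -/
private def EvS (T : ℂ) (f : PowerSeries ℝ) (z : ℂ) : Prop :=
  HasSum (fun n => ((PowerSeries.coeff n f : ℝ) : ℂ) * T ^ n) z

private theorem EvS.X_mul {T : ℂ} {f : PowerSeries ℝ} {z : ℂ} (h : EvS T f z) :
    EvS T (PowerSeries.X * f) (T * z) := by
  unfold EvS at h ⊢
  rw [← hasSum_nat_add_iff' 1]
  simp only [PowerSeries.coeff_succ_X_mul, Finset.range_one, Finset.sum_singleton,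
    PowerSeries.coeff_zero_X_mul, Complex.ofReal_zero, zero_mul, sub_zero]
  have e : (fun n => ((PowerSeries.coeff n f : ℝ) : ℂ) * T ^ (n + 1)) =
      fun n => T * (((PowerSeries.coeff n f : ℝ) : ℂ) * T ^ n) := by
    funext n
    ring
  rw [e]
  exact h.mul_left T

private theorem EvS.poly_mul {T : ℂ} (Q : ℝ[X]) {f : PowerSeries ℝ} {z : ℂ} (h : EvS T f z) :
    EvS T ((Q : PowerSeries ℝ) * f) (aeval T Q * z) := by
  induction Q using Polynomial.induction_on with
  | C a =>
    unfold EvS at h ⊢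
    rw [Polynomial.coe_C, aeval_C]
    simp only [PowerSeries.coeff_C_mul, Complex.ofReal_mul, mul_assoc]
    exact h.mul_left _
  | add p r hp hr =>
    unfold EvS at hp hr ⊢
    rw [Polynomial.coe_add, add_mul, map_add, add_mul]
    simp only [map_add, Complex.ofReal_add, add_mul]
    exact hp.add hr
  | monomial n a ih =>
    have := ih.X_mul
    have e1 : ((C a * X ^ (n + 1) : ℝ[X]) : PowerSeries ℝ) * f =
        PowerSeries.X * (((C a * X ^ n : ℝ[X]) : PowerSeries ℝ) * f) := by
      simp only [Polynomial.coe_mul, Polynomial.coe_pow, Polynomial.coe_X]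
      ring
    have e2 : aeval T (C a * X ^ (n + 1) : ℝ[X]) * z =
        T * (aeval T (C a * X ^ n : ℝ[X]) * z) := by
      simp only [map_mul, map_pow, aeval_X]
      ring
    rw [e1, e2]
    exact this

private theorem EvS.one (T : ℂ) : EvS T 1 1 := by
  unfold EvS
  have := hasSum_single (f := fun n => ((PowerSeries.coeff n (1 : PowerSeries ℝ) : ℝ) : ℂ) * T ^ n)
    0 (fun n hn => by simp [PowerSeries.coeff_one, hn])
  simpa using this

private theorem Reg.coprime {c : ℕ → ℝ} {v : ℝ} (h : Reg c v) :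
    ∃ A Q : ℝ[X], IsCoprime A Q ∧ Q.eval 1 ≠ 0 ∧
      (Q : PowerSeries ℝ) * (PowerSeries.X * PowerSeries.mk fun n => c (n + 1)) =
        (A : PowerSeries ℝ) ∧ v = A.eval 1 / Q.eval 1 := by
  obtain ⟨A, Q, -, h1, h2, h3⟩ := h
  have hQ : Q ≠ 0 := by
    rintro rfl
    exact h1 (by simp)
  have hg : GCDMonoid.gcd A Q ≠ 0 := fun h => hQ ((gcd_eq_zero_iff A Q).mp h).2
  have hA : GCDMonoid.gcd A Q * (A / GCDMonoid.gcd A Q) = A :=
    EuclideanDomain.mul_div_cancel' hg (GCDMonoid.gcd_dvd_left A Q)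
  have hQ' : GCDMonoid.gcd A Q * (Q / GCDMonoid.gcd A Q) = Q :=
    EuclideanDomain.mul_div_cancel' hg (GCDMonoid.gcd_dvd_right A Q)
  have hco : IsCoprime (A / GCDMonoid.gcd A Q) (Q / GCDMonoid.gcd A Q) :=
    isCoprime_div_gcd_div_gcd hQ
  generalize A / GCDMonoid.gcd A Q = A' at hA hco
  generalize Q / GCDMonoid.gcd A Q = Q' at hQ' hco
  generalize GCDMonoid.gcd A Q = g at hg hA hQ'
  subst hA hQ'
  rw [eval_mul] at h1
  refine ⟨A', Q', hco, right_ne_zero_of_mul h1, ?_, ?_⟩
  · have hne : ((g : ℝ[X]) : PowerSeries ℝ) ≠ 0 := by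
      rwa [Ne, Polynomial.coe_eq_zero_iff]
    apply mul_left_cancel₀ hne
    rw [Polynomial.coe_mul, Polynomial.coe_mul, mul_assoc] at h2
    exact h2
  · rw [h3, eval_mul, eval_mul, mul_div_mul_left _ _ (left_ne_zero_of_mul h1)]

theorem Reg.analytic {c : ℕ → ℝ} {v : ℝ} (h : Reg c v) {q : ℕ} (hq : 1 < q) {B : ℝ}
    (hB : ∀ n, 1 ≤ n → |c n| ≤ B * (q : ℝ) ^ n) :
    ∃ Z : ℂ → ℂ, MeromorphicOn Z Set.univ ∧ AnalyticAt ℂ Z 0 ∧ Z 0 = v ∧
      ∀ s : ℂ, 1 < s.re →
        HasSum (fun n : ℕ => (c (n + 1) : ℂ) * (q : ℂ) ^ (-((n + 1 : ℕ) : ℂ) * s)) (Z s) := by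
  obtain ⟨A, Q, hco, h1, h2, h3⟩ := h.coprime
  have hq0 : (q : ℂ) ≠ 0 := by exact_mod_cast (by omega : q ≠ 0)
  have hq1 : (1 : ℝ) < q := by exact_mod_cast hq
  have hT : Differentiable ℂ fun s : ℂ => (q : ℂ) ^ (-s) :=
    differentiable_id.neg.const_cpow (Or.inl hq0)
  have hP : ∀ (P : ℝ[X]) (x : ℂ), AnalyticAt ℂ (fun s : ℂ => aeval ((q : ℂ) ^ (-s)) P) x := by
    intro P x
    have : Differentiable ℂ fun s : ℂ => aeval s (P.map (algebraMap ℝ ℂ)) :=
      Polynomial.differentiable_aeval _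
    simp only [aeval_map_algebraMap] at this
    exact (this.comp hT).analyticAt x
  have hev : ∀ P : ℝ[X], aeval (1 : ℂ) P = ((P.eval 1 : ℝ) : ℂ) := by
    intro P
    have := aeval_algebraMap_apply ℂ (1 : ℝ) P
    simpa using this
  refine ⟨fun s => aeval ((q : ℂ) ^ (-s)) A / aeval ((q : ℂ) ^ (-s)) Q, ?_, ?_, ?_, ?_⟩
  · intro x _
    exact (hP A x).meromorphicAt.div (hP Q x).meromorphicAt
  · refine (hP A 0).div (hP Q 0) ?_
    rw [neg_zero, Complex.cpow_zero, hev]
    exact_mod_cast h1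
  · simp only [neg_zero, Complex.cpow_zero, hev, h3, Complex.ofReal_div]
  · intro s hs
    set T : ℂ := (q : ℂ) ^ (-s) with hTdef
    have hpow : ∀ n : ℕ, (q : ℂ) ^ (-((n + 1 : ℕ) : ℂ) * s) = T ^ (n + 1) := by
      intro n
      rw [hTdef, ← Complex.cpow_nat_mul]
      congr 1
      ring
    simp only [hpow]
    have hnorm : (q : ℝ) * ‖T‖ < 1 := by
      rw [hTdef, Complex.norm_natCast_cpow_of_pos (by omega), Complex.neg_re]
      have : (q : ℝ) * (q : ℝ) ^ (-s.re) = (q : ℝ) ^ (1 - s.re) := by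
        rw [sub_eq_add_neg, Real.rpow_add (by linarith), Real.rpow_one]
      rw [this]
      exact Real.rpow_lt_one_of_one_lt_of_neg hq1 (by linarith)
    have hsum : Summable fun n : ℕ => (c (n + 1) : ℂ) * T ^ n := by
      refine Summable.of_norm_bounded (g := fun n => (B * q) * ((q : ℝ) * ‖T‖) ^ n)
        ((summable_geometric_of_lt_one (by positivity) hnorm).mul_left _) fun n => ?_
      rw [norm_mul, norm_pow, Complex.norm_real, Real.norm_eq_abs, mul_pow]
      have := mul_le_mul_of_nonneg_right (hB (n + 1) (by omega)) (pow_nonneg (norm_nonneg T) n)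
      refine this.trans (le_of_eq ?_)
      ring
    obtain ⟨z, hz⟩ := hsum
    have e0 : EvS T (PowerSeries.mk fun n => c (n + 1)) z := by
      unfold EvS
      simpa only [PowerSeries.coeff_mk] using hz
    have e1 := e0.X_mul.poly_mul Q
    have e2 := (EvS.one T).poly_mul A
    rw [h2] at e1
    rw [mul_one, mul_one] at e2
    have e3 : aeval T Q * (T * z) = aeval T A := HasSum.unique e1 e2
    have hQ : aeval T Q ≠ 0 := by
      intro hQ
      obtain ⟨u, w, huw⟩ := hco
      have := congrArg (aeval T) huw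
      rw [hQ, zero_mul] at e3
      rw [map_add, map_mul, map_mul, hQ, ← e3, map_one] at this
      simp at this
    have e4 : aeval T A / aeval T Q = T * z := by
      rw [← e3, mul_div_cancel_left₀ _ hQ]
    change HasSum _ (aeval T A / aeval T Q)
    rw [e4]
    have e5 : (fun n : ℕ => (c (n + 1) : ℂ) * T ^ (n + 1)) =
        fun n : ℕ => T * ((c (n + 1) : ℂ) * T ^ n) := by
      funext n
      ring
    rw [e5]
    exact hz.mul_left T

/-- The recursion along the backward orbit at infinity. Comparing the recursion with the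
asymptotic form gives `(q - 1) g₀ = γ` (boundedness) and `e (i + 1) - e i = a i + b i` for large
`i`, hence for all `i`; go down to `B 1` and `B 0` and use Abel summation. -/
theorem seq_lemma {q : ℝ} (hq : 1 < q) {F : ℕ} (hF : 0 < F) {a b e B : ℕ → ℝ} {γ g₀ : ℝ}
    (ha : ∀ i, a (i + F) = a i) (hb : ∀ i, b (i + F) = b i) (he : ∀ i, e (i + F) = e i)
    (h0 : B 1 = B 0 + γ - b 0) (hr : ∀ i, 1 ≤ i → B (i + 1) = B i + q ^ i * γ - a i - b i)
    {i0 : ℕ} (hfar : ∀ i, i0 ≤ i → B i = q ^ i * g₀ - e i) :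
    B 0 = g₀ - (∑ i ∈ Finset.range F, (e i + a i)) / F + regP F a +
      regP F fun i => b (i - 1) := by
  have hF' : (F : ℝ) ≠ 0 := by exact_mod_cast hF.ne'
  have hq0 : 0 < q := by linarith
  have far : ∀ i, i0 + 1 ≤ i → q ^ i * ((q - 1) * g₀ - γ) = e (i + 1) - e i - a i - b i := by
    intro i hi
    have h1 := hr i (by omega)
    rw [hfar (i + 1) (by omega), hfar i (by omega)] at h1
    linear_combination h1
  have hδ : (q - 1) * g₀ - γ = 0 := by
    have h1 := far (i0 + 1) le_rfl
    have h2 := far (i0 + 1 + F) (by omega)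
    rw [show i0 + 1 + F + 1 = i0 + 1 + 1 + F by ring, he, he, ha, hb, ← h1, pow_add] at h2
    have h3 : q ^ (i0 + 1) * ((q ^ F - 1) * ((q - 1) * g₀ - γ)) = 0 := by
      linear_combination h2
    have h4 : q ^ F - 1 ≠ 0 := (sub_pos.mpr (one_lt_pow₀ hq hF.ne')).ne'
    exact (mul_eq_zero.mp ((mul_eq_zero.mp h3).resolve_left (pow_pos hq0 _).ne')).resolve_left h4
  have per : ∀ {u : ℕ → ℝ}, (∀ i, u (i + F) = u i) → ∀ m i, u (i + m * F) = u i := by
    intro u hu m
    induction m with
    | zero => intro i; simp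
    | succ m ih => intro i; rw [show i + (m + 1) * F = i + m * F + F by ring, hu, ih]
  have step : ∀ i, e (i + 1) = e i + a i + b i := by
    intro i
    have h1 := far (i + (i0 + 1) * F) (by nlinarith)
    rw [hδ, mul_zero, show i + (i0 + 1) * F + 1 = i + 1 + (i0 + 1) * F by ring, per he, per he,
      per ha, per hb] at h1
    linarith
  have down : ∀ i, B (i + 1) - (q ^ (i + 1) * g₀ - e (i + 1)) = B 1 - (q * g₀ - e 1) := by
    intro i
    induction i with
    | zero => simp
    | succ i ih =>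
      rw [hr (i + 1) (by omega), step (i + 1), ← ih]
      linear_combination (-q ^ (i + 1)) * hδ
  have hB1 : B 1 = q * g₀ - e 1 := by
    have := down i0
    rw [hfar (i0 + 1) (by omega), sub_self] at this
    linarith
  have abel : ∀ n : ℕ, ∑ i ∈ Finset.range n, (e i + a i) +
      ∑ i ∈ Finset.range n, ((i : ℝ) + 1) * a (i + 1) +
      ∑ i ∈ Finset.range n, ((i : ℝ) + 1) * b i = n * (e n + a n) := by
    intro n
    induction n with
    | zero => simp
    | succ n ih =>
      rw [Finset.sum_range_succ, Finset.sum_range_succ, Finset.sum_range_succ, step n]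
      push_cast
      linear_combination ih
  have h5 := abel F
  have h6 : e F = e 0 := by simpa using he 0
  have h7 : a F = a 0 := by simpa using ha 0
  have h8 := step 0
  rw [h6, h7] at h5
  have h9 : B 0 = g₀ - (e 0 + a 0) := by
    rw [zero_add] at h8
    linear_combination -h0 + hB1 + hδ - h8
  rw [h9]
  unfold regP
  simp only [Nat.add_sub_cancel]
  field_simp
  linear_combination h5

end Pool.Agent.FFC
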