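import Pool.Agent.P.MP_a2beea_nt.FC.LocF
import Pool.Agent.P.MP_a2beea_nt.FC.RegL

/-! Bookkeeping. `avg_cc`: at the place at infinity `red w φ` is a point at infinity and the
integrand is `∑_{x ∈ ∞} c x * ipt w φ x`; at the finite places `ipt w φ x = 0` for `x` at
infinity; so the mean of `ipt w φ x` at infinity is `ip φ x = ht φ` (`II_eq`, `ip_const`).
`book`: take the mean of `H` (`avg_regP`, `adm_cL`, `avg_cc`); by `loc_formula` the difference of
the `- log supL` at a finite place is the difference of the `dI`; add up with `II_eq`, `II_dI`,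
`ht_leg`. -/

open Polynomial
open scoped TensorProduct NNReal IntermediateField

namespace Pool.Agent.FFC

open Classical

variable {k : Type*} [Field k] [Fintype k] {E : Type*} [Field E] [Algebra k E] {t : E}
  {L : Type*} [Field L] [Algebra k L] [IsAlgClosed L]
  [IsDomain (L ⊗[k] E)]
  [Nonempty (GV k L)]
  {θ : L}
  {A : Subring L} {f : FL k E L} {I J : AddSubgroup (FL k E L)} {D : (E →ₐ[k] L) →₀ ℤ}

theorem avg_cc (h : FF k t) {g : ℕ} (hR : RR0 k t g) (P : PD k θ) (c : Pt k E L → ℝ)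
    {φ : E →ₐ[k] L} (hφ : φ t = θ) :
    Loc (fun η => c (red (P.W none η) (Pt.ofHom φ)) *
        ipt (P.W none η) (Pt.ofHom φ) (red (P.W none η) (Pt.ofHom φ))) ∧
      avg (fun η => c (red (P.W none η) (Pt.ofHom φ)) *
          ipt (P.W none η) (Pt.ofHom φ) (red (P.W none η) (Pt.ofHom φ))) =
        (∑ᶠ x ∈ {x : Pt k E L | t ∉ x.O}, c x) * ht P t (Pt.ofHom φ) := by
  have hS : ∀ x, x ∈ (inf_finite (L := L) h).toFinset ↔ t ∉ x.O := fun x => by
    rw [Set.Finite.mem_toFinset]; rfl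
  have htop : ∀ x : Pt k E L, t ∉ x.O → x.O ≠ ⊤ := fun x hx he =>
    hx (he ▸ ValuationSubring.mem_top t)
  have e : (fun η => c (red (P.W none η) (Pt.ofHom φ)) *
      ipt (P.W none η) (Pt.ofHom φ) (red (P.W none η) (Pt.ofHom φ))) =
      fun η => ∑ x ∈ (inf_finite (L := L) h).toFinset,
        c x * ipt (P.W none η) (Pt.ofHom φ) x := by
    funext η
    symm
    refine Finset.sum_eq_single _ (fun x hx hne => ?_) fun hx => ?_
    · rw [htc_ipt_ne h _ _ (htop x ((hS x).1 hx)) hne, mul_zero]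
    · refine absurd ((hS _).2 fun ht => ?_) hx
      have h1 := (mem_redO.1 ht).2
      rw [Pt.ofHom_ev, hφ, P.W_inf] at h1
      exact absurd prod_one_lt_card (not_lt.2 h1)
  have hL : ∀ x : Pt k E L, Loc fun η => ipt (P.W none η) (Pt.ofHom φ) x := fun x =>
    (adm_ipt h P (Pt.ofHom φ) x).1 none
  have hL' : ∀ x : Pt k E L, Loc fun η => c x * ipt (P.W none η) (Pt.ofHom φ) x := fun x =>
    (hL x).comp fun r => c x * r
  rw [e]
  refine ⟨Loc.sum _ fun x _ => hL' x, ?_⟩
  rw [avg_sum P _ fun x _ => hL' x, finsum_mem_eq_finite_toFinset_sum _ (inf_finite h),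
    Finset.sum_mul]
  refine Finset.sum_congr rfl fun x hx => ?_
  have hx' := (hS x).1 hx
  rw [avg_const_mul P (hL x), ← ip_const h hR P φ (htop x hx'), ip,
    II_eq (adm_ipt h P (Pt.ofHom φ) x)]
  have h0 : Ifin (fun v η => ipt (P.W v η) (Pt.ofHom φ) x) = 0 := by
    rw [Ifin_congr (Ψ := fun _ _ => 0) fun π η => ?_]
    · simp [Ifin, avg_const]
    · refine htc_ipt_ne h _ _ (htop x hx') ?_
      rintro rfl
      refine hx' (mem_redO.2 ⟨ValuationSubring.mem_top t, ?_⟩)
      rw [Pt.ofHom_ev, hφ]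
      exact P.W_fin_le π η
  rw [h0, add_zero]

theorem book (h : FF k t) {g : ℕ} (hR : RR0 k t g) (P : PD k θ) (hS : Sht A t θ f I D)
    (hA : ∀ π η, ∀ c ∈ A, (P.W (some π) η).v c ≤ 1) (F : ℕ) {φ φ' : E →ₐ[k] L}
    (hφ : φ t = θ) (hφ' : φ' t = θ) {α α' : GG k θ → ℝ} (hα : Loc α) (hα' : Loc α')
    (H : ∀ η, (α η - dI (P.W none η) t (tauLat A t f I) φ) - (α' η - dI (P.W none η) t (tauLat A t f I) φ') =
      TT (P.W none η) f F D φ - TT (P.W none η) f F D φ') :
    (avg α - Ifin fun v η => Real.log (supL (P.W v η) (Pt.ofHom φ) (tauLat A t f I))) -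
        (avg α' - Ifin fun v η => Real.log (supL (P.W v η) (Pt.ofHom φ') (tauLat A t f I))) =
      HH P t F D (dvN t (tauLat A t f I)) φ - HH P t F D (dvN t (tauLat A t f I)) φ' := by
  have hl := hS.lat.tau hS.ne
  have h0 := hS.gen0 φ hφ
  have h0' := hS.gen0 φ' hφ'
  generalize tauLat A t f I = J at hl h0 h0' H ⊢
  have hT : ∀ ψ : E →ₐ[k] L, ψ t = θ → Loc (fun η => TT (P.W none η) f F D ψ) ∧
      avg (fun η => TT (P.W none η) f F D ψ) = regP F (fun n => cI P D n ψ) +
        (∑ᶠ x ∈ {x : Pt k E L | t ∉ x.O}, cc f F x) * (Real.log (Fintype.card k) / dg k t) := by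
    intro ψ hψ
    obtain ⟨a1, a2⟩ := avg_regP P F (Φ := fun n η => cL (P.W none η) D n ψ)
      fun n => (adm_cL h P D n ψ).1 none
    obtain ⟨b1, b2⟩ := avg_cc h hR P (cc f F) hψ
    refine ⟨a1.comp₂ b1 fun x y => x + y, ?_⟩
    rw [← ht_leg P hψ, ← b2]
    exact (avg_add P a1 b1).trans (by rw [a2]; rfl)
  have d := adm_dI h hl P φ
  have d' := adm_dI h hl P φ'
  have e1 := congrArg avg (funext H)
  rw [avg_sub P (hα.comp₂ (d.1 none) fun x y => x - y) (hα'.comp₂ (d'.1 none) fun x y => x - y),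
    avg_sub P hα (d.1 none), avg_sub P hα' (d'.1 none), avg_sub P (hT φ hφ).1 (hT φ' hφ').1,
    (hT φ hφ).2, (hT φ' hφ').2] at e1
  have e2 := (II_eq d).symm.trans (II_dI h hR hl P h0)
  have e3 := (II_eq d').symm.trans (II_dI h hR hl P h0')
  rw [ht_leg P hφ] at e2
  rw [ht_leg P hφ'] at e3
  have e4 := Ifin_sub P (admF_supL h hl P hA hφ h0) (admF_supL h hl P hA hφ' h0')
  have e5 := Ifin_sub P d'.admF d.admF
  have e6 : Ifin (fun v η => Real.log (supL (P.W v η) (Pt.ofHom φ) J) -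
      Real.log (supL (P.W v η) (Pt.ofHom φ') J)) =
      Ifin (fun v η => dI (P.W v η) t J φ' - dI (P.W v η) t J φ) := by
    refine Ifin_congr fun π η => ?_
    have a1 := loc_formula h hl (P.W (some π) η) (hA π η) (y := φ)
      (by rw [hφ]; exact P.W_fin_le π η) h0
    have a2 := loc_formula h hl (P.W (some π) η) (hA π η) (y := φ')
      (by rw [hφ']; exact P.W_fin_le π η) h0'
    linarith only [a1, a2]
  simp only [HH]
  linarith only [e1, e2, e3, e4, e5, e6]

end Pool.Agent.FFC
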