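import Pool.Agent.P.MP_a2beea_nt.FC.HtC

/-! Principal divisors are in the kernel of the height pairing. Integrate `local_formula` with
`prod_formula`: `II (log gauss f) = ∑ ord_z f * ip y z` whenever `ord_y f = 0`. For a constant
point `y` outside the divisor (`const_infinite`) this is `∑ ord_z f * ht z` over non-constant `z`
(`ip_const`, `ip_const_const`). For non-constant `y` use `deg_zero` to get
`∑ ord_z f * kk z y = 0`. If `ord_y f = n ≠ 0` apply this to `f / (1 ⊗ t - y t ⊗ 1) ^ n`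
(`ord_sub`) and use the definition of `kp y y`. -/

open Polynomial
open scoped TensorProduct NNReal IntermediateField

namespace Pool.Agent.FFC

open Classical

variable {k : Type*} [Field k] [Fintype k] {E : Type*} [Field E] [Algebra k E] {t : E}
  {L : Type*} [Field L] [Algebra k L] [IsAlgClosed L]
  [IsDomain (L ⊗[k] E)]
  [Nonempty (GV k L)]
  {θ : L}

theorem lin_fin (h : FF k t) (f : FL k E L) :
    {y : E →ₐ[k] L | ord (Pt.ofHom y) f ≠ 0}.Finite :=
  Set.Finite.preimage (f := Pt.ofHom) Pt.ofHom_injective.injOn (ord_finite h f)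

theorem divN_apply (h : FF k t) (f : FL k E L) (y : E →ₐ[k] L) :
    divN f y = ord (Pt.ofHom y) f := by
  unfold divN
  rw [dif_pos (lin_fin h f)]
  rfl

theorem lin_supp (h : FF k t) (f : FL k E L) :
    (Function.support fun z : Pt k E L => (ord z f : ℝ)).Finite :=
  (ord_finite h f).subset fun z hz h0 => hz (by simp [h0])

theorem lin_supp_mul (h : FF k t) (f : FL k E L) (F : Pt k E L → ℝ) :
    (Function.support fun z : Pt k E L => (ord z f : ℝ) * F z).Finite :=
  (ord_finite h f).subset fun z hz h0 => hz (by simp [h0])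

theorem lin_supp_hom (h : FF k t) (f : FL k E L) (F : (E →ₐ[k] L) → ℝ) :
    (Function.support fun z : E →ₐ[k] L => (ord (Pt.ofHom z) f : ℝ) * F z).Finite :=
  (lin_fin h f).subset fun z hz h0 => hz (by simp [h0])

theorem II_gauss (h : FF k t) (P : PD k θ) {f : FL k E L} (hf : f ≠ 0) {y : Pt k E L}
    (hy : ord y f = 0) :
    II (fun v η => Real.log (gauss (P.W v η) f)) = ∑ᶠ z : Pt k E L, (ord z f : ℝ) * ip P y z := by
  have key := II_finsum P (lin_supp h f) (Φ := fun z v η => ipt (P.W v η) y z)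
    fun z => adm_ipt h P y z
  have e : (fun (v : Pl k) (η : GG k θ) => Real.log (gauss (P.W v η) f)) = fun v η =>
      Real.log ((P.W v η).v (val y f)) +
        ∑ᶠ z : Pt k E L, (ord z f : ℝ) * ipt (P.W v η) y z := by
    funext v η
    have := local_formula h (P.W v η) hf hy
    linarith
  rw [e, II_add P (adm_log P _) key.1, prod_formula, zero_add, key.2]
  rfl

theorem lin_gauss_ht (h : FF k t) {g : ℕ} (hR : RR0 k t g) (P : PD k θ) {f : FL k E L}
    (hf : f ≠ 0) :
    II (fun v η => Real.log (gauss (P.W v η) f)) = ∑ᶠ z : Pt k E L, (ord z f : ℝ) * ht P t z := by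
  obtain ⟨x, hx, hx0⟩ := (const_infinite (L := L) h).exists_notMem_finite (ord_finite h f)
  have hx1 : ord x f = 0 := by
    by_contra hn
    exact hx0 hn
  rw [II_gauss h P hf hx1]
  refine finsum_congr fun z => ?_
  congr 1
  by_cases hz : z.O = ⊤
  · obtain ⟨y, rfl⟩ := z.eq_ofHom hz
    rw [ip_comm, ip_const h hR P y hx.2]
  · rw [ip_const_const h P hx.2 hz, ht_const h P hz]

theorem lin_deg (h : FF k t) (f : FL k E L) (c : ℝ) :
    ∑ᶠ z : Pt k E L, (ord z f : ℝ) * c = 0 := by
  have h1 : ∑ᶠ z : Pt k E L, (ord z f : ℝ) = 0 := by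
    have := (Int.castAddHom ℝ).map_finsum (f := fun z : Pt k E L => ord z f) (ord_finite h f)
    rw [deg_zero h f, map_zero] at this
    exact this.symm
  rw [← finsum_mul, h1, zero_mul]

omit [Fintype k] [IsAlgClosed L] [IsDomain (L ⊗[k] E)] [Nonempty (GV k L)] in
theorem lin_hom_sum (F : Pt k E L → ℝ) (hF : ∀ z : Pt k E L, z ∉ Set.range Pt.ofHom → F z = 0)
    (hi : Function.Injective (Pt.ofHom : (E →ₐ[k] L) → Pt k E L)) :
    ∑ᶠ z : Pt k E L, F z = ∑ᶠ y : E →ₐ[k] L, F (Pt.ofHom y) := by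
  rw [← finsum_mem_range hi, finsum_mem_def]
  refine finsum_congr fun z => ?_
  by_cases hz : z ∈ Set.range (Pt.ofHom : (E →ₐ[k] L) → Pt k E L)
  · rw [Set.indicator_of_mem hz]
  · rw [Set.indicator_of_notMem hz, hF z hz]

theorem lin_zero (h : FF k t) {g : ℕ} (hR : RR0 k t g) (P : PD k θ) {f : FL k E L} (hf : f ≠ 0)
    {y : E →ₐ[k] L} (hy : ord (Pt.ofHom y) f = 0) :
    ∑ᶠ z : E →ₐ[k] L, (ord (Pt.ofHom z) f : ℝ) * kp P t z y = 0 := by
  have h1 := II_gauss h P hf hy
  have h2 := lin_gauss_ht h hR P hf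
  have h3 := lin_deg h f (ht P t (Pt.ofHom y))
  have h4 : ∑ᶠ z : Pt k E L, (ord z f : ℝ) *
      (ht P t (Pt.ofHom y) + ht P t z - ip P (Pt.ofHom y) z) = 0 := by
    simp only [mul_sub, mul_add]
    rw [finsum_sub_distrib, finsum_add_distrib (lin_supp_mul h f _) (lin_supp_mul h f _), h3,
      ← h1, ← h2, zero_add, sub_self]
    · simp only [← mul_add]
      exact lin_supp_mul h f _
    · exact lin_supp_mul h f _
  rw [lin_hom_sum _ _ Pt.ofHom_injective] at h4
  · rw [← h4]
    refine finsum_congr fun z => ?_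
    by_cases hz : z = y
    · rw [hz, hy]
      simp
    · congr 1
      unfold kp
      rw [if_neg hz, kk_comm]
      rfl
  · intro z hz
    have hz' : z.O ≠ ⊤ := by
      intro he
      obtain ⟨x, rfl⟩ := z.eq_ofHom he
      exact hz ⟨x, rfl⟩
    rw [ip_const h hR P y hz', ht_const h P hz']
    ring

theorem lin_sub (h : FF k t) (P : PD k θ) (y : E →ₐ[k] L) :
    ∑ᶠ z : E →ₐ[k] L, (ord (Pt.ofHom z) (tm 1 t - tm (y t) 1 : FL k E L) : ℝ) * kp P t z y =
      0 := by
  have hfin : {x : E →ₐ[k] L | x ≠ y ∧ x t = y t}.Finite :=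
    (hom_fibre_finite h (y t)).subset fun x hx => hx.2
  have e1 : ∑ᶠ z : E →ₐ[k] L,
      (ord (Pt.ofHom z) (tm 1 t - tm (y t) 1 : FL k E L) : ℝ) * kp P t z y =
      ∑ᶠ z ∈ insert y {x : E →ₐ[k] L | x ≠ y ∧ x t = y t}, kp P t z y := by
    rw [finsum_mem_def]
    refine finsum_congr fun z => ?_
    rw [ord_sub h]
    by_cases hz : z t = y t
    · have : z ∈ insert y {x : E →ₐ[k] L | x ≠ y ∧ x t = y t} := by
        by_cases he : z = y
        · exact Or.inl he
        · exact Or.inr ⟨he, hz⟩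
      rw [if_pos hz, Set.indicator_of_mem this]
      simp
    · have : z ∉ insert y {x : E →ₐ[k] L | x ≠ y ∧ x t = y t} := by
        rintro (he | he)
        · exact hz (by rw [he])
        · exact hz he.2
      rw [if_neg hz, Set.indicator_of_notMem this]
      simp
  rw [e1, finsum_mem_insert _ (fun hy => hy.1 rfl) hfin]
  have e2 : ∑ᶠ z ∈ {x : E →ₐ[k] L | x ≠ y ∧ x t = y t}, kp P t z y =
      ∑ᶠ z ∈ {x : E →ₐ[k] L | x ≠ y ∧ x t = y t}, kk P t y z := by
    refine finsum_mem_congr rfl fun z hz => ?_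
    unfold kp
    rw [if_neg hz.1, kk_comm]
  rw [e2]
  unfold kp
  rw [if_pos rfl, neg_add_cancel]

theorem lin_all (h : FF k t) {g : ℕ} (hR : RR0 k t g) (P : PD k θ) {f : FL k E L} (hf : f ≠ 0)
    (y : E →ₐ[k] L) :
    ∑ᶠ z : E →ₐ[k] L, (ord (Pt.ofHom z) f : ℝ) * kp P t z y = 0 := by
  set δ : FL k E L := tm 1 t - tm (y t) 1 with hδ
  set n : ℤ := ord (Pt.ofHom y) f with hn
  have hδ1 : ord (Pt.ofHom y) δ = 1 := ord_sub_self h y
  have hδ0 : δ ≠ 0 := by
    intro h0
    rw [h0, ord_zero] at hδ1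
    exact zero_ne_one hδ1
  have hp : δ ^ (-n) ≠ 0 := zpow_ne_zero _ hδ0
  have ho : ∀ z : Pt k E L, ord z (f * δ ^ (-n)) = ord z f + (-n) * ord z δ := fun z => by
    rw [ord_mul h z hf hp, ord_zpow h]
  have h1 := lin_zero h hR P (mul_ne_zero hf hp) (y := y) (by rw [ho, hδ1, ← hn]; ring)
  have h2 := lin_sub h P y
  rw [← hδ] at h2
  have h3 : ∑ᶠ z : E →ₐ[k] L, (ord (Pt.ofHom z) f : ℝ) * kp P t z y =
      ∑ᶠ z : E →ₐ[k] L, ((ord (Pt.ofHom z) (f * δ ^ (-n)) : ℝ) * kp P t z y +
        (n : ℝ) * ((ord (Pt.ofHom z) δ : ℝ) * kp P t z y)) := by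
    refine finsum_congr fun z => ?_
    rw [ho]
    push_cast
    ring
  rw [h3, finsum_add_distrib (lin_supp_hom h _ _), h1, ← mul_finsum, h2, mul_zero, add_zero]
  exact (lin_fin h δ).subset fun z hz h0 => hz (by simp [h0])

theorem BBm_divN (h : FF k t) {g : ℕ} (hR : RR0 k t g) (P : PD k θ) (f : FL k E L)
    (x : (E →ₐ[k] L) →₀ ℤ) : BBm P t (divN f) x = 0 := by
  by_cases hf : f = 0
  · have : divN f = (0 : (E →ₐ[k] L) →₀ ℤ) := by
      ext y
      rw [divN_apply h, hf, ord_zero]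
      rfl
    rw [this, map_zero, LinearMap.zero_apply]
  have key : ∀ y : E →ₐ[k] L, BBm P t (divN f) (Finsupp.single y 1) = 0 := by
    intro y
    rw [← lin_all h hR P hf y, BBm_apply]
    unfold BB
    rw [Finsupp.sum, finsum_eq_sum_of_support_subset (s := (divN f).support)]
    · refine Finset.sum_congr rfl fun z _ => ?_
      rw [Finsupp.sum_single_index (by simp), divN_apply h]
      simp
    · intro z hz
      rw [Finset.mem_coe, Finsupp.mem_support_iff, divN_apply h]
      intro h0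
      exact hz (by simp [h0])
  induction x using Finsupp.induction_linear with
  | zero => exact map_zero _
  | add a b ha hb => rw [map_add, ha, hb, add_zero]
  | single y c =>
    rw [← mul_one c, ← smul_eq_mul, ← Finsupp.smul_single, map_smul, key, smul_zero]

end Pool.Agent.FFC
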