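import Pool.Agent.P.MP_a2beea_nt.FC.Book
import Pool.Agent.P.MP_a2beea_nt.FC.Lin
import Pool.Agent.P.MP_a2beea_nt.FC.Defs4

/-! Bookkeeping, absolute form. `gaussL_tau`: `gaussL` is the largest Gauss norm of the `m i` of
`Lat.inv` (members of `RA` have Gauss norm `≤ 1`), so it is attained and nonzero;
`gaussL N = gauss f * gaussL I ^ q` (`gauss_fr`) and `gaussL N = gaussL I` because
`(t - θ) ^ n I ⊆ N ⊆ I` and `gauss (t - θ) = 1`. `II_gauss_f`: `II_gauss` at a constant point
outside the divisor gives `∑ ord z f * ht z`; use `Lat.dv_tau`, `ht_fr`, `Sht.type`,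
`Sht.dv_const`, `ht_const`, `ht_leg`. `sum_cc`: the sum of the orders of `f` at infinity is
`- degD D` by `deg_zero`, `Lat.dv_tau`, `degL_tau`. `bookA`: as `book`, with `loc_formula`,
`gaussL_tau`, `II_dI`, `avg_cc`, `avg_regP`. -/

open Polynomial
open scoped TensorProduct NNReal IntermediateField

namespace Pool.Agent.FFC

open Classical

variable {k : Type*} [Field k] [Fintype k] {E : Type*} [Field E] [Algebra k E] {t : E}
  {L : Type*} [Field L] [Algebra k L] [IsAlgClosed L]
  [IsDomain (L ⊗[k] E)]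
  [Nonempty (GV k L)]
  {θ : L}
  {A : Subring L} {f : FL k E L} {I J : AddSubgroup (FL k E L)} {D : (E →ₐ[k] L) →₀ ℤ}

theorem bookA_gauss_zero (w : GV k L) : gauss w (0 : FL k E L) = 0 := by
  rw [← map_zero (algebraMap (L ⊗[k] E) (FL k E L)), gauss_algebraMap, GaussAux.gT_zero]

theorem bookA_gauss_neg (w : GV k L) (x : FL k E L) : gauss w (-x) = gauss w x := by
  have : gauss w (-1 : FL k E L) = 1 := by
    rw [← map_one (algebraMap (L ⊗[k] E) (FL k E L)), ← map_neg, gauss_algebraMap, gT_neg,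
      GaussAux.gT_one]
  rw [← neg_one_mul, gauss_mul, this, one_mul]

theorem bookA_gauss_add (w : GV k L) (a b : FL k E L) :
    gauss w (a + b) ≤ max (gauss w a) (gauss w b) := by
  obtain ⟨x, y, hy, e⟩ := GaussAux.exists_frac a
  obtain ⟨x', y', hy', e'⟩ := GaussAux.exists_frac b
  have hc := gauss_ne_zero w (lf_ne (mul_ne_zero hy hy'))
  have e1 : a * algebraMap (L ⊗[k] E) (FL k E L) (y * y') =
      algebraMap (L ⊗[k] E) (FL k E L) (x * y') := by
    rw [map_mul, map_mul, ← mul_assoc, e]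
  have e2 : b * algebraMap (L ⊗[k] E) (FL k E L) (y * y') =
      algebraMap (L ⊗[k] E) (FL k E L) (x' * y) := by
    rw [map_mul, map_mul, ← e']; ring
  refine le_of_mul_le_mul_right ?_ (pos_iff_ne_zero.2 hc)
  rw [max_mul, ← gauss_mul, ← gauss_mul, ← gauss_mul, add_mul, e1, e2, ← map_add,
    gauss_algebraMap, gauss_algebraMap, gauss_algebraMap]
  exact gT_add_le w _ _

theorem bookA_gauss_pow (w : GV k L) (a : FL k E L) (n : ℕ) : gauss w (a ^ n) = gauss w a ^ n := by
  induction n with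
  | zero => rw [pow_zero, pow_zero, GaussAux.gauss_one]
  | succ n ih => rw [pow_succ, pow_succ, gauss_mul, ih]

theorem bookA_gauss_sum (w : GV k L) {ι : Type*} (s : Finset ι) (a : ι → FL k E L)
    (h : ∀ i ∈ s, gauss w (a i) < 1) : gauss w (∑ i ∈ s, a i) < 1 := by
  induction s using Finset.induction_on with
  | empty => rw [Finset.sum_empty, bookA_gauss_zero]; exact zero_lt_one
  | insert i s hi ih =>
    rw [Finset.sum_insert hi]
    exact (bookA_gauss_add w _ _).trans_lt (max_lt (h i (Finset.mem_insert_self _ _))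
      (ih fun j hj => h j (Finset.mem_insert_of_mem hj)))

theorem bookA_max (hl : Lat A t J) (w : GV k L) (hA : ∀ c ∈ A, w.v c ≤ 1) :
    ∃ m ∈ J, m ≠ 0 ∧ ∀ x ∈ J, gauss w x ≤ gauss w m := by
  obtain ⟨n, m, m', hm, hm', hs⟩ := hl.inv
  obtain ⟨i, hi⟩ : ∃ i, gauss w (m' i * m i) = 1 := by
    by_contra hn
    push Not at hn
    have := bookA_gauss_sum w Finset.univ (fun i => m' i * m i) fun i _ =>
      lt_of_le_of_ne (locF_gauss_le hA (hm' i _ (hm i))) (hn i)
    rw [hs, GaussAux.gauss_one] at this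
    exact lt_irrefl _ this
  refine ⟨m i, hm i, fun e => ?_, fun x hx => ?_⟩
  · rw [e, mul_zero, bookA_gauss_zero] at hi
    exact zero_ne_one hi
  · have ex : x * (m' i * m i) = m' i * x * m i := by ring
    have := congrArg (gauss w) ex
    rw [gauss_mul, hi, mul_one, gauss_mul] at this
    rw [this]
    exact mul_le_of_le_one_left' (locF_gauss_le hA (hm' i x hx))

theorem bookA_gauss_sub (h : FF k t) (w : GV k L) (c : L) :
    1 ≤ gauss w (tm 1 t - tm c 1 : FL k E L) := by
  have hli : LinearIndependent k ![t, 1] := by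
    refine LinearIndependent.pair_iff.2 fun s u hsu => ?_
    have h0 : (C s * X + C u : k[X]) = 0 := by
      by_contra hne
      refine h.trans ⟨_, hne, ?_⟩
      simpa [Algebra.smul_def] using hsu
    have h1 := congrArg (fun p : k[X] => p.coeff 1) h0
    have h2 := congrArg (fun p : k[X] => p.coeff 0) h0
    exact ⟨by simpa using h1, by simpa using h2⟩
  have e := gT_sum w Finset.univ hli ![1, -c]
  have e2 : (tm 1 t - tm c 1 : FL k E L) = algebraMap (L ⊗[k] E) (FL k E L)
      (∑ i, (![1, -c] : Fin 2 → L) i ⊗ₜ[k] (![t, 1] : Fin 2 → E) i) := by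
    simp [tm, Fin.sum_univ_two, TensorProduct.neg_tmul, sub_eq_add_neg]
  rw [e2, gauss_algebraMap, e]
  have := Finset.le_sup (f := fun i => w.v ((![1, -c] : Fin 2 → L) i)) (Finset.mem_univ 0)
  simpa using this

theorem gaussL_tau (h : FF k t) (hS : Sht A t θ f I D) (w : GV k L) (hA : ∀ c ∈ A, w.v c ≤ 1) :
    Real.log (gaussL w (tauLat A t f I)) = -(Real.log (gauss w f) / ((Fintype.card k : ℝ) - 1)) := by
  obtain ⟨m, hm, hm0, hmax⟩ := bookA_max hS.lat w hA
  have hN : ∀ y ∈ tauLat A t f I, gauss w y ≤ gauss w (f * mapF (fr k L) m) := by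
    intro y hy
    induction hy using AddSubgroup.closure_induction with
    | mem y hy =>
      obtain ⟨r, hr, x, hx, rfl⟩ := hy
      rw [gauss_mul]
      refine (mul_le_of_le_one_left' (locF_gauss_le hA hr)).trans ?_
      rw [gauss_mul, gauss_mul, gauss_fr, gauss_fr]
      exact mul_le_mul' le_rfl (pow_le_pow_left' (hmax x hx) _)
    | zero => rw [bookA_gauss_zero]; exact zero_le
    | add x y _ _ hx hy => exact (bookA_gauss_add w x y).trans (max_le hx hy)
    | neg x _ hx => rwa [bookA_gauss_neg]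
  have hG : gaussL w (tauLat A t f I) = gauss w (f * mapF (fr k L) m) := by
    refine IsGreatest.csSup_eq ⟨⟨_, mem_tauLat hm, rfl⟩, ?_⟩
    rintro r ⟨x, hx, rfl⟩
    exact hN x hx
  have he : gauss w (f * mapF (fr k L) m) = gauss w m := by
    refine le_antisymm (hmax _ (hS.le (mem_tauLat hm))) ?_
    obtain ⟨n, hn⟩ := hS.pow
    refine le_trans ?_ (hN _ (hn m hm))
    rw [gauss_mul, bookA_gauss_pow]
    exact le_mul_of_one_le_left' (one_le_pow₀ (bookA_gauss_sub h w θ))
  rw [hG, he]
  rw [gauss_mul, gauss_fr] at he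
  have h1 := congrArg (fun r : ℝ≥0 => Real.log r) he
  have hq : (1 : ℝ) < Fintype.card k := by exact_mod_cast Fintype.one_lt_card (α := k)
  simp only [NNReal.coe_mul, NNReal.coe_pow] at h1
  rw [Real.log_mul (NNReal.coe_ne_zero.2 (gauss_ne_zero w hS.ne))
    (pow_ne_zero _ (NNReal.coe_ne_zero.2 (gauss_ne_zero w hm0))), Real.log_pow] at h1
  have hq' : (Fintype.card k : ℝ) - 1 ≠ 0 := by linarith
  field_simp
  linarith

theorem bookA_supp (h : FF k t) (hl : Lat A t J) (F : Pt k E L → ℝ) :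
    (Function.support fun z : Pt k E L => (dv t J z : ℝ) * F z).Finite :=
  (hl.dv_finite h).subset fun z hz e => hz (by simp [e])

theorem bookA_supp' (h : FF k t) (hl : Lat A t J) (g : L ≃ₐ[k] L) (F : Pt k E L → ℝ) :
    (Function.support fun z : Pt k E L => (dv t J (g • z) : ℝ) * F z).Finite :=
  ((hl.dv_finite h).preimage (MulAction.injective g).injOn).subset
    fun z hz e => hz (by simp [e])

theorem bookA_diff (h : FF k t) (hS : Sht A t θ f I D) (F : Pt k E L → ℝ) :
    ∑ᶠ z : Pt k E L, (dv t (tauLat A t f I) z : ℝ) * F z =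
      ∑ᶠ z : Pt k E L, (dv t I z : ℝ) * F z + D.sum fun y c => (c : ℝ) * F (Pt.ofHom y) := by
  rw [← sub_eq_iff_eq_add', ← finsum_sub_distrib (bookA_supp h (hS.lat.tau hS.ne) F)
    (bookA_supp h hS.lat F), lin_hom_sum _ (fun z hz => ?_) Pt.ofHom_injective,
    finsum_eq_sum_of_support_subset (s := D.support)]
  · refine Finset.sum_congr rfl fun y _ => ?_
    rw [hS.type]
    push_cast
    ring
  · intro y hy
    rw [Finset.mem_coe, Finsupp.mem_support_iff]
    intro e
    apply hy
    simp [hS.type, e]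
  · rw [hS.dv_const h fun e => ?_, sub_self]
    obtain ⟨y, rfl⟩ := z.eq_ofHom e
    exact hz ⟨y, rfl⟩

theorem bookA_shift (F : Pt k E L → ℝ) (g : L ≃ₐ[k] L) :
    ∑ᶠ z : Pt k E L, F (g • z) = ∑ᶠ z : Pt k E L, F z :=
  finsum_comp_equiv (MulAction.toPerm g) (f := F)

theorem degL_tau (h : FF k t) (hS : Sht A t θ f I D) : degL t (tauLat A t f I) = degL t I + degD D := by
  simpa [degL, degD] using bookA_diff h hS fun _ => 1

theorem bookA_ord (h : FF k t) (hS : Sht A t θ f I D) (z : Pt k E L) :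
    (ord z f : ℝ) = (if t ∈ z.O then 0 else (ord z f : ℝ)) +
      (dv t (tauLat A t f I) z - dv t I ((fr k L)⁻¹ • z)) := by
  by_cases hz : t ∈ z.O
  · rw [if_pos hz, hS.lat.dv_tau h hS.ne hz]
    push_cast
    ring
  · rw [if_neg hz, dv, dv, if_neg hz, if_neg (by simpa using hz)]
    simp

theorem II_gauss_f (h : FF k t) {g : ℕ} (hR : RR0 k t g) (P : PD k θ) (hS : Sht A t θ f I D) :
    II (fun v η => Real.log (gauss (P.W v η) f)) =
      (1 - (Fintype.card k : ℝ)) * (∑ᶠ z : Pt k E L, (dv t (tauLat A t f I) z : ℝ) * ht P t z) +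
        (Fintype.card k : ℝ) * degD D * (Real.log (Fintype.card k) / dg k t) := by
  have e1 : ∀ z : Pt k E L, (ord z f : ℝ) * ht P t z =
      (dv t (tauLat A t f I) z : ℝ) * ht P t z - (dv t I ((fr k L)⁻¹ • z) : ℝ) * ht P t z := by
    intro z
    rw [bookA_ord h hS z]
    split_ifs with hz
    · ring
    · rw [ht_const h P fun e => hz (e ▸ ValuationSubring.mem_top t)]
      ring
  have e2 : ∑ᶠ z : Pt k E L, (dv t I ((fr k L)⁻¹ • z) : ℝ) * ht P t z =
      Fintype.card k * ∑ᶠ z : Pt k E L, (dv t I z : ℝ) * ht P t z := by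
    rw [← bookA_shift _ (fr k L), mul_finsum]
    refine finsum_congr fun z => ?_
    have := ht_fr P t 1 z
    rw [zpow_one, zpow_one] at this
    rw [inv_smul_smul, this]
    ring
  have e3 : (D.sum fun y c => (c : ℝ) * ht P t (Pt.ofHom y)) =
      degD D * (Real.log (Fintype.card k) / dg k t) := by
    rw [degD, Finsupp.sum, Finsupp.sum, Finset.sum_mul]
    exact Finset.sum_congr rfl fun y hy => by rw [ht_leg P (hS.leg y hy)]
  have e4 := bookA_diff h hS (ht P t)
  rw [lin_gauss_ht h hR P hS.ne, finsum_congr e1, finsum_sub_distrib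
    (bookA_supp h (hS.lat.tau hS.ne) _) (bookA_supp' h hS.lat _ _), e2, e4, e3]
  ring

theorem bookA_inf (h : FF k t) (F : Pt k E L → ℝ) :
    ∑ z ∈ (inf_finite (L := L) h).toFinset, F z =
      ∑ᶠ z : Pt k E L, if t ∈ z.O then 0 else F z := by
  rw [finsum_eq_sum_of_support_subset (s := (inf_finite (L := L) h).toFinset)]
  · refine Finset.sum_congr rfl fun z hz => ?_
    rw [if_neg (by simpa using hz)]
  · intro z hz
    have : t ∉ z.O := fun e => hz (if_pos e)
    simpa using this

theorem bookA_ord_inf (h : FF k t) (hS : Sht A t θ f I D) (g : L ≃ₐ[k] L) :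
    ∑ z ∈ (inf_finite (L := L) h).toFinset, (ord (g • z) f : ℝ) = -degD D := by
  have e0 := lin_deg h f 1
  have s1 : (Function.support fun z : Pt k E L =>
      if t ∈ z.O then 0 else (ord z f : ℝ)).Finite :=
    (inf_finite (L := L) h).subset fun z hz e => hz (if_pos e)
  have s2 : (Function.support fun z : Pt k E L => (dv t (tauLat A t f I) z : ℝ)).Finite := by
    simpa using bookA_supp h (hS.lat.tau hS.ne) fun _ => 1
  have s3 : (Function.support fun z : Pt k E L => (dv t I ((fr k L)⁻¹ • z) : ℝ)).Finite := by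
    simpa using bookA_supp' h hS.lat (fr k L)⁻¹ fun _ => 1
  simp only [mul_one] at e0
  rw [finsum_congr (bookA_ord h hS), finsum_add_distrib s1
    ((s2.union s3).subset (Function.support_sub _ _)), finsum_sub_distrib s2 s3,
    bookA_shift (fun z => (dv t I z : ℝ))] at e0
  have e1 := degL_tau h hS
  rw [degL, degL] at e1
  rw [bookA_inf h]
  have e2 : (∑ᶠ z : Pt k E L, if t ∈ z.O then 0 else (ord (g • z) f : ℝ)) = _ :=
    bookA_shift (fun z : Pt k E L => if t ∈ z.O then 0 else (ord z f : ℝ)) g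
  rw [e2]
  linarith

theorem sum_cc (h : FF k t) (hS : Sht A t θ f I D) {F : ℕ} (hF0 : 0 < F) :
    ∑ᶠ x ∈ {x : Pt k E L | t ∉ x.O}, cc f F x = degD D * ((F + 1) / 2) := by
  rw [finsum_mem_eq_finite_toFinset_sum _ (inf_finite h)]
  unfold cc
  rw [← regP_sum]
  simp only [bookA_ord_inf h hS, regP]
  have hF : (F : ℝ) ≠ 0 := Nat.cast_ne_zero.2 hF0.ne'
  have e : ∀ n : ℕ, ∑ i ∈ Finset.range n, ((i : ℝ) + 1) = n * (n + 1) / 2 := by
    intro n
    induction n with
    | zero => simp
    | succ n ih => rw [Finset.sum_range_succ, ih]; push_cast; ring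
  rw [← Finset.sum_mul, e]
  field_simp

theorem bookA (h : FF k t) {g : ℕ} (hR : RR0 k t g) (P : PD k θ) (hS : Sht A t θ f I D)
    (hA : ∀ π η, ∀ c ∈ A, (P.W (some π) η).v c ≤ 1) {F : ℕ} (hF0 : 0 < F) {φ : E →ₐ[k] L}
    (hφ : φ t = θ) {α β : GG k θ → ℝ} (hα : Loc α) (hβ : Loc β) {dJ : ℝ}
    (H : ∀ η, α η - dI (P.W none η) t (tauLat A t f I) φ =
      Real.log (gauss (P.W none η) f) / ((Fintype.card k : ℝ) - 1) -
        (Real.log (Fintype.card k) / dg k t) * (degL t I - dJ - β η + degD D) +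
        TT (P.W none η) f F D φ) :
    avg α - Ifin (fun v η => Real.log (supL (P.W v η) (Pt.ofHom φ) (tauLat A t f I))) -
        dJ * (Real.log (Fintype.card k) / dg k t) =
      (Real.log (Fintype.card k) / dg k t) * avg β + HH P t F D (dvN t (tauLat A t f I)) φ +
        degD D * (Real.log (Fintype.card k) / dg k t) *
          ((Fintype.card k : ℝ) / ((Fintype.card k : ℝ) - 1) + (F + 1) / 2) := by
  have hl := hS.lat.tau hS.ne
  have h0 := hS.gen0 φ hφ
  have hq : (1 : ℝ) < Fintype.card k := by exact_mod_cast Fintype.one_lt_card (α := k)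
  have hq' : (Fintype.card k : ℝ) - 1 ≠ 0 := by linarith
  have hg := fun π η => gaussL_tau h hS (P.W (some π) η) (hA π η)
  have hdeg := degL_tau h hS
  have hII := II_gauss_f h hR P hS
  have hcc := sum_cc h hS hF0
  generalize tauLat A t f I = N at hl h0 H hg hdeg hII ⊢
  obtain ⟨c, hc⟩ : ∃ c, c = Real.log (Fintype.card k) / dg k t := ⟨_, rfl⟩
  obtain ⟨u, hu⟩ : ∃ u, u = ((Fintype.card k : ℝ) - 1)⁻¹ := ⟨_, rfl⟩
  have hu' : u * ((Fintype.card k : ℝ) - 1) = 1 := by rw [hu, inv_mul_cancel₀ hq']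
  obtain ⟨a1, a2⟩ := avg_regP P F (Φ := fun n η => cL (P.W none η) D n φ)
    fun n => (adm_cL h P D n φ).1 none
  obtain ⟨b1, b2⟩ := avg_cc h hR P (cc f F) hφ
  rw [ht_leg P hφ, hcc, ← hc] at b2
  have hT1 : Loc (fun η => TT (P.W none η) f F D φ) := a1.comp₂ b1 fun x y => x + y
  have hT2 : avg (fun η => TT (P.W none η) f F D φ) =
      regP F (fun n => cI P D n φ) + degD D * ((F + 1) / 2) * c := by
    rw [← b2]
    exact (avg_add P a1 b1).trans (by rw [a2]; rfl)
  have d := adm_dI h hl P φ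
  have ga := adm_gauss P f
  have H' : (fun η => α η - dI (P.W none η) t N φ) = fun η =>
      (u * Real.log (gauss (P.W none η) f) + c * β η) +
        (TT (P.W none η) f F D φ + -(c * (degL t I - dJ + degD D))) := by
    funext η
    rw [H η, ← hc, div_eq_inv_mul, ← hu]
    ring
  have l1 : Loc fun η => u * Real.log (gauss (P.W none η) f) := (ga.1 none).comp fun x => u * x
  have l2 : Loc fun η => c * β η := hβ.comp fun x => c * x
  have e1 := congrArg avg H'
  rw [avg_sub P hα (d.1 none), avg_add P (l1.comp₂ l2 fun x y => x + y)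
    (hT1.comp fun x => x + -(c * (degL t I - dJ + degD D))), avg_add P l1 l2,
    avg_add P hT1 (Loc.const _), avg_const, avg_const_mul P (ga.1 none), avg_const_mul P hβ,
    hT2] at e1
  have e2 := (II_eq d).symm.trans (II_dI h hR hl P h0)
  rw [ht_leg P hφ, ← hc] at e2
  have e3 := (II_eq ga).symm.trans hII
  rw [← hc] at e3
  have e4 : Ifin (fun v η => Real.log (supL (P.W v η) (Pt.ofHom φ) N)) =
      Ifin (fun v η => -u * Real.log (gauss (P.W v η) f) - dI (P.W v η) t N φ) := by
    refine Ifin_congr fun π η => ?_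
    have a := loc_formula h hl (P.W (some π) η) (hA π η) (y := φ)
      (by rw [hφ]; exact P.W_fin_le π η) h0
    rw [hg, div_eq_inv_mul, ← hu] at a
    linarith only [a]
  rw [Ifin_sub P (ga.admF.const_mul _) d.admF, Ifin_const_mul P ga.admF] at e4
  rw [degL] at hdeg
  rw [hdeg] at e2
  rw [← hc, e4, div_eq_mul_inv (Fintype.card k : ℝ), ← hu]
  simp only [HH]
  linear_combination e1 + e2 + u * e3 -
    (∑ᶠ z : Pt k E L, (dv t N z : ℝ) * ht P t z) * hu'

end Pool.Agent.FFC
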