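import Pool.Agent.P.MP_a2beea_nt.FC.JZ
import Pool.Agent.P.MP_a2beea_nt.FC.Book
import Pool.Agent.P.MP_a2beea_nt.FC.Add2

/-! Versions for points above a power of `θ`. Copy the proofs of `admF_supL` (`LocF`), `avg_cc`
(`Book`), `Ifin_dif` (`JZ`); `W_fin_lev`. `degL_J0`: at a finite point both divisors are the least
order of the `tm 1 (e' a)` (`dv_eq_of`, closure induction, `le_ord_add`, `RA_hasVal`). -/

open Polynomial
open scoped TensorProduct NNReal IntermediateField

namespace Pool.Agent.FFC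

open Classical

variable {k : Type*} [Field k] [Fintype k] {E : Type*} [Field E] [Algebra k E] {t : E}
  {L : Type*} [Field L] [Algebra k L] [IsAlgClosed L]
  [IsDomain (L ⊗[k] E)]
  [Nonempty (GV k L)]
  {θ : L}
  {A A' : Subring L} {f : FL k E L} {I J N : AddSubgroup (FL k E L)}
  {D : ℕ → (E →ₐ[k] L) →₀ ℤ} {p l b : ℕ} {y : E →ₐ[k] L}
  {n : ℕ} {e e' : Fin n → E}

theorem admF_supL2 (h : FF k t) (hl : Lat A t J) (P : PD k θ)
    (hA : ∀ π η, ∀ c ∈ A, (P.W (some π) η).v c ≤ 1) {m : ℕ} (hy : y t = θ ^ m)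
    (h0 : dv t J (Pt.ofHom y) = 0) :
    AdmF fun v η => Real.log (supL (P.W v η) (Pt.ofHom y) J) := by
  obtain ⟨s, hs⟩ := supL_spec h hl h0
  refine (adm_log_sup P s).admF.congr fun π η => ?_
  rw [(hs _ (hA π η) (W_fin_lev P hy π η)).1]

private theorem JZ2_inf (P : PD k θ) {m : ℕ} (hm : m ≠ 0) (hy : y t = θ ^ m) (η : GG k θ) :
    1 < (P.W none η).v (y t) := by
  rw [hy, map_pow]
  exact one_lt_pow₀ (W_inf_one_lt P η) hm

theorem avg_cc2 (h : FF k t) {g : ℕ} (hR : RR0 k t g) (P : PD k θ) (c : Pt k E L → ℝ) {m : ℕ}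
    (hm : m ≠ 0) (hy : y t = θ ^ m) :
    Loc (fun η => c (red (P.W none η) (Pt.ofHom y)) *
        ipt (P.W none η) (Pt.ofHom y) (red (P.W none η) (Pt.ofHom y))) ∧
      avg (fun η => c (red (P.W none η) (Pt.ofHom y)) *
          ipt (P.W none η) (Pt.ofHom y) (red (P.W none η) (Pt.ofHom y))) =
        (∑ᶠ x ∈ {x : Pt k E L | t ∉ x.O}, c x) * ht P t (Pt.ofHom y) := by
  have hS : ∀ x, x ∈ (inf_finite (L := L) h).toFinset ↔ t ∉ x.O := fun x => by
    rw [Set.Finite.mem_toFinset]; rfl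
  have htop : ∀ x : Pt k E L, t ∉ x.O → x.O ≠ ⊤ := fun x hx he =>
    hx (he ▸ ValuationSubring.mem_top t)
  have e : (fun η => c (red (P.W none η) (Pt.ofHom y)) *
      ipt (P.W none η) (Pt.ofHom y) (red (P.W none η) (Pt.ofHom y))) =
      fun η => ∑ x ∈ (inf_finite (L := L) h).toFinset,
        c x * ipt (P.W none η) (Pt.ofHom y) x := by
    funext η
    symm
    refine Finset.sum_eq_single _ (fun x hx hne => ?_) fun hx => ?_
    · rw [htc_ipt_ne h _ _ (htop x ((hS x).1 hx)) hne, mul_zero]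
    · refine absurd ((hS _).2 fun ht => ?_) hx
      exact absurd (JZ2_inf P hm hy η) (not_lt.2 (mem_redO.1 ht).2)
  have hL : ∀ x : Pt k E L, Loc fun η => ipt (P.W none η) (Pt.ofHom y) x := fun x =>
    (adm_ipt h P (Pt.ofHom y) x).1 none
  have hL' : ∀ x : Pt k E L, Loc fun η => c x * ipt (P.W none η) (Pt.ofHom y) x := fun x =>
    (hL x).comp fun r => c x * r
  rw [e]
  refine ⟨Loc.sum _ fun x _ => hL' x, ?_⟩
  rw [avg_sum P _ fun x _ => hL' x, finsum_mem_eq_finite_toFinset_sum _ (inf_finite h),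
    Finset.sum_mul]
  refine Finset.sum_congr rfl fun x hx => ?_
  have hx' := (hS x).1 hx
  rw [avg_const_mul P (hL x), ← ip_const h hR P y (htop x hx'), ip,
    II_eq (adm_ipt h P (Pt.ofHom y) x)]
  have h0 : Ifin (fun v η => ipt (P.W v η) (Pt.ofHom y) x) = 0 := by
    rw [Ifin_congr (Ψ := fun _ _ => 0) fun π η => ?_]
    · simp [Ifin, avg_const]
    · refine htc_ipt_ne h _ _ (htop x hx') ?_
      rintro rfl
      exact hx' (mem_redO.2 ⟨ValuationSubring.mem_top t, W_fin_lev P hy π η⟩)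
  rw [h0, add_zero]

theorem Ifin_dif2 (h : FF k t) {g : ℕ} (hR : RR0 k t g) (hd : DualB k t L e e') (P : PD k θ)
    (hk : ∀ c : k, algebraMap k L c ∈ A) (hA : ∀ π η, ∀ c ∈ A, (P.W (some π) η).v c ≤ 1)
    {m : ℕ} (hm : m ≠ 0) (hy : y t = θ ^ m) (hyA : ∀ a ∈ OO k t, y a ∈ A) :
    Ifin (fun v η => Real.log (supS (P.W v η) (dif A t y))) =
      degL t (J0 k A t e') * ht P t (Pt.ofHom y) := by
  have hl := J0_lat (A := A) h hd
  have h0 := J0_dv_ofHom (A := A) h hd y
  have h1 : Ifin (fun v η => Real.log (supS (P.W v η) (dif A t y))) =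
      Ifin (fun v η => dI (P.W v η) t (J0 k A t e') y) := by
    refine Ifin_congr fun π η => ?_
    have h2 := loc_formula h hl (P.W (some π) η) (hA π η) (y := y) (W_fin_lev P hy π η) h0
    rw [J0_gaussL h hd _ (hA π η), NNReal.coe_one, Real.log_one, neg_zero, zero_add] at h2
    rw [← h2, eq_inv_of_mul_eq_one_left (dif_mul_supL h hd hk _ (hA π η) hyA), NNReal.coe_inv,
      Real.log_inv]
  have h2 := II_eq (adm_dI h hl P y)
  have h3 : (fun η => dI (P.W none η) t (J0 k A t e') y) = fun _ => 0 :=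
    funext fun η => dI_J0_inf h hd _ (JZ2_inf P hm hy η)
  have h4 : ∑ᶠ z : Pt k E L, (dv t (J0 k A t e') z : ℝ) * ht P t z = 0 := by
    refine finsum_eq_zero_of_forall_eq_zero fun z => ?_
    by_cases hz : z.O = ⊤
    · obtain ⟨y', rfl⟩ := z.eq_ofHom hz
      rw [J0_dv_ofHom h hd, Int.cast_zero, zero_mul]
    · rw [ht_const h P hz, mul_zero]
  have h5 : dvN t (J0 k A t e') = 0 := by
    ext y
    rw [hl.dvN_apply h, J0_dv_ofHom h hd, Finsupp.zero_apply]
  rw [II_dI h hR hl P h0, h3, avg_const, zero_add, h4, h5, BB, Finsupp.sum_zero_index,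
    add_zero, sub_zero] at h2
  rw [h1, ← h2, degL]

private theorem JZ2_dv (h : FF k t) (hd : DualB k t L e e') (A : Subring L) {z : Pt k E L}
    (hz : t ∈ z.O) {a0 : Fin n}
    (h0 : ∀ a, ord z (tm 1 (e' a0) : FL k E L) ≤ ord z (tm 1 (e' a) : FL k E L)) :
    dv t (J0 k A t e') z = ord z (tm 1 (e' a0) : FL k E L) := by
  have hne : ∀ a, (tm 1 (e' a) : FL k E L) ≠ 0 := fun a =>
    tm_ne_zero one_ne_zero (by simpa using hd.indep.ne_zero (a, 0))
  have hr : ∀ r ∈ RA k A t, ∀ x : FL k E L, r * x ≠ 0 → ord z x ≤ ord z (r * x) := by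
    intro r hr x hx
    have h1 := left_ne_zero_of_mul hx
    rw [ord_mul h z h1 (right_ne_zero_of_mul hx)]
    exact le_add_of_nonneg_left ((hasVal_iff h z h1).1 (RA_hasVal hz hr))
  refine dv_eq_of hz (fun x hx => ?_)
    ⟨_, AddSubgroup.subset_closure ⟨1, one_mem _, a0, (one_mul _).symm⟩, hne a0, rfl⟩
  induction hx using AddSubgroup.closure_induction with
  | mem x hx =>
    obtain ⟨r, hr', a, rfl⟩ := hx
    exact fun hx => (h0 a).trans (hr r hr' _ hx)
  | zero => exact fun hx => absurd rfl hx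
  | add x y _ _ hx hy => exact fun hxy => le_ord_add h z hxy hx hy
  | neg x _ hx =>
    intro hx'
    refine (hx (neg_ne_zero.1 hx')).trans ?_
    rw [← neg_one_mul] at hx' ⊢
    exact hr _ (neg_mem (one_mem _)) _ hx'

theorem degL_J0 (h : FF k t) (hd : DualB k t L e e') (A A' : Subring L) :
    degL t (J0 k A t e') = degL t (J0 k A' t e') := by
  have hn : Nonempty (Fin n) := by
    obtain ⟨T, hT, -⟩ := hd.one
    by_contra h0
    rw [not_nonempty_iff] at h0
    simp at hT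
  refine finsum_congr fun z => ?_
  by_cases hz : t ∈ z.O
  · obtain ⟨a0, h0⟩ := Finite.exists_min fun a => ord z (tm 1 (e' a) : FL k E L)
    rw [JZ2_dv h hd A hz h0, JZ2_dv h hd A' hz h0]
  · rw [dv, dv, if_neg hz, if_neg hz]

end Pool.Agent.FFC
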