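import Pool.Agent.P.MP_a2beea_nt.FC.LatB
import Pool.Agent.P.MP_a2beea_nt.FC.Lin
import Pool.Agent.P.MP_a2beea_nt.FC.Add2

/-! Divisors of the lattices. `Sht2.dv_const`: the functions `1 ⊗ t - θ ^ p ^ a ⊗ 1` have nonzero
values at a finite constant point (see `Sht.dv_const`). `Lev.dv_const`: `N ≤ I` gives `≥`; the
least order of `tauLat` is attained at some `f σ x ∈ N` (`Lat.dv_tau`, `Lat.dv_attained`, `ord_map`),
which gives `dv N ≤ dv tauLat`. `Lev.gen0`: `Dgt` vanishes at `y` (`lev_ne`).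
`Sht2.divN_f`: see `Sht.divN_f` in `Ser`. -/

open Polynomial
open scoped TensorProduct NNReal IntermediateField

namespace Pool.Agent.FFC

open Classical

variable {k : Type*} [Field k] [Fintype k] {E : Type*} [Field E] [Algebra k E] {t : E}
  {L : Type*} [Field L] [Algebra k L] [IsAlgClosed L]
  [IsDomain (L ⊗[k] E)]
  [Nonempty (GV k L)]
  {θ : L}
  {A A' : Subring L} {f : FL k E L} {I J N : AddSubgroup (FL k E L)}
  {D : ℕ → (E →ₐ[k] L) →₀ ℤ} {p l b : ℕ} {y : E →ₐ[k] L}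

theorem Sht2.l_pos (hS : Sht2 A t θ p l f I D) : 0 < l := by
  refine Nat.pos_of_ne_zero fun e => ?_
  have h1 := hS.pow_eq
  rw [e, pow_zero] at h1
  exact Fintype.one_lt_card.ne h1

theorem Sht2.lev_of_mem (hS : Sht2 A t θ p l f I D) {s : Finset ℕ} {χ : E →ₐ[k] L}
    (hχ : χ ∈ (∑ a ∈ s, D a).support) : ∃ a ∈ s, χ t = θ ^ p ^ a := by
  obtain ⟨a, ha, h1⟩ := mem_support_sum hχ
  exact ⟨a, ha, hS.leg a χ h1⟩

theorem Sht2.Dtot_bk (hS : Sht2 A t θ p l f I D) (hb : b < l) (hy : y t = θ ^ p ^ b) {i : ℕ}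
    (hi : 1 ≤ i) : Dtot D l (tw ((fr k L)⁻¹ ^ i) y) = 0 := by
  by_contra hD
  obtain ⟨a, -, h1⟩ := hS.lev_of_mem (s := Finset.range l) (Finsupp.mem_support_iff.2 hD)
  exact bk_t_ne2 hS.trans hS.one_lt hS.pow_eq hb hy hi a h1

theorem Sht2.dv_const (h : FF k t) (hS : Sht2 A t θ p l f I D) {z : Pt k E L} (hz : z.O ≠ ⊤) :
    dv t (tauLat A t f I) z = dv t I z := by
  by_cases hzt : t ∈ z.O
  swap
  · rw [dv, dv, if_neg hzt, if_neg hzt]
  have hτ := hS.lat.tau hS.ne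
  refine le_antisymm ?_ ?_
  · obtain ⟨n, hn⟩ := hS.pow
    obtain ⟨x, hx, h0, e⟩ := hS.lat.dv_attained h hzt
    have h1 : (∏ a ∈ Finset.range l, (tm 1 t - tm (θ ^ p ^ a) 1) : FL k E L) ≠ 0 :=
      Finset.prod_ne_zero_iff.2 fun a _ => sub_self_ne h _
    have h2 : ord z (∏ a ∈ Finset.range l, (tm 1 t - tm (θ ^ p ^ a) 1) : FL k E L) = 0 := by
      rw [ord_prod h z _ fun a _ => sub_self_ne h _]
      refine Finset.sum_eq_zero fun a _ => (ord_eq_zero_iff h z (sub_self_ne h _)).2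
        ⟨_, ?_, (hasVal_tm z (1 : L) hzt).sub (hasVal_tm z (θ ^ p ^ a) (one_mem z.O))⟩
      rw [one_mul, z.ev_one, mul_one, sub_ne_zero]
      intro e'
      exact lev_trans hS.trans hS.one_lt a (e' ▸ z.alg_of_const h hz t)
    have h3 := hτ.dv_le h hzt (hn x hx) (mul_ne_zero (pow_ne_zero n h1) h0)
    rw [ord_mul h z (pow_ne_zero n h1) h0, ← zpow_natCast, ord_zpow h, h2, mul_zero,
      zero_add] at h3
    rwa [← e]
  · obtain ⟨x, hx, h0, e⟩ := hτ.dv_attained h hzt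
    rw [← e]
    exact hS.lat.dv_le h hzt (hS.le hx) h0

theorem Lev.dv_const (h : FF k t) (hS : Sht2 A t θ p l f I D) (hL : Lev A t θ p l f I D b A' N)
    {z : Pt k E L} (hz : z.O ≠ ⊤) : dv t N z = dv t I z := by
  by_cases hzt : t ∈ z.O
  swap
  · rw [dv, dv, if_neg hzt, if_neg hzt]
  refine le_antisymm ?_ ?_
  · obtain ⟨x, hx, h0, e⟩ := hS.lat.dv_attained h (z := (fr k L)⁻¹ • z) hzt
    rw [← hS.dv_const h hz, hS.lat.dv_tau h hS.ne hzt, ← e, ← latB_ord_tau h hS.ne z h0]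
    exact hL.lat.dv_le h hzt (hL.tau x hx) (mul_ne_zero hS.ne (by simpa using h0))
  · obtain ⟨x, hx, h0, e⟩ := hL.lat.dv_attained h hzt
    rw [← e]
    exact hS.lat.dv_le h hzt (hL.le hx) h0

theorem Sht2.dv_tau_bk (hS : Sht2 A t θ p l f I D) (hb : b < l) (hy : y t = θ ^ p ^ b) (i : ℕ) :
    dv t (tauLat A t f I) (Pt.ofHom (tw ((fr k L)⁻¹ ^ i) y)) = 0 := by
  rcases Nat.eq_zero_or_pos i with rfl | hi
  · exact hS.gen0 b hb y hy
  · rw [hS.type, hS.gen b hb y hy i hi, zero_add, hS.Dtot_bk hb hy hi]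

theorem Sht2.ord_f (h : FF k t) (hS : Sht2 A t θ p l f I D) (hb : b < l) (hy : y t = θ ^ p ^ b)
    (i : ℕ) : ord (Pt.ofHom (tw ((fr k L)⁻¹ ^ i) y)) f = 0 := by
  have h1 := hS.lat.dv_tau h hS.ne (z := Pt.ofHom (tw ((fr k L)⁻¹ ^ i) y))
    (ValuationSubring.mem_top _)
  rw [hS.dv_tau_bk hb hy i] at h1
  have h2 : (fr k L)⁻¹ • Pt.ofHom (tw ((fr k L)⁻¹ ^ i) y) =
      Pt.ofHom (tw ((fr k L)⁻¹ ^ (i + 1)) y) := by
    rw [← bk_succ y i, inv_smul_smul]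
  rw [h2, hS.gen b hb y hy (i + 1) (by omega), add_zero] at h1
  exact h1.symm

theorem Lev.dv_tau (hS : Sht2 A t θ p l f I D) (hL : Lev A t θ p l f I D b A' N) (z : E →ₐ[k] L) :
    dv t (tauLat A t f I) (Pt.ofHom z) = dv t N (Pt.ofHom z) + Dgt D l b z := by
  rw [hS.type, hL.type, ← Dle_add_Dgt D hL.lt, Finsupp.add_apply, add_assoc]

theorem Lev.gen0 (hS : Sht2 A t θ p l f I D) (hL : Lev A t θ p l f I D b A' N)
    (hy : y t = θ ^ p ^ b) : dv t N (Pt.ofHom y) = 0 := by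
  have h1 := hL.dv_tau hS y
  have h2 : Dgt D l b y = 0 := by
    by_contra hD
    obtain ⟨a, ha, h3⟩ := hS.lev_of_mem (s := Finset.Ico (b + 1) l) (Finsupp.mem_support_iff.2 hD)
    exact lev_ne hS.trans hS.one_lt (Nat.lt_of_succ_le (Finset.mem_Ico.1 ha).1).ne
      (hy.symm.trans h3)
  rw [hS.gen0 b hL.lt y hy, h2, add_zero] at h1
  exact h1.symm

theorem Lev.dvN_tau (h : FF k t) (hS : Sht2 A t θ p l f I D) (hL : Lev A t θ p l f I D b A' N) :
    dvN t (tauLat A t f I) = dvN t N + Dgt D l b := by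
  ext z
  rw [Finsupp.add_apply, (hS.lat.tau hS.ne).dvN_apply h, hL.lat.dvN_apply h, hL.dv_tau hS]

omit [IsDomain (L ⊗[k] E)] [Nonempty (GV k L)] in
theorem latB2_sg_apply (x : (E →ₐ[k] L) →₀ ℤ) (y : E →ₐ[k] L) :
    sg k E L x y = x (tw (fr k L)⁻¹ y) := by
  have hinj : Function.Injective (tw (fr k L) : (E →ₐ[k] L) → (E →ₐ[k] L)) := by
    intro a b e
    refine AlgHom.ext fun u => (fr k L).injective ?_
    exact congrArg (fun z : E →ₐ[k] L => z u) e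
  have hy : y = tw (fr k L) (tw (fr k L)⁻¹ y) :=
    AlgHom.ext fun u => ((fr k L).apply_symm_apply (y u)).symm
  unfold sg
  rw [Finsupp.lmapDomain_apply]
  conv_lhs => rw [hy]
  exact Finsupp.mapDomain_apply hinj x _

theorem Sht2.divN_f (h : FF k t) (hS : Sht2 A t θ p l f I D) :
    divN f = dvN t (tauLat A t f I) - sg k E L (dvN t (tauLat A t f I) - Dtot D l) := by
  ext y
  have hl := hS.lat.tau hS.ne
  rw [divN_apply h, Finsupp.sub_apply, latB2_sg_apply, Finsupp.sub_apply, hl.dvN_apply h,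
    hl.dvN_apply h, hS.type (tw (fr k L)⁻¹ y),
    hS.lat.dv_tau h hS.ne (z := Pt.ofHom y) (ValuationSubring.mem_top _), Pt.smul_ofHom]
  ring

end Pool.Agent.FFC
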