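import Pool.Agent.P.MP_a2beea_nt.FC.BookA
import Pool.Agent.P.MP_a2beea_nt.FC.JZ2
import Pool.Agent.P.MP_a2beea_nt.FC.LatB2

/-! Bookkeeping. Follow `BookA`. `gaussL_N`: the Gauss norms on `I` are bounded and the bound is
attained (see `gaussL_tau`); `gaussL tauLat = gauss f * gaussL I ^ q` is attained at some
`f σ x ∈ N`, `N ≤ I`, and `gaussL tauLat = gaussL I` by `Sht2.pow` (the factors have Gauss norm
one). `II_gauss_f2`: `II (log gauss f) = ∑ dv T z * ht z - q ∑ dv I z * ht z`; use `Lev.dv_tau`,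
`Lev.type`, `ht_const`. `bookB`: solve `H` for `β` to get `Loc β`; take the mean of `H`
(`avg_regP`, `adm_cL`, `avg_cc2`, `sum_cc2`, `adm_gauss`, `adm_dI`); at the finite places use
`loc_formula` for `N` over `A'` and `gaussL_N`; add up with `II_eq`, `II_dI`, `degL_N`. -/

open Polynomial
open scoped TensorProduct NNReal IntermediateField

namespace Pool.Agent.FFC

open Classical

variable {k : Type*} [Field k] [Fintype k] {E : Type*} [Field E] [Algebra k E] {t : E}
  {L : Type*} [Field L] [Algebra k L] [IsAlgClosed L]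
  [IsDomain (L ⊗[k] E)]
  [Nonempty (GV k L)]
  {θ : L}
  {A A' : Subring L} {f : FL k E L} {I J N : AddSubgroup (FL k E L)}
  {D : ℕ → (E →ₐ[k] L) →₀ ℤ} {p l b : ℕ} {y : E →ₐ[k] L}

theorem bookB_gauss_prod (h : FF k t) (w : GV k L) (s : Finset ℕ) (c : ℕ → L) :
    1 ≤ gauss w (∏ a ∈ s, (tm 1 t - tm (c a) 1 : FL k E L)) := by
  induction s using Finset.induction_on with
  | empty => rw [Finset.prod_empty, GaussAux.gauss_one]
  | insert i s hi ih =>
    rw [Finset.prod_insert hi, gauss_mul]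
    exact one_le_mul (bookA_gauss_sub h w _) ih

theorem gaussL_N (h : FF k t) (hS : Sht2 A t θ p l f I D) (hL : Lev A t θ p l f I D b A' N) (w : GV k L)
    (hA : ∀ c ∈ A, w.v c ≤ 1) :
    Real.log (gaussL w N) = -(Real.log (gauss w f) / ((Fintype.card k : ℝ) - 1)) := by
  obtain ⟨m, hm, hm0, hmax⟩ := bookA_max hS.lat w hA
  have hN : ∀ y ∈ tauLat A t f I, gauss w y ≤ gauss w (f * mapF (fr k L) m) := by
    intro y hy
    induction hy using AddSubgroup.closure_induction with
    | mem y hy =>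
      obtain ⟨r, hr, x, hx, rfl⟩ := hy
      rw [gauss_mul]
      refine (mul_le_of_le_one_left' (locF_gauss_le hA hr)).trans ?_
      rw [gauss_mul, gauss_mul, gauss_fr, gauss_fr]
      exact mul_le_mul' le_rfl (pow_le_pow_left' (hmax x hx) _)
    | zero => rw [bookA_gauss_zero]; exact zero_le
    | add x y _ _ hx hy => exact (bookA_gauss_add w x y).trans (max_le hx hy)
    | neg x _ hx => rwa [bookA_gauss_neg]
  have he : gauss w (f * mapF (fr k L) m) = gauss w m := by
    refine le_antisymm (hmax _ (hS.le (mem_tauLat hm))) ?_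
    obtain ⟨n, hn⟩ := hS.pow
    refine le_trans ?_ (hN _ (hn m hm))
    rw [gauss_mul, bookA_gauss_pow]
    exact le_mul_of_one_le_left' (one_le_pow₀ (bookB_gauss_prod h w _ fun a => θ ^ p ^ a))
  have hG : gaussL w N = gauss w m := by
    refine IsGreatest.csSup_eq ⟨⟨_, hL.tau m hm, he.symm⟩, ?_⟩
    rintro r ⟨x, hx, rfl⟩
    exact hmax x (hL.le hx)
  rw [hG]
  rw [gauss_mul, gauss_fr] at he
  have h1 := congrArg (fun r : ℝ≥0 => Real.log r) he
  have hq : (1 : ℝ) < Fintype.card k := by exact_mod_cast Fintype.one_lt_card (α := k)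
  simp only [NNReal.coe_mul, NNReal.coe_pow] at h1
  rw [Real.log_mul (NNReal.coe_ne_zero.2 (gauss_ne_zero w hS.ne))
    (pow_ne_zero _ (NNReal.coe_ne_zero.2 (gauss_ne_zero w hm0))), Real.log_pow] at h1
  have hq' : (Fintype.card k : ℝ) - 1 ≠ 0 := by linarith
  field_simp
  linarith

theorem bookB_diff (h : FF k t) (hJ : Lat A' t J) (hI : Lat A t I) {X : (E →ₐ[k] L) →₀ ℤ}
    (hty : ∀ y : E →ₐ[k] L, dv t J (Pt.ofHom y) = dv t I (Pt.ofHom y) + X y)
    (hc : ∀ z : Pt k E L, z.O ≠ ⊤ → dv t J z = dv t I z) (F : Pt k E L → ℝ) :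
    ∑ᶠ z : Pt k E L, (dv t J z : ℝ) * F z =
      ∑ᶠ z : Pt k E L, (dv t I z : ℝ) * F z + X.sum fun y c => (c : ℝ) * F (Pt.ofHom y) := by
  rw [← sub_eq_iff_eq_add', ← finsum_sub_distrib (bookA_supp h hJ F)
    (bookA_supp h hI F), lin_hom_sum _ (fun z hz => ?_) Pt.ofHom_injective,
    finsum_eq_sum_of_support_subset (s := X.support)]
  · refine Finset.sum_congr rfl fun y _ => ?_
    rw [hty]
    push_cast
    ring
  · intro y hy
    rw [Finset.mem_coe, Finsupp.mem_support_iff]
    intro e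
    apply hy
    simp [hty, e]
  · rw [hc z fun e => ?_, sub_self]
    obtain ⟨y, rfl⟩ := z.eq_ofHom e
    exact hz ⟨y, rfl⟩

theorem degL_N (h : FF k t) (hS : Sht2 A t θ p l f I D) (hL : Lev A t θ p l f I D b A' N) :
    degL t N = degL t I + degD (Dle D b) := by
  simpa [degL, degD] using
    bookB_diff h hL.lat hS.lat hL.type (fun _ hz => Lev.dv_const h hS hL hz) fun _ => 1

theorem degL_T (h : FF k t) (hS : Sht2 A t θ p l f I D) :
    degL t (tauLat A t f I) = degL t I + degD (Dtot D l) := by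
  simpa [degL, degD] using
    bookB_diff h (hS.lat.tau hS.ne) hS.lat hS.type (fun _ hz => hS.dv_const h hz) fun _ => 1

theorem bookB_ord (h : FF k t) (hS : Sht2 A t θ p l f I D) (z : Pt k E L) :
    (ord z f : ℝ) = (if t ∈ z.O then 0 else (ord z f : ℝ)) +
      (dv t (tauLat A t f I) z - dv t I ((fr k L)⁻¹ • z)) := by
  by_cases hz : t ∈ z.O
  · rw [if_pos hz, hS.lat.dv_tau h hS.ne hz]
    push_cast
    ring
  · rw [if_neg hz, dv, dv, if_neg hz, if_neg (by simpa using hz)]
    simp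

theorem II_gauss_f2 (h : FF k t) {g : ℕ} (hR : RR0 k t g) (P : PD k θ)
    (hS : Sht2 A t θ p l f I D) (hL : Lev A t θ p l f I D b A' N) :
    II (fun v η => Real.log (gauss (P.W v η) f)) =
      (1 - (Fintype.card k : ℝ)) * (∑ᶠ z : Pt k E L, (dv t N z : ℝ) * ht P t z) +
        htD P t (Dgt D l b) + (Fintype.card k : ℝ) * htD P t (Dle D b) := by
  have e1 : ∀ z : Pt k E L, (ord z f : ℝ) * ht P t z =
      (dv t (tauLat A t f I) z : ℝ) * ht P t z - (dv t I ((fr k L)⁻¹ • z) : ℝ) * ht P t z := by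
    intro z
    rw [bookB_ord h hS z]
    split_ifs with hz
    · ring
    · rw [ht_const h P fun e => hz (e ▸ ValuationSubring.mem_top t)]
      ring
  have e2 : ∑ᶠ z : Pt k E L, (dv t I ((fr k L)⁻¹ • z) : ℝ) * ht P t z =
      Fintype.card k * ∑ᶠ z : Pt k E L, (dv t I z : ℝ) * ht P t z := by
    rw [← bookA_shift _ (fr k L), mul_finsum]
    refine finsum_congr fun z => ?_
    have := ht_fr P t 1 z
    rw [zpow_one, zpow_one] at this
    rw [inv_smul_smul, this]
    ring
  have e3 : htD P t (Dle D b) + htD P t (Dgt D l b) = htD P t (Dtot D l) := by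
    rw [← htD_add, Dle_add_Dgt D hL.lt]
  have e4 : _ = _ + htD P t (Dtot D l) :=
    bookB_diff h (hS.lat.tau hS.ne) hS.lat hS.type (fun _ hz => hS.dv_const h hz) (ht P t)
  have e5 : _ = _ + htD P t (Dle D b) :=
    bookB_diff h hL.lat hS.lat hL.type (fun _ hz => Lev.dv_const h hS hL hz) (ht P t)
  rw [lin_gauss_ht h hR P hS.ne, finsum_congr e1, finsum_sub_distrib
    (bookA_supp h (hS.lat.tau hS.ne) _) (bookA_supp' h hS.lat _ _), e2, e4, e5, ← e3]
  ring

theorem bookB_ord_inf (h : FF k t) (hS : Sht2 A t θ p l f I D) (g : L ≃ₐ[k] L) :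
    ∑ z ∈ (inf_finite (L := L) h).toFinset, (ord (g • z) f : ℝ) = -degD (Dtot D l) := by
  have e0 := lin_deg h f 1
  have s1 : (Function.support fun z : Pt k E L =>
      if t ∈ z.O then 0 else (ord z f : ℝ)).Finite :=
    (inf_finite (L := L) h).subset fun z hz e => hz (if_pos e)
  have s2 : (Function.support fun z : Pt k E L => (dv t (tauLat A t f I) z : ℝ)).Finite := by
    simpa using bookA_supp h (hS.lat.tau hS.ne) fun _ => 1
  have s3 : (Function.support fun z : Pt k E L => (dv t I ((fr k L)⁻¹ • z) : ℝ)).Finite := by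
    simpa using bookA_supp' h hS.lat (fr k L)⁻¹ fun _ => 1
  simp only [mul_one] at e0
  rw [finsum_congr (bookB_ord h hS), finsum_add_distrib s1
    ((s2.union s3).subset (Function.support_sub _ _)), finsum_sub_distrib s2 s3,
    bookA_shift (fun z => (dv t I z : ℝ))] at e0
  have e1 := degL_T h hS
  rw [degL, degL] at e1
  rw [bookA_inf h]
  have e2 : (∑ᶠ z : Pt k E L, if t ∈ z.O then 0 else (ord (g • z) f : ℝ)) = _ :=
    bookA_shift (fun z : Pt k E L => if t ∈ z.O then 0 else (ord z f : ℝ)) g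
  rw [e2]
  linarith

theorem sum_cc2 (h : FF k t) (hS : Sht2 A t θ p l f I D) {F : ℕ} (hF0 : 0 < F) :
    ∑ᶠ x ∈ {x : Pt k E L | t ∉ x.O}, cc f F x = degD (Dtot D l) * ((F + 1) / 2) := by
  rw [finsum_mem_eq_finite_toFinset_sum _ (inf_finite h)]
  unfold cc
  rw [← regP_sum]
  simp only [bookB_ord_inf h hS, regP]
  have hF : (F : ℝ) ≠ 0 := Nat.cast_ne_zero.2 hF0.ne'
  have e : ∀ n : ℕ, ∑ i ∈ Finset.range n, ((i : ℝ) + 1) = n * (n + 1) / 2 := by
    intro n
    induction n with
    | zero => simp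
    | succ n ih => rw [Finset.sum_range_succ, ih]; push_cast; ring
  rw [← Finset.sum_mul, e]
  field_simp

theorem bookB (h : FF k t) {g : ℕ} (hR : RR0 k t g) (P : PD k θ)
    (hS : Sht2 A t θ p l f I D) (hL : Lev A t θ p l f I D b A' N)
    (hA : ∀ π η, ∀ c ∈ A, (P.W (some π) η).v c ≤ 1) {F : ℕ} (hF0 : 0 < F)
    (hy : y t = θ ^ p ^ b) {α β : GG k θ → ℝ} (hα : Loc α)
    (H : ∀ η, α η - dI (P.W none η) t N y =
      Real.log (gauss (P.W none η) f) / ((Fintype.card k : ℝ) - 1) - β η +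
        TT (P.W none η) f F (Dtot D l) y + cL (P.W none η) (Dgt D l b) 0 y) :
    Loc β ∧ avg α - Ifin (fun v η => Real.log (supL (P.W v η) (Pt.ofHom y) N)) + avg β -
        degL t I * ht P t (Pt.ofHom y) = HB P t F l b D (dvN t N) y := by
  have hl := hL.lat
  have h0 := Lev.gen0 hS hL hy
  have hq : (1 : ℝ) < Fintype.card k := by exact_mod_cast Fintype.one_lt_card (α := k)
  have hq' : (Fintype.card k : ℝ) - 1 ≠ 0 := by linarith
  have hg := fun π η => gaussL_N h hS hL (P.W (some π) η) (hA π η)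
  have hdeg := degL_N h hS hL
  have hII := II_gauss_f2 h hR P hS hL
  have hcc := sum_cc2 h hS hF0
  have hm : p ^ b ≠ 0 := pow_ne_zero _ (by have := hS.one_lt; omega)
  obtain ⟨u, hu⟩ : ∃ u, u = ((Fintype.card k : ℝ) - 1)⁻¹ := ⟨_, rfl⟩
  have hu' : u * ((Fintype.card k : ℝ) - 1) = 1 := by rw [hu, inv_mul_cancel₀ hq']
  obtain ⟨a1, a2⟩ := avg_regP P F (Φ := fun n η => cL (P.W none η) (Dtot D l) n y)
    fun n => (adm_cL h P (Dtot D l) n y).1 none
  obtain ⟨b1, b2⟩ := avg_cc2 h hR P (cc f F) hm hy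
  rw [hcc] at b2
  have hT1 : Loc (fun η => TT (P.W none η) f F (Dtot D l) y) := a1.comp₂ b1 fun x y => x + y
  have hT2 : avg (fun η => TT (P.W none η) f F (Dtot D l) y) =
      regP F (fun n => cI P (Dtot D l) n y) +
        degD (Dtot D l) * ((F + 1) / 2) * ht P t (Pt.ofHom y) := by
    rw [← b2]
    exact (avg_add P a1 b1).trans (by rw [a2]; rfl)
  have d := adm_dI h hl P y
  have ga := adm_gauss P f
  have lc : Loc fun η => cL (P.W none η) (Dgt D l b) 0 y := (adm_cL h P (Dgt D l b) 0 y).1 none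
  have l1 : Loc fun η => u * Real.log (gauss (P.W none η) f) := (ga.1 none).comp fun x => u * x
  have l2 : Loc fun η => α η - dI (P.W none η) t N y := hα.comp₂ (d.1 none) fun x y => x - y
  have l3 : Loc fun η => TT (P.W none η) f F (Dtot D l) y + cL (P.W none η) (Dgt D l b) 0 y :=
    hT1.comp₂ lc fun x y => x + y
  have l4 : Loc fun η => u * Real.log (gauss (P.W none η) f) +
      (TT (P.W none η) f F (Dtot D l) y + cL (P.W none η) (Dgt D l b) 0 y) :=
    l1.comp₂ l3 fun x y => x + y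
  have H' : β = fun η => (u * Real.log (gauss (P.W none η) f) +
      (TT (P.W none η) f F (Dtot D l) y + cL (P.W none η) (Dgt D l b) 0 y)) -
        (α η - dI (P.W none η) t N y) := by
    funext η
    rw [H η, div_eq_inv_mul, ← hu]
    ring
  refine ⟨H' ▸ l4.comp₂ l2 fun x y => x - y, ?_⟩
  have e1 := congrArg avg H'
  rw [avg_sub P l4 l2, avg_sub P hα (d.1 none), avg_add P l1 l3, avg_add P hT1 lc,
    avg_const_mul P (ga.1 none), hT2] at e1
  have e2 := (II_eq d).symm.trans (II_dI h hR hl P h0)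
  have e3 := (II_eq ga).symm.trans hII
  have e4 : Ifin (fun v η => Real.log (supL (P.W v η) (Pt.ofHom y) N)) =
      Ifin (fun v η => -u * Real.log (gauss (P.W v η) f) - dI (P.W v η) t N y) := by
    refine Ifin_congr fun π η => ?_
    have a := loc_formula h hl (P.W (some π) η) (fun c hc => hA π η c (hL.sub hc)) (y := y)
      (W_fin_lev P hy π η) h0
    rw [hg, div_eq_inv_mul, ← hu] at a
    linarith only [a]
  rw [Ifin_sub P (ga.admF.const_mul _) d.admF, Ifin_const_mul P ga.admF] at e4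
  rw [degL] at hdeg
  rw [hdeg] at e2
  rw [e4]
  simp only [HB]
  rw [div_eq_mul_inv _ ((Fintype.card k : ℝ) - 1), ← hu]
  have e5 : cI P (Dgt D l b) 0 y = avg fun η => cL (P.W none η) (Dgt D l b) 0 y := rfl
  rw [e5]
  linear_combination e1 + e2 + u * e3 -
    (∑ᶠ z : Pt k E L, (dv t N z : ℝ) * ht P t z) * hu'

end Pool.Agent.FFC
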