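import Pool.Agent.P.MP_a2beea_nt.FC.Points

/-! Values of functions at points. `EvT.unique`: it suffices to treat `x = 0`; write the `b i` in a
`k`-basis of their span, then the coefficients `∑ λ_ij a_i ∈ p.O` vanish in `E` (linear
independence passes to the tensor product), and `p.ev` is `k`-linear on `p.O`. -/

set_option linter.unusedSectionVars false

open Polynomial
open scoped TensorProduct NNReal IntermediateField

namespace Pool.Agent.FFC

open Classical

variable {k : Type*} [Field k] [Fintype k] {E : Type*} [Field E] [Algebra k E] {t : E}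
  {L : Type*} [Field L] [Algebra k L] [IsAlgClosed L]
  [IsDomain (L ⊗[k] E)]

omit [Fintype k] [IsAlgClosed L] [IsDomain (L ⊗[k] E)] in
theorem Val_exists_lin (p : Pt k E L) :
    ∃ Φ : L ⊗[k] E →ₗ[k] L, ∀ x c, EvT p x c → Φ x = c := by
  have hs : ∀ (c : k) (a : E), a ∈ p.O → c • a ∈ p.O := fun c a ha => by
    rw [Algebra.smul_def]; exact mul_mem (p.alg_mem c) ha
  let S : Submodule k E :=
    { carrier := p.O
      zero_mem' := zero_mem p.O
      add_mem' := fun ha hb => add_mem (s := p.O) ha hb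
      smul_mem' := fun c a ha => hs c a ha }
  let l : S →ₗ[k] L :=
    { toFun := fun a => p.ev a
      map_add' := fun a b => p.ev_add a a.2 b b.2
      map_smul' := fun c a => by
        change p.ev (c • (a : E)) = c • p.ev a
        rw [Algebra.smul_def, Algebra.smul_def, p.ev_mul _ (p.alg_mem c) _ a.2, p.ev_alg] }
  obtain ⟨g, hg⟩ := l.exists_extend
  refine ⟨LinearMap.mul' k L ∘ₗ g.lTensor L, ?_⟩
  rintro x c ⟨n, b, a, ha, rfl, rfl⟩
  rw [map_sum]
  refine Finset.sum_congr rfl fun i _ => ?_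
  have e : g (a i) = p.ev (a i) := DFunLike.congr_fun hg (⟨a i, ha i⟩ : S)
  simp [e]

omit [Fintype k] [IsAlgClosed L] [IsDomain (L ⊗[k] E)] in
theorem Val_evT {ι : Type} [Fintype ι] (p : Pt k E L) (b : ι → L) (a : ι → E)
    (ha : ∀ i, a i ∈ p.O) : EvT p (∑ i, b i ⊗ₜ[k] a i) (∑ i, b i * p.ev (a i)) :=
  ⟨Fintype.card ι, fun j => b ((Fintype.equivFin ι).symm j),
    fun j => a ((Fintype.equivFin ι).symm j), fun _ => ha _,
    (Equiv.sum_comp (Fintype.equivFin ι).symm fun i => b i ⊗ₜ[k] a i).symm,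
    (Equiv.sum_comp (Fintype.equivFin ι).symm fun i => b i * p.ev (a i)).symm⟩

theorem EvT.unique {p : Pt k E L} {x : L ⊗[k] E} {c c' : L} (h : EvT p x c) (h' : EvT p x c') :
    c = c' := by
  obtain ⟨Φ, hΦ⟩ := Val_exists_lin p
  rw [← hΦ x c h, ← hΦ x c' h']

theorem EvT.add {p : Pt k E L} {x y : L ⊗[k] E} {c d : L} (h : EvT p x c) (h' : EvT p y d) :
    EvT p (x + y) (c + d) := by
  obtain ⟨n, b, a, ha, rfl, rfl⟩ := h
  obtain ⟨n', b', a', ha', rfl, rfl⟩ := h'
  have := Val_evT p (Sum.elim b b') (Sum.elim a a') (by rintro (i | i); exacts [ha i, ha' i])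
  simpa [Fintype.sum_sum_type] using this

theorem EvT.mul {p : Pt k E L} {x y : L ⊗[k] E} {c d : L} (h : EvT p x c) (h' : EvT p y d) :
    EvT p (x * y) (c * d) := by
  obtain ⟨n, b, a, ha, rfl, rfl⟩ := h
  obtain ⟨n', b', a', ha', rfl, rfl⟩ := h'
  have := Val_evT p (fun q : Fin n × Fin n' => b q.1 * b' q.2) (fun q => a q.1 * a' q.2)
    (fun q => mul_mem (ha q.1) (ha' q.2))
  rw [Finset.sum_mul_sum, Finset.sum_mul_sum]
  simp only [Fintype.sum_prod_type, p.ev_mul _ (ha _) _ (ha' _)] at this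
  simp only [Algebra.TensorProduct.tmul_mul_tmul, mul_mul_mul_comm (b _) (p.ev _)]
  exact this

theorem evT_tmul (p : Pt k E L) (c : L) {a : E} (ha : a ∈ p.O) :
    EvT p (c ⊗ₜ[k] a) (c * p.ev a) := by
  exact ⟨1, fun _ => c, fun _ => a, fun _ => ha, by simp, by simp⟩

theorem evT_ofHom (y : E →ₐ[k] L) (x : L ⊗[k] E) :
    EvT (Pt.ofHom y) x (Algebra.TensorProduct.productMap (AlgHom.id k L) y x) := by
  induction x using TensorProduct.induction_on with
  | zero => exact ⟨0, fun _ => 0, fun _ => 0, fun i => i.elim0, by simp, by simp⟩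
  | tmul c a => simpa using evT_tmul (Pt.ofHom y) c (a := a) (ValuationSubring.mem_top a)
  | add x x' hx hx' => rw [map_add]; exact hx.add hx' 

theorem HasVal.unique {p : Pt k E L} {f : FL k E L} {c c' : L} (h : HasVal p f c)
    (h' : HasVal p f c') : c = c' := by
  obtain ⟨x, y, cx, cy, hx, hy, h0, e, ec⟩ := h
  obtain ⟨x', y', cx', cy', hx', hy', h0', e', ec'⟩ := h'
  have e1 : x * y' = x' * y := by
    apply IsFractionRing.injective (L ⊗[k] E) (FL k E L)
    rw [map_mul, map_mul, ← e, ← e']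
    ring
  have e2 : cx * cy' = cx' * cy := (hx.mul hy').unique (e1 ▸ hx'.mul hy)
  apply mul_right_cancel₀ (mul_ne_zero h0 h0')
  rw [← ec, ← ec'] at e2
  linear_combination e2

theorem HasVal.val_eq {p : Pt k E L} {f : FL k E L} {c : L} (h : HasVal p f c) :
    val p f = c := by
  have H : ∃ c, HasVal p f c := ⟨c, h⟩
  unfold val
  rw [dif_pos H]
  exact H.choose_spec.unique h

theorem Val_one (p : Pt k E L) : EvT p (1 : L ⊗[k] E) 1 := by
  have := evT_tmul p 1 (one_mem p.O)
  rwa [p.ev_one, mul_one] at this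

theorem EvT.hasVal {p : Pt k E L} {x : L ⊗[k] E} {c : L} (h : EvT p x c) :
    HasVal p (algebraMap (L ⊗[k] E) (FL k E L) x) c := by
  exact ⟨x, 1, c, 1, h, Val_one p, one_ne_zero, by simp, by simp⟩

theorem hasVal_tm (p : Pt k E L) (c : L) {a : E} (ha : a ∈ p.O) :
    HasVal p (tm c a) (c * p.ev a) := by
  exact (evT_tmul p c ha).hasVal

theorem hasVal_zero (p : Pt k E L) : HasVal p (0 : FL k E L) 0 := by
  simpa [tm] using hasVal_tm p 0 (one_mem p.O)

theorem hasVal_one (p : Pt k E L) : HasVal p (1 : FL k E L) 1 := by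
  simpa using (Val_one p).hasVal

theorem HasVal.add {p : Pt k E L} {f g : FL k E L} {c d : L} (h : HasVal p f c)
    (h' : HasVal p g d) : HasVal p (f + g) (c + d) := by
  obtain ⟨x, y, cx, cy, hx, hy, h0, e, ec⟩ := h
  obtain ⟨x', y', cx', cy', hx', hy', h0', e', ec'⟩ := h'
  refine ⟨x * y' + x' * y, y * y', cx * cy' + cx' * cy, cy * cy', (hx.mul hy').add (hx'.mul hy),
    hy.mul hy', mul_ne_zero h0 h0', ?_, ?_⟩
  · rw [map_add, map_mul, map_mul, map_mul, ← e, ← e']
    ring
  · rw [← ec, ← ec']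
    ring

theorem HasVal.neg {p : Pt k E L} {f : FL k E L} {c : L} (h : HasVal p f c) :
    HasVal p (-f) (-c) := by
  obtain ⟨x, y, cx, cy, hx, hy, h0, e, ec⟩ := h
  have h1 := (evT_tmul p (-1) (one_mem p.O)).mul hx
  rw [p.ev_one, TensorProduct.neg_tmul, ← Algebra.TensorProduct.one_def] at h1
  refine ⟨_, y, _, cy, h1, hy, h0, ?_, ?_⟩
  · rw [map_mul, map_neg, map_one, ← e]
    ring
  · rw [← ec]
    ring

theorem HasVal.sub {p : Pt k E L} {f g : FL k E L} {c d : L} (h : HasVal p f c)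
    (h' : HasVal p g d) : HasVal p (f - g) (c - d) := by
  rw [sub_eq_add_neg, sub_eq_add_neg]
  exact h.add h'.neg

theorem HasVal.mul {p : Pt k E L} {f g : FL k E L} {c d : L} (h : HasVal p f c)
    (h' : HasVal p g d) : HasVal p (f * g) (c * d) := by
  obtain ⟨x, y, cx, cy, hx, hy, h0, e, ec⟩ := h
  obtain ⟨x', y', cx', cy', hx', hy', h0', e', ec'⟩ := h'
  refine ⟨x * x', y * y', cx * cx', cy * cy', hx.mul hx', hy.mul hy', mul_ne_zero h0 h0', ?_, ?_⟩
  · rw [map_mul, map_mul, ← e, ← e']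
    ring
  · rw [← ec, ← ec']
    ring

theorem HasVal.pow {p : Pt k E L} {f : FL k E L} {c : L} (h : HasVal p f c) (n : ℕ) :
    HasVal p (f ^ n) (c ^ n) := by
  induction n with
  | zero => simpa using hasVal_one p
  | succ n ih => rw [pow_succ, pow_succ]; exact ih.mul h

theorem HasVal.inv {p : Pt k E L} {f : FL k E L} {c : L} (h : HasVal p f c) (hc : c ≠ 0) :
    HasVal p f⁻¹ c⁻¹ := by
  obtain ⟨x, y, cx, cy, hx, hy, h0, e, ec⟩ := h
  have hcx : cx ≠ 0 := ec ▸ mul_ne_zero hc h0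
  have hf : f ≠ 0 := by
    rintro rfl
    have h1 : HasVal p (0 : FL k E L) c := ⟨x, y, cx, cy, hx, hy, h0, e, ec⟩
    exact hc (h1.unique (hasVal_zero p))
  refine ⟨y, x, cy, cx, hy, hx, hcx, ?_, ?_⟩
  · rw [← e, inv_mul_cancel_left₀ hf]
  · rw [← ec, inv_mul_cancel_left₀ hc]

theorem HasVal.sum {p : Pt k E L} {ι : Type*} (s : Finset ι) {f : ι → FL k E L} {c : ι → L}
    (h : ∀ i ∈ s, HasVal p (f i) (c i)) : HasVal p (∑ i ∈ s, f i) (∑ i ∈ s, c i) := by
  induction s using Finset.induction_on with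
  | empty => simpa using hasVal_zero p
  | insert i s hi ih =>
    rw [Finset.sum_insert hi, Finset.sum_insert hi]
    exact (h i (Finset.mem_insert_self i s)).add
      (ih fun j hj => h j (Finset.mem_insert_of_mem hj))

theorem tm_mul (c c' : L) (a a' : E) :
    (tm c a * tm c' a' : FL k E L) = tm (c * c') (a * a') := by
  rw [tm, tm, tm, ← map_mul, Algebra.TensorProduct.tmul_mul_tmul]

theorem tm_add_left (c c' : L) (a : E) : (tm (c + c') a : FL k E L) = tm c a + tm c' a := by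
  rw [tm, tm, tm, ← map_add, TensorProduct.add_tmul]

theorem tm_add_right (c : L) (a a' : E) : (tm c (a + a') : FL k E L) = tm c a + tm c a' := by
  rw [tm, tm, tm, ← map_add, TensorProduct.tmul_add]

theorem tm_one : (tm (1 : L) (1 : E) : FL k E L) = 1 := by
  rw [tm, ← Algebra.TensorProduct.one_def, map_one]

theorem tm_alg (c : k) : (tm (algebraMap k L c) (1 : E) : FL k E L) = tm 1 (algebraMap k E c) := by
  rw [tm, tm, Algebra.algebraMap_eq_smul_one c, Algebra.algebraMap_eq_smul_one c,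
    TensorProduct.smul_tmul]

theorem tm_ne_zero {c : L} {a : E} (hc : c ≠ 0) (ha : a ≠ 0) : (tm c a : FL k E L) ≠ 0 := by
  intro h
  have := tm_mul (k := k) c c⁻¹ a a⁻¹
  rw [h, zero_mul, mul_inv_cancel₀ hc, mul_inv_cancel₀ ha, tm_one] at this
  exact zero_ne_one this

theorem tm_inv (c : L) (a : E) : (tm c a : FL k E L)⁻¹ = tm c⁻¹ a⁻¹ := by
  by_cases hc : c = 0
  · simp [hc, tm]
  by_cases ha : a = 0
  · simp [ha, tm]
  refine inv_eq_of_mul_eq_one_right ?_
  rw [tm_mul, mul_inv_cancel₀ hc, mul_inv_cancel₀ ha, tm_one]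

theorem mapF_algebraMap (g : L ≃ₐ[k] L) (x : L ⊗[k] E) :
    mapF g (algebraMap (L ⊗[k] E) (FL k E L) x) = algebraMap (L ⊗[k] E) (FL k E L)
      (Algebra.TensorProduct.map g.toAlgHom (AlgHom.id k E) x) := by
  unfold mapF
  rw [IsFractionRing.ringEquivOfRingEquiv_algebraMap]
  rfl

theorem mapF_tm (g : L ≃ₐ[k] L) (c : L) (a : E) :
    mapF g (tm c a : FL k E L) = tm (g c) a := by
  rw [tm, mapF_algebraMap, Algebra.TensorProduct.map_tmul]
  rfl

theorem mapF_inv_mapF (g : L ≃ₐ[k] L) (f : FL k E L) : mapF g⁻¹ (mapF g f) = f := by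
  have h : ∀ x : L ⊗[k] E, mapF g⁻¹ (mapF g (algebraMap (L ⊗[k] E) (FL k E L) x)) =
      algebraMap (L ⊗[k] E) (FL k E L) x := by
    intro x
    induction x using TensorProduct.induction_on with
    | zero => simp
    | tmul c a =>
      change mapF g⁻¹ (mapF g (tm c a)) = tm c a
      rw [mapF_tm, mapF_tm]
      congr 1
      exact g.symm_apply_apply c
    | add x x' hx hx' => rw [map_add, map_add, map_add, hx, hx']
  obtain ⟨x, y, -, rfl⟩ := IsFractionRing.div_surjective (A := L ⊗[k] E) f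
  rw [map_div₀, map_div₀, h, h]

theorem HasVal.map {p : Pt k E L} {f : FL k E L} {c : L} (h : HasVal p f c) (g : L ≃ₐ[k] L) :
    HasVal (g • p) (mapF g f) (g c) := by
  have key : ∀ (x : L ⊗[k] E) (c : L), EvT p x c →
      EvT (g • p) (Algebra.TensorProduct.map g.toAlgHom (AlgHom.id k E) x) (g c) := by
    rintro x c ⟨n, b, a, ha, rfl, rfl⟩
    refine ⟨n, fun i => g (b i), a, ha, ?_, ?_⟩
    · rw [map_sum]
      exact Finset.sum_congr rfl fun i _ => Algebra.TensorProduct.map_tmul _ _ _ _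
    · rw [map_sum]
      exact Finset.sum_congr rfl fun i _ => map_mul g _ _
  obtain ⟨x, y, cx, cy, hx, hy, h0, e, ec⟩ := h
  refine ⟨_, _, _, _, key x cx hx, key y cy hy, by simpa using h0, ?_, by rw [← map_mul, ec]⟩
  rw [← mapF_algebraMap, ← mapF_algebraMap, ← map_mul, e]

theorem RA_hasVal {A : Subring L} {p : Pt k E L} (hp : t ∈ p.O) {r : FL k E L}
    (hr : r ∈ RA k A t) : ∃ c, HasVal p r c := by
  induction hr using Subring.closure_induction with
  | mem x hx =>
    obtain ⟨c, -, a, ha, rfl⟩ := hx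
    exact ⟨_, hasVal_tm p c (OO_le p.alg_mem hp a ha)⟩
  | zero => exact ⟨_, hasVal_zero p⟩
  | one => exact ⟨_, hasVal_one p⟩
  | add x y _ _ hx hy => exact ⟨_, hx.choose_spec.add hy.choose_spec⟩
  | neg x _ hx => exact ⟨_, hx.choose_spec.neg⟩
  | mul x y _ _ hx hy => exact ⟨_, hx.choose_spec.mul hy.choose_spec⟩

theorem RA_mapF_fr {A : Subring L} {r : FL k E L} (hr : r ∈ RA k A t) :
    mapF (fr k L) r ∈ RA k A t := by
  induction hr using Subring.closure_induction with
  | mem x hx =>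
    obtain ⟨c, hc, a, ha, rfl⟩ := hx
    rw [mapF_tm, fr_apply]
    exact Subring.subset_closure ⟨_, pow_mem hc _, a, ha, rfl⟩
  | zero => rw [map_zero]; exact zero_mem _
  | one => rw [map_one]; exact one_mem _
  | add x y _ _ hx hy => rw [map_add]; exact add_mem hx hy
  | neg x _ hx => rw [map_neg]; exact neg_mem hx
  | mul x y _ _ hx hy => rw [map_mul]; exact mul_mem hx hy

end Pool.Agent.FFC
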