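import Pool.Agent.P.MP_a2beea_nt.FC.Points
import Pool.Agent.P.MP_a2beea_nt.FC.Val
import Pool.Agent.P.MP_a2beea_nt.FC.Avg

/-! From the data of the statement to the geometric setting. `k⟮t⟯` is the image of `RatFunc k`
(`RatFunc.adjoin_X`, `RatFunc.algEquivOfTranscendental`); transport finiteness and separability
along the isomorphism. An automorphism of `L` over `k` which fixes `θ` is `RatFunc k`-linear (make
`L` a `RatFunc k`-algebra through `K`), restrict it with `AlgEquiv.restrictNormalHom`; it is onto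
by `AlgEquiv.restrictNormalHom_surjective`. `OE`, `OK` are the integral closures:
`IsIntegralClosure.isIntegral_iff`, `IsIntegralClosure.algebraMap_injective`. `ρ` is injective
because tensor products over the field `k` preserve injections
(`Module.Flat.rTensor_preserves_injective_linearMap`, `TensorProduct.map_injective_of_flat_flat`). -/

set_option linter.unusedSectionVars false

open Polynomial
open scoped TensorProduct NNReal IntermediateField

namespace Pool.Agent.FFC

open Classical

section Gen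

variable {k : Type*} [Field k] (F : Type*) [Field F] [Algebra k F] [Algebra k[X] F]
  [Algebra (RatFunc k) F] [IsScalarTower k k[X] F] [IsScalarTower k[X] (RatFunc k) F]

theorem Bridge_tower : IsScalarTower k (RatFunc k) F :=
  IsScalarTower.of_algebraMap_eq fun c => by
    rw [IsScalarTower.algebraMap_apply k k[X] F,
      IsScalarTower.algebraMap_apply k[X] (RatFunc k) F,
      ← IsScalarTower.algebraMap_apply k k[X] (RatFunc k)]

omit [Algebra (RatFunc k) F] [IsScalarTower k[X] (RatFunc k) F] in
theorem Bridge_aeval (P : k[X]) : aeval (tE k F) P = algebraMap k[X] F P := by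
  rw [aeval_algebraMap_apply, aeval_X_left_apply]

omit [Algebra k F] [IsScalarTower k k[X] F] in
theorem Bridge_inj : Function.Injective (algebraMap k[X] F) := by
  rw [IsScalarTower.algebraMap_eq k[X] (RatFunc k) F]
  exact (algebraMap (RatFunc k) F).injective.comp (IsFractionRing.injective k[X] (RatFunc k))

theorem Bridge_trans : Transcendental k (tE k F) :=
  transcendental_iff_injective.2 fun P Q h =>
    Bridge_inj F (by rwa [Bridge_aeval, Bridge_aeval] at h)

theorem Bridge_comp : (algebraMap k⟮tE k F⟯ F).comp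
    (RatFunc.algEquivOfTranscendental (tE k F) (Bridge_trans F)).toRingEquiv.toRingHom =
      algebraMap (RatFunc k) F := by
  refine RingHom.ext fun u => ?_
  change ((RatFunc.algEquivOfTranscendental (tE k F) (Bridge_trans F) u : k⟮tE k F⟯) : F) = _
  rw [RatFunc.algEquivOfTranscendental_apply, Bridge_aeval, Bridge_aeval,
    IsScalarTower.algebraMap_apply k[X] (RatFunc k) F,
    IsScalarTower.algebraMap_apply k[X] (RatFunc k) F, ← map_div₀, RatFunc.num_div_denom]

theorem Bridge_OO (a : F) : a ∈ OO k (tE k F) ↔ IsIntegral k[X] a := by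
  refine (RingEquiv.isIntegral_iff
    (Polynomial.algEquivOfTranscendental k (tE k F) (Bridge_trans F)).toRingEquiv ?_ a).symm
  refine RingHom.ext fun P => ?_
  change ((Polynomial.algEquivOfTranscendental k (tE k F) (Bridge_trans F) P :
    Algebra.adjoin k {tE k F}) : F) = _
  rw [← Bridge_aeval]
  simp

theorem Bridge_ext {Ω : Type*} [Field Ω] {f g : RatFunc k →+* Ω}
    (hc : ∀ c : k, f (algebraMap k[X] (RatFunc k) (C c)) = g (algebraMap k[X] (RatFunc k) (C c)))
    (hX : f (algebraMap k[X] (RatFunc k) X) = g (algebraMap k[X] (RatFunc k) X)) : f = g :=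
  IsLocalization.ringHom_ext (nonZeroDivisors k[X]) (Polynomial.ringHom_ext hc hX)

theorem Bridge_C (c : k) :
    algebraMap (RatFunc k) F (algebraMap k[X] (RatFunc k) (C c)) = algebraMap k F c := by
  rw [← IsScalarTower.algebraMap_apply, IsScalarTower.algebraMap_apply k k[X] F]; rfl

end Gen

variable {k : Type*} [Field k] [Fintype k] {E K : Type*} [Field E] [Field K]
  [Algebra k E] [Algebra k[X] E] [Algebra (RatFunc k) E] [IsScalarTower k k[X] E]
  [IsScalarTower k[X] (RatFunc k) E]
  [Algebra k K] [Algebra k[X] K] [Algebra (RatFunc k) K] [IsScalarTower k k[X] K]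
  [IsScalarTower k[X] (RatFunc k) K]
  [FiniteDimensional (RatFunc k) E] [Algebra.IsSeparable (RatFunc k) E]
  [FiniteDimensional (RatFunc k) K] [IsGalois (RatFunc k) K]
  {OE OK : Type*} [CommRing OE] [CommRing OK]
  [Algebra k OE] [Algebra k[X] OE] [Algebra OE E] [IsScalarTower k k[X] OE]
  [IsScalarTower k[X] OE E] [IsIntegralClosure OE k[X] E]
  [Algebra k OK] [Algebra k[X] OK] [Algebra OK K] [IsScalarTower k k[X] OK]
  [IsScalarTower k[X] OK K] [IsIntegralClosure OK k[X] K]
  {L : Type*} [Field L] [Algebra k L] [Algebra K L] [IsScalarTower k K L] [IsAlgClosed L]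
  [Algebra.IsAlgebraic K L]

theorem ff_of (hreg : ∀ x : E, IsAlgebraic k x → x ∈ (algebraMap k E).range) :
    FF k (tE k E) :=
  ⟨Bridge_trans E,
    Module.Finite.of_equiv_equiv
      (RatFunc.algEquivOfTranscendental (tE k E) (Bridge_trans E)).toRingEquiv (RingEquiv.refl E)
      (Bridge_comp E),
    Algebra.IsSeparable.of_equiv_equiv
      (RatFunc.algEquivOfTranscendental (tE k E) (Bridge_trans E)).toRingEquiv (RingEquiv.refl E)
      (Bridge_comp E), hreg⟩

theorem th_trans : Transcendental k (th k K L) :=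
  (transcendental_algebraMap_iff (algebraMap K L).injective).2 (Bridge_trans K)

theorem th_alg (x : L) : IsAlgebraic k⟮th k K L⟯ x := by
  let _ : Algebra k[X] L := ((algebraMap K L).comp (algebraMap k[X] K)).toAlgebra
  let _ : Algebra (RatFunc k) L := ((algebraMap K L).comp (algebraMap (RatFunc k) K)).toAlgebra
  have : IsScalarTower (RatFunc k) K L := .of_algebraMap_eq fun _ => rfl
  have : IsScalarTower k k[X] L := .of_algebraMap_eq fun c => by
    rw [IsScalarTower.algebraMap_apply k K L, IsScalarTower.algebraMap_apply k k[X] K]; rfl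
  have : IsScalarTower k[X] (RatFunc k) L := .of_algebraMap_eq fun c =>
    congrArg (algebraMap K L) (IsScalarTower.algebraMap_apply k[X] (RatFunc k) K c)
  have h := (Algebra.IsAlgebraic.trans (RatFunc k) K L).isAlgebraic x
  exact h.ringHom_of_comp_eq
    (RatFunc.algEquivOfTranscendental (tE k L) (Bridge_trans L)).toRingEquiv.toRingHom
    (RingHom.id L) (RingEquiv.injective _) (Bridge_comp L)

variable (OE) in
theorem mem_OO_iff_range (a : E) : a ∈ OO k (tE k E) ↔ ∃ b : OE, algebraMap OE E b = a :=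
  (Bridge_OO E a).trans IsIntegralClosure.isIntegral_iff

theorem Bridge_fix {F : Type*} [Field F] [Algebra k F] [Algebra k[X] F] [Algebra (RatFunc k) F]
    [IsScalarTower k k[X] F] [IsScalarTower k[X] (RatFunc k) F] (y : F →ₐ[k] L)
    (hy : y (tE k F) = th k K L) (u : RatFunc k) :
    y (algebraMap (RatFunc k) F u) = algebraMap K L (algebraMap (RatFunc k) K u) := by
  refine RingHom.congr_fun (Bridge_ext (f := y.toRingHom.comp (algebraMap (RatFunc k) F))
    (g := (algebraMap K L).comp (algebraMap (RatFunc k) K)) (fun c => ?_) ?_) u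
  · change y (algebraMap (RatFunc k) F _) = algebraMap K L (algebraMap (RatFunc k) K _)
    rw [Bridge_C, Bridge_C, y.commutes, ← IsScalarTower.algebraMap_apply]
  · change y (algebraMap (RatFunc k) F _) = algebraMap K L (algebraMap (RatFunc k) K _)
    rw [← IsScalarTower.algebraMap_apply k[X] (RatFunc k) F,
      ← IsScalarTower.algebraMap_apply k[X] (RatFunc k) K]
    exact hy

theorem exists_res : ∃ res : GG k (th k K L) →* (K ≃ₐ[RatFunc k] K), IsRes res := by
  let _ : Algebra (RatFunc k) L := ((algebraMap K L).comp (algebraMap (RatFunc k) K)).toAlgebra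
  have : IsScalarTower (RatFunc k) K L := .of_algebraMap_eq fun _ => rfl
  have := Bridge_tower (k := k) K
  have : IsScalarTower k (RatFunc k) L := .of_algebraMap_eq fun c => by
    rw [IsScalarTower.algebraMap_apply k K L, IsScalarTower.algebraMap_apply k (RatFunc k) K]; rfl
  have := Algebra.IsAlgebraic.trans (RatFunc k) K L
  have : IsAlgClosure (RatFunc k) L := ⟨inferInstance, inferInstance⟩
  let lift : GG k (th k K L) →* (L ≃ₐ[RatFunc k] L) :=
    { toFun := fun η => { η.1.toRingEquiv with
        commutes' := fun u => Bridge_fix (η.1.toAlgHom.comp (IsScalarTower.toAlgHom k K L)) η.2 u }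
      map_one' := rfl
      map_mul' := fun _ _ => rfl }
  refine ⟨(AlgEquiv.restrictNormalHom K).comp lift, fun g => ?_, fun η x => ?_⟩
  · obtain ⟨χ, hχ⟩ := AlgEquiv.restrictNormalHom_surjective (F := RatFunc k) (K₁ := K) L g
    refine ⟨⟨χ.restrictScalars k, ?_⟩, hχ⟩
    change χ (algebraMap K L (algebraMap k[X] K X)) = algebraMap K L (algebraMap k[X] K X)
    rw [IsScalarTower.algebraMap_apply k[X] (RatFunc k) K]
    exact χ.commutes _
  · exact AlgEquiv.restrictNormal_commutes (lift η) K x

theorem IsRes.loc {res : GG k (th k K L) →* (K ≃ₐ[RatFunc k] K)} (hres : IsRes res)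
    (Ψ : (K ≃ₐ[RatFunc k] K) → ℝ) : Loc fun η => Ψ (res η) := by
  let b := Module.finBasis (RatFunc k) K
  refine ⟨Finset.univ.image fun i => algebraMap K L (b i), fun η η' h => congrArg Ψ ?_⟩
  have e : (res η).toLinearMap = (res η').toLinearMap := b.ext fun i =>
    (algebraMap K L).injective ((hres.2 η _).trans
      ((h _ (Finset.mem_image_of_mem _ (Finset.mem_univ i))).trans (hres.2 η' _).symm))
  exact AlgEquiv.ext fun x => LinearMap.congr_fun e x

theorem emb_t (φ : E →ₐ[RatFunc k] K) : emb L φ (tE k E) = th k K L :=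
  congrArg (algebraMap K L) ((φ.restrictScalars k[X]).commutes X)

theorem emb_injective :
    Function.Injective (emb L : (E →ₐ[RatFunc k] K) → (E →ₐ[k] L)) := fun _ _ h =>
  AlgHom.ext fun a => (algebraMap K L).injective (AlgHom.congr_fun h a)

theorem emb_surj (ψ : E →ₐ[RatFunc k] K) {y : E →ₐ[k] L} (hy : y (tE k E) = th k K L) :
    ∃ φ : E →ₐ[RatFunc k] K, emb L φ = y := by
  let _ : Algebra (RatFunc k) L := ((algebraMap K L).comp (algebraMap (RatFunc k) K)).toAlgebra
  have : IsScalarTower (RatFunc k) K L := .of_algebraMap_eq fun _ => rfl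
  let y' : E →ₐ[RatFunc k] L := { y.toRingHom with commutes' := Bridge_fix (K := K) y hy }
  have hs : ∀ x : E, ((minpoly (RatFunc k) x).map (algebraMap (RatFunc k) K)).Splits := fun x => by
    rw [← minpoly.algHom_eq ψ ψ.injective x]
    exact Normal.splits inferInstance _
  obtain ⟨φ, hφ⟩ := (Algebra.IsAlgebraic.algHomEquivAlgHomOfSplits L K hs).surjective y'
  exact ⟨φ, AlgHom.ext fun a => AlgHom.congr_fun hφ a⟩

theorem exists_gal (φ ψ : E →ₐ[RatFunc k] K) :
    ∃ g : K ≃ₐ[RatFunc k] K, g.toAlgHom.comp φ = ψ := by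
  let _ : Algebra E K := φ.toRingHom.toAlgebra
  have : IsScalarTower (RatFunc k) E K := .of_algebraMap_eq fun u => (φ.commutes u).symm
  exact ⟨AlgEquiv.ofBijective (ψ.liftNormal K) (AlgHom.bijective _),
    AlgHom.ext fun a => ψ.liftNormal_commutes K a⟩

theorem IsRes.tw_emb {res : GG k (th k K L) →* (K ≃ₐ[RatFunc k] K)} (hres : IsRes res)
    (η : GG k (th k K L)) (φ : E →ₐ[RatFunc k] K) :
    tw η.1 (emb L φ) = emb L ((res η).toAlgHom.comp φ) :=
  AlgHom.ext fun a => (hres.2 η (φ a)).symm

theorem th_mem_AK : th k K L ∈ AK OK K L :=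
  ⟨algebraMap k[X] OK X,
    congrArg (algebraMap K L) (IsScalarTower.algebraMap_apply k[X] OK K X).symm⟩

theorem alg_mem_AK (c : k) : algebraMap k L c ∈ AK OK K L := by
  refine ⟨algebraMap k[X] OK (algebraMap k k[X] c), ?_⟩
  rw [RingHom.comp_apply, ← IsScalarTower.algebraMap_apply k[X] OK K,
    ← IsScalarTower.algebraMap_apply k k[X] K, ← IsScalarTower.algebraMap_apply k K L]

theorem mem_AK_iff (x : K) :
    algebraMap K L x ∈ AK OK K L ↔ IsIntegral k[X] x := by
  rw [IsIntegralClosure.isIntegral_iff (A := OK)]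
  exact ⟨fun ⟨c, hc⟩ => ⟨c, (algebraMap K L).injective hc⟩,
    fun ⟨c, hc⟩ => ⟨c, congrArg (algebraMap K L) hc⟩⟩

theorem emb_mem_AK (φ : E →ₐ[RatFunc k] K) {a : E} (ha : a ∈ OO k (tE k E)) :
    emb L φ a ∈ AK OK K L :=
  (mem_AK_iff (k := k) (φ a)).2 (((Bridge_OO E a).1 ha).map (φ.restrictScalars k[X]))

theorem GG_mem_AK (g : GG k (th k K L)) {c : L} (hc : c ∈ AK OK K L) : g.1 c ∈ AK OK K L := by
  obtain ⟨res, hres⟩ := exists_res (k := k) (K := K) (L := L)
  obtain ⟨b, rfl⟩ := hc
  rw [RingHom.comp_apply, ← hres.2 g, mem_AK_iff (k := k)]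
  exact (IsIntegralClosure.isIntegral_iff.2 ⟨b, rfl⟩ :
    IsIntegral k[X] (algebraMap OK K b)).map ((res g).toAlgHom.restrictScalars k[X])

theorem AK_le_one (w : GV k L) (hw : w.v (th k K L) ≤ 1) {c : L} (hc : c ∈ AK OK K L) :
    w.v c ≤ 1 := by
  obtain ⟨b, rfl⟩ := hc
  have hb : IsIntegral k[X] (algebraMap OK K b) := IsIntegralClosure.isIntegral_iff.2 ⟨b, rfl⟩
  have hP : ∀ P : k[X], ((algebraMap K L).comp (algebraMap k[X] K)) P ∈ w.v.integer := by
    intro P
    induction P using Polynomial.induction_on' with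
    | add P Q hP hQ => rw [map_add]; exact add_mem hP hQ
    | monomial n c =>
      rw [← C_mul_X_pow_eq_monomial, map_mul, map_pow]
      refine mul_mem ?_ (pow_mem hw n)
      have e : ((algebraMap K L).comp (algebraMap k[X] K)) (C c) = algebraMap k L c := by
        rw [IsScalarTower.algebraMap_apply k K L, IsScalarTower.algebraMap_apply k k[X] K]; rfl
      rw [e]
      exact w.alg_le (isAlgebraic_algebraMap c)
  exact (Valuation.integer.integers w.v).mem_of_integral
    (hb.map_of_comp_eq (RingHom.codRestrict _ w.v.integer hP) (algebraMap K L) rfl)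

/-- For `b ∈ O_E` the value `φ b` lies in `O_K`. -/
theorem exists_OK (φ : E →ₐ[RatFunc k] K) (b : OE) :
    ∃ c : OK, algebraMap OK K c = φ (algebraMap OE E b) :=
  IsIntegralClosure.isIntegral_iff.1 ((IsIntegralClosure.isIntegral_iff.2 ⟨b, rfl⟩ :
    IsIntegral k[X] (algebraMap OE E b)).map (φ.restrictScalars k[X]))

theorem legs_emb [Fintype (E →ₐ[RatFunc k] K)] (d : (E →ₐ[RatFunc k] K) → ℕ)
    (φ : E →ₐ[RatFunc k] K) : (legs d : (E →ₐ[k] L) →₀ ℤ) (emb L φ) = d φ := by
  rw [legs, Finsupp.finsetSum_apply, Finset.sum_eq_single φ, Finsupp.single_eq_same]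
  · exact fun ψ _ h => Finsupp.single_eq_of_ne fun e => h (emb_injective e).symm
  · exact fun h => absurd (Finset.mem_univ φ) h

theorem legs_support [Fintype (E →ₐ[RatFunc k] K)] (d : (E →ₐ[RatFunc k] K) → ℕ)
    {y : E →ₐ[k] L} (hy : y ∈ (legs d : (E →ₐ[k] L) →₀ ℤ).support) :
    y (tE k E) = th k K L := by
  by_contra hn
  refine Finsupp.mem_support_iff.1 hy ?_
  rw [legs, Finsupp.finsetSum_apply]
  exact Finset.sum_eq_zero fun φ _ => Finsupp.single_eq_of_ne fun e => hn (e ▸ emb_t φ)

variable (k OK K L) in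
/-- The inclusion of `O_K` in `L`. -/
def BridgeK : OK →ₐ[k] L where
  toRingHom := (algebraMap K L).comp (algebraMap OK K)
  commutes' := fun c => by
    change algebraMap K L (algebraMap OK K (algebraMap k OK c)) = _
    rw [IsScalarTower.algebraMap_apply k k[X] OK, ← IsScalarTower.algebraMap_apply k[X] OK K,
      ← IsScalarTower.algebraMap_apply k k[X] K, ← IsScalarTower.algebraMap_apply k K L]

variable (k OE E) in
/-- The inclusion of `O_E` in `E`. -/
def BridgeE : OE →ₐ[k] E where
  toRingHom := algebraMap OE E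
  commutes' := fun c => by
    change algebraMap OE E (algebraMap k OE c) = _
    rw [IsScalarTower.algebraMap_apply k k[X] OE, ← IsScalarTower.algebraMap_apply k[X] OE E,
      ← IsScalarTower.algebraMap_apply k k[X] E]

variable [IsDomain (L ⊗[k] E)]

variable (OE OK E K L) in
theorem exists_rho : ∃ ρ : OK ⊗[k] OE →+* FL k E L, IsRho E K L ρ :=
  ⟨(algebraMap (L ⊗[k] E) (FL k E L)).comp
    (Algebra.TensorProduct.map (BridgeK k K OK L) (BridgeE k E OE)).toRingHom, fun _ _ => rfl⟩

theorem IsRho.injective {ρ : OK ⊗[k] OE →+* FL k E L} (hρ : IsRho E K L ρ) :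
    Function.Injective ρ := by
  have e : ∀ x, ρ x = algebraMap (L ⊗[k] E) (FL k E L)
      (TensorProduct.map (BridgeK k K OK L).toLinearMap (BridgeE k E OE).toLinearMap x) := by
    intro x
    induction x using TensorProduct.induction_on with
    | zero => simp only [map_zero]
    | tmul c b => exact hρ c b
    | add x y hx hy => simp only [map_add, hx, hy]
  have h1 : Function.Injective (BridgeK k K OK L).toLinearMap :=
    (algebraMap K L).injective.comp (IsIntegralClosure.algebraMap_injective OK k[X] K)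
  have h2 : Function.Injective (BridgeE k E OE).toLinearMap :=
    IsIntegralClosure.algebraMap_injective OE k[X] E
  intro x y h
  rw [e, e] at h
  exact TensorProduct.map_injective_of_flat_flat _ _ h1 h2
    (IsFractionRing.injective (L ⊗[k] E) (FL k E L) h)

theorem IsRho.mem_RA_iff {ρ : OK ⊗[k] OE →+* FL k E L} (hρ : IsRho E K L ρ) (r : FL k E L) :
    r ∈ RA k (AK OK K L) (tE k E) ↔ ∃ x, ρ x = r := by
  constructor
  · intro h
    refine (Subring.closure_le.2 ?_ : RA k (AK OK K L) (tE k E) ≤ ρ.range) h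
    rintro _ ⟨_, ⟨c, rfl⟩, a, ha, rfl⟩
    obtain ⟨b, rfl⟩ := (mem_OO_iff_range OE a).1 ha
    exact ⟨c ⊗ₜ[k] b, hρ c b⟩
  · rintro ⟨x, rfl⟩
    induction x using TensorProduct.induction_on with
    | zero => rw [map_zero]; exact zero_mem _
    | tmul c b =>
      exact Subring.subset_closure
        ⟨_, ⟨c, rfl⟩, _, (mem_OO_iff_range OE _).2 ⟨b, rfl⟩, hρ c b⟩
    | add x y hx hy => rw [map_add]; exact add_mem hx hy

theorem IsRho.map_sig {ρ : OK ⊗[k] OE →+* FL k E L} (hρ : IsRho E K L ρ) (x : OK ⊗[k] OE) :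
    ρ (sig k OE OK x) = mapF (fr k L) (ρ x) := by
  induction x using TensorProduct.induction_on with
  | zero => rw [map_zero (sig k OE OK), ρ.map_zero, RingEquiv.map_zero]
  | tmul c b =>
    have e : sig k OE OK (c ⊗ₜ[k] b) = (c ^ Fintype.card k) ⊗ₜ[k] b := rfl
    rw [e, hρ, hρ, mapF_tm, fr_apply, map_pow, map_pow]
  | add x y hx hy =>
    rw [map_add (sig k OE OK), ρ.map_add, ρ.map_add, RingEquiv.map_add, hx, hy]

theorem IsRho.map_jj {ρ : OK ⊗[k] OE →+* FL k E L} (hρ : IsRho E K L ρ) :
    ρ (jj k OE OK) = tm 1 (tE k E) - tm (th k K L) 1 := by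
  rw [jj, map_sub, hρ, hρ, map_one, map_one, map_one, ← IsScalarTower.algebraMap_apply k[X] OE E,
    ← IsScalarTower.algebraMap_apply k[X] OK K]

end Pool.Agent.FFC
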