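import Pool.Agent.P.MP_a2beea_nt.FC.Defs2

/-! Bookkeeping quantities. -/

open Polynomial
open scoped TensorProduct NNReal IntermediateField

namespace Pool.Agent.FFC

noncomputable section

open Classical

variable {k : Type*} [Field k] {E : Type*} [Field E] [Algebra k E]
  {L : Type*} [Field L] [Algebra k L]

/-- The constant functions. -/
def tmL (k : Type*) [Field k] (E : Type*) [Field E] [Algebra k E] (L : Type*) [Field L]
    [Algebra k L] : L →+* FL k E L :=
  (algebraMap (L ⊗[k] E) (FL k E L)).comp Algebra.TensorProduct.includeLeftRingHom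

theorem tmL_apply (c : L) : tmL k E L c = tm c (1 : E) := rfl

/-- The largest absolute value on a set of scalars. -/
def supS (w : GV k L) (V : Set L) : ℝ≥0 := sSup {r | ∃ x ∈ V, r = w.v x}

variable [IsDomain (L ⊗[k] E)]

/-- The largest Gauss norm of a member of a lattice. -/
def gaussL (w : GV k L) (I : AddSubgroup (FL k E L)) : ℝ≥0 := sSup {r | ∃ x ∈ I, r = gauss w x}

/-- The local intersection number of a point with the divisor of a lattice. -/
def dI (w : GV k L) (t : E) (J : AddSubgroup (FL k E L)) (y : E →ₐ[k] L) : ℝ :=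
  ∑ᶠ z : Pt k E L, (dv t J z : ℝ) * ipt w (Pt.ofHom y) z

/-- The values at `φ` of the functions which vanish at the other points above `φ t`. -/
def dif (A : Subring L) (t : E) (φ : E →ₐ[k] L) : Set L :=
  {c | ∃ r ∈ RA k A t, (∀ χ : E →ₐ[k] L, χ t = φ t → χ ≠ φ → val (Pt.ofHom χ) r = 0) ∧
    c = val (Pt.ofHom φ) r}

variable [Fintype k] [IsAlgClosed L]

/-- `μ` embeds the motive in the function field. -/
structure IsEmb {R M : Type*} [CommRing R] [AddCommGroup M] [Module R M]
    (ρ : R →+* FL k E L) (τ : M →+ M) (μ : M →+ FL k E L) (f : FL k E L)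
    (I : AddSubgroup (FL k E L)) : Prop where
  inj : Function.Injective μ
  smul : ∀ (r : R) (x : M), μ (r • x) = ρ r * μ x
  range : μ.range = I
  tau : ∀ x : M, μ (τ x) = f * mapF (fr k L) (μ x)

/-- The local intersection number of the `n`-th Frobenius twist of `D` with `φ`. -/
def cL (w : GV k L) (D : (E →ₐ[k] L) →₀ ℤ) (n : ℕ) (φ : E →ₐ[k] L) : ℝ :=
  D.sum fun χ c => (c : ℝ) * ipt w (Pt.ofHom (tw (fr k L ^ n) χ)) (Pt.ofHom φ)

/-- The regularized sum of the orders of `f` along the backward orbit of a point. -/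
def cc (f : FL k E L) (F : ℕ) (x : Pt k E L) : ℝ :=
  regP F fun i => (ord (((fr k L)⁻¹ ^ (i - 1)) • x) f : ℝ)

/-- The local term at infinity. -/
def TT (w : GV k L) (f : FL k E L) (F : ℕ) (D : (E →ₐ[k] L) →₀ ℤ) (φ : E →ₐ[k] L) : ℝ :=
  regP F (fun n => cL w D n φ) +
    cc f F (red w (Pt.ofHom φ)) * ipt w (Pt.ofHom φ) (red w (Pt.ofHom φ))

variable {θ : L}

/-- The part at infinity of the intersection number of the `n`-th twist of `D` with `φ`. -/
def cI (P : PD k θ) (D : (E →ₐ[k] L) →₀ ℤ) (n : ℕ) (φ : E →ₐ[k] L) : ℝ :=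
  avg fun η => cL (P.W none η) D n φ

/-- The finite part of the intersection number of the `n`-th twist of `D` with `φ`. -/
def cF (P : PD k θ) (D : (E →ₐ[k] L) →₀ ℤ) (n : ℕ) (φ : E →ₐ[k] L) : ℝ :=
  Ifin fun v η => cL (P.W v η) D n φ

/-- The geometric expression for the height. -/
def HH (P : PD k θ) (t : E) (F : ℕ) (D X : (E →ₐ[k] L) →₀ ℤ) (φ : E →ₐ[k] L) : ℝ :=
  -BB P t X (Finsupp.single φ 1) + regP F fun n => cI P D n φ

end

end Pool.Agent.FFC
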