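import Pool.Agent.P.MP_a2beea_nt.FC.RedMap
import Pool.Agent.P.MP_a2beea_nt.FC.Defs3

/-! Intersections of a point with the Frobenius twists of points in the same fibre of `t`; these are
consequences of `ipt_leg`, `ipt_fr`, `red_fr` and `orbit_of_O_eq`. For `ipt_red_eq` see the
docstring of `RedMap`. -/

set_option linter.unusedSectionVars false

open Polynomial
open scoped TensorProduct NNReal IntermediateField

namespace Pool.Agent.FFC

open Classical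

variable {k : Type*} [Field k] [Fintype k] {E : Type*} [Field E] [Algebra k E] {t : E}
  {L : Type*} [Field L] [Algebra k L] [IsAlgClosed L]
  [IsDomain (L ⊗[k] E)]

theorem ipt_red_eq (h : FF k t) (w : GV k L) {χ φ : E →ₐ[k] L} (he : χ t = φ t)
    (hO : redO w (Pt.ofHom χ) = redO w (Pt.ofHom φ)) :
    ipt w (Pt.ofHom χ) (red w (Pt.ofHom χ)) = ipt w (Pt.ofHom φ) (red w (Pt.ofHom φ)) := by
  rw [ipt_red h, ipt_red h, Pt.ofHom_ev, Pt.ofHom_ev, hO, redmap_unif_eq h w he hO]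

theorem red_bk (w : GV k L) (φ : E →ₐ[k] L) (i : ℕ) :
    red w (Pt.ofHom (tw ((fr k L)⁻¹ ^ i) φ)) = ((fr k L)⁻¹ ^ i) • red w (Pt.ofHom φ) := by
  rw [← Pt.smul_ofHom, inv_pow, eq_inv_smul_iff, ← redmap_red_nat, smul_inv_smul]

theorem ipt_bk (w : GV k L) (φ : E →ₐ[k] L) (i : ℕ) :
    ipt w (Pt.ofHom (tw ((fr k L)⁻¹ ^ i) φ)) (red w (Pt.ofHom (tw ((fr k L)⁻¹ ^ i) φ))) =
      ipt w (Pt.ofHom φ) (red w (Pt.ofHom φ)) / (Fintype.card k : ℝ) ^ i := by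
  have hq : (0 : ℝ) < (Fintype.card k : ℝ) ^ i := by
    have := Fintype.card_pos (α := k)
    positivity
  rw [red_bk, ← Pt.smul_ofHom, inv_pow, eq_div_iff hq.ne', mul_comm, ← redmap_ipt_nat,
    smul_inv_smul, smul_inv_smul]

theorem cL_eq (h : FF k t) (w : GV k L) {D : (E →ₐ[k] L) →₀ ℤ} {φ : E →ₐ[k] L}
    (hD : ∀ y ∈ D.support, y t = φ t) {n : ℕ} (hn : 1 ≤ n) :
    cL w D n φ =
      (D.sum fun χ c =>
          if red w (Pt.ofHom χ) = ((fr k L)⁻¹ ^ n) • red w (Pt.ofHom φ) then (c : ℝ) else 0) *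
        ipt w (Pt.ofHom φ) (red w (Pt.ofHom φ)) := by
  unfold cL Finsupp.sum
  rw [Finset.sum_mul]
  refine Finset.sum_congr rfl fun χ hχ => ?_
  beta_reduce
  rw [ipt_leg h w (hD χ hχ) hn, inv_pow]
  simp only [eq_inv_smul_iff]
  split_ifs <;> simp

theorem inv_pow_add_smul {F : ℕ} {x : Pt k E L} (hF : (fr k L ^ F) • x = x) (i : ℕ) :
    ((fr k L)⁻¹ ^ (i + F)) • x = ((fr k L)⁻¹ ^ i) • x := by
  rw [pow_add, mul_smul, inv_pow _ F]
  congr 1
  rw [inv_smul_eq_iff, hF]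

theorem orbit_sum_eq (h : FF k t) (c : Pt k E L → ℝ) {F : ℕ} {x x' : Pt k E L} (hx : x.O ≠ ⊤)
    (hO : x.O = x'.O) (hF : (fr k L ^ F) • x = x) :
    ∑ i ∈ Finset.range F, c (((fr k L)⁻¹ ^ i) • x) =
      ∑ i ∈ Finset.range F, c (((fr k L)⁻¹ ^ i) • x') := by
  obtain ⟨j, rfl⟩ := orbit_of_O_eq h hx hO
  clear hO
  have hper : ∀ j : ℕ, (fr k L ^ F) • (fr k L ^ j) • x = (fr k L ^ j) • x := by
    intro j
    rw [← mul_smul, ← pow_add, add_comm, pow_add, mul_smul, hF]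
  induction j with
  | zero => simp
  | succ j ih =>
    rw [ih]
    have e1 := Finset.sum_range_succ (fun i => c (((fr k L)⁻¹ ^ i) • (fr k L ^ (j + 1)) • x)) F
    have e2 := Finset.sum_range_succ' (fun i => c (((fr k L)⁻¹ ^ i) • (fr k L ^ (j + 1)) • x)) F
    have e3 : ((fr k L)⁻¹ ^ F) • (fr k L ^ (j + 1)) • x =
        ((fr k L)⁻¹ ^ 0) • (fr k L ^ (j + 1)) • x := by
      have := inv_pow_add_smul (hper (j + 1)) 0
      rwa [zero_add] at this
    have e4 : ∀ i : ℕ, ((fr k L)⁻¹ ^ (i + 1)) • (fr k L ^ (j + 1)) • x =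
        ((fr k L)⁻¹ ^ i) • (fr k L ^ j) • x := by
      intro i
      rw [pow_succ, pow_succ', mul_smul, mul_smul, inv_smul_smul]
    simp only [e4] at e2
    rw [e3] at e1
    exact add_right_cancel (e2.symm.trans e1)

theorem cL_periodic (h : FF k t) (w : GV k L) {D : (E →ₐ[k] L) →₀ ℤ} {φ : E →ₐ[k] L}
    (hD : ∀ y ∈ D.support, y t = φ t) (hw : 1 < w.v (φ t)) {F : ℕ}
    (hF : ∀ x : Pt k E L, t ∉ x.O → (fr k L ^ F) • x = x) {n : ℕ} (hn : 1 ≤ n) :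
    cL w D (n + F) φ = cL w D n φ := by
  have ht : t ∉ (red w (Pt.ofHom φ)).O := fun ht => absurd ht.2 (not_le.2 hw)
  rw [cL_eq h w hD hn, cL_eq h w hD (hn.trans (Nat.le_add_right n F)),
    inv_pow_add_smul (hF _ ht)]

theorem cL_sum_eq (h : FF k t) (w : GV k L) {D : (E →ₐ[k] L) →₀ ℤ} {φ φ' : E →ₐ[k] L}
    (hD : ∀ y ∈ D.support, y t = φ t) (he : φ' t = φ t) (hw : 1 < w.v (φ t))
    (hO : redO w (Pt.ofHom φ) = redO w (Pt.ofHom φ')) {F : ℕ}
    (hF : ∀ x : Pt k E L, t ∉ x.O → (fr k L ^ F) • x = x) :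
    ∑ i ∈ Finset.range F, cL w D (i + 1) φ = ∑ i ∈ Finset.range F, cL w D (i + 1) φ' := by
  have ht : t ∉ (red w (Pt.ofHom φ)).O := fun ht => absurd ht.2 (not_le.2 hw)
  have hD' : ∀ y ∈ D.support, y t = φ' t := fun y hy => (hD y hy).trans he.symm
  have key := orbit_sum_eq h (fun z => D.sum fun χ c =>
      if red w (Pt.ofHom χ) = (fr k L)⁻¹ • z then (c : ℝ) else 0) (F := F)
    (red_ne_top h w (Pt.ofHom φ)) (x' := red w (Pt.ofHom φ')) hO (hF _ ht)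
  simp only [← mul_smul, ← pow_succ'] at key
  rw [Finset.sum_congr rfl fun i _ => cL_eq h w hD (Nat.le_add_left 1 i),
    Finset.sum_congr rfl fun i _ => cL_eq h w hD' (Nat.le_add_left 1 i),
    ← Finset.sum_mul, ← Finset.sum_mul, key, ipt_red_eq h w he hO.symm]

end Pool.Agent.FFC
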