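import Pool.Agent.P.MP_a2beea_nt.FC.One
import Pool.Agent.P.MP_a2beea_nt.FC.Add2

/-! Intersections at infinity for points of different levels. `ipt_closer`: if the reductions agree
then `χ` and `y` induce the same place `O` with uniformizer `π`, `a = π ^ m * unit` with `m > 0`
(`place_factor`, `v_of_factor`), so `w (χ π) < w (y π)`; compare `ipt_leg`, `ipt_red`.
`cL_eq2`: `ipt_closer` with `a = t⁻¹`, `red_fr`. `lam_lev`: `lam_mul`, and the order of `t` is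
the same at conjugate points (`orbit_of_O_eq`, `ord_map`, `mapF_tm`). The other statements follow
with `orbit_sum_eq`, `inv_pow_add_smul`. -/

set_option linter.unusedSectionVars false

open Polynomial
open scoped TensorProduct NNReal IntermediateField

namespace Pool.Agent.FFC

open Classical

variable {k : Type*} [Field k] [Fintype k] {E : Type*} [Field E] [Algebra k E] {t : E}
  {L : Type*} [Field L] [Algebra k L] [IsAlgClosed L]
  [IsDomain (L ⊗[k] E)]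
  [Nonempty (GV k L)]
  {θ : L}
  {A A' : Subring L} {f : FL k E L} {I J N : AddSubgroup (FL k E L)}
  {D : ℕ → (E →ₐ[k] L) →₀ ℤ} {p l b : ℕ} {y : E →ₐ[k] L}
  {X : (E →ₐ[k] L) →₀ ℤ} {y' : E →ₐ[k] L}

theorem ipt_closer (h : FF k t) (w : GV k L) {χ : E →ₐ[k] L} {a : E}
    (h1 : w.v (χ a) < w.v (y a)) (h2 : w.v (y a) < 1) :
    ipt w (Pt.ofHom χ) (Pt.ofHom y) =
      if red w (Pt.ofHom χ) = red w (Pt.ofHom y) then ipt w (Pt.ofHom y) (red w (Pt.ofHom y)) else 0 := by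
  split_ifs with hc
  · have hO : redO w (Pt.ofHom χ) = redO w (Pt.ofHom y) := congrArg Pt.O hc
    have ha0 : a ≠ 0 := by
      rintro rfl
      simp at h1
    obtain ⟨n, h3, h4⟩ := place_factor h (redO_place h w (Pt.ofHom y)) ha0
    have e1 := v_of_factor h w y ha0 h3 h4
    have e2 := v_of_factor h w χ ha0 (n := n) (by rwa [hO]) (by rwa [hO])
    rw [hO] at e2
    have u1 : w.v (y (unif (redO w (Pt.ofHom y)))) < 1 := v_unif_lt h w (Pt.ofHom y)
    have u0 := v_unif_ne h w y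
    have hn : 0 < n := by
      rw [e1] at h2
      exact (zpow_lt_one_iff_right_of_lt_one₀ (pos_iff_ne_zero.2 u0) u1).1 h2
    have h5 : w.v (χ (unif (redO w (Pt.ofHom y)))) < w.v (y (unif (redO w (Pt.ofHom y)))) := by
      rw [e1, e2] at h1
      obtain ⟨m, rfl⟩ := Int.eq_ofNat_of_zero_le hn.le
      rw [zpow_natCast, zpow_natCast] at h1
      exact lt_of_pow_lt_pow_left₀ _ zero_le h1
    rw [ipt_red h]
    unfold ipt dst
    rw [if_pos hc, hO, Pt.ofHom_ev, Pt.ofHom_ev, w.v.map_sub_eq_of_lt_right h5]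
  · exact ipt_of_red_ne hc

theorem cL_eq2 (h : FF k t) (w : GV k L) {n : ℕ} (hy : 1 < w.v (y t))
    (hX : ∀ χ ∈ X.support, w.v (y t) < w.v (χ t) ^ Fintype.card k ^ n) :
    cL w X n y = cnt w X (((fr k L)⁻¹ ^ n) • red w (Pt.ofHom y)) * ipt w (Pt.ofHom y) (red w (Pt.ofHom y)) := by
  unfold cL cnt Finsupp.sum
  rw [Finset.sum_mul]
  refine Finset.sum_congr rfl fun χ hχ => ?_
  beta_reduce
  have h0 : 0 < w.v (y t) := zero_lt_one.trans hy
  have h1 : w.v (tw (fr k L ^ n) χ t⁻¹) < w.v (y t⁻¹) := by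
    have e : tw (fr k L ^ n) χ t⁻¹ = (fr k L ^ n) (χ t⁻¹) := rfl
    rw [e, fr_pow_apply, map_inv₀, map_inv₀, inv_pow, map_inv₀, map_inv₀, map_pow]
    exact inv_strictAnti₀ h0 (hX χ hχ)
  have h2 : w.v (y t⁻¹) < 1 := by
    rw [map_inv₀, map_inv₀]
    exact inv_lt_one_of_one_lt₀ hy
  rw [ipt_closer h w h1 h2, ← Pt.smul_ofHom, redmap_red_nat, inv_pow]
  simp only [eq_inv_smul_iff]
  split_ifs <;> simp

theorem cL_eq2' (h : FF k t) (w : GV k L) (hy : 1 < w.v (y t))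
    (hX : ∀ χ ∈ X.support, w.v (y t) < w.v (χ t) ^ Fintype.card k) {n : ℕ} (hn : 1 ≤ n) :
    cL w X n y = cnt w X (((fr k L)⁻¹ ^ n) • red w (Pt.ofHom y)) * ipt w (Pt.ofHom y) (red w (Pt.ofHom y)) := by
  refine cL_eq2 h w hy fun χ hχ => (hX χ hχ).trans_le ?_
  have h1 : 1 < w.v (χ t) ^ Fintype.card k := hy.trans (hX χ hχ)
  have h2 : 1 ≤ w.v (χ t) := by
    by_contra h3
    exact absurd (pow_le_one₀ zero_le (not_le.1 h3).le) (not_le.2 h1)
  refine pow_le_pow_right₀ h2 ?_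
  calc Fintype.card k = Fintype.card k ^ 1 := (pow_one _).symm
    _ ≤ Fintype.card k ^ n := Nat.pow_le_pow_right Fintype.card_pos hn

theorem red_inf (w : GV k L) (hy : 1 < w.v (y t)) : t ∉ (red w (Pt.ofHom y)).O := One_inf hy

theorem cL_periodic2 (h : FF k t) (w : GV k L) (hy : 1 < w.v (y t))
    (hX : ∀ χ ∈ X.support, w.v (y t) < w.v (χ t) ^ Fintype.card k) {F : ℕ}
    (hF : ∀ x : Pt k E L, t ∉ x.O → (fr k L ^ F) • x = x) {n : ℕ} (hn : 1 ≤ n) :
    cL w X (n + F) y = cL w X n y := by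
  rw [cL_eq2' h w hy hX hn, cL_eq2' h w hy hX (hn.trans (Nat.le_add_right n F)),
    inv_pow_add_smul (hF _ (red_inf w hy))]

private theorem CL2_one_lt (w : GV k L) (hθ : 1 < w.v θ) {m : ℕ} (hm : m ≠ 0) (hy : y t = θ ^ m) :
    1 < w.v (y t) := by
  rw [hy, map_pow]
  exact one_lt_pow₀ hθ hm

theorem lam_lev (h : FF k t) (w : GV k L) (hθ : 1 < w.v θ) {m m' : ℕ} (hm : m ≠ 0) (hm' : m' ≠ 0)
    (hy : y t = θ ^ m) (hy' : y' t = θ ^ m')
    (hO : redO w (Pt.ofHom y) = redO w (Pt.ofHom y')) :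
    (m' : ℝ) * ipt w (Pt.ofHom y) (red w (Pt.ofHom y)) = m * ipt w (Pt.ofHom y') (red w (Pt.ofHom y')) := by
  have h1 := CL2_one_lt w hθ hm hy
  have h2 := CL2_one_lt w hθ hm' hy'
  have e1 := lam_mul h w h1
  have e2 := lam_mul h w h2
  rw [hy, map_pow, NNReal.coe_pow, Real.log_pow] at e1
  rw [hy', map_pow, NNReal.coe_pow, Real.log_pow] at e2
  obtain ⟨j, hj⟩ := orbit_of_O_eq h (red_ne_top h w (Pt.ofHom y))
    (x' := red w (Pt.ofHom y')) hO
  have e3 : ord (red w (Pt.ofHom y')) (tm (1 : L) t) = ord (red w (Pt.ofHom y)) (tm (1 : L) t) := by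
    have := ord_map h (fr k L ^ j) (red w (Pt.ofHom y)) (tm (1 : L) t)
    rwa [mapF_tm, map_one, ← hj] at this
  have e4 : (ord (red w (Pt.ofHom y)) (tm (1 : L) t) : ℝ) < 0 := by
    exact_mod_cast htc_ord_neg h (red_inf w h1)
  rw [e3] at e2
  refine mul_left_cancel₀ (neg_ne_zero.2 e4.ne) ?_
  linear_combination (m' : ℝ) * e1 - (m : ℝ) * e2

theorem meanE_eq (h : FF k t) (w : GV k L) (hθ : 1 < w.v θ) {m m' : ℕ} (hm : m ≠ 0) (hm' : m' ≠ 0)
    (hy : y t = θ ^ m) (hy' : y' t = θ ^ m') (hO : redO w (Pt.ofHom y) = redO w (Pt.ofHom y'))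
    {F : ℕ} (hF : ∀ x : Pt k E L, t ∉ x.O → (fr k L ^ F) • x = x) (ε : Pt k E L → ℝ)
    (X : (E →ₐ[k] L) →₀ ℤ) : (m' : ℝ) * meanE w ε X F y = m * meanE w ε X F y' := by
  have ht := red_inf w (CL2_one_lt w hθ hm hy)
  have key := orbit_sum_eq h (fun z => ε z + cnt w X z) (F := F)
    (red_ne_top h w (Pt.ofHom y)) (x' := red w (Pt.ofHom y')) hO (hF _ ht)
  have e := lam_lev h w hθ hm hm' hy hy' hO
  unfold meanE
  beta_reduce at key
  rw [key]
  generalize (∑ i ∈ Finset.range F, (ε (((fr k L)⁻¹ ^ i) • red w (Pt.ofHom y')) +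
      cnt w X (((fr k L)⁻¹ ^ i) • red w (Pt.ofHom y')))) = S
  linear_combination (S / F) * e

theorem cL_sum_eq2 (h : FF k t) (w : GV k L) (hθ : 1 < w.v θ) {m m' : ℕ} (hm : m ≠ 0)
    (hm' : m' ≠ 0) (hy : y t = θ ^ m) (hy' : y' t = θ ^ m')
    (hO : redO w (Pt.ofHom y) = redO w (Pt.ofHom y'))
    (hX : ∀ χ ∈ X.support, w.v (y t) < w.v (χ t) ^ Fintype.card k)
    (hX' : ∀ χ ∈ X.support, w.v (y' t) < w.v (χ t) ^ Fintype.card k) {F : ℕ}
    (hF : ∀ x : Pt k E L, t ∉ x.O → (fr k L ^ F) • x = x) :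
    (m' : ℝ) * ∑ i ∈ Finset.range F, cL w X (i + 1) y =
      m * ∑ i ∈ Finset.range F, cL w X (i + 1) y' := by
  have h1 := CL2_one_lt w hθ hm hy
  have h2 := CL2_one_lt w hθ hm' hy'
  have key := orbit_sum_eq h (fun z => cnt w X ((fr k L)⁻¹ • z)) (F := F)
    (red_ne_top h w (Pt.ofHom y)) (x' := red w (Pt.ofHom y')) hO (hF _ (red_inf w h1))
  simp only [← mul_smul, ← pow_succ'] at key
  have e := lam_lev h w hθ hm hm' hy hy' hO
  rw [Finset.sum_congr rfl fun i _ => cL_eq2' h w h1 hX (Nat.le_add_left 1 i),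
    Finset.sum_congr rfl fun i _ => cL_eq2' h w h2 hX' (Nat.le_add_left 1 i),
    ← Finset.sum_mul, ← Finset.sum_mul, key]
  generalize (∑ i ∈ Finset.range F, cnt w X (((fr k L)⁻¹ ^ (i + 1)) • red w (Pt.ofHom y'))) = S
  linear_combination S * e

end Pool.Agent.FFC
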