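import Pool.Agent.P.MP_a2beea_nt.FC.CL2

/-! One place at infinity. Use `orbit_mean`, `sum_legs` with `θ := y t` or `θ := c`; compare
`sum_inf_D`, `cL_mean` and the first part of the proof of `infA`. `sum_eps`: the fibre above `c`
is finite (`hom_fibre_finite`); for large `i` the sum of `h1` over the fibre is
`card * g₀ - log |c| * (∑ ε) / q ^ i`; compare with `h2` for two values of `i`. -/

open Polynomial
open scoped TensorProduct NNReal IntermediateField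

namespace Pool.Agent.FFC

open Classical

variable {k : Type*} [Field k] [Fintype k] {E : Type*} [Field E] [Algebra k E] {t : E}
  {L : Type*} [Field L] [Algebra k L] [IsAlgClosed L]
  [IsDomain (L ⊗[k] E)]
  [Nonempty (GV k L)]
  {θ : L}
  {A A' : Subring L} {f : FL k E L} {I J N : AddSubgroup (FL k E L)}
  {D : ℕ → (E →ₐ[k] L) →₀ ℤ} {p l b : ℕ} {y : E →ₐ[k] L}
  {X : (E →ₐ[k] L) →₀ ℤ}

theorem sum_inf_D2 (h : FF k t) (w : GV k L) (hX : ∀ χ ∈ X.support, 1 < w.v (χ t)) :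
    ∑ᶠ x ∈ {x : Pt k E L | t ∉ x.O}, cnt w X x = degD X := by
  rw [finsum_mem_eq_finite_toFinset_sum _ (inf_finite h), degD]
  simp only [cnt, Finsupp.sum]
  rw [Finset.sum_comm]
  refine Finset.sum_congr rfl fun χ hχ => ?_
  rw [Finset.sum_ite_eq, if_pos]
  simpa using One_inf (w := w) (φ := χ) (hX χ hχ)

theorem cL_mean2 (h : FF k t) (w : GV k L) (hy : 1 < w.v (y t))
    (hone : ∀ φ φ' : E →ₐ[k] L, φ t = y t → φ' t = y t →
      redO w (Pt.ofHom φ) = redO w (Pt.ofHom φ'))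
    (hX : ∀ χ ∈ X.support, w.v (y t) < w.v (χ t) ^ Fintype.card k) {F : ℕ}
    (hF : ∀ x : Pt k E L, t ∉ x.O → (fr k L ^ F) • x = x) :
    ∑ i ∈ Finset.range F, cL w X (i + 1) y = F * (Real.log (w.v (y t)) / dg k t) * degD X := by
  have hX' : ∀ χ ∈ X.support, 1 < w.v (χ t) := fun χ hχ => by
    by_contra hc
    exact absurd (hy.trans (hX χ hχ)) (not_lt.2 (pow_le_one' (not_lt.1 hc) _))
  have key := orbit_mean h w hy hone hF (fun x => cnt w X ((fr k L)⁻¹ • x)) rfl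
  rw [One_reindex (fr k L)⁻¹ (cnt w X), sum_inf_D2 h w hX'] at key
  rw [← key, Finset.sum_mul]
  refine Finset.sum_congr rfl fun i _ => ?_
  rw [cL_eq2' h w hy hX (Nat.le_add_left 1 i), pow_succ', mul_smul]

theorem meanE_one (h : FF k t) (w : GV k L) (hy : 1 < w.v (y t))
    (hone : ∀ φ φ' : E →ₐ[k] L, φ t = y t → φ' t = y t →
      redO w (Pt.ofHom φ) = redO w (Pt.ofHom φ'))
    (hX : ∀ χ ∈ X.support, 1 < w.v (χ t)) {F : ℕ} (hF0 : 0 < F)
    (hF : ∀ x : Pt k E L, t ∉ x.O → (fr k L ^ F) • x = x) (ε : Pt k E L → ℝ) :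
    meanE w ε X F y = Real.log (w.v (y t)) / dg k t *
      ((∑ᶠ x ∈ {x : Pt k E L | t ∉ x.O}, ε x) + degD X) := by
  have h1 := orbit_mean h w hy hone hF (fun x => ε x + cnt w X x) rfl
  rw [finsum_mem_add_distrib (inf_finite h), sum_inf_D2 h w hX] at h1
  have h3 : (F : ℝ) ≠ 0 := Nat.cast_ne_zero.2 hF0.ne'
  rw [meanE, h1, mul_assoc, mul_div_cancel_left₀ _ h3]

theorem sum_eps (h : FF k t) (w : GV k L) {c : L} (hc : 1 < w.v c) {ε : Pt k E L → ℝ}
    {α : ℕ → (E →ₐ[k] L) → ℝ} {g₀ κ s : ℝ}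
    (h1 : ∀ y : E →ₐ[k] L, y t = c → ∃ i0 : ℕ, ∀ i, i0 ≤ i →
      α i y = g₀ - ε (((fr k L)⁻¹ ^ i) • red w (Pt.ofHom y)) * ipt w (Pt.ofHom y) (red w (Pt.ofHom y)) / (Fintype.card k : ℝ) ^ i)
    (h2 : ∃ i0 : ℕ, ∀ i, i0 ≤ i →
      ∑ᶠ y ∈ {y : E →ₐ[k] L | y t = c}, α i y = κ - s * Real.log (w.v c) / (Fintype.card k : ℝ) ^ i) :
    ∑ᶠ x ∈ {x : Pt k E L | t ∉ x.O}, ε x = s := by
  have hq : (1 : ℝ) < Fintype.card k := by exact_mod_cast Fintype.one_lt_card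
  have hq0 : (Fintype.card k : ℝ) ≠ 0 := by positivity
  have hfin := hom_fibre_finite (L := L) h c
  obtain ⟨i0, hκ⟩ := h2
  obtain ⟨i1, hi1⟩ := Filter.eventually_atTop.1 ((Filter.eventually_all_finite hfin).2
    fun φ hφ => Filter.eventually_atTop.2 (h1 φ hφ))
  have key : ∀ i, max i0 i1 ≤ i → κ - s * Real.log (w.v c) / (Fintype.card k : ℝ) ^ i =
      ∑ _φ ∈ hfin.toFinset, g₀ - Real.log (w.v c) *
        (∑ᶠ x ∈ {x : Pt k E L | t ∉ x.O}, ε x) / (Fintype.card k : ℝ) ^ i := fun i hi => by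
    rw [← hκ i (by omega), finsum_mem_congr rfl (hi1 i (by omega)),
      ← sum_legs h w hc ε i, finsum_mem_eq_finite_toFinset_sum _ hfin,
      finsum_mem_eq_finite_toFinset_sum _ hfin, Finset.sum_sub_distrib, Finset.sum_div]
  have h1 := key _ le_rfl
  have h2 := key _ (Nat.le_succ _)
  have h3 : (Fintype.card k : ℝ) ^ max i0 i1 ≠ 0 := pow_ne_zero _ hq0
  have h4 : Real.log (w.v c) * ((Fintype.card k : ℝ) - 1) ≠ 0 :=
    mul_ne_zero (Real.log_pos (by exact_mod_cast hc)).ne' (sub_pos.2 hq).ne'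
  rw [pow_succ] at h2
  refine mul_left_cancel₀ h4 ?_
  have h5 := congrArg₂ (fun x y => (x - y) * ((Fintype.card k : ℝ) ^ max i0 i1 * Fintype.card k))
    h1 h2
  field_simp at h5
  linear_combination h5

end Pool.Agent.FFC
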