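import Pool.Agent.P.MP_a2beea_nt.FC.Gal0
import Pool.Agent.P.MP_a2beea_nt.FC.Bridge

/-! Frobenius cosets. The Galois group acts on `OK` (`IsIntegralClosure.MulSemiringAction`, or
`galRestrict`), compatibly with `algebraMap OK K`; the invariants of the whole group are the image
of `k[X]` (integrally closed), the invariants of the stabilizer of `φ` are `φ(O_E)` (Galois
correspondence, `IntermediateField.fixedField_fixingSubgroup`). `frobSet_nonempty`: apply
`exists_smul_of_agree` to the quotient map and its composite with the `q ^ n`-th power.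
`exists_inertia`: with `g₁ ∘ φ = χ` (`exists_gal`) apply it to the stabilizer of `φ`, `r` and
`r ∘ g₁`. `frob_avg_indep`: two primes over `π` are conjugate
(`Algebra.IsInvariant.exists_smul_of_under_eq`), and so are their Frobenius cosets. -/

open Polynomial
open scoped TensorProduct NNReal IntermediateField

namespace Pool.Agent.FFC

open Classical

variable {k : Type*} [Field k] [Fintype k] {E K : Type*} [Field E] [Field K]
  [Algebra k E] [Algebra k[X] E] [Algebra (RatFunc k) E] [IsScalarTower k k[X] E]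
  [IsScalarTower k[X] (RatFunc k) E]
  [Algebra k K] [Algebra k[X] K] [Algebra (RatFunc k) K] [IsScalarTower k k[X] K]
  [IsScalarTower k[X] (RatFunc k) K]
  [FiniteDimensional (RatFunc k) E] [Algebra.IsSeparable (RatFunc k) E]
  [FiniteDimensional (RatFunc k) K] [IsGalois (RatFunc k) K]
  {OE OK : Type*} [CommRing OE] [CommRing OK]
  [Algebra k OE] [Algebra k[X] OE] [Algebra OE E] [IsScalarTower k k[X] OE]
  [IsScalarTower k[X] OE E] [IsIntegralClosure OE k[X] E]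
  [Algebra k OK] [Algebra k[X] OK] [Algebra OK K] [IsScalarTower k k[X] OK]
  [IsScalarTower k[X] OK K] [IsIntegralClosure OK k[X] K]
  {L : Type*} [Field L] [Algebra k L] [Algebra K L] [IsScalarTower k K L] [IsAlgClosed L]
  [Algebra.IsAlgebraic K L]

private theorem Frob_mem {𝔓 : Ideal OK} {n : ℕ} {g : K ≃ₐ[RatFunc k] K} :
    g ∈ frobSet k K 𝔓 n ↔
      ∀ x : OK, galRestrict k[X] (RatFunc k) K OK g x - x ^ (Fintype.card k ^ n) ∈ 𝔓 := by
  constructor
  · intro h x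
    exact h x _ (algebraMap_galRestrict_apply k[X] g x)
  · intro h x y hy
    have e : y = galRestrict k[X] (RatFunc k) K OK g x := by
      apply IsIntegralClosure.algebraMap_injective OK k[X] K
      rw [hy, algebraMap_galRestrict_apply]
    rw [e]
    exact h x

private theorem Frob_mem' {𝔓 : Ideal OK} {n : ℕ} {g : K ≃ₐ[RatFunc k] K} :
    g ∈ frobSet k K 𝔓 n ↔
      ∀ x : OK, Ideal.Quotient.mk 𝔓 (galRestrict k[X] (RatFunc k) K OK g x) =
        Ideal.Quotient.mk 𝔓 x ^ (Fintype.card k ^ n) := by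
  rw [Frob_mem]
  refine forall_congr' fun x => ?_
  rw [← map_pow, Ideal.Quotient.eq]

omit [Fintype k] [Algebra k K] [IsScalarTower k k[X] K] [IsGalois (RatFunc k) K] [Algebra k OK]
  [IsScalarTower k k[X] OK] in
include k in
private theorem Frob_frac : IsFractionRing OK K := by
  have : IsDomain OK :=
    (IsIntegralClosure.algebraMap_injective OK k[X] K).isDomain (algebraMap OK K)
  exact IsIntegralClosure.isFractionRing_of_finite_extension k[X] (RatFunc k) K OK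

omit [Fintype k] [Algebra k K] [IsScalarTower k k[X] K] [Algebra k OK]
  [IsScalarTower k k[X] OK] in
private theorem Frob_inv (x : OK)
    (hx : ∀ g : K ≃ₐ[RatFunc k] K, galRestrict k[X] (RatFunc k) K OK g x = x) :
    ∃ p : k[X], algebraMap k[X] OK p = x := by
  have : IsFractionRing OK K := Frob_frac (k := k)
  exact (Algebra.isInvariant_of_isGalois k[X] (RatFunc k) K OK).1 x hx

theorem frobSet_nonempty {π : FinPl k} {𝔓 : Ideal OK} (hP : 𝔓.IsMaximal)
    (hπ : algebraMap k[X] OK π.1 ∈ 𝔓) {n : ℕ} (hd : π.1.natDegree ∣ n) :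
    (frobSet k K 𝔓 n).Nonempty := by
  have : 𝔓.IsPrime := hP.isPrime
  let _ : MulSemiringAction (K ≃ₐ[RatFunc k] K) OK :=
    IsIntegralClosure.MulSemiringAction k[X] (RatFunc k) K OK
  have hF : ∀ x : OK, ((FiniteField.frobeniusAlgHom k OK) ^ n) x = x ^ (Fintype.card k ^ n) := by
    intro x
    rw [AlgHom.coe_pow, FiniteField.coe_frobeniusAlgHom, pow_iterate]
  have hX : π.1 ∣ X ^ (Nat.card k) ^ n - X :=
    (π.2.2.natDegree_dvd_iff_dvd_X_pow_card_pow_sub_X).1 hd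
  have hag : (Ideal.Quotient.mkₐ k 𝔓).comp (IsScalarTower.toAlgHom k k[X] OK) =
      ((Ideal.Quotient.mkₐ k 𝔓).comp ((FiniteField.frobeniusAlgHom k OK) ^ n)).comp
        (IsScalarTower.toAlgHom k k[X] OK) := by
    apply Polynomial.algHom_ext
    simp only [AlgHom.comp_apply, IsScalarTower.coe_toAlgHom', Ideal.Quotient.mkₐ_eq_mk, hF]
    symm
    rw [Ideal.Quotient.eq, ← map_pow, ← map_sub, ← Nat.card_eq_fintype_card]
    obtain ⟨c, hc⟩ := hX
    rw [hc, map_mul]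
    exact 𝔓.mul_mem_right _ hπ
  obtain ⟨g, hg⟩ := exists_smul_of_agree (G := K ≃ₐ[RatFunc k] K) (Ideal.Quotient.mk 𝔓)
    ((Ideal.Quotient.mk 𝔓).comp ((FiniteField.frobeniusAlgHom k OK) ^ n).toRingHom)
    (fun x hx => by
      obtain ⟨p, rfl⟩ := Frob_inv (k := k) (K := K) x hx
      exact DFunLike.congr_fun hag p)
  refine ⟨g, Frob_mem'.2 fun x => ?_⟩
  have h1 := hg x
  rw [← map_pow, ← hF]
  exact h1.symm

theorem frobSet_mul {𝔓 : Ideal OK} {n m : ℕ} {g g' : K ≃ₐ[RatFunc k] K}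
    (hg : g ∈ frobSet k K 𝔓 n) (hg' : g' ∈ frobSet k K 𝔓 m) :
    g * g' ∈ frobSet k K 𝔓 (n + m) := by
  rw [Frob_mem'] at hg hg' ⊢
  intro x
  rw [map_mul, AlgEquiv.mul_apply, hg, hg', ← pow_mul, pow_add, mul_comm]

theorem frobSet_div {𝔓 : Ideal OK} {n : ℕ} {g g' : K ≃ₐ[RatFunc k] K}
    (hg : g ∈ frobSet k K 𝔓 n) (hg' : g' ∈ frobSet k K 𝔓 n) :
    g * g'⁻¹ ∈ frobSet k K 𝔓 0 := by
  rw [Frob_mem'] at hg hg' ⊢
  intro x
  rw [map_mul, AlgEquiv.mul_apply, hg, ← hg', ← AlgEquiv.mul_apply, ← map_mul, mul_inv_cancel,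
    map_one, pow_zero, pow_one, AlgEquiv.one_apply]

/-- The inertia group is transitive on the embeddings with the same reduction. -/
theorem exists_inertia {𝔓 : Ideal OK} (hP : 𝔓.IsPrime) {φ χ : E →ₐ[RatFunc k] K}
    (he : ∀ (a : E) (c c' : OK), algebraMap OK K c = φ a → algebraMap OK K c' = χ a →
      c - c' ∈ 𝔓) :
    ∃ g ∈ frobSet k K 𝔓 0, g.toAlgHom.comp φ = χ := by
  obtain ⟨g₁, hg₁⟩ := exists_gal φ χ
  let _ : MulSemiringAction (K ≃ₐ[RatFunc k] K) OK :=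
    IsIntegralClosure.MulSemiringAction k[X] (RatFunc k) K OK
  have hs : ∀ (g : K ≃ₐ[RatFunc k] K) (x : OK),
      g • x = galRestrict k[X] (RatFunc k) K OK g x := fun _ _ => rfl
  obtain ⟨h, hh⟩ := exists_smul_of_agree (G := φ.fieldRange.fixingSubgroup)
    ((Ideal.Quotient.mk 𝔓).comp
      (galRestrict k[X] (RatFunc k) K OK g₁ : OK ≃ₐ[k[X]] OK).toAlgHom.toRingHom)
    (Ideal.Quotient.mk 𝔓)
    (fun x hx => by
      have hm : algebraMap OK K x ∈ φ.fieldRange := by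
        rw [← IsGalois.fixedField_fixingSubgroup φ.fieldRange, IntermediateField.mem_fixedField_iff]
        intro f hf
        rw [← algebraMap_galRestrict_apply k[X] f x, ← hs]
        exact congrArg _ (hx ⟨f, hf⟩)
      obtain ⟨a, ha⟩ := AlgHom.mem_fieldRange.1 hm
      symm
      change Ideal.Quotient.mk 𝔓 x =
        Ideal.Quotient.mk 𝔓 (galRestrict k[X] (RatFunc k) K OK g₁ x)
      rw [Ideal.Quotient.eq]
      refine he a _ _ ha.symm ?_
      rw [algebraMap_galRestrict_apply, ← ha, ← hg₁]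
      rfl)
  refine ⟨g₁ * h.1, Frob_mem'.2 fun x => ?_, ?_⟩
  · rw [pow_zero, pow_one, map_mul, AlgEquiv.mul_apply]
    exact (hh x).symm
  · rw [← hg₁]
    ext a
    have h2 : h.1 (φ a) = φ a :=
      (IntermediateField.mem_fixingSubgroup_iff _ _).1 h.2 _ (AlgHom.mem_fieldRange.2 ⟨a, rfl⟩)
    change g₁ (h.1 (φ a)) = g₁ (φ a)
    rw [h2]

theorem frob_avg_indep {π : FinPl k} {𝔓 𝔓' : Ideal OK} (hP : 𝔓.IsMaximal) (hP' : 𝔓'.IsMaximal)
    (hπ : algebraMap k[X] OK π.1 ∈ 𝔓) (hπ' : algebraMap k[X] OK π.1 ∈ 𝔓') (n : ℕ)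
    {a : (K ≃ₐ[RatFunc k] K) → ℝ} (ha : ∀ g g', a (g'⁻¹ * g * g') = a g) :
    (∑ᶠ g ∈ frobSet k K 𝔓 n, a g) / (frobSet k K 𝔓 n).ncard =
      (∑ᶠ g ∈ frobSet k K 𝔓' n, a g) / (frobSet k K 𝔓' n).ncard := by
  have : 𝔓.IsPrime := hP.isPrime
  have : 𝔓'.IsPrime := hP'.isPrime
  have : IsFractionRing OK K := Frob_frac (k := k)
  let _ : MulSemiringAction (K ≃ₐ[RatFunc k] K) OK :=
    IsIntegralClosure.MulSemiringAction k[X] (RatFunc k) K OK
  have hs : ∀ (g : K ≃ₐ[RatFunc k] K) (x : OK),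
      g • x = galRestrict k[X] (RatFunc k) K OK g x := fun _ _ => rfl
  have : Algebra.IsInvariant k[X] OK (K ≃ₐ[RatFunc k] K) :=
    Algebra.isInvariant_of_isGalois k[X] (RatFunc k) K OK
  have : SMulCommClass (K ≃ₐ[RatFunc k] K) k[X] OK := ⟨fun g p x => by
    rw [hs, hs, map_smul]⟩
  have hm : (Ideal.span {π.1}).IsMaximal := PrincipalIdealRing.isMaximal_of_irreducible π.2.2
  have hu : ∀ Q : Ideal OK, Q.IsPrime → algebraMap k[X] OK π.1 ∈ Q →
      Q.under k[X] = Ideal.span {π.1} := by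
    intro Q hQ h
    refine (hm.eq_of_le (Ideal.IsPrime.ne_top inferInstance) ?_).symm
    rw [Ideal.span_singleton_le_iff_mem]
    exact h
  obtain ⟨σ, hσ⟩ := Algebra.IsInvariant.exists_smul_of_under_eq k[X] OK (K ≃ₐ[RatFunc k] K) 𝔓 𝔓'
    ((hu _ inferInstance hπ).trans (hu _ inferInstance hπ').symm)
  have hmem : ∀ x : OK, x ∈ 𝔓' ↔ σ⁻¹ • x ∈ 𝔓 := fun x => by
    rw [hσ, Ideal.mem_pointwise_smul_iff_inv_smul_mem]
  have hiff : ∀ g : K ≃ₐ[RatFunc k] K,
      g ∈ frobSet k K 𝔓' n ↔ σ⁻¹ * g * σ ∈ frobSet k K 𝔓 n := by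
    intro g
    rw [Frob_mem, Frob_mem]
    simp only [← hs, hmem, smul_sub, smul_pow', mul_smul]
    constructor
    · intro h x
      have h1 := h (σ • x)
      rwa [inv_smul_smul] at h1
    · intro h x
      have h1 := h (σ⁻¹ • x)
      rwa [smul_inv_smul] at h1
  have hb : Set.BijOn (fun g => σ⁻¹ * g * σ) (frobSet k K 𝔓' n) (frobSet k K 𝔓 n) := by
    refine ⟨fun g hg => (hiff g).1 hg, fun g _ g' _ h => by simpa using h, fun g hg => ?_⟩
    refine ⟨σ * g * σ⁻¹, (hiff _).2 ?_, by group⟩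
    have e : σ⁻¹ * (σ * g * σ⁻¹) * σ = g := by group
    rwa [e]
  rw [finsum_mem_eq_of_bijOn (fun g => σ⁻¹ * g * σ) hb (g := a) (fun g _ => (ha g σ).symm),
    hb.ncard_eq]

theorem a0_conj (d : (E →ₐ[RatFunc k] K) → ℕ) (ψ : E →ₐ[RatFunc k] K)
    (g g' : K ≃ₐ[RatFunc k] K) : a0 d ψ (g'⁻¹ * g * g') = a0 d ψ g := by
  unfold a0
  congr 1
  rw [← finsum_comp_equiv (Equiv.mulLeft g') (f := fun η : K ≃ₐ[RatFunc k] K =>
    (d ((η⁻¹ * g * η : K ≃ₐ[RatFunc k] K).toAlgHom.comp ψ) : ℝ))]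
  refine finsum_congr fun η => ?_
  have e : η⁻¹ * (g'⁻¹ * g * g') * η = (g' * η)⁻¹ * g * (g' * η) := by group
  rw [e]
  rfl

theorem frob_avg_bound (a : (K ≃ₐ[RatFunc k] K) → ℝ) : ∃ B : ℝ, ∀ (𝔓 : Ideal OK) (n : ℕ),
    |(∑ᶠ g ∈ frobSet k K 𝔓 n, a g) / (frobSet k K 𝔓 n).ncard| ≤ B := by
  refine ⟨∑ g, |a g|, fun 𝔓 n => ?_⟩
  have h0 : (0 : ℝ) ≤ ∑ g, |a g| := Finset.sum_nonneg fun g _ => abs_nonneg _
  have h1 : |∑ᶠ g ∈ frobSet k K 𝔓 n, a g| ≤ ∑ g, |a g| := by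
    rw [finsum_mem_eq_finite_toFinset_sum _ (Set.toFinite _)]
    exact (Finset.abs_sum_le_sum_abs _ _).trans
      (Finset.sum_le_sum_of_subset_of_nonneg (Finset.subset_univ _) fun g _ _ => abs_nonneg _)
  rcases Nat.eq_zero_or_pos (frobSet k K 𝔓 n).ncard with h | h
  · rw [h, Nat.cast_zero, div_zero, abs_zero]
    exact h0
  · have h2 : (1 : ℝ) ≤ (frobSet k K 𝔓 n).ncard := by exact_mod_cast h
    rw [abs_div, Nat.abs_cast]
    exact (div_le_self (abs_nonneg _) h2).trans h1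

theorem sum_cls_a0 (F : IntermediateField (RatFunc k) E) {d : (E →ₐ[RatFunc k] K) → ℕ} {m : ℕ}
    (hd : ∀ φ, ∑ᶠ φ' ∈ cls F φ, d φ' = m) (ψ : E →ₐ[RatFunc k] K) (g : K ≃ₐ[RatFunc k] K) :
    ∑ᶠ φ ∈ cls F ψ, a0 d φ g = m := by
  have key : ∀ σ : K ≃ₐ[RatFunc k] K,
      ∑ φ ∈ (Set.toFinite (cls F ψ)).toFinset, (d (σ.toAlgHom.comp φ) : ℝ) = m := by
    intro σ
    have hb : Set.BijOn (fun φ : E →ₐ[RatFunc k] K => σ.toAlgHom.comp φ) (cls F ψ)
        (cls F (σ.toAlgHom.comp ψ)) := by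
      refine ⟨fun φ hφ x hx => congrArg σ (hφ x hx), fun φ _ φ' _ h => ?_, fun φ hφ => ?_⟩
      · ext x
        exact σ.injective (DFunLike.congr_fun h x)
      · refine ⟨σ.symm.toAlgHom.comp φ, fun x hx => ?_, ?_⟩
        · apply σ.injective
          have h1 := hφ x hx
          change σ (σ.symm (φ x)) = σ (ψ x)
          rw [σ.apply_symm_apply]
          exact h1
        · ext x
          exact σ.apply_symm_apply (φ x)
    have h1 := hd (σ.toAlgHom.comp ψ)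
    rw [← finsum_mem_eq_of_bijOn (fun φ : E →ₐ[RatFunc k] K => σ.toAlgHom.comp φ) hb
      (f := fun φ => d (σ.toAlgHom.comp φ)) (g := d) (fun _ _ => rfl),
      finsum_mem_eq_finite_toFinset_sum _ (Set.toFinite _)] at h1
    rw [← h1, Nat.cast_sum]
  have hc : (Nat.card (K ≃ₐ[RatFunc k] K) : ℝ) ≠ 0 := by
    exact_mod_cast (Nat.card_pos (α := K ≃ₐ[RatFunc k] K)).ne'
  rw [finsum_mem_eq_finite_toFinset_sum _ (Set.toFinite _)]
  unfold a0
  simp only [finsum_eq_sum_of_fintype]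
  rw [← Finset.sum_div, Finset.sum_comm, Finset.sum_congr rfl fun η _ => key (η⁻¹ * g * η),
    Finset.sum_const, Finset.card_univ, ← Nat.card_eq_fintype_card, nsmul_eq_mul,
    mul_div_cancel_left₀ _ hc]

end Pool.Agent.FFC
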