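import Pool.Agent.P.MP_a2beea_nt.FC.Ord

/-! The derivative with respect to `t`. For `a ∈ E` clear denominators in the separable minimal
polynomial of `a` over `k⟮t⟯` to get `F ∈ k[T, A]` with `F(t, a) = 0`, `F_A(t, a) ≠ 0`; put
`a' = -F_T / F_A`. Taylor expansion at `(y t, y a)` shows that
`δ a - y(a') δ t` is a combination of `δ t ^ 2, δ t δ a, δ a ^ 2` with regular coefficients.
A nonzero element with constant coefficients does not vanish at a non-constant point: it is
algebraic over the field `1 ⊗ E` inside the domain `L ⊗ E` with an equation with coefficients in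
`1 ⊗ E` and nonzero constant term. -/

open Polynomial
open scoped TensorProduct NNReal IntermediateField

namespace Pool.Agent.FFC

open Classical

section Abstract

variable {k : Type*} [Field k] {E : Type*} [Field E] [Algebra k E]

theorem der_mul {Q : Type*} [CommRing Q] [Algebra k Q] {φ ψ : E →ₐ[k] Q}
    (H : ∀ a b, (φ a - ψ a) * (φ b - ψ b) = 0) (a b : E) :
    φ (a * b) - ψ (a * b) = ψ a * (φ b - ψ b) + ψ b * (φ a - ψ a) := by
  rw [map_mul, map_mul]
  linear_combination H a b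

/-- `a'` is the derivative of `a` with respect to `t`, in all square zero deformations. -/
def DerOf (Q : Type*) [CommRing Q] [Algebra k Q] {ι : Type*} (J : ι → Ideal Q)
    (φ ψ : ∀ i, E →ₐ[k] Q ⧸ J i) (t a a' : E) : Prop :=
  ∀ i, φ i a - ψ i a = ψ i a' * (φ i t - ψ i t)

theorem der_exists {t : E} (h : FF k t) (Q : Type*) [CommRing Q] [Algebra k Q] {ι : Type*}
    (J : ι → Ideal Q) (φ ψ : ∀ i, E →ₐ[k] Q ⧸ J i)
    (H : ∀ i a b, (φ i a - ψ i a) * (φ i b - ψ i b) = 0) (a : E) :
    ∃ a', DerOf Q J φ ψ t a a' := by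
  have h1 : ∀ x ∈ k⟮t⟯, ∃ x', DerOf Q J φ ψ t x x' := by
    intro x hx
    induction hx using IntermediateField.adjoin_induction with
    | mem x hx =>
      obtain rfl : x = t := hx
      exact ⟨1, fun i => by simp⟩
    | algebraMap c => exact ⟨0, fun i => by simp⟩
    | add x y _ _ hx hy =>
      obtain ⟨x', hx⟩ := hx
      obtain ⟨y', hy⟩ := hy
      refine ⟨x' + y', fun i => ?_⟩
      simp only [map_add]
      linear_combination hx i + hy i
    | inv x _ hx =>
      obtain ⟨x', hx⟩ := hx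
      rcases eq_or_ne x 0 with rfl | h0
      · exact ⟨0, fun i => by simp⟩
      refine ⟨-(x⁻¹ * x⁻¹ * x'), fun i => ?_⟩
      have e1 := der_mul (H i) x x⁻¹
      rw [mul_inv_cancel₀ h0, map_one, map_one, sub_self] at e1
      have e2 : ψ i x⁻¹ * ψ i x = 1 := by rw [← map_mul, inv_mul_cancel₀ h0, map_one]
      simp only [map_neg, map_mul]
      linear_combination (-ψ i x⁻¹) * e1 - (φ i x⁻¹ - ψ i x⁻¹) * e2 -
        ψ i x⁻¹ * ψ i x⁻¹ * hx i
    | mul x y _ _ hx hy =>
      obtain ⟨x', hx⟩ := hx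
      obtain ⟨y', hy⟩ := hy
      refine ⟨x * y' + y * x', fun i => ?_⟩
      rw [der_mul (H i), hx i, hy i]
      simp only [map_add, map_mul]
      ring
  have h2 : ∀ p : k⟮t⟯[X], ∃ b : E, ∀ i, φ i (aeval a p) - ψ i (aeval a p) =
      ψ i (aeval a (derivative p)) * (φ i a - ψ i a) + ψ i b * (φ i t - ψ i t) := by
    intro p
    induction p using Polynomial.induction_on with
    | C c =>
      obtain ⟨c', hc⟩ := h1 c c.2
      exact ⟨c', fun i => by simpa using hc i⟩
    | add p q hp hq =>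
      obtain ⟨b, hb⟩ := hp
      obtain ⟨b', hb'⟩ := hq
      refine ⟨b + b', fun i => ?_⟩
      simp only [map_add]
      linear_combination hb i + hb' i
    | monomial n c hp =>
      obtain ⟨b, hb⟩ := hp
      refine ⟨a * b, fun i => ?_⟩
      rw [pow_succ, ← mul_assoc, derivative_mul, derivative_X, mul_one, map_mul (aeval a), aeval_X,
        der_mul (H i), hb i, map_add (aeval a), map_mul (aeval a) _ X, aeval_X, map_add,
        map_mul (ψ i) _ a, map_mul (ψ i) a b]
      ring
  have := h.sep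
  have hsep : (minpoly k⟮t⟯ a).Separable := Algebra.IsSeparable.isSeparable k⟮t⟯ a
  have hne := hsep.aeval_derivative_ne_zero (minpoly.aeval k⟮t⟯ a)
  obtain ⟨b, hb⟩ := h2 (minpoly k⟮t⟯ a)
  set u := aeval a (derivative (minpoly k⟮t⟯ a))
  refine ⟨-(u⁻¹ * b), fun i => ?_⟩
  have e1 := hb i
  rw [minpoly.aeval, map_zero, map_zero, sub_self] at e1
  have e2 : ψ i u⁻¹ * ψ i u = 1 := by rw [← map_mul, inv_mul_cancel₀ hne, map_one]
  simp only [map_neg, map_mul]
  linear_combination (-ψ i u⁻¹) * e1 - (φ i a - ψ i a) * e2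

end Abstract

variable {k : Type*} [Field k] [Fintype k] {E : Type*} [Field E] [Algebra k E] {t : E}
  {L : Type*} [Field L] [Algebra k L] [IsAlgClosed L]
  [IsDomain (L ⊗[k] E)]
  [Nonempty (GV k L)]

theorem der_sq (h : FF k t) (y : E →ₐ[k] L) {x : L ⊗[k] E}
    (hx : x ∈ RingHom.ker (Algebra.TensorProduct.productMap (AlgHom.id k L) y) *
      RingHom.ker (Algebra.TensorProduct.productMap (AlgHom.id k L) y)) :
    algebraMap (L ⊗[k] E) (FL k E L) x = 0 ∨
      2 ≤ ord (Pt.ofHom y) (algebraMap (L ⊗[k] E) (FL k E L) x) := by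
  have hpos : ∀ m ∈ RingHom.ker (Algebra.TensorProduct.productMap (AlgHom.id k L) y),
      algebraMap (L ⊗[k] E) (FL k E L) m ≠ 0 →
      0 < ord (Pt.ofHom y) (algebraMap (L ⊗[k] E) (FL k E L) m) := fun m hm h0 => by
    have h1 := (evT_ofHom y m).hasVal
    rw [RingHom.mem_ker.1 hm] at h1
    exact (hasVal_zero_iff h _ h0).1 h1
  refine Submodule.mul_induction_on hx (fun m hm n hn => ?_) (fun a b ha hb => ?_)
  · rw [map_mul]
    by_cases h1 : algebraMap (L ⊗[k] E) (FL k E L) m = 0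
    · exact Or.inl (by rw [h1, zero_mul])
    by_cases h2 : algebraMap (L ⊗[k] E) (FL k E L) n = 0
    · exact Or.inl (by rw [h2, mul_zero])
    refine Or.inr ?_
    rw [ord_mul h _ h1 h2]
    have := hpos m hm h1
    have := hpos n hn h2
    omega
  · rw [map_add]
    by_cases h1 : algebraMap (L ⊗[k] E) (FL k E L) a + algebraMap (L ⊗[k] E) (FL k E L) b = 0
    · exact Or.inl h1
    exact Or.inr (le_ord_add h _ h1 ha.resolve_left hb.resolve_left)

theorem exists_deriv (h : FF k t) (a : E) : ∃ a' : E, ∀ y : E →ₐ[k] L,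
    (tm 1 a - tm (y a) 1 - tm (y a') 1 * (tm 1 t - tm (y t) 1) : FL k E L) = 0 ∨
    2 ≤ ord (Pt.ofHom y)
      (tm 1 a - tm (y a) 1 - tm (y a') 1 * (tm 1 t - tm (y t) 1) : FL k E L) := by
  let J : (E →ₐ[k] L) → Ideal (L ⊗[k] E) := fun y =>
    RingHom.ker (Algebra.TensorProduct.productMap (AlgHom.id k L) y) *
      RingHom.ker (Algebra.TensorProduct.productMap (AlgHom.id k L) y)
  obtain ⟨a', ha'⟩ := der_exists h (L ⊗[k] E) J
    (fun y => (Ideal.Quotient.mkₐ k (J y)).comp Algebra.TensorProduct.includeRight)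
    (fun y => (Ideal.Quotient.mkₐ k (J y)).comp (Algebra.TensorProduct.includeLeft.comp y))
    (fun y a b => by
      simp only [AlgHom.comp_apply, Ideal.Quotient.mkₐ_eq_mk]
      rw [← map_sub, ← map_sub, ← map_mul, Ideal.Quotient.eq_zero_iff_mem]
      exact Ideal.mul_mem_mul (by simp [RingHom.mem_ker]) (by simp [RingHom.mem_ker])) a
  refine ⟨a', fun y => ?_⟩
  have h1 := ha' y
  simp only [AlgHom.comp_apply, Ideal.Quotient.mkₐ_eq_mk] at h1
  rw [← map_sub, ← map_sub, ← map_mul, Ideal.Quotient.eq] at h1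
  have h2 := der_sq h y h1
  simpa only [map_sub, map_mul, tm, Algebra.TensorProduct.includeRight_apply,
    Algebra.TensorProduct.includeLeft_apply] using h2

theorem sub_self_ne (h : FF k t) (c : L) : (tm 1 t - tm c 1 : FL k E L) ≠ 0 := by
  intro h0
  rw [sub_eq_zero] at h0
  have h1 : (1 : L) ⊗ₜ[k] t = c ⊗ₜ[k] (1 : E) :=
    IsFractionRing.injective (L ⊗[k] E) (FL k E L) h0
  have h2 : t ∉ Submodule.span k {(1 : E)} := fun hm => by
    obtain ⟨d, hd⟩ := Submodule.mem_span_singleton.1 hm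
    rw [← Algebra.algebraMap_eq_smul_one] at hd
    exact h.trans (hd ▸ isAlgebraic_algebraMap d)
  obtain ⟨f, hf, hf0⟩ := Submodule.exists_dual_map_eq_bot_of_notMem h2 inferInstance
  have h3 : f 1 = 0 := by
    have : f 1 ∈ (Submodule.span k {(1 : E)}).map f :=
      Submodule.mem_map_of_mem (Submodule.mem_span_singleton_self _)
    rwa [hf0, Submodule.mem_bot] at this
  have h4 := congrArg (fun z => TensorProduct.rid k L (LinearMap.lTensor L f z)) h1
  simp [h3, hf] at h4

theorem ord_sub_self (h : FF k t) (y : E →ₐ[k] L) :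
    ord (Pt.ofHom y) (tm 1 t - tm (y t) 1 : FL k E L) = 1 := by
  have hne := sub_self_ne (E := E) h (y t)
  have hv : HasVal (Pt.ofHom y) (tm 1 t - tm (y t) 1 : FL k E L) 0 := by
    have := (hasVal_tm (Pt.ofHom y) 1 (a := t) (ValuationSubring.mem_top _)).sub
      (hasVal_tm (Pt.ofHom y) (y t) (a := 1) (ValuationSubring.mem_top _))
    simpa using this
  have h1 := (hasVal_zero_iff h _ hne).1 hv
  by_contra hc
  have h2 : 2 ≤ ord (Pt.ofHom y) (tm 1 t - tm (y t) 1 : FL k E L) := by omega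
  obtain ⟨w⟩ := (inferInstance : Nonempty (GV k L))
  have hp := isPar_red h w (Pt.ofHom y)
  set π := unif (redO w (Pt.ofHom y))
  rw [Pt.ofHom_ev] at hp
  have h3 := hp.ord_eq h
  obtain ⟨π', hπ⟩ := exists_deriv (L := L) h π
  have e : (tm 1 π - tm (y π) 1 : FL k E L) =
      (tm 1 π - tm (y π) 1 - tm (y π') 1 * (tm 1 t - tm (y t) 1)) +
        tm (y π') 1 * (tm 1 t - tm (y t) 1) := by ring
  have h4 := le_ord_add h (Pt.ofHom y) (n := 2) (e ▸ hp.1) (hπ y).resolve_left (fun h0 => by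
    rw [ord_mul h _ (left_ne_zero_of_mul h0) hne, ord_tm_one h, zero_add]
    exact h2)
  rw [← e, h3] at h4
  omega

theorem ord_sub (h : FF k t) (c : L) (z : E →ₐ[k] L) :
    ord (Pt.ofHom z) (tm 1 t - tm c 1 : FL k E L) = if z t = c then 1 else 0 := by
  split_ifs with hc
  · rw [← hc]
    exact ord_sub_self h z
  · refine (ord_eq_zero_iff h _ (sub_self_ne h c)).2 ⟨z t - c, sub_ne_zero.2 hc, ?_⟩
    have := (hasVal_tm (Pt.ofHom z) 1 (a := t) (ValuationSubring.mem_top _)).sub
      (hasVal_tm (Pt.ofHom z) c (a := 1) (ValuationSubring.mem_top _))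
    simpa using this

theorem ConstT.ord_ofHom (h : FF k t) {x : L ⊗[k] E} (hx : ConstT ⊤ x) (y : E →ₐ[k] L) :
    ord (Pt.ofHom y) (algebraMap (L ⊗[k] E) (FL k E L) x) = 0 := by
  rcases eq_or_ne x 0 with rfl | h0
  · rw [map_zero]
    exact ord_zero _
  let _ : Algebra E (L ⊗[k] E) := Algebra.TensorProduct.rightAlgebra
  have hint : IsIntegral E x := by
    obtain ⟨n, b, a, -, hb, rfl⟩ := hx
    refine IsIntegral.sum _ fun i _ => ?_
    have e : b i ⊗ₜ[k] a i = (Algebra.TensorProduct.includeLeft : L →ₐ[k] L ⊗[k] E) (b i) *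
        algebraMap E (L ⊗[k] E) (a i) := by
      simp [Algebra.TensorProduct.right_algebraMap_apply]
    rw [e]
    refine IsIntegral.mul ?_ isIntegral_algebraMap
    exact ((hb i).isIntegral.map
      (Algebra.TensorProduct.includeLeft : L →ₐ[k] L ⊗[k] E)).tower_top
  have hu := (hint.isUnit h0).map (Algebra.TensorProduct.productMap (AlgHom.id k L) y)
  refine (ord_eq_zero_iff h _ ?_).2 ⟨_, hu.ne_zero, (evT_ofHom y x).hasVal⟩
  exact fun h1 => h0 (IsFractionRing.injective (L ⊗[k] E) (FL k E L) (by rw [h1, map_zero]))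

end Pool.Agent.FFC
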