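import Pool.Agent.P.MP_a2beea_nt.FC.Disc
import Pool.Agent.P.MP_a2beea_nt.FC.Der

/-! The local formula. Let `u` have Gauss norm one and reduction `u0`. For a constant point `x0` with
uniformizer `π`, `(1 ⊗ π) ^ m u` is integral along `x0.O` for large `m`, with reduction
`(1 ⊗ π) ^ m u0`; in the disc of `x0` the function `1 ⊗ π` has the only zero `x0`, of order one.
So `disc_le` holds for `u` at every constant point `x0`. Summing over all constant `x0`, the left
sides add up to `deg div u = 0` and the right sides to `deg div u0 = 0` (`deg_zero`,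
`ConstT.ord_ofHom`), so equality holds in every disc. For the formula at a point `y` write
`f = c u / u'`; if `u` and `u'` both vanish at `y`, divide both by a power of the parameter
`δ_y` first (use `division`, or change the representation: `ord y f = 0` gives `f = x / x'` with
`x, x'` regular and nonzero at `y`, directly from `HasVal`). For constant `y` the representation
from `HasVal` is already regular at `y` and no power of `π` is needed. -/

open Polynomial
open scoped TensorProduct NNReal IntermediateField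

namespace Pool.Agent.FFC

open Classical

variable {k : Type*} [Field k] [Fintype k] {E : Type*} [Field E] [Algebra k E] {t : E}
  {L : Type*} [Field L] [Algebra k L] [IsAlgClosed L]
  [IsDomain (L ⊗[k] E)]
  [Nonempty (GV k L)]

omit [IsDomain (L ⊗[k] E)] [Nonempty (GV k L)] [IsAlgClosed L] in
theorem lf_clear (h : FF k t) {O : ValuationSubring E} (hO : IsPlace k O) {n : ℕ}
    (a : Fin n → E) : ∃ m : ℕ, ∀ m', m ≤ m' → ∀ i, unif O ^ m' * a i ∈ O := by
  have hu := place_unif h hO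
  have hπ : unif O ≠ 0 := fun h0 => hu.2.1 (by rw [h0, inv_zero]; exact zero_mem _)
  have h1 : ∀ i, ∃ m : ℕ, ∀ m', m ≤ m' → unif O ^ m' * a i ∈ O := by
    intro i
    by_cases ha : a i = 0
    · exact ⟨0, fun m' _ => by rw [ha, mul_zero]; exact zero_mem _⟩
    · obtain ⟨n, hn, -⟩ := place_factor h hO ha
      refine ⟨(-n).toNat, fun m' hm' => ?_⟩
      have h2 : (0 : ℤ) ≤ m' + n := by omega
      obtain ⟨l, hl⟩ := Int.eq_ofNat_of_zero_le h2
      have h3 : unif O ^ m' * a i = unif O ^ l * (a i / unif O ^ n) := by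
        have h4 : unif O ^ l = unif O ^ m' * unif O ^ n := by
          rw [← zpow_natCast, ← hl, zpow_add₀ hπ, zpow_natCast]
        rw [h4, mul_assoc, mul_div_cancel₀ _ (zpow_ne_zero n hπ)]
      rw [h3]
      exact mul_mem (pow_mem hu.1 l) hn
  choose m hm using h1
  exact ⟨Finset.univ.sup m, fun m' hm' i =>
    hm i m' ((Finset.le_sup (f := m) (Finset.mem_univ i)).trans hm')⟩

omit [IsDomain (L ⊗[k] E)] [Nonempty (GV k L)] [IsAlgClosed L] [Fintype k] in
theorem lf_pow_mul (π : E) (m : ℕ) {n : ℕ} (b : Fin n → L) (a : Fin n → E) :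
    ((1 : L) ⊗ₜ[k] π) ^ m * ∑ i, b i ⊗ₜ[k] a i = ∑ i, b i ⊗ₜ[k] (π ^ m * a i) := by
  rw [Finset.mul_sum]
  refine Finset.sum_congr rfl fun i _ => ?_
  rw [Algebra.TensorProduct.tmul_pow, Algebra.TensorProduct.tmul_mul_tmul, one_pow, one_mul]

omit [IsDomain (L ⊗[k] E)] [Nonempty (GV k L)] [IsAlgClosed L] in
theorem lf_int (h : FF k t) (w : GV k L) {O : ValuationSubring E} (hO : IsPlace k O)
    {u : L ⊗[k] E} (hu : IntT w ⊤ u) :
    ∃ m : ℕ, ∀ m', m ≤ m' → IntT w O (((1 : L) ⊗ₜ[k] unif O) ^ m' * u) := by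
  obtain ⟨n, b, a, -, hb, rfl⟩ := hu
  obtain ⟨m, hm⟩ := lf_clear h hO a
  exact ⟨m, fun m' hm' => ⟨n, b, fun i => unif O ^ m' * a i, hm m' hm', hb, lf_pow_mul _ _ b a⟩⟩

omit [IsDomain (L ⊗[k] E)] [Nonempty (GV k L)] [IsAlgClosed L] in
theorem lf_const (h : FF k t) {O : ValuationSubring E} (hO : IsPlace k O)
    {u : L ⊗[k] E} (hu : ConstT ⊤ u) :
    ∃ m : ℕ, ∀ m', m ≤ m' → ConstT O (((1 : L) ⊗ₜ[k] unif O) ^ m' * u) := by
  obtain ⟨n, b, a, -, hb, rfl⟩ := hu
  obtain ⟨m, hm⟩ := lf_clear h hO a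
  exact ⟨m, fun m' hm' => ⟨n, b, fun i => unif O ^ m' * a i, hm m' hm', hb, lf_pow_mul _ _ b a⟩⟩

omit [IsDomain (L ⊗[k] E)] [Nonempty (GV k L)] [IsAlgClosed L] in
theorem lf_unif_ne (h : FF k t) {O : ValuationSubring E} (hO : IsPlace k O) : unif O ≠ 0 :=
  fun h0 => (place_unif h hO).2.1 (by rw [h0, inv_zero]; exact zero_mem _)

theorem lf_ord_unif (h : FF k t) (w : GV k L) {x0 : Pt k E L} (hx : x0.O ≠ ⊤) {z : Pt k E L}
    (hz : red w z = x0) :
    ord z (tm (1 : L) (unif x0.O)) = if z = x0 then 1 else 0 := by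
  have hπ := lf_unif_ne h (x0.place hx)
  by_cases hzO : z.O = ⊤
  · obtain ⟨y, rfl⟩ := z.eq_ofHom hzO
    rw [ord_tm_ofHom h, if_neg]
    intro he
    exact hx (he ▸ rfl)
  · have : z = x0 := by rw [← hz, red_const h w hzO]
    rw [if_pos this, this]
    refine ord_tm_const h hx hπ (n := 1) ?_ ?_
    · rw [zpow_one, div_self hπ]; exact one_mem _
    · rw [zpow_one, div_self hπ, inv_one]; exact one_mem _

omit [IsDomain (L ⊗[k] E)] [Nonempty (GV k L)] [IsAlgClosed L] [Fintype k] in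
theorem lf_ne {u : L ⊗[k] E} (hu : u ≠ 0) : algebraMap (L ⊗[k] E) (FL k E L) u ≠ 0 :=
  fun h0 => hu (IsFractionRing.injective (L ⊗[k] E) (FL k E L) (by rw [h0, map_zero]))

theorem lf_ord_pow (h : FF k t) (z : Pt k E L) {π : E} (hπ : π ≠ 0) (m : ℕ) {u : L ⊗[k] E}
    (hu : u ≠ 0) :
    ord z (algebraMap (L ⊗[k] E) (FL k E L) (((1 : L) ⊗ₜ[k] π) ^ m * u)) =
      m * ord z (tm (1 : L) π) + ord z (algebraMap (L ⊗[k] E) (FL k E L) u) := by
  have h1 : (tm (1 : L) π : FL k E L) ≠ 0 := tm_ne_zero one_ne_zero hπ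
  rw [map_mul, map_pow]
  change ord z (tm (1 : L) π ^ m * _) = _
  rw [ord_mul h z (pow_ne_zero m h1) (lf_ne hu), ← ord_zpow h z, zpow_natCast]

omit [Nonempty (GV k L)] in
theorem lf_gT_pow (w : GV k L) {π : E} (hπ : π ≠ 0) (m : ℕ) (u : L ⊗[k] E) :
    gT w (((1 : L) ⊗ₜ[k] π) ^ m * u) = gT w u := by
  rw [gT_mul, Algebra.TensorProduct.tmul_pow, gT_tmul w _ (pow_ne_zero m hπ), one_pow, map_one,
    one_mul]

omit [Nonempty (GV k L)] in
theorem lf_u_ne (w : GV k L) {u u0 : L ⊗[k] E} (hu0 : ConstT ⊤ u0) (h0 : u0 ≠ 0)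
    (hlt : gT w (u - u0) < 1) : u ≠ 0 := by
  rintro rfl
  rw [zero_sub, gT_neg, hu0.gT_eq w h0] at hlt
  exact lt_irrefl _ hlt

theorem lf_disc_sum (h : FF k t) (w : GV k L) (x : Pt k E L) (f : FL k E L) :
    (∑ᶠ z ∈ {z : Pt k E L | red w z = x}, ord z f) =
      ∑ z ∈ (ord_finite h f).toFinset.filter (fun z => red w z = x), ord z f := by
  refine finsum_mem_eq_sum_of_inter_support_eq _ ?_
  ext z
  simp only [Set.mem_inter_iff, Set.mem_ofPred_eq, Function.mem_support, Finset.coe_filter,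
    Set.Finite.mem_toFinset]
  tauto

theorem lf_disc_le (h : FF k t) (w : GV k L) {x0 : Pt k E L} (hx : x0.O ≠ ⊤) {u u0 : L ⊗[k] E}
    (hu0 : ConstT ⊤ u0) (h0 : u0 ≠ 0) (hlt : gT w (u - u0) < 1) :
    (∑ᶠ z ∈ {z : Pt k E L | red w z = x0}, ord z (algebraMap (L ⊗[k] E) (FL k E L) u)) ≤
      ord x0 (algebraMap (L ⊗[k] E) (FL k E L) u0) := by
  have hO := x0.place hx
  have hπ := lf_unif_ne h hO
  have hu : u ≠ 0 := lf_u_ne w hu0 h0 hlt
  have hu1 : IntT w ⊤ u := by
    rw [intT_top_iff]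
    have : u = (u - u0) + u0 := by ring
    rw [this]
    exact (gT_add_le w _ _).trans (max_le hlt.le (hu0.gT_eq w h0).le)
  obtain ⟨m1, hm1⟩ := lf_int h w hO hu1
  obtain ⟨m2, hm2⟩ := lf_const h hO hu0
  set m := max m1 m2 with hm
  have hP : ((1 : L) ⊗ₜ[k] unif x0.O) ^ m * u0 ≠ 0 := by
    intro he
    have := lf_gT_pow w hπ m u0
    rw [he, hu0.gT_eq w h0, (gT_eq_zero_iff w 0).2 rfl] at this
    exact zero_ne_one this
  have H := (disc_le h w hx (hm1 m (le_max_left _ _)) (hm2 m (le_max_right _ _)) hP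
    (by rw [← mul_sub, lf_gT_pow w hπ]; exact hlt)).1
  have hxx : red w x0 = x0 := red_const h w hx
  rw [lf_ord_pow h x0 hπ m h0, lf_ord_unif h w hx hxx, if_pos rfl, mul_one] at H
  have hS : (∑ᶠ z ∈ {z : Pt k E L | red w z = x0}, ord z (algebraMap (L ⊗[k] E) (FL k E L)
      (((1 : L) ⊗ₜ[k] unif x0.O) ^ m * u))) = m +
      ∑ᶠ z ∈ {z : Pt k E L | red w z = x0}, ord z (algebraMap (L ⊗[k] E) (FL k E L) u) := by
    have e1 : (∑ᶠ z ∈ {z : Pt k E L | red w z = x0}, ord z (algebraMap (L ⊗[k] E) (FL k E L)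
        (((1 : L) ⊗ₜ[k] unif x0.O) ^ m * u))) =
        ∑ᶠ z ∈ {z : Pt k E L | red w z = x0}, ((if z = x0 then (m : ℤ) else 0) +
          ord z (algebraMap (L ⊗[k] E) (FL k E L) u)) := by
      refine finsum_mem_congr rfl fun z hz => ?_
      rw [lf_ord_pow h z hπ m hu, lf_ord_unif h w hx hz]
      split_ifs <;> simp
    rw [e1, finsum_mem_add_distrib']
    · congr 1
      rw [finsum_mem_eq_sum_of_inter_support_eq (t := {x0}), Finset.sum_singleton, if_pos rfl]
      ext z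
      simp only [Set.mem_inter_iff, Set.mem_ofPred_eq, Function.mem_support, Finset.coe_singleton,
        Set.mem_singleton_iff]
      constructor
      · rintro ⟨-, h2⟩
        refine ⟨?_, h2⟩
        by_contra hne
        exact h2 (if_neg hne)
      · rintro ⟨h1, h2⟩
        exact ⟨h1 ▸ hxx, h2⟩
    · refine (Set.finite_singleton x0).subset ?_
      rintro z ⟨-, h2⟩
      by_contra hne
      exact h2 (if_neg hne)
    · exact (ord_finite h _).subset Set.inter_subset_right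
  rw [hS] at H
  omega

theorem disc_count (h : FF k t) (w : GV k L) {x0 : Pt k E L} (hx : x0.O ≠ ⊤) {u u0 : L ⊗[k] E}
    (hu0 : ConstT ⊤ u0) (h0 : u0 ≠ 0) (hlt : gT w (u - u0) < 1) :
    (∑ᶠ z ∈ {z : Pt k E L | red w z = x0}, ord z (algebraMap (L ⊗[k] E) (FL k E L) u)) =
      ord x0 (algebraMap (L ⊗[k] E) (FL k E L) u0) := by
  set A := (ord_finite h (algebraMap (L ⊗[k] E) (FL k E L) u)).toFinset with hA
  set B := (ord_finite h (algebraMap (L ⊗[k] E) (FL k E L) u0)).toFinset with hB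
  set T : Finset (Pt k E L) := insert x0 (A.image (red w) ∪ B) with hT
  have hTc : ∀ x ∈ T, x.O ≠ ⊤ := by
    intro x hxT
    rw [hT, Finset.mem_insert, Finset.mem_union, Finset.mem_image] at hxT
    rcases hxT with rfl | ⟨z, -, rfl⟩ | hxB
    · exact hx
    · exact red_ne_top h w z
    · intro hO
      obtain ⟨y, rfl⟩ := x.eq_ofHom hO
      rw [hB, Set.Finite.mem_toFinset] at hxB
      exact hxB (hu0.ord_ofHom h y)
  have h1 : ∑ x ∈ T, (∑ᶠ z ∈ {z : Pt k E L | red w z = x},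
      ord z (algebraMap (L ⊗[k] E) (FL k E L) u)) = 0 := by
    rw [Finset.sum_congr rfl fun x _ => lf_disc_sum h w x _, ← hA,
      Finset.sum_fiberwise_of_maps_to (g := red w)]
    · rw [← deg_zero h (algebraMap (L ⊗[k] E) (FL k E L) u)]
      refine (finsum_eq_sum_of_support_subset _ ?_).symm
      intro z hz
      rw [hA, Set.Finite.coe_toFinset]
      exact hz
    · intro z hz
      rw [hT]
      exact Finset.mem_insert_of_mem (Finset.mem_union_left _ (Finset.mem_image_of_mem _ hz))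
  have h2 : ∑ x ∈ T, ord x (algebraMap (L ⊗[k] E) (FL k E L) u0) = 0 := by
    rw [← deg_zero h (algebraMap (L ⊗[k] E) (FL k E L) u0)]
    refine (finsum_eq_sum_of_support_subset _ ?_).symm
    intro z hz
    rw [hT]
    refine Finset.mem_coe.2 (Finset.mem_insert_of_mem (Finset.mem_union_right _ ?_))
    rw [hB, Set.Finite.mem_toFinset]
    exact hz
  exact (Finset.sum_eq_sum_iff_of_le fun x hxT => lf_disc_le h w (hTc x hxT) hu0 h0 hlt).1
    (h1.trans h2.symm) x0 (by rw [hT]; exact Finset.mem_insert_self _ _)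

omit [Nonempty (GV k L)] in
/-- An element regular along `O` with Gauss norm at most one is integral along `O`. -/
theorem lf_intT (w : GV k L) {O : ValuationSubring E} (hk : ∀ c : k, algebraMap k E c ∈ O)
    {n : ℕ} (b : Fin n → L) (a : Fin n → E) (ha : ∀ i, a i ∈ O)
    (hg : gT w (∑ i, b i ⊗ₜ[k] a i) ≤ 1) : IntT w O (∑ i, b i ⊗ₜ[k] a i) := by
  set V : Submodule k E := Submodule.span k (Set.range a) with hV
  have : FiniteDimensional k V := FiniteDimensional.span_of_finite k (Set.finite_range a)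
  let β := Module.finBasis k V
  have hVO : ∀ x ∈ V, x ∈ O := by
    intro x hx
    refine Submodule.span_induction (p := fun x _ => x ∈ O) ?_ (zero_mem _) ?_ ?_ hx
    · rintro _ ⟨i, rfl⟩
      exact ha i
    · intro x y _ _ hx hy
      exact add_mem hx hy
    · intro c x _ hx
      rw [Algebra.smul_def]
      exact mul_mem (hk c) hx
  have haV : ∀ i, a i ∈ V := fun i => Submodule.subset_span ⟨i, rfl⟩
  have hli : LinearIndependent k fun j => (β j : E) :=
    β.linearIndependent.map' V.subtype (Submodule.ker_subtype V)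
  have he : ∑ i, b i ⊗ₜ[k] a i =
      ∑ j, (∑ i, β.repr ⟨a i, haV i⟩ j • b i) ⊗ₜ[k] (β j : E) := by
    simp only [TensorProduct.sum_tmul, TensorProduct.smul_tmul]
    rw [Finset.sum_comm]
    refine Finset.sum_congr rfl fun i _ => ?_
    rw [← TensorProduct.tmul_sum]
    have := congrArg V.subtype (β.sum_repr ⟨a i, haV i⟩)
    simp only [map_sum, map_smul, Submodule.subtype_apply] at this
    rw [this]
  rw [he] at hg ⊢
  rw [gT_sum w Finset.univ hli] at hg
  exact ⟨_, _, _, fun j => hVO _ (β j).2,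
    fun j => (Finset.le_sup (f := fun j => w.v (∑ i, β.repr ⟨a i, haV i⟩ j • b i))
      (Finset.mem_univ j)).trans hg, rfl⟩

theorem lf_fin (h : FF k t) (w : GV k L) (y : Pt k E L) (f : FL k E L) :
    (Function.support fun z : Pt k E L => (ord z f : ℝ) * ipt w y z).Finite := by
  refine (ord_finite h f).subset fun z hz h0 => hz ?_
  simp [h0]

theorem lf_unif_sum (h : FF k t) (w : GV k L) (y : Pt k E L) :
    ∑ᶠ z : Pt k E L, (ord z (tm (1 : L) (unif (redO w y))) : ℝ) * ipt w y z =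
      -Real.log (w.v (y.ev (unif (redO w y)))) := by
  have hx := red_ne_top h w y
  rw [finsum_eq_single _ (red w y)]
  · have := lf_ord_unif h w hx (red_const h w hx)
    rw [red_O, if_pos rfl] at this
    rw [this, ipt_red h w y]
    simp
  · intro z hz
    by_cases hr : red w z = red w y
    · have := lf_ord_unif h w hx hr
      rw [red_O, if_neg hz] at this
      rw [this]
      simp
    · rw [ipt_of_red_ne (Ne.symm hr), mul_zero]

/-- The formula for an element of Gauss norm one. -/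
theorem lf_unit (h : FF k t) (w : GV k L) {y : Pt k E L} {u : L ⊗[k] E} {c : L}
    (hy : EvT y u c) (hc : c ≠ 0) (hg : gT w u = 1) :
    -Real.log (w.v c) =
      ∑ᶠ z : Pt k E L, (ord z (algebraMap (L ⊗[k] E) (FL k E L) u) : ℝ) * ipt w y z := by
  have hx := red_ne_top h w y
  have hO := redO_place h w y
  have hπ := lf_unif_ne h hO
  have hu : u ≠ 0 := by
    rintro rfl
    rw [(gT_eq_zero_iff w 0).2 rfl] at hg
    exact zero_ne_one hg
  obtain ⟨m, hm, hm0⟩ : ∃ m : ℕ, IntT w (redO w y) (((1 : L) ⊗ₜ[k] unif (redO w y)) ^ m * u) ∧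
      y.ev (unif (redO w y)) ^ m ≠ 0 := by
    by_cases hyO : y.O = ⊤
    · obtain ⟨m, hm⟩ := lf_int h w hO ((intT_top_iff w u).2 hg.le)
      obtain ⟨φ, rfl⟩ := y.eq_ofHom hyO
      refine ⟨m, hm m le_rfl, pow_ne_zero m ?_⟩
      rw [Pt.ofHom_ev]
      exact (map_ne_zero φ).2 hπ
    · refine ⟨0, ?_, by rw [pow_zero]; exact one_ne_zero⟩
      have h1 : redO w y = y.O := by rw [← red_O, red_const h w hyO]
      rw [pow_zero, one_mul, h1]
      obtain ⟨n, b, a, ha, rfl, -⟩ := hy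
      exact lf_intT w y.alg_mem b a ha hg.le
  obtain ⟨U0, x1, c', hU0, hx1, hc', hU⟩ := hm.exists_red
  have hlt : gT w (((1 : L) ⊗ₜ[k] unif (redO w y)) ^ m * u - U0) < 1 := by
    rw [hU, add_sub_cancel_left, gT_mul, gT_tmul w _ one_ne_zero]
    exact mul_lt_one_of_nonneg_of_lt_one_left zero_le hc' hx1.gT_le
  have h0 : U0 ≠ 0 := by
    rintro rfl
    rw [sub_zero, lf_gT_pow w hπ, hg] at hlt
    exact lt_irrefl _ hlt
  have hU0' : ConstT ⊤ U0 := by
    obtain ⟨n, b, a, -, hb, he⟩ := hU0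
    exact ⟨n, b, a, fun i => ValuationSubring.mem_top _, hb, he⟩
  have hπy : unif (redO w y) ∈ y.O := (place_unif h hO).1.1
  have hv : HasVal y (algebraMap (L ⊗[k] E) (FL k E L)
      (((1 : L) ⊗ₜ[k] unif (redO w y)) ^ m * u)) (y.ev (unif (redO w y)) ^ m * c) := by
    rw [map_mul, map_pow]
    have := ((hasVal_tm y (1 : L) hπy).pow m).mul hy.hasVal
    rw [one_mul] at this
    exact this
  have hne : ((1 : L) ⊗ₜ[k] unif (redO w y)) ^ m * u ≠ 0 := lf_u_ne w hU0' h0 hlt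
  have ho := (ord_eq_zero_iff h y (lf_ne hne)).2 ⟨_, mul_ne_zero hm0 hc, hv⟩
  have H := (disc_le h w hx hm hU0 h0 hlt).2 (disc_count h w hx hU0' h0 hlt) y rfl ho
  rw [hv.val_eq] at H
  have e1 : ∑ᶠ z : Pt k E L, (ord z (algebraMap (L ⊗[k] E) (FL k E L)
      (((1 : L) ⊗ₜ[k] unif (redO w y)) ^ m * u)) : ℝ) * ipt w y z =
      ∑ᶠ z : Pt k E L, ((m : ℝ) * ((ord z (tm (1 : L) (unif (redO w y))) : ℝ) * ipt w y z) +
        (ord z (algebraMap (L ⊗[k] E) (FL k E L) u) : ℝ) * ipt w y z) := by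
    refine finsum_congr fun z => ?_
    rw [lf_ord_pow h z hπ m hu]
    push_cast
    ring
  have hf1 := lf_fin h w y (tm (1 : L) (unif (redO w y)))
  rw [e1, finsum_add_distrib _ (lf_fin h w y _), ← mul_finsum, lf_unif_sum h w y] at H
  · have hv1 : ((w.v (y.ev (unif (redO w y)) ^ m) : ℝ≥0) : ℝ) ≠ 0 := by
      exact_mod_cast (Valuation.ne_zero_iff w.v).2 hm0
    have hv2 : ((w.v c : ℝ≥0) : ℝ) ≠ 0 := by
      exact_mod_cast (Valuation.ne_zero_iff w.v).2 hc
    rw [map_mul, NNReal.coe_mul, Real.log_mul hv1 hv2, map_pow, NNReal.coe_pow, Real.log_pow] at H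
    linarith
  · refine hf1.subset fun z hz h0 => hz ?_
    simp only [h0, mul_zero]

/-- The formula for an element of the tensor product. -/
theorem lf_elt (h : FF k t) (w : GV k L) {y : Pt k E L} {x : L ⊗[k] E} {c : L}
    (hy : EvT y x c) (hc : c ≠ 0) :
    -Real.log (w.v c) = -Real.log (gT w x) +
      ∑ᶠ z : Pt k E L, (ord z (algebraMap (L ⊗[k] E) (FL k E L) x) : ℝ) * ipt w y z := by
  have hx : x ≠ 0 := by
    rintro rfl
    have := hy.hasVal
    rw [map_zero] at this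
    exact hc (this.unique (hasVal_zero y))
  obtain ⟨e, he⟩ := exists_gT_eq w x
  have hg : gT w x ≠ 0 := fun h0 => hx ((gT_eq_zero_iff w x).1 h0)
  have he0 : e ≠ 0 := by
    rintro rfl
    rw [map_zero] at he
    exact hg he.symm
  have h1 : EvT y ((e⁻¹ ⊗ₜ[k] (1 : E)) * x) (e⁻¹ * c) := by
    have := (evT_tmul y e⁻¹ (one_mem y.O)).mul hy
    rwa [y.ev_one, mul_one] at this
  have h2 : gT w ((e⁻¹ ⊗ₜ[k] (1 : E)) * x) = 1 := by
    rw [gT_mul, gT_tmul w _ one_ne_zero, map_inv₀, he, inv_mul_cancel₀ hg]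
  have H := lf_unit h w h1 (mul_ne_zero (inv_ne_zero he0) hc) h2
  have e1 : ∑ᶠ z : Pt k E L, (ord z (algebraMap (L ⊗[k] E) (FL k E L)
      ((e⁻¹ ⊗ₜ[k] (1 : E)) * x)) : ℝ) * ipt w y z =
      ∑ᶠ z : Pt k E L, (ord z (algebraMap (L ⊗[k] E) (FL k E L) x) : ℝ) * ipt w y z := by
    refine finsum_congr fun z => ?_
    have h3 : (tm e⁻¹ (1 : E) : FL k E L) ≠ 0 := tm_ne_zero (inv_ne_zero he0) one_ne_zero
    have h4 := ord_mul h z h3 (lf_ne hx)
    rw [ord_tm_one h, zero_add] at h4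
    rw [map_mul, ← h4]
    rfl
  have hv1 : ((gT w x : ℝ≥0) : ℝ) ≠ 0 := by exact_mod_cast hg
  have hv2 : ((w.v c : ℝ≥0) : ℝ) ≠ 0 := by
    exact_mod_cast (Valuation.ne_zero_iff w.v).2 hc
  rw [e1, map_mul, map_inv₀, he, NNReal.coe_mul, NNReal.coe_inv, Real.log_mul (inv_ne_zero hv1) hv2,
    Real.log_inv] at H
  linarith

theorem local_formula (h : FF k t) (w : GV k L) {f : FL k E L} (hf : f ≠ 0) {y : Pt k E L}
    (hy : ord y f = 0) :
    -Real.log (w.v (val y f)) =
      -Real.log (gauss w f) + ∑ᶠ z : Pt k E L, (ord z f : ℝ) * ipt w y z := by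
  obtain ⟨c, hc, hv⟩ := (ord_eq_zero_iff h y hf).1 hy
  rw [hv.val_eq]
  obtain ⟨x, x', cx, cx', hx, hx', h0', hfx, hcc⟩ := hv
  have h0 : cx ≠ 0 := by rw [← hcc]; exact mul_ne_zero hc h0'
  have H := lf_elt h w hx h0
  have H' := lf_elt h w hx' h0'
  have hx0 : x' ≠ 0 := by
    rintro rfl
    have := hx'.hasVal
    rw [map_zero] at this
    exact h0' (this.unique (hasVal_zero y))
  have hg : gauss w f * gT w x' = gT w x := by
    rw [← gauss_algebraMap, ← gauss_algebraMap, ← gauss_mul, hfx]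
  have e1 : ∑ᶠ z : Pt k E L, (ord z (algebraMap (L ⊗[k] E) (FL k E L) x) : ℝ) * ipt w y z =
      ∑ᶠ z : Pt k E L, ((ord z f : ℝ) * ipt w y z +
        (ord z (algebraMap (L ⊗[k] E) (FL k E L) x') : ℝ) * ipt w y z) := by
    refine finsum_congr fun z => ?_
    rw [← hfx, ord_mul h z hf (lf_ne hx0)]
    push_cast
    ring
  have hv1 : ((gauss w f : ℝ≥0) : ℝ) ≠ 0 := by exact_mod_cast gauss_ne_zero w hf
  have hv2 : ((gT w x' : ℝ≥0) : ℝ) ≠ 0 := by
    exact_mod_cast fun h0 => hx0 ((gT_eq_zero_iff w x').1 h0)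
  have hv3 : ((w.v c : ℝ≥0) : ℝ) ≠ 0 := by
    exact_mod_cast (Valuation.ne_zero_iff w.v).2 hc
  have hv4 : ((w.v cx' : ℝ≥0) : ℝ) ≠ 0 := by
    exact_mod_cast (Valuation.ne_zero_iff w.v).2 h0'
  rw [e1, finsum_add_distrib (lf_fin h w y _) (lf_fin h w y _), ← hg, ← hcc, map_mul,
    NNReal.coe_mul, NNReal.coe_mul, Real.log_mul hv1 hv2, Real.log_mul hv3 hv4] at H
  linarith

end Pool.Agent.FFC
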