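import Pool.Agent.P.MP_a2beea_nt.FC.Red

/-! Functoriality of reduction. For Frobenius use `(w.comap fr).v x = w.v x ^ q`.
`ipt_leg`: if the reductions agree then `χ` and `φ` induce the same place `O` with uniformizer
`π`; take `a = t⁻¹` if `t ∉ O` and `a = μ(t)` (`place_res`) otherwise; `a = π ^ e * unit` with
`e > 0` and `χ a = φ a`, so `w (χ π) = w (φ π)` by `v_of_factor`, and
`w (χ π ^ (q ^ i) - φ π) = w (φ π)`. -/

open Polynomial
open scoped TensorProduct NNReal IntermediateField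

namespace Pool.Agent.FFC

open Classical

variable {k : Type*} [Field k] [Fintype k] {E : Type*} [Field E] [Algebra k E] {t : E}
  {L : Type*} [Field L] [Algebra k L] [IsAlgClosed L]

theorem redO_smul (w : GV k L) (g : L ≃ₐ[k] L) (p : Pt k E L) :
    redO w (g • p) = redO (w.comap g) p := by
  ext a
  exact Iff.rfl

theorem red_smul (w : GV k L) (g : L ≃ₐ[k] L) (p : Pt k E L) :
    red w (g • p) = g • red (w.comap g) p := by
  refine Pt.ext (redO_smul w g p) ?_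
  funext a
  by_cases ha : a ∈ redO w (g • p)
  · have ha' : a ∈ redO (w.comap g) p := by rwa [← redO_smul]
    rw [red_ev ha, Pt.smul_ev, Pt.smul_ev, red_ev ha']
    refine w.rc_eq (((w.comap g).rc_alg _).algHom g.toAlgHom) ?_
    have := (w.comap g).rc_spec ha'.2
    rwa [GV.comap_v, map_sub] at this
  · have ha' : a ∉ redO (w.comap g) p := by rwa [← redO_smul]
    rw [(red w (g • p)).junk a ha, Pt.smul_ev, (red (w.comap g) p).junk a ha', map_zero]

theorem ipt_smul (w : GV k L) (g : L ≃ₐ[k] L) (p p' : Pt k E L) :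
    ipt w (g • p) (g • p') = ipt (w.comap g) p p' := by
  unfold ipt dst
  rw [red_smul, red_smul, redO_smul]
  simp only [smul_left_cancel_iff, Pt.smul_ev, GV.comap_v, map_sub]

omit [Fintype k] [IsAlgClosed L] in
theorem redmap_redO_of_pow {w w' : GV k L} {n : ℕ} (hn : n ≠ 0) (hw : ∀ x, w'.v x = w.v x ^ n)
    (p : Pt k E L) : redO w' p = redO w p := by
  ext a
  rw [mem_redO, mem_redO, hw, pow_le_one_iff hn]

theorem red_of_pow {w w' : GV k L} {n : ℕ} (hn : n ≠ 0) (hw : ∀ x, w'.v x = w.v x ^ n)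
    (p : Pt k E L) : red w' p = red w p := by
  have hO := redmap_redO_of_pow hn hw p
  refine Pt.ext hO ?_
  funext a
  by_cases ha : a ∈ redO w p
  · have ha' : a ∈ redO w' p := by rwa [hO]
    rw [red_ev ha, red_ev ha']
    refine w'.rc_eq (w.rc_alg _) ?_
    rw [hw]
    exact pow_lt_one₀ zero_le (w.rc_spec ha.2) hn
  · have ha' : a ∉ redO w' p := by rwa [hO]
    rw [(red w p).junk a ha, (red w' p).junk a ha']

theorem ipt_of_pow {w w' : GV k L} {n : ℕ} (hn : n ≠ 0) (hw : ∀ x, w'.v x = w.v x ^ n)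
    (p p' : Pt k E L) : ipt w' p p' = n * ipt w p p' := by
  unfold ipt dst
  rw [red_of_pow hn hw, red_of_pow hn hw, redmap_redO_of_pow hn hw]
  split_ifs with h
  · rw [hw, NNReal.coe_pow, Real.log_pow]
    ring
  · simp

theorem fr_pow_apply (n : ℕ) (x : L) : (fr k L ^ n) x = x ^ (Fintype.card k ^ n) := by
  induction n generalizing x with
  | zero => simp
  | succ n ih => rw [pow_succ, AlgEquiv.mul_apply, ih, fr_apply, ← pow_mul, pow_succ']

theorem fr_comm (g : L ≃ₐ[k] L) : Commute (fr k L) g := by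
  ext x
  simp [AlgEquiv.mul_apply]

theorem redmap_comap (w : GV k L) (n : ℕ) (x : L) :
    (w.comap (fr k L ^ n)).v x = w.v x ^ (Fintype.card k ^ n) := by
  rw [GV.comap_v, fr_pow_apply, map_pow]

theorem redmap_red_nat (w : GV k L) (n : ℕ) (p : Pt k E L) :
    red w ((fr k L ^ n) • p) = (fr k L ^ n) • red w p := by
  rw [red_smul, red_of_pow (pow_ne_zero n Fintype.card_ne_zero) (redmap_comap w n)]

theorem redmap_ipt_nat (w : GV k L) (n : ℕ) (p p' : Pt k E L) :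
    ipt w ((fr k L ^ n) • p) ((fr k L ^ n) • p') = (Fintype.card k : ℝ) ^ n * ipt w p p' := by
  rw [ipt_smul, ipt_of_pow (pow_ne_zero n Fintype.card_ne_zero) (redmap_comap w n), Nat.cast_pow]

theorem red_fr (w : GV k L) (n : ℤ) (p : Pt k E L) :
    red w ((fr k L ^ n) • p) = (fr k L ^ n) • red w p := by
  obtain ⟨m, rfl | rfl⟩ := n.eq_nat_or_neg
  · rw [zpow_natCast, redmap_red_nat]
  · rw [zpow_neg, zpow_natCast, eq_inv_smul_iff, ← redmap_red_nat, smul_inv_smul]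

theorem ipt_fr (w : GV k L) (n : ℤ) (p p' : Pt k E L) :
    ipt w ((fr k L ^ n) • p) ((fr k L ^ n) • p') =
      (Fintype.card k : ℝ) ^ n * ipt w p p' := by
  obtain ⟨m, rfl | rfl⟩ := n.eq_nat_or_neg
  · rw [zpow_natCast, zpow_natCast, redmap_ipt_nat]
  · have hq : (0 : ℝ) < (Fintype.card k : ℝ) ^ m := by
      have := Fintype.card_pos (α := k)
      positivity
    have := redmap_ipt_nat w m ((fr k L ^ m)⁻¹ • p) ((fr k L ^ m)⁻¹ • p')
    rw [smul_inv_smul, smul_inv_smul] at this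
    rw [zpow_neg, zpow_neg, zpow_natCast, zpow_natCast, this, ← mul_assoc, inv_mul_cancel₀ hq.ne',
      one_mul]

theorem redmap_unif_eq (h : FF k t) (w : GV k L) {χ φ : E →ₐ[k] L} (he : χ t = φ t)
    (hO : redO w (Pt.ofHom χ) = redO w (Pt.ofHom φ)) :
    w.v (χ (unif (redO w (Pt.ofHom φ)))) = w.v (φ (unif (redO w (Pt.ofHom φ)))) := by
  have hP := redO_place h w (Pt.ofHom φ)
  have hU := place_unif h hP
  have ha : ∃ a : E, a ≠ 0 ∧ χ a = φ a ∧
      a / unif (redO w (Pt.ofHom φ)) ∈ redO w (Pt.ofHom φ) := by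
    by_cases ht : t ∈ redO w (Pt.ofHom φ)
    · obtain ⟨μ, hm, -, hμ⟩ := place_res h hP ht
      refine ⟨aeval t μ, fun h0 => h.trans ⟨μ, hm.ne_zero, h0⟩, ?_, hμ⟩
      rw [← aeval_algHom_apply, ← aeval_algHom_apply, he]
    · refine ⟨t⁻¹, inv_ne_zero h.ne_zero, by rw [map_inv₀, map_inv₀, he], ?_⟩
      exact hU.2.2 _ (((redO w (Pt.ofHom φ)).mem_or_inv_mem t).resolve_left ht) (by rwa [inv_inv])
  obtain ⟨a, ha0, hae, ha⟩ := ha
  obtain ⟨n, h1, h2⟩ := place_factor h hP ha0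
  have hn : n ≠ 0 := by
    rintro rfl
    rw [zpow_zero, div_one] at h2
    have h3 := mul_mem ha h2
    rw [div_mul_eq_mul_div, mul_inv_cancel₀ ha0, one_div] at h3
    exact hU.2.1 h3
  have e1 := v_of_factor h w φ ha0 h1 h2
  have e2 := v_of_factor h w χ ha0 (n := n) (by rwa [hO]) (by rwa [hO])
  rw [hO, hae, e1] at e2
  exact ((zpow_left_inj₀ zero_le zero_le hn).1 e2).symm

theorem ipt_leg (h : FF k t) (w : GV k L) {χ φ : E →ₐ[k] L} (he : χ t = φ t) {i : ℕ}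
    (hi : 1 ≤ i) :
    ipt w (Pt.ofHom (tw (fr k L ^ i) χ)) (Pt.ofHom φ) =
      if (fr k L ^ i) • red w (Pt.ofHom χ) = red w (Pt.ofHom φ) then
        ipt w (Pt.ofHom φ) (red w (Pt.ofHom φ)) else 0 := by
  rw [← Pt.smul_ofHom]
  have hr := redmap_red_nat w i (Pt.ofHom χ)
  split_ifs with hc
  · have hO : redO w (Pt.ofHom χ) = redO w (Pt.ofHom φ) := congrArg Pt.O hc
    have hO' : redO w ((fr k L ^ i) • Pt.ofHom χ) = redO w (Pt.ofHom φ) :=
      congrArg Pt.O (hr.trans hc)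
    have e := redmap_unif_eq h w he hO
    have h1 : w.v (φ (unif (redO w (Pt.ofHom φ)))) < 1 := v_unif_lt h w (Pt.ofHom φ)
    have h0 := v_unif_ne h w φ
    have hq : 1 < Fintype.card k ^ i := Nat.one_lt_pow (by omega) Fintype.one_lt_card
    rw [ipt_red h]
    unfold ipt dst
    rw [if_pos (hr.trans hc), hO', Pt.smul_ev, Pt.ofHom_ev, Pt.ofHom_ev, fr_pow_apply]
    have h2 : w.v (χ (unif (redO w (Pt.ofHom φ))) ^ Fintype.card k ^ i) <
        w.v (φ (unif (redO w (Pt.ofHom φ)))) := by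
      rw [map_pow, e]
      exact pow_lt_self_of_lt_one₀ (pos_iff_ne_zero.2 h0) h1 hq
    rw [w.v.map_sub_eq_of_lt_right h2]
  · exact ipt_of_red_ne (by rwa [hr])

/-- The same for the backward orbit: `φ ^ (q ^ -i)` is closer to the boundary of its disc. -/
theorem ipt_leg_inv (h : FF k t) (w : GV k L) {χ φ : E →ₐ[k] L} (he : χ t = φ t) {i : ℕ}
    (hi : 1 ≤ i) :
    ipt w (Pt.ofHom (tw ((fr k L)⁻¹ ^ i) φ)) (Pt.ofHom χ) =
      if red w (Pt.ofHom χ) = ((fr k L)⁻¹ ^ i) • red w (Pt.ofHom φ) then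
        ipt w (Pt.ofHom φ) (red w (Pt.ofHom φ)) / (Fintype.card k : ℝ) ^ i else 0 := by
  have hq : (0 : ℝ) < (Fintype.card k : ℝ) ^ i := by
    have := Fintype.card_pos (α := k)
    positivity
  have e1 := redmap_ipt_nat w i ((fr k L ^ i)⁻¹ • Pt.ofHom φ) (Pt.ofHom χ)
  rw [smul_inv_smul, ipt_comm, Pt.smul_ofHom (fr k L ^ i) χ, ipt_leg h w he hi] at e1
  rw [← Pt.smul_ofHom, inv_pow]
  simp only [eq_inv_smul_iff]
  split_ifs at e1 ⊢ with hc
  · rw [e1, mul_div_cancel_left₀ _ hq.ne']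
  · exact (mul_eq_zero.1 e1.symm).resolve_left hq.ne'

/-- Far out in the backward orbit every fixed point looks like the centre of its disc. -/
theorem ipt_far (h : FF k t) (w : GV k L) (φ : E →ₐ[k] L) (z : Pt k E L) :
    ∃ i0 : ℕ, ∀ i, i0 ≤ i → Pt.ofHom (tw ((fr k L)⁻¹ ^ i) φ) ≠ z ∧
      ipt w (Pt.ofHom (tw ((fr k L)⁻¹ ^ i) φ)) z =
        if red w z = ((fr k L)⁻¹ ^ i) • red w (Pt.ofHom φ) then
          ipt w (Pt.ofHom φ) (red w (Pt.ofHom φ)) / (Fintype.card k : ℝ) ^ i else 0 := by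
  obtain ⟨π, hπ⟩ : ∃ π, π = unif (redO w (Pt.ofHom φ)) := ⟨_, rfl⟩
  have h0 : w.v (φ π) ≠ 0 := by rw [hπ]; exact v_unif_ne h w φ
  have hN : ∃ N : ℕ, w.v (z.ev π) < 1 → w.v (z.ev π) ^ N < w.v (φ π) := by
    by_cases hs : w.v (z.ev π) < 1
    · obtain ⟨N, hN⟩ := exists_pow_lt_of_lt_one (pos_iff_ne_zero.2 h0) hs
      exact ⟨N, fun _ => hN⟩
    · exact ⟨0, fun h' => absurd h' hs⟩
  obtain ⟨N, hN⟩ := hN
  refine ⟨N, fun i hi => ?_⟩
  have hq : (0 : ℝ) < (Fintype.card k : ℝ) ^ i := by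
    have := Fintype.card_pos (α := k)
    positivity
  rw [← Pt.smul_ofHom, inv_pow]
  have hr : red w ((fr k L ^ i)⁻¹ • Pt.ofHom φ) = (fr k L ^ i)⁻¹ • red w (Pt.ofHom φ) := by
    rw [eq_inv_smul_iff, ← redmap_red_nat, smul_inv_smul]
  have hO : redO w ((fr k L ^ i)⁻¹ • Pt.ofHom φ) = redO w (Pt.ofHom φ) := congrArg Pt.O hr
  have hpw : w.v (((fr k L ^ i)⁻¹ • Pt.ofHom φ).ev π) ^ Fintype.card k ^ i = w.v (φ π) := by
    rw [← map_pow, ← fr_pow_apply, ← Pt.smul_ev, smul_inv_smul, Pt.ofHom_ev]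
  by_cases hc : red w z = (fr k L ^ i)⁻¹ • red w (Pt.ofHom φ)
  · have hOz : redO w z = redO w (Pt.ofHom φ) := congrArg Pt.O hc
    have hs : w.v (z.ev π) < 1 := by
      rw [hπ, ← hOz]
      exact v_unif_lt h w z
    have h1 : N ≤ Fintype.card k ^ i := hi.trans (Nat.lt_pow_self Fintype.one_lt_card).le
    have h2 : w.v (z.ev π) ^ Fintype.card k ^ i <
        w.v (((fr k L ^ i)⁻¹ • Pt.ofHom φ).ev π) ^ Fintype.card k ^ i := by
      rw [hpw]
      exact (pow_le_pow_of_le_one zero_le hs.le h1).trans_lt (hN hs)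
    have h3 : w.v (z.ev π) < w.v (((fr k L ^ i)⁻¹ • Pt.ofHom φ).ev π) :=
      lt_of_pow_lt_pow_left₀ _ zero_le h2
    refine ⟨fun he => ?_, ?_⟩
    · rw [he] at h3
      exact lt_irrefl _ h3
    · rw [if_pos hc, ipt_red h, ← hπ, Pt.ofHom_ev, ← hpw]
      unfold ipt dst
      rw [if_pos (hr.trans hc.symm), hO, ← hπ, w.v.map_sub_eq_of_lt_left h3, NNReal.coe_pow,
        Real.log_pow, eq_div_iff hq.ne']
      push_cast
      ring
  · refine ⟨fun he => hc (by rw [← he, hr]), ?_⟩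
    rw [if_neg hc]
    exact ipt_of_red_ne (by rw [hr]; exact fun h' => hc h'.symm)

end Pool.Agent.FFC
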