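import Pool.Agent.P.MP_a2beea_nt.FC.Prod
import Pool.Agent.P.MP_a2beea_nt.FC.LF
import Pool.Agent.P.MP_a2beea_nt.FC.RedMap

/-! Global intersection numbers and heights. `Loc`: `ipt (V.comap η) p p' = ipt V (η • p) (η • p')`
(`ipt_smul`) and `η • p` only depends on the values of `η` at the finitely many `p.ev a`, `a` in a
generating set of `OO k t` or `OO k t⁻¹` (`OO_fg`, `Pt.ext_OO`). Finite support: for `p ≠ p'`
both finite there is `a ∈ OO k t` with `p a ≠ p' a`; if `|p t| ≤ 1` and `|p a - p' a| = 1` the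
reductions differ (`red_eq_iff`); use `cofinite_eq_one`. If `t ∈ p.O`, `t ∉ p'.O` and
`|p t| ≤ 1` then `t ∈ redO w p`, `t ∉ redO w p'`. If both are infinite use `FF.inv`.
For `p = p'` the integrand is `- log 0 = 0`. -/

open Polynomial
open scoped TensorProduct NNReal IntermediateField

namespace Pool.Agent.FFC

open Classical

variable {k : Type*} [Field k] [Fintype k] {E : Type*} [Field E] [Algebra k E] {t : E}
  {L : Type*} [Field L] [Algebra k L] [IsAlgClosed L]
  [IsDomain (L ⊗[k] E)]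
  [Nonempty (GV k L)]
  {θ : L}

set_option linter.unusedSectionVars false

namespace HtAux

theorem det_fin {t : E} (h : FF k t) (p : Pt k E L) (hp : t ∈ p.O) :
    ∃ S : Finset L, ∀ g g' : L ≃ₐ[k] L, (∀ s ∈ S, g s = g' s) → g • p = g' • p := by
  obtain ⟨S, hS⟩ := OO_fg h
  refine ⟨S.image p.ev, fun g g' hg => Pt.ext_OO h hp hp fun a ha => ?_⟩
  have hm : ∀ b ∈ Algebra.adjoin k (S : Set E), b ∈ p.O := fun b hb =>
    OO_le p.alg_mem hp b (hS ▸ hb)
  rw [← hS] at ha
  simp only [Pt.smul_ev]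
  induction ha using Algebra.adjoin_induction with
  | mem x hx => exact hg _ (Finset.mem_image_of_mem _ hx)
  | algebraMap c => rw [p.ev_alg, AlgEquiv.commutes, AlgEquiv.commutes]
  | add x y hx hy h1 h2 => rw [p.ev_add x (hm x hx) y (hm y hy), map_add, map_add, h1, h2]
  | mul x y hx hy h1 h2 => rw [p.ev_mul x (hm x hx) y (hm y hy), map_mul, map_mul, h1, h2]

theorem det (h : FF k t) (p : Pt k E L) :
    ∃ S : Finset L, ∀ g g' : L ≃ₐ[k] L, (∀ s ∈ S, g s = g' s) → g • p = g' • p :=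
  (p.O.mem_or_inv_mem t).elim (det_fin h p) (det_fin h.inv p)

theorem cofinite_le (P : PD k θ) (x : L) : {v : Pl k | ∃ η, 1 < (P.W v η).v x}.Finite := by
  by_cases hx : x = 0
  · subst hx
    simp
  · exact (cofinite_eq_one P hx).subset fun v ⟨η, hη⟩ => ⟨η, hη.ne'⟩

theorem fin_of_not_le (P : PD k θ) {p p' : Pt k E L} {a : E} (ha : a ∈ p.O) (ha' : a ∉ p'.O) :
    {v : Pl k | ∃ η, red (P.W v η) p = red (P.W v η) p'}.Finite := by
  refine (cofinite_le P (p.ev a)).subset fun v ⟨η, hη⟩ => ⟨η, not_le.1 fun hle => ha' ?_⟩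
  have h1 : a ∈ redO (P.W v η) p := ⟨ha, hle⟩
  rw [((red_eq_iff _ p p').1 hη).1] at h1
  exact h1.1

theorem fin_red (P : PD k θ) {p p' : Pt k E L} (hne : p ≠ p') :
    {v : Pl k | ∃ η, red (P.W v η) p = red (P.W v η) p'}.Finite := by
  by_cases h1 : ∃ a, a ∈ p.O ∧ a ∉ p'.O
  · obtain ⟨a, ha, ha'⟩ := h1
    exact fin_of_not_le P ha ha'
  by_cases h2 : ∃ a, a ∈ p'.O ∧ a ∉ p.O
  · obtain ⟨a, ha, ha'⟩ := h2
    exact (fin_of_not_le P ha ha').subset fun v ⟨η, hη⟩ => ⟨η, hη.symm⟩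
  push Not at h1 h2
  have hO : p.O = p'.O := SetLike.ext fun a => ⟨h1 a, h2 a⟩
  obtain ⟨a, ha⟩ : ∃ a, p.ev a ≠ p'.ev a := by
    by_contra hc
    push Not at hc
    exact hne (Pt.ext hO (funext hc))
  have hm : a ∈ p.O := by
    by_contra hc
    exact ha (by rw [p.junk a hc, p'.junk a (hO ▸ hc)])
  refine ((cofinite_le P (p.ev a)).union (cofinite_eq_one P (sub_ne_zero.2 ha))).subset ?_
  rintro v ⟨η, hη⟩
  by_cases hle : (P.W v η).v (p.ev a) ≤ 1
  · exact Or.inr ⟨η, (((red_eq_iff _ p p').1 hη).2 a ⟨hm, hle⟩).ne⟩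
  · exact Or.inl ⟨η, not_le.1 hle⟩

theorem adm_zero : Adm fun (_ : Pl k) (_ : GG k θ) => (0 : ℝ) :=
  ⟨fun _ => Loc.const 0, Set.finite_empty.subset fun _ hv => hv rfl⟩

/-- The action on embeddings as a permutation. -/
def twE (g : L ≃ₐ[k] L) : (E →ₐ[k] L) ≃ (E →ₐ[k] L) where
  toFun := tw g
  invFun := tw g.symm
  left_inv := fun y => AlgHom.ext fun a => g.symm_apply_apply (y a)
  right_inv := fun y => AlgHom.ext fun a => g.apply_symm_apply (y a)

theorem tw_inj (g : L ≃ₐ[k] L) {y z : E →ₐ[k] L} : tw g y = tw g z ↔ y = z :=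
  (twE g).injective.eq_iff

theorem finsum_tw (g : L ≃ₐ[k] L) (t : E) (y : E →ₐ[k] L) (F : (E →ₐ[k] L) → ℝ) :
    ∑ᶠ x ∈ {x : E →ₐ[k] L | x ≠ tw g y ∧ x t = tw g y t}, F x =
      ∑ᶠ x ∈ {x : E →ₐ[k] L | x ≠ y ∧ x t = y t}, F (tw g x) := by
  rw [← finsum_comp_equiv (twE g)]
  refine finsum_congr fun x => ?_
  have : (twE g x ∈ {x : E →ₐ[k] L | x ≠ tw g y ∧ x t = tw g y t}) =
      (x ∈ {x : E →ₐ[k] L | x ≠ y ∧ x t = y t}) := by
    apply propext
    exact and_congr (not_congr (tw_inj g)) g.injective.eq_iff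
  rw [this]
  rfl

end HtAux

open HtAux

theorem adm_ipt (h : FF k t) (P : PD k θ) (p p' : Pt k E L) :
    Adm fun v η => ipt (P.W v η) p p' := by
  refine ⟨fun v => ?_, ?_⟩
  · obtain ⟨S, hS⟩ := det h p
    obtain ⟨S', hS'⟩ := det h p'
    refine ⟨S ∪ S', fun η η' he => ?_⟩
    simp only [PD.W, ← ipt_smul]
    rw [hS η.1 η'.1 fun s hs => he s (Finset.mem_union_left _ hs),
      hS' η.1 η'.1 fun s hs => he s (Finset.mem_union_right _ hs)]
  · by_cases hne : p = p'
    · subst hne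
      refine Set.finite_empty.subset fun v hv => hv (funext fun η => ?_)
      simp [ipt, dst]
    · refine (fin_red P hne).subset fun v hv => ?_
      by_contra hc
      exact hv (funext fun η => ipt_of_red_ne fun he => hc ⟨η, he⟩)

theorem adm_gauss (P : PD k θ) (f : FL k E L) :
    Adm fun v η => Real.log (gauss (P.W v η) f) := by
  by_cases hf : f = 0
  · subst hf
    have : ∀ w : GV k L, gauss w (0 : FL k E L) = 0 := fun w => by
      rw [← map_zero (algebraMap (L ⊗[k] E) (FL k E L)), gauss_algebraMap,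
        (gT_eq_zero_iff w 0).2 rfl]
    simpa [this] using adm_zero (k := k) (θ := θ)
  · obtain ⟨s, s', hs, hs', h0, h0', he⟩ := gauss_formula hf
    have key : ∀ (w : GV k L) (s : Finset L), s.Nonempty → 0 ∉ s →
        ((s.sup fun c => w.v c : ℝ≥0) : ℝ) ≠ 0 := by
      rintro w s ⟨c, hc⟩ h0 hz
      have h1 : w.v c ≤ s.sup fun c => w.v c := Finset.le_sup (f := fun c => w.v c) hc
      rw [NNReal.coe_eq_zero.1 hz, nonpos_iff_eq_zero, map_eq_zero] at h1
      exact h0 (h1 ▸ hc)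
    have e : ∀ w : GV k L, Real.log (gauss w f) =
        Real.log (s.sup fun c => w.v c : ℝ≥0) - Real.log (s'.sup fun c => w.v c : ℝ≥0) :=
      fun w => by rw [he, NNReal.coe_div, Real.log_div (key _ s hs h0) (key _ s' hs' h0')]
    simp only [e]
    exact (adm_log_sup P s).sub (adm_log_sup P s')

theorem adm_cL (h : FF k t) (P : PD k θ) (D : (E →ₐ[k] L) →₀ ℤ) (n : ℕ) (φ : E →ₐ[k] L) :
    Adm fun v η => cL (P.W v η) D n φ := by
  exact Adm.sum D.support fun χ _ => (adm_ipt h P _ _).const_mul _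

theorem ip_comm (P : PD k θ) (p p' : Pt k E L) : ip P p p' = ip P p' p := by
  simp only [ip, ipt_comm _ p p']

theorem ip_nonneg (h : FF k t) (P : PD k θ) (p p' : Pt k E L) : 0 ≤ ip P p p' := by
  rw [← II_zero (k := k) (θ := θ)]
  exact II_mono P adm_zero (adm_ipt h P p p') fun v η => ipt_nonneg h _ p p'

theorem ip_smul (P : PD k θ) (g : GG k θ) (p p' : Pt k E L) :
    ip P (g.1 • p) (g.1 • p') = ip P p p' := by
  simp only [ip, ipt_smul, PD.W_comap]
  exact II_shift (fun v η => ipt (P.W v η) p p') g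

theorem ip_fr (h : FF k t) (P : PD k θ) (n : ℤ) (p p' : Pt k E L) :
    ip P ((fr k L ^ n) • p) ((fr k L ^ n) • p') = (Fintype.card k : ℝ) ^ n * ip P p p' := by
  simp only [ip, ipt_fr]
  exact II_const_mul P (adm_ipt h P p p') _

theorem ip_const_const (h : FF k t) (P : PD k θ) {x x' : Pt k E L} (hx : x.O ≠ ⊤)
    (hx' : x'.O ≠ ⊤) : ip P x x' = 0 := by
  simp only [ip, ipt_const h _ hx hx']
  exact II_zero

theorem ht_nonneg (P : PD k θ) (t : E) (p : Pt k E L) : 0 ≤ ht P t p := by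
  refine div_nonneg ?_ (Nat.cast_nonneg _)
  rw [← II_zero (k := k) (θ := θ)]
  exact II_mono P adm_zero (adm_posLog P _) fun v η => Real.posLog_nonneg

theorem ht_smul (P : PD k θ) (t : E) (g : GG k θ) (p : Pt k E L) :
    ht P t (g.1 • p) = ht P t p := by
  simp only [ht, Pt.smul_ev, ← GV.comap_v, PD.W_comap]
  rw [II_shift (fun v η => Real.posLog ((P.W v η).v (p.ev t))) g]

theorem ht_fr (P : PD k θ) (t : E) (n : ℤ) (p : Pt k E L) :
    ht P t ((fr k L ^ n) • p) = (Fintype.card k : ℝ) ^ n * ht P t p := by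
  have nat : ∀ (m : ℕ) (p : Pt k E L),
      ht P t ((fr k L ^ m) • p) = (Fintype.card k : ℝ) ^ m * ht P t p := by
    intro m p
    simp only [ht, Pt.smul_ev, fr_pow_apply, map_pow, NNReal.coe_pow, Real.posLog_pow]
    rw [II_const_mul P (adm_posLog P _), mul_div_assoc, Nat.cast_pow]
  obtain ⟨m, rfl | rfl⟩ := n.eq_nat_or_neg
  · rw [zpow_natCast, zpow_natCast, nat]
  · have h1 := nat m ((fr k L ^ (-(m : ℤ))) • p)
    rw [smul_smul, zpow_neg, zpow_natCast, mul_inv_cancel, one_smul] at h1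
    have h2 : (Fintype.card k : ℝ) ^ m ≠ 0 := pow_ne_zero _ (by simp)
    rw [zpow_neg, zpow_neg, zpow_natCast, zpow_natCast, h1, inv_mul_cancel_left₀ h2]

theorem ht_const (h : FF k t) (P : PD k θ) {x : Pt k E L} (hx : x.O ≠ ⊤) : ht P t x = 0 := by
  have : ∀ w : GV k L, Real.posLog (w.v (x.ev t)) = 0 := fun w => by
    rw [Real.posLog_eq_zero_iff, NNReal.abs_eq]
    exact_mod_cast w.alg_le (x.alg_of_const h hx t)
  simp only [ht, this]
  rw [II_zero, zero_div]

theorem ht_leg (P : PD k θ) {φ : E →ₐ[k] L} (hφ : φ t = θ) :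
    ht P t (Pt.ofHom φ) = Real.log (Fintype.card k) / dg k t := by
  simp only [ht, Pt.ofHom_ev, hφ]
  rw [II_posLog_theta]

theorem kk_comm (P : PD k θ) (t : E) (y z : E →ₐ[k] L) : kk P t y z = kk P t z y := by
  rw [kk, kk, ip_comm, add_comm]

theorem kp_comm (P : PD k θ) (t : E) (y z : E →ₐ[k] L) : kp P t y z = kp P t z y := by
  by_cases h : y = z
  · rw [h]
  · rw [kp, kp, if_neg h, if_neg (Ne.symm h), kk_comm]

theorem BBm_comm (P : PD k θ) (t : E) (x y : (E →ₐ[k] L) →₀ ℤ) :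
    BBm P t x y = BBm P t y x := by
  rw [BBm_apply, BBm_apply, BB, BB, Finsupp.sum_comm]
  refine Finsupp.sum_congr fun a _ => Finsupp.sum_congr fun b _ => ?_
  rw [kp_comm, mul_comm (x b : ℝ)]

theorem BBm_single (P : PD k θ) (t : E) (y z : E →ₐ[k] L) :
    BBm P t (Finsupp.single y 1) (Finsupp.single z 1) = kp P t y z := by
  simp [BBm]

theorem kp_smul (P : PD k θ) (t : E) (g : GG k θ) (y z : E →ₐ[k] L) :
    kp P t (tw g.1 y) (tw g.1 z) = kp P t y z := by
  have key : ∀ y z : E →ₐ[k] L, kk P t (tw g.1 y) (tw g.1 z) = kk P t y z := fun y z => by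
    simp only [kk, ← Pt.smul_ofHom, ht_smul, ip_smul]
  simp only [kp, tw_inj, finsum_tw, key]

theorem kp_fr (h : FF k t) (P : PD k θ) (y z : E →ₐ[k] L) :
    kp P t (tw (fr k L) y) (tw (fr k L) z) = Fintype.card k * kp P t y z := by
  have key : ∀ y z : E →ₐ[k] L,
      kk P t (tw (fr k L) y) (tw (fr k L) z) = Fintype.card k * kk P t y z := fun y z => by
    have h1 := ht_fr P t 1 (Pt.ofHom y)
    have h2 := ht_fr P t 1 (Pt.ofHom z)
    have h3 := ip_fr h P 1 (Pt.ofHom y) (Pt.ofHom z)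
    rw [zpow_one, zpow_one] at h1 h2 h3
    simp only [kk, ← Pt.smul_ofHom, h1, h2, h3]
    ring
  simp only [kp, tw_inj, finsum_tw, key]
  split_ifs with he
  · have hf : {x : E →ₐ[k] L | x ≠ y ∧ x t = y t}.Finite :=
      (hom_fibre_finite h (y t)).subset fun x hx => hx.2
    rw [finsum_mem_eq_finite_toFinset_sum _ hf, finsum_mem_eq_finite_toFinset_sum _ hf,
      ← Finset.mul_sum, mul_neg]
  · rfl

theorem BBm_sg (h : FF k t) (P : PD k θ) (x y : (E →ₐ[k] L) →₀ ℤ) :
    BBm P t (sg k E L x) (sg k E L y) = Fintype.card k * BBm P t x y := by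
  induction x using Finsupp.induction_linear with
  | zero => simp
  | add a b ha hb => simp only [map_add, LinearMap.add_apply, ha, hb, mul_add]
  | single a m =>
    induction y using Finsupp.induction_linear with
    | zero => simp
    | add a b ha hb => simp only [map_add, ha, hb, mul_add]
    | single b n =>
      simp only [sg, BBm, Finsupp.lmapDomain_apply, Finsupp.mapDomain_single,
        Finsupp.linearCombination_single, LinearMap.smul_apply, zsmul_eq_mul, kp_fr h]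
      ring

theorem sg_pow_single (n : ℕ) (y : E →ₐ[k] L) (c : ℤ) :
    (sg k E L ^ n) (Finsupp.single y c) = Finsupp.single (tw (fr k L ^ n) y) c := by
  induction n with
  | zero => rfl
  | succ n ih =>
    rw [pow_succ', Module.End.mul_apply, ih, pow_succ']
    simp only [sg, Finsupp.lmapDomain_apply, Finsupp.mapDomain_single]
    rfl

end Pool.Agent.FFC
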