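import Pool.Agent.P.MP_a2beea_nt.FC.Gal1
import Pool.Agent.P.MP_a2beea_nt.FC.Frob
import Pool.Agent.P.MP_a2beea_nt.FC.Ht

/-! The finite places give the Euler factors. `gal_local`: let `S = frobSet 𝔓 n`, `T = frobSet 𝔓 0`.
By `ipt_leg` the left side is `ipt w φ (red w φ)` or `0`. If `fr ^ n • red χ = red φ` then the
root `w.rc θ` of `π` is fixed by `fr ^ n`, so `deg π ∣ n`. For `g ∈ S`,
`red (emb (g ∘ χ)) = fr ^ n • red (emb χ)` (`Pt.ext_OO`). If `deg π ∣ n` fix `g₀ ∈ S`; `S = T g₀`;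
`T` is a subgroup, transitive on the `e` embeddings with the reduction of `φ` (`exists_inertia`,
`emb_surj`, `red_eq_iff`), so the ratio is `1 / e`; use `ncard_mul_ipt`.
`gal_avg`: `ipt (V.comap η) (σ^n χ) ψ = ipt V (σ^n η χ) (η ψ)` (`ipt_smul`, `fr_comm`,
`IsRes.tw_emb`); sum `gal_local` over `χ` with weights `d χ` to get the mean over `g ∈ S` of
`d (η⁻¹ g⁻¹ η ψ)`; use `avg_comp_surj` and `frob_avg_indep`. -/

open Polynomial
open scoped TensorProduct NNReal IntermediateField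

namespace Pool.Agent.FFC

open Classical

variable {k : Type*} [Field k] [Fintype k] {E K : Type*} [Field E] [Field K]
  [Algebra k E] [Algebra k[X] E] [Algebra (RatFunc k) E] [IsScalarTower k k[X] E]
  [IsScalarTower k[X] (RatFunc k) E]
  [Algebra k K] [Algebra k[X] K] [Algebra (RatFunc k) K] [IsScalarTower k k[X] K]
  [IsScalarTower k[X] (RatFunc k) K]
  [FiniteDimensional (RatFunc k) E] [Algebra.IsSeparable (RatFunc k) E]
  [FiniteDimensional (RatFunc k) K] [IsGalois (RatFunc k) K]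
  {OE OK : Type*} [CommRing OE] [CommRing OK]
  [Algebra k OE] [Algebra k[X] OE] [Algebra OE E] [IsScalarTower k k[X] OE]
  [IsScalarTower k[X] OE E] [IsIntegralClosure OE k[X] E]
  [Algebra k OK] [Algebra k[X] OK] [Algebra OK K] [IsScalarTower k k[X] OK]
  [IsScalarTower k[X] OK K] [IsIntegralClosure OK k[X] K]
  {L : Type*} [Field L] [Algebra k L] [Algebra K L] [IsScalarTower k K L] [IsAlgClosed L]
  [Algebra.IsAlgebraic K L]
  [IsDomain (L ⊗[k] E)] [Nonempty (GV k L)]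

set_option linter.unusedSectionVars false

theorem Gal_count {G Y : Type*} [Finite G] (S : Set G) (Z : Set Y) (f : G → Y) (N : ℕ)
    (hf : ∀ g ∈ S, f g ∈ Z) (hZ : Z.Finite) (hN : ∀ y ∈ Z, {g ∈ S | f g = y}.ncard = N) :
    S.ncard = Z.ncard * N := by
  have hS : S.Finite := Set.toFinite S
  rw [Set.ncard_eq_toFinset_card S hS, Set.ncard_eq_toFinset_card Z hZ,
    Finset.card_eq_sum_card_fiberwise (f := f) (t := hZ.toFinset)
      (fun g hg => by simpa using hf g (by simpa using hg)),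
    Finset.sum_congr rfl (g := fun _ => N), Finset.sum_const, smul_eq_mul]
  intro y hy
  rw [← hN y (by simpa using hy), ← Set.ncard_coe_finset]
  congr 1
  ext g
  simp

theorem Gal_iota_alg (c : k) :
    algebraMap K L (algebraMap OK K (algebraMap k OK c)) = algebraMap k L c := by
  rw [IsScalarTower.algebraMap_apply k k[X] OK, ← IsScalarTower.algebraMap_apply k[X] OK K,
    ← IsScalarTower.algebraMap_apply k k[X] K, ← IsScalarTower.algebraMap_apply k K L]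

theorem Gal_iota_poly (p : k[X]) :
    algebraMap K L (algebraMap OK K (algebraMap k[X] OK p)) = aeval (th k K L) p := by
  rw [← IsScalarTower.algebraMap_apply k[X] OK K]
  have h1 : ((IsScalarTower.toAlgHom k K L).comp (IsScalarTower.toAlgHom k k[X] K)) =
      aeval (th k K L) := by
    ext
    simp
  exact DFunLike.congr_fun h1 p

theorem Gal_le (w : GV k L) (hw : w.v (th k K L) ≤ 1) (c : OK) :
    w.v (algebraMap K L (algebraMap OK K c)) ≤ 1 :=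
  AK_le_one (OK := OK) w hw ⟨c, rfl⟩

theorem Gal_exists_r (w : GV k L) (hw : w.v (th k K L) ≤ 1) :
    ∃ r : OK →ₐ[k] L, ∀ c, r c = w.rc (algebraMap K L (algebraMap OK K c)) := by
  refine ⟨{ toFun := fun c => w.rc (algebraMap K L (algebraMap OK K c))
            map_one' := ?_
            map_mul' := fun a b => ?_
            map_zero' := ?_
            map_add' := fun a b => ?_
            commutes' := fun c => ?_ }, fun _ => rfl⟩
  · exact w.rc_eq isAlgebraic_one (by simp)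
  · rw [map_mul, map_mul, w.rc_mul (Gal_le w hw a) (Gal_le w hw b)]
  · exact w.rc_eq isAlgebraic_zero (by simp)
  · rw [map_add, map_add, w.rc_add (Gal_le w hw a) (Gal_le w hw b)]
  · rw [Gal_iota_alg]
    exact w.rc_eq (isAlgebraic_algebraMap c) (by simp)

theorem Gal_rc_zero (w : GV k L) {x : L} (hx : w.v x ≤ 1) : w.rc x = 0 ↔ w.v x < 1 :=
  ⟨fun h => by simpa [h] using w.rc_spec hx, fun h => w.rc_eq isAlgebraic_zero (by simpa using h)⟩

theorem exists_prime (w : GV k L) (hw : w.v (th k K L) ≤ 1) :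
    ∃ 𝔓 : Ideal OK, 𝔓.IsMaximal ∧
      ∀ c : OK, c ∈ 𝔓 ↔ w.v (algebraMap K L (algebraMap OK K c)) < 1 := by
  obtain ⟨r, hr⟩ := Gal_exists_r (OK := OK) w hw
  refine ⟨RingHom.ker r, ?_, fun c => ?_⟩
  · rw [Ideal.isMaximal_iff]
    refine ⟨by simp [RingHom.mem_ker], fun J x hJ hx hxJ => ?_⟩
    have hx0 : r x ≠ 0 := hx
    have halg : IsAlgebraic k ((⟨r x, ⟨x, rfl⟩⟩ : r.range) : L) := by
      change IsAlgebraic k (r x)
      rw [hr]
      exact w.rc_alg _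
    obtain ⟨y, hy⟩ := Subalgebra.inv_mem_of_algebraic r.range halg
    have hy' : r y = (r x)⁻¹ := hy
    have h1 : 1 - y * x ∈ RingHom.ker r := by
      rw [RingHom.mem_ker, map_sub, map_one, map_mul, hy', inv_mul_cancel₀ hx0, sub_self]
    have h2 := J.add_mem (hJ h1) (J.mul_mem_left y hxJ)
    rwa [sub_add_cancel] at h2
  · rw [RingHom.mem_ker, hr, Gal_rc_zero w (Gal_le w hw c)]

/-- The congruence `φ ≡ χ ^ (q ^ n)` modulo `𝔓`. -/
def GalRel (𝔓 : Ideal OK) (n : ℕ) (χ φ : E →ₐ[RatFunc k] K) : Prop :=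
  ∀ (a : E) (c c' : OK), algebraMap OK K c = χ a → algebraMap OK K c' = φ a →
    c' - c ^ (Fintype.card k ^ n) ∈ 𝔓

theorem Gal_rel_iff (h : FF k (tE k E)) (w : GV k L) (hw : w.v (th k K L) ≤ 1) {𝔓 : Ideal OK}
    (h𝔓 : ∀ c : OK, c ∈ 𝔓 ↔ w.v (algebraMap K L (algebraMap OK K c)) < 1) (n : ℕ)
    (χ φ : E →ₐ[RatFunc k] K) :
    (fr k L ^ n) • red w (Pt.ofHom (emb L χ)) = red w (Pt.ofHom (emb L φ)) ↔
      GalRel 𝔓 n χ φ := by
  obtain ⟨r, hr⟩ := Gal_exists_r (OK := OK) w hw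
  have hker : ∀ c : OK, c ∈ 𝔓 ↔ r c = 0 := fun c => by
    rw [h𝔓, hr, Gal_rc_zero w (Gal_le w hw c)]
  have hev : ∀ (ψ : E →ₐ[RatFunc k] K) (a : E) (c : OK), algebraMap OK K c = ψ a →
      (red w (Pt.ofHom (emb L ψ))).ev a = r c := fun ψ a c hc => by
    have hm : a ∈ redO w (Pt.ofHom (emb L ψ)) := by
      refine ⟨ValuationSubring.mem_top a, ?_⟩
      rw [Pt.ofHom_ev, emb_apply, ← hc]
      exact Gal_le w hw c
    rw [red_ev hm, Pt.ofHom_ev, emb_apply, ← hc, hr]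
  have ht : ∀ ψ : E →ₐ[RatFunc k] K, tE k E ∈ redO w (Pt.ofHom (emb L ψ)) := fun ψ => by
    refine ⟨ValuationSubring.mem_top _, ?_⟩
    rw [Pt.ofHom_ev, emb_t]
    exact hw
  have hex : ∀ (ψ : E →ₐ[RatFunc k] K), ∀ a ∈ OO k (tE k E),
      ∃ c : OK, algebraMap OK K c = ψ a := fun ψ a ha => by
    obtain ⟨c, hc⟩ := emb_mem_AK (OK := OK) (L := L) ψ ha
    exact ⟨c, (algebraMap K L).injective hc⟩
  constructor
  · intro he a c c' hc hc'
    have h1 := congrArg (fun p : Pt k E L => p.ev a) he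
    simp only [Pt.smul_ev] at h1
    rw [hev χ a c hc, hev φ a c' hc', fr_pow_apply] at h1
    rw [hker, map_sub, map_pow, h1, sub_self]
  · intro hR
    refine Pt.ext_OO h (ht χ) (ht φ) fun a ha => ?_
    obtain ⟨c, hc⟩ := hex χ a ha
    obtain ⟨c', hc'⟩ := hex φ a ha
    have h1 := (hker _).mp (hR a c c' hc hc')
    rw [map_sub, map_pow, sub_eq_zero] at h1
    rw [Pt.smul_ev, hev χ a c hc, hev φ a c' hc', fr_pow_apply, h1]

theorem Gal_rel_of_mem {𝔓 : Ideal OK} {n : ℕ} {g : K ≃ₐ[RatFunc k] K}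
    (hg : g ∈ frobSet k K 𝔓 n) (χ : E →ₐ[RatFunc k] K) :
    GalRel 𝔓 n χ (g.toAlgHom.comp χ) := fun a c c' hc hc' =>
  hg c c' (by rw [hc', hc]; rfl)

theorem Gal_dvd {π : FinPl k} {𝔓 : Ideal OK} (hP : 𝔓.IsMaximal)
    (hπ : algebraMap k[X] OK π.1 ∈ 𝔓) {n : ℕ} {χ φ : E →ₐ[RatFunc k] K}
    (hR : GalRel 𝔓 n χ φ) : π.1.natDegree ∣ n := by
  have hX : ∀ ψ : E →ₐ[RatFunc k] K,
      algebraMap OK K (algebraMap k[X] OK X) = ψ (algebraMap k[X] E X) := fun ψ => by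
    rw [← IsScalarTower.algebraMap_apply, IsScalarTower.algebraMap_apply k[X] (RatFunc k) E,
      ψ.commutes, ← IsScalarTower.algebraMap_apply]
  have h1 := hR _ _ _ (hX χ) (hX φ)
  have h2 : (X ^ (Nat.card k) ^ n - X : k[X]) ∈ 𝔓.comap (algebraMap k[X] OK) := by
    rw [Ideal.mem_comap, map_sub, map_pow, Nat.card_eq_fintype_card, ← neg_sub]
    exact 𝔓.neg_mem h1
  refine π.2.2.natDegree_dvd_of_dvd_X_pow_card_pow_sub_X ?_
  by_contra hnd
  have hc : IsCoprime π.1 (X ^ (Nat.card k) ^ n - X : k[X]) :=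
    π.2.2.coprime_iff_not_dvd.mpr hnd
  obtain ⟨a, b, hab⟩ := hc
  have h3 : (1 : k[X]) ∈ 𝔓.comap (algebraMap k[X] OK) := by
    rw [← hab]
    exact Ideal.add_mem _ (Ideal.mul_mem_left _ _ hπ) (Ideal.mul_mem_left _ _ h2)
  rw [Ideal.mem_comap, map_one] at h3
  exact hP.ne_top ((Ideal.eq_top_iff_one _).mpr h3)

theorem Gal_one_mem (𝔓 : Ideal OK) : (1 : K ≃ₐ[RatFunc k] K) ∈ frobSet k K 𝔓 0 := by
  intro x y hxy
  have : y = x := IsIntegralClosure.algebraMap_injective OK k[X] K hxy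
  rw [this, pow_zero, pow_one, sub_self]
  exact 𝔓.zero_mem

theorem Gal_inv_mem {𝔓 : Ideal OK} {g : K ≃ₐ[RatFunc k] K} (hg : g ∈ frobSet k K 𝔓 0) :
    g⁻¹ ∈ frobSet k K 𝔓 0 := by
  have := frobSet_div (Gal_one_mem 𝔓) hg
  rwa [one_mul] at this

theorem Gal_comp_mul (g g' : K ≃ₐ[RatFunc k] K) (χ : E →ₐ[RatFunc k] K) :
    (g * g').toAlgHom.comp χ = g.toAlgHom.comp (g'.toAlgHom.comp χ) := rfl

theorem Gal_comp_one (χ : E →ₐ[RatFunc k] K) :
    (1 : K ≃ₐ[RatFunc k] K).toAlgHom.comp χ = χ := rfl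

theorem Gal_fibre {𝔓 : Ideal OK} {n : ℕ} {τ : K ≃ₐ[RatFunc k] K} (hτ : τ ∈ frobSet k K 𝔓 0)
    (χ φ : E →ₐ[RatFunc k] K) :
    {g ∈ frobSet k K 𝔓 n | g.toAlgHom.comp χ = τ.toAlgHom.comp φ}.ncard =
      {g ∈ frobSet k K 𝔓 n | g.toAlgHom.comp χ = φ}.ncard := by
  rw [← Set.ncard_image_of_injective {g ∈ frobSet k K 𝔓 n | g.toAlgHom.comp χ = φ}
    (mul_right_injective τ)]
  congr 1
  ext g
  constructor
  · rintro ⟨hg, he⟩
    refine ⟨τ⁻¹ * g, ⟨?_, ?_⟩, by simp⟩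
    · have := frobSet_mul (Gal_inv_mem hτ) hg
      rwa [zero_add] at this
    · rw [Gal_comp_mul, he, ← Gal_comp_mul, inv_mul_cancel, Gal_comp_one]
  · rintro ⟨g', ⟨hg, he⟩, rfl⟩
    refine ⟨?_, ?_⟩
    · have := frobSet_mul hτ hg
      rwa [zero_add] at this
    · rw [← he]
      rfl

theorem gal_local (h : FF k (tE k E)) (w : GV k L) (hw : w.v (th k K L) ≤ 1) {π : FinPl k}
    (hπ : w.v (aeval (th k K L) π.1) < 1) {𝔓 : Ideal OK} (hP : 𝔓.IsMaximal)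
    (h𝔓 : ∀ c : OK, c ∈ 𝔓 ↔ w.v (algebraMap K L (algebraMap OK K c)) < 1) {n : ℕ} (hn : 1 ≤ n)
    (χ φ : E →ₐ[RatFunc k] K) :
    ipt w (Pt.ofHom (tw (fr k L ^ n) (emb L χ))) (Pt.ofHom (emb L φ)) =
      if π.1.natDegree ∣ n then
        -Real.log (w.v (aeval (th k K L) π.1)) *
          (({g ∈ frobSet k K 𝔓 n | g.toAlgHom.comp χ = φ}.ncard : ℝ) / (frobSet k K 𝔓 n).ncard)
      else 0 := by
  have hπ' : algebraMap k[X] OK π.1 ∈ 𝔓 := by rw [h𝔓, Gal_iota_poly]; exact hπ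
  rw [ipt_leg h w (t := tE k E) (by rw [emb_t, emb_t]) hn]
  by_cases hc : (fr k L ^ n) • red w (Pt.ofHom (emb L χ)) = red w (Pt.ofHom (emb L φ))
  · have hd : π.1.natDegree ∣ n := Gal_dvd hP hπ' ((Gal_rel_iff h w hw h𝔓 n χ φ).mp hc)
    rw [if_pos hc, if_pos hd]
    have hS : 0 < (frobSet k K 𝔓 n).ncard :=
      (Set.ncard_pos (Set.toFinite _)).mpr (frobSet_nonempty hP hπ' hd)
    have hcount := Gal_count (frobSet k K 𝔓 n)
      {y : E →ₐ[k] L | y (tE k E) = th k K L ∧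
        red w (Pt.ofHom y) = red w (Pt.ofHom (emb L φ))}
      (fun g => emb L (g.toAlgHom.comp χ))
      {g ∈ frobSet k K 𝔓 n | g.toAlgHom.comp χ = φ}.ncard
      (fun g hg => ⟨emb_t _, by
        rw [← hc]
        exact ((Gal_rel_iff h w hw h𝔓 n χ _).mpr (Gal_rel_of_mem hg χ)).symm⟩)
      ((hom_fibre_finite h (th k K L)).subset fun y hy => hy.1)
      (fun y hy => by
        obtain ⟨φ', rfl⟩ := emb_surj φ hy.1
        have h0 : (fr k L ^ 0) • red w (Pt.ofHom (emb L φ')) = red w (Pt.ofHom (emb L φ)) := by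
          rw [pow_zero, one_smul]
          exact hy.2
        have hR := (Gal_rel_iff h w hw h𝔓 0 φ' φ).mp h0
        obtain ⟨τ, hτ, rfl⟩ := exists_inertia (φ := φ) (χ := φ') hP.isPrime
          (fun a c c' hc hc' => by simpa using hR a c' c hc' hc)
        rw [← Gal_fibre hτ χ φ]
        congr 1
        ext g
        simp only [Set.mem_ofPred_eq, emb_injective.eq_iff])
    have he := ncard_mul_ipt h w hw (emb_t φ) π.2.2 hπ
    have hS' : ((frobSet k K 𝔓 n).ncard : ℝ) ≠ 0 := by exact_mod_cast hS.ne'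
    rw [← he, mul_div_assoc', eq_div_iff hS', hcount]
    push_cast
    ring
  · rw [if_neg hc]
    split_ifs with hd
    · have : {g ∈ frobSet k K 𝔓 n | g.toAlgHom.comp χ = φ} = ∅ := by
        ext g
        simp only [Set.mem_ofPred_eq, Set.mem_empty_iff_false, iff_false, not_and]
        rintro hg rfl
        exact hc ((Gal_rel_iff h w hw h𝔓 n χ _).mpr (Gal_rel_of_mem hg χ))
      rw [this, Set.ncard_empty, Nat.cast_zero, zero_div, mul_zero]
    · rfl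

theorem Gal_legs_sum [Fintype (E →ₐ[RatFunc k] K)] (d : (E →ₐ[RatFunc k] K) → ℕ)
    (G : (E →ₐ[k] L) → ℝ) :
    (legs d : (E →ₐ[k] L) →₀ ℤ).sum (fun y c => (c : ℝ) * G y) =
      ∑ χ, (d χ : ℝ) * G (emb L χ) := by
  unfold legs
  rw [← Finsupp.sum_finsetSum_index (fun _ => by simp)
    (fun _ _ _ => by push_cast; ring)]
  refine Finset.sum_congr rfl fun χ _ => ?_
  rw [Finsupp.sum_single_index (by simp), Int.cast_natCast]

theorem Gal_ipt_W {res : GG k (th k K L) →* (K ≃ₐ[RatFunc k] K)} (hres : IsRes res)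
    (V : GV k L) (η : GG k (th k K L)) (n : ℕ) (χ ψ : E →ₐ[RatFunc k] K) :
    ipt (V.comap η.1) (Pt.ofHom (tw (fr k L ^ n) (emb L χ))) (Pt.ofHom (emb L ψ)) =
      ipt V (Pt.ofHom (tw (fr k L ^ n) (emb L ((res η).toAlgHom.comp χ))))
        (Pt.ofHom (emb L ((res η).toAlgHom.comp ψ))) := by
  rw [← ipt_smul, ← hres.tw_emb, ← hres.tw_emb, ← Pt.smul_ofHom, ← Pt.smul_ofHom,
    ← Pt.smul_ofHom, ← Pt.smul_ofHom, ← mul_smul, ← mul_smul,
    ((fr_comm η.1).pow_left n).eq]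

theorem Gal_sum_fibre [Fintype (E →ₐ[RatFunc k] K)] (d : (E →ₐ[RatFunc k] K) → ℕ)
    (S : Set (K ≃ₐ[RatFunc k] K)) (σ : K ≃ₐ[RatFunc k] K) (ψ : E →ₐ[RatFunc k] K) :
    ∑ χ, (d χ : ℝ) *
        ({g ∈ S | g.toAlgHom.comp (σ.toAlgHom.comp χ) = σ.toAlgHom.comp ψ}.ncard : ℝ) =
      ∑ g ∈ (Set.toFinite S).toFinset,
        (d ((σ⁻¹ * g⁻¹ * σ : K ≃ₐ[RatFunc k] K).toAlgHom.comp ψ) : ℝ) := by
  rw [← Finset.sum_fiberwise (Set.toFinite S).toFinset
    (fun g => (σ⁻¹ * g⁻¹ * σ : K ≃ₐ[RatFunc k] K).toAlgHom.comp ψ)]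
  refine Finset.sum_congr rfl fun χ _ => ?_
  rw [Finset.sum_congr rfl (g := fun _ => (d χ : ℝ))
    (fun g hg => by rw [(Finset.mem_filter.mp hg).2]), Finset.sum_const, nsmul_eq_mul, mul_comm,
    ← Set.ncard_coe_finset]
  congr 3
  ext g
  simp only [Set.mem_ofPred_eq, Finset.coe_filter, Set.Finite.mem_toFinset]
  refine and_congr_right fun _ => ⟨fun he => ?_, fun he => ?_⟩
  · rw [Gal_comp_mul, Gal_comp_mul, ← he, ← Gal_comp_mul g⁻¹, inv_mul_cancel, Gal_comp_one,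
      ← Gal_comp_mul, inv_mul_cancel, Gal_comp_one]
  · rw [← he, ← Gal_comp_mul, ← Gal_comp_mul]
    congr 2
    group

theorem gal_avg [Fintype (E →ₐ[RatFunc k] K)] (h : FF k (tE k E)) (P : PD k (th k K L))
    (d : (E →ₐ[RatFunc k] K) → ℕ) {π : FinPl k} {𝔓 : Ideal OK} (hP : 𝔓.IsMaximal)
    (hπ : algebraMap k[X] OK π.1 ∈ 𝔓) {n : ℕ} (hn : 1 ≤ n) (ψ : E →ₐ[RatFunc k] K) :
    avg (fun η => cL (P.W (some π) η) (legs d) n (emb L ψ)) =
      if π.1.natDegree ∣ n then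
        Real.log ((Fintype.card k : ℝ) ^ π.1.natDegree) *
          ((∑ᶠ g ∈ frobSet k K 𝔓 n, a0 d ψ g⁻¹) / (frobSet k K 𝔓 n).ncard)
      else 0 := by
  obtain ⟨res, hres⟩ := exists_res (k := k) (K := K) (L := L)
  obtain ⟨𝔔, hQ, h𝔔⟩ := exists_prime (OK := OK) (P.V (some π)) (P.fin_le π)
  have hq : (1 : ℝ≥0) < (Fintype.card k : ℝ≥0) := by exact_mod_cast Fintype.one_lt_card
  have hlt : (P.V (some π)).v (aeval (th k K L) π.1) < 1 := by
    rw [P.fin_eq]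
    exact inv_lt_one_of_one_lt₀ (one_lt_pow₀ hq π.2.2.natDegree_pos.ne')
  have hπ' : algebraMap k[X] OK π.1 ∈ 𝔔 := by rw [h𝔔, Gal_iota_poly]; exact hlt
  have hlog : -Real.log ((P.V (some π)).v (aeval (th k K L) π.1)) =
      Real.log ((Fintype.card k : ℝ) ^ π.1.natDegree) := by
    rw [P.fin_eq, NNReal.coe_inv, Real.log_inv, neg_neg, NNReal.coe_pow, NNReal.coe_natCast]
  obtain ⟨Ψ, hΨ⟩ : ∃ Ψ : (K ≃ₐ[RatFunc k] K) → ℝ, ∀ σ, Ψ σ = if π.1.natDegree ∣ n then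
        Real.log ((Fintype.card k : ℝ) ^ π.1.natDegree) *
          ((∑ g ∈ (Set.toFinite (frobSet k K 𝔔 n)).toFinset,
            (d ((σ⁻¹ * g⁻¹ * σ : K ≃ₐ[RatFunc k] K).toAlgHom.comp ψ) : ℝ)) /
              (frobSet k K 𝔔 n).ncard) else 0 := ⟨_, fun _ => rfl⟩
  have key : (fun η => cL (P.W (some π) η) (legs d) n (emb L ψ)) = fun η => Ψ (res η) := by
    funext η
    unfold cL PD.W
    rw [hΨ]
    rw [Gal_legs_sum d fun y => ipt ((P.V (some π)).comap η.1)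
      (Pt.ofHom (tw (fr k L ^ n) y)) (Pt.ofHom (emb L ψ))]
    simp only [Gal_ipt_W hres, gal_local h (P.V (some π)) (P.fin_le π) hlt hQ h𝔔 hn, hlog]
    split_ifs with hd
    · rw [← Gal_sum_fibre, Finset.sum_div, Finset.mul_sum]
      refine Finset.sum_congr rfl fun χ _ => ?_
      ring
    · simp
  rw [key, avg_comp_surj res hres.1 Ψ]
  simp only [hΨ]
  split_ifs with hd
  · rw [frob_avg_indep hP hQ hπ hπ' n (a := fun g => a0 d ψ g⁻¹) (fun g g' => by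
      have e : (g'⁻¹ * g * g')⁻¹ = g'⁻¹ * g⁻¹ * g' := by group
      rw [e, a0_conj])]
    have := Fintype.ofFinite (K ≃ₐ[RatFunc k] K)
    rw [finsum_mem_eq_finite_toFinset_sum _ (Set.toFinite _)]
    simp only [a0, finsum_eq_sum_of_fintype]
    rw [← Finset.mul_sum, ← Finset.sum_div, ← Finset.sum_div, Finset.sum_comm]
    ring
  · simp

theorem cF_eq [Fintype (E →ₐ[RatFunc k] K)] (h : FF k (tE k E)) (P : PD k (th k K L))
    (d : (E →ₐ[RatFunc k] K) → ℕ) {𝔓 : FinPl k → Ideal OK}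
    (hP : ∀ π, (𝔓 π).IsMaximal ∧ algebraMap k[X] OK π.1 ∈ 𝔓 π) {n : ℕ} (hn : 1 ≤ n)
    (ψ : E →ₐ[RatFunc k] K) :
    cF P (legs d) n (emb L ψ) = ∑ᶠ π ∈ {π : FinPl k | π.1.natDegree ∣ n},
      Real.log ((Fintype.card k : ℝ) ^ π.1.natDegree) *
        ((∑ᶠ g ∈ frobSet k K (𝔓 π) n, a0 d ψ g⁻¹) / (frobSet k K (𝔓 π) n).ncard) := by
  unfold cF Ifin
  refine finsum_congr fun π => ?_
  rw [gal_avg h P d (hP π).1 (hP π).2 hn ψ, finsum_eq_if]
  rfl

end Pool.Agent.FFC
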