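import Pool.Agent.P.MP_a2beea_nt.FC.Lift
import Pool.Agent.P.MP_a2beea_nt.FC.Gal

/-! Valuations of `L` over the bigger field of constants. A member of `GV k L` gives a member of
`GV k₀ L` with the same valuation (`isAlg_iff`); then use `AK_le_one`, `exists_prime`.
`exists_pi`: `θ` is congruent to a constant `β` (`GV.res`), take the minimal polynomial of `β`
over `k₀`; another monic irreducible polynomial is coprime to it. -/

open Polynomial
open scoped TensorProduct NNReal IntermediateField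

namespace Pool.Agent.FFC

open Classical

variable {k₀ : Type*} [Field k₀] [Fintype k₀] {E K : Type*} [Field E] [Field K]
  [Algebra k₀ E] [Algebra k₀[X] E] [Algebra (RatFunc k₀) E] [IsScalarTower k₀ k₀[X] E]
  [IsScalarTower k₀[X] (RatFunc k₀) E]
  [Algebra k₀ K] [Algebra k₀[X] K] [Algebra (RatFunc k₀) K] [IsScalarTower k₀ k₀[X] K]
  [IsScalarTower k₀[X] (RatFunc k₀) K]
  [FiniteDimensional (RatFunc k₀) E] [Algebra.IsSeparable (RatFunc k₀) E]
  [FiniteDimensional (RatFunc k₀) K] [IsGalois (RatFunc k₀) K]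
  {OE OK : Type*} [CommRing OE] [CommRing OK]
  [Algebra k₀ OE] [Algebra k₀[X] OE] [Algebra OE E] [IsScalarTower k₀ k₀[X] OE]
  [IsScalarTower k₀[X] OE E] [IsIntegralClosure OE k₀[X] E]
  [Algebra k₀ OK] [Algebra k₀[X] OK] [Algebra OK K] [IsScalarTower k₀ k₀[X] OK]
  [IsScalarTower k₀[X] OK K] [IsIntegralClosure OK k₀[X] K]
  {L : Type*} [Field L] [Algebra k₀ L] [Algebra K L] [IsScalarTower k₀ K L] [IsAlgClosed L]
  [Algebra.IsAlgebraic K L]
  {k : Type*} [Field k] [Fintype k] [Algebra k₀ k] [Algebra k E] [IsScalarTower k₀ k E]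
  [Algebra k L] [IsScalarTower k₀ k L]

set_option linter.unusedSectionVars false

variable (k₀) in
theorem exists_down (w : GV k L) : ∃ w₀ : GV k₀ L, w₀.v = w.v := by
  exact ⟨⟨w.v, fun c hc h0 => w.triv c ((isAlg_iff k₀ c).2 hc) h0, fun x hx =>
    (w.res x hx).imp fun c hc => ⟨(isAlg_iff k₀ c).1 hc.1, hc.2⟩⟩, rfl⟩

theorem AK_le_one2 (w : GV k L) (hw : w.v (th k₀ K L) ≤ 1) {c : L} (hc : c ∈ AK OK K L) :
    w.v c ≤ 1 := by
  obtain ⟨w₀, h⟩ := exists_down k₀ w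
  rw [← h] at hw ⊢
  exact AK_le_one w₀ hw hc

theorem Cent_eq (w : GV k L) (hw : w.v (th k₀ K L) ≤ 1) : ∃ 𝔓 : Ideal OK, 𝔓.IsMaximal ∧
    cent OK K w.v = 𝔓 ∧ ∀ c : OK, c ∈ 𝔓 ↔ w.v (algebraMap K L (algebraMap OK K c)) < 1 := by
  obtain ⟨w₀, h⟩ := exists_down k₀ w
  rw [← h] at hw ⊢
  have : Nonempty (GV k₀ L) := ⟨w₀⟩
  obtain ⟨𝔓, h0, h1⟩ := exists_prime (OK := OK) w₀ hw
  refine ⟨𝔓, h0, ?_, h1⟩
  rw [cent, ← Ideal.span_eq 𝔓]
  exact congrArg Ideal.span (Set.ext fun c => (h1 c).symm)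

theorem mem_cent (w : GV k L) (hw : w.v (th k₀ K L) ≤ 1) (c : OK) :
    c ∈ cent OK K w.v ↔ w.v (algebraMap K L (algebraMap OK K c)) < 1 := by
  obtain ⟨𝔓, -, h1, h2⟩ := Cent_eq (OK := OK) w hw
  rw [h1, h2]

variable (OK) in
theorem cent_isMaximal (w : GV k L) (hw : w.v (th k₀ K L) ≤ 1) : (cent OK K w.v).IsMaximal := by
  obtain ⟨𝔓, h0, h1, -⟩ := Cent_eq (OK := OK) w hw
  rwa [h1]

theorem exists_pi (w : GV k L) (hw : w.v (th k₀ K L) ≤ 1) :
    ∃ π : FinPl k₀, w.v (aeval (th k₀ K L) π.1) < 1 ∧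
      ∀ π' : FinPl k₀, π' ≠ π → w.v (aeval (th k₀ K L) π'.1) = 1 := by
  obtain ⟨w₀, h⟩ := exists_down k₀ w
  rw [← h] at hw ⊢
  obtain ⟨β, hβ, hv⟩ := w₀.res _ hw
  have halg : ∀ p : k₀[X], IsAlgebraic k₀ (aeval β p) := fun p =>
    IsIntegral.isAlgebraic (Algebra.adjoin_le (S := integralClosure k₀ L)
      (Set.singleton_subset_iff.2 hβ.isIntegral) (aeval_mem_adjoin_singleton k₀ β))
  have key : ∀ p : k₀[X], w₀.v (aeval (th k₀ K L) p - aeval β p) < 1 := fun p => by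
    induction p using Polynomial.induction_on with
    | C a => simp
    | add p q hp hq =>
      rw [map_add, map_add, add_sub_add_comm]
      exact (w₀.v.map_add _ _).trans_lt (max_lt hp hq)
    | monomial n a hn =>
      have e : aeval (th k₀ K L) (C a * X ^ (n + 1)) - aeval β (C a * X ^ (n + 1)) =
          (aeval (th k₀ K L) (C a * X ^ n) - aeval β (C a * X ^ n)) * th k₀ K L +
            aeval β (C a * X ^ n) * (th k₀ K L - β) := by
        simp only [map_mul, map_pow, aeval_X]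
        ring
      rw [e]
      refine (w₀.v.map_add _ _).trans_lt (max_lt ?_ ?_)
      · rw [w₀.v.map_mul]
        exact mul_lt_one_of_nonneg_of_lt_one_left zero_le hn hw
      · rw [w₀.v.map_mul]
        exact mul_lt_one_of_nonneg_of_lt_one_right (w₀.alg_le (halg _)) zero_le hv
  refine ⟨⟨minpoly k₀ β, minpoly.monic hβ.isIntegral, minpoly.irreducible hβ.isIntegral⟩, ?_,
    fun π' hne => ?_⟩
  · simpa using key (minpoly k₀ β)
  · have h0 : aeval β π'.1 ≠ 0 := fun e =>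
      hne (Subtype.ext (minpoly.eq_of_irreducible_of_monic π'.2.2 e π'.2.1))
    have h1 := w₀.triv _ (halg π'.1) h0
    have h2 := w₀.v.map_add_eq_of_lt_left (x := aeval β π'.1) (h1 ▸ key π'.1)
    rwa [add_sub_cancel, h1] at h2

theorem pi_mem_cent (w : GV k L) (hw : w.v (th k₀ K L) ≤ 1) {π : FinPl k₀}
    (hπ : w.v (aeval (th k₀ K L) π.1) < 1) : algebraMap k₀[X] OK π.1 ∈ cent OK K w.v := by
  obtain ⟨w₀, -⟩ := exists_down k₀ w
  have : Nonempty (GV k₀ L) := ⟨w₀⟩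
  rwa [mem_cent w hw, Gal_iota_poly]

theorem mem_AKp_iff (b : ℕ) (x : L) :
    x ∈ AKp k₀ OK K L b ↔ ∃ c : OK, x = algebraMap K L (algebraMap OK K c) ^ (Fintype.card k₀) ^ b := by
  have e : ∀ z : L, (FiniteField.frobeniusAlgHom k₀ L ^ b : L →ₐ[k₀] L).toRingHom z =
      z ^ Fintype.card k₀ ^ b := fun z => by
    change (FiniteField.frobeniusAlgHom k₀ L ^ b : L →ₐ[k₀] L) z = _
    rw [AlgHom.coe_pow, FiniteField.coe_frobeniusAlgHom, pow_iterate]
  constructor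
  · rintro ⟨_, ⟨c, rfl⟩, rfl⟩
    exact ⟨c, e _⟩
  · rintro ⟨c, rfl⟩
    exact ⟨_, ⟨c, rfl⟩, e _⟩

theorem AKp_le (b : ℕ) : AKp k₀ OK K L b ≤ AK OK K L := by
  intro x hx
  obtain ⟨c, rfl⟩ := (mem_AKp_iff b x).1 hx
  exact pow_mem (show _ ∈ AK OK K L from ⟨c, rfl⟩) _

theorem th_mem_AKp (b : ℕ) : (th k₀ K L) ^ (Fintype.card k₀) ^ b ∈ AKp k₀ OK K L b := by
  obtain ⟨c, hc⟩ := th_mem_AK (k := k₀) (K := K) (OK := OK) (L := L)
  exact (mem_AKp_iff b _).2 ⟨c, by rw [← hc]; rfl⟩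

theorem const_mem_AKp (hk : ∀ c : k, algebraMap k L c ∈ AK OK K L) (b : ℕ) (c : k) :
    algebraMap k L c ∈ AKp k₀ OK K L b := by
  obtain ⟨c', rfl⟩ := Finite.injective_iff_surjective.1
    (FiniteField.frobeniusAlgHom k₀ k ^ b : k →ₐ[k₀] k).toRingHom.injective c
  obtain ⟨d, hd⟩ := hk c'
  refine (mem_AKp_iff b _).2 ⟨d, ?_⟩
  change algebraMap k L ((FiniteField.frobeniusAlgHom k₀ k ^ b : k →ₐ[k₀] k) c') = _
  rw [AlgHom.coe_pow, FiniteField.coe_frobeniusAlgHom, pow_iterate, map_pow, ← hd]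
  rfl

variable (OK) in
theorem IsLift.mem_AKp {φ : (E →ₐ[RatFunc k₀] K)} {b : ℕ} {y : E →ₐ[k] L} (hy : IsLift k₀ φ b y)
    {a : E} (ha : a ∈ OO k (tE k₀ E)) : y a ∈ AKp k₀ OK K L b := by
  obtain ⟨c, hc⟩ := emb_mem_AK (OK := OK) (L := L) φ ((OO2 a).1 ha)
  refine (mem_AKp_iff b _).2 ⟨c, ?_⟩
  rw [hy a, ← emb_apply, ← hc]
  rfl

end Pool.Agent.FFC
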