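import Pool.Agent.P.MP_a2beea_nt.FC.EmbA

/-! The lattices of the levels. `joint`: `μ (τ^[b] x) = 0` gives `τ^[b] (ε b • x) = 0` (`tau_iter`,
`IsIdem.sig_pow`), so `ε b • x = 0` (`tau_injective`); sum over `b`. `iter_ne`: `span_pow`,
`map_jj`, `sub_self_ne`. `Nb_lat`: `semi_inv` for `σ = ρ ∘ sig ^ (b + 1)`, `ν = μ ∘ τ^[b+1]`;
`dRLat` is spanned by the range of `τ`; `mem_RA_pow`. `IsEmb2.scale`: see `IsEmb.scale`. -/

set_option linter.unusedSectionVars false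

open Polynomial
open scoped TensorProduct NNReal IntermediateField

namespace Pool.Agent.FFC

open Classical

variable {k₀ : Type*} [Field k₀] [Fintype k₀] {E K : Type*} [Field E] [Field K]
  [Algebra k₀ E] [Algebra k₀[X] E] [Algebra (RatFunc k₀) E] [IsScalarTower k₀ k₀[X] E]
  [IsScalarTower k₀[X] (RatFunc k₀) E]
  [Algebra k₀ K] [Algebra k₀[X] K] [Algebra (RatFunc k₀) K] [IsScalarTower k₀ k₀[X] K]
  [IsScalarTower k₀[X] (RatFunc k₀) K]
  [FiniteDimensional (RatFunc k₀) E] [Algebra.IsSeparable (RatFunc k₀) E]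
  [FiniteDimensional (RatFunc k₀) K] [IsGalois (RatFunc k₀) K]
  {OE OK : Type*} [CommRing OE] [CommRing OK]
  [Algebra k₀ OE] [Algebra k₀[X] OE] [Algebra OE E] [IsScalarTower k₀ k₀[X] OE]
  [IsScalarTower k₀[X] OE E] [IsIntegralClosure OE k₀[X] E]
  [Algebra k₀ OK] [Algebra k₀[X] OK] [Algebra OK K] [IsScalarTower k₀ k₀[X] OK]
  [IsScalarTower k₀[X] OK K] [IsIntegralClosure OK k₀[X] K]
  {L : Type*} [Field L] [Algebra k₀ L] [Algebra K L] [IsScalarTower k₀ K L] [IsAlgClosed L]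
  [Algebra.IsAlgebraic K L]
  {k : Type*} [Field k] [Fintype k] [Algebra k₀ k] [Algebra k E] [IsScalarTower k₀ k E]
  [Algebra k L] [IsScalarTower k₀ k L]
  [IsDomain (L ⊗[k] E)] [Nonempty (GV k L)]
  [Fintype (E →ₐ[RatFunc k₀] K)] {M : Type*} [AddCommGroup M] [Module (OK ⊗[k₀] OE) M]
  {τ : M →+ M} {d : (E →ₐ[RatFunc k₀] K) → ℕ}
  {ρ : OK ⊗[k₀] OE →+* FL k E L} {ε : ℕ → OK ⊗[k₀] OE}
  {μ : M →+ FL k E L} {f : FL k E L} {I : AddSubgroup (FL k E L)}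

theorem EmbN_mul_mem {A : Subring L} {t : E} {r y : FL k E L} (hr : r ∈ RA k A t)
    (hy : y ∈ tauLat A t f I) : r * y ∈ tauLat A t f I := by
  induction hy using AddSubgroup.closure_induction with
  | mem y hy =>
    obtain ⟨s, hs, x, hx, rfl⟩ := hy
    exact AddSubgroup.subset_closure ⟨r * s, mul_mem hr hs, x, hx, by rw [mul_assoc]⟩
  | zero =>
    rw [mul_zero]
    exact zero_mem _
  | add a b _ _ ha hb =>
    rw [mul_add]
    exact add_mem ha hb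
  | neg a _ ha =>
    rw [mul_neg]
    exact neg_mem ha

theorem IsEmb2.smul_iter (hM : IsCMMotive OE OK d τ) (hμ : IsEmb2 ρ (Module.finrank k₀ k) ε τ μ f I)
    (b : ℕ) (r : (OK ⊗[k₀] OE)) (x : M) :
    μ (τ^[b] (r • x)) = ρ (((sig k₀ OE OK) ^ b) r) * μ (τ^[b] x) := by
  rw [tau_iter hM, hμ.smul]

theorem IsEmb2.joint (h : FF k (tE k₀ E)) (hρ : IsRho2 K ρ)
    (hε : IsIdem ρ (Module.finrank k₀ k) ε) (hM : IsCMMotive OE OK d τ)
    (hμ : IsEmb2 ρ (Module.finrank k₀ k) ε τ μ f I) {x : M}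
    (hx : ∀ b < (Module.finrank k₀ k), μ (τ^[b] x) = 0) : x = 0 := by
  have h1 : ∀ b ∈ Finset.range (Module.finrank k₀ k), ε b • x = 0 := by
    intro b hb
    have hb' := Finset.mem_range.1 hb
    apply (tau_injective h hρ hε hM).iterate b
    rw [tau_iter hM, hε.sig_pow hρ hb', iterate_map_zero]
    exact (hμ.ker _).1 (hx b hb')
  rw [← one_smul (OK ⊗[k₀] OE) x, ← hε.sum_eq, Finset.sum_smul]
  exact Finset.sum_eq_zero h1

theorem IsEmb2.iter_ne (h : FF k (tE k₀ E)) (hρ : IsRho2 K ρ) (hM : IsCMMotive OE OK d τ)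
    (hμ : IsEmb2 ρ (Module.finrank k₀ k) ε τ μ f I) (hl : Lat (AK OK K L) (tE k₀ E) I) (b : ℕ) :
    ∃ x : M, μ (τ^[b] x) ≠ 0 := by
  by_contra hne
  push Not at hne
  have h1 : ∀ x ∈ Submodule.span (OK ⊗[k₀] OE) (Set.range τ^[b]), μ x = 0 := by
    intro x hx
    induction hx using Submodule.span_induction with
    | mem y hy =>
      obtain ⟨x, rfl⟩ := hy
      exact hne x
    | zero => exact map_zero _
    | add a b _ _ ha hb => rw [map_add, ha, hb, add_zero]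
    | smul r a _ ha => rw [hμ.smul, ha, mul_zero]
  obtain ⟨n, hn⟩ := span_pow hM b
  have h2 : ∀ x, μ x = 0 := by
    intro x
    have h3 := h1 _ (hn x)
    rw [hμ.smul, map_pow, map_prod] at h3
    refine (mul_eq_zero.1 h3).resolve_left (pow_ne_zero _ (Finset.prod_ne_zero_iff.2 fun a _ => ?_))
    rw [hρ.map_jj]
    exact sub_self_ne h _
  obtain ⟨n, m, m', hm, -, h3⟩ := hl.inv
  refine one_ne_zero (h3.symm.trans (Finset.sum_eq_zero fun i _ => ?_))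
  obtain ⟨x, hx⟩ := hμ.range.ge (hm i)
  rw [← hx, h2, mul_zero]

theorem IsEmb2.scale (hμ : IsEmb2 ρ (Module.finrank k₀ k) ε τ μ f I) {c : FL k E L} (hc : c ≠ 0) :
    IsEmb2 ρ (Module.finrank k₀ k) ε τ ((AddMonoidHom.mulLeft c).comp μ) (c * f / mapF (fr k L) c)
      (I.map (AddMonoidHom.mulLeft c)) := by
  have hc' : mapF (fr k L) c ≠ 0 := fun h' => hc ((mapF (fr k L)).injective (by
    rw [h', map_zero]))
  refine ⟨fun x => ?_, fun r x => ?_, ?_, fun x => ?_⟩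
  · rw [← hμ.ker]
    exact mul_eq_zero.trans (or_iff_right hc)
  · change c * μ (r • x) = ρ r * (c * μ x)
    rw [hμ.smul]
    ring
  · rw [← hμ.range, AddMonoidHom.map_range]
  · change c * μ (τ^[_] x) = c * f / mapF (fr k L) c * mapF (fr k L) (c * μ x)
    rw [hμ.tau, map_mul]
    field_simp

theorem IsEmb2.Nb_lat (h : FF k (tE k₀ E)) (hρ : IsRho2 K ρ) (hM : IsCMMotive OE OK d τ)
    (hμ : IsEmb2 ρ (Module.finrank k₀ k) ε τ μ f I) (hl : Lat (AK OK K L) (tE k₀ E) I) (b : ℕ) :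
    Lat (AKp k₀ OK K L b) (tE k₀ E) (Nb k₀ OE OK τ μ b) := by
  refine ⟨?_, ?_⟩
  · rintro r hr _ ⟨x, hx, rfl⟩
    obtain ⟨r, rfl⟩ := (hρ.mem_RA_pow b r).1 hr
    exact ⟨r • x, Submodule.smul_mem _ _ hx, (hμ.smul_iter hM b r x).symm⟩
  · let ν : M →+ FL k E L := AddMonoidHom.mk' (fun x => μ (τ^[b + 1] x)) fun x y => by
      rw [iterate_map_add, map_add]
    obtain ⟨n, m, m', h1, h2⟩ := semi_inv hM
      (σ := ρ.comp (sig k₀ OE OK ^ (b + 1) : _ →ₐ[k₀] _).toRingHom) (ν := ν)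
      (hμ.smul_iter hM (b + 1)) (hμ.iter_ne h hρ hM hl (b + 1))
    refine ⟨n, fun i => ν (m i), m', fun i => ⟨τ (m i), Submodule.subset_span ⟨_, rfl⟩, rfl⟩,
      ?_, h2⟩
    rintro i _ ⟨x, hx, rfl⟩
    induction hx using Submodule.span_induction with
    | mem y hy =>
      obtain ⟨x, rfl⟩ := hy
      obtain ⟨r, hr⟩ := h1 i x
      refine (hρ.mem_RA_pow b _).2 ⟨sig k₀ OE OK r, ?_⟩
      rw [pow_succ] at hr
      exact hr.symm
    | zero =>
      rw [iterate_map_zero, map_zero, mul_zero]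
      exact zero_mem _
    | add x y _ _ hx hy =>
      rw [iterate_map_add, map_add, mul_add]
      exact add_mem hx hy
    | smul r x _ hx =>
      rw [hμ.smul_iter hM, mul_left_comm]
      exact mul_mem ((hρ.mem_RA_pow b _).2 ⟨r, rfl⟩) hx

theorem IsEmb2.Nb_le (hμ : IsEmb2 ρ (Module.finrank k₀ k) ε τ μ f I) (b : ℕ) :
    Nb k₀ OE OK τ μ b ≤ I := by
  rintro _ ⟨x, -, rfl⟩
  exact hμ.range.le ⟨_, rfl⟩

theorem IsEmb2.Nb_tau (hμ : IsEmb2 ρ (Module.finrank k₀ k) ε τ μ f I) {b : ℕ} (hb : b < (Module.finrank k₀ k)) :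
    ∀ x ∈ I, f * mapF (fr k L) x ∈ Nb k₀ OE OK τ μ b := by
  intro x hx
  obtain ⟨z, rfl⟩ := hμ.range.ge hx
  obtain ⟨c, hc⟩ := Nat.exists_eq_add_of_lt hb
  refine ⟨τ (τ^[c] z), Submodule.subset_span ⟨_, rfl⟩, ?_⟩
  rw [← hμ.tau, hc, add_assoc, Function.iterate_add_apply, Function.iterate_succ_apply']

theorem IsEmb2.mem_tauLat (hρ : IsRho2 K ρ) (hμ : IsEmb2 ρ (Module.finrank k₀ k) ε τ μ f I)
    (y : FL k E L) : y ∈ tauLat (AK OK K L) (tE k₀ E) f I ↔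
      ∃ x ∈ (Submodule.span (OK ⊗[k₀] OE) (Set.range τ^[(Module.finrank k₀ k)])), μ x = y := by
  constructor
  · intro hy
    induction hy using AddSubgroup.closure_induction with
    | mem y hy =>
      obtain ⟨s, hs, x, hx, rfl⟩ := hy
      obtain ⟨r, rfl⟩ := (hρ.mem_RA_iff s).1 hs
      obtain ⟨x, rfl⟩ := hμ.range.ge hx
      refine ⟨r • τ^[_] x, Submodule.smul_mem _ _ (Submodule.subset_span ⟨x, rfl⟩), ?_⟩
      rw [hμ.smul, hμ.tau]
    | zero => exact ⟨0, zero_mem _, map_zero _⟩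
    | add a b _ _ ha hb =>
      obtain ⟨x, hx, rfl⟩ := ha
      obtain ⟨y, hy, rfl⟩ := hb
      exact ⟨x + y, add_mem hx hy, map_add _ _ _⟩
    | neg a _ ha =>
      obtain ⟨x, hx, rfl⟩ := ha
      exact ⟨-x, neg_mem hx, map_neg _ _⟩
  · rintro ⟨x, hx, rfl⟩
    induction hx using Submodule.span_induction with
    | mem y hy =>
      obtain ⟨x, rfl⟩ := hy
      rw [hμ.tau]
      exact Pool.Agent.FFC.mem_tauLat (hμ.range.le ⟨x, rfl⟩)
    | zero =>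
      rw [map_zero]
      exact zero_mem _
    | add a b _ _ ha hb =>
      rw [map_add]
      exact add_mem ha hb
    | smul r a _ ha =>
      rw [hμ.smul]
      exact EmbN_mul_mem ((hρ.mem_RA_iff _).2 ⟨r, rfl⟩) ha

theorem IsEmb2.tau_le (hρ : IsRho2 K ρ) (hμ : IsEmb2 ρ (Module.finrank k₀ k) ε τ μ f I) :
    tauLat (AK OK K L) (tE k₀ E) f I ≤ I := by
  intro y hy
  obtain ⟨x, -, rfl⟩ := (hμ.mem_tauLat hρ y).1 hy
  exact hμ.range.le ⟨x, rfl⟩

theorem IsEmb2.pow (hρ : IsRho2 K ρ) (hM : IsCMMotive OE OK d τ)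
    (hμ : IsEmb2 ρ (Module.finrank k₀ k) ε τ μ f I) :
    ∃ n : ℕ, ∀ x ∈ I, (∏ a ∈ Finset.range (Module.finrank k₀ k),
      (tm 1 (tE k₀ E) - tm ((th k₀ K L) ^ (Fintype.card k₀) ^ a) 1)) ^ n * x ∈
        tauLat (AK OK K L) (tE k₀ E) f I := by
  obtain ⟨n, hn⟩ := span_pow hM (Module.finrank k₀ k)
  refine ⟨n, fun x hx => ?_⟩
  obtain ⟨z, rfl⟩ := hμ.range.ge hx
  refine (hμ.mem_tauLat hρ _).2 ⟨_, hn z, ?_⟩
  rw [hμ.smul, map_pow, map_prod]
  simp only [hρ.map_jj]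

end Pool.Agent.FFC
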