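import Pool.Agent.P.MP_a2beea_nt.FC.BetC
import Pool.Agent.P.MP_a2beea_nt.FC.EmbN

/-! The cycle on the component. `exists_cyc2`: see `exists_cyc`; `u (ε 0 • x)` only depends on `μ x`
(`IsEmb2.ker`); `IsIdem.sig_l`, `tau_iter`, `IsCycle.iter`, `card_pow`, `cycle_eq_zero`.
`j θ` is the image of `θ` in `C` because `η` fixes `θ`. `cyc2_conv`, `period2`:
`u' (μ (τ^[b] x)) = u (τ^[b] (ε b • x))` has the coefficients of `u (ε b • x)` raised to the power
`p ^ b`; `tateM`, `lat_conv`, `ker_zero`; the `p ^ b`-th power map of `C` is a continuous ring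
homomorphism (make `C` a `k₀`-algebra through `K`). -/

open Polynomial
open scoped TensorProduct NNReal IntermediateField

namespace Pool.Agent.FFC

open Classical

variable {k₀ : Type*} [Field k₀] [Fintype k₀] {E K : Type*} [Field E] [Field K]
  [Algebra k₀ E] [Algebra k₀[X] E] [Algebra (RatFunc k₀) E] [IsScalarTower k₀ k₀[X] E]
  [IsScalarTower k₀[X] (RatFunc k₀) E]
  [Algebra k₀ K] [Algebra k₀[X] K] [Algebra (RatFunc k₀) K] [IsScalarTower k₀ k₀[X] K]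
  [IsScalarTower k₀[X] (RatFunc k₀) K]
  [FiniteDimensional (RatFunc k₀) E] [Algebra.IsSeparable (RatFunc k₀) E]
  [FiniteDimensional (RatFunc k₀) K] [IsGalois (RatFunc k₀) K]
  {OE OK : Type*} [CommRing OE] [CommRing OK]
  [Algebra k₀ OE] [Algebra k₀[X] OE] [Algebra OE E] [IsScalarTower k₀ k₀[X] OE]
  [IsScalarTower k₀[X] OE E] [IsIntegralClosure OE k₀[X] E]
  [Algebra k₀ OK] [Algebra k₀[X] OK] [Algebra OK K] [IsScalarTower k₀ k₀[X] OK]
  [IsScalarTower k₀[X] OK K] [IsIntegralClosure OK k₀[X] K]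
  {L : Type*} [Field L] [Algebra k₀ L] [Algebra K L] [IsScalarTower k₀ K L] [IsAlgClosed L]
  [Algebra.IsAlgebraic K L]
  {k : Type*} [Field k] [Fintype k] [Algebra k₀ k] [Algebra k E] [IsScalarTower k₀ k E]
  [Algebra k L] [IsScalarTower k₀ k L]
  [IsDomain (L ⊗[k] E)] [Nonempty (GV k L)]
  [Fintype (E →ₐ[RatFunc k₀] K)] {M : Type*} [AddCommGroup M] [Module (OK ⊗[k₀] OE) M]
  {τ : M →+ M} {d : (E →ₐ[RatFunc k₀] K) → ℕ}
  {ρ : OK ⊗[k₀] OE →+* FL k E L} {ε : ℕ → OK ⊗[k₀] OE}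
  {μ : M →+ FL k E L} {f : FL k E L} {I : AddSubgroup (FL k E L)}
  {C : Type*} [NormedField C] [IsUltrametricDist C] [CompleteSpace C] [Algebra K C]
  {η : K ≃ₐ[RatFunc k₀] K} {u : M →+ PowerSeries C}
  {j : L →+* C} {u' : FL k E L → PowerSeries C} {b : ℕ}

private theorem Cyc2_pow (k₀ : Type*) [Field k₀] [Fintype k₀] {C : Type*} [NormedField C]
    [Algebra k₀ C] {g : ℕ → C} {a : C} (h : HasSum g a) (b : ℕ) :
    HasSum (fun n => g n ^ Fintype.card k₀ ^ b) (a ^ Fintype.card k₀ ^ b) := by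
  induction b with
  | zero => simpa using h
  | succ b ih =>
    simp only [pow_succ, pow_mul]
    exact ih.map (FiniteField.frobeniusAlgHom k₀ C) (continuous_pow (Fintype.card k₀))

private theorem Cyc2_coeff (hρ : IsRho2 K ρ) (hε : IsIdem ρ (Module.finrank k₀ k) ε)
    (hM : IsCMMotive OE OK d τ) (hu : IsCycle (k := k₀) (OE := OE) (OK := OK) τ η u)
    (hu' : ∀ x, u' (μ x) = u (ε 0 • x)) (hb : b < (Module.finrank k₀ k)) (x : M) (n : ℕ) :
    PowerSeries.coeff n (u' (μ (τ^[b] x))) =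
      PowerSeries.coeff n (u (ε b • x)) ^ (Fintype.card k₀) ^ b := by
  rw [hu', ← hε.sig_pow hρ hb, ← tau_iter hM, hu.iter]

theorem exists_cyc2 (j : L →+* C) (hj : ∀ x : K, j (algebraMap K L x) = algebraMap K C (η x))
    (hρ : IsRho2 K ρ) (hε : IsIdem ρ (Module.finrank k₀ k) ε) (hM : IsCMMotive OE OK d τ)
    (hμ : IsEmb2 ρ (Module.finrank k₀ k) ε τ μ f I)
    (hu : IsCycle (k := k₀) (OE := OE) (OK := OK) τ η u) (h0 : u ≠ 0) :
    ∃ u' : FL k E L → PowerSeries C, Cyc j (AK OK K L) (tE k₀ E) f I u' ∧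
      ∀ x, u' (μ x) = u (ε 0 • x) := by
  have key : ∀ x, u (ε 0 • Function.invFun μ (μ x)) = u (ε 0 • x) := fun x => by
    have h1 : μ (Function.invFun μ (μ x) - x) = 0 := by
      rw [map_sub, Function.invFun_eq (f := μ) ⟨x, rfl⟩, sub_self]
    rw [hμ.ker, smul_sub, sub_eq_zero] at h1
    rw [h1]
  have hI : ∀ y ∈ I, ∃ x, μ x = y := fun y hy => by
    rw [← hμ.range] at hy
    exact hy
  refine ⟨fun y => u (ε 0 • Function.invFun μ y), ⟨?_, ?_, ?_, ?_, ?_, ?_⟩, key⟩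
  · intro x hx y hy
    obtain ⟨x, rfl⟩ := hI x hx
    obtain ⟨y, rfl⟩ := hI y hy
    simp only [← map_add μ, key, smul_add, map_add u]
  · intro x hx
    exact hu.tate _
  · rintro _ ⟨c, rfl⟩ x hx
    obtain ⟨x, rfl⟩ := hI x hx
    have h1 : (tm (((algebraMap K L).comp (algebraMap OK K)) c) 1 : FL k E L) =
        ρ (c ⊗ₜ[k₀] (1 : OE)) := by
      rw [hρ c 1, map_one]; rfl
    simp only [h1, ← hμ.smul, key]
    rw [smul_comm, hu.smul_const, RingHom.comp_apply, hj]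
  · intro x hx
    obtain ⟨x, rfl⟩ := hI x hx
    have h1 : (tm 1 (tE k₀ E) : FL k E L) = ρ ((1 : OK) ⊗ₜ[k₀] algebraMap k₀[X] OE X) := by
      rw [hρ, map_one, map_one, ← IsScalarTower.algebraMap_apply]
    simp only [h1, ← hμ.smul, key]
    rw [smul_comm, hu.smul_t]
  · intro x hx n
    obtain ⟨x, rfl⟩ := hI x hx
    simp only [← hμ.tau, key]
    conv_lhs => rw [← hε.sig_l hρ, ← tau_iter hM, hu.iter, card_pow]
  · by_contra hne
    push Not at hne
    refine h0 (cycle_eq_zero hρ hε hM hu fun x => ?_)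
    rw [← key]
    exact hne (μ x) (hμ.range ▸ ⟨x, rfl⟩)

theorem j_theta (hj : ∀ x : K, j (algebraMap K L x) = algebraMap K C (η x)) :
    j (th k₀ K L) = algebraMap K C (algebraMap k₀[X] K X) := by
  rw [hj, IsScalarTower.algebraMap_apply k₀[X] (RatFunc k₀) K, η.commutes]

theorem cyc2_bd (hj : ∀ x : K, j (algebraMap K L x) = algebraMap K C (η x))
    (hM : IsCMMotive OE OK d τ) (hμ : IsEmb2 ρ (Module.finrank k₀ k) ε τ μ f I)
    (hu : IsCycle (k := k₀) (OE := OE) (OK := OK) τ η u)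
    (hu' : ∀ x, u' (μ x) = u (ε 0 • x)) (hθ : 1 < ‖algebraMap K C (algebraMap k₀[X] K X)‖) :
    ∀ x ∈ I, ∃ B : ℝ, ∀ m, ‖PowerSeries.coeff m (u' x)‖ * ‖j (th k₀ K L)‖ ^ m ≤ B := by
  intro x hx
  rw [← hμ.range] at hx
  obtain ⟨x, rfl⟩ := hx
  rw [hu', j_theta hj]
  exact (tateM hM hu hθ).1 _

theorem cyc2_conv (hj : ∀ x : K, j (algebraMap K L x) = algebraMap K C (η x))
    (hρ : IsRho2 K ρ) (hε : IsIdem ρ (Module.finrank k₀ k) ε) (hM : IsCMMotive OE OK d τ)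
    (hu : IsCycle (k := k₀) (OE := OE) (OK := OK) τ η u)
    (hu' : ∀ x, u' (μ x) = u (ε 0 • x)) (hθ : 1 < ‖algebraMap K C (algebraMap k₀[X] K X)‖)
    (hb : b < (Module.finrank k₀ k)) :
    ∀ x ∈ Nb k₀ OE OK τ μ b, Conv ‖j ((th k₀ K L) ^ (Fintype.card k₀) ^ b)‖ (u' x) := by
  rintro _ ⟨x, hx, rfl⟩
  have h := (lat_conv hM hu hθ (Submodule.smul_mem _ (ε b) hx)).pow (Fintype.card k₀ ^ b)
  rw [zero_pow (pow_ne_zero _ Fintype.card_ne_zero)] at h
  refine h.congr fun n => ?_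
  rw [Cyc2_coeff hρ hε hM hu hu' hb, map_pow, j_theta hj, norm_pow, norm_pow, mul_pow,
    pow_right_comm]

theorem period2 (hj : ∀ x : K, j (algebraMap K L x) = algebraMap K C (η x))
    (hρ : IsRho2 K ρ) (hε : IsIdem ρ (Module.finrank k₀ k) ε) (hM : IsCMMotive OE OK d τ)
    (hu : IsCycle (k := k₀) (OE := OE) (OK := OK) τ η u)
    (hu' : ∀ x, u' (μ x) = u (ε 0 • x)) (hθ : 1 < ‖algebraMap K C (algebraMap k₀[X] K X)‖)
    (hb : b < (Module.finrank k₀ k)) {ω : M} (hω : ω ∈ dRLat k₀ OE OK τ)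
    (hker : (1 - ε b) • ω ∈ dRKer k₀ OE OK τ) {z : C}
    (hz : HasSum (fun m => PowerSeries.coeff m (u' (μ (τ^[b] ω))) *
      j ((th k₀ K L) ^ (Fintype.card k₀) ^ b) ^ m) z) :
    ∃ P : C, HasSum (fun n => PowerSeries.coeff n (u ω) *
      algebraMap K C (algebraMap k₀[X] K X) ^ n) P ∧ P ^ (Fintype.card k₀) ^ b = z := by
  let : Algebra k₀ C := ((algebraMap K C).comp (algebraMap k₀ K)).toAlgebra
  have h1 := (lat_conv hM hu hθ hω).hasSum le_rfl
  refine ⟨_, h1, ?_⟩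
  have h2 := Cyc2_pow k₀ (h1.sub (ker_zero hM hu hθ hker)) b
  rw [sub_zero] at h2
  refine h2.unique ?_
  convert hz using 2 with n
  rw [Cyc2_coeff hρ hε hM hu hu' hb, map_pow, j_theta hj, ← sub_mul, ← map_sub, ← map_sub,
    sub_smul, one_smul, sub_sub_cancel, mul_pow, pow_right_comm]

end Pool.Agent.FFC
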