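import Mathlib

/-! Points of a curve with values in a valued field, local intersections and heights. -/

open Polynomial
open scoped TensorProduct NNReal IntermediateField

namespace Pool.Agent.FFC

noncomputable section

open Classical

section Curve

variable (k : Type*) [Field k] {E : Type*} [Field E] [Algebra k E]

/-- `E` is a finite separable extension of `k(t)` with field of constants `k`. -/
structure FF (t : E) : Prop where
  trans : Transcendental k t
  fin : FiniteDimensional k⟮t⟯ E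
  sep : Algebra.IsSeparable k⟮t⟯ E
  reg : ∀ x : E, IsAlgebraic k x → x ∈ (algebraMap k E).range

/-- The degree `[E : k(t)]`. -/
def dg (t : E) : ℕ := Module.finrank k⟮t⟯ E

/-- The integral closure of `k[t]` in `E`. -/
def OO (t : E) : Subalgebra k E :=
  (integralClosure (Algebra.adjoin k {t}) E).restrictScalars k

/-- The Riemann-Roch space of `m` times the polar divisor of `t`. -/
def LL (t : E) (m : ℕ) : Submodule k E where
  carrier := {a | a ∈ OO k t ∧ a * t⁻¹ ^ m ∈ OO k t⁻¹}
  zero_mem' := ⟨zero_mem _, by rw [zero_mul]; exact zero_mem _⟩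
  add_mem' := by
    rintro a b ⟨ha, ha'⟩ ⟨hb, hb'⟩
    exact ⟨add_mem ha hb, by rw [add_mul]; exact add_mem ha' hb'⟩
  smul_mem' := by
    rintro c a ⟨ha, ha'⟩
    exact ⟨Subalgebra.smul_mem _ ha c, by rw [smul_mul_assoc]; exact Subalgebra.smul_mem _ ha' c⟩

/-- A place of `E / k`: a proper valuation subring which contains `k`. -/
def IsPlace (O : ValuationSubring E) : Prop := O ≠ ⊤ ∧ ∀ c : k, algebraMap k E c ∈ O

variable {k}

/-- `π` generates the maximal ideal of `O`. -/
def IsUnif (O : ValuationSubring E) (π : E) : Prop :=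
  π ∈ O ∧ π⁻¹ ∉ O ∧ ∀ a ∈ O, a⁻¹ ∉ O → a / π ∈ O

/-- A chosen uniformizer. -/
def unif (O : ValuationSubring E) : E := if h : ∃ π, IsUnif O π then h.choose else 0

variable (k E)

/-- An `L`-valued point of the complete curve with function field `E`. -/
@[ext] structure Pt (L : Type*) [Field L] [Algebra k L] where
  O : ValuationSubring E
  ev : E → L
  junk : ∀ a, a ∉ O → ev a = 0
  alg_mem : ∀ c : k, algebraMap k E c ∈ O
  ev_alg : ∀ c : k, ev (algebraMap k E c) = algebraMap k L c
  ev_add : ∀ a ∈ O, ∀ b ∈ O, ev (a + b) = ev a + ev b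
  ev_mul : ∀ a ∈ O, ∀ b ∈ O, ev (a * b) = ev a * ev b
  ev_max : ∀ a ∈ O, a⁻¹ ∉ O → ev a = 0

variable {k E} {L : Type*} [Field L] [Algebra k L]

/-- The non-constant point given by an embedding. -/
def Pt.ofHom (y : E →ₐ[k] L) : Pt k E L where
  O := ⊤
  ev := y
  junk := fun a h => absurd (ValuationSubring.mem_top a) h
  alg_mem := fun _ => ValuationSubring.mem_top _
  ev_alg := fun c => y.commutes c
  ev_add := fun a _ b _ => map_add y a b
  ev_mul := fun a _ b _ => map_mul y a b
  ev_max := fun _ _ h => absurd (ValuationSubring.mem_top _) h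

/-- The action of the automorphisms of `L` on points. -/
def Pt.map (g : L ≃ₐ[k] L) (p : Pt k E L) : Pt k E L where
  O := p.O
  ev := fun a => g (p.ev a)
  junk := fun a h => by rw [p.junk a h, map_zero]
  alg_mem := p.alg_mem
  ev_alg := fun c => by rw [p.ev_alg, AlgEquiv.commutes]
  ev_add := fun a ha b hb => by rw [p.ev_add a ha b hb, map_add]
  ev_mul := fun a ha b hb => by rw [p.ev_mul a ha b hb, map_mul]
  ev_max := fun a ha h => by rw [p.ev_max a ha h, map_zero]

instance : MulAction (L ≃ₐ[k] L) (Pt k E L) where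
  smul := Pt.map
  one_smul := fun _ => rfl
  mul_smul := fun _ _ _ => rfl

@[simp] theorem Pt.smul_O (g : L ≃ₐ[k] L) (p : Pt k E L) : (g • p).O = p.O := rfl

@[simp] theorem Pt.smul_ev (g : L ≃ₐ[k] L) (p : Pt k E L) (a : E) :
    (g • p).ev a = g (p.ev a) := rfl

@[simp] theorem Pt.ofHom_O (y : E →ₐ[k] L) : (Pt.ofHom y).O = ⊤ := rfl

@[simp] theorem Pt.ofHom_ev (y : E →ₐ[k] L) (a : E) : (Pt.ofHom y).ev a = y a := rfl

theorem Pt.ev_one (p : Pt k E L) : p.ev 1 = 1 := by
  simpa using p.ev_alg 1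

theorem Pt.ev_zero (p : Pt k E L) : p.ev 0 = 0 := by
  simpa using p.ev_alg 0

theorem Pt.ev_neg (p : Pt k E L) (a : E) (ha : a ∈ p.O) : p.ev (-a) = -p.ev a := by
  have := p.ev_add a ha (-a) (neg_mem ha)
  rw [add_neg_cancel, p.ev_zero] at this
  exact (neg_eq_of_add_eq_zero_right this.symm).symm

theorem Pt.ev_inv (p : Pt k E L) (a : E) (ha : a ∈ p.O) (ha' : a⁻¹ ∈ p.O) :
    p.ev a⁻¹ = (p.ev a)⁻¹ := by
  by_cases h : a = 0
  · simp [h, p.ev_zero]
  · have := p.ev_mul a ha a⁻¹ ha'
    rw [mul_inv_cancel₀ h, p.ev_one] at this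
    exact (eq_inv_of_mul_eq_one_right this.symm)

variable (k L) in
/-- A valuation of `L` which is trivial on the constants and has the constants as residue
field. -/
structure GV where
  v : Valuation L ℝ≥0
  triv : ∀ c : L, IsAlgebraic k c → c ≠ 0 → v c = 1
  res : ∀ x : L, v x ≤ 1 → ∃ c : L, IsAlgebraic k c ∧ v (x - c) < 1

/-- The pull-back of a valuation along an automorphism. -/
def GV.comap (w : GV k L) (g : L ≃ₐ[k] L) : GV k L where
  v := w.v.comap (g : L →+* L)
  triv := fun c hc h0 => by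
    have := w.triv (g c) (hc.algHom g.toAlgHom) (by simpa using h0)
    simpa using this
  res := fun x hx => by
    obtain ⟨c, hc, h⟩ := w.res (g x) (by simpa using hx)
    exact ⟨g.symm c, hc.algHom g.symm.toAlgHom, by simpa using h⟩

@[simp] theorem GV.comap_v (w : GV k L) (g : L ≃ₐ[k] L) (x : L) :
    (w.comap g).v x = w.v (g x) := rfl

/-- The constant congruent to an integral element. -/
def GV.rc (w : GV k L) (x : L) : L := if h : w.v x ≤ 1 then (w.res x h).choose else 0

theorem GV.rc_alg (w : GV k L) (x : L) : IsAlgebraic k (w.rc x) := by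
  unfold GV.rc
  split_ifs with h
  · exact (w.res x h).choose_spec.1
  · exact isAlgebraic_zero

theorem GV.rc_spec (w : GV k L) {x : L} (h : w.v x ≤ 1) : w.v (x - w.rc x) < 1 := by
  unfold GV.rc
  rw [dif_pos h]
  exact (w.res x h).choose_spec.2

theorem GV.alg_le (w : GV k L) {c : L} (hc : IsAlgebraic k c) : w.v c ≤ 1 := by
  by_cases h : c = 0
  · simp [h]
  · exact (w.triv c hc h).le

theorem GV.rc_eq (w : GV k L) {x c : L} (hc : IsAlgebraic k c) (h : w.v (x - c) < 1) :
    w.rc x = c := by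
  have hx : w.v x ≤ 1 := by
    have : x = (x - c) + c := by ring
    rw [this]
    exact (w.v.map_add _ _).trans (max_le h.le (w.alg_le hc))
  by_contra hne
  have h1 := w.triv (w.rc x - c) ((w.rc_alg x).sub hc) (sub_ne_zero.mpr hne)
  have : w.rc x - c = (x - c) - (x - w.rc x) := by ring
  rw [this] at h1
  have h2 := (w.v.map_sub (x - c) (x - w.rc x)).trans_lt (max_lt h (w.rc_spec hx))
  exact absurd h1 h2.ne

theorem GV.rc_add (w : GV k L) {x y : L} (hx : w.v x ≤ 1) (hy : w.v y ≤ 1) :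
    w.rc (x + y) = w.rc x + w.rc y := by
  refine w.rc_eq ((w.rc_alg x).add (w.rc_alg y)) ?_
  have : x + y - (w.rc x + w.rc y) = (x - w.rc x) + (y - w.rc y) := by ring
  rw [this]
  exact (w.v.map_add _ _).trans_lt (max_lt (w.rc_spec hx) (w.rc_spec hy))

theorem GV.rc_mul (w : GV k L) {x y : L} (hx : w.v x ≤ 1) (hy : w.v y ≤ 1) :
    w.rc (x * y) = w.rc x * w.rc y := by
  refine w.rc_eq ((w.rc_alg x).mul (w.rc_alg y)) ?_
  have : x * y - w.rc x * w.rc y = x * (y - w.rc y) + (x - w.rc x) * w.rc y := by ring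
  rw [this]
  refine (w.v.map_add _ _).trans_lt (max_lt ?_ ?_)
  · rw [map_mul]
    exact mul_lt_one_of_nonneg_of_lt_one_right hx zero_le (w.rc_spec hy)
  · rw [map_mul]
    exact mul_lt_one_of_nonneg_of_lt_one_left zero_le (w.rc_spec hx) (w.alg_le (w.rc_alg y))

/-- The valuation ring of the reduction of a point. -/
def redO (w : GV k L) (p : Pt k E L) : ValuationSubring E where
  carrier := {a | a ∈ p.O ∧ w.v (p.ev a) ≤ 1}
  zero_mem' := ⟨zero_mem _, by simp [p.ev_zero]⟩
  one_mem' := ⟨one_mem _, by simp [p.ev_one]⟩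
  add_mem' := by
    rintro a b ⟨ha, ha'⟩ ⟨hb, hb'⟩
    refine ⟨add_mem ha hb, ?_⟩
    rw [p.ev_add a ha b hb]
    exact (w.v.map_add _ _).trans (max_le ha' hb')
  mul_mem' := by
    rintro a b ⟨ha, ha'⟩ ⟨hb, hb'⟩
    refine ⟨mul_mem ha hb, ?_⟩
    rw [p.ev_mul a ha b hb, map_mul]
    exact mul_le_one' ha' hb'
  neg_mem' := by
    rintro a ⟨ha, ha'⟩
    exact ⟨neg_mem ha, by rwa [p.ev_neg a ha, Valuation.map_neg]⟩
  mem_or_inv_mem' := by
    intro a
    by_cases ha : a ∈ p.O
    · by_cases ha' : a⁻¹ ∈ p.O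
      · rcases le_total (w.v (p.ev a)) 1 with h | h
        · exact Or.inl ⟨ha, h⟩
        · refine Or.inr ⟨ha', ?_⟩
          rw [p.ev_inv a ha ha', map_inv₀]
          exact inv_le_one_of_one_le₀ h
      · exact Or.inl ⟨ha, by simp [p.ev_max a ha ha']⟩
    · have ha' : a⁻¹ ∈ p.O := (p.O.mem_or_inv_mem a).resolve_left ha
      exact Or.inr ⟨ha', by simp [p.ev_max a⁻¹ ha' (by rwa [inv_inv])]⟩

theorem mem_redO {w : GV k L} {p : Pt k E L} {a : E} :
    a ∈ redO w p ↔ a ∈ p.O ∧ w.v (p.ev a) ≤ 1 := Iff.rfl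

/-- The reduction of a point at a valuation; it is a constant point. -/
def red (w : GV k L) (p : Pt k E L) : Pt k E L where
  O := redO w p
  ev := fun a => if a ∈ redO w p then w.rc (p.ev a) else 0
  junk := fun a h => if_neg h
  alg_mem := fun c => ⟨p.alg_mem c, by rw [p.ev_alg]; exact w.alg_le (isAlgebraic_algebraMap c)⟩
  ev_alg := fun c => by
    have h : algebraMap k E c ∈ redO w p :=
      ⟨p.alg_mem c, by rw [p.ev_alg]; exact w.alg_le (isAlgebraic_algebraMap c)⟩
    rw [if_pos h, p.ev_alg]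
    exact w.rc_eq (isAlgebraic_algebraMap c) (by simp)
  ev_add := fun a ha b hb => by
    rw [if_pos ha, if_pos hb, if_pos (add_mem ha hb), p.ev_add a ha.1 b hb.1, w.rc_add ha.2 hb.2]
  ev_mul := fun a ha b hb => by
    rw [if_pos ha, if_pos hb, if_pos (mul_mem ha hb), p.ev_mul a ha.1 b hb.1, w.rc_mul ha.2 hb.2]
  ev_max := fun a ha h => by
    rw [if_pos ha]
    refine w.rc_eq isAlgebraic_zero ?_
    rw [sub_zero]
    by_cases ha' : a⁻¹ ∈ p.O
    · by_contra hlt
      have h1 : w.v (p.ev a) = 1 := le_antisymm ha.2 (not_lt.mp hlt)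
      exact h ⟨ha', by rw [p.ev_inv a ha.1 ha', map_inv₀, h1, inv_one]⟩
    · simp [p.ev_max a ha.1 ha']

@[simp] theorem red_O (w : GV k L) (p : Pt k E L) : (red w p).O = redO w p := rfl

theorem red_ev {w : GV k L} {p : Pt k E L} {a : E} (h : a ∈ redO w p) :
    (red w p).ev a = w.rc (p.ev a) := if_pos h

/-- The `w`-adic distance of two points. -/
def dst (w : GV k L) (p p' : Pt k E L) : ℝ≥0 :=
  if red w p = red w p' then w.v (p.ev (unif (redO w p)) - p'.ev (unif (redO w p))) else 1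

/-- The local intersection number of two distinct points. -/
def ipt (w : GV k L) (p p' : Pt k E L) : ℝ := -Real.log (dst w p p')

/-- `x` is a combination of functions regular at `p`, with value `c` at `p`. -/
def EvT (p : Pt k E L) (x : L ⊗[k] E) (c : L) : Prop :=
  ∃ (n : ℕ) (b : Fin n → L) (a : Fin n → E), (∀ i, a i ∈ p.O) ∧
    x = ∑ i, b i ⊗ₜ[k] a i ∧ c = ∑ i, b i * p.ev (a i)

/-- `x` has a model over the valuation rings of `w` and of the place `O`. -/
def IntT (w : GV k L) (O : ValuationSubring E) (x : L ⊗[k] E) : Prop :=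
  ∃ (n : ℕ) (b : Fin n → L) (a : Fin n → E), (∀ i, a i ∈ O) ∧ (∀ i, w.v (b i) ≤ 1) ∧
    x = ∑ i, b i ⊗ₜ[k] a i

/-- The Gauss norm on `L ⊗ E`. -/
def gT (w : GV k L) (x : L ⊗[k] E) : ℝ≥0 :=
  ((Algebra.TensorProduct.basis L (Module.Basis.ofVectorSpace k E)).repr x).support.sup
    fun i => w.v ((Algebra.TensorProduct.basis L (Module.Basis.ofVectorSpace k E)).repr x i)

variable (k E L) in
/-- The function field of the curve over `L`. -/
abbrev FL : Type _ := FractionRing (L ⊗[k] E)

/-- The function `c ⊗ a`. -/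
def tm (c : L) (a : E) : FL k E L := algebraMap (L ⊗[k] E) (FL k E L) (c ⊗ₜ[k] a)

variable [IsDomain (L ⊗[k] E)]

/-- The function `h` is regular at `p` with value `c`. -/
def HasVal (p : Pt k E L) (h : FL k E L) (c : L) : Prop :=
  ∃ (x y : L ⊗[k] E) (cx cy : L), EvT p x cx ∧ EvT p y cy ∧ cy ≠ 0 ∧
    h * algebraMap (L ⊗[k] E) (FL k E L) y = algebraMap (L ⊗[k] E) (FL k E L) x ∧ c * cy = cx

/-- The value of a function at a point where it is regular. -/
def val (p : Pt k E L) (h : FL k E L) : L := if H : ∃ c, HasVal p h c then H.choose else 0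

/-- `ϖ` is a local parameter at `p`. -/
def IsPar (p : Pt k E L) (ϖ : FL k E L) : Prop :=
  ϖ ≠ 0 ∧ HasVal p ϖ 0 ∧ ∀ h, HasVal p h 0 → ∃ c, HasVal p (h / ϖ) c

/-- `h` has order `n` at `p`. -/
def HasOrd (p : Pt k E L) (h : FL k E L) (n : ℤ) : Prop :=
  ∃ ϖ, IsPar p ϖ ∧ ∃ c, c ≠ 0 ∧ HasVal p (h / ϖ ^ n) c

/-- The order of a function at a point. -/
def ord (p : Pt k E L) (h : FL k E L) : ℤ := if H : ∃ n, HasOrd p h n then H.choose else 0

/-- The Gauss norm of a function. -/
def gauss (w : GV k L) (h : FL k E L) : ℝ≥0 :=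
  gT w (IsLocalization.sec (nonZeroDivisors (L ⊗[k] E)) h).1 /
    gT w ((IsLocalization.sec (nonZeroDivisors (L ⊗[k] E)) h).2 : L ⊗[k] E)

/-- The action of the automorphisms of `L` on functions. -/
def mapF (g : L ≃ₐ[k] L) : FL k E L ≃+* FL k E L :=
  IsFractionRing.ringEquivOfRingEquiv
    (Algebra.TensorProduct.congr g (AlgEquiv.refl : E ≃ₐ[k] E)).toRingEquiv

/-- The least order at `p` of a nonzero member of `S`. -/
def ordS (p : Pt k E L) (S : Set (FL k E L)) : ℤ := sInf {n | ∃ h ∈ S, h ≠ 0 ∧ ord p h = n}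

end Curve

section Global

variable (k : Type*) [Field k] {L : Type*} [Field L] [Algebra k L]

/-- The places of `k(θ)`; `none` is the place at infinity. -/
abbrev Pl : Type _ := Option {π : k[X] // π.Monic ∧ Irreducible π}

/-- The automorphisms of `L` over `k(θ)`. -/
abbrev GG (θ : L) : Subgroup (L ≃ₐ[k] L) := MulAction.stabilizer (L ≃ₐ[k] L) θ

/-- The group of right periods of a function on a group. -/
def per {G : Type*} [Group G] (Φ : G → ℝ) : Subgroup G where
  carrier := {h | ∀ g, Φ (g * h) = Φ g}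
  one_mem' := fun g => by rw [mul_one]
  mul_mem' := fun {a b} ha hb g => by rw [← mul_assoc, hb, ha]
  inv_mem' := fun {a} ha g => by rw [← ha (g * a⁻¹), inv_mul_cancel_right]

/-- The mean of a function on a group which factors through a finite quotient. -/
def avg {G : Type*} [Group G] (Φ : G → ℝ) : ℝ :=
  (∑ᶠ c : G ⧸ per Φ, Φ c.out) / (per Φ).index

variable [Fintype k]

/-- One normalized valuation of `L` above every place of `k(θ)`. -/
structure PD (θ : L) where
  trans : Transcendental k θ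
  alg : ∀ x : L, IsAlgebraic k⟮θ⟯ x
  V : Pl k → GV k L
  inf : (V none).v θ = Fintype.card k
  fin_le : ∀ π, (V (some π)).v θ ≤ 1
  fin_eq : ∀ π, (V (some π)).v (aeval θ π.1) = ((Fintype.card k : ℝ≥0) ^ π.1.natDegree)⁻¹

variable {k} {θ : L}

/-- The valuation `x ↦ |η x|_v`. -/
def PD.W (P : PD k θ) (v : Pl k) (η : GG k θ) : GV k L := (P.V v).comap η.1

/-- The function depends on finitely many values of the automorphism. -/
def Loc (Φ : GG k θ → ℝ) : Prop :=
  ∃ S : Finset L, ∀ η η' : GG k θ, (∀ s ∈ S, η.1 s = η'.1 s) → Φ η = Φ η'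

/-- Admissible integrands. -/
def Adm (Φ : Pl k → GG k θ → ℝ) : Prop := (∀ v, Loc (Φ v)) ∧ {v | Φ v ≠ 0}.Finite

/-- The sum over all places of the mean over the conjugates. -/
def II (Φ : Pl k → GG k θ → ℝ) : ℝ := ∑ᶠ v, avg (Φ v)

/-- The sum over the finite places. -/
def Ifin (Φ : Pl k → GG k θ → ℝ) : ℝ := ∑ᶠ π, avg (Φ (some π))

variable {E : Type*} [Field E] [Algebra k E]

/-- The global intersection number of two distinct points. -/
def ip (P : PD k θ) (p p' : Pt k E L) : ℝ := II fun v η => ipt (P.W v η) p p'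

/-- The height of a point. -/
def ht (P : PD k θ) (t : E) (p : Pt k E L) : ℝ :=
  (II fun v η => Real.posLog ((P.W v η).v (p.ev t))) / dg k t

/-- The height pairing of two distinct points. -/
def kk (P : PD k θ) (t : E) (y z : E →ₐ[k] L) : ℝ :=
  ht P t (Pt.ofHom y) + ht P t (Pt.ofHom z) - ip P (Pt.ofHom y) (Pt.ofHom z)

/-- The height pairing, extended to the diagonal by moving along the fibre of `t`. -/
def kp (P : PD k θ) (t : E) (y z : E →ₐ[k] L) : ℝ :=
  if y = z then -∑ᶠ x ∈ {x : E →ₐ[k] L | x ≠ y ∧ x t = y t}, kk P t y x else kk P t y z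

/-- The height pairing on divisors supported at non-constant points. -/
def BB (P : PD k θ) (t : E) (x y : (E →ₐ[k] L) →₀ ℤ) : ℝ :=
  x.sum fun a m => y.sum fun b n => (m : ℝ) * n * kp P t a b

variable [IsDomain (L ⊗[k] E)]

/-- The non-constant part of the divisor of a function. -/
def divN (h : FL k E L) : (E →ₐ[k] L) →₀ ℤ :=
  if H : {y : E →ₐ[k] L | ord (Pt.ofHom y) h ≠ 0}.Finite then
    Finsupp.ofSupportFinite (fun y => ord (Pt.ofHom y) h) H else 0

end Global

section Frob

variable (k : Type*) [Field k] [Fintype k] (L : Type*) [Field L] [Algebra k L] [IsAlgClosed L]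

/-- The `q`-Frobenius of `L`. -/
def fr : L ≃ₐ[k] L :=
  AlgEquiv.ofBijective (FiniteField.frobeniusAlgHom k L)
    ⟨(FiniteField.frobeniusAlgHom k L).toRingHom.injective, fun x => by
      obtain ⟨y, hy⟩ := IsAlgClosed.exists_pow_nat_eq x (Fintype.card_pos (α := k))
      exact ⟨y, hy⟩⟩

@[simp] theorem fr_apply (x : L) : fr k L x = x ^ Fintype.card k := rfl

variable {k L} {E : Type*} [Field E] [Algebra k E]

/-- The action of automorphisms on embeddings. -/
def tw (g : L ≃ₐ[k] L) (y : E →ₐ[k] L) : E →ₐ[k] L := g.toAlgHom.comp y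

variable (k E L) in
/-- The number of constant points fixed by the `n`-th power of Frobenius. -/
def nPts (n : ℕ) : ℕ := {x : Pt k E L | x.O ≠ ⊤ ∧ (fr k L ^ n) • x = x}.ncard

variable (k E L) in
/-- The Gram matrix of the graphs of the powers of Frobenius. -/
def gram (g : ℕ) (i j : ℕ) : ℝ :=
  if i = j then 2 * g * (Fintype.card k : ℝ) ^ i
  else (Fintype.card k : ℝ) ^ i + (Fintype.card k : ℝ) ^ j -
    (Fintype.card k : ℝ) ^ min i j * nPts k L E (max i j - min i j)

end Frob

section Reg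

/-- The generating series `∑ c (n + 1) T ^ (n + 1)` is a rational function regular at `T = 0`
and `T = 1`, with value `v` at `T = 1`. -/
def Reg (c : ℕ → ℝ) (v : ℝ) : Prop :=
  ∃ A Q : ℝ[X], Q.eval 0 ≠ 0 ∧ Q.eval 1 ≠ 0 ∧
    (Q : PowerSeries ℝ) * (PowerSeries.X * PowerSeries.mk fun n => c (n + 1)) =
      (A : PowerSeries ℝ) ∧
    v = A.eval 1 / Q.eval 1

/-- The regularized sum of a periodic sequence of mean zero. -/
def regP (F : ℕ) (c : ℕ → ℝ) : ℝ := -(∑ i ∈ Finset.range F, ((i : ℝ) + 1) * c (i + 1)) / F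

end Reg

end

end Pool.Agent.FFC
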