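import Mathlib

/-! Definitions used in the statement of the function field Colmez formula. -/

open Polynomial
open scoped TensorProduct

namespace Pool.Agent.FFC

noncomputable section

variable (k : Type*) [Field k] [Fintype k]
variable (OE OK : Type*) [CommRing OE] [CommRing OK]
  [Algebra k OE] [Algebra k[X] OE] [Algebra k OK] [Algebra k[X] OK]
variable {E K : Type*} [Field E] [Field K] [Algebra (RatFunc k) E] [Algebra (RatFunc k) K]
  [Algebra OE E] [Algebra OK K]

/-- The partial Frobenius `c ⊗ b ↦ c ^ q ⊗ b`. -/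
def sig : OK ⊗[k] OE →ₐ[k] OK ⊗[k] OE :=
  Algebra.TensorProduct.map (FiniteField.frobeniusAlgHom k _) (AlgHom.id k _)

/-- The element `t - θ`, that is `1 ⊗ X - X ⊗ 1`. -/
def jj : OK ⊗[k] OE :=
  (1 : OK) ⊗ₜ[k]
      algebraMap k[X] OE X -
    algebraMap k[X] OK X ⊗ₜ[k]
      (1 : OE)

variable {k}

/-- The ideal of the graph of `φ`: it is generated by the elements `1 ⊗ b - φ b ⊗ 1`. -/
def graphIdeal (φ : E →ₐ[RatFunc k] K) : Ideal (OK ⊗[k] OE) :=
  Ideal.span {r | ∃ (b : OE) (c : OK),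
    algebraMap OK K c = φ (algebraMap OE E b) ∧ r = (1 : OK) ⊗ₜ[k] b -
      c ⊗ₜ[k] (1 : OE)}

variable {M : Type*} [AddCommGroup M] [Module (OK ⊗[k] OE) M]

variable (k) in
/-- The image of `σ^* M` in `M`. -/
def dRLat (τ : M →+ M) : Submodule (OK ⊗[k] OE) M := Submodule.span (OK ⊗[k] OE) (Set.range τ)

variable (k) in
/-- `(t - θ) σ^* M`; the de Rham cohomology is the quotient of `dRLat` by this submodule. -/
def dRKer (τ : M →+ M) : Submodule (OK ⊗[k] OE) M := Ideal.span {jj k OE OK} • dRLat k OE OK τ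

/-- `(M, τ)` is an effective `t`-motive over `O_K` with complex multiplication by `O_E`
of CM type `d`. -/
structure IsCMMotive [Fintype (E →ₐ[RatFunc k] K)] (d : (E →ₐ[RatFunc k] K) → ℕ)
    (τ : M →+ M) : Prop where
  invertible : Module.Invertible (OK ⊗[k] OE) M
  semilinear : ∀ (r : OK ⊗[k] OE) (x : M), τ (r • x) = sig k OE OK r • τ x
  cmType : dRLat k OE OK τ = (∏ φ, graphIdeal OE OK φ ^ d φ) • (⊤ : Submodule (OK ⊗[k] OE) M)

/-- Representatives of the de Rham classes on which `O_E` acts through `φ`. -/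
def eigen (τ : M →+ M) (φ : E →ₐ[RatFunc k] K) : AddSubgroup M where
  carrier := {x | x ∈ dRLat k OE OK τ ∧
    ∀ (b : OE) (c : OK),
      algebraMap OK K c = φ (algebraMap OE E b) →
      ((1 : OK) ⊗ₜ[k] b : OK ⊗[k] OE) • x -
        (c ⊗ₜ[k] (1 : OE) : OK ⊗[k] OE) • x ∈ dRKer k OE OK τ}
  zero_mem' := ⟨Submodule.zero_mem _, fun _ _ _ => by simp⟩
  add_mem' := by
    rintro x y ⟨hx, hx'⟩ ⟨hy, hy'⟩
    refine ⟨Submodule.add_mem _ hx hy, fun b c h => ?_⟩
    have := Submodule.add_mem _ (hx' b c h) (hy' b c h)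
    convert this using 1
    simp only [smul_add]; abel
  neg_mem' := by
    rintro x ⟨hx, hx'⟩
    refine ⟨Submodule.neg_mem _ hx, fun b c h => ?_⟩
    have := Submodule.neg_mem _ (hx' b c h)
    convert this using 1
    simp only [smul_neg]; abel

variable (k) in
/-- Representatives of the de Rham classes in `O_K ω`. -/
def line (τ : M →+ M) (ω : M) : AddSubgroup M where
  carrier := {x | ∃ c : OK,
    x - (c ⊗ₜ[k] (1 : OE) : OK ⊗[k] OE) • ω ∈ dRKer k OE OK τ}
  zero_mem' := ⟨0, by simp⟩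
  add_mem' := by
    rintro x y ⟨c, hc⟩ ⟨c', hc'⟩
    refine ⟨c + c', ?_⟩
    have := Submodule.add_mem _ hc hc'
    convert this using 1
    simp only [TensorProduct.add_tmul, add_smul]; abel
  neg_mem' := by
    rintro x ⟨c, hc⟩
    refine ⟨-c, ?_⟩
    have := Submodule.neg_mem _ hc
    convert this using 1
    simp only [TensorProduct.neg_tmul, neg_smul]; abel

/-- The index of `O_K ω` in the `φ`-eigenlattice of the de Rham cohomology over `O_K`. -/
def dRIndex (τ : M →+ M) (φ : E →ₐ[RatFunc k] K) (ω : M) : ℕ :=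
  (line k OE OK τ ω).relIndex (eigen OE OK τ φ)

/-- `u` is an element of the Betti homology of `M ⊗_{O_K, η} C`: an `η`-semilinear,
`t`-linear map to the Tate algebra which turns `τ` into the Frobenius twist. -/
structure IsCycle {C : Type*} [NormedField C] [Algebra K C] (τ : M →+ M)
    (η : K ≃ₐ[RatFunc k] K) (u : M →+ PowerSeries C) : Prop where
  tate : ∀ x, Filter.Tendsto (fun n => ‖PowerSeries.coeff n (u x)‖) Filter.atTop (nhds 0)
  smul_const : ∀ (c : OK) (x : M),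
    u ((c ⊗ₜ[k] (1 : OE) : OK ⊗[k] OE) • x) =
      PowerSeries.C (algebraMap K C (η (algebraMap OK K c))) * u x
  smul_t : ∀ x : M, u (((1 : OK) ⊗ₜ[k]
      algebraMap k[X] OE X : OK ⊗[k] OE) • x) = PowerSeries.X * u x
  twist : ∀ (x : M) (n : ℕ),
    PowerSeries.coeff n (u (τ x)) = PowerSeries.coeff n (u x) ^ Fintype.card k

/-- The embeddings that agree with `ψ` on the subfield `F`. -/
def cls (F : IntermediateField (RatFunc k) E) (ψ : E →ₐ[RatFunc k] K) :
    Set (E →ₐ[RatFunc k] K) := {φ | ∀ x ∈ F, φ x = ψ x}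

/-- `f ψ` minus the mean of `f` over the embeddings that agree with `ψ` on `F`. -/
def cen (F : IntermediateField (RatFunc k) E) (ψ : E →ₐ[RatFunc k] K)
    (f : (E →ₐ[RatFunc k] K) → ℝ) : ℝ :=
  f ψ - (∑ᶠ φ ∈ cls F ψ, f φ) / (cls F ψ).ncard

/-- The class function `a⁰`. -/
def a0 (d : (E →ₐ[RatFunc k] K) → ℕ) (ψ : E →ₐ[RatFunc k] K) (g : K ≃ₐ[RatFunc k] K) : ℝ :=
  (∑ᶠ η : K ≃ₐ[RatFunc k] K, (d ((η⁻¹ * g * η : K ≃ₐ[RatFunc k] K).toAlgHom.comp ψ) : ℝ)) /
    Nat.card (K ≃ₐ[RatFunc k] K)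

variable (k K) {OK} in
/-- The elements of the Galois group that act as `x ↦ x ^ (q ^ n)` modulo `P`. -/
def frobSet (P : Ideal OK) (n : ℕ) : Set (K ≃ₐ[RatFunc k] K) :=
  {g | ∀ x y : OK, algebraMap OK K y = g (algebraMap OK K x) →
    y - x ^ (Fintype.card k ^ n) ∈ P}

/-- The finite places of `k(t)`. -/
abbrev FinPl (k : Type*) [Field k] : Type _ := {π : k[X] // π.Monic ∧ Irreducible π}

variable {OK} in
/-- The term of index `(v, j)` in the logarithmic derivative `Z^∞(a, s)`: minus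
`log q_v * a(Frob_v ^ (j + 1)) * q_v ^ (-(j + 1) s)`, where the value of `a` is averaged over the
Frobenius coset at the chosen prime `P v` above `v`. -/
def zTerm (P : FinPl k → Ideal OK)
    (a : (K ≃ₐ[RatFunc k] K) → ℝ) (s : ℂ) (x : FinPl k × ℕ) : ℂ :=
  -((Real.log ((Fintype.card k : ℝ) ^ x.1.1.natDegree) *
      ((∑ᶠ g ∈ frobSet k K (P x.1) ((x.2 + 1) * x.1.1.natDegree), a g) /
        (frobSet k K (P x.1) ((x.2 + 1) * x.1.1.natDegree)).ncard) : ℝ) : ℂ) *
    ((Fintype.card k : ℂ) ^ x.1.1.natDegree) ^ (-((x.2 + 1 : ℕ) : ℂ) * s)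

/-- The height `ht(E, ψ, d)` computed from periods `p η φ` and de Rham indices `ind φ`;
`q / (q - 1) * log q` is the logarithm of the absolute value of the Carlitz period. -/
def height {C : Type*} [NormedField C] (F : IntermediateField (RatFunc k) E) (m : ℕ)
    (ψ : E →ₐ[RatFunc k] K) (p : (K ≃ₐ[RatFunc k] K) → (E →ₐ[RatFunc k] K) → C)
    (ind : (E →ₐ[RatFunc k] K) → ℕ) : ℝ :=
  ((∑ᶠ η : K ≃ₐ[RatFunc k] K,
      ((m : ℝ) / (cls F ψ).ncard *
          ((Fintype.card k : ℝ) / ((Fintype.card k : ℝ) - 1) * Real.log (Fintype.card k)) +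
        cen F ψ (fun φ => Real.log ‖p η φ‖))) -
      cen F ψ (fun φ => Real.log (ind φ))) / Nat.card (K ≃ₐ[RatFunc k] K)

end

end Pool.Agent.FFC
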