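import Pool.Agent.P.MP_a2beea_nt.FC.Defs
import Pool.Agent.P.MP_a2beea_nt.FC.Stmt

/-! Lattices of functions, cycles, and the bridge to the data of the statement. -/

open Polynomial
open scoped TensorProduct NNReal IntermediateField

namespace Pool.Agent.FFC

noncomputable section

open Classical

section Lat

variable {k : Type*} [Field k] {E : Type*} [Field E] [Algebra k E]
  {L : Type*} [Field L] [Algebra k L]

/-- `x` has constant coefficients and is regular along `O`. -/
def ConstT (O : ValuationSubring E) (x : L ⊗[k] E) : Prop :=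
  ∃ (n : ℕ) (b : Fin n → L) (a : Fin n → E), (∀ i, a i ∈ O) ∧ (∀ i, IsAlgebraic k (b i)) ∧
    x = ∑ i, b i ⊗ₜ[k] a i

/-- The Riemann-Roch count for the multiples of the polar divisor of `t`. -/
def RR0 (k : Type*) [Field k] {E : Type*} [Field E] [Algebra k E] (t : E) (g : ℕ) : Prop :=
  (∀ m, FiniteDimensional k (LL k t m)) ∧
    ∃ m0 : ℕ, ∀ m, m0 ≤ m → Module.finrank k (LL k t m) + g = m * dg k t + 1

/-- Bases of `O_E` and of its trace dual over `k[t]`. -/
structure DualB (k : Type*) [Field k] {E : Type*} [Field E] [Algebra k E] (t : E)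
    (L : Type*) [Field L] [Algebra k L] {n : ℕ} (e e' : Fin n → E) : Prop where
  mem : ∀ a, e a ∈ OO k t
  span : ∀ b ∈ OO k t, ∃ P : Fin n → k[X], b = ∑ a, aeval t (P a) * e a
  mul : ∀ b ∈ OO k t, ∃ Mx : Fin n → Fin n → k[X],
    (∀ a, b * e a = ∑ a', aeval t (Mx a' a) * e a') ∧
    (∀ a', b * e' a' = ∑ a, aeval t (Mx a' a) * e' a)
  one : ∃ T : Fin n → k[X], (1 : E) = ∑ a, aeval t (T a) * e a ∧
    ∀ c : L, Transcendental k c → ∀ a,
      ∑ᶠ y ∈ {y : E →ₐ[k] L | y t = c}, y (e' a) = aeval c (T a)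
  indep : LinearIndependent k fun x : Fin n × ℕ => t ^ x.2 * e' x.1

variable [IsDomain (L ⊗[k] E)]

variable (k) in
/-- The image of `A ⊗ O_E` in the function field. -/
def RA (A : Subring L) (t : E) : Subring (FL k E L) :=
  Subring.closure {x | ∃ c ∈ A, ∃ a ∈ OO k t, x = tm c a}

/-- `I` is an invertible fractional ideal of `RA k A t`. -/
structure Lat (A : Subring L) (t : E) (I : AddSubgroup (FL k E L)) : Prop where
  mul_mem : ∀ r ∈ RA k A t, ∀ x ∈ I, r * x ∈ I
  inv : ∃ (n : ℕ) (m m' : Fin n → FL k E L), (∀ i, m i ∈ I) ∧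
    (∀ i, ∀ x ∈ I, m' i * x ∈ RA k A t) ∧ ∑ i, m' i * m i = 1

/-- The divisor of a lattice; it lives on the finite points. -/
def dv (t : E) (I : AddSubgroup (FL k E L)) (z : Pt k E L) : ℤ :=
  if t ∈ z.O then ordS z (I : Set (FL k E L)) else 0

/-- The non-constant part of the divisor of a lattice. -/
def dvN (t : E) (I : AddSubgroup (FL k E L)) : (E →ₐ[k] L) →₀ ℤ :=
  if H : {y : E →ₐ[k] L | dv t I (Pt.ofHom y) ≠ 0}.Finite then
    Finsupp.ofSupportFinite (fun y => dv t I (Pt.ofHom y)) H else 0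

/-- The largest absolute value of the values of a lattice at a point. -/
def supL (w : GV k L) (y : Pt k E L) (I : AddSubgroup (FL k E L)) : ℝ≥0 :=
  sSup {r | ∃ x ∈ I, r = w.v (val y x)}

variable [Fintype k] [IsAlgClosed L]

/-- The lattice generated by `f σ(I)`. -/
def tauLat (A : Subring L) (t : E) (f : FL k E L) (I : AddSubgroup (FL k E L)) :
    AddSubgroup (FL k E L) :=
  AddSubgroup.closure {y | ∃ r ∈ RA k A t, ∃ x ∈ I, y = r * (f * mapF (fr k L) x)}

/-- A nonzero Betti cycle, transported to the lattice `I`. -/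
structure Cyc {C : Type*} [NormedField C] (j : L →+* C) (A : Subring L) (t : E) (f : FL k E L)
    (I : AddSubgroup (FL k E L)) (u : FL k E L → PowerSeries C) : Prop where
  add : ∀ x ∈ I, ∀ y ∈ I, u (x + y) = u x + u y
  tate : ∀ x ∈ I, Filter.Tendsto (fun n => ‖PowerSeries.coeff n (u x)‖) Filter.atTop (nhds 0)
  const : ∀ c ∈ A, ∀ x ∈ I, u (tm c 1 * x) = PowerSeries.C (j c) * u x
  tmul : ∀ x ∈ I, u (tm 1 t * x) = PowerSeries.X * u x
  twist : ∀ x ∈ I, ∀ n, PowerSeries.coeff n (u (f * mapF (fr k L) x)) =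
    PowerSeries.coeff n (u x) ^ Fintype.card k
  ne : ∃ x ∈ I, u x ≠ 0

/-- The data of a rank one shtuka in general position with respect to its legs. -/
structure Sht (A : Subring L) (t : E) (θ : L) (f : FL k E L) (I : AddSubgroup (FL k E L))
    (D : (E →ₐ[k] L) →₀ ℤ) : Prop where
  trans : Transcendental k θ
  mem : θ ∈ A
  alg_mem : ∀ c : k, algebraMap k L c ∈ A
  ne : f ≠ 0
  lat : Lat A t I
  le : tauLat A t f I ≤ I
  pow : ∃ n : ℕ, ∀ x ∈ I, (tm 1 t - tm θ 1) ^ n * x ∈ tauLat A t f I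
  leg : ∀ y ∈ D.support, y t = θ
  type : ∀ y : E →ₐ[k] L, dv t (tauLat A t f I) (Pt.ofHom y) = dv t I (Pt.ofHom y) + D y
  gen0 : ∀ φ : E →ₐ[k] L, φ t = θ → dv t (tauLat A t f I) (Pt.ofHom φ) = 0
  gen : ∀ φ : E →ₐ[k] L, φ t = θ → ∀ i : ℕ, 1 ≤ i →
    dv t I (Pt.ofHom (tw ((fr k L)⁻¹ ^ i) φ)) = 0

variable (k E L) in
/-- Frobenius on divisors. -/
def sg : Module.End ℤ ((E →ₐ[k] L) →₀ ℤ) := Finsupp.lmapDomain ℤ ℤ (tw (fr k L))

end Lat

section Glob

variable {k : Type*} [Field k] [Fintype k] {L : Type*} [Field L] [Algebra k L] {θ : L}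
  {E : Type*} [Field E] [Algebra k E]

/-- Admissible integrands for the sum over the finite places. -/
def AdmF (Φ : Pl k → GG k θ → ℝ) : Prop :=
  (∀ π, Loc (Φ (some π))) ∧ {π | Φ (some π) ≠ 0}.Finite

/-- The height pairing as a bilinear map. -/
def BBm (P : PD k θ) (t : E) : ((E →ₐ[k] L) →₀ ℤ) →ₗ[ℤ] ((E →ₐ[k] L) →₀ ℤ) →ₗ[ℤ] ℝ :=
  Finsupp.linearCombination ℤ fun a => Finsupp.linearCombination ℤ fun b => kp P t a b

theorem BBm_apply (P : PD k θ) (t : E) (x y : (E →ₐ[k] L) →₀ ℤ) :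
    BBm P t x y = BB P t x y := by
  simp only [BBm, BB, Finsupp.linearCombination_apply, Finsupp.sum, LinearMap.sum_apply,
    LinearMap.smul_apply, zsmul_eq_mul, Finset.mul_sum, mul_assoc]

end Glob

section Bridge

variable (k : Type*) [Field k]

/-- The coordinate `t`. -/
abbrev tE (E : Type*) [Field E] [Algebra k[X] E] : E := algebraMap k[X] E X

/-- The coordinate `θ` in `L`. -/
abbrev th (K L : Type*) [Field K] [Field L] [Algebra k[X] K] [Algebra K L] : L :=
  algebraMap K L (algebraMap k[X] K X)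

variable {k} {E K : Type*} [Field E] [Field K]
  [Algebra k E] [Algebra k[X] E] [Algebra (RatFunc k) E] [IsScalarTower k k[X] E]
  [IsScalarTower k[X] (RatFunc k) E]
  [Algebra k K] [Algebra k[X] K] [Algebra (RatFunc k) K] [IsScalarTower k k[X] K]
  [IsScalarTower k[X] (RatFunc k) K]
  (L : Type*) [Field L] [Algebra k L] [Algebra K L] [IsScalarTower k K L]

/-- An embedding of `E` in `K`, seen as a point with values in `L`. -/
def emb (φ : E →ₐ[RatFunc k] K) : E →ₐ[k] L where
  toRingHom := (algebraMap K L).comp φ.toRingHom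
  commutes' := fun c => by
    have h1 : algebraMap k E c = algebraMap (RatFunc k) E (algebraMap k[X] (RatFunc k) (C c)) := by
      rw [← IsScalarTower.algebraMap_apply, IsScalarTower.algebraMap_apply k k[X] E]; rfl
    have h2 : algebraMap k K c = algebraMap (RatFunc k) K (algebraMap k[X] (RatFunc k) (C c)) := by
      rw [← IsScalarTower.algebraMap_apply, IsScalarTower.algebraMap_apply k k[X] K]; rfl
    change algebraMap K L (φ (algebraMap k E c)) = _
    rw [h1, φ.commutes, ← h2, ← IsScalarTower.algebraMap_apply]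

theorem emb_apply (φ : E →ₐ[RatFunc k] K) (a : E) : emb L φ a = algebraMap K L (φ a) := rfl

/-- The image of `O_K` in `L`. -/
def AK (OK K L : Type*) [CommRing OK] [Field K] [Field L] [Algebra OK K] [Algebra K L] :
    Subring L := ((algebraMap K L).comp (algebraMap OK K)).range

variable {L}

/-- `res` is the restriction of automorphisms of `L` to `K`. -/
def IsRes (res : GG k (th k K L) →* (K ≃ₐ[RatFunc k] K)) : Prop :=
  Function.Surjective res ∧ ∀ η x, algebraMap K L (res η x) = η.1 (algebraMap K L x)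

variable (E K L) in
/-- `ρ` is the natural map from `O_K ⊗ O_E` to the function field over `L`. -/
def IsRho {OE OK : Type*} [CommRing OE] [CommRing OK] [Algebra k OE] [Algebra k OK]
    [Algebra OE E] [Algebra OK K] (ρ : OK ⊗[k] OE →+* FL k E L) : Prop :=
  ∀ (c : OK) (b : OE),
    ρ (c ⊗ₜ[k] b) = tm (algebraMap K L (algebraMap OK K c)) (algebraMap OE E b)

/-- The divisor of the legs. -/
def legs [Fintype (E →ₐ[RatFunc k] K)] (d : (E →ₐ[RatFunc k] K) → ℕ) : (E →ₐ[k] L) →₀ ℤ :=
  ∑ φ, Finsupp.single (emb L φ) (d φ : ℤ)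

end Bridge

end

end Pool.Agent.FFC
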