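import Pool.Agent.P.MP_a2beea_nt.RR.ZDefs

/-! The degree of a polar divisor and of a principal divisor, over an algebraically closed field
of constants. -/

open Polynomial
open scoped IntermediateField

namespace Pool.Agent.FFC.DegRR

open Pool.Agent.P.MP_a2beea_nt.RR

variable {k F : Type*} [Field k] [Field F] [Algebra k F] [IsFF k F]

theorem step (D : Divisor k F) (P : Place k F) [FiniteDimensional k (LL D)] :
    FiniteDimensional k (LL (D + Finsupp.single P 1)) ∧
      ell (D + Finsupp.single P 1) ≤ ell D + P.deg := by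
  classical
  obtain ⟨y, y0, y1⟩ := P.exists_ord (-(-(D P + 1)))
  have hy : y ∈ P.pw (-(-(D P + 1))) := P.mem_pw_of_le y1.ge
  have hle : LL (D + Finsupp.single P 1) ≤ P.pw (-(D P + 1)) := fun x hx => by
    simpa using mem_LL.1 hx P
  let f := (P.lead hy).comp (Submodule.inclusion hle)
  have hker : (LinearMap.ker f).map (LL (D + Finsupp.single P 1)).subtype ≤ LL D := by
    rintro _ ⟨x, hx, rfl⟩
    have h1 := (P.lead_eq_zero_iff hy y0 y1 _).1 hx
    refine mem_LL.2 fun Q => ?_
    by_cases hQ : P = Q
    · subst hQ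
      simpa using h1
    · simpa [Finsupp.single_apply, hQ] using mem_LL.1 x.2 Q
  have e := Submodule.equivMapOfInjective _ (LL (D + Finsupp.single P 1)).injective_subtype
    (LinearMap.ker f)
  have h1 := Submodule.finiteDimensional_of_le hker
  have h2 : FiniteDimensional k (LinearMap.ker f) := e.symm.finiteDimensional
  have h3 : FiniteDimensional k (LL (D + Finsupp.single P 1)) := by
    have h4 : FiniteDimensional k ((LL (D + Finsupp.single P 1)) ⧸ LinearMap.ker f) :=
      f.quotKerEquivRange.symm.finiteDimensional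
    exact Module.Finite.of_submodule_quotient (LinearMap.ker f)
  refine ⟨h3, ?_⟩
  have h5 := f.finrank_range_add_finrank_ker
  have h6 : Module.finrank k (LinearMap.range f) ≤ P.deg := Submodule.finrank_le _
  have h7 : Module.finrank k (LinearMap.ker f) ≤ ell D :=
    e.finrank_eq.trans_le (Submodule.finrank_mono hker)
  unfold ell at h7 ⊢
  omega

theorem mono_aux (n : ℕ) : ∀ D D' : Divisor k F, D ≤ D' → degD D' - degD D ≤ n →
    FiniteDimensional k (LL D) →
    FiniteDimensional k (LL D') ∧ (ell D' : ℤ) ≤ ell D + (degD D' - degD D) := by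
  classical
  induction n with
  | zero =>
    intro D D' h hn hf
    have : D' = D := by
      ext P
      have h1 := mul_deg_le (sub_nonneg.2 h) P
      have h2 : (0 : ℤ) < P.deg := by exact_mod_cast P.deg_pos
      have h3 : D P ≤ D' P := h P
      rw [map_sub, Finsupp.sub_apply] at h1
      push_cast at hn
      nlinarith
    subst this
    exact ⟨hf, by simp⟩
  | succ n ih =>
    intro D D' h hn hf
    by_cases he : D = D'
    · subst he
      exact ⟨hf, by simp⟩
    · obtain ⟨P, hP⟩ := Finsupp.ne_iff.1 he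
      have h3 : D P < D' P := lt_of_le_of_ne (h P) hP
      have h2 : (0 : ℤ) < P.deg := by exact_mod_cast P.deg_pos
      obtain ⟨h4, h5⟩ := step D P
      have h6 : degD (D + Finsupp.single P 1) = degD D + P.deg := by simp
      obtain ⟨h7, h8⟩ := ih (D + Finsupp.single P 1) D' (fun Q => by
        by_cases hQ : P = Q
        · subst hQ
          simpa using h3
        · simpa [Finsupp.single_apply, hQ] using h Q) (by rw [h6]; push_cast at hn; omega) h4
      refine ⟨h7, ?_⟩
      have h9 : (ell (D + Finsupp.single P 1) : ℤ) ≤ ell D + P.deg := by exact_mod_cast h5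
      omega

variable [IsAlgClosed k]

omit [IsFF k F] in
theorem consts (x : F) (hx : IsAlgebraic k x) : x ∈ (algebraMap k F).range :=
  minpoly.mem_range_of_degree_eq_one k x
    (IsAlgClosed.degree_eq_one_of_irreducible k (minpoly.irreducible hx.isIntegral))

theorem fin_LL (D : Divisor k F) : FiniteDimensional k (LL D) := by
  have h0 : FiniteDimensional k (LL (0 : Divisor k F)) := by
    rw [LL_zero consts]; infer_instance
  have h1 := (mono_aux _ 0 (D ⊔ 0) le_sup_right (Int.self_le_toNat _) h0).1
  exact Submodule.finiteDimensional_of_le (LL_mono (le_sup_left : D ≤ D ⊔ 0))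

theorem ell_mono {D D' : Divisor k F} (h : D ≤ D') :
    (ell D' : ℤ) ≤ ell D + (degD D' - degD D) :=
  (mono_aux _ D D' h (Int.self_le_toNat _) (fin_LL D)).2

omit [IsAlgClosed k] in
theorem mem_LL_poleD (x : F) : x ∈ LL (poleD k x) :=
  mem_LL.2 fun P => P.mem_pw_of_le (by rw [poleD_apply]; omega)

omit [IsAlgClosed k] in
theorem pow_mem_LL (x : F) (j : ℕ) : x ^ j ∈ LL (j • poleD k x) := by
  induction j with
  | zero => exact mem_LL.2 fun P => P.mem_pw_of_le (by simp)
  | succ j ih => rw [pow_succ, succ_nsmul]; exact mul_mem_LL ih (mem_LL_poleD x)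

variable {K0 : IntermediateField k F} {u : F}

theorem lower (h : Chart K0 u) : ∃ C : Divisor k F, 0 ≤ C ∧ ∀ l : ℕ,
    (l + 1) * Module.finrank K0 F ≤ ell (l • poleD k u + C) := by
  classical
  have := h.fin
  let b := Module.finBasis K0 F
  have hn : ∀ x : F, 0 ≤ poleD k x := fun x => poleD_nonneg x
  refine ⟨∑ i, poleD k (b i), Finset.sum_nonneg fun i _ => hn _, fun l => ?_⟩
  have h1 : LinearIndependent k fun j : Fin (l + 1) => (⟨u, h.self_mem⟩ : K0) ^ (j : ℕ) := by
    refine LinearIndependent.of_comp (K0.val.toLinearMap) ?_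
    rw [Fintype.linearIndependent_iff]
    intro g hg i
    have h2 : aeval u (∑ j : Fin (l + 1), monomial j (g j)) = aeval u (0 : k[X]) := by
      rw [map_zero, ← hg, map_sum]
      exact Finset.sum_congr rfl fun j _ => by rw [aeval_monomial, Algebra.smul_def]; rfl
    have h3 := congrArg (fun Q => Polynomial.coeff Q i) (h.aeval_injective h2)
    simpa [finsetSum_coeff, coeff_monomial, Fin.val_inj] using h3
  have h4 := linearIndependent_smul h1 b.linearIndependent
  have h5 : ∀ x : Fin (l + 1) × Fin (Module.finrank K0 F),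
      (⟨u, h.self_mem⟩ : K0) ^ (x.1 : ℕ) • b x.2 ∈ LL (l • poleD k u + ∑ i, poleD k (b i)) := by
    intro x
    refine LL_mono (add_le_add (nsmul_le_nsmul_left (hn u) (Nat.lt_succ_iff.1 x.1.2))
      (Finset.single_le_sum (fun i _ => hn (b i)) (Finset.mem_univ x.2))) ?_
    exact mul_mem_LL (pow_mem_LL u x.1) (mem_LL_poleD _)
  have := fin_LL (l • poleD k u + ∑ i, poleD k (b i))
  have h6 : LinearIndependent k fun x => (⟨_, h5 x⟩ : LL (l • poleD k u + ∑ i, poleD k (b i))) :=
    LinearIndependent.of_comp (Submodule.subtype _) h4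
  simpa [ell] using h6.fintype_card_le_finrank

theorem finrank_le (h : Chart K0 u) : (Module.finrank K0 F : ℤ) ≤ degD (poleD k u) := by
  obtain ⟨C, hC, hl⟩ := lower h
  by_contra hc
  have hn : 0 ≤ poleD k u := fun P => poleD_nonneg u P
  have h1 : ∀ l : ℕ, ((l : ℤ) + 1) * Module.finrank K0 F ≤
      ell (0 : Divisor k F) + (l * degD (poleD k u) + degD C) := fun l => by
    have h2 := ell_mono (add_nonneg (nsmul_nonneg hn l) hC)
    rw [map_add, map_nsmul, map_zero, sub_zero, nsmul_eq_mul] at h2
    exact le_trans (by exact_mod_cast hl l) h2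
  have h3 := h1 ((ell (0 : Divisor k F) + degD C).toNat + 1)
  have h4 := Int.self_le_toNat (ell (0 : Divisor k F) + degD C)
  push_cast at h3
  nlinarith [Int.natCast_nonneg (ell (0 : Divisor k F) + degD C).toNat,
    Int.natCast_nonneg (Module.finrank K0 F)]

omit [IsAlgClosed k] in
open scoped IntermediateField.algebraAdjoinAdjoin in
theorem card_le (h : Chart K0 u) :
    ∑ P ∈ (poleD k u).support, poleD k u P ≤ Module.finrank K0 F := by
  classical
  have hw := h.inv
  set B := poleD k u with hB
  have hs : ∀ P : B.support, u ∉ P.1.O := fun P hP =>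
    Finsupp.mem_support_iff.1 P.2 (poleD_of_mem hP)
  have hs' : ∀ P : B.support, u⁻¹ ∈ P.1.O := fun P => (P.1.O.mem_or_inv_mem u).resolve_left (hs P)
  choose z hz hz0 hz1 using fun i : (Σ P : B.support, Fin (B P).toNat) =>
    hw.exists_ord_eq (Finsupp.single i.1.1 ((i.2 : ℤ) + 1)) (hs' i.1)
  simp only [Finsupp.single_eq_same] at hz1
  have hz2 : ∀ i (P : B.support), i.1 ≠ P → z i ∈ P.1.pw 0 := fun i P hP => by
    simpa [Finsupp.single_eq_of_ne (fun e => hP (Subtype.ext e).symm)] using
      mem_Iu.1 (hz i) P (hs' P)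
  have A : ∀ c : (Σ P : B.support, Fin (B P).toNat) → k,
      (∀ P : B.support, ∑ i, c i • z i ∈ P.1.pw 0) → ∀ i, c i = 0 := by
    intro c hc
    by_contra hne
    push Not at hne
    obtain ⟨i0, h0, hmax⟩ := Finset.exists_max_image (Finset.univ.filter fun i => c i ≠ 0)
      (fun i => (i.2 : ℕ)) (by simpa [Finset.Nonempty] using hne)
    have c0 : c i0 ≠ 0 := (Finset.mem_filter.1 h0).2
    have hle : -((i0.2 : ℕ) : ℤ) ≤ 0 := by omega
    have h1 : ∑ i ∈ Finset.univ.erase i0, c i • z i ∈ i0.1.1.pw (-(i0.2 : ℤ)) := by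
      refine Submodule.sum_mem _ fun i hi => ?_
      by_cases ci : c i = 0
      · simp [ci]
      refine Submodule.smul_mem _ _ ?_
      by_cases hP : i.1 = i0.1
      · have h2 := hmax i (by simp [ci])
        have h3 : (i.2 : ℕ) ≠ i0.2 := fun e => Finset.ne_of_mem_erase hi (by
          obtain ⟨P, j⟩ := i
          obtain ⟨P0, j0⟩ := i0
          obtain rfl : P = P0 := hP
          obtain rfl : j = j0 := Fin.ext e
          rfl)
        refine Place.mem_pw_of_le _ ?_
        have h4 := hz1 i
        have h5 : i.1.1.ord (z i) = i0.1.1.ord (z i) := congrArg (fun P => P.1.ord (z i)) hP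
        omega
      · exact Place.pw_mono _ hle (hz2 i _ hP)
    have h4 := sub_mem (Place.pw_mono _ hle (hc i0.1)) h1
    rw [← Finset.add_sum_erase _ _ (Finset.mem_univ i0), add_sub_cancel_right] at h4
    have h5 := Place.le_of_mem_pw _ h4 (smul_ne_zero c0 (hz0 i0))
    rw [Place.ord_smul _ c0, hz1] at h5
    omega
  have hwz : ∀ i (P : B.support), u⁻¹ * z i ∈ P.1.pw 0 := fun i P => by
    by_cases hP : i.1 = P
    · subst hP
      refine Place.mem_pw_of_le _ ?_
      rw [Place.ord_mul _ hw.ne_zero (hz0 i), hz1, Place.ord_inv, ← (poleD_of_notMem (hs i.1)).1]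
      have := i.2.2
      rw [← hB]
      omega
    · exact P.1.mul_mem_pw_of_mem (hs' P) (hz2 i P hP)
  have B0 : ∀ p : (Σ P : B.support, Fin (B P).toNat) → k[X], ∑ i, aeval u⁻¹ (p i) * z i =
      u⁻¹ * ∑ i, aeval u⁻¹ (p i).divX * z i + ∑ i, (p i).coeff 0 • z i := fun p => by
    rw [Finset.mul_sum, ← Finset.sum_add_distrib]
    refine Finset.sum_congr rfl fun i _ => ?_
    conv_lhs => rw [← X_mul_divX_add (p i)]
    rw [map_add, map_mul, aeval_X, aeval_C, Algebra.smul_def]
    ring
  have B1 : ∀ p : (Σ P : B.support, Fin (B P).toNat) → k[X], ∑ i, aeval u⁻¹ (p i) * z i = 0 →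
      ∀ i, (p i).coeff 0 = 0 := fun p hp => A _ fun P => by
    rw [B0] at hp
    rw [← neg_eq_of_add_eq_zero_right hp, Finset.mul_sum]
    refine neg_mem (Submodule.sum_mem _ fun i _ => ?_)
    rw [mul_left_comm]
    exact P.1.mul_mem_pw_of_mem (P.1.aeval_mem (hs' P) _) (hwz i P)
  have B2 : ∀ (N : ℕ) (p : (Σ P : B.support, Fin (B P).toNat) → k[X]),
      ∑ i, aeval u⁻¹ (p i) * z i = 0 → ∀ i, (p i).coeff N = 0 := by
    intro N
    induction N with
    | zero => exact B1
    | succ N ih =>
      intro p hp i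
      have h1 := B1 p hp
      rw [B0] at hp
      simp only [h1, zero_smul, Finset.sum_const_zero, add_zero] at hp
      rw [← coeff_divX]
      exact ih _ ((mul_eq_zero.1 hp).resolve_left hw.ne_zero) i
  obtain ⟨-, rfl, hf, -⟩ := hw
  have hli : LinearIndependent k⟮u⁻¹⟯ z := by
    rw [← LinearIndependent.iff_fractionRing (Algebra.adjoin k {u⁻¹}) k⟮u⁻¹⟯,
      Fintype.linearIndependent_iff]
    intro g hg i
    choose p hp using fun i => mem_adjoin_iff.1 (g i).2
    have h1 : p i = 0 := Polynomial.ext fun N => B2 N p (by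
      rw [← hg]
      exact Finset.sum_congr rfl fun i _ => by rw [hp]; rfl) i
    apply Subtype.ext
    rw [← hp, h1, map_zero]
    rfl
  have h2 := hli.fintype_card_le_finrank
  rw [Fintype.card_sigma] at h2
  simp only [Fintype.card_fin] at h2
  rw [Finset.sum_coe_sort B.support (fun P => (B P).toNat)] at h2
  refine le_trans (Finset.sum_le_sum fun P _ => Int.self_le_toNat (B P)) ?_
  exact_mod_cast h2

theorem deg_eq_one (P : Place k F) : P.deg = 1 := by
  have e := LinearEquiv.ofBijective (Algebra.linearMap k (IsLocalRing.ResidueField P.O))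
    IsAlgClosed.algebraMap_bijective_of_isIntegral
  rw [Place.deg, ← e.finrank_eq, Module.finrank_self]

theorem degD_poleD (h : Chart K0 u) : degD (poleD k u) = Module.finrank K0 F := by
  refine le_antisymm ?_ (finrank_le h)
  rw [degD_apply]
  simpa [deg_eq_one, Finsupp.sum] using card_le h

omit [IsFF k F] [IsAlgClosed k] in
theorem chart_sub (h : Chart K0 u) (c : k) : Chart K0 (u - algebraMap k F c) where
  trans := fun h' => h.trans (by simpa using h'.add (isAlgebraic_algebraMap c))
  adj := by
    rw [← h.adj]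
    apply le_antisymm
    · exact IntermediateField.adjoin_simple_le_iff.2
        (sub_mem (IntermediateField.mem_adjoin_simple_self k u) (IntermediateField.algebraMap_mem _ c))
    · refine IntermediateField.adjoin_simple_le_iff.2 ?_
      simpa using add_mem (IntermediateField.mem_adjoin_simple_self k (u - algebraMap k F c))
        (IntermediateField.algebraMap_mem _ c)
  fin := h.fin
  sep := h.sep

theorem degD_chart (h : Chart K0 u) : degD (divF k u) = 0 := by
  have h1 := congrArg degD (poleD_inv (k := k) u)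
  rw [map_add, degD_poleD h, degD_poleD h.inv] at h1
  omega

theorem degD_aeval (h : Chart K0 u) (n : ℕ) :
    ∀ p : k[X], p ≠ 0 → p.natDegree = n → degD (divF k (aeval u p)) = 0 := by
  induction n with
  | zero =>
    intro p _ hp
    rw [eq_C_of_natDegree_eq_zero hp, aeval_C]
    have : divF k (algebraMap k F (p.coeff 0)) = 0 := by ext P; simp
    rw [this, map_zero]
  | succ n ih =>
    intro p h0 hp
    obtain ⟨r, hr⟩ := IsAlgClosed.exists_root p (by
      rw [degree_eq_natDegree h0, hp]; exact_mod_cast Nat.succ_ne_zero n)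
    obtain ⟨q, rfl⟩ := dvd_iff_isRoot.2 hr
    have hq : q ≠ 0 := right_ne_zero_of_mul h0
    rw [natDegree_mul (X_sub_C_ne_zero r) hq, natDegree_X_sub_C] at hp
    rw [map_mul, divF_mul (h.aeval_ne_zero (X_sub_C_ne_zero r)) (h.aeval_ne_zero hq), map_add,
      ih q hq (by omega), map_sub, aeval_X, aeval_C, degD_chart (chart_sub h r), add_zero]

theorem bounded : ∃ M : ℤ, ∀ D : Divisor k F, degD D - ell D ≤ M := by
  obtain ⟨K0, u, h⟩ := IsFF.ex (k := k) (F := F)
  obtain ⟨C, hC, hl⟩ := lower h
  refine ⟨degD C, fun D => ?_⟩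
  obtain ⟨p, hp, hp'⟩ := exists_aeval_mul_mem u (-D) 1
  have z0 := h.aeval_ne_zero hp
  set D' := D + divF k (aeval u p)⁻¹ with hD'
  have h1 : ell D' = ell D := ell_add_divF D (inv_ne_zero z0)
  have h2 : degD D' = degD D := by
    rw [hD', map_add, divF_inv, map_neg, degD_aeval h _ p hp rfl, neg_zero, add_zero]
  obtain ⟨l, hl'⟩ : ∃ l : ℕ, ∀ P, D' P ≤ l := by
    refine ⟨D'.support.sup fun P => (D' P).toNat, fun P => ?_⟩
    by_cases hP : P ∈ D'.support
    · exact (Int.self_le_toNat _).trans
        (by exact_mod_cast Finset.le_sup (f := fun P => (D' P).toNat) hP)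
    · rw [Finsupp.notMem_support_iff.1 hP]; positivity
  have h3 : D' ≤ l • poleD k u + C := fun P => by
    have h4 : 0 ≤ C P := hC P
    rw [Finsupp.add_apply (l • poleD k u), Finsupp.smul_apply, nsmul_eq_mul]
    by_cases hP : u ∈ P.O
    · have h5 := P.le_of_mem_pw (mem_Iu.1 hp' P hP) (by rwa [mul_one])
      rw [mul_one, Finsupp.neg_apply, neg_neg] at h5
      rw [poleD_of_mem hP, hD', Finsupp.add_apply, divF_apply, Place.ord_inv]
      omega
    · have h5 := (poleD_of_notMem hP).2
      nlinarith [hl' P, Int.natCast_nonneg l]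
  have h6 := ell_mono h3
  have h7 : ((l : ℤ) + 1) * Module.finrank K0 F ≤ ell (l • poleD k u + C) := by
    exact_mod_cast hl l
  rw [map_add, map_nsmul, degD_poleD h, nsmul_eq_mul, h1, h2] at h6
  nlinarith [Int.natCast_nonneg (Module.finrank K0 F)]

theorem degD_divF {x : F} (hx : x ≠ 0) : degD (divF k x) = 0 := by
  obtain ⟨M, hM⟩ := bounded (k := k) (F := F)
  have h1 : ∀ m : ℤ, m * degD (divF k x) ≤ M + ell (0 : Divisor k F) := fun m => by
    have h2 := hM (0 + divF k (x ^ m))
    rw [ell_add_divF _ (zpow_ne_zero m hx), zero_add, divF_zpow, map_zsmul, smul_eq_mul] at h2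
    omega
  by_contra hc
  have h3 := h1 ((|M + ell (0 : Divisor k F)| + 1) * degD (divF k x))
  have h4 : 1 ≤ degD (divF k x) * degD (divF k x) := mul_self_pos.2 hc
  nlinarith [le_abs_self (M + ell (0 : Divisor k F)), abs_nonneg (M + ell (0 : Divisor k F))]

end Pool.Agent.FFC.DegRR
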