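import Pool.Agent.P.MP_a2beea_nt.FC.DegBr
import Pool.Agent.P.MP_a2beea_nt.FC.DegRR

/-! The degree formula, through the bijection of the points with the places of the function
field over `L`. -/

open Polynomial
open scoped TensorProduct NNReal IntermediateField

namespace Pool.Agent.FFC

open Classical Pool.Agent.P.MP_a2beea_nt

variable {k : Type*} [Field k] [Fintype k] {E : Type*} [Field E] [Algebra k E] {t : E}
  {L : Type*} [Field L] [Algebra k L] [IsAlgClosed L]
  [IsDomain (L ⊗[k] E)]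
  [Nonempty (GV k L)]

theorem ord_finite (h : FF k t) (f : FL k E L) : {p : Pt k E L | ord p f ≠ 0}.Finite := by
  have := (Dg.chart_FL (L := L) h).1.isFF
  refine (Set.Finite.preimage (Dg.toPlace_injective h).injOn (RR.finite_ord (k := L) f)).subset
    fun p hp => ?_
  change (Dg.toPlace h p).ord f ≠ 0
  rwa [Dg.ord_toPlace]

theorem deg_zero (h : FF k t) (f : FL k E L) : ∑ᶠ p : Pt k E L, ord p f = 0 := by
  have := (Dg.chart_FL (L := L) h).1.isFF
  by_cases hf : f = 0
  · simp [hf, ord_zero]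
  · rw [← DegRR.degD_divF (k := L) hf, ← Dg.finsum_toPlace h]
    exact finsum_congr fun p => by rw [RR.divF_apply, Dg.ord_toPlace]

theorem deg_pole (h : FF k t) :
    ∑ᶠ p ∈ {p : Pt k E L | t ∉ p.O}, ord p (tm (1 : L) t) = -(dg k t : ℤ) := by
  obtain ⟨h1, h2⟩ := Dg.chart_FL (L := L) h
  have := h1.isFF
  rw [← h2, ← DegRR.degD_poleD h1, ← map_neg, ← Dg.finsum_toPlace h]
  refine finsum_congr fun p => ?_
  rw [Finsupp.neg_apply]
  by_cases hp : t ∈ p.O
  · rw [RR.poleD_of_mem ((Dg.mem_toPlace h).2 ((Dg.iota_hasVal_iff p t).2 hp))]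
    simp [hp]
  · rw [(RR.poleD_of_notMem fun hc => hp ((Dg.iota_hasVal_iff p t).1 ((Dg.mem_toPlace h).1 hc))).1,
      neg_neg, Dg.ord_toPlace]
    simp [hp, Dg.iota_apply]

end Pool.Agent.FFC
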