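import Pool.Agent.P.MP_a2beea_nt.FC.Defs2
import Pool.Agent.P.MP_a2beea_nt.RR.Div

/-! The function field over `L` is finite separable over `L(t)`, of the same degree. -/

open Polynomial
open scoped TensorProduct NNReal IntermediateField

namespace Pool.Agent.FFC.Dg

open Pool.Agent.P.MP_a2beea_nt

section Abs

variable {k E L F : Type*} [Field k] [Field E] [Field L] [Field F] [Algebra k E] [Algebra k L]
  [Algebra L F] [Algebra k F] [IsScalarTower k L F]

theorem map_mem_adjoin (ι : E →ₐ[k] F) (t : E) (a : k⟮t⟯) : ι a ∈ L⟮ι t⟯ := by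
  have h : k⟮t⟯ ≤ (L⟮ι t⟯.restrictScalars k).comap ι :=
    IntermediateField.adjoin_simple_le_iff.2 (IntermediateField.mem_adjoin_simple_self L (ι t))
  exact h a.2

variable (L) in
/-- The map `k(t) → L(t)`. -/
noncomputable def adjMap (ι : E →ₐ[k] F) (t : E) : k⟮t⟯ →+* L⟮ι t⟯ :=
  (ι.toRingHom.comp (algebraMap k⟮t⟯ E)).codRestrict L⟮ι t⟯ (map_mem_adjoin ι t)

theorem map_aeval_adj (ι : E →ₐ[k] F) (t a : E) (P : (k⟮t⟯)[X]) :
    ι (aeval a P) = aeval (ι a) (P.map (adjMap L ι t)) :=
  Polynomial.map_aeval_eq_aeval_map (φ := adjMap L ι t) (ψ := ι.toRingHom) rfl P a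

omit [Algebra k L] [IsScalarTower k L F] in
theorem key_indep (ι : E →ₐ[k] F) {t : E} (ht : Transcendental k t) {n : ℕ} {e : Fin n → E}
    (he : LinearIndependent k⟮t⟯ e)
    (hind : ∀ v : ℕ × Fin n → E, LinearIndependent k v → LinearIndependent L fun i => ι (v i))
    (P : Fin n → L[X]) (hP : ∑ i, aeval (ι t) (P i) * ι (e i) = 0) (i : Fin n) : P i = 0 := by
  classical
  have h1 : LinearIndependent k fun j : ℕ => t ^ j := by
    rw [linearIndependent_iff]
    intro l hl
    have h2 : aeval t (l.sum fun j c => monomial j c) = 0 := by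
      rw [← hl, Finsupp.linearCombination_apply, Finsupp.sum, Finsupp.sum, map_sum]
      exact Finset.sum_congr rfl fun j _ => by rw [aeval_monomial, Algebra.smul_def]
    have h3 := transcendental_iff.1 ht _ h2
    ext j
    have h4 := congrArg (fun Q => Polynomial.coeff Q j) h3
    simp only [Finsupp.sum, finsetSum_coeff, coeff_monomial, coeff_zero] at h4
    rw [Finset.sum_ite_eq'] at h4
    by_cases hj : j ∈ l.support
    · simpa [hj] using h4
    · simpa using hj
  have h5 : LinearIndependent k fun j : ℕ => (IntermediateField.AdjoinSimple.gen k t) ^ j := by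
    refine LinearIndependent.of_comp (k⟮t⟯.val.toLinearMap) ?_
    exact h1
  have h6 := hind _ (linearIndependent_smul h5 he)
  obtain ⟨N, hN⟩ : ∃ N, ∀ i, (P i).natDegree < N :=
    ⟨(Finset.univ.sup fun i => (P i).natDegree) + 1, fun i =>
      Nat.lt_succ_of_le (Finset.le_sup (f := fun i => (P i).natDegree) (Finset.mem_univ i))⟩
  have h7 := linearIndependent_iff'.1 h6 (Finset.range N ×ˢ Finset.univ)
    (fun x => (P x.2).coeff x.1) (by
      rw [← hP, Finset.sum_product_right]
      refine Finset.sum_congr rfl fun i _ => ?_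
      rw [aeval_eq_sum_range' (hN i), Finset.sum_mul]
      refine Finset.sum_congr rfl fun j _ => ?_
      rw [smul_mul_assoc, Algebra.smul_def (_ ^ j) (e i), map_mul, map_pow, map_pow]
      rfl)
  ext j
  by_cases hj : j < N
  · exact h7 (j, i) (by simp [hj])
  · exact coeff_eq_zero_of_natDegree_lt (lt_of_lt_of_le (hN i) (not_lt.1 hj))

open scoped IntermediateField.algebraAdjoinAdjoin in
theorem chart_abs (ι : E →ₐ[k] F) {t : E} (h : FF k t)
    (hind : ∀ v : ℕ × Fin (dg k t) → E,
      LinearIndependent k v → LinearIndependent L fun i => ι (v i))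
    (hgen : ∀ S : IntermediateField L F, (∀ a, ι a ∈ S) → S = ⊤) :
    RR.Chart L⟮ι t⟯ (ι t) ∧ Module.finrank L⟮ι t⟯ F = dg k t := by
  have := h.fin
  have := h.sep
  obtain ⟨α, hα⟩ := Field.exists_primitive_element k⟮t⟯ E
  have hαi : IsIntegral k⟮t⟯ α := Algebra.IsIntegral.isIntegral α
  have hq0 : aeval (ι α) ((minpoly k⟮t⟯ α).map (adjMap L ι t)) = 0 := by
    rw [← map_aeval_adj, minpoly.aeval, map_zero]
  have hqm : ((minpoly k⟮t⟯ α).map (adjMap L ι t)).Monic := (minpoly.monic hαi).map _
  have hβi : IsIntegral L⟮ι t⟯ (ι α) := ⟨_, hqm, hq0⟩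
  have hβs : IsSeparable L⟮ι t⟯ (ι α) :=
    (Polynomial.Separable.map (f := adjMap L ι t)
      (Algebra.IsSeparable.isSeparable k⟮t⟯ α)).of_dvd (minpoly.dvd _ _ hq0)
  have htop : L⟮ι t⟯⟮ι α⟯ = ⊤ := by
    have h1 := hgen (L⟮ι t⟯⟮ι α⟯.restrictScalars L) fun a => by
      have ha : a ∈ k⟮t⟯⟮α⟯ := hα ▸ IntermediateField.mem_top
      rw [← IntermediateField.mem_toSubalgebra,
        IntermediateField.adjoin_simple_toSubalgebra_of_isAlgebraic hαi.isAlgebraic,
        Algebra.adjoin_singleton_eq_range_aeval] at ha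
      obtain ⟨P, rfl⟩ := ha
      change ι (aeval α P) ∈ L⟮ι t⟯⟮ι α⟯
      rw [map_aeval_adj (L := L)]
      exact IntermediateField.algebra_adjoin_le_adjoin _ _ (aeval_mem_adjoin_singleton _ _)
    exact IntermediateField.restrictScalars_eq_top_iff.1 h1
  have e : L⟮ι t⟯⟮ι α⟯ ≃ₐ[L⟮ι t⟯] F :=
    (IntermediateField.equivOfEq htop).trans IntermediateField.topEquiv
  have hf1 := IntermediateField.adjoin.finiteDimensional hβi
  have hs1 := (IntermediateField.isSeparable_adjoin_simple_iff_isSeparable _ _).2 hβs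
  have hf : FiniteDimensional L⟮ι t⟯ F := e.toLinearEquiv.finiteDimensional
  have hs : Algebra.IsSeparable L⟮ι t⟯ F := Algebra.IsSeparable.of_algHom _ _ e.symm.toAlgHom
  let b := Module.finBasis k⟮t⟯ E
  have key := key_indep ι h.trans b.linearIndependent hind
  have hpos : 0 < Module.finrank k⟮t⟯ E := Module.finrank_pos
  refine ⟨⟨?_, rfl, hf, hs⟩, le_antisymm ?_ ?_⟩
  · exact transcendental_iff.2 fun P hP => key (fun _ => P) (by simp [hP]) ⟨0, hpos⟩
  · rw [← e.toLinearEquiv.finrank_eq, IntermediateField.adjoin.finrank hβi, dg,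
      ← IntermediateField.finrank_top', ← hα, IntermediateField.adjoin.finrank hαi,
      ← (minpoly.monic hαi).natDegree_map (adjMap L ι t)]
    exact natDegree_le_of_dvd (minpoly.dvd _ _ hq0) hqm.ne_zero
  · have hli : LinearIndependent L⟮ι t⟯ fun i => ι (b i) := by
      rw [← LinearIndependent.iff_fractionRing (Algebra.adjoin L {ι t}) L⟮ι t⟯,
        Fintype.linearIndependent_iff]
      intro g hg i
      choose P hP using fun i => RR.mem_adjoin_iff.1 (g i).2
      have h1 := key P (by
        rw [← hg]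
        exact Finset.sum_congr rfl fun i _ => by rw [hP]; rfl) i
      apply Subtype.ext
      rw [← hP, h1, map_zero]
      rfl
    simpa [dg] using hli.fintype_card_le_finrank

end Abs

section Conc

variable {k : Type*} [Field k] {E : Type*} [Field E] [Algebra k E] {t : E}
  {L : Type*} [Field L] [Algebra k L] [IsDomain (L ⊗[k] E)]

variable (k E L) in
/-- The embedding of `E` in the function field over `L`. -/
noncomputable def iota : E →ₐ[k] FL k E L :=
  (IsScalarTower.toAlgHom k (L ⊗[k] E) (FL k E L)).comp Algebra.TensorProduct.includeRight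

omit [IsDomain (L ⊗[k] E)] in
theorem iota_apply (a : E) : iota k E L a = tm 1 a := rfl

omit [IsDomain (L ⊗[k] E)] in
theorem algebraMap_FL (c : L) : algebraMap L (FL k E L) c = tm c 1 := rfl

omit [IsDomain (L ⊗[k] E)] in
theorem tm_eq (c : L) (a : E) :
    (tm c a : FL k E L) = algebraMap L (FL k E L) c * iota k E L a := by
  rw [iota_apply, algebraMap_FL, tm, tm, tm, ← map_mul, Algebra.TensorProduct.tmul_mul_tmul,
    mul_one, one_mul]

theorem chart_FL (h : FF k t) :
    RR.Chart L⟮iota k E L t⟯ (iota k E L t) ∧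
      Module.finrank L⟮iota k E L t⟯ (FL k E L) = dg k t := by
  refine chart_abs _ h (fun v hv => ?_) fun S hS => ?_
  · exact (Module.Flat.linearIndependent_one_tmul (S := L) hv).map'
      (IsScalarTower.toAlgHom L (L ⊗[k] E) (FL k E L)).toLinearMap
      (LinearMap.ker_eq_bot.2 (IsFractionRing.injective (L ⊗[k] E) (FL k E L)))
  · have h1 : ∀ x : L ⊗[k] E, algebraMap (L ⊗[k] E) (FL k E L) x ∈ S := by
      intro x
      induction x using TensorProduct.induction_on with
      | zero => rw [map_zero]; exact zero_mem _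
      | tmul c a =>
        change tm c a ∈ S
        rw [tm_eq]
        exact mul_mem (S.algebraMap_mem c) (hS a)
      | add x y hx hy => rw [map_add]; exact add_mem hx hy
    rw [eq_top_iff]
    intro f _
    obtain ⟨x, y, -, rfl⟩ := IsFractionRing.div_surjective (A := L ⊗[k] E) f
    exact div_mem (h1 x) (h1 y)

end Conc

end Pool.Agent.FFC.Dg
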