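import Pool.Agent.P.MP_a2beea_nt.FC.Ord
import Pool.Agent.P.MP_a2beea_nt.FC.DegAux

/-! The points with values in `L` are the places of the function field over `L`. -/

open Polynomial
open scoped TensorProduct NNReal IntermediateField

namespace Pool.Agent.FFC.Dg

open Classical Pool.Agent.P.MP_a2beea_nt

section Res

variable {L F : Type*} [Field L] [IsAlgClosed L] [Field F] [Algebra L F] [RR.IsFF L F]

theorem res_bijective (P : RR.Place L F) :
    Function.Bijective (algebraMap L (IsLocalRing.ResidueField P.O)) :=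
  IsAlgClosed.algebraMap_bijective_of_isIntegral

theorem deg_eq_one (P : RR.Place L F) : P.deg = 1 := by
  have e := LinearEquiv.ofBijective (Algebra.linearMap L (IsLocalRing.ResidueField P.O))
    (res_bijective P)
  rw [RR.Place.deg, ← e.finrank_eq, Module.finrank_self]

theorem exists_const (P : RR.Place L F) {x : F} (hx : x ∈ P.O) :
    ∃ c : L, x - algebraMap L F c ∈ P.pw 1 := by
  obtain ⟨c, hc⟩ := (res_bijective P).2 (IsLocalRing.residue P.O ⟨x, hx⟩)
  refine ⟨c, ?_⟩
  have h1 : IsLocalRing.residue P.O (⟨x, hx⟩ - algebraMap L P.O c) = 0 := by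
    rw [map_sub, ← hc, sub_eq_zero]
    rfl
  rw [IsLocalRing.residue_eq_zero_iff, ← ValuationSubring.coe_mem_nonunits_iff] at h1
  exact P.mem_pw_one.2 h1

omit [IsAlgClosed L] in
theorem const_unique (P : RR.Place L F) {x : F} {c c' : L} (h : x - algebraMap L F c ∈ P.pw 1)
    (h' : x - algebraMap L F c' ∈ P.pw 1) : c = c' := by
  have h1 := sub_mem h h'
  rw [sub_sub_sub_cancel_left, ← map_sub, P.mem_pw, P.ord_algebraMap] at h1
  rcases h1 with h1 | h1
  · exact (sub_eq_zero.1 ((map_eq_zero _).1 h1)).symm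
  · omega

/-- The value of a function at a place. -/
noncomputable def pval (P : RR.Place L F) (x : F) : L :=
  if hx : x ∈ P.O then (exists_const P hx).choose else 0

theorem pval_spec (P : RR.Place L F) {x : F} (hx : x ∈ P.O) :
    x - algebraMap L F (pval P x) ∈ P.pw 1 := by
  rw [pval, dif_pos hx]
  exact (exists_const P hx).choose_spec

theorem pval_const (P : RR.Place L F) (c : L) : pval P (algebraMap L F c) = c :=
  const_unique P (pval_spec P (P.const_mem c)) (by simp)

theorem pval_add (P : RR.Place L F) {x y : F} (hx : x ∈ P.O) (hy : y ∈ P.O) :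
    pval P (x + y) = pval P x + pval P y := by
  refine const_unique P (pval_spec P (add_mem hx hy)) ?_
  have h := add_mem (pval_spec P hx) (pval_spec P hy)
  rwa [sub_add_sub_comm, ← map_add] at h

theorem pval_mul (P : RR.Place L F) {x y : F} (hx : x ∈ P.O) (hy : y ∈ P.O) :
    pval P (x * y) = pval P x * pval P y := by
  refine const_unique P (pval_spec P (mul_mem hx hy)) ?_
  have h := add_mem (P.mul_mem_pw_of_mem hx (pval_spec P hy))
    (P.mul_mem_pw_of_mem (P.const_mem (pval P y)) (pval_spec P hx))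
  have e : x * y - algebraMap L F (pval P x * pval P y) =
      x * (y - algebraMap L F (pval P y)) +
        algebraMap L F (pval P y) * (x - algebraMap L F (pval P x)) := by
    rw [map_mul]; ring
  rwa [e]

theorem pval_eq_zero (P : RR.Place L F) {x : F} (hx : x ∈ P.O) (h : x⁻¹ ∉ P.O) :
    pval P x = 0 := by
  refine const_unique P (pval_spec P hx) ?_
  rw [map_zero, sub_zero]
  rw [P.notMem_iff, P.ord_inv] at h
  exact P.mem_pw_of_le (by omega)

theorem inv_mem_of_pval (P : RR.Place L F) {x : F} (hx : x ∈ P.O) (h : pval P x ≠ 0) :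
    x ≠ 0 ∧ x⁻¹ ∈ P.O := by
  refine ⟨?_, by_contra fun hc => h (pval_eq_zero P hx hc)⟩
  rintro rfl
  exact h (by simpa using pval_const P 0)

end Res

variable {k : Type*} [Field k] [Fintype k] {E : Type*} [Field E] [Algebra k E] {t : E}
  {L : Type*} [Field L] [Algebra k L] [IsAlgClosed L]
  [IsDomain (L ⊗[k] E)]

theorem hasVal_const (p : Pt k E L) (c : L) : HasVal p (algebraMap L (FL k E L) c) c := by
  have h := hasVal_tm p c (one_mem p.O)
  rwa [p.ev_one, mul_one] at h

theorem hasVal_iota (p : Pt k E L) {a : E} (ha : a ∈ p.O) :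
    HasVal p (iota k E L a) (p.ev a) := by
  have h := hasVal_tm p 1 ha
  rwa [one_mul] at h

theorem not_hasVal_inv {p : Pt k E L} {f : FL k E L} (h : HasVal p f 0) (hf : f ≠ 0) (c : L) :
    ¬HasVal p f⁻¹ c := fun h' => by
  have h1 := h.mul h'
  rw [mul_inv_cancel₀ hf, zero_mul] at h1
  exact one_ne_zero ((hasVal_one p).unique h1)

theorem iota_hasVal_iff (p : Pt k E L) (a : E) : (∃ c, HasVal p (iota k E L a) c) ↔ a ∈ p.O := by
  refine ⟨fun ⟨c, hc⟩ => by_contra fun ha => ?_, fun ha => ⟨_, hasVal_iota p ha⟩⟩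
  have ha' : a⁻¹ ∈ p.O := (p.O.mem_or_inv_mem a).resolve_left ha
  have h0 : a ≠ 0 := by rintro rfl; exact ha (zero_mem _)
  have h1 := hasVal_iota p ha'
  rw [p.ev_max a⁻¹ ha' (by rwa [inv_inv])] at h1
  refine not_hasVal_inv h1 ((_root_.map_ne_zero _).2 (inv_ne_zero h0)) c ?_
  rwa [map_inv₀, inv_inv]

/-- The point defined by a place. -/
noncomputable def toPt [RR.IsFF L (FL k E L)] (P : RR.Place L (FL k E L)) : Pt k E L where
  O := P.O.comap (iota k E L).toRingHom
  ev := fun a => pval P (iota k E L a)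
  junk := fun _ h => dif_neg h
  alg_mem := fun c => by
    change iota k E L (algebraMap k E c) ∈ P.O
    rw [AlgHom.commutes, IsScalarTower.algebraMap_apply k L]
    exact P.const_mem _
  ev_alg := fun c => by
    rw [AlgHom.commutes, IsScalarTower.algebraMap_apply k L, pval_const]
  ev_add := fun a ha b hb => by rw [map_add]; exact pval_add P ha hb
  ev_mul := fun a ha b hb => by rw [map_mul]; exact pval_mul P ha hb
  ev_max := fun a ha h => pval_eq_zero P ha (by rwa [← map_inv₀])

omit [Fintype k] in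
theorem evT_toPt [RR.IsFF L (FL k E L)] (P : RR.Place L (FL k E L)) {x : L ⊗[k] E} {c : L}
    (h : EvT (toPt P) x c) : algebraMap (L ⊗[k] E) (FL k E L) x ∈ P.O ∧
      pval P (algebraMap (L ⊗[k] E) (FL k E L) x) = c := by
  obtain ⟨n, b, a, ha, rfl, rfl⟩ := h
  rw [map_sum]
  induction (Finset.univ : Finset (Fin n)) using Finset.induction_on with
  | empty => exact ⟨zero_mem _, by simpa using pval_const P 0⟩
  | insert i s hi ih =>
    rw [Finset.sum_insert hi, Finset.sum_insert hi]
    have h1 : iota k E L (a i) ∈ P.O := ha i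
    have h2 : algebraMap (L ⊗[k] E) (FL k E L) (b i ⊗ₜ[k] a i) =
        algebraMap L (FL k E L) (b i) * iota k E L (a i) := tm_eq _ _
    have h3 := mul_mem (P.const_mem (b i)) h1
    rw [h2]
    refine ⟨add_mem h3 ih.1, ?_⟩
    rw [pval_add P h3 ih.1, ih.2, pval_mul P (P.const_mem _) h1, pval_const]
    rfl

omit [Fintype k] in
theorem mem_of_hasVal_toPt [RR.IsFF L (FL k E L)] (P : RR.Place L (FL k E L)) {f : FL k E L}
    {c : L} (h : HasVal (toPt P) f c) : f ∈ P.O := by
  obtain ⟨x, y, cx, cy, hx, hy, h0, e, -⟩ := h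
  obtain ⟨h1, h2⟩ := evT_toPt P hy
  obtain ⟨h3, h4⟩ := inv_mem_of_pval P h1 (h2 ▸ h0)
  rw [(eq_mul_inv_iff_mul_eq₀ h3).2 e]
  exact mul_mem (evT_toPt P hx).1 h4

variable [Nonempty (GV k L)]

theorem exists_par (h : FF k t) (p : Pt k E L) : ∃ ϖ : FL k E L, IsPar p ϖ :=
  ⟨_, isPar_red h (Classical.arbitrary _) p⟩

/-- The place defined by a point. -/
def toPlace (h : FF k t) (p : Pt k E L) : RR.Place L (FL k E L) where
  O :=
    { carrier := {f | ∃ c, HasVal p f c}
      zero_mem' := ⟨_, hasVal_zero p⟩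
      one_mem' := ⟨_, hasVal_one p⟩
      add_mem' := fun ⟨_, ha⟩ ⟨_, hb⟩ => ⟨_, ha.add hb⟩
      mul_mem' := fun ⟨_, ha⟩ ⟨_, hb⟩ => ⟨_, ha.mul hb⟩
      neg_mem' := fun ⟨_, ha⟩ => ⟨_, ha.neg⟩
      mem_or_inv_mem' := fun f => by
        by_cases hf : f = 0
        · exact Or.inl ⟨_, hf ▸ hasVal_zero p⟩
        · rcases le_total 0 (ord p f) with h1 | h1
          · exact Or.inl ((hasVal_iff h p hf).2 h1)
          · exact Or.inr ((hasVal_iff h p (inv_ne_zero hf)).2 (by rw [ord_inv h]; omega)) }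
  ne_top := fun hT => by
    obtain ⟨ϖ, h0, h1, -⟩ := exists_par h p
    have h2 := ValuationSubring.mem_top ϖ⁻¹
    rw [← hT] at h2
    obtain ⟨c, hc⟩ := h2
    exact not_hasVal_inv h1 h0 c hc
  const_mem := fun c => ⟨c, hasVal_const p c⟩

theorem mem_toPlace (h : FF k t) {p : Pt k E L} {f : FL k E L} :
    f ∈ (toPlace h p).O ↔ ∃ c, HasVal p f c := Iff.rfl

theorem toPlace_injective (h : FF k t) :
    Function.Injective (toPlace h : Pt k E L → RR.Place L (FL k E L)) := by
  intro p p' e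
  have hm : ∀ f, (∃ c, HasVal p f c) ↔ ∃ c, HasVal p' f c := fun f => by
    rw [← mem_toPlace h, ← mem_toPlace h, e]
  have hO : p.O = p'.O := by
    ext a
    rw [← iota_hasVal_iff, ← iota_hasVal_iff, hm]
  refine Pt.ext hO (funext fun a => ?_)
  by_cases ha : a ∈ p.O
  · have h1 := (hasVal_iota p ha).sub (hasVal_const p (p.ev a))
    have h2 := (hasVal_iota p' (hO ▸ ha)).sub (hasVal_const p' (p.ev a))
    rw [sub_self] at h1
    by_contra hne
    have h3 : p'.ev a - p.ev a ≠ 0 := sub_ne_zero.2 (Ne.symm hne)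
    obtain ⟨c, hc⟩ := (hm _).2 ⟨_, h2.inv h3⟩
    refine not_hasVal_inv h1 (fun h0 => h3 ?_) c hc
    rw [h0] at h2
    exact h2.unique (hasVal_zero p')
  · rw [p.junk a ha, p'.junk a (hO ▸ ha)]

theorem toPlace_bijective (h : FF k t) [RR.IsFF L (FL k E L)] :
    Function.Bijective (toPlace h : Pt k E L → RR.Place L (FL k E L)) :=
  ⟨toPlace_injective h, fun P => ⟨toPt P, RR.Place.eq_of_le fun _ ⟨_, hc⟩ =>
    mem_of_hasVal_toPt P hc⟩⟩

theorem ord_toPlace (h : FF k t) [RR.IsFF L (FL k E L)] (p : Pt k E L) (f : FL k E L) :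
    (toPlace h p).ord f = ord p f := by
  obtain ⟨ϖ, hϖ⟩ := exists_par h p
  have h1 := hϖ.ord_eq h
  have key : ∀ g : FL k E L, g ≠ 0 → (toPlace h p).ord g = ord p g * (toPlace h p).ord ϖ := by
    intro g hg
    have h2 : ϖ ^ (-ord p g) ≠ 0 := zpow_ne_zero _ hϖ.1
    have h3 : ord p (g * ϖ ^ (-ord p g)) = 0 := by
      rw [ord_mul h p hg h2, ord_zpow h, h1]; ring
    have h4 := (toPlace h p).mem_iff.1 ((hasVal_iff h p (mul_ne_zero hg h2)).2 h3.ge)
    have h5 := (toPlace h p).mem_iff.1 ((hasVal_iff h p (inv_ne_zero (mul_ne_zero hg h2))).2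
      (by rw [ord_inv h, h3, neg_zero]))
    rw [RR.Place.ord_inv] at h5
    rw [RR.Place.ord_mul _ hg h2, RR.Place.ord_zpow] at h4 h5
    linarith
  have h6 : 0 ≤ (toPlace h p).ord ϖ := (toPlace h p).mem_iff.1 ⟨_, hϖ.2.1⟩
  obtain ⟨z, z0, z1⟩ := (toPlace h p).exists_unif
  have h7 : (toPlace h p).ord ϖ = 1 :=
    Int.eq_one_of_mul_eq_one_left h6 ((key z z0).symm.trans z1)
  by_cases hf : f = 0
  · rw [hf, RR.Place.ord_zero, ord_zero]
  · rw [key f hf, h7, mul_one]

theorem finsum_toPlace (h : FF k t) [RR.IsFF L (FL k E L)] (D : RR.Divisor L (FL k E L)) :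
    ∑ᶠ p : Pt k E L, D (toPlace h p) = RR.degD D := by
  rw [finsum_comp _ (toPlace_bijective h), RR.degD_apply, Finsupp.sum,
    finsum_eq_sum_of_support_subset D (s := D.support) (by simp)]
  exact Finset.sum_congr rfl fun P _ => by rw [deg_eq_one, Nat.cast_one, mul_one]

end Pool.Agent.FFC.Dg
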