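import Pool.Agent.P.MP_a2beea_nt.FC.Vand
import Pool.Agent.P.MP_a2beea_nt.FC.HtC

/-! The determinant inequality. `det_local`: divide column `j` by `p_j(t) ^ m` if
`t ∉ redO w p_j`; the entries become `p_j(b)`, `b = a_i` or `a_i * t⁻¹ ^ m` in the ring of the
place `red w p_j`. By `expansion` with large `M` they are congruent to `P(u_j)` modulo
`|u_j| ^ M`, `u_j = p_j(unif)`, `|u_j| < 1`; the determinant changes by at most `max |u_j| ^ M`;
apply `vand_bound` with the label `red w p_j` and let `M → ∞`.
`exists_points`: the evaluation map `L ⊗ OO k t → L ^ S` is onto (independence of characters,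
`linearIndependent_monoidHom`, `Pt.ext_OO`), so for large `m` (`OO_pole`, `LL_mono`) the points of
`S` give linearly independent columns; add finite constant points one at a time: if no constant
point increased the rank, a nonzero element `∑ c_i ⊗ a_i` would vanish at all finite constant
points, against `ord_finite` and `const_infinite`.
`psd1`: integrate `det_local`: `∑_{j<l} ip p_j p_l ≤ m * dg * ∑ ht p_j`, with `N + g = m * dg + 1`,
`ip y x = ht y` and `ip x x' = ht x = 0` for constant `x, x'`. -/

open Polynomial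
open scoped TensorProduct NNReal IntermediateField

namespace Pool.Agent.FFC

open Classical

variable {k : Type*} [Field k] [Fintype k] {E : Type*} [Field E] [Algebra k E] {t : E}
  {L : Type*} [Field L] [Algebra k L] [IsAlgClosed L]
  [IsDomain (L ⊗[k] E)]
  [Nonempty (GV k L)]
  {θ : L}

set_option linter.unusedSectionVars false

namespace DetAux

theorem v_prod_le {L : Type*} [Field L] (v : Valuation L ℝ≥0) {ι : Type*} (s : Finset ι)
    (A : ι → L) (hA : ∀ i, v (A i) ≤ 1) : v (∏ i ∈ s, A i) ≤ 1 := by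
  rw [map_prod]
  exact Finset.prod_le_one' fun i _ => hA i

theorem v_prod_sub {L : Type*} [Field L] (v : Valuation L ℝ≥0) {ι : Type*} (s : Finset ι)
    (A B : ι → L) (hA : ∀ i, v (A i) ≤ 1) (hB : ∀ i, v (B i) ≤ 1) {ε : ℝ≥0}
    (hAB : ∀ i, v (B i - A i) ≤ ε) : v (∏ i ∈ s, B i - ∏ i ∈ s, A i) ≤ ε := by
  induction s using Finset.induction_on with
  | empty => simp
  | insert a s ha ih =>
    rw [Finset.prod_insert ha, Finset.prod_insert ha]
    have e : B a * ∏ i ∈ s, B i - A a * ∏ i ∈ s, A i =
        B a * (∏ i ∈ s, B i - ∏ i ∈ s, A i) + (B a - A a) * ∏ i ∈ s, A i := by ring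
    rw [e]
    refine (v.map_add _ _).trans (max_le ?_ ?_)
    · rw [map_mul]
      exact (mul_le_of_le_one_left zero_le (hB a)).trans ih
    · rw [map_mul]
      exact (mul_le_of_le_one_right zero_le (v_prod_le v s A hA)).trans (hAB a)

theorem v_det_sub {L : Type*} [Field L] (v : Valuation L ℝ≥0) {N : ℕ}
    (A B : Matrix (Fin N) (Fin N) L) (hA : ∀ i j, v (A i j) ≤ 1) (hB : ∀ i j, v (B i j) ≤ 1)
    {ε : ℝ≥0} (hAB : ∀ i j, v (B i j - A i j) ≤ ε) : v (B.det - A.det) ≤ ε := by
  rw [Matrix.det_apply, Matrix.det_apply, ← Finset.sum_sub_distrib]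
  refine v.map_sum_le fun σ _ => ?_
  have h := v_prod_sub v Finset.univ (fun i => A (σ i) i) (fun i => B (σ i) i)
    (fun i => hA _ _) (fun i => hB _ _) (fun i => hAB _ _)
  rw [← smul_sub]
  rcases Int.units_eq_one_or (Equiv.Perm.sign σ) with hs | hs
  · rw [hs, one_smul]
    exact h
  · rw [hs, Units.neg_smul, one_smul, Valuation.map_neg]
    exact h

theorem ev_pow (p : Pt k E L) {a : E} (ha : a ∈ p.O) (n : ℕ) : p.ev (a ^ n) = p.ev a ^ n := by
  induction n with
  | zero => rw [pow_zero, pow_zero, p.ev_one]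
  | succ n ih => rw [pow_succ, pow_succ, p.ev_mul _ (pow_mem ha n) _ ha, ih]

/-- The determinant bound for functions which are regular along the reductions. -/
theorem det_int (h : FF k t) (w : GV k L) {N : ℕ} (b : Fin N → Pt k E L → E)
    (hb : ∀ i x, b i x ∈ x.O) (p : Fin N → Pt k E L) :
    w.v (Matrix.det (Matrix.of fun i j => (p j).ev (b i (red w (p j))))) ≤
      ∏ j, ∏ l ∈ Finset.univ.filter (fun l => j < l), dst w (p j) (p l) := by
  set u : Fin N → L := fun j => (p j).ev (unif (redO w (p j))) with hu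
  have hu1 : ∀ j, w.v (u j) < 1 := fun j => v_unif_lt h w (p j)
  set r : ℝ≥0 := Finset.univ.sup fun j => w.v (u j) with hr
  have hr1 : r < 1 := (Finset.sup_lt_iff (by simp)).2 fun j _ => hu1 j
  have hur : ∀ j, w.v (u j) ≤ r := fun j =>
    Finset.le_sup (f := fun j => w.v (u j)) (Finset.mem_univ j)
  have key : ∀ M : ℕ, w.v (Matrix.det (Matrix.of fun i j => (p j).ev (b i (red w (p j))))) ≤
      max (r ^ M) (∏ j, ∏ l ∈ Finset.univ.filter (fun l => j < l), dst w (p j) (p l)) := by
    intro M
    have hQ : ∀ (i : Fin N) (x : Pt k E L), ∃ Q : L[X], (∀ n, w.v (Q.coeff n) ≤ 1) ∧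
        ∀ q : Pt k E L, red w q = x →
          w.v (q.ev (b i x) - Q.eval (q.ev (unif x.O))) ≤ w.v (q.ev (unif x.O)) ^ M := by
      intro i x
      by_cases hx : x.O = ⊤
      · exact ⟨0, fun n => by simp, fun q hq => absurd hx (hq ▸ red_ne_top h w q)⟩
      · obtain ⟨Q, hQ1, -, hQ2⟩ := expansion h hx (hb i x) M
        exact ⟨Q, fun n => w.alg_le (hQ1 n), fun q hq => hQ2 w q hq⟩
    choose Q hQ1 hQ2 using hQ
    have hv := vand_bound w.v (fun j => red w (p j)) u (fun j => (hu1 j).le) Q hQ1
    have hprod : (∏ j, ∏ l ∈ Finset.univ.filter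
        (fun l => j < l ∧ red w (p j) = red w (p l)), w.v (u j - u l)) =
        ∏ j, ∏ l ∈ Finset.univ.filter (fun l => j < l), dst w (p j) (p l) := by
      refine Finset.prod_congr rfl fun j _ => ?_
      rw [Finset.prod_filter, Finset.prod_filter]
      refine Finset.prod_congr rfl fun l _ => ?_
      by_cases hjl : j < l
      · by_cases he : red w (p j) = red w (p l)
        · have hO : redO w (p l) = redO w (p j) := (congrArg Pt.O he).symm
          rw [if_pos ⟨hjl, he⟩, if_pos hjl, dst, if_pos he, hu]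
          simp only [hO]
        · rw [if_neg fun h' => he h'.2, if_pos hjl, dst, if_neg he]
      · rw [if_neg fun h' => hjl h'.1, if_neg hjl]
    have herr : ∀ i j, w.v ((p j).ev (b i (red w (p j))) - (Q i (red w (p j))).eval (u j)) ≤
        r ^ M := fun i j =>
      (hQ2 i (red w (p j)) (p j) rfl).trans (pow_le_pow_left₀ zero_le (hur j) M)
    have hB : ∀ i j, w.v ((p j).ev (b i (red w (p j)))) ≤ 1 := fun i j =>
      (hb i (red w (p j))).2
    have hA : ∀ i j, w.v ((Q i (red w (p j))).eval (u j)) ≤ 1 := by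
      intro i j
      have e : (Q i (red w (p j))).eval (u j) = (p j).ev (b i (red w (p j))) -
          ((p j).ev (b i (red w (p j))) - (Q i (red w (p j))).eval (u j)) := by ring
      rw [e]
      exact (w.v.map_sub _ _).trans
        (max_le (hB i j) ((herr i j).trans (pow_le_one₀ zero_le hr1.le)))
    have hd := v_det_sub w.v (Matrix.of fun i j => (Q i (red w (p j))).eval (u j))
      (Matrix.of fun i j => (p j).ev (b i (red w (p j)))) hA hB herr
    have e : Matrix.det (Matrix.of fun i j => (p j).ev (b i (red w (p j)))) =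
        (Matrix.det (Matrix.of fun i j => (p j).ev (b i (red w (p j)))) -
          Matrix.det (Matrix.of fun i j => (Q i (red w (p j))).eval (u j))) +
          Matrix.det (Matrix.of fun i j => (Q i (red w (p j))).eval (u j)) := by ring
    rw [e]
    refine (w.v.map_add _ _).trans (max_le_max hd ?_)
    rw [← hprod]
    convert hv
  by_contra hlt
  rw [not_le] at hlt
  obtain ⟨M, hM⟩ := NNReal.exists_pow_lt_of_lt_one (zero_le.trans_lt hlt) hr1
  exact absurd (key M) (not_le.2 (max_lt hM hlt))

/-- For large `m` the embeddings stay independent on `LL k t m`. -/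
theorem indep_big (h : FF k t) (S : Finset (E →ₐ[k] L)) :
    ∃ m1 : ℕ, ∀ m, m1 ≤ m → ∀ c : S → L, (∀ a ∈ LL k t m, ∑ y : S, c y * y.1 a = 0) → c = 0 := by
  let W : ℕ →o (Submodule L (S → L))ᵒᵈ :=
    { toFun := fun m => OrderDual.toDual
        { carrier := {c | ∀ a ∈ LL k t m, ∑ y : S, c y * y.1 a = 0}
          zero_mem' := fun a _ => by simp
          add_mem' := fun {c d} hc hd a ha => by
            simp only [Pi.add_apply, add_mul, Finset.sum_add_distrib, hc a ha, hd a ha, add_zero]
          smul_mem' := fun r c hc a ha => by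
            simp only [Pi.smul_apply, smul_eq_mul, mul_assoc, ← Finset.mul_sum, hc a ha,
              mul_zero] }
      monotone' := fun m m' hm c hc a ha => hc a (LL_mono h hm ha) }
  obtain ⟨n, hn⟩ := IsArtinian.monotone_stabilizes W
  refine ⟨n, fun m hm c hc => ?_⟩
  have hall : ∀ a ∈ OO k t, ∑ y : S, c y * y.1 a = 0 := by
    intro a ha
    obtain ⟨m', hm'⟩ := OO_pole h ha
    have h1 : c ∈ OrderDual.ofDual (W m) := hc
    rw [← hn m hm, hn (max n m') (le_max_left _ _)] at h1
    exact h1 a (LL_mono h (le_max_right _ _) hm')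
  let χ : S → (OO k t →* L) := fun y => (y.1.comp (OO k t).val : OO k t →ₐ[k] L)
  have hinj : Function.Injective χ := by
    intro y z hyz
    refine Subtype.ext (Pt.ofHom_injective (Pt.ext_OO h (ValuationSubring.mem_top _)
      (ValuationSubring.mem_top _) fun a ha => ?_))
    exact DFunLike.congr_fun hyz ⟨a, ha⟩
  have hli := (linearIndependent_monoidHom (OO k t) L).comp χ hinj
  refine funext (Fintype.linearIndependent_iff.1 hli c (funext fun a => ?_))
  rw [Finset.sum_apply]
  exact hall a a.2

/-- Independent regular functions stay independent on the finite constant points. -/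
theorem indep_const (h : FF k t) {N : ℕ} {a : Fin N → E} (ha : ∀ i, a i ∈ OO k t)
    (hli : LinearIndependent k a) :
    LinearIndependent L fun (i : Fin N) (x : {p : Pt k E L | t ∈ p.O ∧ p.O ≠ ⊤}) =>
      x.1.ev (a i) := by
  rw [Fintype.linearIndependent_iff]
  intro c hc
  obtain ⟨w⟩ := (inferInstance : Nonempty (GV k L))
  have hu : (∑ i, c i ⊗ₜ[k] a i : L ⊗[k] E) = 0 := by
    by_contra hne
    refine const_infinite (L := L) h ((ord_finite h (algebraMap (L ⊗[k] E) (FL k E L)
      (∑ i, c i ⊗ₜ[k] a i))).subset fun x hx => ?_)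
    have h1 := Val_evT x c a fun i => OO_le x.alg_mem hx.1 _ (ha i)
    have h2 : ∑ i, c i * x.ev (a i) = 0 := by
      have := congrFun hc ⟨x, hx⟩
      rw [Finset.sum_apply] at this
      exact this
    rw [h2] at h1
    exact ((hasVal_zero_iff h x (DiscAux.alg_ne hne)).1 h1.hasVal).ne'
  intro i
  have h3 := gT_sum w Finset.univ hli c
  rw [hu, GaussAux.gT_zero] at h3
  have h4 : w.v (c i) ≤ 0 :=
    h3 ▸ Finset.le_sup (f := fun i => w.v (c i)) (Finset.mem_univ i)
  exact (Valuation.zero_iff w.v).1 (le_antisymm h4 zero_le)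

theorem sum_lt_two {N : ℕ} (f : Fin N → Fin N → ℝ) (hf : ∀ j l, f j l = f l j) :
    ∑ j, ∑ l, (if j = l then 0 else f j l) =
      2 * ∑ j, ∑ l ∈ Finset.univ.filter (fun l => j < l), f j l := by
  have h1 : ∀ j l, (if j = l then 0 else f j l) =
      (if j < l then f j l else 0) + if l < j then f l j else 0 := by
    intro j l
    rcases lt_trichotomy j l with h | h | h
    · rw [if_neg h.ne, if_pos h, if_neg h.not_gt, add_zero]
    · subst h
      simp
    · rw [if_neg h.ne', if_neg h.not_gt, if_pos h, zero_add, hf]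
  simp only [h1, Finset.sum_add_distrib, Finset.sum_filter]
  rw [two_mul]
  congr 1
  exact Finset.sum_comm

end DetAux

theorem det_local (h : FF k t) (w : GV k L) {N m : ℕ} (a : Fin N → E) (ha : ∀ i, a i ∈ LL k t m)
    (p : Fin N → Pt k E L) (hp : ∀ j, t ∈ (p j).O) :
    w.v (Matrix.det (Matrix.of fun i j => (p j).ev (a i))) ≤
      (∏ j, max 1 (w.v ((p j).ev t)) ^ m) *
        ∏ j, ∏ l ∈ Finset.univ.filter (fun l => j < l), dst w (p j) (p l) := by
  let b : Fin N → Pt k E L → E := fun i x => if t ∈ x.O then a i else a i * t⁻¹ ^ m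
  have hb : ∀ i x, b i x ∈ x.O := by
    intro i x
    by_cases hx : t ∈ x.O
    · simp only [b, if_pos hx]
      exact OO_le x.alg_mem hx _ (ha i).1
    · simp only [b, if_neg hx]
      exact OO_le x.alg_mem ((x.O.mem_or_inv_mem t).resolve_left hx) _ (ha i).2
  let s : Fin N → L := fun j => if t ∈ (red w (p j)).O then 1 else (p j).ev t ^ m
  have hs : ∀ j, w.v (s j) ≤ max 1 (w.v ((p j).ev t)) ^ m := by
    intro j
    by_cases hx : t ∈ (red w (p j)).O
    · simp only [s, if_pos hx, map_one]
      exact one_le_pow₀ (le_max_left _ _)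
    · simp only [s, if_neg hx, map_pow]
      exact pow_le_pow_left₀ zero_le (le_max_right _ _) m
  have he : (Matrix.of fun i j => (p j).ev (a i)) =
      Matrix.of fun i j => s j * (Matrix.of fun i j => (p j).ev (b i (red w (p j)))) i j := by
    ext i j
    simp only [Matrix.of_apply]
    by_cases hx : t ∈ (red w (p j)).O
    · simp only [s, b, if_pos hx, one_mul]
    · have h1 : a i * t⁻¹ ^ m ∈ (p j).O := by
        have := hb i (red w (p j))
        simp only [b, if_neg hx] at this
        exact this.1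
      simp only [s, b, if_neg hx]
      rw [← DetAux.ev_pow _ (hp j), ← (p j).ev_mul _ (pow_mem (hp j) m) _ h1]
      congr 1
      rw [inv_pow, mul_comm (a i), mul_inv_cancel_left₀ (pow_ne_zero m h.ne_zero)]
  rw [he, Matrix.det_mul_row, map_mul, map_prod]
  exact mul_le_mul' (Finset.prod_le_prod' fun j _ => hs j) (DetAux.det_int h w b hb p)

theorem exists_points (h : FF k t) {g : ℕ} (hR : RR0 k t g) (S : Finset (E →ₐ[k] L)) :
    ∃ (N m : ℕ) (a : Fin N → E) (p : Fin N → Pt k E L), N + g = m * dg k t + 1 ∧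
      (∀ i, a i ∈ LL k t m) ∧ (∀ j, t ∈ (p j).O) ∧
      (∀ y ∈ S, ∃ j, p j = Pt.ofHom y) ∧ (∀ j, (p j).O = ⊤ → ∃ y ∈ S, p j = Pt.ofHom y) ∧
      Matrix.det (Matrix.of fun i j => (p j).ev (a i)) ≠ 0 := by
  obtain ⟨hfd, m0, hm0⟩ := hR
  obtain ⟨m1, hm1⟩ := DetAux.indep_big h S
  set m := max m0 m1 with hm
  have := hfd m
  set N := Module.finrank k (LL k t m) with hN
  let B : Module.Basis (Fin N) k (LL k t m) := Module.finBasis k (LL k t m)
  let a : Fin N → E := fun i => B i
  have ha : ∀ i, a i ∈ LL k t m := fun i => (B i).2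
  have hli : LinearIndependent k a :=
    B.linearIndependent.map' (LL k t m).subtype (LL k t m).ker_subtype
  let c : Pt k E L → Fin N → L := fun x i => x.ev (a i)
  let C : Set (Pt k E L) := {p | t ∈ p.O ∧ p.O ≠ ⊤}
  let s : Set (Pt k E L) := Pt.ofHom '' (S : Set (E →ₐ[k] L))
  have hs : LinearIndepOn L c s := by
    refine LinearIndepOn.image_of_comp _ _ ?_
    change LinearIndependent L fun y : S => c (Pt.ofHom y.1)
    rw [Fintype.linearIndependent_iff]
    intro d hd
    refine congrFun (hm1 m (le_max_right _ _) d fun x hx => ?_)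
    have h1 : x = ∑ i, B.repr ⟨x, hx⟩ i • a i := by
      have := congrArg (LL k t m).subtype (B.sum_repr ⟨x, hx⟩)
      rw [map_sum] at this
      exact this.symm
    have h2 : ∀ i, ∑ y : S, d y * y.1 (a i) = 0 := by
      intro i
      have := congrFun hd i
      rw [Finset.sum_apply] at this
      exact this
    rw [h1]
    simp only [map_sum, map_smul, Finset.mul_sum, mul_smul_comm]
    rw [Finset.sum_comm]
    refine Finset.sum_eq_zero fun i _ => ?_
    rw [← Finset.smul_sum, h2, smul_zero]
  obtain ⟨T, hT1, hT2, hT3, hT4⟩ :=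
    exists_linearIndepOn_extension hs (Set.subset_union_left (t := C))
  have hC : Submodule.span L (c '' C) = ⊤ := by
    have := span_flip_eq_top_iff_linearIndependent.2
      (DetAux.indep_const (L := L) h (fun i => (ha i).1) hli)
    rw [Set.image_eq_range]
    exact this
  have hT5 : ⊤ ≤ Submodule.span L (Set.range fun x : T => c x) := by
    rw [← hC, ← Set.image_eq_range, Submodule.span_le]
    exact (Set.image_mono Set.subset_union_right).trans hT3
  let B' : Module.Basis T L (Fin N → L) := Module.Basis.mk hT4 hT5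
  let e : T ≃ Fin N := B'.indexEquiv (Pi.basisFun L (Fin N))
  refine ⟨N, m, a, fun j => (e.symm j).1, hm0 m (le_max_left _ _), ha, fun j => ?_,
    fun y hy => ⟨e ⟨Pt.ofHom y, hT2 ⟨y, hy, rfl⟩⟩, by simp⟩, fun j hj => ?_, ?_⟩
  · rcases hT1 (e.symm j).2 with ⟨y, -, hy⟩ | hx
    · change t ∈ (e.symm j).1.O
      rw [← hy]
      exact ValuationSubring.mem_top _
    · exact hx.1
  · rcases hT1 (e.symm j).2 with ⟨y, hyS, hy⟩ | hx
    · exact ⟨y, hyS, hy.symm⟩
    · exact absurd hj hx.2
  · refine ((Matrix.isUnit_iff_isUnit_det _).1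
      (Matrix.linearIndependent_cols_iff_isUnit.1 ?_)).ne_zero
    exact LinearIndependent.comp hT4 e.symm e.symm.injective

theorem psd1 (h : FF k t) {g : ℕ} (hR : RR0 k t g) (P : PD k θ) (S : Finset (E →ₐ[k] L)) :
    0 ≤ (∑ y ∈ S, ∑ z ∈ S.erase y, kk P t y z) + 2 * g * ∑ y ∈ S, ht P t (Pt.ofHom y) := by
  obtain ⟨N, m, a, p, hN, ha, hp, hS, hS', hdet⟩ := exists_points (L := L) h hR S
  have hinj : Function.Injective p := by
    intro j l hjl
    by_contra hne
    exact hdet (Matrix.det_zero_of_column_eq hne fun i => by simp only [Matrix.of_apply, hjl])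
  have hloc : ∀ w : GV k L,
      Real.log (w.v (Matrix.det (Matrix.of fun i j => (p j).ev (a i)))) ≤
        (∑ j, (m : ℝ) * Real.posLog (w.v ((p j).ev t))) -
          ∑ j, ∑ l ∈ Finset.univ.filter (fun l => j < l), ipt w (p j) (p l) := by
    intro w
    have h1 := det_local h w a ha p hp
    have h2 : (0 : ℝ) < w.v (Matrix.det (Matrix.of fun i j => (p j).ev (a i))) := by
      exact_mod_cast (Valuation.pos_iff w.v).2 hdet
    have h3 : ∀ j, ∀ l ∈ Finset.univ.filter (fun l => j < l), (dst w (p j) (p l) : ℝ) ≠ 0 := by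
      intro j l hl
      have hne : p j ≠ p l := fun he => (Finset.mem_filter.1 hl).2.ne (hinj he)
      exact_mod_cast fun h0 => hne ((dst_eq_zero_iff h w _ _).1 h0)
    have h4 : ∀ j, (max 1 (w.v ((p j).ev t) : ℝ)) ^ m ≠ 0 := fun j =>
      pow_ne_zero m (lt_max_of_lt_left one_pos).ne'
    refine (Real.log_le_log h2 (NNReal.coe_le_coe.2 h1)).trans_eq ?_
    push_cast
    rw [Real.log_mul (Finset.prod_ne_zero_iff.2 fun j _ => h4 j)
      (Finset.prod_ne_zero_iff.2 fun j _ => Finset.prod_ne_zero_iff.2 (h3 j)),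
      Real.log_prod fun j _ => h4 j,
      Real.log_prod fun j _ => Finset.prod_ne_zero_iff.2 (h3 j), sub_eq_add_neg,
      ← Finset.sum_neg_distrib]
    congr 1
    · refine Finset.sum_congr rfl fun j _ => ?_
      rw [Real.log_pow, Real.posLog_eq_log_max_one (NNReal.coe_nonneg _)]
    · refine Finset.sum_congr rfl fun j _ => ?_
      rw [Real.log_prod (h3 j), ← Finset.sum_neg_distrib]
      refine Finset.sum_congr rfl fun l _ => ?_
      rw [ipt, neg_neg]
  have a1 : ∀ j ∈ (Finset.univ : Finset (Fin N)),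
      Adm fun v η => (m : ℝ) * Real.posLog ((P.W v η).v ((p j).ev t)) :=
    fun j _ => (adm_posLog P _).const_mul _
  have a2 : ∀ j ∈ (Finset.univ : Finset (Fin N)), Adm fun v η =>
      ∑ l ∈ Finset.univ.filter (fun l => j < l), ipt (P.W v η) (p j) (p l) :=
    fun j _ => Adm.sum _ fun l _ => adm_ipt h P _ _
  have hglob := II_mono P (adm_log P _) ((Adm.sum _ a1).sub (Adm.sum _ a2))
    fun v η => hloc (P.W v η)
  rw [prod_formula, II_sub P (Adm.sum _ a1) (Adm.sum _ a2), II_sum P _ a1, II_sum P _ a2] at hglob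
  have hdg : (dg k t : ℝ) ≠ 0 := Nat.cast_ne_zero.2 h.dg_pos.ne'
  have e1 : ∀ j, II (fun v η => (m : ℝ) * Real.posLog ((P.W v η).v ((p j).ev t))) =
      m * dg k t * ht P t (p j) := by
    intro j
    rw [II_const_mul P (adm_posLog P _), ht, mul_assoc, mul_div_cancel₀ _ hdg]
  have e2 : ∀ j, II (fun v η =>
      ∑ l ∈ Finset.univ.filter (fun l => j < l), ipt (P.W v η) (p j) (p l)) =
      ∑ l ∈ Finset.univ.filter (fun l => j < l), ip P (p j) (p l) := fun j =>
    II_sum P _ fun l _ => adm_ipt h P _ _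
  simp only [e1, e2, ← Finset.mul_sum] at hglob
  have hNr : (N : ℝ) + g = m * dg k t + 1 := by exact_mod_cast hN
  choose e he using fun y : S => hS y.1 y.2
  have heinj : Function.Injective e := by
    intro y z hyz
    exact Subtype.ext (Pt.ofHom_injective (by rw [← he y, ← he z, hyz]))
  have hout : ∀ j, j ∉ Set.range e → (p j).O ≠ ⊤ := by
    intro j hj htop
    obtain ⟨y, hy, hy'⟩ := hS' j htop
    exact hj ⟨⟨y, hy⟩, hinj (by rw [he, hy'])⟩
  have hH : ∑ y ∈ S, ht P t (Pt.ofHom y) = ∑ j, ht P t (p j) := by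
    rw [← Finset.sum_coe_sort]
    exact Fintype.sum_of_injective e heinj _ _ (fun j hj => ht_const h P (hout j hj))
      fun y => by rw [he]
  let G : Fin N → Fin N → ℝ := fun j l =>
    if j = l then 0 else ht P t (p j) + ht P t (p l) - ip P (p j) (p l)
  have hG1 : ∀ j l, (p l).O ≠ ⊤ → G j l = 0 := by
    intro j l hl
    by_cases hjl : j = l
    · exact if_pos hjl
    · refine (if_neg hjl).trans ?_
      by_cases hj : (p j).O = ⊤
      · obtain ⟨y, -, hy⟩ := hS' j hj
        rw [hy, ip_const h hR P y hl, ht_const h P hl]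
        ring
      · rw [ip_const_const h P hj hl, ht_const h P hl, ht_const h P hj]
        ring
  have hG2 : ∀ j l, G j l = G l j := by
    intro j l
    by_cases hjl : j = l
    · rw [hjl]
    · simp only [G, if_neg hjl, if_neg (Ne.symm hjl)]
      rw [ip_comm, add_comm]
  have hK : ∑ y ∈ S, ∑ z ∈ S.erase y, kk P t y z = ∑ j, ∑ l, G j l := by
    rw [← Finset.sum_coe_sort]
    refine Fintype.sum_of_injective e heinj _ _
      (fun j hj => Finset.sum_eq_zero fun l _ => by rw [hG2, hG1 l j (hout j hj)]) fun y => ?_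
    have h1 : ∑ z ∈ S.erase y, kk P t y z = ∑ z ∈ S, if y.1 = z then 0 else kk P t y z := by
      rw [← Finset.sum_erase (f := fun z => if y.1 = z then 0 else kk P t y z) S (a := y.1)
        (if_pos rfl)]
      exact Finset.sum_congr rfl fun z hz => (if_neg (Finset.ne_of_mem_erase hz).symm).symm
    rw [h1, ← Finset.sum_coe_sort]
    refine Fintype.sum_of_injective e heinj _ _ (fun l hl => hG1 _ l (hout l hl)) fun z => ?_
    by_cases hyz : y = z
    · subst hyz
      simp only [G, if_true]
    · rw [if_neg fun h' => hyz (Subtype.ext h')]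
      simp only [G, if_neg (heinj.ne hyz), he, kk]
  have hsplit : ∑ j, ∑ l, G j l = 2 * ((N : ℝ) - 1) * ∑ j, ht P t (p j) -
      ∑ j, ∑ l, (if j = l then 0 else ip P (p j) (p l)) := by
    have h1 : ∀ j l, G j l = ht P t (p j) + ht P t (p l) -
        (if j = l then 2 * ht P t (p j) else 0) - if j = l then 0 else ip P (p j) (p l) := by
      intro j l
      by_cases hjl : j = l
      · subst hjl
        simp only [G, if_true]
        ring
      · simp only [G, if_neg hjl]
        ring
    simp only [h1, Finset.sum_sub_distrib, Finset.sum_add_distrib, Finset.sum_ite_eq,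
      Finset.mem_univ, if_true, Finset.sum_const, Finset.card_univ, Fintype.card_fin,
      nsmul_eq_mul, ← Finset.mul_sum]
    ring
  rw [hK, hH, hsplit, DetAux.sum_lt_two _ fun j l => ip_comm P _ _]
  have h5 : 2 * ((N : ℝ) - 1) * ∑ j, ht P t (p j) + 2 * g * ∑ j, ht P t (p j) =
      2 * (m * dg k t * ∑ j, ht P t (p j)) := by
    have : (m : ℝ) * dg k t = N + g - 1 := by linarith
    rw [this]
    ring
  linarith

end Pool.Agent.FFC
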