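import Mathlib

/-! Auxiliary results for the determinant of a basis: combinations with polynomial coefficients,
denominators, and the existence of a basis. -/

open Polynomial
open scoped TensorProduct NNReal IntermediateField Matrix

namespace Pool.Agent.FFC

open Classical

section Gen

theorem detB_vm {R F ι κ : Type*} [CommRing R] [CommRing F] [Fintype ι] [Fintype κ] (ε : R →+* F)
    (Q : ι → R) (S : Matrix ι κ R) (v : κ → F) :
    ∑ c, ε (Q c) * ∑ a, ε (S c a) * v a = ∑ a, ε ((Q ᵥ* S) a) * v a := by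
  simp only [Matrix.vecMul, dotProduct, map_sum, map_mul, Finset.mul_sum, Finset.sum_mul, mul_assoc]
  exact Finset.sum_comm

theorem detB_single {R F ι : Type*} [CommRing R] [CommRing F] [Fintype ι] [DecidableEq ι]
    (ε : R →+* F) (p : R) (c : ι) (v : ι → F) :
    ∑ a, ε ((Pi.single c p : ι → R) a) * v a = ε p * v c := by
  rw [Finset.sum_eq_single c (fun a _ ha => by rw [Pi.single_eq_of_ne ha, map_zero, zero_mul])
    (fun hc => absurd (Finset.mem_univ c) hc), Pi.single_eq_same]

theorem detB_inj {R F ι : Type*} [CommRing R] [CommRing F] [Fintype ι] {ε : R →+* F} {v : ι → F}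
    (hv : ∀ Q : ι → R, ∑ a, ε (Q a) * v a = 0 → Q = 0) {P Q : ι → R}
    (e : ∑ a, ε (P a) * v a = ∑ a, ε (Q a) * v a) : P = Q := by
  refine sub_eq_zero.1 (hv _ ?_)
  simp only [Pi.sub_apply, map_sub, sub_mul, Finset.sum_sub_distrib, e, sub_self]

variable {L : Type*} [Field L] {A : Subring L}

theorem detB_den {ι : Type*} (s : Finset ι) (x : ι → L)
    (hx : ∀ i, x i ∈ Subfield.closure (A : Set L)) : ∃ a ∈ A, a ≠ 0 ∧ ∀ i ∈ s, a * x i ∈ A := by
  induction s using Finset.induction_on with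
  | empty => exact ⟨1, one_mem A, one_ne_zero, fun i hi => absurd hi (Finset.notMem_empty i)⟩
  | insert i s hi ih =>
    obtain ⟨a, ha, h0, h1⟩ := ih
    obtain ⟨y, hy, z, hz, e⟩ := Subfield.mem_closure_iff.1 (hx i)
    rw [Subring.closure_eq] at hy hz
    by_cases hz0 : z = 0
    · refine ⟨a, ha, h0, fun j hj => ?_⟩
      rcases Finset.mem_insert.1 hj with rfl | hj
      · rw [← e, hz0, div_zero, mul_zero]
        exact zero_mem A
      · exact h1 j hj
    · refine ⟨a * z, mul_mem ha hz, mul_ne_zero h0 hz0, fun j hj => ?_⟩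
      rcases Finset.mem_insert.1 hj with rfl | hj
      · rw [← e, mul_assoc, mul_div_cancel₀ y hz0]
        exact mul_mem ha hy
      · rw [mul_right_comm]
        exact mul_mem (h1 j hj) hz

theorem detB_den_poly {ι : Type*} [Fintype ι] (P : ι → (Subfield.closure (A : Set L))[X]) :
    ∃ a ∈ A, a ≠ 0 ∧ ∀ c i, (C a * (P c).map (Subfield.subtype _)).coeff i ∈ A := by
  obtain ⟨a, ha, h0, h1⟩ := detB_den (A := A)
    (Finset.univ.biUnion fun c => (P c).support.image fun i => (c, i))
    (fun x : ι × ℕ => ((P x.1).coeff x.2 : L)) fun x => ((P x.1).coeff x.2).2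
  refine ⟨a, ha, h0, fun c i => ?_⟩
  rw [coeff_C_mul, coeff_map]
  by_cases hi : i ∈ (P c).support
  · exact h1 (c, i) (Finset.mem_biUnion.2 ⟨c, Finset.mem_univ c, Finset.mem_image_of_mem _ hi⟩)
  · rw [notMem_support_iff.1 hi, map_zero, mul_zero]
    exact zero_mem A

theorem detB_lift {Q : L[X]} (hQ : ∀ i, Q.coeff i ∈ A) :
    ∃ P : (Subfield.closure (A : Set L))[X], P.map (Subfield.subtype _) = Q :=
  (Polynomial.mem_lifts _).1 ((Polynomial.lifts_iff_coeff_lifts _).2 fun i =>
    ⟨⟨_, Subfield.subset_closure (hQ i)⟩, rfl⟩)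

/-- The abstract form of the existence of a basis. -/
theorem detB_basis {F : Type*} [Field F] {ε : L[X] →+* F} {n : ℕ} {v : Fin n → F}
    (hv : ∀ Q : Fin n → L[X], ∑ a, ε (Q a) * v a = 0 → Q = 0) {I : AddSubgroup F}
    (h1 : ∀ Q : L[X], (∀ i, Q.coeff i ∈ A) → ∀ x ∈ I, ε Q * x ∈ I) {d x0 : F} (hd : d ≠ 0)
    (h2 : ∀ x ∈ I, ∃ Q : Fin n → L[X], (∀ a i, (Q a).coeff i ∈ A) ∧ d * x = ∑ a, ε (Q a) * v a)
    (hx : x0 ≠ 0) (h3 : ∀ a, v a * x0 ∈ I) :
    ∃ b : Fin n → F, (∀ c, b c ∈ I) ∧ (∀ x ∈ I, ∃ a ∈ A, a ≠ 0 ∧ ∃ Q : Fin n → L[X],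
      (∀ c i, (Q c).coeff i ∈ A) ∧ ε (C a) * x = ∑ c, ε (Q c) * b c) ∧
      ∀ Q : Fin n → L[X], ∑ c, ε (Q c) * b c = 0 → Q = 0 := by
  set K := Subfield.closure (A : Set L) with hK
  set ι : K[X] →+* L[X] := Polynomial.mapRingHom K.subtype with hι
  have hinj : Function.Injective ι := Polynomial.map_injective _ K.subtype.injective
  set η : K[X] →+* F := ε.comp ι with hη
  have hC : ∀ a ∈ A, ∀ i, (C a : L[X]).coeff i ∈ A := fun a ha i => by
    rw [coeff_C]
    split_ifs
    exacts [ha, zero_mem A]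
  let N : Submodule K[X] (Fin n → K[X]) :=
    { carrier := {S | ∃ a ∈ A, a ≠ 0 ∧ ∃ x ∈ I, ε (C a) * ∑ c, η (S c) * v c = d * x}
      zero_mem' := ⟨1, one_mem A, one_ne_zero, 0, zero_mem I, by simp⟩
      add_mem' := by
        rintro S S' ⟨a, ha, a0, x, hx, e⟩ ⟨a', ha', a0', x', hx', e'⟩
        refine ⟨a * a', mul_mem ha ha', mul_ne_zero a0 a0', _,
          add_mem (h1 _ (hC a' ha') x hx) (h1 _ (hC a ha) x' hx'), ?_⟩
        simp only [Pi.add_apply, map_add, add_mul, Finset.sum_add_distrib, map_mul]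
        linear_combination ε (C a') * e + ε (C a) * e'
      smul_mem' := by
        rintro P S ⟨a, ha, a0, x, hx, e⟩
        obtain ⟨a', ha', a0', hP⟩ := detB_den_poly (A := A) fun _ : Unit => P
        refine ⟨a * a', mul_mem ha ha', mul_ne_zero a0 a0', _, h1 _ (hP ()) x hx, ?_⟩
        have : ∑ c, η ((P • S) c) * v c = η P * ∑ c, η (S c) * v c := by
          simp only [Pi.smul_apply, smul_eq_mul, map_mul, Finset.mul_sum, mul_assoc]
        rw [this, map_mul, map_mul, map_mul]
        change _ = d * (ε (C a') * η P * x)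
        linear_combination ε (C a') * η P * e }
  have hmem : ∀ x ∈ I, ∃ S ∈ N, d * x = ∑ c, η (S c) * v c := by
    intro x hx
    obtain ⟨Q, hQ, e⟩ := h2 x hx
    choose S hS using fun c => detB_lift (hQ c)
    have e' : d * x = ∑ c, η (S c) * v c := by
      rw [e]
      exact Finset.sum_congr rfl fun c _ => by rw [← hS c]; rfl
    exact ⟨S, ⟨1, one_mem A, one_ne_zero, x, hx, by rw [map_one, map_one, one_mul, e']⟩, e'⟩
  have hrank : Module.finrank K[X] N = n := by
    refine le_antisymm ((Submodule.finrank_le N).trans_eq (by simp)) ?_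
    choose T hT eT using fun a => hmem _ (h3 a)
    have hli : LinearIndependent K[X] fun a => (⟨T a, hT a⟩ : N) := by
      refine Fintype.linearIndependent_iff.2 fun P hP a => hinj ?_
      have e0 : P ᵥ* Matrix.of T = 0 := by
        funext c
        have := congrFun (congrArg Subtype.val hP) c
        simpa [Matrix.vecMul, dotProduct] using this
      have e1 := detB_vm η P (Matrix.of T) v
      simp only [Matrix.of_apply, ← eT, e0, Pi.zero_apply, map_zero, zero_mul,
        Finset.sum_const_zero] at e1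
      have e2 : (∑ c, ε (ι (P c)) * v c) * (d * x0) = 0 := by
        rw [← e1, Finset.sum_mul]
        exact Finset.sum_congr rfl fun c _ => by change _ = ε (ι (P c)) * _; ring
      rw [map_zero]
      exact congrFun (hv _ ((mul_eq_zero.1 e2).resolve_right (mul_ne_zero hd hx))) a
    simpa using hli.fintype_card_le_finrank
  let β := Module.finBasisOfFinrankEq K[X] N hrank
  choose a ha a0 b hb e using fun c => (β c).2
  let B : Matrix (Fin n) (Fin n) K[X] := Matrix.of fun c => (β c : Fin n → K[X])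
  have hB : ∀ P : Fin n → K[X], ((∑ c, P c • β c : N) : Fin n → K[X]) = P ᵥ* B := fun P => by
    funext c
    simp [Matrix.vecMul, dotProduct, B]
  have hdet : B.det ≠ 0 := fun h0 => by
    obtain ⟨P, hP, eP⟩ := Matrix.exists_vecMul_eq_zero_iff.2 h0
    exact hP (funext (Fintype.linearIndependent_iff.1 β.linearIndependent P
      (Subtype.ext ((hB P).trans eP))))
  refine ⟨b, hb, fun x hx => ?_, fun Q hQ => ?_⟩
  · obtain ⟨S, hS, eS⟩ := hmem x hx
    obtain ⟨P, rfl⟩ : ∃ P : Fin n → K[X], S = P ᵥ* B := ⟨β.repr ⟨S, hS⟩, by rw [← hB, β.sum_repr]⟩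
    have hK' : ∀ c, a c ∈ K := fun c => Subfield.subset_closure (ha c)
    obtain ⟨a', ha', a0', hP⟩ := detB_den_poly (A := A) fun c => P c * C (⟨a c, hK' c⟩ : K)⁻¹
    refine ⟨a', ha', a0', _, hP, mul_left_cancel₀ hd ?_⟩
    rw [mul_left_comm, eS, ← detB_vm, Finset.mul_sum, Finset.mul_sum]
    refine Finset.sum_congr rfl fun c _ => ?_
    have e2 : ε (C (a c)⁻¹) * ε (C (a c)) = 1 := by
      rw [← map_mul, ← map_mul, inv_mul_cancel₀ (a0 c), map_one, map_one]
    have e3 := e c
    rw [Polynomial.map_mul, map_C, map_mul, map_mul]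
    change ε (C a') * (η (P c) * ∑ i, η ((β c).1 i) * v i) =
      d * (ε (C a') * (η (P c) * ε (C (a c)⁻¹)) * b c)
    linear_combination ε (C a') * η (P c) * (ε (C (a c)⁻¹) * e3 - (∑ i, η ((β c).1 i) * v i) * e2)
  · have e1 := detB_vm ε (fun c => Q c * C (a c)) (B.map ι) v
    have e2 : ∑ c, ε (Q c * C (a c)) * ∑ i, ε (B.map ι c i) * v i = 0 := by
      rw [← mul_zero d, ← hQ, Finset.mul_sum]
      refine Finset.sum_congr rfl fun c _ => ?_
      rw [map_mul, mul_assoc, mul_left_comm d, ← e c]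
      rfl
    have e3 := Matrix.eq_zero_of_vecMul_eq_zero (M := B.map ι) (by
      rw [← RingHom.mapMatrix_apply, ← RingHom.map_det]
      exact fun h0 => hdet (hinj (h0.trans (map_zero ι).symm))) (hv _ (e1.symm.trans e2))
    funext c
    exact (mul_eq_zero.1 (congrFun e3 c)).resolve_right (C_ne_zero.2 (a0 c))

theorem detB_mult {ι : Type*} (Z : Finset ι) (g : ι → L) (m : ι → ℕ) (β : L) :
    (∏ z ∈ Z, (X - C (g z)) ^ m z).rootMultiplicity β = ∑ z ∈ Z, if g z = β then m z else 0 := by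
  induction Z using Finset.induction_on with
  | empty => simp
  | insert z Z hz ih =>
    rw [Finset.prod_insert hz, Finset.sum_insert hz, rootMultiplicity_mul (mul_ne_zero
      (pow_ne_zero _ (X_sub_C_ne_zero _))
      (Finset.prod_ne_zero_iff.2 fun y _ => pow_ne_zero _ (X_sub_C_ne_zero _))), ih,
      ← count_roots, roots_pow, roots_X_sub_C, Multiset.count_nsmul, Multiset.count_singleton]
    congr 1
    by_cases h : g z = β
    · rw [if_pos h, if_pos h.symm, mul_one]
    · rw [if_neg h, if_neg (Ne.symm h), mul_zero]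

theorem detB_prop [IsAlgClosed L] {P Q : L[X]} (hP : P ≠ 0) (hQ : Q ≠ 0)
    (h : ∀ β, P.rootMultiplicity β = Q.rootMultiplicity β) : ∃ c, c ≠ 0 ∧ P = C c * Q := by
  have e : P.roots = Q.roots := Multiset.ext.2 fun β => by rw [count_roots, count_roots, h]
  have h1 := leadingCoeff_ne_zero.2 hP
  have h2 := leadingCoeff_ne_zero.2 hQ
  refine ⟨P.leadingCoeff / Q.leadingCoeff, div_ne_zero h1 h2, ?_⟩
  conv_rhs => rw [(IsAlgClosed.splits Q).eq_prod_roots, ← mul_assoc, ← e]
  rw [← map_mul, leadingCoeff_mul, leadingCoeff_C,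
    (monic_multiset_prod_of_monic _ _ fun a _ => monic_X_sub_C a).leadingCoeff, mul_one,
    div_mul_cancel₀ _ h2]
  exact (IsAlgClosed.splits P).eq_prod_roots

end Gen

end Pool.Agent.FFC
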