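import Pool.Agent.P.MP_a2beea_nt.FC.RTop
import Pool.Agent.P.MP_a2beea_nt.FC.DetBAux

/-! The determinant of a basis. `exists_basis`: let `K'` be the subfield of `L` generated by `A` (its
members are quotients of members of `A`); the `K'[X]`-module spanned by `I` in `FL` is finitely
generated (`Lat.fg`) and torsion free, hence free; its rank is `n` (it contains the `e a * x`,
`x ≠ 0` in `I`, and `m' I ⊆ RA`; use `RA_repr`, `DualB.indepL`); clear the denominators of a basis.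
For `indep` over `L[X]`: write `m' b c = ∑ S c a * e a` with `S` over `K'[X]`, `det S ≠ 0`.
`det_basis`: choose `p ≠ 0` with `p b c = ∑ S c a * e a` (`exists_denom0`, `RA_repr` for `⊤`). Fix
`β`. Take `x = ∑ c_i x_i`, `c_i ∈ L`, `x_i ∈ I`, with `ord z x = dv I z` for the finitely many
`z` above `β` (a generic combination, `L` is infinite; or `x + c x'` inductively). Then
`e a * x = ∑ U a c * b c` with `U` over `L[X]`, and `p' b c = ∑ V c a * (e a * x)` with
`p'(β) ≠ 0` (`exists_denom` for `b c / x`), so `det U (β) ≠ 0`; `norm_mult` for `p x` gives the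
multiplicity of `β` in `det S`. Two nonzero polynomials over `L` with the same root
multiplicities are proportional: compare `det S * ∏ (X - z t) ^ (-dv)⁺` and
`p ^ n * ∏ (X - z t) ^ dv⁺`. `far_det`: `sum_ipt_fibre`. `IsBasis.phi`: `Sht.pow` gives
`(t - θ) ^ N b = Ψ (f σ b)`, so `Ψ Φ = (X - θ) ^ N` by `indep`. -/

open Polynomial
open scoped TensorProduct NNReal IntermediateField Matrix

namespace Pool.Agent.FFC

open Classical

variable {k : Type*} [Field k] [Fintype k] {E : Type*} [Field E] [Algebra k E] {t : E}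
  {L : Type*} [Field L] [Algebra k L] [IsAlgClosed L]
  [IsDomain (L ⊗[k] E)]
  [Nonempty (GV k L)]
  {θ : L}
  {A : Subring L} {f : FL k E L} {I J : AddSubgroup (FL k E L)} {D : (E →ₐ[k] L) →₀ ℤ}
  {n : ℕ} {e e' : Fin n → E} {b : Fin n → FL k E L}

/-- Evaluation of a polynomial at the function `t`. -/
noncomputable def detBEv (k : Type*) [Field k] {E : Type*} [Field E] [Algebra k E] (t : E)
    (L : Type*) [Field L] [Algebra k L] : L[X] →+* FL k E L :=
  eval₂RingHom (tmL k E L) (tm 1 t)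

omit [Fintype k] [IsAlgClosed L] [IsDomain (L ⊗[k] E)] [Nonempty (GV k L)] in
theorem detB_ev (Q : L[X]) : eval₂ (tmL k E L) (tm 1 t) Q = detBEv k t L Q := rfl

omit [Fintype k] [IsAlgClosed L] [IsDomain (L ⊗[k] E)] [Nonempty (GV k L)] in
theorem detB_ev_C (c : L) : detBEv k t L (C c) = tm c (1 : E) := eval₂_C _ _

omit [Fintype k] [IsAlgClosed L] [IsDomain (L ⊗[k] E)] [Nonempty (GV k L)] in
theorem detB_ev_X : detBEv k t L X = tm (1 : L) t := eval₂_X _ _

theorem detB_ev_ne (h : FF k t) {p : L[X]} (hp : p ≠ 0) : detBEv k t L p ≠ 0 := fun h0 =>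
  hp (eval₂_injective (k := k) (E := E) h (h0.trans (map_zero (detBEv k t L)).symm))

theorem exists_basis (h : FF k t) (hl : Lat A t I) (hk : ∀ c : k, algebraMap k L c ∈ A)
    (hd : DualB k t L e e') : ∃ b : Fin n → FL k E L, IsBasis A t I b := by
  obtain ⟨N, m, m', hm, hm', hs⟩ := hl.inv
  obtain ⟨i, -, hi⟩ := Finset.exists_ne_zero_of_sum_ne_zero (hs.trans_ne one_ne_zero)
  obtain ⟨b, h1, h2, h3⟩ := detB_basis (A := A) (ε := detBEv k t L) (v := fun a => tm 1 (e a))
    (hd.indepL h) (I := I) (fun Q hQ x hx => hl.mul_mem _ (eval₂_mem_RA hQ) x hx)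
    (left_ne_zero_of_mul hi) (fun x hx => RA_repr hd hk (hm' i x hx)) (right_ne_zero_of_mul hi)
    fun a => hl.mul_mem _ (tm_mem_RA (one_mem A) (hd.mem a)) _ (hm i)
  refine ⟨b, h1, fun x hx => ?_, h3⟩
  obtain ⟨a, ha, a0, Q, hQ, eQ⟩ := h2 x hx
  exact ⟨a, ha, a0, Q, hQ, by rwa [detB_ev_C] at eQ⟩

/-- The combinations of the `w a` with coefficients in `L[t]`. -/
def detBSp (k : Type*) [Field k] {E : Type*} [Field E] [Algebra k E] (t : E)
    {L : Type*} [Field L] [Algebra k L] {n : ℕ} (w : Fin n → FL k E L) :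
    AddSubgroup (FL k E L) where
  carrier := {x | ∃ Q : Fin n → L[X], x = ∑ a, detBEv k t L (Q a) * w a}
  zero_mem' := ⟨0, by simp⟩
  add_mem' := by
    rintro x y ⟨P, rfl⟩ ⟨Q, rfl⟩
    exact ⟨P + Q, by simp [add_mul, Finset.sum_add_distrib]⟩
  neg_mem' := by
    rintro x ⟨P, rfl⟩
    exact ⟨-P, by simp⟩

omit [Fintype k] [IsAlgClosed L] [IsDomain (L ⊗[k] E)] [Nonempty (GV k L)] in
theorem detB_sp_mul {w : Fin n → FL k E L} (P : L[X]) {x : FL k E L}
    (hx : x ∈ detBSp k t w) : detBEv k t L P * x ∈ detBSp k t w := by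
  obtain ⟨Q, rfl⟩ := hx
  exact ⟨fun a => P * Q a, by simp [Finset.mul_sum, mul_assoc]⟩

omit [Nonempty (GV k L)] in
theorem detB_sp_RA {w : Fin n → FL k E L}
    (hw : ∀ a ∈ OO k t, ∀ i, tm 1 a * w i ∈ detBSp k t w) {r : FL k E L} (hr : r ∈ RA k A t) :
    ∀ y ∈ detBSp k t w, r * y ∈ detBSp k t w := by
  induction hr using Subring.closure_induction with
  | mem r hr =>
    obtain ⟨c, -, a, ha, rfl⟩ := hr
    rintro y ⟨Q, rfl⟩
    rw [Finset.mul_sum]
    refine AddSubgroup.sum_mem _ fun i _ => ?_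
    have h4 := detB_sp_mul (C c * Q i) (hw a ha i)
    have e : (tm c a : FL k E L) = tm c 1 * tm 1 a := by rw [tm_mul, mul_one, one_mul]
    rw [map_mul, detB_ev_C] at h4
    convert h4 using 1
    rw [e]
    ring
  | zero => intro y _; rw [zero_mul]; exact zero_mem _
  | one => intro y hy; rwa [one_mul]
  | add r s _ _ hr hs => intro y hy; rw [add_mul]; exact add_mem (hr y hy) (hs y hy)
  | neg r _ hr => intro y hy; rw [neg_mul]; exact neg_mem (hr y hy)
  | mul r s _ _ hr hs => intro y hy; rw [mul_assoc]; exact hr _ (hs y hy)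

omit [Nonempty (GV k L)] in
theorem detB_sp_div {w : Fin n → FL k E L} {a : L} (ha : a ≠ 0) {x : FL k E L}
    (hx : tm a 1 * x ∈ detBSp k t w) : x ∈ detBSp k t w := by
  have := detB_sp_mul (C a⁻¹) hx
  rwa [detB_ev_C, ← mul_assoc, tm_mul, inv_mul_cancel₀ ha, mul_one, tm_one, one_mul] at this

omit [Nonempty (GV k L)] in
theorem detB_le (hb : IsBasis A t I b) {x : FL k E L} (hx : x ∈ I) : x ∈ detBSp k t b := by
  obtain ⟨a, -, a0, Q, -, e⟩ := hb.span x hx
  exact detB_sp_div a0 ⟨Q, e⟩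

omit [Fintype k] [IsAlgClosed L] [Nonempty (GV k L)] in
theorem detB_ne (hb : IsBasis A t I b) (c : Fin n) : b c ≠ 0 := fun h0 => by
  have := hb.indep (Pi.single c 1) (by
    simp only [detB_ev]
    rw [detB_single, h0, mul_zero])
  simpa using congrFun this c

theorem detB_generic (h : FF k t) (hl : Lat A t I) (hb : IsBasis A t I b) (β : L) :
    ∃ x ∈ detBSp k t b, x ≠ 0 ∧ ∀ z : Pt k E L, t ∈ z.O → z.ev t = β → ord z x = dv t I z := by
  choose ϖ hϖ using fun z : Pt k E L => ord_par h z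
  have hv : ∀ z : Pt k E L, t ∈ z.O → ∀ x ∈ detBSp k t b,
      HasVal z (x / ϖ z ^ dv t I z) (val z (x / ϖ z ^ dv t I z)) := by
    rintro z hz x ⟨Q, rfl⟩
    choose u hu using fun c => (ord_le_iff h (hϖ z) (detB_ne hb c) _).2
      (hl.dv_le h hz (hb.mem c) (detB_ne hb c))
    have := HasVal.sum Finset.univ fun c _ => (hasVal_eval₂ hz (Q c)).mul (hu c)
    simp only [← mul_div_assoc, ← Finset.sum_div, detB_ev] at this
    rwa [this.val_eq]
  have key : ∀ s : Finset (Pt k E L), (∀ z ∈ s, t ∈ z.O) →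
      ∃ x ∈ detBSp k t b, ∀ z ∈ s, val z (x / ϖ z ^ dv t I z) ≠ 0 := by
    intro s
    induction s using Finset.induction_on with
    | empty => exact fun _ => ⟨0, zero_mem _, fun z hz => absurd hz (Finset.notMem_empty z)⟩
    | insert y s hy ih =>
      intro hs
      obtain ⟨x, hx, hxs⟩ := ih fun z hz => hs z (Finset.mem_insert_of_mem hz)
      obtain ⟨x', hx', x0, e⟩ := hl.dv_attained h (hs y (Finset.mem_insert_self y s))
      have hy' : val y (x' / ϖ y ^ dv t I y) ≠ 0 := by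
        obtain ⟨c, c0, hc⟩ := ord_ho h (hϖ y) x0
        rwa [← e, hc.val_eq]
      obtain ⟨c, hc⟩ := Infinite.exists_notMem_finset ((insert y s).image fun z =>
        -val z (x / ϖ z ^ dv t I z) / val z (x' / ϖ z ^ dv t I z))
      refine ⟨x + detBEv k t L (C c) * x', add_mem hx (detB_sp_mul _ (detB_le hb hx')),
        fun z hz h0 => ?_⟩
      have h1 := (hv z (hs z hz) x hx).add ((hasVal_eval₂ (hs z hz) (C c)).mul
        (hv z (hs z hz) x' (detB_le hb hx')))
      rw [← mul_div_assoc, ← add_div, detB_ev, eval_C] at h1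
      rw [h1.val_eq] at h0
      by_cases h2 : val z (x' / ϖ z ^ dv t I z) = 0
      · rcases Finset.mem_insert.1 hz with rfl | hz'
        · exact hy' h2
        · rw [h2, mul_zero, add_zero] at h0
          exact hxs z hz' h0
      · refine hc (Finset.mem_image.2 ⟨z, hz, ?_⟩)
        rw [div_eq_iff h2]
        linear_combination -h0
  obtain ⟨x, hx, hxs⟩ := key (fibre_finite h β).toFinset fun z hz =>
    ((fibre_finite h β).mem_toFinset.1 hz).1
  refine ⟨x, hx, fun h0 => ?_, fun z hz hz' => ?_⟩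
  · obtain ⟨z, hz⟩ := fibre_nonempty (L := L) h β
    refine hxs z ((fibre_finite h β).mem_toFinset.2 hz) ?_
    rw [h0, zero_div, (hasVal_zero z).val_eq]
  · exact HO.ord_eq (hϖ z) ⟨_, hxs z ((fibre_finite h β).mem_toFinset.2 ⟨hz, hz'⟩), hv z hz x hx⟩

theorem detB_denom (h : FF k t) (hd : DualB k t L e e') (x : Fin n → FL k E L) (β : L)
    (hx : ∀ c, ∀ z : Pt k E L, t ∈ z.O → z.ev t = β → 0 ≤ ord z (x c)) :
    ∃ (p : L[X]) (S : Matrix (Fin n) (Fin n) L[X]), p.eval β ≠ 0 ∧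
      ∀ c, detBEv k t L p * x c = ∑ a, detBEv k t L (S c a) * tm 1 (e a) := by
  choose p hp hp' using fun c => exists_denom h (x c) β (hx c)
  have : ∀ c, detBEv k t L (∏ i, p i) * x c ∈ RA k (⊤ : Subring L) t := fun c => by
    rw [← Finset.prod_erase_mul _ _ (Finset.mem_univ c), map_mul, mul_assoc]
    exact mul_mem (eval₂_mem_RA fun _ => trivial) (hp' c)
  choose S _ hS using fun c => RA_repr hd (fun _ => Subring.mem_top _) (this c)
  exact ⟨∏ i, p i, Matrix.of S, by
    rw [eval_prod]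
    exact Finset.prod_ne_zero_iff.2 fun i _ => hp i, hS⟩

theorem detB_denom0 (h : FF k t) (hd : DualB k t L e e') (x : Fin n → FL k E L) :
    ∃ (p : L[X]) (S : Matrix (Fin n) (Fin n) L[X]), p ≠ 0 ∧
      ∀ c, detBEv k t L p * x c = ∑ a, detBEv k t L (S c a) * tm 1 (e a) := by
  choose p hp hp' using fun c => exists_denom0 h (x c)
  have : ∀ c, detBEv k t L (∏ i, p i) * x c ∈ RA k (⊤ : Subring L) t := fun c => by
    rw [← Finset.prod_erase_mul _ _ (Finset.mem_univ c), map_mul, mul_assoc]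
    exact mul_mem (eval₂_mem_RA fun _ => trivial) (hp' c)
  choose S _ hS using fun c => RA_repr hd (fun _ => Subring.mem_top _) (this c)
  exact ⟨∏ i, p i, Matrix.of S, Finset.prod_ne_zero_iff.2 fun i _ => hp i, hS⟩

theorem detB_root (h : FF k t) (hl : Lat A t I) (hd : DualB k t L e e') (hb : IsBasis A t I b)
    {p : L[X]} (hp : p ≠ 0) {S : Matrix (Fin n) (Fin n) L[X]}
    (hS : ∀ c, detBEv k t L p * b c = ∑ a, detBEv k t L (S c a) * tm 1 (e a)) (β : L) :
    S.det ≠ 0 ∧ (S.det.rootMultiplicity β : ℤ) = (p ^ n).rootMultiplicity β +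
      ∑ z ∈ (fibre_finite (L := L) h β).toFinset, dv t I z := by
  obtain ⟨x, hx, x0, hxo⟩ := detB_generic h hl hb β
  have h1 : ∀ a, tm 1 (e a) * x ∈ detBSp k t b := fun a =>
    detB_sp_RA (fun a ha i => detB_le hb (hl.mul_mem _ (tm_mem_RA (one_mem A) ha) _ (hb.mem i)))
      (tm_mem_RA (one_mem A) (hd.mem a)) x hx
  choose U hU using h1
  obtain ⟨p', V, hp', hV⟩ := detB_denom h hd (fun c => b c * x⁻¹) β fun c z hz hz' => by
    rw [ord_mul h z (detB_ne hb c) (inv_ne_zero x0), ord_inv h, hxo z hz hz', ← sub_eq_add_neg,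
      sub_nonneg]
    exact hl.dv_le h hz (hb.mem c) (detB_ne hb c)
  have h2 : V * Matrix.of U = p' • (1 : Matrix (Fin n) (Fin n) L[X]) := by
    refine Matrix.ext fun c => congrFun (detB_inj (ε := detBEv k t L) hb.indep
      (P := V c ᵥ* Matrix.of U) ?_)
    have e1 : (p' • (1 : Matrix (Fin n) (Fin n) L[X])) c = Pi.single c p' := by
      funext a
      simp [Matrix.one_apply, Pi.single_apply, eq_comm]
    rw [← detB_vm, e1, detB_single]
    simp only [Matrix.of_apply, ← hU]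
    have := congrArg (· * x) (hV c)
    simp only [mul_assoc, inv_mul_cancel₀ x0, mul_one, Finset.sum_mul] at this
    exact this.symm
  have h3 : (Matrix.of U).det.eval β ≠ 0 := fun h0 => by
    have := congrArg (fun M => (Matrix.det M).eval β) h2
    simp only [Matrix.det_mul, eval_mul, h0, mul_zero, Matrix.det_smul, Matrix.det_one, mul_one,
      eval_pow] at this
    exact pow_ne_zero _ hp' this.symm
  have p0 := detB_ev_ne h hp
  obtain ⟨h4, h5⟩ := norm_mult h hd (mul_ne_zero p0 x0) (T := Matrix.of U * S) (fun a => by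
    simp only [detB_ev]
    rw [mul_left_comm, hU, Finset.mul_sum]
    refine Eq.trans ?_ (detB_vm (detBEv k t L) (U a) S fun a => tm 1 (e a))
    exact Finset.sum_congr rfl fun c _ => by rw [← hS, mul_left_comm]) β
  obtain ⟨-, h6⟩ := norm_mult h hd p0 (T := p • (1 : Matrix (Fin n) (Fin n) L[X])) (fun a => by
    have e1 : (p • (1 : Matrix (Fin n) (Fin n) L[X])) a = Pi.single a p := by
      funext c
      simp [Matrix.one_apply, Pi.single_apply, eq_comm]
    simp only [detB_ev]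
    rw [e1, detB_single, mul_comm]) β
  rw [Matrix.det_smul, Matrix.det_one, mul_one, Fintype.card_fin,
    finsum_mem_eq_finite_toFinset_sum _ (fibre_finite h β)] at h6
  rw [Matrix.det_mul] at h4 h5
  rw [rootMultiplicity_mul h4, rootMultiplicity_eq_zero h3, zero_add,
    finsum_mem_eq_finite_toFinset_sum _ (fibre_finite h β)] at h5
  refine ⟨right_ne_zero_of_mul h4, ?_⟩
  rw [h5, h6, ← Finset.sum_add_distrib]
  refine Finset.sum_congr rfl fun z hz => ?_
  have hz' := (fibre_finite h β).mem_toFinset.1 hz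
  rw [ord_mul h z p0 x0, hxo z hz'.1 hz'.2]

omit [Fintype k] [IsAlgClosed L] [Nonempty (GV k L)] in
theorem detB_fin {z : Pt k E L} (hz : dv t I z ≠ 0) : t ∈ z.O := by
  by_contra h0
  exact hz (if_neg h0)

theorem detB_fibre (h : FF k t) {c : L} (hc : Transcendental k c) {lg : Fin n → (E →ₐ[k] L)}
    (hl : IsEnum t c lg) (h0 : ∀ a, dv t I (Pt.ofHom (lg a)) = 0) {z : Pt k E L} (hz : t ∈ z.O)
    (e : z.ev t = c) : dv t I z = 0 := by
  obtain ⟨y, rfl⟩ := z.eq_ofHom (by
    by_contra h1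
    exact hc (e ▸ (Pt.const_iff h hz).1 h1))
  obtain ⟨a, rfl⟩ := (hl.2 y).1 e
  exact h0 a

theorem detB_main (h : FF k t) (hl : Lat A t I) (hd : DualB k t L e e') (hb : IsBasis A t I b) :
    ∃ c₁ : L, c₁ ≠ 0 ∧ ∀ c : L, Transcendental k c → ∀ lg : Fin n → (E →ₐ[k] L), IsEnum t c lg →
      (∀ a, dv t I (Pt.ofHom (lg a)) = 0) →
      (Matrix.of fun a a' => val (Pt.ofHom (lg a)) (b a')).det =
        c₁ * (∏ z ∈ (hl.dv_finite h).toFinset, (c - z.ev t) ^ dv t I z) *
          (Matrix.of fun a a' => lg a (e a')).det := by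
  set Z := (hl.dv_finite h).toFinset with hZ
  have hZ' : ∀ z, z ∈ Z ↔ dv t I z ≠ 0 := fun z => (hl.dv_finite h).mem_toFinset
  set G : L[X] := ∏ z ∈ Z, (X - C (z.ev t)) ^ (dv t I z).toNat with hG
  set G' : L[X] := ∏ z ∈ Z, (X - C (z.ev t)) ^ (-dv t I z).toNat with hG'
  have G0 : G ≠ 0 := Finset.prod_ne_zero_iff.2 fun y _ => pow_ne_zero _ (X_sub_C_ne_zero _)
  have G0' : G' ≠ 0 := Finset.prod_ne_zero_iff.2 fun y _ => pow_ne_zero _ (X_sub_C_ne_zero _)
  obtain ⟨p₀, S₀, hp₀, hS₀⟩ := detB_denom0 h hd b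
  have S0 := (detB_root h hl hd hb hp₀ hS₀ 0).1
  obtain ⟨c₁, c0, hc₁⟩ := detB_prop (mul_ne_zero S0 G0') (mul_ne_zero (pow_ne_zero n hp₀) G0)
    fun β => by
      have e1 : ∑ z ∈ (fibre_finite (L := L) h β).toFinset, dv t I z =
          ∑ z ∈ Z, if z.ev t = β then dv t I z else 0 := by
        rw [← Finset.sum_filter]
        refine (Finset.sum_subset (fun z hz => ?_) fun z hz hz' => ?_).symm
        · rw [Finset.mem_filter, hZ'] at hz
          exact (fibre_finite h β).mem_toFinset.2 ⟨detB_fin hz.1, hz.2⟩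
        · by_contra h1
          exact hz' (Finset.mem_filter.2 ⟨(hZ' z).2 h1, ((fibre_finite h β).mem_toFinset.1 hz).2⟩)
      rw [rootMultiplicity_mul (mul_ne_zero S0 G0'),
        rootMultiplicity_mul (mul_ne_zero (pow_ne_zero n hp₀) G0), hG, hG', detB_mult, detB_mult,
        ← Nat.cast_inj (R := ℤ), Nat.cast_add, Nat.cast_add, (detB_root h hl hd hb hp₀ hS₀ β).2, e1,
        add_assoc, Nat.cast_sum, Nat.cast_sum, ← Finset.sum_add_distrib]
      congr 1
      refine Finset.sum_congr rfl fun z _ => ?_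
      split_ifs <;> omega
  refine ⟨c₁, c0, fun c hc lg hlg h0 => ?_⟩
  obtain ⟨p, S, hp, hS⟩ := detB_denom h hd b c fun a z hz hz' =>
    (detB_fibre h hc hlg h0 hz hz').ge.trans (hl.dv_le h hz (hb.mem a) (detB_ne hb a))
  have e1 : p • S₀ = p₀ • S := by
    refine Matrix.ext fun a => congrFun (detB_inj (ε := detBEv k t L) (hd.indepL h) ?_)
    simp only [Matrix.smul_apply, smul_eq_mul, map_mul, mul_assoc, ← Finset.mul_sum, ← hS, ← hS₀]
    exact mul_left_comm _ _ _
  have e2 : S.det * G' = C c₁ * (p ^ n * G) := by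
    have := congrArg Matrix.det e1
    rw [Matrix.det_smul, Matrix.det_smul, Fintype.card_fin] at this
    refine mul_left_cancel₀ (pow_ne_zero n hp₀) ?_
    linear_combination p ^ n * hc₁ - G' * this
  have e3 : p.eval c • (Matrix.of fun a a' => val (Pt.ofHom (lg a)) (b a')) =
      (Matrix.of fun a a' => lg a (e a')) * (S.map (evalRingHom c))ᵀ := by
    refine Matrix.ext fun a a' => ?_
    have ht : lg a t = c := (hlg.2 _).2 ⟨a, rfl⟩
    have h1 := (hasVal_eval₂ (p := Pt.ofHom (lg a)) (t := t) trivial p).mul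
      (hl.hasVal h (h0 a) (hb.mem a'))
    have h2 := HasVal.sum Finset.univ fun i _ =>
      (hasVal_eval₂ (p := Pt.ofHom (lg a)) (t := t) trivial (S a' i)).mul
        (hasVal_tm (Pt.ofHom (lg a)) 1 (a := e i) trivial)
    simp only [detB_ev, ← hS] at h1 h2
    have h3 := h1.unique h2
    simp only [Pt.ofHom_ev, ht, one_mul] at h3
    simp only [Matrix.smul_apply, Matrix.of_apply, smul_eq_mul, h3, Matrix.mul_apply,
      Matrix.transpose_apply, Matrix.map_apply, coe_evalRingHom, mul_comm]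
  have e4 := congrArg Matrix.det e3
  rw [Matrix.det_smul, Fintype.card_fin, Matrix.det_mul, Matrix.det_transpose,
    ← RingHom.mapMatrix_apply, ← RingHom.map_det, coe_evalRingHom] at e4
  have hne : ∀ z ∈ Z, c - z.ev t ≠ 0 := fun z hz h1 =>
    (hZ' z).1 hz (detB_fibre h hc hlg h0 (detB_fin ((hZ' z).1 hz)) (sub_eq_zero.1 h1).symm)
  have e5 : (∏ z ∈ Z, (c - z.ev t) ^ dv t I z) * G'.eval c = G.eval c := by
    rw [hG, hG', eval_prod, eval_prod, ← Finset.prod_mul_distrib]
    refine Finset.prod_congr rfl fun z hz => ?_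
    rw [eval_pow, eval_pow, eval_sub, eval_X, eval_C, ← zpow_natCast, ← zpow_natCast,
      ← zpow_add₀ (hne z hz)]
    congr 1
    omega
  have e6 : G'.eval c ≠ 0 := by
    rw [hG', eval_prod]
    refine Finset.prod_ne_zero_iff.2 fun z hz => ?_
    rw [eval_pow, eval_sub, eval_X, eval_C]
    exact pow_ne_zero _ (hne z hz)
  have e7 := congrArg (eval c) e2
  rw [eval_mul, eval_mul, eval_mul, eval_C, eval_pow, ← e5] at e7
  refine mul_left_cancel₀ (mul_ne_zero (pow_ne_zero n hp) e6) ?_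
  linear_combination eval c G' * e4 + (Matrix.of fun a a' => lg a (e a')).det * e7

theorem det_basis (h : FF k t) (hl : Lat A t I) (hd : DualB k t L e e') (hb : IsBasis A t I b) :
    ∃ c₁ : L, c₁ ≠ 0 ∧ ∀ c : L, Transcendental k c → ∀ lg : Fin n → (E →ₐ[k] L), IsEnum t c lg →
      (∀ a, dv t I (Pt.ofHom (lg a)) = 0) →
      (Matrix.of fun a a' => val (Pt.ofHom (lg a)) (b a')).det =
        c₁ * (∏ᶠ z : Pt k E L, (c - z.ev t) ^ dv t I z) *
          (Matrix.of fun a a' => lg a (e a')).det := by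
  obtain ⟨c₁, c0, H⟩ := detB_main h hl hd hb
  refine ⟨c₁, c0, fun c hc lg hlg h0 => ?_⟩
  rw [H c hc lg hlg h0, finprod_eq_prod_of_mulSupport_subset (s := (hl.dv_finite h).toFinset)]
  intro z hz
  refine (hl.dv_finite h).mem_toFinset.2 fun h1 => hz ?_
  simp only [h1, zpow_zero]

theorem far_det (h : FF k t) (hl : Lat A t I) (hd : DualB k t L e e') (hb : IsBasis A t I b)
    (w : GV k L) :
    ∃ κ : ℝ, ∀ c : L, Transcendental k c → ∀ lg : Fin n → (E →ₐ[k] L), IsEnum t c lg →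
      (∀ a, dv t I (Pt.ofHom (lg a)) = 0) →
      (Matrix.of fun a a' => val (Pt.ofHom (lg a)) (b a')).det ≠ 0 ∧
      Real.log (w.v (Matrix.of fun a a' => val (Pt.ofHom (lg a)) (b a')).det) -
          Real.log (w.v (Matrix.of fun a a' => lg a (e a')).det) + ∑ a, dI w t I (lg a) =
        κ + degL t I * Real.posLog (w.v c) := by
  obtain ⟨c₁, c0, H⟩ := detB_main h hl hd hb
  set Z := (hl.dv_finite h).toFinset with hZ
  have hZ' : ∀ z, z ∈ Z ↔ dv t I z ≠ 0 := fun z => (hl.dv_finite h).mem_toFinset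
  refine ⟨Real.log (w.v c₁) + ∑ z ∈ Z, (dv t I z : ℝ) * Real.posLog (w.v (z.ev t)),
    fun c hc lg hlg h0 => ?_⟩
  have hne : ∀ z ∈ Z, c - z.ev t ≠ 0 := fun z hz h1 =>
    (hZ' z).1 hz (detB_fibre h hc hlg h0 (detB_fin ((hZ' z).1 hz)) (sub_eq_zero.1 h1).symm)
  have d0 := left_ne_zero_of_mul_eq_one (det_mul_det h hd hlg)
  have P0 : ∏ z ∈ Z, (c - z.ev t) ^ dv t I z ≠ 0 :=
    Finset.prod_ne_zero_iff.2 fun z hz => zpow_ne_zero _ (hne z hz)
  have v0 : ∀ {x : L}, x ≠ 0 → ((w.v x : ℝ≥0) : ℝ) ≠ 0 := fun hx =>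
    NNReal.coe_ne_zero.2 ((map_ne_zero w.v).2 hx)
  rw [H c hc lg hlg h0]
  refine ⟨mul_ne_zero (mul_ne_zero c0 P0) d0, ?_⟩
  have e1 : ∀ g : Pt k E L → ℝ, ∑ᶠ z, (dv t I z : ℝ) * g z = ∑ z ∈ Z, (dv t I z : ℝ) * g z :=
    fun g => finsum_eq_sum_of_support_subset _ fun z hz => (hZ' z).2 fun h1 => hz (by
      simp only [h1, Int.cast_zero, zero_mul])
  have e2 : degL t I = ∑ z ∈ Z, (dv t I z : ℝ) := by simpa [degL] using e1 fun _ => 1
  have e3 : Real.log (w.v (∏ z ∈ Z, (c - z.ev t) ^ dv t I z)) =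
      ∑ z ∈ Z, (dv t I z : ℝ) * Real.log (w.v (c - z.ev t)) := by
    rw [map_prod, NNReal.coe_prod, Real.log_prod fun z hz => v0 (zpow_ne_zero _ (hne z hz))]
    exact Finset.sum_congr rfl fun z _ => by rw [map_zpow₀, NNReal.coe_zpow, Real.log_zpow]
  rw [map_mul, NNReal.coe_mul, Real.log_mul (v0 (mul_ne_zero c0 P0)) (v0 d0), add_sub_cancel_right,
    map_mul, NNReal.coe_mul, Real.log_mul (v0 c0) (v0 P0), e3, e2, add_assoc, add_assoc,
    Finset.sum_mul, ← Finset.sum_add_distrib]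
  simp only [dI, e1]
  rw [Finset.sum_comm, ← Finset.sum_add_distrib]
  congr 1
  refine Finset.sum_congr rfl fun z hz => ?_
  rw [← Finset.mul_sum, ← mul_add, ← mul_add, sum_ipt_fibre h w hc hlg (detB_fin ((hZ' z).1 hz))
    (sub_ne_zero.1 (hne z hz)).symm, add_comm]

omit [Nonempty (GV k L)] in
theorem detB_mapF (Q : L[X]) :
    mapF (fr k L) (detBEv k t L Q) = detBEv k t L (Q.map (fr k L : L →+* L)) := by
  induction Q using Polynomial.induction_on with
  | C c => rw [map_C, detB_ev_C, detB_ev_C, mapF_tm]; rfl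
  | add P Q hP hQ => rw [map_add, map_add, hP, hQ, Polynomial.map_add, map_add]
  | monomial n c ih =>
    rw [pow_succ, ← mul_assoc, map_mul, map_mul, ih, Polynomial.map_mul _ (q := X), map_mul, map_X,
      detB_ev_X, mapF_tm, map_one]

theorem IsBasis.phi (h : FF k t) (hS : Sht A t θ f I D) (hb : IsBasis A t I b) :
    ∃ (Φ : Matrix (Fin n) (Fin n) L[X]) (c₀ : L) (m : ℕ), c₀ ≠ 0 ∧
      Φ.det = Polynomial.C c₀ * (X - Polynomial.C θ) ^ m ∧
      ∀ c, f * mapF (fr k L) (b c) = ∑ c', eval₂ (tmL k E L) (tm 1 t) (Φ c c') * b c' := by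
  choose Φ hΦ using fun c => detB_le hb (hS.le (mem_tauLat (f := f) (hb.mem c)))
  have h1 : ∀ x ∈ I, f * mapF (fr k L) x ∈ detBSp k t fun a => f * mapF (fr k L) (b a) := by
    intro x hx
    obtain ⟨Q, rfl⟩ := detB_le hb hx
    refine ⟨fun a => (Q a).map (fr k L : L →+* L), ?_⟩
    rw [map_sum, Finset.mul_sum]
    exact Finset.sum_congr rfl fun a _ => by rw [map_mul, detB_mapF, mul_left_comm]
  have h2 : tauLat A t f I ≤ detBSp k t fun a => f * mapF (fr k L) (b a) := by
    refine (AddSubgroup.closure_le _).2 ?_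
    rintro y ⟨r, hr, x, hx, rfl⟩
    refine detB_sp_RA (fun a ha i => ?_) hr _ (h1 x hx)
    have := h1 _ (hS.lat.mul_mem _ (tm_mem_RA (one_mem A) ha) _ (hb.mem i))
    rwa [map_mul, mapF_tm, map_one, mul_left_comm] at this
  obtain ⟨N, hN⟩ := hS.pow
  choose Ψ hΨ using fun c => h2 (hN _ (hb.mem c))
  have h3 : Matrix.of Ψ * Matrix.of Φ = (X - C θ) ^ N • (1 : Matrix (Fin n) (Fin n) L[X]) := by
    refine Matrix.ext fun c => congrFun (detB_inj (ε := detBEv k t L) hb.indep
      (P := Ψ c ᵥ* Matrix.of Φ) ?_)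
    have e1 : ((X - C θ) ^ N • (1 : Matrix (Fin n) (Fin n) L[X])) c =
        Pi.single c ((X - C θ) ^ N) := by
      funext a
      simp [Matrix.one_apply, Pi.single_apply, eq_comm]
    rw [← detB_vm, e1, detB_single, map_pow, map_sub, detB_ev_X, detB_ev_C, hΨ]
    simp only [Matrix.of_apply, ← hΦ]
  have h4 := congrArg Matrix.det h3
  rw [Matrix.det_mul, Matrix.det_smul, Matrix.det_one, mul_one, ← pow_mul] at h4
  obtain ⟨m, -, u, hu⟩ := (dvd_prime_pow (prime_X_sub_C θ) _).1 (Dvd.intro_left _ h4)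
  obtain ⟨c₀, hc₀, e⟩ := Polynomial.isUnit_iff.1 u⁻¹.isUnit
  refine ⟨Matrix.of Φ, c₀, m, hc₀.ne_zero, ?_, hΦ⟩
  rw [e, ← hu, mul_comm, Units.mul_inv_cancel_right]

end Pool.Agent.FFC
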