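import Pool.Agent.P.MP_a2beea_nt.FC.Defs3

/-! Rearrangement of the Dirichlet series. `X ^ (q ^ n) - X` is separable and is the product of the
monic irreducible polynomials of degree dividing `n` (search for
`natDegree_dvd_iff_dvd_X_pow_card_pow_sub_X`). The map `(π, j) ↦ (j + 1) * deg π - 1` has the
finite fibres `{π | deg π ∣ n + 1}`; use `HasSum.sigma` / `Equiv.sigmaFiberEquiv` and absolute
summability (`summable_sigma_of_nonneg`), the `n`-th block has norm at most
`B * log q * q ^ (n + 1) * q ^ (-(n + 1) re s)`. -/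

open Polynomial
open scoped TensorProduct NNReal IntermediateField

namespace Pool.Agent.FFC

open Classical

variable {k : Type*} [Field k] [Fintype k]

theorem dir_ne_zero {n : ℕ} (hn : 1 ≤ n) : (X ^ Nat.card k ^ n - X : k[X]) ≠ 0 :=
  FiniteField.X_pow_card_pow_sub_X_ne_zero k (by omega) Finite.one_lt_card

theorem dir_mem_iff {n : ℕ} (hn : 1 ≤ n) (p : k[X]) :
    p ∈ (UniqueFactorizationMonoid.normalizedFactors (X ^ Nat.card k ^ n - X : k[X])).toFinset ↔
      (p.Monic ∧ Irreducible p) ∧ p.natDegree ∣ n := by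
  rw [Multiset.mem_toFinset, Polynomial.mem_normalizedFactors_iff (dir_ne_zero hn)]
  constructor
  · rintro ⟨h1, h2, h3⟩
    exact ⟨⟨h2, h1⟩, h1.natDegree_dvd_iff_dvd_X_pow_card_pow_sub_X.2 h3⟩
  · rintro ⟨⟨h2, h1⟩, h3⟩
    exact ⟨h1, h2, h1.natDegree_dvd_iff_dvd_X_pow_card_pow_sub_X.1 h3⟩

theorem dir_deg_sum {n : ℕ} (hn : 1 ≤ n) :
    ∑ p ∈ (UniqueFactorizationMonoid.normalizedFactors (X ^ Nat.card k ^ n - X : k[X])).toFinset,
      p.natDegree = Fintype.card k ^ n := by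
  obtain ⟨p, hp⟩ := CharP.exists k
  have hsep : (X ^ Nat.card k ^ n - X : k[X]).Separable := by
    refine galois_poly_separable p _ (dvd_pow ?_ (by omega))
    rw [← CharP.cast_eq_zero_iff k p, Nat.card_eq_fintype_card]
    exact FiniteField.cast_card_eq_zero k
  have hnd := (UniqueFactorizationMonoid.squarefree_iff_nodup_normalizedFactors
    (dir_ne_zero hn)).1 hsep.squarefree
  have h1 : ((UniqueFactorizationMonoid.normalizedFactors
      (X ^ Nat.card k ^ n - X : k[X])).prod).natDegree = Fintype.card k ^ n := by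
    rw [natDegree_eq_of_degree_eq (degree_eq_degree_of_associated
      (UniqueFactorizationMonoid.prod_normalizedFactors (dir_ne_zero hn))),
      FiniteField.X_pow_card_pow_sub_X_natDegree_eq k (by omega) Finite.one_lt_card,
      Nat.card_eq_fintype_card]
  rw [natDegree_multiset_prod _ (UniqueFactorizationMonoid.zero_notMem_normalizedFactors _)] at h1
  rw [← h1, Finset.sum_eq_multiset_sum, Multiset.toFinset_val, hnd.dedup]

theorem finPl_finite {n : ℕ} (hn : 1 ≤ n) : {π : FinPl k | π.1.natDegree ∣ n}.Finite := by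
  have e : {π : FinPl k | π.1.natDegree ∣ n} = Subtype.val ⁻¹'
      ((UniqueFactorizationMonoid.normalizedFactors
        (X ^ Nat.card k ^ n - X : k[X])).toFinset : Set k[X]) := by
    ext π
    simp only [Set.mem_ofPred_eq, Set.mem_preimage, Finset.mem_coe, dir_mem_iff hn]
    exact ⟨fun h => ⟨π.2, h⟩, fun h => h.2⟩
  rw [e]
  exact (Finset.finite_toSet _).preimage Subtype.val_injective.injOn

theorem dir_sum_fin {n : ℕ} (hn : 1 ≤ n) :
    ∑ π ∈ (finPl_finite (k := k) hn).toFinset,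
        Real.log ((Fintype.card k : ℝ) ^ π.1.natDegree) =
      Real.log (Fintype.card k) * (Fintype.card k : ℝ) ^ n := by
  have h1 : ∑ π ∈ (finPl_finite (k := k) hn).toFinset, π.1.natDegree = Fintype.card k ^ n := by
    rw [← dir_deg_sum hn]
    refine Finset.sum_bij (fun π _ => π.1) (fun π hπ => ?_) (fun a _ b _ h => Subtype.ext h)
      (fun p hp => ?_) fun _ _ => rfl
    · rw [dir_mem_iff hn]
      exact ⟨π.2, by simpa using hπ⟩
    · rw [dir_mem_iff hn] at hp
      exact ⟨⟨p, hp.1⟩, by simpa using hp.2, rfl⟩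
  simp only [Real.log_pow]
  rw [← Finset.sum_mul, ← Nat.cast_sum, h1, mul_comm, Nat.cast_pow]

theorem dir_log_nonneg (d : ℕ) : 0 ≤ Real.log ((Fintype.card k : ℝ) ^ d) :=
  Real.log_nonneg (one_le_pow₀ (by exact_mod_cast Fintype.card_pos))

theorem finPl_sum {n : ℕ} (hn : 1 ≤ n) :
    ∑ᶠ π ∈ {π : FinPl k | π.1.natDegree ∣ n}, Real.log ((Fintype.card k : ℝ) ^ π.1.natDegree) =
      Real.log (Fintype.card k) * (Fintype.card k : ℝ) ^ n := by
  rw [finsum_mem_eq_finite_toFinset_sum _ (finPl_finite hn)]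
  exact dir_sum_fin hn

theorem dir_bound (β : FinPl k → ℕ → ℝ) {B : ℝ} (hβ : ∀ π n, |β π n| ≤ B) {n : ℕ} (hn : 1 ≤ n) :
    |∑ᶠ π ∈ {π : FinPl k | π.1.natDegree ∣ n},
        Real.log ((Fintype.card k : ℝ) ^ π.1.natDegree) * β π n| ≤
      B * Real.log (Fintype.card k) * (Fintype.card k : ℝ) ^ n := by
  rw [finsum_mem_eq_finite_toFinset_sum _ (finPl_finite hn), mul_assoc, ← dir_sum_fin hn,
    Finset.mul_sum]
  refine (Finset.abs_sum_le_sum_abs _ _).trans (Finset.sum_le_sum fun π _ => ?_)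
  rw [abs_mul, abs_of_nonneg (dir_log_nonneg _), mul_comm]
  exact mul_le_mul_of_nonneg_right (hβ π n) (dir_log_nonneg _)

/-- The places of degree dividing `n + 1`. -/
noncomputable def dirT (k : Type*) [Field k] [Fintype k] (n : ℕ) : Finset (FinPl k) :=
  (finPl_finite (k := k) (n := n + 1) (by omega)).toFinset

theorem mem_dirT {n : ℕ} {π : FinPl k} : π ∈ dirT k n ↔ π.1.natDegree ∣ n + 1 := by
  simp [dirT]

/-- The rearrangement. -/
noncomputable def dirE (k : Type*) [Field k] [Fintype k] :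
    (Σ n : ℕ, {π : FinPl k // π ∈ dirT k n}) ≃ FinPl k × ℕ :=
  Equiv.ofBijective (fun y => (y.2.1, (y.1 + 1) / y.2.1.1.natDegree - 1)) (by
    constructor
    · rintro ⟨n, π, hπ⟩ ⟨m, ρ, hρ⟩ h
      obtain ⟨h1, h2⟩ := Prod.mk.inj h
      dsimp only at h1 h2
      subst h1
      have hd := π.2.2.natDegree_pos
      obtain ⟨a, ha⟩ := mem_dirT.1 hπ
      obtain ⟨b, hb⟩ := mem_dirT.1 hρ
      rw [ha, hb, Nat.mul_div_cancel_left _ hd, Nat.mul_div_cancel_left _ hd] at h2
      have ha0 : a ≠ 0 := by rintro rfl; omega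
      have hb0 : b ≠ 0 := by rintro rfl; omega
      have hab : a = b := by omega
      subst hab
      have hnm : n = m := by omega
      subst hnm
      rfl
    · rintro ⟨π, j⟩
      have hd := π.2.2.natDegree_pos
      have h0 : 0 < (j + 1) * π.1.natDegree := Nat.mul_pos (by omega) hd
      have h1 : (j + 1) * π.1.natDegree - 1 + 1 = (j + 1) * π.1.natDegree := by omega
      refine ⟨⟨(j + 1) * π.1.natDegree - 1, π, mem_dirT.2 ?_⟩, ?_⟩
      · rw [h1]; exact Dvd.intro_left _ rfl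
      · dsimp only
        rw [h1, Nat.mul_div_cancel _ hd]
        rfl)

theorem dirE_fst (y : Σ n : ℕ, {π : FinPl k // π ∈ dirT k n}) : (dirE k y).1 = y.2.1 := rfl

theorem dirE_snd (y : Σ n : ℕ, {π : FinPl k // π ∈ dirT k n}) :
    ((dirE k y).2 + 1) * y.2.1.1.natDegree = y.1 + 1 := by
  obtain ⟨n, π, hπ⟩ := y
  show ((n + 1) / π.1.natDegree - 1 + 1) * π.1.natDegree = n + 1
  have hd := π.2.2.natDegree_pos
  obtain ⟨a, ha⟩ := mem_dirT.1 hπ
  have ha0 : a ≠ 0 := by rintro rfl; omega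
  rw [ha, Nat.mul_div_cancel_left _ hd, Nat.sub_add_cancel (by omega), mul_comm]

theorem dir_sum (β : FinPl k → ℕ → ℝ) {B : ℝ} (hβ : ∀ π n, |β π n| ≤ B) {s : ℂ} (hs : 1 < s.re)
    {z : ℂ} (H : HasSum (fun n : ℕ => ((∑ᶠ π ∈ {π : FinPl k | π.1.natDegree ∣ n + 1},
        Real.log ((Fintype.card k : ℝ) ^ π.1.natDegree) * β π (n + 1) : ℝ) : ℂ) *
      (Fintype.card k : ℂ) ^ (-((n + 1 : ℕ) : ℂ) * s)) z) :
    HasSum (fun x : FinPl k × ℕ =>
      -((Real.log ((Fintype.card k : ℝ) ^ x.1.1.natDegree) *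
          β x.1 ((x.2 + 1) * x.1.1.natDegree) : ℝ) : ℂ) *
        ((Fintype.card k : ℂ) ^ x.1.1.natDegree) ^ (-((x.2 + 1 : ℕ) : ℂ) * s)) (-z) := by
  have hq1 : (1 : ℝ) < Fintype.card k := by exact_mod_cast Fintype.one_lt_card
  have hq0 : (0 : ℝ) < Fintype.card k := by linarith
  refine HasSum.neg (f := fun x : FinPl k × ℕ =>
    ((Real.log ((Fintype.card k : ℝ) ^ x.1.1.natDegree) *
          β x.1 ((x.2 + 1) * x.1.1.natDegree) : ℝ) : ℂ) *
        ((Fintype.card k : ℂ) ^ x.1.1.natDegree) ^ (-((x.2 + 1 : ℕ) : ℂ) * s)) ?_ |>.congr_fun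
    fun x => by simp only [neg_mul]
  rw [← (dirE k).hasSum_iff]
  have e : ((fun x : FinPl k × ℕ =>
      ((Real.log ((Fintype.card k : ℝ) ^ x.1.1.natDegree) *
          β x.1 ((x.2 + 1) * x.1.1.natDegree) : ℝ) : ℂ) *
        ((Fintype.card k : ℂ) ^ x.1.1.natDegree) ^ (-((x.2 + 1 : ℕ) : ℂ) * s)) ∘ dirE k) =
      fun y => ((Real.log ((Fintype.card k : ℝ) ^ y.2.1.1.natDegree) * β y.2.1 (y.1 + 1) : ℝ) : ℂ) *
        (Fintype.card k : ℂ) ^ (-((y.1 + 1 : ℕ) : ℂ) * s) := by
    funext y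
    simp only [Function.comp, dirE_fst]
    rw [dirE_snd, ← Complex.natCast_cpow_natCast_mul, ← dirE_snd y]
    congr 2
    push_cast
    ring
  rw [e]
  refine HasSum.sigma_of_hasSum H (fun n => ?_) ?_
  · refine HasSum.mul_right _ ?_
    rw [finsum_mem_eq_finite_toFinset_sum _ (finPl_finite (by omega)), Complex.ofReal_sum]
    exact (dirT k n).hasSum fun π =>
      ((Real.log ((Fintype.card k : ℝ) ^ π.1.natDegree) * β π (n + 1) : ℝ) : ℂ)
  · have hr0 : 0 ≤ (Fintype.card k : ℝ) ^ (1 - s.re) := (Real.rpow_pos_of_pos hq0 _).le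
    have hr1 : (Fintype.card k : ℝ) ^ (1 - s.re) < 1 :=
      Real.rpow_lt_one_of_one_lt_of_neg hq1 (by linarith)
    have hB : ∀ π : FinPl k, 0 ≤ B := fun π => (abs_nonneg _).trans (hβ π 0)
    refine Summable.of_norm_bounded (g := fun y : Σ n : ℕ, {π : FinPl k // π ∈ dirT k n} =>
      Real.log ((Fintype.card k : ℝ) ^ y.2.1.1.natDegree) *
        (B * (Fintype.card k : ℝ) ^ (-((y.1 + 1 : ℕ) : ℝ) * s.re))) ?_ fun y => ?_
    · rw [summable_sigma_of_nonneg fun y => mul_nonneg (dir_log_nonneg _)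
        (mul_nonneg (hB y.2.1) (Real.rpow_pos_of_pos hq0 _).le)]
      refine ⟨fun n => Summable.of_finite, ?_⟩
      have h1 : ∀ n : ℕ, ∑' π : {π : FinPl k // π ∈ dirT k n},
          Real.log ((Fintype.card k : ℝ) ^ π.1.1.natDegree) *
            (B * (Fintype.card k : ℝ) ^ (-((n + 1 : ℕ) : ℝ) * s.re)) =
          Real.log (Fintype.card k) * B * (Fintype.card k : ℝ) ^ (1 - s.re) *
            ((Fintype.card k : ℝ) ^ (1 - s.re)) ^ n := by
        intro n
        rw [tsum_mul_right, (dirT k n).tsum_subtype fun π =>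
          Real.log ((Fintype.card k : ℝ) ^ π.1.natDegree), dirT, dir_sum_fin (by omega)]
        have h2 : (Fintype.card k : ℝ) ^ (n + 1) * (Fintype.card k : ℝ) ^ (-((n + 1 : ℕ) : ℝ) * s.re)
            = ((Fintype.card k : ℝ) ^ (1 - s.re)) ^ (n + 1) := by
          rw [← Real.rpow_natCast, ← Real.rpow_add hq0, ← Real.rpow_natCast, ← Real.rpow_mul hq0.le]
          congr 1
          ring
        rw [pow_succ' ((Fintype.card k : ℝ) ^ (1 - s.re))] at h2
        linear_combination (Real.log (Fintype.card k) * B) * h2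
      simp only [h1]
      exact (summable_geometric_of_lt_one hr0 hr1).mul_left _
    · rw [norm_mul, Complex.norm_real, Real.norm_eq_abs, abs_mul, abs_of_nonneg (dir_log_nonneg _),
        Complex.norm_natCast_cpow_of_pos Fintype.card_pos, mul_assoc]
      refine mul_le_mul_of_nonneg_left ?_ (dir_log_nonneg _)
      have e2 : (-((y.1 + 1 : ℕ) : ℂ) * s).re = -((y.1 + 1 : ℕ) : ℝ) * s.re := by
        rw [← Complex.ofReal_natCast, ← Complex.ofReal_neg, Complex.re_ofReal_mul]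
      rw [e2]
      exact mul_le_mul_of_nonneg_right (hβ _ _) (Real.rpow_pos_of_pos hq0 _).le

end Pool.Agent.FFC
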