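import Pool.Agent.P.MP_a2beea_nt.FC.Div

/-! The Gauss norm. `gT_sum`: extend to a basis and compare two `k`-bases; the change of basis has
entries in `k`, of absolute value `≤ 1`. Multiplicativity: scale to norm `1`, reduce the
coefficients to constants (`GV.rc`); a nonzero element with constant coefficients has norm `1`,
and the product of two of them is a nonzero element with constant coefficients since `L ⊗ E` is a
domain. -/

open Polynomial
open scoped TensorProduct NNReal IntermediateField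

namespace Pool.Agent.FFC

open Classical

variable {k : Type*} [Field k] [Fintype k] {E : Type*} [Field E] [Algebra k E] {t : E}
  {L : Type*} [Field L] [Algebra k L] [IsAlgClosed L]
  [IsDomain (L ⊗[k] E)]

namespace GaussAux

/-- The coordinates of an element of the tensor product in the chosen basis. -/
noncomputable def co (x : L ⊗[k] E) : Module.Basis.ofVectorSpaceIndex k E →₀ L :=
  (Algebra.TensorProduct.basis L (Module.Basis.ofVectorSpace k E)).repr x

theorem gT_def (w : GV k L) (x : L ⊗[k] E) :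
    gT w x = (co x).support.sup fun i => w.v (co x i) := rfl

theorem co_add (x y : L ⊗[k] E) : co (x + y) = co x + co y := map_add _ x y

theorem co_neg (x : L ⊗[k] E) : co (-x) = -co x := map_neg _ x

theorem co_smul (c : L) (x : L ⊗[k] E) : co (c • x) = c • co x := map_smul _ c x

theorem co_eq_zero (x : L ⊗[k] E) : co x = 0 ↔ x = 0 := LinearEquiv.map_eq_zero_iff _

theorem co_tmul (c : L) (a : E) (i : Module.Basis.ofVectorSpaceIndex k E) :
    co (c ⊗ₜ[k] a) i = c * algebraMap k L ((Module.Basis.ofVectorSpace k E).repr a i) := by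
  simp [co, Algebra.TensorProduct.basis_repr_tmul]

theorem co_sum {ι : Type*} (s : Finset ι) (x : ι → L ⊗[k] E)
    (j : Module.Basis.ofVectorSpaceIndex k E) : co (∑ i ∈ s, x i) j = ∑ i ∈ s, co (x i) j := by
  simp [co]

theorem eq_sum (x : L ⊗[k] E) :
    x = ∑ i ∈ (co x).support, co x i ⊗ₜ[k] Module.Basis.ofVectorSpace k E i := by
  have h := (Algebra.TensorProduct.basis L (Module.Basis.ofVectorSpace k E)).linearCombination_repr x
  rw [Finsupp.linearCombination_apply, Finsupp.sum] at h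
  refine h.symm.trans (Finset.sum_congr rfl fun i _ => ?_)
  rw [Algebra.TensorProduct.basis_apply, TensorProduct.smul_tmul', smul_eq_mul, mul_one]
  rfl

theorem v_co_le (w : GV k L) (x : L ⊗[k] E) (i : Module.Basis.ofVectorSpaceIndex k E) :
    w.v (co x i) ≤ gT w x := by
  by_cases h : i ∈ (co x).support
  · exact Finset.le_sup (f := fun i => w.v (co x i)) h
  · rw [Finsupp.notMem_support_iff.1 h, map_zero]
    exact zero_le

theorem gT_le_iff (w : GV k L) (x : L ⊗[k] E) (r : ℝ≥0) :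
    gT w x ≤ r ↔ ∀ i, w.v (co x i) ≤ r :=
  ⟨fun h i => (v_co_le w x i).trans h, fun h => Finset.sup_le fun i _ => h i⟩

theorem exists_co (w : GV k L) {x : L ⊗[k] E} (hx : x ≠ 0) :
    ∃ i, co x i ≠ 0 ∧ gT w x = w.v (co x i) := by
  have h : (co x).support.Nonempty :=
    Finsupp.support_nonempty_iff.2 fun h => hx ((co_eq_zero x).1 h)
  obtain ⟨i, hi, h'⟩ := Finset.exists_mem_eq_sup _ h fun i => w.v (co x i)
  exact ⟨i, Finsupp.mem_support_iff.1 hi, h'⟩

theorem v_mul_alg_le (w : GV k L) (c : L) (a : k) : w.v (c * algebraMap k L a) ≤ w.v c := by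
  rw [map_mul]
  exact mul_le_of_le_one_right zero_le (w.alg_le (isAlgebraic_algebraMap a))

theorem gT_zero (w : GV k L) : gT w (0 : L ⊗[k] E) = 0 := by
  rw [gT_def, (co_eq_zero (0 : L ⊗[k] E)).2 rfl]
  simp

theorem tmul_one_mul (c : L) (x : L ⊗[k] E) : (c ⊗ₜ[k] (1 : E)) * x = c • x := by
  rw [Algebra.smul_def]
  rfl

theorem gT_smul (w : GV k L) (c : L) (x : L ⊗[k] E) : gT w (c • x) = w.v c * gT w x := by
  apply le_antisymm
  · rw [gT_le_iff]
    intro i
    rw [co_smul, Finsupp.smul_apply, smul_eq_mul, map_mul]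
    exact mul_le_mul_right (v_co_le w x i) _
  · by_cases hx : x = 0
    · rw [hx, gT_zero, mul_zero]
      exact zero_le
    · obtain ⟨i, -, hi⟩ := exists_co w hx
      have h := v_co_le w (c • x) i
      rwa [co_smul, Finsupp.smul_apply, smul_eq_mul, map_mul, ← hi] at h

/-- Contraction of the tensor product with a linear form. -/
noncomputable def contr (φ : E →ₗ[k] k) : L ⊗[k] E →ₗ[k] L :=
  (TensorProduct.rid k L).toLinearMap.comp (LinearMap.lTensor L φ)

theorem contr_tmul (φ : E →ₗ[k] k) (c : L) (a : E) :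
    contr φ (c ⊗ₜ[k] a) = c * algebraMap k L (φ a) := by
  simp [contr, Algebra.smul_def, mul_comm]

theorem v_contr_le (w : GV k L) (φ : E →ₗ[k] k) (x : L ⊗[k] E) : w.v (contr φ x) ≤ gT w x := by
  conv_lhs => rw [eq_sum x, map_sum]
  refine w.v.map_sum_le fun i _ => ?_
  rw [contr_tmul]
  exact (v_mul_alg_le w _ _).trans (v_co_le w x i)

theorem fin_rep {ι : Type*} (s : Finset ι) (b : ι → L) (a : ι → E) :
    ∃ (e : Fin s.card → ι), (∀ i, e i ∈ s) ∧
      ∑ i ∈ s, b i ⊗ₜ[k] a i = ∑ i, b (e i) ⊗ₜ[k] a (e i) := by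
  refine ⟨fun i => (s.equivFin.symm i : ι), fun i => (s.equivFin.symm i).2, ?_⟩
  rw [← Finset.sum_coe_sort s]
  exact (Equiv.sum_comp s.equivFin.symm fun i : s => b i ⊗ₜ[k] a i).symm

theorem const_co {O : ValuationSubring E} {x : L ⊗[k] E} (hx : ConstT O x)
    (j : Module.Basis.ofVectorSpaceIndex k E) : IsAlgebraic k (co x j) := by
  obtain ⟨n, b, a, -, hb, rfl⟩ := hx
  rw [co_sum, isAlgebraic_iff_isIntegral]
  refine IsIntegral.sum _ fun i _ => ?_
  rw [co_tmul]
  exact (hb i).isIntegral.mul isIntegral_algebraMap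

theorem const_of_co {x : L ⊗[k] E} (hx : ∀ j, IsAlgebraic k (co x j)) : ConstT ⊤ x := by
  obtain ⟨e, -, he⟩ := fin_rep (k := k) (co x).support (co x) (Module.Basis.ofVectorSpace k E)
  exact ⟨_, _, _, fun _ => ValuationSubring.mem_top _, fun i => hx (e i), (eq_sum x).trans he⟩

theorem const_mul {x y : L ⊗[k] E} (hx : ConstT ⊤ x) (hy : ConstT ⊤ y) : ConstT ⊤ (x * y) := by
  refine const_of_co fun j => ?_
  obtain ⟨n, b, a, -, hb, rfl⟩ := hx
  obtain ⟨m, d, e, -, hd, rfl⟩ := hy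
  rw [Finset.sum_mul_sum, co_sum, isAlgebraic_iff_isIntegral]
  refine IsIntegral.sum _ fun i _ => ?_
  rw [co_sum]
  refine IsIntegral.sum _ fun i' _ => ?_
  rw [Algebra.TensorProduct.tmul_mul_tmul, co_tmul]
  exact ((hb i).isIntegral.mul (hd i').isIntegral).mul isIntegral_algebraMap

theorem const_sub {x y : L ⊗[k] E} (hx : ConstT ⊤ x) (hy : ConstT ⊤ y) : ConstT ⊤ (x - y) := by
  refine const_of_co fun j => ?_
  rw [sub_eq_add_neg, co_add, co_neg, Finsupp.add_apply, Finsupp.neg_apply]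
  exact (const_co hx j).add (const_co hy j).neg

theorem co_map (g : L ≃ₐ[k] L) (x : L ⊗[k] E) (i : Module.Basis.ofVectorSpaceIndex k E) :
    co (Algebra.TensorProduct.map g.toAlgHom (AlgHom.id k E) x) i = g (co x i) := by
  induction x using TensorProduct.induction_on with
  | zero => simp [co]
  | tmul c a =>
    rw [Algebra.TensorProduct.map_tmul, co_tmul, co_tmul, map_mul, AlgEquiv.commutes]
    rfl
  | add x y hx hy => rw [map_add, co_add, co_add, Finsupp.add_apply, Finsupp.add_apply, hx, hy, map_add]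

theorem gT_map (w : GV k L) (g : L ≃ₐ[k] L) (x : L ⊗[k] E) :
    gT w (Algebra.TensorProduct.map g.toAlgHom (AlgHom.id k E) x) = gT (w.comap g) x := by
  apply le_antisymm
  · rw [gT_le_iff]
    intro i
    rw [co_map]
    exact v_co_le (w.comap g) x i
  · rw [gT_le_iff]
    intro i
    rw [GV.comap_v, ← co_map]
    exact v_co_le w _ i

theorem gT_fr (w : GV k L) (x : L ⊗[k] E) :
    gT (w.comap (fr k L)) x = gT w x ^ Fintype.card k := by
  apply le_antisymm
  · rw [gT_le_iff]
    intro i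
    rw [GV.comap_v, fr_apply, map_pow]
    exact pow_le_pow_left₀ zero_le (v_co_le w x i) _
  · by_cases hx : x = 0
    · rw [hx, gT_zero, zero_pow Fintype.card_ne_zero]
      exact zero_le
    · obtain ⟨i, -, hi⟩ := exists_co w hx
      have h := v_co_le (w.comap (fr k L)) x i
      rwa [GV.comap_v, fr_apply, map_pow, ← hi] at h

end GaussAux

open GaussAux

theorem gT_sum_le (w : GV k L) {ι : Type*} (s : Finset ι) (a : ι → E) (c : ι → L) {r : ℝ≥0}
    (hc : ∀ i ∈ s, w.v (c i) ≤ r) : gT w (∑ i ∈ s, c i ⊗ₜ[k] a i) ≤ r := by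
  rw [gT_le_iff]
  intro j
  rw [co_sum]
  refine w.v.map_sum_le fun i hi => ?_
  rw [co_tmul]
  exact (v_mul_alg_le w _ _).trans (hc i hi)

theorem gT_sum (w : GV k L) {ι : Type*} (s : Finset ι) {a : ι → E} (ha : LinearIndependent k a)
    (c : ι → L) : gT w (∑ i ∈ s, c i ⊗ₜ[k] a i) = s.sup fun i => w.v (c i) := by
  apply le_antisymm
  · exact gT_sum_le w s a c fun i hi => Finset.le_sup (f := fun i => w.v (c i)) hi
  · refine Finset.sup_le fun j hj => ?_
    obtain ⟨g, hg⟩ := (Finsupp.linearCombination k a).exists_leftInverse_of_injective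
      (LinearMap.ker_eq_bot.2 ha)
    have hga : ∀ i, g (a i) = Finsupp.single i 1 := fun i => by
      have := LinearMap.congr_fun hg (Finsupp.single i 1)
      simpa using this
    have h := v_contr_le w ((Finsupp.lapply j).comp g) (∑ i ∈ s, c i ⊗ₜ[k] a i)
    rw [map_sum, Finset.sum_eq_single j] at h
    · rw [contr_tmul] at h
      simpa [hga] using h
    · intro i _ hij
      rw [contr_tmul]
      simp [hga, hij]
    · intro h
      exact absurd hj h

theorem gT_eq_zero_iff (w : GV k L) (x : L ⊗[k] E) : gT w x = 0 ↔ x = 0 := by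
  constructor
  · intro h
    by_contra hx
    obtain ⟨i, hi, h'⟩ := exists_co w hx
    exact hi ((map_eq_zero w.v).1 (h'.symm.trans h))
  · rintro rfl
    exact gT_zero w

theorem gT_add_le (w : GV k L) (x y : L ⊗[k] E) : gT w (x + y) ≤ max (gT w x) (gT w y) := by
  rw [gT_le_iff]
  intro i
  rw [co_add, Finsupp.add_apply]
  exact (w.v.map_add _ _).trans (max_le_max (v_co_le w x i) (v_co_le w y i))

theorem gT_neg (w : GV k L) (x : L ⊗[k] E) : gT w (-x) = gT w x := by
  rw [← neg_one_smul L x, gT_smul, Valuation.map_neg, map_one, one_mul]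

theorem gT_tmul (w : GV k L) (c : L) {a : E} (ha : a ≠ 0) : gT w (c ⊗ₜ[k] a) = w.v c := by
  have h := gT_sum w (Finset.univ : Finset Unit) (a := fun _ => a)
    (linearIndependent_unique_iff.2 ha) fun _ => c
  simpa using h

theorem exists_gT_eq (w : GV k L) (x : L ⊗[k] E) : ∃ c : L, w.v c = gT w x := by
  by_cases hx : x = 0
  · exact ⟨0, by rw [hx, gT_zero, map_zero]⟩
  · obtain ⟨i, -, hi⟩ := exists_co w hx
    exact ⟨_, hi.symm⟩

theorem ConstT.gT_eq (w : GV k L) {O : ValuationSubring E} {x : L ⊗[k] E} (hx : ConstT O x)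
    (h0 : x ≠ 0) : gT w x = 1 := by
  obtain ⟨i, hi, h⟩ := exists_co w h0
  rw [h]
  exact w.triv _ (const_co hx i) hi

theorem IntT.gT_le {w : GV k L} {O : ValuationSubring E} {x : L ⊗[k] E} (hx : IntT w O x) :
    gT w x ≤ 1 := by
  obtain ⟨n, b, a, -, hb, rfl⟩ := hx
  exact gT_sum_le w _ a b fun i _ => hb i

/-- Reduction of an integral element. -/
theorem IntT.exists_red {w : GV k L} {O : ValuationSubring E} {x : L ⊗[k] E} (hx : IntT w O x) :
    ∃ (x0 x1 : L ⊗[k] E) (c : L), ConstT O x0 ∧ IntT w O x1 ∧ w.v c < 1 ∧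
      x = x0 + (c ⊗ₜ[k] (1 : E)) * x1 := by
  obtain ⟨n, b, a, ha, hb, rfl⟩ := hx
  obtain ⟨c, hc, hc'⟩ : ∃ c : L, w.v c < 1 ∧ ∀ i, w.v (b i - w.rc (b i)) ≤ w.v c := by
    rcases (Finset.univ : Finset (Fin n)).eq_empty_or_nonempty with h | h
    · refine ⟨0, by simp, fun i => ?_⟩
      exact absurd (h ▸ Finset.mem_univ i) (Finset.notMem_empty i)
    · obtain ⟨j, -, hj⟩ := Finset.exists_max_image _ (fun i => w.v (b i - w.rc (b i))) h
      exact ⟨_, w.rc_spec (hb j), fun i => hj i (Finset.mem_univ i)⟩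
  refine ⟨∑ i, w.rc (b i) ⊗ₜ[k] a i, ∑ i, ((b i - w.rc (b i)) / c) ⊗ₜ[k] a i, c,
    ⟨n, _, a, ha, fun i => w.rc_alg _, rfl⟩, ⟨n, _, a, ha, fun i => ?_, rfl⟩, hc, ?_⟩
  · rw [map_div₀]
    exact div_le_one_of_le₀ (hc' i) zero_le
  · rw [Finset.mul_sum, ← Finset.sum_add_distrib]
    refine Finset.sum_congr rfl fun i _ => ?_
    rw [Algebra.TensorProduct.tmul_mul_tmul, one_mul, ← TensorProduct.add_tmul]
    have h : w.rc (b i) + c * ((b i - w.rc (b i)) / c) = b i := by
      by_cases h0 : c = 0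
      · have h1 := hc' i
        rw [h0, map_zero, nonpos_iff_eq_zero, map_eq_zero, sub_eq_zero] at h1
        rw [h0, zero_mul, add_zero]
        exact h1.symm
      · rw [mul_div_cancel₀ _ h0, add_sub_cancel]
    rw [h]

theorem intT_top_iff (w : GV k L) (x : L ⊗[k] E) : IntT w ⊤ x ↔ gT w x ≤ 1 := by
  refine ⟨IntT.gT_le, fun h => ?_⟩
  obtain ⟨e, -, he⟩ := fin_rep (k := k) (co x).support (co x) (Module.Basis.ofVectorSpace k E)
  exact ⟨_, _, _, fun _ => ValuationSubring.mem_top _, fun i => (v_co_le w x (e i)).trans h,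
    (eq_sum x).trans he⟩

theorem GaussAux.gT_mul_le (w : GV k L) (x y : L ⊗[k] E) : gT w (x * y) ≤ gT w x * gT w y := by
  conv_lhs => rw [eq_sum x, eq_sum y, Finset.sum_mul_sum, ← Finset.sum_product']
  simp only [Algebra.TensorProduct.tmul_mul_tmul]
  refine gT_sum_le w _ _ _ fun p _ => ?_
  rw [map_mul]
  exact mul_le_mul' (v_co_le w x _) (v_co_le w y _)

theorem GaussAux.exists_split (w : GV k L) {x : L ⊗[k] E} (hx : gT w x = 1) :
    ∃ x0 x1 : L ⊗[k] E, ConstT ⊤ x0 ∧ x0 ≠ 0 ∧ gT w x1 < 1 ∧ x = x0 + x1 := by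
  obtain ⟨x0, x1, c, h0, h1, hc, rfl⟩ := ((intT_top_iff w x).2 hx.le).exists_red
  have h2 : gT w ((c ⊗ₜ[k] (1 : E)) * x1) < 1 := by
    rw [tmul_one_mul, gT_smul]
    exact mul_lt_one_of_nonneg_of_lt_one_left zero_le hc h1.gT_le
  refine ⟨x0, _, h0, ?_, h2, rfl⟩
  rintro rfl
  rw [zero_add] at hx
  exact h2.ne hx

theorem GaussAux.gT_mul_one (w : GV k L) {x y : L ⊗[k] E} (hx : gT w x = 1) (hy : gT w y = 1) :
    gT w (x * y) = 1 := by
  apply le_antisymm
  · have h := gT_mul_le w x y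
    rwa [hx, hy, one_mul] at h
  · obtain ⟨x0, x1, hx0, hx0', hx1, hxe⟩ := exists_split w hx
    obtain ⟨y0, y1, hy0, hy0', hy1, hye⟩ := exists_split w hy
    have h1 : gT w (x0 * y0) = 1 := (const_mul hx0 hy0).gT_eq w (mul_ne_zero hx0' hy0')
    have h2 : x0 * y0 = x * y + -(x0 * y1 + x1 * y) := by
      conv_rhs => rw [hxe]
      conv_rhs => rw [add_mul]
      conv_rhs => lhs; lhs; rw [hye]
      ring
    have h3 : gT w (x0 * y1) < 1 := by
      refine (gT_mul_le w _ _).trans_lt ?_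
      rwa [hx0.gT_eq w hx0', one_mul]
    have h4 : gT w (x1 * y) < 1 := by
      refine (gT_mul_le w _ _).trans_lt ?_
      rwa [hy, mul_one]
    have h5 : gT w (-(x0 * y1 + x1 * y)) < 1 := by
      rw [gT_neg]
      exact (gT_add_le w _ _).trans_lt (max_lt h3 h4)
    have h6 := gT_add_le w (x * y) (-(x0 * y1 + x1 * y))
    rw [← h2, h1] at h6
    rcases le_max_iff.1 h6 with h | h
    · exact h
    · exact absurd h5 (not_lt.2 h)

theorem gT_mul (w : GV k L) (x y : L ⊗[k] E) : gT w (x * y) = gT w x * gT w y := by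
  by_cases hx : x = 0
  · rw [hx, zero_mul, gT_zero, zero_mul]
  by_cases hy : y = 0
  · rw [hy, mul_zero, gT_zero, mul_zero]
  obtain ⟨i, hi, hi'⟩ := exists_co w hx
  obtain ⟨j, hj, hj'⟩ := exists_co w hy
  have h1 : gT w ((co x i)⁻¹ • x) = 1 := by
    rw [gT_smul, map_inv₀, hi', inv_mul_cancel₀ ((map_ne_zero w.v).2 hi)]
  have h2 : gT w ((co y j)⁻¹ • y) = 1 := by
    rw [gT_smul, map_inv₀, hj', inv_mul_cancel₀ ((map_ne_zero w.v).2 hj)]
  have h3 := gT_mul_one w h1 h2
  have h4 : x * y = (co x i * co y j) • (((co x i)⁻¹ • x) * ((co y j)⁻¹ • y)) := by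
    rw [smul_mul_smul_comm, smul_smul, mul_mul_mul_comm, mul_inv_cancel₀ hi, mul_inv_cancel₀ hj,
      one_mul, one_smul]
  rw [h4, gT_smul, h3, mul_one, map_mul, hi', hj']

/-- The reduction is unique. -/
theorem ConstT.eq_of_gT_lt (w : GV k L) {x y : L ⊗[k] E} (hx : ConstT ⊤ x) (hy : ConstT ⊤ y)
    (hxy : gT w (x - y) < 1) : x = y := by
  by_contra h
  exact hxy.ne ((const_sub hx hy).gT_eq w (sub_ne_zero.2 h))

theorem GaussAux.gauss_eq (w : GV k L) {f : FL k E L} {x y : L ⊗[k] E} (hy : y ≠ 0)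
    (h : f * algebraMap (L ⊗[k] E) (FL k E L) y = algebraMap (L ⊗[k] E) (FL k E L) x) :
    gauss w f = gT w x / gT w y := by
  have h1 := IsLocalization.sec_spec (nonZeroDivisors (L ⊗[k] E)) f
  have h2 : ((IsLocalization.sec (nonZeroDivisors (L ⊗[k] E)) f).2 : L ⊗[k] E) ≠ 0 :=
    nonZeroDivisors.coe_ne_zero _
  have h3 : (IsLocalization.sec (nonZeroDivisors (L ⊗[k] E)) f).1 * y =
      x * (IsLocalization.sec (nonZeroDivisors (L ⊗[k] E)) f).2 := by
    apply IsFractionRing.injective (L ⊗[k] E) (FL k E L)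
    rw [map_mul, map_mul, ← h1, ← h]
    ring
  have h4 := congrArg (gT w) h3
  rw [gT_mul, gT_mul] at h4
  rw [gauss, div_eq_div_iff (fun h => h2 ((gT_eq_zero_iff w _).1 h))
    (fun h => hy ((gT_eq_zero_iff w _).1 h))]
  exact h4

theorem GaussAux.exists_frac (f : FL k E L) : ∃ x y : L ⊗[k] E, y ≠ 0 ∧
    f * algebraMap (L ⊗[k] E) (FL k E L) y = algebraMap (L ⊗[k] E) (FL k E L) x :=
  ⟨_, _, nonZeroDivisors.coe_ne_zero _, IsLocalization.sec_spec (nonZeroDivisors (L ⊗[k] E)) f⟩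

theorem GaussAux.gT_one (w : GV k L) : gT w (1 : L ⊗[k] E) = 1 := by
  rw [Algebra.TensorProduct.one_def, gT_tmul w _ one_ne_zero, map_one]

theorem gauss_algebraMap (w : GV k L) (x : L ⊗[k] E) :
    gauss w (algebraMap (L ⊗[k] E) (FL k E L) x) = gT w x := by
  rw [gauss_eq w (x := x) (y := 1) one_ne_zero (by rw [map_one, mul_one]), gT_one, div_one]

theorem gauss_mul (w : GV k L) (f g : FL k E L) : gauss w (f * g) = gauss w f * gauss w g := by
  obtain ⟨x, y, hy, h⟩ := exists_frac f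
  obtain ⟨x', y', hy', h'⟩ := exists_frac g
  rw [gauss_eq w hy h, gauss_eq w hy' h', gauss_eq w (x := x * x') (mul_ne_zero hy hy')
    (by rw [map_mul, map_mul, ← h, ← h']; ring), gT_mul, gT_mul, div_mul_div_comm]

theorem GaussAux.gauss_one (w : GV k L) : gauss w (1 : FL k E L) = 1 := by
  rw [← map_one (algebraMap (L ⊗[k] E) (FL k E L)), gauss_algebraMap, gT_one]

theorem gauss_inv (w : GV k L) (f : FL k E L) : gauss w f⁻¹ = (gauss w f)⁻¹ := by
  by_cases hf : f = 0
  · have h : gauss w (0 : FL k E L) = 0 := by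
      rw [← map_zero (algebraMap (L ⊗[k] E) (FL k E L)), gauss_algebraMap, gT_zero]
    rw [hf, inv_zero, h, inv_zero]
  · have h := gauss_mul w f f⁻¹
    rw [mul_inv_cancel₀ hf, gauss_one] at h
    exact eq_inv_of_mul_eq_one_right h.symm

theorem gauss_ne_zero (w : GV k L) {f : FL k E L} (hf : f ≠ 0) : gauss w f ≠ 0 := by
  have h := gauss_mul w f f⁻¹
  rw [mul_inv_cancel₀ hf, gauss_one] at h
  exact left_ne_zero_of_mul_eq_one h.symm

theorem gauss_map (w : GV k L) (g : L ≃ₐ[k] L) (f : FL k E L) :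
    gauss w (mapF g f) = gauss (w.comap g) f := by
  obtain ⟨x, y, hy, h⟩ := exists_frac f
  have h1 := congrArg (mapF g) h
  rw [map_mul, mapF_algebraMap, mapF_algebraMap] at h1
  have h2 : Algebra.TensorProduct.map g.toAlgHom (AlgHom.id k E) y ≠ 0 := by
    intro h0
    have h3 := gT_map w g y
    rw [h0, gT_zero] at h3
    exact hy ((gT_eq_zero_iff _ _).1 h3.symm)
  rw [gauss_eq w h2 h1, gauss_eq (w.comap g) hy h, gT_map, gT_map]

theorem gauss_fr (w : GV k L) (f : FL k E L) :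
    gauss w (mapF (fr k L) f) = gauss w f ^ Fintype.card k := by
  obtain ⟨x, y, hy, h⟩ := exists_frac f
  rw [gauss_map, gauss_eq _ hy h, gauss_eq w hy h, gT_fr, gT_fr, div_pow]

/-- The Gauss norm is computed from two finite sets of scalars, for all valuations at once. -/
theorem gauss_formula {f : FL k E L} (hf : f ≠ 0) :
    ∃ s s' : Finset L, s.Nonempty ∧ s'.Nonempty ∧ 0 ∉ s ∧ 0 ∉ s' ∧
      ∀ w : GV k L, gauss w f = s.sup (fun c => w.v c) / s'.sup fun c => w.v c := by
  obtain ⟨x, y, hy, h⟩ := exists_frac f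
  have hx : x ≠ 0 := by
    rintro rfl
    rw [map_zero, mul_eq_zero] at h
    rcases h with h | h
    · exact hf h
    · exact hy ((map_eq_zero_iff _ (IsFractionRing.injective (L ⊗[k] E) (FL k E L))).1 h)
  have hne : ∀ z : L ⊗[k] E, z ≠ 0 → ((co z).support.image (co z)).Nonempty := fun z hz =>
    (Finsupp.support_nonempty_iff.2 fun h => hz ((co_eq_zero z).1 h)).image _
  have h0 : ∀ z : L ⊗[k] E, (0 : L) ∉ (co z).support.image (co z) := fun z hz => by
    obtain ⟨i, hi, hi'⟩ := Finset.mem_image.1 hz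
    exact Finsupp.mem_support_iff.1 hi hi'
  refine ⟨(co x).support.image (co x), (co y).support.image (co y), hne x hx, hne y hy, h0 x,
    h0 y, fun w => ?_⟩
  rw [gauss_eq w hy h, Finset.sup_image, Finset.sup_image]
  rfl

end Pool.Agent.FFC
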