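import Pool.Agent.P.MP_a2beea_nt.FC.Ord
import Pool.Agent.P.MP_a2beea_nt.FC.Gauss
import Pool.Agent.P.MP_a2beea_nt.FC.Deg

/-! One residue disc. Induction on the order `n` at `x0` of the reduction `u0` of `u`. If some `z`
in the disc has `0 < ord z u`, `division` gives `s u = δ r` with `δ = 1 ⊗ π - z(π) ⊗ 1`; `s` has
absolute value `1` at all points of the disc (`IntT.evT`), `δ` vanishes in the disc only at `z`
(`dst_eq_zero_iff`), to order one (`isPar_red`), `|δ(y)| = dst w y z`, and the reductions satisfy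
`s0 u0 = (1 ⊗ π) r0`, so the order of `r0` at `x0` is `n - 1`. If there is no zero in the disc
the left side is `0`; if moreover `n = 0` then `|u(y)| = 1` on the disc. -/

open Polynomial
open scoped TensorProduct NNReal IntermediateField

namespace Pool.Agent.FFC

open Classical

set_option linter.unusedSectionVars false

variable {k : Type*} [Field k] [Fintype k] {E : Type*} [Field E] [Algebra k E] {t : E}
  {L : Type*} [Field L] [Algebra k L] [IsAlgClosed L]
  [IsDomain (L ⊗[k] E)]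

namespace DiscAux

theorem const_top {O : ValuationSubring E} {x : L ⊗[k] E} (hx : ConstT O x) : ConstT ⊤ x := by
  obtain ⟨n, b, a, -, hb, rfl⟩ := hx
  exact ⟨n, b, a, fun _ => ValuationSubring.mem_top _, hb, rfl⟩

theorem const_int (w : GV k L) {O : ValuationSubring E} {x : L ⊗[k] E} (hx : ConstT O x) :
    IntT w O x := by
  obtain ⟨n, b, a, ha, hb, rfl⟩ := hx
  exact ⟨n, b, a, ha, fun i => w.alg_le (hb i), rfl⟩

theorem const_mul {O : ValuationSubring E} {x y : L ⊗[k] E} (hx : ConstT O x) (hy : ConstT O y) :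
    ConstT O (x * y) := by
  obtain ⟨n, b, a, ha, hb, rfl⟩ := hx
  obtain ⟨m, b', a', ha', hb', rfl⟩ := hy
  refine ⟨n * m, fun i => b (finProdFinEquiv.symm i).1 * b' (finProdFinEquiv.symm i).2,
    fun i => a (finProdFinEquiv.symm i).1 * a' (finProdFinEquiv.symm i).2,
    fun i => mul_mem (ha _) (ha' _), fun i => (hb _).mul (hb' _), ?_⟩
  rw [Finset.sum_mul_sum, ← Finset.sum_product']
  simp only [Algebra.TensorProduct.tmul_mul_tmul, Finset.univ_product_univ]
  exact (Equiv.sum_comp finProdFinEquiv.symm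
    (fun p : Fin n × Fin m => (b p.1 * b' p.2) ⊗ₜ[k] (a p.1 * a' p.2))).symm

theorem const_tmul {O : ValuationSubring E} {a : E} (ha : a ∈ O) :
    ConstT O ((1 : L) ⊗ₜ[k] a) :=
  ⟨1, fun _ => 1, fun _ => a, fun _ => ha, fun _ => isAlgebraic_one, by simp⟩

theorem const_ev (h : FF k t) {x0 : Pt k E L} (hx : x0.O ≠ ⊤) {x : L ⊗[k] E}
    (hc : ConstT x0.O x) : ∃ c, EvT x0 x c ∧ IsAlgebraic k c := by
  obtain ⟨n, b, a, ha, hb, rfl⟩ := hc
  refine ⟨∑ i, b i * x0.ev (a i), ⟨n, b, a, ha, rfl, rfl⟩, ?_⟩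
  refine Finset.sum_induction _ (IsAlgebraic k) (fun _ _ h1 h2 => h1.add h2) isAlgebraic_zero ?_
  exact fun i _ => (hb i).mul (x0.alg_of_const h hx _)

theorem gT_sub_le (w : GV k L) (x y z : L ⊗[k] E) :
    gT w (x - z) ≤ max (gT w (x - y)) (gT w (y - z)) := by
  have : x - z = (x - y) + (y - z) := by ring
  rw [this]
  exact gT_add_le w _ _

theorem gT_sub_comm (w : GV k L) (x y : L ⊗[k] E) : gT w (x - y) = gT w (y - x) := by
  rw [← gT_neg, neg_sub]

theorem exists_red' {w : GV k L} {O : ValuationSubring E} {x : L ⊗[k] E} (hx : IntT w O x) :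
    ∃ x0 : L ⊗[k] E, ConstT O x0 ∧ gT w (x - x0) < 1 := by
  obtain ⟨x0, x1, c, h0, h1, hc, rfl⟩ := hx.exists_red
  refine ⟨x0, h0, ?_⟩
  rw [add_sub_cancel_left, gT_mul, gT_tmul w c one_ne_zero]
  exact mul_lt_one_of_nonneg_of_lt_one_left zero_le hc h1.gT_le

theorem gT_mul_sub (w : GV k L) {x x0 y y0 : L ⊗[k] E} (hx : gT w x0 ≤ 1) (hy : gT w y ≤ 1)
    (h1 : gT w (x - x0) < 1) (h2 : gT w (y - y0) < 1) : gT w (x * y - x0 * y0) < 1 := by
  have : x * y - x0 * y0 = (x - x0) * y + x0 * (y - y0) := by ring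
  rw [this]
  refine (gT_add_le w _ _).trans_lt (max_lt ?_ ?_)
  · rw [gT_mul]
    exact mul_lt_one_of_nonneg_of_lt_one_left zero_le h1 hy
  · rw [gT_mul]
    exact mul_lt_one_of_nonneg_of_lt_one_right hx zero_le h2

theorem redO_eq {w : GV k L} {x0 z : Pt k E L} (hz : red w z = x0) : redO w z = x0.O := by
  rw [← hz]; rfl

/-- Values on the disc are congruent to the value of the reduction at the centre. -/
theorem val_red (h : FF k t) (w : GV k L) {x0 : Pt k E L} (hx : x0.O ≠ ⊤) {u u0 : L ⊗[k] E}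
    (hu : IntT w x0.O u) (hu0 : ConstT x0.O u0) (hlt : gT w (u - u0) < 1) {c0 : L}
    (hc0 : EvT x0 u0 c0) {y : Pt k E L} (hy : red w y = x0) :
    ∃ c, EvT y u c ∧ w.v (c - c0) < 1 := by
  obtain ⟨v0, v1, c, hv0, hv1, hc, he⟩ := hu.exists_red
  have h1 : gT w (u - v0) < 1 := by
    rw [he, add_sub_cancel_left, gT_mul, gT_tmul w c one_ne_zero]
    exact mul_lt_one_of_nonneg_of_lt_one_left zero_le hc hv1.gT_le
  have h2 : v0 = u0 := by
    refine ConstT.eq_of_gT_lt w (const_top hv0) (const_top hu0) ?_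
    refine (gT_sub_le w v0 u u0).trans_lt (max_lt ?_ hlt)
    rwa [gT_sub_comm]
  subst h2
  have hxx : red w x0 = x0 := red_const h w hx
  have hO : redO w x0 = x0.O := redO_eq hxx
  have hOy : redO w y = x0.O := redO_eq hy
  obtain ⟨d0, hd0, -, hd⟩ := IntT.evT (w := w) (z := x0) (x := v0) (by rw [hO]; exact const_int w hu0)
  obtain ⟨d, hd1, hd2⟩ := hd y (hy.trans hxx.symm)
  obtain ⟨e, he1, he2, -⟩ := IntT.evT (w := w) (z := y) (x := v1) (by rw [hOy]; exact hv1)
  have h3 : d0 = c0 := hd0.unique hc0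
  subst h3
  have h4 := evT_tmul y c (one_mem y.O)
  rw [y.ev_one, mul_one] at h4
  refine ⟨d + c * e, he ▸ hd1.add (h4.mul he1), ?_⟩
  have : d + c * e - d0 = (d - d0) + c * e := by ring
  rw [this]
  refine (w.v.map_add _ _).trans_lt (max_lt hd2 ?_)
  rw [map_mul]
  exact mul_lt_one_of_nonneg_of_lt_one_left zero_le hc he2

theorem v_eq_one {w : GV k L} {c d : L} (hd : w.v d = 1) (h : w.v (c - d) < 1) : w.v c = 1 := by
  have : c = d + (c - d) := by ring
  rw [this, w.v.map_add_eq_of_lt_left (by rwa [hd]), hd]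

theorem alg_ne {x : L ⊗[k] E} (hx : x ≠ 0) : algebraMap (L ⊗[k] E) (FL k E L) x ≠ 0 := by
  intro h
  exact hx (IsFractionRing.injective (L ⊗[k] E) (FL k E L) (by rw [h, map_zero]))

theorem ne_of_ev {p : Pt k E L} {x : L ⊗[k] E} {c : L} (h : EvT p x c) (hc : c ≠ 0) : x ≠ 0 := by
  rintro rfl
  have := h.hasVal
  rw [map_zero] at this
  exact hc (this.unique (hasVal_zero p))

variable [Nonempty (GV k L)]

theorem ord_nonneg (h : FF k t) {p : Pt k E L} {x : L ⊗[k] E} {c : L} (hc : EvT p x c) :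
    0 ≤ ord p (algebraMap (L ⊗[k] E) (FL k E L) x) := by
  by_cases hx : x = 0
  · rw [hx, map_zero, ord_zero]
  · exact (hasVal_iff h p (alg_ne hx)).1 ⟨c, hc.hasVal⟩

theorem ord_eq_zero (h : FF k t) {p : Pt k E L} {x : L ⊗[k] E} {c : L} (hc : EvT p x c)
    (h0 : c ≠ 0) : ord p (algebraMap (L ⊗[k] E) (FL k E L) x) = 0 :=
  (ord_eq_zero_iff h p (alg_ne (ne_of_ev hc h0))).2 ⟨c, h0, hc.hasVal⟩

theorem ev_ne_zero (h : FF k t) {p : Pt k E L} {x : L ⊗[k] E} {c : L} (hc : EvT p x c)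
    (hx : x ≠ 0) (h0 : ord p (algebraMap (L ⊗[k] E) (FL k E L) x) = 0) : c ≠ 0 := by
  obtain ⟨d, hd, hv⟩ := (ord_eq_zero_iff h p (alg_ne hx)).1 h0
  rw [hc.hasVal.unique hv]
  exact hd

theorem main (h : FF k t) (w : GV k L) {x0 : Pt k E L} (hx : x0.O ≠ ⊤) (n : ℕ) :
    ∀ {u u0 : L ⊗[k] E}, IntT w x0.O u → ConstT x0.O u0 → u0 ≠ 0 → gT w (u - u0) < 1 →
    ord x0 (algebraMap (L ⊗[k] E) (FL k E L) u0) = n →
    (∑ᶠ z ∈ {z : Pt k E L | red w z = x0}, ord z (algebraMap (L ⊗[k] E) (FL k E L) u)) ≤ n ∧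
      ((∑ᶠ z ∈ {z : Pt k E L | red w z = x0}, ord z (algebraMap (L ⊗[k] E) (FL k E L) u)) = n →
        ∀ y : Pt k E L, red w y = x0 → ord y (algebraMap (L ⊗[k] E) (FL k E L) u) = 0 →
          -Real.log (w.v (val y (algebraMap (L ⊗[k] E) (FL k E L) u))) =
            ∑ᶠ z : Pt k E L,
              (ord z (algebraMap (L ⊗[k] E) (FL k E L) u) : ℝ) * ipt w y z) := by
  induction n using Nat.strong_induction_on with
  | _ n ih =>
  intro u u0 hu hu0 h0 hlt hn
  obtain ⟨c0, hc0, hc0a⟩ := const_ev h hx hu0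
  have hune : u ≠ 0 := by
    rintro rfl
    rw [zero_sub, gT_neg, hu0.gT_eq w h0] at hlt
    exact lt_irrefl _ hlt
  by_cases hz : ∃ z : Pt k E L, red w z = x0 ∧ 0 < ord z (algebraMap (L ⊗[k] E) (FL k E L) u)
  · obtain ⟨z, hz, hzo⟩ := hz
    have hO : redO w z = x0.O := redO_eq hz
    obtain ⟨cz, hcz, -⟩ := val_red h w hx hu hu0 hlt hc0 hz
    have hcz0 : cz = 0 := hcz.hasVal.unique ((hasVal_zero_iff h z (alg_ne hune)).2 hzo)
    subst hcz0
    obtain ⟨s, r, hs, hr, ⟨cs, hcs, hcs1⟩, he⟩ := division h w z (by rw [hO]; exact hu) hcz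
    have hpar := (isPar_red h w z).ord_eq h
    have hvu := v_unif_lt h w z
    rw [hO] at hs hr he hpar hvu
    have hun := place_unif h (x0.place hx)
    set π := unif x0.O with hπ
    have hπ0 : π ≠ 0 := by
      intro h'
      exact hun.2.1 (by rw [h', inv_zero]; exact zero_mem _)
    set δ : L ⊗[k] E := (1 : L) ⊗ₜ[k] π - z.ev π ⊗ₜ[k] (1 : E) with hδ
    have hδa : algebraMap (L ⊗[k] E) (FL k E L) δ = tm 1 π - tm (z.ev π) 1 := by
      rw [hδ, map_sub]; rfl
    obtain ⟨s0, hs0, hss⟩ := exists_red' hs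
    obtain ⟨r0, hr0, hrr⟩ := exists_red' hr
    have hδ0 : ConstT x0.O ((1 : L) ⊗ₜ[k] π) := const_tmul hun.1
    have hδδ : gT w (δ - (1 : L) ⊗ₜ[k] π) < 1 := by
      rw [hδ, sub_sub_cancel_left, gT_neg, gT_tmul w _ one_ne_zero]
      exact hvu
    have hred : s0 * u0 = ((1 : L) ⊗ₜ[k] π) * r0 := by
      refine ConstT.eq_of_gT_lt w (const_top (const_mul hs0 hu0))
        (const_top (const_mul hδ0 hr0)) ?_
      refine (gT_sub_le w _ (s * u) _).trans_lt (max_lt ?_ ?_)
      · rw [gT_sub_comm]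
        exact gT_mul_sub w (const_int w hs0).gT_le hu.gT_le hss hlt
      · rw [he]
        exact gT_mul_sub w (const_int w hδ0).gT_le hr.gT_le hδδ hrr
    obtain ⟨d0, hd0, -⟩ := const_ev h hx hs0
    have hd1 : w.v d0 = 1 := by
      obtain ⟨c, hc1, hc2⟩ := val_red h w hx hs hs0 hss hd0 hz
      rw [hc1.unique hcs, Valuation.map_sub_swap] at hc2
      exact v_eq_one hcs1 hc2
    have hd0ne : d0 ≠ 0 := by
      rintro rfl
      simp at hd1
    have hs0ne : s0 ≠ 0 := ne_of_ev hd0 hd0ne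
    have hprod : ((1 : L) ⊗ₜ[k] π) * r0 ≠ 0 := hred ▸ mul_ne_zero hs0ne h0
    have hr0ne : r0 ≠ 0 := right_ne_zero_of_mul hprod
    have hπne : ((1 : L) ⊗ₜ[k] π) ≠ 0 := left_ne_zero_of_mul hprod
    have hoπ : ord x0 (algebraMap (L ⊗[k] E) (FL k E L) ((1 : L) ⊗ₜ[k] π)) = 1 := by
      refine ord_tm_const h hx hπ0 (n := 1) ?_ ?_
      · rw [← hπ, zpow_one, div_self hπ0]; exact one_mem _
      · rw [← hπ, zpow_one, div_self hπ0, inv_one]; exact one_mem _
    have hor : ord x0 (algebraMap (L ⊗[k] E) (FL k E L) r0) + 1 = n := by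
      have h1 := congrArg (fun x => ord x0 (algebraMap (L ⊗[k] E) (FL k E L) x)) hred
      simp only [map_mul] at h1
      rw [ord_mul h _ (alg_ne hs0ne) (alg_ne h0), ord_mul h _ (alg_ne hπne) (alg_ne hr0ne),
        ord_eq_zero h hd0 hd0ne, hoπ, hn] at h1
      omega
    obtain ⟨e0, he0, -⟩ := const_ev h hx hr0
    have hor0 := ord_nonneg h he0
    obtain ⟨m, hm⟩ := Int.eq_ofNat_of_zero_le hor0
    have hmn : m + 1 = n := by omega
    obtain ⟨ih1, ih2⟩ := ih m (by omega) hr hr0 hr0ne hrr hm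
    have hsv : ∀ y : Pt k E L, red w y = x0 → ∃ c, EvT y s c ∧ w.v c = 1 := by
      intro y hy
      obtain ⟨c, hc1, hc2⟩ := val_red h w hx hs hs0 hss hd0 hy
      exact ⟨c, hc1, v_eq_one hd1 hc2⟩
    have hδv : ∀ y : Pt k E L, red w y = x0 →
        EvT y δ (y.ev π - z.ev π) ∧ w.v (y.ev π - z.ev π) = dst w y z := by
      intro y hy
      have hOy : redO w y = x0.O := redO_eq hy
      have hπy : π ∈ y.O := by
        have : π ∈ redO w y := by rw [hOy]; exact hun.1
        exact this.1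
      constructor
      · have h1 := (evT_tmul y (1 : L) hπy).add (evT_tmul y (-z.ev π) (one_mem y.O))
        rw [y.ev_one, one_mul, mul_one, TensorProduct.neg_tmul, ← sub_eq_add_neg,
          ← sub_eq_add_neg] at h1
        exact h1
      · unfold dst
        rw [if_pos (hy.trans hz.symm), hOy]
    have hsne : s ≠ 0 := ne_of_ev hcs (by rintro rfl; simp at hcs1)
    have hprod' : δ * r ≠ 0 := he ▸ mul_ne_zero hsne hune
    have hδne : δ ≠ 0 := left_ne_zero_of_mul hprod'
    have hrne : r ≠ 0 := right_ne_zero_of_mul hprod'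
    have hord : ∀ y : Pt k E L, red w y = x0 →
        ord y (algebraMap (L ⊗[k] E) (FL k E L) u) =
          ord y (algebraMap (L ⊗[k] E) (FL k E L) r) + if y = z then 1 else 0 := by
      intro y hy
      have h1 := congrArg (fun x => ord y (algebraMap (L ⊗[k] E) (FL k E L) x)) he
      simp only [map_mul] at h1
      obtain ⟨c, hc1, hc2⟩ := hsv y hy
      rw [ord_mul h _ (alg_ne hsne) (alg_ne hune), ord_mul h _ (alg_ne hδne) (alg_ne hrne),
        ord_eq_zero h hc1 (by rintro rfl; simp at hc2), zero_add] at h1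
      rw [h1, add_comm]
      congr 1
      split_ifs with hyz
      · rw [hyz, hδa, hpar]
      · refine ord_eq_zero h (hδv y hy).1 ?_
        intro h2
        have h3 := (hδv y hy).2
        rw [h2, map_zero] at h3
        exact hyz ((dst_eq_zero_iff h w y z).1 h3.symm)
    have hfin : (Function.support fun y : Pt k E L =>
        ord y (algebraMap (L ⊗[k] E) (FL k E L) r)).Finite := ord_finite h _
    have hsum : (∑ᶠ y ∈ {y : Pt k E L | red w y = x0},
        ord y (algebraMap (L ⊗[k] E) (FL k E L) u)) =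
        (∑ᶠ y ∈ {y : Pt k E L | red w y = x0},
          ord y (algebraMap (L ⊗[k] E) (FL k E L) r)) + 1 := by
      rw [finsum_mem_congr (s := {y : Pt k E L | red w y = x0}) rfl (fun y hy => hord y hy),
        finsum_mem_add_distrib' (hfin.inter_of_right _)
          ((Set.finite_singleton z).subset (by
            rintro y ⟨-, hy⟩
            by_contra hne
            exact hy (if_neg hne)))]
      congr 1
      rw [finsum_eq_single _ z (fun y hy => by simp [hy])]
      simp [hz]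
    refine ⟨by rw [hsum]; omega, fun heq y hy hy0 => ?_⟩
    have hsum' : (∑ᶠ y ∈ {y : Pt k E L | red w y = x0},
        ord y (algebraMap (L ⊗[k] E) (FL k E L) r)) = m := by omega
    obtain ⟨cr, hcr, -⟩ := val_red h w hx hr hr0 hrr he0 hy
    obtain ⟨cu, hcu, -⟩ := val_red h w hx hu hu0 hlt hc0 hy
    obtain ⟨cs', hcs', hcs1'⟩ := hsv y hy
    have hry := ord_nonneg h hcr
    have hyz : y ≠ z := by
      rintro rfl
      omega
    have hry0 : ord y (algebraMap (L ⊗[k] E) (FL k E L) r) = 0 := by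
      have := hord y hy
      rw [if_neg hyz] at this
      omega
    have ih3 := ih2 hsum' y hy hry0
    have hval : cs' * cu = (y.ev π - z.ev π) * cr :=
      (hcs'.mul hcu).unique (he ▸ (hδv y hy).1.mul hcr)
    have hval' : w.v cu = dst w y z * w.v cr := by
      have := congrArg w.v hval
      rwa [map_mul, map_mul, hcs1', one_mul, (hδv y hy).2] at this
    have hcr0 : cr ≠ 0 := ev_ne_zero h hcr hrne hry0
    have hdst : dst w y z ≠ 0 := fun h2 => hyz ((dst_eq_zero_iff h w y z).1 h2)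
    rw [hcr.hasVal.val_eq] at ih3
    rw [hcu.hasVal.val_eq, hval', NNReal.coe_mul,
      Real.log_mul (by exact_mod_cast hdst) (by simpa using hcr0), neg_add, ih3]
    have hterm : ∀ y' : Pt k E L,
        (ord y' (algebraMap (L ⊗[k] E) (FL k E L) u) : ℝ) * ipt w y y' =
          (if y' = z then ipt w y z else 0) +
            (ord y' (algebraMap (L ⊗[k] E) (FL k E L) r) : ℝ) * ipt w y y' := by
      intro y'
      by_cases hy' : red w y' = x0
      · rw [hord y' hy']
        split_ifs with h1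
        · rw [h1]; push_cast; ring
        · simp
      · have h1 : y' ≠ z := by
          rintro rfl
          exact hy' hz
        rw [if_neg h1, ipt_of_red_ne (by rw [hy]; exact fun h2 => hy' h2.symm)]
        simp
    rw [finsum_congr hterm, finsum_add_distrib
      ((Set.finite_singleton z).subset (by
        intro y' hy'
        by_contra hne
        exact hy' (if_neg hne)))
      (hfin.subset (by
        intro y' hy' h2
        exact hy' (by simp only [h2, Int.cast_zero, zero_mul]))),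
      finsum_eq_single _ z (fun y' hy' => if_neg hy'), if_pos rfl]
    rfl
  · have hall : ∀ y : Pt k E L, red w y = x0 →
        ord y (algebraMap (L ⊗[k] E) (FL k E L) u) = 0 := by
      intro y hy
      obtain ⟨c, hc, -⟩ := val_red h w hx hu hu0 hlt hc0 hy
      have h1 := ord_nonneg h hc
      by_contra h2
      exact hz ⟨y, hy, by omega⟩
    have hsum : (∑ᶠ y ∈ {y : Pt k E L | red w y = x0},
        ord y (algebraMap (L ⊗[k] E) (FL k E L) u)) = 0 := by
      rw [finsum_mem_congr (s := {y : Pt k E L | red w y = x0}) rfl (fun y hy => hall y hy)]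
      simp
    refine ⟨by rw [hsum]; omega, fun heq y hy _ => ?_⟩
    have hn0 : ord x0 (algebraMap (L ⊗[k] E) (FL k E L) u0) = 0 := by omega
    have hc0ne : c0 ≠ 0 := ev_ne_zero h hc0 h0 hn0
    obtain ⟨c, hc, hc'⟩ := val_red h w hx hu hu0 hlt hc0 hy
    rw [hc.hasVal.val_eq, v_eq_one (w.triv c0 hc0a hc0ne) hc']
    have hterm : ∀ y' : Pt k E L,
        (ord y' (algebraMap (L ⊗[k] E) (FL k E L) u) : ℝ) * ipt w y y' = 0 := by
      intro y'
      by_cases hy' : red w y' = x0
      · rw [hall y' hy']; simp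
      · rw [ipt_of_red_ne (by rw [hy]; exact fun h2 => hy' h2.symm), mul_zero]
    rw [finsum_congr hterm]
    simp

end DiscAux

variable [Nonempty (GV k L)]

theorem disc_le (h : FF k t) (w : GV k L) {x0 : Pt k E L} (hx : x0.O ≠ ⊤) {u u0 : L ⊗[k] E}
    (hu : IntT w x0.O u) (hu0 : ConstT x0.O u0) (h0 : u0 ≠ 0) (hlt : gT w (u - u0) < 1) :
    (∑ᶠ z ∈ {z : Pt k E L | red w z = x0}, ord z (algebraMap (L ⊗[k] E) (FL k E L) u)) ≤
        ord x0 (algebraMap (L ⊗[k] E) (FL k E L) u0) ∧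
      ((∑ᶠ z ∈ {z : Pt k E L | red w z = x0}, ord z (algebraMap (L ⊗[k] E) (FL k E L) u)) =
        ord x0 (algebraMap (L ⊗[k] E) (FL k E L) u0) →
        ∀ y : Pt k E L, red w y = x0 → ord y (algebraMap (L ⊗[k] E) (FL k E L) u) = 0 →
          -Real.log (w.v (val y (algebraMap (L ⊗[k] E) (FL k E L) u))) =
            ∑ᶠ z : Pt k E L,
              (ord z (algebraMap (L ⊗[k] E) (FL k E L) u) : ℝ) * ipt w y z) := by
  obtain ⟨c0, hc0, -⟩ := DiscAux.const_ev h hx hu0
  obtain ⟨n, hn⟩ := Int.eq_ofNat_of_zero_le (DiscAux.ord_nonneg h hc0)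
  rw [hn]
  exact DiscAux.main h w hx n hu hu0 h0 hlt hn

end Pool.Agent.FFC
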