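import Pool.Agent.P.MP_a2beea_nt.FC.Red
import Pool.Agent.P.MP_a2beea_nt.FC.Val

/-! The division lemma. Let `O = redO w z`, `π = unif O`, `B` the valuation ring of `w`,
`S` the subring of `L ⊗ E` of the elements with `IntT w O`, `J` the ideal of `S` generated by all
`δ a = 1 ⊗ a - z(a) ⊗ 1`, `a ∈ O`; `x ∈ S` with `EvT z x 0` lies in `J`. `J` is finitely generated:
`O` is a localisation of the finitely generated algebra `OO k t` or `OO k t⁻¹` (`OO_fg`,
`place_frac`), `δ (a a') = (1 ⊗ a) δ a' + (z a' ⊗ 1) δ a`. Let `n` be the prime ideal of the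
`s ∈ S` whose value at `z` has `w < 1`. For `a ∈ O` take `μ` from `place_res`, `μ(a) = π b`;
`δ(μ(a)) = u δ a` with `u ∈ S` of value `μ'(z a)`, a unit for `w` (separability), and
`δ(π b) = (1 ⊗ π) δ b + (z b ⊗ 1) δ π` with `1 ⊗ π ∈ n`. So `u δ a ∈ (δ π) + n J`; Nakayama
(`Submodule.exists_sub_one_mem_and_smul_eq_zero_of_fg_of_le_smul` after localising, or
the determinant trick) gives `s ∉ n` with `s J ⊆ (δ π)`. It is convenient to prove an abstract
version for a commutative ring `S` first. -/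

open Polynomial
open scoped TensorProduct NNReal IntermediateField

namespace Pool.Agent.FFC

open Classical

variable {k : Type*} [Field k] [Fintype k] {E : Type*} [Field E] [Algebra k E] {t : E}
  {L : Type*} [Field L] [Algebra k L] [IsAlgClosed L]
  [IsDomain (L ⊗[k] E)]

omit [Fintype k] [IsAlgClosed L] [IsDomain (L ⊗[k] E)] in
private theorem intT_sum {w : GV k L} {O : ValuationSubring E} {ι : Type} [Fintype ι] (b : ι → L)
    (a : ι → E) (ha : ∀ i, a i ∈ O) (hb : ∀ i, w.v (b i) ≤ 1) :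
    IntT w O (∑ i, b i ⊗ₜ[k] a i) :=
  ⟨_, b ∘ (Fintype.equivFin ι).symm, a ∘ (Fintype.equivFin ι).symm, fun _ => ha _, fun _ => hb _,
    ((Fintype.equivFin ι).symm.sum_comp fun i => b i ⊗ₜ[k] a i).symm⟩

omit [Fintype k] [IsAlgClosed L] [IsDomain (L ⊗[k] E)] in
private theorem intT_tmul {w : GV k L} {O : ValuationSubring E} {b : L} {a : E} (ha : a ∈ O)
    (hb : w.v b ≤ 1) : IntT w O (b ⊗ₜ[k] a) :=
  ⟨1, fun _ => b, fun _ => a, fun _ => ha, fun _ => hb, by simp⟩

theorem IntT.add {w : GV k L} {O : ValuationSubring E} {x y : L ⊗[k] E} (hx : IntT w O x)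
    (hy : IntT w O y) : IntT w O (x + y) := by
  obtain ⟨n, b, a, ha, hb, rfl⟩ := hx
  obtain ⟨m, b', a', ha', hb', rfl⟩ := hy
  have := intT_sum (w := w) (O := O) (Sum.elim b b') (Sum.elim a a') (by rintro (i | i) <;> simp [*])
    (by rintro (i | i) <;> simp [*])
  rwa [Fintype.sum_sum_type] at this

theorem IntT.mul {w : GV k L} {O : ValuationSubring E} {x y : L ⊗[k] E} (hx : IntT w O x)
    (hy : IntT w O y) : IntT w O (x * y) := by
  obtain ⟨n, b, a, ha, hb, rfl⟩ := hx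
  obtain ⟨m, b', a', ha', hb', rfl⟩ := hy
  have := intT_sum (w := w) (O := O) (fun p : Fin n × Fin m => b p.1 * b' p.2)
    (fun p => a p.1 * a' p.2) (fun p => mul_mem (ha _) (ha' _))
    fun p => by rw [map_mul]; exact mul_le_one' (hb _) (hb' _)
  rw [Fintype.sum_prod_type] at this
  simpa only [Finset.sum_mul_sum, Algebra.TensorProduct.tmul_mul_tmul] using this

/-- Values of an integral element on a residue disc are integral and congruent. -/
theorem IntT.evT {w : GV k L} {z : Pt k E L} {x : L ⊗[k] E} (hx : IntT w (redO w z) x) :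
    ∃ c0 : L, EvT z x c0 ∧ w.v c0 ≤ 1 ∧
      ∀ y : Pt k E L, red w y = red w z → ∃ c, EvT y x c ∧ w.v (c - c0) < 1 := by
  obtain ⟨n, b, a, ha, hb, rfl⟩ := hx
  refine ⟨_, ⟨n, b, a, fun i => (ha i).1, rfl, rfl⟩, w.v.map_sum_le fun i _ => ?_, fun y hy => ?_⟩
  · rw [map_mul]
    exact mul_le_one' (hb i) (ha i).2
  obtain ⟨h1, h2⟩ := (red_eq_iff w y z).1 hy
  rw [← h1] at ha
  refine ⟨_, ⟨n, b, a, fun i => (ha i).1, rfl, rfl⟩, ?_⟩
  rw [← Finset.sum_sub_distrib]
  refine w.v.map_sum_lt one_ne_zero fun i _ => ?_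
  rw [← mul_sub, map_mul]
  exact mul_lt_one_of_nonneg_of_lt_one_right (hb i) zero_le (h2 _ (ha i))

/-- The subring of the integral elements. -/
private def intS (w : GV k L) (O : ValuationSubring E) : Subring (L ⊗[k] E) where
  carrier := {x | IntT w O x}
  mul_mem' := IntT.mul
  add_mem' := IntT.add
  one_mem' := intT_tmul (b := 1) (one_mem O) (by simp)
  zero_mem' := by simpa using intT_tmul (w := w) (b := 0) (one_mem O) (by simp)
  neg_mem' := fun {x} hx => by
    have := (intT_tmul (w := w) (b := -1) (one_mem O) (by simp)).mul hx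
    rwa [TensorProduct.neg_tmul, ← Algebra.TensorProduct.one_def, neg_one_mul] at this

/-- The elements whose value is small. -/
private def smallI (w : GV k L) (z : Pt k E L) : Ideal (intS w (redO w z)) where
  carrier := {s | ∃ c, EvT z (s : L ⊗[k] E) c ∧ w.v c < 1}
  zero_mem' := ⟨0, by simpa using evT_tmul z 0 (one_mem z.O), by simp⟩
  add_mem' := by
    rintro a b ⟨c, h1, h2⟩ ⟨d, h3, h4⟩
    exact ⟨c + d, h1.add h3, w.v.map_add_lt h2 h4⟩
  smul_mem' := by
    rintro r a ⟨c, h1, h2⟩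
    obtain ⟨d, h3, h4, -⟩ := IntT.evT r.2
    refine ⟨d * c, h3.mul h1, ?_⟩
    rw [map_mul]
    exact mul_lt_one_of_nonneg_of_lt_one_right h4 zero_le h2

/-- The function `a - a(z)`. -/
private noncomputable def dl (z : Pt k E L) (a : E) : L ⊗[k] E :=
  (1 : L) ⊗ₜ[k] a - z.ev a ⊗ₜ[k] (1 : E)

omit [Fintype k] [IsAlgClosed L] [IsDomain (L ⊗[k] E)] in
private theorem dl_add (z : Pt k E L) {a b : E} (ha : a ∈ z.O) (hb : b ∈ z.O) :
    dl z (a + b) = dl z a + dl z b := by
  rw [dl, dl, dl, z.ev_add a ha b hb, TensorProduct.tmul_add, TensorProduct.add_tmul]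
  ring

omit [Fintype k] [IsAlgClosed L] [IsDomain (L ⊗[k] E)] in
private theorem dl_mul (z : Pt k E L) {a b : E} (ha : a ∈ z.O) (hb : b ∈ z.O) :
    dl z (a * b) = (1 : L) ⊗ₜ[k] a * dl z b + z.ev b ⊗ₜ[k] (1 : E) * dl z a := by
  simp only [dl, z.ev_mul a ha b hb, mul_sub, Algebra.TensorProduct.tmul_mul_tmul, one_mul, mul_one,
    mul_comm (z.ev b)]
  ring

omit [Fintype k] [IsAlgClosed L] [IsDomain (L ⊗[k] E)] in
private theorem dl_alg (z : Pt k E L) (c : k) : dl z (algebraMap k E c) = 0 := by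
  rw [dl, z.ev_alg, Algebra.algebraMap_eq_smul_one, Algebra.algebraMap_eq_smul_one,
    TensorProduct.smul_tmul, sub_self]

private theorem dl_aeval (w : GV k L) (z : Pt k E L) {a : E} (ha : a ∈ redO w z) (P : k[X]) :
    ∃ u, IntT w (redO w z) u ∧ EvT z u (aeval (z.ev a) (derivative P)) ∧
      dl z (aeval a P) = u * dl z a := by
  have hO : ∀ P : k[X], aeval a P ∈ redO w z := fun P => ((red w z).ev_aeval ha P).1
  induction P using Polynomial.induction_on with
  | C c =>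
    refine ⟨0, (intS w _).zero_mem, ?_, by rw [aeval_C, dl_alg, zero_mul]⟩
    simpa using evT_tmul z 0 (one_mem z.O)
  | add P Q hP hQ =>
    obtain ⟨u, u1, u2, u3⟩ := hP
    obtain ⟨u', v1, v2, v3⟩ := hQ
    refine ⟨u + u', u1.add v1, by rw [map_add, map_add]; exact u2.add v2, ?_⟩
    rw [map_add, dl_add z (hO P).1 (hO Q).1, u3, v3, add_mul]
  | monomial n c hP =>
    obtain ⟨u, u1, u2, u3⟩ := hP
    rw [pow_succ', mul_left_comm]
    generalize C c * X ^ n = P at u2 u3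
    refine ⟨(1 : L) ⊗ₜ[k] a * u + z.ev (aeval a P) ⊗ₜ[k] (1 : E),
      ((intT_tmul ha (by simp)).mul u1).add (intT_tmul (one_mem _) (hO P).2), ?_, ?_⟩
    · have := ((evT_tmul z 1 ha.1).mul u2).add (evT_tmul z (z.ev (aeval a P)) (one_mem z.O))
      rw [z.ev_one, mul_one, one_mul, (z.ev_aeval ha.1 P).2] at this
      rwa [derivative_mul, derivative_X, one_mul, map_add, map_mul, aeval_X, add_comm (aeval _ P),
        (z.ev_aeval ha.1 P).2]
    · rw [map_mul, aeval_X, dl_mul z ha.1 (hO P).1, u3]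
      ring

private theorem dl_fg (h : FF k t) (w : GV k L) (z : Pt k E L) (ht : t ∈ redO w z) :
    ∃ G : Finset E, (∀ g ∈ G, g ∈ redO w z) ∧ ∀ a ∈ redO w z,
      dl z a ∈ Submodule.span (intS w (redO w z)) (dl z '' (G : Set E)) := by
  obtain ⟨G, hG⟩ := OO_fg h
  have hO := redO_place h w z
  have hle := OO_le hO.2 ht
  set J := Submodule.span (intS w (redO w z)) (dl z '' (G : Set E))
  have hm : ∀ s x, IntT w (redO w z) s → x ∈ J → s * x ∈ J := fun s x hs hx =>
    J.smul_mem ⟨s, hs⟩ hx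
  have h1 : ∀ a ∈ OO k t, dl z a ∈ J := by
    intro a ha
    rw [← hG] at ha hle
    induction ha using Algebra.adjoin_induction with
    | mem g hg => exact Submodule.subset_span ⟨g, hg, rfl⟩
    | algebraMap c => rw [dl_alg]; exact J.zero_mem
    | add a b ha hb h1 h2 =>
      rw [dl_add z (hle a ha).1 (hle b hb).1]
      exact J.add_mem h1 h2
    | mul a b ha hb h1 h2 =>
      rw [dl_mul z (hle a ha).1 (hle b hb).1]
      exact J.add_mem (hm _ _ (intT_tmul (hle a ha) (by simp)) h2)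
        (hm _ _ (intT_tmul (one_mem _) (hle b hb).2) h1)
  refine ⟨G, fun g hg => hle g (hG ▸ Algebra.subset_adjoin hg), fun a ha => ?_⟩
  obtain ⟨b, hb, s, hs, hs0, hs1, e⟩ := place_frac h hO ht ha
  have h2 := h1 b hb
  rw [← e, mul_comm, dl_mul z (hle s hs).1 ha.1] at h2
  have h3 := hm _ _ (intT_tmul (b := 1) hs1 (by simp))
    ((J.add_mem_iff_left (hm _ _ (intT_tmul (one_mem _) ha.2) (h1 s hs))).1 h2)
  rwa [← mul_assoc, Algebra.TensorProduct.tmul_mul_tmul, mul_one, inv_mul_cancel₀ hs0,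
    ← Algebra.TensorProduct.one_def, one_mul] at h3

private theorem dl_step (h : FF k t) (w : GV k L) (z : Pt k E L) {a : E} (ha : a ∈ redO w z) :
    ∃ (r : intS w (redO w z)) (p q : smallI w z) (b : E), b ∈ redO w z ∧
      dl z a = r • dl z (unif (redO w z)) + (p.1 • dl z b + q.1 • dl z a) := by
  have hO := redO_place h w z
  obtain ⟨μ, -, hμ, hb⟩ := place_res h hO ha
  obtain ⟨hπ, hπ', -⟩ := place_unif h hO
  have hv := v_unif_lt h w z
  set π := unif (redO w z)
  have hπ0 : π ≠ 0 := fun e => hπ' (by rw [e, inv_zero]; exact zero_mem _)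
  set b := aeval a μ / π with hbd
  have e : aeval a μ = π * b := (mul_div_cancel₀ _ hπ0).symm
  have hle : ∀ P : k[X], w.v (aeval (z.ev a) P) ≤ 1 := fun P => by
    rw [← (z.ev_aeval ha.1 P).2]
    exact ((red w z).ev_aeval ha P).1.2
  have hlt : w.v (aeval (z.ev a) μ) < 1 := by
    rw [← (z.ev_aeval ha.1 μ).2, e, z.ev_mul _ hπ.1 _ hb.1, map_mul]
    exact mul_lt_one_of_nonneg_of_lt_one_left zero_le hv hb.2
  obtain ⟨A, B, hAB⟩ : IsCoprime μ (derivative μ) := PerfectField.separable_of_irreducible hμ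
  obtain ⟨u, u1, u2, u3⟩ := dl_aeval w z ha μ
  set c := aeval (z.ev a) B
  have hc : IntT w (redO w z) (c ⊗ₜ[k] (1 : E)) := intT_tmul (one_mem _) (hle B)
  have hc' : IntT w (redO w z) ((-c) ⊗ₜ[k] (1 : E)) :=
    intT_tmul (one_mem _) (by rw [Valuation.map_neg]; exact hle B)
  have h1 : IntT w (redO w z) ((1 : L) ⊗ₜ[k] (1 : E)) := intT_tmul (one_mem _) (by simp)
  refine ⟨⟨_, hc.mul (intT_tmul (one_mem _) hb.2)⟩,
    ⟨⟨_, intT_tmul hπ (hle B)⟩, _, evT_tmul z c hπ.1, ?_⟩,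
    ⟨⟨_, h1.add (hc'.mul u1)⟩, _,
      (evT_tmul z 1 (one_mem _)).add ((evT_tmul z (-c) (one_mem _)).mul u2), ?_⟩, b, hb, ?_⟩
  · rw [map_mul]
    exact mul_lt_one_of_nonneg_of_lt_one_right (hle B) zero_le hv
  · have := congrArg (aeval (z.ev a)) hAB
    rw [map_add, map_mul, map_mul, map_one] at this
    rw [z.ev_one, mul_one, mul_one, neg_mul, ← sub_eq_add_neg, ← this, add_sub_cancel_right, map_mul]
    exact mul_lt_one_of_nonneg_of_lt_one_right (hle A) zero_le hlt
  · rw [e, dl_mul z hπ.1 hb.1] at u3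
    have e1 : c ⊗ₜ[k] π = c ⊗ₜ[k] (1 : E) * (1 : L) ⊗ₜ[k] π := by simp
    simp only [Subring.smul_def, smul_eq_mul]
    rw [e1, TensorProduct.neg_tmul, ← Algebra.TensorProduct.one_def]
    linear_combination (-c ⊗ₜ[k] (1 : E)) * u3

theorem division (h : FF k t) (w : GV k L) (z : Pt k E L) {x : L ⊗[k] E}
    (hx : IntT w (redO w z) x) (hz : EvT z x 0) :
    ∃ s r : L ⊗[k] E, IntT w (redO w z) s ∧ IntT w (redO w z) r ∧
      (∃ c, EvT z s c ∧ w.v c = 1) ∧
      s * x = ((1 : L) ⊗ₜ[k] unif (redO w z) - z.ev (unif (redO w z)) ⊗ₜ[k] (1 : E)) * r := by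
  obtain ⟨G, hG, hJ⟩ : ∃ G : Finset E, (∀ g ∈ G, g ∈ redO w z) ∧ ∀ a ∈ redO w z,
      dl z a ∈ Submodule.span (intS w (redO w z)) (dl z '' (G : Set E)) :=
    ((redO w z).mem_or_inv_mem t).elim (dl_fg h w z) (dl_fg h.inv w z)
  set J := Submodule.span (intS w (redO w z)) (dl z '' (G : Set E)) with hJd
  have hfg : J.FG := Submodule.fg_span (G.finite_toSet.image _)
  have hle : J ≤ Submodule.span (intS w (redO w z)) {dl z (unif (redO w z))} ⊔ smallI w z • J := by
    refine Submodule.span_le.2 ?_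
    rintro _ ⟨g, hg, rfl⟩
    obtain ⟨r, p, q, b, hb, e⟩ := dl_step h w z (hG g hg)
    rw [e]
    exact Submodule.add_mem_sup (Submodule.smul_mem _ _ (Submodule.mem_span_singleton_self _))
      (add_mem (Submodule.smul_mem_smul p.2 (hJ b hb)) (Submodule.smul_mem_smul q.2 (hJ g (hG g hg))))
  obtain ⟨s, ⟨c, hc1, hc2⟩, hs⟩ :=
    Submodule.exists_sub_one_mem_and_smul_le_of_fg_of_le_sup hfg le_rfl hle
  have hxJ : x ∈ J := by
    obtain ⟨n, b, a, ha, hb, rfl⟩ := hx
    have h0 := EvT.unique ⟨n, b, a, fun i => (ha i).1, rfl, rfl⟩ hz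
    have e : ∑ i, b i ⊗ₜ[k] a i = ∑ i, b i ⊗ₜ[k] (1 : E) * dl z (a i) := by
      simp only [dl, mul_sub, Algebra.TensorProduct.tmul_mul_tmul, mul_one, one_mul,
        Finset.sum_sub_distrib, ← TensorProduct.sum_tmul, h0, TensorProduct.zero_tmul, sub_zero]
    rw [e]
    exact J.sum_mem fun i _ => J.smul_mem ⟨_, intT_tmul (one_mem _) (hb i)⟩ (hJ _ (ha i))
  obtain ⟨r, hr⟩ := Submodule.mem_span_singleton.1 (hs (Submodule.smul_mem_pointwise_smul x s J hxJ))
  refine ⟨s, r, s.2, r.2, ⟨1 + c, ?_, w.v.map_one_add_of_lt hc2⟩, ?_⟩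
  · have := (evT_tmul z 1 (one_mem _)).add hc1
    rwa [z.ev_one, mul_one, ← Algebra.TensorProduct.one_def, AddSubgroupClass.coe_sub,
      OneMemClass.coe_one, add_sub_cancel] at this
  · rw [mul_comm _ (r : L ⊗[k] E)]
    exact hr.symm

end Pool.Agent.FFC
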