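import Pool.Agent.P.MP_a2beea_nt.FC.Defs2

/-! Geometric irreducibility. Let `k'` be the algebraic closure of `k` in an algebraic closure `L'` of
`L`. For `α` algebraic over `k` the minimal polynomial of `α` over `E` has coefficients algebraic
over `k`, hence in `k` (`FF.reg`), so `k(α) ⊗ E` is a field; every finite subextension of `k'` is
simple (`k` is finite), so `k' ⊗ E` is a domain, algebraic over `E`, hence a field `E'`.
Then `L' ⊗_k E = L' ⊗_{k'} E'` is a domain because `k'` is algebraically closed
(search Mathlib for `isDomain` of tensor products over an algebraically closed field,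
`IsGeometricallyIntegral`, `LinearDisjoint`; or prove it by the Nullstellensatz: a relation
`x y = 0` lives in `B ⊗ E'` with `B` a finitely generated `k'`-domain, specialise at a
`k'`-point of `B` where a coefficient of `x` and a coefficient of `y` do not vanish). -/

open Polynomial
open scoped TensorProduct NNReal IntermediateField

namespace Pool.Agent.FFC

open Classical

variable {k : Type*} [Field k] [Fintype k] {E : Type*} [Field E] [Algebra k E] {t : E}

omit [Fintype k] in
theorem dom_irred (hreg : ∀ x : E, IsAlgebraic k x → x ∈ (algebraMap k E).range) {f : k[X]}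
    (hf : f.Monic) (hi : Irreducible f) : Irreducible (f.map (algebraMap k E)) := by
  have hinj := map_injective (algebraMap k E) (algebraMap k E).injective
  have key : ∀ a : E[X], a.Monic → a ∣ f.map (algebraMap k E) →
      ∃ a' : k[X], a'.map (algebraMap k E) = a ∧ a'.Monic := fun a ha hd => by
    have h1 := integralClosure.mem_lifts_of_monic_of_dvd_map E hf ha hd
    have h2 : a ∈ lifts (algebraMap k E) := by
      rw [lifts_iff_coeff_lifts] at h1 ⊢
      intro n
      obtain ⟨c, hc⟩ := h1 n
      rw [← hc]
      exact hreg _ c.2.isAlgebraic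
    obtain ⟨a', h3, -, h4⟩ := lifts_and_natDegree_eq_and_monic h2 ha
    exact ⟨a', h3, h4⟩
  have h1 : f ≠ 1 := hi.ne_one
  rw [irreducible_of_monic (hf.map _) fun e => h1 (hinj (by rw [e, Polynomial.map_one]))]
  intro a b ha hb hab
  obtain ⟨a', rfl, ha'⟩ := key a ha ⟨b, hab.symm⟩
  obtain ⟨b', rfl, hb'⟩ := key b hb ⟨_, by rw [← hab, mul_comm]⟩
  rw [← Polynomial.map_mul] at hab
  rcases (irreducible_of_monic hf h1).1 hi a' b' ha' hb' (hinj hab) with e | e
  · exact Or.inl (by rw [e, Polynomial.map_one])
  · exact Or.inr (by rw [e, Polynomial.map_one])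

theorem dom_prime {A B : Type*} [CommRing A] [CommRing B] (e : A ≃+* B) {p : A[X]}
    (h : Prime (p.map (e : A →+* B))) : Prime p :=
  (MulEquiv.prime_iff (mapEquiv e)).1 h

theorem dom_finite (hreg : ∀ x : E, IsAlgebraic k x → x ∈ (algebraMap k E).range) (K : Type*)
    [Field K] [Algebra k K] [FiniteDimensional k K] : IsDomain (K ⊗[k] E) := by
  obtain ⟨α, hα⟩ := Field.exists_primitive_element_of_finite_bot k K
  have hint : IsIntegral k α := .of_finite k α
  have e1 : AdjoinRoot (minpoly k α) ≃ₐ[k] K :=
    ((IntermediateField.adjoinRootEquivAdjoin k hint).trans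
      (IntermediateField.equivOfEq hα)).trans IntermediateField.topEquiv
  have hp : Prime ((minpoly k α).map (algebraMap k E)) :=
    (dom_irred hreg (minpoly.monic hint) (minpoly.irreducible hint)).prime
  have e2 := AdjoinRoot.tensorAlgEquiv (R := k) (T := E) (minpoly k α) _ rfl
  have hq : Prime ((minpoly k α).map
      (Algebra.TensorProduct.includeRight : k →ₐ[k] E ⊗[k] k).toRingHom) := by
    refine dom_prime (Algebra.TensorProduct.rid k k E).toRingEquiv ?_
    convert hp using 1
    rw [Polynomial.map_map]
    congr 1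
    ext c
    simp [Algebra.algebraMap_eq_smul_one]
  have := AdjoinRoot.isDomain_of_prime hq
  have := e2.toMulEquiv.isDomain
  exact ((Algebra.TensorProduct.comm k K E).trans
    (Algebra.TensorProduct.congr AlgEquiv.refl e1.symm)).toMulEquiv.isDomain

omit [Fintype k] in
theorem dom_repr {A B ι : Type*} [CommRing A] [CommRing B] [Algebra k A] [Algebra k B]
    (b : Module.Basis ι k E) (φ : A →ₐ[k] B) (x : A ⊗[k] E) (i : ι) :
    (Algebra.TensorProduct.basis B b).repr (Algebra.TensorProduct.map φ (AlgHom.id k E) x) i =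
      φ ((Algebra.TensorProduct.basis A b).repr x i) := by
  induction x with
  | zero => simp
  | tmul a e => simp [Algebra.TensorProduct.basis_repr_tmul]
  | add x y hx hy => simp only [map_add, Finsupp.add_apply, hx, hy]

omit [Fintype k] in
theorem dom_lift {L ι : Type*} [Field L] [Algebra k L] (b : Module.Basis ι k E)
    (B : Subalgebra k L) (x : L ⊗[k] E)
    (hx : ∀ i, (Algebra.TensorProduct.basis L b).repr x i ∈ B) :
    ∃ x' : B ⊗[k] E, Algebra.TensorProduct.map B.val (AlgHom.id k E) x' = x := by
  refine ⟨(Algebra.TensorProduct.basis B b).repr.symm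
    (Finsupp.onFinset ((Algebra.TensorProduct.basis L b).repr x).support (fun i => ⟨_, hx i⟩)
      fun i hi => Finsupp.mem_support_iff.2 fun e => hi (Subtype.ext e)), ?_⟩
  refine (Algebra.TensorProduct.basis L b).repr.injective (Finsupp.ext fun i => ?_)
  rw [dom_repr, LinearEquiv.apply_symm_apply]
  rfl

theorem FF.isDomain (h : FF k t) (L : Type*) [Field L] [Algebra k L] :
    IsDomain (L ⊗[k] E) := by
  have : NoZeroDivisors (L ⊗[k] E) := by
    refine ⟨fun {x y} hxy => ?_⟩
    by_contra hne
    obtain ⟨hx, hy⟩ := not_or.1 hne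
    let b := Module.Basis.ofVectorSpace k E
    let r := (Algebra.TensorProduct.basis L b).repr
    obtain ⟨i, hi⟩ := Finsupp.ne_iff.1 (r.map_ne_zero_iff.2 hx)
    obtain ⟨j, hj⟩ := Finsupp.ne_iff.1 (r.map_ne_zero_iff.2 hy)
    let s : Finset L := (r x).frange ∪ (r y).frange ∪ {(r x i)⁻¹, (r y j)⁻¹}
    let B : Subalgebra k L := Algebra.adjoin k (s : Set L)
    have hB : ∀ c ∈ s, c ∈ B := fun c hc => Algebra.subset_adjoin hc
    have hxB : ∀ n, r x n ∈ B := fun n => by
      by_cases e : r x n = 0
      · rw [e]; exact zero_mem _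
      · exact hB _ (Finset.mem_union_left _ (Finset.mem_union_left _
          (Finsupp.mem_frange.2 ⟨e, n, rfl⟩)))
    have hyB : ∀ n, r y n ∈ B := fun n => by
      by_cases e : r y n = 0
      · rw [e]; exact zero_mem _
      · exact hB _ (Finset.mem_union_left _ (Finset.mem_union_right _
          (Finsupp.mem_frange.2 ⟨e, n, rfl⟩)))
    obtain ⟨x', ex⟩ := dom_lift b B x hxB
    obtain ⟨y', ey⟩ := dom_lift b B y hyB
    have h0 : x' * y' = 0 := by
      refine (Algebra.TensorProduct.basis B b).repr.injective (Finsupp.ext fun n => ?_)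
      have := dom_repr b B.val (x' * y') n
      rw [map_mul, ex, ey, hxy, map_zero] at this
      rw [map_zero]
      exact Subtype.ext this.symm
    have : Algebra.FiniteType k B :=
      (Subalgebra.fg_iff_finiteType _).1 (Subalgebra.fg_adjoin_finset s)
    obtain ⟨m, hm⟩ := Ideal.exists_maximal B
    let := Ideal.Quotient.field m
    have : Module.Finite k (B ⧸ m) := finite_of_finite_type_of_isJacobsonRing k (B ⧸ m)
    have := dom_finite h.reg (B ⧸ m)
    have key : ∀ (z : B ⊗[k] E) (n), r (Algebra.TensorProduct.map B.val (AlgHom.id k E) z) n ≠ 0 →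
        (r (Algebra.TensorProduct.map B.val (AlgHom.id k E) z) n)⁻¹ ∈ B →
        Algebra.TensorProduct.map (Ideal.Quotient.mkₐ k m) (AlgHom.id k E) z ≠ 0 := by
      intro z n h1 h2 h3
      have h4 := dom_repr b (Ideal.Quotient.mkₐ k m) z n
      rw [h3, map_zero] at h4
      have h5 : (Algebra.TensorProduct.basis B b).repr z n ∈ m :=
        Ideal.Quotient.eq_zero_iff_mem.1 h4.symm
      refine hm.ne_top ((Ideal.eq_top_iff_one m).2 ?_)
      have h6 := m.mul_mem_left ⟨_, h2⟩ h5
      convert h6 using 1
      apply Subtype.ext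
      have h7 := dom_repr b B.val z n
      exact ((congrArg (fun c => (r (Algebra.TensorProduct.map B.val (AlgHom.id k E) z) n)⁻¹ * c)
        h7).symm.trans (inv_mul_cancel₀ h1)).symm
    have h1 := key x' i (by rw [ex]; exact hi)
      (by rw [ex]; exact hB _ (Finset.mem_union_right _ (by simp)))
    have h2 := key y' j (by rw [ey]; exact hj)
      (by rw [ey]; exact hB _ (Finset.mem_union_right _ (by simp)))
    exact mul_ne_zero h1 h2 (by rw [← map_mul, h0, map_zero])
  exact NoZeroDivisors.to_isDomain _

end Pool.Agent.FFC
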