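import Pool.Agent.P.MP_a2beea_nt.FC.Points

/-! The dual basis. `OO k t` is finite and torsion free over the PID `Algebra.adjoin k {t}`, hence
free; a basis `e` is a `k⟮t⟯`-basis of `E`; let `e'` be the dual basis for the trace form
(`LinearMap.BilinForm.dualBasis`, `Module.Basis.traceDual`). For `c` transcendental make `L` a
`k⟮t⟯`-algebra by `t ↦ c`; then `∑_y y(x)` is the image of the trace (`trace_eq_sum_embeddings`).
`orth`: for `b ∈ OO k t`, `y'(b) S = y(b) S` by `mul`, so `S = 0` if `y ≠ y'`; summing over `y`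
and using `one` gives `S = 1` for `y = y'`. `orth'`: the number `n` equals `dg k t` (`span` and
`OO_frac` give `≥`, `indep` gives `≤`), which is the cardinality of the fibre, so the two matrices
are square (`Matrix.mul_eq_one_comm`). -/

open Polynomial
open scoped TensorProduct NNReal IntermediateField

namespace Pool.Agent.FFC

open Classical

variable {k : Type*} [Field k] [Fintype k] {E : Type*} [Field E] [Algebra k E] {t : E}
  {L : Type*} [Field L] [Algebra k L] [IsAlgClosed L]

set_option linter.unusedSectionVars false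

private theorem dual_poly (h : FF k t) (x : Algebra.adjoin k {t}) :
    ∃ P : k[X], (x : E) = aeval t P := by
  obtain ⟨P, rfl⟩ := (Polynomial.algEquivOfTranscendental k t h.trans).surjective x
  refine ⟨P, ?_⟩
  rw [Polynomial.algEquivOfTranscendental_apply]
  exact (aeval_algHom_apply (Algebra.adjoin k {t}).val _ P).symm

/-- The sum over a fibre is the image of the trace. -/
private theorem dual_trace (h : FF k t) {c : L} (hc : Transcendental k c) :
    ∃ y₀ : E →ₐ[k] L, y₀ t = c ∧ ∀ x : E,
      ∑ᶠ y ∈ {y : E →ₐ[k] L | y t = c}, y x = y₀ (Algebra.trace k⟮t⟯ E x : k⟮t⟯) := by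
  obtain ⟨p, hp, hpc⟩ := fibre_nonempty h c
  have htop : p.O = ⊤ := by
    by_contra hn
    exact hc (hpc ▸ (Pt.const_iff h hp).1 hn)
  obtain ⟨y₀, rfl⟩ := p.eq_ofHom htop
  have hy₀ : y₀ t = c := hpc
  refine ⟨y₀, hy₀, fun x => ?_⟩
  let _ : Algebra k⟮t⟯ L := (y₀.comp k⟮t⟯.val).toRingHom.toAlgebra
  have : IsScalarTower k k⟮t⟯ L :=
    IsScalarTower.of_algebraMap_eq fun r => ((y₀.comp k⟮t⟯.val).commutes r).symm
  have := h.fin
  have := h.sep
  have htr := trace_eq_sum_embeddings L (K := k⟮t⟯) (L := E) (x := x)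
  have e0 : y₀ (Algebra.trace k⟮t⟯ E x : k⟮t⟯) = algebraMap k⟮t⟯ L (Algebra.trace k⟮t⟯ E x) := rfl
  rw [e0, htr, ← finsum_eq_sum_of_fintype, ← finsum_mem_univ fun z : E →ₐ[k⟮t⟯] L => z x]
  symm
  refine finsum_mem_eq_of_bijOn (M := L) (f := fun z : E →ₐ[k⟮t⟯] L => z x)
    (g := fun y : E →ₐ[k] L => y x) (fun z : E →ₐ[k⟮t⟯] L => z.restrictScalars k) ⟨?_, ?_, ?_⟩
    fun z _ => rfl
  · intro z _
    exact (z.commutes (IntermediateField.AdjoinSimple.gen k t)).trans hy₀
  · intro z _ z' _ e
    exact AlgHom.restrictScalars_injective k e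
  · intro y hy
    have e : y.comp k⟮t⟯.val = y₀.comp k⟮t⟯.val := by
      refine IntermediateField.adjoin_algHom_ext k fun x hx => ?_
      rw [Set.mem_singleton_iff] at hx
      subst hx
      exact hy.trans hy₀.symm
    exact ⟨{ toRingHom := y.toRingHom, commutes' := fun r => AlgHom.congr_fun e r },
      Set.mem_univ _, rfl⟩

open scoped IntermediateField.algebraAdjoinAdjoin in
/-- An integral basis. -/
private theorem dual_basis (h : FF k t) :
    ∃ (n : ℕ) (B : Module.Basis (Fin n) k⟮t⟯ E), (∀ a, B a ∈ OO k t) ∧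
      ∀ b ∈ OO k t, ∃ P : Fin n → k[X], ∀ a, ((B.repr b a : k⟮t⟯) : E) = aeval t (P a) := by
  have := h.fin
  have := h.sep
  set A := Algebra.adjoin k {t} with hA
  have e : k[X] ≃ₐ[k] A := Polynomial.algEquivOfTranscendental k t h.trans
  have : IsPrincipalIdealRing A := IsPrincipalIdealRing.of_surjective e.toRingEquiv e.surjective
  have : Module.IsTorsionFree A E := .trans_faithfulSMul A k⟮t⟯ E
  have : Module.Free A (integralClosure A E) :=
    IsIntegralClosure.module_free A k⟮t⟯ E (integralClosure A E)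
  have : Module.Finite A (integralClosure A E) :=
    IsIntegralClosure.finite A k⟮t⟯ E (integralClosure A E)
  have : IsLocalization (Algebra.algebraMapSubmonoid (integralClosure A E) (nonZeroDivisors A)) E :=
    IsIntegralClosure.isLocalization A k⟮t⟯ E (integralClosure A E)
  let b := Module.finBasis A (integralClosure A E)
  refine ⟨_, b.localizationLocalization k⟮t⟯ (nonZeroDivisors A) E, fun a => ?_, fun x hx => ?_⟩
  · rw [Module.Basis.localizationLocalization_apply]
    exact (b a).2
  · choose P hP using fun a => dual_poly h (b.repr ⟨x, hx⟩ a)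
    refine ⟨P, fun a => ?_⟩
    have := b.localizationLocalization_repr_algebraMap k⟮t⟯ (nonZeroDivisors A) E ⟨x, hx⟩ a
    rw [← hP a]
    exact congrArg Subtype.val this

private theorem dual_sum {n : ℕ} (B : Module.Basis (Fin n) k⟮t⟯ E) (x : E) :
    x = ∑ a, ((B.repr x a : k⟮t⟯) : E) * B a :=
  (B.sum_repr x).symm

theorem exists_dualB (h : FF k t) (L : Type*) [Field L] [Algebra k L] [IsAlgClosed L] :
    ∃ (n : ℕ) (e e' : Fin n → E), DualB k t L e e' := by
  have := h.fin
  have := h.sep
  obtain ⟨n, B, hB, hP⟩ := dual_basis h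
  have hrep : ∀ (x : E) (a : Fin n), B.repr x a = Algebra.trace k⟮t⟯ E (x * B.traceDual a) := by
    intro x a
    have := B.traceDual.traceDual_repr_apply x a
    rwa [Module.Basis.traceDual_traceDual, Algebra.traceForm_apply] at this
  refine ⟨n, B, B.traceDual, hB, fun b hb => ?_, fun b hb => ?_, ?_, ?_⟩
  · obtain ⟨P, hP⟩ := hP b hb
    exact ⟨P, by simpa only [hP] using dual_sum B b⟩
  · choose P hP using fun a => hP (b * B a) (mul_mem hb (hB a))
    refine ⟨fun a' a => P a a', fun a => ?_, fun a' => ?_⟩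
    · simpa only [hP] using dual_sum B (b * B a)
    · refine (dual_sum B.traceDual (b * B.traceDual a')).trans (Finset.sum_congr rfl fun a _ => ?_)
      rw [← hP, hrep, B.traceDual_repr_apply, Algebra.traceForm_apply, mul_right_comm]
  · obtain ⟨T, hT⟩ := hP 1 (one_mem _)
    refine ⟨T, by simpa only [hT] using dual_sum B 1, fun c hc a => ?_⟩
    obtain ⟨y₀, hy₀, hy⟩ := dual_trace h hc
    rw [hy, ← one_mul (B.traceDual a), ← hrep, hT, ← hy₀, aeval_algHom_apply]
  · have h1 : LinearIndependent k fun j : ℕ => IntermediateField.AdjoinSimple.gen k t ^ j := by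
      refine LinearIndependent.of_comp k⟮t⟯.val.toLinearMap ?_
      have h0 := (basisMonomials k).linearIndependent.map' (aeval t : k[X] →ₐ[k] E).toLinearMap
        (LinearMap.ker_eq_bot.2 h.chart.aeval_injective)
      have e0 : (⇑(aeval t : k[X] →ₐ[k] E).toLinearMap ∘ ⇑(basisMonomials k)) =
          ⇑k⟮t⟯.val.toLinearMap ∘ fun j : ℕ => IntermediateField.AdjoinSimple.gen k t ^ j := by
        funext j
        simp
      rw [← e0]
      exact h0
    have h2 := (linearIndependent_smul h1 B.traceDual.linearIndependent).comp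
      (fun x : Fin n × ℕ => (x.2, x.1)) (Equiv.prodComm (Fin n) ℕ).injective
    exact h2

private theorem dual_ne (h : FF k t) {y y' : E →ₐ[k] L} (hne : y ≠ y') :
    ∃ b ∈ OO k t, y b ≠ y' b := by
  by_contra hcon
  push Not at hcon
  refine hne (AlgHom.ext fun a => ?_)
  obtain ⟨b, hb, P, hP, e⟩ := OO_frac h a
  have h0 : y (aeval t P) ≠ 0 := (map_ne_zero y).2 (pts_aeval_ne h hP)
  have h1 : y' (aeval t P) = y (aeval t P) := (hcon _ (pts_aeval_mem t P)).symm
  have h2 := hcon b hb
  rw [← e, map_mul, map_mul, h1] at h2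
  exact mul_right_cancel₀ h0 h2

private theorem dual_off (h : FF k t) {n : ℕ} {e e' : Fin n → E} (hd : DualB k t L e e')
    {y y' : E →ₐ[k] L} (hy : y t = y' t) (hne : y ≠ y') : ∑ a, y (e' a) * y' (e a) = 0 := by
  obtain ⟨b, hb, hb'⟩ := dual_ne h hne
  obtain ⟨M, h1, h2⟩ := hd.mul b hb
  have e1 : y' b * ∑ a, y (e' a) * y' (e a) =
      ∑ a, ∑ a', aeval (y' t) (M a' a) * (y (e' a) * y' (e a')) := by
    rw [Finset.mul_sum]
    refine Finset.sum_congr rfl fun a _ => ?_
    rw [mul_left_comm, ← map_mul, h1, map_sum, Finset.mul_sum]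
    refine Finset.sum_congr rfl fun a' _ => ?_
    rw [map_mul, aeval_algHom_apply, mul_left_comm]
  have e2 : y b * ∑ a, y (e' a) * y' (e a) =
      ∑ a', ∑ a, aeval (y' t) (M a' a) * (y (e' a) * y' (e a')) := by
    rw [Finset.mul_sum]
    refine Finset.sum_congr rfl fun a' _ => ?_
    rw [← mul_assoc, ← map_mul, h2, map_sum, Finset.sum_mul]
    refine Finset.sum_congr rfl fun a _ => ?_
    rw [map_mul, ← hy, aeval_algHom_apply, mul_assoc]
  rw [Finset.sum_comm, ← e1] at e2
  by_contra h0
  exact hb' (mul_right_cancel₀ h0 e2)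

theorem DualB.orth (h : FF k t) {n : ℕ} {e e' : Fin n → E} (hd : DualB k t L e e')
    {y y' : E →ₐ[k] L} (hy : y t = y' t) :
    ∑ a, y (e' a) * y' (e a) = if y = y' then 1 else 0 := by
  split_ifs with hyy
  swap
  · exact dual_off h hd hy hyy
  subst hyy
  obtain ⟨T, h1, h2⟩ := hd.one
  have hc : Transcendental k (y t) := fun ha =>
    h.trans ((isAlgebraic_algHom_iff y y.toRingHom.injective).1 ha)
  have hfin := hom_fibre_finite h (y t)
  have e1 : ∑ z ∈ hfin.toFinset, ∑ a, z (e' a) * y (e a) = 1 := by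
    rw [Finset.sum_comm, ← map_one y, h1, map_sum]
    refine Finset.sum_congr rfl fun a _ => ?_
    rw [← Finset.sum_mul, ← finsum_mem_eq_finite_toFinset_sum _ hfin, h2 _ hc, map_mul,
      aeval_algHom_apply]
  rw [← e1]
  exact (Finset.sum_eq_single_of_mem (f := fun z : E →ₐ[k] L => ∑ a, z (e' a) * y (e a)) y
    (hfin.mem_toFinset.2 rfl) fun z hz hne => dual_off h hd (hfin.mem_toFinset.1 hz) hne).symm

open scoped IntermediateField.algebraAdjoinAdjoin in
private theorem dual_card (h : FF k t) {n : ℕ} {e e' : Fin n → E} (hd : DualB k t L e e') :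
    n = dg k t := by
  have := h.fin
  apply le_antisymm
  · have h1 : LinearIndependent (Algebra.adjoin k {t}) e' := by
      rw [Fintype.linearIndependent_iff]
      intro g hg
      choose P hP using fun a => dual_poly h (g a)
      set N := Finset.univ.sup fun a => (P a).natDegree + 1 with hN
      have hlt : ∀ a, (P a).natDegree < N := fun a =>
        Finset.le_sup (f := fun a => (P a).natDegree + 1) (Finset.mem_univ a)
      have h2 := linearIndependent_iff'.1 hd.indep (Finset.univ ×ˢ Finset.range N)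
        (fun x => (P x.1).coeff x.2) (by
          rw [Finset.sum_product, ← hg]
          refine Finset.sum_congr rfl fun a _ => ?_
          rw [Subalgebra.smul_def, smul_eq_mul, hP, aeval_eq_sum_range' (hlt a), Finset.sum_mul]
          simp only [smul_mul_assoc])
      intro a
      have h3 : P a = 0 := by
        ext j
        by_cases hj : j < N
        · exact h2 (a, j) (Finset.mem_product.2 ⟨Finset.mem_univ _, Finset.mem_range.2 hj⟩)
        · exact coeff_eq_zero_of_natDegree_lt ((hlt a).trans_le (not_lt.1 hj))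
      apply Subtype.ext
      rw [hP, h3, map_zero]
      rfl
    have h4 := (LinearIndependent.iff_fractionRing (Algebra.adjoin k {t}) k⟮t⟯).1 h1
    simpa [dg] using h4.fintype_card_le_finrank
  · have h1 : Submodule.span k⟮t⟯ (Set.range e) = ⊤ := by
      rw [eq_top_iff]
      intro x _
      obtain ⟨b, hb, Q, hQ, e1⟩ := OO_frac h x
      obtain ⟨P, hP⟩ := hd.span b hb
      have h0 := pts_aeval_ne h hQ
      have e2 : x = ∑ a, (⟨aeval t (P a) / aeval t Q,
          div_mem (h.chart.aeval_mem _) (h.chart.aeval_mem _)⟩ : k⟮t⟯) • e a := by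
        rw [eq_div_of_mul_eq h0 e1, hP, Finset.sum_div]
        refine Finset.sum_congr rfl fun a _ => ?_
        rw [mul_div_right_comm]
        rfl
      rw [e2]
      exact Submodule.sum_mem _ fun a _ =>
        Submodule.smul_mem _ _ (Submodule.subset_span ⟨a, rfl⟩)
    simpa [dg] using finrank_le_of_span_eq_top h1

theorem DualB.orth' (h : FF k t) {n : ℕ} {e e' : Fin n → E} (hd : DualB k t L e e') {c : L}
    (hc : Transcendental k c) (a b : Fin n) :
    ∑ᶠ y ∈ {y : E →ₐ[k] L | y t = c}, y (e' a) * y (e b) = if a = b then 1 else 0 := by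
  have hfin := hom_fibre_finite h c
  let P : Matrix hfin.toFinset (Fin n) L := fun y a => y.1 (e' a)
  let Q : Matrix (Fin n) hfin.toFinset L := fun a y => y.1 (e a)
  have hPQ : P * Q = 1 := by
    ext y y'
    rw [Matrix.mul_apply, Matrix.one_apply]
    have := hd.orth h ((hfin.mem_toFinset.1 y.2).trans (hfin.mem_toFinset.1 y'.2).symm)
    simpa only [Subtype.ext_iff] using this
  have hcard : Fintype.card hfin.toFinset = Fintype.card (Fin n) := by
    rw [Fintype.card_coe, ← Set.ncard_eq_toFinset_card _ hfin, hom_fibre_card h hc,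
      Fintype.card_fin, dual_card h hd]
  have hQP := (Matrix.mul_eq_one_comm_of_equiv (Fintype.card_eq.1 hcard).some).1 hPQ
  have h1 := congrFun (congrFun hQP b) a
  rw [Matrix.mul_apply, Matrix.one_apply] at h1
  rw [finsum_mem_eq_finite_toFinset_sum _ hfin, ← Finset.sum_coe_sort]
  simp only [eq_comm (a := a), ← h1, mul_comm]
  rfl

end Pool.Agent.FFC
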