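import Pool.Agent.P.MP_a2beea_nt.FC.Lin

/-! The moving lemma. Let `a_0 = t, a_1, …, a_s` generate `OO k t`, all in `LL k t m`, and let
`a_i'` be given by `exists_deriv`; `y(a_0') = 1` by `ord_sub_self`. Choose constants `c_i`
(algebraic over `k`) with `∑ c_i y(a_i') ≠ 0` and `∑ c_i (z(a_i) - y(a_i)) ≠ 0` for all
`z ∈ T`, `z ≠ y`: each condition excludes a proper subspace of `(algebraicClosure k L) ^ (s+1)`, an
infinite field (`Subspace.top_mem_of_biUnion_eq_univ`, or induct / use powers `c_i = c ^ i`).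
Put `u = ∑ c_i ⊗ a_i`, `u' = ∑ c_i ⊗ a_i'`, `f = u - u(y) ⊗ 1`. At a non-constant `z` with
`u(z) = u(y)`: `f = u'(z) δ_t + (order ≥ 2)` and `u'(z) ≠ 0` (`ConstT.ord_ofHom`, `u' ≠ 0`), so the
zero is simple. The poles of `f` are at infinity of order at most `m * (-ord t)`, so there are at
most `m * dg` zeros (`deg_zero`, `deg_pole`), and there is a pole since there is a zero; `u` has
the same poles; `II_posLog_const` for `u` gives `ht z = ht y`. -/

open Polynomial
open scoped TensorProduct NNReal IntermediateField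

namespace Pool.Agent.FFC

open Classical

variable {k : Type*} [Field k] [Fintype k] {E : Type*} [Field E] [Algebra k E] {t : E}
  {L : Type*} [Field L] [Algebra k L] [IsAlgClosed L]
  [IsDomain (L ⊗[k] E)]
  [Nonempty (GV k L)]
  {θ : L}

omit [Fintype k] in
theorem mov_choice {ι J : Type*} (A : Finset ι) (B : Finset J) (v : J → ι → L)
    (hv : ∀ j ∈ B, ∃ a ∈ A, v j a ≠ 0) :
    ∃ c : ι → L, (∀ a, IsAlgebraic k (c a)) ∧ ∀ j ∈ B, ∑ a ∈ A, c a * v j a ≠ 0 := by
  haveI : IsAlgClosed (algebraicClosure k L) := IsAlgClosure.isAlgClosed k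
  obtain ⟨n, hn⟩ : ∃ n : ι → ℕ, Set.InjOn n (A : Set ι) :=
    (Set.countable_iff_exists_injOn).1 A.countable_toSet
  let p : J → L[X] := fun j => ∑ a ∈ A, monomial (n a) (v j a)
  have hp : ∀ j ∈ B, p j ≠ 0 := by
    intro j hj e
    obtain ⟨a, ha, h0⟩ := hv j hj
    have : (p j).coeff (n a) = v j a := by
      simp only [p, finset_sum_coeff, coeff_monomial]
      rw [Finset.sum_eq_single a]
      · simp
      · intro b hb hne
        rw [if_neg fun e => hne (hn hb ha e)]
      · intro h'; exact absurd ha h'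
    rw [e, coeff_zero] at this
    exact h0 this.symm
  have hq : ∏ j ∈ B, p j ≠ 0 := Finset.prod_ne_zero_iff.2 hp
  have hinf : {x : L | IsAlgebraic k x}.Infinite := by
    refine Set.infinite_of_injective_forall_mem (f := fun c : algebraicClosure k L => (c : L))
      Subtype.val_injective fun c => mem_algebraicClosure_iff.1 c.2
  obtain ⟨x, hx, hx'⟩ := hinf.exists_notMem_finset (∏ j ∈ B, p j).roots.toFinset
  refine ⟨fun a => x ^ n a, fun a => IsAlgebraic.pow hx _, fun j hj e => hx' ?_⟩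
  rw [Multiset.mem_toFinset, mem_roots hq, IsRoot, eval_prod]
  refine Finset.prod_eq_zero hj ?_
  simp only [p, eval_finset_sum, eval_monomial]
  rw [← e]
  exact Finset.sum_congr rfl fun a _ => mul_comm _ _

/-- The order of `f` at `p` is at least `n`, or `f` vanishes. -/
def MovGE (p : Pt k E L) (n : ℤ) (f : FL k E L) : Prop := f ≠ 0 → n ≤ ord p f

theorem MovGE.add (h : FF k t) {p : Pt k E L} {n : ℤ} {f g : FL k E L} (hf : MovGE p n f)
    (hg : MovGE p n g) : MovGE p n (f + g) := fun e => le_ord_add h p e hf hg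

theorem MovGE.sum (h : FF k t) {p : Pt k E L} {n : ℤ} {ι : Type*} (s : Finset ι)
    {f : ι → FL k E L} (hf : ∀ i ∈ s, MovGE p n (f i)) : MovGE p n (∑ i ∈ s, f i) := by
  induction s using Finset.induction_on with
  | empty => intro e; simp at e
  | insert a s ha ih =>
    rw [Finset.sum_insert ha]
    exact (hf a (Finset.mem_insert_self _ _)).add h
      (ih fun i hi => hf i (Finset.mem_insert_of_mem hi))

theorem MovGE.mul (h : FF k t) {p : Pt k E L} {n m : ℤ} {f g : FL k E L} (hf : MovGE p n f)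
    (hg : MovGE p m g) : MovGE p (n + m) (f * g) := by
  intro e
  have hf0 := left_ne_zero_of_mul e
  have hg0 := right_ne_zero_of_mul e
  rw [ord_mul h p hf0 hg0]
  exact add_le_add (hf hf0) (hg hg0)

theorem MovGE.cmul (h : FF k t) {p : Pt k E L} {n : ℤ} {f : FL k E L} (c : L)
    (hf : MovGE p n f) : MovGE p n (tm c 1 * f) := by
  have h0 : MovGE p 0 (tm c (1 : E)) := fun _ => (ord_tm_one h p c).ge
  simpa using h0.mul h hf

theorem mov_tm_neg (c : L) (a : E) : (tm (-c) a : FL k E L) = -tm c a := by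
  simp only [tm, TensorProduct.neg_tmul, map_neg]

theorem MovGE.neg (h : FF k t) {p : Pt k E L} {n : ℤ} {f : FL k E L}
    (hf : MovGE p n f) : MovGE p n (-f) := by
  have := hf.cmul h (-1)
  rwa [mov_tm_neg, tm_one, neg_one_mul] at this

theorem movGE_of_val (h : FF k t) {p : Pt k E L} {f : FL k E L} {c : L} (hc : HasVal p f c) :
    MovGE p 0 f := fun e => (hasVal_iff h p e).1 ⟨c, hc⟩

theorem mov_simple (h : FF k t) {p : Pt k E L} {M R : FL k E L} (hM : M ≠ 0)
    (h1 : ord p M = 1) (hR : MovGE p 2 R) : M + R ≠ 0 ∧ ord p (M + R) = 1 := by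
  have key : ¬ MovGE p 2 (M + R) := by
    intro H
    have := (H.add h (hR.neg h)) (by simpa using hM)
    rw [add_neg_cancel_right, h1] at this
    omega
  have hne : M + R ≠ 0 := fun e => key fun e' => absurd e e'
  have h2 : MovGE p 1 (M + R) :=
    MovGE.add h (fun _ => h1.ge) fun e => le_trans (by norm_num) (hR e)
  have h3 := h2 hne
  have h4 : ¬ 2 ≤ ord p (M + R) := fun e => key fun _ => e
  exact ⟨hne, by omega⟩

theorem mov_tm_pow (a : E) (m : ℕ) : (tm (1 : L) a : FL k E L) ^ m = tm 1 (a ^ m) := by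
  induction m with
  | zero => rw [pow_zero, pow_zero, tm_one]
  | succ m ih => rw [pow_succ, ih, tm_mul, pow_succ, one_mul]

theorem movGE_inf (h : FF k t) {p : Pt k E L} {m : ℕ} (c : L) {a : E}
    (ha : a * t⁻¹ ^ m ∈ p.O) : MovGE p (m * ord p (tm (1 : L) t)) (tm c a) := by
  have h1 : MovGE p 0 (tm c (a * t⁻¹ ^ m)) := movGE_of_val h (hasVal_tm p c ha)
  have h2 : MovGE p (m * ord p (tm (1 : L) t)) ((tm (1 : L) t : FL k E L) ^ m) := fun _ => by
    rw [← zpow_natCast, ord_zpow h]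
  have h3 := h1.mul h h2
  rw [zero_add, mov_tm_pow, tm_mul, mul_one, mul_assoc, ← mul_pow,
    inv_mul_cancel₀ h.ne_zero, one_pow, mul_one] at h3
  exact h3

theorem mov_constT {ι : Type*} (A : Finset ι) (c : ι → L) (hc : ∀ a, IsAlgebraic k (c a))
    (b : ι → E) : ConstT (⊤ : ValuationSubring E) (∑ a ∈ A, c a ⊗ₜ[k] b a) := by
  refine ⟨A.card, fun i => c (A.equivFin.symm i), fun i => b (A.equivFin.symm i),
    fun _ => ValuationSubring.mem_top _, fun _ => hc _, ?_⟩
  rw [← Finset.sum_coe_sort A]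
  exact (Equiv.sum_comp A.equivFin.symm fun a : A => c a ⊗ₜ[k] b a).symm

theorem mov_map {ι : Type*} (A : Finset ι) (c : ι → L) (b : ι → E) :
    algebraMap (L ⊗[k] E) (FL k E L) (∑ a ∈ A, c a ⊗ₜ[k] b a) = ∑ a ∈ A, tm (c a) (b a) := by
  rw [map_sum]; rfl

theorem mov_val {ι : Type*} (A : Finset ι) (c : ι → L) (b : ι → E) (p : Pt k E L)
    (hb : ∀ a ∈ A, b a ∈ p.O) :
    HasVal p (∑ a ∈ A, tm (c a) (b a)) (∑ a ∈ A, c a * p.ev (b a)) :=
  HasVal.sum A fun a ha => hasVal_tm p (c a) (hb a ha)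

theorem mov_count (h : FF k t) {f : FL k E L} {m : ℕ} (Z : Finset (E →ₐ[k] L))
    (hZ : ∀ z ∈ Z, ord (Pt.ofHom z) f = 1) (hfin : ∀ p : Pt k E L, t ∈ p.O → 0 ≤ ord p f)
    (hinf : ∀ p : Pt k E L, t ∉ p.O → m * ord p (tm (1 : L) t) ≤ ord p f) :
    Z.card ≤ m * dg k t := by
  let I : Finset (Pt k E L) := (inf_finite h).toFinset
  let F : Finset (Pt k E L) := (ord_finite h f).toFinset ∪ I
  have e1 : ∑ p ∈ F, ord p f = 0 := by
    rw [← deg_zero h f]
    refine (finsum_eq_sum_of_support_subset _ ?_).symm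
    intro p hp
    simp only [F, Finset.coe_union, Set.Finite.coe_toFinset]
    exact Or.inl hp
  have e2 : ∑ p ∈ I, ord p (tm (1 : L) t) = -(dg k t : ℤ) := by
    rw [← deg_pole (L := L) h]
    exact (finsum_mem_eq_finite_toFinset_sum _ (inf_finite h)).symm
  have e3 : F.filter (fun p => t ∉ p.O) = I := by
    ext p
    simp only [F, I, Finset.mem_filter, Finset.mem_union, Set.Finite.mem_toFinset,
      Set.mem_setOf_eq]
    tauto
  rw [← Finset.sum_filter_add_sum_filter_not F (fun p => t ∈ p.O), e3] at e1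
  have e4 : m * ∑ p ∈ I, ord p (tm (1 : L) t) ≤ ∑ p ∈ I, ord p f := by
    rw [Finset.mul_sum]
    exact Finset.sum_le_sum fun p hp => hinf p (by simpa [I] using hp)
  have e5 : (Z.card : ℤ) ≤ ∑ p ∈ F.filter (fun p => t ∈ p.O), ord p f := by
    have : (Z.card : ℤ) = ∑ p ∈ Z.image Pt.ofHom, ord p f := by
      rw [Finset.sum_image fun a _ b _ e => Pt.ofHom_injective e, Finset.sum_congr rfl hZ]
      simp
    rw [this]
    refine Finset.sum_le_sum_of_subset_of_nonneg ?_ fun p hp _ =>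
      hfin p (Finset.mem_filter.1 hp).2
    intro p hp
    obtain ⟨z, hz, rfl⟩ := Finset.mem_image.1 hp
    refine Finset.mem_filter.2 ⟨Finset.mem_union_left _ ?_, ValuationSubring.mem_top _⟩
    rw [Set.Finite.mem_toFinset, Set.mem_setOf_eq, hZ z hz]
    exact one_ne_zero
  rw [e2] at e4
  have : (Z.card : ℤ) ≤ (m : ℤ) * dg k t := by linarith
  exact_mod_cast this

theorem mov_pole (h : FF k t) {U : FL k E L} {c : L} {q : Pt k E L}
    (hq : ord q (U - tm c 1) = 1) :
    0 < ∑ᶠ z : Pt k E L, ((max (-ord z U) 0 : ℤ) : ℝ) := by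
  have hne : U - tm c 1 ≠ 0 := fun e => by
    rw [e, ord_zero] at hq
    exact zero_ne_one hq
  have hex : ∃ p : Pt k E L, ord p U < 0 := by
    by_contra H
    push Not at H
    have h1 : ∀ p : Pt k E L, 0 ≤ ord p (U - tm c 1) := by
      intro p
      have h2 : MovGE p 0 U := fun _ => H p
      have h3 : MovGE p 0 (tm c (1 : E)) := fun _ => (ord_tm_one h p c).ge
      have := h2.add h (h3.neg h)
      rw [← sub_eq_add_neg] at this
      exact this hne
    have := finsum_pos h1 ⟨q, by rw [hq]; exact one_pos⟩ (ord_finite h _)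
    rw [deg_zero h] at this
    exact lt_irrefl _ this
  obtain ⟨p, hp⟩ := hex
  refine finsum_pos (fun z => ?_) ⟨p, ?_⟩ ((ord_finite h U).subset fun z hz e => hz ?_)
  · exact_mod_cast le_max_right _ _
  · exact_mod_cast lt_max_of_lt_left (by omega)
  · simp only [e, neg_zero, max_self, Int.cast_zero]

theorem moving (h : FF k t) {g : ℕ} (hR : RR0 k t g) (P : PD k θ) :
    ∃ B : ℕ, ∀ (y : E →ₐ[k] L) (T : Finset (E →ₐ[k] L)),
      ∃ (f : FL k E L) (S : Finset (E →ₐ[k] L)), f ≠ 0 ∧ y ∉ S ∧ Disjoint S T ∧ S.card ≤ B ∧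
        (∀ z ∈ S, ht P t (Pt.ofHom z) = ht P t (Pt.ofHom y)) ∧
        divN f = Finsupp.single y 1 + ∑ z ∈ S, Finsupp.single z 1 := by
  obtain ⟨G, hG⟩ := OO_fg h
  let A : Finset E := insert t G
  have hA : ∀ a ∈ A, a ∈ OO k t := by
    intro a ha
    rcases Finset.mem_insert.1 ha with rfl | ha
    · exact self_mem_OO _
    · rw [← hG]; exact Algebra.subset_adjoin ha
  obtain ⟨m, hm⟩ : ∃ m, ∀ a ∈ A, a ∈ LL k t m := by
    choose! μ hμ using fun a (ha : a ∈ OO k t) => OO_pole h ha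
    exact ⟨A.sup μ, fun a ha => LL_mono h (Finset.le_sup ha) (hμ a (hA a ha))⟩
  choose D hD using fun a => exists_deriv (L := L) h a
  refine ⟨m * dg k t, fun y T => ?_⟩
  have hDt : y (D t) ≠ 0 := by
    intro e
    have h1 := hD t y
    have h2 : (tm (0 : L) (1 : E) : FL k E L) = 0 := by simp [tm]
    rw [e, h2, zero_mul, sub_zero, ord_sub_self h] at h1
    rcases h1 with h1 | h1
    · exact sub_self_ne h _ h1
    · omega
  have hsep : ∀ z : E →ₐ[k] L, z ≠ y → ∃ a ∈ A, z a - y a ≠ 0 := by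
    intro z hz
    by_contra H
    push Not at H
    refine hz (Pt.ofHom_injective (Pt.ext_OO h (ValuationSubring.mem_top _)
      (ValuationSubring.mem_top _) fun a ha => ?_))
    rw [← hG] at ha
    have hle : Algebra.adjoin k (G : Set E) ≤ AlgHom.equalizer z y :=
      Algebra.adjoin_le fun b hb => sub_eq_zero.1 (H b (Finset.mem_insert_of_mem hb))
    exact hle ha
  obtain ⟨c, hc, hc'⟩ := mov_choice (k := k) A (insert y T)
    (fun z a => if z = y then y (D a) else z a - y a) (by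
      intro z _
      by_cases hz : z = y
      · exact ⟨t, Finset.mem_insert_self _ _, by simpa [hz] using hDt⟩
      · simpa [hz] using hsep z hz)
  have hcy : ∑ a ∈ A, c a * y (D a) ≠ 0 := by
    simpa using hc' y (Finset.mem_insert_self _ _)
  have hcT : ∀ z ∈ T, z ≠ y → ∑ a ∈ A, c a * z a ≠ ∑ a ∈ A, c a * y a := by
    intro z hz hne e
    have := hc' z (Finset.mem_insert_of_mem hz)
    simp only [if_neg hne, mul_sub, Finset.sum_sub_distrib] at this
    exact this (sub_eq_zero.2 e)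
  set U : FL k E L := ∑ a ∈ A, tm (c a) a with hU
  set U' : FL k E L := ∑ a ∈ A, tm (c a) (D a) with hU'
  have hUv : ∀ z : E →ₐ[k] L, HasVal (Pt.ofHom z) U (∑ a ∈ A, c a * z a) := fun z =>
    mov_val A c (fun a => a) (Pt.ofHom z) fun _ _ => ValuationSubring.mem_top _
  have hUv' : ∀ z : E →ₐ[k] L, HasVal (Pt.ofHom z) U' (∑ a ∈ A, c a * z (D a)) := fun z =>
    mov_val A c D (Pt.ofHom z) fun _ _ => ValuationSubring.mem_top _
  have hU0 : U' ≠ 0 := fun e => hcy ((e ▸ hUv' y).unique (hasVal_zero _))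
  have hder : ∀ z : E →ₐ[k] L, ∑ a ∈ A, c a * z (D a) ≠ 0 := by
    intro z
    have h1 := (mov_constT (k := k) A c hc D).ord_ofHom h z
    rw [mov_map, ← hU'] at h1
    obtain ⟨d, hd, hd'⟩ := (ord_eq_zero_iff h _ hU0).1 h1
    rwa [(hUv' z).unique hd']
  set cy : L := ∑ a ∈ A, c a * y a with hcy'
  have hsum : ∀ b : E → L, (tm (∑ a ∈ A, b a) (1 : E) : FL k E L) = ∑ a ∈ A, tm (b a) 1 := by
    intro b
    simp only [← tmL_apply, map_sum]
  have hzero : ∀ z : E →ₐ[k] L, ∑ a ∈ A, c a * z a = cy →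
      U - tm cy 1 ≠ 0 ∧ ord (Pt.ofHom z) (U - tm cy 1) = 1 := by
    intro z hz
    have e : U - tm cy 1 =
        tm (∑ a ∈ A, c a * z (D a)) 1 * (tm 1 t - tm (z t) 1) +
        ∑ a ∈ A, tm (c a) 1 *
          (tm 1 a - tm (z a) 1 - tm (z (D a)) 1 * (tm 1 t - tm (z t) 1)) := by
      rw [← hz, hsum, hsum, hU, Finset.sum_mul, ← Finset.sum_add_distrib,
        ← Finset.sum_sub_distrib]
      refine Finset.sum_congr rfl fun a _ => ?_
      have e1 : (tm (c a) a : FL k E L) = tm (c a) 1 * tm 1 a := by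
        rw [tm_mul, mul_one, one_mul]
      have e2 : ∀ d : L, (tm (c a * d) (1 : E) : FL k E L) = tm (c a) 1 * tm d 1 := by
        intro d
        rw [tm_mul, mul_one]
      rw [e1, e2, e2]
      ring
    rw [e]
    have h1 : (tm (∑ a ∈ A, c a * z (D a)) (1 : E) : FL k E L) ≠ 0 :=
      tm_ne_zero (hder z) one_ne_zero
    refine mov_simple h (mul_ne_zero h1 (sub_self_ne h _)) ?_ ?_
    · rw [ord_mul h _ h1 (sub_self_ne h _), ord_tm_one h, ord_sub_self h, zero_add]
    · exact MovGE.sum h A fun a _ => MovGE.cmul h _ fun e' => (hD a z).resolve_left e'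
  have hnz : ∀ z : E →ₐ[k] L, ∑ a ∈ A, c a * z a ≠ cy →
      ord (Pt.ofHom z) (U - tm cy 1) = 0 := by
    intro z hz
    have h1 := (hUv z).sub (hasVal_tm (Pt.ofHom z) cy (one_mem _))
    rw [Pt.ev_one, mul_one] at h1
    exact ord_of_val h h1 (sub_ne_zero.2 hz)
  have hf := (hzero y rfl).1
  have hZ : {z : E →ₐ[k] L | ∑ a ∈ A, c a * z a = cy}.Finite := by
    refine ((ord_finite h (U - tm cy 1)).preimage
      (Pt.ofHom_injective.injOn)).subset fun z hz => ?_
    rw [Set.mem_preimage, Set.mem_setOf_eq, (hzero z hz).2]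
    exact one_ne_zero
  have hmem : ∀ z, z ∈ hZ.toFinset ↔ ∑ a ∈ A, c a * z a = cy := fun z => by
    rw [Set.Finite.mem_toFinset, Set.mem_setOf_eq]
  refine ⟨U - tm cy 1, hZ.toFinset.erase y, hf, Finset.notMem_erase _ _, ?_, ?_, ?_, ?_⟩
  · refine Finset.disjoint_left.2 fun z hz hzT => ?_
    rw [Finset.mem_erase, hmem] at hz
    exact hcT z hzT hz.1 hz.2
  · refine (Finset.card_erase_le).trans (mov_count h (f := U - tm cy 1) _
      (fun z hz => (hzero z ((hmem z).1 hz)).2) (fun p hp => ?_) fun p hp => ?_)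
    · have h1 := (mov_val A c (fun a => a) p fun a ha =>
        OO_le p.alg_mem hp a (hA a ha)).sub (hasVal_tm p cy (one_mem _))
      exact movGE_of_val h h1 hf
    · have hp' : t⁻¹ ∈ p.O := (p.O.mem_or_inv_mem t).resolve_left hp
      have h1 : MovGE p (m * ord p (tm (1 : L) t)) U :=
        MovGE.sum h A fun a ha => movGE_inf h _ (OO_le p.alg_mem hp' _ (hm a ha).2)
      have h2 : MovGE p (m * ord p (tm (1 : L) t)) (tm cy (1 : E)) :=
        movGE_inf h _ (by rw [one_mul]; exact pow_mem hp' _)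
      have h3 := h1.add h (h2.neg h)
      rw [← sub_eq_add_neg] at h3
      exact h3 hf
  · intro z hz
    rw [Finset.mem_erase, hmem] at hz
    have h1 := II_posLog_const h hR P (mov_constT (k := k) A c hc fun a => a) z
    have h2 := II_posLog_const h hR P (mov_constT (k := k) A c hc fun a => a) y
    rw [mov_map, ← hU] at h1 h2
    rw [(hUv z).val_eq, hz.2] at h1
    rw [(hUv y).val_eq] at h2
    exact mul_left_cancel₀ (mov_pole h (hzero y rfl).2).ne' (h1.symm.trans h2)
  · have e : Finsupp.single y (1 : ℤ) + ∑ z ∈ hZ.toFinset.erase y, Finsupp.single z 1 =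
        ∑ z ∈ hZ.toFinset, Finsupp.single z 1 :=
      Finset.add_sum_erase _ (fun z => Finsupp.single z (1 : ℤ)) ((hmem y).2 rfl)
    rw [e]
    ext z
    rw [divN_apply h, Finsupp.finset_sum_apply]
    simp only [Finsupp.single_apply, Finset.sum_ite_eq', hmem]
    split_ifs with hz
    · exact (hzero z hz).2
    · exact hnz z hz

end Pool.Agent.FFC
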