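import Pool.Agent.P.MP_a2beea_nt.FC.Emb0
import Pool.Agent.P.MP_a2beea_nt.FC.Mov

/-! The type of the shtuka and general position. `IsEmb.type`: for an ideal `𝔞` of `R` and a
submodule `M'` let `o(𝔞)`, `o(M')` be the least orders at `y` of the images of the nonzero members
(if attained); then `o(𝔞 • M') = o(𝔞) + o(M')` (`le_ord_add`, `ord_mul`). The ideal of the graph
of `φ` has `o = 1` at `emb φ` (all generators vanish, `jj` has order one by `ord_sub_self`) and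
`o = 0` at `y ≠ emb φ` (some `b ∈ O_E` has `y b ≠ φ b` by `Pt.ext_OO`). A convenient induction
predicate for an ideal `𝔞`: `(∀ r ∈ 𝔞, r ≠ 0 → n ≤ ord (ρ r)) ∧ ∃ r ∈ 𝔞, r ≠ 0 ∧ ord (ρ r) = n`.
`exists_scale`: for `y = φ_i` use `moving` with `T = {χ_i | χ t = θ}`; the other zeros have the
height `q ^ (-i) log q / dg` (`ht_fr`, `ht_leg`), so they are not of the form `χ_j`; induct on
`c`. `exists_sht`: scale by `exists_scale` with `c = - dvN I - legs d`, and apply `IsEmb.type` to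
the new embedding. -/

open Polynomial
open scoped TensorProduct NNReal IntermediateField

namespace Pool.Agent.FFC

open Classical

variable {k : Type*} [Field k] [Fintype k] {E K : Type*} [Field E] [Field K]
  [Algebra k E] [Algebra k[X] E] [Algebra (RatFunc k) E] [IsScalarTower k k[X] E]
  [IsScalarTower k[X] (RatFunc k) E]
  [Algebra k K] [Algebra k[X] K] [Algebra (RatFunc k) K] [IsScalarTower k k[X] K]
  [IsScalarTower k[X] (RatFunc k) K]
  [FiniteDimensional (RatFunc k) E] [Algebra.IsSeparable (RatFunc k) E]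
  [FiniteDimensional (RatFunc k) K] [IsGalois (RatFunc k) K]
  {OE OK : Type*} [CommRing OE] [CommRing OK]
  [Algebra k OE] [Algebra k[X] OE] [Algebra OE E] [IsScalarTower k k[X] OE]
  [IsScalarTower k[X] OE E] [IsIntegralClosure OE k[X] E]
  [Algebra k OK] [Algebra k[X] OK] [Algebra OK K] [IsScalarTower k k[X] OK]
  [IsScalarTower k[X] OK K] [IsIntegralClosure OK k[X] K]
  {L : Type*} [Field L] [Algebra k L] [Algebra K L] [IsScalarTower k K L] [IsAlgClosed L]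
  [Algebra.IsAlgebraic K L]
  [IsDomain (L ⊗[k] E)] [Nonempty (GV k L)]
  [Fintype (E →ₐ[RatFunc k] K)] {M : Type*} [AddCommGroup M] [Module (OK ⊗[k] OE) M]
  {τ : M →+ M} {d : (E →ₐ[RatFunc k] K) → ℕ} {ρ : OK ⊗[k] OE →+* FL k E L}
  {μ : M →+ FL k E L} {f : FL k E L} {I : AddSubgroup (FL k E L)}

/-- The least order at `p` of the image of a nonzero member of the ideal is `n`. -/
def EmbOI {R : Type*} [CommRing R] (ρ : R →+* FL k E L) (p : Pt k E L) (𝔞 : Ideal R) (n : ℤ) :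
    Prop := (∀ r ∈ 𝔞, MovGE p n (ρ r)) ∧ ∃ r ∈ 𝔞, ρ r ≠ 0 ∧ ord p (ρ r) = n

section Aux

variable {R : Type*} [CommRing R] {σ : R →+* FL k E L} {p : Pt k E L} {t : E}

theorem EmbOI.mul (h : FF k t) {𝔞 𝔟 : Ideal R} {n m : ℤ} (ha : EmbOI σ p 𝔞 n)
    (hb : EmbOI σ p 𝔟 m) : EmbOI σ p (𝔞 * 𝔟) (n + m) := by
  refine ⟨fun r hr => ?_, ?_⟩
  · refine Submodule.mul_induction_on hr (fun a h1 b h2 => ?_) fun x y hx hy => ?_
    · rw [map_mul]
      exact (ha.1 a h1).mul h (hb.1 b h2)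
    · rw [map_add]
      exact hx.add h hy
  · obtain ⟨a, h1, h2, h3⟩ := ha.2
    obtain ⟨b, h4, h5, h6⟩ := hb.2
    refine ⟨a * b, Ideal.mul_mem_mul h1 h4, ?_⟩
    rw [map_mul, ord_mul h p h2 h5, h3, h6]
    exact ⟨mul_ne_zero h2 h5, rfl⟩

theorem EmbOI.one (h : FF k t) (h0 : ∀ r, MovGE p 0 (σ r)) : EmbOI σ p 1 0 :=
  ⟨fun r _ => h0 r, 1, by simp, by simp, by rw [map_one, ord_one h]⟩

theorem EmbOI.pow (h : FF k t) (h0 : ∀ r, MovGE p 0 (σ r)) {𝔞 : Ideal R} {n : ℤ}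
    (ha : EmbOI σ p 𝔞 n) (m : ℕ) : EmbOI σ p (𝔞 ^ m) (m * n) := by
  induction m with
  | zero => simpa using EmbOI.one h h0
  | succ m ih =>
    have := ih.mul h ha
    rwa [← pow_succ, ← add_one_mul, ← Nat.cast_succ] at this

theorem EmbOI.prod (h : FF k t) (h0 : ∀ r, MovGE p 0 (σ r)) {ι : Type*} (s : Finset ι)
    {𝔞 : ι → Ideal R} {n : ι → ℤ} (ha : ∀ i, EmbOI σ p (𝔞 i) (n i)) :
    EmbOI σ p (∏ i ∈ s, 𝔞 i) (∑ i ∈ s, n i) := by
  induction s using Finset.induction_on with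
  | empty => simpa using EmbOI.one h h0
  | insert a s has ih =>
    rw [Finset.prod_insert has, Finset.sum_insert has]
    exact (ha a).mul h ih

theorem Emb_val (y : E →ₐ[k] L) (a : E) (c : L) :
    HasVal (Pt.ofHom y) (tm 1 a - tm c 1 : FL k E L) (y a - c) := by
  simpa using (hasVal_tm (Pt.ofHom y) 1 (a := a) (ValuationSubring.mem_top _)).sub
    (hasVal_tm (Pt.ofHom y) c (a := 1) (ValuationSubring.mem_top _))

theorem Emb_ht {θ : L} (P : PD k θ) {φ : E →ₐ[k] L} (hφ : φ t = θ) (i : ℕ) :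
    ht P t (Pt.ofHom (tw ((fr k L)⁻¹ ^ i) φ)) =
      (Fintype.card k : ℝ) ^ (-(i : ℤ)) * (Real.log (Fintype.card k) / dg k t) := by
  rw [← Pt.smul_ofHom, inv_pow, ← zpow_natCast, ← zpow_neg, ht_fr, ht_leg P hφ]

end Aux

theorem Emb_reg (h : FF k (tE k E)) (hρ : IsRho E K L ρ) (y : E →ₐ[k] L) (r : OK ⊗[k] OE) :
    MovGE (Pt.ofHom y) 0 (ρ r) :=
  movGE_of_val h (RA_val (A := AK OK K L) (t := tE k E) (ValuationSubring.mem_top _)
    ((hρ.mem_RA_iff _).2 ⟨r, rfl⟩))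

theorem Emb_gen (hρ : IsRho E K L ρ) (b : OE) (c : OK) :
    ρ ((1 : OK) ⊗ₜ[k] b - c ⊗ₜ[k] (1 : OE)) =
      tm 1 (algebraMap OE E b) - tm (algebraMap K L (algebraMap OK K c)) 1 := by
  rw [map_sub, hρ, hρ, map_one, map_one, map_one]

theorem Emb_graph (h : FF k (tE k E)) (hρ : IsRho E K L ρ) (y : E →ₐ[k] L)
    (φ : E →ₐ[RatFunc k] K) :
    EmbOI ρ (Pt.ofHom y) (graphIdeal OE OK φ) (if emb L φ = y then 1 else 0) := by
  split_ifs with hy
  · subst hy
    refine ⟨fun r hr => ?_, jj k OE OK, jj_mem_graphIdeal φ, ?_⟩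
    · refine Submodule.span_induction (p := fun r _ => MovGE (Pt.ofHom (emb L φ)) 1 (ρ r))
        ?_ ?_ ?_ ?_ hr
      · rintro r ⟨b, c, hc, rfl⟩ h0
        rw [Emb_gen hρ] at h0 ⊢
        have h1 := Emb_val (emb L φ) (algebraMap OE E b) (algebraMap K L (algebraMap OK K c))
        rw [emb_apply, ← hc, sub_self] at h1
        exact (hasVal_zero_iff h _ h0).1 h1
      · intro h0
        exact absurd (map_zero ρ) h0
      · intro x z _ _ hx hz
        rw [map_add]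
        exact hx.add h hz
      · intro a x _ hx
        rw [smul_eq_mul, map_mul]
        simpa using (Emb_reg h hρ (emb L φ) a).mul h hx
    · rw [hρ.map_jj]
      refine ⟨sub_self_ne h _, ?_⟩
      have := ord_sub_self h (emb L φ)
      rwa [emb_t] at this
  · refine ⟨fun r _ => Emb_reg h hρ y r, ?_⟩
    have h1 : ∃ a ∈ OO k (tE k E), y a ≠ emb L φ a := by
      by_contra H
      refine hy (Pt.ofHom_injective (Pt.ext_OO h (ValuationSubring.mem_top _)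
        (ValuationSubring.mem_top _) fun a ha => ?_))
      by_contra H'
      exact H ⟨a, ha, fun e => H' e.symm⟩
    obtain ⟨a, ha, h2⟩ := h1
    obtain ⟨b, rfl⟩ := (mem_OO_iff_range (OE := OE) a).1 ha
    obtain ⟨c, hc⟩ := exists_OK (OK := OK) φ b
    refine ⟨_, Ideal.subset_span ⟨b, c, hc, rfl⟩, ?_⟩
    rw [Emb_gen hρ]
    have h3 := Emb_val y (algebraMap OE E b) (algebraMap K L (algebraMap OK K c))
    have h4 : y (algebraMap OE E b) - algebraMap K L (algebraMap OK K c) ≠ 0 := by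
      rw [hc]
      exact sub_ne_zero.2 h2
    refine ⟨fun h0 => h4 ?_, ord_of_val h h3 h4⟩
    rw [h0] at h3
    exact h3.unique (hasVal_zero _)

theorem IsEmb.pow (hρ : IsRho E K L ρ) (hM : IsCMMotive OE OK d τ) (hμ : IsEmb ρ τ μ f I) :
    ∃ n : ℕ, ∀ x ∈ I, (tm 1 (tE k E) - tm (th k K L) 1) ^ n * x ∈ tauLat (AK OK K L) (tE k E) f I := by
  refine ⟨∑ φ, d φ, fun x hx => ?_⟩
  rw [← hμ.range] at hx
  obtain ⟨m, rfl⟩ := hx
  rw [← hρ.map_jj, ← map_pow, ← hμ.smul, ← hμ.mem_dRLat hρ, hM.cmType, ← Finset.prod_pow_eq_pow_sum]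
  exact Submodule.smul_mem_smul (Ideal.prod_mem_prod fun φ _ =>
    Ideal.pow_mem_pow (jj_mem_graphIdeal φ) _) Submodule.mem_top

theorem IsEmb.type (h : FF k (tE k E)) (hρ : IsRho E K L ρ) (hM : IsCMMotive OE OK d τ)
    (hμ : IsEmb ρ τ μ f I) (hl : Lat (AK OK K L) (tE k E) I) (y : E →ₐ[k] L) :
    dv (tE k E) (tauLat (AK OK K L) (tE k E) f I) (Pt.ofHom y) =
      dv (tE k E) I (Pt.ofHom y) + (legs d : (E →ₐ[k] L) →₀ ℤ) y := by
  have ht : tE k E ∈ (Pt.ofHom y).O := ValuationSubring.mem_top _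
  have H := EmbOI.prod h (Emb_reg h hρ y) Finset.univ fun φ =>
    (Emb_graph h hρ y φ).pow h (Emb_reg h hρ y) (d φ)
  have e : ∑ φ, (d φ : ℤ) * (if emb L φ = y then 1 else 0) =
      (legs d : (E →ₐ[k] L) →₀ ℤ) y := by
    rw [legs, Finsupp.finsetSum_apply]
    exact Finset.sum_congr rfl fun φ _ => by rw [Finsupp.single_apply, mul_ite, mul_one, mul_zero]
  rw [e] at H
  have hI : ∀ m, μ m ∈ I := fun m => hμ.range ▸ ⟨m, rfl⟩
  rw [add_comm]
  refine dv_eq_of ht (fun x hx => ?_) ?_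
  · have hx' := hμ.tau_le hρ hx
    rw [← hμ.range] at hx'
    obtain ⟨m, rfl⟩ := hx'
    rw [← hμ.mem_dRLat hρ, hM.cmType] at hx
    refine Submodule.smul_induction_on (p := fun m => MovGE (Pt.ofHom y)
      ((legs d : (E →ₐ[k] L) →₀ ℤ) y + dv (tE k E) I (Pt.ofHom y)) (μ m)) hx
      (fun r hr m _ => ?_) fun a b ha hb => ?_
    · rw [hμ.smul]
      exact (H.1 r hr).mul h fun h0 => hl.dv_le h ht (hI m) h0
    · rw [map_add]
      exact ha.add h hb
  · obtain ⟨r, hr, h1, h2⟩ := H.2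
    obtain ⟨x, hx, h3, h4⟩ := hl.dv_attained h ht
    rw [← hμ.range] at hx
    obtain ⟨m, rfl⟩ := hx
    refine ⟨μ (r • m), ?_, ?_⟩
    · rw [← hμ.mem_dRLat hρ, hM.cmType]
      exact Submodule.smul_mem_smul hr Submodule.mem_top
    · rw [hμ.smul, ord_mul h _ h1 h3, h2, h4]
      exact ⟨mul_ne_zero h1 h3, rfl⟩

theorem exists_scale {t : E} {θ : L} (h : FF k t) {g : ℕ} (hR : RR0 k t g) (P : PD k θ)
    (c : (E →ₐ[k] L) →₀ ℤ) :
    ∃ s : FL k E L, s ≠ 0 ∧ ∀ φ : E →ₐ[k] L, φ t = θ → ∀ i : ℕ,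
      ord (Pt.ofHom (tw ((fr k L)⁻¹ ^ i) φ)) s = c (tw ((fr k L)⁻¹ ^ i) φ) := by
  induction c using Finsupp.induction_linear with
  | zero => exact ⟨1, one_ne_zero, fun φ _ i => ord_one h _⟩
  | add c c' hc hc' =>
    obtain ⟨s, h1, h2⟩ := hc
    obtain ⟨s', h3, h4⟩ := hc'
    refine ⟨s * s', mul_ne_zero h1 h3, fun φ hφ i => ?_⟩
    rw [ord_mul h _ h1 h3, h2 φ hφ, h4 φ hφ, Finsupp.add_apply]
  | single y n =>
    by_cases hy : ∃ χ : E →ₐ[k] L, χ t = θ ∧ ∃ j : ℕ, tw ((fr k L)⁻¹ ^ j) χ = y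
    · obtain ⟨χ, hχ, j, rfl⟩ := hy
      obtain ⟨B, hB⟩ := moving h hR P
      obtain ⟨u, S, h1, -, h2, -, h3, h4⟩ := hB (tw ((fr k L)⁻¹ ^ j) χ)
        ((hom_fibre_finite h θ).toFinset.image (tw ((fr k L)⁻¹ ^ j)))
      refine ⟨u ^ n, zpow_ne_zero _ h1, fun φ hφ i => ?_⟩
      have hq : (1 : ℝ) < Fintype.card k := by exact_mod_cast Fintype.one_lt_card
      have hS : tw ((fr k L)⁻¹ ^ i) φ ∉ S := by
        intro hS
        have h5 := h3 _ hS
        have h6 : Real.log (Fintype.card k) / dg k t ≠ 0 :=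
          div_ne_zero (Real.log_pos hq).ne' (by exact_mod_cast h.dg_pos.ne')
        rw [Emb_ht P hφ, Emb_ht P hχ, mul_left_inj' h6] at h5
        have h7 := zpow_right_injective₀ (by linarith) hq.ne' h5
        obtain rfl : i = j := by omega
        exact Finset.disjoint_left.1 h2 hS
          (Finset.mem_image_of_mem _ ((Set.Finite.mem_toFinset _).2 hφ))
      have hz : ∑ z ∈ S, (Finsupp.single z (1 : ℤ)) (tw ((fr k L)⁻¹ ^ i) φ) = 0 :=
        Finset.sum_eq_zero fun z hz => Finsupp.single_eq_of_ne fun e => hS (by rwa [e])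
      rw [ord_zpow h, ← divN_apply h, h4, Finsupp.add_apply, Finsupp.finsetSum_apply, hz, add_zero,
        Finsupp.single_apply, Finsupp.single_apply, mul_ite, mul_one, mul_zero]
    · refine ⟨1, one_ne_zero, fun φ hφ i => ?_⟩
      rw [ord_one h, Finsupp.single_eq_of_ne fun e => hy ⟨φ, hφ, i, e⟩]

theorem exists_sht (h : FF k (tE k E)) {g : ℕ} (hR : RR0 k (tE k E) g) (P : PD k (th k K L))
    (hρ : IsRho E K L ρ) (hM : IsCMMotive OE OK d τ) :
    ∃ (μ : M →+ FL k E L) (f : FL k E L) (I : AddSubgroup (FL k E L)),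
      IsEmb ρ τ μ f I ∧ Sht (AK OK K L) (tE k E) (th k K L) f I (legs d) := by
  obtain ⟨μ, f, I, hμ, hf, hl⟩ := exists_emb0 h hρ hM
  obtain ⟨s, hs, hc⟩ := exists_scale h hR P (-dvN (tE k E) I - legs d)
  obtain ⟨hl', hd⟩ := hl.scale h hs
  have hμ' := hμ.scale hs
  have hdv : ∀ φ : E →ₐ[k] L, φ (tE k E) = th k K L → ∀ i : ℕ,
      dv (tE k E) (I.map (AddMonoidHom.mulLeft s)) (Pt.ofHom (tw ((fr k L)⁻¹ ^ i) φ)) =
        -(legs d : (E →ₐ[k] L) →₀ ℤ) (tw ((fr k L)⁻¹ ^ i) φ) := by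
    intro φ hφ i
    rw [hd _ (ValuationSubring.mem_top _), hc φ hφ, Finsupp.sub_apply, Finsupp.neg_apply,
      hl.dvN_apply h]
    ring
  refine ⟨_, _, _, hμ', P.trans, th_mem_AK, alg_mem_AK,
    div_ne_zero (mul_ne_zero hs hf) ((_root_.map_ne_zero _).2 hs), hl', hμ'.tau_le hρ,
    hμ'.pow hρ hM, fun y hy => legs_support d hy, hμ'.type h hρ hM hl', fun φ hφ => ?_,
    fun φ hφ i hi => ?_⟩
  · have h1 := hdv φ hφ 0
    have e : tw ((fr k L)⁻¹ ^ 0) φ = φ := rfl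
    rw [e] at h1
    rw [hμ'.type h hρ hM hl', h1, neg_add_cancel]
  · rw [hdv φ hφ, neg_eq_zero]
    by_contra h1
    exact bk_t_ne P.trans hφ hi (legs_support d (Finsupp.mem_support_iff.2 h1))

end Pool.Agent.FFC
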