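import Pool.Agent.P.MP_a2beea_nt.FC.Der
import Pool.Agent.P.MP_a2beea_nt.FC.Deg
import Pool.Agent.P.MP_a2beea_nt.FC.RedMap
import Pool.Agent.P.MP_a2beea_nt.FC.Defs3

/-! Lattices. Let `m i, m' i` be the data of `Lat.inv`. At a point `z` with `t ∈ z.O` the members of
`RA` are regular (`RA_hasVal`); since `∑ m' i * m i = 1` some `s = m' i * m i ∈ RA` has a nonzero
value at `z`, and `x * s = (m' i * x) * m i` shows `ord z (m i) ≤ ord z x` for all nonzero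
`x ∈ J`. For `Lat.tau` use `f * σ (m i)` and `f⁻¹ * σ (m' i)`. `Sht.dv_const`: `1 ⊗ t - θ ⊗ 1`
has a nonzero value at a finite constant point. -/

open Polynomial
open scoped TensorProduct NNReal IntermediateField

namespace Pool.Agent.FFC

open Classical

variable {k : Type*} [Field k] [Fintype k] {E : Type*} [Field E] [Algebra k E] {t : E}
  {L : Type*} [Field L] [Algebra k L] [IsAlgClosed L]
  [IsDomain (L ⊗[k] E)]
  [Nonempty (GV k L)]
  {θ : L}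
  {A : Subring L} {f : FL k E L} {I J : AddSubgroup (FL k E L)} {D : (E →ₐ[k] L) →₀ ℤ}

theorem tm_mem_RA {c : L} (hc : c ∈ A) {a : E} (ha : a ∈ OO k t) :
    (tm c a : FL k E L) ∈ RA k A t :=
  Subring.subset_closure ⟨c, hc, a, ha, rfl⟩

theorem latB_intT {w : GV k L} {O : ValuationSubring E} {c : L} (hc : w.v c ≤ 1) {a : E}
    (ha : a ∈ O) : IntT w O (c ⊗ₜ[k] a) :=
  ⟨1, fun _ => c, fun _ => a, fun _ => ha, fun _ => hc, by simp⟩

theorem RA_intT {w : GV k L} (hA : ∀ c ∈ A, w.v c ≤ 1) {O : ValuationSubring E}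
    (hk : ∀ c : k, algebraMap k E c ∈ O) (ht : t ∈ O) {r : FL k E L} (hr : r ∈ RA k A t) :
    ∃ x : L ⊗[k] E, IntT w O x ∧ r = algebraMap (L ⊗[k] E) (FL k E L) x := by
  induction hr using Subring.closure_induction with
  | mem x hx =>
    obtain ⟨c, hc, a, ha, rfl⟩ := hx
    exact ⟨_, latB_intT (hA c hc) (OO_le hk ht a ha), rfl⟩
  | zero => exact ⟨_, latB_intT (c := 0) (by simp) (one_mem O), by simp⟩
  | one => exact ⟨_, latB_intT (c := 1) (by simp) (one_mem O), tm_one.symm⟩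
  | add x y _ _ hx hy =>
    obtain ⟨x', h1, rfl⟩ := hx
    obtain ⟨y', h2, rfl⟩ := hy
    exact ⟨_, h1.add h2, (map_add _ _ _).symm⟩
  | neg x _ hx =>
    obtain ⟨x', h1, rfl⟩ := hx
    refine ⟨_, (latB_intT (c := -1) (by simp) (one_mem O)).mul h1, ?_⟩
    rw [TensorProduct.neg_tmul, ← Algebra.TensorProduct.one_def, neg_one_mul, map_neg]
  | mul x y _ _ hx hy =>
    obtain ⟨x', h1, rfl⟩ := hx
    obtain ⟨y', h2, rfl⟩ := hy
    exact ⟨_, h1.mul h2, (map_mul _ _ _).symm⟩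

theorem RA_val {p : Pt k E L} (hp : t ∈ p.O) {r : FL k E L} (hr : r ∈ RA k A t) :
    HasVal p r (val p r) := by
  obtain ⟨c, hc⟩ := RA_hasVal hp hr
  rwa [hc.val_eq]

theorem RA_val_le {w : GV k L} (hA : ∀ c ∈ A, w.v c ≤ 1) {y : Pt k E L} (hy : t ∈ redO w y)
    {r : FL k E L} (hr : r ∈ RA k A t) : w.v (val y r) ≤ 1 := by
  obtain ⟨x, hx, rfl⟩ := RA_intT hA (O := redO w y) (red w y).alg_mem hy hr
  obtain ⟨c, h1, h2, -⟩ := hx.evT
  rwa [h1.hasVal.val_eq]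

theorem RA_val_mem {y : E →ₐ[k] L} (hy : ∀ a ∈ OO k t, y a ∈ A) {r : FL k E L}
    (hr : r ∈ RA k A t) : val (Pt.ofHom y) r ∈ A := by
  have key : ∃ c ∈ A, HasVal (Pt.ofHom y) r c := by
    induction hr using Subring.closure_induction with
    | mem x hx =>
      obtain ⟨c, hc, a, ha, rfl⟩ := hx
      exact ⟨_, mul_mem hc (hy a ha), hasVal_tm _ c (ValuationSubring.mem_top _)⟩
    | zero => exact ⟨0, zero_mem _, hasVal_zero _⟩
    | one => exact ⟨1, one_mem _, hasVal_one _⟩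
    | add x y _ _ hx hy =>
      obtain ⟨c, h1, h2⟩ := hx
      obtain ⟨d, h3, h4⟩ := hy
      exact ⟨_, add_mem h1 h3, h2.add h4⟩
    | neg x _ hx =>
      obtain ⟨c, h1, h2⟩ := hx
      exact ⟨_, neg_mem h1, h2.neg⟩
    | mul x y _ _ hx hy =>
      obtain ⟨c, h1, h2⟩ := hx
      obtain ⟨d, h3, h4⟩ := hy
      exact ⟨_, mul_mem h1 h3, h2.mul h4⟩
  obtain ⟨c, h1, h2⟩ := key
  rwa [h2.val_eq]

theorem RA_mapF {g : L ≃ₐ[k] L} (hg : ∀ c ∈ A, g c ∈ A) {r : FL k E L} (hr : r ∈ RA k A t) :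
    mapF g r ∈ RA k A t := by
  induction hr using Subring.closure_induction with
  | mem x hx =>
    obtain ⟨c, hc, a, ha, rfl⟩ := hx
    rw [mapF_tm]
    exact tm_mem_RA (hg c hc) ha
  | zero => rw [map_zero]; exact zero_mem _
  | one => rw [map_one]; exact one_mem _
  | add x y _ _ hx hy => rw [map_add]; exact add_mem hx hy
  | neg x _ hx => rw [map_neg]; exact neg_mem hx
  | mul x y _ _ hx hy => rw [map_mul]; exact mul_mem hx hy

theorem latB_ord_RA (h : FF k t) {z : Pt k E L} (hz : t ∈ z.O) {r : FL k E L}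
    (hr : r ∈ RA k A t) (h0 : r ≠ 0) : 0 ≤ ord z r :=
  (hasVal_iff h z h0).1 (RA_hasVal hz hr)

theorem latB_dv_eq {z : Pt k E L} (hz : t ∈ z.O) {n : ℤ} (h1 : ∀ x ∈ J, x ≠ 0 → n ≤ ord z x)
    (h2 : ∃ x ∈ J, x ≠ 0 ∧ ord z x = n) : dv t J z = n := by
  rw [dv, if_pos hz]
  refine IsLeast.csInf_eq ⟨h2, ?_⟩
  rintro _ ⟨x, hx, h0, rfl⟩
  exact h1 x hx h0

theorem latB_key (h : FF k t) {n : ℕ} {m m' : Fin n → FL k E L} (hm : ∀ i, m i ∈ J)
    (hm' : ∀ i, ∀ x ∈ J, m' i * x ∈ RA k A t) (hs : ∑ i, m' i * m i = 1) {z : Pt k E L}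
    (hz : t ∈ z.O) :
    ∃ i, m i ≠ 0 ∧ dv t J z = ord z (m i) ∧ ∀ x ∈ J, x ≠ 0 → ord z (m i) ≤ ord z x := by
  have h1 := HasVal.sum Finset.univ fun i _ => RA_val hz (hm' i _ (hm i))
  rw [hs] at h1
  have h2 := h1.unique (hasVal_one z)
  obtain ⟨i, -, hi⟩ := Finset.exists_ne_zero_of_sum_ne_zero (h2.trans_ne one_ne_zero)
  have h3 : m' i * m i ≠ 0 := by
    intro h0
    rw [h0, (hasVal_zero z).val_eq] at hi
    exact hi rfl
  have h4 := (ord_eq_zero_iff h z h3).2 ⟨_, hi, RA_val hz (hm' i _ (hm i))⟩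
  have h5 := left_ne_zero_of_mul h3
  have h6 := right_ne_zero_of_mul h3
  rw [ord_mul h z h5 h6] at h4
  have h7 : ∀ x ∈ J, x ≠ 0 → ord z (m i) ≤ ord z x := by
    intro x hx h0
    have := latB_ord_RA h hz (hm' i x hx) (mul_ne_zero h5 h0)
    rw [ord_mul h z h5 h0] at this
    omega
  exact ⟨i, h6, latB_dv_eq hz h7 ⟨_, hm i, h6, rfl⟩, h7⟩

theorem Lat.dv_le (h : FF k t) (hl : Lat A t J) {z : Pt k E L} (hz : t ∈ z.O) {x : FL k E L}
    (hx : x ∈ J) (h0 : x ≠ 0) : dv t J z ≤ ord z x := by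
  obtain ⟨n, m, m', hm, hm', hs⟩ := hl.inv
  obtain ⟨i, -, h1, h2⟩ := latB_key h hm hm' hs hz
  rw [h1]
  exact h2 x hx h0

theorem Lat.dv_attained (h : FF k t) (hl : Lat A t J) {z : Pt k E L} (hz : t ∈ z.O) :
    ∃ x ∈ J, x ≠ 0 ∧ ord z x = dv t J z := by
  obtain ⟨n, m, m', hm, hm', hs⟩ := hl.inv
  obtain ⟨i, h0, h1, -⟩ := latB_key h hm hm' hs hz
  exact ⟨m i, hm i, h0, h1.symm⟩

theorem dv_eq_of {z : Pt k E L} (hz : t ∈ z.O) {n : ℤ} (h1 : ∀ x ∈ J, x ≠ 0 → n ≤ ord z x)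
    (h2 : ∃ x ∈ J, x ≠ 0 ∧ ord z x = n) : dv t J z = n :=
  latB_dv_eq hz h1 h2

theorem Lat.dv_finite (h : FF k t) (hl : Lat A t J) : {z : Pt k E L | dv t J z ≠ 0}.Finite := by
  obtain ⟨n, m, m', hm, hm', hs⟩ := hl.inv
  refine (Set.finite_iUnion fun i => ord_finite h (m i)).subset fun z hz => ?_
  by_cases hzt : t ∈ z.O
  · obtain ⟨i, -, h1, -⟩ := latB_key h hm hm' hs hzt
    exact Set.mem_iUnion.2 ⟨i, fun h0 => hz (h1.trans h0)⟩
  · exact absurd (if_neg hzt) hz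

theorem Lat.dvN_apply (h : FF k t) (hl : Lat A t J) (y : E →ₐ[k] L) :
    dvN t J y = dv t J (Pt.ofHom y) := by
  have H : {y : E →ₐ[k] L | dv t J (Pt.ofHom y) ≠ 0}.Finite :=
    (hl.dv_finite h).preimage Pt.ofHom_injective.injOn
  rw [dvN, dif_pos H]
  rfl

theorem Lat.hasVal (h : FF k t) (hl : Lat A t J) {y : E →ₐ[k] L} (h0 : dv t J (Pt.ofHom y) = 0)
    {x : FL k E L} (hx : x ∈ J) : HasVal (Pt.ofHom y) x (val (Pt.ofHom y) x) := by
  refine hasVal_val h _ ?_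
  by_cases hx0 : x = 0
  · rw [hx0, ord_zero]
  · rw [← h0]
    exact hl.dv_le h (ValuationSubring.mem_top _) hx hx0

theorem Lat.exists_val_ne (h : FF k t) (hl : Lat A t J) {y : E →ₐ[k] L}
    (h0 : dv t J (Pt.ofHom y) = 0) : ∃ x ∈ J, val (Pt.ofHom y) x ≠ 0 := by
  obtain ⟨x, hx, hx0, e⟩ := hl.dv_attained h (z := Pt.ofHom y) (ValuationSubring.mem_top _)
  obtain ⟨c, hc, hv⟩ := (ord_eq_zero_iff h _ hx0).1 (e.trans h0)
  exact ⟨x, hx, by rwa [hv.val_eq]⟩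

theorem Lat.inv_hasVal (h : FF k t) (hl : Lat A t J) {y : E →ₐ[k] L}
    (h0 : dv t J (Pt.ofHom y) = 0) {m' : FL k E L} (hm : ∀ x ∈ J, m' * x ∈ RA k A t) :
    HasVal (Pt.ofHom y) m' (val (Pt.ofHom y) m') := by
  refine hasVal_val h _ ?_
  by_cases hm0 : m' = 0
  · rw [hm0, ord_zero]
  · obtain ⟨x, hx, hx0, e⟩ := hl.dv_attained h (z := Pt.ofHom y) (ValuationSubring.mem_top _)
    have := latB_ord_RA h (z := Pt.ofHom y) (ValuationSubring.mem_top _) (hm x hx)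
      (mul_ne_zero hm0 hx0)
    rw [ord_mul h _ hm0 hx0] at this
    omega

theorem mem_tauLat {x : FL k E L} (hx : x ∈ I) : f * mapF (fr k L) x ∈ tauLat A t f I :=
  AddSubgroup.subset_closure ⟨1, one_mem _, x, hx, (one_mul _).symm⟩

theorem latB_tau_inv (hf : f ≠ 0) {m' : FL k E L} (hm' : ∀ x ∈ I, m' * x ∈ RA k A t) :
    ∀ x ∈ tauLat A t f I, f⁻¹ * mapF (fr k L) m' * x ∈ RA k A t := by
  intro x hx
  induction hx using AddSubgroup.closure_induction with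
  | mem x hx =>
    obtain ⟨r, hr, y, hy, rfl⟩ := hx
    have e : f⁻¹ * mapF (fr k L) m' * (r * (f * mapF (fr k L) y)) =
        r * mapF (fr k L) (m' * y) := by
      rw [map_mul]
      field_simp
    rw [e]
    exact mul_mem hr (RA_mapF_fr (hm' y hy))
  | zero => rw [mul_zero]; exact zero_mem _
  | add x y _ _ hx hy => rw [mul_add]; exact add_mem hx hy
  | neg x _ hx => rw [mul_neg]; exact neg_mem hx

theorem latB_tau_sum (hf : f ≠ 0) {n : ℕ} {m m' : Fin n → FL k E L} (hs : ∑ i, m' i * m i = 1) :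
    ∑ i, f⁻¹ * mapF (fr k L) (m' i) * (f * mapF (fr k L) (m i)) = 1 := by
  rw [← map_one (mapF (E := E) (fr k L)), ← hs, map_sum]
  refine Finset.sum_congr rfl fun i _ => ?_
  rw [map_mul]
  field_simp

theorem Lat.tau (hl : Lat A t I) (hf : f ≠ 0) : Lat A t (tauLat A t f I) := by
  obtain ⟨n, m, m', hm, hm', hs⟩ := hl.inv
  refine ⟨fun r hr x hx => ?_, n, fun i => f * mapF (fr k L) (m i),
    fun i => f⁻¹ * mapF (fr k L) (m' i), fun i => mem_tauLat (hm i),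
    fun i => latB_tau_inv hf (hm' i), latB_tau_sum hf hs⟩
  induction hx using AddSubgroup.closure_induction with
  | mem x hx =>
    obtain ⟨r', hr', y, hy, rfl⟩ := hx
    exact AddSubgroup.subset_closure ⟨r * r', Subring.mul_mem _ hr hr', y, hy, (mul_assoc _ _ _).symm⟩
  | zero => rw [mul_zero]; exact zero_mem _
  | add x y _ _ hx hy => rw [mul_add]; exact add_mem hx hy
  | neg x _ hx => rw [mul_neg]; exact neg_mem hx

theorem latB_ord_tau (h : FF k t) (hf : f ≠ 0) (z : Pt k E L) {x : FL k E L} (hx : x ≠ 0) :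
    ord z (f * mapF (fr k L) x) = ord z f + ord ((fr k L)⁻¹ • z) x := by
  rw [ord_mul h z hf (by simpa using hx), ← ord_map h (fr k L) ((fr k L)⁻¹ • z) x, smul_inv_smul]

theorem Lat.dv_tau (h : FF k t) (hl : Lat A t I) (hf : f ≠ 0) {z : Pt k E L} (hz : t ∈ z.O) :
    dv t (tauLat A t f I) z = ord z f + dv t I ((fr k L)⁻¹ • z) := by
  have hz' : t ∈ ((fr k L)⁻¹ • z).O := hz
  refine le_antisymm ?_ ?_
  · obtain ⟨x, hx, h0, e⟩ := hl.dv_attained h hz'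
    rw [← e, ← latB_ord_tau h hf z h0]
    exact (hl.tau hf).dv_le h hz (mem_tauLat hx) (mul_ne_zero hf (by simpa using h0))
  · obtain ⟨n, m, m', hm, hm', hs⟩ := hl.inv
    obtain ⟨i, h0, h1, -⟩ := latB_key (A := A) h (fun i => mem_tauLat (hm i))
      (fun i => latB_tau_inv hf (hm' i)) (latB_tau_sum hf hs) hz
    have h2 : m i ≠ 0 := by simpa using right_ne_zero_of_mul h0
    rw [h1, latB_ord_tau h hf z h2]
    have := hl.dv_le h hz' (hm i) h2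
    omega

theorem Lat.scale (h : FF k t) (hl : Lat A t I) {c : FL k E L} (hc : c ≠ 0) :
    Lat A t (I.map (AddMonoidHom.mulLeft c)) ∧ ∀ z : Pt k E L, t ∈ z.O →
      dv t (I.map (AddMonoidHom.mulLeft c)) z = ord z c + dv t I z := by
  refine ⟨⟨?_, ?_⟩, fun z hz => dv_eq_of hz ?_ ?_⟩
  · rintro r hr _ ⟨x, hx, rfl⟩
    exact ⟨r * x, hl.mul_mem r hr x hx, mul_left_comm c r x⟩
  · obtain ⟨n, m, m', hm, hm', hs⟩ := hl.inv
    refine ⟨n, fun i => c * m i, fun i => c⁻¹ * m' i, fun i => ⟨m i, hm i, rfl⟩, ?_, ?_⟩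
    · rintro i _ ⟨x, hx, rfl⟩
      have e : c⁻¹ * m' i * (c * x) = m' i * x := by field_simp
      change c⁻¹ * m' i * (c * x) ∈ _
      rw [e]
      exact hm' i x hx
    · rw [← hs]
      refine Finset.sum_congr rfl fun i _ => ?_
      field_simp
  · rintro _ ⟨x, hx, rfl⟩ h0
    change c * x ≠ 0 at h0
    have h1 := right_ne_zero_of_mul h0
    change _ ≤ ord z (c * x)
    rw [ord_mul h z hc h1]
    have := hl.dv_le h hz hx h1
    omega
  · obtain ⟨x, hx, h0, e⟩ := hl.dv_attained h hz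
    exact ⟨c * x, ⟨x, hx, rfl⟩, mul_ne_zero hc h0, by rw [ord_mul h z hc h0, e]⟩

theorem bk_succ (φ : E →ₐ[k] L) (i : ℕ) :
    fr k L • Pt.ofHom (tw ((fr k L)⁻¹ ^ (i + 1)) φ) = Pt.ofHom (tw ((fr k L)⁻¹ ^ i) φ) := by
  rw [← Pt.smul_ofHom, ← Pt.smul_ofHom, smul_smul, pow_succ', mul_inv_cancel_left]

theorem bk_t_ne (htr : Transcendental k θ) {φ : E →ₐ[k] L} (hφ : φ t = θ) {i : ℕ} (hi : 1 ≤ i) :
    (tw ((fr k L)⁻¹ ^ i) φ) t ≠ θ := by
  intro e
  have e1 : ((fr k L)⁻¹ ^ i) θ = θ := by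
    rw [← hφ] at e ⊢
    exact e
  have e2 : (fr k L ^ i) θ = θ := by
    conv_lhs => rw [← e1]
    rw [← AlgEquiv.mul_apply, inv_pow, mul_inv_cancel, AlgEquiv.one_apply]
  rw [fr_pow_apply] at e2
  have h1 : 1 < Fintype.card k ^ i := Nat.one_lt_pow (by omega) Fintype.one_lt_card
  exact htr ⟨X ^ Fintype.card k ^ i - X, FiniteField.X_pow_card_sub_X_ne_zero k h1, by simp [e2]⟩

theorem Sht.dv_const (h : FF k t) (hS : Sht A t θ f I D) {z : Pt k E L} (hz : z.O ≠ ⊤) :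
    dv t (tauLat A t f I) z = dv t I z := by
  by_cases hzt : t ∈ z.O
  swap
  · rw [dv, dv, if_neg hzt, if_neg hzt]
  have hτ := hS.lat.tau hS.ne
  refine le_antisymm ?_ ?_
  · obtain ⟨n, hn⟩ := hS.pow
    obtain ⟨x, hx, h0, e⟩ := hS.lat.dv_attained h hzt
    have h1 := sub_self_ne h θ
    have h2 : ord z (tm 1 t - tm θ 1 : FL k E L) = 0 := by
      refine (ord_eq_zero_iff h z h1).2
        ⟨_, ?_, (hasVal_tm z (1 : L) hzt).sub (hasVal_tm z θ (one_mem z.O))⟩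
      rw [one_mul, z.ev_one, mul_one, sub_ne_zero]
      intro e'
      exact hS.trans (e' ▸ z.alg_of_const h hz t)
    have h3 := hτ.dv_le h hzt (hn x hx) (mul_ne_zero (pow_ne_zero n h1) h0)
    rw [ord_mul h z (pow_ne_zero n h1) h0, ← zpow_natCast, ord_zpow h, h2, mul_zero,
      zero_add] at h3
    rwa [← e]
  · obtain ⟨x, hx, h0, e⟩ := hτ.dv_attained h hzt
    rw [← e]
    exact hS.lat.dv_le h hzt (hS.le hx) h0

theorem Sht.dv_tau_bk (h : FF k t) (hS : Sht A t θ f I D) {φ : E →ₐ[k] L} (hφ : φ t = θ)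
    (i : ℕ) : dv t (tauLat A t f I) (Pt.ofHom (tw ((fr k L)⁻¹ ^ i) φ)) = 0 := by
  rcases Nat.eq_zero_or_pos i with rfl | hi
  · exact hS.gen0 φ hφ
  · rw [hS.type, hS.gen φ hφ i hi, zero_add]
    by_contra hD
    exact bk_t_ne hS.trans hφ hi (hS.leg _ (Finsupp.mem_support_iff.2 hD))

theorem Sht.ord_f (h : FF k t) (hS : Sht A t θ f I D) {φ : E →ₐ[k] L} (hφ : φ t = θ) (i : ℕ) :
    ord (Pt.ofHom (tw ((fr k L)⁻¹ ^ i) φ)) f = 0 := by
  have h1 := hS.lat.dv_tau h hS.ne (z := Pt.ofHom (tw ((fr k L)⁻¹ ^ i) φ))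
    (ValuationSubring.mem_top _)
  rw [hS.dv_tau_bk h hφ i] at h1
  have h2 : (fr k L)⁻¹ • Pt.ofHom (tw ((fr k L)⁻¹ ^ i) φ) =
      Pt.ofHom (tw ((fr k L)⁻¹ ^ (i + 1)) φ) := by
    rw [← bk_succ φ i, inv_smul_smul]
  rw [h2, hS.gen φ hφ (i + 1) (by omega), add_zero] at h1
  exact h1.symm

end Pool.Agent.FFC
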