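import Pool.Agent.P.MP_a2beea_nt.FC.Bridge
import Pool.Agent.P.MP_a2beea_nt.FC.LatB

/-! The motive as a lattice of functions. `R = OK ⊗ OE` is a domain (`IsRho.injective`). An
invertible module over a domain is isomorphic to an ideal
(`Module.Invertible.exists_linearEquiv_ideal`), `μ₀ : M → R` injective; put `μ = ρ ∘ μ₀`. There
are `λ_i ∈ Dual R M`, `m_i ∈ M` with `∑ λ_i m_i = 1` (`Module.Invertible.bijective`), and
`μ₀ y • x = μ₀ x • y` shows that `ρ ∘ λ_i` is multiplication of `μ` by a fixed function `m'_i`,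
and that `μ (τ x) / σ (μ x)` does not depend on `x ≠ 0`. If `f = 0` then `τ = 0`, but the product
of the ideals of the graphs contains a power of `jj ≠ 0` and `M ≠ 0` is torsion free. -/

open Polynomial
open scoped TensorProduct NNReal IntermediateField

namespace Pool.Agent.FFC

open Classical

variable {k : Type*} [Field k] [Fintype k] {E K : Type*} [Field E] [Field K]
  [Algebra k E] [Algebra k[X] E] [Algebra (RatFunc k) E] [IsScalarTower k k[X] E]
  [IsScalarTower k[X] (RatFunc k) E]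
  [Algebra k K] [Algebra k[X] K] [Algebra (RatFunc k) K] [IsScalarTower k k[X] K]
  [IsScalarTower k[X] (RatFunc k) K]
  [FiniteDimensional (RatFunc k) E] [Algebra.IsSeparable (RatFunc k) E]
  [FiniteDimensional (RatFunc k) K] [IsGalois (RatFunc k) K]
  {OE OK : Type*} [CommRing OE] [CommRing OK]
  [Algebra k OE] [Algebra k[X] OE] [Algebra OE E] [IsScalarTower k k[X] OE]
  [IsScalarTower k[X] OE E] [IsIntegralClosure OE k[X] E]
  [Algebra k OK] [Algebra k[X] OK] [Algebra OK K] [IsScalarTower k k[X] OK]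
  [IsScalarTower k[X] OK K] [IsIntegralClosure OK k[X] K]
  {L : Type*} [Field L] [Algebra k L] [Algebra K L] [IsScalarTower k K L] [IsAlgClosed L]
  [Algebra.IsAlgebraic K L]
  [IsDomain (L ⊗[k] E)] [Nonempty (GV k L)]
  [Fintype (E →ₐ[RatFunc k] K)] {M : Type*} [AddCommGroup M] [Module (OK ⊗[k] OE) M]
  {τ : M →+ M} {d : (E →ₐ[RatFunc k] K) → ℕ} {ρ : OK ⊗[k] OE →+* FL k E L}
  {μ : M →+ FL k E L} {f : FL k E L} {I : AddSubgroup (FL k E L)}

theorem jj_mem_graphIdeal (φ : E →ₐ[RatFunc k] K) : jj k OE OK ∈ graphIdeal OE OK φ := by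
  refine Ideal.subset_span ⟨algebraMap k[X] OE X, algebraMap k[X] OK X, ?_, rfl⟩
  rw [← IsScalarTower.algebraMap_apply, ← IsScalarTower.algebraMap_apply,
    IsScalarTower.algebraMap_apply k[X] (RatFunc k) K,
    IsScalarTower.algebraMap_apply k[X] (RatFunc k) E, φ.commutes]

private theorem emb0_sum {R N : Type*} [CommRing R] [AddCommGroup N] [Module R N]
    [Module.Invertible R N] :
    ∃ (n : ℕ) (l : Fin n → Module.Dual R N) (m : Fin n → N), ∑ i, l i (m i) = 1 := by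
  obtain ⟨z, hz⟩ := (Module.Invertible.bijective (R := R) (M := N)).2 1
  obtain ⟨n, l, m, rfl⟩ := TensorProduct.exists_sum_tmul_eq z
  refine ⟨n, l, m, ?_⟩
  rw [map_sum] at hz
  simpa using hz

private theorem emb0_pow_mem (d : (E →ₐ[RatFunc k] K) → ℕ) :
    jj k OE OK ^ (∑ φ, d φ) ∈ ∏ φ : E →ₐ[RatFunc k] K, graphIdeal OE OK φ ^ d φ := by
  rw [← Finset.prod_pow_eq_pow_sum]
  exact Ideal.prod_mem_prod fun φ _ => Ideal.pow_mem_pow (jj_mem_graphIdeal φ) _

theorem exists_emb0 (h : FF k (tE k E)) (hρ : IsRho E K L ρ) (hM : IsCMMotive OE OK d τ) :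
    ∃ (μ : M →+ FL k E L) (f : FL k E L) (I : AddSubgroup (FL k E L)),
      IsEmb ρ τ μ f I ∧ f ≠ 0 ∧ Lat (AK OK K L) (tE k E) I := by
  have hinj := hρ.injective
  haveI : IsDomain (OK ⊗[k] OE) := hinj.isDomain ρ
  haveI := hM.invertible
  obtain ⟨J, ⟨e⟩⟩ := Module.Invertible.exists_linearEquiv_ideal (OK ⊗[k] OE) M
  let μ0 : M →ₗ[OK ⊗[k] OE] OK ⊗[k] OE := J.subtype.comp e.toLinearMap
  have hμ0 : Function.Injective μ0 := J.injective_subtype.comp e.injective
  let μ : M →+ FL k E L := ρ.toAddMonoidHom.comp μ0.toAddMonoidHom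
  have hμ : ∀ x, μ x = ρ (μ0 x) := fun _ => rfl
  have hμi : Function.Injective μ := hinj.comp hμ0
  have hsm : ∀ (r : OK ⊗[k] OE) (x : M), μ (r • x) = ρ r * μ x := by
    intro r x
    rw [hμ, hμ, map_smul, smul_eq_mul, map_mul]
  have hsw : ∀ x y : M, μ0 x • y = μ0 y • x := by
    intro x y
    apply hμ0
    rw [map_smul, map_smul, smul_eq_mul, smul_eq_mul, mul_comm]
  obtain ⟨n, l, m, hlm⟩ := emb0_sum (R := OK ⊗[k] OE) (N := M)
  have hx0 : ∃ x0 : M, x0 ≠ 0 := by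
    by_contra hne
    push Not at hne
    have : ∑ i, l i (m i) = 0 := Finset.sum_eq_zero fun i _ => by rw [hne (m i), map_zero]
    rw [hlm] at this
    exact one_ne_zero this
  obtain ⟨x0, hx0⟩ := hx0
  have h0 : μ x0 ≠ 0 := fun h' => hx0 (hμi (by rw [h', map_zero]))
  have h0' : mapF (fr k L) (μ x0) ≠ 0 := fun h' => h0 ((mapF (fr k L)).injective (by
    rw [h', map_zero]))
  have htau : ∀ x : M, μ (τ x) = μ (τ x0) / mapF (fr k L) (μ x0) * mapF (fr k L) (μ x) := by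
    intro x
    have h1 := congrArg (fun y => μ (τ y)) (hsw x x0)
    simp only [hM.semilinear, hsm, hρ.map_sig, ← hμ] at h1
    field_simp
    rw [mul_comm (μ (τ x)), ← h1, mul_comm]
  refine ⟨μ, μ (τ x0) / mapF (fr k L) (μ x0), μ.range, ⟨hμi, hsm, rfl, htau⟩, ?_, ?_, ?_⟩
  · intro hf
    have hτ : ∀ x, τ x = 0 := fun x => hμi (by rw [htau, hf, zero_mul, map_zero])
    have hb : dRLat k OE OK τ = ⊥ := by
      rw [dRLat, Submodule.span_eq_bot]
      rintro _ ⟨x, rfl⟩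
      exact hτ x
    have h1 : jj k OE OK ^ (∑ φ, d φ) • x0 ∈ dRLat k OE OK τ := by
      rw [hM.cmType]
      exact Submodule.smul_mem_smul (emb0_pow_mem d) Submodule.mem_top
    rw [hb, Submodule.mem_bot] at h1
    have h2 := congrArg μ h1
    rw [hsm, map_zero, map_pow, hρ.map_jj] at h2
    rcases mul_eq_zero.1 h2 with h3 | h3
    · exact sub_self_ne h _ (eq_zero_of_pow_eq_zero h3)
    · exact h0 h3
  · rintro r hr _ ⟨x, rfl⟩
    obtain ⟨r', rfl⟩ := (hρ.mem_RA_iff r).1 hr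
    exact ⟨r' • x, hsm r' x⟩
  · have key : ∀ i x, ρ (l i x0) / μ x0 * μ x = ρ (l i x) := by
      intro i x
      have h1 := congrArg (fun y => ρ (l i y)) (hsw x x0)
      simp only [map_smul, smul_eq_mul, map_mul, ← hμ] at h1
      field_simp
      rw [mul_comm, h1]
    refine ⟨n, fun i => μ (m i), fun i => ρ (l i x0) / μ x0, fun i => ⟨m i, rfl⟩, ?_, ?_⟩
    · rintro i _ ⟨x, rfl⟩
      rw [key]
      exact (hρ.mem_RA_iff _).2 ⟨_, rfl⟩
    · simp only [key]
      rw [← map_sum, hlm, map_one]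

private theorem emb0_mul_mem {r y : FL k E L} (hr : r ∈ RA k (AK OK K L) (tE k E))
    (hy : y ∈ tauLat (AK OK K L) (tE k E) f I) : r * y ∈ tauLat (AK OK K L) (tE k E) f I := by
  unfold tauLat at hy ⊢
  induction hy using AddSubgroup.closure_induction with
  | mem y hy =>
    obtain ⟨s, hs, x, hx, rfl⟩ := hy
    exact AddSubgroup.subset_closure ⟨r * s, mul_mem hr hs, x, hx, by rw [mul_assoc]⟩
  | zero => rw [mul_zero]; exact zero_mem _
  | add a b _ _ ha hb => rw [mul_add]; exact add_mem ha hb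
  | neg a _ ha => rw [mul_neg]; exact neg_mem ha

private theorem emb0_lift (hρ : IsRho E K L ρ) (hμ : IsEmb ρ τ μ f I) {y : FL k E L}
    (hy : y ∈ tauLat (AK OK K L) (tE k E) f I) : ∃ x ∈ dRLat k OE OK τ, μ x = y := by
  unfold tauLat at hy
  induction hy using AddSubgroup.closure_induction with
  | mem y hy =>
    obtain ⟨s, hs, x, hx, rfl⟩ := hy
    obtain ⟨r, rfl⟩ := (hρ.mem_RA_iff s).1 hs
    rw [← hμ.range] at hx
    obtain ⟨x, rfl⟩ := hx
    refine ⟨r • τ x, Submodule.smul_mem _ _ (Submodule.subset_span ⟨x, rfl⟩), ?_⟩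
    rw [hμ.smul, hμ.tau]
  | zero => exact ⟨0, zero_mem _, map_zero _⟩
  | add a b _ _ ha hb =>
    obtain ⟨x, hx, rfl⟩ := ha
    obtain ⟨y, hy, rfl⟩ := hb
    exact ⟨x + y, add_mem hx hy, map_add _ _ _⟩
  | neg a _ ha =>
    obtain ⟨x, hx, rfl⟩ := ha
    exact ⟨-x, neg_mem hx, map_neg _ _⟩

theorem IsEmb.mem_dRLat (hρ : IsRho E K L ρ) (hμ : IsEmb ρ τ μ f I) (x : M) :
    x ∈ dRLat k OE OK τ ↔ μ x ∈ tauLat (AK OK K L) (tE k E) f I := by
  constructor
  · intro hx
    unfold dRLat at hx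
    induction hx using Submodule.span_induction with
    | mem y hy =>
      obtain ⟨x, rfl⟩ := hy
      rw [hμ.tau]
      exact mem_tauLat (hμ.range ▸ ⟨x, rfl⟩)
    | zero => rw [map_zero]; exact zero_mem _
    | add a b _ _ ha hb => rw [map_add]; exact add_mem ha hb
    | smul r a _ ha =>
      rw [hμ.smul]
      exact emb0_mul_mem ((hρ.mem_RA_iff _).2 ⟨r, rfl⟩) ha
  · intro hx
    obtain ⟨y, hy, h⟩ := emb0_lift hρ hμ hx
    rwa [← hμ.inj h]

theorem IsEmb.tau_le (hρ : IsRho E K L ρ) (hμ : IsEmb ρ τ μ f I) :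
    tauLat (AK OK K L) (tE k E) f I ≤ I := by
  intro y hy
  obtain ⟨x, -, rfl⟩ := emb0_lift hρ hμ hy
  exact hμ.range ▸ ⟨x, rfl⟩

theorem IsEmb.mem_dRKer (hρ : IsRho E K L ρ) (hμ : IsEmb ρ τ μ f I) (x : M) :
    x ∈ dRKer k OE OK τ ↔
      ∃ y ∈ tauLat (AK OK K L) (tE k E) f I, μ x = (tm 1 (tE k E) - tm (th k K L) 1) * y := by
  unfold dRKer
  rw [Submodule.ideal_span_singleton_smul, Submodule.mem_smul_pointwise_iff_exists]
  constructor
  · rintro ⟨y, hy, rfl⟩
    exact ⟨μ y, (hμ.mem_dRLat hρ y).1 hy, by rw [hμ.smul, hρ.map_jj]⟩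
  · rintro ⟨y, hy, h⟩
    obtain ⟨z, hz, rfl⟩ := emb0_lift hρ hμ hy
    refine ⟨z, hz, hμ.inj ?_⟩
    rw [hμ.smul, hρ.map_jj, h]

theorem IsEmb.scale (hμ : IsEmb ρ τ μ f I) {c : FL k E L} (hc : c ≠ 0) :
    IsEmb ρ τ ((AddMonoidHom.mulLeft c).comp μ) (c * f / mapF (fr k L) c)
      (I.map (AddMonoidHom.mulLeft c)) := by
  have hc' : mapF (fr k L) c ≠ 0 := fun h' => hc ((mapF (fr k L)).injective (by
    rw [h', map_zero]))
  refine ⟨?_, ?_, ?_, ?_⟩
  · intro x y hxy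
    exact hμ.inj (mul_left_cancel₀ hc hxy)
  · intro r x
    change c * μ (r • x) = ρ r * (c * μ x)
    rw [hμ.smul]; ring
  · rw [← hμ.range, AddMonoidHom.map_range]
  · intro x
    change c * μ (τ x) = c * f / mapF (fr k L) c * mapF (fr k L) (c * μ x)
    rw [hμ.tau, map_mul]
    field_simp

theorem exists_cyc {C : Type*} [NormedField C] [Algebra K C] (j : L →+* C)
    {η : K ≃ₐ[RatFunc k] K} (hj : ∀ x : K, j (algebraMap K L x) = algebraMap K C (η x))
    (hρ : IsRho E K L ρ) (hμ : IsEmb ρ τ μ f I) {u : M →+ PowerSeries C}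
    (hu : IsCycle (k := k) (OE := OE) (OK := OK) τ η u) (h0 : u ≠ 0) :
    ∃ u' : FL k E L → PowerSeries C, Cyc j (AK OK K L) (tE k E) f I u' ∧ ∀ x, u' (μ x) = u x := by
  have key : ∀ x, u (Function.invFun μ (μ x)) = u x := fun x => by
    rw [Function.leftInverse_invFun hμ.inj x]
  have hI : ∀ y ∈ I, ∃ x, μ x = y := fun y hy => by
    rw [← hμ.range] at hy
    exact hy
  refine ⟨fun y => u (Function.invFun μ y), ⟨?_, ?_, ?_, ?_, ?_, ?_⟩, key⟩
  · intro x hx y hy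
    obtain ⟨x, rfl⟩ := hI x hx
    obtain ⟨y, rfl⟩ := hI y hy
    simp only [← map_add μ, key, map_add u]
  · intro x hx
    obtain ⟨x, rfl⟩ := hI x hx
    simp only [key]
    exact hu.tate x
  · rintro _ ⟨c, rfl⟩ x hx
    obtain ⟨x, rfl⟩ := hI x hx
    have h1 : (tm (((algebraMap K L).comp (algebraMap OK K)) c) 1 : FL k E L) =
        ρ (c ⊗ₜ[k] (1 : OE)) := by
      rw [hρ c 1, map_one]; rfl
    simp only [h1, ← hμ.smul, key, hu.smul_const]
    rw [RingHom.comp_apply, hj]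
  · intro x hx
    obtain ⟨x, rfl⟩ := hI x hx
    have h1 : (tm 1 (tE k E) : FL k E L) = ρ ((1 : OK) ⊗ₜ[k] algebraMap k[X] OE X) := by
      rw [hρ, map_one, map_one, ← IsScalarTower.algebraMap_apply]
    simp only [h1, ← hμ.smul, key, hu.smul_t]
  · intro x hx n
    obtain ⟨x, rfl⟩ := hI x hx
    simp only [← hμ.tau, key, hu.twist]
  · by_contra hne
    push Not at hne
    apply h0
    ext1 x
    have := hne (μ x) (hμ.range ▸ ⟨x, rfl⟩)
    rw [key] at this
    exact this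

end Pool.Agent.FFC
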