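import Pool.Agent.P.MP_a2beea_nt.FC.Idem0
import Pool.Agent.P.MP_a2beea_nt.FC.Emb0

/-! The component of the motive as a lattice of functions. `inv_data`: `Module.Invertible.bijective`
and `Module.Invertible.tmul_comm` (see `emb0_sum` in `Emb0`). `span_succ`: both inclusions from
`tau_iter` and `cmType`. `tau_injective`: if `τ x = 0` then `sig (g x)` kills `dRLat ∋ jj ^ n y`
for every `g` in the dual, so `sig (g x) jj ^ n = 0` (`FaithfulSMul`), `g x = 0`
(`jj_regular`, `sig_injective`), and `x = ∑ lam i x • m i`. `semi_inv`: with `ν x₀ ≠ 0` put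
`m' i = σ (lam i x₀) / ν x₀`. `exists_emb2`: choose `i` with `ρ (lam i (m i)) ≠ 0` and put
`μ = ρ ∘ lam i`; `μ x = 0` gives `ε 0 • lam i (m i) • x = 0`, hence `ρ (lam j x) = 0` for all `j`;
`g x • y = g y • x` and `tau_iter` show that `μ (τ^[l] x) / σ (μ x)` is constant; `f ≠ 0` by
`span_pow`, `map_jj`, `sub_self_ne`. -/

open Polynomial
open scoped TensorProduct NNReal IntermediateField

namespace Pool.Agent.FFC

open Classical

variable {k₀ : Type*} [Field k₀] [Fintype k₀] {E K : Type*} [Field E] [Field K]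
  [Algebra k₀ E] [Algebra k₀[X] E] [Algebra (RatFunc k₀) E] [IsScalarTower k₀ k₀[X] E]
  [IsScalarTower k₀[X] (RatFunc k₀) E]
  [Algebra k₀ K] [Algebra k₀[X] K] [Algebra (RatFunc k₀) K] [IsScalarTower k₀ k₀[X] K]
  [IsScalarTower k₀[X] (RatFunc k₀) K]
  [FiniteDimensional (RatFunc k₀) E] [Algebra.IsSeparable (RatFunc k₀) E]
  [FiniteDimensional (RatFunc k₀) K] [IsGalois (RatFunc k₀) K]
  {OE OK : Type*} [CommRing OE] [CommRing OK]
  [Algebra k₀ OE] [Algebra k₀[X] OE] [Algebra OE E] [IsScalarTower k₀ k₀[X] OE]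
  [IsScalarTower k₀[X] OE E] [IsIntegralClosure OE k₀[X] E]
  [Algebra k₀ OK] [Algebra k₀[X] OK] [Algebra OK K] [IsScalarTower k₀ k₀[X] OK]
  [IsScalarTower k₀[X] OK K] [IsIntegralClosure OK k₀[X] K]
  {L : Type*} [Field L] [Algebra k₀ L] [Algebra K L] [IsScalarTower k₀ K L] [IsAlgClosed L]
  [Algebra.IsAlgebraic K L]
  {k : Type*} [Field k] [Fintype k] [Algebra k₀ k] [Algebra k E] [IsScalarTower k₀ k E]
  [Algebra k L] [IsScalarTower k₀ k L]
  [IsDomain (L ⊗[k] E)] [Nonempty (GV k L)]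
  [Fintype (E →ₐ[RatFunc k₀] K)] {M : Type*} [AddCommGroup M] [Module (OK ⊗[k₀] OE) M]
  {τ : M →+ M} {d : (E →ₐ[RatFunc k₀] K) → ℕ}
  {ρ : OK ⊗[k₀] OE →+* FL k E L} {ε : ℕ → OK ⊗[k₀] OE}
  {μ : M →+ FL k E L} {f : FL k E L} {I : AddSubgroup (FL k E L)}

private theorem EmbA_sum {R N : Type*} [CommRing R] [AddCommGroup N] [Module R N]
    [Module.Invertible R N] :
    ∃ (n : ℕ) (l : Fin n → Module.Dual R N) (m : Fin n → N), ∑ i, l i (m i) = 1 := by
  obtain ⟨z, hz⟩ := (Module.Invertible.bijective (R := R) (M := N)).2 1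
  obtain ⟨n, l, m, rfl⟩ := TensorProduct.exists_sum_tmul_eq z
  refine ⟨n, l, m, ?_⟩
  rw [map_sum] at hz
  simpa using hz

private theorem EmbA_swap {R N : Type*} [CommRing R] [AddCommGroup N] [Module R N]
    [Module.Invertible R N] (g : Module.Dual R N) (x y : N) : g x • y = g y • x := by
  have h := congrArg (fun z => TensorProduct.lid R N (LinearMap.rTensor N g z))
    (Module.Invertible.tmul_comm (R := R) (m₁ := x) (m₂ := y))
  simpa using h

private theorem EmbA_expand {R N : Type*} [CommRing R] [AddCommGroup N] [Module R N] {n : ℕ}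
    {lam : Fin n → Module.Dual R N} {m : Fin n → N} (h1 : ∑ i, lam i (m i) = 1)
    (h2 : ∀ (g : Module.Dual R N) (x y : N), g x • y = g y • x) (x : N) :
    x = ∑ i, lam i x • m i := by
  conv_lhs => rw [← one_smul R x, ← h1, Finset.sum_smul]
  exact Finset.sum_congr rfl fun i _ => h2 _ _ _

private theorem EmbA_pow_mem (d : (E →ₐ[RatFunc k₀] K) → ℕ) :
    jj k₀ OE OK ^ (∑ φ, d φ) ∈ ∏ φ : E →ₐ[RatFunc k₀] K, graphIdeal OE OK φ ^ d φ := by
  rw [← Finset.prod_pow_eq_pow_sum]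
  exact Ideal.prod_mem_prod fun φ _ => Ideal.pow_mem_pow (jj_mem_graphIdeal φ) _

theorem inv_data (hM : IsCMMotive OE OK d τ) :
    ∃ (n : ℕ) (lam : Fin n → Module.Dual (OK ⊗[k₀] OE) M) (m : Fin n → M),
      ∑ i, lam i (m i) = 1 ∧
        ∀ (g : Module.Dual (OK ⊗[k₀] OE) M) (x y : M), g x • y = g y • x := by
  haveI := hM.invertible
  obtain ⟨n, l, m, h⟩ := EmbA_sum (R := OK ⊗[k₀] OE) (N := M)
  exact ⟨n, l, m, h, EmbA_swap⟩

theorem tau_iter (hM : IsCMMotive OE OK d τ) (b : ℕ) (r : (OK ⊗[k₀] OE)) (x : M) :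
    τ^[b] (r • x) = ((sig k₀ OE OK) ^ b) r • τ^[b] x := by
  induction b generalizing r x with
  | zero => rw [pow_zero]; rfl
  | succ b ih =>
    rw [Function.iterate_succ_apply, Function.iterate_succ_apply, hM.semilinear, ih, pow_succ,
      AlgHom.mul_apply]

theorem jj_pow (hM : IsCMMotive OE OK d τ) :
    ∃ n : ℕ, ∀ x : M, jj k₀ OE OK ^ n • x ∈ dRLat k₀ OE OK τ := by
  refine ⟨∑ φ, d φ, fun x => ?_⟩
  rw [hM.cmType]
  exact Submodule.smul_mem_smul (EmbA_pow_mem d) Submodule.mem_top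

private theorem EmbA_iter_mem (hM : IsCMMotive OE OK d τ) (b : ℕ) {w : M}
    (hw : w ∈ dRLat k₀ OE OK τ) :
    τ^[b] w ∈ Submodule.span (OK ⊗[k₀] OE) (Set.range τ^[b + 1]) := by
  unfold dRLat at hw
  induction hw using Submodule.span_induction with
  | mem y hy =>
    obtain ⟨x, rfl⟩ := hy
    exact Submodule.subset_span ⟨x, Function.iterate_succ_apply _ _ _⟩
  | zero => rw [iterate_map_zero]; exact zero_mem _
  | add a c _ _ ha hc => rw [iterate_map_add]; exact add_mem ha hc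
  | smul r a _ ha => rw [tau_iter hM]; exact Submodule.smul_mem _ _ ha

theorem span_succ (hM : IsCMMotive OE OK d τ) (b : ℕ) :
    (Submodule.span (OK ⊗[k₀] OE) (Set.range τ^[b + 1])) =
      (∏ φ, graphIdeal OE OK φ ^ d φ).map ((sig k₀ OE OK) ^ b) •
        (Submodule.span (OK ⊗[k₀] OE) (Set.range τ^[b])) := by
  apply le_antisymm
  · rw [Submodule.span_le]
    rintro _ ⟨x, rfl⟩
    have h1 : τ x ∈ dRLat k₀ OE OK τ := Submodule.subset_span ⟨x, rfl⟩
    rw [hM.cmType] at h1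
    rw [Function.iterate_succ_apply, SetLike.mem_coe]
    generalize τ x = y at h1 ⊢
    refine Submodule.smul_induction_on (p := fun y => τ^[b] y ∈
      (∏ φ, graphIdeal OE OK φ ^ d φ).map ((sig k₀ OE OK) ^ b) •
        (Submodule.span (OK ⊗[k₀] OE) (Set.range τ^[b]))) h1 ?_ ?_
    · intro r hr z _
      rw [tau_iter hM]
      exact Submodule.smul_mem_smul (Ideal.mem_map_of_mem _ hr) (Submodule.subset_span ⟨z, rfl⟩)
    · intro a c ha hc
      rw [iterate_map_add]
      exact add_mem ha hc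
  · rw [Submodule.smul_le]
    intro r hr y hy
    have key : ∀ r' ∈ (∏ φ, graphIdeal OE OK φ ^ d φ), ((sig k₀ OE OK) ^ b) r' • y ∈
        Submodule.span (OK ⊗[k₀] OE) (Set.range τ^[b + 1]) := by
      intro r' hr'
      induction hy using Submodule.span_induction with
      | mem y hy =>
        obtain ⟨z, rfl⟩ := hy
        rw [← tau_iter hM]
        apply EmbA_iter_mem hM
        rw [hM.cmType]
        exact Submodule.smul_mem_smul hr' Submodule.mem_top
      | zero => rw [smul_zero]; exact zero_mem _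
      | add a c _ _ ha hc => rw [smul_add]; exact add_mem ha hc
      | smul s a _ ha => rw [smul_comm]; exact Submodule.smul_mem _ _ ha
    unfold Ideal.map at hr
    induction hr using Submodule.span_induction with
    | mem r hr =>
      obtain ⟨r', hr', rfl⟩ := hr
      exact key r' hr'
    | zero => rw [zero_smul]; exact zero_mem _
    | add a c _ _ ha hc => rw [add_smul]; exact add_mem ha hc
    | smul s a _ ha => rw [smul_eq_mul, mul_smul]; exact Submodule.smul_mem _ _ ha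

theorem span_pow (hM : IsCMMotive OE OK d τ) (b : ℕ) : ∃ n : ℕ, ∀ x : M,
    (∏ a ∈ Finset.range b, ((sig k₀ OE OK) ^ a) (jj k₀ OE OK)) ^ n • x ∈
      (Submodule.span (OK ⊗[k₀] OE) (Set.range τ^[b])) := by
  induction b with
  | zero => exact ⟨0, fun x => by rw [pow_zero, one_smul]; exact Submodule.subset_span ⟨x, rfl⟩⟩
  | succ b ih =>
    obtain ⟨n, hn⟩ := ih
    refine ⟨n + ∑ φ, d φ, fun x => ?_⟩
    have h1 : ((sig k₀ OE OK) ^ b) (jj k₀ OE OK) ^ (∑ φ, d φ) ∈
        (∏ φ, graphIdeal OE OK φ ^ d φ).map ((sig k₀ OE OK) ^ b) := by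
      rw [← map_pow]
      exact Ideal.mem_map_of_mem _ (EmbA_pow_mem d)
    have h2 := Submodule.smul_mem_smul h1 (hn x)
    rw [← span_succ hM] at h2
    rw [Finset.prod_range_succ]
    generalize (∏ a ∈ Finset.range b, ((sig k₀ OE OK) ^ a) (jj k₀ OE OK)) = P at h2 ⊢
    generalize ((sig k₀ OE OK) ^ b) (jj k₀ OE OK) = Q at h2 ⊢
    generalize (∑ φ, d φ) = n' at h2 ⊢
    have h3 : (P * Q) ^ (n + n') = (P ^ n' * Q ^ n) * (Q ^ n' * P ^ n) := by ring
    rw [h3, mul_smul, mul_smul (Q ^ n')]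
    exact Submodule.smul_mem _ _ h2

theorem tau_injective (h : FF k (tE k₀ E)) (hρ : IsRho2 K ρ)
    (hε : IsIdem ρ (Module.finrank k₀ k) ε) (hM : IsCMMotive OE OK d τ) : Function.Injective τ := by
  haveI := hM.invertible
  rw [injective_iff_map_eq_zero]
  intro x hx
  obtain ⟨n, lam, m, h1, h2⟩ := inv_data hM
  obtain ⟨N, hN⟩ := jj_pow hM
  have hreg : ∀ (N : ℕ) (r : OK ⊗[k₀] OE), jj k₀ OE OK ^ N * r = 0 → r = 0 := by
    intro N
    induction N with
    | zero => intro r hr; rwa [pow_zero, one_mul] at hr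
    | succ N ih =>
      intro r hr
      rw [pow_succ', mul_assoc] at hr
      exact ih r (hε.jj_regular h hρ hr)
  have hg : ∀ g : Module.Dual (OK ⊗[k₀] OE) M, g x = 0 := by
    intro g
    have h3 : ∀ w ∈ dRLat k₀ OE OK τ, sig k₀ OE OK (g x) • w = 0 := by
      intro w hw
      unfold dRLat at hw
      induction hw using Submodule.span_induction with
      | mem y hy =>
        obtain ⟨y, rfl⟩ := hy
        rw [← hM.semilinear, h2, hM.semilinear, hx, smul_zero]
      | zero => rw [smul_zero]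
      | add a c _ _ ha hc => rw [smul_add, ha, hc, add_zero]
      | smul s a _ ha => rw [smul_comm, ha, smul_zero]
    have h4 : jj k₀ OE OK ^ N * sig k₀ OE OK (g x) = 0 := by
      refine FaithfulSMul.eq_of_smul_eq_smul (α := M) fun y => ?_
      rw [zero_smul, mul_comm, mul_smul]
      exact h3 _ (hN y)
    have h5 := hreg N _ h4
    exact sig_injective K (by rw [h5, map_zero])
  rw [EmbA_expand h1 h2 x]
  exact Finset.sum_eq_zero fun i _ => by rw [hg, zero_smul]

theorem semi_inv (hM : IsCMMotive OE OK d τ) {F : Type*} [Field F] {σ : (OK ⊗[k₀] OE) →+* F}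
    {ν : M →+ F} (hν : ∀ r x, ν (r • x) = σ r * ν x) (h0 : ∃ x, ν x ≠ 0) :
    ∃ (n : ℕ) (m : Fin n → M) (m' : Fin n → F),
      (∀ i x, ∃ r, m' i * ν x = σ r) ∧ ∑ i, m' i * ν (m i) = 1 := by
  obtain ⟨n, lam, m, h1, h2⟩ := inv_data hM
  obtain ⟨x0, hx0⟩ := h0
  have key : ∀ i x, σ (lam i x0) / ν x0 * ν x = σ (lam i x) := by
    intro i x
    have h3 := congrArg ν (h2 (lam i) x0 x)
    rw [hν, hν] at h3
    rw [div_mul_eq_mul_div, h3, mul_div_assoc, div_self hx0, mul_one]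
  refine ⟨n, m, fun i => σ (lam i x0) / ν x0, fun i x => ⟨_, key i x⟩, ?_⟩
  simp only [key]
  rw [← map_sum, h1, map_one]

theorem exists_emb2 (h : FF k (tE k₀ E)) (hρ : IsRho2 K ρ)
    (hε : IsIdem ρ (Module.finrank k₀ k) ε) (hM : IsCMMotive OE OK d τ) :
    ∃ (μ : M →+ FL k E L) (f : FL k E L) (I : AddSubgroup (FL k E L)),
      IsEmb2 ρ (Module.finrank k₀ k) ε τ μ f I ∧ f ≠ 0 ∧ Lat (AK OK K L) (tE k₀ E) I := by
  obtain ⟨n, lam, m, h1, h2⟩ := inv_data hM
  have hi : ∃ i, ρ (lam i (m i)) ≠ 0 := by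
    by_contra hne
    push Not at hne
    have h3 : ρ (∑ i, lam i (m i)) = 0 := by
      rw [map_sum]
      exact Finset.sum_eq_zero fun i _ => hne i
    rw [h1, map_one] at h3
    exact one_ne_zero h3
  obtain ⟨i, hi⟩ := hi
  let μ : M →+ FL k E L := ρ.toAddMonoidHom.comp (lam i).toAddMonoidHom
  have hμ : ∀ x, μ x = ρ (lam i x) := fun _ => rfl
  have hsm : ∀ (r : OK ⊗[k₀] OE) (x : M), μ (r • x) = ρ r * μ x := by
    intro r x
    rw [hμ, hμ, map_smul, smul_eq_mul, map_mul]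
  have h0 : μ (m i) ≠ 0 := hi
  have h0' : mapF (fr k L) (μ (m i)) ≠ 0 := fun h' => h0 ((mapF (fr k L)).injective (by
    rw [h', map_zero]))
  have hker : ∀ x, μ x = 0 ↔ ε 0 • x = 0 := by
    intro x
    constructor
    · intro hx
      have h3 : ∀ j, ε 0 * lam j x = 0 := by
        intro j
        rw [← hε.ker_iff]
        have h4 := congrArg μ (h2 (lam j) x (m i))
        rw [hsm, hsm, hx, mul_zero] at h4
        exact (mul_eq_zero.1 h4).resolve_right h0
      rw [EmbA_expand h1 h2 x, Finset.smul_sum]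
      exact Finset.sum_eq_zero fun j _ => by rw [← mul_smul, h3, zero_smul]
    · intro hx
      have h3 := hsm (ε 0) x
      rw [hx, map_zero, hε.rho_zero, one_mul] at h3
      exact h3.symm
  have htau : ∀ x : M, μ (τ^[Module.finrank k₀ k] x) =
      μ (τ^[Module.finrank k₀ k] (m i)) / mapF (fr k L) (μ (m i)) * mapF (fr k L) (μ x) := by
    intro x
    have h3 := congrArg (fun y => μ (τ^[Module.finrank k₀ k] y)) (h2 (lam i) x (m i))
    simp only [tau_iter hM, hsm, hρ.map_sig, ← hμ] at h3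
    rw [div_mul_eq_mul_div, mul_comm, h3, mul_comm, mul_div_assoc, div_self h0', mul_one]
  refine ⟨μ, μ (τ^[Module.finrank k₀ k] (m i)) / mapF (fr k L) (μ (m i)), μ.range,
    ⟨hker, hsm, rfl, htau⟩, ?_, ?_, ?_⟩
  · intro hf
    have h3 : ∀ w ∈ Submodule.span (OK ⊗[k₀] OE) (Set.range τ^[Module.finrank k₀ k]),
        μ w = 0 := by
      intro w hw
      induction hw using Submodule.span_induction with
      | mem y hy =>
        obtain ⟨y, rfl⟩ := hy
        rw [htau, hf, zero_mul]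
      | zero => rw [map_zero]
      | add a c _ _ ha hc => rw [map_add, ha, hc, add_zero]
      | smul s a _ ha => rw [hsm, ha, mul_zero]
    obtain ⟨N, hN⟩ := span_pow hM (Module.finrank k₀ k)
    have h4 := h3 _ (hN (m i))
    rw [hsm, map_pow, map_prod] at h4
    rcases mul_eq_zero.1 h4 with h5 | h5
    · obtain ⟨a, -, ha⟩ := Finset.prod_eq_zero_iff.1 (eq_zero_of_pow_eq_zero h5)
      rw [hρ.map_jj] at ha
      exact sub_self_ne h _ ha
    · exact h0 h5
  · rintro r hr _ ⟨x, rfl⟩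
    obtain ⟨r', rfl⟩ := (hρ.mem_RA_iff r).1 hr
    exact ⟨r' • x, hsm r' x⟩
  · obtain ⟨n', m1, m2, h3, h4⟩ := semi_inv hM hsm ⟨m i, h0⟩
    refine ⟨n', fun j => μ (m1 j), m2, fun j => ⟨m1 j, rfl⟩, ?_, h4⟩
    rintro j _ ⟨x, rfl⟩
    obtain ⟨r, hr⟩ := h3 j x
    exact (hρ.mem_RA_iff _).2 ⟨r, hr.symm⟩

end Pool.Agent.FFC
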