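import Pool.Agent.P.MP_a2beea_nt.FC.EmbN
import Pool.Agent.P.MP_a2beea_nt.FC.Emb
import Pool.Agent.P.MP_a2beea_nt.FC.LatB2

/-! The type of the shtuka and general position; follow `Emb`. `graph2`: see `Emb_graph`, with
`map_gen`, `map_jj`, `not_lift`, `IsLift.map_t`. `span_ord`: induction on `b` with `span_succ`,
`EmbOI.prod`, `EmbOI.pow`, `legs2_eq` (for `Ideal.map` use `Submodule.span_induction`, or show
`(𝔞.map σ) • S = span {σ r • x}`). `typeN`: the members of `Nb b` lie in the image of the span of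
index `b + 1`, which is generated by the `τ^[b+1] x`, so the least order is attained at a
generator. `exists_scale2`: the points of level `b` and index `i` have height
`p ^ b / q ^ i * log q / dg`, and these numbers are distinct. `exists_sht2`: scale with
`c = - dvN I - Dtot`; at a point of level `b` only `legs2 d b` does not vanish. -/

open Polynomial
open scoped TensorProduct NNReal IntermediateField

namespace Pool.Agent.FFC

open Classical

variable {k₀ : Type*} [Field k₀] [Fintype k₀] {E K : Type*} [Field E] [Field K]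
  [Algebra k₀ E] [Algebra k₀[X] E] [Algebra (RatFunc k₀) E] [IsScalarTower k₀ k₀[X] E]
  [IsScalarTower k₀[X] (RatFunc k₀) E]
  [Algebra k₀ K] [Algebra k₀[X] K] [Algebra (RatFunc k₀) K] [IsScalarTower k₀ k₀[X] K]
  [IsScalarTower k₀[X] (RatFunc k₀) K]
  [FiniteDimensional (RatFunc k₀) E] [Algebra.IsSeparable (RatFunc k₀) E]
  [FiniteDimensional (RatFunc k₀) K] [IsGalois (RatFunc k₀) K]
  {OE OK : Type*} [CommRing OE] [CommRing OK]
  [Algebra k₀ OE] [Algebra k₀[X] OE] [Algebra OE E] [IsScalarTower k₀ k₀[X] OE]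
  [IsScalarTower k₀[X] OE E] [IsIntegralClosure OE k₀[X] E]
  [Algebra k₀ OK] [Algebra k₀[X] OK] [Algebra OK K] [IsScalarTower k₀ k₀[X] OK]
  [IsScalarTower k₀[X] OK K] [IsIntegralClosure OK k₀[X] K]
  {L : Type*} [Field L] [Algebra k₀ L] [Algebra K L] [IsScalarTower k₀ K L] [IsAlgClosed L]
  [Algebra.IsAlgebraic K L]
  {k : Type*} [Field k] [Fintype k] [Algebra k₀ k] [Algebra k E] [IsScalarTower k₀ k E]
  [Algebra k L] [IsScalarTower k₀ k L]
  [IsDomain (L ⊗[k] E)] [Nonempty (GV k L)]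
  [Fintype (E →ₐ[RatFunc k₀] K)] {M : Type*} [AddCommGroup M] [Module (OK ⊗[k₀] OE) M]
  {τ : M →+ M} {d : (E →ₐ[RatFunc k₀] K) → ℕ}
  {ρ : OK ⊗[k₀] OE →+* FL k E L} {ε : ℕ → OK ⊗[k₀] OE}
  {μ : M →+ FL k E L} {f : FL k E L} {I : AddSubgroup (FL k E L)}

private theorem embB_reg (h : FF k (tE k₀ E)) (hρ : IsRho2 K ρ) (y : E →ₐ[k] L)
    (r : OK ⊗[k₀] OE) : MovGE (Pt.ofHom y) 0 (ρ r) :=
  movGE_of_val h (RA_val (A := AK OK K L) (t := tE k₀ E) (ValuationSubring.mem_top _)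
    ((hρ.mem_RA_iff _).2 ⟨r, rfl⟩))

private theorem embB_map (h : FF k (tE k₀ E)) (hρ : IsRho2 K ρ) (y : E →ₐ[k] L)
    (g : OK ⊗[k₀] OE →ₐ[k₀] OK ⊗[k₀] OE) {𝔞 : Ideal (OK ⊗[k₀] OE)} {n : ℤ}
    (H : EmbOI (ρ.comp g.toRingHom) (Pt.ofHom y) 𝔞 n) : EmbOI ρ (Pt.ofHom y) (𝔞.map g) n := by
  refine ⟨fun r hr => ?_, ?_⟩
  · refine Submodule.span_induction (p := fun r _ => MovGE (Pt.ofHom y) n (ρ r)) ?_ ?_ ?_ ?_ hr
    · rintro _ ⟨r, hr, rfl⟩
      exact H.1 r hr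
    · intro h0
      exact absurd (map_zero ρ) h0
    · intro x z _ _ hx hz
      rw [map_add]
      exact hx.add h hz
    · intro a x _ hx
      rw [smul_eq_mul, map_mul]
      simpa using (embB_reg h hρ y a).mul h hx
  · obtain ⟨r, hr, h1⟩ := H.2
    exact ⟨g r, Ideal.mem_map_of_mem g hr, h1⟩

theorem graph2 (h : FF k (tE k₀ E)) (hρ : IsRho2 K ρ) (a : ℕ) (y : E →ₐ[k] L)
    (φ : (E →ₐ[RatFunc k₀] K)) :
    EmbOI (ρ.comp ((sig k₀ OE OK) ^ a).toRingHom) (Pt.ofHom y) (graphIdeal OE OK φ)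
      (if IsLift k₀ φ a y then 1 else 0) := by
  obtain ⟨_, _, _, _, -, _, -, hs, -⟩ := exists_ext k₀ k E
  haveI := hs inferInstance
  have e : ∀ r, (ρ.comp ((sig k₀ OE OK) ^ a).toRingHom) r = ρ ((sig k₀ OE OK ^ a) r) :=
    fun _ => rfl
  split_ifs with hy
  · refine ⟨fun r hr => ?_, jj k₀ OE OK, jj_mem_graphIdeal φ, ?_⟩
    · rw [e]
      refine Submodule.span_induction
        (p := fun r _ => MovGE (Pt.ofHom y) 1 (ρ ((sig k₀ OE OK ^ a) r))) ?_ ?_ ?_ ?_ hr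
      · rintro r ⟨b, c, hc, rfl⟩ h0
        rw [hρ.map_gen] at h0 ⊢
        have h1 := Emb_val y (algebraMap OE E b)
          (algebraMap K L (algebraMap OK K c) ^ Fintype.card k₀ ^ a)
        rw [hy, ← hc, sub_self] at h1
        exact (hasVal_zero_iff h _ h0).1 h1
      · intro h0
        exact absurd (by rw [map_zero, map_zero]) h0
      · intro x z _ _ hx hz
        rw [map_add, map_add]
        exact hx.add h hz
      · intro b x _ hx
        rw [smul_eq_mul, map_mul, map_mul]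
        simpa using (embB_reg h hρ y _).mul h hx
    · rw [e, hρ.map_jj]
      refine ⟨sub_self_ne h _, ?_⟩
      have := ord_sub_self h y
      rwa [hy.map_t] at this
  · refine ⟨fun r _ => embB_reg h hρ y _, ?_⟩
    obtain ⟨b, c, hc, h2⟩ := not_lift OE OK hy
    refine ⟨_, Ideal.subset_span ⟨b, c, hc, rfl⟩, ?_⟩
    rw [e, hρ.map_gen]
    have h3 := Emb_val y (algebraMap OE E b)
      (algebraMap K L (algebraMap OK K c) ^ Fintype.card k₀ ^ a)
    have h4 := sub_ne_zero.2 h2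
    refine ⟨fun h0 => h4 ?_, ord_of_val h h3 h4⟩
    rw [h0] at h3
    exact h3.unique (hasVal_zero _)

theorem IsEmb2.span_ord (h : FF k (tE k₀ E)) (hρ : IsRho2 K ρ) (hM : IsCMMotive OE OK d τ)
    (hμ : IsEmb2 ρ (Module.finrank k₀ k) ε τ μ f I) (hl : Lat (AK OK K L) (tE k₀ E) I) (y : E →ₐ[k] L)
    (b : ℕ) :
    (∀ x ∈ (Submodule.span (OK ⊗[k₀] OE) (Set.range τ^[b])), μ x ≠ 0 →
        dv (tE k₀ E) I (Pt.ofHom y) + Dtot (legs2 k₀ k L d) b y ≤ ord (Pt.ofHom y) (μ x)) ∧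
      ∃ x ∈ (Submodule.span (OK ⊗[k₀] OE) (Set.range τ^[b])), μ x ≠ 0 ∧
        ord (Pt.ofHom y) (μ x) = dv (tE k₀ E) I (Pt.ofHom y) + Dtot (legs2 k₀ k L d) b y := by
  have ht : tE k₀ E ∈ (Pt.ofHom y).O := ValuationSubring.mem_top _
  induction b with
  | zero =>
    have e : Dtot (legs2 k₀ k L d) 0 y = 0 := by simp [Dtot]
    rw [e, add_zero]
    refine ⟨fun x _ h0 => hl.dv_le h ht (hμ.range ▸ ⟨x, rfl⟩) h0, ?_⟩
    obtain ⟨x, hx, h3, h4⟩ := hl.dv_attained h ht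
    rw [← hμ.range] at hx
    obtain ⟨m, rfl⟩ := hx
    exact ⟨m, Submodule.subset_span ⟨m, rfl⟩, h3, h4⟩
  | succ b ih =>
    obtain ⟨_, _, _, _, -, _, -, hs, -⟩ := exists_ext k₀ k E
    haveI := hs inferInstance
    have h0 : ∀ r, MovGE (Pt.ofHom y) 0 ((ρ.comp ((sig k₀ OE OK) ^ b).toRingHom) r) :=
      fun r => embB_reg h hρ y _
    have H := embB_map h hρ y _ (EmbOI.prod h h0 Finset.univ fun φ =>
      (graph2 h hρ b y φ).pow h h0 (d φ))
    have e : ∑ φ, (d φ : ℤ) * (if IsLift k₀ φ b y then 1 else 0) = legs2 k₀ k L d b y := by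
      rw [legs2_eq]
      exact Finset.sum_congr rfl fun φ _ => by rw [mul_ite, mul_one, mul_zero]
    have e' : dv (tE k₀ E) I (Pt.ofHom y) + Dtot (legs2 k₀ k L d) (b + 1) y =
        legs2 k₀ k L d b y + (dv (tE k₀ E) I (Pt.ofHom y) + Dtot (legs2 k₀ k L d) b y) := by
      rw [Dtot, Dtot, Finset.sum_range_succ, Finsupp.add_apply]
      ring
    rw [e] at H
    rw [e', span_succ hM]
    refine ⟨fun x hx => ?_, ?_⟩
    · refine Submodule.smul_induction_on (p := fun m => MovGE (Pt.ofHom y) (legs2 k₀ k L d b y +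
        (dv (tE k₀ E) I (Pt.ofHom y) + Dtot (legs2 k₀ k L d) b y)) (μ m)) hx
        (fun r hr m hm => ?_) fun a b ha hb => ?_
      · rw [hμ.smul]
        exact (H.1 r hr).mul h (ih.1 m hm)
      · rw [map_add]
        exact ha.add h hb
    · obtain ⟨r, hr, h1, h2⟩ := H.2
      obtain ⟨m, hm, h3, h4⟩ := ih.2
      refine ⟨r • m, Submodule.smul_mem_smul hr hm, ?_⟩
      rw [hμ.smul, ord_mul h _ h1 h3, h2, h4]
      exact ⟨mul_ne_zero h1 h3, rfl⟩

theorem IsEmb2.typeT (h : FF k (tE k₀ E)) (hρ : IsRho2 K ρ) (hM : IsCMMotive OE OK d τ)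
    (hμ : IsEmb2 ρ (Module.finrank k₀ k) ε τ μ f I) (hl : Lat (AK OK K L) (tE k₀ E) I) (y : E →ₐ[k] L) :
    dv (tE k₀ E) (tauLat (AK OK K L) (tE k₀ E) f I) (Pt.ofHom y) =
      dv (tE k₀ E) I (Pt.ofHom y) + Dtot (legs2 k₀ k L d) (Module.finrank k₀ k) y := by
  obtain ⟨h1, x, hx, h2⟩ := hμ.span_ord h hρ hM hl y (Module.finrank k₀ k)
  refine dv_eq_of (ValuationSubring.mem_top _) (fun z hz => ?_)
    ⟨μ x, (hμ.mem_tauLat hρ _).2 ⟨x, hx, rfl⟩, h2⟩
  obtain ⟨m, hm, rfl⟩ := (hμ.mem_tauLat hρ _).1 hz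
  exact h1 m hm

theorem IsEmb2.typeN (h : FF k (tE k₀ E)) (hρ : IsRho2 K ρ) (hM : IsCMMotive OE OK d τ)
    (hμ : IsEmb2 ρ (Module.finrank k₀ k) ε τ μ f I) (hl : Lat (AK OK K L) (tE k₀ E) I) (b : ℕ)
    (y : E →ₐ[k] L) :
    dv (tE k₀ E) (Nb k₀ OE OK τ μ b) (Pt.ofHom y) =
      dv (tE k₀ E) I (Pt.ofHom y) + Dle (legs2 k₀ k L d) b y := by
  obtain ⟨h1, x, hx, h2, h3⟩ := hμ.span_ord h hρ hM hl y (b + 1)
  have e : Dle (legs2 k₀ k L d) b = Dtot (legs2 k₀ k L d) (b + 1) := rfl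
  rw [e]
  refine dv_eq_of (ValuationSubring.mem_top _) ?_ ?_
  · rintro _ ⟨m, hm, rfl⟩
    refine h1 _ ?_
    refine Submodule.span_induction (p := fun m _ =>
      τ^[b] m ∈ Submodule.span (OK ⊗[k₀] OE) (Set.range τ^[b + 1])) ?_ ?_ ?_ ?_ hm
    · rintro _ ⟨m, rfl⟩
      exact Submodule.subset_span ⟨m, rfl⟩
    · rw [iterate_map_zero]
      exact zero_mem _
    · intro u v _ _ hu hv
      rw [iterate_map_add]
      exact add_mem hu hv
    · intro r u _ hu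
      rw [tau_iter hM]
      exact Submodule.smul_mem _ _ hu
  · by_contra H
    have h4 : MovGE (Pt.ofHom y)
        (dv (tE k₀ E) I (Pt.ofHom y) + Dtot (legs2 k₀ k L d) (b + 1) y + 1) (μ x) := by
      refine Submodule.span_induction (p := fun x _ => MovGE (Pt.ofHom y)
        (dv (tE k₀ E) I (Pt.ofHom y) + Dtot (legs2 k₀ k L d) (b + 1) y + 1) (μ x)) ?_ ?_ ?_ ?_ hx
      · rintro _ ⟨m, rfl⟩ h0
        refine Int.add_one_le_iff.2 (lt_of_le_of_ne (h1 _ (Submodule.subset_span ⟨m, rfl⟩) h0)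
          fun h5 => H ⟨_, ⟨τ m, Submodule.subset_span ⟨m, rfl⟩, rfl⟩, h0, h5.symm⟩)
      · intro h0
        exact absurd (map_zero μ) h0
      · intro u v _ _ hu hv
        rw [map_add]
        exact hu.add h hv
      · intro r u _ hu
        rw [hμ.smul]
        simpa using (embB_reg h hρ y r).mul h hu
    have h5 := h4 h2
    omega

private theorem embB_ht {t : E} {θ : L} (P : PD k θ) {φ : E →ₐ[k] L} {m : ℕ} (hφ : φ t = θ ^ m)
    (i : ℕ) : ht P t (Pt.ofHom (tw ((fr k L)⁻¹ ^ i) φ)) =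
      (m : ℝ) / (Fintype.card k : ℝ) ^ i * (Real.log (Fintype.card k) / dg k t) := by
  rw [← Pt.smul_ofHom, inv_pow, ← zpow_natCast, ← zpow_neg, ht_fr, ht_lev P hφ, zpow_neg,
    zpow_natCast]
  ring

theorem exists_scale2 {t : E} {θ : L} (h : FF k t) {g : ℕ} (hR : RR0 k t g) (P : PD k θ)
    {p l : ℕ} (hp : 1 < p) (hl : p ^ l = Fintype.card k) (c : (E →ₐ[k] L) →₀ ℤ) :
    ∃ s : FL k E L, s ≠ 0 ∧ ∀ b < l, ∀ y : E →ₐ[k] L, y t = θ ^ p ^ b → ∀ i : ℕ,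
      ord (Pt.ofHom (tw ((fr k L)⁻¹ ^ i) y)) s = c (tw ((fr k L)⁻¹ ^ i) y) := by
  induction c using Finsupp.induction_linear with
  | zero => exact ⟨1, one_ne_zero, fun b _ φ _ i => ord_one h _⟩
  | add c c' hc hc' =>
    obtain ⟨s, h1, h2⟩ := hc
    obtain ⟨s', h3, h4⟩ := hc'
    refine ⟨s * s', mul_ne_zero h1 h3, fun b hb φ hφ i => ?_⟩
    rw [ord_mul h _ h1 h3, h2 b hb φ hφ, h4 b hb φ hφ, Finsupp.add_apply]
  | single y n =>
    by_cases hy : ∃ a < l, ∃ χ : E →ₐ[k] L, χ t = θ ^ p ^ a ∧ ∃ j : ℕ, tw ((fr k L)⁻¹ ^ j) χ = y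
    · obtain ⟨a, ha, χ, hχ, j, rfl⟩ := hy
      obtain ⟨B, hB⟩ := moving h hR P
      obtain ⟨u, S, h1, -, h2, -, h3, h4⟩ := hB (tw ((fr k L)⁻¹ ^ j) χ)
        ((hom_fibre_finite h (θ ^ p ^ a)).toFinset.image (tw ((fr k L)⁻¹ ^ j)))
      refine ⟨u ^ n, zpow_ne_zero _ h1, fun b hb φ hφ i => ?_⟩
      have hq : (1 : ℝ) < Fintype.card k := by exact_mod_cast Fintype.one_lt_card
      have hS : tw ((fr k L)⁻¹ ^ i) φ ∉ S := by
        intro hS
        have h5 := h3 _ hS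
        have h6 : Real.log (Fintype.card k) / dg k t ≠ 0 :=
          div_ne_zero (Real.log_pos hq).ne' (by exact_mod_cast h.dg_pos.ne')
        rw [embB_ht P hφ, embB_ht P hχ, mul_left_inj' h6,
          div_eq_div_iff (by positivity) (by positivity)] at h5
        have h7 : p ^ b * Fintype.card k ^ j = p ^ a * Fintype.card k ^ i := by exact_mod_cast h5
        rw [← hl, ← pow_mul, ← pow_mul, ← pow_add, ← pow_add] at h7
        have h8 := Nat.pow_right_injective hp h7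
        have h9 := congrArg (· % l) h8
        simp only [Nat.add_mul_mod_self_left, Nat.mod_eq_of_lt ha, Nat.mod_eq_of_lt hb] at h9
        subst h9
        obtain rfl : j = i := Nat.eq_of_mul_eq_mul_left (by omega) (Nat.add_left_cancel h8)
        exact Finset.disjoint_left.1 h2 hS
          (Finset.mem_image_of_mem _ ((Set.Finite.mem_toFinset _).2 hφ))
      have hz : ∑ z ∈ S, (Finsupp.single z (1 : ℤ)) (tw ((fr k L)⁻¹ ^ i) φ) = 0 :=
        Finset.sum_eq_zero fun z hz => Finsupp.single_eq_of_ne fun e => hS (by rwa [e])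
      rw [ord_zpow h, ← divN_apply h, h4, Finsupp.add_apply, Finsupp.finsetSum_apply, hz, add_zero,
        Finsupp.single_apply, Finsupp.single_apply, mul_ite, mul_one, mul_zero]
    · refine ⟨1, one_ne_zero, fun b hb φ hφ i => ?_⟩
      rw [ord_one h, Finsupp.single_eq_of_ne fun e => hy ⟨b, hb, φ, hφ, i, e⟩]

theorem exists_sht2 (h : FF k (tE k₀ E)) {g : ℕ} (hR : RR0 k (tE k₀ E) g) (P : PD k (th k₀ K L))
    (hk : ∀ c : k, algebraMap k L c ∈ AK OK K L) (hρ : IsRho2 K ρ)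
    (hε : IsIdem ρ (Module.finrank k₀ k) ε) (hM : IsCMMotive OE OK d τ) :
    ∃ (μ : M →+ FL k E L) (f : FL k E L) (I : AddSubgroup (FL k E L)),
      IsEmb2 ρ (Module.finrank k₀ k) ε τ μ f I ∧
      Sht2 (AK OK K L) (tE k₀ E) (th k₀ K L) (Fintype.card k₀) (Module.finrank k₀ k) f I (legs2 k₀ k L d) ∧
      ∀ b < (Module.finrank k₀ k), Lev (AK OK K L) (tE k₀ E) (th k₀ K L) (Fintype.card k₀)
        (Module.finrank k₀ k) f I (legs2 k₀ k L d) b (AKp k₀ OK K L b) (Nb k₀ OE OK τ μ b) := by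
  obtain ⟨μ, f, I, hμ, hf, hl⟩ := exists_emb2 h hρ hε hM
  have hp : 1 < Fintype.card k₀ := Fintype.one_lt_card
  obtain ⟨s, hs, hc⟩ := exists_scale2 h hR P hp (card_pow k₀ k)
    (-dvN (tE k₀ E) I - Dtot (legs2 k₀ k L d) (Module.finrank k₀ k))
  obtain ⟨hl', hd⟩ := hl.scale h hs
  have hμ' := hμ.scale hs
  have hdv : ∀ b < Module.finrank k₀ k, ∀ φ : E →ₐ[k] L,
      φ (tE k₀ E) = th k₀ K L ^ Fintype.card k₀ ^ b → ∀ i : ℕ,
      dv (tE k₀ E) (I.map (AddMonoidHom.mulLeft s)) (Pt.ofHom (tw ((fr k L)⁻¹ ^ i) φ)) =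
        -Dtot (legs2 k₀ k L d) (Module.finrank k₀ k) (tw ((fr k L)⁻¹ ^ i) φ) := by
    intro b hb φ hφ i
    rw [hd _ (ValuationSubring.mem_top _), hc b hb φ hφ, Finsupp.sub_apply, Finsupp.neg_apply,
      hl.dvN_apply h]
    ring
  have hleg : ∀ a, ∀ y ∈ (legs2 k₀ k L d a).support,
      y (tE k₀ E) = th k₀ K L ^ Fintype.card k₀ ^ a := fun a y hy => by
    obtain ⟨φ, hφ⟩ := legs2_support d hy
    exact hφ.map_t
  refine ⟨_, _, _, hμ', ⟨P.trans, th_mem_AK, hk, hp, card_pow k₀ k,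
    div_ne_zero (mul_ne_zero hs hf) ((_root_.map_ne_zero _).2 hs), hl', hμ'.tau_le hρ,
    hμ'.pow hρ hM, hleg, hμ'.typeT h hρ hM hl', fun b hb φ hφ => ?_,
    fun b hb φ hφ i hi => ?_⟩, fun b hb => ⟨hb, AKp_le b, th_mem_AKp b, const_mem_AKp hk b,
    hμ'.Nb_lat h hρ hM hl' b, hμ'.Nb_le b, hμ'.Nb_tau hb, hμ'.typeN h hρ hM hl' b⟩⟩
  · have h1 := hdv b hb φ hφ 0
    have e : tw ((fr k L)⁻¹ ^ 0) φ = φ := rfl
    rw [e] at h1
    rw [hμ'.typeT h hρ hM hl', h1, neg_add_cancel]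
  · rw [hdv b hb φ hφ, neg_eq_zero]
    by_contra h1
    obtain ⟨a, -, h2⟩ := mem_support_sum (s := Finset.range (Module.finrank k₀ k))
      (Finsupp.mem_support_iff.2 h1)
    exact bk_t_ne2 P.trans hp (card_pow k₀ k) hb hφ hi a (hleg a _ h2)

end Pool.Agent.FFC
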