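import Pool.Agent.P.MP_a2beea_nt.FC.LatB
import Pool.Agent.P.MP_a2beea_nt.FC.LF
import Pool.Agent.P.MP_a2beea_nt.FC.CL

/-! The backward orbit. `far_formula`: `ε x = ∑_{z, red w z = x} c z`, use `ipt_far` for the finitely
many `z` in the support. `rec_step`: `local_formula` for `f`; at the finite points use
`Lat.dv_tau` and `ipt_fr`; among the points at infinity only `red w φ_i` contributes.
`dI_diff`: `Sht.type`, `Sht.dv_const`, `ipt_fr`, `ipt_comm`. -/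

open Polynomial
open scoped TensorProduct NNReal IntermediateField

namespace Pool.Agent.FFC

open Classical

variable {k : Type*} [Field k] [Fintype k] {E : Type*} [Field E] [Algebra k E] {t : E}
  {L : Type*} [Field L] [Algebra k L] [IsAlgClosed L]
  [IsDomain (L ⊗[k] E)]
  [Nonempty (GV k L)]
  {θ : L}
  {A : Subring L} {f : FL k E L} {I J : AddSubgroup (FL k E L)} {D : (E →ₐ[k] L) →₀ ℤ}

theorem far_formula (h : FF k t) (w : GV k L) {c : Pt k E L → ℝ}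
    (hc : (Function.support c).Finite) :
    ∃ (ε : Pt k E L → ℝ) (B : ℝ), (∀ x, |ε x| ≤ B) ∧ ∀ φ : E →ₐ[k] L, ∃ i0 : ℕ, ∀ i, i0 ≤ i →
      c (Pt.ofHom (tw ((fr k L)⁻¹ ^ i) φ)) = 0 ∧
      ∑ᶠ z, c z * ipt w (Pt.ofHom (tw ((fr k L)⁻¹ ^ i) φ)) z =
        ε (((fr k L)⁻¹ ^ i) • red w (Pt.ofHom φ)) * ipt w (Pt.ofHom φ) (red w (Pt.ofHom φ)) /
          (Fintype.card k : ℝ) ^ i := by
  refine ⟨fun x => ∑ z ∈ hc.toFinset, if red w z = x then c z else 0,
    ∑ z ∈ hc.toFinset, |c z|, fun x => ?_, fun φ => ?_⟩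
  · refine (Finset.abs_sum_le_sum_abs _ _).trans (Finset.sum_le_sum fun z _ => ?_)
    split_ifs
    · exact le_rfl
    · rw [abs_zero]
      exact abs_nonneg _
  · choose j hj using ipt_far h w φ
    refine ⟨hc.toFinset.sup j, fun i hi => ⟨?_, ?_⟩⟩
    · by_contra hne
      have hm : Pt.ofHom (tw ((fr k L)⁻¹ ^ i) φ) ∈ hc.toFinset := hc.mem_toFinset.2 hne
      exact (hj _ i ((Finset.le_sup hm).trans hi)).1 rfl
    · rw [finsum_eq_sum_of_support_subset (s := hc.toFinset) _ (fun z hz => by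
        rw [Set.Finite.coe_toFinset]
        exact left_ne_zero_of_mul hz), mul_div_assoc, Finset.sum_mul]
      refine Finset.sum_congr rfl fun z hz => ?_
      rw [(hj z i ((Finset.le_sup hz).trans hi)).2]
      split_ifs
      · rfl
      · rw [mul_zero, zero_mul]

theorem far_fin_ord (h : FF k t) (Γ : FL k E L) :
    (Function.support fun z : Pt k E L => (ord z Γ : ℝ)).Finite :=
  (ord_finite h Γ).subset fun _ hz => Int.cast_ne_zero.1 hz

theorem far_fin_dv (h : FF k t) (hl : Lat A t I) :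
    (Function.support fun z : Pt k E L => (dv t I z : ℝ)).Finite :=
  (hl.dv_finite h).subset fun _ hz => Int.cast_ne_zero.1 hz

omit [Fintype k] [IsAlgClosed L] [IsDomain (L ⊗[k] E)] [Nonempty (GV k L)] in
theorem far_fin_mul {c : Pt k E L → ℝ} (hc : (Function.support c).Finite) (g : Pt k E L → ℝ) :
    (Function.support fun z => c z * g z).Finite :=
  hc.subset fun _ hz => left_ne_zero_of_mul hz

theorem far_tendsto (h : FF k t) (w : GV k L) {Γ : FL k E L} (hΓ : Γ ≠ 0) (φ : E →ₐ[k] L) :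
    (∀ᶠ i : ℕ in Filter.atTop, ord (Pt.ofHom (tw ((fr k L)⁻¹ ^ i) φ)) Γ = 0) ∧
      Filter.Tendsto (fun i : ℕ => (w.v (val (Pt.ofHom (tw ((fr k L)⁻¹ ^ i) φ)) Γ) : ℝ)) Filter.atTop
        (nhds (gauss w Γ)) := by
  obtain ⟨ε, B, hB, H⟩ := far_formula h w (far_fin_ord h Γ)
  obtain ⟨i0, hi0⟩ := H φ
  have h0 : ∀ i, i0 ≤ i → ord (Pt.ofHom (tw ((fr k L)⁻¹ ^ i) φ)) Γ = 0 := fun i hi => by
    exact_mod_cast (hi0 i hi).1
  refine ⟨Filter.eventually_atTop.2 ⟨i0, h0⟩, ?_⟩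
  have hq : (1 : ℝ) < Fintype.card k := by exact_mod_cast Fintype.one_lt_card
  have hg : (0 : ℝ) < gauss w Γ := NNReal.coe_pos.2 (pos_iff_ne_zero.2 (gauss_ne_zero w hΓ))
  have t1 : Filter.Tendsto (fun i : ℕ => ε (((fr k L)⁻¹ ^ i) • red w (Pt.ofHom φ)) *
      ipt w (Pt.ofHom φ) (red w (Pt.ofHom φ)) / (Fintype.card k : ℝ) ^ i) Filter.atTop (nhds 0) := by
    have t0 : Filter.Tendsto (fun i : ℕ => B * |ipt w (Pt.ofHom φ) (red w (Pt.ofHom φ))| /
        (Fintype.card k : ℝ) ^ i) Filter.atTop (nhds 0) :=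
      tendsto_const_nhds.div_atTop (tendsto_pow_atTop_atTop_of_one_lt hq)
    refine squeeze_zero_norm (fun i => ?_) t0
    have hp : (0 : ℝ) < (Fintype.card k : ℝ) ^ i := by positivity
    rw [Real.norm_eq_abs, abs_div, abs_mul, abs_of_pos hp]
    exact div_le_div_of_nonneg_right (mul_le_mul_of_nonneg_right (hB _) (abs_nonneg _)) hp.le
  have t2 := (Real.continuous_exp.tendsto _).comp
    ((tendsto_const_nhds (x := Real.log (gauss w Γ))).sub t1)
  rw [sub_zero, Real.exp_log hg] at t2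
  refine t2.congr' (Filter.eventually_atTop.2 ⟨i0, fun i hi => ?_⟩)
  obtain ⟨c, c0, hc⟩ := (ord_eq_zero_iff h _ hΓ).1 (h0 i hi)
  have hv : (0 : ℝ) < w.v (val (Pt.ofHom (tw ((fr k L)⁻¹ ^ i) φ)) Γ) := by
    rw [hc.val_eq]
    exact NNReal.coe_pos.2 (pos_iff_ne_zero.2 ((Valuation.ne_zero_iff _).2 c0))
  have e := local_formula h w hΓ (h0 i hi)
  rw [(hi0 i hi).2] at e
  simp only [Function.comp_apply]
  rw [← Real.exp_log hv]
  congr 1
  linarith

theorem far_step (h : FF k t) (hl : Lat A t I) (w : GV k L) {Γ : FL k E L} (hΓ : Γ ≠ 0) :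
    ∃ ε : Pt k E L → ℝ, ∀ φ : E →ₐ[k] L, ∃ i0 : ℕ, ∀ i, i0 ≤ i →
      Real.log (w.v (val (Pt.ofHom (tw ((fr k L)⁻¹ ^ i) φ)) Γ)) - dI w t I (tw ((fr k L)⁻¹ ^ i) φ) =
        Real.log (gauss w Γ) -
          ε (((fr k L)⁻¹ ^ i) • red w (Pt.ofHom φ)) * ipt w (Pt.ofHom φ) (red w (Pt.ofHom φ)) /
            (Fintype.card k : ℝ) ^ i := by
  obtain ⟨ε, -, -, H⟩ := far_formula h w (far_fin_ord h Γ)
  obtain ⟨ε', -, -, H'⟩ := far_formula h w (far_fin_dv h hl)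
  refine ⟨fun x => ε x + ε' x, fun φ => ?_⟩
  obtain ⟨i0, hi0⟩ := H φ
  obtain ⟨i1, hi1⟩ := H' φ
  refine ⟨max i0 i1, fun i hi => ?_⟩
  obtain ⟨a1, a2⟩ := hi0 i ((le_max_left _ _).trans hi)
  obtain ⟨-, a3⟩ := hi1 i ((le_max_right _ _).trans hi)
  have e := local_formula h w hΓ (Int.cast_eq_zero.1 a1)
  rw [a2] at e
  rw [dI, a3, add_mul, add_div]
  linarith

theorem rec_step (h : FF k t) (hS : Sht A t θ f I D) (w : GV k L) (hw : 1 < w.v θ)
    {φ : E →ₐ[k] L} (hφ : φ t = θ) (i : ℕ) :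
    Real.log (w.v (val (Pt.ofHom (tw ((fr k L)⁻¹ ^ i) φ)) f)) =
      Real.log (gauss w f) - dI w t (tauLat A t f I) (tw ((fr k L)⁻¹ ^ i) φ) +
        Fintype.card k * dI w t I (tw ((fr k L)⁻¹ ^ (i + 1)) φ) -
        (ord (((fr k L)⁻¹ ^ i) • red w (Pt.ofHom φ)) f : ℝ) *
          ipt w (Pt.ofHom φ) (red w (Pt.ofHom φ)) / (Fintype.card k : ℝ) ^ i := by
  have e := local_formula h w hS.ne (hS.ord_f h hφ i)
  have hτ := hS.lat.tau hS.ne
  have f1 := far_fin_dv h hτ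
  have f2 : (Function.support fun z : Pt k E L => (dv t I ((fr k L)⁻¹ • z) : ℝ)).Finite :=
    (far_fin_dv h hS.lat).preimage (MulAction.injective (fr k L)⁻¹).injOn
  have f3 : (Function.support fun z : Pt k E L =>
      if t ∈ z.O then (0 : ℝ) else (ord z f : ℝ)).Finite := by
    refine (far_fin_ord h f).subset fun z hz h0 => hz ?_
    simp only [] at h0 ⊢
    rw [h0, ite_self]
  have e1 : ∀ z : Pt k E L, (ord z f : ℝ) * ipt w (Pt.ofHom (tw ((fr k L)⁻¹ ^ i) φ)) z =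
      ((dv t (tauLat A t f I) z : ℝ) * ipt w (Pt.ofHom (tw ((fr k L)⁻¹ ^ i) φ)) z -
        (dv t I ((fr k L)⁻¹ • z) : ℝ) * ipt w (Pt.ofHom (tw ((fr k L)⁻¹ ^ i) φ)) z) +
        (if t ∈ z.O then (0 : ℝ) else (ord z f : ℝ)) *
          ipt w (Pt.ofHom (tw ((fr k L)⁻¹ ^ i) φ)) z := by
    intro z
    by_cases hz : t ∈ z.O
    · rw [if_pos hz, hS.lat.dv_tau h hS.ne hz]
      push_cast
      ring
    · have hz' : t ∉ ((fr k L)⁻¹ • z).O := hz
      rw [if_neg hz, dv, dv, if_neg hz, if_neg hz']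
      push_cast
      ring
  have e2 : ∑ᶠ z : Pt k E L,
      (dv t I ((fr k L)⁻¹ • z) : ℝ) * ipt w (Pt.ofHom (tw ((fr k L)⁻¹ ^ i) φ)) z =
      Fintype.card k * dI w t I (tw ((fr k L)⁻¹ ^ (i + 1)) φ) := by
    rw [dI, mul_finsum,
      ← finsum_comp_equiv (MulAction.toPerm (fr k L))]
    refine finsum_congr fun z => ?_
    have := redmap_ipt_nat w 1 (Pt.ofHom (tw ((fr k L)⁻¹ ^ (i + 1)) φ)) z
    rw [pow_one, pow_one, bk_succ] at this
    simp only [MulAction.toPerm_apply, inv_smul_smul]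
    rw [this]
    ring
  have hx : t ∉ (red w (Pt.ofHom (tw ((fr k L)⁻¹ ^ i) φ))).O := by
    rw [red_bk, Pt.smul_O, red_O, mem_redO, Pt.ofHom_ev, hφ]
    exact fun hh => absurd hw (not_lt.2 hh.2)
  have e3 : ∑ᶠ z : Pt k E L, (if t ∈ z.O then (0 : ℝ) else (ord z f : ℝ)) *
      ipt w (Pt.ofHom (tw ((fr k L)⁻¹ ^ i) φ)) z =
      (ord (((fr k L)⁻¹ ^ i) • red w (Pt.ofHom φ)) f : ℝ) *
        ipt w (Pt.ofHom φ) (red w (Pt.ofHom φ)) / (Fintype.card k : ℝ) ^ i := by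
    rw [finsum_eq_single _ (red w (Pt.ofHom (tw ((fr k L)⁻¹ ^ i) φ))), if_neg hx, ipt_bk, red_bk,
      mul_div_assoc]
    intro z hz
    by_cases ht : t ∈ z.O
    · rw [if_pos ht, zero_mul]
    · have hO : z.O ≠ ⊤ := fun hO => ht (hO ▸ ValuationSubring.mem_top t)
      rw [ipt_of_red_ne (by rw [red_const h w hO]; exact hz.symm), mul_zero]
  rw [finsum_congr e1, finsum_add_distrib
    (((far_fin_mul f1 _).union (far_fin_mul f2 _)).subset (Function.support_sub _ _))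
    (far_fin_mul f3 _), finsum_sub_distrib (far_fin_mul f1 _) (far_fin_mul f2 _), e2, e3] at e
  rw [dI]
  linarith

theorem dI_diff (h : FF k t) (hS : Sht A t θ f I D) (w : GV k L) (φ : E →ₐ[k] L) (i : ℕ) :
    (Fintype.card k : ℝ) ^ i *
        (dI w t (tauLat A t f I) (tw ((fr k L)⁻¹ ^ i) φ) - dI w t I (tw ((fr k L)⁻¹ ^ i) φ)) =
      cL w D i φ := by
  have hτ := hS.lat.tau hS.ne
  rw [dI, dI, ← finsum_sub_distrib (far_fin_mul (far_fin_dv h hτ) _)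
    (far_fin_mul (far_fin_dv h hS.lat) _),
    finsum_eq_sum_of_support_subset (s := D.support.map ⟨Pt.ofHom, Pt.ofHom_injective⟩),
    Finset.sum_map, Finset.mul_sum, cL, Finsupp.sum]
  · refine Finset.sum_congr rfl fun χ _ => ?_
    have := redmap_ipt_nat w i (Pt.ofHom (tw ((fr k L)⁻¹ ^ i) φ)) (Pt.ofHom χ)
    rw [← Pt.smul_ofHom, inv_pow, smul_inv_smul, Pt.smul_ofHom (fr k L ^ i), ipt_comm,
      ← inv_pow, Pt.smul_ofHom] at this
    simp only [Function.Embedding.coeFn_mk]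
    rw [this, hS.type χ]
    push_cast
    ring
  · intro z hz
    by_cases hO : z.O = ⊤
    · obtain ⟨χ, rfl⟩ := z.eq_ofHom hO
      refine Finset.mem_coe.2 (Finset.mem_map.2 ⟨χ, Finsupp.mem_support_iff.2 fun h0 => hz ?_, rfl⟩)
      simp only [hS.type χ, h0, add_zero, sub_self]
    · refine absurd ?_ hz
      simp only [hS.dv_const h hO, sub_self]

end Pool.Agent.FFC
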