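import Pool.Agent.P.MP_a2beea_nt.FC.Far
import Pool.Agent.P.MP_a2beea_nt.FC.LatB2

/-! The backward orbit. Copy the proofs of `rec_step` and `dI_diff`. -/

open Polynomial
open scoped TensorProduct NNReal IntermediateField

namespace Pool.Agent.FFC

open Classical

variable {k : Type*} [Field k] [Fintype k] {E : Type*} [Field E] [Algebra k E] {t : E}
  {L : Type*} [Field L] [Algebra k L] [IsAlgClosed L]
  [IsDomain (L ⊗[k] E)]
  [Nonempty (GV k L)]
  {θ : L}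
  {A A' : Subring L} {f : FL k E L} {I J N : AddSubgroup (FL k E L)}
  {D : ℕ → (E →ₐ[k] L) →₀ ℤ} {p l b : ℕ} {y : E →ₐ[k] L}

theorem rec_step2 (h : FF k t) (hl : Lat A t I) (hf : f ≠ 0) (w : GV k L) (hw : 1 < w.v (y t))
    (i : ℕ) (h0 : ord (Pt.ofHom (tw ((fr k L)⁻¹ ^ i) y)) f = 0) :
    Real.log (w.v (val (Pt.ofHom (tw ((fr k L)⁻¹ ^ i) y)) f)) =
      Real.log (gauss w f) - dI w t (tauLat A t f I) (tw ((fr k L)⁻¹ ^ i) y) +
        Fintype.card k * dI w t I (tw ((fr k L)⁻¹ ^ (i + 1)) y) -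
        (ord (((fr k L)⁻¹ ^ i) • red w (Pt.ofHom y)) f : ℝ) * ipt w (Pt.ofHom y) (red w (Pt.ofHom y)) / (Fintype.card k : ℝ) ^ i := by
  have e := local_formula h w hf h0
  have hτ := hl.tau hf
  have f1 := far_fin_dv h hτ
  have f2 : (Function.support fun z : Pt k E L => (dv t I ((fr k L)⁻¹ • z) : ℝ)).Finite :=
    (far_fin_dv h hl).preimage (MulAction.injective (fr k L)⁻¹).injOn
  have f3 : (Function.support fun z : Pt k E L =>
      if t ∈ z.O then (0 : ℝ) else (ord z f : ℝ)).Finite := by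
    refine (far_fin_ord h f).subset fun z hz h0 => hz ?_
    simp only [] at h0 ⊢
    rw [h0, ite_self]
  have e1 : ∀ z : Pt k E L, (ord z f : ℝ) * ipt w (Pt.ofHom (tw ((fr k L)⁻¹ ^ i) y)) z =
      ((dv t (tauLat A t f I) z : ℝ) * ipt w (Pt.ofHom (tw ((fr k L)⁻¹ ^ i) y)) z -
        (dv t I ((fr k L)⁻¹ • z) : ℝ) * ipt w (Pt.ofHom (tw ((fr k L)⁻¹ ^ i) y)) z) +
        (if t ∈ z.O then (0 : ℝ) else (ord z f : ℝ)) *
          ipt w (Pt.ofHom (tw ((fr k L)⁻¹ ^ i) y)) z := by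
    intro z
    by_cases hz : t ∈ z.O
    · rw [if_pos hz, hl.dv_tau h hf hz]
      push_cast
      ring
    · have hz' : t ∉ ((fr k L)⁻¹ • z).O := hz
      rw [if_neg hz, dv, dv, if_neg hz, if_neg hz']
      push_cast
      ring
  have e2 : ∑ᶠ z : Pt k E L,
      (dv t I ((fr k L)⁻¹ • z) : ℝ) * ipt w (Pt.ofHom (tw ((fr k L)⁻¹ ^ i) y)) z =
      Fintype.card k * dI w t I (tw ((fr k L)⁻¹ ^ (i + 1)) y) := by
    rw [dI, mul_finsum,
      ← finsum_comp_equiv (MulAction.toPerm (fr k L))]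
    refine finsum_congr fun z => ?_
    have := redmap_ipt_nat w 1 (Pt.ofHom (tw ((fr k L)⁻¹ ^ (i + 1)) y)) z
    rw [pow_one, pow_one, bk_succ] at this
    simp only [MulAction.toPerm_apply, inv_smul_smul]
    rw [this]
    ring
  have hx : t ∉ (red w (Pt.ofHom (tw ((fr k L)⁻¹ ^ i) y))).O := by
    rw [red_bk, Pt.smul_O, red_O, mem_redO, Pt.ofHom_ev]
    exact fun hh => absurd hw (not_lt.2 hh.2)
  have e3 : ∑ᶠ z : Pt k E L, (if t ∈ z.O then (0 : ℝ) else (ord z f : ℝ)) *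
      ipt w (Pt.ofHom (tw ((fr k L)⁻¹ ^ i) y)) z =
      (ord (((fr k L)⁻¹ ^ i) • red w (Pt.ofHom y)) f : ℝ) *
        ipt w (Pt.ofHom y) (red w (Pt.ofHom y)) / (Fintype.card k : ℝ) ^ i := by
    rw [finsum_eq_single _ (red w (Pt.ofHom (tw ((fr k L)⁻¹ ^ i) y))), if_neg hx, ipt_bk, red_bk,
      mul_div_assoc]
    intro z hz
    by_cases ht : t ∈ z.O
    · rw [if_pos ht, zero_mul]
    · have hO : z.O ≠ ⊤ := fun hO => ht (hO ▸ ValuationSubring.mem_top t)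
      rw [ipt_of_red_ne (by rw [red_const h w hO]; exact hz.symm), mul_zero]
  rw [finsum_congr e1, finsum_add_distrib
    (((far_fin_mul f1 _).union (far_fin_mul f2 _)).subset (Function.support_sub _ _))
    (far_fin_mul f3 _), finsum_sub_distrib (far_fin_mul f1 _) (far_fin_mul f2 _), e2, e3] at e
  rw [dI]
  linarith

theorem dI_sub (h : FF k t) (hJ : Lat A t J) (hN : Lat A' t N) {X : (E →ₐ[k] L) →₀ ℤ}
    (h1 : ∀ z : E →ₐ[k] L, dv t J (Pt.ofHom z) = dv t N (Pt.ofHom z) + X z)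
    (h2 : ∀ z : Pt k E L, z.O ≠ ⊤ → dv t J z = dv t N z) (w : GV k L) (y : E →ₐ[k] L) (i : ℕ) :
    (Fintype.card k : ℝ) ^ i * (dI w t J (tw ((fr k L)⁻¹ ^ i) y) - dI w t N (tw ((fr k L)⁻¹ ^ i) y)) = cL w X i y := by
  rw [dI, dI, ← finsum_sub_distrib (far_fin_mul (far_fin_dv h hJ) _)
    (far_fin_mul (far_fin_dv h hN) _),
    finsum_eq_sum_of_support_subset (s := X.support.map ⟨Pt.ofHom, Pt.ofHom_injective⟩),
    Finset.sum_map, Finset.mul_sum, cL, Finsupp.sum]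
  · refine Finset.sum_congr rfl fun χ _ => ?_
    have := redmap_ipt_nat w i (Pt.ofHom (tw ((fr k L)⁻¹ ^ i) y)) (Pt.ofHom χ)
    rw [← Pt.smul_ofHom, inv_pow, smul_inv_smul, Pt.smul_ofHom (fr k L ^ i), ipt_comm,
      ← inv_pow, Pt.smul_ofHom] at this
    simp only [Function.Embedding.coeFn_mk]
    rw [this, h1 χ]
    push_cast
    ring
  · intro z hz
    by_cases hO : z.O = ⊤
    · obtain ⟨χ, rfl⟩ := z.eq_ofHom hO
      refine Finset.mem_coe.2 (Finset.mem_map.2 ⟨χ, Finsupp.mem_support_iff.2 fun h0 => hz ?_, rfl⟩)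
      simp only [h1 χ, h0, add_zero, sub_self]
    · refine absurd ?_ hz
      simp only [h2 z hO, sub_self]

theorem dI_diff2 (h : FF k t) (hS : Sht2 A t θ p l f I D) (w : GV k L) (y : E →ₐ[k] L) (i : ℕ) :
    (Fintype.card k : ℝ) ^ i * (dI w t (tauLat A t f I) (tw ((fr k L)⁻¹ ^ i) y) - dI w t I (tw ((fr k L)⁻¹ ^ i) y)) =
      cL w (Dtot D l) i y :=
  dI_sub h (hS.lat.tau hS.ne) hS.lat hS.type (fun _ hz => hS.dv_const h hz) w y i

theorem dI_diff_N (h : FF k t) (hS : Sht2 A t θ p l f I D) (hL : Lev A t θ p l f I D b A' N) (w : GV k L)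
    (y : E →ₐ[k] L) : dI w t (tauLat A t f I) y - dI w t N y = cL w (Dgt D l b) 0 y := by
  have := dI_sub h (hS.lat.tau hS.ne) hL.lat (hL.dv_tau hS)
    (fun _ hz => (hS.dv_const h hz).trans (hL.dv_const h hS hz).symm) w y 0
  rw [pow_zero, pow_zero, one_mul] at this
  exact this

end Pool.Agent.FFC
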