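import Pool.Agent.P.MP_a2beea_nt.FC.Defs3

/-! Two homomorphisms which agree on the invariants are conjugate. Suppose that for every `g` there
is `x_g` with `β x_g ≠ α (g • x_g)`. Put `x = ∑ x_g X ^ (index g)` in `B[X]`, on which `G` acts
through the coefficients. The polynomial `∏_g (Y - g • x)` has invariant coefficients, so `α`
and `β` (extended to `B[X] → Ω[X]`) map it to the same polynomial; `β x` is a root, so
`β x = α (g • x)` for some `g`; compare the coefficient of index `g`. -/

open Polynomial
open scoped TensorProduct NNReal IntermediateField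

namespace Pool.Agent.FFC

open Classical


theorem Gal0_point {G B Ω : Type*} [Group G] [Finite G] [CommRing B]
    [MulSemiringAction G B] [CommRing Ω] [IsDomain Ω] (α β : B →+* Ω)
    (h : ∀ x : B, (∀ g : G, g • x = x) → α x = β x) (x : B) : ∃ g : G, β x = α (g • x) := by
  have := Fintype.ofFinite G
  have e : (MulSemiringAction.charpoly G x).map α = (MulSemiringAction.charpoly G x).map β := by
    ext n
    rw [coeff_map, coeff_map]
    exact h _ fun g => MulSemiringAction.smul_coeff_charpoly x n g
  have h1 : ((MulSemiringAction.charpoly G x).map β).eval (β x) = 0 := by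
    rw [eval_map, eval₂_at_apply, MulSemiringAction.eval_charpoly, map_zero]
  rw [← e, MulSemiringAction.charpoly_eq, Polynomial.map_prod, eval_prod,
    Finset.prod_eq_zero_iff] at h1
  obtain ⟨g, -, hg⟩ := h1
  exact ⟨g, by simpa [sub_eq_zero] using hg⟩

theorem exists_smul_of_agree {G B Ω : Type*} [Group G] [Finite G] [CommRing B]
    [MulSemiringAction G B] [CommRing Ω] [IsDomain Ω] (α β : B →+* Ω)
    (h : ∀ x : B, (∀ g : G, g • x = x) → α x = β x) : ∃ g : G, ∀ x, β x = α (g • x) := by
  by_contra hc
  push Not at hc
  choose x hx using hc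
  have := Fintype.ofFinite G
  obtain ⟨e, he⟩ : ∃ e : G → ℕ, Function.Injective e := exists_injective_nat G
  have hco : ∀ (g : G) (p : B[X]) (n : ℕ), (g • p).coeff n = g • p.coeff n := fun g p n =>
    coeff_smul g p n
  obtain ⟨g, hg⟩ := Gal0_point (G := G) (mapRingHom α) (mapRingHom β) (fun p hp => by
    ext n
    rw [coe_mapRingHom, coe_mapRingHom, coeff_map, coeff_map]
    exact h _ fun g => by rw [← hco, hp]) (∑ g, monomial (e g) (x g))
  have h1 := congrArg (fun p => p.coeff (e g)) hg
  have h2 : (∑ g, monomial (e g) (x g)).coeff (e g) = x g := by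
    rw [finset_sum_coeff, Finset.sum_eq_single g]
    · simp
    · intro g' _ hg'
      rw [coeff_monomial, if_neg fun h' => hg' (he h')]
    · simp
  simp only [coe_mapRingHom, coeff_map, hco, h2] at h1
  exact hx g h1

end Pool.Agent.FFC
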