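import Pool.Agent.P.MP_a2beea_nt.FC.LF
import Pool.Agent.P.MP_a2beea_nt.FC.RedMap

/-! The ramification index. Let `x₀ = red w φ`, `β = w.rc θ = x₀.ev t`, `e = ord x₀ (1 ⊗ t - β ⊗ 1)`.
`disc_count` for `u = 1 ⊗ t - θ ⊗ 1`, `u₀ = 1 ⊗ t - β ⊗ 1` shows that `e` is the number of
points above `θ` in the disc of `x₀` (`ord_sub`; `u` has a nonzero value at the constant point
`x₀`, the only constant point of the disc). `β` is a simple root of `π`, so
`ord x₀ (1 ⊗ π(t)) = e`, and `local_formula` for `1 ⊗ π(t)` at `φ` gives the claim. -/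

open Polynomial
open scoped TensorProduct NNReal IntermediateField

namespace Pool.Agent.FFC

open Classical

variable {k : Type*} [Field k] [Fintype k] {E : Type*} [Field E] [Algebra k E] {t : E}
  {L : Type*} [Field L] [Algebra k L] [IsAlgClosed L]
  [IsDomain (L ⊗[k] E)]
  [Nonempty (GV k L)]
  {θ : L}

omit [Fintype k] [IsAlgClosed L] [IsDomain (L ⊗[k] E)] [Nonempty (GV k L)] in
/-- Constants as functions. -/
noncomputable def gal1C (k E L : Type*) [Field k] [Field E] [Algebra k E] [Field L] [Algebra k L] :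
    L →+* FL k E L :=
  (algebraMap (L ⊗[k] E) (FL k E L)).comp Algebra.TensorProduct.includeLeftRingHom

omit [Fintype k] [IsAlgClosed L] [IsDomain (L ⊗[k] E)] [Nonempty (GV k L)] in
theorem gal1C_apply (c : L) : gal1C k E L c = tm c 1 := rfl

omit [Nonempty (GV k L)] in
theorem gal1_tm_aeval (a : E) (P : k[X]) :
    (tm 1 (aeval a P) : FL k E L) = eval₂ (gal1C k E L) (tm 1 a) (P.map (algebraMap k L)) := by
  induction P using Polynomial.induction_on' with
  | add p q hp hq => rw [map_add, tm_add_right, Polynomial.map_add, eval₂_add, hp, hq]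
  | monomial n c =>
    have e : ∀ n : ℕ, (tm 1 (a ^ n) : FL k E L) = tm 1 a ^ n := fun n => by
      induction n with
      | zero => rw [pow_zero, pow_zero, tm_one]
      | succ n ih => rw [pow_succ, pow_succ, ← ih, tm_mul, one_mul]
    rw [aeval_monomial, Polynomial.map_monomial, eval₂_monomial, gal1C_apply, tm_alg, ← e, tm_mul,
      one_mul]

omit [Nonempty (GV k L)] in
theorem gal1_hasVal (p : Pt k E L) {a : E} (ha : a ∈ p.O) (Q : L[X]) :
    HasVal p (eval₂ (gal1C k E L) (tm 1 a) Q) (Q.eval (p.ev a)) := by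
  induction Q using Polynomial.induction_on' with
  | add p q hp hq => rw [eval₂_add, eval_add]; exact hp.add hq
  | monomial n c =>
    rw [eval₂_monomial, eval_monomial, gal1C_apply]
    have h1 := hasVal_tm p c (one_mem p.O)
    have h2 := hasVal_tm p (1 : L) ha
    rw [p.ev_one, mul_one] at h1
    rw [one_mul] at h2
    exact h1.mul (h2.pow n)

theorem gal1_ord (h : FF k t) {x : Pt k E L} (ht : t ∈ x.O) {π : k[X]} (hπ : Irreducible π)
    (h0 : aeval (x.ev t) π = 0) :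
    ord x (tm (1 : L) (aeval t π)) = ord x (tm 1 t - tm (x.ev t) 1 : FL k E L) := by
  have hs : (π.map (algebraMap k L)).Separable := (PerfectField.separable_of_irreducible hπ).map
  have hr : (π.map (algebraMap k L)).IsRoot (x.ev t) := by
    rw [IsRoot, eval_map_algebraMap, h0]
  obtain ⟨Q, hQ⟩ := dvd_iff_isRoot.2 hr
  have hQ0 : Q.eval (x.ev t) ≠ 0 := fun hq => by
    obtain ⟨R, hR⟩ := dvd_iff_isRoot.2 hq
    refine not_isUnit_X_sub_C (x.ev t) (hs.squarefree _ ⟨R, ?_⟩)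
    rw [hQ, hR, mul_assoc]
  have hv := gal1_hasVal x ht Q
  have hne : eval₂ (gal1C k E L) (tm 1 t) Q ≠ 0 := fun e =>
    hQ0 ((e ▸ hv).unique (hasVal_zero x))
  rw [gal1_tm_aeval, hQ, eval₂_mul, eval₂_sub, eval₂_X, eval₂_C, gal1C_apply,
    ord_mul h x (sub_self_ne h _) hne, ord_of_val h hv hQ0, add_zero]

theorem gal1_count (h : FF k t) (w : GV k L) (hθ : Transcendental k θ) {x : Pt k E L}
    (hx : x.O ≠ ⊤) (ht : t ∈ x.O) (hβ : w.v (θ - x.ev t) < 1) :
    ({χ : E →ₐ[k] L | χ t = θ ∧ red w (Pt.ofHom χ) = x}.ncard : ℤ) =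
      ord x (tm 1 t - tm (x.ev t) 1 : FL k E L) := by
  have halg := x.alg_of_const h hx t
  have e : ∀ c : L, algebraMap (L ⊗[k] E) (FL k E L) ((1 : L) ⊗ₜ[k] t - c ⊗ₜ[k] (1 : E)) =
      tm 1 t - tm c 1 := fun c => map_sub _ _ _
  have hc : ConstT ⊤ ((1 : L) ⊗ₜ[k] t - x.ev t ⊗ₜ[k] (1 : E)) := by
    refine ⟨2, ![1, -x.ev t], ![t, 1], fun _ => ValuationSubring.mem_top _, fun i => ?_, ?_⟩
    · fin_cases i
      · exact isAlgebraic_one
      · exact halg.neg
    · simp [TensorProduct.neg_tmul, sub_eq_add_neg]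
  have h0 : ((1 : L) ⊗ₜ[k] t - x.ev t ⊗ₜ[k] (1 : E)) ≠ 0 := fun h0 =>
    sub_self_ne h (x.ev t) (by rw [← e, h0, map_zero])
  have hlt : gT w (((1 : L) ⊗ₜ[k] t - θ ⊗ₜ[k] (1 : E)) -
      ((1 : L) ⊗ₜ[k] t - x.ev t ⊗ₜ[k] (1 : E))) < 1 := by
    rw [sub_sub_sub_cancel_left, ← TensorProduct.sub_tmul, gT_tmul w _ one_ne_zero,
      Valuation.map_sub_swap]
    exact hβ
  have hd := disc_count h w hx hc h0 hlt
  rw [e, e] at hd
  have hS : {χ : E →ₐ[k] L | χ t = θ ∧ red w (Pt.ofHom χ) = x}.Finite :=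
    (hom_fibre_finite h θ).subset fun χ hχ => hχ.1
  rw [← hd, finsum_mem_eq_sum_of_inter_support_eq _
    (t := hS.toFinset.map ⟨Pt.ofHom, Pt.ofHom_injective⟩), Finset.sum_map,
    Set.ncard_eq_toFinset_card _ hS, Finset.card_eq_sum_ones, Nat.cast_sum]
  · refine Finset.sum_congr rfl fun χ hχ => ?_
    rw [Function.Embedding.coeFn_mk, ord_sub h, if_pos (hS.mem_toFinset.1 hχ).1, Nat.cast_one]
  · ext z
    simp only [Set.mem_inter_iff, Set.mem_ofPred_eq, Function.mem_support, Finset.coe_map,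
      Set.mem_image, Function.Embedding.coeFn_mk, Set.Finite.coe_toFinset]
    refine and_congr_left fun hz => ⟨fun hr => ?_, ?_⟩
    · by_cases hz' : z.O = ⊤
      · obtain ⟨χ, rfl⟩ := z.eq_ofHom hz'
        refine ⟨χ, ⟨?_, hr⟩, rfl⟩
        by_contra hne
        exact hz (by rw [ord_sub h, if_neg hne])
      · rw [red_const h w hz'] at hr
        subst hr
        have hv := (hasVal_tm z (1 : L) ht).sub (hasVal_tm z θ (one_mem z.O))
        rw [z.ev_one, one_mul, mul_one] at hv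
        exact absurd (ord_of_val h hv (sub_ne_zero.2 fun e' => hθ (e' ▸ halg))) hz
    · rintro ⟨χ, hχ, rfl⟩
      exact hχ.2

theorem ncard_mul_ipt (h : FF k t) (w : GV k L) (hw : w.v θ ≤ 1) {φ : E →ₐ[k] L} (hφ : φ t = θ)
    {π : k[X]} (hπ : Irreducible π) (hlt : w.v (aeval θ π) < 1) :
    ({χ : E →ₐ[k] L | χ t = θ ∧ red w (Pt.ofHom χ) = red w (Pt.ofHom φ)}.ncard : ℝ) *
        ipt w (Pt.ofHom φ) (red w (Pt.ofHom φ)) = -Real.log (w.v (aeval θ π)) := by
  have hθ : Transcendental k θ := by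
    rw [← hφ]; exact fun ha => h.trans ((isAlgebraic_algHom_iff φ φ.injective).1 ha)
  have hx := red_ne_top h w (Pt.ofHom φ)
  have ht : t ∈ redO w (Pt.ofHom φ) := ⟨ValuationSubring.mem_top _, by rwa [Pt.ofHom_ev, hφ]⟩
  have hβ : (red w (Pt.ofHom φ)).ev t = w.rc θ := by rw [red_ev ht, Pt.ofHom_ev, hφ]
  obtain ⟨hm, he⟩ := (red w (Pt.ofHom φ)).ev_aeval ht π
  have hφπ : φ (aeval t π) = aeval θ π := by rw [← aeval_algHom_apply, hφ]
  have h0 : aeval ((red w (Pt.ofHom φ)).ev t) π = 0 := by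
    rw [← he, red_ev hm, Pt.ofHom_ev, hφπ]
    exact w.rc_eq isAlgebraic_zero (by rwa [sub_zero])
  have hc := gal1_count h w hθ hx ht (by rw [hβ]; exact w.rc_spec hw)
  rw [← gal1_ord h ht hπ h0] at hc
  have hne : aeval t π ≠ 0 := pts_aeval_ne h hπ.ne_zero
  have hl := local_formula h w (tm_ne_zero (one_ne_zero (α := L)) hne)
    (ord_tm_ofHom h φ 1 (aeval t π))
  rw [(hasVal_tm (Pt.ofHom φ) (1 : L) (ValuationSubring.mem_top (aeval t π))).val_eq, one_mul,
    Pt.ofHom_ev, hφπ, finsum_eq_single _ (red w (Pt.ofHom φ)), ← hc, tm, gauss_algebraMap,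
    gT_tmul w _ hne] at hl
  · rw [hl]; simp
  · intro z hz
    by_cases hz' : z.O = ⊤
    · obtain ⟨χ, rfl⟩ := z.eq_ofHom hz'
      rw [ord_tm_ofHom h, Int.cast_zero, zero_mul]
    · rw [ipt_of_red_ne (by rw [red_const h w hz']; exact hz.symm), mul_zero]

end Pool.Agent.FFC
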