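import Pool.Agent.P.MP_a2beea_nt.FC.Cent
import Pool.Agent.P.MP_a2beea_nt.FC.CL2

/-! The local intersection numbers at a finite place. `ncard_mul_ipt2`: copy `gal1_ord`,
`ncard_mul_ipt` from `Gal1` (only the separability of `π` is used). `gal_local2`: follow
`gal_local` in `Gal` (many auxiliary lemmas `Gal_*` there are about `k₀` only and can be used
with the valuation of `exists_down`). By `ipt_closer` for `a = π(t)` the left side is `λ y` or
`0`. The reductions of `σ ^ n x` and `y` agree iff `c ^ q₀ ^ N - c' ∈ 𝔓` for all `b ∈ O_E`,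
`c = χ b`, `c' = φ b` (`red_eq_iff`, `Pt.ext_OO`, `mem_OO2`, `fr_eq`). The points above
`θ ^ q₀ ^ b` are the lifts of the embeddings (`lift_surj`, `IsLift.inj`), an embedding with the
reduction of `φ` has a lift of level `b` (`exists_lift_of`: congruent constants are equal), and
`π(θ ^ q₀ ^ b) = π(θ) ^ q₀ ^ b`. `frob_no_lift`: `g` acts on the constant `χ c` as the
`q₀ ^ N`-th power (a nonzero constant of `OK` is a unit). -/

open Polynomial
open scoped TensorProduct NNReal IntermediateField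

namespace Pool.Agent.FFC

open Classical

variable {k₀ : Type*} [Field k₀] [Fintype k₀] {E K : Type*} [Field E] [Field K]
  [Algebra k₀ E] [Algebra k₀[X] E] [Algebra (RatFunc k₀) E] [IsScalarTower k₀ k₀[X] E]
  [IsScalarTower k₀[X] (RatFunc k₀) E]
  [Algebra k₀ K] [Algebra k₀[X] K] [Algebra (RatFunc k₀) K] [IsScalarTower k₀ k₀[X] K]
  [IsScalarTower k₀[X] (RatFunc k₀) K]
  [FiniteDimensional (RatFunc k₀) E] [Algebra.IsSeparable (RatFunc k₀) E]
  [FiniteDimensional (RatFunc k₀) K] [IsGalois (RatFunc k₀) K]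
  {OE OK : Type*} [CommRing OE] [CommRing OK]
  [Algebra k₀ OE] [Algebra k₀[X] OE] [Algebra OE E] [IsScalarTower k₀ k₀[X] OE]
  [IsScalarTower k₀[X] OE E] [IsIntegralClosure OE k₀[X] E]
  [Algebra k₀ OK] [Algebra k₀[X] OK] [Algebra OK K] [IsScalarTower k₀ k₀[X] OK]
  [IsScalarTower k₀[X] OK K] [IsIntegralClosure OK k₀[X] K]
  {L : Type*} [Field L] [Algebra k₀ L] [Algebra K L] [IsScalarTower k₀ K L] [IsAlgClosed L]
  [Algebra.IsAlgebraic K L]
  {k : Type*} [Field k] [Fintype k] [Algebra k₀ k] [Algebra k E] [IsScalarTower k₀ k E]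
  [Algebra k L] [IsScalarTower k₀ k L]
  [IsDomain (L ⊗[k] E)] [Nonempty (GV k L)]

set_option linter.unusedSectionVars false

theorem Gal2a_ord {t : E} (h : FF k t) {x : Pt k E L} (ht : t ∈ x.O) {π : k[X]}
    (hπ : π.Separable) (h0 : aeval (x.ev t) π = 0) :
    ord x (tm (1 : L) (aeval t π)) = ord x (tm 1 t - tm (x.ev t) 1 : FL k E L) := by
  have hs : (π.map (algebraMap k L)).Separable := hπ.map
  have hr : (π.map (algebraMap k L)).IsRoot (x.ev t) := by
    rw [IsRoot, eval_map_algebraMap, h0]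
  obtain ⟨Q, hQ⟩ := dvd_iff_isRoot.2 hr
  have hQ0 : Q.eval (x.ev t) ≠ 0 := fun hq => by
    obtain ⟨R, hR⟩ := dvd_iff_isRoot.2 hq
    refine not_isUnit_X_sub_C (x.ev t) (hs.squarefree _ ⟨R, ?_⟩)
    rw [hQ, hR, mul_assoc]
  have hv := gal1_hasVal x ht Q
  have hne : eval₂ (gal1C k E L) (tm 1 t) Q ≠ 0 := fun e =>
    hQ0 ((e ▸ hv).unique (hasVal_zero x))
  rw [gal1_tm_aeval, hQ, eval₂_mul, eval₂_sub, eval₂_X, eval₂_C, gal1C_apply,
    ord_mul h x (sub_self_ne h _) hne, ord_of_val h hv hQ0, add_zero]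

theorem ncard_mul_ipt2 {t : E} (h : FF k t) (w : GV k L) {c : L} (hw : w.v c ≤ 1)
    {y : E →ₐ[k] L} (hy : y t = c) {π : k[X]} (hπ : π.Separable) (hlt : w.v (aeval c π) < 1) :
    ({χ : E →ₐ[k] L | χ t = c ∧ red w (Pt.ofHom χ) = red w (Pt.ofHom y)}.ncard : ℝ) *
        ipt w (Pt.ofHom y) (red w (Pt.ofHom y)) = -Real.log (w.v (aeval c π)) := by
  have hθ : Transcendental k c := by
    rw [← hy]; exact fun ha => h.trans ((isAlgebraic_algHom_iff y y.injective).1 ha)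
  have hx := red_ne_top h w (Pt.ofHom y)
  have ht : t ∈ redO w (Pt.ofHom y) := ⟨ValuationSubring.mem_top _, by rwa [Pt.ofHom_ev, hy]⟩
  have hβ : (red w (Pt.ofHom y)).ev t = w.rc c := by rw [red_ev ht, Pt.ofHom_ev, hy]
  obtain ⟨hm, he⟩ := (red w (Pt.ofHom y)).ev_aeval ht π
  have hφπ : y (aeval t π) = aeval c π := by rw [← aeval_algHom_apply, hy]
  have h0 : aeval ((red w (Pt.ofHom y)).ev t) π = 0 := by
    rw [← he, red_ev hm, Pt.ofHom_ev, hφπ]
    exact w.rc_eq isAlgebraic_zero (by rwa [sub_zero])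
  have hc := gal1_count h w hθ hx ht (by rw [hβ]; exact w.rc_spec hw)
  rw [← Gal2a_ord h ht hπ h0] at hc
  have hne : aeval t π ≠ 0 := pts_aeval_ne h hπ.ne_zero
  have hl := local_formula h w (tm_ne_zero (one_ne_zero (α := L)) hne)
    (ord_tm_ofHom h y 1 (aeval t π))
  rw [(hasVal_tm (Pt.ofHom y) (1 : L) (ValuationSubring.mem_top (aeval t π))).val_eq, one_mul,
    Pt.ofHom_ev, hφπ, finsum_eq_single _ (red w (Pt.ofHom y)), ← hc, tm, gauss_algebraMap,
    gT_tmul w _ hne] at hl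
  · rw [hl]; simp
  · intro z hz
    by_cases hz' : z.O = ⊤
    · obtain ⟨χ, rfl⟩ := z.eq_ofHom hz'
      rw [ord_tm_ofHom h, Int.cast_zero, zero_mul]
    · rw [ipt_of_red_ne (by rw [red_const h w hz']; exact hz.symm), mul_zero]

theorem Gal2a_tw {χ : E →ₐ[RatFunc k₀] K} {a : ℕ} {x : E →ₐ[k] L} (hx : IsLift k₀ χ a x)
    (n : ℕ) : IsLift k₀ χ (Module.finrank k₀ k * n + a) (tw (fr k L ^ n) x) := fun u => by
  change (fr k L ^ n) (x u) = _
  rw [fr_pow_apply, hx u, ← card_pow k₀ k, ← pow_mul, ← pow_mul, ← pow_add, add_comm]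

theorem Gal2a_rel (h : FF k (tE k₀ E)) (w : GV k L) (hw : w.v (th k₀ K L) ≤ 1)
    {χ φ : E →ₐ[RatFunc k₀] K} {b N : ℕ} {x y : E →ₐ[k] L} (hx : IsLift k₀ χ (N + b) x)
    (hy : IsLift k₀ φ b y) :
    red w (Pt.ofHom x) = red w (Pt.ofHom y) ↔ GalRel (cent OK K w.v) N χ φ := by
  have hle : ∀ {ψ : E →ₐ[RatFunc k₀] K} {m : ℕ} {z : E →ₐ[k] L}, IsLift k₀ ψ m z →
      ∀ (u : E) (c : OK), algebraMap OK K c = ψ u → u ∈ redO w (Pt.ofHom z) :=
    fun {ψ m z} hz u c hc => ⟨ValuationSubring.mem_top u, by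
      rw [Pt.ofHom_ev, hz u, ← hc, map_pow]
      exact pow_le_one₀ zero_le (AK_le_one2 (OK := OK) w hw ⟨c, rfl⟩)⟩
  have hd : ∀ (u : E) (c c' : OK), algebraMap OK K c = χ u → algebraMap OK K c' = φ u →
      (w.v (x u - y u) < 1 ↔ c' - c ^ Fintype.card k₀ ^ N ∈ cent OK K w.v) := by
    intro u c c' hc hc'
    rw [mem_cent w hw, map_sub (algebraMap OK K), map_sub (algebraMap K L), map_pow, map_pow,
      hx u, hy u, ← hc, ← hc', pow_add, pow_mul, ← fr_pow_apply b, ← fr_pow_apply b,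
      ← map_sub (fr k₀ L ^ b), fr_pow_apply, map_pow,
      pow_lt_one_iff (pow_ne_zero b Fintype.card_ne_zero), Valuation.map_sub_swap]
  have ht : ∀ {ψ : E →ₐ[RatFunc k₀] K} {m : ℕ} {z : E →ₐ[k] L}, IsLift k₀ ψ m z →
      tE k₀ E ∈ redO w (Pt.ofHom z) := fun {ψ m z} hz => ⟨ValuationSubring.mem_top _, by
    rw [Pt.ofHom_ev, hz.map_t, map_pow]
    exact pow_le_one₀ zero_le hw⟩
  constructor
  · intro he u c c' hc hc'
    exact (hd u c c' hc hc').1 (((red_eq_iff w _ _).1 he).2 u (hle hx u c hc))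
  · intro hR
    refine Pt.ext_OO h (ht hx) (ht hy) fun u hu => ?_
    have hex : ∀ ψ : E →ₐ[RatFunc k₀] K, ∃ c : OK, algebraMap OK K c = ψ u := fun ψ => by
      obtain ⟨c, hc⟩ := emb_mem_AK (OK := OK) (L := L) ψ ((OO2 u).1 hu)
      exact ⟨c, (algebraMap K L).injective hc⟩
    obtain ⟨c, hc⟩ := hex χ
    obtain ⟨c', hc'⟩ := hex φ
    rw [red_ev (hle hx u c hc), red_ev (hle hy u c' hc'), Pt.ofHom_ev, Pt.ofHom_ev]
    refine w.rc_eq (w.rc_alg _) ?_
    rw [← sub_add_sub_cancel _ (y u)]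
    exact (w.v.map_add _ _).trans_lt
      (max_lt ((hd u c c' hc hc').2 (hR u c c' hc hc')) (w.rc_spec (hle hy u c' hc').2))

theorem Gal2a_const {𝔓 : Ideal OK} (hP : 𝔓 ≠ ⊤) {χ φ : E →ₐ[RatFunc k₀] K} {N : ℕ}
    (hR : GalRel 𝔓 N χ φ) (c : k) :
    φ (algebraMap k E c) = χ (algebraMap k E c) ^ Fintype.card k₀ ^ N := by
  have := Bridge_tower (k := k₀) E
  have := Bridge_tower (k := k₀) K
  have hint : ∀ z : K, IsAlgebraic k₀ z → ∃ e : OK, algebraMap OK K e = z := fun z hz =>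
    IsIntegralClosure.isIntegral_iff.1 (hz.isIntegral.tower_top (A := k₀[X]))
  have halg : ∀ ψ : E →ₐ[RatFunc k₀] K, IsAlgebraic k₀ (ψ (algebraMap k E c)) := fun ψ =>
    ((Algebra.IsAlgebraic.isAlgebraic (R := k₀) c).algebraMap (A := E)).algHom
      (ψ.restrictScalars k₀)
  obtain ⟨e, he⟩ := hint _ (halg χ)
  obtain ⟨e', he'⟩ := hint _ (halg φ)
  obtain ⟨d, hd⟩ := hint _ ((halg φ).sub ((halg χ).pow (Fintype.card k₀ ^ N))).inv
  by_contra hne
  refine hP (𝔓.eq_top_of_isUnit_mem (hR _ e e' he he') (IsUnit.of_mul_eq_one d ?_))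
  apply IsIntegralClosure.algebraMap_injective OK k₀[X] K
  rw [map_mul, map_sub, map_pow, he, he', hd, mul_inv_cancel₀ (sub_ne_zero.2 hne), map_one]

variable (OK) in
theorem gal_local2 (h : FF k (tE k₀ E)) (w : GV k L) (hw : w.v (th k₀ K L) ≤ 1) {π : FinPl k₀}
    (hπ : w.v (aeval (th k₀ K L) π.1) < 1) {χ φ : (E →ₐ[RatFunc k₀] K)} {a b n N : ℕ}
    {x y : E →ₐ[k] L} (hx : IsLift k₀ χ a x) (hy : IsLift k₀ φ b y) (hN : 1 ≤ N)
    (he : N + b = (Module.finrank k₀ k) * n + a) :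
    ipt w (Pt.ofHom (tw (fr k L ^ n) x)) (Pt.ofHom y) =
      if π.1.natDegree ∣ N then
        (Fintype.card k₀ : ℝ) ^ b * -Real.log (w.v (aeval (th k₀ K L) π.1)) *
          (({g ∈ frobSet k₀ K (cent OK K w.v) N | g.toAlgHom.comp χ = φ}.ncard : ℝ) /
            (frobSet k₀ K (cent OK K w.v) N).ncard)
      else 0 := by
  have hP := cent_isMaximal OK w hw
  have hπ' := pi_mem_cent (OK := OK) w hw hπ
  have hx' := Gal2a_tw hx n
  rw [← he] at hx'
  generalize tw (fr k L ^ n) x = x' at hx'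
  have hq : 1 < Fintype.card k₀ := Fintype.one_lt_card
  have hev : ∀ {ψ : E →ₐ[RatFunc k₀] K} {m : ℕ} {z : E →ₐ[k] L}, IsLift k₀ ψ m z →
      w.v (z (algebraMap k₀[X] E π.1)) = w.v (aeval (th k₀ K L) π.1) ^ Fintype.card k₀ ^ m := by
    intro ψ m z hz
    rw [hz, map_pow, aeval_algebraMap_apply, Bridge_aeval]
    exact congrArg (fun u => w.v (algebraMap K L u) ^ Fintype.card k₀ ^ m)
      ((ψ.restrictScalars k₀[X]).commutes π.1)
  have h0 : 0 < w.v (aeval (th k₀ K L) π.1) := (Valuation.pos_iff _).2 fun e =>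
    th_trans (k := k₀) (K := K) (L := L) ⟨π.1, π.2.2.ne_zero, e⟩
  rw [ipt_closer h w (a := algebraMap k₀[X] E π.1)
    (by rw [hev hx', hev hy]
        exact pow_lt_pow_right_of_lt_one₀ h0 hπ (Nat.pow_lt_pow_right hq (by omega)))
    (by rw [hev hy]
        exact pow_lt_one₀ zero_le hπ (pow_ne_zero b Fintype.card_ne_zero))]
  by_cases hc : red w (Pt.ofHom x') = red w (Pt.ofHom y)
  · have hd : π.1.natDegree ∣ N := Gal_dvd hP hπ' ((Gal2a_rel h w hw hx' hy).mp hc)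
    rw [if_pos hc, if_pos hd]
    have hS : 0 < (frobSet k₀ K (cent OK K w.v) N).ncard :=
      (Set.ncard_pos (Set.toFinite _)).mpr (frobSet_nonempty hP hπ' hd)
    have hex : ∀ g ∈ frobSet k₀ K (cent OK K w.v) N,
        ∃ z : E →ₐ[k] L, IsLift k₀ (g.toAlgHom.comp χ) b z := fun g hg =>
      exists_lift_of _ b fun c => by
        rw [Gal2a_const hP.ne_top (Gal_rel_of_mem hg χ), map_pow, ← pow_mul, ← pow_add, ← hx',
          x'.commutes]
    have : Nonempty (E →ₐ[k] L) := ⟨y⟩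
    choose! f hf using hex
    have hcount := Gal_count (frobSet k₀ K (cent OK K w.v) N)
      {z : E →ₐ[k] L | z (tE k₀ E) = th k₀ K L ^ Fintype.card k₀ ^ b ∧
        red w (Pt.ofHom z) = red w (Pt.ofHom y)} f
      {g ∈ frobSet k₀ K (cent OK K w.v) N | g.toAlgHom.comp χ = φ}.ncard
      (fun g hg => ⟨(hf g hg).map_t, by
        rw [← hc]
        exact ((Gal2a_rel h w hw hx' (hf g hg)).mpr (Gal_rel_of_mem hg χ)).symm⟩)
      ((hom_fibre_finite h _).subset fun z hz => hz.1)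
      (fun z hz => by
        obtain ⟨φ', hφ'⟩ := lift_surj φ hz.1
        have hR := (Gal2a_rel (OK := OK) h w hw (N := 0) (by rwa [zero_add]) hy).mp hz.2
        obtain ⟨τ, hτ, rfl⟩ := exists_inertia (φ := φ) (χ := φ') hP.isPrime
          (fun a c c' hc hc' => by simpa using hR a c' c hc' hc)
        rw [← Gal_fibre hτ χ φ]
        congr 1
        ext g
        refine and_congr_right fun hg => ⟨fun e => (hf g hg).inj (by rwa [e]), fun e => ?_⟩
        exact (hf g hg).unique (by rwa [e]))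
    have hπb : aeval (th k₀ K L ^ Fintype.card k₀ ^ b) (π.1.map (algebraMap k₀ k)) =
        aeval (th k₀ K L) π.1 ^ Fintype.card k₀ ^ b := by
      rw [aeval_map_algebraMap, ← fr_pow_apply b, ← fr_pow_apply b, aeval_algHom_apply]
    have he := ncard_mul_ipt2 h w (by rw [map_pow]; exact pow_le_one₀ zero_le hw) hy.map_t
      (π := π.1.map (algebraMap k₀ k)) (PerfectField.separable_of_irreducible π.2.2).map
      (by rw [hπb, map_pow]
          exact pow_lt_one₀ zero_le hπ (pow_ne_zero b Fintype.card_ne_zero))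
    rw [hπb, map_pow, NNReal.coe_pow, Real.log_pow, Nat.cast_pow, neg_mul_eq_mul_neg] at he
    have hS' : ((frobSet k₀ K (cent OK K w.v) N).ncard : ℝ) ≠ 0 := by exact_mod_cast hS.ne'
    rw [← he, mul_div_assoc', eq_div_iff hS', hcount]
    push_cast
    ring
  · rw [if_neg hc]
    split_ifs with hd
    · have : {g ∈ frobSet k₀ K (cent OK K w.v) N | g.toAlgHom.comp χ = φ} = ∅ := by
        ext g
        simp only [Set.mem_ofPred_eq, Set.mem_empty_iff_false, iff_false, not_and]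
        rintro hg rfl
        exact hc ((Gal2a_rel h w hw hx' hy).mpr (Gal_rel_of_mem hg χ))
      rw [this, Set.ncard_empty, Nat.cast_zero, zero_div, mul_zero]
    · rfl

theorem frob_no_lift {𝔓 : Ideal OK} (hP : 𝔓 ≠ ⊤) {χ φ : (E →ₐ[RatFunc k₀] K)} {a b n N : ℕ}
    {y : E →ₐ[k] L} (hy : IsLift k₀ φ b y) (he : N + b = (Module.finrank k₀ k) * n + a)
    {g : (K ≃ₐ[RatFunc k₀] K)} (hg : g ∈ frobSet k₀ K 𝔓 N) (hgχ : g.toAlgHom.comp χ = φ) :
    ∃ x : E →ₐ[k] L, IsLift k₀ χ a x := by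
  subst hgχ
  refine exists_lift_of χ a fun c => (fr k L ^ n).injective ?_
  rw [AlgEquiv.commutes, fr_pow_apply, ← y.commutes, hy, Gal2a_const hP (Gal_rel_of_mem hg χ),
    map_pow, ← card_pow k₀ k, ← pow_mul, ← pow_mul, ← pow_mul, ← pow_add, ← pow_add, he, add_comm]

end Pool.Agent.FFC
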