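import Pool.Agent.P.MP_a2beea_nt.FC.Two1
import Pool.Agent.P.MP_a2beea_nt.FC.Cent

/-! Transfer between the two fields of constants. `OK` is a Dedekind domain
(`IsIntegralClosure.isDedekindDomain`). Let `span {c} = ∏ 𝔭_i` (`UniqueFactorizationMonoid.factors`).
For `w` with `w θ ≤ 1` the size `supS w 𝔞` of an ideal is multiplicative (it is attained, see the
lemmas `normI_*` of `Norm`), equals `w c` for `span {c}`, and equals `1` for a maximal ideal
`𝔭 ≠ cent w` (`mem_cent`, `cent_isMaximal`). So the integrand is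
`∑_i Ψ 𝔭_i * (- log supS w 𝔭_i)`, and by `norm_ideal2`
`n * Ifin = l * ∑_i Ψ 𝔭_i * log card (OK / 𝔭_i)`. Use this for `k` and for `k := k₀`
(`alg_mem_AK`, `Module.finrank_self`). -/

open Polynomial
open scoped TensorProduct NNReal IntermediateField

namespace Pool.Agent.FFC

open Classical

section Aux

variable {k K OK L : Type*} [Field k] [Field K] [CommRing OK] [Field L] [Algebra OK K] [Algebra K L]
  [Algebra k L]

theorem Trans_apply (w : GV k L) (c : OK) :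
    normV K OK w c = w.v (algebraMap K L (algebraMap OK K c)) := rfl

theorem Trans_add (w : GV k L) (x y : OK) :
    normV K OK w (x + y) ≤ max (normV K OK w x) (normV K OK w y) := by
  simp only [Trans_apply, map_add]
  exact w.v.map_add _ _

theorem Trans_sup (w : GV k L) {𝔞 : Ideal OK} {a : OK} (ha : a ∈ 𝔞)
    (h : ∀ x ∈ 𝔞, normV K OK w x ≤ normV K OK w a) :
    supS w ((fun c => algebraMap K L (algebraMap OK K c)) '' 𝔞) = normV K OK w a := by
  refine IsGreatest.csSup_eq ⟨⟨_, ⟨a, ha, rfl⟩, rfl⟩, ?_⟩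
  rintro _ ⟨_, ⟨x, hx, rfl⟩, rfl⟩
  exact h x hx

end Aux

variable {k₀ : Type*} [Field k₀] [Fintype k₀] {E K : Type*} [Field E] [Field K]
  [Algebra k₀ E] [Algebra k₀[X] E] [Algebra (RatFunc k₀) E] [IsScalarTower k₀ k₀[X] E]
  [IsScalarTower k₀[X] (RatFunc k₀) E]
  [Algebra k₀ K] [Algebra k₀[X] K] [Algebra (RatFunc k₀) K] [IsScalarTower k₀ k₀[X] K]
  [IsScalarTower k₀[X] (RatFunc k₀) K]
  [FiniteDimensional (RatFunc k₀) E] [Algebra.IsSeparable (RatFunc k₀) E]
  [FiniteDimensional (RatFunc k₀) K] [IsGalois (RatFunc k₀) K]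
  {OE OK : Type*} [CommRing OE] [CommRing OK]
  [Algebra k₀ OE] [Algebra k₀[X] OE] [Algebra OE E] [IsScalarTower k₀ k₀[X] OE]
  [IsScalarTower k₀[X] OE E] [IsIntegralClosure OE k₀[X] E]
  [Algebra k₀ OK] [Algebra k₀[X] OK] [Algebra OK K] [IsScalarTower k₀ k₀[X] OK]
  [IsScalarTower k₀[X] OK K] [IsIntegralClosure OK k₀[X] K]
  {L : Type*} [Field L] [Algebra k₀ L] [Algebra K L] [IsScalarTower k₀ K L] [IsAlgClosed L]
  [Algebra.IsAlgebraic K L]
  {k : Type*} [Field k] [Fintype k] [Algebra k₀ k] [Algebra k E] [IsScalarTower k₀ k E]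
  [Algebra k L] [IsScalarTower k₀ k L]

theorem Trans_max (w : GV k L) (hw : w.v (th k₀ K L) ≤ 1) (𝔞 : Ideal OK) :
    ∃ a ∈ 𝔞, ∀ x ∈ 𝔞, normV K OK w x ≤ normV K OK w a := by
  have : IsNoetherianRing OK := IsIntegralClosure.isNoetherianRing k₀[X] (RatFunc k₀) K OK
  obtain ⟨s, rfl⟩ := IsNoetherian.noetherian 𝔞
  obtain ⟨a, ha, -, h⟩ := normI_exists_max (normV K OK w)
    (fun c => AK_le_one2 (OK := OK) (K := K) w hw ⟨c, rfl⟩) (Trans_add w) s
  exact ⟨a, ha, h⟩

theorem Trans_ne (w : GV k L) (hw : w.v (th k₀ K L) ≤ 1) {𝔞 : Ideal OK} (ha : 𝔞 ≠ ⊥) :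
    supS w ((fun c => algebraMap K L (algebraMap OK K c)) '' 𝔞) ≠ 0 := by
  obtain ⟨a, h1, h2⟩ := Trans_max w hw 𝔞
  obtain ⟨x, hx, hx0⟩ := (Submodule.ne_bot_iff _).1 ha
  rw [Trans_sup w h1 h2]
  intro h0
  have h3 := h2 x hx
  rw [h0, nonpos_iff_eq_zero, Trans_apply, map_eq_zero, map_eq_zero,
    map_eq_zero_iff _ (IsIntegralClosure.algebraMap_injective OK k₀[X] K)] at h3
  exact hx0 h3

theorem Trans_mul (w : GV k L) (hw : w.v (th k₀ K L) ≤ 1) (𝔞 𝔟 : Ideal OK) :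
    supS w ((fun c => algebraMap K L (algebraMap OK K c)) '' (𝔞 * 𝔟 : Ideal OK)) =
      supS w ((fun c => algebraMap K L (algebraMap OK K c)) '' 𝔞) *
        supS w ((fun c => algebraMap K L (algebraMap OK K c)) '' 𝔟) := by
  obtain ⟨a, h1, h2⟩ := Trans_max w hw 𝔞
  obtain ⟨b, h3, h4⟩ := Trans_max w hw 𝔟
  rw [Trans_sup w h1 h2, Trans_sup w h3 h4,
    Trans_sup w (Ideal.mul_mem_mul h1 h3), map_mul]
  intro x hx
  rw [map_mul]
  refine Submodule.mul_induction_on hx (fun y hy z hz => ?_) fun y z hy hz =>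
    (Trans_add w y z).trans (max_le hy hz)
  rw [map_mul]
  exact mul_le_mul' (h2 y hy) (h4 z hz)

theorem Trans_span (w : GV k L) (hw : w.v (th k₀ K L) ≤ 1) (c : OK) :
    supS w ((fun c => algebraMap K L (algebraMap OK K c)) '' (Ideal.span {c} : Ideal OK)) =
      w.v (algebraMap K L (algebraMap OK K c)) := by
  refine Trans_sup w (Ideal.mem_span_singleton_self c) fun x hx => ?_
  obtain ⟨y, rfl⟩ := Ideal.mem_span_singleton'.1 hx
  rw [map_mul]
  exact mul_le_of_le_one_left' (AK_le_one2 (OK := OK) (K := K) w hw ⟨y, rfl⟩)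

theorem Trans_one (w : GV k L) (hw : w.v (th k₀ K L) ≤ 1) {𝔞 : Ideal OK}
    (h : ¬ 𝔞 ≤ cent OK K w.v) :
    supS w ((fun c => algebraMap K L (algebraMap OK K c)) '' 𝔞) = 1 := by
  obtain ⟨x, hx, hx'⟩ := SetLike.not_le_iff_exists.1 h
  have h1 : ∀ y : OK, normV K OK w y ≤ 1 :=
    fun y => AK_le_one2 (OK := OK) (K := K) w hw ⟨y, rfl⟩
  rw [mem_cent w hw, not_lt] at hx'
  have h2 : normV K OK w x = 1 := le_antisymm (h1 x) hx'
  rw [Trans_sup w hx (fun y _ => h2 ▸ h1 y), h2]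

theorem Trans_prod (hk : ∀ c : k, algebraMap k L c ∈ AK OK K L) (P : PD k (th k₀ K L))
    (Ψ : Ideal OK → ℝ) (s : Multiset (Ideal OK)) (hs : ∀ 𝔭 ∈ s, 𝔭.IsMaximal ∧ 𝔭 ≠ ⊥) :
    AdmF (fun v η => -Real.log (supS (P.W v η)
        ((fun c => algebraMap K L (algebraMap OK K c)) '' (s.prod : Ideal OK))) *
          Ψ (cent OK K (P.W v η).v)) ∧
      (Module.finrank (RatFunc k₀) K : ℝ) * Ifin (fun v η => -Real.log (supS (P.W v η)
        ((fun c => algebraMap K L (algebraMap OK K c)) '' (s.prod : Ideal OK))) *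
          Ψ (cent OK K (P.W v η).v)) =
        (Module.finrank k₀ k) * (s.map fun 𝔭 => Ψ 𝔭 * Real.log (Nat.card (OK ⧸ 𝔭))).sum := by
  have : IsDomain OK := (IsIntegralClosure.algebraMap_injective OK k₀[X] K).isDomain _
  induction s using Multiset.induction_on with
  | empty =>
    have h0 : AdmF fun (_ : Pl k) (_ : GG k (th k₀ K L)) => (0 : ℝ) := by
      simpa using AdmF.sum (k := k) (θ := th k₀ K L) (∅ : Finset ℕ) (Φ := fun _ _ _ => 0) (by simp)
    have h1 : (Ifin fun (_ : Pl k) (_ : GG k (th k₀ K L)) => (0 : ℝ)) = 0 := by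
      simpa using Ifin_sum P (∅ : Finset ℕ) (Φ := fun _ _ _ => 0) (by simp)
    have e : ∀ π η, (0 : ℝ) = -Real.log (supS (P.W (some π) η)
        ((fun c => algebraMap K L (algebraMap OK K c)) '' ((0 : Multiset (Ideal OK)).prod : Ideal OK))) *
          Ψ (cent OK K (P.W (some π) η).v) := by
      intro π η
      rw [Trans_one _ (P.W_fin_le π η), NNReal.coe_one, Real.log_one, neg_zero, zero_mul]
      rw [Multiset.prod_zero, Ideal.one_eq_top, top_le_iff]
      exact (cent_isMaximal OK _ (P.W_fin_le π η)).ne_top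
    refine ⟨h0.congr e, ?_⟩
    rw [← Ifin_congr (Φ := fun _ _ => (0 : ℝ)) e, h1]
    simp
  | cons 𝔭 s ih =>
    obtain ⟨hm, h0⟩ := hs 𝔭 (Multiset.mem_cons_self _ _)
    have hs' : ∀ 𝔮 ∈ s, 𝔮.IsMaximal ∧ 𝔮 ≠ ⊥ := fun 𝔮 h => hs 𝔮 (Multiset.mem_cons_of_mem h)
    obtain ⟨ih1, ih2⟩ := ih hs'
    obtain ⟨n1, n2⟩ := norm_ideal2 hk P h0
    have hs0 : s.prod ≠ ⊥ := Multiset.prod_ne_zero fun h => (hs' _ h).2 rfl
    have a1 := n1.const_mul (-Ψ 𝔭)
    have e : ∀ π η, -Ψ 𝔭 * Real.log (supS (P.W (some π) η)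
        ((fun c => algebraMap K L (algebraMap OK K c)) '' 𝔭)) +
        -Real.log (supS (P.W (some π) η)
          ((fun c => algebraMap K L (algebraMap OK K c)) '' (s.prod : Ideal OK))) *
            Ψ (cent OK K (P.W (some π) η).v) =
        -Real.log (supS (P.W (some π) η)
          ((fun c => algebraMap K L (algebraMap OK K c)) '' ((𝔭 ::ₘ s).prod : Ideal OK))) *
            Ψ (cent OK K (P.W (some π) η).v) := by
      intro π η
      have hw := P.W_fin_le π η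
      rw [Multiset.prod_cons, Trans_mul _ hw, NNReal.coe_mul,
        Real.log_mul (NNReal.coe_ne_zero.2 (Trans_ne _ hw h0))
          (NNReal.coe_ne_zero.2 (Trans_ne _ hw hs0))]
      by_cases h : 𝔭 ≤ cent OK K (P.W (some π) η).v
      · rw [← hm.eq_of_le (cent_isMaximal OK _ hw).ne_top h]
        ring
      · rw [Trans_one _ hw h, NNReal.coe_one, Real.log_one]
        ring
    refine ⟨(a1.add ih1).congr e, ?_⟩
    rw [← Ifin_congr (Φ := fun v η => -Ψ 𝔭 * Real.log (supS (P.W v η)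
        ((fun c => algebraMap K L (algebraMap OK K c)) '' 𝔭)) +
        -Real.log (supS (P.W v η)
          ((fun c => algebraMap K L (algebraMap OK K c)) '' (s.prod : Ideal OK))) *
            Ψ (cent OK K (P.W v η).v)) e, Ifin_add P a1 ih1, Ifin_const_mul P n1, mul_add, ih2,
      Multiset.map_cons, Multiset.sum_cons]
    linear_combination (-Ψ 𝔭) * n2

theorem Trans_elt (hk : ∀ c : k, algebraMap k L c ∈ AK OK K L) (P : PD k (th k₀ K L))
    (Ψ : Ideal OK → ℝ) {c : OK} (s : Multiset (Ideal OK)) (hs : ∀ 𝔭 ∈ s, 𝔭.IsMaximal ∧ 𝔭 ≠ ⊥)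
    (hc : s.prod = Ideal.span {c}) :
    AdmF (fun v η => -Real.log ((P.W v η).v (algebraMap K L (algebraMap OK K c))) *
        Ψ (cent OK K (P.W v η).v)) ∧
      (Module.finrank (RatFunc k₀) K : ℝ) *
        Ifin (fun v η => -Real.log ((P.W v η).v (algebraMap K L (algebraMap OK K c))) *
          Ψ (cent OK K (P.W v η).v)) =
        (Module.finrank k₀ k) * (s.map fun 𝔭 => Ψ 𝔭 * Real.log (Nat.card (OK ⧸ 𝔭))).sum := by
  obtain ⟨h1, h2⟩ := Trans_prod hk P Ψ s hs
  have e : ∀ π η, -Real.log (supS (P.W (some π) η)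
      ((fun c => algebraMap K L (algebraMap OK K c)) '' (s.prod : Ideal OK))) *
        Ψ (cent OK K (P.W (some π) η).v) =
      -Real.log ((P.W (some π) η).v (algebraMap K L (algebraMap OK K c))) *
        Ψ (cent OK K (P.W (some π) η).v) := by
    intro π η
    rw [hc, Trans_span _ (P.W_fin_le π η)]
  refine ⟨h1.congr e, ?_⟩
  rw [← h2]
  exact congrArg _ (Ifin_congr e).symm

theorem ifin_transfer (hk : ∀ c : k, algebraMap k L c ∈ AK OK K L) (P : PD k (th k₀ K L))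
    (P₀ : PD k₀ (th k₀ K L)) {c : OK} (hc : c ≠ 0) (Ψ : Ideal OK → ℝ) :
    AdmF (fun v η => -Real.log ((P.W v η).v (algebraMap K L (algebraMap OK K c))) *
        Ψ (cent OK K (P.W v η).v)) ∧
      Ifin (fun v η => -Real.log ((P.W v η).v (algebraMap K L (algebraMap OK K c))) *
          Ψ (cent OK K (P.W v η).v)) =
        (Module.finrank k₀ k) * Ifin fun v η =>
          -Real.log ((P₀.W v η).v (algebraMap K L (algebraMap OK K c))) *
            Ψ (cent OK K (P₀.W v η).v) := by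
  have : IsDomain OK := (IsIntegralClosure.algebraMap_injective OK k₀[X] K).isDomain _
  have : IsDedekindDomain OK := IsIntegralClosure.isDedekindDomain k₀[X] (RatFunc k₀) K OK
  have h0 : (Ideal.span {c} : Ideal OK) ≠ ⊥ := fun h => hc (Ideal.span_singleton_eq_bot.1 h)
  have hs : ∀ 𝔭 ∈ UniqueFactorizationMonoid.normalizedFactors (Ideal.span {c} : Ideal OK),
      𝔭.IsMaximal ∧ 𝔭 ≠ ⊥ := by
    intro 𝔭 h
    have h1 := UniqueFactorizationMonoid.prime_of_normalized_factor 𝔭 h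
    exact ⟨(Ideal.isPrime_of_prime h1).isMaximal h1.ne_zero, h1.ne_zero⟩
  have hp := Ideal.prod_normalizedFactors_eq_self h0
  obtain ⟨h1, h2⟩ := Trans_elt hk P Ψ _ hs hp
  obtain ⟨-, h3⟩ := Trans_elt (k := k₀) alg_mem_AK P₀ Ψ _ hs hp
  refine ⟨h1, ?_⟩
  have hn : (Module.finrank (RatFunc k₀) K : ℝ) ≠ 0 := Nat.cast_ne_zero.2 Module.finrank_pos.ne'
  rw [Module.finrank_self, Nat.cast_one, one_mul] at h3
  refine mul_left_cancel₀ hn ?_
  rw [h2, ← h3]
  ring

end Pool.Agent.FFC
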