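import Pool.Agent.P.MP_a2beea_nt.FC.Gal2a
import Pool.Agent.P.MP_a2beea_nt.FC.Trans
import Pool.Agent.P.MP_a2beea_nt.FC.Dir

/-! The finite places give the Euler factors. `cL_local`: `legs2_sum`, `gal_local2`, `frob_no_lift`,
`Gal_sum_fibre`; only the `π` of `exists_pi` contributes. `frobSet_cent`: `mem_cent` (with
`k := k₀`) shows that `res η` maps the centre of `P₀.W v η` to the centre of `P₀.V v`; conjugate.
`ifin_zero`: the places `π' ≠ π` contribute `0` (`exists_pi` with `k := k₀`, `PD.W_fin_eq`); use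
`avg_comp_surj`, exchange the sums, and `frob_avg_indep` with `a0_conj`; compare `gal_avg`.
`cF2`: `cL_local`, `Ifin_congr`, `Ifin_sum`, `ifin_transfer` for `c = π`, `normI_aeval`. -/

open Polynomial
open scoped TensorProduct NNReal IntermediateField

namespace Pool.Agent.FFC

open Classical

variable {k₀ : Type*} [Field k₀] [Fintype k₀] {E K : Type*} [Field E] [Field K]
  [Algebra k₀ E] [Algebra k₀[X] E] [Algebra (RatFunc k₀) E] [IsScalarTower k₀ k₀[X] E]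
  [IsScalarTower k₀[X] (RatFunc k₀) E]
  [Algebra k₀ K] [Algebra k₀[X] K] [Algebra (RatFunc k₀) K] [IsScalarTower k₀ k₀[X] K]
  [IsScalarTower k₀[X] (RatFunc k₀) K]
  [FiniteDimensional (RatFunc k₀) E] [Algebra.IsSeparable (RatFunc k₀) E]
  [FiniteDimensional (RatFunc k₀) K] [IsGalois (RatFunc k₀) K]
  {OE OK : Type*} [CommRing OE] [CommRing OK]
  [Algebra k₀ OE] [Algebra k₀[X] OE] [Algebra OE E] [IsScalarTower k₀ k₀[X] OE]
  [IsScalarTower k₀[X] OE E] [IsIntegralClosure OE k₀[X] E]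
  [Algebra k₀ OK] [Algebra k₀[X] OK] [Algebra OK K] [IsScalarTower k₀ k₀[X] OK]
  [IsScalarTower k₀[X] OK K] [IsIntegralClosure OK k₀[X] K]
  {L : Type*} [Field L] [Algebra k₀ L] [Algebra K L] [IsScalarTower k₀ K L] [IsAlgClosed L]
  [Algebra.IsAlgebraic K L]
  {k : Type*} [Field k] [Fintype k] [Algebra k₀ k] [Algebra k E] [IsScalarTower k₀ k E]
  [Algebra k L] [IsScalarTower k₀ k L]
  [IsDomain (L ⊗[k] E)] [Nonempty (GV k L)]
  [Fintype (E →ₐ[RatFunc k₀] K)]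

set_option linter.unusedSectionVars false

variable (OK) in
theorem Gal2b_iota (p : k₀[X]) :
    algebraMap K L (algebraMap OK K (algebraMap k₀[X] OK p)) = aeval (th k₀ K L) p := by
  rw [← IsScalarTower.algebraMap_apply k₀[X] OK K]
  have h1 : ((IsScalarTower.toAlgHom k₀ K L).comp (IsScalarTower.toAlgHom k₀ k₀[X] K)) =
      aeval (th k₀ K L) := by
    ext
    simp
  exact DFunLike.congr_fun h1 p

theorem Gal2b_psi (d : (E →ₐ[RatFunc k₀] K) → ℕ) (φ : E →ₐ[RatFunc k₀] K) (N : ℕ) (𝔔 : Ideal OK) :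
    psi d φ N 𝔔 = (∑ χ, (d χ : ℝ) *
      ({g ∈ frobSet k₀ K 𝔔 N | g.toAlgHom.comp χ = φ}.ncard : ℝ)) / (frobSet k₀ K 𝔔 N).ncard := by
  have h := Gal_sum_fibre d (frobSet k₀ K 𝔔 N) 1 φ
  simp only [Gal_comp_one, inv_one, one_mul, mul_one] at h
  rw [h, psi, finsum_mem_eq_finite_toFinset_sum _ (Set.toFinite _)]

variable (OK) in
theorem cL_local (h : FF k (tE k₀ E)) (w : GV k L) (hw : w.v (th k₀ K L) ≤ 1)
    (d : (E →ₐ[RatFunc k₀] K) → ℕ) {φ : (E →ₐ[RatFunc k₀] K)} {a b n N : ℕ} {y : E →ₐ[k] L}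
    (hy : IsLift k₀ φ b y) (hN : 1 ≤ N) (he : N + b = (Module.finrank k₀ k) * n + a) :
    cL w (legs2 k₀ k L d a) n y = (Fintype.card k₀ : ℝ) ^ b *
      ∑ᶠ π ∈ {π : FinPl k₀ | π.1.natDegree ∣ N},
        -Real.log (w.v (aeval (th k₀ K L) π.1)) * psi d φ N (cent OK K w.v) := by
  obtain ⟨π, hπ, hπ'⟩ := exists_pi (k₀ := k₀) (K := K) w hw
  have hP : cent OK K w.v ≠ ⊤ := (cent_isMaximal OK w hw).ne_top
  rw [finsum_eq_single _ π (fun π' hne => by
    rw [hπ' π' hne, NNReal.coe_one, Real.log_one, neg_zero, zero_mul, finsum_zero]),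
    finsum_eq_if]
  unfold cL
  rw [legs2_sum d a fun x => ipt w (Pt.ofHom (tw (fr k L ^ n) x)) (Pt.ofHom y),
    Finset.sum_congr rfl (g := fun χ => (d χ : ℝ) * if π.1.natDegree ∣ N then
        (Fintype.card k₀ : ℝ) ^ b * -Real.log (w.v (aeval (th k₀ K L) π.1)) *
          (({g ∈ frobSet k₀ K (cent OK K w.v) N | g.toAlgHom.comp χ = φ}.ncard : ℝ) /
            (frobSet k₀ K (cent OK K w.v) N).ncard)
      else 0)]
  · by_cases hd : π.1.natDegree ∣ N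
    · rw [if_pos (show π ∈ {π : FinPl k₀ | π.1.natDegree ∣ N} from hd), Gal2b_psi, Finset.sum_div,
        Finset.mul_sum, Finset.mul_sum]
      refine Finset.sum_congr rfl fun χ _ => ?_
      rw [if_pos hd]
      ring
    · rw [if_neg (show π ∉ {π : FinPl k₀ | π.1.natDegree ∣ N} from hd), mul_zero]
      refine Finset.sum_eq_zero fun χ _ => ?_
      rw [if_neg hd, mul_zero]
  · intro χ _
    by_cases hx : ∃ x : E →ₐ[k] L, IsLift k₀ χ a x
    · rw [dif_pos hx, gal_local2 OK h w hw hπ hx.choose_spec hy hN he]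
    · have he0 : {g ∈ frobSet k₀ K (cent OK K w.v) N | g.toAlgHom.comp χ = φ} = ∅ :=
        Set.eq_empty_of_forall_notMem fun g hg => hx (frob_no_lift hP hy he hg.1 hg.2)
      rw [dif_neg hx, he0, Set.ncard_empty, Nat.cast_zero, zero_div, mul_zero, ite_self, mul_zero]

theorem frobSet_cent (P₀ : PD k₀ (th k₀ K L)) {res : GG k₀ (th k₀ K L) →* (K ≃ₐ[RatFunc k₀] K)}
    (hres : IsRes res) (π : FinPl k₀) (η : GG k₀ (th k₀ K L)) (N : ℕ) (g : (K ≃ₐ[RatFunc k₀] K)) :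
    g ∈ frobSet k₀ K (cent OK K (P₀.W (some π) η).v) N ↔
      res η * g * (res η)⁻¹ ∈ frobSet k₀ K (cent OK K (P₀.V (some π)).v) N := by
  have hc : ∀ c : OK, c ∈ cent OK K (P₀.W (some π) η).v ↔
      galRestrict k₀[X] (RatFunc k₀) K OK (res η) c ∈ cent OK K (P₀.V (some π)).v := fun c => by
    rw [mem_cent _ (P₀.W_fin_le π η), mem_cent _ (P₀.fin_le π), algebraMap_galRestrict_apply,
      hres.2, prod_W_v]
  constructor
  · intro hg x y hxy
    have h1 := (hc _).1 (hg (galRestrict k₀[X] (RatFunc k₀) K OK (res η)⁻¹ x)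
      (galRestrict k₀[X] (RatFunc k₀) K OK (res η)⁻¹ y) (by
        rw [algebraMap_galRestrict_apply, algebraMap_galRestrict_apply, hxy, ← AlgEquiv.mul_apply,
          ← AlgEquiv.mul_apply, mul_assoc, inv_mul_cancel_left]))
    rwa [map_sub, map_pow, ← AlgEquiv.mul_apply, ← AlgEquiv.mul_apply, ← map_mul, mul_inv_cancel,
      map_one, AlgEquiv.one_apply, AlgEquiv.one_apply] at h1
  · intro hg x y hxy
    rw [hc, map_sub, map_pow]
    refine hg _ _ ?_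
    rw [algebraMap_galRestrict_apply, algebraMap_galRestrict_apply, hxy, ← AlgEquiv.mul_apply,
      ← AlgEquiv.mul_apply, inv_mul_cancel_right]

theorem ifin_zero (P₀ : PD k₀ (th k₀ K L)) (d : (E →ₐ[RatFunc k₀] K) → ℕ) {π : FinPl k₀}
    {𝔓 : Ideal OK} (hP : 𝔓.IsMaximal) (hπ : algebraMap k₀[X] OK π.1 ∈ 𝔓) (N : ℕ)
    (φ : (E →ₐ[RatFunc k₀] K)) :
    Ifin (fun v η => -Real.log ((P₀.W v η).v (aeval (th k₀ K L) π.1)) *
        psi d φ N (cent OK K (P₀.W v η).v)) =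
      Real.log ((Fintype.card k₀ : ℝ) ^ π.1.natDegree) *
        ((∑ᶠ g ∈ frobSet k₀ K 𝔓 N, a0 d φ g⁻¹) / (frobSet k₀ K 𝔓 N).ncard) := by
  obtain ⟨res, hres⟩ := exists_res (k := k₀) (K := K) (L := L)
  have hQ := cent_isMaximal OK (P₀.V (some π)) (P₀.fin_le π)
  have hlt : (P₀.V (some π)).v (aeval (th k₀ K L) π.1) < 1 := prod_fin_lt P₀ π 1
  have hπ' := pi_mem_cent (OK := OK) (P₀.V (some π)) (P₀.fin_le π) hlt
  obtain ⟨𝔔, h𝔔⟩ : ∃ 𝔔, 𝔔 = cent OK K (P₀.V (some π)).v := ⟨_, rfl⟩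
  rw [← h𝔔] at hQ hπ'
  obtain ⟨Ψ, hΨ⟩ : ∃ Ψ : (K ≃ₐ[RatFunc k₀] K) → ℝ, ∀ σ, Ψ σ =
        Real.log ((Fintype.card k₀ : ℝ) ^ π.1.natDegree) *
          ((∑ g ∈ (Set.toFinite (frobSet k₀ K 𝔔 N)).toFinset,
            (d ((σ⁻¹ * g⁻¹ * σ : K ≃ₐ[RatFunc k₀] K).toAlgHom.comp φ) : ℝ)) /
              (frobSet k₀ K 𝔔 N).ncard) := ⟨_, fun _ => rfl⟩
  have key : (fun η => -Real.log ((P₀.W (some π) η).v (aeval (th k₀ K L) π.1)) *
      psi d φ N (cent OK K (P₀.W (some π) η).v)) = fun η => Ψ (res η) := by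
    funext η
    have hb : Set.BijOn (fun g => res η * g * (res η)⁻¹)
        (frobSet k₀ K (cent OK K (P₀.W (some π) η).v) N) (frobSet k₀ K 𝔔 N) := by
      rw [h𝔔]
      refine ⟨fun g hg => (frobSet_cent P₀ hres π η N g).1 hg,
        fun g _ g' _ h => by simpa using h, fun g hg => ?_⟩
      refine ⟨(res η)⁻¹ * g * res η, (frobSet_cent P₀ hres π η N _).2 ?_, by group⟩
      have e : res η * ((res η)⁻¹ * g * res η) * (res η)⁻¹ = g := by group
      rwa [e]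
    rw [hΨ, P₀.W_fin_eq, NNReal.coe_inv, Real.log_inv, neg_neg, NNReal.coe_pow, NNReal.coe_natCast,
      psi, hb.ncard_eq, ← finsum_mem_eq_finite_toFinset_sum _ (Set.toFinite _),
      finsum_mem_eq_of_bijOn (fun g => res η * g * (res η)⁻¹) hb
        (g := fun g => (d (((res η)⁻¹ * g⁻¹ * res η : K ≃ₐ[RatFunc k₀] K).toAlgHom.comp φ) : ℝ))]
    intro g _
    have e : (res η)⁻¹ * (res η * g * (res η)⁻¹)⁻¹ * res η = g⁻¹ := by group
    rw [e]
  unfold Ifin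
  rw [finsum_eq_single _ π (fun π' hne => by
    have hnd : ¬ π'.1 ∣ π.1 := fun hd => hne (Subtype.ext
      (eq_of_monic_of_associated π'.2.1 π.2.1 (π'.2.2.associated_of_dvd π.2.2 hd)))
    simp only [prod_fin_one P₀ π' _ hnd, NNReal.coe_one, Real.log_one, neg_zero, zero_mul,
      avg_const])]
  beta_reduce
  rw [key, avg_comp_surj res hres.1 Ψ]
  simp only [hΨ]
  rw [frob_avg_indep hP hQ hπ hπ' N (a := fun g => a0 d φ g⁻¹) (fun g g' => by
    have e : (g'⁻¹ * g * g')⁻¹ = g'⁻¹ * g⁻¹ * g' := by group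
    rw [e, a0_conj])]
  have := Fintype.ofFinite (K ≃ₐ[RatFunc k₀] K)
  rw [finsum_mem_eq_finite_toFinset_sum _ (Set.toFinite _)]
  simp only [a0, finsum_eq_sum_of_fintype]
  rw [← Finset.mul_sum, ← Finset.sum_div, ← Finset.sum_div, Finset.sum_comm]
  ring

theorem cF2 (h : FF k (tE k₀ E)) (P : PD k (th k₀ K L)) (P₀ : PD k₀ (th k₀ K L))
    (d : (E →ₐ[RatFunc k₀] K) → ℕ) {𝔓 : FinPl k₀ → Ideal OK}
    (hP : ∀ π, (𝔓 π).IsMaximal ∧ algebraMap k₀[X] OK π.1 ∈ 𝔓 π) {φ : (E →ₐ[RatFunc k₀] K)}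
    {a b n N : ℕ} {y : E →ₐ[k] L} (hy : IsLift k₀ φ b y) (hN : 1 ≤ N)
    (he : N + b = (Module.finrank k₀ k) * n + a) :
    cF P (legs2 k₀ k L d a) n y = (Module.finrank k₀ k) * (Fintype.card k₀ : ℝ) ^ b *
      ∑ᶠ π ∈ {π : FinPl k₀ | π.1.natDegree ∣ N},
        Real.log ((Fintype.card k₀ : ℝ) ^ π.1.natDegree) *
          ((∑ᶠ g ∈ frobSet k₀ K (𝔓 π) N, a0 d φ g⁻¹) / (frobSet k₀ K (𝔓 π) N).ncard) := by
  have hfin := finPl_finite (k := k₀) hN
  have ht : ∀ π : FinPl k₀, AdmF (fun v η => -Real.log ((P.W v η).v (aeval (th k₀ K L) π.1)) *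
        psi d φ N (cent OK K (P.W v η).v)) ∧
      Ifin (fun v η => -Real.log ((P.W v η).v (aeval (th k₀ K L) π.1)) *
          psi d φ N (cent OK K (P.W v η).v)) =
        (Module.finrank k₀ k) * Ifin fun v η =>
          -Real.log ((P₀.W v η).v (aeval (th k₀ K L) π.1)) *
            psi d φ N (cent OK K (P₀.W v η).v) := fun π => by
    have h0 : algebraMap k₀[X] OK π.1 ≠ 0 := fun h0 => by
      have h1 := Gal2b_iota (K := K) (L := L) OK π.1
      rw [h0, map_zero, map_zero] at h1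
      exact P₀.trans ⟨π.1, π.2.2.ne_zero, h1.symm⟩
    have h1 := ifin_transfer (const_mem_AK OK φ) P P₀ h0 (psi d φ N)
    rwa [Gal2b_iota] at h1
  unfold cF
  rw [Ifin_congr (Ψ := fun v η => (Fintype.card k₀ : ℝ) ^ b * ∑ π ∈ hfin.toFinset,
      -Real.log ((P.W v η).v (aeval (th k₀ K L) π.1)) * psi d φ N (cent OK K (P.W v η).v))
      (fun π η => by
        rw [cL_local OK h _ (P.W_fin_le π η) d hy hN he, finsum_mem_eq_finite_toFinset_sum _ hfin]),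
    Ifin_const_mul P (AdmF.sum _ fun π _ => (ht π).1), Ifin_sum P _ fun π _ => (ht π).1,
    finsum_mem_eq_finite_toFinset_sum _ hfin, mul_comm (Module.finrank k₀ k : ℝ), mul_assoc,
    Finset.mul_sum hfin.toFinset _ (Module.finrank k₀ k : ℝ)]
  congr 1
  refine Finset.sum_congr rfl fun π _ => ?_
  rw [(ht π).2, ifin_zero P₀ d (hP π).1 (hP π).2 N φ]

end Pool.Agent.FFC
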