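import Pool.Agent.P.MP_a2beea_nt.FC.Idem0

/-! The idempotents. The constants `c : k` have preimages `κ_E c ∈ OE` (`mem_OO2`) and `κ_K c ∈ OK`
(`hk`). Let `γ` be a primitive element of `k / k₀` (or a generator of the cyclic group of units);
the `γ ^ q₀ ^ i`, `i < l`, are distinct. With `i_b = (l - b) % l` put
`ε b = ∏_{i < l, i ≠ i_b} (1 ⊗ κ_E γ - κ_K (γ ^ q₀ ^ i) ⊗ 1) * (κ_K (γ ^ q₀ ^ i_b - γ ^ q₀ ^ i)⁻¹ ⊗ 1)`
(`tm_alg`; alternatively use that `k ⊗ k → ∏_{b<l} k`, `x ⊗ y ↦ x ^ q₀ ^ b * y` is onto by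
`linearIndependent_monoidHom`). `rho_inj`: let `β_i` be a `k`-basis of `E` and `γ_j` a `k₀`-basis
of `k`; map `r` to `K ⊗ E` or `L ⊗[k₀] E` (injective), write it as `∑ c_ij ⊗ γ_j β_i`; then
`∑_j c_ij ^ q₀ ^ b γ_j = 0` for all `b < l`; apply the inverse of `fr k₀ L ^ b`: the vector
`(c_ij)_j` is killed by the `l` distinct embeddings of `k` in `L`, which are linearly independent
over `L`, so the matrix `(σ_b γ_j)` is invertible. -/

open Polynomial
open scoped TensorProduct NNReal IntermediateField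

namespace Pool.Agent.FFC

open Classical

section Aux

variable (k₀ : Type*) [Field k₀] [Fintype k₀] (k : Type*) [Field k] [Fintype k] [Algebra k₀ k]

private theorem Idem_fr (n : ℕ) (c : k) :
    (FiniteField.frobeniusAlgHom k₀ k ^ n) c = c ^ Fintype.card k₀ ^ n := by
  rw [AlgHom.coe_pow, FiniteField.coe_frobeniusAlgHom, pow_iterate]

private theorem Idem_ne {a b : ℕ} (ha : a < Module.finrank k₀ k) (hb : b < Module.finrank k₀ k)
    (h : ∀ c : k, c ^ Fintype.card k₀ ^ a = c ^ Fintype.card k₀ ^ b) : a = b :=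
  congrArg Fin.val ((FiniteField.bijective_frobeniusAlgHom_pow k₀ k).1 (a₁ := ⟨a, ha⟩)
    (a₂ := ⟨b, hb⟩) (AlgHom.ext fun c => by rw [Idem_fr, Idem_fr, h]))

private theorem Idem_back {n : ℕ} (hn : n < Module.finrank k₀ k) (c : k) :
    (c ^ Fintype.card k₀ ^ n) ^
      Fintype.card k₀ ^ ((Module.finrank k₀ k - n) % Module.finrank k₀ k) = c := by
  rcases Nat.eq_zero_or_pos n with rfl | h0
  · simp
  · rw [Nat.mod_eq_of_lt (by omega), ← pow_mul, ← pow_add, Nat.add_sub_cancel' hn.le, card_pow,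
      FiniteField.pow_card]

variable (L : Type*) [Field L] [Algebra k₀ L] [Algebra k L] [IsScalarTower k₀ k L]

private noncomputable def Idem_emb (n : Fin (Module.finrank k₀ k)) : k →ₐ[k₀] L :=
  (IsScalarTower.toAlgHom k₀ k L).comp (FiniteField.frobeniusAlgHom k₀ k ^ n.1)

private theorem Idem_emb_apply (n : Fin (Module.finrank k₀ k)) (c : k) :
    Idem_emb k₀ k L n c = algebraMap k L (c ^ Fintype.card k₀ ^ n.1) :=
  congrArg (algebraMap k L) (Idem_fr k₀ k n c)

private theorem Idem_span :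
    Submodule.span L (Set.range fun n => (Idem_emb k₀ k L n).toLinearMap) = ⊤ := by
  have hi : Function.Injective (Idem_emb k₀ k L) := fun a b h =>
    Fin.ext (Idem_ne k₀ k a.2 b.2 fun c => (algebraMap k L).injective (by
      rw [← Idem_emb_apply, ← Idem_emb_apply, h]))
  refine ((linearIndependent_toLinearMap k₀ k L).comp _ hi).span_eq_top_of_card_eq_finrank' ?_
  rw [Fintype.card_fin, Module.finrank_linearMap_self]

variable {E : Type*} [Field E] [Algebra k₀ E] [Algebra k E] [IsScalarTower k₀ k E]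

private theorem Idem_zero (x : L ⊗[k₀] E)
    (h : ∀ (n : Fin (Module.finrank k₀ k)) (μ : E →ₗ[k] k),
      ((Idem_emb k₀ k L n).toLinearMap ∘ₗ μ.restrictScalars k₀).liftBaseChange L x = 0) :
    x = 0 := by
  have h1 : ∀ (μ : E →ₗ[k] k) (φ : k →ₗ[k₀] L),
      (φ ∘ₗ μ.restrictScalars k₀).liftBaseChange L x = 0 := by
    intro μ φ
    have hφ : φ ∈ Submodule.span L (Set.range fun n => (Idem_emb k₀ k L n).toLinearMap) := by
      rw [Idem_span]; exact Submodule.mem_top
    change LinearMap.liftBaseChangeEquiv L (φ ∘ₗ μ.restrictScalars k₀) x = 0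
    induction hφ using Submodule.span_induction with
    | mem φ hφ =>
      obtain ⟨n, rfl⟩ := hφ
      exact h n μ
    | zero => rw [LinearMap.zero_comp, map_zero, LinearMap.zero_apply]
    | add φ ψ _ _ h1 h2 => rw [LinearMap.add_comp, map_add, LinearMap.add_apply, h1, h2, add_zero]
    | smul c φ _ h1 => rw [LinearMap.smul_comp, map_smul, LinearMap.smul_apply, h1, smul_zero]
  let γ := Module.Basis.ofVectorSpace k₀ k
  let β := Module.Basis.ofVectorSpace k E
  refine (Algebra.TensorProduct.basis L (γ.smulTower β)).repr.injective (Finsupp.ext fun ij => ?_)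
  have h2 : ∀ y : L ⊗[k₀] E, (Algebra.TensorProduct.basis L (γ.smulTower β)).repr y ij =
      ((Algebra.linearMap k₀ L ∘ₗ γ.coord ij.1) ∘ₗ
        (β.coord ij.2).restrictScalars k₀).liftBaseChange L y := by
    intro y
    induction y using TensorProduct.induction_on with
    | zero => simp only [map_zero, Finsupp.zero_apply]
    | tmul c a =>
      rw [Algebra.TensorProduct.basis_repr_tmul, LinearMap.liftBaseChange_tmul, Finsupp.smul_apply,
        Finsupp.mapRange_apply, Module.Basis.smulTower_repr]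
      rfl
    | add y z hy hz => simp only [map_add, Finsupp.add_apply, hy, hz]
  rw [h2, h1, map_zero, Finsupp.zero_apply]

end Aux

variable {k₀ : Type*} [Field k₀] [Fintype k₀] {E K : Type*} [Field E] [Field K]
  [Algebra k₀ E] [Algebra k₀[X] E] [Algebra (RatFunc k₀) E] [IsScalarTower k₀ k₀[X] E]
  [IsScalarTower k₀[X] (RatFunc k₀) E]
  [Algebra k₀ K] [Algebra k₀[X] K] [Algebra (RatFunc k₀) K] [IsScalarTower k₀ k₀[X] K]
  [IsScalarTower k₀[X] (RatFunc k₀) K]
  [FiniteDimensional (RatFunc k₀) E] [Algebra.IsSeparable (RatFunc k₀) E]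
  [FiniteDimensional (RatFunc k₀) K] [IsGalois (RatFunc k₀) K]
  {OE OK : Type*} [CommRing OE] [CommRing OK]
  [Algebra k₀ OE] [Algebra k₀[X] OE] [Algebra OE E] [IsScalarTower k₀ k₀[X] OE]
  [IsScalarTower k₀[X] OE E] [IsIntegralClosure OE k₀[X] E]
  [Algebra k₀ OK] [Algebra k₀[X] OK] [Algebra OK K] [IsScalarTower k₀ k₀[X] OK]
  [IsScalarTower k₀[X] OK K] [IsIntegralClosure OK k₀[X] K]
  {L : Type*} [Field L] [Algebra k₀ L] [Algebra K L] [IsScalarTower k₀ K L] [IsAlgClosed L]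
  [Algebra.IsAlgebraic K L]
  {k : Type*} [Field k] [Fintype k] [Algebra k₀ k] [Algebra k E] [IsScalarTower k₀ k E]
  [Algebra k L] [IsScalarTower k₀ k L]
  [IsDomain (L ⊗[k] E)] [Nonempty (GV k L)]
  {ρ : OK ⊗[k₀] OE →+* FL k E L}

theorem rho_inj (hρ : IsRho2 K ρ) (r : (OK ⊗[k₀] OE))
    (hr : ∀ b < (Module.finrank k₀ k), ρ (((sig k₀ OE OK) ^ b) r) = 0) : r = 0 := by
  have h1 : Function.Injective (BridgeK k₀ K OK L).toLinearMap :=
    (algebraMap K L).injective.comp (IsIntegralClosure.algebraMap_injective OK k₀[X] K)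
  have h2 : Function.Injective (BridgeE k₀ E OE).toLinearMap :=
    IsIntegralClosure.algebraMap_injective OE k₀[X] E
  refine TensorProduct.map_injective_of_flat_flat _ _ h1 h2 ?_
  rw [map_zero]
  refine Idem_zero k₀ k L _ fun n μ => ?_
  obtain ⟨b, hb⟩ : ∃ b, b = (Module.finrank k₀ k - n) % Module.finrank k₀ k := ⟨_, rfl⟩
  have hbl : b < Module.finrank k₀ k := hb ▸ Nat.mod_lt _ (finrank_pos2 k₀ k)
  have hF : ∀ c : L, (FiniteField.frobeniusAlgHom k₀ L ^ b) c = c ^ Fintype.card k₀ ^ b :=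
    fun c => by rw [AlgHom.coe_pow, FiniteField.coe_frobeniusAlgHom, pow_iterate]
  have key : ∀ x : OK ⊗[k₀] OE, ∃ y : L ⊗[k] E,
      ρ ((sig k₀ OE OK ^ b) x) = algebraMap (L ⊗[k] E) (FL k E L) y ∧
      (Algebra.linearMap k L ∘ₗ μ).liftBaseChange L y = (FiniteField.frobeniusAlgHom k₀ L ^ b)
        (((Idem_emb k₀ k L n).toLinearMap ∘ₗ μ.restrictScalars k₀).liftBaseChange L
          (TensorProduct.map (BridgeK k₀ K OK L).toLinearMap (BridgeE k₀ E OE).toLinearMap x)) := by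
    intro x
    induction x using TensorProduct.induction_on with
    | zero => exact ⟨0, by simp only [map_zero], by simp only [map_zero]⟩
    | tmul c a =>
      refine ⟨_, by rw [sig_pow_tmul]; exact hρ _ _, ?_⟩
      rw [TensorProduct.map_tmul, LinearMap.liftBaseChange_tmul, LinearMap.liftBaseChange_tmul,
        smul_eq_mul, smul_eq_mul, map_mul, hF, hF, map_pow, map_pow]
      congr 1
      change algebraMap k L (μ (algebraMap OE E a)) =
        Idem_emb k₀ k L n (μ (algebraMap OE E a)) ^ Fintype.card k₀ ^ b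
      rw [Idem_emb_apply, ← map_pow, hb, Idem_back k₀ k n.2]
    | add x x' hx hx' =>
      obtain ⟨y, e1, e2⟩ := hx
      obtain ⟨y', e1', e2'⟩ := hx'
      exact ⟨y + y', by simp only [map_add, e1, e1'], by simp only [map_add, e2, e2']⟩
  obtain ⟨y, e1, e2⟩ := key r
  rw [hr b hbl] at e1
  have e3 : y = 0 := IsFractionRing.injective (L ⊗[k] E) (FL k E L) (by rw [← e1, map_zero])
  rw [e3, map_zero] at e2
  exact (map_eq_zero _).1 e2.symm

theorem exists_idem (hk : ∀ c : k, algebraMap k L c ∈ AK OK K L) (hρ : IsRho2 K ρ) :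
    ∃ ε : ℕ → (OK ⊗[k₀] OE), IsIdem ρ (Module.finrank k₀ k) ε := by
  let φ : k →+* FL k E L := (tmL k E L).comp (algebraMap k L)
  have hK : ∀ c : k, ∃ x : OK ⊗[k₀] OE, ∀ b,
      ρ ((sig k₀ OE OK ^ b) x) = φ (c ^ Fintype.card k₀ ^ b) := by
    intro c
    obtain ⟨x, hx⟩ := hk c
    refine ⟨x ⊗ₜ[k₀] 1, fun b => ?_⟩
    rw [RingHom.comp_apply] at hx
    rw [sig_pow_tmul, hρ, map_one, map_pow, map_pow, hx, ← map_pow]
    rfl
  have hE : ∀ c : k, ∃ x : OK ⊗[k₀] OE, ∀ b, ρ ((sig k₀ OE OK ^ b) x) = φ c := by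
    intro c
    obtain ⟨x, hx⟩ := (mem_OO2 (k := k) OE _).1 ((OO k (tE k₀ E)).algebraMap_mem c)
    refine ⟨1 ⊗ₜ[k₀] x, fun b => ?_⟩
    rw [sig_pow_tmul, hρ, one_pow, map_one, map_one, hx, ← tm_alg]
    rfl
  have hfac : ∀ b b' : ℕ, ∃ e : OK ⊗[k₀] OE, b < Module.finrank k₀ k → b' < Module.finrank k₀ k →
      b' ≠ b → ρ ((sig k₀ OE OK ^ b) e) = 1 ∧ ρ ((sig k₀ OE OK ^ b') e) = 0 := by
    intro b b'
    by_cases h : ∀ c : k, c ^ Fintype.card k₀ ^ b' = c ^ Fintype.card k₀ ^ b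
    · exact ⟨0, fun hb hb' hne => absurd (Idem_ne k₀ k hb' hb h) hne⟩
    push Not at h
    obtain ⟨c, hc⟩ := h
    obtain ⟨x, hx⟩ := hK c
    obtain ⟨y, hy⟩ := hE (c ^ Fintype.card k₀ ^ b')
    obtain ⟨z, hz⟩ := hE (c ^ Fintype.card k₀ ^ b - c ^ Fintype.card k₀ ^ b')⁻¹
    refine ⟨(x - y) * z, fun _ _ _ => ⟨?_, ?_⟩⟩
    · rw [map_mul, map_mul, map_sub, map_sub, hx, hy, hz, ← map_sub, ← map_mul,
        mul_inv_cancel₀ (sub_ne_zero.2 hc.symm), map_one]
    · rw [map_mul, map_mul, map_sub, map_sub, hx, hy, sub_self, zero_mul]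
  choose e he using hfac
  refine ⟨fun b => ∏ b' ∈ (Finset.range (Module.finrank k₀ k)).erase b, e b b',
    fun b hb b' hb' => ?_, rho_inj hρ⟩
  rw [map_prod, map_prod]
  split_ifs with h
  · subst h
    refine Finset.prod_eq_one fun a ha => ?_
    rw [Finset.mem_erase, Finset.mem_range] at ha
    exact (he b' a hb ha.2 ha.1).1
  · exact Finset.prod_eq_zero (Finset.mem_erase.2 ⟨h, Finset.mem_range.2 hb'⟩) (he b b' hb hb' h).2

end Pool.Agent.FFC
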