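import Pool.Agent.P.MP_a2beea_nt.FC.Cent
import Pool.Agent.P.MP_a2beea_nt.FC.Der

/-! The map to the function field of one component and the consequences of `IsIdem`. See
`exists_rho`, `IsRho.mem_RA_iff`, `IsRho.map_sig`, `IsRho.map_jj` in `Bridge`. All identities
between the idempotents are checked with `IsIdem.inj`; for an exponent `≥ l` use `map_sig`.
`sig_injective`: tensor products over a field preserve injections. -/

set_option linter.unusedSectionVars false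

open Polynomial
open scoped TensorProduct NNReal IntermediateField

namespace Pool.Agent.FFC

open Classical

variable {k₀ : Type*} [Field k₀] [Fintype k₀] {E K : Type*} [Field E] [Field K]
  [Algebra k₀ E] [Algebra k₀[X] E] [Algebra (RatFunc k₀) E] [IsScalarTower k₀ k₀[X] E]
  [IsScalarTower k₀[X] (RatFunc k₀) E]
  [Algebra k₀ K] [Algebra k₀[X] K] [Algebra (RatFunc k₀) K] [IsScalarTower k₀ k₀[X] K]
  [IsScalarTower k₀[X] (RatFunc k₀) K]
  [FiniteDimensional (RatFunc k₀) E] [Algebra.IsSeparable (RatFunc k₀) E]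
  [FiniteDimensional (RatFunc k₀) K] [IsGalois (RatFunc k₀) K]
  {OE OK : Type*} [CommRing OE] [CommRing OK]
  [Algebra k₀ OE] [Algebra k₀[X] OE] [Algebra OE E] [IsScalarTower k₀ k₀[X] OE]
  [IsScalarTower k₀[X] OE E] [IsIntegralClosure OE k₀[X] E]
  [Algebra k₀ OK] [Algebra k₀[X] OK] [Algebra OK K] [IsScalarTower k₀ k₀[X] OK]
  [IsScalarTower k₀[X] OK K] [IsIntegralClosure OK k₀[X] K]
  {L : Type*} [Field L] [Algebra k₀ L] [Algebra K L] [IsScalarTower k₀ K L] [IsAlgClosed L]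
  [Algebra.IsAlgebraic K L]
  {k : Type*} [Field k] [Fintype k] [Algebra k₀ k] [Algebra k E] [IsScalarTower k₀ k E]
  [Algebra k L] [IsScalarTower k₀ k L]
  [IsDomain (L ⊗[k] E)] [Nonempty (GV k L)]
  {ρ : OK ⊗[k₀] OE →+* FL k E L} {ε : ℕ → OK ⊗[k₀] OE}

variable (k₀ k E K L OE OK) in
theorem exists_rho2 : ∃ ρ : (OK ⊗[k₀] OE) →+* FL k E L, IsRho2 K ρ := by
  let g : OE →ₐ[k₀] L ⊗[k] E :=
    { toRingHom := (Algebra.TensorProduct.includeRight : E →ₐ[k] L ⊗[k] E).toRingHom.comp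
        (algebraMap OE E)
      commutes' := fun c => by
        change (1 : L) ⊗ₜ[k] (BridgeE k₀ E OE (algebraMap k₀ OE c)) = algebraMap k₀ L c ⊗ₜ[k] (1 : E)
        rw [AlgHom.commutes, IsScalarTower.algebraMap_apply k₀ k E,
          IsScalarTower.algebraMap_apply k₀ k L, Algebra.algebraMap_eq_smul_one (A := E),
          Algebra.algebraMap_eq_smul_one (A := L), TensorProduct.smul_tmul] }
  refine ⟨(algebraMap (L ⊗[k] E) (FL k E L)).comp (Algebra.TensorProduct.lift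
    ((Algebra.TensorProduct.includeLeft : L →ₐ[k₀] L ⊗[k] E).comp (BridgeK k₀ K OK L)) g
    fun _ _ => Commute.all _ _).toRingHom, fun c b => ?_⟩
  change algebraMap (L ⊗[k] E) (FL k E L)
    ((algebraMap K L (algebraMap OK K c) ⊗ₜ[k] (1 : E)) * ((1 : L) ⊗ₜ[k] algebraMap OE E b)) = _
  rw [Algebra.TensorProduct.tmul_mul_tmul, mul_one, one_mul]
  rfl

theorem sig_pow_tmul (b : ℕ) (c : OK) (x : OE) :
    ((sig k₀ OE OK) ^ b) (c ⊗ₜ[k₀] x) = (c ^ (Fintype.card k₀) ^ b) ⊗ₜ[k₀] x := by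
  induction b with
  | zero => rw [pow_zero, pow_zero, pow_one]; rfl
  | succ b ih =>
    rw [pow_succ', AlgHom.mul_apply, ih, pow_succ, pow_mul]
    rfl

variable (K) in
include K in
theorem sig_injective : Function.Injective (sig k₀ OE OK) := by
  have h1 : Function.Injective (FiniteField.frobeniusAlgHom k₀ OK).toLinearMap := fun x y h => by
    refine IsIntegralClosure.algebraMap_injective OK k₀[X] K
      ((FiniteField.frobeniusAlgHom k₀ K).injective ?_)
    have h' : x ^ Fintype.card k₀ = y ^ Fintype.card k₀ := h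
    change algebraMap OK K x ^ Fintype.card k₀ = algebraMap OK K y ^ Fintype.card k₀
    rw [← map_pow, ← map_pow, h']
  exact TensorProduct.map_injective_of_flat_flat _ (AlgHom.id k₀ OE).toLinearMap h1
    Function.injective_id

theorem IsRho2.mem_RA_iff (hρ : IsRho2 K ρ) (r : FL k E L) :
    r ∈ RA k (AK OK K L) (tE k₀ E) ↔ ∃ x, ρ x = r := by
  constructor
  · intro h
    refine (Subring.closure_le.2 ?_ : RA k (AK OK K L) (tE k₀ E) ≤ ρ.range) h
    rintro _ ⟨_, ⟨c, rfl⟩, a, ha, rfl⟩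
    obtain ⟨b, rfl⟩ := (mem_OO2 OE a).1 ha
    exact ⟨c ⊗ₜ[k₀] b, hρ c b⟩
  · rintro ⟨x, rfl⟩
    induction x using TensorProduct.induction_on with
    | zero => rw [map_zero]; exact zero_mem _
    | tmul c b =>
      exact Subring.subset_closure ⟨_, ⟨c, rfl⟩, _, (mem_OO2 OE _).2 ⟨b, rfl⟩, hρ c b⟩
    | add x y hx hy => rw [map_add]; exact add_mem hx hy

theorem IsRho2.mem_RA_pow (hρ : IsRho2 K ρ) (b : ℕ) (r : FL k E L) :
    r ∈ RA k (AKp k₀ OK K L b) (tE k₀ E) ↔ ∃ x, ρ (((sig k₀ OE OK) ^ b) x) = r := by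
  have e : ∀ (c : OK) (x : OE), ρ (((sig k₀ OE OK) ^ b) (c ⊗ₜ[k₀] x)) =
      tm (algebraMap K L (algebraMap OK K c) ^ (Fintype.card k₀) ^ b) (algebraMap OE E x) :=
    fun c x => by rw [sig_pow_tmul, hρ, map_pow, map_pow]
  constructor
  · intro h
    refine (Subring.closure_le.2 ?_ : RA k (AKp k₀ OK K L b) (tE k₀ E) ≤
      (ρ.comp ((sig k₀ OE OK) ^ b).toRingHom).range) h
    rintro _ ⟨c', hc, a, ha, rfl⟩
    obtain ⟨c, rfl⟩ := (mem_AKp_iff b c').1 hc
    obtain ⟨x, rfl⟩ := (mem_OO2 OE a).1 ha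
    exact ⟨c ⊗ₜ[k₀] x, e c x⟩
  · rintro ⟨x, rfl⟩
    induction x using TensorProduct.induction_on with
    | zero => rw [map_zero, map_zero]; exact zero_mem _
    | tmul c x =>
      exact Subring.subset_closure ⟨_, (mem_AKp_iff b _).2 ⟨c, rfl⟩, _,
        (mem_OO2 OE _).2 ⟨x, rfl⟩, e c x⟩
    | add x y hx hy => rw [map_add, map_add]; exact add_mem hx hy

theorem IsRho2.map_sig (hρ : IsRho2 K ρ) (x : (OK ⊗[k₀] OE)) :
    ρ (((sig k₀ OE OK) ^ (Module.finrank k₀ k)) x) = mapF (fr k L) (ρ x) := by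
  induction x using TensorProduct.induction_on with
  | zero => rw [map_zero ((sig k₀ OE OK) ^ (Module.finrank k₀ k)), ρ.map_zero, RingEquiv.map_zero]
  | tmul c b => rw [sig_pow_tmul, hρ, hρ, mapF_tm, fr_eq k₀, map_pow, map_pow]
  | add x y hx hy =>
    rw [map_add ((sig k₀ OE OK) ^ (Module.finrank k₀ k)), ρ.map_add, ρ.map_add, RingEquiv.map_add,
      hx, hy]

theorem IsRho2.map_gen (hρ : IsRho2 K ρ) (b : ℕ) (x : OE) (c : OK) :
    ρ (((sig k₀ OE OK) ^ b) ((1 : OK) ⊗ₜ[k₀] x - c ⊗ₜ[k₀] (1 : OE))) =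
      tm 1 (algebraMap OE E x) - tm (algebraMap K L (algebraMap OK K c) ^ (Fintype.card k₀) ^ b) 1 := by
  rw [map_sub, ρ.map_sub, sig_pow_tmul, sig_pow_tmul, hρ, hρ, one_pow, map_one, map_one, map_one,
    map_pow, map_pow]

theorem IsRho2.map_jj (hρ : IsRho2 K ρ) (b : ℕ) :
    ρ (((sig k₀ OE OK) ^ b) (jj k₀ OE OK)) = tm 1 (tE k₀ E) - tm ((th k₀ K L) ^ (Fintype.card k₀) ^ b) 1 := by
  rw [jj, hρ.map_gen, ← IsScalarTower.algebraMap_apply k₀[X] OE E,
    ← IsScalarTower.algebraMap_apply k₀[X] OK K]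

theorem IsIdem.sum_eq (hε : IsIdem ρ (Module.finrank k₀ k) ε) :
    ∑ b ∈ Finset.range (Module.finrank k₀ k), ε b = 1 := by
  refine sub_eq_zero.1 (hε.inj _ fun b hb => ?_)
  rw [map_sub, map_one, map_sum, ρ.map_sub, ρ.map_one, map_sum,
    Finset.sum_congr rfl fun a ha => hε.val a (Finset.mem_range.1 ha) b hb,
    Finset.sum_ite_eq, if_pos (Finset.mem_range.2 hb), sub_self]

theorem IsIdem.rho_zero (hε : IsIdem ρ (Module.finrank k₀ k) ε) : ρ (ε 0) = 1 := by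
  have := hε.val 0 (finrank_pos2 k₀ k) 0 (finrank_pos2 k₀ k)
  rwa [if_pos rfl, pow_zero] at this

theorem IsIdem.ker_iff (hε : IsIdem ρ (Module.finrank k₀ k) ε) (r : (OK ⊗[k₀] OE)) :
    ρ r = 0 ↔ ε 0 * r = 0 := by
  constructor
  · intro h
    refine hε.inj _ fun b hb => ?_
    rw [map_mul, ρ.map_mul, hε.val 0 (finrank_pos2 k₀ k) b hb]
    split_ifs with h0
    · subst h0
      rw [one_mul, pow_zero]
      exact h
    · rw [zero_mul]
  · intro h
    have := congrArg ρ h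
    rwa [ρ.map_mul, hε.rho_zero, one_mul, ρ.map_zero] at this

theorem IsIdem.mul_self (hε : IsIdem ρ (Module.finrank k₀ k) ε) {b : ℕ} (hb : b < (Module.finrank k₀ k)) :
    ε b * ε b = ε b := by
  refine sub_eq_zero.1 (hε.inj _ fun a ha => ?_)
  rw [map_sub, map_mul, ρ.map_sub, ρ.map_mul, hε.val b hb a ha]
  split_ifs
  · rw [one_mul, sub_self]
  · rw [zero_mul, sub_self]

theorem IsIdem.sig_pow (hρ : IsRho2 K ρ) (hε : IsIdem ρ (Module.finrank k₀ k) ε) {b : ℕ}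
    (hb : b < (Module.finrank k₀ k)) : ((sig k₀ OE OK) ^ b) (ε b) = ε 0 := by
  refine sub_eq_zero.1 (hε.inj _ fun a ha => ?_)
  rw [map_sub, ρ.map_sub, hε.val 0 (finrank_pos2 k₀ k) a ha, sub_eq_zero, ← AlgHom.mul_apply,
    ← pow_add]
  rcases lt_or_ge (a + b) (Module.finrank k₀ k) with h | h
  · rw [hε.val b hb _ h]
    exact if_congr (by omega) rfl rfl
  · obtain ⟨c, hc⟩ := Nat.exists_eq_add_of_le h
    rw [hc, pow_add, AlgHom.mul_apply, hρ.map_sig, hε.val b hb c (by omega), if_neg (by omega),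
      if_neg (by omega), RingEquiv.map_zero]

theorem IsIdem.sig_l (hρ : IsRho2 K ρ) (hε : IsIdem ρ (Module.finrank k₀ k) ε) :
    ((sig k₀ OE OK) ^ (Module.finrank k₀ k)) (ε 0) = ε 0 := by
  refine sub_eq_zero.1 (hε.inj _ fun a ha => ?_)
  rw [map_sub, ρ.map_sub, sub_eq_zero, ← AlgHom.mul_apply, ← pow_add, add_comm, pow_add,
    AlgHom.mul_apply, hρ.map_sig, hε.val 0 (finrank_pos2 k₀ k) a ha]
  split_ifs
  · exact RingEquiv.map_one _
  · exact RingEquiv.map_zero _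

theorem IsIdem.orth (hρ : IsRho2 K ρ) (hε : IsIdem ρ (Module.finrank k₀ k) ε) {b : ℕ} (h0 : 0 < b)
    (hb : b < (Module.finrank k₀ k)) : ε 0 * ((sig k₀ OE OK) ^ b) (ε 0) = 0 := by
  rw [← hε.ker_iff, hε.val 0 (finrank_pos2 k₀ k) b hb, if_neg h0.ne']

theorem IsIdem.jj_regular (h : FF k (tE k₀ E)) (hρ : IsRho2 K ρ)
    (hε : IsIdem ρ (Module.finrank k₀ k) ε) {r : (OK ⊗[k₀] OE)} (hr : jj k₀ OE OK * r = 0) : r = 0 := by
  refine hε.inj _ fun b _ => ?_
  have := congrArg (fun x => ρ (((sig k₀ OE OK) ^ b) x)) hr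
  simp only [map_mul, map_zero] at this
  rw [hρ.map_jj] at this
  exact (mul_eq_zero.1 this).resolve_left (sub_self_ne h _)

end Pool.Agent.FFC
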