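import Pool.Agent.P.MP_a2beea_nt.FC.LatB
import Pool.Agent.P.MP_a2beea_nt.FC.Dual

/-! Coordinates. `RA_repr`: closure induction, or show that the set of such sums is a subring; the
products `e a * e b` are `k[t]`-combinations of the `e c`. `RA_div`: the values of `r` at the
points above `θ` are `∑ Q_a(θ) χ(e a)`; by `DualB.orth'` all `Q_a(θ)` vanish, and
`Q_a /ₘ (X - C θ)` has coefficients in `A`. `Lat.div`: write `x = ∑ (m' i * x) * m i`.
`functional`: put `Λ_y x = ∑ j (y (e' a)) Λ (e a * x)`. By `DualB.mul`,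
`Λ_y (b x) = j (y b) Λ_y x` for `b ∈ OO k t`, hence `Λ_y (r x) = j (r(y)) Λ_y x` for `r ∈ RA`;
write `x = ∑ (m' i * x) * m i` and use `Lat.inv_hasVal`. The second part is `DualB.one`. -/

open Polynomial
open scoped TensorProduct NNReal IntermediateField

namespace Pool.Agent.FFC

open Classical

variable {k : Type*} [Field k] [Fintype k] {E : Type*} [Field E] [Algebra k E] {t : E}
  {L : Type*} [Field L] [Algebra k L] [IsAlgClosed L]
  [IsDomain (L ⊗[k] E)]
  [Nonempty (GV k L)]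
  {θ : L}
  {A : Subring L} {f : FL k E L} {I J : AddSubgroup (FL k E L)} {D : (E →ₐ[k] L) →₀ ℤ}

/-- The functions which come from `E`. -/
private noncomputable def tmR (k : Type*) [Field k] (E : Type*) [Field E] [Algebra k E]
    (L : Type*) [Field L] [Algebra k L] : E →+* FL k E L :=
  (algebraMap (L ⊗[k] E) (FL k E L)).comp
    (Algebra.TensorProduct.includeRight : E →ₐ[k] L ⊗[k] E).toRingHom

omit [Fintype k] [IsAlgClosed L] [IsDomain (L ⊗[k] E)] [Nonempty (GV k L)] in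
private theorem tmR_apply (a : E) : tmR k E L a = tm 1 a := rfl

/-- Polynomials with coefficients in `A`. -/
private noncomputable def PA (A : Subring L) : Subring L[X] := (mapRingHom A.subtype).range

omit [IsAlgClosed L] in
private theorem mem_PA {Q : L[X]} : Q ∈ PA A ↔ ∀ i, Q.coeff i ∈ A := by
  have h1 : Q ∈ PA A ↔ Q ∈ lifts A.subtype := by
    rw [mem_lifts]
    rfl
  rw [h1, lifts_iff_coeff_lifts]
  simp

omit [Fintype k] [IsAlgClosed L] [Nonempty (GV k L)] in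
private theorem map_mem_PA (hk : ∀ c : k, algebraMap k L c ∈ A) (P : k[X]) :
    P.map (algebraMap k L) ∈ PA A := by
  rw [mem_PA]
  intro i
  rw [coeff_map]
  exact hk _

omit [IsAlgClosed L] in
private theorem C_mem_PA {c : L} (hc : c ∈ A) : C c ∈ PA A :=
  ⟨C ⟨c, hc⟩, by simp⟩

omit [IsAlgClosed L] in
private theorem PA_div {Q : L[X]} (hQ : Q ∈ PA A) (hθ : θ ∈ A) (h0 : Q.eval θ = 0) :
    ∃ Q' ∈ PA A, Q = (X - C θ) * Q' := by
  obtain ⟨P, rfl⟩ := hQ
  have h1 : P.IsRoot ⟨θ, hθ⟩ := by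
    have h2 : A.subtype (P.eval ⟨θ, hθ⟩) = 0 := by
      rw [← h0, coe_mapRingHom, eval_map, ← eval₂_at_apply]
      rfl
    exact Subtype.ext h2
  obtain ⟨P', hP'⟩ := dvd_iff_isRoot.mpr h1
  refine ⟨mapRingHom A.subtype P', ⟨P', rfl⟩, ?_⟩
  rw [hP']
  simp

/-- Evaluation at the coordinate function. -/
private noncomputable def evR (k : Type*) [Field k] {E : Type*} [Field E] [Algebra k E] (t : E)
    (L : Type*) [Field L] [Algebra k L] : L[X] →+* FL k E L :=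
  eval₂RingHom (tmL k E L) (tm 1 t)

omit [Fintype k] [IsAlgClosed L] [IsDomain (L ⊗[k] E)] [Nonempty (GV k L)] in
private theorem evR_apply (Q : L[X]) : evR k t L Q = eval₂ (tmL k E L) (tm 1 t) Q := rfl

omit [Fintype k] [IsAlgClosed L] [IsDomain (L ⊗[k] E)] [Nonempty (GV k L)] in
private theorem evR_C (c : L) : evR k t L (C c) = tm c 1 := by
  rw [evR_apply, eval₂_C, tmL_apply]

omit [Fintype k] [IsAlgClosed L] [IsDomain (L ⊗[k] E)] [Nonempty (GV k L)] in
private theorem evR_X : evR k t L X = tm 1 t := by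
  rw [evR_apply, eval₂_X]

omit [Nonempty (GV k L)] in
private theorem evR_map (P : k[X]) :
    evR k t L (P.map (algebraMap k L)) = tm 1 (aeval t P) := by
  rw [evR_apply, eval₂_map, ← tmR_apply (aeval t P), aeval_def, hom_eval₂, tmR_apply]
  congr 1
  ext c
  exact tm_alg c

omit [Nonempty (GV k L)] in
private theorem tm_comb {n : ℕ} (P : Fin n → k[X]) (e : Fin n → E) :
    (tm 1 (∑ a, aeval t (P a) * e a) : FL k E L) =
      ∑ a, evR k t L ((P a).map (algebraMap k L)) * tm 1 (e a) := by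
  rw [← tmR_apply, map_sum]
  refine Finset.sum_congr rfl fun a _ => ?_
  rw [map_mul, evR_map, tmR_apply, tmR_apply]

omit [Fintype k] [IsAlgClosed L] [IsDomain (L ⊗[k] E)] [Nonempty (GV k L)] in
private theorem evR_eq (Q : L[X]) : evR k t L Q =
    ∑ i ∈ Finset.range (Q.natDegree + 1), tm (Q.coeff i) 1 * (tm 1 t) ^ i := by
  rw [evR_apply, eval₂_eq_sum_range]
  rfl

omit [Nonempty (GV k L)] in
private theorem evR_hasVal (y : E →ₐ[k] L) (Q : L[X]) :
    HasVal (Pt.ofHom y) (evR k t L Q) (Q.eval (y t)) := by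
  rw [evR_eq, eval_eq_sum_range]
  refine HasVal.sum _ fun i _ => ?_
  have h1 := hasVal_tm (Pt.ofHom y) (Q.coeff i) (ValuationSubring.mem_top (1 : E))
  have h2 := hasVal_tm (Pt.ofHom y) (1 : L) (ValuationSubring.mem_top t)
  rw [Pt.ofHom_ev, map_one, mul_one] at h1
  rw [Pt.ofHom_ev, one_mul] at h2
  exact h1.mul (h2.pow i)

omit [Nonempty (GV k L)] in
private theorem hasVal_tm_one (y : E →ₐ[k] L) (a : E) :
    HasVal (Pt.ofHom y) (tm 1 a) (y a) := by
  have h2 := hasVal_tm (Pt.ofHom y) (1 : L) (ValuationSubring.mem_top a)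
  rwa [Pt.ofHom_ev, one_mul] at h2

/-- The combinations of the basis with polynomial coefficients. -/
private noncomputable def SP (k : Type*) [Field k] {E : Type*} [Field E] [Algebra k E] (t : E)
    {L : Type*} [Field L] [Algebra k L] (A : Subring L) {n : ℕ} (e : Fin n → E) :
    AddSubgroup (FL k E L) where
  carrier := {r | ∃ Q : Fin n → L[X], (∀ a, Q a ∈ PA A) ∧ r = ∑ a, evR k t L (Q a) * tm 1 (e a)}
  zero_mem' := ⟨0, fun _ => zero_mem _, by simp⟩
  add_mem' := by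
    rintro _ _ ⟨Q, hQ, rfl⟩ ⟨Q', hQ', rfl⟩
    refine ⟨Q + Q', fun a => add_mem (hQ a) (hQ' a), ?_⟩
    simp only [Pi.add_apply, map_add, add_mul, Finset.sum_add_distrib]
  neg_mem' := by
    rintro _ ⟨Q, hQ, rfl⟩
    refine ⟨-Q, fun a => neg_mem (hQ a), ?_⟩
    simp only [Pi.neg_apply, map_neg, neg_mul, Finset.sum_neg_distrib]

omit [Fintype k] [IsAlgClosed L] [IsDomain (L ⊗[k] E)] [Nonempty (GV k L)] in
private theorem SP_mul {n : ℕ} {e : Fin n → E} {P : L[X]} (hP : P ∈ PA A) {r : FL k E L}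
    (hr : r ∈ SP k t A e) : evR k t L P * r ∈ SP k t A e := by
  obtain ⟨Q, hQ, rfl⟩ := hr
  refine ⟨fun a => P * Q a, fun a => mul_mem hP (hQ a), ?_⟩
  simp only [map_mul, Finset.mul_sum, mul_assoc]

omit [Nonempty (GV k L)] in
private theorem SP_tm {n : ℕ} {e e' : Fin n → E} (hd : DualB k t L e e')
    (hk : ∀ c : k, algebraMap k L c ∈ A) {b : E} (hb : b ∈ OO k t) :
    (tm 1 b : FL k E L) ∈ SP k t A e := by
  obtain ⟨P, rfl⟩ := hd.span b hb
  exact ⟨fun a => (P a).map (algebraMap k L), fun a => map_mem_PA hk _, tm_comb P e⟩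

omit [Nonempty (GV k L)] in
private theorem RA_le_SP {n : ℕ} {e e' : Fin n → E} (hd : DualB k t L e e')
    (hk : ∀ c : k, algebraMap k L c ∈ A) {r : FL k E L} (hr : r ∈ RA k A t) :
    r ∈ SP k t A e := by
  induction hr using Subring.closure_induction with
  | mem x hx =>
    obtain ⟨c, hc, a, ha, rfl⟩ := hx
    have := SP_mul (C_mem_PA hc) (SP_tm hd hk ha)
    rwa [evR_C, tm_mul, mul_one, one_mul] at this
  | zero => exact zero_mem _
  | one =>
    rw [← tm_one]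
    exact SP_tm hd hk (one_mem _)
  | add x y _ _ hx hy => exact add_mem hx hy
  | neg x _ hx => exact neg_mem hx
  | mul x y _ _ hx hy =>
    obtain ⟨Q, hQ, rfl⟩ := hx
    obtain ⟨Q', hQ', rfl⟩ := hy
    rw [Finset.sum_mul_sum]
    refine sum_mem fun a _ => sum_mem fun b _ => ?_
    have := SP_mul (mul_mem (hQ a) (hQ' b)) (SP_tm hd hk (mul_mem (hd.mem a) (hd.mem b)))
    have e1 : (tm 1 (e a * e b) : FL k E L) = tm 1 (e a) * tm 1 (e b) := by
      rw [tm_mul, mul_one]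
    rw [e1, map_mul] at this
    rw [mul_mul_mul_comm]
    exact this

theorem RA_repr {n : ℕ} {e e' : Fin n → E} (hd : DualB k t L e e')
    (hk : ∀ c : k, algebraMap k L c ∈ A) {r : FL k E L} (hr : r ∈ RA k A t) :
    ∃ Q : Fin n → L[X], (∀ a i, (Q a).coeff i ∈ A) ∧
      r = ∑ a, eval₂ (tmL k E L) (tm 1 t) (Q a) * tm 1 (e a) := by
  obtain ⟨Q, hQ, h⟩ := RA_le_SP hd hk hr
  exact ⟨Q, fun a => mem_PA.mp (hQ a), h⟩

theorem eval₂_mem_RA {Q : L[X]} (hQ : ∀ i, Q.coeff i ∈ A) :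
    eval₂ (tmL k E L) (tm 1 t) Q ∈ RA k A t := by
  rw [← evR_apply, evR_eq]
  exact sum_mem fun i _ => mul_mem (tm_mem_RA (hQ i) (one_mem _))
    (pow_mem (tm_mem_RA (one_mem _) (self_mem_OO t)) i)

theorem RA_div (h : FF k t) (htr : Transcendental k θ) (hθ : θ ∈ A)
    (hk : ∀ c : k, algebraMap k L c ∈ A) {r : FL k E L} (hr : r ∈ RA k A t)
    (h0 : ∀ χ : E →ₐ[k] L, χ t = θ → val (Pt.ofHom χ) r = 0) :
    ∃ r' ∈ RA k A t, r = (tm 1 t - tm θ 1) * r' := by
  obtain ⟨n, e, e', hd⟩ := exists_dualB h L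
  obtain ⟨Q, hQ, rfl⟩ := RA_le_SP hd hk hr
  have hfin := hom_fibre_finite (L := L) h θ
  have hv : ∀ χ : E →ₐ[k] L, χ t = θ → ∑ a, (Q a).eval θ * χ (e a) = 0 := by
    intro χ hχ
    rw [← h0 χ hχ]
    symm
    refine HasVal.val_eq (HasVal.sum _ fun a _ => ?_)
    rw [← hχ]
    exact (evR_hasVal χ (Q a)).mul (hasVal_tm_one χ (e a))
  have hz : ∀ b, (Q b).eval θ = 0 := by
    intro b
    have h1 : (Q b).eval θ = ∑ a, (Q a).eval θ * if b = a then 1 else 0 := by simp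
    have h2 : ∀ a, (if b = a then (1 : L) else 0) =
        ∑ χ ∈ hfin.toFinset, χ (e' b) * χ (e a) := by
      intro a
      rw [← hd.orth' h htr b a, finsum_mem_eq_finite_toFinset_sum _ hfin]
    rw [h1]
    simp only [h2, Finset.mul_sum]
    rw [Finset.sum_comm]
    refine Finset.sum_eq_zero fun χ hχ => ?_
    have h3 := hv χ (hfin.mem_toFinset.mp hχ)
    have h4 : ∑ a, (Q a).eval θ * (χ (e' b) * χ (e a)) =
        χ (e' b) * ∑ a, (Q a).eval θ * χ (e a) := by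
      rw [Finset.mul_sum]
      exact Finset.sum_congr rfl fun a _ => by ring
    rw [h4, h3, mul_zero]
  choose Q' hQ' hQQ using fun a => PA_div (hQ a) hθ (hz a)
  refine ⟨∑ a, evR k t L (Q' a) * tm 1 (e a), sum_mem fun a _ =>
    mul_mem (eval₂_mem_RA (mem_PA.mp (hQ' a))) (tm_mem_RA (one_mem _) (hd.mem a)), ?_⟩
  rw [Finset.mul_sum]
  refine Finset.sum_congr rfl fun a _ => ?_
  rw [hQQ a, map_mul, map_sub, evR_X, evR_C, mul_assoc]

omit [Fintype k] [IsAlgClosed L] [Nonempty (GV k L)] in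
private theorem decomp {n : ℕ} {m m' : Fin n → FL k E L} (h1 : ∑ i, m' i * m i = 1)
    (x : FL k E L) : x = ∑ i, m' i * x * m i := by
  have : ∑ i, m' i * x * m i = x * ∑ i, m' i * m i := by
    rw [Finset.mul_sum]
    exact Finset.sum_congr rfl fun i _ => by ring
  rw [this, h1, mul_one]

theorem Lat.div (h : FF k t) (hl : Lat A t J) (htr : Transcendental k θ) (hθ : θ ∈ A)
    (hk : ∀ c : k, algebraMap k L c ∈ A)
    (hJ : ∀ χ : E →ₐ[k] L, χ t = θ → dv t J (Pt.ofHom χ) = 0) {x : FL k E L} (hx : x ∈ J) :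
    (∀ χ : E →ₐ[k] L, χ t = θ → val (Pt.ofHom χ) x = 0) ↔
      ∃ y ∈ J, x = (tm 1 t - tm θ 1) * y := by
  constructor
  · intro h0
    obtain ⟨n, m, m', hm, hm', h1⟩ := hl.inv
    have hdiv : ∀ i, ∃ r' ∈ RA k A t, m' i * x = (tm 1 t - tm θ 1) * r' := by
      intro i
      refine RA_div h htr hθ hk (hm' i x hx) fun χ hχ => ?_
      have := (hl.inv_hasVal h (hJ χ hχ) (hm' i)).mul (hl.hasVal h (hJ χ hχ) hx)
      rw [h0 χ hχ, mul_zero] at this
      exact this.val_eq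
    choose r' hr' hrr using hdiv
    refine ⟨∑ i, r' i * m i, sum_mem fun i _ => hl.mul_mem _ (hr' i) _ (hm i), ?_⟩
    rw [Finset.mul_sum]
    refine (decomp h1 x).trans (Finset.sum_congr rfl fun i _ => ?_)
    rw [hrr i, mul_assoc]
  · rintro ⟨y, hy, rfl⟩ χ hχ
    have h1 := hasVal_tm (Pt.ofHom χ) θ (ValuationSubring.mem_top (1 : E))
    rw [Pt.ofHom_ev, map_one, mul_one] at h1
    have := ((hasVal_tm_one χ t).sub h1).mul (hl.hasVal h (hJ χ hχ) hy)
    rw [hχ, sub_self, zero_mul] at this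
    exact this.val_eq

theorem Lat.fg (h : FF k t) (hl : Lat A t J) (hk : ∀ c : k, algebraMap k L c ∈ A) :
    ∃ (n : ℕ) (b : Fin n → FL k E L), (∀ a, b a ∈ J) ∧ ∀ x ∈ J, ∃ Q : Fin n → L[X],
      (∀ a i, (Q a).coeff i ∈ A) ∧ x = ∑ a, eval₂ (tmL k E L) (tm 1 t) (Q a) * b a := by
  obtain ⟨n, e, e', hd⟩ := exists_dualB h L
  obtain ⟨N, m, m', hm, hm', h1⟩ := hl.inv
  refine ⟨N * n, fun s => tm 1 (e (finProdFinEquiv.symm s).2) * m (finProdFinEquiv.symm s).1,
    fun s => hl.mul_mem _ (tm_mem_RA (one_mem _) (hd.mem _)) _ (hm _), fun x hx => ?_⟩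
  choose Q hQ hQQ using fun i => RA_repr hd hk (hm' i x hx)
  refine ⟨fun s => Q (finProdFinEquiv.symm s).1 (finProdFinEquiv.symm s).2,
    fun s i => hQ _ _ i, ?_⟩
  rw [← finProdFinEquiv.sum_comp, Fintype.sum_prod_type]
  simp only [Equiv.symm_apply_apply]
  refine (decomp h1 x).trans (Finset.sum_congr rfl fun i _ => ?_)
  rw [hQQ i, Finset.sum_mul]
  exact Finset.sum_congr rfl fun a _ => mul_assoc _ _ _

section Fun

variable {K : Type*} [Field K] {Λ : FL k E L → K}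

omit [Fintype k] [IsAlgClosed L] [Nonempty (GV k L)] in
private theorem fun_zero (hadd : ∀ x ∈ J, ∀ y ∈ J, Λ (x + y) = Λ x + Λ y) : Λ 0 = 0 := by
  have := hadd 0 (zero_mem _) 0 (zero_mem _)
  rw [add_zero] at this
  exact left_eq_add.mp this

omit [Fintype k] [IsAlgClosed L] [Nonempty (GV k L)] in
private theorem fun_neg (hadd : ∀ x ∈ J, ∀ y ∈ J, Λ (x + y) = Λ x + Λ y) {x : FL k E L}
    (hx : x ∈ J) : Λ (-x) = -Λ x := by
  have := hadd x hx (-x) (neg_mem hx)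
  rw [add_neg_cancel, fun_zero hadd] at this
  exact (neg_eq_of_add_eq_zero_right this.symm).symm

omit [Fintype k] [IsAlgClosed L] [Nonempty (GV k L)] in
private theorem fun_sum (hadd : ∀ x ∈ J, ∀ y ∈ J, Λ (x + y) = Λ x + Λ y) {ι : Type*}
    (s : Finset ι) {x : ι → FL k E L} (hx : ∀ i, x i ∈ J) :
    Λ (∑ i ∈ s, x i) = ∑ i ∈ s, Λ (x i) := by
  induction s using Finset.induction_on with
  | empty => simpa using fun_zero hadd
  | insert i s hi ih =>
    rw [Finset.sum_insert hi, Finset.sum_insert hi,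
      hadd _ (hx i) _ (sum_mem fun i _ => hx i), ih]

private theorem fun_poly (hl : Lat A t J) (hk : ∀ c : k, algebraMap k L c ∈ A) (j : L →+* K)
    {c₀ : L} (hadd : ∀ x ∈ J, ∀ y ∈ J, Λ (x + y) = Λ x + Λ y)
    (hconst : ∀ c ∈ A, ∀ x ∈ J, Λ (tm c 1 * x) = j c * Λ x)
    (ht : ∀ x ∈ J, Λ (tm 1 t * x) = j c₀ * Λ x) (P : k[X]) {x : FL k E L} (hx : x ∈ J) :
    Λ (evR k t L (P.map (algebraMap k L)) * x) = j (aeval c₀ P) * Λ x := by
  have hT : (tm 1 t : FL k E L) ∈ RA k A t := tm_mem_RA (one_mem _) (self_mem_OO t)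
  have hpow : ∀ i : ℕ, Λ ((tm 1 t) ^ i * x) = j c₀ ^ i * Λ x := by
    intro i
    induction i with
    | zero => simp
    | succ i ih =>
      rw [pow_succ', mul_assoc, ht _ (hl.mul_mem _ (pow_mem hT i) _ hx), ih, pow_succ', mul_assoc]
  have hQ := mem_PA.mp (map_mem_PA hk P)
  rw [← eval_map_algebraMap]
  generalize P.map (algebraMap k L) = Q at hQ
  rw [evR_eq, eval_eq_sum_range, Finset.sum_mul, map_sum, Finset.sum_mul,
    fun_sum hadd _ fun i => hl.mul_mem _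
      (mul_mem (tm_mem_RA (hQ i) (one_mem _)) (pow_mem hT i)) _ hx]
  refine Finset.sum_congr rfl fun i _ => ?_
  rw [mul_assoc, hconst _ (hQ i) _ (hl.mul_mem _ (pow_mem hT i) _ hx), hpow, map_mul, map_pow,
    mul_assoc]

private theorem fun_comb (hl : Lat A t J) (hk : ∀ c : k, algebraMap k L c ∈ A) (j : L →+* K)
    {c₀ : L} (hadd : ∀ x ∈ J, ∀ y ∈ J, Λ (x + y) = Λ x + Λ y)
    (hconst : ∀ c ∈ A, ∀ x ∈ J, Λ (tm c 1 * x) = j c * Λ x)
    (ht : ∀ x ∈ J, Λ (tm 1 t * x) = j c₀ * Λ x) {n : ℕ} {e : Fin n → E}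
    (he : ∀ a, e a ∈ OO k t) (P : Fin n → k[X]) {x : FL k E L} (hx : x ∈ J) :
    Λ (tm 1 (∑ a, aeval t (P a) * e a) * x) =
      ∑ a, j (aeval c₀ (P a)) * Λ (tm 1 (e a) * x) := by
  have hex : ∀ a, tm 1 (e a) * x ∈ J := fun a =>
    hl.mul_mem _ (tm_mem_RA (one_mem _) (he a)) _ hx
  rw [tm_comb, Finset.sum_mul]
  simp only [mul_assoc, evR_apply]
  rw [fun_sum hadd _ fun a =>
    hl.mul_mem _ (eval₂_mem_RA (mem_PA.mp (map_mem_PA hk (P a)))) _ (hex a)]
  exact Finset.sum_congr rfl fun a _ => fun_poly hl hk j hadd hconst ht (P a) (hex a)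

private theorem fun_RA (hl : Lat A t J) (j : L →+* K) (y : E →ₐ[k] L)
    (hadd : ∀ x ∈ J, ∀ y ∈ J, Λ (x + y) = Λ x + Λ y)
    (hconst : ∀ c ∈ A, ∀ x ∈ J, Λ (tm c 1 * x) = j c * Λ x)
    (hb : ∀ b ∈ OO k t, ∀ x ∈ J, Λ (tm 1 b * x) = j (y b) * Λ x)
    {r : FL k E L} (hr : r ∈ RA k A t) :
    ∃ c, HasVal (Pt.ofHom y) r c ∧ ∀ x ∈ J, Λ (r * x) = j c * Λ x := by
  induction hr using Subring.closure_induction with
  | mem x hx =>
    obtain ⟨c, hc, a, ha, rfl⟩ := hx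
    refine ⟨c * y a, hasVal_tm (Pt.ofHom y) c (ValuationSubring.mem_top a), fun x hx => ?_⟩
    have e1 : (tm c a : FL k E L) = tm c 1 * tm 1 a := by rw [tm_mul, mul_one, one_mul]
    rw [e1, mul_assoc, hconst c hc _ (hl.mul_mem _ (tm_mem_RA (one_mem _) ha) _ hx),
      hb a ha x hx, map_mul, mul_assoc]
  | zero => exact ⟨0, hasVal_zero _, fun x _ => by simpa using fun_zero hadd⟩
  | one => exact ⟨1, hasVal_one _, fun x _ => by simp⟩
  | add r s hr hs ihr ihs =>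
    obtain ⟨c, hc, hc'⟩ := ihr
    obtain ⟨d, hd, hd'⟩ := ihs
    refine ⟨c + d, hc.add hd, fun x hx => ?_⟩
    rw [add_mul, hadd _ (hl.mul_mem _ hr _ hx) _ (hl.mul_mem _ hs _ hx), hc' x hx, hd' x hx,
      map_add, add_mul]
  | neg r hr ihr =>
    obtain ⟨c, hc, hc'⟩ := ihr
    refine ⟨-c, hc.neg, fun x hx => ?_⟩
    rw [neg_mul, fun_neg hadd (hl.mul_mem _ hr _ hx), hc' x hx, map_neg, neg_mul]
  | mul r s hr hs ihr ihs =>
    obtain ⟨c, hc, hc'⟩ := ihr
    obtain ⟨d, hd, hd'⟩ := ihs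
    refine ⟨c * d, hc.mul hd, fun x hx => ?_⟩
    rw [mul_assoc, hc' _ (hl.mul_mem _ hs _ hx), hd' x hx, map_mul, mul_assoc]

end Fun

theorem functional (h : FF k t) (hl : Lat A t J) (hk : ∀ c : k, algebraMap k L c ∈ A)
    {n : ℕ} {e e' : Fin n → E} (hd : DualB k t L e e') {C : Type*} [Field C] (j : L →+* C)
    {c₀ : L} (hc₀ : Transcendental k c₀) (Λ : FL k E L → C)
    (hadd : ∀ x ∈ J, ∀ y ∈ J, Λ (x + y) = Λ x + Λ y)
    (hconst : ∀ c ∈ A, ∀ x ∈ J, Λ (tm c 1 * x) = j c * Λ x)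
    (ht : ∀ x ∈ J, Λ (tm 1 t * x) = j c₀ * Λ x) :
    (∀ y : E →ₐ[k] L, y t = c₀ → dv t J (Pt.ofHom y) = 0 → ∃ G : C, ∀ x ∈ J,
        ∑ a, j (y (e' a)) * Λ (tm 1 (e a) * x) = G * j (val (Pt.ofHom y) x)) ∧
      ∀ x ∈ J, Λ x =
        ∑ᶠ y ∈ {y : E →ₐ[k] L | y t = c₀}, ∑ a, j (y (e' a)) * Λ (tm 1 (e a) * x) := by
  have hex : ∀ a, ∀ x ∈ J, tm 1 (e a) * x ∈ J := fun a x hx =>
    hl.mul_mem _ (tm_mem_RA (one_mem _) (hd.mem a)) _ hx
  constructor
  · intro y hy h0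
    set Λy : FL k E L → C := fun x => ∑ a, j (y (e' a)) * Λ (tm 1 (e a) * x) with hΛy
    have yadd : ∀ x ∈ J, ∀ x' ∈ J, Λy (x + x') = Λy x + Λy x' := by
      intro x hx x' hx'
      simp only [hΛy]
      rw [← Finset.sum_add_distrib]
      refine Finset.sum_congr rfl fun a _ => ?_
      rw [mul_add, hadd _ (hex a x hx) _ (hex a x' hx'), mul_add]
    have yconst : ∀ c ∈ A, ∀ x ∈ J, Λy (tm c 1 * x) = j c * Λy x := by
      intro c hc x hx
      simp only [hΛy]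
      rw [Finset.mul_sum]
      refine Finset.sum_congr rfl fun a _ => ?_
      rw [mul_left_comm (tm 1 (e a)), hconst c hc _ (hex a x hx), mul_left_comm]
    have yb : ∀ b ∈ OO k t, ∀ x ∈ J, Λy (tm 1 b * x) = j (y b) * Λy x := by
      intro b hb x hx
      obtain ⟨Mx, hM, hM'⟩ := hd.mul b hb
      have h1 : ∀ a, Λ (tm 1 (e a) * (tm 1 b * x)) =
          ∑ a', j (aeval c₀ (Mx a' a)) * Λ (tm 1 (e a') * x) := by
        intro a
        rw [← mul_assoc, tm_mul, mul_one, mul_comm (e a), hM a]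
        exact fun_comb hl hk j hadd hconst ht hd.mem (fun a' => Mx a' a) hx
      have h2 : ∀ a', j (y b) * j (y (e' a')) = ∑ a, j (aeval c₀ (Mx a' a)) * j (y (e' a)) := by
        intro a'
        rw [← map_mul, ← map_mul, hM' a', map_sum, map_sum]
        refine Finset.sum_congr rfl fun a _ => ?_
        rw [map_mul, map_mul, ← aeval_algHom_apply, hy]
      simp only [hΛy, h1, Finset.mul_sum]
      rw [Finset.sum_comm]
      refine Finset.sum_congr rfl fun a' _ => ?_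
      rw [← mul_assoc, h2, Finset.sum_mul]
      exact Finset.sum_congr rfl fun a _ => by ring
    obtain ⟨N, m, m', hm, hm', h1⟩ := hl.inv
    refine ⟨∑ i, j (val (Pt.ofHom y) (m' i)) * Λy (m i), fun x hx => ?_⟩
    change Λy x = _
    have h2 : Λy x = ∑ i, Λy (m' i * x * m i) := by
      rw [← fun_sum yadd _ fun i => hl.mul_mem _ (hm' i x hx) _ (hm i), ← decomp h1 x]
    rw [h2, Finset.sum_mul]
    refine Finset.sum_congr rfl fun i _ => ?_
    obtain ⟨c, hc, hc'⟩ := fun_RA hl j y yadd yconst yb (hm' i x hx)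
    rw [hc' _ (hm i), hc.unique ((hl.inv_hasVal h h0 (hm' i)).mul (hl.hasVal h h0 hx)), map_mul]
    ring
  · intro x hx
    obtain ⟨T, h1, h2⟩ := hd.one
    have hfin := hom_fibre_finite (L := L) h c₀
    rw [finsum_mem_eq_finite_toFinset_sum _ hfin, Finset.sum_comm]
    have h3 := fun_comb hl hk j hadd hconst ht hd.mem T hx
    rw [← h1, tm_one, one_mul] at h3
    rw [h3]
    refine Finset.sum_congr rfl fun a _ => ?_
    rw [← h2 c₀ hc₀ a, finsum_mem_eq_finite_toFinset_sum _ hfin, map_sum, Finset.sum_mul]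

end Pool.Agent.FFC
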