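import Pool.Agent.P.MP_a2beea_nt.FC.Norm
import Pool.Agent.P.MP_a2beea_nt.FC.LatR
import Pool.Agent.P.MP_a2beea_nt.FC.LocF
import Pool.Agent.P.MP_a2beea_nt.FC.Emb0

/-! The de Rham index. `mem_eigen`: `(1 ⊗ b - φ b ⊗ 1) x ∈ dRKer` says that
`(χ b - φ b) x(χ) = 0` at all points `χ` above `θ` (`IsEmb.mem_dRKer`, `Lat.div`), and for
`χ ≠ emb φ` some `b ∈ O_E` has `χ b ≠ φ b`. `idx_formula`: let `a = ω(φ) ≠ 0` and
`V = {y : K | ∃ x ∈ eigen, x(φ) = y * a}`, an `OK`-submodule which contains `1`. With `n_i, n'_i`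
the data of `Lat.inv` for `tauLat`, some `c = (n'_i ω)(φ) ≠ 0`, and `c x(φ) = (n'_i x)(φ) a` with
`c, (n'_i x)(φ) ∈ AK` (`RA_val_mem`, `emb_mem_AK`); so every `x ∈ eigen` has a ratio in `K` and
`c V ⊆ OK`. The ratio map `eigen → V` is additive and onto, and the preimage of `OK` is `line`.
At a finite place `supS V * |a| = supS dif * supL` (`sup_eigen`). -/

open Polynomial
open scoped TensorProduct NNReal IntermediateField

namespace Pool.Agent.FFC

open Classical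

variable {k : Type*} [Field k] [Fintype k] {E K : Type*} [Field E] [Field K]
  [Algebra k E] [Algebra k[X] E] [Algebra (RatFunc k) E] [IsScalarTower k k[X] E]
  [IsScalarTower k[X] (RatFunc k) E]
  [Algebra k K] [Algebra k[X] K] [Algebra (RatFunc k) K] [IsScalarTower k k[X] K]
  [IsScalarTower k[X] (RatFunc k) K]
  [FiniteDimensional (RatFunc k) E] [Algebra.IsSeparable (RatFunc k) E]
  [FiniteDimensional (RatFunc k) K] [IsGalois (RatFunc k) K]
  {OE OK : Type*} [CommRing OE] [CommRing OK]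
  [Algebra k OE] [Algebra k[X] OE] [Algebra OE E] [IsScalarTower k k[X] OE]
  [IsScalarTower k[X] OE E] [IsIntegralClosure OE k[X] E]
  [Algebra k OK] [Algebra k[X] OK] [Algebra OK K] [IsScalarTower k k[X] OK]
  [IsScalarTower k[X] OK K] [IsIntegralClosure OK k[X] K]
  {L : Type*} [Field L] [Algebra k L] [Algebra K L] [IsScalarTower k K L] [IsAlgClosed L]
  [Algebra.IsAlgebraic K L]
  [IsDomain (L ⊗[k] E)] [Nonempty (GV k L)]
  [Fintype (E →ₐ[RatFunc k] K)] {M : Type*} [AddCommGroup M] [Module (OK ⊗[k] OE) M]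
  {τ : M →+ M} {d : (E →ₐ[RatFunc k] K) → ℕ} {ρ : OK ⊗[k] OE →+* FL k E L}
  {μ : M →+ FL k E L} {f : FL k E L} {I : AddSubgroup (FL k E L)}

omit [Fintype k] [IsAlgClosed L] [IsDomain (L ⊗[k] E)] [Nonempty (GV k L)] in
theorem idx_supS_mul (w : GV k L) (T : Set L) (a : L) :
    supS w ((fun c => c * a) '' T) = supS w T * w.v a := by
  have e1 : {r | ∃ x ∈ T, r = w.v x} = Set.range fun x : T => w.v x := by
    ext r
    constructor
    · rintro ⟨x, hx, rfl⟩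
      exact ⟨⟨x, hx⟩, rfl⟩
    · rintro ⟨x, rfl⟩
      exact ⟨x, x.2, rfl⟩
  have e2 : {r | ∃ x ∈ (fun c => c * a) '' T, r = w.v x} =
      Set.range fun x : T => w.v x * w.v a := by
    ext r
    constructor
    · rintro ⟨_, ⟨x, hx, rfl⟩, rfl⟩
      exact ⟨⟨x, hx⟩, (map_mul _ _ _).symm⟩
    · rintro ⟨x, rfl⟩
      exact ⟨_, ⟨x, x.2, rfl⟩, (map_mul _ _ _).symm⟩
  unfold supS
  rw [e1, e2]
  exact (NNReal.iSup_mul (fun x : T => w.v x) (w.v a)).symm

theorem idx_ker_iff (h : FF k (tE k E)) (hρ : IsRho E K L ρ) (hμ : IsEmb ρ τ μ f I)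
    {D : (E →ₐ[k] L) →₀ ℤ} (hS : Sht (AK OK K L) (tE k E) (th k K L) f I D) (x : M) :
    x ∈ dRKer k OE OK τ ↔ μ x ∈ tauLat (AK OK K L) (tE k E) f I ∧
      ∀ χ : E →ₐ[k] L, χ (tE k E) = (th k K L) → val (Pt.ofHom χ) (μ x) = 0 := by
  have hl := hS.lat.tau hS.ne
  rw [hμ.mem_dRKer hρ]
  constructor
  · rintro ⟨y, hy, e⟩
    have hx : μ x ∈ tauLat (AK OK K L) (tE k E) f I := by
      rw [e]
      exact hl.mul_mem _ (sub_mem (tm_mem_RA (one_mem _) (self_mem_OO _))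
        (tm_mem_RA hS.mem (one_mem _))) _ hy
    exact ⟨hx, (hl.div h hS.trans hS.mem hS.alg_mem hS.gen0 hx).2 ⟨y, hy, e⟩⟩
  · rintro ⟨hx, h0⟩
    exact (hl.div h hS.trans hS.mem hS.alg_mem hS.gen0 hx).1 h0

theorem idx_val_smul (h : FF k (tE k E)) (hρ : IsRho E K L ρ) (hμ : IsEmb ρ τ μ f I)
    {D : (E →ₐ[k] L) →₀ ℤ} (hS : Sht (AK OK K L) (tE k E) (th k K L) f I D) {x : M}
    (hx : μ x ∈ tauLat (AK OK K L) (tE k E) f I) {χ : E →ₐ[k] L} (hχ : χ (tE k E) = th k K L)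
    (c : OK) (b : OE) :
    HasVal (Pt.ofHom χ) (μ ((c ⊗ₜ[k] b : OK ⊗[k] OE) • x))
      (algebraMap K L (algebraMap OK K c) * χ (algebraMap OE E b) * val (Pt.ofHom χ) (μ x)) := by
  rw [hμ.smul, hρ c b]
  exact (hasVal_tm (Pt.ofHom χ) _ (ValuationSubring.mem_top _)).mul
    ((hS.lat.tau hS.ne).hasVal h (hS.gen0 χ hχ) hx)

theorem IsEmb.mem_eigen (h : FF k (tE k E)) (hρ : IsRho E K L ρ) (hμ : IsEmb ρ τ μ f I)
    {D : (E →ₐ[k] L) →₀ ℤ} (hS : Sht (AK OK K L) (tE k E) (th k K L) f I D)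
    (φ : E →ₐ[RatFunc k] K) (x : M) :
    x ∈ eigen OE OK τ φ ↔ μ x ∈ tauLat (AK OK K L) (tE k E) f I ∧
      ∀ χ : E →ₐ[k] L, χ (tE k E) = (th k K L) → χ ≠ emb L φ → val (Pt.ofHom χ) (μ x) = 0 := by
  have hval : ∀ (_ : μ x ∈ tauLat (AK OK K L) (tE k E) f I) (χ : E →ₐ[k] L)
      (_ : χ (tE k E) = th k K L) (b : OE) (c : OK),
      val (Pt.ofHom χ) (μ (((1 : OK) ⊗ₜ[k] b : OK ⊗[k] OE) • x -
        (c ⊗ₜ[k] (1 : OE) : OK ⊗[k] OE) • x)) =
        (χ (algebraMap OE E b) - algebraMap K L (algebraMap OK K c)) * val (Pt.ofHom χ) (μ x) := by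
    intro hx χ hχ b c
    rw [map_sub, ((idx_val_smul h hρ hμ hS hx hχ 1 b).sub
      (idx_val_smul h hρ hμ hS hx hχ c 1)).val_eq]
    simp only [map_one, one_mul, mul_one, sub_mul]
  constructor
  · rintro ⟨hx, hx'⟩
    have hx := (hμ.mem_dRLat hρ x).1 hx
    refine ⟨hx, fun χ hχ hne => ?_⟩
    have : ∃ a ∈ OO k (tE k E), χ a ≠ emb L φ a := by
      by_contra hc
      push Not at hc
      exact hne (Pt.ofHom_injective (Pt.ext_OO h (ValuationSubring.mem_top _)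
        (ValuationSubring.mem_top _) hc))
    obtain ⟨a, ha, hne⟩ := this
    obtain ⟨b, rfl⟩ := (mem_OO_iff_range OE a).1 ha
    obtain ⟨c, hc⟩ := exists_OK (OK := OK) φ b
    have h1 := ((idx_ker_iff h hρ hμ hS _).1 (hx' b c hc)).2 χ hχ
    rw [hval hx χ hχ, hc] at h1
    exact (mul_eq_zero.1 h1).resolve_left (sub_ne_zero.2 hne)
  · rintro ⟨hx, hx'⟩
    have hx1 := (hμ.mem_dRLat hρ x).2 hx
    refine ⟨hx1, fun b c hc => (idx_ker_iff h hρ hμ hS _).2 ⟨(hμ.mem_dRLat hρ _).1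
      (sub_mem (Submodule.smul_mem _ _ hx1) (Submodule.smul_mem _ _ hx1)), fun χ hχ => ?_⟩⟩
    rw [hval hx χ hχ, hc]
    by_cases hne : χ = emb L φ
    · rw [hne, emb_apply, sub_self, zero_mul]
    · rw [hx' χ hχ hne, mul_zero]

theorem IsEmb.val_ne (h : FF k (tE k E)) (hρ : IsRho E K L ρ) (hμ : IsEmb ρ τ μ f I)
    {D : (E →ₐ[k] L) →₀ ℤ} (hS : Sht (AK OK K L) (tE k E) (th k K L) f I D)
    {φ : E →ₐ[RatFunc k] K} {ω : M} (hω : ω ∈ eigen OE OK τ φ) (hω' : ω ∉ dRKer k OE OK τ) :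
    val (Pt.ofHom (emb L φ)) (μ ω) ≠ 0 := by
  intro h0
  obtain ⟨h1, h2⟩ := (hμ.mem_eigen h hρ hS φ ω).1 hω
  refine hω' ((idx_ker_iff h hρ hμ hS ω).2 ⟨h1, fun χ hχ => ?_⟩)
  by_cases hne : χ = emb L φ
  · rw [hne, h0]
  · exact h2 χ hχ hne

theorem idx_formula (h : FF k (tE k E)) (P : PD k (th k K L)) (hρ : IsRho E K L ρ)
    (hμ : IsEmb ρ τ μ f I) {D : (E →ₐ[k] L) →₀ ℤ} (hS : Sht (AK OK K L) (tE k E) (th k K L) f I D)
    {φ : E →ₐ[RatFunc k] K} {ω : M} (hω : ω ∈ eigen OE OK τ φ) (hω' : ω ∉ dRKer k OE OK τ) :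
    dRIndex OE OK τ φ ω ≠ 0 ∧ Real.log (dRIndex OE OK τ φ ω) = Module.finrank (RatFunc k) K *
      ((Ifin fun v η => Real.log
          (supL (P.W v η) (Pt.ofHom (emb L φ)) (tauLat (AK OK K L) (tE k E) f I))) -
        (Ifin fun v η => Real.log ((P.W v η).v (val (Pt.ofHom (emb L φ)) (μ ω)))) +
        Ifin fun v η => Real.log (supS (P.W v η) (dif (AK OK K L) (tE k E) (emb L φ)))) := by
  have hl := hS.lat.tau hS.ne
  have hφ : emb L φ (tE k E) = th k K L := emb_t φ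
  have h0 := hS.gen0 _ hφ
  have ha := hμ.val_ne h hρ hS hω hω'
  have hE := hμ.mem_eigen h hρ hS φ
  have hV : ∀ x ∈ eigen OE OK τ φ,
      HasVal (Pt.ofHom (emb L φ)) (μ x) (val (Pt.ofHom (emb L φ)) (μ x)) :=
    fun x hx => hl.hasVal h h0 ((hE x).1 hx).1
  have hsm : ∀ (c : OK), ∀ x ∈ eigen OE OK τ φ,
      (c ⊗ₜ[k] (1 : OE) : OK ⊗[k] OE) • x ∈ eigen OE OK τ φ ∧
      val (Pt.ofHom (emb L φ)) (μ ((c ⊗ₜ[k] (1 : OE) : OK ⊗[k] OE) • x)) =
        algebraMap K L (algebraMap OK K c) * val (Pt.ofHom (emb L φ)) (μ x) := by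
    intro c x hx
    obtain ⟨h1, h2⟩ := (hE x).1 hx
    refine ⟨(hE _).2 ⟨(hμ.mem_dRLat hρ _).1
      (Submodule.smul_mem _ _ ((hμ.mem_dRLat hρ _).2 h1)), fun χ hχ hne => ?_⟩, ?_⟩
    · rw [(idx_val_smul h hρ hμ hS h1 hχ c 1).val_eq, h2 χ hχ hne, mul_zero]
    · rw [(idx_val_smul h hρ hμ hS h1 hφ c 1).val_eq, map_one, map_one, mul_one]
  generalize hadef : val (Pt.ofHom (emb L φ)) (μ ω) = a at ha
  have hinjK : Function.Injective (algebraMap K L) := (algebraMap K L).injective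
  obtain ⟨c0, hc0, hrat⟩ : ∃ c0 : OK, algebraMap OK K c0 ≠ 0 ∧ ∀ x ∈ eigen OE OK τ φ, ∃ b : OK,
      algebraMap K L (algebraMap OK K c0) * val (Pt.ofHom (emb L φ)) (μ x) =
        algebraMap K L (algebraMap OK K b) * a := by
    obtain ⟨n, m, m', hm, hm', hsum⟩ := hl.inv
    have hv' : ∀ i, HasVal (Pt.ofHom (emb L φ)) (m' i) (val (Pt.ofHom (emb L φ)) (m' i)) :=
      fun i => hl.inv_hasVal h h0 (hm' i)
    have h1 := HasVal.sum (p := Pt.ofHom (emb L φ)) Finset.univ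
      fun i _ => (hv' i).mul (hl.hasVal h h0 (hm i))
    rw [hsum] at h1
    have h2 := h1.unique (hasVal_one _)
    obtain ⟨i, -, hi⟩ := Finset.exists_ne_zero_of_sum_ne_zero (h2.trans_ne one_ne_zero)
    have h3 : ∀ x ∈ eigen OE OK τ φ, ∃ b : OK, algebraMap K L (algebraMap OK K b) =
        val (Pt.ofHom (emb L φ)) (m' i) * val (Pt.ofHom (emb L φ)) (μ x) := by
      intro x hx
      have h4 := RA_val_mem (y := emb L φ) (fun a ha => emb_mem_AK (OK := OK) φ ha)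
        (hm' i _ ((hE x).1 hx).1)
      rw [((hv' i).mul (hV x hx)).val_eq] at h4
      exact h4
    obtain ⟨c0, hc0⟩ := h3 ω hω
    rw [hadef] at hc0
    refine ⟨c0, fun hz => ?_, fun x hx => ?_⟩
    · rw [hz, map_zero] at hc0
      exact mul_ne_zero (left_ne_zero_of_mul hi) ha hc0.symm
    · obtain ⟨b, hb⟩ := h3 x hx
      exact ⟨b, by rw [hc0, hb]; ring⟩
  have hex : ∀ x : eigen OE OK τ φ, ∃ y : K,
      val (Pt.ofHom (emb L φ)) (μ x) = algebraMap K L y * a := by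
    intro x
    obtain ⟨b, hb⟩ := hrat x x.2
    have h1 : algebraMap K L (algebraMap OK K c0) ≠ 0 := (_root_.map_ne_zero _).2 hc0
    refine ⟨algebraMap OK K b / algebraMap OK K c0, ?_⟩
    rw [map_div₀, div_mul_eq_mul_div, eq_div_iff h1, mul_comm, hb]
  choose r hr using hex
  have huniq : ∀ {y y' : K}, algebraMap K L y * a = algebraMap K L y' * a → y = y' :=
    fun e => hinjK (mul_right_cancel₀ ha e)
  let r' : eigen OE OK τ φ →+ K := AddMonoidHom.mk' r fun x y => huniq (by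
    rw [← hr, map_add, add_mul, ← hr, ← hr, AddSubgroup.coe_add, map_add]
    exact ((hV x x.2).add (hV y y.2)).val_eq)
  let V : Submodule OK K :=
    { carrier := r'.range
      zero_mem' := zero_mem _
      add_mem' := fun hx hy => add_mem hx hy
      smul_mem' := by
        rintro c _ ⟨x, rfl⟩
        refine ⟨⟨_, (hsm c x x.2).1⟩, huniq ?_⟩
        show algebraMap K L (r _) * a = algebraMap K L (c • r x) * a
        rw [← hr, (hsm c x x.2).2, hr, Algebra.smul_def, map_mul, mul_assoc] }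
  have hVr : V.toAddSubgroup = r'.range := rfl
  have hmem : ∀ y, y ∈ V ↔ ∃ x, r x = y := fun y => Iff.rfl
  have h1V : (1 : K) ∈ V := (hmem 1).2 ⟨⟨ω, hω⟩, huniq (by rw [← hr, map_one, one_mul]; exact hadef)⟩
  have hcV : ∃ c : OK, c ≠ 0 ∧ ∀ y ∈ V, ∃ b : OK, algebraMap OK K b = c • y := by
    refine ⟨c0, fun hz => hc0 (by rw [hz, map_zero]), fun y hy => ?_⟩
    obtain ⟨x, rfl⟩ := (hmem y).1 hy
    obtain ⟨b, hb⟩ := hrat x x.2
    exact ⟨b, huniq (by rw [← hb, hr, Algebra.smul_def, map_mul, mul_assoc])⟩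
  obtain ⟨n1, n2, n3, n4⟩ := norm_formula P V h1V hcV
  have hidx : dRIndex OE OK τ φ ω =
      (algebraMap OK K).range.toAddSubgroup.relIndex V.toAddSubgroup := by
    rw [hVr, ← AddSubgroup.index_comap, dRIndex, AddSubgroup.relIndex]
    refine congrArg AddSubgroup.index (AddSubgroup.ext fun x => ?_)
    have key : ∀ c : OK, (x : M) - (c ⊗ₜ[k] (1 : OE) : OK ⊗[k] OE) • ω ∈ dRKer k OE OK τ ↔
        algebraMap OK K c = r x := by
      intro c
      obtain ⟨s1, s2⟩ := hsm c ω hω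
      have s3 := (hE _).1 (sub_mem x.2 s1)
      have s4 : val (Pt.ofHom (emb L φ)) (μ ((x : M) - (c ⊗ₜ[k] (1 : OE) : OK ⊗[k] OE) • ω)) =
          algebraMap K L (r x) * a - algebraMap K L (algebraMap OK K c) * a := by
        rw [map_sub, ((hV x x.2).sub (hV _ s1)).val_eq, s2, hr, hadef]
      rw [idx_ker_iff h hρ hμ hS]
      constructor
      · rintro ⟨-, s5⟩
        have s6 := s5 _ hφ
        rw [s4, sub_eq_zero] at s6
        exact (huniq s6).symm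
      · intro e
        refine ⟨s3.1, fun χ hχ => ?_⟩
        by_cases hne : χ = emb L φ
        · rw [hne, s4, e, sub_self]
        · exact s3.2 χ hχ hne
    exact exists_congr key
  rw [hidx]
  refine ⟨n1, n4.trans (congrArg _ ?_)⟩
  have hA : ∀ π η, ∀ c ∈ AK OK K L, (P.W (some π) η).v c ≤ 1 :=
    fun π η c hc => AK_le_one _ (P.W_fin_le π η) hc
  have a1 := admF_supL h hl P hA hφ h0
  have a2 := (adm_log P a).admF
  have hset : {c | ∃ x ∈ tauLat (AK OK K L) (tE k E) f I, (∀ χ : E →ₐ[k] L,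
      χ (tE k E) = emb L φ (tE k E) → χ ≠ emb L φ → val (Pt.ofHom χ) x = 0) ∧
        c = val (Pt.ofHom (emb L φ)) x} = (fun c => c * a) '' (algebraMap K L '' V) := by
    rw [hφ]
    ext c
    constructor
    · rintro ⟨x, hx, hx', rfl⟩
      have h2 : x ∈ μ.range := by rw [hμ.range]; exact hS.le hx
      obtain ⟨x, rfl⟩ := h2
      exact ⟨_, ⟨_, (hmem _).2 ⟨⟨x, (hE x).2 ⟨hx, hx'⟩⟩, rfl⟩, rfl⟩, (hr _).symm⟩
    · rintro ⟨_, ⟨y, hy, rfl⟩, rfl⟩
      obtain ⟨x, rfl⟩ := (hmem y).1 hy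
      exact ⟨μ x, ((hE _).1 x.2).1, ((hE _).1 x.2).2, (hr x).symm⟩
  have hloc : ∀ π η, Real.log (supS (P.W (some π) η) (dif (AK OK K L) (tE k E) (emb L φ))) =
      Real.log (supS (P.W (some π) η) (algebraMap K L '' V)) + Real.log ((P.W (some π) η).v a) -
        Real.log (supL (P.W (some π) η) (Pt.ofHom (emb L φ)) (tauLat (AK OK K L) (tE k E) f I)) := by
    intro π η
    have e := sup_eigen h hl (P.W (some π) η) (hA π η) (φ := emb L φ)
      (by rw [hφ]; exact P.W_fin_le π η) (by rw [hφ]; exact hS.gen0)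
    rw [hset, idx_supS_mul] at e
    have z1 := n2 π η
    have z2 : (P.W (some π) η).v a ≠ 0 := (Valuation.ne_zero_iff _).2 ha
    have z3 := mul_ne_zero z1 z2
    rw [e] at z3
    have e' := congrArg (fun s : ℝ≥0 => Real.log s) e
    simp only [NNReal.coe_mul] at e'
    rw [Real.log_mul (NNReal.coe_ne_zero.2 z1) (NNReal.coe_ne_zero.2 z2),
      Real.log_mul (NNReal.coe_ne_zero.2 (left_ne_zero_of_mul z3))
        (NNReal.coe_ne_zero.2 (right_ne_zero_of_mul z3))] at e'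
    linarith only [e']
  have hfin := Ifin_congr (Φ := fun v η => Real.log
      (supS (P.W v η) (dif (AK OK K L) (tE k E) (emb L φ))))
    (Ψ := fun v η => Real.log (supS (P.W v η) (algebraMap K L '' V)) + Real.log ((P.W v η).v a) -
      Real.log (supL (P.W v η) (Pt.ofHom (emb L φ)) (tauLat (AK OK K L) (tE k E) f I))) hloc
  rw [hfin, Ifin_sub P (n3.add a2) a1, Ifin_add P n3 a2]
  ring

end Pool.Agent.FFC
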