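import Pool.Agent.P.MP_a2beea_nt.FC.Avg

/-! The product formula. First for `x = aeval θ Q`: at `none` the absolute value is `q ^ deg Q`; at
`some π` it is `1` if `π ∤ Q` (Bezout) and multiplicative, so induct on the factorisation of `Q`.
For general `x ≠ 0`: the orbit of `x` under `GG k θ` is finite, `II (log |g x|) = II (log |x|)`
by `II_shift` and `PD.W_comap`; the product `y` of the orbit is fixed by `GG k θ`, so its minimal
polynomial over `k⟮θ⟯` has one root only (conjugates are in one orbit since `L` is an algebraic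
closure of `k⟮θ⟯`), hence `y ^ (p ^ s) ∈ k⟮θ⟯` for some `s`
(`minpoly.natSepDegree_eq_one_iff_pow_mem`, or use the constant coefficient of the minimal
polynomial `(X - y) ^ n` directly: `y ^ n ∈ k⟮θ⟯`, `n > 0`).
Finite support: clear denominators in the minimal polynomial, `∑ Q_i(θ) x ^ i = 0` with
`Q_0 Q_n ≠ 0`; if `π ∤ Q_0 Q_n` then `|x| = 1`. -/

open Polynomial
open scoped TensorProduct NNReal IntermediateField

namespace Pool.Agent.FFC

open Classical

set_option linter.unusedSectionVars false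

variable {k : Type*} [Field k] [Fintype k] {L : Type*} [Field L] [Algebra k L] [IsAlgClosed L]
  {θ : L}

theorem prod_fix (η : GG k θ) : η.1 θ = θ := η.2

theorem prod_fix_aeval (η : GG k θ) (Q : k[X]) : η.1 (aeval θ Q) = aeval θ Q := by
  have := (aeval_algHom_apply η.1 θ Q).symm
  rw [this, prod_fix]

theorem prod_W_v (P : PD k θ) (v : Pl k) (η : GG k θ) (x : L) :
    (P.W v η).v x = (P.V v).v (η.1 x) := rfl

theorem PD.W_inf (P : PD k θ) (η : GG k θ) : (P.W none η).v θ = Fintype.card k := by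
  rw [prod_W_v, prod_fix, P.inf]

theorem PD.W_fin_le (P : PD k θ) (π) (η : GG k θ) : (P.W (some π) η).v θ ≤ 1 := by
  rw [prod_W_v, prod_fix]
  exact P.fin_le π

theorem PD.W_fin_eq (P : PD k θ) (π) (η : GG k θ) :
    (P.W (some π) η).v (aeval θ π.1) = ((Fintype.card k : ℝ≥0) ^ π.1.natDegree)⁻¹ := by
  rw [prod_W_v, prod_fix_aeval, P.fin_eq]

theorem prod_v_const (w : GV k L) {c : k} (hc : c ≠ 0) : w.v (algebraMap k L c) = 1 :=
  w.triv _ (isAlgebraic_algebraMap c) (by simpa using hc)

theorem prod_v_const_le (w : GV k L) (c : k) : w.v (algebraMap k L c) ≤ 1 :=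
  w.alg_le (isAlgebraic_algebraMap c)

theorem prod_aeval_le (w : GV k L) {x : L} (hx : w.v x ≤ 1) (Q : k[X]) :
    w.v (aeval x Q) ≤ 1 := by
  rw [aeval_eq_sum_range]
  refine w.v.map_sum_le fun i _ => ?_
  rw [Algebra.smul_def, map_mul, map_pow]
  exact mul_le_one' (prod_v_const_le w _) (pow_le_one₀ zero_le hx)

theorem prod_aeval_big (w : GV k L) {x : L} (hx : 1 < w.v x) {Q : k[X]} (hQ : Q ≠ 0) :
    w.v (aeval x Q) = w.v x ^ Q.natDegree := by
  rw [aeval_eq_sum_range, Finset.sum_range_succ]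
  have h1 : w.v (Q.coeff Q.natDegree • x ^ Q.natDegree) = w.v x ^ Q.natDegree := by
    rw [Algebra.smul_def, map_mul, map_pow, prod_v_const w (by simpa using hQ), one_mul]
  rw [w.v.map_add_eq_of_lt_right, h1]
  rw [h1]
  refine w.v.map_sum_lt (by positivity) fun i hi => ?_
  rw [Algebra.smul_def, map_mul, map_pow]
  calc w.v (algebraMap k L (Q.coeff i)) * w.v x ^ i ≤ 1 * w.v x ^ i :=
        mul_le_mul_left (prod_v_const_le w _) _
    _ = w.v x ^ i := one_mul _
    _ < w.v x ^ Q.natDegree := pow_lt_pow_right₀ hx (Finset.mem_range.mp hi)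

theorem prod_one_lt_card : (1 : ℝ≥0) < Fintype.card k := by
  exact_mod_cast Fintype.one_lt_card (α := k)

theorem PD.W_inf_aeval (P : PD k θ) (η : GG k θ) {Q : k[X]} (hQ : Q ≠ 0) :
    (P.W none η).v (aeval θ Q) = (Fintype.card k : ℝ≥0) ^ Q.natDegree := by
  rw [prod_aeval_big _ (by rw [P.W_inf]; exact prod_one_lt_card) hQ, P.W_inf]

theorem prod_fin_lt (P : PD k θ) (π) (η : GG k θ) :
    (P.W (some π) η).v (aeval θ π.1) < 1 := by
  rw [P.W_fin_eq]
  exact inv_lt_one_of_one_lt₀ (one_lt_pow₀ prod_one_lt_card π.2.2.natDegree_pos.ne')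

theorem prod_fin_one (P : PD k θ) (π : {π : k[X] // π.Monic ∧ Irreducible π}) (η : GG k θ)
    {Q : k[X]} (hQ : ¬ π.1 ∣ Q) : (P.W (some π) η).v (aeval θ Q) = 1 := by
  obtain ⟨a, b, hab⟩ := (π.2.2.coprime_iff_not_dvd).mpr hQ
  have hθ := P.W_fin_le π η
  refine le_antisymm (prod_aeval_le _ hθ Q) (not_lt.mp fun hlt => ?_)
  have h1 : (P.W (some π) η).v (aeval θ (a * π.1 + b * Q)) = 1 := by rw [hab, map_one, map_one]
  rw [map_add, map_mul, map_mul] at h1
  refine absurd h1 (ne_of_lt (((P.W (some π) η).v.map_add _ _).trans_lt (max_lt ?_ ?_)))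
  · rw [map_mul]
    exact mul_lt_one_of_nonneg_of_lt_one_right (prod_aeval_le _ hθ a) zero_le (prod_fin_lt P π η)
  · rw [map_mul]
    exact mul_lt_one_of_nonneg_of_lt_one_right (prod_aeval_le _ hθ b) zero_le hlt

theorem prod_dvd_finite {s : k[X]} (hs : s ≠ 0) :
    {π : {π : k[X] // π.Monic ∧ Irreducible π} | π.1 ∣ s}.Finite := by
  refine Set.Finite.of_finite_image (f := Subtype.val) ?_ Subtype.val_injective.injOn
  refine (UniqueFactorizationMonoid.normalizedFactors s).toFinset.finite_toSet.subset ?_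
  rintro _ ⟨π, hπ, rfl⟩
  rw [Finset.mem_coe, Multiset.mem_toFinset, Polynomial.mem_normalizedFactors_iff hs]
  exact ⟨π.2.2, π.2.1, hπ⟩

theorem prod_opt_finite {S : Set (Pl k)} (h : {π | some π ∈ S}.Finite) : S.Finite := by
  refine ((h.image some).insert none).subset ?_
  rintro (_ | π) hv
  · exact Set.mem_insert _ _
  · exact Set.mem_insert_of_mem _ ⟨π, hv, rfl⟩

theorem prod_cof_adj (P : PD k θ) {x : L} (hx : x ∈ k⟮θ⟯) :
    {v : Pl k | ∃ η, 1 < (P.W v η).v x}.Finite := by
  obtain ⟨r, s, rfl⟩ := (IntermediateField.mem_adjoin_simple_iff k x).mp hx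
  by_cases hs : s = 0
  · simp [hs]
  refine prod_opt_finite ((prod_dvd_finite hs).subset ?_)
  rintro π ⟨η, hη⟩
  by_contra hnd
  rw [map_div₀, prod_fin_one P π η hnd, div_one] at hη
  exact absurd (prod_aeval_le _ (P.W_fin_le π η) r) (not_le.mpr hη)

theorem prod_cof_le (P : PD k θ) (x : L) : {v : Pl k | ∃ η, 1 < (P.W v η).v x}.Finite := by
  have hi : IsIntegral k⟮θ⟯ x := (P.alg x).isIntegral
  set m := minpoly k⟮θ⟯ x with hm
  have hmon : m.Monic := minpoly.monic hi
  refine (Set.Finite.biUnion (Finset.range m.natDegree).finite_toSet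
    fun i _ => prod_cof_adj P (m.coeff i).2).subset ?_
  rintro v ⟨η, hη⟩
  by_contra hn
  simp only [Set.mem_iUnion, Set.mem_ofPred_eq, not_exists, not_lt] at hn
  have h0 : aeval x m = 0 := minpoly.aeval _ _
  rw [aeval_eq_sum_range, Finset.sum_range_succ, hmon.coeff_natDegree, one_smul] at h0
  have h1 : (P.W v η).v (∑ i ∈ Finset.range m.natDegree, m.coeff i • x ^ i) <
      (P.W v η).v x ^ m.natDegree := by
    refine (P.W v η).v.map_sum_lt (by positivity) fun i hi => ?_
    rw [Algebra.smul_def, map_mul, map_pow]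
    calc (P.W v η).v (algebraMap k⟮θ⟯ L (m.coeff i)) * (P.W v η).v x ^ i
        ≤ 1 * (P.W v η).v x ^ i := mul_le_mul_left (hn i hi η) _
      _ = (P.W v η).v x ^ i := one_mul _
      _ < (P.W v η).v x ^ m.natDegree := pow_lt_pow_right₀ hη (Finset.mem_range.mp hi)
  rw [eq_neg_of_add_eq_zero_left h0, Valuation.map_neg, map_pow] at h1
  exact lt_irrefl _ h1

theorem cofinite_eq_one (P : PD k θ) {x : L} (hx : x ≠ 0) :
    {v : Pl k | ∃ η, (P.W v η).v x ≠ 1}.Finite := by
  refine ((prod_cof_le P x).union (prod_cof_le P x⁻¹)).subset ?_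
  rintro v ⟨η, hη⟩
  rcases lt_or_gt_of_ne hη with h | h
  · refine Or.inr ⟨η, ?_⟩
    rw [map_inv₀]
    exact one_lt_inv_iff₀.mpr ⟨pos_iff_ne_zero.mpr (by simpa using hx), h⟩
  · exact Or.inl ⟨η, h⟩

theorem adm_fun (P : PD k θ) (x : L) (F : ℝ≥0 → ℝ) (h0 : F 0 = 0) (h1 : F 1 = 0) :
    Adm fun v η => F ((P.W v η).v x) := by
  refine ⟨fun v => ⟨{x}, fun η η' h => ?_⟩, ?_⟩
  · simp only [prod_W_v, h x (Finset.mem_singleton_self x)]
  · by_cases hx : x = 0
    · refine Set.finite_empty.subset fun v hv => hv (funext fun η => ?_)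
      simp [hx, h0]
    · refine (cofinite_eq_one P hx).subset fun v hv => ?_
      by_contra hn
      simp only [Set.mem_ofPred_eq, not_exists, not_not] at hn
      exact hv (funext fun η => by simp [hn η, h1])

theorem adm_log (P : PD k θ) (x : L) : Adm fun v η => Real.log ((P.W v η).v x) :=
  adm_fun P x (fun r => Real.log r) (by simp) (by simp)

theorem adm_posLog (P : PD k θ) (x : L) : Adm fun v η => Real.posLog ((P.W v η).v x) :=
  adm_fun P x (fun r => Real.posLog r) (by simp) (by simp)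

theorem adm_log_sup (P : PD k θ) (s : Finset L) :
    Adm fun v η => Real.log (s.sup fun c => (P.W v η).v c : ℝ≥0) := by
  refine ⟨fun v => ⟨s, fun η η' h => ?_⟩, ?_⟩
  · have : (s.sup fun c => (P.W v η).v c) = s.sup fun c => (P.W v η').v c :=
      Finset.sup_congr rfl fun c hc => by simp only [prod_W_v, h c hc]
    simp only [this]
  · refine (Set.Finite.biUnion (s.filter (· ≠ 0)).finite_toSet
      fun c hc => cofinite_eq_one P (x := c) (Finset.mem_filter.mp hc).2).subset fun v hv => ?_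
    by_contra hn
    simp only [Set.mem_iUnion, Set.mem_ofPred_eq, not_exists, not_not, Finset.mem_coe,
      Finset.mem_filter] at hn
    refine hv (funext fun η => ?_)
    have key : (s.sup fun c => (P.W v η).v c) = 0 ∨ (s.sup fun c => (P.W v η).v c) = 1 := by
      refine Finset.sup_induction (p := fun r : ℝ≥0 => r = 0 ∨ r = 1) (Or.inl rfl) ?_ ?_
      · rintro a (rfl | rfl) b (rfl | rfl) <;> simp
      · intro c hc
        by_cases h0 : c = 0
        · simp [h0]
        · exact Or.inr (hn c ⟨hc, h0⟩ η)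
    rcases key with h | h <;> simp [h]

/-- The sum of the logarithms of all absolute values. -/
noncomputable def prodP (P : PD k θ) (x : L) : ℝ := II fun v η => Real.log ((P.W v η).v x)

theorem prodP_zero (P : PD k θ) : prodP P 0 = 0 := by
  simpa [prodP] using II_zero (k := k) (θ := θ)

theorem prodP_const (P : PD k θ) {c : L} (hc : IsAlgebraic k c) : prodP P c = 0 := by
  by_cases h0 : c = 0
  · rw [h0, prodP_zero]
  · have : (fun v η => Real.log ((P.W v η).v c)) = fun _ _ => (0 : ℝ) := by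
      funext v η
      rw [(P.W v η).triv c hc h0]
      simp
    rw [prodP, this, II_zero]

theorem prodP_mul (P : PD k θ) {x y : L} (hx : x ≠ 0) (hy : y ≠ 0) :
    prodP P (x * y) = prodP P x + prodP P y := by
  unfold prodP
  rw [← II_add P (adm_log P x) (adm_log P y)]
  congr 1
  funext v η
  rw [map_mul, NNReal.coe_mul, Real.log_mul (by simpa using hx) (by simpa using hy)]

theorem prodP_inv (P : PD k θ) (x : L) : prodP P x⁻¹ = -prodP P x := by
  by_cases hx : x = 0
  · simp [hx, prodP_zero]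
  · have := prodP_mul P hx (inv_ne_zero hx)
    rw [mul_inv_cancel₀ hx, prodP_const P isAlgebraic_one] at this
    linarith

theorem prodP_GG (P : PD k θ) (g : GG k θ) (x : L) : prodP P (g.1 x) = prodP P x := by
  unfold prodP
  rw [← II_shift (fun v η => Real.log ((P.W v η).v x)) g]
  congr 1

theorem prodP_irred (P : PD k θ) (π : {π : k[X] // π.Monic ∧ Irreducible π}) :
    prodP P (aeval θ π.1) = 0 := by
  unfold prodP II
  rw [finsum_eq_sum_of_support_subset (s := {none, some π})]
  · rw [Finset.sum_pair (by simp)]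
    simp only [P.W_inf_aeval _ π.2.1.ne_zero, P.W_fin_eq, avg_const]
    simp
  · rintro (_ | ρ) hv
    · simp
    · by_contra hn
      have hne : ρ ≠ π := by
        rintro rfl
        exact hn (by simp)
      have hnd : ¬ ρ.1 ∣ π.1 := fun hd => hne (Subtype.ext
        (eq_of_monic_of_associated ρ.2.1 π.2.1 (ρ.2.2.associated_of_dvd π.2.2 hd)))
      refine hv ?_
      simp only [prod_fin_one P ρ _ hnd, avg_const]
      simp

theorem prod_aeval_ne (P : PD k θ) {Q : k[X]} (hQ : Q ≠ 0) : aeval θ Q ≠ 0 :=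
  fun h => P.trans ⟨Q, hQ, h⟩

theorem prodP_aeval (P : PD k θ) (Q : k[X]) : prodP P (aeval θ Q) = 0 := by
  induction Q using WfDvdMonoid.induction_on_irreducible with
  | zero => rw [map_zero, prodP_zero]
  | unit u hu =>
    obtain ⟨c, -, rfl⟩ := Polynomial.isUnit_iff.mp hu
    rw [aeval_C]
    exact prodP_const P (isAlgebraic_algebraMap c)
  | mul a i ha hi ih =>
    rw [map_mul, prodP_mul P (prod_aeval_ne P hi.ne_zero) (prod_aeval_ne P ha), ih, add_zero]
    have hl : i.leadingCoeff ≠ 0 := leadingCoeff_ne_zero.mpr hi.ne_zero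
    have hm : (i * C i.leadingCoeff⁻¹).Monic := monic_mul_leadingCoeff_inv hi.ne_zero
    have hir : Irreducible (i * C i.leadingCoeff⁻¹) :=
      (irreducible_mul_isUnit (isUnit_C.mpr (inv_ne_zero hl).isUnit)).mpr hi
    have h1 := prodP_irred P ⟨_, hm, hir⟩
    simp only at h1
    rw [map_mul, prodP_mul P (prod_aeval_ne P hi.ne_zero)
      (prod_aeval_ne P (C_ne_zero.mpr (inv_ne_zero hl))), aeval_C,
      prodP_const P (isAlgebraic_algebraMap _), add_zero] at h1
    exact h1

theorem prodP_adj (P : PD k θ) {x : L} (hx : x ∈ k⟮θ⟯) : prodP P x = 0 := by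
  obtain ⟨r, s, rfl⟩ := (IntermediateField.mem_adjoin_simple_iff k x).mp hx
  by_cases hr : aeval θ r = 0
  · rw [hr, zero_div, prodP_zero]
  by_cases hs : aeval θ s = 0
  · rw [hs, div_zero, prodP_zero]
  rw [div_eq_mul_inv, prodP_mul P hr (inv_ne_zero hs), prodP_inv, prodP_aeval, prodP_aeval]
  simp

theorem prodP_multiset (P : PD k θ) (c : ℝ) (s : Multiset L)
    (h : ∀ y ∈ s, y ≠ 0 ∧ prodP P y = c) : s.prod ≠ 0 ∧ prodP P s.prod = s.card * c := by
  induction s using Multiset.induction_on with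
  | empty => simpa using prodP_const P isAlgebraic_one
  | cons a s ih =>
    obtain ⟨h1, h2⟩ := ih fun y hy => h y (Multiset.mem_cons_of_mem hy)
    obtain ⟨h3, h4⟩ := h a (Multiset.mem_cons_self a s)
    rw [Multiset.prod_cons, prodP_mul P h3 h1, h2, h4, Multiset.card_cons]
    refine ⟨mul_ne_zero h3 h1, ?_⟩
    push_cast
    ring

theorem prod_formula (P : PD k θ) (x : L) : II (fun v η => Real.log ((P.W v η).v x)) = 0 := by
  change prodP P x = 0
  by_cases hx : x = 0
  · rw [hx, prodP_zero]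
  have : Algebra.IsAlgebraic k⟮θ⟯ L := ⟨P.alg⟩
  have : IsAlgClosure k⟮θ⟯ L := ⟨inferInstance, inferInstance⟩
  have hi : IsIntegral k⟮θ⟯ x := (P.alg x).isIntegral
  set m := minpoly k⟮θ⟯ x with hm
  have hmon : m.Monic := minpoly.monic hi
  have hsp : (m.map (algebraMap k⟮θ⟯ L)).Splits := IsAlgClosed.splits _
  have hc := hsp.coeff_zero_eq_prod_roots_of_monic (hmon.map _)
  have hroots : ∀ y ∈ (m.map (algebraMap k⟮θ⟯ L)).roots, y ≠ 0 ∧ prodP P y = prodP P x := by
    intro y hy
    have hy' : aeval y m = 0 := by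
      have := (mem_roots (hmon.map _).ne_zero).mp hy
      rwa [IsRoot.def, eval_map_algebraMap] at this
    obtain ⟨σ, hσ⟩ := minpoly.exists_algEquiv_of_root' (P.alg x) hy'
    have hg : σ.restrictScalars k ∈ GG k θ :=
      σ.commutes (IntermediateField.AdjoinSimple.gen k θ)
    rw [← hσ]
    exact ⟨by simpa using hx, prodP_GG P ⟨_, hg⟩ x⟩
  obtain ⟨h1, h2⟩ := prodP_multiset P _ _ hroots
  have h3 : prodP P ((m.map (algebraMap k⟮θ⟯ L)).coeff 0) = 0 := by
    rw [coeff_map]
    exact prodP_adj P (m.coeff 0).2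
  rw [hc, prodP_mul P (by simp) h1, prodP_const P (isAlgebraic_one.neg.pow _), zero_add, h2,
    ← hsp.natDegree_eq_card_roots, hmon.natDegree_map] at h3
  have h4 : (m.natDegree : ℝ) ≠ 0 := by exact_mod_cast (minpoly.natDegree_pos hi).ne'
  exact (mul_eq_zero.mp h3).resolve_left h4

theorem II_posLog_theta (P : PD k θ) :
    II (fun v η => Real.posLog ((P.W v η).v θ)) = Real.log (Fintype.card k) := by
  unfold II
  rw [finsum_eq_single _ none]
  · simp only [P.W_inf, avg_const]
    rw [Real.posLog_eq_log]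
    · simp
    · rw [abs_of_nonneg (NNReal.coe_nonneg _)]
      exact_mod_cast (prod_one_lt_card (k := k)).le
  · rintro (_ | π) hv
    · exact absurd rfl hv
    · have : (fun η => Real.posLog ((P.W (some π) η).v θ)) = fun _ => (0 : ℝ) := by
        funext η
        rw [Real.posLog_eq_zero_iff, abs_of_nonneg (NNReal.coe_nonneg _)]
        exact_mod_cast P.W_fin_le π η
      simp only [this, avg_const]

theorem prod_isAlgClosure (P : PD k θ) (K : IntermediateField k L) (hK : θ ∈ K) :
    IsAlgClosure K L := by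
  have hle : k⟮θ⟯ ≤ K := IntermediateField.adjoin_simple_le_iff.mpr hK
  refine ⟨inferInstance, ⟨fun x => ?_⟩⟩
  let : Algebra k⟮θ⟯ K := (IntermediateField.inclusion hle).toRingHom.toAlgebra
  have : IsScalarTower k⟮θ⟯ K L := IsScalarTower.of_algebraMap_eq fun _ => rfl
  exact (P.alg x).tower_top K

/-- Two embeddings which agree on `t` and send it to `θ` are conjugate. -/
theorem exists_GG (P : PD k θ) {E : Type*} [Field E] [Algebra k E] {t : E} (h : FF k t)
    {φ χ : E →ₐ[k] L} (hφ : φ t = θ) (hχ : χ t = θ) : ∃ g : GG k θ, tw g.1 φ = χ := by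
  have := prod_isAlgClosure P φ.fieldRange ⟨t, hφ⟩
  have := prod_isAlgClosure P χ.fieldRange ⟨t, hχ⟩
  let e : φ.fieldRange ≃ₐ[k] χ.fieldRange :=
    (AlgEquiv.ofInjectiveField φ).symm.trans (AlgEquiv.ofInjectiveField χ)
  let f : L ≃+* L := IsAlgClosure.equivOfEquiv L L e.toRingEquiv
  have hf : ∀ a : E, f (φ a) = χ a := by
    intro a
    have h1 := IsAlgClosure.equivOfEquiv_algebraMap L L e.toRingEquiv
      (AlgEquiv.ofInjectiveField φ a)
    have h2 : e.toRingEquiv (AlgEquiv.ofInjectiveField φ a) = AlgEquiv.ofInjectiveField χ a :=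
      congrArg (AlgEquiv.ofInjectiveField χ) ((AlgEquiv.ofInjectiveField φ).symm_apply_apply a)
    rw [h2] at h1
    exact h1
  let g : L ≃ₐ[k] L := AlgEquiv.ofRingEquiv (f := f) fun c => by
    have h1 := hf (algebraMap k E c)
    rwa [φ.commutes, χ.commutes] at h1
  have hg : g ∈ GG k θ := by
    change f θ = θ
    rw [← hφ, hf, hχ, hφ]
  exact ⟨⟨g, hg⟩, AlgHom.ext hf⟩

end Pool.Agent.FFC
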