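import Pool.Agent.P.MP_a2beea_nt.FC.Bridge
import Pool.Agent.P.MP_a2beea_nt.FC.Prod

/-! Indices of fractional ideals. `OK` is a Dedekind domain, finite and free over `k[X]`
(`IsIntegralClosure.isDedekindDomain`, `IsIntegralClosure.finite`, `IsIntegralClosure.module_free`).
`norm_principal`: `finrank_quotient_span_eq_natDegree_norm`; the norm is the product of the
conjugates (`Algebra.norm_eq_prod_automorphisms`), each conjugate has the same `Ifin`
(`exists_res`, `Ifin_shift`, `PD.W_comap`), and for a polynomial in `θ` use `prod_formula`,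
`II_eq`, `PD.W_inf_aeval`. `norm_ideal`: the class group is finite
(`ClassGroup.fintypeOfAdmissibleOfFinite` with `Polynomial.cardPowDegreeIsAdmissible`), so
`𝔞 ^ n = span {a}`; `Nat.card` of the quotient is multiplicative in a Dedekind domain
(`cardQuot_mul_of_coprime`, `cardQuot_pow_of_prime`, see the proof of `Submodule.cardQuot_mul`),
and at a finite place `supS` is the largest absolute value of a generator (`AK_le_one`), which is
multiplicative. `norm_formula`: `c V` is an ideal `𝔞 ∋ c`, and the index is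
`card (OK / c) / card (OK / 𝔞)`. -/

open Polynomial
open scoped TensorProduct NNReal IntermediateField

namespace Pool.Agent.FFC

open Classical

variable {k : Type*} [Field k] [Fintype k] {E K : Type*} [Field E] [Field K]
  [Algebra k E] [Algebra k[X] E] [Algebra (RatFunc k) E] [IsScalarTower k k[X] E]
  [IsScalarTower k[X] (RatFunc k) E]
  [Algebra k K] [Algebra k[X] K] [Algebra (RatFunc k) K] [IsScalarTower k k[X] K]
  [IsScalarTower k[X] (RatFunc k) K]
  [FiniteDimensional (RatFunc k) E] [Algebra.IsSeparable (RatFunc k) E]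
  [FiniteDimensional (RatFunc k) K] [IsGalois (RatFunc k) K]
  {OE OK : Type*} [CommRing OE] [CommRing OK]
  [Algebra k OE] [Algebra k[X] OE] [Algebra OE E] [IsScalarTower k k[X] OE]
  [IsScalarTower k[X] OE E] [IsIntegralClosure OE k[X] E]
  [Algebra k OK] [Algebra k[X] OK] [Algebra OK K] [IsScalarTower k k[X] OK]
  [IsScalarTower k[X] OK K] [IsIntegralClosure OK k[X] K]
  {L : Type*} [Field L] [Algebra k L] [Algebra K L] [IsScalarTower k K L] [IsAlgClosed L]
  [Algebra.IsAlgebraic K L]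

omit [Fintype k] [IsScalarTower k K L] [IsAlgClosed L] in
theorem normI_supS_eq (w : GV k L) {V : Set L} {a : L} (ha : a ∈ V)
    (h : ∀ x ∈ V, w.v x ≤ w.v a) : supS w V = w.v a := by
  refine IsGreatest.csSup_eq ⟨⟨a, ha, rfl⟩, ?_⟩
  rintro _ ⟨x, hx, rfl⟩
  exact h x hx

theorem normI_cardQuot_mul {S : Type*} [CommRing S] [IsDedekindDomain S] [Infinite S]
    (I J : Ideal S) :
    Submodule.cardQuot (I * J) = Submodule.cardQuot I * Submodule.cardQuot J :=
  UniqueFactorizationMonoid.multiplicative_of_coprime Submodule.cardQuot I J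
    (Submodule.cardQuot_bot _ _)
    (fun {I J} hI => by simp [Ideal.isUnit_iff.mp hI, Ideal.mul_top])
    (fun {I} i hI =>
      have : Ideal.IsPrime I := Ideal.isPrime_of_prime hI
      cardQuot_pow_of_prime hI.ne_zero)
    fun {I J} hIJ => cardQuot_mul_of_coprime <| Ideal.isCoprime_iff_sup_eq.mpr
      (Ideal.isUnit_iff.mp
        (hIJ (Ideal.dvd_iff_le.mpr le_sup_left) (Ideal.dvd_iff_le.mpr le_sup_right)))

theorem normI_cardQuot_pow {S : Type*} [CommRing S] [IsDedekindDomain S] [Infinite S]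
    (I : Ideal S) (n : ℕ) : Nat.card (S ⧸ I ^ n) = Nat.card (S ⧸ I) ^ n := by
  change Submodule.cardQuot (I ^ n) = Submodule.cardQuot I ^ n
  induction n with
  | zero => simp
  | succ n ih => rw [pow_succ, normI_cardQuot_mul, ih, pow_succ]

/-- The supremum over an ideal with finitely many generators. -/
theorem normI_span_le {S : Type*} [CommRing S] (f : S →*₀ ℝ≥0) (h1 : ∀ c, f c ≤ 1)
    (hadd : ∀ x y, f (x + y) ≤ max (f x) (f y)) (s : Finset S) {x : S}
    (hx : x ∈ Ideal.span (s : Set S)) : f x ≤ s.sup f := by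
  induction hx using Submodule.span_induction with
  | mem x hx => exact Finset.le_sup hx
  | zero => simp
  | add x y _ _ hx hy => exact (hadd x y).trans (max_le hx hy)
  | smul c x _ hx =>
    rw [smul_eq_mul, map_mul]
    exact (mul_le_of_le_one_left' (h1 c)).trans hx

theorem normI_exists_max {S : Type*} [CommRing S] (f : S →*₀ ℝ≥0) (h1 : ∀ c, f c ≤ 1)
    (hadd : ∀ x y, f (x + y) ≤ max (f x) (f y)) (s : Finset S) :
    ∃ a ∈ Ideal.span (s : Set S), f a = s.sup f ∧ ∀ x ∈ Ideal.span (s : Set S), f x ≤ f a := by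
  rcases s.eq_empty_or_nonempty with rfl | hs
  · refine ⟨0, zero_mem _, by simp, fun x hx => ?_⟩
    simpa using normI_span_le f h1 hadd ∅ hx
  · obtain ⟨a, ha, e⟩ := Finset.exists_mem_eq_sup s hs f
    exact ⟨a, Ideal.subset_span ha, e.symm, fun x hx => e ▸ normI_span_le f h1 hadd s hx⟩

theorem normI_pow_le {S : Type*} [CommRing S] (f : S →*₀ ℝ≥0)
    (hadd : ∀ x y, f (x + y) ≤ max (f x) (f y)) {I : Ideal S} {r : ℝ≥0} (h : ∀ x ∈ I, f x ≤ r)
    (n : ℕ) : ∀ x ∈ I ^ (n + 1), f x ≤ r ^ (n + 1) := by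
  induction n with
  | zero => simpa using h
  | succ n ih =>
    intro x hx
    rw [pow_succ] at hx
    refine Submodule.mul_induction_on hx (fun a ha b hb => ?_) fun a b ha hb =>
      (hadd a b).trans (max_le ha hb)
    rw [map_mul, pow_succ]
    exact mul_le_mul' (ih a ha) (h b hb)

variable (OK K) in
/-- The absolute value on `O_K` induced by a valuation of `L`. -/
noncomputable def normV (w : GV k L) : OK →*₀ ℝ≥0 :=
  w.v.toMonoidWithZeroHom.comp ((algebraMap K L).comp (algebraMap OK K)).toMonoidWithZeroHom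

omit [Fintype k] [IsScalarTower k K L] [IsAlgClosed L] [Algebra.IsAlgebraic K L] in
theorem normV_apply (w : GV k L) (c : OK) :
    normV K OK w c = w.v (algebraMap K L (algebraMap OK K c)) := rfl

omit [Fintype k] [IsScalarTower k K L] [IsAlgClosed L] [Algebra.IsAlgebraic K L] in
theorem normV_add (w : GV k L) (x y : OK) :
    normV K OK w (x + y) ≤ max (normV K OK w x) (normV K OK w y) := by
  simp only [normV_apply, map_add]
  exact w.v.map_add _ _

theorem normV_le (P : PD k (th k K L)) (π) (η : GG k (th k K L)) (c : OK) :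
    normV K OK (P.W (some π) η) c ≤ 1 :=
  AK_le_one (OK := OK) (K := K) _ (P.W_fin_le π η) ⟨c, rfl⟩

omit [IsScalarTower k K L] [IsAlgClosed L] [Algebra.IsAlgebraic K L] in
theorem normI_supS_ideal (w : GV k L) {𝔞 : Ideal OK} {a : OK} (ha : a ∈ 𝔞)
    (h : ∀ x ∈ 𝔞, normV K OK w x ≤ normV K OK w a) :
    supS w ((fun c => algebraMap K L (algebraMap OK K c)) '' 𝔞) = normV K OK w a := by
  refine normI_supS_eq w ⟨a, ha, rfl⟩ ?_
  rintro _ ⟨x, hx, rfl⟩
  exact h x hx

theorem normI_aeval (Q : k[X]) : algebraMap K L (algebraMap k[X] K Q) = aeval (th k K L) Q := by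
  have h1 : algebraMap k[X] K Q = aeval (algebraMap k[X] K X) Q := by
    have := Polynomial.aeval_algHom_apply (IsScalarTower.toAlgHom k k[X] K) X Q
    rw [aeval_X_left_apply] at this
    exact this.symm
  rw [Polynomial.aeval_algebraMap_apply, ← h1]

theorem normI_Ifin_aeval {θ : L} (P : PD k θ) {Q : k[X]} (hQ : Q ≠ 0) :
    (Ifin fun v η => Real.log ((P.W v η).v (aeval θ Q))) =
      -(Q.natDegree * Real.log (Fintype.card k)) := by
  have h := prod_formula P (aeval θ Q)
  rw [II_eq (adm_log P _)] at h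
  simp only [P.W_inf_aeval _ hQ, avg_const] at h
  rw [NNReal.coe_pow, NNReal.coe_natCast, Real.log_pow] at h
  linarith

theorem normI_Ifin_conj (P : PD k (th k K L)) (σ : K ≃ₐ[RatFunc k] K) (x : K) :
    (Ifin fun v η => Real.log ((P.W v η).v (algebraMap K L (σ x)))) =
      Ifin fun v η => Real.log ((P.W v η).v (algebraMap K L x)) := by
  obtain ⟨res, hres⟩ := exists_res (k := k) (K := K) (L := L)
  obtain ⟨g, rfl⟩ := hres.1 σ
  rw [← Ifin_shift (fun v η => Real.log ((P.W v η).v (algebraMap K L x))) g]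
  refine Ifin_congr fun π η => ?_
  rw [hres.2, ← PD.W_comap, GV.comap_v]

theorem normI_Ifin_norm (P : PD k (th k K L)) {x : K} (hx : x ≠ 0) :
    (Ifin fun v η => Real.log ((P.W v η).v
      (algebraMap K L (algebraMap (RatFunc k) K (Algebra.norm (RatFunc k) x))))) =
      Module.finrank (RatFunc k) K *
        Ifin fun v η => Real.log ((P.W v η).v (algebraMap K L x)) := by
  rw [Algebra.norm_eq_prod_automorphisms]
  have e : (Ifin fun v η => Real.log ((P.W v η).v
      (algebraMap K L (∏ σ : K ≃ₐ[RatFunc k] K, σ x)))) =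
      Ifin fun v η => ∑ σ : K ≃ₐ[RatFunc k] K, Real.log ((P.W v η).v (algebraMap K L (σ x))) := by
    refine Ifin_congr fun π η => ?_
    rw [map_prod, map_prod, NNReal.coe_prod, Real.log_prod]
    intro σ _
    simpa using hx
  rw [e, Ifin_sum P _ fun σ _ => (adm_log P _).admF,
    Finset.sum_congr rfl fun σ _ => normI_Ifin_conj P σ x, Finset.sum_const, Finset.card_univ,
    nsmul_eq_mul, ← Nat.card_eq_fintype_card, IsGalois.card_aut_eq_finrank]

theorem norm_principal (P : PD k (th k K L)) {a : OK} (ha : a ≠ 0) :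
    Finite (OK ⧸ Ideal.span {a}) ∧ Real.log (Nat.card (OK ⧸ Ideal.span {a})) =
      -(Module.finrank (RatFunc k) K *
        Ifin fun v η => Real.log ((P.W v η).v (algebraMap K L (algebraMap OK K a)))) := by
  have hinj := IsIntegralClosure.algebraMap_injective OK k[X] K
  have : IsDomain OK := hinj.isDomain _
  have : Module.Finite k[X] OK := IsIntegralClosure.finite k[X] (RatFunc k) K OK
  have : Module.IsTorsionFree k[X] K := .trans_faithfulSMul k[X] (RatFunc k) K
  have : Module.Free k[X] OK := IsIntegralClosure.module_free k[X] (RatFunc k) K OK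
  have := IsIntegralClosure.isLocalization k[X] (RatFunc k) K OK
  have hI : Ideal.span {a} ≠ ⊥ := Ideal.span_singleton_eq_bot.not.2 ha
  let b := Module.Free.chooseBasis k[X] OK
  have : Module.Finite k (OK ⧸ Ideal.span {a}) :=
    Module.Finite.equiv (Ideal.quotientEquivDirectSum k b hI).symm
  refine ⟨Module.finite_of_finite k, ?_⟩
  have hN : Algebra.norm k[X] a ≠ 0 := Algebra.norm_ne_zero_iff.2 ha
  have ha' : algebraMap OK K a ≠ 0 := (map_ne_zero_iff _ hinj).2 ha
  rw [← normI_Ifin_norm P ha', Algebra.norm_localization k[X] (nonZeroDivisors k[X]),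
    ← IsScalarTower.algebraMap_apply k[X] (RatFunc k) K, normI_aeval, normI_Ifin_aeval P hN, neg_neg,
    Module.natCard_eq_pow_finrank (K := k), finrank_quotient_span_eq_natDegree_norm b ha,
    Nat.cast_pow, Real.log_pow, Nat.card_eq_fintype_card]

theorem normI_max (P : PD k (th k K L)) (𝔞 : Ideal OK) : ∃ s : Finset OK, ∀ π η, ∃ a ∈ 𝔞,
    normV K OK (P.W (some π) η) a = s.sup (normV K OK (P.W (some π) η)) ∧
      ∀ x ∈ 𝔞, normV K OK (P.W (some π) η) x ≤ normV K OK (P.W (some π) η) a := by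
  have : IsNoetherianRing OK := IsIntegralClosure.isNoetherianRing k[X] (RatFunc k) K OK
  obtain ⟨s, rfl⟩ := IsNoetherian.noetherian 𝔞
  exact ⟨s, fun π η => normI_exists_max _ (normV_le P π η) (normV_add _) s⟩

theorem norm_ideal (P : PD k (th k K L)) {𝔞 : Ideal OK} (ha : 𝔞 ≠ ⊥) :
    AdmF (fun v η => Real.log
        (supS (P.W v η) ((fun c => algebraMap K L (algebraMap OK K c)) '' 𝔞))) ∧
      Real.log (Nat.card (OK ⧸ 𝔞)) = -(Module.finrank (RatFunc k) K * Ifin fun v η => Real.log
        (supS (P.W v η) ((fun c => algebraMap K L (algebraMap OK K c)) '' 𝔞))) := by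
  have hinj := IsIntegralClosure.algebraMap_injective OK k[X] K
  have : IsDomain OK := hinj.isDomain _
  have : IsDedekindDomain OK := IsIntegralClosure.isDedekindDomain k[X] (RatFunc k) K OK
  have : Module.IsTorsionFree k[X] K := .trans_faithfulSMul k[X] (RatFunc k) K
  have : Module.IsTorsionFree k[X] OK := IsIntegralClosure.isTorsionFree k[X] K
  have : Infinite OK := Infinite.of_injective _ (FaithfulSMul.algebraMap_injective k[X] OK)
  let : Fintype (ClassGroup OK) := ClassGroup.fintypeOfAdmissibleOfFinite (RatFunc k) K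
    (Polynomial.cardPowDegreeIsAdmissible :
      AbsoluteValue.IsAdmissible (Polynomial.cardPowDegree : AbsoluteValue k[X] ℤ))
  obtain ⟨s, hs⟩ := normI_max P 𝔞
  have hadm : AdmF (fun v η => Real.log
      (supS (P.W v η) ((fun c => algebraMap K L (algebraMap OK K c)) '' 𝔞))) := by
    refine (adm_log_sup P (s.image fun c => algebraMap K L (algebraMap OK K c))).admF.congr
      fun π η => ?_
    obtain ⟨a, ha1, ha2, ha3⟩ := hs π η
    rw [normI_supS_ideal _ ha1 ha3, ha2, Finset.sup_image]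
    rfl
  refine ⟨hadm, ?_⟩
  obtain ⟨n, hn⟩ : ∃ n, Fintype.card (ClassGroup OK) = n + 1 :=
    Nat.exists_eq_succ_of_ne_zero Fintype.card_ne_zero
  have hpr : (𝔞 ^ (n + 1)).IsPrincipal := by
    rw [← ClassGroup.mk0_eq_one_iff (pow_mem (mem_nonZeroDivisors_of_ne_zero ha) (n + 1)),
      ← SubmonoidClass.mk_pow (hx := mem_nonZeroDivisors_of_ne_zero ha), map_pow, ← hn,
      pow_card_eq_one]
  obtain ⟨b, hb⟩ := hpr.principal
  have hb' : 𝔞 ^ (n + 1) = Ideal.span {b} := hb
  have hb0 : b ≠ 0 := by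
    rintro rfl
    rw [Ideal.span_singleton_eq_bot.2 rfl] at hb'
    exact pow_ne_zero (n + 1) ha hb'
  have h1 := (norm_principal P hb0).2
  rw [← hb', normI_cardQuot_pow, Nat.cast_pow, Real.log_pow] at h1
  have h2 : (Ifin fun v η => Real.log ((P.W v η).v (algebraMap K L (algebraMap OK K b)))) =
      Ifin fun v η => ((n + 1 : ℕ) : ℝ) * Real.log
        (supS (P.W v η) ((fun c => algebraMap K L (algebraMap OK K c)) '' 𝔞)) := by
    refine Ifin_congr fun π η => ?_
    obtain ⟨a, ha1, -, ha3⟩ := hs π η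
    rw [normI_supS_ideal _ ha1 ha3, ← Real.log_pow, ← NNReal.coe_pow, ← normV_apply]
    congr 2
    refine le_antisymm (normI_pow_le _ (normV_add _) ha3 n b
      (hb' ▸ Ideal.mem_span_singleton_self b)) ?_
    obtain ⟨c, hc⟩ := Ideal.mem_span_singleton'.1 (hb' ▸ Ideal.pow_mem_pow ha1 (n + 1))
    rw [← map_pow, ← hc, map_mul]
    exact mul_le_of_le_one_left' (normV_le P π η c)
  rw [h2, Ifin_const_mul P hadm] at h1
  have hn0 : ((n + 1 : ℕ) : ℝ) ≠ 0 := Nat.cast_ne_zero.2 n.succ_ne_zero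
  refine mul_left_cancel₀ hn0 ?_
  rw [h1]
  ring

theorem norm_formula (P : PD k (th k K L)) (V : Submodule OK K) (h1 : (1 : K) ∈ V)
    (hV : ∃ c : OK, c ≠ 0 ∧ ∀ y ∈ V, ∃ b : OK, algebraMap OK K b = c • y) :
    (algebraMap OK K).range.toAddSubgroup.relIndex V.toAddSubgroup ≠ 0 ∧
      (∀ π η, supS (P.W (some π) η) (algebraMap K L '' V) ≠ 0) ∧
      AdmF (fun v η => Real.log (supS (P.W v η) (algebraMap K L '' V))) ∧
      Real.log ((algebraMap OK K).range.toAddSubgroup.relIndex V.toAddSubgroup) =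
        Module.finrank (RatFunc k) K *
          Ifin fun v η => Real.log (supS (P.W v η) (algebraMap K L '' V)) := by
  obtain ⟨c, hc0, hc⟩ := hV
  have hinj := IsIntegralClosure.algebraMap_injective OK k[X] K
  have hc' : algebraMap OK K c ≠ 0 := (map_ne_zero_iff _ hinj).2 hc0
  obtain ⟨𝔞, h𝔞⟩ : ∃ 𝔞 : Ideal OK, ∀ b, b ∈ 𝔞 ↔ ∃ y ∈ V, algebraMap OK K b = c • y :=
    ⟨(V.map (LinearMap.lsmul OK K c)).comap (Algebra.linearMap OK K), fun b => by
      simp only [Submodule.mem_comap, Submodule.mem_map, Algebra.linearMap_apply,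
        LinearMap.lsmul_apply, eq_comm]⟩
  have hca : c ∈ 𝔞 := (h𝔞 c).2 ⟨1, h1, by rw [Algebra.smul_def, mul_one]⟩
  have ha0 : 𝔞 ≠ ⊥ := fun h => hc0 (by rwa [h] at hca)
  have hle : (Ideal.span {c}).toAddSubgroup ≤ 𝔞.toAddSubgroup :=
    (Ideal.span_singleton_le_iff_mem 𝔞).2 hca
  have hidx : (algebraMap OK K).range.toAddSubgroup.relIndex V.toAddSubgroup =
      (Ideal.span {c}).toAddSubgroup.relIndex 𝔞.toAddSubgroup := by
    rw [← AddSubgroup.relIndex_map_map_of_injective
        (f := AddMonoidHom.mulLeft (algebraMap OK K c)) _ _ (mul_right_injective₀ hc'),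
      ← AddSubgroup.relIndex_map_map_of_injective
        (f := (algebraMap OK K).toAddMonoidHom) _ 𝔞.toAddSubgroup hinj]
    congr 1
    · ext x
      simp only [AddSubgroup.mem_map, Subring.mem_toAddSubgroup, RingHom.mem_range,
        Submodule.mem_toAddSubgroup, Ideal.mem_span_singleton', AddMonoidHom.coe_mulLeft,
        RingHom.toAddMonoidHom_eq_coe, AddMonoidHom.coe_coe]
      constructor
      · rintro ⟨_, ⟨b, rfl⟩, rfl⟩
        exact ⟨_, ⟨b, rfl⟩, by rw [map_mul, mul_comm]⟩
      · rintro ⟨_, ⟨b, rfl⟩, rfl⟩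
        exact ⟨_, ⟨b, rfl⟩, by rw [map_mul, mul_comm]⟩
    · ext x
      simp only [AddSubgroup.mem_map, Submodule.mem_toAddSubgroup, AddMonoidHom.coe_mulLeft,
        RingHom.toAddMonoidHom_eq_coe, AddMonoidHom.coe_coe]
      constructor
      · rintro ⟨y, hy, rfl⟩
        obtain ⟨b, hb⟩ := hc y hy
        exact ⟨b, (h𝔞 b).2 ⟨y, hy, hb⟩, by rw [hb, Algebra.smul_def]⟩
      · rintro ⟨b, hb, rfl⟩
        obtain ⟨y, hy, e⟩ := (h𝔞 b).1 hb
        exact ⟨y, hy, by rw [e, Algebra.smul_def]⟩
  have hmul : (Ideal.span {c}).toAddSubgroup.relIndex 𝔞.toAddSubgroup * Nat.card (OK ⧸ 𝔞) =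
      Nat.card (OK ⧸ Ideal.span {c}) := AddSubgroup.relIndex_mul_index hle
  obtain ⟨hfin, hp⟩ := norm_principal P hc0
  have hpos : Nat.card (OK ⧸ Ideal.span {c}) ≠ 0 := Nat.card_pos.ne'
  rw [← hmul] at hpos
  obtain ⟨hr0, hq0⟩ := mul_ne_zero_iff.1 hpos
  obtain ⟨hadm, hi⟩ := norm_ideal P ha0
  obtain ⟨s, hs⟩ := normI_max P 𝔞
  have key : ∀ π η, supS (P.W (some π) η) (algebraMap K L '' V) ≠ 0 ∧
      Real.log (supS (P.W (some π) η) ((fun c => algebraMap K L (algebraMap OK K c)) '' 𝔞)) -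
        Real.log ((P.W (some π) η).v (algebraMap K L (algebraMap OK K c))) =
      Real.log (supS (P.W (some π) η) (algebraMap K L '' V)) := by
    intro π η
    obtain ⟨a, ha1, -, ha3⟩ := hs π η
    obtain ⟨y, hy, e⟩ := (h𝔞 a).1 ha1
    have hv : (P.W (some π) η).v (algebraMap K L (algebraMap OK K c)) ≠ 0 := by simpa using hc'
    have hmax : ∀ z ∈ V, (P.W (some π) η).v (algebraMap K L z) ≤
        (P.W (some π) η).v (algebraMap K L y) := by
      intro z hz
      obtain ⟨b, hb⟩ := hc z hz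
      have := ha3 b ((h𝔞 b).2 ⟨z, hz, hb⟩)
      rw [normV_apply, normV_apply, hb, e, Algebra.smul_def, Algebra.smul_def, map_mul, map_mul,
        map_mul, map_mul] at this
      exact le_of_mul_le_mul_left this (pos_iff_ne_zero.2 hv)
    have hsup : supS (P.W (some π) η) (algebraMap K L '' V) =
        (P.W (some π) η).v (algebraMap K L y) := by
      refine normI_supS_eq _ ⟨y, hy, rfl⟩ ?_
      rintro _ ⟨z, hz, rfl⟩
      exact hmax z hz
    have hy0 : (P.W (some π) η).v (algebraMap K L y) ≠ 0 := by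
      have := hmax 1 h1
      rw [map_one, map_one] at this
      exact (zero_lt_one.trans_le this).ne'
    refine ⟨hsup ▸ hy0, ?_⟩
    rw [hsup, normI_supS_ideal _ ha1 ha3, normV_apply, e, Algebra.smul_def, map_mul, map_mul,
      NNReal.coe_mul, Real.log_mul (NNReal.coe_ne_zero.2 hv) (NNReal.coe_ne_zero.2 hy0)]
    ring
  have hadc := (adm_log P (algebraMap K L (algebraMap OK K c))).admF
  refine ⟨hidx ▸ hr0, fun π η => (key π η).1, (hadm.sub hadc).congr fun π η => (key π η).2, ?_⟩
  have hI := Ifin_sub P hadm hadc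
  rw [Ifin_congr (Ψ := fun v η => Real.log (supS (P.W v η) (algebraMap K L '' V)))
    fun π η => (key π η).2] at hI
  rw [hI, hidx]
  rw [← hmul, Nat.cast_mul, Real.log_mul (Nat.cast_ne_zero.2 hr0) (Nat.cast_ne_zero.2 hq0)] at hp
  linarith

end Pool.Agent.FFC
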