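import Pool.Agent.P.MP_a2beea_nt.FC.Two0
import Pool.Agent.P.MP_a2beea_nt.FC.Norm

/-! The norm formulas over the bigger field of constants. By `hk`, `K` and `OK` become `k`-algebras
(choose preimages; `algebraMap K L` and `algebraMap OK K` are injective) compatibly with `k₀` and
`L`. Take the structure of `exists_ext k₀ k K`, let `k[X]` act on `OK` through
`aeval (algebraMap k₀[X] OK X)`; `OK` is the integral closure of `k[X]` in `K`. Since
`th k K L = th k₀ K L`, generalize `θ` (or `subst`) to transport `P`, and apply `norm_ideal`,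
`norm_formula`. It is convenient to prove one lemma which returns all the instances. -/

open Polynomial
open scoped TensorProduct NNReal IntermediateField

namespace Pool.Agent.FFC

open Classical

variable {k₀ : Type*} [Field k₀] [Fintype k₀] {E K : Type*} [Field E] [Field K]
  [Algebra k₀ E] [Algebra k₀[X] E] [Algebra (RatFunc k₀) E] [IsScalarTower k₀ k₀[X] E]
  [IsScalarTower k₀[X] (RatFunc k₀) E]
  [Algebra k₀ K] [Algebra k₀[X] K] [Algebra (RatFunc k₀) K] [IsScalarTower k₀ k₀[X] K]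
  [IsScalarTower k₀[X] (RatFunc k₀) K]
  [FiniteDimensional (RatFunc k₀) E] [Algebra.IsSeparable (RatFunc k₀) E]
  [FiniteDimensional (RatFunc k₀) K] [IsGalois (RatFunc k₀) K]
  {OE OK : Type*} [CommRing OE] [CommRing OK]
  [Algebra k₀ OE] [Algebra k₀[X] OE] [Algebra OE E] [IsScalarTower k₀ k₀[X] OE]
  [IsScalarTower k₀[X] OE E] [IsIntegralClosure OE k₀[X] E]
  [Algebra k₀ OK] [Algebra k₀[X] OK] [Algebra OK K] [IsScalarTower k₀ k₀[X] OK]
  [IsScalarTower k₀[X] OK K] [IsIntegralClosure OK k₀[X] K]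
  {L : Type*} [Field L] [Algebra k₀ L] [Algebra K L] [IsScalarTower k₀ K L] [IsAlgClosed L]
  [Algebra.IsAlgebraic K L]
  {k : Type*} [Field k] [Fintype k] [Algebra k₀ k] [Algebra k E] [IsScalarTower k₀ k E]
  [Algebra k L] [IsScalarTower k₀ k L]

private theorem Two1_lift {A B C : Type*} [CommRing A] [CommRing B] [CommRing C] (j : A →+* C)
    (hj : Function.Injective j) (φ : B →+* C) (h : ∀ b, ∃ a, j a = φ b) :
    ∃ ψ : B →+* A, ∀ b, j (ψ b) = φ b := by
  choose f hf using h
  exact ⟨⟨⟨⟨f, hj (by simp [hf])⟩, fun x y => hj (by simp [hf])⟩, hj (by simp [hf]),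
    fun x y => hj (by simp [hf])⟩, hf⟩

omit [IsAlgClosed L] [Algebra.IsAlgebraic K L] [Algebra k₀ OK] [IsScalarTower k₀ k₀[X] OK]
  [Algebra k₀[X] OK] [IsScalarTower k₀[X] OK K] [Fintype k₀] in
private theorem Two1_inst (hk : ∀ c : k, algebraMap k L c ∈ AK OK K L) :
    ∃ (_ : Algebra k K) (_ : Algebra k[X] K) (_ : Algebra (RatFunc k) K)
      (_ : IsScalarTower k k[X] K) (_ : IsScalarTower k[X] (RatFunc k) K)
      (_ : FiniteDimensional (RatFunc k) K) (_ : IsGalois (RatFunc k) K) (_ : Algebra k OK)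
      (_ : Algebra k[X] OK) (_ : IsScalarTower k k[X] OK) (_ : IsScalarTower k[X] OK K)
      (_ : IsIntegralClosure OK k[X] K) (_ : IsScalarTower k K L), th k₀ K L = th k K L ∧
        Module.finrank (RatFunc k₀) K = Module.finrank k₀ k * Module.finrank (RatFunc k) K := by
  have hinj := IsIntegralClosure.algebraMap_injective OK k₀[X] K
  obtain ⟨ψ, hψ⟩ := Two1_lift (algebraMap K L) (algebraMap K L).injective (algebraMap k L)
    fun c => (hk c).elim fun a ha => ⟨_, ha⟩
  let : Algebra k K := ψ.toAlgebra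
  have : IsScalarTower k K L := IsScalarTower.of_algebraMap_eq fun c => (hψ c).symm
  have : IsScalarTower k₀ k K := IsScalarTower.of_algebraMap_eq fun c =>
    (algebraMap K L).injective (by
      simp only [← IsScalarTower.algebraMap_apply])
  obtain ⟨_, _, _, _, ht, _, hr, -, hG, hI⟩ := exists_ext k₀ k K
  obtain ⟨χ, hχ⟩ := Two1_lift (algebraMap OK K) hinj (algebraMap k[X] K) fun q =>
    IsIntegralClosure.isIntegral_iff.mp ((hI _).mp isIntegral_algebraMap)
  let : Algebra k[X] OK := χ.toAlgebra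
  let : Algebra k OK := (χ.comp (algebraMap k k[X])).toAlgebra
  exact ⟨_, _, _, ‹_›, ‹_›, ‹_›, hG ‹_›, _, _, IsScalarTower.of_algebraMap_eq fun _ => rfl,
    IsScalarTower.of_algebraMap_eq fun q => (hχ q).symm,
    ⟨hinj, (hI _).trans IsIntegralClosure.isIntegral_iff⟩, ‹_›,
    congrArg (algebraMap K L) ht.symm, hr⟩

theorem norm_ideal2 (hk : ∀ c : k, algebraMap k L c ∈ AK OK K L) (P : PD k (th k₀ K L)) {𝔞 : Ideal OK}
    (ha : 𝔞 ≠ ⊥) :
    AdmF (fun v η => Real.log
        (supS (P.W v η) ((fun c => algebraMap K L (algebraMap OK K c)) '' 𝔞))) ∧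
      (Module.finrank k₀ k) * Real.log (Nat.card (OK ⧸ 𝔞)) = -((Module.finrank (RatFunc k₀) K : ℝ) * Ifin fun v η =>
        Real.log (supS (P.W v η) ((fun c => algebraMap K L (algebraMap OK K c)) '' 𝔞))) := by
  obtain ⟨_, _, _, _, _, _, _, _, _, _, _, _, _, ht, hr⟩ := Two1_inst (k₀ := k₀) hk
  revert P
  rw [ht, hr]
  intro P
  obtain ⟨h1, h2⟩ := norm_ideal P ha
  exact ⟨h1, by rw [h2, Nat.cast_mul]; ring⟩

theorem norm_formula2 (hk : ∀ c : k, algebraMap k L c ∈ AK OK K L) (P : PD k (th k₀ K L))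
    (V : Submodule OK K) (h1 : (1 : K) ∈ V)
    (hV : ∃ c : OK, c ≠ 0 ∧ ∀ y ∈ V, ∃ b : OK, algebraMap OK K b = c • y) :
    (algebraMap OK K).range.toAddSubgroup.relIndex V.toAddSubgroup ≠ 0 ∧
      (∀ π η, supS (P.W (some π) η) (algebraMap K L '' V) ≠ 0) ∧
      AdmF (fun v η => Real.log (supS (P.W v η) (algebraMap K L '' V))) ∧
      (Module.finrank k₀ k) * Real.log ((algebraMap OK K).range.toAddSubgroup.relIndex V.toAddSubgroup) =
        (Module.finrank (RatFunc k₀) K : ℝ) *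
          Ifin fun v η => Real.log (supS (P.W v η) (algebraMap K L '' V)) := by
  obtain ⟨_, _, _, _, _, _, _, _, _, _, _, _, _, ht, hr⟩ := Two1_inst (k₀ := k₀) hk
  revert P
  rw [ht, hr]
  intro P
  obtain ⟨h2, h3, h4, h5⟩ := norm_formula P V h1 hV
  exact ⟨h2, h3, h4, by rw [h5, Nat.cast_mul]; ring⟩

end Pool.Agent.FFC
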