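import Pool.Agent.P.MP_a2beea_nt.FC.EmbN
import Pool.Agent.P.MP_a2beea_nt.FC.Idx
import Pool.Agent.P.MP_a2beea_nt.FC.Two1
import Pool.Agent.P.MP_a2beea_nt.FC.LatB2
import Pool.Agent.P.MP_a2beea_nt.FC.JZ2

/-! The de Rham index; follow `Idx`. `mem_dRKer2`: `Lat.div` for the lattice `Nb b` over `AKp b` at
`θ ^ p ^ b` (`Lev.gen0`, `lev_trans`); conversely if `μ (τ^[b] x) = (t - θ_b) μ (τ^[b] x_b)` put
`x' = ∑ ε b • x_b` and apply `IsEmb2.joint` to `x - jj • x'` (`smul_iter`, `IsIdem.val`, `map_jj`).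
`mem_eigen2`: the value of `μ (τ^[b] ((1 ⊗ x - c ⊗ 1) • m))` at `χ` is
`(χ x - c ^ p ^ b) * value` (`map_gen`, `not_lift`). `idx_formula2`: let `a` be the value of
`μ (τ^[b] ω)` at `y` and `V = {z : K | ∃ x ∈ eigen, value of μ (τ^[b] x) at y = z ^ p ^ b * a}`;
the values of members of `RA (AKp b)` at `y` are `p ^ b`-th powers of members of `OK`
(`RA_val_mem`, `IsLift.mem_AKp`, `mem_AKp_iff`). A member `μ (τ^[b] x)` of `Nb b` which vanishes at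
the other points above `θ ^ p ^ b` is `μ (τ^[b] (ε b • x))` with `ε b • x ∈ eigen`. At a finite
place `supS V ^ p ^ b * |a| = supS dif * supL` (`sup_eigen`); use `norm_formula2`,
`admF_supL2`. -/

open Polynomial
open scoped TensorProduct NNReal IntermediateField

namespace Pool.Agent.FFC

open Classical

variable {k₀ : Type*} [Field k₀] [Fintype k₀] {E K : Type*} [Field E] [Field K]
  [Algebra k₀ E] [Algebra k₀[X] E] [Algebra (RatFunc k₀) E] [IsScalarTower k₀ k₀[X] E]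
  [IsScalarTower k₀[X] (RatFunc k₀) E]
  [Algebra k₀ K] [Algebra k₀[X] K] [Algebra (RatFunc k₀) K] [IsScalarTower k₀ k₀[X] K]
  [IsScalarTower k₀[X] (RatFunc k₀) K]
  [FiniteDimensional (RatFunc k₀) E] [Algebra.IsSeparable (RatFunc k₀) E]
  [FiniteDimensional (RatFunc k₀) K] [IsGalois (RatFunc k₀) K]
  {OE OK : Type*} [CommRing OE] [CommRing OK]
  [Algebra k₀ OE] [Algebra k₀[X] OE] [Algebra OE E] [IsScalarTower k₀ k₀[X] OE]
  [IsScalarTower k₀[X] OE E] [IsIntegralClosure OE k₀[X] E]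
  [Algebra k₀ OK] [Algebra k₀[X] OK] [Algebra OK K] [IsScalarTower k₀ k₀[X] OK]
  [IsScalarTower k₀[X] OK K] [IsIntegralClosure OK k₀[X] K]
  {L : Type*} [Field L] [Algebra k₀ L] [Algebra K L] [IsScalarTower k₀ K L] [IsAlgClosed L]
  [Algebra.IsAlgebraic K L]
  {k : Type*} [Field k] [Fintype k] [Algebra k₀ k] [Algebra k E] [IsScalarTower k₀ k E]
  [Algebra k L] [IsScalarTower k₀ k L]
  [IsDomain (L ⊗[k] E)] [Nonempty (GV k L)]
  [Fintype (E →ₐ[RatFunc k₀] K)] {M : Type*} [AddCommGroup M] [Module (OK ⊗[k₀] OE) M]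
  {τ : M →+ M} {d : (E →ₐ[RatFunc k₀] K) → ℕ}
  {ρ : OK ⊗[k₀] OE →+* FL k E L} {ε : ℕ → OK ⊗[k₀] OE}
  {μ : M →+ FL k E L} {f : FL k E L} {I : AddSubgroup (FL k E L)}
  {D : ℕ → (E →ₐ[k] L) →₀ ℤ} {φ : E →ₐ[RatFunc k₀] K} {b : ℕ} {y : E →ₐ[k] L} {ω : M}

set_option linter.unusedSectionVars false

theorem idx2_supS_pow (w : GV k L) (T : Set L) {n : ℕ} (hn : n ≠ 0) (h0 : supS w T ≠ 0) :
    supS w ((fun c => c ^ n) '' T) = supS w T ^ n := by
  have e : {r | ∃ x ∈ (fun c => c ^ n) '' T, r = w.v x} =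
      NNReal.powOrderIso n hn '' {r | ∃ x ∈ T, r = w.v x} := by
    ext r
    constructor
    · rintro ⟨_, ⟨x, hx, rfl⟩, rfl⟩
      exact ⟨_, ⟨x, hx, rfl⟩, (map_pow _ _ _).symm⟩
    · rintro ⟨_, ⟨x, hx, rfl⟩, rfl⟩
      exact ⟨_, ⟨x, hx, rfl⟩, (map_pow _ _ _).symm⟩
  unfold supS at h0 ⊢
  rw [e]
  refine ((NNReal.powOrderIso n hn).map_csSup' ?_ ?_).symm
  · by_contra hc
    exact h0 (by rw [Set.not_nonempty_iff_eq_empty.1 hc, csSup_empty]; rfl)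
  · by_contra hc
    exact h0 (by rw [csSup_of_not_bddAbove hc, csSup_empty]; rfl)

theorem idx2_hasVal (h : FF k (tE k₀ E))
    (hS : Sht2 (AK OK K L) (tE k₀ E) (th k₀ K L) (Fintype.card k₀) (Module.finrank k₀ k) f I D)
    (hL : Lev (AK OK K L) (tE k₀ E) (th k₀ K L) (Fintype.card k₀)
      (Module.finrank k₀ k) f I D b (AKp k₀ OK K L b) (Nb k₀ OE OK τ μ b))
    {x : M} (hx : x ∈ dRLat k₀ OE OK τ) {χ : E →ₐ[k] L}
    (hχ : χ (tE k₀ E) = th k₀ K L ^ Fintype.card k₀ ^ b) :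
    HasVal (Pt.ofHom χ) (μ (τ^[b] x)) (val (Pt.ofHom χ) (μ (τ^[b] x))) :=
  hL.lat.hasVal h (hL.gen0 hS hχ) ⟨x, hx, rfl⟩

theorem idx2_val_smul (h : FF k (tE k₀ E)) (hρ : IsRho2 K ρ) (hM : IsCMMotive OE OK d τ)
    (hμ : IsEmb2 ρ (Module.finrank k₀ k) ε τ μ f I)
    (hS : Sht2 (AK OK K L) (tE k₀ E) (th k₀ K L) (Fintype.card k₀) (Module.finrank k₀ k) f I D)
    (hL : Lev (AK OK K L) (tE k₀ E) (th k₀ K L) (Fintype.card k₀)
      (Module.finrank k₀ k) f I D b (AKp k₀ OK K L b) (Nb k₀ OE OK τ μ b))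
    {x : M} (hx : x ∈ dRLat k₀ OE OK τ) {χ : E →ₐ[k] L}
    (hχ : χ (tE k₀ E) = th k₀ K L ^ Fintype.card k₀ ^ b) (c : OK) (a : OE) :
    HasVal (Pt.ofHom χ) (μ (τ^[b] ((c ⊗ₜ[k₀] a : OK ⊗[k₀] OE) • x)))
      (algebraMap K L (algebraMap OK K c) ^ Fintype.card k₀ ^ b * χ (algebraMap OE E a) *
        val (Pt.ofHom χ) (μ (τ^[b] x))) := by
  rw [hμ.smul_iter hM, sig_pow_tmul, hρ, map_pow, map_pow]
  exact (hasVal_tm (Pt.ofHom χ) _ (ValuationSubring.mem_top _)).mul (idx2_hasVal h hS hL hx hχ)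

theorem idx2_eps (hε : IsIdem ρ (Module.finrank k₀ k) ε) (hM : IsCMMotive OE OK d τ)
    (hμ : IsEmb2 ρ (Module.finrank k₀ k) ε τ μ f I) (hb : b < Module.finrank k₀ k) {b' : ℕ}
    (hb' : b' < Module.finrank k₀ k) (x : M) :
    μ (τ^[b'] (ε b • x)) = if b' = b then μ (τ^[b'] x) else 0 := by
  rw [hμ.smul_iter hM, hε.val b hb b' hb', ite_mul, one_mul, zero_mul]

theorem mem_dRKer2 (h : FF k (tE k₀ E)) (hρ : IsRho2 K ρ)
    (hε : IsIdem ρ (Module.finrank k₀ k) ε) (hM : IsCMMotive OE OK d τ)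
    (hμ : IsEmb2 ρ (Module.finrank k₀ k) ε τ μ f I)
    (hS : Sht2 (AK OK K L) (tE k₀ E) (th k₀ K L) (Fintype.card k₀) (Module.finrank k₀ k) f I D)
    (hL : ∀ b < (Module.finrank k₀ k), Lev (AK OK K L) (tE k₀ E) (th k₀ K L) (Fintype.card k₀)
      (Module.finrank k₀ k) f I D b (AKp k₀ OK K L b) (Nb k₀ OE OK τ μ b))
    (x : M) : x ∈ dRKer k₀ OE OK τ ↔ x ∈ dRLat k₀ OE OK τ ∧ ∀ b < (Module.finrank k₀ k),
      ∀ χ : E →ₐ[k] L, χ (tE k₀ E) = (th k₀ K L) ^ (Fintype.card k₀) ^ b →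
        val (Pt.ofHom χ) (μ (τ^[b] x)) = 0 := by
  have hdiv := fun b (hb : b < Module.finrank k₀ k) (hx : x ∈ dRLat k₀ OE OK τ) =>
    (hL b hb).lat.div h (lev_trans hS.trans hS.one_lt b) (hL b hb).mem (hL b hb).alg_mem
      (fun χ hχ => (hL b hb).gen0 hS hχ) (x := μ (τ^[b] x)) ⟨x, hx, rfl⟩
  unfold dRKer
  rw [Submodule.ideal_span_singleton_smul, Submodule.mem_smul_pointwise_iff_exists]
  constructor
  · rintro ⟨x', hx', e⟩
    have hx : x ∈ dRLat k₀ OE OK τ := e ▸ Submodule.smul_mem _ _ hx'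
    exact ⟨hx, fun b hb => (hdiv b hb hx).2 ⟨_, ⟨x', hx', rfl⟩, by
      rw [← e, hμ.smul_iter hM, hρ.map_jj]⟩⟩
  · rintro ⟨hx, h0⟩
    have : ∀ b < Module.finrank k₀ k, ∃ z ∈ dRLat k₀ OE OK τ, μ (τ^[b] x) =
        (tm 1 (tE k₀ E) - tm (th k₀ K L ^ Fintype.card k₀ ^ b) 1) * μ (τ^[b] z) := fun b hb => by
      obtain ⟨_, ⟨z, hz, rfl⟩, e⟩ := (hdiv b hb hx).1 (h0 b hb)
      exact ⟨z, hz, e⟩
    choose! z hz e using this
    refine ⟨∑ b ∈ Finset.range (Module.finrank k₀ k), ε b • z b,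
      sum_mem fun b hb => Submodule.smul_mem _ _ (hz b (Finset.mem_range.1 hb)),
      sub_eq_zero.1 (hμ.joint h hρ hε hM fun b hb => ?_)⟩
    let ν : M →+ FL k E L := AddMonoidHom.mk' (fun x => μ (τ^[b] x)) fun x y => by
      rw [iterate_map_add, map_add]
    have e1 : ν (∑ b ∈ Finset.range (Module.finrank k₀ k), ε b • z b) = μ (τ^[b] (z b)) := by
      rw [map_sum]
      exact (Finset.sum_eq_single_of_mem b (Finset.mem_range.2 hb) fun b' hb' hne =>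
        (idx2_eps hε hM hμ (Finset.mem_range.1 hb') hb _).trans (if_neg hne.symm)).trans
          ((idx2_eps hε hM hμ hb hb _).trans (if_pos rfl))
    rw [iterate_map_sub, map_sub, hμ.smul_iter hM, hρ.map_jj, e b hb, ← e1]
    exact sub_self _

theorem mem_eigen2 (h : FF k (tE k₀ E)) (hρ : IsRho2 K ρ)
    (hε : IsIdem ρ (Module.finrank k₀ k) ε) (hM : IsCMMotive OE OK d τ)
    (hμ : IsEmb2 ρ (Module.finrank k₀ k) ε τ μ f I)
    (hS : Sht2 (AK OK K L) (tE k₀ E) (th k₀ K L) (Fintype.card k₀) (Module.finrank k₀ k) f I D)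
    (hL : ∀ b < (Module.finrank k₀ k), Lev (AK OK K L) (tE k₀ E) (th k₀ K L) (Fintype.card k₀)
      (Module.finrank k₀ k) f I D b (AKp k₀ OK K L b) (Nb k₀ OE OK τ μ b))
    (φ : (E →ₐ[RatFunc k₀] K)) (x : M) :
    x ∈ eigen OE OK τ φ ↔ x ∈ dRLat k₀ OE OK τ ∧ ∀ b < (Module.finrank k₀ k),
      ∀ χ : E →ₐ[k] L, χ (tE k₀ E) = (th k₀ K L) ^ (Fintype.card k₀) ^ b → ¬IsLift k₀ φ b χ →
        val (Pt.ofHom χ) (μ (τ^[b] x)) = 0 := by
  have hval : ∀ (_ : x ∈ dRLat k₀ OE OK τ), ∀ b < Module.finrank k₀ k, ∀ (χ : E →ₐ[k] L)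
      (_ : χ (tE k₀ E) = th k₀ K L ^ Fintype.card k₀ ^ b) (a : OE) (c : OK),
      val (Pt.ofHom χ) (μ (τ^[b] (((1 : OK) ⊗ₜ[k₀] a : OK ⊗[k₀] OE) • x -
        (c ⊗ₜ[k₀] (1 : OE) : OK ⊗[k₀] OE) • x))) =
        (χ (algebraMap OE E a) - algebraMap K L (algebraMap OK K c) ^ Fintype.card k₀ ^ b) *
          val (Pt.ofHom χ) (μ (τ^[b] x)) := by
    intro hx b hb χ hχ a c
    rw [iterate_map_sub, map_sub, ((idx2_val_smul h hρ hM hμ hS (hL b hb) hx hχ 1 a).sub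
      (idx2_val_smul h hρ hM hμ hS (hL b hb) hx hχ c 1)).val_eq]
    simp only [map_one, one_pow, one_mul, mul_one, sub_mul]
  constructor
  · rintro ⟨hx, hx'⟩
    refine ⟨hx, fun b hb χ hχ hne => ?_⟩
    obtain ⟨a, c, hc, hne⟩ := not_lift OE OK hne
    have h1 := ((mem_dRKer2 h hρ hε hM hμ hS hL _).1 (hx' a c hc)).2 b hb χ hχ
    rw [hval hx b hb χ hχ] at h1
    exact (mul_eq_zero.1 h1).resolve_left (sub_ne_zero.2 hne)
  · rintro ⟨hx, hx'⟩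
    refine ⟨hx, fun a c hc => (mem_dRKer2 h hρ hε hM hμ hS hL _).2
      ⟨sub_mem (Submodule.smul_mem _ _ hx) (Submodule.smul_mem _ _ hx), fun b hb χ hχ => ?_⟩⟩
    rw [hval hx b hb χ hχ, hc]
    by_cases hne : IsLift k₀ φ b χ
    · rw [hne, sub_self, zero_mul]
    · rw [hx' b hb χ hχ hne, mul_zero]

theorem val_ne2 (h : FF k (tE k₀ E)) (hρ : IsRho2 K ρ)
    (hε : IsIdem ρ (Module.finrank k₀ k) ε) (hM : IsCMMotive OE OK d τ)
    (hμ : IsEmb2 ρ (Module.finrank k₀ k) ε τ μ f I)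
    (hS : Sht2 (AK OK K L) (tE k₀ E) (th k₀ K L) (Fintype.card k₀) (Module.finrank k₀ k) f I D)
    (hL : ∀ b < (Module.finrank k₀ k), Lev (AK OK K L) (tE k₀ E) (th k₀ K L) (Fintype.card k₀)
      (Module.finrank k₀ k) f I D b (AKp k₀ OK K L b) (Nb k₀ OE OK τ μ b))
    (hb : b < (Module.finrank k₀ k)) (hy : IsLift k₀ φ b y) (hω : ω ∈ eigen OE OK τ φ)
    (hω' : ω ∉ dRKer k₀ OE OK τ) : val (Pt.ofHom y) (μ (τ^[b] ω)) ≠ 0 := by
  intro h0
  obtain ⟨h1, h2⟩ := (mem_eigen2 h hρ hε hM hμ hS hL φ ω).1 hω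
  refine hω' ((mem_dRKer2 h hρ hε hM hμ hS hL ω).2 ⟨h1, fun b' hb' χ hχ => ?_⟩)
  by_cases hne : IsLift k₀ φ b' χ
  · obtain rfl := hy.level hne hb hb'
    rwa [← hy.unique hne]
  · exact h2 b' hb' χ hχ hne

theorem eps_ker (h : FF k (tE k₀ E)) (hρ : IsRho2 K ρ)
    (hε : IsIdem ρ (Module.finrank k₀ k) ε) (hM : IsCMMotive OE OK d τ)
    (hμ : IsEmb2 ρ (Module.finrank k₀ k) ε τ μ f I)
    (hS : Sht2 (AK OK K L) (tE k₀ E) (th k₀ K L) (Fintype.card k₀) (Module.finrank k₀ k) f I D)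
    (hL : ∀ b < (Module.finrank k₀ k), Lev (AK OK K L) (tE k₀ E) (th k₀ K L) (Fintype.card k₀)
      (Module.finrank k₀ k) f I D b (AKp k₀ OK K L b) (Nb k₀ OE OK τ μ b))
    (hb : b < (Module.finrank k₀ k)) (hy : IsLift k₀ φ b y) (hω : ω ∈ eigen OE OK τ φ) :
    (1 - ε b) • ω ∈ dRKer k₀ OE OK τ := by
  obtain ⟨h1, h2⟩ := (mem_eigen2 h hρ hε hM hμ hS hL φ ω).1 hω
  refine (mem_dRKer2 h hρ hε hM hμ hS hL _).2 ⟨Submodule.smul_mem _ _ h1, fun b' hb' χ hχ => ?_⟩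
  rw [sub_smul, one_smul, iterate_map_sub, map_sub, idx2_eps hε hM hμ hb hb']
  split_ifs with e
  · rw [sub_self, (hasVal_zero _).val_eq]
  · rw [sub_zero]
    exact h2 b' hb' χ hχ fun hl => e (hl.level hy hb' hb)

theorem idx_formula2 (h : FF k (tE k₀ E)) (hρ : IsRho2 K ρ)
    (hε : IsIdem ρ (Module.finrank k₀ k) ε) (hM : IsCMMotive OE OK d τ)
    (hμ : IsEmb2 ρ (Module.finrank k₀ k) ε τ μ f I)
    (hS : Sht2 (AK OK K L) (tE k₀ E) (th k₀ K L) (Fintype.card k₀) (Module.finrank k₀ k) f I D)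
    (hL : ∀ b < (Module.finrank k₀ k), Lev (AK OK K L) (tE k₀ E) (th k₀ K L) (Fintype.card k₀)
      (Module.finrank k₀ k) f I D b (AKp k₀ OK K L b) (Nb k₀ OE OK τ μ b))
    (P : PD k (th k₀ K L)) (hb : b < (Module.finrank k₀ k)) (hy : IsLift k₀ φ b y)
    (hω : ω ∈ eigen OE OK τ φ) (hω' : ω ∉ dRKer k₀ OE OK τ) :
    dRIndex OE OK τ φ ω ≠ 0 ∧
      (Module.finrank k₀ k) * (Fintype.card k₀ : ℝ) ^ b * Real.log (dRIndex OE OK τ φ ω) =
        (Module.finrank (RatFunc k₀) K : ℝ) *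
          ((Ifin fun v η => Real.log (supL (P.W v η) (Pt.ofHom y) (Nb k₀ OE OK τ μ b))) -
            (Ifin fun v η => Real.log ((P.W v η).v (val (Pt.ofHom y) (μ (τ^[b] ω))))) +
            Ifin fun v η =>
              Real.log (supS (P.W v η) (dif (AKp k₀ OK K L b) (tE k₀ E) y))) := by
  have hl := (hL b hb).lat
  have hφ := hy.map_t
  have h0 := (hL b hb).gen0 hS hφ
  have ha := val_ne2 h hρ hε hM hμ hS hL hb hy hω hω'
  have hE := mem_eigen2 h hρ hε hM hμ hS hL φ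
  obtain ⟨ψ, hψ⟩ : ∃ ψ : K →+* L, ∀ z, ψ z = algebraMap K L z ^ Fintype.card k₀ ^ b :=
    ⟨(FiniteField.frobeniusAlgHom k₀ L ^ b : L →ₐ[k₀] L).toRingHom.comp (algebraMap K L), fun z => by
      change (FiniteField.frobeniusAlgHom k₀ L ^ b : L →ₐ[k₀] L) _ = _
      rw [AlgHom.coe_pow, FiniteField.coe_frobeniusAlgHom, pow_iterate]⟩
  have hV : ∀ x ∈ eigen OE OK τ φ,
      HasVal (Pt.ofHom y) (μ (τ^[b] x)) (val (Pt.ofHom y) (μ (τ^[b] x))) :=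
    fun x hx => idx2_hasVal h hS (hL b hb) hx.1 hφ
  have hsm : ∀ (c : OK), ∀ x ∈ eigen OE OK τ φ,
      (c ⊗ₜ[k₀] (1 : OE) : OK ⊗[k₀] OE) • x ∈ eigen OE OK τ φ ∧
      val (Pt.ofHom y) (μ (τ^[b] ((c ⊗ₜ[k₀] (1 : OE) : OK ⊗[k₀] OE) • x))) =
        ψ (algebraMap OK K c) * val (Pt.ofHom y) (μ (τ^[b] x)) := by
    intro c x hx
    obtain ⟨h1, h2⟩ := (hE x).1 hx
    refine ⟨(hE _).2 ⟨Submodule.smul_mem _ _ h1, fun b' hb' χ hχ hne => ?_⟩, ?_⟩
    · rw [(idx2_val_smul h hρ hM hμ hS (hL b' hb') h1 hχ c 1).val_eq, h2 b' hb' χ hχ hne, mul_zero]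
    · rw [(idx2_val_smul h hρ hM hμ hS (hL b hb) h1 hφ c 1).val_eq, map_one, map_one, mul_one, hψ]
  generalize hadef : val (Pt.ofHom y) (μ (τ^[b] ω)) = a at ha
  obtain ⟨c0, hc0, hrat⟩ : ∃ c0 : OK, algebraMap OK K c0 ≠ 0 ∧ ∀ x ∈ eigen OE OK τ φ, ∃ c : OK,
      ψ (algebraMap OK K c0) * val (Pt.ofHom y) (μ (τ^[b] x)) = ψ (algebraMap OK K c) * a := by
    obtain ⟨n, m, m', hm, hm', hsum⟩ := hl.inv
    have hv' : ∀ i, HasVal (Pt.ofHom y) (m' i) (val (Pt.ofHom y) (m' i)) :=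
      fun i => hl.inv_hasVal h h0 (hm' i)
    have h1 := HasVal.sum (p := Pt.ofHom y) Finset.univ
      fun i _ => (hv' i).mul (hl.hasVal h h0 (hm i))
    rw [hsum] at h1
    have h2 := h1.unique (hasVal_one _)
    obtain ⟨i, -, hi⟩ := Finset.exists_ne_zero_of_sum_ne_zero (h2.trans_ne one_ne_zero)
    have h3 : ∀ x ∈ eigen OE OK τ φ, ∃ c : OK, ψ (algebraMap OK K c) =
        val (Pt.ofHom y) (m' i) * val (Pt.ofHom y) (μ (τ^[b] x)) := by
      intro x hx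
      have h4 := RA_val_mem (y := y) (fun a ha => hy.mem_AKp OK ha) (hm' i _ ⟨x, hx.1, rfl⟩)
      rw [((hv' i).mul (hV x hx)).val_eq, mem_AKp_iff] at h4
      exact h4.imp fun c hc => (hψ _).trans hc.symm
    obtain ⟨c0, hc0⟩ := h3 ω hω
    rw [hadef] at hc0
    refine ⟨c0, fun hz => ?_, fun x hx => ?_⟩
    · rw [hz, map_zero] at hc0
      exact mul_ne_zero (left_ne_zero_of_mul hi) ha hc0.symm
    · obtain ⟨c, hc⟩ := h3 x hx
      exact ⟨c, by rw [hc0, hc]; ring⟩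
  have hex : ∀ x : eigen OE OK τ φ, ∃ z : K, val (Pt.ofHom y) (μ (τ^[b] x)) = ψ z * a := by
    intro x
    obtain ⟨c, hc⟩ := hrat x x.2
    have h1 : ψ (algebraMap OK K c0) ≠ 0 := (_root_.map_ne_zero _).2 hc0
    refine ⟨algebraMap OK K c / algebraMap OK K c0, ?_⟩
    rw [map_div₀, div_mul_eq_mul_div, eq_div_iff h1, mul_comm, hc]
  choose r hr using hex
  have huniq : ∀ {z z' : K}, ψ z * a = ψ z' * a → z = z' :=
    fun e => ψ.injective (mul_right_cancel₀ ha e)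
  let r' : eigen OE OK τ φ →+ K := AddMonoidHom.mk' r fun x y => huniq (by
    rw [← hr, map_add, add_mul, ← hr, ← hr, AddSubgroup.coe_add, iterate_map_add, map_add]
    exact ((hV x x.2).add (hV y y.2)).val_eq)
  let V : Submodule OK K :=
    { carrier := r'.range
      zero_mem' := zero_mem _
      add_mem' := fun hx hy => add_mem hx hy
      smul_mem' := by
        rintro c _ ⟨x, rfl⟩
        refine ⟨⟨_, (hsm c x x.2).1⟩, huniq ?_⟩
        show ψ (r _) * a = ψ (c • r x) * a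
        rw [← hr, (hsm c x x.2).2, hr, Algebra.smul_def, map_mul, mul_assoc] }
  have hVr : V.toAddSubgroup = r'.range := rfl
  have hmem : ∀ z, z ∈ V ↔ ∃ x, r x = z := fun z => Iff.rfl
  have h1V : (1 : K) ∈ V := (hmem 1).2 ⟨⟨ω, hω⟩, huniq (by rw [← hr, map_one, one_mul]; exact hadef)⟩
  have hcV : ∃ c : OK, c ≠ 0 ∧ ∀ z ∈ V, ∃ c' : OK, algebraMap OK K c' = c • z := by
    refine ⟨c0, fun hz => hc0 (by rw [hz, map_zero]), fun z hz => ?_⟩
    obtain ⟨x, rfl⟩ := (hmem z).1 hz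
    obtain ⟨c, hc⟩ := hrat x x.2
    exact ⟨c, huniq (by rw [← hc, hr, Algebra.smul_def, map_mul, mul_assoc])⟩
  obtain ⟨n1, n2, n3, n4⟩ := norm_formula2 hS.alg_mem P V h1V hcV
  have hidx : dRIndex OE OK τ φ ω =
      (algebraMap OK K).range.toAddSubgroup.relIndex V.toAddSubgroup := by
    rw [hVr, ← AddSubgroup.index_comap, dRIndex, AddSubgroup.relIndex]
    refine congrArg AddSubgroup.index (AddSubgroup.ext fun x => ?_)
    have key : ∀ c : OK, (x : M) - (c ⊗ₜ[k₀] (1 : OE) : OK ⊗[k₀] OE) • ω ∈ dRKer k₀ OE OK τ ↔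
        algebraMap OK K c = r x := by
      intro c
      obtain ⟨s1, s2⟩ := hsm c ω hω
      have s4 : val (Pt.ofHom y) (μ (τ^[b] ((x : M) - (c ⊗ₜ[k₀] (1 : OE) : OK ⊗[k₀] OE) • ω))) =
          ψ (r x) * a - ψ (algebraMap OK K c) * a := by
        rw [iterate_map_sub, map_sub, ((hV x x.2).sub (hV _ s1)).val_eq, s2, hr, hadef]
      constructor
      · intro s5
        have s6 := ((mem_dRKer2 h hρ hε hM hμ hS hL _).1 s5).2 b hb _ hφ
        rw [s4, sub_eq_zero] at s6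
        exact (huniq s6).symm
      · intro e
        by_contra s5
        exact val_ne2 h hρ hε hM hμ hS hL hb hy (sub_mem x.2 s1) s5 (by rw [s4, e, sub_self])
    exact exists_congr key
  rw [hidx]
  refine ⟨n1, ?_⟩
  have hA : ∀ π η, ∀ c ∈ AKp k₀ OK K L b, (P.W (some π) η).v c ≤ 1 :=
    fun π η c hc => AK_le_one2 _ (P.W_fin_le π η) (AKp_le b hc)
  have a1 := admF_supL2 h hl P hA hφ h0
  have a2 := (adm_log P a).admF
  have hset : {c | ∃ x ∈ Nb k₀ OE OK τ μ b, (∀ χ : E →ₐ[k] L,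
      χ (tE k₀ E) = y (tE k₀ E) → χ ≠ y → val (Pt.ofHom χ) x = 0) ∧ c = val (Pt.ofHom y) x} =
      (fun c => c * a) '' ((fun c => c ^ Fintype.card k₀ ^ b) '' (algebraMap K L '' V)) := by
    rw [hφ]
    ext c
    constructor
    · rintro ⟨_, ⟨x, hx, rfl⟩, hx', rfl⟩
      have e1 : ε b • x ∈ eigen OE OK τ φ := (hE _).2 ⟨Submodule.smul_mem _ _ hx,
        fun b' hb' χ hχ hne => by
          rw [idx2_eps hε hM hμ hb hb']
          split_ifs with e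
          · subst e
            exact hx' χ hχ fun e => hne (e ▸ hy)
          · exact (hasVal_zero _).val_eq⟩
      have e2 := hr ⟨_, e1⟩
      rw [idx2_eps hε hM hμ hb hb, if_pos rfl, hψ] at e2
      exact ⟨_, ⟨_, ⟨_, (hmem _).2 ⟨⟨_, e1⟩, rfl⟩, rfl⟩, rfl⟩, e2.symm⟩
    · rintro ⟨_, ⟨_, ⟨z, hz, rfl⟩, rfl⟩, rfl⟩
      obtain ⟨x, rfl⟩ := (hmem z).1 hz
      refine ⟨_, ⟨x, x.2.1, rfl⟩, fun χ hχ hne =>
        ((hE _).1 x.2).2 b hb χ hχ fun e => hne (e.unique hy), ?_⟩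
      rw [hr, hψ]
  have hloc : ∀ π η, Real.log (supS (P.W (some π) η) (dif (AKp k₀ OK K L b) (tE k₀ E) y)) =
      (Fintype.card k₀ : ℝ) ^ b * Real.log (supS (P.W (some π) η) (algebraMap K L '' V)) +
        Real.log ((P.W (some π) η).v a) -
        Real.log (supL (P.W (some π) η) (Pt.ofHom y) (Nb k₀ OE OK τ μ b)) := by
    intro π η
    have e := sup_eigen h hl (P.W (some π) η) (hA π η) (φ := y) (W_fin_lev P hφ π η)
      fun χ hχ => (hL b hb).gen0 hS (hχ.trans hφ)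
    have z0 := n2 π η
    rw [hset, idx_supS_mul, idx2_supS_pow _ _ (by positivity) z0] at e
    have z1 := pow_ne_zero (Fintype.card k₀ ^ b) z0
    have z2 : (P.W (some π) η).v a ≠ 0 := (Valuation.ne_zero_iff _).2 ha
    have z3 := mul_ne_zero z1 z2
    rw [e] at z3
    have e' := congrArg (fun s : ℝ≥0 => Real.log s) e
    simp only [NNReal.coe_mul] at e'
    rw [Real.log_mul (NNReal.coe_ne_zero.2 z1) (NNReal.coe_ne_zero.2 z2),
      Real.log_mul (NNReal.coe_ne_zero.2 (left_ne_zero_of_mul z3))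
        (NNReal.coe_ne_zero.2 (right_ne_zero_of_mul z3)), NNReal.coe_pow, Real.log_pow,
      Nat.cast_pow] at e'
    linarith only [e']
  have hfin := Ifin_congr (Φ := fun v η => Real.log
      (supS (P.W v η) (dif (AKp k₀ OK K L b) (tE k₀ E) y)))
    (Ψ := fun v η => (Fintype.card k₀ : ℝ) ^ b * Real.log (supS (P.W v η) (algebraMap K L '' V)) +
      Real.log ((P.W v η).v a) -
      Real.log (supL (P.W v η) (Pt.ofHom y) (Nb k₀ OE OK τ μ b))) hloc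
  rw [hfin, Ifin_sub P ((n3.const_mul _).add a2) a1, Ifin_add P (n3.const_mul _) a2,
    Ifin_const_mul P n3]
  linear_combination (Fintype.card k₀ : ℝ) ^ b * n4

end Pool.Agent.FFC
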