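import Pool.Agent.P.MP_a2beea_nt.FC.Tate

/-! The analytic function attached to a cycle, on the backward orbit of the legs. Let
`θ_i = (fr⁻¹ ^ i) θ`, `‖j θ_i‖ ^ (q ^ i) = q`, and `Λ_i x = ∑' m, coeff m (u x) * j θ_i ^ m`,
summable by `tate_bound` for `x ∈ I`, `i ≥ 1`, and for `x ∈ tauLat`, `i = 0`. Apply `functional`
to `Λ_i` on `I` (`Sht.gen`) and to `Λ_0` on `tauLat` (`Lat.tau`, `Sht.gen0`). The `q`-th power map
of `C` is a continuous ring homomorphism (`C` has the characteristic of `L`), so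
`Λ_i (f * σ x) = (Λ_{i+1} x) ^ q`; `tm 1 (e a)` is fixed by `σ`. Evaluate at an `x ∈ I` with
nonzero value at the point of index `i + 1` (`Lat.exists_val_ne`, `HasVal.map`, `bk_succ`,
`Sht.ord_f`). -/

open Polynomial
open scoped TensorProduct NNReal IntermediateField

namespace Pool.Agent.FFC

open Classical

variable {k : Type*} [Field k] [Fintype k] {E : Type*} [Field E] [Algebra k E] {t : E}
  {L : Type*} [Field L] [Algebra k L] [IsAlgClosed L]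
  [IsDomain (L ⊗[k] E)]
  [Nonempty (GV k L)]
  {θ : L}
  {C : Type*} [NormedField C] [IsUltrametricDist C] [CompleteSpace C]
  {A : Subring L} {f : FL k E L} {I : AddSubgroup (FL k E L)} {D : (E →ₐ[k] L) →₀ ℤ}

theorem inf1_summable {U : PowerSeries C} {R B : ℝ} {z : C} (hz : ‖z‖ < R)
    (hB : ∀ n, ‖PowerSeries.coeff n U‖ * R ^ n ≤ B) :
    Summable fun m => PowerSeries.coeff m U * z ^ m := by
  have hR : 0 < R := (norm_nonneg z).trans_lt hz
  have h0 : 0 ≤ ‖z‖ / R := div_nonneg (norm_nonneg z) hR.le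
  have h1 : ‖z‖ / R < 1 := (div_lt_one hR).2 hz
  refine Summable.of_norm_bounded ((summable_geometric_of_lt_one h0 h1).mul_left B) fun m => ?_
  have e : ‖PowerSeries.coeff m U * z ^ m‖ =
      (‖PowerSeries.coeff m U‖ * R ^ m) * (‖z‖ / R) ^ m := by
    rw [norm_mul, norm_pow, div_pow]
    field_simp
  rw [e]
  exact mul_le_mul_of_nonneg_right (hB m) (pow_nonneg h0 m)

theorem inf1_X_mul {U : PowerSeries C} {z s : C}
    (h : HasSum (fun m => PowerSeries.coeff m U * z ^ m) s) :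
    HasSum (fun m => PowerSeries.coeff m (PowerSeries.X * U) * z ^ m) (z * s) := by
  rw [← hasSum_nat_add_iff' 1]
  simp only [Finset.range_one, Finset.sum_singleton, PowerSeries.coeff_zero_X_mul, zero_mul,
    sub_zero, PowerSeries.coeff_succ_X_mul]
  refine Eq.subst (motive := fun s => HasSum s _) ?_ (h.mul_left z)
  funext m
  ring

theorem inf1_frob (j : L →+* C) :
    ∃ Fr : C →+* C, ∀ x, Fr x = x ^ Fintype.card k := by
  obtain ⟨p, hp⟩ := CharP.exists k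
  obtain ⟨n, hpp, hn⟩ := FiniteField.card k p
  have : CharP L p := charP_of_injective_algebraMap (algebraMap k L).injective p
  have : CharP C p := charP_of_injective_ringHom j.injective p
  have : ExpChar C p := ExpChar.prime hpp
  exact ⟨iterateFrobenius C p n, fun x => by rw [iterateFrobenius_def, hn]⟩

theorem inf1_pow (i : ℕ) (c : L) :
    (((fr k L)⁻¹ ^ (i + 1)) c) ^ Fintype.card k = ((fr k L)⁻¹ ^ i) c := by
  rw [← fr_apply, pow_succ', ← AlgEquiv.mul_apply, mul_inv_cancel_left]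

theorem inf1_norm {j : L →+* C} (hj : ‖j θ‖ = Fintype.card k) (i : ℕ) :
    1 < ‖j (((fr k L)⁻¹ ^ i) θ)‖ ∧ ‖j (((fr k L)⁻¹ ^ i) θ)‖ ≤ Fintype.card k ∧
      ‖j (((fr k L)⁻¹ ^ (i + 1)) θ)‖ < Fintype.card k := by
  have hq : 1 < Fintype.card k := Fintype.one_lt_card
  have step : ∀ i, 1 < ‖j (((fr k L)⁻¹ ^ i) θ)‖ → 1 < ‖j (((fr k L)⁻¹ ^ (i + 1)) θ)‖ ∧
      ‖j (((fr k L)⁻¹ ^ (i + 1)) θ)‖ < ‖j (((fr k L)⁻¹ ^ i) θ)‖ := by
    intro i hi
    rw [← inf1_pow i θ, map_pow, norm_pow] at hi ⊢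
    have h1 : 1 < ‖j (((fr k L)⁻¹ ^ (i + 1)) θ)‖ :=
      (one_lt_pow_iff_of_nonneg (norm_nonneg _) (by omega)).1 hi
    exact ⟨h1, lt_self_pow₀ h1 hq⟩
  induction i with
  | zero =>
    have h0 : ‖j (((fr k L)⁻¹ ^ 0) θ)‖ = Fintype.card k := by simpa using hj
    have h1 : 1 < ‖j (((fr k L)⁻¹ ^ 0) θ)‖ := by rw [h0]; exact_mod_cast hq
    exact ⟨h1, h0.le, (step 0 h1).2.trans_le h0.le⟩
  | succ i ih =>
    have h1 := step i ih.1
    exact ⟨h1.1, ih.2.2.le, (step (i + 1) h1.1).2.trans ih.2.2⟩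

theorem inf1 (h : FF k t) (hS : Sht A t θ f I D) {n : ℕ} {e e' : Fin n → E}
    (hd : DualB k t L e e') {j : L →+* C} {u : FL k E L → PowerSeries C} (hc : Cyc j A t f I u)
    (hj : ‖j θ‖ = Fintype.card k) :
    ∃ G : ℕ → (E →ₐ[k] L) → C,
      (∀ x ∈ tauLat A t f I, HasSum (fun m => PowerSeries.coeff m (u x) * j θ ^ m)
        (∑ᶠ φ ∈ {φ : E →ₐ[k] L | φ t = θ}, G 0 φ * j (val (Pt.ofHom φ) x))) ∧
      (∀ (i : ℕ) (φ : E →ₐ[k] L), φ t = θ →
        G i φ * j (val (Pt.ofHom (tw ((fr k L)⁻¹ ^ i) φ)) f) = G (i + 1) φ ^ Fintype.card k) ∧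
      ∀ (i : ℕ) (φ : E →ₐ[k] L), 1 ≤ i → φ t = θ → ∀ x ∈ I,
        HasSum (fun m => (∑ a, j ((tw ((fr k L)⁻¹ ^ i) φ) (e' a)) *
            PowerSeries.coeff m (u (tm 1 (e a) * x))) * j ((tw ((fr k L)⁻¹ ^ i) φ) t) ^ m)
          (G i φ * j (val (Pt.ofHom (tw ((fr k L)⁻¹ ^ i) φ)) x)) := by
  have hq : 1 < Fintype.card k := Fintype.one_lt_card
  obtain ⟨Fr, hFr⟩ := inf1_frob (k := k) j
  have hFc : Continuous Fr := by
    rw [show (Fr : C → C) = fun x => x ^ Fintype.card k from funext hFr]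
    exact continuous_pow _
  obtain ⟨J, hJ0, hJ1⟩ : ∃ J : ℕ → AddSubgroup (FL k E L), J 0 = tauLat A t f I ∧
      ∀ i, J (i + 1) = I :=
    ⟨fun i => Nat.casesOn i (tauLat A t f I) fun _ => I, rfl, fun _ => rfl⟩
  have hJI : ∀ i, J i ≤ I := by
    rintro (_ | i)
    · rw [hJ0]; exact hS.le
    · rw [hJ1]
  have hτJ : ∀ i, tauLat A t f I ≤ J i := by
    rintro (_ | i)
    · rw [hJ0]
    · rw [hJ1]; exact hS.le
  have hJl : ∀ i, Lat A t (J i) := by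
    rintro (_ | i)
    · rw [hJ0]; exact hS.lat.tau hS.ne
    · rw [hJ1]; exact hS.lat
  have hJd : ∀ (i : ℕ) (φ : E →ₐ[k] L), φ t = θ →
      dv t (J i) (Pt.ofHom (tw ((fr k L)⁻¹ ^ i) φ)) = 0 := by
    rintro (_ | i) φ hφ
    · rw [hJ0]; exact hS.dv_tau_bk h hφ 0
    · rw [hJ1]; exact hS.gen φ hφ (i + 1) (by omega)
  have htr : ∀ i : ℕ, Transcendental k (((fr k L)⁻¹ ^ i) θ) := by
    intro i hi
    apply hS.trans
    have := hi.algHom ((fr k L)⁻¹ ^ i).symm.toAlgHom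
    have e : ((fr k L)⁻¹ ^ i).symm.toAlgHom (((fr k L)⁻¹ ^ i) θ) = θ :=
      ((fr k L)⁻¹ ^ i).symm_apply_apply θ
    rwa [e] at this
  obtain ⟨hb1, hb2⟩ := tate_bound h hS hc hj
  have hsum : ∀ i, ∀ x ∈ J i,
      Summable fun m => PowerSeries.coeff m (u x) * j (((fr k L)⁻¹ ^ i) θ) ^ m := by
    rintro (_ | i) x hx
    · obtain ⟨B, hB⟩ := hb2 x (hJ0 ▸ hx)
      refine inf1_summable ((inf1_norm hj 0).2.1.trans_lt ?_) hB
      exact lt_self_pow₀ (by exact_mod_cast hq) hq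
    · obtain ⟨B, hB⟩ := hb1 x (hJI _ hx)
      exact inf1_summable (inf1_norm hj i).2.2 hB
  obtain ⟨Λ, hΛ⟩ : ∃ Λ : ℕ → FL k E L → C, ∀ i, ∀ x ∈ J i,
      HasSum (fun m => PowerSeries.coeff m (u x) * j (((fr k L)⁻¹ ^ i) θ) ^ m) (Λ i x) :=
    ⟨fun i x => ∑' m, PowerSeries.coeff m (u x) * j (((fr k L)⁻¹ ^ i) θ) ^ m,
      fun i x hx => (hsum i x hx).hasSum⟩
  have h1A : (1 : L) ∈ A := A.one_mem
  have hfun := fun i => functional h (hJl i) hS.alg_mem hd j (htr i) (Λ i)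
    (fun x hx y hy => by
      refine (hΛ i _ (add_mem hx hy)).unique ?_
      rw [hc.add x (hJI i hx) y (hJI i hy)]
      simp only [map_add, add_mul]
      exact (hΛ i x hx).add (hΛ i y hy))
    (fun c hcA x hx => by
      refine (hΛ i _ ((hJl i).mul_mem _ (tm_mem_RA hcA (one_mem _)) x hx)).unique ?_
      rw [hc.const c hcA x (hJI i hx)]
      simp only [PowerSeries.coeff_C_mul, mul_assoc]
      exact (hΛ i x hx).mul_left _)
    (fun x hx => by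
      refine (hΛ i _ ((hJl i).mul_mem _ (tm_mem_RA h1A (self_mem_OO t)) x hx)).unique ?_
      rw [hc.tmul x (hJI i hx)]
      exact inf1_X_mul (hΛ i x hx))
  have hyt : ∀ (i : ℕ) (φ : E →ₐ[k] L), φ t = θ →
      (tw ((fr k L)⁻¹ ^ i) φ) t = ((fr k L)⁻¹ ^ i) θ := by
    intro i φ hφ
    rw [← hφ]
    rfl
  have hG : ∀ (i : ℕ) (φ : E →ₐ[k] L), ∃ G : C, φ t = θ → ∀ x ∈ J i,
      ∑ a, j ((tw ((fr k L)⁻¹ ^ i) φ) (e' a)) * Λ i (tm 1 (e a) * x) =
        G * j (val (Pt.ofHom (tw ((fr k L)⁻¹ ^ i) φ)) x) := by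
    intro i φ
    by_cases hφ : φ t = θ
    · obtain ⟨G, hG⟩ := (hfun i).1 _ (hyt i φ hφ) (hJd i φ hφ)
      exact ⟨G, fun _ => hG⟩
    · exact ⟨0, fun h' => absurd h' hφ⟩
  choose G hG using hG
  have hea : ∀ i a, ∀ x ∈ J i, tm 1 (e a) * x ∈ J i := fun i a x hx =>
    (hJl i).mul_mem _ (tm_mem_RA h1A (hd.mem a)) x hx
  refine ⟨G, fun x hx => ?_, fun i φ hφ => ?_, fun i φ hi hφ x hx => ?_⟩
  · have hx0 : x ∈ J 0 := hJ0 ▸ hx
    have e0 : ((fr k L)⁻¹ ^ 0) θ = θ := by simp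
    have h1 := hΛ 0 x hx0
    have h2 := (hfun 0).2 x hx0
    rw [e0] at h1 h2
    rw [h2] at h1
    refine Eq.subst (motive := fun s => HasSum _ s) ?_ h1
    refine finsum_mem_congr rfl fun φ hφ => ?_
    have h3 := hG 0 φ hφ x hx0
    have e1 : tw ((fr k L)⁻¹ ^ 0) φ = φ := by
      ext a
      simp [tw]
    rwa [e1] at h3
  · obtain ⟨x, hx, hx0⟩ := hS.lat.exists_val_ne h (hS.gen φ hφ (i + 1) (by omega))
    have hx1 : x ∈ J (i + 1) := by rw [hJ1]; exact hx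
    have htw : ∀ w ∈ J (i + 1), Λ i (f * mapF (fr k L) w) = Fr (Λ (i + 1) w) := by
      intro w hw
      refine (hΛ i _ (hτJ i (mem_tauLat (hJI _ hw)))).unique ?_
      have h1 := (hΛ (i + 1) w hw).map Fr hFc
      refine Eq.subst (motive := fun s => HasSum s _) ?_ h1
      funext m
      rw [Function.comp_apply, hc.twist w (hJI _ hw), ← inf1_pow i θ, hFr, mul_pow, map_pow,
        ← pow_mul, ← pow_mul, mul_comm m]
    have h1 := hG i φ hφ _ (hτJ i (mem_tauLat (f := f) (A := A) (t := t) hx))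
    have h2 := hG (i + 1) φ hφ x hx1
    have h3 : ∑ a, j ((tw ((fr k L)⁻¹ ^ i) φ) (e' a)) * Λ i (tm 1 (e a) * (f * mapF (fr k L) x)) =
        Fr (∑ a, j ((tw ((fr k L)⁻¹ ^ (i + 1)) φ) (e' a)) * Λ (i + 1) (tm 1 (e a) * x)) := by
      rw [map_sum]
      refine Finset.sum_congr rfl fun a _ => ?_
      have e1 : tm 1 (e a) * (f * mapF (fr k L) x) = f * mapF (fr k L) (tm 1 (e a) * x) := by
        rw [map_mul, mapF_tm, map_one]
        ring
      have e2 : (tw ((fr k L)⁻¹ ^ i) φ) (e' a) =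
          (tw ((fr k L)⁻¹ ^ (i + 1)) φ) (e' a) ^ Fintype.card k :=
        (inf1_pow i (φ (e' a))).symm
      rw [e1, htw _ (hea _ a x hx1), map_mul, e2, map_pow, ← hFr]
    have h4 : HasVal (Pt.ofHom (tw ((fr k L)⁻¹ ^ i) φ)) (f * mapF (fr k L) x)
        (val (Pt.ofHom (tw ((fr k L)⁻¹ ^ i) φ)) f *
          val (Pt.ofHom (tw ((fr k L)⁻¹ ^ (i + 1)) φ)) x ^ Fintype.card k) := by
      refine (hasVal_val h _ (hS.ord_f h hφ i).ge).mul ?_
      have := (hS.lat.hasVal h (hS.gen φ hφ (i + 1) (by omega)) hx).map (fr k L)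
      rwa [bk_succ, fr_apply] at this
    rw [h3, h2, h4.val_eq, hFr, mul_pow, map_mul, map_pow, ← mul_assoc] at h1
    have h5 : j (val (Pt.ofHom (tw ((fr k L)⁻¹ ^ (i + 1)) φ)) x) ^ Fintype.card k ≠ 0 :=
      pow_ne_zero _ ((map_ne_zero j).2 hx0)
    exact (mul_right_cancel₀ h5 h1).symm
  · obtain ⟨i, rfl⟩ : ∃ i', i = i' + 1 := ⟨i - 1, by omega⟩
    have hx1 : x ∈ J (i + 1) := by rw [hJ1]; exact hx
    rw [← hG (i + 1) φ hφ x hx1, hyt _ φ hφ]
    simp only [Finset.sum_mul, mul_assoc]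
    exact hasSum_sum fun a _ => (hΛ (i + 1) _ (hea _ a x hx1)).mul_left _

end Pool.Agent.FFC
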