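import Pool.Agent.P.MP_a2beea_nt.FC.Tate
import Pool.Agent.P.MP_a2beea_nt.FC.Far

/-! Approximation by an algebraic function. Take `x ∈ I` with `u x ≠ 0`; `U a = u (tm 1 (e a) * x)`
are not all zero (`DualB.one`, `Cyc.eval₂`). Let `ρ > 0` be the largest norm of a coefficient of
the `U a`, with `‖coeff m (U a)‖ ≤ B / q ^ m`. For `i ≥ 1`, `‖j θ_i‖ ≤ √q`. Choose `M` with
`B q ^ (-m / 2) ≤ ρ / 2` for `m ≥ M` and larger than the index of a maximal coefficient, and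
`c a m ∈ L` with `‖coeff m (U a) - j (c a m)‖ √q ^ M ≤ ρ / 2` for `m < M`. The element
`Γ' = ∑ c a m ⊗ t ^ m e' a` has Gauss norm `ρ` (`gT_sum`, `DualB.indep`), and
`‖G i φ * j (x(φ_i)) - j (Γ'(φ_i))‖ ≤ (ρ / 2) * max_a ‖j (φ_i (e' a))‖` (ultrametric bound for
the sum of a series). As `i → ∞`, `‖j (φ_i (e' a))‖ → 1` and `‖j (Γ'(φ_i))‖ → ρ` (`far_tendsto`),
so the two terms have the same norm. Put `Γ = Γ' / x`. -/

set_option linter.unusedSectionVars false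

open Polynomial
open scoped TensorProduct NNReal IntermediateField

namespace Pool.Agent.FFC

open Classical

variable {k : Type*} [Field k] [Fintype k] {E : Type*} [Field E] [Algebra k E] {t : E}
  {L : Type*} [Field L] [Algebra k L] [IsAlgClosed L]
  [IsDomain (L ⊗[k] E)]
  [Nonempty (GV k L)]
  {θ : L}
  {C : Type*} [NormedField C] [IsUltrametricDist C] [CompleteSpace C]
  {A : Subring L} {f : FL k E L} {I : AddSubgroup (FL k E L)} {D : (E →ₐ[k] L) →₀ ℤ}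

/-- Ultrametric bound for the error made by truncating and approximating a series. -/
theorem Inf2_approx {C : Type*} [NormedField C] [IsUltrametricDist C] {n : ℕ}
    {U c : Fin n → ℕ → C} {M : ℕ} {s δ K : ℝ} (hδ : 0 ≤ δ) (hK : 0 ≤ K)
    (h1 : ∀ a m, m < M → ‖U a m - c a m‖ * s ^ m ≤ δ)
    (h2 : ∀ a m, M ≤ m → ‖U a m‖ * s ^ m ≤ δ)
    {ε : Fin n → C} (hε : ∀ a, ‖ε a‖ ≤ K) {τ : C} (hτ : ‖τ‖ ≤ s) {S : C}
    (hS : HasSum (fun m => (∑ a, ε a * U a m) * τ ^ m) S) :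
    ‖S - ∑ p ∈ (Finset.univ : Finset (Fin n)) ×ˢ Finset.range M,
      c p.1 p.2 * (τ ^ p.2 * ε p.1)‖ ≤ K * δ := by
  let c' : Fin n → ℕ → C := fun a m => if m < M then c a m else 0
  have hfin : HasSum (fun m => (∑ a, ε a * c' a m) * τ ^ m)
      (∑ p ∈ (Finset.univ : Finset (Fin n)) ×ˢ Finset.range M,
        c p.1 p.2 * (τ ^ p.2 * ε p.1)) := by
    have h0 : HasSum (fun m => (∑ a, ε a * c' a m) * τ ^ m)
        (∑ m ∈ Finset.range M, (∑ a, ε a * c' a m) * τ ^ m) := by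
      refine hasSum_sum_of_ne_finset_zero fun m hm => ?_
      have hm' : ¬ m < M := by simpa using hm
      simp [c', hm']
    convert h0 using 1
    rw [Finset.sum_product_right]
    refine Finset.sum_congr rfl fun m hm => ?_
    have hm' : m < M := by simpa using hm
    rw [Finset.sum_mul]
    refine Finset.sum_congr rfl fun a _ => ?_
    simp only [c', if_pos hm']
    ring
  have hsub := hS.sub hfin
  have hKδ : 0 ≤ K * δ := mul_nonneg hK hδ
  have hterm : ∀ m, ‖(∑ a, ε a * U a m) * τ ^ m - (∑ a, ε a * c' a m) * τ ^ m‖ ≤ K * δ := by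
    intro m
    have he : (∑ a, ε a * U a m) * τ ^ m - (∑ a, ε a * c' a m) * τ ^ m =
        ∑ a, ε a * ((U a m - c' a m) * τ ^ m) := by
      rw [Finset.sum_mul, Finset.sum_mul, ← Finset.sum_sub_distrib]
      exact Finset.sum_congr rfl fun a _ => by ring
    rw [he]
    refine IsUltrametricDist.norm_sum_le_of_forall_le_of_nonneg hKδ fun a _ => ?_
    rw [norm_mul, norm_mul, norm_pow]
    refine mul_le_mul (hε a) ?_ (by positivity) hK
    have hp : ‖τ‖ ^ m ≤ s ^ m := pow_le_pow_left₀ (norm_nonneg _) hτ m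
    refine (mul_le_mul_of_nonneg_left hp (norm_nonneg _)).trans ?_
    by_cases hm : m < M
    · simp only [c', if_pos hm]
      exact h1 a m hm
    · simp only [c', if_neg hm, sub_zero]
      exact h2 a m (not_lt.1 hm)
  rw [← hsub.tsum_eq]
  exact IsUltrametricDist.norm_tsum_le_of_forall_le_of_nonneg hKδ hterm

/-- Choice of the truncation and of the approximants. -/
theorem Inf2_choose {L C : Type*} [Field L] [NormedField C] {n : ℕ} {j : L →+* C}
    (hdense : DenseRange j) {U : Fin n → ℕ → C} {q s : ℝ} (hs : 1 ≤ s) (hsq : s < q)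
    (hB : ∀ a, ∃ B : ℝ, ∀ m, ‖U a m‖ * q ^ m ≤ B) {a0 : Fin n} {m0 : ℕ} (h0 : U a0 m0 ≠ 0) :
    ∃ (M : ℕ) (c : Fin n → ℕ → L) (δ : ℝ), 0 < δ ∧ m0 < M ∧ 3 * δ ≤ ‖j (c a0 m0)‖ ∧
      (∀ a m, m < M → ‖U a m - j (c a m)‖ * s ^ m ≤ δ) ∧
      ∀ a m, M ≤ m → ‖U a m‖ * s ^ m ≤ δ := by
  have hr : 0 < ‖U a0 m0‖ := norm_pos_iff.2 h0
  set δ : ℝ := ‖U a0 m0‖ / 4 with hδ
  have hδ0 : 0 < δ := by positivity
  have hq0 : 0 < q := by linarith
  have hs0 : 0 < s := by linarith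
  have hev : ∀ᶠ m in Filter.atTop, ∀ a, ‖U a m‖ * s ^ m ≤ δ := by
    refine Filter.eventually_all.2 fun a => ?_
    obtain ⟨B, hB⟩ := hB a
    have hlim : Filter.Tendsto (fun m : ℕ => B * (s / q) ^ m) Filter.atTop (nhds (B * 0)) :=
      (tendsto_pow_atTop_nhds_zero_of_lt_one (by positivity)
        ((div_lt_one hq0).2 hsq)).const_mul B
    rw [mul_zero] at hlim
    filter_upwards [hlim.eventually (gt_mem_nhds hδ0)] with m hm
    refine le_trans ?_ hm.le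
    have he : ‖U a m‖ * s ^ m = (‖U a m‖ * q ^ m) * (s / q) ^ m := by
      rw [div_pow]
      field_simp
    rw [he]
    exact mul_le_mul_of_nonneg_right (hB m) (by positivity)
  obtain ⟨M, hM⟩ := Filter.eventually_atTop.1 hev
  have hch : ∀ (a : Fin n) (m : ℕ), ∃ c : L, ‖U a m - j c‖ * s ^ m ≤ δ := by
    intro a m
    obtain ⟨c, hc⟩ := hdense.exists_dist_lt (U a m) (ε := δ / s ^ m) (by positivity)
    refine ⟨c, ?_⟩
    rw [dist_eq_norm, lt_div_iff₀ (by positivity)] at hc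
    exact hc.le
  choose c hc using hch
  refine ⟨max M (m0 + 1), c, δ, hδ0, lt_of_lt_of_le (Nat.lt_succ_self _) (le_max_right _ _), ?_,
    fun a m _ => hc a m, fun a m hm => hM m ((le_max_left _ _).trans hm) a⟩
  have h1 : ‖U a0 m0 - j (c a0 m0)‖ ≤ δ :=
    (le_mul_of_one_le_right (norm_nonneg _) (one_le_pow₀ hs)).trans (hc a0 m0)
  have h2 := norm_sub_norm_le (U a0 m0) (j (c a0 m0))
  linarith

/-- The functions with constant coefficients. -/
noncomputable def Inf2_tmR (k : Type*) [Field k] (E : Type*) [Field E] [Algebra k E] (L : Type*)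
    [Field L] [Algebra k L] : E →+* FL k E L :=
  (algebraMap (L ⊗[k] E) (FL k E L)).comp
    (Algebra.TensorProduct.includeRight : E →ₐ[k] L ⊗[k] E).toRingHom

omit [Fintype k] [IsAlgClosed L] [IsDomain (L ⊗[k] E)] [Nonempty (GV k L)] in
theorem Inf2_tmR_apply (a : E) : Inf2_tmR k E L a = tm 1 a := rfl

theorem Inf2_eval₂ (P : k[X]) :
    eval₂ (tmL k E L) (tm 1 t) (P.map (algebraMap k L)) = tm (1 : L) (aeval t P) := by
  have h1 : (tmL k E L).comp (algebraMap k L) = (Inf2_tmR k E L).comp (algebraMap k E) :=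
    RingHom.ext fun c => tm_alg c
  rw [eval₂_map, h1, ← Inf2_tmR_apply, ← Inf2_tmR_apply, aeval_def, hom_eval₂]

theorem Inf2_u_zero {j : L →+* C} {u : FL k E L → PowerSeries C} (hc : Cyc j A t f I u) :
    u 0 = 0 := by
  have h := hc.add 0 (zero_mem I) 0 (zero_mem I)
  rw [add_zero] at h
  exact left_eq_add.1 h

theorem Inf2_u_sum {j : L →+* C} {u : FL k E L → PowerSeries C} (hc : Cyc j A t f I u)
    {ι : Type*} (s : Finset ι) {x : ι → FL k E L} (hx : ∀ i, x i ∈ I) :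
    u (∑ i ∈ s, x i) = ∑ i ∈ s, u (x i) := by
  induction s using Finset.induction_on with
  | empty => simpa using Inf2_u_zero hc
  | insert i s hi ih =>
    rw [Finset.sum_insert hi, Finset.sum_insert hi,
      hc.add _ (hx i) _ (sum_mem fun i _ => hx i), ih]

theorem Inf2_ne (hS : Sht A t θ f I D) {n : ℕ} {e e' : Fin n → E}
    (hd : DualB k t L e e') {j : L →+* C} {u : FL k E L → PowerSeries C} (hc : Cyc j A t f I u)
    {x : FL k E L} (hx : x ∈ I) (hu : u x ≠ 0) :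
    ∃ a m, PowerSeries.coeff m (u (tm 1 (e a) * x)) ≠ 0 := by
  by_contra hne
  push Not at hne
  have hz : ∀ a, u (tm 1 (e a) * x) = 0 := fun a => PowerSeries.ext fun m => by
    rw [hne a m, map_zero]
  obtain ⟨T, hT, -⟩ := hd.one
  have hmem : ∀ a, tm 1 (e a) * x ∈ I := fun a =>
    hS.lat.mul_mem _ (tm_mem_RA (one_mem A) (hd.mem a)) x hx
  have hQ : ∀ a i, ((T a).map (algebraMap k L)).coeff i ∈ A := fun a i => by
    rw [coeff_map]
    exact hS.alg_mem _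
  have hx' : x = ∑ a, eval₂ (tmL k E L) (tm 1 t) ((T a).map (algebraMap k L)) *
      (tm 1 (e a) * x) := by
    have h1 := congrArg (Inf2_tmR k E L) hT
    rw [map_one, map_sum] at h1
    conv_lhs => rw [← one_mul x, h1, Finset.sum_mul]
    refine Finset.sum_congr rfl fun a _ => ?_
    rw [Inf2_eval₂, map_mul, mul_assoc]
    rfl
  apply hu
  rw [hx', Inf2_u_sum hc _ fun a => hS.lat.mul_mem _ (eval₂_mem_RA (hQ a)) _ (hmem a)]
  refine Finset.sum_eq_zero fun a _ => ?_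
  rw [hc.eval₂ hS.lat (hQ a) (hmem a), hz a, mul_zero]

theorem Inf2_fr_pow (n : ℕ) (x : L) : (fr k L ^ n) x = x ^ (Fintype.card k ^ n) := by
  induction n generalizing x with
  | zero => simp
  | succ n ih => rw [pow_succ, AlgEquiv.mul_apply, ih, fr_apply, ← pow_mul, pow_succ']

theorem Inf2_root_le {j : L →+* C} (hj : ‖j θ‖ = Fintype.card k) {i : ℕ} (hi : 1 ≤ i) :
    ‖j (((fr k L)⁻¹ ^ i) θ)‖ ≤ √(Fintype.card k : ℝ) := by
  have h1 : (((fr k L)⁻¹ ^ i) θ) ^ (Fintype.card k ^ i) = θ := by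
    rw [← Inf2_fr_pow, ← AlgEquiv.mul_apply, inv_pow, mul_inv_cancel, AlgEquiv.one_apply]
  have h2 : ‖j (((fr k L)⁻¹ ^ i) θ)‖ ^ (Fintype.card k ^ i) = Fintype.card k := by
    rw [← norm_pow, ← map_pow, h1, hj]
  have hq : 2 ≤ Fintype.card k := Fintype.one_lt_card
  have hq' : (1 : ℝ) ≤ Fintype.card k := by exact_mod_cast (by omega : 1 ≤ Fintype.card k)
  have h3 : 2 ≤ Fintype.card k ^ i :=
    hq.trans (le_self_pow₀ (by omega) (by omega))
  refine Real.le_sqrt_of_sq_le ?_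
  rcases le_total ‖j (((fr k L)⁻¹ ^ i) θ)‖ 1 with h | h
  · exact (pow_le_one₀ (norm_nonneg _) h).trans hq'
  · rw [← h2]
    exact pow_le_pow_right₀ h h3

theorem inf2 (h : FF k t) (hS : Sht A t θ f I D) {n : ℕ} {e e' : Fin n → E}
    (hd : DualB k t L e e') {j : L →+* C} {u : FL k E L → PowerSeries C} (hc : Cyc j A t f I u)
    (hj : ‖j θ‖ = Fintype.card k) (w : GV k L) (hw : ∀ x, (w.v x : ℝ) = ‖j x‖)
    (hdense : DenseRange j) {G : ℕ → (E →ₐ[k] L) → C}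
    (hG : ∀ (i : ℕ) (φ : E →ₐ[k] L), 1 ≤ i → φ t = θ → ∀ x ∈ I,
        HasSum (fun m => (∑ a, j ((tw ((fr k L)⁻¹ ^ i) φ) (e' a)) *
            PowerSeries.coeff m (u (tm 1 (e a) * x))) * j ((tw ((fr k L)⁻¹ ^ i) φ) t) ^ m)
          (G i φ * j (val (Pt.ofHom (tw ((fr k L)⁻¹ ^ i) φ)) x))) :
    ∃ Γ : FL k E L, Γ ≠ 0 ∧ ∀ φ : E →ₐ[k] L, φ t = θ → ∃ i0 : ℕ, ∀ i, i0 ≤ i →
      ord (Pt.ofHom (tw ((fr k L)⁻¹ ^ i) φ)) Γ = 0 ∧
        ‖G i φ‖ = w.v (val (Pt.ofHom (tw ((fr k L)⁻¹ ^ i) φ)) Γ) := by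
  obtain ⟨x, hx, hu⟩ := hc.ne
  have hx0 : x ≠ 0 := by
    rintro rfl
    exact hu (Inf2_u_zero hc)
  have hmem : ∀ a, tm 1 (e a) * x ∈ I := fun a =>
    hS.lat.mul_mem _ (tm_mem_RA (one_mem A) (hd.mem a)) x hx
  obtain ⟨a0, m0, h0⟩ := Inf2_ne hS hd hc hx hu
  have hq : (1 : ℝ) < Fintype.card k := by exact_mod_cast Fintype.one_lt_card
  have hs1 : (1 : ℝ) ≤ √(Fintype.card k : ℝ) := Real.one_le_sqrt.2 hq.le
  have hs2 : √(Fintype.card k : ℝ) < Fintype.card k := by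
    rw [Real.sqrt_lt' (by linarith)]
    nlinarith
  obtain ⟨M, c, δ, hδ, hM, h3, h1, h2⟩ := Inf2_choose hdense
    (U := fun a m => PowerSeries.coeff m (u (tm 1 (e a) * x))) hs1 hs2
    (fun a => (tate_bound h hS hc hj).1 _ (hmem a)) h0
  set Γ' : FL k E L := algebraMap (L ⊗[k] E) (FL k E L)
    (∑ p ∈ (Finset.univ : Finset (Fin n)) ×ˢ Finset.range M,
      c p.1 p.2 ⊗ₜ[k] (t ^ p.2 * e' p.1)) with hΓ'
  have hg : 3 * δ ≤ (gauss w Γ' : ℝ) := by
    rw [hΓ', gauss_algebraMap, gT_sum w _ hd.indep fun p : Fin n × ℕ => c p.1 p.2]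
    refine h3.trans ?_
    rw [← hw]
    have hm : (a0, m0) ∈ (Finset.univ : Finset (Fin n)) ×ˢ Finset.range M := by simpa using hM
    exact_mod_cast Finset.le_sup (f := fun p : Fin n × ℕ => w.v (c p.1 p.2)) hm
  have hΓ0 : Γ' ≠ 0 := by
    intro hz
    have : gauss w (0 : FL k E L) = 0 := by
      rw [← map_zero (algebraMap (L ⊗[k] E) (FL k E L)), gauss_algebraMap,
        (gT_eq_zero_iff w 0).2 rfl]
    rw [hz, this] at hg
    simp only [NNReal.coe_zero] at hg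
    linarith
  have hval : ∀ y : E →ₐ[k] L, val (Pt.ofHom y) Γ' =
      ∑ p ∈ (Finset.univ : Finset (Fin n)) ×ˢ Finset.range M,
        c p.1 p.2 * (y t ^ p.2 * y (e' p.1)) := by
    intro y
    refine HasVal.val_eq ?_
    rw [hΓ', map_sum]
    refine HasVal.sum _ fun p _ => ?_
    have := hasVal_tm (Pt.ofHom y) (c p.1 p.2) (a := t ^ p.2 * e' p.1)
      (ValuationSubring.mem_top _)
    rwa [Pt.ofHom_ev, map_mul, map_pow] at this
  have he' : ∀ a, e' a ≠ 0 := fun a => by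
    simpa using hd.indep.ne_zero (a, 0)
  refine ⟨Γ' * x⁻¹, mul_ne_zero hΓ0 (inv_ne_zero hx0), fun φ hφ => ?_⟩
  obtain ⟨ho1, ht1⟩ := far_tendsto h w hΓ0 φ
  obtain ⟨ho2, -⟩ := far_tendsto h w hx0 φ
  have hb1 : ∀ᶠ i : ℕ in Filter.atTop,
      2 * δ < (w.v (val (Pt.ofHom (tw ((fr k L)⁻¹ ^ i) φ)) Γ') : ℝ) :=
    ht1.eventually (lt_mem_nhds (by linarith))
  have hb2 : ∀ᶠ i : ℕ in Filter.atTop, ∀ a, ‖j ((tw ((fr k L)⁻¹ ^ i) φ) (e' a))‖ ≤ 2 := by
    refine Filter.eventually_all.2 fun a => ?_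
    obtain ⟨-, ht⟩ := far_tendsto h w (tm_ne_zero (k := k) (one_ne_zero : (1 : L) ≠ 0) (he' a)) φ
    have hg1 : gauss w (tm (1 : L) (e' a) : FL k E L) = 1 := by
      rw [tm, gauss_algebraMap, gT_tmul w _ (he' a), map_one]
    rw [hg1] at ht
    filter_upwards [ht.eventually (gt_mem_nhds (by norm_num : ((1 : ℝ≥0) : ℝ) < 2))] with i hi
    rw [(hasVal_tm _ 1 (ValuationSubring.mem_top (e' a))).val_eq, one_mul, Pt.ofHom_ev, hw] at hi
    exact hi.le
  obtain ⟨i0, hi0⟩ := Filter.eventually_atTop.1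
    (ho1.and (ho2.and (hb1.and (hb2.and (Filter.eventually_ge_atTop 1)))))
  refine ⟨i0, fun i hi => ?_⟩
  obtain ⟨o1, o2, b1, b2, i1⟩ := hi0 i hi
  refine ⟨by rw [ord_mul h _ hΓ0 (inv_ne_zero hx0), ord_inv h, o1, o2]; rfl, ?_⟩
  obtain ⟨cx, hcx0, hcx⟩ := (ord_eq_zero_iff h _ hx0).1 o2
  have hv := ((hasVal_val h _ o1.ge).mul (hcx.inv hcx0)).val_eq
  have hτ : ‖j ((tw ((fr k L)⁻¹ ^ i) φ) t)‖ ≤ √(Fintype.card k : ℝ) := by
    have : (tw ((fr k L)⁻¹ ^ i) φ) t = ((fr k L)⁻¹ ^ i) θ := by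
      rw [← hφ]
      rfl
    rw [this]
    exact Inf2_root_le hj i1
  have key := Inf2_approx (c := fun a m => j (c a m)) hδ.le (by norm_num : (0 : ℝ) ≤ 2) h1 h2 b2 hτ
    (hG i φ i1 hφ x hx)
  have hj' : ∑ p ∈ (Finset.univ : Finset (Fin n)) ×ˢ Finset.range M,
      j (c p.1 p.2) * (j ((tw ((fr k L)⁻¹ ^ i) φ) t) ^ p.2 * j ((tw ((fr k L)⁻¹ ^ i) φ) (e' p.1))) =
      j (val (Pt.ofHom (tw ((fr k L)⁻¹ ^ i) φ)) Γ') := by
    rw [hval, map_sum]
    simp only [map_mul, map_pow]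
  rw [hj', hcx.val_eq] at key
  rw [hw] at b1
  have hn : ‖G i φ * j cx‖ = ‖j (val (Pt.ofHom (tw ((fr k L)⁻¹ ^ i) φ)) Γ')‖ := by
    have hlt := key.trans_lt b1
    have := IsUltrametricDist.norm_add_eq_max_of_norm_ne_norm hlt.ne
    rwa [sub_add_cancel, max_eq_right hlt.le] at this
  have hjx : ‖j cx‖ ≠ 0 := norm_ne_zero_iff.2 ((map_ne_zero j).2 hcx0)
  rw [hv, hw, map_mul, map_inv₀, norm_mul, norm_inv, ← hn, norm_mul, mul_inv_cancel_right₀ hjx]

end Pool.Agent.FFC
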