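import Pool.Agent.P.MP_a2beea_nt.FC.HtC
import Pool.Agent.P.MP_a2beea_nt.FC.CL
import Pool.Agent.P.MP_a2beea_nt.FC.Defs4

/-! The discs at infinity. `legs_in_disc`: `disc_count` for `u = θ⁻¹ ⊗ t - 1 ⊗ 1`, `u₀ = -1`; the only
constant point of the disc of `x` is `x`, where `u` has the order of `t`. `lam_mul`: `pole_local`
for `1 ⊗ t`. `sum_legs`: group the legs by their reduction and reindex the finite set of points at
infinity by Frobenius (`ord_map`). `orbit_mean`: every point at infinity is the reduction of a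
leg, so by `hone` and `orbit_of_O_eq` the points at infinity form one orbit; by `orbit_sum_eq` and
`ipt_red_eq` the left side does not depend on the leg; sum over the `dg` legs and use
`sum_legs`. -/

open Polynomial
open scoped TensorProduct NNReal IntermediateField

namespace Pool.Agent.FFC

open Classical

variable {k : Type*} [Field k] [Fintype k] {E : Type*} [Field E] [Algebra k E] {t : E}
  {L : Type*} [Field L] [Algebra k L] [IsAlgClosed L]
  [IsDomain (L ⊗[k] E)]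
  [Nonempty (GV k L)]
  {θ : L}

omit [Fintype k] [IsAlgClosed L] [IsDomain (L ⊗[k] E)] [Nonempty (GV k L)] in
theorem One_top {x : Pt k E L} (hx : t ∉ x.O) : x.O ≠ ⊤ := fun e =>
  hx (e ▸ ValuationSubring.mem_top t)

omit [Fintype k] [IsAlgClosed L] [IsDomain (L ⊗[k] E)] [Nonempty (GV k L)] in
theorem One_inf {w : GV k L} {φ : E →ₐ[k] L} (hw : 1 < w.v (φ t)) :
    t ∉ (red w (Pt.ofHom φ)).O := fun h => absurd (mem_redO.mp h).2 (not_le.mpr hw)

omit [Fintype k] [IsAlgClosed L] [IsDomain (L ⊗[k] E)] [Nonempty (GV k L)] in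
theorem One_reindex (g : L ≃ₐ[k] L) (c : Pt k E L → ℝ) :
    ∑ᶠ x ∈ {x : Pt k E L | t ∉ x.O}, c (g • x) = ∑ᶠ x ∈ {x : Pt k E L | t ∉ x.O}, c x :=
  finsum_mem_eq_of_bijOn (fun x => g • x)
    ⟨fun _ hx => hx, (MulAction.injective g).injOn,
      fun x hx => ⟨g⁻¹ • x, hx, smul_inv_smul g x⟩⟩ fun _ _ => rfl

theorem legs_in_disc (h : FF k t) (w : GV k L) (hw : 1 < w.v θ) {x : Pt k E L} (hx : t ∉ x.O) :
    ({χ : E →ₐ[k] L | χ t = θ ∧ red w (Pt.ofHom χ) = x}.ncard : ℤ) = -ord x (tm (1 : L) t) := by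
  have hθ : θ ≠ 0 := by
    rintro rfl
    simp at hw
  have hxt := One_top hx
  set g : FL k E L := tm 1 t - tm θ 1 with hg
  have hg0 : g ≠ 0 := sub_self_ne h θ
  have hc : ConstT (k := k) (⊤ : ValuationSubring E) ((-1 : L) ⊗ₜ[k] (1 : E)) :=
    ⟨1, fun _ => -1, fun _ => 1, fun _ => ValuationSubring.mem_top _,
      fun _ => isAlgebraic_one.neg, by simp⟩
  have h0 : ((-1 : L) ⊗ₜ[k] (1 : E)) ≠ 0 := fun e =>
    tm_ne_zero (k := k) (neg_ne_zero.mpr (one_ne_zero (α := L))) (one_ne_zero (α := E))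
      (by rw [tm, e, map_zero])
  have hlt : gT w ((θ⁻¹ ⊗ₜ[k] t + (-1 : L) ⊗ₜ[k] (1 : E)) - (-1 : L) ⊗ₜ[k] (1 : E)) < 1 := by
    rw [add_sub_cancel_right, gT_tmul w _ h.ne_zero, map_inv₀]
    exact inv_lt_one_of_one_lt₀ hw
  have key := disc_count h w hxt hc h0 hlt
  have e1 : algebraMap (L ⊗[k] E) (FL k E L) (θ⁻¹ ⊗ₜ[k] t + (-1 : L) ⊗ₜ[k] (1 : E)) =
      tm θ⁻¹ 1 * g := by
    have e : (tm (-1 : L) (1 : E) : FL k E L) = -1 := by
      rw [tm, TensorProduct.neg_tmul, map_neg, ← tm, tm_one]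
    rw [map_add, ← tm, ← tm, hg, mul_sub, tm_mul, tm_mul, inv_mul_cancel₀ hθ, mul_one, one_mul,
      one_mul, tm_one, e, sub_eq_add_neg]
  have e2 : ∀ z : Pt k E L, ord z (tm θ⁻¹ 1 * g) = ord z g := fun z => by
    rw [ord_mul h z (tm_ne_zero (inv_ne_zero hθ) one_ne_zero) hg0, ord_tm_one h, zero_add]
  rw [e1, ← tm, ord_tm_one h] at key
  simp only [e2] at key
  have e3 : ord x g = ord x (tm (1 : L) t) := by
    have hi : t⁻¹ ∈ x.O := (x.O.mem_or_inv_mem t).resolve_left hx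
    have hv : HasVal x (1 - tm θ t⁻¹) 1 := by
      have := (hasVal_one x).sub (hasVal_tm x θ hi)
      rwa [x.ev_max _ hi (by rwa [inv_inv]), mul_zero, sub_zero] at this
    have e : g = tm 1 t * (1 - tm θ t⁻¹) := by
      rw [mul_sub, mul_one, tm_mul, one_mul, mul_inv_cancel₀ h.ne_zero]
    have hn : (1 - tm θ t⁻¹ : FL k E L) ≠ 0 := fun e' => hg0 (by rw [e, e', mul_zero])
    rw [e, ord_mul h x (tm_ne_zero one_ne_zero h.ne_zero) hn, ord_of_val h hv one_ne_zero,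
      add_zero]
  set S := {χ : E →ₐ[k] L | χ t = θ ∧ red w (Pt.ofHom χ) = x} with hS
  have hSf : S.Finite := (hom_fibre_finite h θ).subset fun χ hχ => hχ.1
  have e4 : ∑ᶠ z ∈ {z : Pt k E L | red w z = x}, ord z g =
      ∑ᶠ z ∈ insert x (Pt.ofHom '' S), ord z g := by
    refine finsum_mem_inter_support_eq' _ _ _ fun z hz => ⟨fun hr => ?_, fun hr => ?_⟩
    · by_cases hO : z.O = ⊤
      · obtain ⟨χ, rfl⟩ := z.eq_ofHom hO
        refine Or.inr ⟨χ, ⟨?_, hr⟩, rfl⟩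
        by_contra hne
        exact hz ((ord_sub h θ χ).trans (if_neg hne))
      · exact Or.inl ((red_const h w hO).symm.trans hr)
    · rcases hr with rfl | ⟨χ, hχ, rfl⟩
      · exact red_const h w hxt
      · exact hχ.2
  have e5 : ∑ᶠ z ∈ Pt.ofHom '' S, ord z g = S.ncard := by
    rw [finsum_mem_image Pt.ofHom_injective.injOn,
      finsum_mem_congr (g := fun _ => (1 : ℤ)) rfl fun χ hχ => by rw [hg, ord_sub h, if_pos hχ.1],
      finsum_mem_eq_finite_toFinset_sum _ hSf, Finset.sum_const, Set.ncard_eq_toFinset_card _ hSf,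
      nsmul_eq_mul, mul_one]
  have e6 : x ∉ Pt.ofHom '' S := fun ⟨χ, _, e⟩ => hxt (by rw [← e]; rfl)
  rw [e4, finsum_mem_insert _ e6 (hSf.image _), e5, e3] at key
  linarith

theorem lam_mul (h : FF k t) (w : GV k L) {φ : E →ₐ[k] L} (hw : 1 < w.v (φ t)) :
    (-ord (red w (Pt.ofHom φ)) (tm (1 : L) t) : ℝ) * ipt w (Pt.ofHom φ) (red w (Pt.ofHom φ)) =
      Real.log (w.v (φ t)) := by
  have hc : ConstT (k := k) (⊤ : ValuationSubring E) ((1 : L) ⊗ₜ[k] t) :=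
    ⟨1, fun _ => 1, fun _ => t, fun _ => ValuationSubring.mem_top _,
      fun _ => isAlgebraic_one, by simp⟩
  have h1 := pole_local h w hc φ
  rw [htc_single h w hc (Pt.ofHom φ) (fun n => ((max (-n) 0 : ℤ) : ℝ)) (by simp), ← tm,
    (hasVal_tm (Pt.ofHom φ) 1 (ValuationSubring.mem_top t)).val_eq, one_mul, Pt.ofHom_ev,
    max_eq_left (neg_nonneg.mpr (htc_ord_neg h (One_inf hw)).le), Int.cast_neg,
    Real.posLog_eq_log (by
      rw [abs_of_nonneg (NNReal.coe_nonneg _)]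
      exact_mod_cast hw.le)] at h1
  exact h1.symm

theorem One_group (h : FF k t) (w : GV k L) (hw : 1 < w.v θ) (G : Pt k E L → ℝ) :
    ∑ᶠ φ ∈ {φ : E →ₐ[k] L | φ t = θ}, G (red w (Pt.ofHom φ)) =
      ∑ᶠ x ∈ {x : Pt k E L | t ∉ x.O}, (-ord x (tm (1 : L) t) : ℝ) * G x := by
  rw [finsum_mem_eq_finite_toFinset_sum _ (hom_fibre_finite h θ),
    finsum_mem_eq_finite_toFinset_sum _ (inf_finite h),
    ← Finset.sum_fiberwise_of_maps_to (t := (inf_finite h).toFinset)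
      (g := fun φ : E →ₐ[k] L => red w (Pt.ofHom φ)) (fun φ hφ => by
        have hφ' : φ t = θ := by simpa using hφ
        simpa using One_inf (w := w) (φ := φ) (hφ' ▸ hw))]
  refine Finset.sum_congr rfl fun x hx => ?_
  have hx' : t ∉ x.O := by simpa using hx
  rw [Finset.sum_congr rfl (g := fun _ => G x) fun φ hφ => by rw [(Finset.mem_filter.mp hφ).2],
    Finset.sum_const, nsmul_eq_mul]
  congr 1
  have h1 := legs_in_disc h w hw hx'
  have h2 : {χ : E →ₐ[k] L | χ t = θ ∧ red w (Pt.ofHom χ) = x} =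
      ↑((hom_fibre_finite h θ).toFinset.filter fun φ : E →ₐ[k] L => red w (Pt.ofHom φ) = x) := by
    ext χ
    simp
  rw [h2, Set.ncard_coe_finset] at h1
  exact_mod_cast h1

theorem sum_legs (h : FF k t) (w : GV k L) (hw : 1 < w.v θ) (c : Pt k E L → ℝ) (i : ℕ) :
    ∑ᶠ φ ∈ {φ : E →ₐ[k] L | φ t = θ},
        c (((fr k L)⁻¹ ^ i) • red w (Pt.ofHom φ)) * ipt w (Pt.ofHom φ) (red w (Pt.ofHom φ)) =
      Real.log (w.v θ) * ∑ᶠ x ∈ {x : Pt k E L | t ∉ x.O}, c x := by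
  have hm : ∀ x : Pt k E L, t ∉ x.O → (-ord x (tm (1 : L) t) : ℝ) ≠ 0 := fun x hx => by
    have := htc_ord_neg h hx
    exact neg_ne_zero.mpr (by exact_mod_cast this.ne)
  have e1 : ∑ᶠ φ ∈ {φ : E →ₐ[k] L | φ t = θ},
      c (((fr k L)⁻¹ ^ i) • red w (Pt.ofHom φ)) * ipt w (Pt.ofHom φ) (red w (Pt.ofHom φ)) =
      ∑ᶠ φ ∈ {φ : E →ₐ[k] L | φ t = θ}, c (((fr k L)⁻¹ ^ i) • red w (Pt.ofHom φ)) *
        (Real.log (w.v θ) / (-ord (red w (Pt.ofHom φ)) (tm (1 : L) t) : ℝ)) := by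
    refine finsum_mem_congr rfl fun φ hφ => ?_
    have hφ' : φ t = θ := hφ
    have hw' : 1 < w.v (φ t) := hφ' ▸ hw
    have := lam_mul h w hw'
    rw [hφ'] at this
    simp only [← this, mul_div_cancel_left₀ _ (hm _ (One_inf hw'))]
  rw [e1, One_group h w hw fun x : Pt k E L => c (((fr k L)⁻¹ ^ i) • x) *
      (Real.log (w.v θ) / (-ord x (tm (1 : L) t) : ℝ)), ← One_reindex ((fr k L)⁻¹ ^ i) c,
    finsum_mem_eq_finite_toFinset_sum _ (inf_finite h),
    finsum_mem_eq_finite_toFinset_sum _ (inf_finite h), Finset.mul_sum]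
  refine Finset.sum_congr rfl fun x hx => ?_
  have := neg_ne_zero.mp (hm x (by simpa using hx))
  field_simp

theorem orbit_mean (h : FF k t) (w : GV k L) (hw : 1 < w.v θ)
    (hone : ∀ φ φ' : E →ₐ[k] L, φ t = θ → φ' t = θ →
      redO w (Pt.ofHom φ) = redO w (Pt.ofHom φ'))
    {F : ℕ} (hF : ∀ x : Pt k E L, t ∉ x.O → (fr k L ^ F) • x = x) (c : Pt k E L → ℝ)
    {φ : E →ₐ[k] L} (hφ : φ t = θ) :
    (∑ i ∈ Finset.range F, c (((fr k L)⁻¹ ^ i) • red w (Pt.ofHom φ))) *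
        ipt w (Pt.ofHom φ) (red w (Pt.ofHom φ)) =
      F * (Real.log (w.v θ) / dg k t) * ∑ᶠ x ∈ {x : Pt k E L | t ∉ x.O}, c x := by
  have hw' : 1 < w.v (φ t) := hφ ▸ hw
  have htr : Transcendental k θ := fun ha => absurd (w.alg_le ha) (not_le.mpr hw)
  have hfin := hom_fibre_finite (L := L) h θ
  have hd : (dg k t : ℝ) ≠ 0 := by exact_mod_cast h.dg_pos.ne'
  have e1 : ∑ χ ∈ hfin.toFinset, (∑ i ∈ Finset.range F,
      c (((fr k L)⁻¹ ^ i) • red w (Pt.ofHom χ))) * ipt w (Pt.ofHom χ) (red w (Pt.ofHom χ)) =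
      dg k t * ((∑ i ∈ Finset.range F, c (((fr k L)⁻¹ ^ i) • red w (Pt.ofHom φ))) *
        ipt w (Pt.ofHom φ) (red w (Pt.ofHom φ))) := by
    rw [← hom_fibre_card h htr, Set.ncard_eq_toFinset_card _ hfin, ← nsmul_eq_mul,
      ← Finset.sum_const]
    refine Finset.sum_congr rfl fun χ hχ => ?_
    have hχ' : χ t = θ := by simpa using hχ
    rw [ipt_red_eq h w (hχ'.trans hφ.symm) (hone χ φ hχ' hφ),
      orbit_sum_eq h c (red_ne_top h w (Pt.ofHom φ)) (x' := red w (Pt.ofHom χ))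
        (hone φ χ hφ hχ') (hF _ (One_inf hw'))]
  have e2 : ∑ χ ∈ hfin.toFinset, (∑ i ∈ Finset.range F,
      c (((fr k L)⁻¹ ^ i) • red w (Pt.ofHom χ))) * ipt w (Pt.ofHom χ) (red w (Pt.ofHom χ)) =
      F * (Real.log (w.v θ) * ∑ᶠ x ∈ {x : Pt k E L | t ∉ x.O}, c x) := by
    simp only [Finset.sum_mul]
    rw [Finset.sum_comm, Finset.sum_congr rfl fun i _ =>
      (finsum_mem_eq_finite_toFinset_sum _ hfin).symm.trans (sum_legs h w hw c i),
      Finset.sum_const, Finset.card_range, nsmul_eq_mul]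
  rw [e2] at e1
  refine mul_left_cancel₀ hd ?_
  rw [← e1]
  field_simp

theorem sum_inf_D (h : FF k t) (w : GV k L) (hw : 1 < w.v θ) {D : (E →ₐ[k] L) →₀ ℤ}
    (hD : ∀ y ∈ D.support, y t = θ) :
    ∑ᶠ x ∈ {x : Pt k E L | t ∉ x.O},
      (D.sum fun χ c => if red w (Pt.ofHom χ) = x then (c : ℝ) else 0) = degD D := by
  rw [finsum_mem_eq_finite_toFinset_sum _ (inf_finite h), degD]
  simp only [Finsupp.sum]
  rw [Finset.sum_comm]
  refine Finset.sum_congr rfl fun χ hχ => ?_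
  rw [Finset.sum_ite_eq, if_pos]
  simpa using One_inf (w := w) (φ := χ) ((hD χ hχ).symm ▸ hw)

theorem cL_mean (h : FF k t) (w : GV k L) (hw : 1 < w.v θ)
    (hone : ∀ φ φ' : E →ₐ[k] L, φ t = θ → φ' t = θ →
      redO w (Pt.ofHom φ) = redO w (Pt.ofHom φ'))
    {F : ℕ} (hF : ∀ x : Pt k E L, t ∉ x.O → (fr k L ^ F) • x = x) {D : (E →ₐ[k] L) →₀ ℤ}
    (hD : ∀ y ∈ D.support, y t = θ) {φ : E →ₐ[k] L} (hφ : φ t = θ) :
    ∑ i ∈ Finset.range F, cL w D (i + 1) φ = F * (Real.log (w.v θ) / dg k t) * degD D := by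
  have key := orbit_mean h w hw hone hF (fun x => D.sum fun χ c =>
    if red w (Pt.ofHom χ) = (fr k L)⁻¹ • x then (c : ℝ) else 0) hφ
  rw [One_reindex (fr k L)⁻¹ fun x => D.sum fun χ c =>
    if red w (Pt.ofHom χ) = x then (c : ℝ) else 0, sum_inf_D h w hw hD] at key
  rw [← key, Finset.sum_mul]
  refine Finset.sum_congr rfl fun i _ => ?_
  rw [cL_eq h w (fun y hy => (hD y hy).trans hφ.symm) (Nat.le_add_left 1 i), pow_succ', mul_smul]

end Pool.Agent.FFC
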