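import Pool.Agent.P.MP_a2beea_nt.FC.InfM
import Pool.Agent.P.MP_a2beea_nt.FC.One

/-! The place at infinity, absolute form. Follow the proof of `infM` (copy what you need from
`InfM.lean`). In addition `seq_gamma` gives `g₀ = γ / (q - 1)`. For large `i`,
`log ‖G i φ‖ - dI I φ_i = g₀ - ε(x_i) λ / q ^ i`; the sum over the legs is
`dg * g₀ - log q * (∑_{x ∈ ∞} ε x) / q ^ i` (`sum_legs`); comparing with `hB` for two values of `i`
gives `∑_{x ∈ ∞} ε x = s`. Then `orbit_mean` and `sum_inf_D` evaluate the mean in `seq_lemma`. -/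

open Polynomial
open scoped TensorProduct NNReal IntermediateField

namespace Pool.Agent.FFC

open Classical

variable {k : Type*} [Field k] [Fintype k] {E : Type*} [Field E] [Algebra k E] {t : E}
  {L : Type*} [Field L] [Algebra k L] [IsAlgClosed L]
  [IsDomain (L ⊗[k] E)]
  [Nonempty (GV k L)]
  {θ : L}
  {C : Type*} [NormedField C] [IsUltrametricDist C] [CompleteSpace C]
  {A : Subring L} {f : FL k E L} {I : AddSubgroup (FL k E L)} {D : (E →ₐ[k] L) →₀ ℤ}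
  {n : ℕ} {e e' : Fin n → E}

theorem seq_gamma {q : ℝ} (hq : 1 < q) {F : ℕ} (hF : 0 < F) {a b e B : ℕ → ℝ} {γ g₀ : ℝ}
    (ha : ∀ i, a (i + F) = a i) (hb : ∀ i, b (i + F) = b i) (he : ∀ i, e (i + F) = e i)
    (hr : ∀ i, 1 ≤ i → B (i + 1) = B i + q ^ i * γ - a i - b i)
    {i0 : ℕ} (hfar : ∀ i, i0 ≤ i → B i = q ^ i * g₀ - e i) : g₀ = γ / (q - 1) := by
  have hq0 : 0 < q := by linarith
  have far : ∀ i, i0 + 1 ≤ i → q ^ i * ((q - 1) * g₀ - γ) = e (i + 1) - e i - a i - b i := by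
    intro i hi
    have h1 := hr i (by omega)
    rw [hfar (i + 1) (by omega), hfar i (by omega)] at h1
    linear_combination h1
  have h1 := far (i0 + 1) le_rfl
  have h2 := far (i0 + 1 + F) (by omega)
  rw [show i0 + 1 + F + 1 = i0 + 1 + 1 + F by ring, he, he, ha, hb, ← h1, pow_add] at h2
  have h3 : q ^ (i0 + 1) * ((q ^ F - 1) * ((q - 1) * g₀ - γ)) = 0 := by
    linear_combination h2
  have h4 : q ^ F - 1 ≠ 0 := (sub_pos.mpr (one_lt_pow₀ hq hF.ne')).ne'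
  have h5 := (mul_eq_zero.mp ((mul_eq_zero.mp h3).resolve_left (pow_pos hq0 _).ne')).resolve_left h4
  rw [eq_div_iff (sub_pos.2 hq).ne']
  linear_combination h5

private theorem infA_val_ne (h : FF k t) {p : Pt k E L} {g : FL k E L} (hg : g ≠ 0)
    (h0 : ord p g = 0) : val p g ≠ 0 := by
  obtain ⟨c, hc, H⟩ := (ord_eq_zero_iff h p hg).1 h0
  rwa [H.val_eq]

theorem infA (h : FF k t) (hS : Sht A t θ f I D) (hd : DualB k t L e e') {j : L →+* C}
    {u : FL k E L → PowerSeries C} (hc : Cyc j A t f I u) (w : GV k L)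
    (hw : ∀ x, (w.v x : ℝ) = ‖j x‖) (hθ : w.v θ = Fintype.card k) (hdense : DenseRange j)
    {F : ℕ} (hF0 : 0 < F) (hF : ∀ x : Pt k E L, t ∉ x.O → (fr k L ^ F) • x = x)
    (hone : ∀ φ φ' : E →ₐ[k] L, φ t = θ → φ' t = θ →
      redO w (Pt.ofHom φ) = redO w (Pt.ofHom φ'))
    {R : Prop} {s : ℝ}
    (hB : ∀ G : ℕ → (E →ₐ[k] L) → C,
      (∀ (i : ℕ) (φ : E →ₐ[k] L), 1 ≤ i → φ t = θ → ∀ x ∈ I,
        HasSum (fun m => (∑ a, j ((tw ((fr k L)⁻¹ ^ i) φ) (e' a)) *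
            PowerSeries.coeff m (u (tm 1 (e a) * x))) * j ((tw ((fr k L)⁻¹ ^ i) φ) t) ^ m)
          (G i φ * j (val (Pt.ofHom (tw ((fr k L)⁻¹ ^ i) φ)) x))) →
      (∀ (i : ℕ) (φ : E →ₐ[k] L), φ t = θ → G i φ ≠ 0) →
      R ∧ ∃ (κ : ℝ) (i0 : ℕ), ∀ i, i0 ≤ i →
        ∑ᶠ φ ∈ {φ : E →ₐ[k] L | φ t = θ},
            (Real.log ‖G i φ‖ - dI w t I (tw ((fr k L)⁻¹ ^ i) φ)) =
          κ - s * Real.log (Fintype.card k) / (Fintype.card k : ℝ) ^ i) :
    R ∧ ∃ G : (E →ₐ[k] L) → C, (∀ φ : E →ₐ[k] L, φ t = θ → G φ ≠ 0) ∧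
      (∀ x ∈ tauLat A t f I, HasSum (fun m => PowerSeries.coeff m (u x) * j θ ^ m)
        (∑ᶠ φ ∈ {φ : E →ₐ[k] L | φ t = θ}, G φ * j (val (Pt.ofHom φ) x))) ∧
      ∀ φ : E →ₐ[k] L, φ t = θ →
        Real.log ‖G φ‖ - dI w t (tauLat A t f I) φ =
          Real.log (gauss w f) / ((Fintype.card k : ℝ) - 1) -
            (Real.log (Fintype.card k) / dg k t) * (s + degD D) + TT w f F D φ := by
  have hj : ‖j θ‖ = Fintype.card k := by rw [← hw, hθ]; simp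
  have hq : (1 : ℝ) < Fintype.card k := by exact_mod_cast Fintype.one_lt_card
  have hq0 : (Fintype.card k : ℝ) ≠ 0 := by linarith only [hq]
  have hθ1 : 1 < w.v θ := by rw [hθ]; exact_mod_cast Fintype.one_lt_card
  obtain ⟨G, hG0, hGr, hG1⟩ := inf1 h hS hd hc hj
  obtain ⟨Γ, hΓ, hfar⟩ := inf2 h hS hd hc hj w hw hdense hG1
  obtain ⟨ε, hε⟩ := far_step h hS.lat w hΓ
  have hne : ∀ φ : E →ₐ[k] L, φ t = θ → ∀ i, G i φ ≠ 0 := by
    intro φ hφ i
    obtain ⟨i0, hi0⟩ := hfar φ hφ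
    have key : ∀ d i, i0 ≤ i + d → G i φ ≠ 0 := by
      intro d
      induction d with
      | zero =>
        intro i hi h0
        obtain ⟨h1, h2⟩ := hi0 i hi
        rw [h0, norm_zero, hw] at h2
        exact infA_val_ne h hΓ h1 ((map_eq_zero j).1 (norm_eq_zero.1 h2.symm))
      | succ d ih =>
        intro i hi h0
        have h1 := hGr i φ hφ
        rw [h0, zero_mul] at h1
        exact pow_ne_zero _ (ih (i + 1) (by omega)) h1.symm
    exact key i0 i (by omega)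
  have hnt : ∀ φ : E →ₐ[k] L, φ t = θ → t ∉ (red w (Pt.ofHom φ)).O := fun φ hφ ht => by
    have h1 := (mem_redO.1 ht).2
    rw [Pt.ofHom_ev, hφ] at h1
    exact absurd hθ1 (not_lt.2 h1)
  have hlim : ∀ φ : E →ₐ[k] L, φ t = θ → ∃ i0 : ℕ, ∀ i, i0 ≤ i →
      Real.log ‖G i φ‖ - dI w t I (tw ((fr k L)⁻¹ ^ i) φ) = Real.log (gauss w Γ) -
        ε (((fr k L)⁻¹ ^ i) • red w (Pt.ofHom φ)) * ipt w (Pt.ofHom φ) (red w (Pt.ofHom φ)) /
          (Fintype.card k : ℝ) ^ i := fun φ hφ => by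
    obtain ⟨i0, hi0⟩ := hfar φ hφ
    obtain ⟨i1, hi1⟩ := hε φ
    exact ⟨max i0 i1, fun i hi => by rw [(hi0 i (by omega)).2, hi1 i (by omega)]⟩
  obtain ⟨cc0, hcc⟩ : ∃ c : Pt k E L → ℝ, ∀ x, c x =
      D.sum fun χ c => if red w (Pt.ofHom χ) = x then (c : ℝ) else 0 := ⟨_, fun _ => rfl⟩
  have main : ∀ φ : E →ₐ[k] L, φ t = θ →
      Real.log (gauss w Γ) = Real.log (gauss w f) / ((Fintype.card k : ℝ) - 1) ∧
      Real.log ‖G 0 φ‖ - dI w t (tauLat A t f I) φ = Real.log (gauss w Γ) -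
        (∑ i ∈ Finset.range F, (ε (((fr k L)⁻¹ ^ i) • red w (Pt.ofHom φ)) +
          cc0 (((fr k L)⁻¹ ^ i) • red w (Pt.ofHom φ)))) *
            ipt w (Pt.ofHom φ) (red w (Pt.ofHom φ)) / F + TT w f F D φ := by
    intro φ hφ
    have hper := inv_pow_add_smul (hF _ (hnt φ hφ))
    have hcL : ∀ i, 1 ≤ i → cL w D i φ = cc0 (((fr k L)⁻¹ ^ i) • red w (Pt.ofHom φ)) *
        ipt w (Pt.ofHom φ) (red w (Pt.ofHom φ)) := fun i hi => by
      rw [hcc, cL_eq h w (fun y hy => (hS.leg y hy).trans hφ.symm) hi]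
    have hstep : ∀ i : ℕ, (Fintype.card k : ℝ) ^ (i + 1) *
        (Real.log ‖G (i + 1) φ‖ - dI w t I (tw ((fr k L)⁻¹ ^ (i + 1)) φ)) =
          (Fintype.card k : ℝ) ^ i *
            (Real.log ‖G i φ‖ - dI w t (tauLat A t f I) (tw ((fr k L)⁻¹ ^ i) φ)) +
          (Fintype.card k : ℝ) ^ i * Real.log (gauss w f) -
          (ord (((fr k L)⁻¹ ^ i) • red w (Pt.ofHom φ)) f : ℝ) *
            ipt w (Pt.ofHom φ) (red w (Pt.ofHom φ)) := by
      intro i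
      have h1 := congrArg (fun z => Real.log ‖z‖) (hGr i φ hφ)
      have h2 : j (val (Pt.ofHom (tw ((fr k L)⁻¹ ^ i) φ)) f) ≠ 0 :=
        (map_ne_zero j).2 (infA_val_ne h hS.ne (hS.ord_f h hφ i))
      simp only [norm_mul, norm_pow, Real.log_pow] at h1
      rw [Real.log_mul (norm_ne_zero_iff.2 (hne φ hφ i)) (norm_ne_zero_iff.2 h2), ← hw,
        rec_step h hS w hθ1 hφ i] at h1
      have h3 : (Fintype.card k : ℝ) ^ i ≠ 0 := pow_ne_zero _ hq0
      have h4 := div_mul_cancel₀ ((ord (((fr k L)⁻¹ ^ i) • red w (Pt.ofHom φ)) f : ℝ) *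
        ipt w (Pt.ofHom φ) (red w (Pt.ofHom φ))) h3
      linear_combination (-(Fintype.card k : ℝ) ^ i) * h1 - h4
    obtain ⟨i0, hi0⟩ := hlim φ hφ
    obtain ⟨B, hB0, hB1⟩ : ∃ B : ℕ → ℝ, B 0 = Real.log ‖G 0 φ‖ - dI w t (tauLat A t f I) φ ∧
        ∀ i, 1 ≤ i → B i = (Fintype.card k : ℝ) ^ i *
          (Real.log ‖G i φ‖ - dI w t I (tw ((fr k L)⁻¹ ^ i) φ)) :=
      ⟨fun i => if i = 0 then Real.log ‖G 0 φ‖ - dI w t (tauLat A t f I) φ else
        (Fintype.card k : ℝ) ^ i * (Real.log ‖G i φ‖ - dI w t I (tw ((fr k L)⁻¹ ^ i) φ)),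
        if_pos rfl, fun i hi => if_neg (by omega)⟩
    have p1 : ∀ c : Pt k E L → ℝ, ∀ i,
        c (((fr k L)⁻¹ ^ (i + F)) • red w (Pt.ofHom φ)) * ipt w (Pt.ofHom φ) (red w (Pt.ofHom φ)) =
        c (((fr k L)⁻¹ ^ i) • red w (Pt.ofHom φ)) * ipt w (Pt.ofHom φ) (red w (Pt.ofHom φ)) :=
      fun c i => by rw [hper]
    have p2 : B 1 = B 0 + Real.log (gauss w f) -
        (ord (((fr k L)⁻¹ ^ 0) • red w (Pt.ofHom φ)) f : ℝ) *
          ipt w (Pt.ofHom φ) (red w (Pt.ofHom φ)) := by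
      have h1 := hstep 0
      have h2 : tw ((fr k L)⁻¹ ^ 0) φ = φ := rfl
      rw [h2] at h1
      rw [hB0, hB1 1 le_rfl]
      linear_combination h1
    have p3 : ∀ i, 1 ≤ i → B (i + 1) = B i + (Fintype.card k : ℝ) ^ i * Real.log (gauss w f) -
        cc0 (((fr k L)⁻¹ ^ i) • red w (Pt.ofHom φ)) * ipt w (Pt.ofHom φ) (red w (Pt.ofHom φ)) -
        (ord (((fr k L)⁻¹ ^ i) • red w (Pt.ofHom φ)) f : ℝ) *
          ipt w (Pt.ofHom φ) (red w (Pt.ofHom φ)) := fun i hi => by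
      have h1 := hstep i
      have h2 := dI_diff h hS w φ i
      rw [hcL i hi] at h2
      rw [hB1 i hi, hB1 (i + 1) (by omega)]
      linear_combination h1 - h2
    have p4 : ∀ i, max i0 1 ≤ i → B i = (Fintype.card k : ℝ) ^ i * Real.log (gauss w Γ) -
        ε (((fr k L)⁻¹ ^ i) • red w (Pt.ofHom φ)) * ipt w (Pt.ofHom φ) (red w (Pt.ofHom φ)) :=
      fun i hi => by
        have h3 : (Fintype.card k : ℝ) ^ i ≠ 0 := pow_ne_zero _ hq0
        rw [hB1 i (by omega), hi0 i (by omega), mul_sub, mul_div_cancel₀ _ h3]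
    refine ⟨seq_gamma hq hF0 (p1 cc0) (p1 fun x => ord x f) (p1 ε) p3 p4, ?_⟩
    have H := seq_lemma hq hF0 (p1 cc0) (p1 fun x => ord x f) (p1 ε) p2 p3 p4
    rw [← hB0, H, TT, cc, regP_congr F hcL, mul_comm (regP _ _), ← regP_const_mul, Finset.sum_mul,
      add_assoc]
    simp only [add_mul, mul_comm (ipt _ _ _)]
  obtain ⟨hR, κ, i0, hκ⟩ := hB G hG1 fun i φ hφ => hne φ hφ i
  have hfin := hom_fibre_finite h θ
  have hv : Real.log (w.v θ) = Real.log (Fintype.card k) := by rw [hθ]; simp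
  have hs : ∑ᶠ x ∈ {x : Pt k E L | t ∉ x.O}, ε x = s := by
    obtain ⟨i1, hi1⟩ := Filter.eventually_atTop.1 ((Filter.eventually_all_finite hfin).2
      fun φ hφ => Filter.eventually_atTop.2 (hlim φ hφ))
    have key : ∀ i, max i0 i1 ≤ i → κ - s * Real.log (Fintype.card k) / (Fintype.card k : ℝ) ^ i =
        ∑ _φ ∈ hfin.toFinset, Real.log (gauss w Γ) - Real.log (Fintype.card k) *
          (∑ᶠ x ∈ {x : Pt k E L | t ∉ x.O}, ε x) / (Fintype.card k : ℝ) ^ i := fun i hi => by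
      rw [← hκ i (by omega), finsum_mem_congr rfl (hi1 i (by omega)), ← hv,
        ← sum_legs h w hθ1 ε i, finsum_mem_eq_finite_toFinset_sum _ hfin,
        finsum_mem_eq_finite_toFinset_sum _ hfin, Finset.sum_sub_distrib, Finset.sum_div]
    have h1 := key _ le_rfl
    have h2 := key _ (Nat.le_succ _)
    have h3 : (Fintype.card k : ℝ) ^ max i0 i1 ≠ 0 := pow_ne_zero _ hq0
    have h4 : Real.log (Fintype.card k) * ((Fintype.card k : ℝ) - 1) ≠ 0 :=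
      mul_ne_zero (Real.log_pos hq).ne' (sub_pos.2 hq).ne'
    rw [pow_succ] at h2
    refine mul_left_cancel₀ h4 ?_
    have h5 := congrArg₂ (fun x y => (x - y) * ((Fintype.card k : ℝ) ^ max i0 i1 * Fintype.card k))
      h1 h2
    field_simp at h5
    linear_combination h5
  refine ⟨hR, G 0, fun φ hφ => hne φ hφ 0, hG0, fun φ hφ => ?_⟩
  have h1 := orbit_mean h w hθ1 hone hF (fun x => ε x + cc0 x) hφ
  have h2 := sum_inf_D h w hθ1 hS.leg
  simp only [← hcc] at h2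
  rw [finsum_mem_add_distrib (inf_finite h), hs, h2, hv] at h1
  have h3 : (F : ℝ) ≠ 0 := Nat.cast_ne_zero.2 hF0.ne'
  rw [(main φ hφ).2, (main φ hφ).1, h1, mul_assoc, mul_div_cancel_left₀ _ h3]

end Pool.Agent.FFC
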