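import Pool.Agent.P.MP_a2beea_nt.FC.Inf1b
import Pool.Agent.P.MP_a2beea_nt.FC.Inf2b
import Pool.Agent.P.MP_a2beea_nt.FC.Far2
import Pool.Agent.P.MP_a2beea_nt.FC.CL2
import Pool.Agent.P.MP_a2beea_nt.FC.InfA

/-! The place at infinity. Follow the proofs of `infM` and `infA`. Define `G i y` by choice from
`exists_isG` (lattice `I`, `c = (fr⁻¹ ^ i) (θ ^ p ^ b)`, `conv_of_bound`, `norm_bk_lt`,
`Sht2.gen`), `Γ` from `inf2b`, `ε` from `far_step`. `G i y ≠ 0` for large `i`, hence for all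
`i ≥ 1` by `IsG.step` (with `N := I`). With `x_i = (fr⁻¹ ^ i) • red w y`, `λ = ipt w y (red w y)`
put `B i = q ^ i (s log ‖G i y‖ - dI I y_i)` for `i ≥ 1`, `a i = cnt w (Dtot D l) x_i * λ` (equal to
`cL w (Dtot D l) i y` for `i ≥ 1` by `cL_eq2'`, `lev_lt_pow`), `b i = ord x_i f * λ`,
`e i = ε x_i * λ`, `γ = log gauss f`, `g₀ = log gauss Γ` (`rec_step2`, `dI_diff2`,
`inv_pow_add_smul`); `seq_gamma` gives `g₀ = γ / (q - 1)`. For the second part apply `seq_lemma`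
with `B 0 = s log ‖G₀‖ - dI N y - cL w (Dgt D l b) 0 y` (`dI_diff_N`, `IsG.step` for `i = 0`). -/

open Polynomial
open scoped TensorProduct NNReal IntermediateField

namespace Pool.Agent.FFC

open Classical

variable {k : Type*} [Field k] [Fintype k] {E : Type*} [Field E] [Algebra k E] {t : E}
  {L : Type*} [Field L] [Algebra k L] [IsAlgClosed L]
  [IsDomain (L ⊗[k] E)]
  [Nonempty (GV k L)]
  {θ : L}
  {A A' : Subring L} {f : FL k E L} {I J N : AddSubgroup (FL k E L)}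
  {D : ℕ → (E →ₐ[k] L) →₀ ℤ} {p l b : ℕ} {y : E →ₐ[k] L}
  {C : Type*} [NormedField C] [IsUltrametricDist C] [CompleteSpace C]
  {n : ℕ} {e e' : Fin n → E} {j : L →+* C} {u : FL k E L → PowerSeries C}

private theorem infB_val_ne (h : FF k t) {p : Pt k E L} {g : FL k E L} (hg : g ≠ 0)
    (h0 : ord p g = 0) : val p g ≠ 0 := by
  obtain ⟨c, hc, H⟩ := (ord_eq_zero_iff h p hg).1 h0
  rwa [H.val_eq]

omit [IsDomain (L ⊗[k] E)] [Nonempty (GV k L)] in
private theorem infB_trans {c : L} (hc : Transcendental k c) (i : ℕ) :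
    Transcendental k (((fr k L)⁻¹ ^ i) c) := fun hi => by
  have := hi.algHom ((fr k L)⁻¹ ^ i).symm.toAlgHom
  have e : ((fr k L)⁻¹ ^ i).symm.toAlgHom (((fr k L)⁻¹ ^ i) c) = c :=
    ((fr k L)⁻¹ ^ i).symm_apply_apply c
  rw [e] at this
  exact hc this

theorem infB (h : FF k t) (hS : Sht2 A t θ p l f I D) (hd : DualB k t L e e')
    (hc : Cyc j A t f I u)
    (w : GV k L) {s : ℕ} (hs : s ≠ 0) (hw : ∀ x, (w.v x : ℝ) = ‖j x‖ ^ s)
    (hθ : 1 < w.v θ) (hdense : DenseRange j)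
    (hbd : ∀ x ∈ I, ∃ B : ℝ, ∀ m, ‖PowerSeries.coeff m (u x)‖ * ‖j θ‖ ^ m ≤ B)
    {F : ℕ} (hF0 : 0 < F) (hF : ∀ x : Pt k E L, t ∉ x.O → (fr k L ^ F) • x = x) :
    ∃ (ε : Pt k E L → ℝ) (G : ℕ → (E →ₐ[k] L) → C),
      (∀ b < l, ∀ y : E →ₐ[k] L, y t = θ ^ p ^ b →
        (∀ i, 1 ≤ i → IsG j t e e' I u (tw ((fr k L)⁻¹ ^ i) y) (G i y) ∧ G i y ≠ 0) ∧
        ∃ i0 : ℕ, ∀ i, i0 ≤ i →
          s * Real.log ‖G i y‖ - dI w t I (tw ((fr k L)⁻¹ ^ i) y) =
            Real.log (gauss w f) / ((Fintype.card k : ℝ) - 1) -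
              ε (((fr k L)⁻¹ ^ i) • red w (Pt.ofHom y)) * ipt w (Pt.ofHom y) (red w (Pt.ofHom y)) / (Fintype.card k : ℝ) ^ i) ∧
      ∀ (b : ℕ) (A' : Subring L) (N : AddSubgroup (FL k E L)), Lev A t θ p l f I D b A' N →
        ∀ y : E →ₐ[k] L, y t = θ ^ p ^ b → ∀ G₀, IsG j t e e' N u y G₀ → G₀ ≠ 0 ∧
          s * Real.log ‖G₀‖ - dI w t N y =
            Real.log (gauss w f) / ((Fintype.card k : ℝ) - 1) - meanE w ε (Dtot D l) F y +
              TT w f F (Dtot D l) y + cL w (Dgt D l b) 0 y := by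
  have hq : (1 : ℝ) < Fintype.card k := by exact_mod_cast Fintype.one_lt_card
  have hq0 : (Fintype.card k : ℝ) ≠ 0 := by linarith only [hq]
  have hjθ : 1 < ‖j θ‖ := by
    have h1 : (1 : ℝ) < w.v θ := by exact_mod_cast hθ
    rw [hw] at h1
    exact (one_lt_pow_iff_of_nonneg (norm_nonneg _) hs).1 h1
  have hτ : ∀ x ∈ I, f * mapF (fr k L) x ∈ I := fun x hx => hS.le (mem_tauLat hx)
  have hex : ∀ (i : ℕ) (y : E →ₐ[k] L), ∃ G : C, 1 ≤ i → ∀ b < l, y t = θ ^ p ^ b →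
      IsG j t e e' I u (tw ((fr k L)⁻¹ ^ i) y) G := by
    intro i y
    by_cases hb : 1 ≤ i ∧ ∃ b < l, y t = θ ^ p ^ b
    · obtain ⟨hi, b, hb, hy⟩ := hb
      obtain ⟨G, hG⟩ := (exists_isG h hS.lat hS.alg_mem le_rfl le_rfl hd hc
        (infB_trans (lev_trans hS.trans hS.one_lt b) i) (fun x hx => by
          obtain ⟨B, hB⟩ := hbd x hx
          exact conv_of_bound hB (norm_nonneg _)
            (norm_bk_lt hS.one_lt hS.pow_eq hb hjθ hi))).1 (tw ((fr k L)⁻¹ ^ i) y)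
        (by rw [← hy]; rfl) (hS.gen b hb y hy i hi)
      exact ⟨G, fun _ _ _ _ => hG⟩
    · exact ⟨0, fun hi b hb' hy => (hb ⟨hi, b, hb', hy⟩).elim⟩
  choose G hG using hex
  obtain ⟨Γ, hΓ, hfar⟩ := inf2b h hS.lat hS.alg_mem hd hc hjθ hbd w hs hw hdense
  obtain ⟨ε, hε⟩ := far_step h hS.lat w hΓ
  have main : ∀ b < l, ∀ y : E →ₐ[k] L, y t = θ ^ p ^ b →
      (∀ i, 1 ≤ i → G i y ≠ 0) ∧
      (∃ i0 : ℕ, ∀ i, i0 ≤ i →
        s * Real.log ‖G i y‖ - dI w t I (tw ((fr k L)⁻¹ ^ i) y) =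
          Real.log (gauss w f) / ((Fintype.card k : ℝ) - 1) -
            ε (((fr k L)⁻¹ ^ i) • red w (Pt.ofHom y)) * ipt w (Pt.ofHom y) (red w (Pt.ofHom y)) /
              (Fintype.card k : ℝ) ^ i) ∧
      ∀ G₀ : C, G₀ * j (val (Pt.ofHom (tw ((fr k L)⁻¹ ^ 0) y)) f) =
          G (0 + 1) y ^ Fintype.card k → G₀ ≠ 0 ∧
        s * Real.log ‖G₀‖ - dI w t (tauLat A t f I) y =
          Real.log (gauss w f) / ((Fintype.card k : ℝ) - 1) - meanE w ε (Dtot D l) F y +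
            TT w f F (Dtot D l) y := by
    intro b hb y hy
    have hy1 : 1 < w.v (y t) := hy ▸ one_lt_lev w hθ hS.one_lt b
    have hGr : ∀ i, 1 ≤ i → G i y * j (val (Pt.ofHom (tw ((fr k L)⁻¹ ^ i) y)) f) =
        G (i + 1) y ^ Fintype.card k := fun i hi =>
      IsG.step h hS.lat hS.ne hd hc hτ (hG i y hi b hb hy) (hG (i + 1) y (by omega) b hb hy)
        (hS.ord_f h hb hy i) (hS.gen b hb y hy _ (by omega))
    obtain ⟨i0, hi0⟩ := hfar y
    obtain ⟨i1, hi1⟩ := hε y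
    have hne : ∀ i, 1 ≤ i → G i y ≠ 0 := by
      have key : ∀ d i, 1 ≤ i → i0 ≤ i + d → G i y ≠ 0 := by
        intro d
        induction d with
        | zero =>
          intro i hi hi' h0
          obtain ⟨h1, h2⟩ := hi0 i hi'
          have h3 := h2 _ (hG i y hi b hb hy)
          rw [h0, norm_zero, hw, zero_pow hs] at h3
          exact infB_val_ne h hΓ h1
            ((map_eq_zero j).1 (norm_eq_zero.1 (eq_zero_of_pow_eq_zero h3.symm)))
        | succ d ih =>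
          intro i hi hi' h0
          have h1 := hGr i hi
          rw [h0, zero_mul] at h1
          exact pow_ne_zero _ (ih (i + 1) (by omega) (by omega)) h1.symm
      exact fun i hi => key i0 i hi (by omega)
    have hper := inv_pow_add_smul (hF _ (red_inf w hy1))
    have hcL : ∀ i, 1 ≤ i → cL w (Dtot D l) i y =
        cnt w (Dtot D l) (((fr k L)⁻¹ ^ i) • red w (Pt.ofHom y)) *
          ipt w (Pt.ofHom y) (red w (Pt.ofHom y)) := fun i hi =>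
      cL_eq2' h w hy1 (fun χ hχ => by
        obtain ⟨a, -, ha⟩ := hS.lev_of_mem hχ
        rw [hy, ha]
        exact lev_lt_pow w hθ hS.one_lt hS.pow_eq hb a) hi
    have hlim : ∀ i, max (max i0 i1) 1 ≤ i →
        s * Real.log ‖G i y‖ - dI w t I (tw ((fr k L)⁻¹ ^ i) y) = Real.log (gauss w Γ) -
          ε (((fr k L)⁻¹ ^ i) • red w (Pt.ofHom y)) * ipt w (Pt.ofHom y) (red w (Pt.ofHom y)) /
            (Fintype.card k : ℝ) ^ i := fun i hi => by
      rw [← Real.log_pow, (hi0 i (by omega)).2 _ (hG i y (by omega) b hb hy), hi1 i (by omega)]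
    have hstep : ∀ (i : ℕ) (G₀ : C), G₀ * j (val (Pt.ofHom (tw ((fr k L)⁻¹ ^ i) y)) f) =
        G (i + 1) y ^ Fintype.card k → G₀ ≠ 0 ∧ (Fintype.card k : ℝ) ^ (i + 1) *
        (s * Real.log ‖G (i + 1) y‖ - dI w t I (tw ((fr k L)⁻¹ ^ (i + 1)) y)) =
          (Fintype.card k : ℝ) ^ i *
            (s * Real.log ‖G₀‖ - dI w t (tauLat A t f I) (tw ((fr k L)⁻¹ ^ i) y)) +
          (Fintype.card k : ℝ) ^ i * Real.log (gauss w f) -
          (ord (((fr k L)⁻¹ ^ i) • red w (Pt.ofHom y)) f : ℝ) *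
            ipt w (Pt.ofHom y) (red w (Pt.ofHom y)) := by
      intro i G₀ hr
      have h0 : G₀ ≠ 0 := fun h0 => by
        rw [h0, zero_mul] at hr
        exact pow_ne_zero _ (hne (i + 1) (by omega)) hr.symm
      have h1 := congrArg (fun z => Real.log ‖z‖) hr
      have h2 : j (val (Pt.ofHom (tw ((fr k L)⁻¹ ^ i) y)) f) ≠ 0 :=
        (map_ne_zero j).2 (infB_val_ne h hS.ne (hS.ord_f h hb hy i))
      simp only [norm_mul, norm_pow, Real.log_pow] at h1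
      rw [Real.log_mul (norm_ne_zero_iff.2 h0) (norm_ne_zero_iff.2 h2)] at h1
      have h5 := rec_step2 h hS.lat hS.ne w hy1 i (hS.ord_f h hb hy i)
      rw [hw, Real.log_pow] at h5
      have h3 : (Fintype.card k : ℝ) ^ i ≠ 0 := pow_ne_zero _ hq0
      have h4 := div_mul_cancel₀ ((ord (((fr k L)⁻¹ ^ i) • red w (Pt.ofHom y)) f : ℝ) *
        ipt w (Pt.ofHom y) (red w (Pt.ofHom y))) h3
      refine ⟨h0, ?_⟩
      linear_combination (-(Fintype.card k : ℝ) ^ i * s) * h1 +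
        (Fintype.card k : ℝ) ^ i * h5 - h4
    have p1 : ∀ c : Pt k E L → ℝ, ∀ i,
        c (((fr k L)⁻¹ ^ (i + F)) • red w (Pt.ofHom y)) * ipt w (Pt.ofHom y) (red w (Pt.ofHom y)) =
        c (((fr k L)⁻¹ ^ i) • red w (Pt.ofHom y)) * ipt w (Pt.ofHom y) (red w (Pt.ofHom y)) :=
      fun c i => by rw [hper]
    have p0 : ∀ b₀ : ℝ, ∃ B : ℕ → ℝ, B 0 = b₀ ∧ B 1 = (Fintype.card k : ℝ) ^ (0 + 1) *
        (s * Real.log ‖G (0 + 1) y‖ - dI w t I (tw ((fr k L)⁻¹ ^ (0 + 1)) y)) ∧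
        (∀ i, 1 ≤ i → B (i + 1) = B i + (Fintype.card k : ℝ) ^ i * Real.log (gauss w f) -
          cnt w (Dtot D l) (((fr k L)⁻¹ ^ i) • red w (Pt.ofHom y)) *
            ipt w (Pt.ofHom y) (red w (Pt.ofHom y)) -
          (ord (((fr k L)⁻¹ ^ i) • red w (Pt.ofHom y)) f : ℝ) *
            ipt w (Pt.ofHom y) (red w (Pt.ofHom y))) ∧
        ∀ i, max (max i0 i1) 1 ≤ i → B i = (Fintype.card k : ℝ) ^ i * Real.log (gauss w Γ) -
          ε (((fr k L)⁻¹ ^ i) • red w (Pt.ofHom y)) * ipt w (Pt.ofHom y) (red w (Pt.ofHom y)) := by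
      intro b₀
      obtain ⟨B, hB0, hB1⟩ : ∃ B : ℕ → ℝ, B 0 = b₀ ∧ ∀ i, 1 ≤ i → B i = (Fintype.card k : ℝ) ^ i *
          (s * Real.log ‖G i y‖ - dI w t I (tw ((fr k L)⁻¹ ^ i) y)) :=
        ⟨fun i => if i = 0 then b₀ else (Fintype.card k : ℝ) ^ i *
          (s * Real.log ‖G i y‖ - dI w t I (tw ((fr k L)⁻¹ ^ i) y)),
          if_pos rfl, fun i hi => if_neg (by omega)⟩
      refine ⟨B, hB0, hB1 1 le_rfl, fun i hi => ?_, fun i hi => ?_⟩
      · have h1 := (hstep i _ (hGr i hi)).2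
        have h2 := dI_diff2 h hS w y i
        rw [hcL i hi] at h2
        rw [hB1 i hi, hB1 (i + 1) (by omega)]
        linear_combination h1 - h2
      · have h3 : (Fintype.card k : ℝ) ^ i ≠ 0 := pow_ne_zero _ hq0
        rw [hB1 i (by omega), hlim i hi, mul_sub, mul_div_cancel₀ _ h3]
    have hγ : Real.log (gauss w Γ) = Real.log (gauss w f) / ((Fintype.card k : ℝ) - 1) := by
      obtain ⟨B, -, -, p3, p4⟩ := p0 0
      exact seq_gamma hq hF0 (p1 (cnt w (Dtot D l))) (p1 fun x => ord x f) (p1 ε) p3 p4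
    refine ⟨hne, ⟨_, fun i hi => hγ ▸ hlim i hi⟩, fun G₀ hr => ⟨(hstep 0 G₀ hr).1, ?_⟩⟩
    obtain ⟨B, hB0, hB1, p3, p4⟩ := p0 (s * Real.log ‖G₀‖ - dI w t (tauLat A t f I) y)
    have p2 : B 1 = B 0 + Real.log (gauss w f) -
        (ord (((fr k L)⁻¹ ^ 0) • red w (Pt.ofHom y)) f : ℝ) *
          ipt w (Pt.ofHom y) (red w (Pt.ofHom y)) := by
      have h1 := (hstep 0 G₀ hr).2
      have h2 : tw ((fr k L)⁻¹ ^ 0) y = y := rfl
      rw [h2] at h1
      rw [hB0, hB1]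
      linear_combination h1
    have H := seq_lemma hq hF0 (p1 (cnt w (Dtot D l))) (p1 fun x => ord x f) (p1 ε) p2 p3 p4
    rw [← hB0, H, hγ, meanE, TT, cc, regP_congr F hcL, mul_comm (regP _ _), ← regP_const_mul,
      Finset.sum_mul, add_assoc]
    simp only [add_mul, mul_comm (ipt _ _ _)]
  refine ⟨ε, G, fun b hb y hy => ⟨fun i hi => ⟨hG i y hi b hb hy, (main b hb y hy).1 i hi⟩,
    (main b hb y hy).2.1⟩, fun b A' N hL y hy G₀ hG₀ => ?_⟩
  obtain ⟨h1, h2⟩ := (main b hL.lt y hy).2.2 G₀ (IsG.step (i := 0) h hS.lat hS.ne hd hc hL.tau hG₀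
    (hG 1 y le_rfl b hL.lt hy) (hS.ord_f h hL.lt hy 0) (hS.gen b hL.lt y hy _ le_rfl))
  exact ⟨h1, by linear_combination h2 + dI_diff_N h hS hL w y⟩

end Pool.Agent.FFC
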