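import Pool.Agent.P.MP_a2beea_nt.FC.Inf1
import Pool.Agent.P.MP_a2beea_nt.FC.Inf2
import Pool.Agent.P.MP_a2beea_nt.FC.RegL

/-! The place at infinity. Take `G` from `inf1`, `Γ` from `inf2`, `ε` from `far_step`. `G i φ ≠ 0` for
large `i`, hence for all `i` by the recursion. With `x_i = (fr⁻¹ ^ i) • red w φ`,
`λ = ipt w φ (red w φ)`, apply `seq_lemma` to `B 0 = log ‖G 0 φ‖ - dI N φ`,
`B i = q ^ i (log ‖G i φ‖ - dI I φ_i)`, `a i = (∑_{χ, red χ = x_i} D χ) λ` (equal to `cL w D i φ`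
for `i ≥ 1` by `cL_eq`), `b i = ord x_i f * λ`, `e i = ε x_i * λ`, `γ = log gauss f`,
`g₀ = log gauss Γ` (`rec_step`, `dI_diff`, `inv_pow_add_smul`). The term `∑ (e i + a i)` is the
same for `φ` and `φ'` by `orbit_sum_eq` and `ipt_red_eq`. -/

open Polynomial
open scoped TensorProduct NNReal IntermediateField

namespace Pool.Agent.FFC

open Classical

variable {k : Type*} [Field k] [Fintype k] {E : Type*} [Field E] [Algebra k E] {t : E}
  {L : Type*} [Field L] [Algebra k L] [IsAlgClosed L]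
  [IsDomain (L ⊗[k] E)]
  [Nonempty (GV k L)]
  {θ : L}
  {C : Type*} [NormedField C] [IsUltrametricDist C] [CompleteSpace C]
  {A : Subring L} {f : FL k E L} {I : AddSubgroup (FL k E L)} {D : (E →ₐ[k] L) →₀ ℤ}

private theorem infM_val_ne (h : FF k t) {p : Pt k E L} {g : FL k E L} (hg : g ≠ 0)
    (h0 : ord p g = 0) : val p g ≠ 0 := by
  obtain ⟨c, hc, H⟩ := (ord_eq_zero_iff h p hg).1 h0
  rwa [H.val_eq]

theorem infM (h : FF k t) (hS : Sht A t θ f I D) {j : L →+* C} {u : FL k E L → PowerSeries C}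
    (hc : Cyc j A t f I u) (w : GV k L) (hw : ∀ x, (w.v x : ℝ) = ‖j x‖)
    (hθ : w.v θ = Fintype.card k) (hdense : DenseRange j) {F : ℕ} (hF0 : 0 < F)
    (hF : ∀ x : Pt k E L, t ∉ x.O → (fr k L ^ F) • x = x) :
    ∃ G : (E →ₐ[k] L) → C, (∀ φ : E →ₐ[k] L, φ t = θ → G φ ≠ 0) ∧
      (∀ x ∈ tauLat A t f I, HasSum (fun m => PowerSeries.coeff m (u x) * j θ ^ m)
        (∑ᶠ φ ∈ {φ : E →ₐ[k] L | φ t = θ}, G φ * j (val (Pt.ofHom φ) x))) ∧
      ∀ φ φ' : E →ₐ[k] L, φ t = θ → φ' t = θ → redO w (Pt.ofHom φ) = redO w (Pt.ofHom φ') →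
        (Real.log ‖G φ‖ - dI w t (tauLat A t f I) φ) - (Real.log ‖G φ'‖ - dI w t (tauLat A t f I) φ') =
          TT w f F D φ - TT w f F D φ' := by
  have hj : ‖j θ‖ = Fintype.card k := by rw [← hw, hθ]; simp
  have hq : (1 : ℝ) < Fintype.card k := by exact_mod_cast Fintype.one_lt_card
  have hq0 : (Fintype.card k : ℝ) ≠ 0 := by linarith only [hq]
  have hθ1 : 1 < w.v θ := by rw [hθ]; exact_mod_cast Fintype.one_lt_card
  obtain ⟨n, e, e', hd⟩ := exists_dualB h L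
  obtain ⟨G, hG0, hGr, hG1⟩ := inf1 h hS hd hc hj
  obtain ⟨Γ, hΓ, hfar⟩ := inf2 h hS hd hc hj w hw hdense hG1
  obtain ⟨ε, hε⟩ := far_step h hS.lat w hΓ
  have hne : ∀ φ : E →ₐ[k] L, φ t = θ → ∀ i, G i φ ≠ 0 := by
    intro φ hφ i
    obtain ⟨i0, hi0⟩ := hfar φ hφ
    have key : ∀ d i, i0 ≤ i + d → G i φ ≠ 0 := by
      intro d
      induction d with
      | zero =>
        intro i hi h0
        obtain ⟨h1, h2⟩ := hi0 i hi
        rw [h0, norm_zero, hw] at h2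
        exact infM_val_ne h hΓ h1 ((map_eq_zero j).1 (norm_eq_zero.1 h2.symm))
      | succ d ih =>
        intro i hi h0
        have h1 := hGr i φ hφ
        rw [h0, zero_mul] at h1
        exact pow_ne_zero _ (ih (i + 1) (by omega)) h1.symm
    exact key i0 i (by omega)
  have hnt : ∀ φ : E →ₐ[k] L, φ t = θ → t ∉ (red w (Pt.ofHom φ)).O := fun φ hφ ht => by
    have h1 := (mem_redO.1 ht).2
    rw [Pt.ofHom_ev, hφ] at h1
    exact absurd hθ1 (not_lt.2 h1)
  obtain ⟨cc0, hcc⟩ : ∃ c : Pt k E L → ℝ, ∀ x, c x =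
      D.sum fun χ c => if red w (Pt.ofHom χ) = x then (c : ℝ) else 0 := ⟨_, fun _ => rfl⟩
  have main : ∀ φ : E →ₐ[k] L, φ t = θ →
      Real.log ‖G 0 φ‖ - dI w t (tauLat A t f I) φ = Real.log (gauss w Γ) -
        (∑ i ∈ Finset.range F, (ε (((fr k L)⁻¹ ^ i) • red w (Pt.ofHom φ)) +
          cc0 (((fr k L)⁻¹ ^ i) • red w (Pt.ofHom φ)))) *
            ipt w (Pt.ofHom φ) (red w (Pt.ofHom φ)) / F + TT w f F D φ := by
    intro φ hφ
    have hper := inv_pow_add_smul (hF _ (hnt φ hφ))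
    have hcL : ∀ i, 1 ≤ i → cL w D i φ = cc0 (((fr k L)⁻¹ ^ i) • red w (Pt.ofHom φ)) *
        ipt w (Pt.ofHom φ) (red w (Pt.ofHom φ)) := fun i hi => by
      rw [hcc, cL_eq h w (fun y hy => (hS.leg y hy).trans hφ.symm) hi]
    have hstep : ∀ i : ℕ, (Fintype.card k : ℝ) ^ (i + 1) *
        (Real.log ‖G (i + 1) φ‖ - dI w t I (tw ((fr k L)⁻¹ ^ (i + 1)) φ)) =
          (Fintype.card k : ℝ) ^ i *
            (Real.log ‖G i φ‖ - dI w t (tauLat A t f I) (tw ((fr k L)⁻¹ ^ i) φ)) +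
          (Fintype.card k : ℝ) ^ i * Real.log (gauss w f) -
          (ord (((fr k L)⁻¹ ^ i) • red w (Pt.ofHom φ)) f : ℝ) *
            ipt w (Pt.ofHom φ) (red w (Pt.ofHom φ)) := by
      intro i
      have h1 := congrArg (fun z => Real.log ‖z‖) (hGr i φ hφ)
      have h2 : j (val (Pt.ofHom (tw ((fr k L)⁻¹ ^ i) φ)) f) ≠ 0 :=
        (map_ne_zero j).2 (infM_val_ne h hS.ne (hS.ord_f h hφ i))
      simp only [norm_mul, norm_pow, Real.log_pow] at h1
      rw [Real.log_mul (norm_ne_zero_iff.2 (hne φ hφ i)) (norm_ne_zero_iff.2 h2), ← hw,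
        rec_step h hS w hθ1 hφ i] at h1
      have h3 : (Fintype.card k : ℝ) ^ i ≠ 0 := pow_ne_zero _ hq0
      have h4 := div_mul_cancel₀ ((ord (((fr k L)⁻¹ ^ i) • red w (Pt.ofHom φ)) f : ℝ) *
        ipt w (Pt.ofHom φ) (red w (Pt.ofHom φ))) h3
      linear_combination (-(Fintype.card k : ℝ) ^ i) * h1 - h4
    obtain ⟨i0, hi0⟩ := hfar φ hφ
    obtain ⟨i1, hi1⟩ := hε φ
    have H := seq_lemma hq hF0
      (a := fun i => cc0 (((fr k L)⁻¹ ^ i) • red w (Pt.ofHom φ)) *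
        ipt w (Pt.ofHom φ) (red w (Pt.ofHom φ)))
      (b := fun i => (ord (((fr k L)⁻¹ ^ i) • red w (Pt.ofHom φ)) f : ℝ) *
        ipt w (Pt.ofHom φ) (red w (Pt.ofHom φ)))
      (e := fun i => ε (((fr k L)⁻¹ ^ i) • red w (Pt.ofHom φ)) *
        ipt w (Pt.ofHom φ) (red w (Pt.ofHom φ)))
      (B := fun i => if i = 0 then Real.log ‖G 0 φ‖ - dI w t (tauLat A t f I) φ else
        (Fintype.card k : ℝ) ^ i * (Real.log ‖G i φ‖ - dI w t I (tw ((fr k L)⁻¹ ^ i) φ)))
      (γ := Real.log (gauss w f)) (g₀ := Real.log (gauss w Γ)) (i0 := max (max i0 i1) 1)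
      (fun i => by simp only [hper]) (fun i => by simp only [hper]) (fun i => by simp only [hper])
      (by
        have h1 := hstep 0
        have h2 : tw ((fr k L)⁻¹ ^ 0) φ = φ := rfl
        rw [h2] at h1
        simp only [one_ne_zero, if_false, if_true]
        linear_combination h1)
      (fun i hi => by
        have h1 := hstep i
        have h2 := dI_diff h hS w φ i
        rw [hcL i hi] at h2
        simp only [Nat.succ_ne_zero, show i ≠ 0 by omega, if_false]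
        linear_combination h1 - h2)
      (fun i hi => by
        have h1 := hi1 i (by omega)
        have h3 : (Fintype.card k : ℝ) ^ i ≠ 0 := pow_ne_zero _ hq0
        have h4 := div_mul_cancel₀ (ε (((fr k L)⁻¹ ^ i) • red w (Pt.ofHom φ)) *
          ipt w (Pt.ofHom φ) (red w (Pt.ofHom φ))) h3
        simp only [show i ≠ 0 by omega, if_false]
        rw [(hi0 i (by omega)).2]
        linear_combination (Fintype.card k : ℝ) ^ i * h1 - h4)
    simp only [if_true] at H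
    rw [H, TT, cc, regP_congr F hcL, mul_comm (regP _ _), ← regP_const_mul, Finset.sum_mul,
      add_assoc]
    simp only [add_mul, mul_comm (ipt _ _ _)]
  refine ⟨G 0, fun φ hφ => hne φ hφ 0, hG0, fun φ φ' hφ hφ' hO => ?_⟩
  have h1 := orbit_sum_eq h (fun x => ε x + cc0 x) (x := red w (Pt.ofHom φ))
    (x' := red w (Pt.ofHom φ')) (fun h0 => hnt φ hφ (h0 ▸ ValuationSubring.mem_top t)) hO
    (hF _ (hnt φ hφ))
  rw [main φ hφ, main φ' hφ', h1, ipt_red_eq h w (hφ.trans hφ'.symm) hO]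
  ring

end Pool.Agent.FFC
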