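import Pool.Agent.P.MP_a2beea_nt.FC.Two0

/-! Embeddings of `E` and points of the curve over `k`. `exists_lift`: the two `k₀`-embeddings
`c ↦ φ c` and `algebraMap k L` of the finite field `k` in `L` differ by an automorphism of `k`
(`AlgHom.restrictNormal`, or `IsAlgClosed.algHomEquivAlgHomOfSplits`, `Normal.algHomEquivAut`),
and the automorphisms of `k / k₀` are the powers of Frobenius
(`FiniteField.bijective_frobeniusAlgEquivOfAlgebraic_pow`,
`FiniteField.orderOf_frobeniusAlgEquivOfAlgebraic`). `lift_surj`: compose `y` with the inverse of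
`fr k₀ L ^ b` and use `emb_surj` over `k₀`. `not_lift`: `E` is the fraction field of `OE`
(`OO_frac`-like: `IsIntegralClosure.isFractionRing_of_finite_extension`). -/

set_option linter.unusedSectionVars false

open Polynomial
open scoped TensorProduct NNReal IntermediateField

namespace Pool.Agent.FFC

open Classical

variable {k₀ : Type*} [Field k₀] [Fintype k₀] {E K : Type*} [Field E] [Field K]
  [Algebra k₀ E] [Algebra k₀[X] E] [Algebra (RatFunc k₀) E] [IsScalarTower k₀ k₀[X] E]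
  [IsScalarTower k₀[X] (RatFunc k₀) E]
  [Algebra k₀ K] [Algebra k₀[X] K] [Algebra (RatFunc k₀) K] [IsScalarTower k₀ k₀[X] K]
  [IsScalarTower k₀[X] (RatFunc k₀) K]
  [FiniteDimensional (RatFunc k₀) E] [Algebra.IsSeparable (RatFunc k₀) E]
  [FiniteDimensional (RatFunc k₀) K] [IsGalois (RatFunc k₀) K]
  {OE OK : Type*} [CommRing OE] [CommRing OK]
  [Algebra k₀ OE] [Algebra k₀[X] OE] [Algebra OE E] [IsScalarTower k₀ k₀[X] OE]
  [IsScalarTower k₀[X] OE E] [IsIntegralClosure OE k₀[X] E]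
  [Algebra k₀ OK] [Algebra k₀[X] OK] [Algebra OK K] [IsScalarTower k₀ k₀[X] OK]
  [IsScalarTower k₀[X] OK K] [IsIntegralClosure OK k₀[X] K]
  {L : Type*} [Field L] [Algebra k₀ L] [Algebra K L] [IsScalarTower k₀ K L] [IsAlgClosed L]
  [Algebra.IsAlgebraic K L]
  {k : Type*} [Field k] [Fintype k] [Algebra k₀ k] [Algebra k E] [IsScalarTower k₀ k E]
  [Algebra k L] [IsScalarTower k₀ k L]
  {φ φ' : E →ₐ[RatFunc k₀] K} {a b b' : ℕ} {y y' : E →ₐ[k] L}

private theorem Lift_fr (n : ℕ) (x : L) : (fr k₀ L ^ n) x = x ^ Fintype.card k₀ ^ n := by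
  rw [AlgEquiv.coe_pow]
  exact congrFun (pow_iterate (Fintype.card k₀) n) x

private theorem Lift_frob (n : ℕ) (c : k) :
    (FiniteField.frobeniusAlgEquivOfAlgebraic k₀ k ^ n) c = c ^ Fintype.card k₀ ^ n := by
  rw [AlgEquiv.coe_pow, FiniteField.coe_frobeniusAlgEquivOfAlgebraic_iterate]

variable (k L) in
private theorem Lift_aut (φ : E →ₐ[RatFunc k₀] K) :
    ∃ σ : k ≃ₐ[k₀] k, ∀ c, algebraMap k L (σ c) = algebraMap K L (φ (algebraMap k E c)) :=
  ⟨(emb L φ).restrictNormal' k, fun c => (emb L φ).restrictNormal_commutes k c⟩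

theorem IsLift.map_t (hy : IsLift k₀ φ b y) : y (tE k₀ E) = (th k₀ K L) ^ (Fintype.card k₀) ^ b := by
  rw [hy, ← emb_apply, emb_t]

theorem exists_lift_of (φ : (E →ₐ[RatFunc k₀] K)) (b : ℕ)
    (h : ∀ c : k, algebraMap K L (φ (algebraMap k E c)) ^ (Fintype.card k₀) ^ b = algebraMap k L c) :
    ∃ y : E →ₐ[k] L, IsLift k₀ φ b y :=
  ⟨{ toRingHom := ((fr k₀ L ^ b).toAlgHom.comp (emb L φ)).toRingHom
     commutes' := fun c => (Lift_fr b _).trans (h c) }, fun _ => Lift_fr b _⟩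

variable (k L) in
theorem exists_lift (φ : (E →ₐ[RatFunc k₀] K)) :
    ∃ b < (Module.finrank k₀ k), ∃ y : E →ₐ[k] L, IsLift k₀ φ b y := by
  obtain ⟨σ, hσ⟩ := Lift_aut L k φ
  obtain ⟨⟨b, hb⟩, e⟩ := (FiniteField.bijective_frobeniusAlgEquivOfAlgebraic_pow k₀ k).2 σ⁻¹
  refine ⟨b, hb, exists_lift_of φ b fun c => ?_⟩
  have e' : FiniteField.frobeniusAlgEquivOfAlgebraic k₀ k ^ b = σ⁻¹ := e
  rw [← hσ, ← map_pow, ← Lift_frob, e', ← AlgEquiv.mul_apply, inv_mul_cancel, AlgEquiv.one_apply]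

theorem IsLift.unique (h : IsLift k₀ φ b y) (h' : IsLift k₀ φ b y') : y = y' :=
  AlgHom.ext fun a => (h a).trans (h' a).symm

theorem IsLift.level (h : IsLift k₀ φ b y) (h' : IsLift k₀ φ b' y') (hb : b < (Module.finrank k₀ k))
    (hb' : b' < (Module.finrank k₀ k)) : b = b' := by
  obtain ⟨σ, hσ⟩ := Lift_aut L k φ
  refine congrArg Fin.val ((FiniteField.bijective_frobeniusAlgEquivOfAlgebraic_pow k₀ k).1
    (a₁ := ⟨b, hb⟩) (a₂ := ⟨b', hb'⟩) (AlgEquiv.ext fun c => ?_))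
  obtain ⟨c, rfl⟩ := σ.surjective c
  refine (algebraMap k L).injective ?_
  simp only [Lift_frob, map_pow, hσ]
  rw [← h, ← h', y.commutes, y'.commutes]

theorem IsLift.inj (h : IsLift k₀ φ b y) (h' : IsLift k₀ φ' b y) : φ = φ' :=
  AlgHom.ext fun a => (algebraMap K L).injective ((fr k₀ L ^ b).injective (by
    rw [Lift_fr, Lift_fr, ← h, ← h']))

theorem lift_surj (ψ : (E →ₐ[RatFunc k₀] K)) (hy : y (tE k₀ E) = (th k₀ K L) ^ (Fintype.card k₀) ^ b) :
    ∃ φ : (E →ₐ[RatFunc k₀] K), IsLift k₀ φ b y := by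
  obtain ⟨φ, hφ⟩ := emb_surj ψ (y := (fr k₀ L ^ b).symm.toAlgHom.comp (y.restrictScalars k₀)) (by
    change (fr k₀ L ^ b).symm (y (tE k₀ E)) = _
    rw [AlgEquiv.symm_apply_eq, Lift_fr, hy])
  refine ⟨φ, fun a => ?_⟩
  rw [← emb_apply, hφ, ← Lift_fr]
  exact ((fr k₀ L ^ b).apply_symm_apply _).symm

variable (OE OK) in
theorem not_lift (h : ¬IsLift k₀ φ b y) : ∃ (x : OE) (c : OK),
    algebraMap OK K c = φ (algebraMap OE E x) ∧
      y (algebraMap OE E x) ≠ algebraMap K L (algebraMap OK K c) ^ (Fintype.card k₀) ^ b := by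
  by_contra hn
  have : IsDomain OE := (IsIntegralClosure.algebraMap_injective OE k₀[X] E).isDomain _
  have := IsIntegralClosure.isFractionRing_of_finite_extension k₀[X] (RatFunc k₀) E OE
  have e : y.toRingHom = ((fr k₀ L ^ b).toAlgHom.comp (emb L φ)).toRingHom := by
    refine IsFractionRing.ringHom_ext (A := OE) fun x => ?_
    obtain ⟨c, hc⟩ := exists_OK (OK := OK) φ x
    by_contra hx
    refine hn ⟨x, c, hc, fun e => hx ?_⟩
    rw [hc] at e
    exact e.trans (Lift_fr b _).symm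
  exact h fun a => (RingHom.congr_fun e a).trans (Lift_fr b _)

variable (OK) in
theorem const_mem_AK (ψ : (E →ₐ[RatFunc k₀] K)) (c : k) : algebraMap k L c ∈ AK OK K L := by
  obtain ⟨σ, hσ⟩ := Lift_aut L k ψ
  obtain ⟨c, rfl⟩ := σ.surjective c
  rw [hσ, mem_AK_iff (k := k₀)]
  have h : IsIntegral k₀ (algebraMap k E c) := (Algebra.IsIntegral.isIntegral c).algebraMap
  exact (h.tower_top (A := k₀[X])).map (ψ.restrictScalars k₀[X])

variable [Fintype (E →ₐ[RatFunc k₀] K)] (d : (E →ₐ[RatFunc k₀] K) → ℕ)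

theorem legs2_eq (a : ℕ) (y : E →ₐ[k] L) :
    legs2 k₀ k L d a y = ∑ φ, if IsLift k₀ φ a y then (d φ : ℤ) else 0 := by
  rw [legs2, Finsupp.finsetSum_apply]
  refine Finset.sum_congr rfl fun φ _ => ?_
  by_cases hy : IsLift k₀ φ a y
  · have h : ∃ y : E →ₐ[k] L, IsLift k₀ φ a y := ⟨y, hy⟩
    rw [dif_pos h, if_pos hy, h.choose_spec.unique hy, Finsupp.single_eq_same]
  · rw [if_neg hy]
    split_ifs with h
    · exact Finsupp.single_eq_of_ne fun e => hy (e ▸ h.choose_spec)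
    · rfl

theorem legs2_apply (hy : IsLift k₀ φ a y) : legs2 k₀ k L d a y = d φ := by
  rw [legs2_eq, Finset.sum_eq_single φ, if_pos hy]
  · exact fun ψ _ h => if_neg fun h' => h (h'.inj hy)
  · exact fun h => absurd (Finset.mem_univ φ) h

theorem legs2_support (hy : y ∈ (legs2 k₀ k L d a).support) :
    ∃ φ : (E →ₐ[RatFunc k₀] K), IsLift k₀ φ a y := by
  by_contra hn
  refine Finsupp.mem_support_iff.1 hy ?_
  rw [legs2_eq]
  exact Finset.sum_eq_zero fun φ _ => if_neg fun h => hn ⟨φ, h⟩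

theorem legs2_sum (a : ℕ) (G : (E →ₐ[k] L) → ℝ) :
    ((legs2 k₀ k L d a).sum fun χ c => (c : ℝ) * G χ) =
      ∑ φ, if h : ∃ y : E →ₐ[k] L, IsLift k₀ φ a y then (d φ : ℝ) * G h.choose else 0 := by
  rw [legs2, ← Finsupp.sum_finsetSum_index (fun _ => by simp) (fun _ _ _ => by simp [add_mul])]
  refine Finset.sum_congr rfl fun φ _ => ?_
  split_ifs with h
  · rw [Finsupp.sum_single_index (by simp), Int.cast_natCast]
  · exact Finsupp.sum_zero_index

end Pool.Agent.FFC
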