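import Pool.Agent.P.MP_a2beea_nt.FC.Defs3

/-! Existence of the valuations. `exists_GV`: a nonzero element algebraic over the finite field `k`
is a root of unity. The valuation is nontrivial on `k[θ]`. If `v θ > 1` then `v (Q θ) = v θ ^ deg`
and a quotient of absolute value `≤ 1` is congruent to an element of `k`; if `v θ ≤ 1` some
`Q ≠ 0` has `v (Q θ) < 1`, so `θ` is congruent to a root `β` of `Q` in `L`, and a quotient
`Q₁(θ) / Q₂(θ)` in lowest terms of absolute value `≤ 1` is congruent to `Q₁(β) / Q₂(β)`. For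
`v x ≤ 1` take an equation `∑ a_i x ^ i = 0` over `k⟮θ⟯`, divide by the largest coefficient,
replace the `a_i` by congruent constants and factor the new polynomial over `L`.
`exists_PD`: for each `π` extend the `π`-adic valuation to `L`: take a valuation subring `B` of
`L` dominating the localisation of `k[θ]` at `π(θ)` (`LocalSubring.exists_le_valuationSubring`,
or `Ideal.image_subset_nonunits_valuationSubring`); for `x ≠ 0` there are `n > 0`, `m : ℤ` with
`v x ^ n = v (π θ) ^ m` (two terms of an algebraic equation have the same value), so the value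
group is archimedean; define the real valuation as `q ^ (-deg π * m / n)` or use
`Valuation.nonempty_rankOne_iff_mulArchimedean` and renormalise with `NNReal.rpow`. -/

open Polynomial
open scoped TensorProduct NNReal IntermediateField

namespace Pool.Agent.FFC

open Classical

variable {k : Type*} [Field k] [Fintype k] {L : Type*} [Field L] [Algebra k L] [IsAlgClosed L]
  {θ : L}

section Aux

variable {Γ : Type*} [LinearOrderedCommGroupWithZero Γ]

omit [IsAlgClosed L] in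
theorem PDex_integral {K : Type*} [Field K] [Algebra K L] (u : Valuation L Γ)
    (h : ∀ a : K, u (algebraMap K L a) ≤ 1) {y : L} (hy : IsAlgebraic K y) : u y ≤ 1 := by
  obtain ⟨p, hp, h0⟩ := hy.isIntegral
  let φ : K →+* u.integer := (algebraMap K L).codRestrict u.integer h
  have hi : IsIntegral u.integer y := ⟨p.map φ, hp.map φ, by rw [eval₂_map]; exact h0⟩
  exact (Valuation.integer.integers u).mem_of_integral hi

omit [IsAlgClosed L] in
theorem PDex_one {K : Type*} [Field K] [Algebra K L] (u : Valuation L Γ)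
    (h : ∀ a : K, u (algebraMap K L a) ≤ 1) {y : L} (hy : IsAlgebraic K y) (h0 : y ≠ 0) :
    u y = 1 := by
  refine le_antisymm (PDex_integral u h hy) ?_
  have h1 := PDex_integral u h hy.inv
  rwa [map_inv₀, inv_le_one₀ ((Valuation.pos_iff u).2 h0)] at h1

omit [IsAlgClosed L] in
theorem PDex_const (u : Valuation L Γ) (a : k) : u (algebraMap k L a) ≤ 1 := by
  by_cases ha : a = 0
  · rw [ha, map_zero, map_zero]
    exact zero_le
  · have h1 : u (algebraMap k L a) ^ (Fintype.card k - 1) = 1 := by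
      rw [← map_pow, ← map_pow, FiniteField.pow_card_sub_one_eq_one a ha, map_one, map_one]
    have h2 : Fintype.card k - 1 ≠ 0 := by
      have := Fintype.one_lt_card (α := k)
      omega
    by_contra h3
    exact absurd h1 (one_lt_pow₀ (not_le.1 h3) h2).ne'

omit [Fintype k] [IsAlgClosed L] in
theorem PDex_exchange (halg : ∀ x : L, IsAlgebraic k⟮θ⟯ x) {x : L} (hx : Transcendental k x)
    (y : L) : IsAlgebraic k⟮x⟯ y := by
  have h1 : Algebra.IsAlgebraic (Algebra.adjoin k ({θ} : Set L)) L :=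
    IntermediateField.isAlgebraic_adjoin_iff_top.1 ⟨halg⟩
  have h2 := Algebra.IsAlgebraic.trdeg_le_cardinalMk k ({θ} : Set L)
  have h3 : AlgebraicIndependent k fun _ : ({θ} : Set L) => x :=
    algebraicIndependent_unique_type_iff.2 hx
  have h4 := (h3.isTranscendenceBasis_of_trdeg_le_of_finite h2).isAlgebraic_field
  rw [Set.range_const] at h4
  exact h4.isAlgebraic y

omit [IsAlgClosed L] in
theorem PDex_real (u : Valuation L Γ) {t : L} (ht0 : t ≠ 0) (ht : u t < 1)
    (h : ∀ x, x ≠ 0 → ∃ n : ℕ, 0 < n ∧ ∃ m : ℤ, u x ^ n = u t ^ m) {r : ℝ≥0} (hr0 : 0 < r)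
    (hr : r ≤ 1) : ∃ v : Valuation L ℝ≥0, v t = r ∧ ∀ x y, u x ≤ u y → v x ≤ v y := by
  choose! n hn m hm using h
  have hτ : 0 < u t := (Valuation.pos_iff u).2 ht0
  have key : ∀ (x y : L) (a b : ℕ) (c e : ℤ), 0 < a → 0 < b → u x ≤ u y → u x ^ a = u t ^ c →
      u y ^ b = u t ^ e → (e : ℝ) / b ≤ c / a := by
    intro x y a b c e ha hb hxy h1 h2
    have h3 : u t ^ (c * b) ≤ u t ^ (e * a) := by
      rw [zpow_mul, zpow_mul, ← h1, ← h2, zpow_natCast, zpow_natCast, ← pow_mul, ← pow_mul,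
        mul_comm b a]
      exact pow_le_pow_left₀ zero_le hxy _
    rw [zpow_le_zpow_iff_right_of_lt_one₀ hτ ht] at h3
    rw [div_le_div_iff₀ (by exact_mod_cast hb) (by exact_mod_cast ha)]
    exact_mod_cast h3
  let d : L → ℝ := fun x => (m x : ℝ) / n x
  have val : ∀ x, x ≠ 0 → ∀ (a : ℕ) (c : ℤ), 0 < a → u x ^ a = u t ^ c → d x = c / a :=
    fun x hx a c ha h1 => le_antisymm (key x x _ _ _ _ ha (hn x hx) le_rfl h1 (hm x hx))
      (key x x _ _ _ _ (hn x hx) ha le_rfl (hm x hx) h1)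
  let V : L → ℝ≥0 := fun x => if x = 0 then 0 else r ^ d x
  have V0 : V 0 = 0 := if_pos rfl
  have V1 : ∀ x, x ≠ 0 → V x = r ^ d x := fun x hx => if_neg hx
  have mono : ∀ x y, u x ≤ u y → V x ≤ V y := by
    intro x y hxy
    by_cases hx : x = 0
    · rw [hx, V0]
      exact zero_le
    · have hy : y ≠ 0 := (Valuation.pos_iff u).1 (((Valuation.pos_iff u).2 hx).trans_le hxy)
      rw [V1 x hx, V1 y hy]
      exact NNReal.rpow_le_rpow_of_exponent_ge hr0 hr
        (key x y _ _ _ _ (hn x hx) (hn y hy) hxy (hm x hx) (hm y hy))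
  have hone : V 1 = 1 := by
    rw [V1 1 one_ne_zero, val 1 one_ne_zero 1 0 one_pos (by simp)]
    simp
  have hmul : ∀ x y, V (x * y) = V x * V y := by
    intro x y
    by_cases hx : x = 0
    · rw [hx, zero_mul, V0, zero_mul]
    by_cases hy : y = 0
    · rw [hy, mul_zero, V0, mul_zero]
    have h1 : u (x * y) ^ (n x * n y) = u t ^ (m x * n y + m y * n x) := by
      rw [zpow_add₀ hτ.ne', zpow_mul, zpow_mul, ← hm x hx, ← hm y hy, zpow_natCast, zpow_natCast,
        ← pow_mul, ← pow_mul, map_mul, mul_pow, mul_comm (n y)]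
    have h2 : (n x : ℝ) ≠ 0 := by exact_mod_cast (hn x hx).ne'
    have h3 : (n y : ℝ) ≠ 0 := by exact_mod_cast (hn y hy).ne'
    rw [V1 x hx, V1 y hy, V1 _ (mul_ne_zero hx hy), ← NNReal.rpow_add hr0.ne',
      val _ (mul_ne_zero hx hy) _ _ (mul_pos (hn x hx) (hn y hy)) h1]
    refine congrArg (fun e : ℝ => r ^ e) ?_
    simp only [d]
    push_cast
    field_simp
  have hadd : ∀ x y, V (x + y) ≤ max (V x) (V y) := by
    intro x y
    rcases le_max_iff.1 (u.map_add x y) with h1 | h1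
    · exact le_max_of_le_left (mono _ _ h1)
    · exact le_max_of_le_right (mono _ _ h1)
  let v : Valuation L ℝ≥0 :=
    { toFun := V
      map_zero' := V0
      map_one' := hone
      map_mul' := hmul
      map_add_le_max' := hadd }
  refine ⟨v, ?_, mono⟩
  change V t = r
  rw [V1 t ht0, val t ht0 1 1 one_pos (by simp)]
  simp

omit [IsAlgClosed L] in
theorem PDex_rel {K : Type*} [Field K] [Algebra K L] (u : Valuation L Γ) {τ : Γ} (hτ : τ ≠ 0)
    (h : ∀ a : K, a ≠ 0 → ∃ m : ℤ, u (algebraMap K L a) = τ ^ m) {x : L} (hx : IsAlgebraic K x)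
    (h0 : x ≠ 0) : ∃ n : ℕ, 0 < n ∧ ∃ m : ℤ, u x ^ n = τ ^ m := by
  obtain ⟨p, hp, hpx⟩ := hx
  have hux : u x ≠ 0 := (Valuation.ne_zero_iff u).2 h0
  have two : ∀ i ∈ p.support, ∀ j ∈ p.support, i < j →
      u (algebraMap K L (p.coeff i) * x ^ i) = u (algebraMap K L (p.coeff j) * x ^ j) →
      ∃ n : ℕ, 0 < n ∧ ∃ m : ℤ, u x ^ n = τ ^ m := by
    intro i hi j hj hij e
    obtain ⟨a, ha⟩ := h _ (mem_support_iff.1 hi)
    obtain ⟨b, hb⟩ := h _ (mem_support_iff.1 hj)
    obtain ⟨n, rfl⟩ := Nat.exists_eq_add_of_lt hij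
    refine ⟨n + 1, n.succ_pos, a - b, ?_⟩
    rw [map_mul, map_mul, ha, hb, map_pow, map_pow, add_assoc, pow_add, ← mul_assoc,
      mul_right_comm] at e
    have e2 := mul_right_cancel₀ (pow_ne_zero i hux) e
    rw [zpow_sub₀ hτ, e2, mul_div_cancel_left₀ _ (zpow_ne_zero b hτ)]
  obtain ⟨j, hj, hmax⟩ := p.support.exists_max_image
    (fun i => u (algebraMap K L (p.coeff i) * x ^ i)) (support_nonempty.2 hp)
  by_contra hn
  have h1 := u.map_sum_eq_of_lt (f := fun i => algebraMap K L (p.coeff i) * x ^ i) hj (by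
    intro i hi
    rw [Finset.mem_sdiff, Finset.mem_singleton] at hi
    refine lt_of_le_of_ne (hmax i hi.1) fun e => hn ?_
    rcases lt_or_gt_of_ne hi.2 with h2 | h2
    · exact two i hi.1 j hj h2 e
    · exact two j hj i hi.1 h2 e.symm)
  rw [aeval_def, eval₂_eq_sum, sum_def] at hpx
  rw [hpx, map_zero] at h1
  exact (Valuation.ne_zero_iff u).2 (mul_ne_zero
    ((map_ne_zero (algebraMap K L)).2 (mem_support_iff.1 hj)) (pow_ne_zero j h0)) h1.symm

omit [Fintype k] [IsAlgClosed L] in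
theorem PDex_poly (u : Valuation L Γ) (hu : ∀ Q : k[X], u (aeval θ Q) ≤ 1) {π : k[X]}
    (hπ : Irreducible π) (h1 : u (aeval θ π) < 1) {Q : k[X]} (hQ : Q ≠ 0) :
    ∃ m : ℕ, u (aeval θ Q) = u (aeval θ π) ^ m := by
  obtain ⟨m, Q', hn, rfl⟩ := WfDvdMonoid.max_power_factor hQ hπ
  obtain ⟨a, b, hab⟩ := hπ.coprime_iff_not_dvd.2 hn
  have h2 : u (aeval θ Q') = 1 := by
    refine le_antisymm (hu Q') (not_lt.1 fun h3 => ?_)
    have h4 : u (aeval θ (a * π + b * Q')) < 1 := by
      rw [map_add, map_mul, map_mul]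
      refine u.map_add_lt ?_ ?_
      · rw [map_mul]
        exact (mul_le_of_le_one_left zero_le (hu a)).trans_lt h1
      · rw [map_mul]
        exact (mul_le_of_le_one_left zero_le (hu b)).trans_lt h3
    rw [hab, map_one, map_one] at h4
    exact lt_irrefl _ h4
  exact ⟨m, by rw [map_mul, map_pow, map_mul, map_pow, h2, mul_one]⟩

end Aux

omit [Fintype k] [IsAlgClosed L] in
theorem PDex_adic (htr : Transcendental k θ) (halg : ∀ x : L, IsAlgebraic k⟮θ⟯ x) {π : k[X]}
    (hπ : Irreducible π) {r : ℝ≥0} (hr0 : 0 < r) (hr : r ≤ 1) :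
    ∃ v : Valuation L ℝ≥0, v θ ≤ 1 ∧ v (aeval θ π) = r := by
  have hinj : Function.Injective (aeval θ : k[X] →ₐ[k] L) := transcendental_iff_injective.1 htr
  have hne : ∀ Q : k[X], Q ≠ 0 → aeval θ Q ≠ 0 := fun Q hQ e => hQ (hinj (by rw [e, map_zero]))
  let A : Subring L := (aeval θ : k[X] →ₐ[k] L).toRingHom.range
  let t : A := ⟨aeval θ π, π, rfl⟩
  have hI : Ideal.span {t} ≠ ⊤ := by
    rw [Ne, Ideal.span_singleton_eq_top]
    intro hu
    obtain ⟨⟨_, Q, rfl⟩, hQ⟩ := hu.exists_right_inv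
    have h1 : aeval θ π * aeval θ Q = 1 := congrArg Subtype.val hQ
    exact hπ.not_isUnit (IsUnit.of_mul_eq_one Q (hinj (by rw [map_mul, h1, map_one])))
  obtain ⟨B, hB, hB'⟩ := Ideal.image_subset_nonunits_valuationSubring _ hI
  have hu : ∀ Q : k[X], B.valuation (aeval θ Q) ≤ 1 := fun Q =>
    (B.valuation_le_one_iff _).2 (hB ⟨Q, rfl⟩)
  have h1 : B.valuation (aeval θ π) < 1 :=
    B.mem_nonunits_iff.1 (hB' ⟨t, Ideal.mem_span_singleton_self t, rfl⟩)
  have h0 := hne π hπ.ne_zero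
  have hτ : B.valuation (aeval θ π) ≠ 0 := (Valuation.ne_zero_iff _).2 h0
  obtain ⟨v, hv, mono⟩ := PDex_real B.valuation h0 h1 (fun x hx =>
    PDex_rel (K := k⟮θ⟯) B.valuation hτ (fun a ha => by
      obtain ⟨Q₁, Q₂, e⟩ := (IntermediateField.mem_adjoin_simple_iff k (a : L)).1 a.2
      have ha' : (a : L) ≠ 0 := fun e0 => ha (Subtype.ext e0)
      rw [e, div_ne_zero_iff] at ha'
      obtain ⟨m₁, e₁⟩ := PDex_poly B.valuation hu hπ h1 (Q := Q₁)
        (fun e0 => ha'.1 (by rw [e0, map_zero]))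
      obtain ⟨m₂, e₂⟩ := PDex_poly B.valuation hu hπ h1 (Q := Q₂)
        (fun e0 => ha'.2 (by rw [e0, map_zero]))
      refine ⟨m₁ - m₂, ?_⟩
      change B.valuation (a : L) = _
      rw [e, map_div₀, e₁, e₂, zpow_sub₀ hτ, zpow_natCast, zpow_natCast]) (halg x) hx) hr0 hr
  refine ⟨v, ?_, hv⟩
  have h2 := hu X
  rw [aeval_X, ← B.valuation.map_one] at h2
  exact (mono _ _ h2).trans_eq v.map_one

theorem exists_GV (htr : Transcendental k θ) (halg : ∀ x : L, IsAlgebraic k⟮θ⟯ x)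
    (v : Valuation L ℝ≥0) (hn : ∃ x, v x ≠ 0 ∧ v x ≠ 1) : ∃ w : GV k L, w.v = v := by
  have triv : ∀ c : L, IsAlgebraic k c → c ≠ 0 → v c = 1 := fun c hc h0 =>
    PDex_one v (PDex_const v) hc h0
  refine ⟨⟨v, triv, fun x hx => ?_⟩, rfl⟩
  by_contra hc
  have h1 : ∀ c : L, IsAlgebraic k c → v (x - c) = 1 := fun c ha =>
    le_antisymm (v.map_sub_le hx (PDex_integral v (PDex_const v) ha))
      (not_lt.1 fun e => hc ⟨c, ha, e⟩)
  have h2 : ∀ Q : k[X], Q ≠ 0 → v (aeval x Q) = 1 := by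
    intro Q hQ
    rw [(IsAlgClosed.splits _).aeval_eq_prod_aroots x, map_mul,
      triv _ (isAlgebraic_algebraMap _) ((_root_.map_ne_zero _).2 (leadingCoeff_ne_zero.2 hQ)), one_mul,
      map_multiset_prod, Multiset.map_map]
    refine Multiset.prod_eq_one fun z hz => ?_
    obtain ⟨c, hc', rfl⟩ := Multiset.mem_map.1 hz
    exact h1 c ⟨Q, hQ, (mem_aroots.1 hc').2⟩
  have h3 : Transcendental k x := by
    rintro ⟨Q, hQ, e⟩
    have := h2 Q hQ
    rw [e, map_zero] at this
    exact zero_ne_one this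
  have h4 : ∀ a : k⟮x⟯, v (algebraMap k⟮x⟯ L a) ≤ 1 := by
    intro a
    obtain ⟨Q₁, Q₂, e⟩ := (IntermediateField.mem_adjoin_simple_iff k (a : L)).1 a.2
    change v (a : L) ≤ 1
    rw [e]
    by_cases e₁ : Q₁ = 0
    · simp [e₁]
    by_cases e₂ : Q₂ = 0
    · simp [e₂]
    rw [map_div₀, h2 _ e₁, h2 _ e₂, div_one]
  obtain ⟨y, y0, y1⟩ := hn
  exact y1 (PDex_one v h4 (PDex_exchange halg h3 y) ((Valuation.ne_zero_iff v).1 y0))

theorem exists_PD (htr : Transcendental k θ) (halg : ∀ x : L, IsAlgebraic k⟮θ⟯ x)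
    (w : GV k L) (hw : w.v θ = Fintype.card k) : ∃ P : PD k θ, P.V none = w := by
  have hq : (1 : ℝ≥0) < Fintype.card k := by exact_mod_cast Fintype.one_lt_card (α := k)
  have h : ∀ π : {π : k[X] // π.Monic ∧ Irreducible π}, ∃ w' : GV k L, w'.v θ ≤ 1 ∧
      w'.v (aeval θ π.1) = ((Fintype.card k : ℝ≥0) ^ π.1.natDegree)⁻¹ := by
    intro π
    have h1 : (1 : ℝ≥0) < (Fintype.card k : ℝ≥0) ^ π.1.natDegree :=
      one_lt_pow₀ hq π.2.2.natDegree_pos.ne'
    have h2 : 0 < ((Fintype.card k : ℝ≥0) ^ π.1.natDegree)⁻¹ := inv_pos.2 (one_pos.trans h1)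
    have h3 := inv_lt_one_of_one_lt₀ h1
    obtain ⟨v, v1, v2⟩ := PDex_adic htr halg π.2.2 h2 h3.le
    obtain ⟨w', rfl⟩ := exists_GV htr halg v ⟨aeval θ π.1, v2 ▸ h2.ne', v2 ▸ h3.ne⟩
    exact ⟨w', v1, v2⟩
  choose W h1 h2 using h
  exact ⟨⟨htr, halg, fun p => p.elim w W, hw, h1, h2⟩, rfl⟩

/-- The valuation induced by an embedding in an ultrametric field. -/
theorem exists_GV_of_hom (htr : Transcendental k θ) (halg : ∀ x : L, IsAlgebraic k⟮θ⟯ x)
    {C : Type*} [NormedField C] [IsUltrametricDist C] (j : L →+* C)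
    (hj : ‖j θ‖ = Fintype.card k) : ∃ w : GV k L, ∀ x, (w.v x : ℝ) = ‖j x‖ := by
  have hq : (1 : ℝ) < Fintype.card k := by exact_mod_cast Fintype.one_lt_card (α := k)
  have e : ∀ x, (((NormedField.valuation (K := C)).comap j x : ℝ≥0) : ℝ) = ‖j x‖ := fun x => rfl
  obtain ⟨w, hw⟩ := exists_GV htr halg ((NormedField.valuation (K := C)).comap j) ⟨θ,
    fun h => by
      have := e θ
      rw [h, hj, NNReal.coe_zero] at this
      linarith,
    fun h => by
      have := e θ
      rw [h, hj, NNReal.coe_one] at this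
      linarith⟩
  exact ⟨w, fun x => by rw [hw, e]⟩

end Pool.Agent.FFC
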