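import Pool.Agent.P.MP_a2beea_nt.FC.Null
import Pool.Agent.P.MP_a2beea_nt.FC.RegL
import Pool.Agent.P.MP_a2beea_nt.FC.LatB
import Pool.Agent.P.MP_a2beea_nt.FC.CL

/-! The regularized sum. Let `X = dvN t N`, `r = S.card`, `Y = r • ψ - ∑_{φ ∈ S} φ`. By `divN_f` and
`BBm_divN`, `σ X - X - σ D` is in the kernel, so `abs_reg` gives
`Reg (n ↦ BBm (σ ^ n D) Y) (- BBm X Y)`. By `BBm_twist`, for `n ≥ 1`,
`r * cF n ψ = - BBm (σ ^ n D) Y - (r * cI n ψ - ∑ cI n φ) + κ q ^ n`; the middle term is periodic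
with mean zero (`cL_periodic`, `cL_sum_eq`, `avg_sum`). -/

open Polynomial
open scoped TensorProduct NNReal IntermediateField

namespace Pool.Agent.FFC

open Classical

variable {k : Type*} [Field k] [Fintype k] {E : Type*} [Field E] [Algebra k E] {t : E}
  {L : Type*} [Field L] [Algebra k L] [IsAlgClosed L]
  [IsDomain (L ⊗[k] E)]
  [Nonempty (GV k L)]
  {θ : L}
  {A : Subring L} {f : FL k E L} {I J : AddSubgroup (FL k E L)} {D : (E →ₐ[k] L) →₀ ℤ}

omit [IsDomain (L ⊗[k] E)] [Nonempty (GV k L)] in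
theorem ser_sg_apply (x : (E →ₐ[k] L) →₀ ℤ) (y : E →ₐ[k] L) :
    sg k E L x y = x (tw (fr k L)⁻¹ y) := by
  have hinj : Function.Injective (tw (fr k L) : (E →ₐ[k] L) → (E →ₐ[k] L)) := by
    intro a b e
    refine AlgHom.ext fun u => (fr k L).injective ?_
    exact congrArg (fun z : E →ₐ[k] L => z u) e
  have hy : y = tw (fr k L) (tw (fr k L)⁻¹ y) :=
    AlgHom.ext fun u => ((fr k L).apply_symm_apply (y u)).symm
  unfold sg
  rw [Finsupp.lmapDomain_apply]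
  conv_lhs => rw [hy]
  exact Finsupp.mapDomain_apply hinj x _

theorem Sht.divN_f (h : FF k t) (hS : Sht A t θ f I D) :
    divN f = dvN t (tauLat A t f I) - sg k E L (dvN t (tauLat A t f I) - D) := by
  ext y
  have hl := hS.lat.tau hS.ne
  rw [divN_apply h, Finsupp.sub_apply, ser_sg_apply, Finsupp.sub_apply, hl.dvN_apply h,
    hl.dvN_apply h, hS.type (tw (fr k L)⁻¹ y),
    hS.lat.dv_tau h hS.ne (z := Pt.ofHom y) (ValuationSubring.mem_top _), Pt.smul_ofHom]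
  ring

omit [IsDomain (L ⊗[k] E)] [Nonempty (GV k L)] in
theorem ser_ne (htr : Transcendental k θ) {χ φ : E →ₐ[k] L} (hχ : χ t = θ) (hφ : φ t = θ)
    {n : ℕ} (hn : 1 ≤ n) : tw (fr k L ^ n) χ ≠ φ := by
  intro e
  have h1 : (fr k L ^ n) (χ t) = φ t := congrArg (fun z : E →ₐ[k] L => z t) e
  rw [hχ, hφ, pts_fr_pow] at h1
  have h2 : 1 < Fintype.card k ^ n := Nat.one_lt_pow (by omega) Fintype.one_lt_card
  refine htr ⟨X ^ (Fintype.card k ^ n) - X, ?_, by simp [h1]⟩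
  intro h0
  have h3 := congrArg (fun p : k[X] => p.coeff 1) h0
  simp [coeff_X_pow, h2.ne] at h3

theorem BBm_twist (h : FF k t) (P : PD k θ) (hD : ∀ y ∈ D.support, y t = θ) {φ : E →ₐ[k] L}
    (hφ : φ t = θ) {n : ℕ} (hn : 1 ≤ n) :
    BBm P t ((sg k E L ^ n) D) (Finsupp.single φ 1) =
      (D.sum fun _ c => (c : ℝ)) * ((Fintype.card k : ℝ) ^ n + 1) *
          (Real.log (Fintype.card k) / dg k t) - cI P D n φ - cF P D n φ := by
  have h1 : cI P D n φ + cF P D n φ = ∑ χ ∈ D.support,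
      (D χ : ℝ) * ip P (Pt.ofHom (tw (fr k L ^ n) χ)) (Pt.ofHom φ) := by
    have h2 := II_eq (adm_cL h P D n φ)
    unfold cI cF
    rw [← h2]
    unfold cL
    simp only [Finsupp.sum]
    rw [II_sum P D.support
      (Φ := fun χ v η => (D χ : ℝ) * ipt (P.W v η) (Pt.ofHom (tw (fr k L ^ n) χ)) (Pt.ofHom φ))
      fun χ _ => (adm_ipt h P _ _).const_mul _]
    exact Finset.sum_congr rfl fun χ _ => II_const_mul P (adm_ipt h P _ _) _
  have h3 : (sg k E L ^ n) D = ∑ χ ∈ D.support, D χ • Finsupp.single (tw (fr k L ^ n) χ) 1 := by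
    conv_lhs => rw [← Finsupp.sum_single D, Finsupp.sum, map_sum]
    refine Finset.sum_congr rfl fun χ _ => ?_
    rw [sg_pow_single, Finsupp.smul_single, smul_eq_mul, mul_one]
  rw [sub_sub, h1, h3, map_sum, LinearMap.sum_apply, Finsupp.sum, Finset.sum_mul, Finset.sum_mul,
    ← Finset.sum_sub_distrib]
  refine Finset.sum_congr rfl fun χ hχ => ?_
  have h4 := ht_fr P t (n : ℤ) (Pt.ofHom χ)
  rw [zpow_natCast, zpow_natCast, Pt.smul_ofHom, ht_leg P (hD χ hχ)] at h4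
  rw [map_smul, LinearMap.smul_apply, BBm_single, zsmul_eq_mul]
  unfold kp
  rw [if_neg (ser_ne P.trans (hD χ hχ) hφ hn)]
  unfold kk
  rw [h4, ht_leg P hφ]
  ring

omit [IsDomain (L ⊗[k] E)] [Nonempty (GV k L)] in
theorem ser_w (P : PD k θ) {φ : E →ₐ[k] L} (hφ : φ t = θ) (η : GG k θ) :
    1 < (P.W none η).v (φ t) := by
  rw [hφ, P.W_inf]
  exact_mod_cast Fintype.one_lt_card

theorem ser_periodic (h : FF k t) (P : PD k θ) (hD : ∀ y ∈ D.support, y t = θ)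
    {φ : E →ₐ[k] L} (hφ : φ t = θ) {F : ℕ}
    (hF : ∀ x : Pt k E L, t ∉ x.O → (fr k L ^ F) • x = x) {n : ℕ} (hn : 1 ≤ n) :
    cI P D (n + F) φ = cI P D n φ := by
  unfold cI
  congr 1
  funext η
  exact cL_periodic h _ (fun y hy => (hD y hy).trans hφ.symm) (ser_w P hφ η) hF hn

theorem ser_mean (h : FF k t) (P : PD k θ) (hD : ∀ y ∈ D.support, y t = θ)
    {φ ψ : E →ₐ[k] L} (hφ : φ t = θ) (hψ : ψ t = θ) {F : ℕ}
    (hF : ∀ x : Pt k E L, t ∉ x.O → (fr k L ^ F) • x = x)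
    (hred : ∀ η, redO (P.W none η) (Pt.ofHom φ) = redO (P.W none η) (Pt.ofHom ψ)) :
    ∑ i ∈ Finset.range F, cI P D (i + 1) φ = ∑ i ∈ Finset.range F, cI P D (i + 1) ψ := by
  unfold cI
  rw [← avg_sum P _ (Φ := fun i η => cL (P.W none η) D (i + 1) φ)
      fun i _ => (adm_cL h P D (i + 1) φ).1 none,
    ← avg_sum P _ (Φ := fun i η => cL (P.W none η) D (i + 1) ψ)
      fun i _ => (adm_cL h P D (i + 1) ψ).1 none]
  congr 1
  funext η
  exact cL_sum_eq h _ (fun y hy => (hD y hy).trans hφ.symm) (hψ.trans hφ.symm) (ser_w P hφ η)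
    (hred η) hF

theorem ser (h : FF k t) {g : ℕ} (hR : RR0 k t g) (P : PD k θ)
    (hfin : ∀ n, 1 ≤ n → {x : Pt k E L | x.O ≠ ⊤ ∧ (fr k L ^ n) • x = x}.Finite)
    (hS : Sht A t θ f I D) {Q : ℤ[X]} (hQ : Q.Monic) (hQ1 : Q.eval 1 ≠ 0)
    (hQ0 : ∑ i ∈ Finset.range (Q.natDegree + 1), ∑ j ∈ Finset.range (Q.natDegree + 1),
      (Q.coeff i : ℝ) * Q.coeff j * gram k L E g i j = 0)
    {F : ℕ} (hF0 : 0 < F) (hF : ∀ x : Pt k E L, t ∉ x.O → (fr k L ^ F) • x = x)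
    (S : Finset (E →ₐ[k] L)) {ψ : E →ₐ[k] L} (hψ : ψ ∈ S) (hleg : ∀ φ ∈ S, φ t = θ)
    (hred : ∀ φ ∈ S, ∀ η, redO (P.W none η) (Pt.ofHom φ) = redO (P.W none η) (Pt.ofHom ψ))
    {κ : ℝ} (hκ : ∀ n, 1 ≤ n → ∑ φ ∈ S, cF P D n φ = κ * (Fintype.card k : ℝ) ^ n) :
    Reg (fun n => cF P D n ψ)
      (-(HH P t F D (dvN t (tauLat A t f I)) ψ -
            (∑ φ ∈ S, HH P t F D (dvN t (tauLat A t f I)) φ) / S.card) -
        κ / S.card * ((Fintype.card k : ℝ) / ((Fintype.card k : ℝ) - 1))) := by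
  set X' := dvN t (tauLat A t f I) with hX'
  set r : ℝ := (S.card : ℝ) with hr
  have hr0 : r ≠ 0 := by
    rw [hr]
    exact_mod_cast (Finset.card_pos.2 ⟨ψ, hψ⟩).ne'
  have hq : (1 : ℝ) < Fintype.card k := by exact_mod_cast Fintype.one_lt_card
  set Y : (E →ₐ[k] L) →₀ ℤ :=
    (S.card : ℤ) • Finsupp.single ψ 1 - ∑ φ ∈ S, Finsupp.single φ 1 with hY
  have hBY : ∀ x, BBm P t x Y = r * BBm P t x (Finsupp.single ψ 1) -
      ∑ φ ∈ S, BBm P t x (Finsupp.single φ 1) := by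
    intro x
    rw [hY, map_sub, map_smul, map_sum, zsmul_eq_mul, Int.cast_natCast]
  have hX : BBm P t (sg k E L X' - X' - sg k E L D) = 0 := by
    have e : sg k E L X' - X' - sg k E L D = -divN f := by
      rw [hS.divN_f h, ← hX', map_sub]
      abel
    rw [e, map_neg]
    refine LinearMap.ext fun x => ?_
    rw [LinearMap.neg_apply, BBm_divN h hR P, neg_zero, LinearMap.zero_apply]
  have h1 := abs_reg (BBm P t) (BBm_comm P t) (BBm_nonneg h hR P) (sg k E L) hq (BBm_sg h P) hQ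
    hQ1 (null_of_gram h hR P hfin hQ0 hS.leg) hX Y
  have h2 : Reg (fun n => r * cI P D n ψ + (-1) * ∑ φ ∈ S, cI P D n φ)
      (regP F fun n => r * cI P D n ψ + (-1) * ∑ φ ∈ S, cI P D n φ) := by
    refine reg_periodic hF0 (fun n hn => ?_) ?_
    · rw [ser_periodic h P hS.leg (hleg ψ hψ) hF hn,
        Finset.sum_congr rfl fun φ hφ => ser_periodic h P hS.leg (hleg φ hφ) hF hn]
    · rw [Finset.sum_add_distrib, ← Finset.mul_sum, ← Finset.mul_sum, Finset.sum_comm,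
        Finset.sum_congr rfl fun φ hφ =>
          ser_mean h P hS.leg (hleg φ hφ) (hleg ψ hψ) hF (hred φ hφ),
        Finset.sum_const, nsmul_eq_mul]
      ring
  rw [regP_add, regP_const_mul, regP_const_mul, regP_sum] at h2
  have h3 := (((h1.const_mul (-1)).add (h2.const_mul (-1))).add
    ((reg_geom hq.ne').const_mul κ)).const_mul r⁻¹
  have e : -(HH P t F D X' ψ - (∑ φ ∈ S, HH P t F D X' φ) / r) -
      κ / r * ((Fintype.card k : ℝ) / ((Fintype.card k : ℝ) - 1)) =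
      r⁻¹ * (-1 * -BBm P t X' Y + -1 * (r * regP F (fun n => cI P D n ψ) +
        -1 * ∑ φ ∈ S, regP F fun n => cI P D n φ) +
        κ * ((Fintype.card k : ℝ) / (1 - (Fintype.card k : ℝ)))) := by
    have hq1 : (Fintype.card k : ℝ) - 1 ≠ 0 := sub_ne_zero.2 hq.ne'
    have hq2 : 1 - (Fintype.card k : ℝ) ≠ 0 := sub_ne_zero.2 hq.ne
    unfold HH
    simp only [← BBm_apply]
    rw [hBY, Finset.sum_add_distrib, Finset.sum_neg_distrib]
    field_simp
    ring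
  rw [e]
  refine h3.congr fun n hn => ?_
  rw [hBY, BBm_twist h P hS.leg (hleg ψ hψ) hn,
    Finset.sum_congr rfl fun φ hφ => BBm_twist h P hS.leg (hleg φ hφ) hn,
    Finset.sum_sub_distrib, Finset.sum_sub_distrib, Finset.sum_const, nsmul_eq_mul, hκ n hn, ← hr]
  field_simp
  ring

end Pool.Agent.FFC
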