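import Pool.Agent.P.MP_a2beea_nt.FC.Zeta
import Pool.Agent.P.MP_a2beea_nt.FC.Dom
import Pool.Agent.P.MP_a2beea_nt.FC.PDex
import Pool.Agent.P.MP_a2beea_nt.FC.Dir
import Pool.Agent.P.MP_a2beea_nt.FC.Book
import Pool.Agent.P.MP_a2beea_nt.FC.Ser
import Pool.Agent.P.MP_a2beea_nt.FC.InfM
import Pool.Agent.P.MP_a2beea_nt.FC.Emb
import Pool.Agent.P.MP_a2beea_nt.FC.Idx
import Pool.Agent.P.MP_a2beea_nt.FC.Gal

/-! The function field Colmez formula. -/

open Polynomial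
open scoped TensorProduct NNReal IntermediateField

namespace Pool.Agent.FFC

open Classical

variable {k : Type*} [Field k] [Fintype k] {E K : Type*} [Field E] [Field K]
  [Algebra k E] [Algebra k[X] E] [Algebra (RatFunc k) E] [IsScalarTower k k[X] E]
  [IsScalarTower k[X] (RatFunc k) E]
  [Algebra k K] [Algebra k[X] K] [Algebra (RatFunc k) K] [IsScalarTower k k[X] K]
  [IsScalarTower k[X] (RatFunc k) K]
  [FiniteDimensional (RatFunc k) E] [Algebra.IsSeparable (RatFunc k) E]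
  [FiniteDimensional (RatFunc k) K] [IsGalois (RatFunc k) K]
  {OE OK : Type*} [CommRing OE] [CommRing OK]
  [Algebra k OE] [Algebra k[X] OE] [Algebra OE E] [IsScalarTower k k[X] OE]
  [IsScalarTower k[X] OE E] [IsIntegralClosure OE k[X] E]
  [Algebra k OK] [Algebra k[X] OK] [Algebra OK K] [IsScalarTower k k[X] OK]
  [IsScalarTower k[X] OK K] [IsIntegralClosure OK k[X] K]

/-- The height in terms of one number per embedding. -/
theorem height_eq {C : Type*} [NormedField C] (F : IntermediateField (RatFunc k) E) (m : ℕ)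
    (ψ : E →ₐ[RatFunc k] K) (p : (K ≃ₐ[RatFunc k] K) → (E →ₐ[RatFunc k] K) → C)
    (ind : (E →ₐ[RatFunc k] K) → ℕ) (S : Finset (E →ₐ[RatFunc k] K)) (hS : cls F ψ = S)
    (H : (E →ₐ[RatFunc k] K) → ℝ)
    (hH : ∀ φ ∈ S,
      ((∑ᶠ η, Real.log ‖p η φ‖) - Real.log (ind φ)) / Nat.card (K ≃ₐ[RatFunc k] K) -
        ((∑ᶠ η, Real.log ‖p η ψ‖) - Real.log (ind ψ)) / Nat.card (K ≃ₐ[RatFunc k] K) =
      H φ - H ψ) :
    height F m ψ p ind = (H ψ - (∑ φ ∈ S, H φ) / S.card) +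
      m * Real.log (Fintype.card k) / S.card *
        ((Fintype.card k : ℝ) / ((Fintype.card k : ℝ) - 1)) := by
  have hψ : ψ ∈ S := by
    rw [← Finset.mem_coe, ← hS]; exact fun x _ => rfl
  have hr : (S.card : ℝ) ≠ 0 := by
    exact_mod_cast (Finset.card_pos.mpr ⟨ψ, hψ⟩).ne'
  have hn : (Nat.card (K ≃ₐ[RatFunc k] K) : ℝ) ≠ 0 := by
    exact_mod_cast (Nat.card_pos (α := K ≃ₐ[RatFunc k] K)).ne'
  have hsum := Finset.sum_congr rfl hH
  simp only [Finset.sum_sub_distrib, Finset.sum_const, nsmul_eq_mul, ← Finset.sum_div,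
    finsum_eq_sum_of_fintype] at hsum
  simp only [height, cen, hS, finsum_mem_coe_finset, Set.ncard_coe_finset]
  simp only [finsum_eq_sum_of_fintype, Finset.sum_add_distrib, Finset.sum_sub_distrib, Finset.sum_const,
    nsmul_eq_mul, ← Finset.sum_div, Finset.card_univ]
  rw [Finset.sum_comm] at hsum
  rw [← Nat.card_eq_fintype_card]
  set n : ℝ := (Nat.card (K ≃ₐ[RatFunc k] K) : ℝ)
  set r : ℝ := (S.card : ℝ)
  set a := ∑ η, ∑ φ ∈ S, Real.log ‖p η φ‖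
  set b := ∑ φ ∈ S, Real.log (ind φ)
  set c := ∑ η, Real.log ‖p η ψ‖
  set e := ∑ φ ∈ S, H φ
  have he : e = (a - b) / n - r * ((c - Real.log (ind ψ)) / n) + r * H ψ := by linarith
  rw [he]
  field_simp
  ring

section L

variable {L : Type*} [Field L] [Algebra k L] [Algebra K L] [IsScalarTower k K L] [IsAlgClosed L]
  [Algebra.IsAlgebraic K L] [IsDomain (L ⊗[k] E)] [Nonempty (GV k L)]
  [Fintype (E →ₐ[RatFunc k] K)]

/-- The sum of the finite parts over a class. -/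
theorem sum_cF (h : FF k (tE k E)) (P : PD k (th k K L)) (F : IntermediateField (RatFunc k) E)
    {d : (E →ₐ[RatFunc k] K) → ℕ} {m : ℕ} (hd : ∀ φ, ∑ᶠ φ' ∈ cls F φ, d φ' = m)
    {𝔓 : FinPl k → Ideal OK} (hP : ∀ π, (𝔓 π).IsMaximal ∧ algebraMap k[X] OK π.1 ∈ 𝔓 π)
    (ψ : E →ₐ[RatFunc k] K) (S : Finset (E →ₐ[RatFunc k] K)) (hS : cls F ψ = S) {n : ℕ}
    (hn : 1 ≤ n) :
    ∑ φ ∈ S, cF P (legs d) n (emb L φ) =
      m * Real.log (Fintype.card k) * (Fintype.card k : ℝ) ^ n := by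
  have hfin := finPl_finite (k := k) hn
  have h1 : ∀ φ, cF P (legs d) n (emb L φ) = ∑ π ∈ hfin.toFinset,
      Real.log ((Fintype.card k : ℝ) ^ π.1.natDegree) *
        ((∑ᶠ g ∈ frobSet k K (𝔓 π) n, a0 d φ g⁻¹) / (frobSet k K (𝔓 π) n).ncard) := by
    intro φ
    rw [cF_eq h P d hP hn φ, finsum_mem_eq_finite_toFinset_sum _ hfin]
  simp only [h1]
  rw [Finset.sum_comm]
  have h2 : ∀ π ∈ hfin.toFinset, ∑ φ ∈ S, Real.log ((Fintype.card k : ℝ) ^ π.1.natDegree) *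
        ((∑ᶠ g ∈ frobSet k K (𝔓 π) n, a0 d φ g⁻¹) / (frobSet k K (𝔓 π) n).ncard) =
      m * Real.log ((Fintype.card k : ℝ) ^ π.1.natDegree) := by
    intro π hπ
    have hdv : π.1.natDegree ∣ n := by simpa using hπ
    have hne := frobSet_nonempty (K := K) (hP π).1 (hP π).2 hdv
    have hf : (frobSet k K (𝔓 π) n).Finite := Set.toFinite _
    have hc : ((frobSet k K (𝔓 π) n).ncard : ℝ) ≠ 0 := by
      exact_mod_cast ((Set.ncard_pos hf).mpr hne).ne'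
    rw [← Finset.mul_sum, ← Finset.sum_div]
    simp only [finsum_mem_eq_finite_toFinset_sum _ hf]
    rw [Finset.sum_comm]
    have h3 : ∀ g ∈ hf.toFinset, ∑ φ ∈ S, a0 d φ g⁻¹ = m := by
      intro g _
      rw [← sum_cls_a0 F hd ψ g⁻¹, hS, finsum_mem_coe_finset]
    rw [Finset.sum_congr rfl h3, Finset.sum_const, nsmul_eq_mul,
      ← Set.ncard_eq_toFinset_card _ hf]
    field_simp
  rw [Finset.sum_congr rfl h2, ← Finset.mul_sum, ← finsum_mem_eq_finite_toFinset_sum _ hfin,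
    finPl_sum hn, mul_assoc]

theorem main_L (hreg : ∀ x : E, IsAlgebraic k x → x ∈ (algebraMap k E).range)
    {C : Type*} [NormedField C] [IsUltrametricDist C] [CompleteSpace C] [Algebra K C]
    (j : L →+* C) (hjK : ∀ x : K, j (algebraMap K L x) = algebraMap K C x)
    (hdense : DenseRange j) (P : PD k (th k K L)) (hP : ∀ x, ((P.V none).v x : ℝ) = ‖j x‖)
    (F : IntermediateField (RatFunc k) E)
    (hF : ∀ φ φ' : E →ₐ[RatFunc k] K, φ' ∈ cls F φ →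
      ∀ x, ‖algebraMap K C (φ' x)‖ = ‖algebraMap K C (φ x)‖)
    (d : (E →ₐ[RatFunc k] K) → ℕ) (m : ℕ) (hd : ∀ φ, ∑ᶠ φ' ∈ cls F φ, d φ' = m)
    {M : Type*} [AddCommGroup M] [Module (OK ⊗[k] OE) M] (τ : M →+ M)
    (hM : IsCMMotive OE OK d τ) (ψ : E →ₐ[RatFunc k] K) (ω : (E →ₐ[RatFunc k] K) → M)
    (hω : ∀ φ ∈ cls F ψ, ω φ ∈ eigen OE OK τ φ ∧ ω φ ∉ dRKer k OE OK τ)
    (u : (K ≃ₐ[RatFunc k] K) → M →+ PowerSeries C)
    (hu : ∀ η, IsCycle (k := k) (OE := OE) (OK := OK) τ η (u η) ∧ u η ≠ 0)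
    (𝔓 : FinPl k → Ideal OK) (h𝔓 : ∀ π, (𝔓 π).IsMaximal ∧ algebraMap k[X] OK π.1 ∈ 𝔓 π) :
    ∃ p : (K ≃ₐ[RatFunc k] K) → (E →ₐ[RatFunc k] K) → C,
      (∀ η, ∀ φ ∈ cls F ψ,
        HasSum (fun n => PowerSeries.coeff n (u η (ω φ)) *
          algebraMap K C (algebraMap k[X] K X) ^ n) (p η φ) ∧ p η φ ≠ 0) ∧
      (∀ φ ∈ cls F ψ, dRIndex OE OK τ φ (ω φ) ≠ 0) ∧
      ∃ Z : ℂ → ℂ, MeromorphicOn Z Set.univ ∧ AnalyticAt ℂ Z 0 ∧
        (∀ s : ℂ, 1 < s.re → HasSum (zTerm 𝔓 (fun g => a0 d ψ g⁻¹) s) (Z s)) ∧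
        Z 0 = height F m ψ p (fun φ => dRIndex OE OK τ φ (ω φ)) := by
  have h : FF k (tE k E) := ff_of hreg
  obtain ⟨g, m0, h1, h2, hfin, hz⟩ := rr_zeta (L := L) h
  have hR : RR0 k (tE k E) g := ⟨h2, m0, h1⟩
  obtain ⟨Q, hQ, hQ1, hQ0⟩ := hz (gram_bound h hR P hfin)
  obtain ⟨ρ, hρ⟩ := exists_rho (k := k) E K OE OK L
  obtain ⟨μ, f, I, hμ, hS⟩ := exists_sht h hR P hρ hM
  obtain ⟨res, hres⟩ := exists_res (k := k) (K := K) (L := L)
  obtain ⟨Fp, hF0, hFp⟩ := exists_period (L := L) h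
  have hW : ∀ (η : GG k (th k K L)) (x : L),
      ((P.W none η).v x : ℝ) = ‖(j.comp (η.1 : L →+* L)) x‖ := fun η x => hP (η.1 x)
  have hjη : ∀ (η : GG k (th k K L)) (x : K),
      (j.comp (η.1 : L →+* L)) (algebraMap K L x) = algebraMap K C (res η x) := by
    intro η x
    rw [← hjK, hres.2]; rfl
  have hθη : ∀ η : GG k (th k K L),
      (j.comp (η.1 : L →+* L)) (th k K L) = algebraMap K C (algebraMap k[X] K X) := by
    intro η
    have : η.1 (th k K L) = th k K L := η.2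
    rw [← hjK]
    exact congrArg j this
  have key : ∀ η : GG k (th k K L), ∃ G : (E →ₐ[k] L) → C,
      (∀ φ : E →ₐ[k] L, φ (tE k E) = th k K L → G φ ≠ 0) ∧
      (∀ φ ∈ cls F ψ, HasSum (fun n => PowerSeries.coeff n (u (res η) (ω φ)) *
          algebraMap K C (algebraMap k[X] K X) ^ n)
        (G (emb L φ) * (j.comp (η.1 : L →+* L)) (val (Pt.ofHom (emb L φ)) (μ (ω φ))))) ∧
      ∀ φ φ' : E →ₐ[k] L, φ (tE k E) = th k K L → φ' (tE k E) = th k K L →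
        redO (P.W none η) (Pt.ofHom φ) = redO (P.W none η) (Pt.ofHom φ') →
        (Real.log ‖G φ‖ - dI (P.W none η) (tE k E) (tauLat (AK OK K L) (tE k E) f I) φ) -
          (Real.log ‖G φ'‖ - dI (P.W none η) (tE k E) (tauLat (AK OK K L) (tE k E) f I) φ') =
          TT (P.W none η) f Fp (legs d) φ - TT (P.W none η) f Fp (legs d) φ' := by
    intro η
    obtain ⟨u', hc, hu'⟩ := exists_cyc (j.comp (η.1 : L →+* L)) (hjη η) hρ hμ (hu (res η)).1
      (hu (res η)).2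
    have hd' : DenseRange (j.comp (η.1 : L →+* L)) := by
      have : Set.range (j.comp (η.1 : L →+* L)) = Set.range j := by
        ext c
        constructor
        · rintro ⟨x, rfl⟩; exact ⟨η.1 x, rfl⟩
        · rintro ⟨x, rfl⟩; exact ⟨η.1.symm x, by simp⟩
      unfold DenseRange
      rw [this]; exact hdense
    obtain ⟨G, hG0, hG1, hG2⟩ := infM h hS hc (P.W none η) (hW η) (P.W_inf η) hd' hF0 hFp
    refine ⟨G, hG0, fun φ hφ => ?_, hG2⟩
    have hm := (hμ.mem_eigen h hρ hS φ (ω φ)).1 (hω φ hφ).1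
    have := hG1 _ hm.1
    rw [hu', hθη] at this
    convert this using 1
    symm
    rw [finsum_mem_def]
    rw [finsum_eq_single _ (emb L φ)]
    · rw [Set.indicator_of_mem]
      exact emb_t φ
    · intro χ hχ
      by_cases hχt : χ (tE k E) = th k K L
      · rw [Set.indicator_of_mem (by exact hχt), hm.2 χ hχt hχ, map_zero, mul_zero]
      · rw [Set.indicator_of_notMem (by exact hχt)]
  choose G hG0 hG1 hG2 using key
  let p : (K ≃ₐ[RatFunc k] K) → (E →ₐ[RatFunc k] K) → C := fun η φ =>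
    ∑' n, PowerSeries.coeff n (u η (ω φ)) * algebraMap K C (algebraMap k[X] K X) ^ n
  have hval : ∀ φ ∈ cls F ψ, val (Pt.ofHom (emb L φ)) (μ (ω φ)) ≠ 0 := fun φ hφ =>
    hμ.val_ne h hρ hS (hω φ hφ).1 (hω φ hφ).2
  have hp : ∀ η, ∀ φ ∈ cls F ψ, p (res η) φ =
      G η (emb L φ) * (j.comp (η.1 : L →+* L)) (val (Pt.ofHom (emb L φ)) (μ (ω φ))) :=
    fun η φ hφ => (hG1 η φ hφ).tsum_eq
  have hidx := fun φ (hφ : φ ∈ cls F ψ) => idx_formula h P hρ hμ hS (hω φ hφ).1 (hω φ hφ).2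
  have hψ : ψ ∈ cls F ψ := fun x _ => rfl
  refine ⟨p, fun η φ hφ => ?_, fun φ hφ => (hidx φ hφ).1, ?_⟩
  · obtain ⟨η', rfl⟩ := hres.1 η
    rw [hp η' φ hφ]
    exact ⟨hG1 η' φ hφ, mul_ne_zero (hG0 η' _ (emb_t φ)) ((_root_.map_ne_zero _).mpr (hval φ hφ))⟩
  have hred : ∀ φ ∈ cls F ψ, ∀ η,
      redO (P.W none η) (Pt.ofHom (emb L φ)) = redO (P.W none η) (Pt.ofHom (emb L ψ)) := by
    intro φ hφ η
    ext a
    have h3 : (P.W none η).v (emb L φ a) = (P.W none η).v (emb L ψ a) := by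
      apply NNReal.eq
      rw [hW, hW, emb_apply, emb_apply, hjη, hjη]
      exact hF ((res η).toAlgHom.comp ψ) ((res η).toAlgHom.comp φ)
        (fun x hx => congrArg (res η) (hφ x hx)) a
    simp only [mem_redO, Pt.ofHom_O, Pt.ofHom_ev, h3]
  have hA : ∀ π η, ∀ c ∈ AK OK K L, (P.W (some π) η).v c ≤ 1 := fun π η c hc =>
    AK_le_one _ (P.W_fin_le π η) hc
  have hlog : ∀ φ ∈ cls F ψ, ∀ η, Real.log ‖G η (emb L φ)‖ = Real.log ‖p (res η) φ‖ -
      Real.log ((P.W none η).v (val (Pt.ofHom (emb L φ)) (μ (ω φ)))) := by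
    intro φ hφ η
    rw [hp η φ hφ, norm_mul, hW, Real.log_mul (norm_ne_zero_iff.mpr (hG0 η _ (emb_t φ)))
      (norm_ne_zero_iff.mpr ((_root_.map_ne_zero _).mpr (hval φ hφ)))]
    ring
  have hloc : ∀ φ ∈ cls F ψ, Loc fun η => Real.log ‖G η (emb L φ)‖ := by
    intro φ hφ
    simp only [hlog φ hφ]
    exact (hres.loc fun η => Real.log ‖p η φ‖).comp₂ ((adm_log P _).1 none) (fun a b => a - b)
  have hn : (Nat.card (K ≃ₐ[RatFunc k] K) : ℝ) = Module.finrank (RatFunc k) K := by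
    exact_mod_cast IsGalois.card_aut_eq_finrank (RatFunc k) K
  have hn0 : (Nat.card (K ≃ₐ[RatFunc k] K) : ℝ) ≠ 0 := by
    exact_mod_cast (Nat.card_pos (α := K ≃ₐ[RatFunc k] K)).ne'
  have ha : ∀ φ ∈ cls F ψ,
      ((∑ᶠ η, Real.log ‖p η φ‖) - Real.log (dRIndex OE OK τ φ (ω φ))) /
          Nat.card (K ≃ₐ[RatFunc k] K) =
        (avg (fun η => Real.log ‖G η (emb L φ)‖) - Ifin fun v η => Real.log
          (supL (P.W v η) (Pt.ofHom (emb L φ)) (tauLat (AK OK K L) (tE k E) f I))) -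
        Ifin fun v η => Real.log (supS (P.W v η) (dif (AK OK K L) (tE k E) (emb L ψ))) := by
    intro φ hφ
    have e1 : avg (fun η => Real.log ‖G η (emb L φ)‖) =
        (∑ᶠ η, Real.log ‖p η φ‖) / Nat.card (K ≃ₐ[RatFunc k] K) -
        avg fun η => Real.log ((P.W none η).v (val (Pt.ofHom (emb L φ)) (μ (ω φ)))) := by
      simp only [hlog φ hφ]
      rw [avg_sub P (hres.loc fun η => Real.log ‖p η φ‖) ((adm_log P _).1 none),
        avg_comp_surj res hres.1 fun η => Real.log ‖p η φ‖]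
    have e2 := prod_formula P (val (Pt.ofHom (emb L φ)) (μ (ω φ)))
    rw [II_eq (adm_log P _)] at e2
    have e3 := dif_shift h P (A := AK OK K L) (fun g c hc => GG_mem_AK g hc) (emb_t φ) (emb_t ψ)
    rw [sub_div, (hidx φ hφ).2, ← hn, mul_div_cancel_left₀ _ hn0, e1, e3]
    linarith
  have hfinc : (cls F ψ).Finite := Set.toFinite _
  have hSc : cls F ψ = hfinc.toFinset := by simp
  set S := hfinc.toFinset with hSdef
  have hmem : ∀ φ, φ ∈ S ↔ φ ∈ cls F ψ := fun φ => by simp [hSdef]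
  have hheight := height_eq F m ψ p (fun φ => dRIndex OE OK τ φ (ω φ)) S hSc
    (fun φ => HH P (tE k E) Fp (legs d) (dvN (tE k E) (tauLat (AK OK K L) (tE k E) f I))
      (emb L φ)) (fun φ hφ => by
      have hφ' := (hmem φ).1 hφ
      rw [ha φ hφ', ha ψ hψ]
      have := book h hR P hS hA Fp (emb_t φ) (emb_t ψ) (hloc φ hφ') (hloc ψ hψ)
        (fun η => hG2 η _ _ (emb_t φ) (emb_t ψ) (hred φ hφ' η))
      linarith)
  have hser := ser h hR P hfin hS hQ hQ1 hQ0 hF0 hFp (S.map ⟨emb L, emb_injective⟩)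
    (ψ := emb L ψ) (Finset.mem_map_of_mem _ ((hmem ψ).2 hψ))
    (fun φ hφ => by
      obtain ⟨φ', -, rfl⟩ := Finset.mem_map.1 hφ
      exact emb_t φ')
    (fun φ hφ η => by
      obtain ⟨φ', hφ', rfl⟩ := Finset.mem_map.1 hφ
      exact hred φ' ((hmem φ').1 hφ') η)
    (κ := m * Real.log (Fintype.card k))
    (fun n hn => by
      rw [Finset.sum_map]
      exact sum_cF h P F hd h𝔓 ψ S hSc hn)
  rw [Finset.sum_map, Finset.card_map] at hser
  obtain ⟨B, hB⟩ := frob_avg_bound (OK := OK) (fun g : K ≃ₐ[RatFunc k] K => a0 d ψ g⁻¹)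
  let β : FinPl k → ℕ → ℝ := fun π n =>
    (∑ᶠ g ∈ frobSet k K (𝔓 π) n, a0 d ψ g⁻¹) / (frobSet k K (𝔓 π) n).ncard
  have hβ : ∀ π n, |β π n| ≤ B := fun π n => hB (𝔓 π) n
  have hcF : ∀ n, 1 ≤ n → cF P (legs d) n (emb L ψ) =
      ∑ᶠ π ∈ {π : FinPl k | π.1.natDegree ∣ n},
        Real.log ((Fintype.card k : ℝ) ^ π.1.natDegree) * β π n :=
    fun n hn => cF_eq h P d h𝔓 hn ψ
  obtain ⟨Z, hZ1, hZ2, hZ3, hZ4⟩ := hser.analytic (Fintype.one_lt_card (α := k))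
    (B := B * Real.log (Fintype.card k)) (fun n hn => by
      rw [hcF n hn]; exact dir_bound β hβ hn)
  refine ⟨fun s => -Z s, hZ1.neg, hZ2.neg, fun s hs => ?_, ?_⟩
  · refine dir_sum β hβ hs ?_
    have := hZ4 s hs
    simp only [fun n => hcF (n + 1) (Nat.le_add_left 1 n)] at this
    exact this
  · change -Z 0 = _
    rw [hheight, hZ3]
    simp only [Function.Embedding.coeFn_mk]
    push_cast
    ring

end L

theorem main (hreg : ∀ x : E, IsAlgebraic k x → x ∈ (algebraMap k E).range)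
    [Fintype (E →ₐ[RatFunc k] K)]
    {C : Type*} [NormedField C] [IsUltrametricDist C] [CompleteSpace C] [IsAlgClosed C]
    [Algebra K C] (hθ : ‖algebraMap K C (algebraMap k[X] K X)‖ = Fintype.card k)
    (hdense : Dense {x : C | IsAlgebraic K x})
    (F : IntermediateField (RatFunc k) E)
    (hF : ∀ φ φ' : E →ₐ[RatFunc k] K, φ' ∈ cls F φ →
      ∀ x, ‖algebraMap K C (φ' x)‖ = ‖algebraMap K C (φ x)‖)
    (d : (E →ₐ[RatFunc k] K) → ℕ) (m : ℕ) (hd : ∀ φ, ∑ᶠ φ' ∈ cls F φ, d φ' = m)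
    {M : Type*} [AddCommGroup M] [Module (OK ⊗[k] OE) M] (τ : M →+ M)
    (hM : IsCMMotive OE OK d τ) (ψ : E →ₐ[RatFunc k] K) (ω : (E →ₐ[RatFunc k] K) → M)
    (hω : ∀ φ ∈ cls F ψ, ω φ ∈ eigen OE OK τ φ ∧ ω φ ∉ dRKer k OE OK τ)
    (u : (K ≃ₐ[RatFunc k] K) → M →+ PowerSeries C)
    (hu : ∀ η, IsCycle (k := k) (OE := OE) (OK := OK) τ η (u η) ∧ u η ≠ 0)
    (𝔓 : FinPl k → Ideal OK) (h𝔓 : ∀ π, (𝔓 π).IsMaximal ∧ algebraMap k[X] OK π.1 ∈ 𝔓 π) :
    ∃ p : (K ≃ₐ[RatFunc k] K) → (E →ₐ[RatFunc k] K) → C,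
      (∀ η, ∀ φ ∈ cls F ψ,
        HasSum (fun n => PowerSeries.coeff n (u η (ω φ)) *
          algebraMap K C (algebraMap k[X] K X) ^ n) (p η φ) ∧ p η φ ≠ 0) ∧
      (∀ φ ∈ cls F ψ, dRIndex OE OK τ φ (ω φ) ≠ 0) ∧
      ∃ Z : ℂ → ℂ, MeromorphicOn Z Set.univ ∧ AnalyticAt ℂ Z 0 ∧
        (∀ s : ℂ, 1 < s.re → HasSum (zTerm 𝔓 (fun g => a0 d ψ g⁻¹) s) (Z s)) ∧
        Z 0 = height F m ψ p (fun φ => dRIndex OE OK τ φ (ω φ)) := by
  let L := algebraicClosure K C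
  letI : Algebra k L := ((algebraMap K L).comp (algebraMap k K)).toAlgebra
  haveI : IsScalarTower k K L := IsScalarTower.of_algebraMap_eq fun _ => rfl
  haveI : IsAlgClosed L := (algebraicClosure.isAlgClosure K C).isAlgClosed
  haveI : Algebra.IsAlgebraic K L := algebraicClosure.isAlgebraic K C
  haveI : IsDomain (L ⊗[k] E) := (ff_of hreg).isDomain L
  let j : L →+* C := algebraMap L C
  have hjK : ∀ x : K, j (algebraMap K L x) = algebraMap K C x := fun _ => rfl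
  obtain ⟨w, hw⟩ := exists_GV_of_hom (th_trans (k := k) (K := K) (L := L)) th_alg j hθ
  haveI : Nonempty (GV k L) := ⟨w⟩
  obtain ⟨P, hP⟩ := exists_PD (th_trans (k := k) (K := K) (L := L)) th_alg w
    (NNReal.eq (by rw [hw]; exact_mod_cast hθ))
  have hd' : DenseRange j := by
    refine hdense.mono fun x hx => ⟨⟨x, (mem_algebraicClosure_iff).2 hx⟩, rfl⟩
  exact main_L hreg j hjK hd' P (fun x => by rw [hP, hw]) F hF d m hd τ hM ψ ω hω u hu 𝔓 h𝔓

end Pool.Agent.FFC
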