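import Pool.Agent.P.MP_a2beea_nt.FC.Ser
import Pool.Agent.P.MP_a2beea_nt.FC.One

/-! The regularized sum, absolute form. `abs_reg` with `Y = single ψ 1` as in `ser`; by `BBm_twist`,
`cF n ψ = m h q ^ n + (m h - cI n ψ) - BBm (σ ^ n D) ψ` with `m = degD D`, `h = log q / dg`; the
middle term is periodic with mean zero (`cL_periodic`, `cL_mean`, `avg_sum`, `avg_const`), and
`regP F (fun _ => c) = - c * (F + 1) / 2`. -/

open Polynomial
open scoped TensorProduct NNReal IntermediateField

namespace Pool.Agent.FFC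

open Classical

variable {k : Type*} [Field k] [Fintype k] {E : Type*} [Field E] [Algebra k E] {t : E}
  {L : Type*} [Field L] [Algebra k L] [IsAlgClosed L]
  [IsDomain (L ⊗[k] E)]
  [Nonempty (GV k L)]
  {θ : L}
  {A : Subring L} {f : FL k E L} {I J : AddSubgroup (FL k E L)} {D : (E →ₐ[k] L) →₀ ℤ}

theorem serA (h : FF k t) {g : ℕ} (hR : RR0 k t g) (P : PD k θ)
    (hfin : ∀ n, 1 ≤ n → {x : Pt k E L | x.O ≠ ⊤ ∧ (fr k L ^ n) • x = x}.Finite)
    (hS : Sht A t θ f I D) {Q : ℤ[X]} (hQ : Q.Monic) (hQ1 : Q.eval 1 ≠ 0)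
    (hQ0 : ∑ i ∈ Finset.range (Q.natDegree + 1), ∑ j ∈ Finset.range (Q.natDegree + 1),
      (Q.coeff i : ℝ) * Q.coeff j * gram k L E g i j = 0)
    {F : ℕ} (hF0 : 0 < F) (hF : ∀ x : Pt k E L, t ∉ x.O → (fr k L ^ F) • x = x)
    {ψ : E →ₐ[k] L} (hψ : ψ t = θ)
    (hone : ∀ (η : GG k θ) (φ φ' : E →ₐ[k] L), φ t = θ → φ' t = θ →
      redO (P.W none η) (Pt.ofHom φ) = redO (P.W none η) (Pt.ofHom φ')) :
    Reg (fun n => cF P D n ψ)
      (-(HH P t F D (dvN t (tauLat A t f I)) ψ + degD D * (Real.log (Fintype.card k) / dg k t) *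
        ((Fintype.card k : ℝ) / ((Fintype.card k : ℝ) - 1) + (F + 1) / 2))) := by
  set X' := dvN t (tauLat A t f I) with hX'
  set c : ℝ := degD D * (Real.log (Fintype.card k) / dg k t) with hc
  have hq : (1 : ℝ) < Fintype.card k := by exact_mod_cast Fintype.one_lt_card
  have hX : BBm P t (sg k E L X' - X' - sg k E L D) = 0 := by
    have e : sg k E L X' - X' - sg k E L D = -divN f := by
      rw [hS.divN_f h, ← hX', map_sub]
      abel
    rw [e, map_neg]
    refine LinearMap.ext fun x => ?_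
    rw [LinearMap.neg_apply, BBm_divN h hR P, neg_zero, LinearMap.zero_apply]
  have h1 := abs_reg (BBm P t) (BBm_comm P t) (BBm_nonneg h hR P) (sg k E L) hq (BBm_sg h P) hQ
    hQ1 (null_of_gram h hR P hfin hQ0 hS.leg) hX (Finsupp.single ψ 1)
  have hmean : ∑ i ∈ Finset.range F, cI P D (i + 1) ψ = F * c := by
    unfold cI
    rw [← avg_sum P _ (Φ := fun i η => cL (P.W none η) D (i + 1) ψ)
      fun i _ => (adm_cL h P D (i + 1) ψ).1 none]
    have e : (fun η : GG k θ => ∑ i ∈ Finset.range F, cL (P.W none η) D (i + 1) ψ) =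
        fun _ => F * c := by
      funext η
      have hw : 1 < (P.W none η).v θ := by
        have := ser_w P hψ η
        rwa [hψ] at this
      rw [cL_mean h _ hw (hone η) hF hS.leg hψ, P.W_inf, hc]
      push_cast
      ring
    rw [e, avg_const]
  have h2 : Reg (fun n => c + (-1) * cI P D n ψ) (regP F fun n => c + (-1) * cI P D n ψ) := by
    refine reg_periodic hF0 (fun n hn => ?_) ?_
    · rw [ser_periodic h P hS.leg hψ hF hn]
    · rw [Finset.sum_add_distrib, Finset.sum_const, ← Finset.mul_sum, hmean, Finset.card_range,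
        nsmul_eq_mul]
      ring
  have hP : regP F (fun _ => c) = -(c * ((F + 1) / 2)) := by
    have hF' : (F : ℝ) ≠ 0 := by exact_mod_cast hF0.ne'
    have hs : ∀ m : ℕ, ∑ i ∈ Finset.range m, ((i : ℝ) + 1) = m * (m + 1) / 2 := by
      intro m
      induction m with
      | zero => simp
      | succ m ih =>
        rw [Finset.sum_range_succ, ih]
        push_cast
        ring
    unfold regP
    rw [← Finset.sum_mul, hs]
    field_simp
  rw [regP_add, hP, regP_const_mul] at h2
  have h3 := ((h1.const_mul (-1)).add h2).add ((reg_geom hq.ne').const_mul c)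
  have e : -(HH P t F D X' ψ + c *
      ((Fintype.card k : ℝ) / ((Fintype.card k : ℝ) - 1) + (F + 1) / 2)) =
      -1 * -BBm P t X' (Finsupp.single ψ 1) +
        (-(c * ((F + 1) / 2)) + -1 * regP F fun n => cI P D n ψ) +
        c * ((Fintype.card k : ℝ) / (1 - (Fintype.card k : ℝ))) := by
    have hq1 : (Fintype.card k : ℝ) - 1 ≠ 0 := sub_ne_zero.2 hq.ne'
    have hq2 : 1 - (Fintype.card k : ℝ) ≠ 0 := sub_ne_zero.2 hq.ne
    unfold HH
    simp only [← BBm_apply]
    field_simp
    ring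
  rw [e]
  refine h3.congr fun n hn => ?_
  rw [BBm_twist h P hS.leg hψ hn, hc]
  unfold degD
  ring

end Pool.Agent.FFC
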