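import Pool.Agent.P.MP_a2beea_nt.FC.Main
import Pool.Agent.P.MP_a2beea_nt.FC.InfA
import Pool.Agent.P.MP_a2beea_nt.FC.BetF
import Pool.Agent.P.MP_a2beea_nt.FC.Bet
import Pool.Agent.P.MP_a2beea_nt.FC.BookA
import Pool.Agent.P.MP_a2beea_nt.FC.SerA

/-! The product formula with absolute periods. -/

open Polynomial
open scoped TensorProduct NNReal IntermediateField

namespace Pool.Agent.FFC

open Classical

variable {k : Type*} [Field k] [Fintype k] {E K : Type*} [Field E] [Field K]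
  [Algebra k E] [Algebra k[X] E] [Algebra (RatFunc k) E] [IsScalarTower k k[X] E]
  [IsScalarTower k[X] (RatFunc k) E]
  [Algebra k K] [Algebra k[X] K] [Algebra (RatFunc k) K] [IsScalarTower k k[X] K]
  [IsScalarTower k[X] (RatFunc k) K]
  [FiniteDimensional (RatFunc k) E] [Algebra.IsSeparable (RatFunc k) E]
  [FiniteDimensional (RatFunc k) K] [IsGalois (RatFunc k) K]
  {OE OK : Type*} [CommRing OE] [CommRing OK]
  [Algebra k OE] [Algebra k[X] OE] [Algebra OE E] [IsScalarTower k k[X] OE]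
  [IsScalarTower k[X] OE E] [IsIntegralClosure OE k[X] E]
  [Algebra k OK] [Algebra k[X] OK] [Algebra OK K] [IsScalarTower k k[X] OK]
  [IsScalarTower k[X] OK K] [IsIntegralClosure OK k[X] K]

theorem dg_eq_finrank : dg k (tE k E) = Module.finrank (RatFunc k) E :=
  (Algebra.finrank_eq_of_equiv_equiv
    (RatFunc.algEquivOfTranscendental (tE k E) (Bridge_trans E)).toRingEquiv (RingEquiv.refl E)
    (Bridge_comp E)).symm

section L

variable {L : Type*} [Field L] [Algebra k L] [Algebra K L] [IsScalarTower k K L] [IsAlgClosed L]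
  [Algebra.IsAlgebraic K L] [IsDomain (L ⊗[k] E)] [Nonempty (GV k L)]
  [Fintype (E →ₐ[RatFunc k] K)]

theorem main_LA (hreg : ∀ x : E, IsAlgebraic k x → x ∈ (algebraMap k E).range)
    {C : Type*} [NormedField C] [IsUltrametricDist C] [CompleteSpace C] [IsAlgClosed C]
    [Algebra K C] [Algebra k C] [IsScalarTower k K C]
    (j : L →+* C) (hjK : ∀ x : K, j (algebraMap K L x) = algebraMap K C x)
    (hdense : DenseRange j) (P : PD k (th k K L)) (hP : ∀ x, ((P.V none).v x : ℝ) = ‖j x‖)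
    (hone : ∀ (φ φ' : E →ₐ[RatFunc k] K) (x : E),
      ‖algebraMap K C (φ' x)‖ = ‖algebraMap K C (φ x)‖)
    (d : (E →ₐ[RatFunc k] K) → ℕ)
    {M : Type*} [AddCommGroup M] [Module (OK ⊗[k] OE) M] (τ : M →+ M)
    (hM : IsCMMotive OE OK d τ) (ψ : E →ₐ[RatFunc k] K) (ω : M)
    (hω : ω ∈ eigen OE OK τ ψ ∧ ω ∉ dRKer k OE OK τ)
    (u : (K ≃ₐ[RatFunc k] K) → M →+ PowerSeries C)
    (hu : ∀ η, u η ∈ cycles k OE OK τ η ∧ u η ≠ 0)
    (𝔓 : FinPl k → Ideal OK) (h𝔓 : ∀ π, (𝔓 π).IsMaximal ∧ algebraMap k[X] OK π.1 ∈ 𝔓 π) :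
    ∃ p : (K ≃ₐ[RatFunc k] K) → C,
      (∀ η, HasSum (fun n => PowerSeries.coeff n (u η ω) *
          algebraMap K C (algebraMap k[X] K X) ^ n) (p η) ∧ p η ≠ 0 ∧
        bettiIndex k OE OK τ η (u η) ≠ 0) ∧
      dRIndex OE OK τ ψ ω ≠ 0 ∧
      ∃ Z : ℂ → ℂ, MeromorphicOn Z Set.univ ∧ AnalyticAt ℂ Z 0 ∧
        (∀ s : ℂ, 1 < s.re → HasSum (zTerm 𝔓 (fun g => a0 d ψ g⁻¹) s) (Z s)) ∧
        Z 0 = (((∑ᶠ η, (Real.log ‖p η‖ -
            Real.log (bettiIndex k OE OK τ η (u η)) / Module.finrank (RatFunc k) E)) -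
          Real.log (dRIndex OE OK τ ψ ω)) / Nat.card (K ≃ₐ[RatFunc k] K) : ℝ) := by
  have h : FF k (tE k E) := ff_of hreg
  obtain ⟨g, m0, h1, h2, hfin, hz⟩ := rr_zeta (L := L) h
  have hR : RR0 k (tE k E) g := ⟨h2, m0, h1⟩
  obtain ⟨Q, hQ, hQ1, hQ0⟩ := hz (gram_bound h hR P hfin)
  obtain ⟨ρ, hρ⟩ := exists_rho (k := k) E K OE OK L
  obtain ⟨μ, f, I, hμ, hS⟩ := exists_sht h hR P hρ hM
  obtain ⟨res, hres⟩ := exists_res (k := k) (K := K) (L := L)
  obtain ⟨Fp, hF0, hFp⟩ := exists_period (L := L) h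
  obtain ⟨nn, e, e', hd⟩ := exists_dualB h L
  obtain ⟨b, hb⟩ := exists_basis h hS.lat hS.alg_mem hd
  obtain ⟨Φ, c₀, m', hc₀, hΦ, hΦb⟩ := hb.phi h hS
  have hW : ∀ (η : GG k (th k K L)) (x : L),
      ((P.W none η).v x : ℝ) = ‖(j.comp (η.1 : L →+* L)) x‖ := fun η x => hP (η.1 x)
  have hjη : ∀ (η : GG k (th k K L)) (x : K),
      (j.comp (η.1 : L →+* L)) (algebraMap K L x) = algebraMap K C (res η x) := by
    intro η x
    rw [← hjK, hres.2]; rfl
  have hjk : ∀ (η : GG k (th k K L)) (c : k),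
      (j.comp (η.1 : L →+* L)) (algebraMap k L c) = algebraMap k C c := by
    intro η c
    change j (η.1 (algebraMap k L c)) = _
    rw [η.1.commutes, IsScalarTower.algebraMap_apply k K L, hjK, ← IsScalarTower.algebraMap_apply]
  have hθη : ∀ η : GG k (th k K L),
      (j.comp (η.1 : L →+* L)) (th k K L) = algebraMap K C (algebraMap k[X] K X) := by
    intro η
    have : η.1 (th k K L) = th k K L := η.2
    rw [← hjK]
    exact congrArg j this
  have hred : ∀ (η : GG k (th k K L)) (φ φ' : E →ₐ[k] L), φ (tE k E) = th k K L →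
      φ' (tE k E) = th k K L →
      redO (P.W none η) (Pt.ofHom φ) = redO (P.W none η) (Pt.ofHom φ') := by
    intro η φ φ' hφ hφ'
    obtain ⟨φ, rfl⟩ := emb_surj ψ hφ
    obtain ⟨φ', rfl⟩ := emb_surj ψ hφ'
    ext a
    have h3 : (P.W none η).v (emb L φ a) = (P.W none η).v (emb L φ' a) := by
      apply NNReal.eq
      rw [hW, hW, emb_apply, emb_apply, hjη, hjη]
      exact hone ((res η).toAlgHom.comp φ') ((res η).toAlgHom.comp φ) a
    simp only [mem_redO, Pt.ofHom_O, Pt.ofHom_ev, h3]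
  have key : ∀ η : GG k (th k K L), bettiIndex k OE OK τ (res η) (u (res η)) ≠ 0 ∧ ∃ G : C,
      G ≠ 0 ∧
      HasSum (fun n => PowerSeries.coeff n (u (res η) ω) *
          algebraMap K C (algebraMap k[X] K X) ^ n)
        (G * (j.comp (η.1 : L →+* L)) (val (Pt.ofHom (emb L ψ)) (μ ω))) ∧
      Real.log ‖G‖ - dI (P.W none η) (tE k E) (tauLat (AK OK K L) (tE k E) f I) (emb L ψ) =
        Real.log (gauss (P.W none η) f) / ((Fintype.card k : ℝ) - 1) -
          (Real.log (Fintype.card k) / dg k (tE k E)) *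
            (degL (tE k E) I - degL (tE k E) (J0 k (AK OK K L) (tE k E) e') -
              Real.log (bettiIndex k OE OK τ (res η) (u (res η))) / Real.log (Fintype.card k) +
              degD (legs d : (E →ₐ[k] L) →₀ ℤ)) +
          TT (P.W none η) f Fp (legs d) (emb L ψ) := by
    intro η
    obtain ⟨u', hc, hu'⟩ := exists_cyc (j.comp (η.1 : L →+* L)) (hjη η) hρ hμ (hu (res η)).1
      (hu (res η)).2
    have hd' : DenseRange (j.comp (η.1 : L →+* L)) := by
      have : Set.range (j.comp (η.1 : L →+* L)) = Set.range j := by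
        ext c
        constructor
        · rintro ⟨x, rfl⟩; exact ⟨η.1 x, rfl⟩
        · rintro ⟨x, rfl⟩; exact ⟨η.1.symm x, by simp⟩
      unfold DenseRange
      rw [this]; exact hdense
    obtain ⟨hsol, hbet⟩ := bet_eq h (j.comp (η.1 : L →+* L)) (hjη η) hρ hμ hd hb hΦb
      (hu (res η)).1 hu'
    obtain ⟨hb0, G, hG0, hG1, hG2⟩ := infA h hS hd hc (P.W none η) (hW η) (P.W_inf η) hd' hF0 hFp
      (hred η) (betti_far h hS hd hb (hjk η) hc (P.W none η) (hW η) (P.W_inf η) hd' hc₀ hΦ hsol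
        hbet)
    refine ⟨hb0, G (emb L ψ), hG0 _ (emb_t ψ), ?_, hG2 _ (emb_t ψ)⟩
    have hm := (hμ.mem_eigen h hρ hS ψ ω).1 hω.1
    have := hG1 _ hm.1
    rw [hu', hθη] at this
    convert this using 1
    symm
    rw [finsum_mem_def]
    rw [finsum_eq_single _ (emb L ψ)]
    · rw [Set.indicator_of_mem]
      exact emb_t ψ
    · intro χ hχ
      by_cases hχt : χ (tE k E) = th k K L
      · rw [Set.indicator_of_mem (by exact hχt), hm.2 χ hχt hχ, map_zero, mul_zero]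
      · rw [Set.indicator_of_notMem (by exact hχt)]
  choose hb0 G hG0 hG1 hG2 using key
  let p : (K ≃ₐ[RatFunc k] K) → C := fun η =>
    ∑' n, PowerSeries.coeff n (u η ω) * algebraMap K C (algebraMap k[X] K X) ^ n
  have hval : val (Pt.ofHom (emb L ψ)) (μ ω) ≠ 0 := hμ.val_ne h hρ hS hω.1 hω.2
  have hp : ∀ η, p (res η) =
      G η * (j.comp (η.1 : L →+* L)) (val (Pt.ofHom (emb L ψ)) (μ ω)) :=
    fun η => (hG1 η).tsum_eq
  have hidx := idx_formula h P hρ hμ hS hω.1 hω.2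
  refine ⟨p, fun η => ?_, hidx.1, ?_⟩
  · obtain ⟨η', rfl⟩ := hres.1 η
    rw [hp η']
    exact ⟨hG1 η', mul_ne_zero (hG0 η') ((_root_.map_ne_zero _).mpr hval), hb0 η'⟩
  have hA : ∀ π η, ∀ c ∈ AK OK K L, (P.W (some π) η).v c ≤ 1 := fun π η c hc =>
    AK_le_one _ (P.W_fin_le π η) hc
  have hlog : ∀ η, Real.log ‖G η‖ = Real.log ‖p (res η)‖ -
      Real.log ((P.W none η).v (val (Pt.ofHom (emb L ψ)) (μ ω))) := by
    intro η
    rw [hp η, norm_mul, hW, Real.log_mul (norm_ne_zero_iff.mpr (hG0 η))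
      (norm_ne_zero_iff.mpr ((_root_.map_ne_zero _).mpr hval))]
    ring
  have hloc : Loc fun η => Real.log ‖G η‖ := by
    simp only [hlog]
    exact (hres.loc fun η => Real.log ‖p η‖).comp₂ ((adm_log P _).1 none) (fun a b => a - b)
  have hn : (Nat.card (K ≃ₐ[RatFunc k] K) : ℝ) = Module.finrank (RatFunc k) K := by
    exact_mod_cast IsGalois.card_aut_eq_finrank (RatFunc k) K
  have hn0 : (Nat.card (K ≃ₐ[RatFunc k] K) : ℝ) ≠ 0 := by
    exact_mod_cast (Nat.card_pos (α := K ≃ₐ[RatFunc k] K)).ne'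
  have hq : Real.log (Fintype.card k) ≠ 0 :=
    (Real.log_pos (by exact_mod_cast Fintype.one_lt_card)).ne'
  have e1 : avg (fun η => Real.log ‖G η‖) =
      (∑ᶠ η, Real.log ‖p η‖) / Nat.card (K ≃ₐ[RatFunc k] K) -
      avg fun η => Real.log ((P.W none η).v (val (Pt.ofHom (emb L ψ)) (μ ω))) := by
    simp only [hlog]
    rw [avg_sub P (hres.loc fun η => Real.log ‖p η‖) ((adm_log P _).1 none),
      avg_comp_surj res hres.1 fun η => Real.log ‖p η‖]
  have e2 := prod_formula P (val (Pt.ofHom (emb L ψ)) (μ ω))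
  rw [II_eq (adm_log P _)] at e2
  have e3 := Ifin_dif h hR hd P (A := AK OK K L) alg_mem_AK hA (emb_t ψ)
    (fun a ha => emb_mem_AK ψ ha)
  have e4 := bookA h hR P hS hA hF0 (emb_t ψ) hloc
    (hres.loc fun η => Real.log (bettiIndex k OE OK τ η (u η)) / Real.log (Fintype.card k)) hG2
  rw [avg_comp_surj res hres.1
    fun η => Real.log (bettiIndex k OE OK τ η (u η)) / Real.log (Fintype.card k)] at e4
  have hser := serA h hR P hfin hS hQ hQ1 hQ0 hF0 hFp (emb_t ψ) hred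
  have hfinal : ((∑ᶠ η, (Real.log ‖p η‖ -
            Real.log (bettiIndex k OE OK τ η (u η)) / Module.finrank (RatFunc k) E)) -
          Real.log (dRIndex OE OK τ ψ ω)) / Nat.card (K ≃ₐ[RatFunc k] K) =
      HH P (tE k E) Fp (legs d) (dvN (tE k E) (tauLat (AK OK K L) (tE k E) f I)) (emb L ψ) +
        degD (legs d : (E →ₐ[k] L) →₀ ℤ) * (Real.log (Fintype.card k) / dg k (tE k E)) *
          ((Fintype.card k : ℝ) / ((Fintype.card k : ℝ) - 1) + (Fp + 1) / 2) := by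
    have e5 : (∑ᶠ η, (Real.log ‖p η‖ -
            Real.log (bettiIndex k OE OK τ η (u η)) / Module.finrank (RatFunc k) E)) /
          Nat.card (K ≃ₐ[RatFunc k] K) =
        (∑ᶠ η, Real.log ‖p η‖) / Nat.card (K ≃ₐ[RatFunc k] K) -
          Real.log (Fintype.card k) / dg k (tE k E) *
            ((∑ᶠ η, Real.log (bettiIndex k OE OK τ η (u η)) / Real.log (Fintype.card k)) /
              Nat.card (K ≃ₐ[RatFunc k] K)) := by
      simp only [finsum_eq_sum_of_fintype, Finset.sum_sub_distrib, ← Finset.sum_div,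
        dg_eq_finrank]
      field_simp
    rw [sub_div, e5, hidx.2, ← hn, mul_div_cancel_left₀ _ hn0, e3]
    linarith
  obtain ⟨B, hB⟩ := frob_avg_bound (OK := OK) (fun g : K ≃ₐ[RatFunc k] K => a0 d ψ g⁻¹)
  let β : FinPl k → ℕ → ℝ := fun π n =>
    (∑ᶠ g ∈ frobSet k K (𝔓 π) n, a0 d ψ g⁻¹) / (frobSet k K (𝔓 π) n).ncard
  have hβ : ∀ π n, |β π n| ≤ B := fun π n => hB (𝔓 π) n
  have hcF : ∀ n, 1 ≤ n → cF P (legs d) n (emb L ψ) =
      ∑ᶠ π ∈ {π : FinPl k | π.1.natDegree ∣ n},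
        Real.log ((Fintype.card k : ℝ) ^ π.1.natDegree) * β π n :=
    fun n hn => cF_eq h P d h𝔓 hn ψ
  obtain ⟨Z, hZ1, hZ2, hZ3, hZ4⟩ := hser.analytic (Fintype.one_lt_card (α := k))
    (B := B * Real.log (Fintype.card k)) (fun n hn => by
      rw [hcF n hn]; exact dir_bound β hβ hn)
  refine ⟨fun s => -Z s, hZ1.neg, hZ2.neg, fun s hs => ?_, ?_⟩
  · refine dir_sum β hβ hs ?_
    have := hZ4 s hs
    simp only [fun n => hcF (n + 1) (Nat.le_add_left 1 n)] at this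
    exact this
  · change -Z 0 = _
    rw [hfinal, hZ3]
    push_cast
    ring

end L

theorem mainA (hreg : ∀ x : E, IsAlgebraic k x → x ∈ (algebraMap k E).range)
    [Fintype (E →ₐ[RatFunc k] K)]
    {C : Type*} [NormedField C] [IsUltrametricDist C] [CompleteSpace C] [IsAlgClosed C]
    [Algebra K C] (hθ : ‖algebraMap K C (algebraMap k[X] K X)‖ = Fintype.card k)
    (hdense : Dense {x : C | IsAlgebraic K x})
    (hone : ∀ (φ φ' : E →ₐ[RatFunc k] K) (x : E),
      ‖algebraMap K C (φ' x)‖ = ‖algebraMap K C (φ x)‖)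
    (d : (E →ₐ[RatFunc k] K) → ℕ)
    {M : Type*} [AddCommGroup M] [Module (OK ⊗[k] OE) M] (τ : M →+ M)
    (hM : IsCMMotive OE OK d τ) (ψ : E →ₐ[RatFunc k] K) (ω : M)
    (hω : ω ∈ eigen OE OK τ ψ ∧ ω ∉ dRKer k OE OK τ)
    (u : (K ≃ₐ[RatFunc k] K) → M →+ PowerSeries C)
    (hu : ∀ η, u η ∈ cycles k OE OK τ η ∧ u η ≠ 0)
    (𝔓 : FinPl k → Ideal OK) (h𝔓 : ∀ π, (𝔓 π).IsMaximal ∧ algebraMap k[X] OK π.1 ∈ 𝔓 π) :
    ∃ p : (K ≃ₐ[RatFunc k] K) → C,
      (∀ η, HasSum (fun n => PowerSeries.coeff n (u η ω) *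
          algebraMap K C (algebraMap k[X] K X) ^ n) (p η) ∧ p η ≠ 0 ∧
        bettiIndex k OE OK τ η (u η) ≠ 0) ∧
      dRIndex OE OK τ ψ ω ≠ 0 ∧
      ∃ Z : ℂ → ℂ, MeromorphicOn Z Set.univ ∧ AnalyticAt ℂ Z 0 ∧
        (∀ s : ℂ, 1 < s.re → HasSum (zTerm 𝔓 (fun g => a0 d ψ g⁻¹) s) (Z s)) ∧
        Z 0 = (((∑ᶠ η, (Real.log ‖p η‖ -
            Real.log (bettiIndex k OE OK τ η (u η)) / Module.finrank (RatFunc k) E)) -
          Real.log (dRIndex OE OK τ ψ ω)) / Nat.card (K ≃ₐ[RatFunc k] K) : ℝ) := by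
  let L := algebraicClosure K C
  letI : Algebra k C := ((algebraMap K C).comp (algebraMap k K)).toAlgebra
  haveI : IsScalarTower k K C := IsScalarTower.of_algebraMap_eq fun _ => rfl
  letI : Algebra k L := ((algebraMap K L).comp (algebraMap k K)).toAlgebra
  haveI : IsScalarTower k K L := IsScalarTower.of_algebraMap_eq fun _ => rfl
  haveI : IsAlgClosed L := (algebraicClosure.isAlgClosure K C).isAlgClosed
  haveI : Algebra.IsAlgebraic K L := algebraicClosure.isAlgebraic K C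
  haveI : IsDomain (L ⊗[k] E) := (ff_of hreg).isDomain L
  let j : L →+* C := algebraMap L C
  have hjK : ∀ x : K, j (algebraMap K L x) = algebraMap K C x := fun _ => rfl
  obtain ⟨w, hw⟩ := exists_GV_of_hom (th_trans (k := k) (K := K) (L := L)) th_alg j hθ
  haveI : Nonempty (GV k L) := ⟨w⟩
  obtain ⟨P, hP⟩ := exists_PD (th_trans (k := k) (K := K) (L := L)) th_alg w
    (NNReal.eq (by rw [hw]; exact_mod_cast hθ))
  have hd' : DenseRange j := by
    refine hdense.mono fun x hx => ⟨⟨x, (mem_algebraicClosure_iff).2 hx⟩, rfl⟩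
  exact main_LA hreg j hjK hd' P (fun x => by rw [hP, hw]) hone d τ hM ψ ω hω u hu 𝔓 h𝔓

end Pool.Agent.FFC
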