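import Pool.Agent.P.MP_a2beea_nt.FC.MainB4

/-! The two formulas for an arbitrary field of constants. -/

open Polynomial
open scoped TensorProduct NNReal IntermediateField

namespace Pool.Agent.FFC

open Classical

variable {k₀ : Type*} [Field k₀] [Fintype k₀] {E K : Type*} [Field E] [Field K]
  [Algebra k₀ E] [Algebra k₀[X] E] [Algebra (RatFunc k₀) E] [IsScalarTower k₀ k₀[X] E]
  [IsScalarTower k₀[X] (RatFunc k₀) E]
  [Algebra k₀ K] [Algebra k₀[X] K] [Algebra (RatFunc k₀) K] [IsScalarTower k₀ k₀[X] K]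
  [IsScalarTower k₀[X] (RatFunc k₀) K]
  [FiniteDimensional (RatFunc k₀) E] [Algebra.IsSeparable (RatFunc k₀) E]
  [FiniteDimensional (RatFunc k₀) K] [IsGalois (RatFunc k₀) K]
  {OE OK : Type*} [CommRing OE] [CommRing OK]
  [Algebra k₀ OE] [Algebra k₀[X] OE] [Algebra OE E] [IsScalarTower k₀ k₀[X] OE]
  [IsScalarTower k₀[X] OE E] [IsIntegralClosure OE k₀[X] E]
  [Algebra k₀ OK] [Algebra k₀[X] OK] [Algebra OK K] [IsScalarTower k₀ k₀[X] OK]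
  [IsScalarTower k₀[X] OK K] [IsIntegralClosure OK k₀[X] K]
  {C : Type*} [NormedField C] [IsUltrametricDist C] [CompleteSpace C] [IsAlgClosed C] [Algebra K C]

/-- The analytic continuation of the Dirichlet series. -/
theorem exists_Z (a : (K ≃ₐ[RatFunc k₀] K) → ℝ) (𝔓 : FinPl k₀ → Ideal OK) {v : ℝ}
    (hv : Reg (fun n => ∑ᶠ π ∈ {π : FinPl k₀ | π.1.natDegree ∣ n},
        Real.log ((Fintype.card k₀ : ℝ) ^ π.1.natDegree) *
          ((∑ᶠ g ∈ frobSet k₀ K (𝔓 π) n, a g) / (frobSet k₀ K (𝔓 π) n).ncard)) v) :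
    ∃ Z : ℂ → ℂ, MeromorphicOn Z Set.univ ∧ AnalyticAt ℂ Z 0 ∧
      (∀ s : ℂ, 1 < s.re → HasSum (zTerm 𝔓 a s) (Z s)) ∧ Z 0 = ((-v : ℝ) : ℂ) := by
  obtain ⟨B, hB⟩ := frob_avg_bound (OK := OK) a
  let β : FinPl k₀ → ℕ → ℝ := fun π n =>
    (∑ᶠ g ∈ frobSet k₀ K (𝔓 π) n, a g) / (frobSet k₀ K (𝔓 π) n).ncard
  have hβ : ∀ π n, |β π n| ≤ B := fun π n => hB (𝔓 π) n
  obtain ⟨Z, hZ1, hZ2, hZ3, hZ4⟩ := hv.analytic (Fintype.one_lt_card (α := k₀))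
    (B := B * Real.log (Fintype.card k₀)) (fun n hn => dir_bound β hβ hn)
  refine ⟨fun s => -Z s, hZ1.neg, hZ2.neg, fun s hs => dir_sum β hβ hs (hZ4 s hs), ?_⟩
  change -Z 0 = _
  rw [hZ3]
  push_cast
  rfl

/-- The field of constants and the algebraic closure. -/
theorem exists_setup (ψ : E →ₐ[RatFunc k₀] K)
    (hθ : ‖algebraMap K C (algebraMap k₀[X] K X)‖ = Fintype.card k₀)
    (hdense : Dense {x : C | IsAlgebraic K x}) :
    ∃ (_ : Algebra k₀ (algebraicClosure K C)) (_ : IsScalarTower k₀ K (algebraicClosure K C))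
      (_ : IsAlgClosed (algebraicClosure K C)) (_ : Fintype (algebraicClosure k₀ E))
      (_ : Algebra (algebraicClosure k₀ E) (algebraicClosure K C))
      (_ : IsScalarTower k₀ (algebraicClosure k₀ E) (algebraicClosure K C))
      (_ : IsDomain ((algebraicClosure K C) ⊗[algebraicClosure k₀ E] E))
      (_ : Nonempty (GV (algebraicClosure k₀ E) (algebraicClosure K C)))
      (_ : PD k₀ (th k₀ K (algebraicClosure K C))),
      FF (algebraicClosure k₀ E) (tE k₀ E) ∧ DenseRange (algebraMap (algebraicClosure K C) C) := by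
  let L := algebraicClosure K C
  let k := algebraicClosure k₀ E
  letI i1 : Algebra k₀ L := ((algebraMap K L).comp (algebraMap k₀ K)).toAlgebra
  haveI i2 : IsScalarTower k₀ K L := IsScalarTower.of_algebraMap_eq fun _ => rfl
  haveI i3 : IsAlgClosed L := (algebraicClosure.isAlgClosure K C).isAlgClosed
  haveI : Algebra.IsAlgebraic K L := algebraicClosure.isAlgebraic K C
  haveI : Algebra.IsAlgebraic k₀ k := algebraicClosure.isAlgebraic k₀ E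
  haveI : FiniteDimensional k₀ k := const_finite k₀ k E
  haveI : Finite k := Module.finite_of_finite k₀
  letI i4 : Fintype k := Fintype.ofFinite k
  letI i5 : Algebra k L :=
    ((algebraMap K L).comp ((ψ : E →+* K).comp (algebraMap k E))).toAlgebra
  haveI i6 : IsScalarTower k₀ k L := IsScalarTower.of_algebraMap_eq fun c => by
    change algebraMap K L (algebraMap k₀ K c) =
      algebraMap K L (ψ (algebraMap k E (algebraMap k₀ k c)))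
    rw [← IsScalarTower.algebraMap_apply k₀ k E, IsScalarTower.algebraMap_apply k₀ k₀[X] E,
      IsScalarTower.algebraMap_apply k₀[X] (RatFunc k₀) E, ψ.commutes,
      ← IsScalarTower.algebraMap_apply k₀[X] (RatFunc k₀) K,
      ← IsScalarTower.algebraMap_apply k₀ k₀[X] K]
  have h : FF k (tE k₀ E) := ff2 fun x hx =>
    ⟨⟨x, (mem_algebraicClosure_iff).2 (hx.restrictScalars k₀)⟩, rfl⟩
  have hθ' : ‖algebraMap L C (th k₀ K L)‖ = Fintype.card k₀ := hθ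
  obtain ⟨w, -⟩ := exists_GV_pow k (algebraMap L C) (k₀ := k₀) (K := K)
    (by rw [hθ']; exact_mod_cast Fintype.one_lt_card) one_ne_zero
  obtain ⟨w₀, hw₀⟩ := exists_GV_of_hom (th_trans (k := k₀) (K := K) (L := L)) th_alg
    (algebraMap L C) hθ'
  obtain ⟨P₀, -⟩ := exists_PD (th_trans (k := k₀) (K := K) (L := L)) th_alg w₀
    (NNReal.eq (by rw [hw₀]; exact_mod_cast hθ'))
  exact ⟨i1, i2, i3, i4, i5, i6, h.isDomain L, ⟨w⟩, P₀, h,
    hdense.mono fun x hx => ⟨⟨x, (mem_algebraicClosure_iff).2 hx⟩, rfl⟩⟩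

theorem mainB [Fintype (E →ₐ[RatFunc k₀] K)]
    (hθ : ‖algebraMap K C (algebraMap k₀[X] K X)‖ = Fintype.card k₀)
    (hdense : Dense {x : C | IsAlgebraic K x})
    (F : IntermediateField (RatFunc k₀) E)
    (hF : ∀ φ φ' : E →ₐ[RatFunc k₀] K, φ' ∈ cls F φ →
      ∀ x, ‖algebraMap K C (φ' x)‖ = ‖algebraMap K C (φ x)‖)
    (d : (E →ₐ[RatFunc k₀] K) → ℕ) (m : ℕ) (hd : ∀ φ, ∑ᶠ φ' ∈ cls F φ, d φ' = m)
    {M : Type*} [AddCommGroup M] [Module (OK ⊗[k₀] OE) M] (τ : M →+ M)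
    (hM : IsCMMotive OE OK d τ) (ψ : E →ₐ[RatFunc k₀] K) (ω : (E →ₐ[RatFunc k₀] K) → M)
    (hω : ∀ φ ∈ cls F ψ, ω φ ∈ eigen OE OK τ φ ∧ ω φ ∉ dRKer k₀ OE OK τ)
    (u : (K ≃ₐ[RatFunc k₀] K) → M →+ PowerSeries C)
    (hu : ∀ η, IsCycle (k := k₀) (OE := OE) (OK := OK) τ η (u η) ∧ u η ≠ 0)
    (𝔓 : FinPl k₀ → Ideal OK) (h𝔓 : ∀ π, (𝔓 π).IsMaximal ∧ algebraMap k₀[X] OK π.1 ∈ 𝔓 π) :
    ∃ p : (K ≃ₐ[RatFunc k₀] K) → (E →ₐ[RatFunc k₀] K) → C,
      (∀ η, ∀ φ ∈ cls F ψ,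
        HasSum (fun n => PowerSeries.coeff n (u η (ω φ)) *
          algebraMap K C (algebraMap k₀[X] K X) ^ n) (p η φ) ∧ p η φ ≠ 0) ∧
      (∀ φ ∈ cls F ψ, dRIndex OE OK τ φ (ω φ) ≠ 0) ∧
      ∃ Z : ℂ → ℂ, MeromorphicOn Z Set.univ ∧ AnalyticAt ℂ Z 0 ∧
        (∀ s : ℂ, 1 < s.re → HasSum (zTerm 𝔓 (fun g => a0 d ψ g⁻¹) s) (Z s)) ∧
        Z 0 = height F m ψ p (fun φ => dRIndex OE OK τ φ (ω φ)) := by
  obtain ⟨_, _, _, _, _, _, _, _, P₀, h, hd'⟩ := exists_setup ψ hθ hdense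
  haveI : Algebra.IsAlgebraic K (algebraicClosure K C) := algebraicClosure.isAlgebraic K C
  obtain ⟨res, hres⟩ := exists_res2 k₀ K (algebraicClosure K C) (algebraicClosure k₀ E)
  let p : (K ≃ₐ[RatFunc k₀] K) → (E →ₐ[RatFunc k₀] K) → C := fun g φ =>
    ∑' n, PowerSeries.coeff n (u g (ω φ)) * algebraMap K C (algebraMap k₀[X] K X) ^ n
  have key := cosetR (K := K) h (algebraMap (algebraicClosure K C) C) (fun _ => rfl) hd' hθ P₀ hres F hF hd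
    hM ψ hω hu h𝔓 (p := p) (fun _ _ => rfl)
  obtain ⟨v, hv, -⟩ := (key 1).2.2
  obtain ⟨Z, hZ1, hZ2, hZ3, hZ4⟩ := exists_Z _ 𝔓 hv
  refine ⟨p, fun η => (key η).1, (key 1).2.1, Z, hZ1, hZ2, hZ3, ?_⟩
  have e1 := avg_cosets res (fun g => (m : ℝ) / (cls F ψ).ncard *
      ((Fintype.card k₀ : ℝ) / ((Fintype.card k₀ : ℝ) - 1) * Real.log (Fintype.card k₀)) +
        cen F ψ (fun φ => Real.log ‖p g φ‖))
    (z := cen F ψ (fun φ => Real.log (dRIndex OE OK τ φ (ω φ))) /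
      Nat.card (K ≃ₐ[RatFunc k₀] K) - v) (fun δ => by
      obtain ⟨v', hv', h'⟩ := (key δ).2.2
      rw [hv.unique hv']
      exact h')
  rw [hZ4, height, sub_div, e1]
  congr 1
  ring

theorem mainAB [Fintype (E →ₐ[RatFunc k₀] K)]
    (hθ : ‖algebraMap K C (algebraMap k₀[X] K X)‖ = Fintype.card k₀)
    (hdense : Dense {x : C | IsAlgebraic K x})
    (hone : ∀ (φ φ' : E →ₐ[RatFunc k₀] K) (x : E),
      ‖algebraMap K C (φ' x)‖ = ‖algebraMap K C (φ x)‖)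
    (d : (E →ₐ[RatFunc k₀] K) → ℕ)
    {M : Type*} [AddCommGroup M] [Module (OK ⊗[k₀] OE) M] (τ : M →+ M)
    (hM : IsCMMotive OE OK d τ) (ψ : E →ₐ[RatFunc k₀] K) (ω : M)
    (hω : ω ∈ eigen OE OK τ ψ ∧ ω ∉ dRKer k₀ OE OK τ)
    (u : (K ≃ₐ[RatFunc k₀] K) → M →+ PowerSeries C)
    (hu : ∀ η, u η ∈ cycles k₀ OE OK τ η ∧ u η ≠ 0)
    (𝔓 : FinPl k₀ → Ideal OK) (h𝔓 : ∀ π, (𝔓 π).IsMaximal ∧ algebraMap k₀[X] OK π.1 ∈ 𝔓 π) :
    ∃ p : (K ≃ₐ[RatFunc k₀] K) → C,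
      (∀ η, HasSum (fun n => PowerSeries.coeff n (u η ω) *
          algebraMap K C (algebraMap k₀[X] K X) ^ n) (p η) ∧ p η ≠ 0 ∧
        bettiIndex k₀ OE OK τ η (u η) ≠ 0) ∧
      dRIndex OE OK τ ψ ω ≠ 0 ∧
      ∃ Z : ℂ → ℂ, MeromorphicOn Z Set.univ ∧ AnalyticAt ℂ Z 0 ∧
        (∀ s : ℂ, 1 < s.re → HasSum (zTerm 𝔓 (fun g => a0 d ψ g⁻¹) s) (Z s)) ∧
        Z 0 = (((∑ᶠ η, (Real.log ‖p η‖ -
            Real.log (bettiIndex k₀ OE OK τ η (u η)) / Module.finrank (RatFunc k₀) E)) -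
          Real.log (dRIndex OE OK τ ψ ω)) / Nat.card (K ≃ₐ[RatFunc k₀] K) : ℝ) := by
  obtain ⟨_, _, _, _, _, _, _, _, P₀, h, hd'⟩ := exists_setup ψ hθ hdense
  haveI : Algebra.IsAlgebraic K (algebraicClosure K C) := algebraicClosure.isAlgebraic K C
  obtain ⟨res, hres⟩ := exists_res2 k₀ K (algebraicClosure K C) (algebraicClosure k₀ E)
  let p : (K ≃ₐ[RatFunc k₀] K) → C := fun g =>
    ∑' n, PowerSeries.coeff n (u g ω) * algebraMap K C (algebraMap k₀[X] K X) ^ n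
  have key := cosetA (K := K) h (algebraMap (algebraicClosure K C) C) (fun _ => rfl) hd' hθ P₀ hres hone
    hM ψ hω hu h𝔓 (p := p) (fun _ => rfl)
  obtain ⟨v, hv, -⟩ := (key 1).2.2
  obtain ⟨Z, hZ1, hZ2, hZ3, hZ4⟩ := exists_Z _ 𝔓 hv
  refine ⟨p, fun η => (key η).1, (key 1).2.1, Z, hZ1, hZ2, hZ3, ?_⟩
  have e1 := avg_cosets res (fun g => Real.log ‖p g‖ -
      Real.log (bettiIndex k₀ OE OK τ g (u g)) / Module.finrank (RatFunc k₀) E)
    (z := Real.log (dRIndex OE OK τ ψ ω) / Nat.card (K ≃ₐ[RatFunc k₀] K) - v) (fun δ => by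
      obtain ⟨v', hv', h'⟩ := (key δ).2.2
      rw [hv.unique hv']
      exact h')
  rw [hZ4, sub_div, e1]
  congr 1
  ring

end Pool.Agent.FFC
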