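import Pool.Agent.P.MP_a2beea_nt.FC.InfB
import Pool.Agent.P.MP_a2beea_nt.FC.BetF2
import Pool.Agent.P.MP_a2beea_nt.FC.CL3
import Pool.Agent.P.MP_a2beea_nt.FC.Idx2
import Pool.Agent.P.MP_a2beea_nt.FC.Bet2

/-! The local formula at one place above infinity. -/

open Polynomial
open scoped TensorProduct NNReal IntermediateField

namespace Pool.Agent.FFC

open Classical

variable {k₀ : Type*} [Field k₀] [Fintype k₀] {E K : Type*} [Field E] [Field K]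
  [Algebra k₀ E] [Algebra k₀[X] E] [Algebra (RatFunc k₀) E] [IsScalarTower k₀ k₀[X] E]
  [IsScalarTower k₀[X] (RatFunc k₀) E]
  [Algebra k₀ K] [Algebra k₀[X] K] [Algebra (RatFunc k₀) K] [IsScalarTower k₀ k₀[X] K]
  [IsScalarTower k₀[X] (RatFunc k₀) K]
  [FiniteDimensional (RatFunc k₀) E] [Algebra.IsSeparable (RatFunc k₀) E]
  [FiniteDimensional (RatFunc k₀) K] [IsGalois (RatFunc k₀) K]
  {OE OK : Type*} [CommRing OE] [CommRing OK]
  [Algebra k₀ OE] [Algebra k₀[X] OE] [Algebra OE E] [IsScalarTower k₀ k₀[X] OE]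
  [IsScalarTower k₀[X] OE E] [IsIntegralClosure OE k₀[X] E]
  [Algebra k₀ OK] [Algebra k₀[X] OK] [Algebra OK K] [IsScalarTower k₀ k₀[X] OK]
  [IsScalarTower k₀[X] OK K] [IsIntegralClosure OK k₀[X] K]
  {L : Type*} [Field L] [Algebra k₀ L] [Algebra K L] [IsScalarTower k₀ K L] [IsAlgClosed L]
  [Algebra.IsAlgebraic K L]
  {k : Type*} [Field k] [Fintype k] [Algebra k₀ k] [Algebra k E] [IsScalarTower k₀ k E]
  [Algebra k L] [IsScalarTower k₀ k L]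
  [IsDomain (L ⊗[k] E)] [Nonempty (GV k L)]
  [Fintype (E →ₐ[RatFunc k₀] K)] {M : Type*} [AddCommGroup M] [Module (OK ⊗[k₀] OE) M]
  {τ : M →+ M} {d : (E →ₐ[RatFunc k₀] K) → ℕ}
  {ρ : OK ⊗[k₀] OE →+* FL k E L} {ε : ℕ → OK ⊗[k₀] OE}
  {μ : M →+ FL k E L} {f : FL k E L} {I : AddSubgroup (FL k E L)}
  {C : Type*} [NormedField C] [IsUltrametricDist C] [CompleteSpace C] [Algebra K C]
  {η : K ≃ₐ[RatFunc k₀] K} {u : M →+ PowerSeries C}
  {D : ℕ → (E →ₐ[k] L) →₀ ℤ} {n : ℕ} {e e' : Fin n → E}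

theorem locB [IsAlgClosed C] (h : FF k (tE k₀ E)) (hk : ∀ c : k, algebraMap k L c ∈ AK OK K L)
    (hρ : IsRho2 K ρ) (hε : IsIdem ρ (Module.finrank k₀ k) ε) (hM : IsCMMotive OE OK d τ)
    (hμ : IsEmb2 ρ (Module.finrank k₀ k) ε τ μ f I)
    (hS : Sht2 (AK OK K L) (tE k₀ E) (th k₀ K L) (Fintype.card k₀) (Module.finrank k₀ k) f I D)
    (hL : ∀ b < (Module.finrank k₀ k), Lev (AK OK K L) (tE k₀ E) (th k₀ K L) (Fintype.card k₀)
      (Module.finrank k₀ k) f I D b (AKp k₀ OK K L b) (Nb k₀ OE OK τ μ b))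
    (hd : DualB k (tE k₀ E) L e e') (j : L →+* C)
    (hj : ∀ x : K, j (algebraMap K L x) = algebraMap K C (η x)) (w : GV k L)
    (hw : ∀ x, (w.v x : ℝ) = ‖j x‖ ^ Module.finrank k₀ k)
    (hθ : 1 < ‖algebraMap K C (algebraMap k₀[X] K X)‖) (hdense : DenseRange j) {F : ℕ}
    (hF0 : 0 < F) (hF : ∀ x : Pt k E L, tE k₀ E ∉ x.O → (fr k L ^ F) • x = x)
    (hu : IsCycle (k := k₀) (OE := OE) (OK := OK) τ η u) (h0 : u ≠ 0) :
    ∃ e₀ : Pt k E L → ℝ, bettiIndex k₀ OE OK τ η u ≠ 0 ∧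
      ∑ᶠ x ∈ {x : Pt k E L | tE k₀ E ∉ x.O}, e₀ x =
        degL (tE k₀ E) I - degL (tE k₀ E) (J0 k (AK OK K L) (tE k₀ E) e') -
          Real.log (bettiIndex k₀ OE OK τ η u) / Real.log (Fintype.card k) ∧
      ∀ (φ : E →ₐ[RatFunc k₀] K) (b : ℕ) (y : E →ₐ[k] L) (ω : M), b < Module.finrank k₀ k →
        IsLift k₀ φ b y → ω ∈ eigen OE OK τ φ → ω ∉ dRKer k₀ OE OK τ →
        ∃ P : C, HasSum (fun m => PowerSeries.coeff m (u ω) *
            algebraMap K C (algebraMap k₀[X] K X) ^ m) P ∧ P ≠ 0 ∧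
          ((Module.finrank k₀ k : ℝ) * (Fintype.card k₀ : ℝ) ^ b * Real.log ‖P‖ -
              Real.log (w.v (val (Pt.ofHom y) (μ (τ^[b] ω))))) -
            dI w (tE k₀ E) (Nb k₀ OE OK τ μ b) y =
          Real.log (gauss w f) / ((Fintype.card k : ℝ) - 1) -
            meanE w e₀ (Dtot D (Module.finrank k₀ k)) F y +
            TT w f F (Dtot D (Module.finrank k₀ k)) y +
            cL w (Dgt D (Module.finrank k₀ k) b) 0 y := by
  have hl : 0 < Module.finrank k₀ k := finrank_pos2 k₀ k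
  obtain ⟨u', hc, hu'⟩ := exists_cyc2 j hj hρ hε hM hμ hu h0
  have hθw : 1 < w.v (th k₀ K L) := by
    rw [← NNReal.coe_lt_coe, hw, j_theta hj]
    exact one_lt_pow₀ hθ hl.ne'
  have hbd := cyc2_bd hj hM hμ hu hu' hθ
  obtain ⟨e₀, G, hG1, hG2⟩ := infB h hS hd hc w hl.ne' hw hθw hdense hbd hF0 hF
  obtain ⟨bs, hbs⟩ := exists_basis h hS.lat hS.alg_mem hd
  obtain ⟨Φ, m', hΦ, hΦb⟩ := hbs.phi2 h hS
  letI : Algebra k C := (j.comp (algebraMap k L)).toAlgebra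
  have hjk : ∀ c : k, j (algebraMap k L c) = algebraMap k C c := fun _ => rfl
  obtain ⟨hsol, hbet⟩ := bet_eq2 h j hj hjk hk hρ hε hM hμ hd hbs hΦb hu hu'
  obtain ⟨hb0, κ, hκ⟩ := betti_far2 h hS hd hbs hjk hc w hl.ne' hw hθw hdense hbd hΦ hsol hbet hl
    (G := G) (fun y hy => (hG1 0 hl y hy).1)
  refine ⟨e₀, hb0, ?_, fun φ b y ω hb hy hω hω' => ?_⟩
  · exact sum_eps h w (one_lt_lev w hθw hS.one_lt 0)
      (α := fun i y => (Module.finrank k₀ k : ℝ) * Real.log ‖G i y‖ -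
        dI w (tE k₀ E) I (tw ((fr k L)⁻¹ ^ i) y))
      (fun y hy => (hG1 0 hl y hy).2) hκ
  have hLb := hL b hb
  obtain ⟨h1, h2⟩ := exists_isG h hLb.lat hLb.alg_mem hLb.sub hLb.le hd hc
    (lev_trans hS.trans hS.one_lt b) (cyc2_conv hj hρ hε hM hu hu' hθ hb)
  have h3 : ∀ z : E →ₐ[k] L, ∃ G₀ : C, z (tE k₀ E) = th k₀ K L ^ Fintype.card k₀ ^ b →
      IsG j (tE k₀ E) e e' (Nb k₀ OE OK τ μ b) u' z G₀ := by
    intro z
    by_cases hz : z (tE k₀ E) = th k₀ K L ^ Fintype.card k₀ ^ b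
    · obtain ⟨G₀, hG₀⟩ := h1 z hz (hLb.gen0 hS hz)
      exact ⟨G₀, fun _ => hG₀⟩
    · exact ⟨0, fun hz' => absurd hz' hz⟩
  choose G₀ hG₀ using h3
  have hm := (mem_eigen2 h hρ hε hM hμ hS hL φ ω).1 hω
  have hsum := h2 G₀ hG₀ (μ (τ^[b] ω)) ⟨ω, hm.1, rfl⟩
  have hval := val_ne2 h hρ hε hM hμ hS hL hb hy hω hω'
  have hone : ∑ᶠ z ∈ {z : E →ₐ[k] L | z (tE k₀ E) = th k₀ K L ^ Fintype.card k₀ ^ b},
      G₀ z * j (val (Pt.ofHom z) (μ (τ^[b] ω))) = G₀ y * j (val (Pt.ofHom y) (μ (τ^[b] ω))) := by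
    rw [finsum_mem_def, finsum_eq_single _ y]
    · rw [Set.indicator_of_mem]
      exact hy.map_t
    · intro χ hχ
      by_cases hχt : χ (tE k₀ E) = th k₀ K L ^ Fintype.card k₀ ^ b
      · rw [Set.indicator_of_mem (by exact hχt),
          hm.2 b hb χ hχt (fun hχ' => hχ (hχ'.unique hy)), map_zero, mul_zero]
      · rw [Set.indicator_of_notMem (by exact hχt)]
  rw [hone] at hsum
  obtain ⟨P, hP1, hP2⟩ := period2 hj hρ hε hM hu hu' hθ hb hm.1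
    (eps_ker h hρ hε hM hμ hS hL hb hy hω) hsum
  obtain ⟨hG0, hGe⟩ := hG2 b _ _ hLb y hy.map_t (G₀ y) (hG₀ y hy.map_t)
  have hjv : j (val (Pt.ofHom y) (μ (τ^[b] ω))) ≠ 0 := (_root_.map_ne_zero _).mpr hval
  have hP0 : P ≠ 0 := by
    rintro rfl
    rw [zero_pow (pow_ne_zero _ Fintype.card_ne_zero)] at hP2
    exact mul_ne_zero hG0 hjv hP2.symm
  refine ⟨P, hP1, hP0, ?_⟩
  rw [← hGe]
  have e1 : (Fintype.card k₀ : ℝ) ^ b * Real.log ‖P‖ =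
      Real.log ‖G₀ y‖ + Real.log ‖j (val (Pt.ofHom y) (μ (τ^[b] ω)))‖ := by
    rw [← Real.log_mul (norm_ne_zero_iff.mpr hG0) (norm_ne_zero_iff.mpr hjv), ← norm_mul, ← hP2,
      norm_pow, Real.log_pow]
    push_cast
    ring
  rw [mul_assoc, e1, hw, Real.log_pow]
  ring

end Pool.Agent.FFC
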