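import Pool.Agent.P.MP_a2beea_nt.FC.Two0
import Pool.Agent.P.MP_a2beea_nt.FC.PDex

/-! Restriction of automorphisms. `exists_res2`: compose the inclusion `GG k θ → GG k₀ θ`
(`AlgEquiv.restrictScalars`) with the map of `exists_res`. `IsRes2.loc`: see `IsRes.loc`.
`avg_cosets`: `avg_comp_surj` for `ρ.rangeRestrict`, then sum over `δ` and exchange the sums.
`exists_GV_pow`: `exists_GV` with `th_trans2`, `th_alg2`; see `exists_GV_of_hom`. -/

open Polynomial
open scoped TensorProduct NNReal IntermediateField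

namespace Pool.Agent.FFC

open Classical

variable {k₀ : Type*} [Field k₀] [Fintype k₀] {E K : Type*} [Field E] [Field K]
  [Algebra k₀ E] [Algebra k₀[X] E] [Algebra (RatFunc k₀) E] [IsScalarTower k₀ k₀[X] E]
  [IsScalarTower k₀[X] (RatFunc k₀) E]
  [Algebra k₀ K] [Algebra k₀[X] K] [Algebra (RatFunc k₀) K] [IsScalarTower k₀ k₀[X] K]
  [IsScalarTower k₀[X] (RatFunc k₀) K]
  [FiniteDimensional (RatFunc k₀) E] [Algebra.IsSeparable (RatFunc k₀) E]
  [FiniteDimensional (RatFunc k₀) K] [IsGalois (RatFunc k₀) K]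
  {OE OK : Type*} [CommRing OE] [CommRing OK]
  [Algebra k₀ OE] [Algebra k₀[X] OE] [Algebra OE E] [IsScalarTower k₀ k₀[X] OE]
  [IsScalarTower k₀[X] OE E] [IsIntegralClosure OE k₀[X] E]
  [Algebra k₀ OK] [Algebra k₀[X] OK] [Algebra OK K] [IsScalarTower k₀ k₀[X] OK]
  [IsScalarTower k₀[X] OK K] [IsIntegralClosure OK k₀[X] K]
  {L : Type*} [Field L] [Algebra k₀ L] [Algebra K L] [IsScalarTower k₀ K L] [IsAlgClosed L]
  [Algebra.IsAlgebraic K L]
  {k : Type*} [Field k] [Fintype k] [Algebra k₀ k] [Algebra k E] [IsScalarTower k₀ k E]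
  [Algebra k L] [IsScalarTower k₀ k L]

variable (k₀ k K L) in
theorem exists_res2 : ∃ res : GG k (th k₀ K L) →* (K ≃ₐ[RatFunc k₀] K), IsRes2 res := by
  obtain ⟨res, hres⟩ := exists_res (k := k₀) (K := K) (L := L)
  let inc : GG k (th k₀ K L) →* GG k₀ (th k₀ K L) :=
    { toFun := fun η => ⟨η.1.restrictScalars k₀, η.2⟩
      map_one' := rfl
      map_mul' := fun _ _ => rfl }
  exact ⟨res.comp inc, fun η x => hres.2 (inc η) x⟩

theorem IsRes2.loc {res : GG k (th k₀ K L) →* (K ≃ₐ[RatFunc k₀] K)} (hres : IsRes2 res)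
    (Ψ : (K ≃ₐ[RatFunc k₀] K) → ℝ) : Loc fun η => Ψ (res η) := by
  let b := Module.finBasis (RatFunc k₀) K
  refine ⟨Finset.univ.image fun i => algebraMap K L (b i), fun η η' h => congrArg Ψ ?_⟩
  have e : (res η).toLinearMap = (res η').toLinearMap := b.ext fun i =>
    (algebraMap K L).injective ((hres η _).trans
      ((h _ (Finset.mem_image_of_mem _ (Finset.mem_univ i))).trans (hres η' _).symm))
  exact AlgEquiv.ext fun x => LinearMap.congr_fun e x

theorem avg_cosets {H G : Type*} [Group H] [Group G] [Finite G] (ρ : H →* G) (T : G → ℝ) {z : ℝ}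
    (h : ∀ δ, avg (fun η => T (δ * ρ η)) = z) : (∑ᶠ g, T g) / Nat.card G = z := by
  have := Fintype.ofFinite G
  have h1 : ∀ δ, ∑ g : ρ.range, T (δ * g) = z * Nat.card ρ.range := fun δ => by
    have h2 := avg_comp_surj ρ.rangeRestrict ρ.rangeRestrict_surjective fun g => T (δ * g)
    rw [finsum_eq_sum_of_fintype, eq_div_iff (by exact_mod_cast Nat.card_pos.ne')] at h2
    rw [← h2, ← h δ]
    rfl
  have h2 : ∑ δ, ∑ g : ρ.range, T (δ * g) = ∑ _g : ρ.range, ∑ δ, T δ := by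
    rw [Finset.sum_comm]
    exact Finset.sum_congr rfl fun g _ => Equiv.sum_comp (Equiv.mulRight (g : G)) T
  simp only [h1, Finset.sum_const, Finset.card_univ, nsmul_eq_mul,
    ← Nat.card_eq_fintype_card] at h2
  rw [finsum_eq_sum_of_fintype, div_eq_iff (by exact_mod_cast Nat.card_pos.ne')]
  refine mul_left_cancel₀ (a := (Nat.card ρ.range : ℝ)) (by exact_mod_cast Nat.card_pos.ne') ?_
  rw [← h2]
  ring

variable (L) in
theorem exists_aut (δ : (K ≃ₐ[RatFunc k₀] K)) :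
    ∃ g : L ≃ₐ[k₀] L, ∀ x : K, g (algebraMap K L x) = algebraMap K L (δ x) := by
  obtain ⟨res, hres⟩ := exists_res (k := k₀) (K := K) (L := L)
  obtain ⟨η, rfl⟩ := hres.1 δ
  exact ⟨η.1, fun x => (hres.2 η x).symm⟩

variable (k) in
theorem exists_GV_pow {C : Type*} [NormedField C] [IsUltrametricDist C] (j : L →+* C)
    (hj : 1 < ‖j (th k₀ K L)‖) {s : ℕ} (hs : s ≠ 0) :
    ∃ w : GV k L, ∀ x, (w.v x : ℝ) = ‖j x‖ ^ s := by
  let v : Valuation L ℝ≥0 := ((NormedField.valuation (K := C)).comap j).map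
    (powMonoidWithZeroHom hs) fun a b h => pow_le_pow_left₀ zero_le h s
  have e : ∀ x, (v x : ℝ) = ‖j x‖ ^ s := fun x => NNReal.coe_pow _ _
  have h1 : 1 < (v (th k₀ K L) : ℝ) := by
    rw [e]
    exact one_lt_pow₀ hj hs
  obtain ⟨w, hw⟩ := exists_GV (k := k) (th_trans2 (k₀ := k₀) (K := K)) th_alg2 v ⟨th k₀ K L,
    fun h => by
      rw [h, NNReal.coe_zero] at h1
      linarith,
    fun h => by
      rw [h, NNReal.coe_one] at h1
      linarith⟩
  exact ⟨w, fun x => by rw [hw, e]⟩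

end Pool.Agent.FFC
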