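import Pool.Agent.P.MP_a2beea_nt.FC.RegL
import Pool.Agent.P.MP_a2beea_nt.FC.Abs
import Pool.Agent.P.MP_a2beea_nt.FC.Defs5

/-! More on regularized sums. `Reg.unique`: `Q' A = Q A'` in `PowerSeries ℝ`, hence as polynomials.
`reg_ilv`: for one residue `a`, if `Q(U) * U * S(U) = A(U)` then `A = U A'`, `Q S = A'`, and the
series of the terms with `(N + b) % l = a`, `l ≤ N + b` is `T ^ (a + l - b) S(T ^ l)`
(`PowerSeries.expand`, `Polynomial.expand`); the terms with `N + b < l` form a polynomial.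
`Reg.sum_zero`: `(1 - T ^ l) C(T) = ∑_{i<l} c (i+1) T ^ (i+1)` (see `reg_periodic`); multiply by
`Q` and evaluate at `1`. `reg_mod`: `reg_periodic`; `i ↦ (i + 1 + b) % l` permutes `range l`.
`ser_ratio`: `∑_φ μ ((N + b φ) % l) = κ q ^ N - ∑_φ (c φ N - μ _)` is `Reg` and periodic, so
`∑ μ = 0` by `Reg.sum_zero`; then `Reg (c φ) (V φ - M)` with `M = ∑ a μ a / l` by `reg_mod`; sum
over `φ` and use `Reg.unique`, `reg_geom`. `abs_exists`: see the end of the proof of `abs_reg`: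
`n ↦ B (σ ^ n D) Y` satisfies the recurrence of `Q`. -/

open Polynomial
open scoped TensorProduct NNReal IntermediateField

namespace Pool.Agent.FFC

open Classical


/-- The series `S` is a rational function regular at `0` and `1`, with value `v` at `1`. -/
def RegL2S (S : PowerSeries ℝ) (v : ℝ) : Prop :=
  ∃ A Q : ℝ[X], Q.eval 0 ≠ 0 ∧ Q.eval 1 ≠ 0 ∧ (Q : PowerSeries ℝ) * S = (A : PowerSeries ℝ) ∧
    v = A.eval 1 / Q.eval 1

theorem RegL2S.add {S S' : PowerSeries ℝ} {v v' : ℝ} (h : RegL2S S v) (h' : RegL2S S' v') :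
    RegL2S (S + S') (v + v') := by
  obtain ⟨A, Q, h0, h1, h2, rfl⟩ := h
  obtain ⟨A', Q', h0', h1', h2', rfl⟩ := h'
  refine ⟨A * Q' + A' * Q, Q * Q', ?_, ?_, ?_, ?_⟩
  · rw [eval_mul]
    exact mul_ne_zero h0 h0'
  · rw [eval_mul]
    exact mul_ne_zero h1 h1'
  · rw [Polynomial.coe_add, Polynomial.coe_mul, Polynomial.coe_mul, Polynomial.coe_mul, ← h2, ← h2']
    ring
  · rw [eval_add, eval_mul, eval_mul, eval_mul]
    field_simp

theorem RegL2S.const (a : ℝ) : RegL2S (PowerSeries.C a) a :=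
  ⟨C a, 1, by simp, by simp, by simp, by simp⟩

theorem RegL2S.sum {ι : Type*} (s : Finset ι) {S : ι → PowerSeries ℝ} {v : ι → ℝ}
    (h : ∀ i ∈ s, RegL2S (S i) (v i)) : RegL2S (∑ i ∈ s, S i) (∑ i ∈ s, v i) := by
  induction s using Finset.induction_on with
  | empty => simpa using RegL2S.const 0
  | insert j s hj ih =>
    rw [Finset.sum_insert hj, Finset.sum_insert hj]
    exact (h j (Finset.mem_insert_self _ _)).add (ih fun i hi => h i (Finset.mem_insert_of_mem hi))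

theorem RegL2S.pow_mul {S : PowerSeries ℝ} {v : ℝ} (h : RegL2S S v) (k : ℕ) :
    RegL2S (PowerSeries.X ^ k * S) v := by
  obtain ⟨A, Q, h0, h1, h2, rfl⟩ := h
  refine ⟨X ^ k * A, Q, h0, h1, ?_, by simp⟩
  rw [Polynomial.coe_mul, Polynomial.coe_pow, Polynomial.coe_X, ← h2, mul_left_comm]

theorem RegL2S.of_mul {S : PowerSeries ℝ} {v : ℝ} (h : RegL2S (PowerSeries.X * S) v) :
    RegL2S S v := by
  obtain ⟨A, Q, h0, h1, h2, rfl⟩ := h
  obtain ⟨A', rfl⟩ : X ∣ A := X_dvd_iff.2 (by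
    rw [← Polynomial.coeff_coe, ← h2, mul_left_comm, PowerSeries.coeff_zero_X_mul])
  refine ⟨A', Q, h0, h1, mul_left_cancel₀ PowerSeries.X_ne_zero ?_, by simp⟩
  rw [mul_left_comm, h2, Polynomial.coe_mul, Polynomial.coe_X]

theorem RegL2S.expand {S : PowerSeries ℝ} {v : ℝ} (h : RegL2S S v) {l : ℕ} (hl : l ≠ 0) :
    RegL2S (PowerSeries.expand l hl S) v := by
  obtain ⟨A, Q, h0, h1, h2, rfl⟩ := h
  have e : ∀ P : ℝ[X], ((Polynomial.expand ℝ l P : ℝ[X]) : PowerSeries ℝ) =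
      PowerSeries.expand l hl P := fun P => by
    ext n
    rw [Polynomial.coeff_coe, Polynomial.coeff_expand (Nat.pos_of_ne_zero hl),
      PowerSeries.coeff_expand, Polynomial.coeff_coe]
  refine ⟨Polynomial.expand ℝ l A, Polynomial.expand ℝ l Q, ?_, ?_, ?_, ?_⟩
  · rwa [expand_eval, zero_pow hl]
  · rwa [expand_eval, one_pow]
  · rw [e, e, ← map_mul, h2]
  · rw [expand_eval, expand_eval, one_pow]

theorem RegL2S.mk_eq (c : ℕ → ℝ) : PowerSeries.mk c =
    PowerSeries.C (c 0) + PowerSeries.X * PowerSeries.mk fun n => c (n + 1) := by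
  ext n
  rcases n with _ | n
  · simp
  · simp [PowerSeries.coeff_succ_X_mul]

theorem RegL2S.of_reg {c : ℕ → ℝ} {v : ℝ} (h : Reg c v) : RegL2S (PowerSeries.mk c) (c 0 + v) := by
  rw [RegL2S.mk_eq c]
  exact (RegL2S.const _).add h

theorem RegL2S.reg {c : ℕ → ℝ} {v : ℝ} (h : RegL2S (PowerSeries.mk c) v) : Reg c (v - c 0) := by
  have h1 := h.add (RegL2S.const (-c 0))
  rw [RegL2S.mk_eq c, map_neg, add_neg_cancel_comm, ← sub_eq_add_neg] at h1
  exact h1

theorem RegL2S.shift {c : ℕ → ℝ} {v : ℝ} (h : RegL2S (PowerSeries.mk c) v) (k : ℕ) :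
    Reg (fun n => c (n + k)) (v - ∑ i ∈ Finset.range (k + 1), c i) := by
  induction k with
  | zero => simpa using h.reg
  | succ k ih =>
    have h1 := (RegL2S.of_mul ih).reg
    rw [Finset.sum_range_succ, ← sub_sub]
    simpa only [add_assoc, zero_add, add_comm 1 k] using h1

theorem RegL2_perm {l : ℕ} (μ : ℕ → ℝ) (k : ℕ) :
    ∑ i ∈ Finset.range l, μ ((i + k) % l) = ∑ a ∈ Finset.range l, μ a := by
  induction k with
  | zero =>
    exact Finset.sum_congr rfl fun i hi => by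
      rw [add_zero, Nat.mod_eq_of_lt (Finset.mem_range.1 hi)]
  | succ k ih =>
    have h1 := Finset.sum_range_succ (fun i => μ ((i + k) % l)) l
    rw [Finset.sum_range_succ', zero_add, Nat.add_mod_left, ih] at h1
    simpa only [add_assoc, add_comm 1 k] using add_right_cancel h1

theorem Reg.unique {c : ℕ → ℝ} {v v' : ℝ} (h : Reg c v) (h' : Reg c v') : v = v' := by
  obtain ⟨A, Q, -, h1, h2, rfl⟩ := h
  obtain ⟨A', Q', -, h1', h2', rfl⟩ := h'
  have e : A * Q' = Q * A' := Polynomial.coe_injective ℝ (by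
    rw [Polynomial.coe_mul, Polynomial.coe_mul, ← h2, ← h2']
    ring)
  rw [div_eq_div_iff h1 h1', ← eval_mul, e, eval_mul, mul_comm]

theorem Reg.sub {c c' : ℕ → ℝ} {v v' : ℝ} (h : Reg c v) (h' : Reg c' v') :
    Reg (fun n => c n - c' n) (v - v') := by
  simpa only [neg_one_mul, ← sub_eq_add_neg] using h.add (h'.const_mul (-1))

theorem Reg.sum {ι : Type*} (s : Finset ι) {c : ι → ℕ → ℝ} {v : ι → ℝ}
    (h : ∀ i ∈ s, Reg (c i) (v i)) : Reg (fun n => ∑ i ∈ s, c i n) (∑ i ∈ s, v i) := by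
  have h1 := RegL2S.sum s h
  have e : (PowerSeries.mk fun n => ∑ i ∈ s, c i (n + 1)) =
      ∑ i ∈ s, PowerSeries.mk fun n => c i (n + 1) := by
    ext n
    simp
  rw [← Finset.mul_sum, ← e] at h1
  exact h1

theorem reg_ilv {l b : ℕ} (hb : b < l) {c : ℕ → ℕ → ℝ} {v : ℕ → ℝ}
    (h : ∀ a < l, Reg (c a) (v a)) :
    Reg (ilv l b c) (∑ a ∈ Finset.range l, v a + ∑ a ∈ Finset.Ico (b + 1) l, c a 0) := by
  have hl : l ≠ 0 := by omega
  have h1 := RegL2S.sum (Finset.range l) fun a ha =>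
    ((RegL2S.of_reg (h a (Finset.mem_range.1 ha))).expand hl).pow_mul a
  have e : ∑ a ∈ Finset.range l, PowerSeries.X ^ a * PowerSeries.expand l hl (PowerSeries.mk (c a)) =
      PowerSeries.mk fun M => c (M % l) (M / l) := by
    ext M
    have h2 := Nat.mod_add_div M l
    rw [map_sum, PowerSeries.coeff_mk, Finset.sum_eq_single (M % l)]
    · rw [PowerSeries.coeff_X_pow_mul', if_pos (Nat.mod_le _ _),
        show M - M % l = l * (M / l) by omega, PowerSeries.coeff_expand_mul, PowerSeries.coeff_mk]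
    · intro a ha hne
      rw [PowerSeries.coeff_X_pow_mul']
      split_ifs with h3
      · refine PowerSeries.coeff_expand_of_not_dvd _ _ _ fun h4 => hne ?_
        rw [← (Nat.modEq_iff_dvd' h3).2 h4, Nat.mod_eq_of_lt (Finset.mem_range.1 ha)]
      · rfl
    · exact fun h3 => absurd (Finset.mem_range.2 (Nat.mod_lt _ (by omega))) h3
  rw [e] at h1
  have h2 := h1.shift b
  have e2 : ∑ i ∈ Finset.range (b + 1), c (i % l) (i / l) = ∑ i ∈ Finset.range (b + 1), c i 0 :=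
    Finset.sum_congr rfl fun i hi => by
      have : i < l := by have := Finset.mem_range.1 hi; omega
      rw [Nat.mod_eq_of_lt this, Nat.div_eq_of_lt this]
  rw [e2, Finset.sum_add_distrib, ← Finset.sum_range_add_sum_Ico (fun a => c a 0) hb, add_assoc,
    add_sub_cancel_left, add_comm] at h2
  exact h2

theorem Reg.sum_zero {l : ℕ} (hl : 0 < l) {c : ℕ → ℝ} (hc : ∀ n, 1 ≤ n → c (n + l) = c n) {v : ℝ}
    (h : Reg c v) : ∑ i ∈ Finset.range l, c (i + 1) = 0 := by
  obtain ⟨A, Q, -, h1, h2, -⟩ := h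
  have e1 : (PowerSeries.mk fun n => c (n + 1)) -
      PowerSeries.X ^ l * (PowerSeries.mk fun n => c (n + 1)) =
      ((∑ i ∈ Finset.range l, monomial i (c (i + 1)) : ℝ[X]) : PowerSeries ℝ) := by
    ext n
    rw [map_sub, PowerSeries.coeff_X_pow_mul', Polynomial.coeff_coe, finsetSum_coeff]
    simp only [coeff_monomial, Finset.sum_ite_eq', Finset.mem_range, PowerSeries.coeff_mk]
    by_cases hn : l ≤ n
    · rw [if_pos hn, if_neg (by omega), ← hc (n - l + 1) (by omega),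
        show n - l + 1 + l = n + 1 by omega, sub_self]
    · rw [if_neg hn, if_pos (by omega), sub_zero]
  have e2 : X ^ l * A + Q * (X * ∑ i ∈ Finset.range l, monomial i (c (i + 1))) = A :=
    Polynomial.coe_injective ℝ (by
      rw [Polynomial.coe_add, Polynomial.coe_mul, Polynomial.coe_mul, Polynomial.coe_mul,
        Polynomial.coe_pow, Polynomial.coe_X, ← e1, ← h2]
      ring)
  have e3 := congrArg (eval 1) e2
  simpa [eval_finsetSum, h1] using e3

theorem reg_mod {l b : ℕ} (hb : b < l) {μ : ℕ → ℝ} (h0 : ∑ a ∈ Finset.range l, μ a = 0) :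
    Reg (fun N => μ ((N + b) % l))
      (∑ a ∈ Finset.Ico (b + 1) l, μ a - (∑ a ∈ Finset.range l, (a : ℝ) * μ a) / l) := by
  obtain ⟨m, rfl⟩ : ∃ m, l = m + 1 := ⟨l - 1, by omega⟩
  have h1 := (RegL2S.of_reg (reg_periodic (F := m + 1) (by omega) (c := fun N => μ (N % (m + 1)))
    (fun n _ => by rw [Nat.add_mod_right]) ((RegL2_perm μ 1).trans h0))).shift b
  have e1 : ∑ i ∈ Finset.range (b + 1), μ (i % (m + 1)) = ∑ i ∈ Finset.range (b + 1), μ i :=
    Finset.sum_congr rfl fun i hi => by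
      rw [Nat.mod_eq_of_lt (by have := Finset.mem_range.1 hi; omega)]
  have e2 : ∑ i ∈ Finset.range (m + 1), ((i : ℝ) + 1) * μ ((i + 1) % (m + 1)) =
      ∑ a ∈ Finset.range (m + 1), (a : ℝ) * μ a + (m + 1 : ℕ) * μ 0 := by
    rw [Finset.sum_range_succ, Finset.sum_range_succ', Nat.mod_self]
    push_cast
    rw [zero_mul, add_zero, add_left_inj]
    exact Finset.sum_congr rfl fun i hi => by
      rw [Nat.mod_eq_of_lt (by have := Finset.mem_range.1 hi; omega)]
  have e3 := Finset.sum_range_add_sum_Ico μ hb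
  have e4 : ((m + 1 : ℕ) : ℝ) ≠ 0 := by positivity
  rw [regP, e1, e2, Nat.zero_mod, neg_div, add_div, mul_div_cancel_left₀ _ e4] at h1
  refine (congrArg (Reg _) ?_).mp h1
  linarith

theorem regP_const {F : ℕ} (hF : 0 < F) (c : ℝ) :
    regP F (fun _ => c) = -(c * (((F : ℝ) + 1) / 2)) := by
  have e : ∀ n : ℕ, ∑ i ∈ Finset.range n, ((i : ℝ) + 1) * c = n * (c * (((n : ℝ) + 1) / 2)) := by
    intro n
    induction n with
    | zero => simp
    | succ n ih =>
      rw [Finset.sum_range_succ, ih]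
      push_cast
      ring
  rw [regP, e, neg_div, mul_div_cancel_left₀ _ (by exact_mod_cast hF.ne')]

theorem regP_sub (F : ℕ) (c c' : ℕ → ℝ) :
    regP F (fun n => c n - c' n) = regP F c - regP F c' := by
  simp only [regP, mul_sub, Finset.sum_sub_distrib]
  ring

theorem ser_ratio {ι : Type*} (S : Finset ι) {ψ : ι} (hψ : ψ ∈ S) {l : ℕ} {b : ι → ℕ}
    (hb : ∀ φ ∈ S, b φ < l) {c : ι → ℕ → ℝ} {μ : ℕ → ℝ} {V : ι → ℝ} {κ κ' q : ℝ} (hq : q ≠ 1)
    (h : ∀ φ ∈ S, Reg (fun N => c φ N - μ ((N + b φ) % l))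
      (V φ + κ' * ∑ a ∈ Finset.range l, μ a - ∑ a ∈ Finset.Ico (b φ + 1) l, μ a))
    (hs : ∀ N, 1 ≤ N → ∑ φ ∈ S, c φ N = κ * q ^ N) :
    Reg (c ψ) (V ψ - (∑ φ ∈ S, V φ) / S.card + κ / S.card * (q / (1 - q))) := by
  have hl : 0 < l := Nat.zero_lt_of_lt (hb ψ hψ)
  have hS : (S.card : ℝ) ≠ 0 := by exact_mod_cast (Finset.card_pos.2 ⟨ψ, hψ⟩).ne'
  have hg := (reg_geom hq).const_mul κ
  have h1 := ((hg.sub (Reg.sum S h)).congr (c' := fun N => ∑ φ ∈ S, μ ((N + b φ) % l))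
    fun N hN => by rw [Finset.sum_sub_distrib, hs N hN, sub_sub_cancel]).sum_zero hl fun n _ =>
      Finset.sum_congr rfl fun φ _ => by rw [add_right_comm, Nat.add_mod_right]
  rw [Finset.sum_comm] at h1
  simp only [add_assoc, RegL2_perm, Finset.sum_const, nsmul_eq_mul] at h1
  have h0 := (mul_eq_zero.1 h1).resolve_left hS
  have h2 : ∀ φ ∈ S, Reg (c φ) (V φ - (∑ a ∈ Finset.range l, (a : ℝ) * μ a) / l) := fun φ hφ => by
    have h3 := ((h φ hφ).add (reg_mod (hb φ hφ) h0)).congr (c' := c φ) fun N _ => sub_add_cancel _ _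
    rw [h0] at h3
    refine (congrArg (Reg _) ?_).mp h3
    ring
  have h3 := ((Reg.sum S h2).congr hs).unique hg
  rw [Finset.sum_sub_distrib, Finset.sum_const, nsmul_eq_mul] at h3
  refine (congrArg (Reg _) ?_).mp (h2 ψ hψ)
  rw [div_mul_eq_mul_div, ← h3]
  field_simp
  ring

theorem abs_exists {M : Type*} [AddCommGroup M] (B : M →ₗ[ℤ] M →ₗ[ℤ] ℝ)
    (hs : ∀ x y, B x y = B y x) (hp : ∀ x, 0 ≤ B x x) (σ : Module.End ℤ M) {q : ℝ}
    (hσ : ∀ x y, B (σ x) (σ y) = q * B x y) {Q : ℤ[X]} (hQ : Q.Monic) (hQ1 : Q.eval 1 ≠ 0)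
    {D : M} (hD : B (aeval σ Q D) (aeval σ Q D) = 0) (Y : M) :
    ∃ v, Reg (fun n => B ((σ ^ n) D) Y) v := by
  have hpow : ∀ n : ℕ, B ((σ ^ n) (aeval σ Q D)) ((σ ^ n) (aeval σ Q D)) = 0 := by
    intro n
    induction n with
    | zero => exact hD
    | succ n ih => rw [pow_succ', Module.End.mul_apply, hσ, ih, mul_zero]
  obtain ⟨s, hsdef⟩ : ∃ s : ℕ → ℝ, s = fun n => B ((σ ^ n) D) Y := ⟨_, rfl⟩
  have hrec : ∀ n, ∑ i ∈ Finset.range (Q.natDegree + 1), (Q.coeff i : ℝ) * s (n + i) = 0 := by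
    intro n
    have h := abs_cs B hs hp ((σ ^ n) (aeval σ Q D)) Y
    rw [hpow, zero_mul] at h
    rw [← pow_eq_zero_iff two_ne_zero |>.1 (le_antisymm h (sq_nonneg _)), aeval_eq_sum_range,
      LinearMap.sum_apply, map_sum, map_sum, LinearMap.sum_apply, hsdef]
    refine Finset.sum_congr rfl fun i _ => ?_
    rw [LinearMap.smul_apply, map_zsmul, map_zsmul, LinearMap.smul_apply, zsmul_eq_mul,
      ← Module.End.mul_apply, ← pow_add]
  rw [← hsdef]
  obtain ⟨R, hR⟩ : ∃ R : ℝ[X], R = ∑ i ∈ Finset.range (Q.natDegree + 1),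
    C (Q.coeff i : ℝ) * X ^ (Q.natDegree - i) := ⟨_, rfl⟩
  have hRc : (R : PowerSeries ℝ) = ∑ i ∈ Finset.range (Q.natDegree + 1),
      PowerSeries.C (Q.coeff i : ℝ) * PowerSeries.X ^ (Q.natDegree - i) := by
    rw [hR, ← Polynomial.coeToPowerSeries.ringHom_apply, map_sum]
    refine Finset.sum_congr rfl fun i _ => ?_
    rw [Polynomial.coeToPowerSeries.ringHom_apply, Polynomial.coe_mul, Polynomial.coe_C,
      Polynomial.coe_pow, Polynomial.coe_X]
  have hA : (R : PowerSeries ℝ) * PowerSeries.mk s =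
      (PowerSeries.trunc Q.natDegree ((R : PowerSeries ℝ) * PowerSeries.mk s) : ℝ[X]) := by
    ext n
    rw [Polynomial.coeff_coe, PowerSeries.coeff_trunc]
    split_ifs with h
    · rfl
    · obtain ⟨m, rfl⟩ := Nat.exists_eq_add_of_le' (not_lt.mp h)
      rw [hRc, Finset.sum_mul, map_sum, ← hrec m]
      refine Finset.sum_congr rfl fun i hi => ?_
      have hi' : i ≤ Q.natDegree := Nat.lt_succ_iff.mp (Finset.mem_range.mp hi)
      have e : m + Q.natDegree = (m + i) + (Q.natDegree - i) := by omega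
      rw [mul_assoc, PowerSeries.coeff_C_mul, e, PowerSeries.coeff_X_pow_mul, PowerSeries.coeff_mk]
  have hR0 : R.eval 0 = 1 := by
    rw [hR, eval_finsetSum, Finset.sum_eq_single Q.natDegree]
    · simp [hQ.coeff_natDegree]
    · intro i hi hne
      have hi' : i ≤ Q.natDegree := Nat.lt_succ_iff.mp (Finset.mem_range.mp hi)
      have : Q.natDegree - i ≠ 0 := by omega
      simp [this]
    · intro h
      exact absurd (Finset.self_mem_range_succ _) h
  have hR1 : R.eval 1 = ((Q.eval 1 : ℤ) : ℝ) := by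
    rw [hR, eval_finsetSum, eval_eq_sum_range]
    push_cast
    simp
  exact ⟨_, RegL2S.reg ⟨_, R, by rw [hR0]; exact one_ne_zero, by rw [hR1]; exact_mod_cast hQ1,
    hA, rfl⟩⟩

end Pool.Agent.FFC
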