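import Pool.Agent.P.MP_a2beea_nt.FC.Null2
import Pool.Agent.P.MP_a2beea_nt.FC.RegL2
import Pool.Agent.P.MP_a2beea_nt.FC.LatB2
import Pool.Agent.P.MP_a2beea_nt.FC.CL3
import Pool.Agent.P.MP_a2beea_nt.FC.Ser

/-! The regularized sum. `BBm_twist2`: see `BBm_twist` (`ht_fr`, `II_eq`, `adm_ipt`).
`serB`: let `Y = single y 1`, `v a` from `abs_exists` for `D a` (`null_of_gram2`, `BBm_nonneg`,
`BBm_sg`). `abs_reg` for `X' = dvN tauLat = dvN N + Dgt` and `Dtot` (`Sht2.divN_f`, `BBm_divN`),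
`Reg.sum` and `Reg.unique` give `∑ v a = - BBm (dvN N) Y - BBm Dgt Y`. For each `a` and `n ≥ 1`,
`cF (D a) n y - mean a = htD (D a) q ^ n + (degD (D a) ht y - cI (D a) n y - mean a) - BBm (σ ^ n (D a)) Y`
(`tw_ne2`); the middle term is periodic with mean zero (`cL_periodic2`, `lev_lt_pow`); use
`reg_geom`, `reg_periodic`, `regP_const`, `reg_ilv`, and `BBm_twist2` with `n = 0` for `a > b`.
`meanI_eq`: `ht_lev`, `cL_sum_eq2`, `avg_sum`, `avg_const_mul`. `meanI_zero`: `cL_mean2`. -/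

open Polynomial
open scoped TensorProduct NNReal IntermediateField

namespace Pool.Agent.FFC

open Classical

variable {k : Type*} [Field k] [Fintype k] {E : Type*} [Field E] [Algebra k E] {t : E}
  {L : Type*} [Field L] [Algebra k L] [IsAlgClosed L]
  [IsDomain (L ⊗[k] E)]
  [Nonempty (GV k L)]
  {θ : L}
  {A A' : Subring L} {f : FL k E L} {I J N : AddSubgroup (FL k E L)}
  {D : ℕ → (E →ₐ[k] L) →₀ ℤ} {p l b : ℕ} {y : E →ₐ[k] L}
  {y' : E →ₐ[k] L}

theorem BBm_twist2 (h : FF k t) (P : PD k θ) {X : (E →ₐ[k] L) →₀ ℤ} {n : ℕ}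
    (hne : ∀ χ ∈ X.support, tw (fr k L ^ n) χ ≠ y) :
    BBm P t ((sg k E L ^ n) X) (Finsupp.single y 1) =
      (Fintype.card k : ℝ) ^ n * htD P t X + degD X * ht P t (Pt.ofHom y) - cI P X n y - cF P X n y := by
  have h1 : cI P X n y + cF P X n y = ∑ χ ∈ X.support,
      (X χ : ℝ) * ip P (Pt.ofHom (tw (fr k L ^ n) χ)) (Pt.ofHom y) := by
    have h2 := II_eq (adm_cL h P X n y)
    unfold cI cF
    rw [← h2]
    unfold cL
    simp only [Finsupp.sum]
    rw [II_sum P X.support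
      (Φ := fun χ v η => (X χ : ℝ) * ipt (P.W v η) (Pt.ofHom (tw (fr k L ^ n) χ)) (Pt.ofHom y))
      fun χ _ => (adm_ipt h P _ _).const_mul _]
    exact Finset.sum_congr rfl fun χ _ => II_const_mul P (adm_ipt h P _ _) _
  have h3 : (sg k E L ^ n) X = ∑ χ ∈ X.support, X χ • Finsupp.single (tw (fr k L ^ n) χ) 1 := by
    conv_lhs => rw [← Finsupp.sum_single X, Finsupp.sum, map_sum]
    refine Finset.sum_congr rfl fun χ _ => ?_
    rw [sg_pow_single, Finsupp.smul_single, smul_eq_mul, mul_one]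
  unfold htD degD
  rw [sub_sub, h1, h3, map_sum, LinearMap.sum_apply, Finsupp.sum, Finsupp.sum, Finset.mul_sum,
    Finset.sum_mul, ← Finset.sum_add_distrib, ← Finset.sum_sub_distrib]
  refine Finset.sum_congr rfl fun χ hχ => ?_
  have h4 := ht_fr P t (n : ℤ) (Pt.ofHom χ)
  rw [zpow_natCast, zpow_natCast, Pt.smul_ofHom] at h4
  rw [map_smul, LinearMap.smul_apply, BBm_single, zsmul_eq_mul]
  unfold kp
  rw [if_neg (hne χ hχ)]
  unfold kk
  rw [h4]
  ring

private theorem serB_w (P : PD k θ) (hS : Sht2 A t θ p l f I D) (hy : y t = θ ^ p ^ b)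
    (η : GG k θ) : 1 < (P.W none η).v (y t) := by
  rw [hy]
  exact one_lt_lev _ (W_inf_one_lt P η) hS.one_lt b

private theorem serB_lt (P : PD k θ) (hS : Sht2 A t θ p l f I D) (hb : b < l)
    (hy : y t = θ ^ p ^ b) (η : GG k θ) (a : ℕ) :
    ∀ χ ∈ (D a).support,
      (P.W none η).v (y t) < (P.W none η).v (χ t) ^ Fintype.card k := by
  intro χ hχ
  rw [hy, hS.leg a χ hχ]
  exact lev_lt_pow _ (W_inf_one_lt P η) hS.one_lt hS.pow_eq hb a

private theorem serB_avg (h : FF k t) (P : PD k θ) (X : (E →ₐ[k] L) →₀ ℤ) (F : ℕ)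
    (y : E →ₐ[k] L) :
    ∑ i ∈ Finset.range F, cI P X (i + 1) y =
      avg fun η => ∑ i ∈ Finset.range F, cL (P.W none η) X (i + 1) y := by
  unfold cI
  rw [← avg_sum P _ (Φ := fun i η => cL (P.W none η) X (i + 1) y)
    fun i _ => (adm_cL h P X (i + 1) y).1 none]

private theorem serB_loc (h : FF k t) (P : PD k θ) (X : (E →ₐ[k] L) →₀ ℤ) (F : ℕ)
    (y : E →ₐ[k] L) :
    Loc fun η : GG k θ => ∑ i ∈ Finset.range F, cL (P.W none η) X (i + 1) y :=
  Loc.sum _ (Φ := fun i η => cL (P.W none η) X (i + 1) y)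
    fun i _ => (adm_cL h P X (i + 1) y).1 none

theorem serB (h : FF k t) {g : ℕ} (hR : RR0 k t g) (P : PD k θ)
    (hfin : ∀ n, 1 ≤ n → {x : Pt k E L | x.O ≠ ⊤ ∧ (fr k L ^ n) • x = x}.Finite)
    (hS : Sht2 A t θ p l f I D) (hL : Lev A t θ p l f I D b A' N)
    {Q : ℤ[X]} (hQ : Q.Monic) (hQ1 : Q.eval 1 ≠ 0)
    (hQ0 : ∑ i ∈ Finset.range (Q.natDegree + 1), ∑ j ∈ Finset.range (Q.natDegree + 1),
      (Q.coeff i : ℝ) * Q.coeff j * gram k L E g i j = 0)
    {F : ℕ} (hF0 : 0 < F) (hF : ∀ x : Pt k E L, t ∉ x.O → (fr k L ^ F) • x = x)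
    (hy : y t = θ ^ p ^ b) :
    Reg (ilv l b fun a n => cF P (D a) n y - meanI P t (D a) F y)
      (-HB P t F l b D (dvN t N) y + degD (Dtot D l) * ht P t (Pt.ofHom y) +
        ((F : ℝ) + 1) / 2 * ∑ a ∈ Finset.range l, meanI P t (D a) F y -
        ∑ a ∈ Finset.Ico (b + 1) l, meanI P t (D a) F y) := by
  have hb : b < l := hL.lt
  have hq : (1 : ℝ) < Fintype.card k := by exact_mod_cast Fintype.one_lt_card
  have hF' : (F : ℝ) ≠ 0 := by exact_mod_cast hF0.ne'
  set Y : (E →ₐ[k] L) →₀ ℤ := Finsupp.single y 1 with hY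
  set X' := dvN t (tauLat A t f I) with hX'
  have hnull : ∀ a, BBm P t (aeval (sg k E L) Q (D a)) (aeval (sg k E L) Q (D a)) = 0 :=
    fun a => null_of_gram2 h hR P hfin hQ0 hS.pow_eq (hS.leg a)
  have hv : ∀ a, ∃ v, Reg (fun n => BBm P t ((sg k E L ^ n) (D a)) Y) v := fun a =>
    abs_exists (BBm P t) (BBm_comm P t) (BBm_nonneg h hR P) (sg k E L) (BBm_sg h P) hQ hQ1
      (hnull a) Y
  choose v hv using hv
  have hX : BBm P t (sg k E L X' - X' - sg k E L (Dtot D l)) = 0 := by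
    have e : sg k E L X' - X' - sg k E L (Dtot D l) = -divN f := by
      rw [hS.divN_f h, ← hX', map_sub]
      abel
    rw [e, map_neg]
    refine LinearMap.ext fun x => ?_
    rw [LinearMap.neg_apply, BBm_divN h hR P, neg_zero, LinearMap.zero_apply]
  have htot : BBm P t (aeval (sg k E L) Q (Dtot D l)) (aeval (sg k E L) Q (Dtot D l)) = 0 := by
    have h0 : ∀ a z, BBm P t (aeval (sg k E L) Q (D a)) z = 0 := by
      intro a z
      have := abs_cs (BBm P t) (BBm_comm P t) (BBm_nonneg h hR P) (aeval (sg k E L) Q (D a)) z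
      rw [hnull a, zero_mul] at this
      exact pow_eq_zero_iff (two_ne_zero) |>.mp (le_antisymm this (sq_nonneg _))
    generalize hz : aeval (sg k E L) Q (Dtot D l) = z
    conv_lhs => rw [← hz]; enter [1]; rw [Dtot, map_sum, map_sum]
    rw [LinearMap.sum_apply]
    exact Finset.sum_eq_zero fun a _ => h0 a _
  have h1 := abs_reg (BBm P t) (BBm_comm P t) (BBm_nonneg h hR P) (sg k E L) hq (BBm_sg h P) hQ
    hQ1 htot hX Y
  have h2 : ∑ a ∈ Finset.range l, v a = -BBm P t X' Y := by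
    refine Reg.unique (Reg.sum (Finset.range l) fun a _ => hv a) (h1.congr fun n _ => ?_)
    rw [Dtot, map_sum, map_sum, LinearMap.sum_apply]
  have h3 : BBm P t X' Y = BBm P t (dvN t N) Y +
      ∑ a ∈ Finset.Ico (b + 1) l, BBm P t (D a) Y := by
    rw [hX', hL.dvN_tau h hS, map_add, LinearMap.add_apply, Dgt, map_sum, LinearMap.sum_apply]
  have hper : ∀ a, Reg (fun n => (degD (D a) * ht P t (Pt.ofHom y) - meanI P t (D a) F y) -
        cI P (D a) n y)
      (-((degD (D a) * ht P t (Pt.ofHom y) - meanI P t (D a) F y) * (((F : ℝ) + 1) / 2)) -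
        regP F fun n => cI P (D a) n y) := by
    intro a
    rw [← regP_const hF0, ← regP_sub]
    refine reg_periodic hF0 (fun n hn => ?_) ?_
    · congr 1
      unfold cI
      congr 1
      funext η
      exact cL_periodic2 h _ (serB_w P hS hy η) (serB_lt P hS hb hy η a) hF hn
    · rw [Finset.sum_sub_distrib, Finset.sum_const, Finset.card_range, nsmul_eq_mul]
      unfold meanI
      field_simp
      ring
  have hlev : ∀ a < l, Reg (fun n => cF P (D a) n y - meanI P t (D a) F y)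
      (htD P t (D a) * ((Fintype.card k : ℝ) / (1 - (Fintype.card k : ℝ))) +
        (-((degD (D a) * ht P t (Pt.ofHom y) - meanI P t (D a) F y) * (((F : ℝ) + 1) / 2)) -
          regP F fun n => cI P (D a) n y) - v a) := by
    intro a _
    refine ((((reg_geom hq.ne').const_mul (htD P t (D a))).add (hper a)).sub (hv a)).congr
      fun n hn => ?_
    have hlt : b < l * n + a := by nlinarith
    rw [hY, BBm_twist2 h P fun χ hχ =>
      tw_ne2 hS.trans hS.one_lt hS.pow_eq (hS.leg a χ hχ) hy hlt]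
    ring
  have h4 := reg_ilv hb (c := fun a n => cF P (D a) n y - meanI P t (D a) F y) hlev
  have h5 : ∀ a ∈ Finset.Ico (b + 1) l, cF P (D a) 0 y - meanI P t (D a) F y =
      htD P t (D a) + degD (D a) * ht P t (Pt.ofHom y) - cI P (D a) 0 y - BBm P t (D a) Y -
        meanI P t (D a) F y := by
    intro a ha
    have hlt : b < l * 0 + a := by
      have := (Finset.mem_Ico.1 ha).1
      omega
    have := BBm_twist2 h P (n := 0) fun χ hχ =>
      tw_ne2 hS.trans hS.one_lt hS.pow_eq (hS.leg a χ hχ) hy hlt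
    rw [pow_zero, pow_zero, Module.End.one_apply, one_mul] at this
    rw [hY, this]
    ring
  rw [Finset.sum_congr rfl h5] at h4
  have e1 : htD P t (Dle D b) + htD P t (Dgt D l b) = ∑ a ∈ Finset.range l, htD P t (D a) := by
    rw [← htD_add, Dle_add_Dgt D hb, Dtot, htD_sum]
  have e2 : degD (Dle D b) + degD (Dgt D l b) = degD (Dtot D l) := by
    rw [← degD_add, Dle_add_Dgt D hb]
  have e3 : degD (Dtot D l) = ∑ a ∈ Finset.range l, degD (D a) := by rw [Dtot, degD_sum]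
  have e4 : degD (Dgt D l b) = ∑ a ∈ Finset.Ico (b + 1) l, degD (D a) := by rw [Dgt, degD_sum]
  have e5 : htD P t (Dgt D l b) = ∑ a ∈ Finset.Ico (b + 1) l, htD P t (D a) := by
    rw [Dgt, htD_sum]
  have e6 : cI P (Dgt D l b) 0 y = ∑ a ∈ Finset.Ico (b + 1) l, cI P (D a) 0 y := by
    rw [Dgt, cI_sum h]
  have e7 : regP F (fun n => cI P (Dtot D l) n y) =
      ∑ a ∈ Finset.range l, regP F fun n => cI P (D a) n y := by
    rw [← regP_sum]
    refine regP_congr F fun n _ => ?_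
    rw [Dtot, cI_sum h]
  simp only [Finset.sum_sub_distrib, Finset.sum_add_distrib, Finset.sum_neg_distrib,
    ← Finset.sum_mul] at h4
  rw [← e1, ← e3, ← e4, ← e5, ← e6, ← e7, h2, h3] at h4
  have hq1 : (Fintype.card k : ℝ) - 1 ≠ 0 := sub_ne_zero.2 hq.ne'
  have hq2 : 1 - (Fintype.card k : ℝ) ≠ 0 := sub_ne_zero.2 hq.ne
  refine Eq.mpr (congrArg _ ?_) h4
  unfold HB
  rw [← BBm_apply, ← hY, ← e2]
  field_simp
  ring

theorem meanI_eq (h : FF k t) (P : PD k θ) (hS : Sht2 A t θ p l f I D) {b' : ℕ} (hb : b < l)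
    (hb' : b' < l) (hy : y t = θ ^ p ^ b) (hy' : y' t = θ ^ p ^ b')
    (hO : ∀ η, redO (P.W none η) (Pt.ofHom y) = redO (P.W none η) (Pt.ofHom y')) {F : ℕ}
    (hF : ∀ x : Pt k E L, t ∉ x.O → (fr k L ^ F) • x = x) (a : ℕ) :
    (p : ℝ) ^ b' * meanI P t (D a) F y = (p : ℝ) ^ b * meanI P t (D a) F y' := by
  have hp : p ≠ 0 := by
    have := hS.one_lt
    omega
  have key : ((p ^ b' : ℕ) : ℝ) * ∑ i ∈ Finset.range F, cI P (D a) (i + 1) y =
      ((p ^ b : ℕ) : ℝ) * ∑ i ∈ Finset.range F, cI P (D a) (i + 1) y' := by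
    rw [serB_avg h, serB_avg h, ← avg_const_mul P (serB_loc h P (D a) F y),
      ← avg_const_mul P (serB_loc h P (D a) F y')]
    congr 1
    funext η
    exact cL_sum_eq2 h _ (W_inf_one_lt P η) (pow_ne_zero b hp) (pow_ne_zero b' hp) hy hy' (hO η)
      (serB_lt P hS hb hy η a) (serB_lt P hS hb' hy' η a) hF
  unfold meanI
  rw [ht_lev P hy, ht_lev P hy']
  push_cast at key ⊢
  rw [mul_sub, mul_sub, ← mul_div_assoc ((p : ℝ) ^ b'), ← mul_div_assoc ((p : ℝ) ^ b)
    (∑ i ∈ Finset.range F, cI P (D a) (i + 1) y'), key]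
  ring

theorem meanI_zero (h : FF k t) (P : PD k θ) (hS : Sht2 A t θ p l f I D) (hb : b < l)
    (hy : y t = θ ^ p ^ b)
    (hone : ∀ (η : GG k θ) (φ φ' : E →ₐ[k] L), φ t = y t → φ' t = y t →
      redO (P.W none η) (Pt.ofHom φ) = redO (P.W none η) (Pt.ofHom φ')) {F : ℕ} (hF0 : 0 < F)
    (hF : ∀ x : Pt k E L, t ∉ x.O → (fr k L ^ F) • x = x) (a : ℕ) :
    meanI P t (D a) F y = 0 := by
  have hF' : (F : ℝ) ≠ 0 := by exact_mod_cast hF0.ne'
  have e : (fun η : GG k θ => ∑ i ∈ Finset.range F, cL (P.W none η) (D a) (i + 1) y) =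
      fun _ => F * (((p ^ b : ℕ) : ℝ) * (Real.log (Fintype.card k) / dg k t)) * degD (D a) := by
    funext η
    rw [cL_mean2 h _ (serB_w P hS hy η) (hone η) (serB_lt P hS hb hy η a) hF, hy, map_pow,
      P.W_inf, NNReal.coe_pow, Real.log_pow, NNReal.coe_natCast, mul_div_assoc]
  unfold meanI
  rw [serB_avg h, e, avg_const, ht_lev P hy]
  field_simp
  ring

end Pool.Agent.FFC
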