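import Pool.Agent.P.MP_a2beea_nt.FC.MainB1
import Pool.Agent.P.MP_a2beea_nt.FC.BookB
import Pool.Agent.P.MP_a2beea_nt.FC.SerB
import Pool.Agent.P.MP_a2beea_nt.FC.Gal2b
import Pool.Agent.P.MP_a2beea_nt.FC.Res2

/-! The mean over a coset, and the series of the finite parts. -/

open Polynomial
open scoped TensorProduct NNReal IntermediateField

namespace Pool.Agent.FFC

open Classical

variable {k₀ : Type*} [Field k₀] [Fintype k₀] {E K : Type*} [Field E] [Field K]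
  [Algebra k₀ E] [Algebra k₀[X] E] [Algebra (RatFunc k₀) E] [IsScalarTower k₀ k₀[X] E]
  [IsScalarTower k₀[X] (RatFunc k₀) E]
  [Algebra k₀ K] [Algebra k₀[X] K] [Algebra (RatFunc k₀) K] [IsScalarTower k₀ k₀[X] K]
  [IsScalarTower k₀[X] (RatFunc k₀) K]
  [FiniteDimensional (RatFunc k₀) E] [Algebra.IsSeparable (RatFunc k₀) E]
  [FiniteDimensional (RatFunc k₀) K] [IsGalois (RatFunc k₀) K]
  {OE OK : Type*} [CommRing OE] [CommRing OK]
  [Algebra k₀ OE] [Algebra k₀[X] OE] [Algebra OE E] [IsScalarTower k₀ k₀[X] OE]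
  [IsScalarTower k₀[X] OE E] [IsIntegralClosure OE k₀[X] E]
  [Algebra k₀ OK] [Algebra k₀[X] OK] [Algebra OK K] [IsScalarTower k₀ k₀[X] OK]
  [IsScalarTower k₀[X] OK K] [IsIntegralClosure OK k₀[X] K]
  {L : Type*} [Field L] [Algebra k₀ L] [Algebra K L] [IsScalarTower k₀ K L] [IsAlgClosed L]
  [Algebra.IsAlgebraic K L]
  {k : Type*} [Field k] [Fintype k] [Algebra k₀ k] [Algebra k E] [IsScalarTower k₀ k E]
  [Algebra k L] [IsScalarTower k₀ k L]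
  [IsDomain (L ⊗[k] E)] [Nonempty (GV k L)]
  [Fintype (E →ₐ[RatFunc k₀] K)] {M : Type*} [AddCommGroup M] [Module (OK ⊗[k₀] OE) M]
  {τ : M →+ M} {d : (E →ₐ[RatFunc k₀] K) → ℕ}
  {ρ : OK ⊗[k₀] OE →+* FL k E L} {ε : ℕ → OK ⊗[k₀] OE}
  {μ : M →+ FL k E L} {f : FL k E L} {I : AddSubgroup (FL k E L)}
  {C : Type*} [NormedField C] [IsUltrametricDist C] [CompleteSpace C] [Algebra K C]
  {D : ℕ → (E →ₐ[k] L) →₀ ℤ} {n : ℕ} {e e' : Fin n → E}
  {φ : E →ₐ[RatFunc k₀] K} {b : ℕ} {y : E →ₐ[k] L} {ω : M}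

theorem ht_lift (P : PD k (th k₀ K L)) (hy : IsLift k₀ φ b y) :
    ht P (tE k₀ E) (Pt.ofHom y) =
      (Fintype.card k₀ : ℝ) ^ b * (Real.log (Fintype.card k) / dg k (tE k₀ E)) := by
  rw [ht_lev P hy.map_t]
  push_cast
  rfl

theorem starB (h : FF k (tE k₀ E)) {g : ℕ} (hR : RR0 k (tE k₀ E) g) (P : PD k (th k₀ K L))
    (hk : ∀ c : k, algebraMap k L c ∈ AK OK K L)
    (hρ : IsRho2 K ρ) (hε : IsIdem ρ (Module.finrank k₀ k) ε) (hM : IsCMMotive OE OK d τ)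
    (hμ : IsEmb2 ρ (Module.finrank k₀ k) ε τ μ f I)
    (hS : Sht2 (AK OK K L) (tE k₀ E) (th k₀ K L) (Fintype.card k₀) (Module.finrank k₀ k) f I D)
    (hL : ∀ b < (Module.finrank k₀ k), Lev (AK OK K L) (tE k₀ E) (th k₀ K L) (Fintype.card k₀)
      (Module.finrank k₀ k) f I D b (AKp k₀ OK K L b) (Nb k₀ OE OK τ μ b))
    (hd : DualB k (tE k₀ E) L e e') {F : ℕ} (hF0 : 0 < F)
    (hb : b < Module.finrank k₀ k) (hy : IsLift k₀ φ b y) (hω : ω ∈ eigen OE OK τ φ)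
    (hω' : ω ∉ dRKer k₀ OE OK τ) {T β : GG k (th k₀ K L) → ℝ} (hT : Loc T)
    (H : ∀ η, ((Module.finrank k₀ k : ℝ) * (Fintype.card k₀ : ℝ) ^ b * T η -
          Real.log ((P.W none η).v (val (Pt.ofHom y) (μ (τ^[b] ω))))) -
        dI (P.W none η) (tE k₀ E) (Nb k₀ OE OK τ μ b) y =
      Real.log (gauss (P.W none η) f) / ((Fintype.card k : ℝ) - 1) - β η +
        TT (P.W none η) f F (Dtot D (Module.finrank k₀ k)) y +
        cL (P.W none η) (Dgt D (Module.finrank k₀ k) b) 0 y) :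
    Loc β ∧ (Module.finrank k₀ k : ℝ) * (Fintype.card k₀ : ℝ) ^ b *
        (avg T - Real.log (dRIndex OE OK τ φ ω) / Nat.card (K ≃ₐ[RatFunc k₀] K)) =
      HB P (tE k₀ E) F (Module.finrank k₀ k) b D (dvN (tE k₀ E) (Nb k₀ OE OK τ μ b)) y - avg β +
        (degL (tE k₀ E) I - degL (tE k₀ E) (J0 k (AK OK K L) (tE k₀ E) e')) *
          ((Fintype.card k₀ : ℝ) ^ b * (Real.log (Fintype.card k) / dg k (tE k₀ E))) := by
  have hA : ∀ π η, ∀ c ∈ AK OK K L, (P.W (some π) η).v c ≤ 1 := fun π η c hc =>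
    AK_le_one2 _ (P.W_fin_le π η) hc
  have hv := (adm_log P (val (Pt.ofHom y) (μ (τ^[b] ω)))).1 none
  have hT' : Loc fun η => (Module.finrank k₀ k : ℝ) * (Fintype.card k₀ : ℝ) ^ b * T η :=
    hT.comp fun a => (Module.finrank k₀ k : ℝ) * (Fintype.card k₀ : ℝ) ^ b * a
  obtain ⟨hβ, e4⟩ := bookB h hR P hS (hL b hb) hA hF0 hy.map_t
    (hT'.comp₂ hv fun a b => a - b) H
  refine ⟨hβ, ?_⟩
  rw [avg_sub P hT' hv, avg_const_mul P hT, ht_lift P hy] at e4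
  have e2 := prod_formula P (val (Pt.ofHom y) (μ (τ^[b] ω)))
  rw [II_eq (adm_log P _)] at e2
  have e3 := Ifin_dif2 h hR hd P (A := AKp k₀ OK K L b) (const_mem_AKp hk b)
    (fun π η c hc => hA π η c (AKp_le b hc)) (pow_ne_zero b Fintype.card_ne_zero) hy.map_t
    (fun a ha => hy.mem_AKp OK ha)
  rw [degL_J0 h hd (AKp k₀ OK K L b) (AK OK K L), ht_lift P hy] at e3
  have e5 := (idx_formula2 h hρ hε hM hμ hS hL P hb hy hω hω').2
  have hn : (Nat.card (K ≃ₐ[RatFunc k₀] K) : ℝ) = Module.finrank (RatFunc k₀) K := by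
    exact_mod_cast IsGalois.card_aut_eq_finrank (RatFunc k₀) K
  have hn0 : (Nat.card (K ≃ₐ[RatFunc k₀] K) : ℝ) ≠ 0 := by
    exact_mod_cast (Nat.card_pos (α := K ≃ₐ[RatFunc k₀] K)).ne'
  rw [mul_sub, ← mul_div_assoc, e5, ← hn, mul_div_cancel_left₀ _ hn0, e3]
  linarith

theorem serC (h : FF k (tE k₀ E)) {g : ℕ} (hR : RR0 k (tE k₀ E) g) (P : PD k (th k₀ K L))
    (P₀ : PD k₀ (th k₀ K L))
    (hfin : ∀ n, 1 ≤ n → {x : Pt k E L | x.O ≠ ⊤ ∧ (fr k L ^ n) • x = x}.Finite)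
    (hS : Sht2 (AK OK K L) (tE k₀ E) (th k₀ K L) (Fintype.card k₀) (Module.finrank k₀ k) f I
      (legs2 k₀ k L d))
    {A' : Subring L} {N : AddSubgroup (FL k E L)}
    (hL : Lev (AK OK K L) (tE k₀ E) (th k₀ K L) (Fintype.card k₀)
      (Module.finrank k₀ k) f I (legs2 k₀ k L d) b A' N)
    {Q : ℤ[X]} (hQ : Q.Monic) (hQ1 : Q.eval 1 ≠ 0)
    (hQ0 : ∑ i ∈ Finset.range (Q.natDegree + 1), ∑ j ∈ Finset.range (Q.natDegree + 1),
      (Q.coeff i : ℝ) * Q.coeff j * gram k L E g i j = 0)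
    {F : ℕ} (hF0 : 0 < F) (hF : ∀ x : Pt k E L, tE k₀ E ∉ x.O → (fr k L ^ F) • x = x)
    (hy : IsLift k₀ φ b y) {𝔓 : FinPl k₀ → Ideal OK}
    (hP : ∀ π, (𝔓 π).IsMaximal ∧ algebraMap k₀[X] OK π.1 ∈ 𝔓 π) {ν : ℕ → ℝ}
    (hν : ∀ a, meanI P (tE k₀ E) (legs2 k₀ k L d a) F y =
      (Module.finrank k₀ k : ℝ) * (Fintype.card k₀ : ℝ) ^ b * ν a) :
    Reg (fun m => (∑ᶠ π ∈ {π : FinPl k₀ | π.1.natDegree ∣ m},
        Real.log ((Fintype.card k₀ : ℝ) ^ π.1.natDegree) *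
          ((∑ᶠ g ∈ frobSet k₀ K (𝔓 π) m, a0 d φ g⁻¹) / (frobSet k₀ K (𝔓 π) m).ncard)) -
        ν ((m + b) % Module.finrank k₀ k))
      ((-HB P (tE k₀ E) F (Module.finrank k₀ k) b (legs2 k₀ k L d) (dvN (tE k₀ E) N) y /
          ((Module.finrank k₀ k : ℝ) * (Fintype.card k₀ : ℝ) ^ b) +
        degD (Dtot (legs2 k₀ k L d) (Module.finrank k₀ k)) *
          (Real.log (Fintype.card k) / dg k (tE k₀ E)) / Module.finrank k₀ k) +
        ((F : ℝ) + 1) / 2 * ∑ a ∈ Finset.range (Module.finrank k₀ k), ν a -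
        ∑ a ∈ Finset.Ico (b + 1) (Module.finrank k₀ k), ν a) := by
  have hl : (Module.finrank k₀ k : ℝ) ≠ 0 := by exact_mod_cast (finrank_pos2 k₀ k).ne'
  have hp : (Fintype.card k₀ : ℝ) ^ b ≠ 0 :=
    pow_ne_zero _ (by exact_mod_cast Fintype.card_ne_zero)
  have h1 := (serB h hR P hfin hS hL hQ hQ1 hQ0 hF0 hF hy.map_t).const_mul
    ((Module.finrank k₀ k : ℝ) * (Fintype.card k₀ : ℝ) ^ b)⁻¹
  simp only [hν, ← Finset.mul_sum, ht_lift P hy] at h1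
  convert h1.congr (fun m hm => ?_) using 1
  · field_simp
  · simp only [ilv]
    rw [cF2 h P P₀ d hP hy hm (Nat.div_add_mod _ _).symm]
    field_simp

end Pool.Agent.FFC
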