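import Pool.Agent.P.MP_a2beea_nt.FC.MainB2
import Pool.Agent.P.MP_a2beea_nt.FC.MainA
import Pool.Agent.P.MP_a2beea_nt.FC.Idem
import Pool.Agent.P.MP_a2beea_nt.FC.EmbB

/-! The two formulas on one coset of the geometric Galois group. -/

open Polynomial
open scoped TensorProduct NNReal IntermediateField

namespace Pool.Agent.FFC

open Classical

variable {k₀ : Type*} [Field k₀] [Fintype k₀] {E K : Type*} [Field E] [Field K]
  [Algebra k₀ E] [Algebra k₀[X] E] [Algebra (RatFunc k₀) E] [IsScalarTower k₀ k₀[X] E]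
  [IsScalarTower k₀[X] (RatFunc k₀) E]
  [Algebra k₀ K] [Algebra k₀[X] K] [Algebra (RatFunc k₀) K] [IsScalarTower k₀ k₀[X] K]
  [IsScalarTower k₀[X] (RatFunc k₀) K]
  [FiniteDimensional (RatFunc k₀) E] [Algebra.IsSeparable (RatFunc k₀) E]
  [FiniteDimensional (RatFunc k₀) K] [IsGalois (RatFunc k₀) K]
  {OE OK : Type*} [CommRing OE] [CommRing OK]
  [Algebra k₀ OE] [Algebra k₀[X] OE] [Algebra OE E] [IsScalarTower k₀ k₀[X] OE]
  [IsScalarTower k₀[X] OE E] [IsIntegralClosure OE k₀[X] E]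
  [Algebra k₀ OK] [Algebra k₀[X] OK] [Algebra OK K] [IsScalarTower k₀ k₀[X] OK]
  [IsScalarTower k₀[X] OK K] [IsIntegralClosure OK k₀[X] K]
  {L : Type*} [Field L] [Algebra k₀ L] [Algebra K L] [IsScalarTower k₀ K L] [IsAlgClosed L]
  [Algebra.IsAlgebraic K L]
  {k : Type*} [Field k] [Fintype k] [Algebra k₀ k] [Algebra k E] [IsScalarTower k₀ k E]
  [Algebra k L] [IsScalarTower k₀ k L]
  [IsDomain (L ⊗[k] E)] [Nonempty (GV k L)]
  [Fintype (E →ₐ[RatFunc k₀] K)] {M : Type*} [AddCommGroup M] [Module (OK ⊗[k₀] OE) M]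
  {τ : M →+ M} {d : (E →ₐ[RatFunc k₀] K) → ℕ}
  {ρ : OK ⊗[k₀] OE →+* FL k E L} {ε : ℕ → OK ⊗[k₀] OE}
  {μ : M →+ FL k E L} {f : FL k E L} {I : AddSubgroup (FL k E L)}
  {C : Type*} [NormedField C] [IsUltrametricDist C] [CompleteSpace C] [Algebra K C]

omit [Nonempty (GV k L)] in
variable (k) in
theorem exists_jP (j₀ : L →+* C) (hjK : ∀ x : K, j₀ (algebraMap K L x) = algebraMap K C x)
    (hdense : DenseRange j₀) (hθ : ‖algebraMap K C (algebraMap k₀[X] K X)‖ = Fintype.card k₀)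
    (δ : K ≃ₐ[RatFunc k₀] K) :
    ∃ (j : L →+* C) (P : PD k (th k₀ K L)),
      (∀ x : K, j (algebraMap K L x) = algebraMap K C (δ x)) ∧ DenseRange j ∧
        ∀ x, ((P.V none).v x : ℝ) = ‖j x‖ ^ Module.finrank k₀ k := by
  obtain ⟨g, hg⟩ := exists_aut L δ
  have hj : ∀ x : K, (j₀.comp (g : L →+* L)) (algebraMap K L x) = algebraMap K C (δ x) := by
    intro x
    rw [← hjK, ← hg]; rfl
  have h1 : ‖(j₀.comp (g : L →+* L)) (th k₀ K L)‖ = Fintype.card k₀ := by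
    rw [j_theta hj, hθ]
  obtain ⟨w, hw⟩ := exists_GV_pow k (j₀.comp (g : L →+* L))
    (by rw [h1]; exact_mod_cast Fintype.one_lt_card) (finrank_pos2 k₀ k).ne'
  obtain ⟨P, hP⟩ := exists_PD (th_trans2 (k₀ := k₀) (K := K) (L := L) (k := k)) th_alg2 w
    (NNReal.eq (by rw [hw, h1, ← card_pow k₀ k]; push_cast; rfl))
  refine ⟨j₀.comp (g : L →+* L), P, hj, ?_, fun x => by rw [hP, hw]⟩
  have : Set.range (j₀.comp (g : L →+* L)) = Set.range j₀ := by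
    ext c
    constructor
    · rintro ⟨x, rfl⟩; exact ⟨g x, rfl⟩
    · rintro ⟨x, rfl⟩; exact ⟨g.symm x, by simp⟩
  unfold DenseRange
  rw [this]; exact hdense

/-- The data at all the places of one coset. -/
theorem cosetB [IsAlgClosed C] (h : FF k (tE k₀ E)) (hk : ∀ c : k, algebraMap k L c ∈ AK OK K L)
    (hρ : IsRho2 K ρ) (hε : IsIdem ρ (Module.finrank k₀ k) ε) (hM : IsCMMotive OE OK d τ)
    (hμ : IsEmb2 ρ (Module.finrank k₀ k) ε τ μ f I) {D : ℕ → (E →ₐ[k] L) →₀ ℤ}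
    (hS : Sht2 (AK OK K L) (tE k₀ E) (th k₀ K L) (Fintype.card k₀) (Module.finrank k₀ k) f I D)
    (hL : ∀ b < (Module.finrank k₀ k), Lev (AK OK K L) (tE k₀ E) (th k₀ K L) (Fintype.card k₀)
      (Module.finrank k₀ k) f I D b (AKp k₀ OK K L b) (Nb k₀ OE OK τ μ b))
    {n : ℕ} {e e' : Fin n → E} (hd : DualB k (tE k₀ E) L e e') {δ : K ≃ₐ[RatFunc k₀] K}
    (j : L →+* C) (hj : ∀ x : K, j (algebraMap K L x) = algebraMap K C (δ x))
    (hdense : DenseRange j) (P : PD k (th k₀ K L))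
    (hP : ∀ x, ((P.V none).v x : ℝ) = ‖j x‖ ^ Module.finrank k₀ k)
    (hθ : 1 < ‖algebraMap K C (algebraMap k₀[X] K X)‖)
    {res : GG k (th k₀ K L) →* (K ≃ₐ[RatFunc k₀] K)} (hres : IsRes2 res) {F : ℕ}
    (hF0 : 0 < F) (hF : ∀ x : Pt k E L, tE k₀ E ∉ x.O → (fr k L ^ F) • x = x)
    {u : (K ≃ₐ[RatFunc k₀] K) → M →+ PowerSeries C}
    (hu : ∀ η, IsCycle (k := k₀) (OE := OE) (OK := OK) τ η (u η) ∧ u η ≠ 0) :
    (∀ (η : GG k (th k₀ K L)) (x : K), ((P.W none η).v (algebraMap K L x) : ℝ) =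
      ‖algebraMap K C ((δ * res η) x)‖ ^ Module.finrank k₀ k) ∧
    ∃ e₀ : GG k (th k₀ K L) → Pt k E L → ℝ, ∀ η,
      bettiIndex k₀ OE OK τ (δ * res η) (u (δ * res η)) ≠ 0 ∧
      ∑ᶠ x ∈ {x : Pt k E L | tE k₀ E ∉ x.O}, e₀ η x =
        degL (tE k₀ E) I - degL (tE k₀ E) (J0 k (AK OK K L) (tE k₀ E) e') -
          Real.log (bettiIndex k₀ OE OK τ (δ * res η) (u (δ * res η))) /
            Real.log (Fintype.card k) ∧
      ∀ (φ : E →ₐ[RatFunc k₀] K) (b : ℕ) (y : E →ₐ[k] L) (ω : M), b < Module.finrank k₀ k →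
        IsLift k₀ φ b y → ω ∈ eigen OE OK τ φ → ω ∉ dRKer k₀ OE OK τ →
        ∃ z : C, HasSum (fun m => PowerSeries.coeff m (u (δ * res η) ω) *
            algebraMap K C (algebraMap k₀[X] K X) ^ m) z ∧ z ≠ 0 ∧
          ((Module.finrank k₀ k : ℝ) * (Fintype.card k₀ : ℝ) ^ b * Real.log ‖z‖ -
              Real.log ((P.W none η).v (val (Pt.ofHom y) (μ (τ^[b] ω))))) -
            dI (P.W none η) (tE k₀ E) (Nb k₀ OE OK τ μ b) y =
          Real.log (gauss (P.W none η) f) / ((Fintype.card k : ℝ) - 1) -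
            meanE (P.W none η) (e₀ η) (Dtot D (Module.finrank k₀ k)) F y +
            TT (P.W none η) f F (Dtot D (Module.finrank k₀ k)) y +
            cL (P.W none η) (Dgt D (Module.finrank k₀ k) b) 0 y := by
  have hW : ∀ (η : GG k (th k₀ K L)) (x : L),
      ((P.W none η).v x : ℝ) = ‖(j.comp (η.1 : L →+* L)) x‖ ^ Module.finrank k₀ k :=
    fun η x => hP (η.1 x)
  have hjη : ∀ (η : GG k (th k₀ K L)) (x : K),
      (j.comp (η.1 : L →+* L)) (algebraMap K L x) = algebraMap K C ((δ * res η) x) := by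
    intro η x
    rw [AlgEquiv.mul_apply, ← hj, hres η x]; rfl
  refine ⟨fun η x => by rw [hW, hjη], ?_⟩
  have key := fun η : GG k (th k₀ K L) =>
    locB h hk hρ hε hM hμ hS hL hd (j.comp (η.1 : L →+* L)) (hjη η) (P.W none η) (hW η) hθ
      (by
        have : Set.range (j.comp (η.1 : L →+* L)) = Set.range j := by
          ext c
          constructor
          · rintro ⟨x, rfl⟩; exact ⟨η.1 x, rfl⟩
          · rintro ⟨x, rfl⟩; exact ⟨η.1.symm x, by simp⟩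
        unfold DenseRange
        rw [this]; exact hdense) hF0 hF (hu (δ * res η)).1 (hu (δ * res η)).2
  choose e₀ he₀ using key
  exact ⟨e₀, he₀⟩

theorem redO_lift (w : GV k L) {φ φ' : E →ₐ[RatFunc k₀] K} {b b' : ℕ} {y y' : E →ₐ[k] L}
    (hy : IsLift k₀ φ b y) (hy' : IsLift k₀ φ' b' y')
    (hw : ∀ a, w.v (algebraMap K L (φ a)) = w.v (algebraMap K L (φ' a))) :
    redO w (Pt.ofHom y) = redO w (Pt.ofHom y') := by
  ext a
  simp only [mem_redO, Pt.ofHom_O, Pt.ofHom_ev, hy a, hy' a, map_pow, hw a,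
    pow_le_one_iff (pow_ne_zero _ (Fintype.card_ne_zero (α := k₀)))]

/-- The formula with absolute periods on one coset. -/
theorem cosetA [IsAlgClosed C] (h : FF k (tE k₀ E)) (j₀ : L →+* C)
    (hjK : ∀ x : K, j₀ (algebraMap K L x) = algebraMap K C x) (hdense : DenseRange j₀)
    (hθ : ‖algebraMap K C (algebraMap k₀[X] K X)‖ = Fintype.card k₀) (P₀ : PD k₀ (th k₀ K L))
    {res : GG k (th k₀ K L) →* (K ≃ₐ[RatFunc k₀] K)} (hres : IsRes2 res)
    (hone : ∀ (φ φ' : E →ₐ[RatFunc k₀] K) (x : E),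
      ‖algebraMap K C (φ' x)‖ = ‖algebraMap K C (φ x)‖)
    (hM : IsCMMotive OE OK d τ) (ψ : E →ₐ[RatFunc k₀] K) {ω : M}
    (hω : ω ∈ eigen OE OK τ ψ ∧ ω ∉ dRKer k₀ OE OK τ)
    {u : (K ≃ₐ[RatFunc k₀] K) → M →+ PowerSeries C}
    (hu : ∀ η, IsCycle (k := k₀) (OE := OE) (OK := OK) τ η (u η) ∧ u η ≠ 0)
    {𝔓 : FinPl k₀ → Ideal OK} (h𝔓 : ∀ π, (𝔓 π).IsMaximal ∧ algebraMap k₀[X] OK π.1 ∈ 𝔓 π)
    {p : (K ≃ₐ[RatFunc k₀] K) → C}
    (hp : ∀ g, p g = ∑' n, PowerSeries.coeff n (u g ω) * algebraMap K C (algebraMap k₀[X] K X) ^ n)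
    (δ : K ≃ₐ[RatFunc k₀] K) :
    (HasSum (fun n => PowerSeries.coeff n (u δ ω) *
        algebraMap K C (algebraMap k₀[X] K X) ^ n) (p δ) ∧ p δ ≠ 0 ∧
      bettiIndex k₀ OE OK τ δ (u δ) ≠ 0) ∧ dRIndex OE OK τ ψ ω ≠ 0 ∧
    ∃ v, Reg (fun m => ∑ᶠ π ∈ {π : FinPl k₀ | π.1.natDegree ∣ m},
        Real.log ((Fintype.card k₀ : ℝ) ^ π.1.natDegree) *
          ((∑ᶠ g ∈ frobSet k₀ K (𝔓 π) m, a0 d ψ g⁻¹) / (frobSet k₀ K (𝔓 π) m).ncard)) v ∧
      avg (fun η => Real.log ‖p (δ * res η)‖ -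
        Real.log (bettiIndex k₀ OE OK τ (δ * res η) (u (δ * res η))) /
          Module.finrank (RatFunc k₀) E) =
        Real.log (dRIndex OE OK τ ψ ω) / Nat.card (K ≃ₐ[RatFunc k₀] K) - v := by
  obtain ⟨j, P, hj, hdj, hP⟩ := exists_jP k j₀ hjK hdense hθ δ
  have hθ1 : 1 < ‖algebraMap K C (algebraMap k₀[X] K X)‖ := by
    rw [hθ]; exact_mod_cast Fintype.one_lt_card
  obtain ⟨g, m0, h1, h2, hfin, hz⟩ := rr_zeta (L := L) h
  have hR : RR0 k (tE k₀ E) g := ⟨h2, m0, h1⟩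
  obtain ⟨Q, hQ, hQ1, hQ0⟩ := hz (gram_bound h hR P hfin)
  have hk := const_mem_AK OK (L := L) (k := k) ψ
  obtain ⟨ρ, hρ⟩ := exists_rho2 k₀ E K OE OK L k
  obtain ⟨ε, hε⟩ := exists_idem hk hρ
  obtain ⟨μ, f, I, hμ, hS, hL⟩ := exists_sht2 h hR P hk hρ hε hM
  obtain ⟨F, hF0, hF⟩ := exists_period (L := L) h
  obtain ⟨nn, e, e', hd⟩ := exists_dualB h L
  obtain ⟨b, hb, y, hy⟩ := exists_lift L k ψ
  obtain ⟨hW, e₀, he₀⟩ := cosetB h hk hρ hε hM hμ hS hL hd j hj hdj P hP hθ1 hres hF0 hF hu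
  choose z hz1 hz2 hz3 using fun η => (he₀ η).2.2 ψ b y ω hb hy hω.1 hω.2
  have hzp : ∀ η, z η = p (δ * res η) := fun η => by rw [hp]; exact (hz1 η).tsum_eq.symm
  simp only [hzp] at hz1 hz2 hz3
  have hred : ∀ (η : GG k (th k₀ K L)) (χ χ' : E →ₐ[k] L), χ (tE k₀ E) = y (tE k₀ E) →
      χ' (tE k₀ E) = y (tE k₀ E) →
      redO (P.W none η) (Pt.ofHom χ) = redO (P.W none η) (Pt.ofHom χ') := by
    intro η χ χ' hχ hχ'
    obtain ⟨φ, hφ⟩ := lift_surj ψ (hχ.trans hy.map_t)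
    obtain ⟨φ', hφ'⟩ := lift_surj ψ (hχ'.trans hy.map_t)
    refine redO_lift _ hφ hφ' fun a => NNReal.eq ?_
    rw [hW, hW]
    exact congrArg (· ^ Module.finrank k₀ k)
      (hone ((δ * res η).toAlgHom.comp φ') ((δ * res η).toAlgHom.comp φ) a)
  refine ⟨?_, (idx_formula2 h hρ hε hM hμ hS hL P hb hy hω.1 hω.2).1, ?_⟩
  · have h3 := hz1 1
    have h3' := hz2 1
    have h4 := (he₀ 1).1
    rw [map_one, mul_one] at h3 h3' h4
    exact ⟨h3, h3', h4⟩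
  have hT : Loc fun η => Real.log ‖p (δ * res η)‖ := hres.loc fun g => Real.log ‖p (δ * g)‖
  have hB : Loc fun η => Real.log (bettiIndex k₀ OE OK τ (δ * res η) (u (δ * res η))) :=
    hres.loc fun g => Real.log (bettiIndex k₀ OE OK τ (δ * g) (u (δ * g)))
  obtain ⟨-, e1⟩ := starB h hR P hk hρ hε hM hμ hS hL hd hF0 hb hy hω.1 hω.2 hT hz3
  have hq : Real.log (Fintype.card k) ≠ 0 :=
    (Real.log_pos (by exact_mod_cast Fintype.one_lt_card)).ne'
  have hβ : ∀ η, meanE (P.W none η) (e₀ η) (Dtot (legs2 k₀ k L d) (Module.finrank k₀ k)) F y =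
      (Fintype.card k₀ : ℝ) ^ b * (Real.log (Fintype.card k) / dg k (tE k₀ E)) *
          (degL (tE k₀ E) I - degL (tE k₀ E) (J0 k (AK OK K L) (tE k₀ E) e') +
            degD (Dtot (legs2 k₀ k L d) (Module.finrank k₀ k))) -
        (Fintype.card k₀ : ℝ) ^ b / dg k (tE k₀ E) *
          Real.log (bettiIndex k₀ OE OK τ (δ * res η) (u (δ * res η))) := by
    intro η
    have h5 : 1 < (P.W none η).v (y (tE k₀ E)) := by
      rw [hy.map_t]; exact one_lt_lev _ (W_inf_one_lt P η) hS.one_lt b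
    rw [meanE_one h _ h5 (hred η) (fun χ hχ => by
      obtain ⟨a, -, ha⟩ := hS.lev_of_mem hχ
      rw [ha]; exact one_lt_lev _ (W_inf_one_lt P η) hS.one_lt a) hF0 hF, (he₀ η).2.1, hy.map_t,
      map_pow, P.W_inf]
    push_cast
    rw [Real.log_pow]
    push_cast
    field_simp
    ring
  simp only [hβ] at e1
  rw [avg_sub P (Loc.const _) (hB.comp fun a => (Fintype.card k₀ : ℝ) ^ b / dg k (tE k₀ E) * a),
    avg_const, avg_const_mul P hB] at e1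
  have e2 := serC h hR P P₀ hfin hS (hL b hb) hQ hQ1 hQ0 hF0 hF hy h𝔓 (ν := fun _ => 0)
    (fun a => by rw [meanI_zero h P hS hb hy.map_t hred hF0 hF, mul_zero])
  simp only [sub_zero, Finset.sum_const_zero, mul_zero, add_zero] at e2
  refine ⟨_, e2, ?_⟩
  have e3 : avg (fun η => Real.log ‖p (δ * res η)‖ -
        Real.log (bettiIndex k₀ OE OK τ (δ * res η) (u (δ * res η))) /
          Module.finrank (RatFunc k₀) E) = avg (fun η => Real.log ‖p (δ * res η)‖) -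
        (Module.finrank (RatFunc k₀) E : ℝ)⁻¹ *
          avg fun η => Real.log (bettiIndex k₀ OE OK τ (δ * res η) (u (δ * res η))) := by
    rw [← avg_const_mul P hB, ← avg_sub P hT (hB.comp fun a => _ * a)]
    simp only [div_eq_inv_mul]
  have hl : (Module.finrank k₀ k : ℝ) ≠ 0 := by exact_mod_cast (finrank_pos2 k₀ k).ne'
  have hp0 : (Fintype.card k₀ : ℝ) ^ b ≠ 0 :=
    pow_ne_zero _ (by exact_mod_cast Fintype.card_ne_zero)
  rw [e3, dg2 k]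
  push_cast
  have e4 := congrArg (· / ((Module.finrank k₀ k : ℝ) * (Fintype.card k₀ : ℝ) ^ b)) e1
  simp only [mul_div_cancel_left₀ _ (mul_ne_zero hl hp0)] at e4
  rw [sub_eq_iff_eq_add.1 e4]
  field_simp
  ring

end Pool.Agent.FFC
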