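import Pool.Agent.P.MP_a2beea_nt.FC.MainB3

/-! The formula for the ratios on one coset. -/

open Polynomial
open scoped TensorProduct NNReal IntermediateField

namespace Pool.Agent.FFC

open Classical

variable {k₀ : Type*} [Field k₀] [Fintype k₀] {E K : Type*} [Field E] [Field K]
  [Algebra k₀ E] [Algebra k₀[X] E] [Algebra (RatFunc k₀) E] [IsScalarTower k₀ k₀[X] E]
  [IsScalarTower k₀[X] (RatFunc k₀) E]
  [Algebra k₀ K] [Algebra k₀[X] K] [Algebra (RatFunc k₀) K] [IsScalarTower k₀ k₀[X] K]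
  [IsScalarTower k₀[X] (RatFunc k₀) K]
  [FiniteDimensional (RatFunc k₀) E] [Algebra.IsSeparable (RatFunc k₀) E]
  [FiniteDimensional (RatFunc k₀) K] [IsGalois (RatFunc k₀) K]
  {OE OK : Type*} [CommRing OE] [CommRing OK]
  [Algebra k₀ OE] [Algebra k₀[X] OE] [Algebra OE E] [IsScalarTower k₀ k₀[X] OE]
  [IsScalarTower k₀[X] OE E] [IsIntegralClosure OE k₀[X] E]
  [Algebra k₀ OK] [Algebra k₀[X] OK] [Algebra OK K] [IsScalarTower k₀ k₀[X] OK]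
  [IsScalarTower k₀[X] OK K] [IsIntegralClosure OK k₀[X] K]
  {L : Type*} [Field L] [Algebra k₀ L] [Algebra K L] [IsScalarTower k₀ K L] [IsAlgClosed L]
  [Algebra.IsAlgebraic K L]
  {k : Type*} [Field k] [Fintype k] [Algebra k₀ k] [Algebra k E] [IsScalarTower k₀ k E]
  [Algebra k L] [IsScalarTower k₀ k L]
  [IsDomain (L ⊗[k] E)] [Nonempty (GV k L)]
  [Fintype (E →ₐ[RatFunc k₀] K)] {M : Type*} [AddCommGroup M] [Module (OK ⊗[k₀] OE) M]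
  {τ : M →+ M} {d : (E →ₐ[RatFunc k₀] K) → ℕ}
  {ρ : OK ⊗[k₀] OE →+* FL k E L} {ε : ℕ → OK ⊗[k₀] OE}
  {μ : M →+ FL k E L} {f : FL k E L} {I : AddSubgroup (FL k E L)}
  {C : Type*} [NormedField C] [IsUltrametricDist C] [CompleteSpace C] [Algebra K C]

theorem sum_cls_c (F : IntermediateField (RatFunc k₀) E) {m : ℕ}
    (hd : ∀ φ, ∑ᶠ φ' ∈ cls F φ, d φ' = m)
    {𝔓 : FinPl k₀ → Ideal OK} (hP : ∀ π, (𝔓 π).IsMaximal ∧ algebraMap k₀[X] OK π.1 ∈ 𝔓 π)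
    (ψ : E →ₐ[RatFunc k₀] K) (S : Finset (E →ₐ[RatFunc k₀] K)) (hS : cls F ψ = S) {n : ℕ}
    (hn : 1 ≤ n) :
    ∑ φ ∈ S, (∑ᶠ π ∈ {π : FinPl k₀ | π.1.natDegree ∣ n},
        Real.log ((Fintype.card k₀ : ℝ) ^ π.1.natDegree) *
          ((∑ᶠ g ∈ frobSet k₀ K (𝔓 π) n, a0 d φ g⁻¹) / (frobSet k₀ K (𝔓 π) n).ncard)) =
      m * Real.log (Fintype.card k₀) * (Fintype.card k₀ : ℝ) ^ n := by
  have hfin := finPl_finite (k := k₀) hn
  simp only [finsum_mem_eq_finite_toFinset_sum _ hfin]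
  rw [Finset.sum_comm]
  have h2 : ∀ π ∈ hfin.toFinset, ∑ φ ∈ S, Real.log ((Fintype.card k₀ : ℝ) ^ π.1.natDegree) *
        ((∑ᶠ g ∈ frobSet k₀ K (𝔓 π) n, a0 d φ g⁻¹) / (frobSet k₀ K (𝔓 π) n).ncard) =
      m * Real.log ((Fintype.card k₀ : ℝ) ^ π.1.natDegree) := by
    intro π hπ
    have hdv : π.1.natDegree ∣ n := by simpa using hπ
    have hne := frobSet_nonempty (K := K) (hP π).1 (hP π).2 hdv
    have hf : (frobSet k₀ K (𝔓 π) n).Finite := Set.toFinite _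
    have hc : ((frobSet k₀ K (𝔓 π) n).ncard : ℝ) ≠ 0 := by
      exact_mod_cast ((Set.ncard_pos hf).mpr hne).ne'
    rw [← Finset.mul_sum, ← Finset.sum_div]
    simp only [finsum_mem_eq_finite_toFinset_sum _ hf]
    rw [Finset.sum_comm]
    have h3 : ∀ g ∈ hf.toFinset, ∑ φ ∈ S, a0 d φ g⁻¹ = m := by
      intro g _
      rw [← sum_cls_a0 F hd ψ g⁻¹, hS, finsum_mem_coe_finset]
    rw [Finset.sum_congr rfl h3, Finset.sum_const, nsmul_eq_mul,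
      ← Set.ncard_eq_toFinset_card _ hf]
    field_simp
  rw [Finset.sum_congr rfl h2, ← Finset.mul_sum, ← finsum_mem_eq_finite_toFinset_sum _ hfin,
    finPl_sum hn, mul_assoc]

theorem cosetR_alg {l a a' T x H β c h D : ℝ} (hl : l ≠ 0) (ha : a ≠ 0) (ha' : a' ≠ 0)
    (e : l * a * (T - x) = H - a / a' * β + c * (a * h)) :
    -H / (l * a) + D * h / l = (x - T) + ((c + D) * h - β / a') / l := by
  have : H = l * a * (T - x) + a / a' * β - c * (a * h) := by linarith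
  rw [this]
  field_simp
  ring

theorem cosetR_alg2 {r q m g T T' x x' n c : ℝ} (hr : r ≠ 0) (hq : q ≠ 1) :
    m / r * (q / (q - 1) * g) + (T - T' / r) =
      (x - x' / r) / n - (x / n - T + c - (x' / n - T' + r * c) / r + m * g / r * (q / (1 - q))) := by
  have h1 : q - 1 ≠ 0 := sub_ne_zero.mpr hq
  have h2 : 1 - q ≠ 0 := sub_ne_zero.mpr hq.symm
  have h3 : q / (1 - q) = -(q / (q - 1)) := by field_simp; ring
  rw [h3]
  field_simp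
  ring

theorem cosetR [IsAlgClosed C] (h : FF k (tE k₀ E)) (j₀ : L →+* C)
    (hjK : ∀ x : K, j₀ (algebraMap K L x) = algebraMap K C x) (hdense : DenseRange j₀)
    (hθ : ‖algebraMap K C (algebraMap k₀[X] K X)‖ = Fintype.card k₀) (P₀ : PD k₀ (th k₀ K L))
    {res : GG k (th k₀ K L) →* (K ≃ₐ[RatFunc k₀] K)} (hres : IsRes2 res)
    (F : IntermediateField (RatFunc k₀) E)
    (hF : ∀ φ φ' : E →ₐ[RatFunc k₀] K, φ' ∈ cls F φ →
      ∀ x, ‖algebraMap K C (φ' x)‖ = ‖algebraMap K C (φ x)‖)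
    {m : ℕ} (hd : ∀ φ, ∑ᶠ φ' ∈ cls F φ, d φ' = m)
    (hM : IsCMMotive OE OK d τ) (ψ : E →ₐ[RatFunc k₀] K) {ω : (E →ₐ[RatFunc k₀] K) → M}
    (hω : ∀ φ ∈ cls F ψ, ω φ ∈ eigen OE OK τ φ ∧ ω φ ∉ dRKer k₀ OE OK τ)
    {u : (K ≃ₐ[RatFunc k₀] K) → M →+ PowerSeries C}
    (hu : ∀ η, IsCycle (k := k₀) (OE := OE) (OK := OK) τ η (u η) ∧ u η ≠ 0)
    {𝔓 : FinPl k₀ → Ideal OK} (h𝔓 : ∀ π, (𝔓 π).IsMaximal ∧ algebraMap k₀[X] OK π.1 ∈ 𝔓 π)
    {p : (K ≃ₐ[RatFunc k₀] K) → (E →ₐ[RatFunc k₀] K) → C}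
    (hp : ∀ g φ, p g φ =
      ∑' n, PowerSeries.coeff n (u g (ω φ)) * algebraMap K C (algebraMap k₀[X] K X) ^ n)
    (δ : K ≃ₐ[RatFunc k₀] K) :
    (∀ φ ∈ cls F ψ, HasSum (fun n => PowerSeries.coeff n (u δ (ω φ)) *
        algebraMap K C (algebraMap k₀[X] K X) ^ n) (p δ φ) ∧ p δ φ ≠ 0) ∧
    (∀ φ ∈ cls F ψ, dRIndex OE OK τ φ (ω φ) ≠ 0) ∧
    ∃ v, Reg (fun n => ∑ᶠ π ∈ {π : FinPl k₀ | π.1.natDegree ∣ n},
        Real.log ((Fintype.card k₀ : ℝ) ^ π.1.natDegree) *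
          ((∑ᶠ g ∈ frobSet k₀ K (𝔓 π) n, a0 d ψ g⁻¹) / (frobSet k₀ K (𝔓 π) n).ncard)) v ∧
      avg (fun η => (m : ℝ) / (cls F ψ).ncard *
          ((Fintype.card k₀ : ℝ) / ((Fintype.card k₀ : ℝ) - 1) * Real.log (Fintype.card k₀)) +
        cen F ψ (fun φ => Real.log ‖p (δ * res η) φ‖)) =
        cen F ψ (fun φ => Real.log (dRIndex OE OK τ φ (ω φ))) /
          Nat.card (K ≃ₐ[RatFunc k₀] K) - v := by
  obtain ⟨j, P, hj, hdj, hP⟩ := exists_jP k j₀ hjK hdense hθ δ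
  have hθ1 : 1 < ‖algebraMap K C (algebraMap k₀[X] K X)‖ := by
    rw [hθ]; exact_mod_cast Fintype.one_lt_card
  obtain ⟨g, m0, h1, h2, hfin, hz⟩ := rr_zeta (L := L) h
  have hR : RR0 k (tE k₀ E) g := ⟨h2, m0, h1⟩
  obtain ⟨Q, hQ, hQ1, hQ0⟩ := hz (gram_bound h hR P hfin)
  have hk := const_mem_AK OK (L := L) (k := k) ψ
  obtain ⟨ρ, hρ⟩ := exists_rho2 k₀ E K OE OK L k
  obtain ⟨ε, hε⟩ := exists_idem hk hρ
  obtain ⟨μ, f, I, hμ, hS, hL⟩ := exists_sht2 h hR P hk hρ hε hM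
  obtain ⟨Fp, hF0, hFp⟩ := exists_period (L := L) h
  obtain ⟨nn, e, e', hdu⟩ := exists_dualB h L
  choose b hb y hy using fun φ : E →ₐ[RatFunc k₀] K => exists_lift L k φ
  obtain ⟨hW, e₀, he₀⟩ := cosetB h hk hρ hε hM hμ hS hL hdu j hj hdj P hP hθ1 hres hF0 hFp hu
  choose z hz1 hz2 hz3 using fun (φ : E →ₐ[RatFunc k₀] K) (hφ : φ ∈ cls F ψ) η =>
    (he₀ η).2.2 φ (b φ) (y φ) (ω φ) (hb φ) (hy φ) (hω φ hφ).1 (hω φ hφ).2
  have hzp : ∀ φ hφ η, z φ hφ η = p (δ * res η) φ := fun φ hφ η => by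
    rw [hp]; exact (hz1 φ hφ η).tsum_eq.symm
  simp only [hzp] at hz1 hz2 hz3
  have hψ : ψ ∈ cls F ψ := fun x _ => rfl
  have hred : ∀ φ ∈ cls F ψ, ∀ η : GG k (th k₀ K L),
      redO (P.W none η) (Pt.ofHom (y φ)) = redO (P.W none η) (Pt.ofHom (y ψ)) := by
    intro φ hφ η
    refine redO_lift _ (hy φ) (hy ψ) fun a => NNReal.eq ?_
    rw [hW, hW]
    exact congrArg (· ^ Module.finrank k₀ k)
      (hF ((δ * res η).toAlgHom.comp ψ) ((δ * res η).toAlgHom.comp φ)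
        (fun x hx => congrArg (δ * res η) (hφ x hx)) a)
  refine ⟨fun φ hφ => ?_, fun φ hφ =>
    (idx_formula2 h hρ hε hM hμ hS hL P (hb φ) (hy φ) (hω φ hφ).1 (hω φ hφ).2).1, ?_⟩
  · have h3 := hz1 φ hφ 1
    have h3' := hz2 φ hφ 1
    rw [map_one, mul_one] at h3 h3'
    exact ⟨h3, h3'⟩
  have hT : ∀ φ, Loc fun η => Real.log ‖p (δ * res η) φ‖ :=
    fun φ => hres.loc fun g => Real.log ‖p (δ * g) φ‖
  have hstar := fun φ (hφ : φ ∈ cls F ψ) => starB h hR P hk hρ hε hM hμ hS hL hdu hF0 (hb φ) (hy φ)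
    (hω φ hφ).1 (hω φ hφ).2 (hT φ) (hz3 φ hφ)
  have hl : (Module.finrank k₀ k : ℝ) ≠ 0 := by exact_mod_cast (finrank_pos2 k₀ k).ne'
  have hp0 : ∀ a : ℕ, (Fintype.card k₀ : ℝ) ^ a ≠ 0 := fun a =>
    pow_ne_zero _ (by exact_mod_cast Fintype.card_ne_zero)
  have hβ : ∀ φ ∈ cls F ψ, avg (fun η => meanE (P.W none η) (e₀ η)
        (Dtot (legs2 k₀ k L d) (Module.finrank k₀ k)) Fp (y φ)) =
      (Fintype.card k₀ : ℝ) ^ b φ / (Fintype.card k₀ : ℝ) ^ b ψ *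
        avg (fun η => meanE (P.W none η) (e₀ η)
          (Dtot (legs2 k₀ k L d) (Module.finrank k₀ k)) Fp (y ψ)) := by
    intro φ hφ
    rw [← avg_const_mul P (hstar ψ hψ).1]
    congr 1
    funext η
    have := meanE_eq h (P.W none η) (W_inf_one_lt P η) (pow_ne_zero (b φ) Fintype.card_ne_zero)
      (pow_ne_zero (b ψ) Fintype.card_ne_zero) (hy φ).map_t (hy ψ).map_t (hred φ hφ η) hFp (e₀ η)
      (Dtot (legs2 k₀ k L d) (Module.finrank k₀ k))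
    push_cast at this
    rw [div_mul_eq_mul_div, ← this, mul_div_cancel_left₀ _ (hp0 _)]
  obtain ⟨S, hSc⟩ : ∃ S : Finset (E →ₐ[RatFunc k₀] K), cls F ψ = S :=
    ⟨(Set.toFinite (cls F ψ)).toFinset, by simp⟩
  have hmem : ∀ φ, φ ∈ S ↔ φ ∈ cls F ψ := fun φ => by rw [hSc, Finset.mem_coe]
  have hν : ∀ φ ∈ S, ∀ a, meanI P (tE k₀ E) (legs2 k₀ k L d a) Fp (y φ) =
      (Module.finrank k₀ k : ℝ) * (Fintype.card k₀ : ℝ) ^ b φ *
        (meanI P (tE k₀ E) (legs2 k₀ k L d a) Fp (y ψ) /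
          ((Module.finrank k₀ k : ℝ) * (Fintype.card k₀ : ℝ) ^ b ψ)) := by
    intro φ hφ a
    have h4 := meanI_eq h P hS (hb φ) (hb ψ) (hy φ).map_t (hy ψ).map_t
      (hred φ ((hmem φ).1 hφ)) hFp a
    have h5 := hp0 (b ψ)
    generalize meanI P (tE k₀ E) (legs2 k₀ k L d a) Fp (y φ) = x₁ at h4 ⊢
    generalize meanI P (tE k₀ E) (legs2 k₀ k L d a) Fp (y ψ) = x₂ at h4 ⊢
    field_simp
    linarith
  have hser := ser_ratio S ((hmem ψ).2 hψ) (fun φ _ => hb φ)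
    (q := Fintype.card k₀) (κ := m * Real.log (Fintype.card k₀))
    (by exact_mod_cast Fintype.one_lt_card.ne')
    (fun φ hφ => serC h hR P P₀ hfin hS (hL _ (hb φ)) hQ hQ1 hQ0 hF0 hFp (hy φ) h𝔓 (hν φ hφ))
    (fun N hN => sum_cls_c F hd h𝔓 ψ S hSc hN)
  refine ⟨_, hser, ?_⟩
  obtain ⟨c₀, hV⟩ : ∃ c₀ : ℝ, ∀ φ ∈ S, -HB P (tE k₀ E) Fp (Module.finrank k₀ k) (b φ) (legs2 k₀ k L d)
          (dvN (tE k₀ E) (Nb k₀ OE OK τ μ (b φ))) (y φ) /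
          ((Module.finrank k₀ k : ℝ) * (Fintype.card k₀ : ℝ) ^ b φ) +
        degD (Dtot (legs2 k₀ k L d) (Module.finrank k₀ k)) *
          (Real.log (Fintype.card k) / dg k (tE k₀ E)) / Module.finrank k₀ k =
      (Real.log (dRIndex OE OK τ φ (ω φ)) / Nat.card (K ≃ₐ[RatFunc k₀] K) -
        avg fun η => Real.log ‖p (δ * res η) φ‖) + c₀ := by
    refine ⟨((degL (tE k₀ E) I - degL (tE k₀ E) (J0 k (AK OK K L) (tE k₀ E) e') +
          degD (Dtot (legs2 k₀ k L d) (Module.finrank k₀ k))) *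
          (Real.log (Fintype.card k) / dg k (tE k₀ E)) -
        avg (fun η => meanE (P.W none η) (e₀ η)
          (Dtot (legs2 k₀ k L d) (Module.finrank k₀ k)) Fp (y ψ)) / (Fintype.card k₀ : ℝ) ^ b ψ) /
        Module.finrank k₀ k, fun φ hφ => ?_⟩
    have e1 := (hstar φ ((hmem φ).1 hφ)).2
    rw [hβ φ ((hmem φ).1 hφ)] at e1
    exact cosetR_alg hl (hp0 (b φ)) (hp0 (b ψ)) e1
  have hr : (S.card : ℝ) ≠ 0 := by
    exact_mod_cast (Finset.card_pos.mpr ⟨ψ, (hmem ψ).2 hψ⟩).ne'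
  have hsum : Loc fun η => ∑ φ ∈ S, Real.log ‖p (δ * res η) φ‖ := Loc.sum S fun φ _ => hT φ
  have e5 : avg (fun η => (∑ φ ∈ S, Real.log ‖p (δ * res η) φ‖) / S.card) =
      (∑ φ ∈ S, avg fun η => Real.log ‖p (δ * res η) φ‖) / S.card := by
    simp only [div_eq_inv_mul]
    rw [avg_const_mul P hsum, avg_sum P S fun φ _ => hT φ]
  have hq1 : (Fintype.card k₀ : ℝ) ≠ 1 := by exact_mod_cast Fintype.one_lt_card.ne'
  rw [Finset.sum_congr rfl hV, hV ψ ((hmem ψ).2 hψ)]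
  simp only [cen, hSc, finsum_mem_coe_finset, Set.ncard_coe_finset]
  rw [avg_add P (Loc.const _) ((hT ψ).comp₂ hsum fun a c => a - c / S.card), avg_const,
    avg_sub P (hT ψ) (hsum.comp fun c => c / S.card), e5, Finset.sum_add_distrib,
    Finset.sum_sub_distrib, Finset.sum_const, nsmul_eq_mul, ← Finset.sum_div]
  exact cosetR_alg2 hr hq1

end Pool.Agent.FFC
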