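import Pool.Agent.P.MP_a2beea_nt.FC.Psd
import Pool.Agent.P.MP_a2beea_nt.FC.Abs

/-! The graphs of Frobenius. `kp_pow`: for `i < j` the two points are different (compare heights or
the values at `t`), `ip (σ^i φ) (σ^j φ) = q ^ i * ip φ (σ^(j-i) φ)` (`ip_fr`, `ip_fr_self`).
`kp_self_le`: `psd1` for the fibre `S = {χ | χ t = θ}` reads `0 ≤ ∑_χ (2 g ht χ - kp χ χ)` by
the definition of `kp χ χ`, and all `χ` are conjugate (`exists_GG`, `kp_smul`, `ht_leg`).
`gram_bound`: Cauchy-Schwarz (`abs_cs`, `BBm_sg`), `ht φ > 0`. `null_of_gram`: for one leg the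
value is `ht φ * 0 - (2 g ht φ - kp φ φ) ∑ Q_i ^ 2 q ^ i ≤ 0`, and it is `≥ 0`; null vectors are
orthogonal to everything by `abs_cs`. -/

open Polynomial
open scoped TensorProduct NNReal IntermediateField

namespace Pool.Agent.FFC

open Classical

variable {k : Type*} [Field k] [Fintype k] {E : Type*} [Field E] [Algebra k E] {t : E}
  {L : Type*} [Field L] [Algebra k L] [IsAlgClosed L]
  [IsDomain (L ⊗[k] E)]
  [Nonempty (GV k L)]
  {θ : L}

private theorem null_fr_pow (n : ℕ) (x : L) : (fr k L ^ n) x = x ^ Fintype.card k ^ n := by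
  induction n with
  | zero => simp
  | succ n ih => rw [pow_succ', AlgEquiv.mul_apply, ih, fr_apply, ← pow_mul, pow_succ]

private theorem null_ne (h : FF k t) (φ : E →ₐ[k] L) {i j : ℕ} (hij : i ≠ j) :
    tw (fr k L ^ i) φ ≠ tw (fr k L ^ j) φ := by
  intro e
  have e1 : (fr k L ^ i) (φ t) = (fr k L ^ j) (φ t) := congrArg (fun y : E →ₐ[k] L => y t) e
  rw [null_fr_pow, null_fr_pow, ← map_pow, ← map_pow] at e1
  have e2 : t ^ Fintype.card k ^ i = t ^ Fintype.card k ^ j := φ.toRingHom.injective e1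
  have e3 : aeval t (X ^ Fintype.card k ^ i - X ^ Fintype.card k ^ j : k[X]) = 0 := by
    simp [e2]
  have e4 := (transcendental_iff.1 h.trans) _ e3
  have e5 := congrArg natDegree (sub_eq_zero.1 e4)
  rw [natDegree_X_pow, natDegree_X_pow] at e5
  exact hij (Nat.pow_right_injective Fintype.one_lt_card e5)

private theorem null_ht (P : PD k θ) (φ : E →ₐ[k] L) (n : ℕ) :
    ht P t (Pt.ofHom (tw (fr k L ^ n) φ)) =
      (Fintype.card k : ℝ) ^ n * ht P t (Pt.ofHom φ) := by
  have := ht_fr P t (n : ℤ) (Pt.ofHom φ)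
  rw [zpow_natCast, zpow_natCast] at this
  exact this

private theorem null_lt (h : FF k t) {g : ℕ} (hR : RR0 k t g) (P : PD k θ)
    (hfin : ∀ n, 1 ≤ n → {x : Pt k E L | x.O ≠ ⊤ ∧ (fr k L ^ n) • x = x}.Finite)
    (φ : E →ₐ[k] L) {i j : ℕ} (hij : i < j) :
    kp P t (tw (fr k L ^ i) φ) (tw (fr k L ^ j) φ) = gram k L E g i j * ht P t (Pt.ofHom φ) := by
  obtain ⟨n, rfl⟩ := Nat.exists_eq_add_of_lt hij
  have h1 := ip_fr h P (i : ℤ) (Pt.ofHom φ) (Pt.ofHom (tw (fr k L ^ (n + 1)) φ))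
  rw [zpow_natCast, zpow_natCast, ip_comm P (Pt.ofHom φ),
    ip_fr_self h hR P φ (Nat.le_add_left 1 n) (hfin _ (Nat.le_add_left 1 n))] at h1
  have h2 : (fr k L ^ i) • Pt.ofHom (tw (fr k L ^ (n + 1)) φ) =
      Pt.ofHom (tw (fr k L ^ (i + n + 1)) φ) := by
    rw [← Pt.smul_ofHom, ← Pt.smul_ofHom, ← mul_smul, ← pow_add, add_assoc]
  rw [h2, Pt.smul_ofHom] at h1
  rw [kp, if_neg (null_ne h φ hij.ne), kk, h1, null_ht, null_ht, gram, if_neg hij.ne,
    min_eq_left hij.le, max_eq_right hij.le, show i + n + 1 - i = n + 1 by omega]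
  ring

private theorem null_sg (h : FF k t) (P : PD k θ) (n : ℕ) (x y : (E →ₐ[k] L) →₀ ℤ) :
    BBm P t ((sg k E L ^ n) x) ((sg k E L ^ n) y) = (Fintype.card k : ℝ) ^ n * BBm P t x y := by
  induction n with
  | zero => simp
  | succ n ih =>
    rw [pow_succ', Module.End.mul_apply, Module.End.mul_apply, BBm_sg h, ih]
    ring

theorem kp_pow (h : FF k t) {g : ℕ} (hR : RR0 k t g) (P : PD k θ)
    (hfin : ∀ n, 1 ≤ n → {x : Pt k E L | x.O ≠ ⊤ ∧ (fr k L ^ n) • x = x}.Finite)
    (φ : E →ₐ[k] L) {i j : ℕ} (hij : i ≠ j) :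
    kp P t (tw (fr k L ^ i) φ) (tw (fr k L ^ j) φ) = gram k L E g i j * ht P t (Pt.ofHom φ) := by
  rcases lt_or_gt_of_ne hij with hlt | hlt
  · exact null_lt h hR P hfin φ hlt
  · rw [kp_comm, null_lt h hR P hfin φ hlt, gram, gram, if_neg hij, if_neg hij.symm, min_comm,
      max_comm, add_comm]

theorem kp_self_le (h : FF k t) {g : ℕ} (hR : RR0 k t g) (P : PD k θ) {φ : E →ₐ[k] L}
    (hφ : φ t = θ) : kp P t φ φ ≤ 2 * g * ht P t (Pt.ofHom φ) := by
  have hf := hom_fibre_finite (L := L) h θ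
  have h0 := psd1 h hR P hf.toFinset
  have h1 : ∀ y ∈ hf.toFinset, ∑ z ∈ hf.toFinset.erase y, kk P t y z = -kp P t φ φ := by
    intro y hy
    have hy' : y t = θ := by simpa using hy
    obtain ⟨g, hg⟩ := exists_GG P h hφ hy'
    have hs : {x : E →ₐ[k] L | x ≠ y ∧ x t = y t} = ↑(hf.toFinset.erase y) := by
      ext x
      simp [hy', and_comm]
    rw [← kp_smul P t g, hg, kp, if_pos rfl, neg_neg, ← finsum_mem_coe_finset, ← hs]
  have h2 : ∀ y ∈ hf.toFinset, ht P t (Pt.ofHom y) = ht P t (Pt.ofHom φ) := by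
    intro y hy
    have hy' : y t = θ := by simpa using hy
    rw [ht_leg P hy', ht_leg P hφ]
  rw [Finset.sum_congr rfl h1, Finset.sum_congr rfl h2, Finset.sum_const, Finset.sum_const,
    nsmul_eq_mul, nsmul_eq_mul] at h0
  have h3 : (0 : ℝ) < hf.toFinset.card := by
    exact_mod_cast Finset.card_pos.2 ⟨φ, by simpa using hφ⟩
  have h4 : 0 ≤ (hf.toFinset.card : ℝ) * (2 * g * ht P t (Pt.ofHom φ) - kp P t φ φ) := by
    linarith
  have := nonneg_of_mul_nonneg_right h4 h3
  linarith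

theorem gram_bound (h : FF k t) {g : ℕ} (hR : RR0 k t g) (P : PD k θ)
    (hfin : ∀ n, 1 ≤ n → {x : Pt k E L | x.O ≠ ⊤ ∧ (fr k L ^ n) • x = x}.Finite) :
    ∃ C : ℝ, ∀ n, 1 ≤ n → (gram k L E g 0 n) ^ 2 ≤ C * (Fintype.card k : ℝ) ^ n := by
  have hne : {y : E →ₐ[k] L | y t = θ}.Nonempty := by
    apply Set.nonempty_of_ncard_ne_zero
    rw [hom_fibre_card h P.trans]
    exact h.dg_pos.ne'
  obtain ⟨φ, hφ⟩ := hne
  have hq : (1 : ℝ) < Fintype.card k := by exact_mod_cast Fintype.one_lt_card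
  have hpos : 0 < ht P t (Pt.ofHom φ) := by
    rw [ht_leg P hφ]
    exact div_pos (Real.log_pos hq) (by exact_mod_cast h.dg_pos)
  refine ⟨(kp P t φ φ / ht P t (Pt.ofHom φ)) ^ 2, fun n hn => ?_⟩
  have h1 := abs_cs (BBm P t) (BBm_comm P t) (BBm_nonneg h hR P) (Finsupp.single φ 1)
    ((sg k E L ^ n) (Finsupp.single φ 1))
  rw [null_sg h, sg_pow_single, BBm_single, BBm_single] at h1
  have h2 := kp_pow h hR P hfin φ (i := 0) (j := n) (by omega)
  have h3 : tw (fr k L ^ 0) φ = φ := rfl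
  rw [h3] at h2
  rw [h2] at h1
  rw [div_pow, div_mul_eq_mul_div, le_div_iff₀ (pow_pos hpos 2)]
  nlinarith [h1]

theorem null_of_gram (h : FF k t) {g : ℕ} (hR : RR0 k t g) (P : PD k θ)
    (hfin : ∀ n, 1 ≤ n → {x : Pt k E L | x.O ≠ ⊤ ∧ (fr k L ^ n) • x = x}.Finite)
    {Q : ℤ[X]}
    (hQ0 : ∑ i ∈ Finset.range (Q.natDegree + 1), ∑ j ∈ Finset.range (Q.natDegree + 1),
      (Q.coeff i : ℝ) * Q.coeff j * gram k L E g i j = 0)
    {D : (E →ₐ[k] L) →₀ ℤ} (hD : ∀ y ∈ D.support, y t = θ) :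
    BBm P t (aeval (sg k E L) Q D) (aeval (sg k E L) Q D) = 0 := by
  have key : ∀ y : E →ₐ[k] L, y t = θ →
      BBm P t (aeval (sg k E L) Q (Finsupp.single y 1)) = 0 := by
    intro y hy
    have h0 : BBm P t (aeval (sg k E L) Q (Finsupp.single y 1))
        (aeval (sg k E L) Q (Finsupp.single y 1)) = 0 := by
      refine le_antisymm ?_ (BBm_nonneg h hR P _)
      have hle : ∀ i j : ℕ, (Q.coeff i : ℝ) * Q.coeff j *
          BBm P t ((sg k E L ^ i) (Finsupp.single y 1)) ((sg k E L ^ j) (Finsupp.single y 1)) ≤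
          (Q.coeff i : ℝ) * Q.coeff j * gram k L E g i j * ht P t (Pt.ofHom y) := by
        intro i j
        by_cases hij : i = j
        · subst hij
          rw [null_sg h, BBm_single, gram, if_pos rfl, mul_assoc _ (2 * (g : ℝ) * _)]
          refine mul_le_mul_of_nonneg_left ?_ (mul_self_nonneg _)
          have h1 := kp_self_le h hR P hy
          have h2 : (0 : ℝ) ≤ (Fintype.card k : ℝ) ^ i := by positivity
          nlinarith [mul_le_mul_of_nonneg_left h1 h2]
        · rw [sg_pow_single, sg_pow_single, BBm_single, kp_pow h hR P hfin y hij]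
          exact le_of_eq (by ring)
      have hexp : aeval (sg k E L) Q (Finsupp.single y 1) =
          ∑ i ∈ Finset.range (Q.natDegree + 1),
            Q.coeff i • (sg k E L ^ i) (Finsupp.single y 1) := by
        rw [aeval_eq_sum_range, LinearMap.sum_apply]
        rfl
      rw [hexp]
      simp only [map_sum, map_zsmul, LinearMap.sum_apply, LinearMap.smul_apply]
      simp only [zsmul_eq_mul]
      calc _ ≤ ∑ j ∈ Finset.range (Q.natDegree + 1), ∑ i ∈ Finset.range (Q.natDegree + 1),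
            (Q.coeff i : ℝ) * Q.coeff j * gram k L E g i j * ht P t (Pt.ofHom y) := by
            refine Finset.sum_le_sum fun j _ => ?_
            rw [Finset.mul_sum]
            refine Finset.sum_le_sum fun i _ => ?_
            refine le_trans (le_of_eq ?_) (hle i j)
            ring
        _ = 0 := by
            rw [Finset.sum_comm]
            simp only [← Finset.sum_mul]
            rw [hQ0, zero_mul]
    refine LinearMap.ext fun w => ?_
    have h1 := abs_cs (BBm P t) (BBm_comm P t) (BBm_nonneg h hR P)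
      (aeval (sg k E L) Q (Finsupp.single y 1)) w
    rw [h0, zero_mul] at h1
    exact pow_eq_zero_iff (two_ne_zero) |>.1 (le_antisymm h1 (sq_nonneg _))
  have hD' : BBm P t (aeval (sg k E L) Q D) = 0 := by
    conv_lhs => rw [← Finsupp.sum_single D, Finsupp.sum, map_sum, map_sum]
    refine Finset.sum_eq_zero fun y hy => ?_
    have : Finsupp.single y (D y) = D y • Finsupp.single y (1 : ℤ) := by simp
    rw [this, map_zsmul, map_zsmul, key y (hD y hy), smul_zero]
  rw [hD', LinearMap.zero_apply]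

end Pool.Agent.FFC
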