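import Pool.Agent.P.MP_a2beea_nt.FC.Null
import Pool.Agent.P.MP_a2beea_nt.FC.Add2

/-! The legs of level `a` are killed by the polynomial of the zeta function. Copy the proofs of
`exists_GG`, `kp_self_le`, `null_of_gram`. `L` is algebraic over the image of `φ` because `θ` is a
root of `X ^ p ^ a - φ t`; the automorphism fixes `θ ^ p ^ a`, hence `θ` (`lev_inj`). -/

open Polynomial
open scoped TensorProduct NNReal IntermediateField

namespace Pool.Agent.FFC

open Classical

variable {k : Type*} [Field k] [Fintype k] {E : Type*} [Field E] [Algebra k E] {t : E}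
  {L : Type*} [Field L] [Algebra k L] [IsAlgClosed L]
  [IsDomain (L ⊗[k] E)]
  [Nonempty (GV k L)]
  {θ : L}
  {A A' : Subring L} {f : FL k E L} {I J N : AddSubgroup (FL k E L)}
  {D : ℕ → (E →ₐ[k] L) →₀ ℤ} {p l b : ℕ} {y : E →ₐ[k] L}

private theorem null2_clos (P : PD k θ) (K : IntermediateField k L) {m : ℕ} (hm : 0 < m)
    (hK : θ ^ m ∈ K) : IsAlgClosure K L := by
  have h1 : IsAlgebraic K θ :=
    IsAlgebraic.of_pow hm (isAlgebraic_algebraMap (R := K) (A := L) ⟨_, hK⟩)
  have h2 : Algebra.IsAlgebraic K K⟮θ⟯ :=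
    IntermediateField.isAlgebraic_adjoin_simple h1.isIntegral
  have h3 : Algebra.IsAlgebraic K⟮θ⟯ L :=
    (prod_isAlgClosure P (K⟮θ⟯.restrictScalars k)
      (IntermediateField.mem_adjoin_simple_self K θ)).isAlgebraic
  exact ⟨inferInstance, Algebra.IsAlgebraic.trans K K⟮θ⟯ L⟩

private theorem null2_sg (h : FF k t) (P : PD k θ) (n : ℕ) (x y : (E →ₐ[k] L) →₀ ℤ) :
    BBm P t ((sg k E L ^ n) x) ((sg k E L ^ n) y) = (Fintype.card k : ℝ) ^ n * BBm P t x y := by
  induction n with
  | zero => simp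
  | succ n ih =>
    rw [pow_succ', Module.End.mul_apply, Module.End.mul_apply, BBm_sg h, ih]
    ring

theorem exists_GG2 (h : FF k t) (P : PD k θ) (hl : p ^ l = Fintype.card k) {a : ℕ}
    {φ χ : E →ₐ[k] L} (hφ : φ t = θ ^ p ^ a) (hχ : χ t = θ ^ p ^ a) :
    ∃ g : GG k θ, tw g.1 φ = χ := by
  have hp : 0 < p ^ a := by
    refine pow_pos (Nat.pos_of_ne_zero ?_) a
    rintro rfl
    have h1 : 1 < Fintype.card k := Fintype.one_lt_card
    rcases l with _ | l <;> simp at hl <;> omega
  have := null2_clos P φ.fieldRange hp ⟨t, hφ⟩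
  have := null2_clos P χ.fieldRange hp ⟨t, hχ⟩
  let e : φ.fieldRange ≃ₐ[k] χ.fieldRange :=
    (AlgEquiv.ofInjectiveField φ).symm.trans (AlgEquiv.ofInjectiveField χ)
  let f : L ≃+* L := IsAlgClosure.equivOfEquiv L L e.toRingEquiv
  have hf : ∀ a : E, f (φ a) = χ a := by
    intro a
    have h1 := IsAlgClosure.equivOfEquiv_algebraMap L L e.toRingEquiv
      (AlgEquiv.ofInjectiveField φ a)
    have h2 : e.toRingEquiv (AlgEquiv.ofInjectiveField φ a) = AlgEquiv.ofInjectiveField χ a :=
      congrArg (AlgEquiv.ofInjectiveField χ) ((AlgEquiv.ofInjectiveField φ).symm_apply_apply a)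
    rw [h2] at h1
    exact h1
  let g : L ≃ₐ[k] L := AlgEquiv.ofRingEquiv (f := f) fun c => by
    have h1 := hf (algebraMap k E c)
    rwa [φ.commutes, χ.commutes] at h1
  have hg : g ∈ GG k θ := by
    change f θ = θ
    refine lev_inj hl a ?_
    rw [← map_pow, ← hφ, hf, hχ, hφ]
  exact ⟨⟨g, hg⟩, AlgHom.ext hf⟩

theorem kp_self_le2 (h : FF k t) {g : ℕ} (hR : RR0 k t g) (P : PD k θ)
    (hl : p ^ l = Fintype.card k) {a : ℕ} {φ : E →ₐ[k] L} (hφ : φ t = θ ^ p ^ a) :
    kp P t φ φ ≤ 2 * g * ht P t (Pt.ofHom φ) := by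
  have hf := hom_fibre_finite (L := L) h (θ ^ p ^ a)
  have h0 := psd1 h hR P hf.toFinset
  have h1 : ∀ y ∈ hf.toFinset, ∑ z ∈ hf.toFinset.erase y, kk P t y z = -kp P t φ φ := by
    intro y hy
    have hy' : y t = θ ^ p ^ a := by simpa using hy
    obtain ⟨g, hg⟩ := exists_GG2 h P hl hφ hy'
    have hs : {x : E →ₐ[k] L | x ≠ y ∧ x t = y t} = ↑(hf.toFinset.erase y) := by
      ext x
      simp [hy', and_comm]
    rw [← kp_smul P t g, hg, kp, if_pos rfl, neg_neg, ← finsum_mem_coe_finset, ← hs]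
  have h2 : ∀ y ∈ hf.toFinset, ht P t (Pt.ofHom y) = ht P t (Pt.ofHom φ) := by
    intro y hy
    have hy' : y t = θ ^ p ^ a := by simpa using hy
    rw [ht_lev P hy', ht_lev P hφ]
  rw [Finset.sum_congr rfl h1, Finset.sum_congr rfl h2, Finset.sum_const, Finset.sum_const,
    nsmul_eq_mul, nsmul_eq_mul] at h0
  have h3 : (0 : ℝ) < hf.toFinset.card := by
    exact_mod_cast Finset.card_pos.2 ⟨φ, by simpa using hφ⟩
  have h4 : 0 ≤ (hf.toFinset.card : ℝ) * (2 * g * ht P t (Pt.ofHom φ) - kp P t φ φ) := by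
    linarith
  have := nonneg_of_mul_nonneg_right h4 h3
  linarith

theorem null_of_gram2 (h : FF k t) {g : ℕ} (hR : RR0 k t g) (P : PD k θ)
    (hfin : ∀ n, 1 ≤ n → {x : Pt k E L | x.O ≠ ⊤ ∧ (fr k L ^ n) • x = x}.Finite)
    {Q : ℤ[X]}
    (hQ0 : ∑ i ∈ Finset.range (Q.natDegree + 1), ∑ j ∈ Finset.range (Q.natDegree + 1),
      (Q.coeff i : ℝ) * Q.coeff j * gram k L E g i j = 0)
    (hl : p ^ l = Fintype.card k) {a : ℕ} {X : (E →ₐ[k] L) →₀ ℤ}
    (hX : ∀ y ∈ X.support, y t = θ ^ p ^ a) :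
    BBm P t (aeval (sg k E L) Q X) (aeval (sg k E L) Q X) = 0 := by
  have key : ∀ y : E →ₐ[k] L, y t = θ ^ p ^ a →
      BBm P t (aeval (sg k E L) Q (Finsupp.single y 1)) = 0 := by
    intro y hy
    have h0 : BBm P t (aeval (sg k E L) Q (Finsupp.single y 1))
        (aeval (sg k E L) Q (Finsupp.single y 1)) = 0 := by
      refine le_antisymm ?_ (BBm_nonneg h hR P _)
      have hle : ∀ i j : ℕ, (Q.coeff i : ℝ) * Q.coeff j *
          BBm P t ((sg k E L ^ i) (Finsupp.single y 1)) ((sg k E L ^ j) (Finsupp.single y 1)) ≤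
          (Q.coeff i : ℝ) * Q.coeff j * gram k L E g i j * ht P t (Pt.ofHom y) := by
        intro i j
        by_cases hij : i = j
        · subst hij
          rw [null2_sg h, BBm_single, gram, if_pos rfl, mul_assoc _ (2 * (g : ℝ) * _)]
          refine mul_le_mul_of_nonneg_left ?_ (mul_self_nonneg _)
          have h1 := kp_self_le2 h hR P hl hy
          have h2 : (0 : ℝ) ≤ (Fintype.card k : ℝ) ^ i := by positivity
          nlinarith [mul_le_mul_of_nonneg_left h1 h2]
        · rw [sg_pow_single, sg_pow_single, BBm_single, kp_pow h hR P hfin y hij]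
          exact le_of_eq (by ring)
      have hexp : aeval (sg k E L) Q (Finsupp.single y 1) =
          ∑ i ∈ Finset.range (Q.natDegree + 1),
            Q.coeff i • (sg k E L ^ i) (Finsupp.single y 1) := by
        rw [aeval_eq_sum_range, LinearMap.sum_apply]
        rfl
      rw [hexp]
      simp only [map_sum, map_zsmul, LinearMap.sum_apply, LinearMap.smul_apply]
      simp only [zsmul_eq_mul]
      calc _ ≤ ∑ j ∈ Finset.range (Q.natDegree + 1), ∑ i ∈ Finset.range (Q.natDegree + 1),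
            (Q.coeff i : ℝ) * Q.coeff j * gram k L E g i j * ht P t (Pt.ofHom y) := by
            refine Finset.sum_le_sum fun j _ => ?_
            rw [Finset.mul_sum]
            refine Finset.sum_le_sum fun i _ => ?_
            refine le_trans (le_of_eq ?_) (hle i j)
            ring
        _ = 0 := by
            rw [Finset.sum_comm]
            simp only [← Finset.sum_mul]
            rw [hQ0, zero_mul]
    refine LinearMap.ext fun w => ?_
    have h1 := abs_cs (BBm P t) (BBm_comm P t) (BBm_nonneg h hR P)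
      (aeval (sg k E L) Q (Finsupp.single y 1)) w
    rw [h0, zero_mul] at h1
    exact pow_eq_zero_iff (two_ne_zero) |>.1 (le_antisymm h1 (sq_nonneg _))
  have hD' : BBm P t (aeval (sg k E L) Q X) = 0 := by
    conv_lhs => rw [← Finsupp.sum_single X, Finsupp.sum, map_sum, map_sum]
    refine Finset.sum_eq_zero fun y hy => ?_
    have : Finsupp.single y (X y) = X y • Finsupp.single y (1 : ℤ) := by simp
    rw [this, map_zsmul, map_zsmul, key y (hX y hy), smul_zero]
  rw [hD', LinearMap.zero_apply]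

end Pool.Agent.FFC
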