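import Pool.Agent.P.MP_a2beea_nt.FC.Div

/-! Orders of functions. `isPar_red`: a function with value `0` at `z` is `x / y`; multiply `x` by a
scalar of `L` and (if `z` is not constant) by a power of `π` to make it integral, then use
`division`. Existence of the order: the ring of functions regular at `p` is the localisation at
a prime of the image of `L ⊗ OO k t` (or `t⁻¹`), a finitely generated `L`-algebra, hence
Noetherian; its maximal ideal is principal, so a nonzero element is a unit times a power of the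
parameter (Krull intersection, or `IsDiscreteValuationRing.TFAE`, or well-founded divisibility).
`ord_sub_self`: the functions `δ a = tm 1 a - tm (y a) 1` generate the maximal ideal `m` at `y`;
a separable equation `F(t, a) = 0` and Taylor expansion give `δ a ∈ (δ t) + m ^ 2`
(see `exists_deriv`), so `δ t` cannot have order `≥ 2`. -/

open Polynomial
open scoped TensorProduct NNReal IntermediateField

namespace Pool.Agent.FFC

open Classical

variable {k : Type*} [Field k] [Fintype k] {E : Type*} [Field E] [Algebra k E] {t : E}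
  {L : Type*} [Field L] [Algebra k L] [IsAlgClosed L]
  [IsDomain (L ⊗[k] E)]
  [Nonempty (GV k L)]

omit [Fintype k] [IsAlgClosed L] [IsDomain (L ⊗[k] E)] [Nonempty (GV k L)] in
theorem ord_intT_tmul {w : GV k L} {O : ValuationSubring E} {b : L} {a : E} (ha : a ∈ O)
    (hb : w.v b ≤ 1) : IntT w O (b ⊗ₜ[k] a) :=
  ⟨1, fun _ => b, fun _ => a, fun _ => ha, fun _ => hb, by simp⟩

omit [Fintype k] [IsAlgClosed L] [IsDomain (L ⊗[k] E)] [Nonempty (GV k L)] in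
theorem ord_evT_ind {p : Pt k E L} (P : L ⊗[k] E → Prop) (h0 : P 0)
    (h1 : ∀ (b : L) (a : E), a ∈ p.O → P (b ⊗ₜ[k] a)) (h2 : ∀ x y, P x → P y → P (x + y))
    {x : L ⊗[k] E} {c : L} (hx : EvT p x c) : P x := by
  obtain ⟨n, b, a, ha, rfl, -⟩ := hx
  exact Finset.sum_induction _ P h2 h0 fun i _ => h1 _ _ (ha i)

omit [Nonempty (GV k L)] in
theorem ord_clear (w : GV k L) (z : Pt k E L) {x : L ⊗[k] E} {c : L} (hx : EvT z x c) :
    ∃ u, IntT w (redO w z) u ∧ (∃ cu, cu ≠ 0 ∧ EvT z u cu) ∧ IntT w (redO w z) (u * x) := by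
  refine ord_evT_ind (fun x => ∃ u, IntT w (redO w z) u ∧ (∃ cu, cu ≠ 0 ∧ EvT z u cu) ∧
    IntT w (redO w z) (u * x)) ?_ ?_ ?_ hx
  · refine ⟨1, ord_intT_tmul (b := 1) (one_mem _) (by simp), ⟨1, one_ne_zero, Val_one z⟩, ?_⟩
    simpa using ord_intT_tmul (w := w) (b := 0) (one_mem (redO w z)) (by simp)
  · intro b a ha
    obtain ⟨l, l0, l1, l2⟩ : ∃ l : L, l ≠ 0 ∧ w.v l ≤ 1 ∧ w.v (l * b) ≤ 1 := by
      by_cases hb : w.v b ≤ 1
      · exact ⟨1, one_ne_zero, by simp, by simpa using hb⟩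
      · have hb0 : b ≠ 0 := fun e => hb (by simp [e])
        refine ⟨b⁻¹, inv_ne_zero hb0, ?_, by simp [hb0]⟩
        rw [map_inv₀]
        exact inv_le_one_of_one_le₀ (not_le.1 hb).le
    obtain ⟨r, r0, r1, r2⟩ : ∃ r : E, z.ev r ≠ 0 ∧ r ∈ redO w z ∧ r * a ∈ redO w z := by
      by_cases h : a ∈ redO w z
      · exact ⟨1, by rw [z.ev_one]; exact one_ne_zero, one_mem _, by rwa [one_mul]⟩
      · have ha0 : a ≠ 0 := fun e => h (e ▸ zero_mem _)
        have h' := ((redO w z).mem_or_inv_mem a).resolve_left h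
        refine ⟨a⁻¹, z.ev_ne_zero (inv_ne_zero ha0) h'.1 (by rwa [inv_inv]), h', ?_⟩
        rw [inv_mul_cancel₀ ha0]
        exact one_mem _
    refine ⟨l ⊗ₜ[k] r, ord_intT_tmul r1 l1, ⟨_, mul_ne_zero l0 r0, evT_tmul z l r1.1⟩, ?_⟩
    rw [Algebra.TensorProduct.tmul_mul_tmul]
    exact ord_intT_tmul r2 l2
  · rintro x y ⟨u, u1, ⟨cu, u2, u3⟩, u4⟩ ⟨u', v1, ⟨cv, v2, v3⟩, v4⟩
    refine ⟨u * u', u1.mul v1, ⟨_, mul_ne_zero u2 v2, u3.mul v3⟩, ?_⟩
    rw [show u * u' * (x + y) = u' * (u * x) + u * (u' * y) by ring]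
    exact (v1.mul u4).add (u1.mul v4)

omit [Fintype k] [IsAlgClosed L] [IsDomain (L ⊗[k] E)] [Nonempty (GV k L)] in
theorem ord_sub_ne {a : E} (ha : ∀ c : k, algebraMap k E c ≠ a) (c : L) :
    (tm 1 a - tm c 1 : FL k E L) ≠ 0 := by
  intro h0
  rw [sub_eq_zero] at h0
  have h1 : (1 : L) ⊗ₜ[k] a = c ⊗ₜ[k] (1 : E) :=
    IsFractionRing.injective (L ⊗[k] E) (FL k E L) h0
  have h2 : a ∉ Submodule.span k {(1 : E)} := fun hm => by
    obtain ⟨d, hd⟩ := Submodule.mem_span_singleton.1 hm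
    rw [← Algebra.algebraMap_eq_smul_one] at hd
    exact ha d hd
  obtain ⟨f, hf, hf0⟩ := Submodule.exists_dual_map_eq_bot_of_notMem h2 inferInstance
  have h3 : f 1 = 0 := by
    have : f 1 ∈ (Submodule.span k {(1 : E)}).map f :=
      Submodule.mem_map_of_mem (Submodule.mem_span_singleton_self _)
    rwa [hf0, Submodule.mem_bot] at this
  have h4 := congrArg (fun z => TensorProduct.rid k L (LinearMap.lTensor L f z)) h1
  simp [h3, hf] at h4

omit [Nonempty (GV k L)] in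
theorem ord_ev_ne {p : Pt k E L} {x : L ⊗[k] E} {c : L} (h : EvT p x c) (hc : c ≠ 0) :
    algebraMap (L ⊗[k] E) (FL k E L) x ≠ 0 := fun e =>
  hc ((e ▸ h.hasVal).unique (hasVal_zero p))

theorem isPar_red (h : FF k t) (w : GV k L) (z : Pt k E L) :
    IsPar z (tm 1 (unif (redO w z)) - tm (z.ev (unif (redO w z))) 1) := by
  have hO := redO_place h w z
  have hu := place_unif h hO
  have hne : (tm 1 (unif (redO w z)) - tm (z.ev (unif (redO w z))) 1 : FL k E L) ≠ 0 :=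
    ord_sub_ne (fun c e => hu.2.1 (by rw [← e, ← map_inv₀]; exact hO.2 _)) _
  refine ⟨hne, ?_, ?_⟩
  · have := (hasVal_tm z 1 hu.1.1).sub (hasVal_tm z (z.ev (unif (redO w z))) (one_mem z.O))
    rwa [z.ev_one, one_mul, mul_one, sub_self] at this
  · rintro f ⟨x, y, cx, cy, hx, hy, h0, e, ec⟩
    rw [zero_mul] at ec
    subst ec
    obtain ⟨u, -, ⟨cu, u2, u3⟩, u4⟩ := ord_clear w z hx
    obtain ⟨s, r, -, hr, ⟨cs, s1, s2⟩, e2⟩ := division h w z u4 (by simpa using u3.mul hx)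
    obtain ⟨cr, r1, -⟩ := hr.evT
    have s0 : cs ≠ 0 := fun e => by simp [e] at s2
    refine ⟨cr / (cs * cu * cy), r, s * u * y, cr, cs * cu * cy, r1, (s1.mul u3).mul hy,
      mul_ne_zero (mul_ne_zero s0 u2) h0, ?_, div_mul_cancel₀ _
        (mul_ne_zero (mul_ne_zero s0 u2) h0)⟩
    have e3 := congrArg (algebraMap (L ⊗[k] E) (FL k E L)) e2
    rw [map_mul, map_mul, map_mul, map_sub, ← e] at e3
    rw [div_mul_eq_mul_div, div_eq_iff hne, map_mul, map_mul]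
    simp only [tm]
    linear_combination e3

omit [Fintype k] [IsAlgClosed L] [IsDomain (L ⊗[k] E)] [Nonempty (GV k L)] in
theorem ord_mem_adjoin {S : Finset E} (hS : Algebra.adjoin k (S : Set E) = OO k t) (c : L) {a : E}
    (ha : a ∈ OO k t) :
    c ⊗ₜ[k] a ∈ Algebra.adjoin L ((fun g : E => (1 : L) ⊗ₜ[k] g) '' (S : Set E)) := by
  have h1 : (1 : L) ⊗ₜ[k] a ∈ Algebra.adjoin L ((fun g : E => (1 : L) ⊗ₜ[k] g) '' (S : Set E)) := by
    rw [← hS] at ha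
    have : Algebra.adjoin k (S : Set E) ≤ ((Algebra.adjoin L
        ((fun g : E => (1 : L) ⊗ₜ[k] g) '' (S : Set E))).restrictScalars k).comap
        (Algebra.TensorProduct.includeRight : E →ₐ[k] L ⊗[k] E) :=
      Algebra.adjoin_le fun g hg => Algebra.subset_adjoin ⟨g, hg, rfl⟩
    exact this ha
  have := Subalgebra.smul_mem _ h1 c
  rwa [TensorProduct.smul_tmul', smul_eq_mul, mul_one] at this

omit [Nonempty (GV k L)] in
theorem ord_krull (h : FF k t) {p : Pt k E L} (hp : t ∈ p.O) {ϖ g : FL k E L}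
    (h0 : HasVal p ϖ 0) (hϖ : ϖ ≠ 0) (hg : ∀ n : ℕ, ∃ c, HasVal p (g / ϖ ^ n) c) : g = 0 := by
  obtain ⟨S, hS⟩ := OO_fg h
  set R := Algebra.adjoin L ((fun g : E => (1 : L) ⊗ₜ[k] g) '' (S : Set E)) with hR
  have : IsNoetherianRing R := isNoetherianRing_of_fg
    ⟨S.image fun g : E => (1 : L) ⊗ₜ[k] g, by rw [Finset.coe_image]⟩
  have hc : ∀ c : L, EvT p (algebraMap L (L ⊗[k] E) c) c := fun c => by
    have := evT_tmul p c (one_mem p.O)
    rwa [p.ev_one, mul_one] at this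
  have R2 : ∀ r ∈ R, ∃ c, EvT p r c := by
    intro r hr
    induction hr using Algebra.adjoin_induction with
    | mem x hx =>
      obtain ⟨g, hg, rfl⟩ := hx
      exact ⟨_, evT_tmul p 1 (OO_le p.alg_mem hp g (hS ▸ Algebra.subset_adjoin hg))⟩
    | algebraMap c => exact ⟨c, hc c⟩
    | add x y _ _ hx hy =>
      obtain ⟨c, hx⟩ := hx
      obtain ⟨d, hy⟩ := hy
      exact ⟨_, hx.add hy⟩
    | mul x y _ _ hx hy =>
      obtain ⟨c, hx⟩ := hx
      obtain ⟨d, hy⟩ := hy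
      exact ⟨_, hx.mul hy⟩
  have R3 : ∀ {x c}, EvT p x c → ∃ s ∈ R, (∃ cs, cs ≠ 0 ∧ EvT p s cs) ∧ s * x ∈ R := by
    intro x c hx
    refine ord_evT_ind (fun x => ∃ s ∈ R, (∃ cs, cs ≠ 0 ∧ EvT p s cs) ∧ s * x ∈ R) ?_ ?_ ?_ hx
    · exact ⟨1, one_mem _, ⟨1, one_ne_zero, Val_one p⟩, by simp⟩
    · intro b a ha
      obtain ⟨b', hb', s, hs, s0, e⟩ := pts_frac h p hp ha
      refine ⟨(1 : L) ⊗ₜ[k] s, ord_mem_adjoin hS 1 hs,
        ⟨_, mul_ne_zero one_ne_zero s0, evT_tmul p 1 (OO_le p.alg_mem hp s hs)⟩, ?_⟩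
      rw [Algebra.TensorProduct.tmul_mul_tmul, mul_comm s, e]
      exact ord_mem_adjoin hS _ hb'
    · rintro x y ⟨u, u1, ⟨cu, u2, u3⟩, u4⟩ ⟨u', v1, ⟨cv, v2, v3⟩, v4⟩
      refine ⟨u * u', mul_mem u1 v1, ⟨_, mul_ne_zero u2 v2, u3.mul v3⟩, ?_⟩
      rw [show u * u' * (x + y) = u' * (u * x) + u * (u' * y) by ring]
      exact add_mem (mul_mem v1 u4) (mul_mem u1 v4)
  have R4 : ∀ {f c}, HasVal p f c → ∃ (r s : R) (cs : L), cs ≠ 0 ∧ EvT p s.1 cs ∧
      EvT p r.1 (c * cs) ∧ f * algebraMap _ (FL k E L) s.1 = algebraMap _ (FL k E L) r.1 := by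
    rintro f c ⟨x, y, cx, cy, hx, hy, hy0, e, ec⟩
    obtain ⟨u, u1, ⟨cu, u2, u3⟩, u4⟩ := R3 hx
    obtain ⟨u', v1, ⟨cv, v2, v3⟩, v4⟩ := R3 hy
    refine ⟨⟨u' * (u * x), mul_mem v1 u4⟩, ⟨u * (u' * y), mul_mem u1 v4⟩, cu * (cv * cy),
      mul_ne_zero u2 (mul_ne_zero v2 hy0), u3.mul (v3.mul hy), ?_, ?_⟩
    · rw [show c * (cu * (cv * cy)) = cv * (cu * cx) by rw [← ec]; ring]
      exact v3.mul (u3.mul hx)
    · simp only [map_mul]
      rw [← e]
      ring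
  let m : Ideal R :=
    { carrier := {r | EvT p r.1 0}
      zero_mem' := by simpa using hc 0
      add_mem' := fun {a b} ha hb => by simpa using EvT.add ha hb
      smul_mem' := fun r a ha => by
        obtain ⟨c, hr⟩ := R2 r.1 r.2
        simpa using hr.mul ha }
  have hm : m ≠ ⊤ := fun e => by
    have h1 : (1 : R) ∈ m := e ▸ Submodule.mem_top
    exact one_ne_zero ((Val_one p).unique h1)
  have key : ∀ (n : ℕ) (a s : R) (cs : L), cs ≠ 0 → EvT p s.1 cs → a * s ∈ m ^ n → a ∈ m ^ n := by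
    intro n a s cs c0 hs H
    have h1 : 1 - s * algebraMap L R cs⁻¹ ∈ m := by
      have := (Val_one p).add (hs.mul (hc (-cs⁻¹)))
      rw [mul_neg, mul_inv_cancel₀ c0, add_neg_cancel, map_neg, mul_neg, ← sub_eq_add_neg] at this
      exact this
    obtain ⟨q, hq⟩ := sub_dvd_pow_sub_pow 1 (1 - s * algebraMap L R cs⁻¹) n
    have e : a = a * (1 - s * algebraMap L R cs⁻¹) ^ n + a * s * (algebraMap L R cs⁻¹ * q) := by
      linear_combination a * hq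
    rw [e]
    exact add_mem (Ideal.mul_mem_left _ _ (Ideal.pow_mem_pow h1 n)) (Ideal.mul_mem_right _ _ H)
  obtain ⟨c1, hg1⟩ := hg 0
  rw [pow_zero, div_one] at hg1
  obtain ⟨g1, g2, c2, c20, hg2, -, eg⟩ := R4 hg1
  obtain ⟨a, d, cd, cd0, hd, ha, ea⟩ := R4 h0
  rw [zero_mul] at ha
  have hn : ∀ n : ℕ, g1 ∈ m ^ n := by
    intro n
    obtain ⟨c, hcn⟩ := hg n
    obtain ⟨r, s, cs, cs0, hs, -, e⟩ := R4 hcn
    have hdn : ∀ j : ℕ, EvT p (d ^ j : R).1 (cd ^ j) := fun j => by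
      induction j with
      | zero => simpa using Val_one p
      | succ j ih =>
        rw [pow_succ, pow_succ]
        exact ih.mul hd
    refine key n g1 (s * d ^ n) (cs * cd ^ n) (mul_ne_zero cs0 (pow_ne_zero _ cd0))
      (hs.mul (hdn n)) ?_
    have e2 : g1 * (s * d ^ n) = r * g2 * a ^ n := by
      apply Subtype.ext
      apply IsFractionRing.injective (L ⊗[k] E) (FL k E L)
      simp only [MulMemClass.coe_mul, SubmonoidClass.coe_pow, map_mul, map_pow]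
      rw [← eg, ← ea, ← e, mul_pow]
      field_simp
    rw [e2]
    exact Ideal.mul_mem_left _ _ (Ideal.pow_mem_pow (show a ∈ m from ha) n)
  have h1 : g1 ∈ (⨅ n : ℕ, m ^ n) := Ideal.mem_iInf.2 hn
  rw [Ideal.iInf_pow_eq_bot_of_isDomain m hm, Ideal.mem_bot] at h1
  rw [h1] at eg
  exact (mul_eq_zero.1 (eg.trans (map_zero _))).resolve_right (ord_ev_ne hg2 c20)

/-- Order `n` with respect to the parameter `ϖ`. -/
def HO (p : Pt k E L) (ϖ f : FL k E L) (n : ℤ) : Prop := ∃ c, c ≠ 0 ∧ HasVal p (f / ϖ ^ n) c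

omit [Nonempty (GV k L)] in
theorem ord_reg (h : FF k t) {p : Pt k E L} (hp : t ∈ p.O) {ϖ g : FL k E L} (H : IsPar p ϖ)
    {c : L} (hg : HasVal p g c) (h0 : g ≠ 0) : ∃ n, HO p ϖ g n := by
  have h1 : ∃ n : ℕ, ¬ ∃ c, HasVal p (g / ϖ ^ n) c := by
    by_contra hc
    push Not at hc
    exact h0 (ord_krull h hp H.2.1 H.1 hc)
  have h2 := Nat.find_spec h1
  have h3 : Nat.find h1 ≠ 0 := fun e => h2 (by rw [e, pow_zero, div_one]; exact ⟨c, hg⟩)
  obtain ⟨n, hn⟩ := Nat.exists_eq_succ_of_ne_zero h3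
  have h4 := Nat.find_min h1 (m := n) (by omega)
  push Not at h4
  obtain ⟨d, hd⟩ := h4
  refine ⟨n, d, fun e => h2 ?_, by rwa [zpow_natCast]⟩
  subst e
  rw [hn, pow_succ, ← div_div]
  exact H.2.2 _ hd

omit [Nonempty (GV k L)] in
theorem HO.mul {p : Pt k E L} {ϖ f g : FL k E L} {n m : ℤ} (hϖ : ϖ ≠ 0) (hf : HO p ϖ f n)
    (hg : HO p ϖ g m) : HO p ϖ (f * g) (n + m) := by
  obtain ⟨c, c0, hc⟩ := hf
  obtain ⟨d, d0, hd⟩ := hg
  refine ⟨c * d, mul_ne_zero c0 d0, ?_⟩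
  rw [zpow_add₀ hϖ, mul_div_mul_comm]
  exact hc.mul hd

omit [Nonempty (GV k L)] in
theorem HO.inv {p : Pt k E L} {ϖ f : FL k E L} {n : ℤ} (hf : HO p ϖ f n) :
    HO p ϖ f⁻¹ (-n) := by
  obtain ⟨c, c0, hc⟩ := hf
  refine ⟨c⁻¹, inv_ne_zero c0, ?_⟩
  rw [zpow_neg, inv_div_inv, ← inv_div]
  exact hc.inv c0

omit [Nonempty (GV k L)] in
theorem ord_val_zpow {p : Pt k E L} {u : FL k E L} {c : L} (hu : HasVal p u c) (c0 : c ≠ 0)
    (n : ℤ) : HasVal p (u ^ n) (c ^ n) := by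
  obtain ⟨m, rfl | rfl⟩ := n.eq_nat_or_neg
  · simpa using hu.pow m
  · simpa using (hu.pow m).inv (pow_ne_zero _ c0)

omit [Nonempty (GV k L)] in
theorem HO.change {p : Pt k E L} {ϖ ϖ' f : FL k E L} {n : ℤ} (H : IsPar p ϖ) (H' : IsPar p ϖ')
    (hf : HO p ϖ f n) : HO p ϖ' f n := by
  obtain ⟨c, c0, hc⟩ := hf
  obtain ⟨a, ha⟩ := H'.2.2 _ H.2.1
  obtain ⟨b, hb⟩ := H.2.2 _ H'.2.1
  have h1 := ha.mul hb
  rw [div_mul_div_cancel₀ H'.1, div_self H.1] at h1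
  have a0 : a ≠ 0 := left_ne_zero_of_mul_eq_one (h1.unique (hasVal_one p))
  refine ⟨c * a ^ n, mul_ne_zero c0 (zpow_ne_zero _ a0), ?_⟩
  have := hc.mul (ord_val_zpow ha a0 n)
  rwa [div_zpow, div_mul_div_cancel₀ (zpow_ne_zero _ H.1)] at this

omit [Nonempty (GV k L)] in
theorem HO.val_le {p : Pt k E L} {ϖ f : FL k E L} {n m : ℤ} (H : IsPar p ϖ) {c : L}
    (hc : HasVal p (f / ϖ ^ n) c) (hm : m ≤ n) :
    ∃ d, HasVal p (f / ϖ ^ m) d ∧ (m < n → d = 0) := by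
  obtain ⟨j, rfl⟩ := Int.le.dest hm
  refine ⟨c * 0 ^ j, ?_, fun hlt => ?_⟩
  · have := hc.mul (H.2.1.pow j)
    rwa [zpow_add₀ H.1, zpow_natCast, ← div_div, div_mul_cancel₀ _ (pow_ne_zero _ H.1)] at this
  · rw [zero_pow (by omega), mul_zero]

omit [Nonempty (GV k L)] in
theorem HO.le {p : Pt k E L} {ϖ f : FL k E L} {n m : ℤ} (H : IsPar p ϖ) (hf : HO p ϖ f n) {c : L}
    (hc : HasVal p (f / ϖ ^ m) c) : m ≤ n := by
  by_contra hlt
  obtain ⟨d, hd, d0⟩ := HO.val_le H hc (not_le.1 hlt).le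
  obtain ⟨e, e0, he⟩ := hf
  exact e0 ((he.unique hd).trans (d0 (not_le.1 hlt)))

omit [Nonempty (GV k L)] in
theorem HO.ord_eq {p : Pt k E L} {ϖ f : FL k E L} {n : ℤ} (H : IsPar p ϖ) (hf : HO p ϖ f n) :
    ord p f = n := by
  have h1 : ∃ n, HasOrd p f n := ⟨n, ϖ, H, hf⟩
  rw [ord, dif_pos h1]
  obtain ⟨ϖ', H', h2⟩ := h1.choose_spec
  have h3 := HO.change H' H h2
  obtain ⟨c, c0, hc⟩ := id hf
  obtain ⟨d, d0, hd⟩ := id h3
  exact le_antisymm (hf.le H hd) (h3.le H hc)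

omit [Nonempty (GV k L)] in
theorem ord_exists_chart (h : FF k t) {p : Pt k E L} (hp : t ∈ p.O) {ϖ f : FL k E L}
    (H : IsPar p ϖ) (hf : f ≠ 0) : ∃ n, HO p ϖ f n := by
  have h1 : ∀ x : L ⊗[k] E, ∃ u : E, u ≠ 0 ∧ u ∈ p.O ∧
      ∃ c, EvT p ((1 : L) ⊗ₜ[k] u * x) c := by
    intro x
    induction x using TensorProduct.induction_on with
    | zero => exact ⟨1, one_ne_zero, one_mem _, _, by simpa using evT_tmul p 0 (one_mem p.O)⟩
    | tmul b a =>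
      obtain ⟨a', ha', P, hP, e⟩ := OO_frac h a
      refine ⟨aeval t P, pts_aeval_ne h hP, (p.ev_aeval hp P).1, ?_⟩
      rw [Algebra.TensorProduct.tmul_mul_tmul, mul_comm _ a, e]
      exact ⟨_, evT_tmul p _ (OO_le p.alg_mem hp _ ha')⟩
    | add x y hx hy =>
      obtain ⟨u, u0, u1, c, hc⟩ := hx
      obtain ⟨v, v0, v1, d, hd⟩ := hy
      refine ⟨u * v, mul_ne_zero u0 v0, mul_mem u1 v1, ?_⟩
      have := ((evT_tmul p 1 v1).mul hc).add ((evT_tmul p 1 u1).mul hd)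
      have e : (1 : L) ⊗ₜ[k] (u * v) = (1 : L) ⊗ₜ[k] u * (1 : L) ⊗ₜ[k] v := by
        rw [Algebra.TensorProduct.tmul_mul_tmul, one_mul]
      rw [e, show (1 : L) ⊗ₜ[k] u * (1 : L) ⊗ₜ[k] v * (x + y) =
        (1 : L) ⊗ₜ[k] v * ((1 : L) ⊗ₜ[k] u * x) + (1 : L) ⊗ₜ[k] u * ((1 : L) ⊗ₜ[k] v * y) by ring]
      exact ⟨_, this⟩
  have h2 : ∀ x : L ⊗[k] E, algebraMap _ (FL k E L) x ≠ 0 →
      ∃ n, HO p ϖ (algebraMap _ (FL k E L) x) n := by
    intro x hx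
    obtain ⟨u, u0, u1, c, hc⟩ := h1 x
    have hu : (tm 1 u : FL k E L) ≠ 0 := tm_ne_zero one_ne_zero u0
    obtain ⟨n, hn⟩ := ord_reg h hp H hc.hasVal (by rw [map_mul]; exact mul_ne_zero hu hx)
    obtain ⟨m, hm⟩ := ord_reg h hp H (hasVal_tm p 1 u1) hu
    have := hm.inv.mul H.1 hn
    rw [map_mul] at this
    rw [tm] at this hu
    exact ⟨_, by rwa [inv_mul_cancel_left₀ hu] at this⟩
  obtain ⟨x, y, hy, rfl⟩ := IsFractionRing.div_surjective (L ⊗[k] E) f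
  obtain ⟨hx0, hy0⟩ := div_ne_zero_iff.1 hf
  obtain ⟨n, hn⟩ := h2 x hx0
  obtain ⟨m, hm⟩ := h2 y hy0
  exact ⟨_, by rw [div_eq_mul_inv]; exact hn.mul H.1 hm.inv⟩

omit [Nonempty (GV k L)] in
theorem ord_ho (h : FF k t) {p : Pt k E L} {ϖ f : FL k E L} (H : IsPar p ϖ) (hf : f ≠ 0) :
    HO p ϖ f (ord p f) := by
  obtain ⟨n, hn⟩ : ∃ n, HO p ϖ f n := by
    rcases p.O.mem_or_inv_mem t with hp | hp
    · exact ord_exists_chart h hp H hf
    · exact ord_exists_chart h.inv hp H hf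
  rwa [hn.ord_eq H]

theorem ord_par (h : FF k t) (p : Pt k E L) : ∃ ϖ : FL k E L, IsPar p ϖ :=
  ⟨_, isPar_red h (Classical.arbitrary _) p⟩

theorem exists_hasOrd (h : FF k t) (p : Pt k E L) {f : FL k E L} (hf : f ≠ 0) :
    ∃ n, HasOrd p f n := by
  obtain ⟨ϖ, H⟩ := ord_par h p
  exact ⟨_, ϖ, H, ord_ho h H hf⟩

theorem HasOrd.ord_eq (h : FF k t) {p : Pt k E L} {f : FL k E L} {n : ℤ} (H : HasOrd p f n) :
    ord p f = n := by
  obtain ⟨ϖ, H1, H2⟩ := H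
  exact HO.ord_eq H1 H2

theorem ord_zero (p : Pt k E L) : ord p (0 : FL k E L) = 0 := by
  rw [ord, dif_neg]
  rintro ⟨n, ϖ, -, c, c0, hc⟩
  rw [zero_div] at hc
  exact c0 (hc.unique (hasVal_zero p))

theorem IsPar.ord_eq (h : FF k t) {p : Pt k E L} {ϖ : FL k E L} (H : IsPar p ϖ) :
    ord p ϖ = 1 := by
  refine HO.ord_eq H ⟨1, one_ne_zero, ?_⟩
  rw [zpow_one, div_self H.1]
  exact hasVal_one p

theorem ord_mul (h : FF k t) (p : Pt k E L) {f g : FL k E L} (hf : f ≠ 0) (hg : g ≠ 0) :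
    ord p (f * g) = ord p f + ord p g := by
  obtain ⟨ϖ, H⟩ := ord_par h p
  exact ((ord_ho h H hf).mul H.1 (ord_ho h H hg)).ord_eq H

theorem ord_of_val (h : FF k t) {p : Pt k E L} {f : FL k E L} {c : L} (hc : HasVal p f c)
    (c0 : c ≠ 0) : ord p f = 0 := by
  obtain ⟨ϖ, H⟩ := ord_par h p
  exact HO.ord_eq H ⟨c, c0, by rwa [zpow_zero, div_one]⟩

theorem ord_one (h : FF k t) (p : Pt k E L) : ord p (1 : FL k E L) = 0 := by
  exact ord_of_val h (hasVal_one p) one_ne_zero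

theorem ord_inv (h : FF k t) (p : Pt k E L) (f : FL k E L) : ord p f⁻¹ = -ord p f := by
  by_cases hf : f = 0
  · rw [hf, inv_zero, ord_zero, neg_zero]
  obtain ⟨ϖ, H⟩ := ord_par h p
  exact (ord_ho h H hf).inv.ord_eq H

theorem ord_zpow (h : FF k t) (p : Pt k E L) (f : FL k E L) (n : ℤ) :
    ord p (f ^ n) = n * ord p f := by
  by_cases hf : f = 0
  · by_cases hn : n = 0
    · rw [hn, zpow_zero, ord_one h, zero_mul]
    · rw [hf, zero_zpow n hn, ord_zero, mul_zero]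
  have h1 : ∀ m : ℕ, ord p (f ^ m) = m * ord p f := fun m => by
    induction m with
    | zero => rw [pow_zero, ord_one h, Nat.cast_zero, zero_mul]
    | succ m ih =>
      rw [pow_succ, ord_mul h p (pow_ne_zero _ hf) hf, ih]
      push_cast
      ring
  obtain ⟨m, rfl | rfl⟩ := n.eq_nat_or_neg
  · rw [zpow_natCast, h1]
  · rw [zpow_neg, zpow_natCast, ord_inv h, h1, neg_mul]

theorem ord_prod (h : FF k t) (p : Pt k E L) {ι : Type*} (s : Finset ι) {f : ι → FL k E L}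
    (hf : ∀ i ∈ s, f i ≠ 0) : ord p (∏ i ∈ s, f i) = ∑ i ∈ s, ord p (f i) := by
  induction s using Finset.induction_on with
  | empty => rw [Finset.prod_empty, Finset.sum_empty, ord_one h]
  | insert i s hi ih =>
    have h1 : ∀ j ∈ s, f j ≠ 0 := fun j hj => hf j (Finset.mem_insert_of_mem hj)
    rw [Finset.prod_insert hi, Finset.sum_insert hi, ord_mul h p (hf i (Finset.mem_insert_self _ _))
      (Finset.prod_ne_zero_iff.2 h1), ih h1]

omit [Nonempty (GV k L)] in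
theorem ord_le_iff (h : FF k t) {p : Pt k E L} {ϖ f : FL k E L} (H : IsPar p ϖ) (hf : f ≠ 0)
    (n : ℤ) : (∃ c, HasVal p (f / ϖ ^ n) c) ↔ n ≤ ord p f := by
  refine ⟨fun ⟨c, hc⟩ => (ord_ho h H hf).le H hc, fun hn => ?_⟩
  obtain ⟨c, -, hc⟩ := ord_ho h H hf
  obtain ⟨d, hd, -⟩ := HO.val_le H hc hn
  exact ⟨d, hd⟩

theorem hasVal_iff (h : FF k t) (p : Pt k E L) {f : FL k E L} (hf : f ≠ 0) :
    (∃ c, HasVal p f c) ↔ 0 ≤ ord p f := by
  obtain ⟨ϖ, H⟩ := ord_par h p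
  simpa using ord_le_iff h H hf 0

theorem hasVal_zero_iff (h : FF k t) (p : Pt k E L) {f : FL k E L} (hf : f ≠ 0) :
    HasVal p f 0 ↔ 0 < ord p f := by
  obtain ⟨ϖ, H⟩ := ord_par h p
  constructor
  · intro h0
    exact (ord_le_iff h H hf 1).1 (by simpa using H.2.2 f h0)
  · intro h0
    obtain ⟨c, -, hc⟩ := ord_ho h H hf
    obtain ⟨d, hd, d0⟩ := HO.val_le H hc h0.le
    rw [d0 h0] at hd
    simpa using hd

theorem hasVal_val (h : FF k t) (p : Pt k E L) {f : FL k E L} (hf : 0 ≤ ord p f) :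
    HasVal p f (val p f) := by
  by_cases h0 : f = 0
  · rw [h0, (hasVal_zero p).val_eq]
    exact hasVal_zero p
  obtain ⟨c, hc⟩ := (hasVal_iff h p h0).2 hf
  rwa [hc.val_eq]

theorem ord_eq_zero_iff (h : FF k t) (p : Pt k E L) {f : FL k E L} (hf : f ≠ 0) :
    ord p f = 0 ↔ ∃ c, c ≠ 0 ∧ HasVal p f c := by
  refine ⟨fun h0 => ?_, fun ⟨c, c0, hc⟩ => ord_of_val h hc c0⟩
  obtain ⟨ϖ, H⟩ := ord_par h p
  obtain ⟨c, c0, hc⟩ := ord_ho h H hf
  exact ⟨c, c0, by simpa [h0] using hc⟩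

theorem le_ord_add (h : FF k t) (p : Pt k E L) {f g : FL k E L} (hfg : f + g ≠ 0) {n : ℤ}
    (hf : f ≠ 0 → n ≤ ord p f) (hg : g ≠ 0 → n ≤ ord p g) : n ≤ ord p (f + g) := by
  obtain ⟨ϖ, H⟩ := ord_par h p
  have h1 : ∀ {u : FL k E L}, (u ≠ 0 → n ≤ ord p u) → ∃ c, HasVal p (u / ϖ ^ n) c := by
    intro u hu
    by_cases h0 : u = 0
    · exact ⟨0, by rw [h0, zero_div]; exact hasVal_zero p⟩
    · exact (ord_le_iff h H h0 n).2 (hu h0)
  obtain ⟨c, hc⟩ := h1 hf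
  obtain ⟨d, hd⟩ := h1 hg
  exact (ord_le_iff h H hfg n).1 ⟨c + d, by rw [add_div]; exact hc.add hd⟩

theorem ord_map (h : FF k t) (g : L ≃ₐ[k] L) (p : Pt k E L) (f : FL k E L) :
    ord (g • p) (mapF g f) = ord p f := by
  by_cases hf : f = 0
  · rw [hf, map_zero, ord_zero, ord_zero]
  obtain ⟨ϖ, H⟩ := ord_par h p
  have H' : IsPar (g • p) (mapF g ϖ) := by
    refine ⟨(_root_.map_ne_zero _).2 H.1, by simpa using H.2.1.map g, fun u hu => ?_⟩
    have h1 := hu.map g⁻¹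
    rw [inv_smul_smul, map_zero] at h1
    obtain ⟨c, hc⟩ := H.2.2 _ h1
    have h2 := hc.map g
    have h3 := mapF_inv_mapF g⁻¹ u
    rw [inv_inv] at h3
    rw [map_div₀, h3] at h2
    exact ⟨_, h2⟩
  obtain ⟨c, c0, hc⟩ := ord_ho h H hf
  have h2 := hc.map g
  rw [map_div₀, map_zpow₀] at h2
  exact HO.ord_eq H' ⟨_, (_root_.map_ne_zero g).2 c0, h2⟩

theorem ord_tm_one (h : FF k t) (p : Pt k E L) (c : L) : ord p (tm c (1 : E)) = 0 := by
  by_cases hc : c = 0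
  · rw [hc, tm, TensorProduct.zero_tmul, map_zero, ord_zero]
  refine ord_of_val h (hasVal_tm p c (one_mem _)) ?_
  rwa [p.ev_one, mul_one]

theorem ord_tm_ofHom (h : FF k t) (y : E →ₐ[k] L) (c : L) (a : E) :
    ord (Pt.ofHom y) (tm c a) = 0 := by
  by_cases hc : c = 0
  · rw [hc, tm, TensorProduct.zero_tmul, map_zero, ord_zero]
  by_cases ha : a = 0
  · rw [ha, tm, TensorProduct.tmul_zero, map_zero, ord_zero]
  exact ord_of_val h (hasVal_tm _ c (ValuationSubring.mem_top a))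
    (mul_ne_zero hc ((_root_.map_ne_zero y).2 ha))

theorem ord_tm_const (h : FF k t) {x : Pt k E L} (hx : x.O ≠ ⊤) {a : E} (ha : a ≠ 0) {n : ℤ}
    (h1 : a / unif x.O ^ n ∈ x.O) (h2 : (a / unif x.O ^ n)⁻¹ ∈ x.O) :
    ord x (tm (1 : L) a) = n := by
  obtain ⟨w⟩ := ‹Nonempty (GV k L)›
  have H := isPar_red h w x
  have hO : redO w x = x.O := congrArg Pt.O (red_const h w hx)
  rw [hO, x.ev_unif h hx, tm, tm, TensorProduct.zero_tmul, map_zero, sub_zero] at H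
  have hπ := Red_unif_ne h (x.place hx)
  let φ : E →+* FL k E L := (algebraMap (L ⊗[k] E) (FL k E L)).comp
    (Algebra.TensorProduct.includeRight : E →ₐ[k] L ⊗[k] E).toRingHom
  have hv := hasVal_tm x (1 : L) h1
  refine HO.ord_eq H ⟨_, mul_ne_zero one_ne_zero
    (x.ev_ne_zero (div_ne_zero ha (zpow_ne_zero n hπ)) h1 h2), ?_⟩
  have e : φ (a / unif x.O ^ n) = φ a / φ (unif x.O) ^ n := by rw [map_div₀, map_zpow₀]
  exact e ▸ hv

end Pool.Agent.FFC
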