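import Pool.Agent.P.MP_a2beea_nt.FC.Defs2
import Pool.Agent.P.MP_a2beea_nt.RR.NB

/-! Places of the function field. `OO k t` is a Dedekind domain with fraction field `E`
(`IsIntegralClosure.isDedekindDomain` over the PID `Algebra.adjoin k {t}`, which is `k[X]` by
`Polynomial.algEquivOfTranscendental`, with fraction field `k⟮t⟯`). A valuation subring which
contains `k` and `t` is integrally closed, so it contains `OO k t`; if it is proper, its centre is
a nonzero prime `P` and it contains the DVR `(OO k t)_P`, hence equals it (a DVR is a maximal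
proper subring). If `t` is not in `O`, use the chart `t⁻¹`. -/

open Polynomial
open scoped TensorProduct NNReal IntermediateField

namespace Pool.Agent.FFC

open Classical Pool.Agent.P.MP_a2beea_nt

variable {k : Type*} [Field k] [Fintype k] {E : Type*} [Field E] [Algebra k E] {t : E}

omit [Fintype k] in
theorem FF.chart (h : FF k t) : RR.Chart k⟮t⟯ t := ⟨h.trans, rfl, h.fin, h.sep⟩

omit [Fintype k] in
theorem mem_OO_iff {a : E} : a ∈ OO k t ↔ a ∈ RR.Ou k t := RR.mem_Ou_iff_isIntegral.symm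

omit [Fintype k] in
theorem OO_eq (t : E) : OO k t = RR.Ou k t := SetLike.ext fun _ => mem_OO_iff

omit [Fintype k] in
theorem adjoin_inv (t : E) : k⟮t⁻¹⟯ = k⟮t⟯ := by
  apply le_antisymm
  · exact IntermediateField.adjoin_simple_le_iff.2
      (inv_mem (IntermediateField.mem_adjoin_simple_self k t))
  · refine IntermediateField.adjoin_simple_le_iff.2 ?_
    simpa using inv_mem (IntermediateField.mem_adjoin_simple_self k t⁻¹)

omit [Fintype k] in
theorem mem_LL_iff_Ln [RR.IsFF k E] (ht : t ≠ 0) {m : ℕ} {a : E} :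
    a ∈ LL k t m ↔ a ∈ RR.Ln t (0 : RR.Divisor k E) m := by
  rw [RR.mem_Ln_iff ht, RR.mem_Iu_zero, RR.mem_Iu_zero, ← mem_OO_iff, ← mem_OO_iff, zpow_neg,
    zpow_natCast, ← inv_pow, mul_comm]
  rfl

omit [Fintype k] in
theorem LL_eq_Ln [RR.IsFF k E] (ht : t ≠ 0) (m : ℕ) :
    LL k t m = RR.Ln t (0 : RR.Divisor k E) m := SetLike.ext fun _ => mem_LL_iff_Ln ht

omit [Fintype k] in
theorem isUnif_iff [RR.IsFF k E] (P : RR.Place k E) {π : E} : IsUnif P.O π ↔ P.ord π = 1 := by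
  constructor
  · rintro ⟨h1, h2, h3⟩
    obtain ⟨z, z0, z1⟩ := P.exists_unif
    have h0 : π ≠ 0 := by rintro rfl; simp at h2
    have h4 := h3 z (P.mem_iff.2 (by omega)) (by rw [P.notMem_iff, P.ord_inv]; omega)
    rw [P.mem_iff, P.ord_div z0 h0] at h4
    rw [P.notMem_iff, P.ord_inv] at h2
    omega
  · intro h1
    have h0 : π ≠ 0 := by rintro rfl; simp at h1
    refine ⟨P.mem_iff.2 (by omega), by rw [P.notMem_iff, P.ord_inv]; omega, fun a _ ha => ?_⟩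
    have a0 : a ≠ 0 := by rintro rfl; simp at ha
    rw [P.notMem_iff, P.ord_inv] at ha
    rw [P.mem_iff, P.ord_div a0 h0]; omega

omit [Fintype k] in
theorem ord_unif [RR.IsFF k E] (P : RR.Place k E) : unif P.O ≠ 0 ∧ P.ord (unif P.O) = 1 := by
  have h1 : ∃ π, IsUnif P.O π := by
    obtain ⟨z, -, z1⟩ := P.exists_unif
    exact ⟨z, (isUnif_iff P).2 z1⟩
  have h2 : P.ord (unif P.O) = 1 := by
    rw [unif, dif_pos h1]; exact (isUnif_iff P).1 h1.choose_spec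
  exact ⟨fun h0 => by simp [h0] at h2, h2⟩

theorem FF.inv (h : FF k t) : FF k t⁻¹ :=
  ⟨h.chart.inv.trans, by rw [adjoin_inv]; exact h.fin, by rw [adjoin_inv]; exact h.sep, h.reg⟩

theorem dg_inv (t : E) : dg k t⁻¹ = dg k t := by rw [dg, dg, adjoin_inv]

theorem FF.dg_pos (h : FF k t) : 0 < dg k t := by
  have := h.fin
  exact Module.finrank_pos

theorem FF.ne_zero (h : FF k t) : t ≠ 0 := h.chart.ne_zero

theorem self_mem_OO (t : E) : t ∈ OO k t := mem_OO_iff.2 (RR.self_mem_Ou t)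

theorem OO_le {O : ValuationSubring E} (hk : ∀ c : k, algebraMap k E c ∈ O) (ht : t ∈ O) :
    ∀ a ∈ OO k t, a ∈ O := by
  intro a ha
  by_cases hT : O = ⊤
  · subst hT; exact ValuationSubring.mem_top a
  · exact mem_OO_iff.1 ha ⟨O, hT, hk⟩ ht

theorem OO_fg (h : FF k t) : ∃ S : Finset E, Algebra.adjoin k (S : Set E) = OO k t := by
  rw [OO_eq]; exact h.chart.fg

theorem OO_frac (h : FF k t) (a : E) :
    ∃ b ∈ OO k t, ∃ P : k[X], P ≠ 0 ∧ a * aeval t P = b := by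
  have := h.chart.isFF
  obtain ⟨p, hp, hp'⟩ := RR.exists_aeval_mul_mem t (0 : RR.Divisor k E) a
  exact ⟨_, mem_OO_iff.2 (RR.mem_Iu_zero.1 hp'), p, hp, mul_comm _ _⟩

theorem LL_mono (h : FF k t) {m m' : ℕ} (hm : m ≤ m') : LL k t m ≤ LL k t m' := by
  have := h.chart.isFF
  rw [LL_eq_Ln h.ne_zero, LL_eq_Ln h.ne_zero]
  exact RR.Ln_mono _ _ (by exact_mod_cast hm)

/-- If `a ^ n + ∑ P_i(t) a ^ i = 0` then `a / t ^ m` is integral over `k[1/t]` for large `m`. -/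
theorem OO_pole (h : FF k t) {a : E} (ha : a ∈ OO k t) : ∃ m, a ∈ LL k t m := by
  have := h.chart.isFF
  obtain ⟨m, hm⟩ := RR.exists_mem_Ln (RR.mem_Iu_zero.2 (mem_OO_iff.1 ha))
  exact ⟨m, (mem_LL_iff_Ln h.ne_zero).2 hm⟩

theorem place_frac (h : FF k t) {O : ValuationSubring E} (hO : IsPlace k O) (ht : t ∈ O)
    {a : E} (ha : a ∈ O) :
    ∃ b ∈ OO k t, ∃ s ∈ OO k t, s ≠ 0 ∧ s⁻¹ ∈ O ∧ a * s = b := by
  obtain ⟨s, hs, hs1, hs2⟩ := h.chart.exists_mul_mem ⟨O, hO.1, hO.2⟩ ht ha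
  exact ⟨_, mem_OO_iff.2 hs2, s, mem_OO_iff.2 hs, fun h0 => hs1 (h0 ▸ O.nonunits.zero_mem),
    RR.Place.inv_mem_of_notMem_nonunits ⟨O, hO.1, hO.2⟩ hs1, mul_comm _ _⟩

theorem place_unif (h : FF k t) {O : ValuationSubring E} (hO : IsPlace k O) :
    IsUnif O (unif O) := by
  have := h.chart.isFF
  exact (isUnif_iff ⟨O, hO.1, hO.2⟩).2 (ord_unif ⟨O, hO.1, hO.2⟩).2

theorem place_factor (h : FF k t) {O : ValuationSubring E} (hO : IsPlace k O) {a : E}
    (ha : a ≠ 0) : ∃ n : ℤ, a / unif O ^ n ∈ O ∧ (a / unif O ^ n)⁻¹ ∈ O := by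
  have := h.chart.isFF
  obtain ⟨P, rfl⟩ : ∃ P : RR.Place k E, P.O = O := ⟨⟨O, hO.1, hO.2⟩, rfl⟩
  obtain ⟨h0, h1⟩ := ord_unif P
  have h2 : P.ord (a / unif P.O ^ P.ord a) = 0 := by
    rw [P.ord_div ha (zpow_ne_zero _ h0), P.ord_zpow, h1]; ring
  exact ⟨P.ord a, P.mem_iff.2 h2.ge, P.mem_iff.2 (by rw [P.ord_inv]; exact (neg_eq_zero.2 h2).ge)⟩

/-- The residue field is algebraic over `k`. -/
theorem place_res (h : FF k t) {O : ValuationSubring E} (hO : IsPlace k O) {a : E} (ha : a ∈ O) :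
    ∃ μ : k[X], μ.Monic ∧ Irreducible μ ∧ aeval a μ / unif O ∈ O := by
  have := h.chart.isFF
  obtain ⟨P, rfl⟩ : ∃ P : RR.Place k E, P.O = O := ⟨⟨O, hO.1, hO.2⟩, rfl⟩
  obtain ⟨h0, h1⟩ := ord_unif P
  have hi : IsIntegral k (IsLocalRing.residue P.O ⟨a, ha⟩) := IsIntegral.of_finite k _
  refine ⟨_, minpoly.monic hi, minpoly.irreducible hi, ?_⟩
  set μ := minpoly k (IsLocalRing.residue P.O ⟨a, ha⟩)
  have h2 : IsLocalRing.residue P.O (aeval (⟨a, ha⟩ : P.O) μ) = 0 := by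
    rw [← minpoly.aeval k (IsLocalRing.residue P.O ⟨a, ha⟩)]
    exact (aeval_algHom_apply (IsScalarTower.toAlgHom k P.O (IsLocalRing.ResidueField P.O))
      ⟨a, ha⟩ μ).symm
  rw [IsLocalRing.residue_eq_zero_iff, ← ValuationSubring.coe_mem_nonunits_iff] at h2
  have h3 : aeval a μ = ((aeval (⟨a, ha⟩ : P.O) μ : P.O) : E) :=
    aeval_algHom_apply (IsScalarTower.toAlgHom k P.O E) (⟨a, ha⟩ : P.O) μ
  rw [← h3, ← P.mem_pw_one] at h2
  show _ ∈ P.O
  rw [← P.mem_pw_zero, div_eq_inv_mul, P.mul_mem_pw_iff (inv_ne_zero h0), P.ord_inv]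
  show _ ∈ P.pw (0 - -P.ord (unif P.O))
  rw [h1]; exact h2

/-- An element which lies in all places containing `t` is integral over `k[t]`. -/
theorem mem_OO_of_forall (h : FF k t) {a : E}
    (ha : ∀ O : ValuationSubring E, IsPlace k O → t ∈ O → a ∈ O) : a ∈ OO k t :=
  mem_OO_iff.2 fun P hP => ha P.O ⟨P.ne_top, P.const_mem⟩ hP

end Pool.Agent.FFC
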