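import Pool.Agent.P.MP_a2beea_nt.FC.Place

/-! Points. A point `p` with `t ∈ p.O` is determined by the `k`-algebra map `OO k t → L`, and every
such map comes from a point: if it is injective it extends to `E` (`Pt.ofHom`), otherwise its
kernel is a nonzero prime of the Dedekind domain `OO k t` and we take the localisation.
Fibres: the maps `OO k t → L` with `t ↦ c` exist by lying over (`IsAlgClosed.lift` on
the quotient by a prime above the kernel of `k[t] → L`) and are finitely many (generators go to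
roots of finitely many monic polynomials). For `c` transcendental make `L` a `k⟮t⟯`-algebra by
`t ↦ c` and use `AlgHom.card`. Points with `t ∉ p.O` are the points with `t⁻¹ ↦ 0`. -/

open Polynomial
open scoped TensorProduct NNReal IntermediateField

namespace Pool.Agent.FFC

open Classical

variable {k : Type*} [Field k] [Fintype k] {E : Type*} [Field E] [Algebra k E] {t : E}
  {L : Type*} [Field L] [Algebra k L] [IsAlgClosed L]

theorem Pt.place (p : Pt k E L) (hp : p.O ≠ ⊤) : IsPlace k p.O := ⟨hp, p.alg_mem⟩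

theorem Pt.eq_ofHom (p : Pt k E L) (hp : p.O = ⊤) : ∃ y : E →ₐ[k] L, p = Pt.ofHom y := by
  have hm : ∀ a, a ∈ p.O := fun a => hp ▸ ValuationSubring.mem_top a
  refine ⟨{ toFun := p.ev
            map_one' := p.ev_one
            map_mul' := fun a b => p.ev_mul a (hm a) b (hm b)
            map_zero' := p.ev_zero
            map_add' := fun a b => p.ev_add a (hm a) b (hm b)
            commutes' := p.ev_alg }, ?_⟩
  exact Pt.ext hp rfl

theorem Pt.ofHom_injective : Function.Injective (Pt.ofHom : (E →ₐ[k] L) → Pt k E L) := by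
  intro y z h
  refine AlgHom.ext fun a => ?_
  exact congrArg (fun p : Pt k E L => p.ev a) h

theorem Pt.smul_ofHom (g : L ≃ₐ[k] L) (y : E →ₐ[k] L) :
    g • Pt.ofHom y = Pt.ofHom (tw g y) := rfl

theorem Pt.ev_aeval (p : Pt k E L) {a : E} (ha : a ∈ p.O) (P : k[X]) :
    aeval a P ∈ p.O ∧ p.ev (aeval a P) = aeval (p.ev a) P := by
  induction P using Polynomial.induction_on with
  | C c =>
    rw [aeval_C, aeval_C]
    exact ⟨p.alg_mem c, p.ev_alg c⟩
  | add P Q hP hQ =>
    rw [map_add, map_add]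
    exact ⟨add_mem hP.1 hQ.1, by rw [p.ev_add _ hP.1 _ hQ.1, hP.2, hQ.2]⟩
  | monomial n c ih =>
    rw [pow_succ, ← mul_assoc, map_mul (aeval a), map_mul (aeval (p.ev a)), aeval_X, aeval_X]
    exact ⟨mul_mem ih.1 ha, by rw [p.ev_mul _ ih.1 _ ha, ih.2]⟩

theorem Pt.ev_ne_zero (p : Pt k E L) {a : E} (h0 : a ≠ 0) (ha : a ∈ p.O) (ha' : a⁻¹ ∈ p.O) :
    p.ev a ≠ 0 := by
  have := p.ev_mul a ha a⁻¹ ha'
  rw [mul_inv_cancel₀ h0, p.ev_one] at this
  intro h
  rw [h, zero_mul] at this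
  exact one_ne_zero this

theorem pts_ev_unif (h : FF k t) (p : Pt k E L) (hp : p.O ≠ ⊤) : p.ev (unif p.O) = 0 :=
  p.ev_max _ (place_unif h (p.place hp)).1 (place_unif h (p.place hp)).2.1

theorem Pt.alg_of_const (h : FF k t) (p : Pt k E L) (hp : p.O ≠ ⊤) (a : E) :
    IsAlgebraic k (p.ev a) := by
  by_cases ha : a ∈ p.O
  · obtain ⟨μ, hm, -, hμ⟩ := place_res h (p.place hp) ha
    have hu := place_unif h (p.place hp)
    have h0 : unif p.O ≠ 0 := by
      intro h0
      apply hu.2.1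
      rw [h0, inv_zero]
      exact zero_mem _
    refine ⟨μ, hm.ne_zero, ?_⟩
    rw [← (p.ev_aeval ha μ).2, ← div_mul_cancel₀ (aeval a μ) h0, p.ev_mul _ hμ _ hu.1,
      pts_ev_unif h p hp, mul_zero]
  · rw [p.junk a ha]
    exact isAlgebraic_zero

theorem Pt.ev_unif (h : FF k t) (p : Pt k E L) (hp : p.O ≠ ⊤) : p.ev (unif p.O) = 0 :=
  pts_ev_unif h p hp

theorem pts_aeval_mem (t : E) (P : k[X]) : aeval t P ∈ OO k t := by
  have : aeval t P = (OO k t).val (aeval (⟨t, self_mem_OO t⟩ : OO k t) P) := by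
    rw [← aeval_algHom_apply]
    rfl
  rw [this]
  exact Subtype.property _

theorem pts_aeval_ne (h : FF k t) {P : k[X]} (hP : P ≠ 0) : aeval t P ≠ 0 :=
  fun h0 => h.trans ⟨P, hP, h0⟩

theorem pts_frac (h : FF k t) (p : Pt k E L) (hp : t ∈ p.O) {a : E} (ha : a ∈ p.O) :
    ∃ b ∈ OO k t, ∃ s ∈ OO k t, p.ev s ≠ 0 ∧ a * s = b := by
  by_cases htop : p.O = ⊤
  · obtain ⟨b, hb, P, hP, e⟩ := OO_frac h a
    have hm : ∀ a, a ∈ p.O := fun a => htop ▸ ValuationSubring.mem_top a
    exact ⟨b, hb, _, pts_aeval_mem t P, p.ev_ne_zero (pts_aeval_ne h hP) (hm _) (hm _), e⟩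
  · obtain ⟨b, hb, s, hs, h0, hs', e⟩ := place_frac h (p.place htop) hp ha
    exact ⟨b, hb, s, hs, p.ev_ne_zero h0 (OO_le p.alg_mem hp s hs) hs', e⟩

theorem pts_of_frac (p : Pt k E L) (hp : t ∈ p.O) {a b s : E} (hb : b ∈ OO k t)
    (hs : s ∈ OO k t) (h0 : p.ev s ≠ 0) (e : a * s = b) :
    a ∈ p.O ∧ p.ev a = p.ev b / p.ev s := by
  have hsO := OO_le p.alg_mem hp s hs
  have hbO := OO_le p.alg_mem hp b hb
  have hs' : s⁻¹ ∈ p.O := by
    by_contra hn
    exact h0 (p.ev_max s hsO hn)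
  have hs0 : s ≠ 0 := by
    rintro rfl
    exact h0 p.ev_zero
  have ha : a ∈ p.O := by
    have : a = b * s⁻¹ := by rw [← e, mul_inv_cancel_right₀ hs0]
    rw [this]
    exact mul_mem hbO hs'
  refine ⟨ha, ?_⟩
  rw [eq_div_iff h0, ← p.ev_mul a ha s hsO, e]

theorem Pt.ext_OO (h : FF k t) {p p' : Pt k E L} (hp : t ∈ p.O) (hp' : t ∈ p'.O)
    (he : ∀ a ∈ OO k t, p.ev a = p'.ev a) : p = p' := by
  have key : ∀ (q q' : Pt k E L), t ∈ q.O → t ∈ q'.O → (∀ a ∈ OO k t, q.ev a = q'.ev a) →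
      ∀ a ∈ q.O, a ∈ q'.O ∧ q.ev a = q'.ev a := by
    intro q q' hq hq' hqq a ha
    obtain ⟨b, hb, s, hs, h0, e⟩ := pts_frac h q hq ha
    have h1 := pts_of_frac q hq hb hs h0 e
    have h2 := pts_of_frac q' hq' hb hs (by rwa [← hqq s hs]) e
    exact ⟨h2.1, by rw [h1.2, h2.2, hqq b hb, hqq s hs]⟩
  have hO : p.O = p'.O := by
    ext a
    exact ⟨fun ha => (key p p' hp hp' he a ha).1,
      fun ha => (key p' p hp' hp (fun a ha => (he a ha).symm) a ha).1⟩
  refine Pt.ext hO (funext fun a => ?_)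
  by_cases ha : a ∈ p.O
  · exact (key p p' hp hp' he a ha).2
  · rw [p.junk a ha, p'.junk a (hO ▸ ha)]

/-- The localisation at the kernel of a homomorphism. -/
def ptsLoc (χ : OO k t →ₐ[k] L) : Subring E where
  carrier := {a | ∃ b s : OO k t, χ s ≠ 0 ∧ a * s = b}
  zero_mem' := ⟨0, 1, by simp, by simp⟩
  one_mem' := ⟨1, 1, by simp, by simp⟩
  add_mem' := by
    rintro a a' ⟨b, s, hs, e⟩ ⟨b', s', hs', e'⟩
    refine ⟨b * s' + b' * s, s * s', by rw [map_mul]; exact mul_ne_zero hs hs', ?_⟩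
    push_cast
    rw [← e, ← e']
    ring
  mul_mem' := by
    rintro a a' ⟨b, s, hs, e⟩ ⟨b', s', hs', e'⟩
    refine ⟨b * b', s * s', by rw [map_mul]; exact mul_ne_zero hs hs', ?_⟩
    push_cast
    rw [← e, ← e']
    ring
  neg_mem' := by
    rintro a ⟨b, s, hs, e⟩
    refine ⟨-b, s, hs, ?_⟩
    push_cast
    rw [← e]
    ring

theorem pts_loc_val (h : FF k t) (χ : OO k t →ₐ[k] L) (a : E) :
    a ∈ ptsLoc χ ∨ a⁻¹ ∈ ptsLoc χ := by
  by_cases hinj : ∀ s : OO k t, χ s = 0 → s = 0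
  · obtain ⟨b, hb, P, hP, e⟩ := OO_frac h a
    refine Or.inl ⟨⟨b, hb⟩, ⟨_, pts_aeval_mem t P⟩, fun h0 => ?_, e⟩
    exact pts_aeval_ne h hP (congrArg Subtype.val (hinj _ h0))
  · push Not at hinj
    obtain ⟨s₀, hs₀, hne⟩ := hinj
    let χ' : (OO k t).toSubring →+* L := χ.toRingHom
    obtain ⟨B, hB, hB'⟩ := Ideal.image_subset_nonunits_valuationSubring (RingHom.ker χ')
      (RingHom.ker_ne_top χ')
    have hn : ∀ s : OO k t, χ s = 0 → (s : E) = 0 ∨ (s : E)⁻¹ ∉ B := by
      intro s hs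
      exact B.mem_nonunits_iff_or.1 (hB' ⟨s, hs, rfl⟩)
    have hpl : IsPlace k B := by
      refine ⟨?_, fun c => hB ((OO k t).algebraMap_mem c)⟩
      intro htop
      rcases hn s₀ hs₀ with h1 | h1
      · exact hne (Subtype.ext h1)
      · exact h1 (htop ▸ ValuationSubring.mem_top _)
    have hle : ∀ x ∈ B, x ∈ ptsLoc χ := by
      intro x hx
      obtain ⟨b, hb, s, hs, h0, hs', e⟩ := place_frac h hpl (hB (self_mem_OO t)) hx
      refine ⟨⟨b, hb⟩, ⟨s, hs⟩, fun h1 => ?_, e⟩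
      rcases hn _ h1 with h2 | h2
      · exact h0 h2
      · exact h2 hs'
    exact (B.mem_or_inv_mem a).imp (hle _) (hle _)

/-- The value on the localisation. -/
noncomputable def ptsEv (χ : OO k t →ₐ[k] L) (a : E) : L :=
  if H : ∃ b s : OO k t, χ s ≠ 0 ∧ a * s = b then χ H.choose / χ H.choose_spec.choose else 0

theorem ptsEv_eq (χ : OO k t →ₐ[k] L) {a : E} {b s : OO k t} (hs : χ s ≠ 0) (e : a * s = b) :
    ptsEv χ a = χ b / χ s := by
  have H : ∃ b s : OO k t, χ s ≠ 0 ∧ a * s = b := ⟨b, s, hs, e⟩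
  unfold ptsEv
  rw [dif_pos H]
  obtain ⟨h1, h2⟩ := H.choose_spec.choose_spec
  rw [div_eq_div_iff h1 hs, ← map_mul, ← map_mul]
  refine congrArg χ (Subtype.ext ?_)
  push_cast
  linear_combination (H.choose_spec.choose : E) * e - (s : E) * h2

theorem Pt.exists_of_hom (h : FF k t) (χ : OO k t →ₐ[k] L) :
    ∃ p : Pt k E L, t ∈ p.O ∧ ∀ a : OO k t, p.ev a = χ a := by
  have h1 : χ 1 ≠ 0 := by simp
  have hev : ∀ a : OO k t, ptsEv χ a = χ a := by
    intro a
    rw [ptsEv_eq χ (b := a) h1 (by simp), map_one, div_one]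
  refine ⟨{ O := { ptsLoc χ with mem_or_inv_mem' := pts_loc_val h χ }
            ev := ptsEv χ
            junk := fun a ha => dif_neg ha
            alg_mem := fun c => ⟨algebraMap k _ c, 1, h1, by simp⟩
            ev_alg := fun c => (hev (algebraMap k _ c)).trans (χ.commutes c)
            ev_add := ?_
            ev_mul := ?_
            ev_max := ?_ }, ⟨⟨t, self_mem_OO t⟩, 1, h1, by simp⟩, hev⟩
  · rintro a ⟨b, s, hs, e⟩ a' ⟨b', s', hs', e'⟩
    have hss : χ (s * s') ≠ 0 := by rw [map_mul]; exact mul_ne_zero hs hs'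
    rw [ptsEv_eq χ hs e, ptsEv_eq χ hs' e', ptsEv_eq χ (b := b * s' + b' * s) hss
      (by push_cast; rw [← e, ← e']; ring), map_add, map_mul, map_mul, map_mul]
    field_simp
  · rintro a ⟨b, s, hs, e⟩ a' ⟨b', s', hs', e'⟩
    have hss : χ (s * s') ≠ 0 := by rw [map_mul]; exact mul_ne_zero hs hs'
    rw [ptsEv_eq χ hs e, ptsEv_eq χ hs' e', ptsEv_eq χ (b := b * b') hss
      (by push_cast; rw [← e, ← e']; ring), map_mul, map_mul]
    field_simp
  · rintro a ⟨b, s, hs, e⟩ hn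
    rw [ptsEv_eq χ hs e]
    by_contra hne
    have hb : χ b ≠ 0 := fun h0 => hne (by rw [h0, zero_div])
    have ha : a ≠ 0 := by
      rintro rfl
      apply hb
      have : b = 0 := Subtype.ext (by rw [← e]; simp)
      rw [this, map_zero]
    exact hn ⟨s, b, hb, by rw [← e, inv_mul_cancel_left₀ ha]⟩

theorem Pt.const_iff (h : FF k t) {p : Pt k E L} (hp : t ∈ p.O) :
    p.O ≠ ⊤ ↔ IsAlgebraic k (p.ev t) := by
  refine ⟨fun hc => p.alg_of_const h hc t, fun ha htop => ?_⟩
  obtain ⟨y, rfl⟩ := p.eq_ofHom htop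
  exact h.trans ((isAlgebraic_algHom_iff y y.toRingHom.injective).1 ha)

/-- The restriction of a point to the affine ring. -/
def ptsHom (p : Pt k E L) (hp : t ∈ p.O) : OO k t →ₐ[k] L where
  toFun := fun a => p.ev a
  map_one' := p.ev_one
  map_mul' := fun a b => p.ev_mul a (OO_le p.alg_mem hp a a.2) b (OO_le p.alg_mem hp b b.2)
  map_zero' := p.ev_zero
  map_add' := fun a b => p.ev_add a (OO_le p.alg_mem hp a a.2) b (OO_le p.alg_mem hp b b.2)
  commutes' := p.ev_alg

/-- The specialisation of `k[t]` at `c`. -/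
noncomputable def ptsSp (h : FF k t) (c : L) : Algebra.adjoin k {t} →ₐ[k] L :=
  (aeval c).comp (Polynomial.algEquivOfTranscendental k t h.trans).symm.toAlgHom

theorem ptsSp_spec (h : FF k t) (c : L) (x : Algebra.adjoin k {t}) :
    ∃ P : k[X], (x : E) = aeval t P ∧ ptsSp h c x = aeval c P := by
  obtain ⟨P, rfl⟩ := (Polynomial.algEquivOfTranscendental k t h.trans).surjective x
  refine ⟨P, ?_, ?_⟩
  · rw [Polynomial.algEquivOfTranscendental_apply]
    exact (aeval_algHom_apply (Algebra.adjoin k {t}).val _ P).symm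
  · simp [ptsSp]

theorem ptsSp_self (h : FF k t) (c : L) :
    ptsSp h c ⟨t, Algebra.self_mem_adjoin_singleton k t⟩ = c := by
  rw [← Polynomial.algEquivOfTranscendental_apply_X k t h.trans]
  simp [ptsSp]

theorem pts_vals (h : FF k t) (c : L) {a : E} (ha : a ∈ OO k t) :
    ∃ R : Set L, R.Finite ∧ ∀ p : Pt k E L, t ∈ p.O → p.ev t = c → p.ev a ∈ R := by
  obtain ⟨F, hF, e⟩ : IsIntegral (Algebra.adjoin k {t}) a := id ha
  let G : L[X] := F.map (ptsSp h c).toRingHom
  have hG : G.Monic := hF.map _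
  refine ⟨{x | G.IsRoot x}, G.finite_setOf_isRoot hG.ne_zero, fun p hp hc => ?_⟩
  let ι : Algebra.adjoin k {t} →+* OO k t :=
    algebraMap (Algebra.adjoin k {t}) (integralClosure (Algebra.adjoin k {t}) E)
  have e1 : F.eval₂ ι ⟨a, ha⟩ = 0 := by
    apply Subtype.ext
    have := Polynomial.hom_eval₂ F ι (OO k t).val.toRingHom ⟨a, ha⟩
    exact this.trans e
  have e2 := Polynomial.hom_eval₂ F ι (ptsHom p hp).toRingHom ⟨a, ha⟩
  have e3 : (ptsHom p hp).toRingHom.comp ι = (ptsSp h c).toRingHom := by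
    refine RingHom.ext fun x => ?_
    obtain ⟨P, h1, h2⟩ := ptsSp_spec h c x
    have : p.ev (x : E) = ptsSp h c x := by
      rw [h1, h2, (p.ev_aeval hp P).2, hc]
    exact this
  rw [e1, map_zero, e3] at e2
  change G.eval (p.ev a) = 0
  rw [Polynomial.eval_map]
  exact e2.symm

theorem fibre_finite (h : FF k t) (c : L) : {p : Pt k E L | t ∈ p.O ∧ p.ev t = c}.Finite := by
  obtain ⟨S, hS⟩ := OO_fg h
  have hm : ∀ s : S, (s : E) ∈ OO k t := fun s => hS ▸ Algebra.subset_adjoin s.2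
  choose R hR hR' using fun s : S => pts_vals h c (hm s)
  refine Set.Finite.of_injOn (f := fun p (s : S) => p.ev s) (t := Set.univ.pi R) ?_ ?_
    (Set.Finite.pi hR)
  · intro p hp s _
    exact hR' s p hp.1 hp.2
  · intro p hp p' hp' e
    refine Pt.ext_OO h hp.1 hp'.1 fun a ha => ?_
    have hO := OO_le p.alg_mem hp.1
    have hO' := OO_le p'.alg_mem hp'.1
    rw [← hS] at ha hO hO'
    induction ha using Algebra.adjoin_induction with
    | mem x hx => exact congrFun e ⟨x, hx⟩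
    | algebraMap r => rw [p.ev_alg, p'.ev_alg]
    | add x y hx hy ihx ihy =>
      rw [p.ev_add x (hO x hx) y (hO y hy), p'.ev_add x (hO' x hx) y (hO' y hy), ihx, ihy]
    | mul x y hx hy ihx ihy =>
      rw [p.ev_mul x (hO x hx) y (hO y hy), p'.ev_mul x (hO' x hx) y (hO' y hy), ihx, ihy]

theorem pts_extend {A B L : Type*} [CommRing A] [CommRing B] [IsDomain B] [Algebra A B]
    [Algebra.IsIntegral A B] (hinj : Function.Injective (algebraMap A B)) [Field L]
    [IsAlgClosed L] (φ : A →+* L) : ∃ χ : B →+* L, χ.comp (algebraMap A B) = φ := by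
  have hP : (RingHom.ker φ).IsPrime := RingHom.ker_isPrime φ
  obtain ⟨Q, hQ, hQP⟩ := Ideal.exists_ideal_over_prime_of_isIntegral_of_isDomain (S := B)
    (RingHom.ker φ) (by rw [(RingHom.injective_iff_ker_eq_bot _).1 hinj]; exact bot_le)
  have hQ' : (Q.comap (algebraMap A B)).IsPrime := hQP ▸ hP
  let φ' : A ⧸ Q.comap (algebraMap A B) →+* L :=
    Ideal.Quotient.lift _ φ fun a ha => by rwa [hQP] at ha
  have hφ' : Function.Injective φ' := by
    refine (injective_iff_map_eq_zero _).2 fun x hx => ?_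
    obtain ⟨x, rfl⟩ := Ideal.Quotient.mk_surjective x
    rw [Ideal.Quotient.eq_zero_iff_mem, hQP]
    exact hx
  letI : Algebra (A ⧸ Q.comap (algebraMap A B)) L := φ'.toAlgebra
  haveI : FaithfulSMul (A ⧸ Q.comap (algebraMap A B)) L :=
    (faithfulSMul_iff_algebraMap_injective _ _).2 hφ'
  haveI : FaithfulSMul (A ⧸ Q.comap (algebraMap A B)) (B ⧸ Q) :=
    (faithfulSMul_iff_algebraMap_injective _ _).2 Ideal.algebraMap_quotient_injective
  let ψ : (B ⧸ Q) →ₐ[A ⧸ Q.comap (algebraMap A B)] L := IsAlgClosed.lift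
  refine ⟨ψ.toRingHom.comp (Ideal.Quotient.mk Q), RingHom.ext fun a => ?_⟩
  exact ψ.commutes (Ideal.Quotient.mk _ a)

theorem fibre_nonempty (h : FF k t) (c : L) : ∃ p : Pt k E L, t ∈ p.O ∧ p.ev t = c := by
  obtain ⟨χ, hχ⟩ := pts_extend (A := Algebra.adjoin k {t})
    (B := integralClosure (Algebra.adjoin k {t}) E)
    (fun x y e => Subtype.ext
      (congrArg (fun z : integralClosure (Algebra.adjoin k {t}) E => (z : E)) e))
    (ptsSp h c).toRingHom
  let χ' : OO k t →ₐ[k] L :=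
    { toRingHom := χ
      commutes' := fun r =>
        (RingHom.congr_fun hχ (algebraMap k _ r)).trans ((ptsSp h c).commutes r) }
  obtain ⟨p, hp, hp'⟩ := Pt.exists_of_hom h χ'
  refine ⟨p, hp, (hp' ⟨t, self_mem_OO t⟩).trans ?_⟩
  exact (RingHom.congr_fun hχ ⟨t, Algebra.self_mem_adjoin_singleton k t⟩).trans (ptsSp_self h c)

theorem inf_finite (h : FF k t) : {p : Pt k E L | t ∉ p.O}.Finite := by
  refine (fibre_finite h.inv (0 : L)).subset fun p hp => ?_
  have h1 : t⁻¹ ∈ p.O := (p.O.mem_or_inv_mem t).resolve_left hp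
  exact ⟨h1, p.ev_max _ h1 (by rwa [inv_inv])⟩

theorem hom_fibre_finite (h : FF k t) (c : L) : {y : E →ₐ[k] L | y t = c}.Finite := by
  refine Set.Finite.of_injOn (f := Pt.ofHom) ?_ Pt.ofHom_injective.injOn (fibre_finite h c)
  intro y hy
  exact ⟨ValuationSubring.mem_top _, hy⟩

theorem hom_fibre_card (h : FF k t) {c : L} (hc : Transcendental k c) :
    {y : E →ₐ[k] L | y t = c}.ncard = dg k t := by
  obtain ⟨p, hp, hpc⟩ := fibre_nonempty h c
  have htop : p.O = ⊤ := by
    by_contra hn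
    exact hc (hpc ▸ (Pt.const_iff h hp).1 hn)
  obtain ⟨y₀, rfl⟩ := p.eq_ofHom htop
  have hy₀ : y₀ t = c := hpc
  letI : Algebra k⟮t⟯ L := (y₀.comp k⟮t⟯.val).toRingHom.toAlgebra
  haveI : IsScalarTower k k⟮t⟯ L :=
    IsScalarTower.of_algebraMap_eq fun r => ((y₀.comp k⟮t⟯.val).commutes r).symm
  haveI := h.fin
  haveI := h.sep
  have hcard := AlgHom.card k⟮t⟯ E L
  unfold dg
  rw [← hcard, ← Nat.card_eq_fintype_card, ← Nat.card_coe_set_eq]
  refine (Nat.card_congr (Equiv.ofBijective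
    (fun z : E →ₐ[k⟮t⟯] L => (⟨z.restrictScalars k, ?_⟩ : {y : E →ₐ[k] L | y t = c})) ⟨?_, ?_⟩)).symm
  · exact (z.commutes (IntermediateField.AdjoinSimple.gen k t)).trans hy₀
  · intro z z' e
    exact AlgHom.restrictScalars_injective k (congrArg Subtype.val e)
  · rintro ⟨y, hy⟩
    have e : y.comp k⟮t⟯.val = y₀.comp k⟮t⟯.val := by
      refine IntermediateField.adjoin_algHom_ext k fun x hx => ?_
      rw [Set.mem_singleton_iff] at hx
      subst hx
      exact hy.trans hy₀.symm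
    exact ⟨{ toRingHom := y.toRingHom, commutes' := fun r => AlgHom.congr_fun e r }, rfl⟩

/-- There are infinitely many finite constant points. -/
theorem const_infinite (h : FF k t) : {p : Pt k E L | t ∈ p.O ∧ p.O ≠ ⊤}.Infinite := by
  haveI : IsAlgClosed (algebraicClosure k L) := IsAlgClosure.isAlgClosed k
  choose f hf hf' using fun c : algebraicClosure k L => fibre_nonempty h (c : L)
  refine Set.infinite_of_injective_forall_mem (f := f) ?_ fun c => ⟨hf c, ?_⟩
  · intro c c' e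
    apply Subtype.ext
    rw [← hf' c, ← hf' c', e]
  · rw [Pt.const_iff h (hf c), hf' c]
    exact mem_algebraicClosure_iff.1 c.2

theorem pts_fr_pow (i : ℕ) (x : L) : (fr k L ^ i) x = x ^ Fintype.card k ^ i := by
  induction i generalizing x with
  | zero => simp
  | succ i ih => rw [pow_succ, AlgEquiv.mul_apply, ih, fr_apply, ← pow_mul, pow_succ']

theorem pts_conj {κ : Type*} [Field κ] [Algebra k κ] [Finite κ] (σ σ' : κ →ₐ[k] L) :
    ∃ i : ℕ, ∀ x, σ' x = σ x ^ Fintype.card k ^ i := by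
  haveI : FiniteDimensional k κ := Module.Finite.of_finite
  have hb := FiniteField.bijective_frobeniusAlgHom_pow k κ
  have hinj : Function.Injective fun n : Fin (Module.finrank k κ) =>
      σ.comp (FiniteField.frobeniusAlgHom k κ ^ n.1) := by
    intro n m e
    apply hb.1
    refine AlgHom.ext fun x => σ.toRingHom.injective ?_
    exact AlgHom.congr_fun e x
  have hbij := (Fintype.bijective_iff_injective_and_card _).2
    ⟨hinj, by rw [Fintype.card_fin, AlgHom.card]⟩
  obtain ⟨n, hn⟩ := hbij.2 σ'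
  refine ⟨n.1, fun x => ?_⟩
  rw [← hn, ← map_pow]
  refine congrArg σ ?_
  generalize n.1 = m
  induction m generalizing x with
  | zero => simp
  | succ m ih =>
    have e := ih (x ^ Fintype.card k)
    rw [pow_succ, pow_succ' (Fintype.card k), pow_mul]
    exact e

theorem pts_orbit (h : FF k t) {x x' : Pt k E L} (ht : t ∈ x.O) (hx : x.O ≠ ⊤)
    (hO : x.O = x'.O) : ∃ i : ℕ, x' = (fr k L ^ i) • x := by
  have ht' : t ∈ x'.O := hO ▸ ht
  let χ := ptsHom x ht
  let χ' := ptsHom x' ht'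
  have hker : ∀ a ∈ RingHom.ker χ, χ' a = 0 := by
    intro a ha
    have ha1 : (a : E) ∈ x.O := OO_le x.alg_mem ht a a.2
    by_cases h0 : (a : E) = 0
    · change x'.ev a = 0
      rw [h0, x'.ev_zero]
    · by_cases hi : (a : E)⁻¹ ∈ x.O
      · exact absurd ha (x.ev_ne_zero h0 ha1 hi)
      · exact x'.ev_max a (hO ▸ ha1) (hO ▸ hi)
  let σ : (OO k t ⧸ RingHom.ker χ) →ₐ[k] L := Ideal.kerLiftAlg χ
  have hσ : Function.Injective σ := Ideal.kerLiftAlg_injective χ
  let σ' : (OO k t ⧸ RingHom.ker χ) →ₐ[k] L := Ideal.Quotient.liftₐ _ χ' hker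
  haveI : (RingHom.ker χ).IsPrime := RingHom.ker_isPrime χ
  haveI : Algebra.FiniteType k (OO k t) := by
    obtain ⟨S, hS⟩ := OO_fg h
    exact (Subalgebra.fg_iff_finiteType _).1 ⟨S, hS⟩
  haveI : Algebra.IsIntegral k (OO k t ⧸ RingHom.ker χ) := by
    refine ⟨fun y => ?_⟩
    obtain ⟨a, rfl⟩ := Ideal.Quotient.mk_surjective y
    exact ((isAlgebraic_algHom_iff σ hσ).1 (x.alg_of_const h hx a)).isIntegral
  haveI : Module.Finite k (OO k t ⧸ RingHom.ker χ) := Algebra.IsIntegral.finite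
  haveI : Finite (OO k t ⧸ RingHom.ker χ) := Module.finite_of_finite k
  haveI : (RingHom.ker χ).IsMaximal :=
    Ideal.Quotient.maximal_of_isField _ (Finite.isField_of_domain _)
  letI : Field (OO k t ⧸ RingHom.ker χ) := Ideal.Quotient.field _
  obtain ⟨i, hi⟩ := pts_conj σ σ'
  refine ⟨i, Pt.ext_OO h ht' ht fun a ha => ?_⟩
  rw [Pt.smul_ev, pts_fr_pow]
  exact hi (Ideal.Quotient.mk _ ⟨a, ha⟩)

/-- Constant points over the same place are conjugate under Frobenius. -/
theorem orbit_of_O_eq (h : FF k t) {x x' : Pt k E L} (hx : x.O ≠ ⊤) (hO : x.O = x'.O) :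
    ∃ i : ℕ, x' = (fr k L ^ i) • x := by
  rcases x.O.mem_or_inv_mem t with ht | ht
  · exact pts_orbit h ht hx hO
  · exact pts_orbit h.inv ht hx hO

/-- A common period of the points at infinity. -/
theorem exists_period (h : FF k t) :
    ∃ F : ℕ, 0 < F ∧ ∀ x : Pt k E L, t ∉ x.O → (fr k L ^ F) • x = x := by
  have hfin := inf_finite (L := L) h
  have key : ∀ x : Pt k E L, ∃ n : ℕ, 0 < n ∧ (t ∉ x.O → (fr k L ^ n) • x = x) := by
    intro x
    by_cases hx : t ∈ x.O
    · exact ⟨1, one_pos, fun h' => absurd hx h'⟩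
    · obtain ⟨i, j, hij, e⟩ := Set.Finite.exists_lt_map_eq_of_forall_mem
        (f := fun n : ℕ => (fr k L ^ n) • x) (fun n => hx) hfin
      obtain ⟨d, rfl⟩ := Nat.exists_eq_add_of_lt hij
      refine ⟨d + 1, Nat.succ_pos d, fun _ => ?_⟩
      rw [add_assoc, pow_add, mul_smul] at e
      exact (MulAction.injective _ e).symm
  choose n hn hn' using key
  refine ⟨∏ x ∈ hfin.toFinset, n x, Finset.prod_pos fun x _ => hn x, fun x hx => ?_⟩
  obtain ⟨m, hm⟩ := Finset.dvd_prod_of_mem n (hfin.mem_toFinset.2 hx)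
  rw [hm, pow_mul]
  exact (MulAction.stabilizer (L ≃ₐ[k] L) x).pow_mem (hn' x hx) m

end Pool.Agent.FFC
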