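import Pool.Agent.P.MP_a2beea_nt.FC.Det
import Pool.Agent.P.MP_a2beea_nt.FC.Mov

/-! Positivity. Call `x ≡ x'` if `BBm P t (x - x') = 0`. `move_to_set`: by `moving` and `BBm_divN`,
`-y ≡` a sum of at most `B` distinct points of the same height outside any finite set, and
(moving each of them again, enlarging the forbidden set each time) `y ≡` a sum of at most `B ^ 2`
such points; induct on `x` with `c` and `H` additive. `BBm_nonneg`: take `n` pairwise disjoint sets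
`S_1, …, S_n` with `x ≡ ∑ S_i`; `psd1` for the union gives
`0 ≤ n (n - 1) BBm x x + n (2 c H + 2 g H)`, because `kk y z ≤ ht y + ht z`; let `n → ∞`. -/

open Polynomial
open scoped TensorProduct NNReal IntermediateField

namespace Pool.Agent.FFC

open Classical

section Abstract

variable {X : Type*}

/-- The divisor class of `x` is represented by a bounded set of points outside any finite set. -/
def PsdGood (B : (X →₀ ℤ) →ₗ[ℤ] (X →₀ ℤ) →ₗ[ℤ] ℝ) (a : X → ℝ) (x : X →₀ ℤ) : Prop :=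
  ∃ (c : ℕ) (H : ℝ), ∀ T : Finset X, ∃ S : Finset X, Disjoint S T ∧
    S.card ≤ c ∧ ∑ z ∈ S, a z ≤ H ∧ B x = B (∑ z ∈ S, Finsupp.single z 1)

theorem psdGood_zero (B : (X →₀ ℤ) →ₗ[ℤ] (X →₀ ℤ) →ₗ[ℤ] ℝ) (a : X → ℝ) : PsdGood B a 0 :=
  ⟨0, 0, fun T => ⟨∅, by simp, by simp, by simp, by simp⟩⟩

theorem psdGood_add {B : (X →₀ ℤ) →ₗ[ℤ] (X →₀ ℤ) →ₗ[ℤ] ℝ} {a : X → ℝ} {x y : X →₀ ℤ}
    (hx : PsdGood B a x) (hy : PsdGood B a y) : PsdGood B a (x + y) := by
  obtain ⟨c, H, hx⟩ := hx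
  obtain ⟨c', H', hy⟩ := hy
  refine ⟨c + c', H + H', fun T => ?_⟩
  obtain ⟨S, hST, hc, hH, hB⟩ := hx T
  obtain ⟨S', hST', hc', hH', hB'⟩ := hy (T ∪ S)
  rw [Finset.disjoint_union_right] at hST'
  have hd : Disjoint S S' := hST'.2.symm
  refine ⟨S ∪ S', Finset.disjoint_union_left.2 ⟨hST, hST'.1⟩, ?_, ?_, ?_⟩
  · exact (Finset.card_union_le _ _).trans (add_le_add hc hc')
  · rw [Finset.sum_union hd]
    exact add_le_add hH hH'
  · rw [Finset.sum_union hd, map_add, map_add, hB, hB']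

theorem psdGood_sum {B : (X →₀ ℤ) →ₗ[ℤ] (X →₀ ℤ) →ₗ[ℤ] ℝ} {a : X → ℝ} (f : X → X →₀ ℤ)
    (hf : ∀ z, PsdGood B a (f z)) (S : Finset X) : PsdGood B a (∑ z ∈ S, f z) := by
  induction S using Finset.induction_on with
  | empty => simpa using psdGood_zero B a
  | insert z S hz ih =>
    rw [Finset.sum_insert hz]
    exact psdGood_add (hf z) ih

theorem psdGood_all {B : (X →₀ ℤ) →ₗ[ℤ] (X →₀ ℤ) →ₗ[ℤ] ℝ} {a : X → ℝ} (ha : ∀ z, 0 ≤ a z)
    {N : ℕ} (hmov : ∀ (y : X) (T : Finset X), ∃ S : Finset X, Disjoint S T ∧ S.card ≤ N ∧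
      (∀ z ∈ S, a z = a y) ∧ B (Finsupp.single y 1 + ∑ z ∈ S, Finsupp.single z 1) = 0)
    (x : X →₀ ℤ) : PsdGood B a x := by
  have hneg : ∀ y, PsdGood B a (-Finsupp.single y 1) := by
    intro y
    refine ⟨N, N * a y, fun T => ?_⟩
    obtain ⟨S, hST, hc, hh, hB⟩ := hmov y T
    refine ⟨S, hST, hc, ?_, ?_⟩
    · rw [Finset.sum_congr rfl hh, Finset.sum_const, nsmul_eq_mul]
      exact mul_le_mul_of_nonneg_right (by exact_mod_cast hc) (ha y)
    · rw [map_add] at hB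
      rw [map_neg]
      exact neg_eq_of_add_eq_zero_right hB
  have hpos : ∀ y, PsdGood B a (Finsupp.single y 1) := by
    intro y
    obtain ⟨S, -, -, -, hB⟩ := hmov y ∅
    obtain ⟨c, H, hg⟩ := psdGood_sum (fun z => -Finsupp.single z 1) hneg S
    refine ⟨c, H, fun T => ?_⟩
    obtain ⟨S', h1, h2, h3, h4⟩ := hg T
    refine ⟨S', h1, h2, h3, ?_⟩
    rw [← h4, Finset.sum_neg_distrib, map_neg]
    rw [map_add] at hB
    exact eq_neg_of_add_eq_zero_left hB
  induction x using Finsupp.induction_linear with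
  | zero => exact psdGood_zero B a
  | add f g hf hg => exact psdGood_add hf hg
  | single y n =>
    induction n using Int.induction_on with
    | zero => simpa using psdGood_zero B a
    | succ n ih =>
      rw [Finsupp.single_add]
      exact psdGood_add ih (hpos y)
    | pred n ih =>
      rw [sub_eq_add_neg, Finsupp.single_add, Finsupp.single_neg y 1]
      exact psdGood_add ih (hneg y)

theorem psd_union (q : X → X → ℝ) {U S : Finset X} (hd : Disjoint U S) :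
    ∑ y ∈ U ∪ S, ∑ z ∈ (U ∪ S).erase y, q y z =
      (∑ y ∈ U, ∑ z ∈ U.erase y, q y z) + (∑ y ∈ S, ∑ z ∈ S.erase y, q y z) +
        (∑ y ∈ U, ∑ z ∈ S, q y z) + ∑ y ∈ S, ∑ z ∈ U, q y z := by
  rw [Finset.sum_union hd]
  have h1 : ∀ y ∈ U, ∑ z ∈ (U ∪ S).erase y, q y z =
      (∑ z ∈ U.erase y, q y z) + ∑ z ∈ S, q y z := by
    intro y hy
    have hyS : y ∉ S := Finset.disjoint_left.1 hd hy
    rw [Finset.erase_union_distrib, Finset.erase_eq_of_notMem hyS,
      Finset.sum_union (hd.mono_left (Finset.erase_subset _ _))]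
  have h2 : ∀ y ∈ S, ∑ z ∈ (U ∪ S).erase y, q y z =
      (∑ z ∈ U, q y z) + ∑ z ∈ S.erase y, q y z := by
    intro y hy
    have hyU : y ∉ U := Finset.disjoint_right.1 hd hy
    rw [Finset.erase_union_distrib, Finset.erase_eq_of_notMem hyU,
      Finset.sum_union (hd.mono_right (Finset.erase_subset _ _))]
  rw [Finset.sum_congr rfl h1, Finset.sum_congr rfl h2, Finset.sum_add_distrib,
    Finset.sum_add_distrib]
  ring

theorem psd_abstract {B : (X →₀ ℤ) →ₗ[ℤ] (X →₀ ℤ) →ₗ[ℤ] ℝ} {a : X → ℝ} (ha : ∀ z, 0 ≤ a z)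
    (q : X → X → ℝ) (hcomm : ∀ x y, B x y = B y x)
    (hq : ∀ y z, y ≠ z → B (Finsupp.single y 1) (Finsupp.single z 1) = q y z)
    (hle : ∀ y z, q y z ≤ a y + a z) {γ : ℝ} (hγ : 0 ≤ γ)
    (hpsd : ∀ S : Finset X, 0 ≤ (∑ y ∈ S, ∑ z ∈ S.erase y, q y z) + γ * ∑ y ∈ S, a y)
    {x : X →₀ ℤ} (hx : PsdGood B a x) : 0 ≤ B x x := by
  obtain ⟨c, H, hx⟩ := hx
  have hcross : ∀ U S : Finset X, Disjoint U S → ∑ y ∈ U, ∑ z ∈ S, q y z =
      B (∑ y ∈ U, Finsupp.single y 1) (∑ z ∈ S, Finsupp.single z 1) := by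
    intro U S hd
    rw [map_sum B, LinearMap.sum_apply]
    refine Finset.sum_congr rfl fun y hy => ?_
    rw [map_sum]
    refine Finset.sum_congr rfl fun z hz => (hq y z ?_).symm
    rintro rfl
    exact Finset.disjoint_left.1 hd hy hz
  have hin : ∀ S : Finset X, S.card ≤ c → ∑ z ∈ S, a z ≤ H →
      ∑ y ∈ S, ∑ z ∈ S.erase y, q y z ≤ 2 * c * H := by
    intro S hc hH
    have h0 : 0 ≤ ∑ z ∈ S, a z := Finset.sum_nonneg fun z _ => ha z
    have hc' : (S.card : ℝ) ≤ c := by exact_mod_cast hc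
    calc ∑ y ∈ S, ∑ z ∈ S.erase y, q y z ≤ ∑ y ∈ S, ∑ z ∈ S, (a y + a z) := by
          refine Finset.sum_le_sum fun y _ => ?_
          calc ∑ z ∈ S.erase y, q y z ≤ ∑ z ∈ S.erase y, (a y + a z) :=
                Finset.sum_le_sum fun z _ => hle y z
            _ ≤ ∑ z ∈ S, (a y + a z) :=
                Finset.sum_le_sum_of_subset_of_nonneg (Finset.erase_subset _ _)
                  fun z _ _ => add_nonneg (ha y) (ha z)
      _ = 2 * S.card * ∑ z ∈ S, a z := by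
          simp only [Finset.sum_add_distrib, Finset.sum_const, nsmul_eq_mul, ← Finset.mul_sum]
          ring
      _ ≤ 2 * c * H := by
          have := mul_le_mul hc' hH h0 (Nat.cast_nonneg c)
          linarith
  have key : ∀ n : ℕ, ∃ U : Finset X, B (∑ y ∈ U, Finsupp.single y 1) = n • B x ∧
      ∑ y ∈ U, ∑ z ∈ U.erase y, q y z ≤ n * (n - 1) * B x x + n * (2 * c * H) ∧
      ∑ y ∈ U, a y ≤ n * H := by
    intro n
    induction n with
    | zero => exact ⟨∅, by simp, by simp, by simp⟩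
    | succ n ih =>
      obtain ⟨U, hU1, hU2, hU3⟩ := ih
      obtain ⟨S, hSU, hc, hH, hB⟩ := hx U
      have hd : Disjoint U S := hSU.symm
      refine ⟨U ∪ S, ?_, ?_, ?_⟩
      · rw [Finset.sum_union hd, map_add, hU1, ← hB, succ_nsmul]
      · have e1 : B (∑ y ∈ U, Finsupp.single y 1) (∑ z ∈ S, Finsupp.single z 1) =
            n * B x x := by
          rw [hU1, LinearMap.smul_apply, hcomm x, ← hB, nsmul_eq_mul]
        rw [psd_union q hd, hcross U S hd, hcross S U hSU, hcomm (∑ z ∈ S, Finsupp.single z 1),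
          e1]
        have := hin S hc hH
        push_cast
        nlinarith
      · rw [Finset.sum_union hd]
        push_cast
        linarith
  by_contra hneg
  have hb : B x x < 0 := lt_of_not_ge hneg
  obtain ⟨m, hm⟩ := exists_nat_gt ((2 * c * H + γ * H) / (-B x x))
  rw [div_lt_iff₀ (by linarith)] at hm
  obtain ⟨U, -, hU2, hU3⟩ := key (m + 1)
  have h1 := hpsd U
  have h2 := mul_le_mul_of_nonneg_left hU3 hγ
  push_cast at hU2 h2
  have h3 : 0 ≤ ((m : ℝ) + 1) * (m * B x x + (2 * c * H + γ * H)) := by nlinarith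
  have h4 : (0 : ℝ) < (m : ℝ) + 1 := by positivity
  have h5 := nonneg_of_mul_nonneg_right h3 h4
  linarith

end Abstract

variable {k : Type*} [Field k] [Fintype k] {E : Type*} [Field E] [Algebra k E] {t : E}
  {L : Type*} [Field L] [Algebra k L] [IsAlgClosed L]
  [IsDomain (L ⊗[k] E)]
  [Nonempty (GV k L)]
  {θ : L}

theorem move_to_set (h : FF k t) {g : ℕ} (hR : RR0 k t g) (P : PD k θ)
    (x : (E →ₐ[k] L) →₀ ℤ) :
    ∃ (c : ℕ) (H : ℝ), ∀ T : Finset (E →ₐ[k] L), ∃ S : Finset (E →ₐ[k] L), Disjoint S T ∧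
      S.card ≤ c ∧ ∑ z ∈ S, ht P t (Pt.ofHom z) ≤ H ∧
      BBm P t x = BBm P t (∑ z ∈ S, Finsupp.single z 1) := by
  obtain ⟨N, hN⟩ := moving h hR P
  refine psdGood_all (B := BBm P t) (a := fun z => ht P t (Pt.ofHom z))
    (fun z => ht_nonneg P t _) (N := N) (fun y T => ?_) x
  obtain ⟨f, S, -, -, h1, h2, h3, h4⟩ := hN y T
  refine ⟨S, h1, h2, h3, ?_⟩
  rw [← h4]
  exact LinearMap.ext fun w => BBm_divN h hR P f w

theorem BBm_nonneg (h : FF k t) {g : ℕ} (hR : RR0 k t g) (P : PD k θ)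
    (x : (E →ₐ[k] L) →₀ ℤ) : 0 ≤ BBm P t x x := by
  refine psd_abstract (B := BBm P t) (a := fun z => ht P t (Pt.ofHom z))
    (fun z => ht_nonneg P t _) (kk P t) (BBm_comm P t) (fun y z hyz => ?_) (fun y z => ?_)
    (γ := 2 * g) (by positivity) (fun S => psd1 h hR P S) (move_to_set h hR P x)
  · rw [BBm_single, kp, if_neg hyz]
  · have := ip_nonneg h P (Pt.ofHom y) (Pt.ofHom z)
    unfold kk
    linarith

end Pool.Agent.FFC
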