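import Pool.Agent.P.MP_a2beea_nt.FC.Points

/-! Reduction of points and the distance `dst`. Key lemma `expansion` (induction on `N`, for all
`a` at once): let `c = x.ev a`, `μ` as in `place_res`, `μ(a) = π b` with `b ∈ x.O`;
`μ = (X - c) (d + (X - c) μ₂)` with `d ≠ 0` (finite fields are perfect). For `p` with
`red w p = x` we get `d (p(a) - c) = p(π) p(b) - (p(a) - c) ^ 2 μ₂(p(a))`, and the right side is
known to one more order than `p(a)` and `p(b)`. `v_sub_le_dst` follows by letting `N → ∞`,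
because `P(u) - P(u')` is divisible by `u - u'`. -/

set_option linter.unusedSectionVars false

open Polynomial
open scoped TensorProduct NNReal IntermediateField

namespace Pool.Agent.FFC

open Classical

variable {k : Type*} [Field k] [Fintype k] {E : Type*} [Field E] [Algebra k E] {t : E}
  {L : Type*} [Field L] [Algebra k L] [IsAlgClosed L]

theorem Red_alg (c : algebraicClosure k L) :
    IsAlgebraic k (algebraMap (algebraicClosure k L) L c) :=
  mem_algebraicClosure_iff.mp c.2

theorem Red_aeval_le (w : GV k L) (P : (algebraicClosure k L)[X]) {x : L} (hx : w.v x ≤ 1) :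
    w.v (aeval x P) ≤ 1 := by
  induction P using Polynomial.induction_on with
  | C a => rw [aeval_C]; exact w.alg_le (Red_alg a)
  | add p q hp hq => rw [map_add]; exact (w.v.map_add _ _).trans (max_le hp hq)
  | monomial n a ih =>
    rw [pow_succ, ← mul_assoc, map_mul, aeval_X, map_mul]
    exact mul_le_one' ih hx

theorem Red_aeval_sub_le (w : GV k L) (P : (algebraicClosure k L)[X]) {x y : L}
    (hx : w.v x ≤ 1) (hy : w.v y ≤ 1) : w.v (aeval x P - aeval y P) ≤ w.v (x - y) := by
  induction P using Polynomial.induction_on with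
  | C a => rw [aeval_C, aeval_C, sub_self, map_zero]; exact zero_le
  | add p q hp hq =>
    have e : aeval x (p + q) - aeval y (p + q) =
        (aeval x p - aeval y p) + (aeval x q - aeval y q) := by
      rw [map_add, map_add]; ring
    rw [e]
    exact (w.v.map_add _ _).trans (max_le hp hq)
  | monomial n a ih =>
    have e : aeval x (C a * X ^ (n + 1)) - aeval y (C a * X ^ (n + 1)) =
        (aeval x (C a * X ^ n) - aeval y (C a * X ^ n)) * x +
          aeval y (C a * X ^ n) * (x - y) := by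
      rw [pow_succ, ← mul_assoc, map_mul (aeval x), map_mul (aeval y) (C a * X ^ n), aeval_X,
        aeval_X]
      ring
    rw [e]
    refine (w.v.map_add _ _).trans (max_le ?_ ?_)
    · rw [map_mul]
      exact (mul_le_of_le_one_right' hx).trans ih
    · rw [map_mul]
      exact mul_le_of_le_one_left' (Red_aeval_le w _ hy)

theorem redO_place (h : FF k t) (w : GV k L) (p : Pt k E L) : IsPlace k (redO w p) := by
  refine ⟨fun htop => ?_, (red w p).alg_mem⟩
  have hall : ∀ a : E, a ∈ p.O ∧ w.v (p.ev a) ≤ 1 := fun a =>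
    mem_redO.mp (htop ▸ ValuationSubring.mem_top a)
  obtain ⟨c, hc, hlt⟩ := w.res (p.ev t) (hall t).2
  obtain ⟨μ, hμ0, hμ⟩ := hc
  have ha0 : aeval t μ ≠ 0 := fun h0 => h.trans ⟨μ, hμ0, h0⟩
  have hev := (p.ev_aeval (hall t).1 μ).2
  have h1 : w.v (p.ev (aeval t μ)) < 1 := by
    have h2 := Red_aeval_sub_le w (μ.map (algebraMap k (algebraicClosure k L))) (hall t).2
      (w.alg_le ⟨μ, hμ0, hμ⟩)
    rw [aeval_map_algebraMap, aeval_map_algebraMap, hμ, sub_zero] at h2
    rw [hev]
    exact h2.trans_lt hlt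
  have h3 := (hall (aeval t μ)⁻¹).2
  have h4 := p.ev_ne_zero ha0 (hall _).1 (hall _).1
  rw [p.ev_inv _ (hall _).1 (hall _).1, map_inv₀] at h3
  have h5 : 0 < w.v (p.ev (aeval t μ)) := (w.v.pos_iff).mpr h4
  exact absurd ((inv_le_one₀ h5).mp h3) (not_le.mpr h1)

theorem red_const (h : FF k t) (w : GV k L) {p : Pt k E L} (hp : p.O ≠ ⊤) : red w p = p := by
  have hO : redO w p = p.O := by
    ext a
    exact ⟨fun ha => (mem_redO.mp ha).1,
      fun ha => mem_redO.mpr ⟨ha, w.alg_le (p.alg_of_const h hp a)⟩⟩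
  refine Pt.ext hO (funext fun a => ?_)
  by_cases ha : a ∈ p.O
  · rw [red_ev (hO ▸ ha)]
    exact w.rc_eq (p.alg_of_const h hp a) (by simp)
  · rw [p.junk a ha]
    exact (red w p).junk a (by rwa [red_O, hO])

theorem red_ne_top (h : FF k t) (w : GV k L) (p : Pt k E L) : (red w p).O ≠ ⊤ :=
  (redO_place h w p).1

theorem red_eq_iff (w : GV k L) (p p' : Pt k E L) : red w p = red w p' ↔
    redO w p = redO w p' ∧ ∀ a ∈ redO w p, w.v (p.ev a - p'.ev a) < 1 := by
  constructor
  · intro hr
    have hO : redO w p = redO w p' := congrArg Pt.O hr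
    refine ⟨hO, fun a ha => ?_⟩
    have ha' : a ∈ redO w p' := hO ▸ ha
    have e : w.rc (p.ev a) = w.rc (p'.ev a) := by rw [← red_ev ha, ← red_ev ha', hr]
    have e2 : p.ev a - p'.ev a = (p.ev a - w.rc (p.ev a)) - (p'.ev a - w.rc (p'.ev a)) := by
      rw [e]; ring
    rw [e2]
    exact (w.v.map_sub _ _).trans_lt (max_lt (w.rc_spec ha.2) (w.rc_spec ha'.2))
  · rintro ⟨hO, hv⟩
    refine Pt.ext hO (funext fun a => ?_)
    by_cases ha : a ∈ redO w p
    · have ha' : a ∈ redO w p' := hO ▸ ha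
      rw [red_ev ha, red_ev ha']
      refine w.rc_eq (w.rc_alg _) ?_
      have e2 : p.ev a - w.rc (p'.ev a) = (p.ev a - p'.ev a) + (p'.ev a - w.rc (p'.ev a)) := by
        ring
      rw [e2]
      exact (w.v.map_add _ _).trans_lt (max_lt (hv a ha) (w.rc_spec ha'.2))
    · rw [(red w p).junk a ha, (red w p').junk a (by rwa [red_O, ← hO])]

theorem v_unif_lt (h : FF k t) (w : GV k L) (p : Pt k E L) :
    w.v (p.ev (unif (redO w p))) < 1 := by
  have hu := place_unif h (redO_place h w p)
  have e := (red w p).ev_max _ hu.1 hu.2.1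
  rw [red_ev hu.1] at e
  have := w.rc_spec (mem_redO.mp hu.1).2
  rwa [e, sub_zero] at this

theorem Red_unif_ne (h : FF k t) {O : ValuationSubring E} (hO : IsPlace k O) : unif O ≠ 0 := by
  intro h0
  have hu := (place_unif h hO).2.1
  rw [h0, inv_zero] at hu
  exact hu (zero_mem O)

theorem v_unif_ne (h : FF k t) (w : GV k L) (y : E →ₐ[k] L) :
    w.v (y (unif (redO w (Pt.ofHom y)))) ≠ 0 := by
  rw [Valuation.ne_zero_iff, _root_.map_ne_zero]
  exact Red_unif_ne h (redO_place h w _)

theorem v_of_factor (h : FF k t) (w : GV k L) (y : E →ₐ[k] L) {a : E} (ha : a ≠ 0) {n : ℤ}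
    (h1 : a / unif (redO w (Pt.ofHom y)) ^ n ∈ redO w (Pt.ofHom y))
    (h2 : (a / unif (redO w (Pt.ofHom y)) ^ n)⁻¹ ∈ redO w (Pt.ofHom y)) :
    w.v (y a) = w.v (y (unif (redO w (Pt.ofHom y)))) ^ n := by
  have hπ := v_unif_ne h w y
  have h3 := (mem_redO.mp h1).2
  have h4 := (mem_redO.mp h2).2
  rw [Pt.ofHom_ev, map_div₀, map_zpow₀, map_div₀, map_zpow₀] at h3
  rw [Pt.ofHom_ev, map_inv₀, map_inv₀, map_div₀, map_zpow₀, map_div₀, map_zpow₀, inv_div] at h4
  have ha' : 0 < w.v (y a) := (w.v.pos_iff).mpr ((_root_.map_ne_zero y).mpr ha)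
  have hp : 0 < w.v (y (unif (redO w (Pt.ofHom y)))) ^ n := zpow_pos (pos_iff_ne_zero.mpr hπ) n
  exact le_antisymm ((div_le_one₀ hp).mp h3) ((div_le_one₀ ha').mp h4)

theorem Red_data (h : FF k t) {x : Pt k E L} (hx : x.O ≠ ⊤) {a : E} (ha : a ∈ x.O) :
    ∃ (c d : algebraicClosure k L) (ν : (algebraicClosure k L)[X]) (b : E), b ∈ x.O ∧ d ≠ 0 ∧
      ∀ (w : GV k L) (p : Pt k E L), red w p = x →
        p.ev b * p.ev (unif x.O) = (p.ev a - algebraMap _ L c) *
          (algebraMap _ L d + (p.ev a - algebraMap _ L c) * aeval (p.ev a) ν) ∧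
        w.v (p.ev a - algebraMap _ L c) ≤ w.v (p.ev (unif x.O)) := by
  obtain ⟨μ, -, hirr, hb⟩ := place_res h (x.place hx) ha
  have hu := place_unif h (x.place hx)
  have hπ := Red_unif_ne h (x.place hx)
  have hμa : aeval a μ = aeval a μ / unif x.O * unif x.O := (div_mul_cancel₀ _ hπ).symm
  let c : algebraicClosure k L := ⟨x.ev a, mem_algebraicClosure_iff.mpr (x.alg_of_const h hx a)⟩
  have hc : algebraMap (algebraicClosure k L) L c = x.ev a := rfl
  let M : (algebraicClosure k L)[X] := μ.map (algebraMap k (algebraicClosure k L))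
  have hroot : M.eval c = 0 := by
    apply (algebraMap (algebraicClosure k L) L).injective
    rw [map_zero, ← Polynomial.aeval_algebraMap_apply_eq_algebraMap_eval, hc,
      aeval_map_algebraMap, ← (x.ev_aeval ha μ).2, hμa, x.ev_mul _ hb _ hu.1, x.ev_unif h hx,
      mul_zero]
  obtain ⟨μ₁, e₁⟩ := X_sub_C_dvd_sub_C_eval (a := c) (p := M)
  obtain ⟨ν, e₂⟩ := X_sub_C_dvd_sub_C_eval (a := c) (p := μ₁)
  rw [hroot, C_0, sub_zero] at e₁
  have e₃ : M = (X - C c) * (C (μ₁.eval c) + (X - C c) * ν) := by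
    rw [← e₂, add_sub_cancel, e₁]
  have hd : μ₁.eval c ≠ 0 := by
    intro h0
    rw [h0, C_0, zero_add, ← mul_assoc] at e₃
    have hsep : M.Separable := (PerfectField.separable_of_irreducible hirr).map
    exact not_isUnit_X_sub_C c (hsep.squarefree _ ⟨ν, e₃⟩)
  refine ⟨c, μ₁.eval c, ν, _, hb, hd, fun w p hr => ?_⟩
  have hO : redO w p = x.O := congrArg Pt.O hr
  have ha' := mem_redO.mp (hO ▸ ha : a ∈ redO w p)
  have hb' := mem_redO.mp (hO ▸ hb : aeval a μ / unif x.O ∈ redO w p)
  have hu' := mem_redO.mp (hO.symm ▸ hu.1 : unif x.O ∈ redO w p)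
  have e₄ : p.ev (aeval a μ / unif x.O) * p.ev (unif x.O) = (p.ev a - algebraMap _ L c) *
      (algebraMap _ L (μ₁.eval c) + (p.ev a - algebraMap _ L c) * aeval (p.ev a) ν) := by
    rw [← p.ev_mul _ hb'.1 _ hu'.1, ← hμa, (p.ev_aeval ha'.1 μ).2,
      ← aeval_map_algebraMap (algebraicClosure k L)]
    change aeval (p.ev a) M = _
    rw [e₃]
    simp only [map_mul, map_add, map_sub, aeval_X, aeval_C]
  refine ⟨e₄, ?_⟩
  have hlt : w.v (p.ev a - algebraMap _ L c) < 1 := by
    rw [hc, ← hr, red_ev (mem_redO.mpr ha')]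
    exact w.rc_spec ha'.2
  have hd1 : w.v (algebraMap _ L (μ₁.eval c)) = 1 :=
    w.triv _ (Red_alg _) ((_root_.map_ne_zero _).mpr hd)
  have hone : w.v (algebraMap _ L (μ₁.eval c) +
      (p.ev a - algebraMap _ L c) * aeval (p.ev a) ν) = 1 := by
    rw [w.v.map_add_eq_of_lt_left, hd1]
    rw [hd1, map_mul]
    exact mul_lt_one_of_nonneg_of_lt_one_left zero_le hlt (Red_aeval_le w ν ha'.2)
  have e₅ := congrArg w.v e₄
  rw [map_mul, map_mul, hone, mul_one] at e₅
  rw [← e₅]
  exact mul_le_of_le_one_left' hb'.2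

theorem Red_exp (h : FF k t) {x : Pt k E L} (hx : x.O ≠ ⊤) (N : ℕ) : ∀ a ∈ x.O,
    ∃ P : (algebraicClosure k L)[X], ∀ (w : GV k L) (p : Pt k E L), red w p = x →
      w.v (p.ev a - aeval (p.ev (unif x.O)) P) ≤ w.v (p.ev (unif x.O)) ^ (N + 1) := by
  induction N with
  | zero =>
    intro a ha
    obtain ⟨c, d, ν, b, -, -, H⟩ := Red_data h hx ha
    exact ⟨C c, fun w p hr => by rw [aeval_C, zero_add, pow_one]; exact (H w p hr).2⟩
  | succ N ih =>
    intro a ha
    obtain ⟨c, d, ν, b, hb, hd, H⟩ := Red_data h hx ha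
    obtain ⟨Pa, hPa⟩ := ih a ha
    obtain ⟨Pb, hPb⟩ := ih b hb
    refine ⟨C c + C d⁻¹ * (Pb * X - (Pa - C c) ^ 2 * ν.comp Pa), fun w p hr => ?_⟩
    obtain ⟨e, hAc⟩ := H w p hr
    have hA := hPa w p hr
    have hB := hPb w p hr
    have hO : redO w p = x.O := congrArg Pt.O hr
    have hA1 := (mem_redO.mp (hO ▸ ha : a ∈ redO w p)).2
    have hu1 : w.v (p.ev (unif x.O)) ≤ 1 := by rw [← hO]; exact (v_unif_lt h w p).le
    generalize p.ev (unif x.O) = u at *
    generalize p.ev a = A at *
    generalize p.ev b = B at *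
    have hA' : w.v (aeval u Pa) ≤ 1 := Red_aeval_le w Pa hu1
    have hd0 : algebraMap (algebraicClosure k L) L d ≠ 0 := (_root_.map_ne_zero _).mpr hd
    have hd1 : w.v (algebraMap (algebraicClosure k L) L d) = 1 := w.triv _ (Red_alg _) hd0
    have e2 : A - aeval u (C c + C d⁻¹ * (Pb * X - (Pa - C c) ^ 2 * ν.comp Pa)) =
        (algebraMap _ L d)⁻¹ * ((B - aeval u Pb) * u -
          ((A - aeval u Pa) * ((A - algebraMap _ L c) + (aeval u Pa - algebraMap _ L c)) *
            aeval A ν + (aeval u Pa - algebraMap _ L c) ^ 2 *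
              (aeval A ν - aeval (aeval u Pa) ν))) := by
      simp only [map_mul, map_add, map_sub, map_pow, aeval_X, aeval_C, aeval_comp, map_inv₀]
      field_simp
      linear_combination -e
    have hAc' : w.v (aeval u Pa - algebraMap _ L c) ≤ w.v u := by
      have e3 : aeval u Pa - algebraMap _ L c = (A - algebraMap _ L c) - (A - aeval u Pa) := by
        ring
      rw [e3]
      refine (w.v.map_sub _ _).trans (max_le hAc (hA.trans ?_))
      rw [pow_succ]
      exact mul_le_of_le_one_left' (pow_le_one' hu1 N)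
    rw [e2, map_mul, map_inv₀, hd1, inv_one, one_mul]
    refine (w.v.map_sub _ _).trans (max_le ?_ ((w.v.map_add _ _).trans (max_le ?_ ?_)))
    · rw [map_mul, pow_succ _ (N + 1)]
      exact mul_le_mul_left hB _
    · rw [map_mul, map_mul, pow_succ _ (N + 1)]
      refine (mul_le_of_le_one_right' (Red_aeval_le w ν hA1)).trans (mul_le_mul' hA ?_)
      exact (w.v.map_add _ _).trans (max_le hAc hAc')
    · rw [map_mul, map_pow, pow_succ' _ (N + 1), sq]
      refine mul_le_mul' ((mul_le_of_le_one_right' (hAc'.trans hu1)).trans hAc') ?_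
      exact (Red_aeval_sub_le w ν hA1 hA').trans hA

theorem expansion (h : FF k t) {x : Pt k E L} (hx : x.O ≠ ⊤) {a : E} (ha : a ∈ x.O) (N : ℕ) :
    ∃ P : L[X], (∀ i, IsAlgebraic k (P.coeff i)) ∧ P.degree < N ∧
      ∀ (w : GV k L) (p : Pt k E L), red w p = x →
        w.v (p.ev a - P.eval (p.ev (unif x.O))) ≤ w.v (p.ev (unif x.O)) ^ N := by
  obtain ⟨P, hP⟩ := Red_exp h hx N a ha
  refine ⟨(P %ₘ X ^ N).map (algebraMap _ L), fun i => ?_, ?_, fun w p hr => ?_⟩
  · rw [coeff_map]
    exact Red_alg _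
  · rw [degree_map, ← degree_X_pow (R := algebraicClosure k L) N]
    exact degree_modByMonic_lt _ (monic_X_pow N)
  · have h1 := hP w p hr
    have hO : redO w p = x.O := congrArg Pt.O hr
    have hu1 : w.v (p.ev (unif x.O)) ≤ 1 := by rw [← hO]; exact (v_unif_lt h w p).le
    generalize p.ev (unif x.O) = u at *
    have e := congrArg (aeval u) (modByMonic_add_div P (X ^ N))
    rw [map_add, map_mul, map_pow, aeval_X] at e
    have e2 : p.ev a - aeval u (P %ₘ X ^ N) =
        (p.ev a - aeval u P) + u ^ N * aeval u (P /ₘ X ^ N) := by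
      rw [← e]; ring
    rw [eval_map_algebraMap, e2]
    refine (w.v.map_add _ _).trans (max_le (h1.trans ?_) ?_)
    · rw [pow_succ]
      exact mul_le_of_le_one_right' hu1
    · rw [map_mul, map_pow]
      exact mul_le_of_le_one_right' (Red_aeval_le w _ hu1)

theorem v_sub_le_dst (h : FF k t) {w : GV k L} {p p' : Pt k E L} (hr : red w p = red w p')
    {a : E} (ha : a ∈ redO w p) : w.v (p.ev a - p'.ev a) ≤ dst w p p' := by
  have hO : redO w p = redO w p' := congrArg Pt.O hr
  have hu := v_unif_lt h w p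
  have hu' := v_unif_lt h w p'
  rw [← hO] at hu'
  rw [dst, if_pos hr]
  by_contra hlt
  rw [not_le] at hlt
  have hS : 0 < w.v (p.ev a - p'.ev a) := lt_of_le_of_lt zero_le hlt
  obtain ⟨N, hN⟩ := exists_pow_lt_of_lt_one hS (max_lt hu hu')
  obtain ⟨P, hP⟩ := Red_exp h (red_ne_top h w p) N a ha
  have h1 := hP w p rfl
  have h2 := hP w p' hr.symm
  rw [red_O] at h1 h2
  generalize p.ev (unif (redO w p)) = u at *
  generalize p'.ev (unif (redO w p)) = u' at *
  have e : p.ev a - p'.ev a =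
      ((p.ev a - aeval u P) - (p'.ev a - aeval u' P)) + (aeval u P - aeval u' P) := by ring
  have h3 : ∀ r : ℝ≥0, r ≤ max (w.v u) (w.v u') → r ^ (N + 1) < w.v (p.ev a - p'.ev a) := by
    intro r hr
    refine lt_of_le_of_lt ?_ hN
    rw [pow_succ]
    exact (mul_le_of_le_one_right' (hr.trans (max_lt hu hu').le)).trans (pow_le_pow_left' hr N)
  have h4 : w.v (((p.ev a - aeval u P) - (p'.ev a - aeval u' P)) + (aeval u P - aeval u' P)) <
      w.v (p.ev a - p'.ev a) :=
    (w.v.map_add _ _).trans_lt (max_lt ((w.v.map_sub _ _).trans_lt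
      (max_lt (h1.trans_lt (h3 _ (le_max_left _ _))) (h2.trans_lt (h3 _ (le_max_right _ _)))))
      ((Red_aeval_sub_le w P hu.le hu'.le).trans_lt hlt))
  rw [← e] at h4
  exact lt_irrefl _ h4

theorem dst_comm (w : GV k L) (p p' : Pt k E L) : dst w p p' = dst w p' p := by
  unfold dst
  by_cases hr : red w p = red w p'
  · have hO : redO w p = redO w p' := congrArg Pt.O hr
    rw [if_pos hr, if_pos hr.symm, hO, w.v.map_sub_swap]
  · rw [if_neg hr, if_neg (Ne.symm hr)]

theorem dst_lt_one_iff (h : FF k t) (w : GV k L) (p p' : Pt k E L) :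
    dst w p p' < 1 ↔ red w p = red w p' := by
  unfold dst
  by_cases hr : red w p = red w p'
  · rw [if_pos hr]
    exact ⟨fun _ => hr, fun _ => ((red_eq_iff w p p').mp hr).2 _
      (place_unif h (redO_place h w p)).1⟩
  · rw [if_neg hr]
    exact ⟨fun h1 => absurd h1 (lt_irrefl _), fun h1 => absurd h1 hr⟩

theorem dst_le_one (h : FF k t) (w : GV k L) (p p' : Pt k E L) : dst w p p' ≤ 1 := by
  by_cases hr : red w p = red w p'
  · exact ((dst_lt_one_iff h w p p').mpr hr).le
  · rw [dst, if_neg hr]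

theorem Red_eq_of_const (h : FF k t) {w : GV k L} {p p' : Pt k E L} (hp : p.O ≠ ⊤)
    (h0 : dst w p p' = 0) : p = p' := by
  have hr : red w p = red w p' := (dst_lt_one_iff h w p p').mp (by rw [h0]; exact zero_lt_one)
  have hO : redO w p = p.O := congrArg Pt.O (red_const h w hp)
  rw [dst, if_pos hr, hO, p.ev_unif h hp, zero_sub, Valuation.map_neg,
    Valuation.zero_iff] at h0
  have hp' : p'.O ≠ ⊤ := by
    intro htop
    exact p'.ev_ne_zero (Red_unif_ne h (p.place hp)) (htop ▸ ValuationSubring.mem_top _)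
      (htop ▸ ValuationSubring.mem_top _) h0
  rw [← red_const h w hp, hr, red_const h w hp']

theorem dst_eq_zero_iff (h : FF k t) (w : GV k L) (p p' : Pt k E L) :
    dst w p p' = 0 ↔ p = p' := by
  refine ⟨fun h0 => ?_, ?_⟩
  · by_cases hp : p.O = ⊤
    · by_cases hp' : p'.O = ⊤
      · have hr : red w p = red w p' :=
          (dst_lt_one_iff h w p p').mp (by rw [h0]; exact zero_lt_one)
        have he : ∀ a ∈ redO w p, p.ev a = p'.ev a := fun a ha => by
          have h1 := v_sub_le_dst h hr ha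
          rw [h0, nonpos_iff_eq_zero, Valuation.zero_iff] at h1
          exact sub_eq_zero.mp h1
        refine Pt.ext (hp.trans hp'.symm) (funext fun a => ?_)
        rcases (redO w p).mem_or_inv_mem a with ha | ha
        · exact he a ha
        · have h1 := he _ ha
          rw [p.ev_inv a (hp ▸ ValuationSubring.mem_top _) (hp ▸ ValuationSubring.mem_top _),
            p'.ev_inv a (hp' ▸ ValuationSubring.mem_top _)
              (hp' ▸ ValuationSubring.mem_top _)] at h1
          exact inv_injective h1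
      · exact (Red_eq_of_const h hp' ((dst_comm w p' p).trans h0)).symm
    · exact Red_eq_of_const h hp h0
  · rintro rfl
    rw [dst, if_pos rfl, sub_self, map_zero]

theorem ipt_comm (w : GV k L) (p p' : Pt k E L) : ipt w p p' = ipt w p' p := by
  rw [ipt, ipt, dst_comm]

theorem ipt_nonneg (h : FF k t) (w : GV k L) (p p' : Pt k E L) : 0 ≤ ipt w p p' := by
  rw [ipt, neg_nonneg]
  exact Real.log_nonpos (NNReal.coe_nonneg _) (by exact_mod_cast dst_le_one h w p p')

theorem ipt_of_red_ne {w : GV k L} {p p' : Pt k E L} (hr : red w p ≠ red w p') :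
    ipt w p p' = 0 := by
  rw [ipt, dst, if_neg hr, NNReal.coe_one, Real.log_one, neg_zero]

theorem ipt_red (h : FF k t) (w : GV k L) (p : Pt k E L) :
    ipt w p (red w p) = -Real.log (w.v (p.ev (unif (redO w p)))) := by
  have e : (red w p).ev (unif (redO w p)) = 0 := (red w p).ev_unif h (red_ne_top h w p)
  rw [ipt, dst, if_pos (red_const h w (red_ne_top h w p)).symm, e, sub_zero]

theorem ipt_const (h : FF k t) (w : GV k L) {x x' : Pt k E L} (hx : x.O ≠ ⊤) (hx' : x'.O ≠ ⊤) :
    ipt w x x' = 0 := by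
  by_cases hxx : x = x'
  · rw [ipt, (dst_eq_zero_iff h w x x').mpr hxx, NNReal.coe_zero, Real.log_zero, neg_zero]
  · exact ipt_of_red_ne (by rwa [red_const h w hx, red_const h w hx'])

end Pool.Agent.FFC
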