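import Pool.Agent.P.MP_a2beea_nt.FC.SolEv

/-! A common denominator. Let `δ = det U`, `g = det Φ`. Take `c` a coefficient of `δ` of largest norm,
`δ₀ ≠ 0` the reduction of `δ` (`Conv.exists_red`), `λ : C → k` a `k`-linear map which is nonzero on
some coefficient of `δ₀`, and `W = λ(δ₀) ∈ k[X]`. For `V ∈ Sol`, Cramer's rule gives
`δ V = ∑ δ_a U_a`, `δ_a` the determinant of `U` with row `a` replaced by `V`; `twS δ_a = g δ_a`
(`twS_det`). Write `δ = X ^ s * unit` and `X ^ s δ_a = c_a δ`. Twisting gives `twS c_a = c_a`, so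
the coefficients of `c_a` are in `k`. Hence the coefficients of `δ_a` have norm `≤ ‖c‖`, and the
reductions satisfy `X ^ s δ_{a,0} = c_a δ₀` (a constant of norm `< 1` is zero, `alg_norm`). Apply
`λ` to the coefficients: `X ^ s λ(δ_{a,0}) = c_a W`, so `W δ_a = λ(δ_{a,0}) δ` and
`W V = ∑ λ(δ_{a,0}) U_a`. -/

open Polynomial
open scoped TensorProduct NNReal IntermediateField

namespace Pool.Agent.FFC

open Classical

variable {C : Type*} [NormedField C] [IsUltrametricDist C] [CompleteSpace C]
  {k : Type*} [Field k] [Fintype k] [Algebra k C] {ι : Type*} [Fintype ι] [DecidableEq ι]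

omit [IsUltrametricDist C] [CompleteSpace C] in
theorem SolA_mem_range {x : C} (hx : x ^ Fintype.card k = x) : ∃ a : k, algebraMap k C a = x := by
  have hq : 1 < Fintype.card k := Fintype.one_lt_card
  have hs : Splits (X ^ Fintype.card k - X : k[X]) := by
    rw [splits_iff_card_roots, FiniteField.roots_X_pow_card_sub_X, ← Finset.card_def,
      Finset.card_univ, FiniteField.X_pow_card_sub_X_natDegree_eq _ hq]
  have h1 := hs.roots_map (algebraMap k C)
  have h2 : x ∈ (Polynomial.map (algebraMap k C) (X ^ Fintype.card k - X : k[X])).roots := by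
    rw [Polynomial.map_sub, Polynomial.map_pow, Polynomial.map_X,
      mem_roots (FiniteField.X_pow_card_sub_X_ne_zero C hq)]
    simp [hx]
  rw [h1, Multiset.mem_map] at h2
  obtain ⟨a, -, ha⟩ := h2
  exact ⟨a, ha⟩

omit [IsUltrametricDist C] [CompleteSpace C] in
theorem SolA_ratio {δ ε g : PowerSeries C} (hδ : δ ≠ 0) (hg : g ≠ 0) (h1 : twS k δ = g * δ)
    (h2 : twS k ε = g * ε) : ∃ (s : ℕ) (c : PowerSeries k),
      PowerSeries.X ^ s * ε = PowerSeries.map (algebraMap k C) c * δ := by
  obtain ⟨v, hv⟩ := (PowerSeries.isUnit_divided_by_X_pow_order hδ).exists_right_inv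
  have hf := PowerSeries.X_pow_order_mul_divXPowOrder (f := δ)
  set s := δ.order.toNat
  set u := PowerSeries.divXPowOrder δ
  obtain ⟨c, hc⟩ : ∃ c : PowerSeries C, c = ε * v := ⟨_, rfl⟩
  have h3 : PowerSeries.X ^ s * ε = c * δ := by
    rw [hc]
    linear_combination (ε * v) * hf - PowerSeries.X ^ s * ε * hv
  have hX : twS k (PowerSeries.X : PowerSeries C) = PowerSeries.X := PowerSeries.map_X _
  have h5 : twS k c = c := by
    have h6 := congrArg (twS k) h3
    rw [map_mul, map_mul, map_pow, hX, h1, h2] at h6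
    have h7 : twS k c * (g * δ) = c * (g * δ) := by
      rw [← h6]
      linear_combination g * h3
    exact mul_right_cancel₀ (mul_ne_zero hg hδ) h7
  have h8 : ∀ n, ∃ a : k, algebraMap k C a = PowerSeries.coeff n c := fun n =>
    SolA_mem_range (by rw [← coeff_twS, h5])
  choose a ha using h8
  refine ⟨s, PowerSeries.mk a, ?_⟩
  rw [h3]
  congr 1
  ext n
  rw [PowerSeries.coeff_map, PowerSeries.coeff_mk, ha]

omit [IsUltrametricDist C] [CompleteSpace C] [Fintype k] in
theorem SolA_pol (l : C →ₗ[k] k) (P : C[X]) : ∃ Q : k[X], ∀ n, Q.coeff n = l (P.coeff n) := by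
  refine ⟨∑ n ∈ P.support, monomial n (l (P.coeff n)), fun n => ?_⟩
  rw [finset_sum_coeff]
  simp only [coeff_monomial]
  rw [Finset.sum_ite_eq']
  split_ifs with h
  · rfl
  · rw [notMem_support_iff.mp h, map_zero]

theorem SolA_norm_le (a : k) : ‖algebraMap k C a‖ ≤ 1 := by
  by_cases h : algebraMap k C a = 0
  · rw [h, norm_zero]; exact zero_le_one
  · exact (alg_norm k (isAlgebraic_algebraMap a) h).le

theorem SolA_coeff_le (c : PowerSeries k) {δ : PowerSeries C} {B : ℝ} (hB : 0 ≤ B)
    (h : ∀ n, ‖PowerSeries.coeff n δ‖ ≤ B) (n : ℕ) :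
    ‖PowerSeries.coeff n (PowerSeries.map (algebraMap k C) c * δ)‖ ≤ B := by
  rw [PowerSeries.coeff_mul]
  refine IsUltrametricDist.norm_sum_le_of_forall_le_of_nonneg hB fun p _ => ?_
  rw [norm_mul, PowerSeries.coeff_map]
  calc _ ≤ 1 * B := mul_le_mul (SolA_norm_le _) (h _) (norm_nonneg _) zero_le_one
    _ = B := one_mul B

theorem SolA_coeff_lt (c : PowerSeries k) {δ : PowerSeries C} {B : ℝ}
    (h : ∀ n, ‖PowerSeries.coeff n δ‖ < B) (n : ℕ) :
    ‖PowerSeries.coeff n (PowerSeries.map (algebraMap k C) c * δ)‖ < B := by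
  rw [PowerSeries.coeff_mul]
  obtain ⟨p, -, hp⟩ := IsUltrametricDist.exists_norm_finset_sum_le_of_nonempty
    (t := Finset.HasAntidiagonal.antidiagonal n) ⟨(0, n), by simp⟩
    (fun p : ℕ × ℕ => PowerSeries.coeff p.1 (PowerSeries.map (algebraMap k C) c) *
      PowerSeries.coeff p.2 δ)
  refine hp.trans_lt ?_
  rw [norm_mul, PowerSeries.coeff_map]
  calc _ ≤ 1 * ‖PowerSeries.coeff p.2 δ‖ :=
        mul_le_mul_of_nonneg_right (SolA_norm_le _) (norm_nonneg _)
    _ < B := by rw [one_mul]; exact h _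

theorem SolA_key
    (hres : ∀ x : C, ‖x‖ ≤ 1 → ∃ c : C, IsAlgebraic k c ∧ ‖x - c‖ < 1)
    {δ g : PowerSeries C} (hδc : Conv 1 δ) (hδ : δ ≠ 0) (hg : g ≠ 0) (h1 : twS k δ = g * δ) :
    ∃ W : k[X], W ≠ 0 ∧ ∀ ε : PowerSeries C, Conv 1 ε → twS k ε = g * ε →
      ∃ P : k[X], polS C k W * ε = polS C k P * δ := by
  obtain ⟨n0, hn0⟩ := hδc.exists_max
  set c0 := PowerSeries.coeff n0 δ with hc0
  have hc : c0 ≠ 0 := by
    intro h
    apply hδ
    ext n
    have := hn0 n
    rw [h, norm_zero] at this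
    simpa using this
  have hcp : 0 < ‖c0‖ := norm_pos_iff.mpr hc
  obtain ⟨D, hDa, hD⟩ := Conv.exists_red hres hδc hc hn0
  have hD0 : D.coeff n0 ≠ 0 := by
    intro h
    have := hD n0
    rw [h, mul_zero, sub_zero] at this
    exact lt_irrefl _ this
  obtain ⟨l, hl⟩ := Module.Projective.exists_dual_ne_zero k hD0
  obtain ⟨W, hW⟩ := SolA_pol l D
  refine ⟨W, fun h => hl (by rw [← hW, h, coeff_zero]), fun ε hε h2 => ?_⟩
  obtain ⟨s, c, hsc⟩ := SolA_ratio hδ hg h1 h2
  have hle : ∀ n, ‖PowerSeries.coeff n ε‖ ≤ ‖c0‖ := fun n => by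
    rw [← PowerSeries.coeff_X_pow_mul ε s n, hsc]
    exact SolA_coeff_le c hcp.le hn0 _
  obtain ⟨E, hEa, hE⟩ := Conv.exists_red hres hε hc hle
  obtain ⟨P, hP⟩ := SolA_pol l E
  have hred : PowerSeries.X ^ s * (E : PowerSeries C) =
      PowerSeries.map (algebraMap k C) c * (D : PowerSeries C) := by
    ext n
    by_contra hne
    have hal : IsAlgebraic k (PowerSeries.coeff n (PowerSeries.X ^ s * (E : PowerSeries C)) -
        PowerSeries.coeff n (PowerSeries.map (algebraMap k C) c * (D : PowerSeries C))) := by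
      rw [isAlgebraic_iff_isIntegral]
      refine IsIntegral.sub ?_ ?_
      · rw [PowerSeries.coeff_X_pow_mul']
        split_ifs
        · rw [Polynomial.coeff_coe]; exact (hEa _).isIntegral
        · exact isIntegral_zero
      · rw [PowerSeries.coeff_mul]
        refine IsIntegral.sum _ fun p _ => IsIntegral.mul ?_ ?_
        · rw [PowerSeries.coeff_map]; exact isIntegral_algebraMap
        · rw [Polynomial.coeff_coe]; exact (hDa _).isIntegral
    have hn1 := alg_norm k hal (sub_ne_zero.mpr hne)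
    have hid : PowerSeries.C c0 * (PowerSeries.X ^ s * (E : PowerSeries C) -
        PowerSeries.map (algebraMap k C) c * (D : PowerSeries C)) =
        PowerSeries.map (algebraMap k C) c * (δ - PowerSeries.C c0 * (D : PowerSeries C)) -
          PowerSeries.X ^ s * (ε - PowerSeries.C c0 * (E : PowerSeries C)) := by
      linear_combination hsc
    have hid2 := congrArg (PowerSeries.coeff n) hid
    rw [PowerSeries.coeff_C_mul, map_sub, map_sub] at hid2
    have hA : ‖PowerSeries.coeff n (PowerSeries.map (algebraMap k C) c *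
        (δ - PowerSeries.C c0 * (D : PowerSeries C)))‖ < ‖c0‖ := by
      refine SolA_coeff_lt c (fun m => ?_) n
      rw [map_sub, PowerSeries.coeff_C_mul, Polynomial.coeff_coe]
      exact hD m
    have hB : ‖PowerSeries.coeff n (PowerSeries.X ^ s * (ε - PowerSeries.C c0 * (E : PowerSeries C)))‖ < ‖c0‖ := by
      rw [PowerSeries.coeff_X_pow_mul']
      split_ifs
      · rw [map_sub, PowerSeries.coeff_C_mul, Polynomial.coeff_coe]
        exact hE _
      · rwa [norm_zero]
    have hn2 := congrArg norm hid2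
    rw [norm_mul, hn1, mul_one, sub_eq_add_neg] at hn2
    have hn3 := IsUltrametricDist.norm_add_le_max
      (PowerSeries.coeff n (PowerSeries.map (algebraMap k C) c * (δ - PowerSeries.C c0 * (D : PowerSeries C))))
      (-PowerSeries.coeff n (PowerSeries.X ^ s * (ε - PowerSeries.C c0 * (E : PowerSeries C))))
    rw [← hn2, norm_neg] at hn3
    exact absurd hn3 (not_le.mpr (max_lt hA hB))
  have hk : PowerSeries.X ^ s * (P : PowerSeries k) = c * (W : PowerSeries k) := by
    ext n
    have h3 := congrArg (fun f => l (PowerSeries.coeff n f)) hred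
    simp only [PowerSeries.coeff_X_pow_mul'] at h3
    rw [PowerSeries.coeff_mul, map_sum] at h3
    rw [PowerSeries.coeff_X_pow_mul', PowerSeries.coeff_mul]
    have h4 : ∀ p : ℕ × ℕ, l (PowerSeries.coeff p.1 (PowerSeries.map (algebraMap k C) c) *
        PowerSeries.coeff p.2 (D : PowerSeries C)) =
        PowerSeries.coeff p.1 c * PowerSeries.coeff p.2 (W : PowerSeries k) := fun p => by
      rw [PowerSeries.coeff_map, Polynomial.coeff_coe, Polynomial.coeff_coe, hW,
        ← Algebra.smul_def, map_smul, smul_eq_mul]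
    simp only [h4] at h3
    rw [← h3]
    split_ifs
    · rw [Polynomial.coeff_coe, Polynomial.coeff_coe, hP]
    · rw [map_zero]
  have hpol : ∀ Q : k[X], polS C k Q = PowerSeries.map (algebraMap k C) (Q : PowerSeries k) :=
    fun Q => by
      ext n
      rw [PowerSeries.coeff_map, Polynomial.coeff_coe]
      simp [polS]
  have hC := congrArg (PowerSeries.map (algebraMap k C)) hk
  rw [map_mul, map_mul, map_pow, PowerSeries.map_X, ← hpol, ← hpol] at hC
  refine ⟨P, mul_left_cancel₀ (pow_ne_zero s PowerSeries.X_ne_zero) ?_⟩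
  linear_combination polS C k W * hsc - δ * hC

theorem sol_denom
    (hres : ∀ x : C, ‖x‖ ≤ 1 → ∃ c : C, IsAlgebraic k c ∧ ‖x - c‖ < 1)
    {Φ : Matrix ι ι C[X]} (hΦ : Φ.det ≠ 0) {U : ι → ι → PowerSeries C} (hU : ∀ a, U a ∈ Sol k Φ)
    (hδ : (Matrix.of U).det ≠ 0) :
    ∃ W : k[X], W ≠ 0 ∧ ∀ V ∈ Sol k Φ, (fun c => polS C k W * V c) ∈ SpanK k U := by
  have hg : ((Φ.det : C[X]) : PowerSeries C) ≠ 0 := fun h => hΦ (by
    rwa [Polynomial.coe_eq_zero_iff] at h)
  have hδc : Conv 1 (Matrix.of U).det := conv_det (fun a b => (hU a).1 b) zero_le_one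
  obtain ⟨W, hW, hkey⟩ := SolA_key hres hδc hδ hg (twS_det hU)
  refine ⟨W, hW, fun V hV => ?_⟩
  have hup : ∀ a b, Function.update U a V b ∈ Sol k Φ := fun a b => by
    by_cases h : b = a
    · subst h; rwa [Function.update_self]
    · rw [Function.update_of_ne h]; exact hU b
  have h1 : ∀ a, ∃ P : k[X], polS C k W * ((Matrix.of U).updateRow a V).det =
      polS C k P * (Matrix.of U).det := fun a =>
    hkey _ (conv_det (W := Matrix.of (Function.update U a V)) (fun b c => (hup a b).1 c)
      zero_le_one) (twS_det (hup a))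
  choose P hP using h1
  refine ⟨P, fun c => mul_left_cancel₀ hδ ?_⟩
  have h2 := congrFun (Matrix.mulVec_cramer (Matrix.of U).transpose V) c
  rw [Matrix.det_transpose, Pi.smul_apply, smul_eq_mul, Matrix.mulVec, dotProduct] at h2
  simp only [Matrix.cramer_transpose_apply, Matrix.transpose_apply, Matrix.of_apply] at h2
  calc (Matrix.of U).det * (polS C k W * V c) = polS C k W * ((Matrix.of U).det * V c) := by ring
    _ = ∑ a, U a c * (polS C k W * ((Matrix.of U).updateRow a V).det) := by
        rw [← h2, Finset.mul_sum]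
        exact Finset.sum_congr rfl fun a _ => by ring
    _ = (Matrix.of U).det * ∑ a, polS C k (P a) * U a c := by
        rw [Finset.mul_sum]
        exact Finset.sum_congr rfl fun a _ => by rw [hP]; ring

end Pool.Agent.FFC
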