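import Pool.Agent.P.MP_a2beea_nt.FC.SolEv

/-! A basis of the solution lattice. The rows `U a` are linearly independent over `C[[X]]`
(`det ≠ 0`), so `P ↦ ∑ P a • U a` is an injective additive map from `ι → k[X]` onto `SpanK k U`.
The set `N = {P | ∃ V ∈ Sol, W V = ∑ P a • U a}` is a `k[X]`-submodule of `ι → k[X]` which contains
`W • ⊤`; it is free of rank `card ι`; a basis gives `V` and `T`. The index is the cardinality of
the cokernel of `T` on `ι → k[X]`, which is `q ^ natDegree (det T)` (Smith normal form:
`Submodule.quotientEquivPiSpan`, `LinearMap.associated_det_comp_equiv`, compare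
`Submodule.natAbs_det_basis_change` and `finrank_quotient_span_eq_natDegree`). -/

open Polynomial
open scoped TensorProduct NNReal IntermediateField

namespace Pool.Agent.FFC

open Classical

variable {C : Type*} [NormedField C] [IsUltrametricDist C] [CompleteSpace C]
  {k : Type*} [Field k] [Fintype k] [Algebra k C] {ι : Type*} [Fintype ι] [DecidableEq ι]

theorem SolB_card_quot {a : k[X]} (ha : a ≠ 0) :
    Nat.card (k[X] ⧸ Ideal.span {a}) = Fintype.card k ^ a.natDegree := by
  have : Module.Finite k (k[X] ⧸ Ideal.span {a}) := (AdjoinRoot.powerBasis ha).finite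
  rw [Module.natCard_eq_pow_finrank (K := k), finrank_quotient_span_eq_natDegree,
    Nat.card_eq_fintype_card]

omit [DecidableEq ι] in
theorem SolB_card {M : Type*} [AddCommGroup M] [Module k[X] M] (b : Module.Basis ι k[X] M)
    (g : M →ₗ[k[X]] M) (hg : Function.Injective g) :
    Nat.card (M ⧸ LinearMap.range g) = Fintype.card k ^ (LinearMap.det g).natDegree := by
  let N := LinearMap.range g
  let e : M ≃ₗ[k[X]] N := LinearEquiv.ofInjective g hg
  have h : Module.finrank k[X] N = Module.finrank k[X] M := e.symm.finrank_eq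
  let a := Submodule.smithNormalFormCoeffs b h
  let b' := Submodule.smithNormalFormTopBasis b h
  let ab := Submodule.smithNormalFormBotBasis b h
  have ab_eq := Submodule.smithNormalFormBotBasis_def b h
  have a0 : ∀ i, a i ≠ 0 := Submodule.smithNormalFormCoeffs_ne_zero b h
  let e' : M ≃ₗ[k[X]] N := b'.equiv ab (Equiv.refl _)
  let f : M →ₗ[k[X]] M := N.subtype.comp (e' : M →ₗ[k[X]] N)
  have f_apply : ∀ x, f x = b'.equiv ab (Equiv.refl _) x := fun x => rfl
  have h1 : Associated (LinearMap.det g) (LinearMap.det f) :=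
    LinearMap.associated_det_comp_equiv N.subtype e e'
  have ha : ∀ i, f (b' i) = a i • b' i := by
    intro i
    rw [f_apply, b'.equiv_apply, Equiv.refl_apply]
    exact ab_eq i
  have h2 : LinearMap.toMatrix b' b' f = Matrix.diagonal a := by
    ext1 i j
    rw [LinearMap.toMatrix_apply, ha, map_smul, Module.Basis.repr_self, Finsupp.smul_single,
      smul_eq_mul, mul_one]
    by_cases h : i = j
    · rw [h, Matrix.diagonal_apply_eq, Finsupp.single_eq_same]
    · rw [Matrix.diagonal_apply_ne _ h, Finsupp.single_eq_of_ne h]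
  have h3 : LinearMap.det f = ∏ i, a i := by
    rw [← LinearMap.det_toMatrix b', h2, Matrix.det_diagonal]
  rw [natDegree_eq_of_degree_eq (degree_eq_degree_of_associated h1), h3,
    natDegree_prod _ _ fun i _ => a0 i, ← Finset.prod_pow_eq_pow_sum,
    Nat.card_congr (Submodule.quotientEquivPiSpan N b h).toEquiv, Nat.card_pi]
  exact Finset.prod_congr rfl fun i _ => SolB_card_quot (a0 i)

theorem card_coker {T : Matrix ι ι k[X]} (hT : T.det ≠ 0) :
    (LinearMap.range T.vecMulLinear).toAddSubgroup.index = Fintype.card k ^ T.det.natDegree := by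
  have h1 : LinearMap.det T.vecMulLinear = T.det := by
    rw [← Matrix.mulVecLin_transpose, ← Matrix.det_transpose T]
    exact LinearMap.det_toLin' _
  rw [← h1]
  refine SolB_card (Pi.basisFun k[X] ι) T.vecMulLinear ?_
  exact (injective_iff_map_eq_zero _).2 fun v hv => Matrix.eq_zero_of_vecMul_eq_zero hT hv

theorem SolB_alg {R S : Type*} [CommRing R] [IsDomain R] [IsPrincipalIdealRing R] [CommRing S]
    [IsDomain S] [Algebra R S] (hφ : Function.Injective (algebraMap R S))
    (L : Submodule R (ι → S)) {U : ι → ι → S} (hU : ∀ a, U a ∈ L) (hδ : (Matrix.of U).det ≠ 0)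
    {W : R} (hW : W ≠ 0)
    (hWS : ∀ V ∈ L, W • V ∈ LinearMap.range (Fintype.linearCombination R U)) :
    ∃ (V : ι → ι → S) (T : Matrix ι ι R), L = LinearMap.range (Fintype.linearCombination R V) ∧
      (Matrix.of U).det = algebraMap R S T.det * (Matrix.of V).det ∧
      (LinearMap.range (Fintype.linearCombination R U)).toAddSubgroup.relIndex L.toAddSubgroup =
        (LinearMap.range T.vecMulLinear).toAddSubgroup.index := by
  have hinj : Function.Injective (Fintype.linearCombination R U) := by
    refine (injective_iff_map_eq_zero _).2 fun P hP => ?_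
    have h1 : Matrix.vecMul (fun a => algebraMap R S (P a)) (Matrix.of U) = 0 := by
      funext c
      have h2 := congrFun hP c
      simp only [Fintype.linearCombination_apply, Finset.sum_apply, Algebra.smul_def] at h2
      exact h2
    funext a
    exact hφ ((congrFun (Matrix.eq_zero_of_vecMul_eq_zero hδ h1) a).trans (map_zero _).symm)
  have hle : LinearMap.range (Fintype.linearCombination R U) ≤ L := by
    rintro _ ⟨P, rfl⟩
    rw [Fintype.linearCombination_apply]
    exact L.sum_mem fun a _ => L.smul_mem _ (hU a)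
  let e := LinearEquiv.ofInjective _ hinj
  let ψ : L →ₗ[R] (ι → R) := (e.symm : _ →ₗ[R] _).comp
    ((W • L.subtype).codRestrict _ fun V => hWS V.1 V.2)
  have hψ : Function.Injective ψ := by
    refine (injective_iff_map_eq_zero _).2 fun V hV => ?_
    have h1 : W • V.1 = 0 := congrArg Subtype.val (e.symm.map_eq_zero_iff.1 hV)
    refine Subtype.ext (funext fun c => ?_)
    have h2 := congrFun h1 c
    rw [Pi.smul_apply, Algebra.smul_def] at h2
    exact (mul_eq_zero.1 h2).resolve_left fun h3 => hW (hφ (h3.trans (map_zero _).symm))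
  have hfin : Module.Finite R L := Module.Finite.of_injective ψ hψ
  have htf : Module.IsTorsionFree R L := hψ.moduleIsTorsionFree ψ (map_smul ψ)
  have hrk : Module.finrank R L = Fintype.card ι := by
    refine le_antisymm ?_ ?_
    · exact (LinearMap.finrank_le_finrank_of_injective hψ).trans_eq
        (Module.finrank_fintype_fun_eq_card R)
    · rw [← Module.finrank_fintype_fun_eq_card R]
      exact LinearMap.finrank_le_finrank_of_injective
        (f := (Fintype.linearCombination R U).codRestrict L fun P => hle ⟨P, rfl⟩)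
        fun P Q h => hinj (congrArg Subtype.val h)
  let b : Module.Basis ι R L :=
    (Module.finBasisOfFinrankEq R L hrk).reindex (Fintype.equivFin ι).symm
  let T : Matrix ι ι R := Matrix.of fun a c => b.repr ⟨U a, hU a⟩ c
  have hb : ∀ P : ι → R,
      (b.equivFun.symm P).1 = Fintype.linearCombination R (fun a => (b a).1) P := by
    intro P
    rw [Module.Basis.equivFun_symm_apply, Fintype.linearCombination_apply, Submodule.coe_sum]
    rfl
  have hUT : ∀ a, U a = (b.equivFun.symm (T a)).1 := fun a =>
    congrArg Subtype.val (b.equivFun.symm_apply_apply ⟨U a, hU a⟩).symm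
  have hlc : ∀ P : ι → R, Fintype.linearCombination R U P =
      (b.equivFun.symm (T.vecMulLinear P)).1 := by
    intro P
    rw [Matrix.vecMulLinear_apply, Matrix.vecMul_eq_sum, map_sum, Submodule.coe_sum,
      Fintype.linearCombination_apply]
    refine Finset.sum_congr rfl fun a _ => ?_
    rw [map_smul, Submodule.coe_smul, hUT a]
  refine ⟨fun a => (b a).1, T, ?_, ?_, ?_⟩
  · refine le_antisymm ?_ ?_
    · intro V hV
      refine ⟨b.equivFun ⟨V, hV⟩, ?_⟩
      rw [← hb, b.equivFun.symm_apply_apply]
    · rintro _ ⟨P, rfl⟩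
      rw [← hb]
      exact Subtype.property _
  · rw [RingHom.map_det, ← Matrix.det_mul]
    congr 1
    ext a c
    rw [Matrix.of_apply, hUT a, hb, Matrix.mul_apply]
    simp only [Fintype.linearCombination_apply, Finset.sum_apply, Algebra.smul_def]
    rfl
  · rw [AddSubgroup.relIndex, ← AddSubgroup.index_comap_of_surjective
      (f := (b.equivFun.symm.toAddEquiv : (ι → R) →+ L.toAddSubgroup)) _
        b.equivFun.symm.surjective]
    congr 1
    ext P
    constructor
    · rintro ⟨Q, hQ⟩
      exact ⟨Q, b.equivFun.symm.injective (Subtype.ext ((hlc Q).symm.trans hQ))⟩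
    · rintro ⟨Q, rfl⟩
      exact ⟨Q, hlc Q⟩

theorem SolB_hom {R S : Type*} [CommRing R] [IsDomain R] [IsPrincipalIdealRing R] [CommRing S]
    [IsDomain S] (φ : R →+* S) (hφ : Function.Injective φ) (sp : (ι → ι → S) → AddSubgroup (ι → S))
    (hsp : ∀ U V, V ∈ sp U ↔ ∃ P : ι → R, ∀ c, V c = ∑ a, φ (P a) * U a c)
    (L : AddSubgroup (ι → S)) (hL : ∀ r, ∀ V ∈ L, (fun c => φ r * V c) ∈ L)
    {U : ι → ι → S} (hU : ∀ a, U a ∈ L) (hδ : (Matrix.of U).det ≠ 0)
    {W : R} (hW : W ≠ 0) (hWS : ∀ V ∈ L, (fun c => φ W * V c) ∈ sp U) :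
    ∃ (V : ι → ι → S) (T : Matrix ι ι R), L = sp V ∧
      (Matrix.of U).det = φ T.det * (Matrix.of V).det ∧
      (sp U).relIndex L = (LinearMap.range T.vecMulLinear).toAddSubgroup.index := by
  let _ : Algebra R S := φ.toAlgebra
  let L' : Submodule R (ι → S) := { L with smul_mem' := fun r V hV => hL r V hV }
  have h1 : ∀ U, sp U = (LinearMap.range (Fintype.linearCombination R U)).toAddSubgroup := by
    intro U
    ext V
    rw [hsp]
    refine exists_congr fun P => ?_
    rw [Fintype.linearCombination_apply, eq_comm, funext_iff]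
    simp only [Finset.sum_apply]
    rfl
  obtain ⟨V, T, e1, e2, e3⟩ := SolB_alg hφ L' hU hδ hW fun V hV => by
    have h2 := hWS V hV
    rw [h1] at h2
    exact h2
  refine ⟨V, T, ?_, e2, ?_⟩
  · rw [h1, ← e1]
  · rw [h1]
    exact e3

theorem sol_basis {Φ : Matrix ι ι C[X]} {U : ι → ι → PowerSeries C} (hU : ∀ a, U a ∈ Sol k Φ)
    (hδ : (Matrix.of U).det ≠ 0) {W : k[X]} (hW : W ≠ 0)
    (hWS : ∀ V ∈ Sol k Φ, (fun c => polS C k W * V c) ∈ SpanK k U) :
    ∃ (V : ι → ι → PowerSeries C) (T : Matrix ι ι k[X]), Sol k Φ = SpanK k V ∧ T.det ≠ 0 ∧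
      (Matrix.of U).det = polS C k T.det * (Matrix.of V).det ∧
      (SpanK k U).relIndex (Sol k Φ) = Fintype.card k ^ T.det.natDegree := by
  obtain ⟨V, T, e1, e2, e3⟩ := SolB_hom (polS C k) polS_injective (SpanK k) (fun _ _ => Iff.rfl)
    (Sol k Φ) (fun r V hV => ⟨fun c => (conv_coe 1 _).mul (hV.1 c) zero_le_one, fun c => by
      rw [map_mul, twS_polS, hV.2 c, Finset.mul_sum]
      exact Finset.sum_congr rfl fun d _ => mul_left_comm _ _ _⟩) hU hδ hW hWS
  have hT : T.det ≠ 0 := fun h => hδ (by rw [e2, h, map_zero, zero_mul])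
  exact ⟨V, T, e1, hT, e2, e3.trans (card_coker hT)⟩

end Pool.Agent.FFC
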