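import Pool.Agent.P.MP_a2beea_nt.FC.SolEv

/-! The determinant of a basis of the solution lattice is a unit of the Tate algebra.
`lang_rel`: take a relation of minimal support, normalised by `c a₀ = 1`; the `Q`-th powers of the
coefficients form a relation with the same support; subtract.
`sol_ne`: suppose `evS α δ = 0`; the vectors `v a = evS α (V a)` are dependent (`evS_det`); with
`f` the degree of `α`, `α ^ (q ^ f) = α`, iterating `evS_twS` gives `v a ^ (q ^ f) = Ψ v a` with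
`Ψ` a product of matrices `Φ(α ^ (q ^ i))`-twists of nonzero determinant. The coefficients from
`lang_rel` satisfy `c ^ (q ^ f) = c`, so they are values `b a (α)`, `b a ∈ k[X]` (count the roots
of `X ^ (q ^ f) - X`: the field `k(α)` has `q ^ f` elements). `V' = ∑ b a • V a ∈ Sol` vanishes at
`α`, hence at all `α ^ (q ^ i)`, so `V' = π V''` with `π = minpoly k α` (`Conv.div`, distinct
roots) and `V'' ∈ Sol = SpanK V`; by independence `π ∣ b a` for all `a`, so all `c a = 0`.
`sol_unit`: `‖g(β)‖ = γ = ‖c₀‖ ‖θ‖ ^ m` for all algebraic `β`, and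
`‖evS β δ‖ ^ q = γ ‖evS (β ^ q) δ‖`. Let `c` be a largest coefficient of `δ` and `δ₀` the
reduction; `‖evS β δ‖ = ‖c‖` iff `δ₀(β) ≠ 0`, otherwise `<`. Choosing `β` with `β` and `β ^ q` not
roots of `δ₀` gives `‖c‖ ^ q = γ ‖c‖`. If `α` is a root of `δ₀` then `r i = ‖evS (α ^ q ^ i) δ‖ / ‖c‖`
satisfies `r (i + 1) = r i ^ q`, is periodic and `r 0 < 1`, so `r 0 = 0`, against `sol_ne`. So
`δ₀` is a nonzero constant. -/

open Polynomial
open scoped TensorProduct NNReal IntermediateField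

namespace Pool.Agent.FFC

open Classical

variable {C : Type*} [NormedField C] [IsUltrametricDist C] [CompleteSpace C]
  {k : Type*} [Field k] [Fintype k] [Algebra k C] {ι : Type*} [Fintype ι] [DecidableEq ι]

theorem lang_rel {F : Type*} [Field F] (σ : F →+* F) {κ : Type*} [Fintype κ] (v : κ → ι → F)
    (Ψ : Matrix ι ι F) (hΨ : Ψ.det ≠ 0) (hv : ∀ a, (fun c => σ (v a c)) = Ψ.mulVec (v a))
    (hdep : ∃ c : κ → F, c ≠ 0 ∧ ∑ a, c a • v a = 0) :
    ∃ c : κ → F, c ≠ 0 ∧ ∑ a, c a • v a = 0 ∧ ∀ a, σ (c a) = c a := by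
  obtain ⟨c, hc, hr⟩ := hdep
  induction hn : (Finset.univ.filter fun a => c a ≠ 0).card using Nat.strong_induction_on
    generalizing c with
  | _ n ih =>
    obtain ⟨a₀, ha₀⟩ := Function.ne_iff.1 hc
    have ha : c a₀ ≠ 0 := ha₀
    set e : κ → F := fun a => (c a₀)⁻¹ * c a with he
    have e0 : e a₀ = 1 := inv_mul_cancel₀ ha
    have hre : ∑ a, e a • v a = 0 := by
      simp only [he, mul_smul, ← Finset.smul_sum, hr, smul_zero]
    have hrs : ∑ a, σ (e a) • v a = 0 := by
      refine Matrix.eq_zero_of_mulVec_eq_zero hΨ ?_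
      rw [Matrix.mulVec_sum]
      simp only [Matrix.mulVec_smul, ← hv]
      funext x
      have := congrArg σ (congrFun hre x)
      simpa [Finset.sum_apply] using this
    by_cases hd : (fun a => σ (e a) - e a) = 0
    · refine ⟨e, fun h => ?_, hre, fun a => sub_eq_zero.1 (congrFun hd a)⟩
      rw [h] at e0
      exact zero_ne_one e0
    · refine ih _ ?_ _ hd ?_ rfl
      · rw [← hn]
        refine Finset.card_lt_card ⟨fun a h => ?_, fun h => ?_⟩
        · simp only [Finset.mem_filter, Finset.mem_univ, true_and] at h ⊢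
          intro h0
          exact h (by simp [he, h0])
        · have := h (Finset.mem_filter.2 ⟨Finset.mem_univ a₀, ha⟩)
          simp [e0] at this
      · simp only [sub_smul, Finset.sum_sub_distrib, hre, hrs, sub_zero]

theorem SolC_norm {x : C} (hx : IsAlgebraic k x) : ‖x‖ ≤ 1 := by
  by_cases h : x = 0
  · simp [h]
  · exact (alg_norm k hx h).le

omit [IsUltrametricDist C] [CompleteSpace C] in
theorem SolC_deg {α : C} (hα : IsAlgebraic k α) : ∃ f, 0 < f ∧ α ^ Fintype.card k ^ f = α ∧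
    ∀ c : C, c ^ Fintype.card k ^ f = c → ∃ b : k[X], aeval α b = c := by
  have := IntermediateField.adjoin.finiteDimensional hα.isIntegral
  have : Finite k⟮α⟯ := Module.finite_of_finite k
  have := Fintype.ofFinite k⟮α⟯
  have hc : Fintype.card k⟮α⟯ = Fintype.card k ^ Module.finrank k k⟮α⟯ :=
    Module.card_eq_pow_finrank
  have hp : ∀ x : k⟮α⟯, (x : C) ^ Fintype.card k⟮α⟯ = x := fun x => by
    exact_mod_cast congrArg Subtype.val (FiniteField.pow_card x)
  refine ⟨Module.finrank k k⟮α⟯, Module.finrank_pos, ?_, fun c h => ?_⟩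
  · rw [← hc]
    exact hp ⟨α, IntermediateField.mem_adjoin_simple_self k α⟩
  · rw [← hc] at h
    have hm : c ∈ k⟮α⟯ := by
      by_contra hm
      have h1 := Polynomial.card_le_degree_of_subset_roots
        (p := (X ^ Fintype.card k⟮α⟯ - X : C[X]))
        (Z := insert c (Finset.univ.image (Subtype.val : k⟮α⟯ → C))) fun x hx => by
          rw [mem_roots (FiniteField.X_pow_card_sub_X_ne_zero C Fintype.one_lt_card), IsRoot.def,
            eval_sub, eval_pow, eval_X, sub_eq_zero]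
          rcases Finset.mem_insert.1 hx with rfl | hx
          · exact h
          · obtain ⟨y, -, rfl⟩ := Finset.mem_image.1 hx
            exact hp y
      rw [FiniteField.X_pow_card_sub_X_natDegree_eq C Fintype.one_lt_card,
        Finset.card_insert_of_notMem (by
          intro hx
          obtain ⟨y, -, rfl⟩ := Finset.mem_image.1 hx
          exact hm y.2), Finset.card_image_of_injective _ Subtype.val_injective,
        Finset.card_univ] at h1
      omega
    have hm' : c ∈ k⟮α⟯.toSubalgebra := hm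
    rw [IntermediateField.adjoin_simple_toSubalgebra_of_isAlgebraic hα,
      Algebra.adjoin_singleton_eq_range_aeval] at hm'
    exact hm'

theorem SolC_div (s : Finset C) (hs : ∀ β ∈ s, ‖β‖ ≤ 1) {U : PowerSeries C} (hU : Conv 1 U)
    (h0 : ∀ β ∈ s, evS β U = 0) : ∃ W, Conv 1 W ∧
      U = ((∏ β ∈ s, (X - Polynomial.C β) : C[X]) : PowerSeries C) * W := by
  induction s using Finset.induction_on with
  | empty => exact ⟨U, hU, by simp⟩
  | insert a s ha ih =>
    obtain ⟨W, hW, e⟩ := ih (fun β hβ => hs β (Finset.mem_insert_of_mem hβ))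
      fun β hβ => h0 β (Finset.mem_insert_of_mem hβ)
    have ha1 := hs a (Finset.mem_insert_self a s)
    have h1 := h0 a (Finset.mem_insert_self a s)
    rw [e, evS_mul (conv_coe 1 _) hW ha1, evS_coe, mul_eq_zero] at h1
    have h2 : eval a (∏ β ∈ s, (X - Polynomial.C β)) ≠ 0 := by
      rw [eval_prod]
      refine Finset.prod_ne_zero_iff.2 fun β hβ => ?_
      rw [eval_sub, eval_X, eval_C, sub_ne_zero]
      rintro rfl
      exact ha hβ
    obtain ⟨W', hW', e'⟩ := hW.div ha1 (h1.resolve_left h2)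
    refine ⟨W', hW', ?_⟩
    rw [Finset.prod_insert ha, Polynomial.coe_mul, Polynomial.coe_sub, Polynomial.coe_X,
      Polynomial.coe_C, e, e']
    ring

omit [IsUltrametricDist C] [CompleteSpace C] in
theorem SolC_tw (s : Finset C) (hs : ∀ β ∈ s, β ^ Fintype.card k ∈ s) :
    twS k ((∏ β ∈ s, (X - Polynomial.C β) : C[X]) : PowerSeries C) =
      ((∏ β ∈ s, (X - Polynomial.C β) : C[X]) : PowerSeries C) := by
  set F : C →+* C := (FiniteField.frobeniusAlgHom k C).toRingHom with hF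
  have e : s.image F = s := Finset.eq_of_subset_of_card_le
    (Finset.image_subset_iff.2 hs) (Finset.card_image_of_injective _ F.injective).ge
  have e1 : (∏ β ∈ s, (X - Polynomial.C β) : C[X]).map F = ∏ β ∈ s, (X - Polynomial.C β) := by
    conv_rhs => rw [← e, Finset.prod_image fun x _ y _ h => F.injective h]
    rw [Polynomial.map_prod]
    simp only [Polynomial.map_sub, map_X, map_C]
  ext n
  conv_rhs => rw [← e1]
  rw [coeff_twS, coeff_coe, coeff_coe, coeff_map]
  rfl

omit [CompleteSpace C] in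
theorem SolC_g {θ c₀ : C} {m : ℕ} (hθ : 1 < ‖θ‖) {β : C} (hβ : ‖β‖ ≤ 1) :
    ‖eval β (Polynomial.C c₀ * (X - Polynomial.C θ) ^ m)‖ = ‖c₀‖ * ‖θ‖ ^ m := by
  have : ‖β - θ‖ = ‖θ‖ := by
    rw [sub_eq_add_neg, IsUltrametricDist.norm_add_eq_max_of_norm_ne_norm
      (by rw [norm_neg]; exact (hβ.trans_lt hθ).ne), norm_neg, max_eq_right (hβ.trans hθ.le)]
  simp [this]

theorem SolC_step {Φ : Matrix ι ι C[X]} {U : ι → PowerSeries C} (hU : U ∈ Sol k Φ) {β : C}
    (hβ : ‖β‖ ≤ 1) : (fun c => evS β (U c) ^ Fintype.card k) =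
      (Φ.map (eval (β ^ Fintype.card k))).mulVec fun c => evS (β ^ Fintype.card k) (U c) := by
  have hq : ‖β ^ Fintype.card k‖ ≤ 1 := by
    rw [norm_pow]
    exact pow_le_one₀ (norm_nonneg _) hβ
  funext c
  rw [← evS_twS (hU.1 c) hβ, hU.2 c,
    evS_sum _ (fun d _ => (conv_coe 1 _).mul (hU.1 d) zero_le_one) hq]
  refine Finset.sum_congr rfl fun d _ => ?_
  rw [evS_mul (conv_coe 1 _) (hU.1 d) hq, evS_coe]
  rfl

theorem SolC_iter {Φ : Matrix ι ι C[X]} {θ c₀ : C} {m : ℕ} (hθ : 1 < ‖θ‖) (hc₀ : c₀ ≠ 0)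
    (hΦ : Φ.det = Polynomial.C c₀ * (X - Polynomial.C θ) ^ m) {α : C} (hα : ‖α‖ ≤ 1) (j : ℕ) :
    ∃ Ψ : Matrix ι ι C, Ψ.det ≠ 0 ∧ ∀ U ∈ Sol k Φ, (fun c => evS α (U c) ^ Fintype.card k ^ j) =
      Ψ.mulVec fun c => evS (α ^ Fintype.card k ^ j) (U c) := by
  induction j with
  | zero => exact ⟨1, by simp, fun U _ => by simp⟩
  | succ j ih =>
    obtain ⟨Ψ, h1, h2⟩ := ih
    set F : C →+* C := (FiniteField.frobeniusAlgHom k C).toRingHom with hF
    have hn : ∀ i, ‖α ^ i‖ ≤ 1 := fun i => by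
      rw [norm_pow]
      exact pow_le_one₀ (norm_nonneg _) hα
    refine ⟨Ψ.map F * Φ.map (eval (α ^ Fintype.card k ^ (j + 1))), ?_, fun U hU => ?_⟩
    · rw [Matrix.det_mul]
      refine mul_ne_zero ?_ ?_
      · have := F.map_det Ψ
        rw [RingHom.mapMatrix_apply] at this
        rw [← this]
        exact (map_ne_zero F).2 h1
      · have := (evalRingHom (α ^ Fintype.card k ^ (j + 1))).map_det Φ
        rw [RingHom.mapMatrix_apply, coe_evalRingHom] at this
        rw [← this, hΦ, ← norm_ne_zero_iff, SolC_g hθ (hn _)]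
        have := zero_lt_one.trans hθ
        have := norm_pos_iff.2 hc₀
        positivity
    · rw [← Matrix.mulVec_mulVec, pow_succ, pow_mul, ← SolC_step hU (hn _)]
      funext c
      rw [pow_mul, congrFun (h2 U hU) c]
      exact F.map_mulVec Ψ _ c

omit [IsUltrametricDist C] [CompleteSpace C] in
theorem SolC_mem (V : ι → ι → PowerSeries C) (a : ι) : V a ∈ SpanK k V :=
  ⟨Pi.single a 1, fun c => by
    rw [Finset.sum_eq_single a (fun b _ hb => by simp [hb]) (by simp)]
    simp⟩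

theorem sol_ne {Φ : Matrix ι ι C[X]} {θ c₀ : C} {m : ℕ} (hθ : 1 < ‖θ‖) (hc₀ : c₀ ≠ 0)
    (hΦ : Φ.det = Polynomial.C c₀ * (X - Polynomial.C θ) ^ m) {V : ι → ι → PowerSeries C}
    (hV : Sol k Φ = SpanK k V) (hδ : (Matrix.of V).det ≠ 0) {α : C} (hα : IsAlgebraic k α) :
    evS α (Matrix.of V).det ≠ 0 := by
  intro h0
  have hα1 := SolC_norm hα
  have hS : ∀ a, V a ∈ Sol k Φ := fun a => hV ▸ SolC_mem V a
  have hcv : ∀ a b, Conv 1 (Matrix.of V a b) := fun a b => (hS a).1 b
  rw [evS_det hcv hα1, ← Matrix.exists_vecMul_eq_zero_iff] at h0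
  obtain ⟨f, hf, hαf, hb⟩ := SolC_deg hα
  obtain ⟨Ψ, hΨ, hΨ'⟩ := SolC_iter (k := k) hθ hc₀ hΦ hα1 f
  rw [hαf] at hΨ'
  have hσ : ∀ x : C, ((FiniteField.frobeniusAlgHom k C).toRingHom ^ f) x =
      x ^ Fintype.card k ^ f := fun x => by
    rw [RingHom.coe_pow]
    exact congrFun (pow_iterate (Fintype.card k) f) x
  obtain ⟨c, hc, hr, hfix⟩ := lang_rel ((FiniteField.frobeniusAlgHom k C).toRingHom ^ f)
    (fun a x => evS α (V a x)) Ψ hΨ (fun a => by simp only [hσ]; exact hΨ' _ (hS a)) (by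
      obtain ⟨c, hc, hr⟩ := h0
      refine ⟨c, hc, funext fun x => ?_⟩
      have := congrFun hr x
      simpa [Matrix.vecMul, dotProduct, Finset.sum_apply] using this)
  choose b hb using fun a => hb (c a) ((hσ _).symm.trans (hfix a))
  set U : ι → PowerSeries C := fun x => ∑ a, polS C k (b a) * V a x with hU
  have hUS : U ∈ Sol k Φ := hV ▸ ⟨b, fun _ => rfl⟩
  have hpol : ∀ P : k[X], polS C k P = ((P.map (algebraMap k C) : C[X]) : PowerSeries C) :=
    fun _ => rfl
  have hU0 : ∀ x, evS α (U x) = 0 := fun x => by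
    rw [hU]
    simp only [hpol]
    rw [evS_sum _ (fun a _ => (conv_coe 1 _).mul ((hS a).1 x) zero_le_one) hα1]
    have := congrFun hr x
    rw [Finset.sum_apply] at this
    refine Eq.trans (Finset.sum_congr rfl fun a _ => ?_) this
    rw [evS_mul (conv_coe 1 _) ((hS a).1 x) hα1, evS_coe, eval_map_algebraMap, hb]
    rfl
  have hUi : ∀ i x, evS (α ^ Fintype.card k ^ i) (U x) = 0 := fun i => by
    obtain ⟨Ψ, hΨ, hΨ'⟩ := SolC_iter (k := k) hθ hc₀ hΦ hα1 i
    have h1 := hΨ' U hUS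
    simp only [hU0, zero_pow (pow_pos Fintype.card_pos i).ne'] at h1
    exact congrFun (Matrix.eq_zero_of_mulVec_eq_zero hΨ h1.symm)
  set s : Finset C := (Finset.range f).image fun i => α ^ Fintype.card k ^ i with hs
  have hαs : α ∈ s := Finset.mem_image.2 ⟨0, Finset.mem_range.2 hf, by simp⟩
  have htw := SolC_tw (k := k) s fun β hβ => by
    obtain ⟨i, hi, rfl⟩ := Finset.mem_image.1 hβ
    rw [← pow_mul, ← pow_succ]
    rcases (Nat.succ_le_of_lt (Finset.mem_range.1 hi)).eq_or_lt with e | e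
    · rw [show i + 1 = f from e, hαf]
      exact hαs
    · exact Finset.mem_image.2 ⟨i + 1, Finset.mem_range.2 e, rfl⟩
  choose W hW hUW using fun x => SolC_div s (fun β hβ => by
    obtain ⟨i, -, rfl⟩ := Finset.mem_image.1 hβ
    rw [norm_pow]
    exact pow_le_one₀ (norm_nonneg _) hα1) (hUS.1 x) fun β hβ => by
      obtain ⟨i, -, rfl⟩ := Finset.mem_image.1 hβ
      exact hUi i x
  have hg0 : eval α (∏ β ∈ s, (X - Polynomial.C β)) = 0 := by
    rw [eval_prod]
    exact Finset.prod_eq_zero hαs (by simp)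
  have hgn : (∏ β ∈ s, (X - Polynomial.C β) : C[X]) ≠ 0 :=
    (monic_prod_X_sub_C (fun β => β) s).ne_zero
  generalize (∏ β ∈ s, (X - Polynomial.C β) : C[X]) = g at htw hUW hg0 hgn
  have hgn' : (g : PowerSeries C) ≠ 0 := by exact_mod_cast hgn
  have hWS : W ∈ Sol k Φ := ⟨hW, fun x => by
    have := hUS.2 x
    simp only [hUW, map_mul, htw] at this
    refine mul_left_cancel₀ hgn' (this.trans ?_)
    rw [Finset.mul_sum]
    exact Finset.sum_congr rfl fun d _ => by ring⟩
  obtain ⟨P, hP⟩ : W ∈ SpanK k V := hV ▸ hWS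
  have hz := Matrix.eq_zero_of_vecMul_eq_zero hδ
    (v := fun a => polS C k (b a) - (g : PowerSeries C) * polS C k (P a)) (funext fun x => by
      have := hUW x
      rw [hP x, Finset.mul_sum] at this
      simp only [Matrix.vecMul, dotProduct, Matrix.of_apply, sub_mul, Finset.sum_sub_distrib,
        mul_assoc, Pi.zero_apply]
      exact sub_eq_zero.2 this)
  refine hc (funext fun a => ?_)
  have h1 := sub_eq_zero.1 (congrFun hz a)
  rw [hpol, hpol, ← Polynomial.coe_mul] at h1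
  have h2 := congrArg (eval α) (Polynomial.coe_injective C h1)
  rw [eval_mul, hg0, zero_mul, eval_map_algebraMap, hb] at h2
  exact h2

theorem sol_unit [IsAlgClosed C]
    (hres : ∀ x : C, ‖x‖ ≤ 1 → ∃ c : C, IsAlgebraic k c ∧ ‖x - c‖ < 1)
    {Φ : Matrix ι ι C[X]} {θ c₀ : C} {m : ℕ} (hθ : 1 < ‖θ‖) (hc₀ : c₀ ≠ 0)
    (hΦ : Φ.det = Polynomial.C c₀ * (X - Polynomial.C θ) ^ m) {V : ι → ι → PowerSeries C}
    (hV : Sol k Φ = SpanK k V) (hδ : (Matrix.of V).det ≠ 0) (n : ℕ) (hn : 1 ≤ n) :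
    ‖PowerSeries.coeff n (Matrix.of V).det‖ < ‖PowerSeries.coeff 0 (Matrix.of V).det‖ := by
  have hS : ∀ a, V a ∈ Sol k Φ := fun a => hV ▸ SolC_mem V a
  have hcv : Conv 1 (Matrix.of V).det := conv_det (fun a b => (hS a).1 b) zero_le_one
  have htw := twS_det hS
  have hne := fun (α : C) (hα : IsAlgebraic k α) => sol_ne hθ hc₀ hΦ hV hδ hα
  rw [hΦ] at htw
  generalize (Matrix.of V).det = δ at hδ hcv htw hne ⊢
  have hrec : ∀ β : C, ‖β‖ ≤ 1 → ‖evS β δ‖ ^ Fintype.card k =
      ‖c₀‖ * ‖θ‖ ^ m * ‖evS (β ^ Fintype.card k) δ‖ := fun β hβ => by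
    have hq : ‖β ^ Fintype.card k‖ ≤ 1 := by
      rw [norm_pow]
      exact pow_le_one₀ (norm_nonneg _) hβ
    rw [← norm_pow, ← evS_twS hcv hβ, htw, evS_mul (conv_coe 1 _) hcv hq, evS_coe, norm_mul,
      SolC_g hθ hq]
  obtain ⟨n0, hn0⟩ := hcv.exists_max
  have hc : PowerSeries.coeff n0 δ ≠ 0 := fun h => hδ (PowerSeries.ext fun i => by
    have := hn0 i
    rw [h, norm_zero] at this
    simpa using this)
  obtain ⟨P, hP, hP'⟩ := hcv.exists_red hres hc hn0
  have hP0 : P ≠ 0 := by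
    rintro rfl
    simpa using hP' n0
  generalize PowerSeries.coeff n0 δ = c at hc hP' hn0
  have hcp := norm_pos_iff.2 hc
  have hev : ∀ β : C, ‖β‖ ≤ 1 → ‖evS β δ - c * eval β P‖ < ‖c‖ := fun β hβ => by
    have h1 := norm_evS_lt (hcv.add (conv_coe 1 (Polynomial.C (-c) * P)) zero_le_one) hβ
      (B := ‖c‖) fun i => by
        rw [map_add, coeff_coe, coeff_C_mul, neg_mul, ← sub_eq_add_neg]
        exact hP' i
    rwa [evS_add hcv (conv_coe 1 _) hβ, evS_coe, eval_mul, eval_C, neg_mul,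
      ← sub_eq_add_neg] at h1
  have hult : ∀ x y : C, IsAlgebraic k y → y ≠ 0 → ‖x - c * y‖ < ‖c‖ → ‖x‖ = ‖c‖ :=
    fun x y hy hy0 h => by
      have e : ‖c * y‖ = ‖c‖ := by rw [norm_mul, alg_norm k hy hy0, mul_one]
      have := IsUltrametricDist.norm_add_eq_max_of_norm_ne_norm (x := x - c * y) (y := c * y)
        (by rw [e]; exact h.ne)
      rwa [sub_add_cancel, e, max_eq_right h.le] at this
  obtain ⟨Q, rfl⟩ : P ∈ lifts (algebraMap (algebraicClosure k C) C) :=
    (lifts_iff_coeff_lifts P).2 fun i => ⟨⟨P.coeff i, mem_algebraicClosure_iff.2 (hP i)⟩, rfl⟩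
  rw [coe_mapRingHom] at hP hP' hP0 hev
  have hA : ∀ β : algebraicClosure k C, IsAlgebraic k (β : C) := fun β =>
    mem_algebraicClosure_iff.1 β.2
  have hQ0 : Q ≠ 0 := by
    rintro rfl
    exact hP0 (Polynomial.map_zero _)
  have hevQ : ∀ β : algebraicClosure k C,
      ‖evS (β : C) δ - c * (eval β Q : algebraicClosure k C)‖ < ‖c‖ := fun β => by
    have := hev β (SolC_norm (hA β))
    rwa [eval_map_algebraMap, show aeval (β : C) Q = (eval β Q : algebraicClosure k C) from
      aeval_algebraMap_apply_eq_algebraMap_eval β Q] at this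
  have hgood : ∀ β : algebraicClosure k C, eval β Q ≠ 0 → ‖evS (β : C) δ‖ = ‖c‖ := fun β hβ =>
    hult _ _ (hA _) (by exact_mod_cast hβ) (hevQ β)
  have : IsAlgClosed (algebraicClosure k C) := IsAlgClosure.isAlgClosed k
  have hγ : ‖c‖ ^ Fintype.card k = ‖c₀‖ * ‖θ‖ ^ m * ‖c‖ := by
    obtain ⟨β, hβ⟩ : ∃ β, eval β (Q * expand _ (Fintype.card k) Q) ≠ 0 := by
      by_contra h
      exact mul_ne_zero hQ0 ((expand_ne_zero Fintype.card_pos).2 hQ0)
        (zero_of_eval_zero _ fun x => not_not.1 fun hx => h ⟨x, hx⟩)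
    rw [eval_mul, expand_eval, mul_ne_zero_iff] at hβ
    have h1 := hrec β (SolC_norm (hA β))
    have h2 := hgood _ hβ.2
    rw [IntermediateField.coe_pow] at h2
    rwa [hgood β hβ.1, h2] at h1
  have hdeg : Q.degree = 0 := by
    by_contra hd
    obtain ⟨α, hα⟩ := IsAlgClosed.exists_root Q hd
    have h1 := hevQ α
    rw [hα.eq_zero, ZeroMemClass.coe_zero, mul_zero, sub_zero] at h1
    obtain ⟨f, hf, hαf, -⟩ := SolC_deg (hA α)
    have hit : ∀ i, ‖evS ((α : C) ^ Fintype.card k ^ i) δ‖ / ‖c‖ =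
        (‖evS (α : C) δ‖ / ‖c‖) ^ Fintype.card k ^ i := fun i => by
      induction i with
      | zero => simp
      | succ i ih =>
        have h2 := hrec ((α : C) ^ Fintype.card k ^ i) (SolC_norm ((hA α).pow _))
        have h3 : 0 < ‖c₀‖ * ‖θ‖ ^ m := by
          have := zero_lt_one.trans hθ
          have := norm_pos_iff.2 hc₀
          positivity
        rw [pow_succ, pow_mul, pow_mul, ← ih, div_pow, h2, hγ, mul_div_mul_left _ _ h3.ne']
    have h4 := hit f
    rw [hαf] at h4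
    exact (pow_lt_self_of_lt_one₀ (div_pos (norm_pos_iff.2 (hne _ (hA α))) hcp)
      ((div_lt_one hcp).2 h1) (Nat.one_lt_pow hf.ne' Fintype.one_lt_card)).ne' h4
  have hQ := eq_C_of_degree_eq_zero hdeg
  have h0 : ‖PowerSeries.coeff 0 δ‖ = ‖c‖ := by
    refine hult _ _ (hP 0) ?_ (hP' 0)
    rw [coeff_map, _root_.map_ne_zero]
    intro h
    exact hQ0 (by rw [hQ, h, C_0])
  have h1 := hP' n
  rw [hQ, map_C, coeff_C, if_neg (by omega), mul_zero, sub_zero] at h1
  rwa [h0]

end Pool.Agent.FFC
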