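import Pool.Agent.P.MP_a2beea_nt.FC.SolA
import Pool.Agent.P.MP_a2beea_nt.FC.SolB
import Pool.Agent.P.MP_a2beea_nt.FC.SolC
import Pool.Agent.P.MP_a2beea_nt.FC.Tate0

/-! The size of the determinant just outside the unit disc. Combine `sol_denom`, `sol_basis`,
`sol_unit`; `δ_V = det V` satisfies `(X - θ) ^ m δ_V = c₀⁻¹ twS δ_V` (`twS_det`), so `tate_abs`
(with `ι = Unit`) bounds its coefficients, `evS_unit` applies, and for `‖c‖ > 1` a nonzero
polynomial `W` over `k` has `‖W(c)‖ = ‖c‖ ^ natDegree W`. -/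

open Polynomial
open scoped TensorProduct NNReal IntermediateField

namespace Pool.Agent.FFC

open Classical

variable {C : Type*} [NormedField C] [IsUltrametricDist C] [CompleteSpace C]
  {k : Type*} [Field k] [Fintype k] [Algebra k C] {ι : Type*} [Fintype ι] [DecidableEq ι]

theorem SolM_norm {P : k[X]} (hP : P ≠ 0) {c : C} (hc : 1 < ‖c‖) :
    ‖(P.map (algebraMap k C)).eval c‖ = ‖c‖ ^ P.natDegree := by
  have hc0 : 0 < ‖c‖ := zero_lt_one.trans hc
  have hle : ∀ x : k, ‖algebraMap k C x‖ ≤ 1 := by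
    intro x
    by_cases h : algebraMap k C x = 0
    · rw [h, norm_zero]; exact zero_le_one
    · exact (alg_norm k (isAlgebraic_algebraMap x) h).le
  have h1 : ‖algebraMap k C (P.coeff P.natDegree) * c ^ P.natDegree‖ = ‖c‖ ^ P.natDegree := by
    rw [norm_mul, norm_pow, alg_norm k (isAlgebraic_algebraMap _), one_mul]
    rw [_root_.map_ne_zero]
    exact leadingCoeff_ne_zero.2 hP
  have h2 : ‖∑ i ∈ Finset.range P.natDegree, algebraMap k C (P.coeff i) * c ^ i‖ <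
      ‖c‖ ^ P.natDegree := by
    refine lt_of_le_of_lt (IsUltrametricDist.norm_sum_le_of_forall_le_of_nonneg
      (C := ‖c‖ ^ P.natDegree / ‖c‖) (by positivity) fun i hi => ?_)
      (div_lt_self (by positivity) hc)
    rw [norm_mul, norm_pow, le_div_iff₀ hc0]
    calc ‖algebraMap k C (P.coeff i)‖ * ‖c‖ ^ i * ‖c‖ ≤ 1 * ‖c‖ ^ i * ‖c‖ := by
          gcongr
          exact hle _
      _ = ‖c‖ ^ (i + 1) := by ring
      _ ≤ ‖c‖ ^ P.natDegree := pow_le_pow_right₀ hc.le (Finset.mem_range.1 hi)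
  rw [eval_map, eval₂_eq_sum_range, Finset.sum_range_succ,
    IsUltrametricDist.norm_add_eq_max_of_norm_ne_norm (by rw [h1]; exact h2.ne), h1]
  exact max_eq_right h2.le

theorem sol_index [IsAlgClosed C]
    (hres : ∀ x : C, ‖x‖ ≤ 1 → ∃ c : C, IsAlgebraic k c ∧ ‖x - c‖ < 1)
    {Φ : Matrix ι ι C[X]} {θ c₀ : C} {m : ℕ} (hθ : 1 < ‖θ‖) (hc₀ : c₀ ≠ 0)
    (hΦ : Φ.det = Polynomial.C c₀ * (X - Polynomial.C θ) ^ m) {U : ι → ι → PowerSeries C}
    (hU : ∀ a, U a ∈ Sol k Φ) (hδ : (Matrix.of U).det ≠ 0) :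
    ∃ (N : ℕ) (κ ρ : ℝ), (SpanK k U).relIndex (Sol k Φ) = Fintype.card k ^ N ∧ 1 < ρ ∧
      ∀ c : C, 1 < ‖c‖ → ‖c‖ ≤ ρ →
        Real.log ‖evS c (Matrix.of U).det‖ = κ + N * Real.log ‖c‖ := by
  have hΦ0 : Φ.det ≠ 0 := by
    rw [hΦ]
    exact mul_ne_zero (C_ne_zero.2 hc₀) (pow_ne_zero _ (X_sub_C_ne_zero θ))
  obtain ⟨W, hW, hWS⟩ := sol_denom hres hΦ0 hU hδ
  obtain ⟨V, T, hV, hT, hdet, hidx⟩ := sol_basis hU hδ hW hWS
  have hδV : (Matrix.of V).det ≠ 0 := fun e => hδ (by rw [hdet, e, mul_zero])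
  have hVS : ∀ a, V a ∈ Sol k Φ := by
    intro a
    rw [hV]
    refine ⟨Pi.single a 1, fun c => ?_⟩
    rw [Finset.sum_eq_single a]
    · simp
    · intro b _ hb
      simp [hb]
    · intro h
      exact absurd (Finset.mem_univ a) h
  have hconv : Conv 1 (Matrix.of V).det := conv_det (fun a b => (hVS a).1 b) zero_le_one
  have htw := twS_det hVS
  obtain ⟨M, hM⟩ := tate_abs (ι := Unit) hθ (q := Fintype.card k) Fintype.one_lt_card m
    (fun _ => (Matrix.of V).det) (fun _ => twS k (Matrix.of V).det)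
    (fun _ => by simpa [Conv] using hconv)
    (fun _ n => by rw [coeff_twS, norm_pow])
    (fun _ _ => Polynomial.C c₀⁻¹)
    (fun _ => by
      rw [Fintype.sum_unique, htw, hΦ, ← mul_assoc, ← Polynomial.coe_mul, ← mul_assoc,
        ← map_mul, inv_mul_cancel₀ hc₀, map_one, one_mul, Polynomial.coe_pow,
        Polynomial.coe_sub, Polynomial.coe_X, Polynomial.coe_C])
  have hun := sol_unit hres hθ hc₀ hΦ hV hδV
  obtain ⟨ρ, hρ, hev⟩ := evS_unit hθ (hM ()) hun
  have hpos : 0 < ‖PowerSeries.coeff 0 (Matrix.of V).det‖ :=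
    lt_of_le_of_lt (norm_nonneg _) (hun 1 le_rfl)
  have hconv' : Conv ((1 + ‖θ‖) / 2) (Matrix.of V).det :=
    conv_of_bound (hM ()) (by positivity) (by linarith)
  refine ⟨T.det.natDegree, Real.log ‖PowerSeries.coeff 0 (Matrix.of V).det‖,
    min ρ ((1 + ‖θ‖) / 2), hidx, lt_min hρ (by linarith), fun c hc hc' => ?_⟩
  have e : polS C k T.det = ((T.det.map (algebraMap k C) : C[X]) : PowerSeries C) := rfl
  rw [hdet, e, evS_mul (conv_coe _ _) hconv' (hc'.trans (min_le_right _ _)), evS_coe, norm_mul,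
    SolM_norm hT hc, hev c (hc'.trans (min_le_left _ _)),
    Real.log_mul (by positivity) hpos.ne', Real.log_pow, add_comm]

end Pool.Agent.FFC
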