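import Pool.Agent.P.MP_a2beea_nt.FC.SolM

/-! The solution lattice when the determinant has several roots outside the unit disc. Copy and adapt
the proofs of `sol_ne`, `sol_unit` (`SolC`) and `sol_index` (`SolM`). Write
`det Φ = c₀ ∏ (X - β_i)` (`C` is algebraically closed); for `‖α‖ ≤ 1` the norm of `det Φ (α)` is
the constant `‖c₀‖ ∏ ‖β_i‖`. `tate_abs2`: see `tate_div_one`, `tate_div`, `tate_abs` in `Tate0`;
all roots have norm at least some `ρ > 1`. -/

open Polynomial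
open scoped TensorProduct NNReal IntermediateField

namespace Pool.Agent.FFC

open Classical

variable {C : Type*} [NormedField C] [IsUltrametricDist C] [CompleteSpace C]
  {k : Type*} [Field k] [Fintype k] [Algebra k C] {ι : Type*} [Fintype ι] [DecidableEq ι]

omit [CompleteSpace C] in
theorem SolM2_g [IsAlgClosed C] {g : C[X]} (hg0 : g ≠ 0) (hg : ∀ β : C, g.IsRoot β → 1 < ‖β‖) :
    ∃ γ : ℝ, 0 < γ ∧ ∀ β : C, ‖β‖ ≤ 1 → ‖eval β g‖ = γ := by
  refine ⟨‖eval 0 g‖, norm_pos_iff.2 fun h => absurd (hg 0 h) (by simp), fun β hβ => ?_⟩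
  rw [(IsAlgClosed.splits g).eval_eq_prod_roots, (IsAlgClosed.splits g).eval_eq_prod_roots,
    norm_mul, norm_mul]
  congr 1
  have h : ∀ a ∈ g.roots, 1 < ‖a‖ := fun a ha => hg a ((mem_roots hg0).1 ha)
  generalize g.roots = s at h
  induction s using Multiset.induction_on with
  | empty => rfl
  | cons a s ih =>
    have ha := h a (Multiset.mem_cons_self a s)
    rw [Multiset.map_cons, Multiset.map_cons, Multiset.prod_cons, Multiset.prod_cons, norm_mul,
      norm_mul, ih fun b hb => h b (Multiset.mem_cons_of_mem hb), zero_sub, norm_neg,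
      sub_eq_add_neg, IsUltrametricDist.norm_add_eq_max_of_norm_ne_norm
        (by rw [norm_neg]; exact (hβ.trans_lt ha).ne), norm_neg, max_eq_right (hβ.trans ha.le)]

theorem SolM2_iter {Φ : Matrix ι ι C[X]} (hΦ : ∀ β : C, Φ.det.IsRoot β → 1 < ‖β‖) {α : C}
    (hα : ‖α‖ ≤ 1) (j : ℕ) :
    ∃ Ψ : Matrix ι ι C, Ψ.det ≠ 0 ∧ ∀ U ∈ Sol k Φ, (fun c => evS α (U c) ^ Fintype.card k ^ j) =
      Ψ.mulVec fun c => evS (α ^ Fintype.card k ^ j) (U c) := by
  induction j with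
  | zero => exact ⟨1, by simp, fun U _ => by simp⟩
  | succ j ih =>
    obtain ⟨Ψ, h1, h2⟩ := ih
    set F : C →+* C := (FiniteField.frobeniusAlgHom k C).toRingHom with hF
    have hn : ∀ i, ‖α ^ i‖ ≤ 1 := fun i => by
      rw [norm_pow]
      exact pow_le_one₀ (norm_nonneg _) hα
    refine ⟨Ψ.map F * Φ.map (eval (α ^ Fintype.card k ^ (j + 1))), ?_, fun U hU => ?_⟩
    · rw [Matrix.det_mul]
      refine mul_ne_zero ?_ ?_
      · have := F.map_det Ψ
        rw [RingHom.mapMatrix_apply] at this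
        rw [← this]
        exact (map_ne_zero F).2 h1
      · have := (evalRingHom (α ^ Fintype.card k ^ (j + 1))).map_det Φ
        rw [RingHom.mapMatrix_apply, coe_evalRingHom] at this
        rw [← this]
        exact fun h => absurd (hΦ _ h) (not_lt.2 (hn _))
    · rw [← Matrix.mulVec_mulVec, pow_succ, pow_mul, ← SolC_step hU (hn _)]
      funext c
      rw [pow_mul, congrFun (h2 U hU) c]
      exact F.map_mulVec Ψ _ c

omit [CompleteSpace C] in
theorem SolM2_one {θ : C} {ρ : ℝ} (h1 : 1 ≤ ρ) (hθ : ρ ≤ ‖θ‖) (U : PowerSeries C) (n : ℕ) (K : ℝ)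
    (h : ∀ m ≤ n, ‖PowerSeries.coeff m ((PowerSeries.X - PowerSeries.C θ) * U)‖ * ρ ^ m ≤ K) :
    ∀ m ≤ n, ‖PowerSeries.coeff m U‖ * ρ ^ m ≤ K := by
  have h0 : 0 ≤ ρ := zero_le_one.trans h1
  have up : ∀ m, ‖PowerSeries.coeff m U‖ * ρ ^ (m + 1) ≤ ‖θ * PowerSeries.coeff m U‖ * ρ ^ m :=
    fun m => by
      rw [norm_mul, pow_succ', ← mul_assoc, mul_comm _ ρ]
      gcongr
  have key : ∀ m ≤ n, ‖PowerSeries.coeff m U‖ * ρ ^ (m + 1) ≤ K := by
    intro m
    induction m with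
    | zero =>
      intro hm
      have := h 0 hm
      rw [sub_mul, map_sub, PowerSeries.coeff_zero_X_mul, PowerSeries.coeff_C_mul, zero_sub,
        norm_neg] at this
      exact (up 0).trans this
    | succ m ih =>
      intro hm
      have h2 := h (m + 1) hm
      rw [sub_mul, map_sub, PowerSeries.coeff_succ_X_mul, PowerSeries.coeff_C_mul] at h2
      have h4 := IsUltrametricDist.norm_add_le_max (PowerSeries.coeff m U)
        (-(PowerSeries.coeff m U - θ * PowerSeries.coeff (m + 1) U))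
      rw [norm_neg, ← sub_eq_add_neg, sub_sub_cancel] at h4
      have hp : 0 ≤ ρ ^ (m + 1) := by positivity
      refine (up _).trans ((mul_le_mul_of_nonneg_right h4 hp).trans ?_)
      rw [max_mul_of_nonneg _ _ hp]
      exact max_le (ih (by omega)) h2
  exact fun m hm => (mul_le_mul_of_nonneg_left (pow_le_pow_right₀ h1 (Nat.le_succ m))
    (norm_nonneg _)).trans (key m hm)

omit [CompleteSpace C] in
theorem SolM2_div {ρ : ℝ} (h1 : 1 ≤ ρ) (s : Multiset C) (hs : ∀ a ∈ s, ρ ≤ ‖a‖) (U : PowerSeries C)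
    (n : ℕ) (K : ℝ) (h : ∀ m ≤ n, ‖PowerSeries.coeff m
      (((s.map (X - Polynomial.C ·)).prod : C[X]) * U : PowerSeries C)‖ * ρ ^ m ≤ K) :
    ∀ m ≤ n, ‖PowerSeries.coeff m U‖ * ρ ^ m ≤ K := by
  induction s using Multiset.induction_on with
  | empty => simpa using h
  | cons a s ih =>
    refine ih (fun b hb => hs b (Multiset.mem_cons_of_mem hb))
      (SolM2_one h1 (hs a (Multiset.mem_cons_self a s)) _ n K fun m hm => ?_)
    have := h m hm
    rwa [Multiset.map_cons, Multiset.prod_cons, Polynomial.coe_mul, Polynomial.coe_sub,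
      Polynomial.coe_X, Polynomial.coe_C, mul_assoc] at this

theorem sol_ne2 [IsAlgClosed C]
    {Φ : Matrix ι ι C[X]} (hΦ0 : Φ.det ≠ 0) (hΦ : ∀ β : C, Φ.det.IsRoot β → 1 < ‖β‖)
    {V : ι → ι → PowerSeries C} (hV : Sol k Φ = SpanK k V) (hδ : (Matrix.of V).det ≠ 0) {α : C}
    (hα : IsAlgebraic k α) : evS α (Matrix.of V).det ≠ 0 := by
  intro h0
  have hα1 := SolC_norm hα
  have hS : ∀ a, V a ∈ Sol k Φ := fun a => hV ▸ SolC_mem V a
  have hcv : ∀ a b, Conv 1 (Matrix.of V a b) := fun a b => (hS a).1 b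
  rw [evS_det hcv hα1, ← Matrix.exists_vecMul_eq_zero_iff] at h0
  obtain ⟨f, hf, hαf, hb⟩ := SolC_deg hα
  obtain ⟨Ψ, hΨ, hΨ'⟩ := SolM2_iter (k := k) hΦ hα1 f
  rw [hαf] at hΨ'
  have hσ : ∀ x : C, ((FiniteField.frobeniusAlgHom k C).toRingHom ^ f) x =
      x ^ Fintype.card k ^ f := fun x => by
    rw [RingHom.coe_pow]
    exact congrFun (pow_iterate (Fintype.card k) f) x
  obtain ⟨c, hc, hr, hfix⟩ := lang_rel ((FiniteField.frobeniusAlgHom k C).toRingHom ^ f)
    (fun a x => evS α (V a x)) Ψ hΨ (fun a => by simp only [hσ]; exact hΨ' _ (hS a)) (by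
      obtain ⟨c, hc, hr⟩ := h0
      refine ⟨c, hc, funext fun x => ?_⟩
      have := congrFun hr x
      simpa [Matrix.vecMul, dotProduct, Finset.sum_apply] using this)
  choose b hb using fun a => hb (c a) ((hσ _).symm.trans (hfix a))
  set U : ι → PowerSeries C := fun x => ∑ a, polS C k (b a) * V a x with hU
  have hUS : U ∈ Sol k Φ := hV ▸ ⟨b, fun _ => rfl⟩
  have hpol : ∀ P : k[X], polS C k P = ((P.map (algebraMap k C) : C[X]) : PowerSeries C) :=
    fun _ => rfl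
  have hU0 : ∀ x, evS α (U x) = 0 := fun x => by
    rw [hU]
    simp only [hpol]
    rw [evS_sum _ (fun a _ => (conv_coe 1 _).mul ((hS a).1 x) zero_le_one) hα1]
    have := congrFun hr x
    rw [Finset.sum_apply] at this
    refine Eq.trans (Finset.sum_congr rfl fun a _ => ?_) this
    rw [evS_mul (conv_coe 1 _) ((hS a).1 x) hα1, evS_coe, eval_map_algebraMap, hb]
    rfl
  have hUi : ∀ i x, evS (α ^ Fintype.card k ^ i) (U x) = 0 := fun i => by
    obtain ⟨Ψ, hΨ, hΨ'⟩ := SolM2_iter (k := k) hΦ hα1 i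
    have h1 := hΨ' U hUS
    simp only [hU0, zero_pow (pow_pos Fintype.card_pos i).ne'] at h1
    exact congrFun (Matrix.eq_zero_of_mulVec_eq_zero hΨ h1.symm)
  set s : Finset C := (Finset.range f).image fun i => α ^ Fintype.card k ^ i with hs
  have hαs : α ∈ s := Finset.mem_image.2 ⟨0, Finset.mem_range.2 hf, by simp⟩
  have htw := SolC_tw (k := k) s fun β hβ => by
    obtain ⟨i, hi, rfl⟩ := Finset.mem_image.1 hβ
    rw [← pow_mul, ← pow_succ]
    rcases (Nat.succ_le_of_lt (Finset.mem_range.1 hi)).eq_or_lt with e | e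
    · rw [show i + 1 = f from e, hαf]
      exact hαs
    · exact Finset.mem_image.2 ⟨i + 1, Finset.mem_range.2 e, rfl⟩
  choose W hW hUW using fun x => SolC_div s (fun β hβ => by
    obtain ⟨i, -, rfl⟩ := Finset.mem_image.1 hβ
    rw [norm_pow]
    exact pow_le_one₀ (norm_nonneg _) hα1) (hUS.1 x) fun β hβ => by
      obtain ⟨i, -, rfl⟩ := Finset.mem_image.1 hβ
      exact hUi i x
  have hg0 : eval α (∏ β ∈ s, (X - Polynomial.C β)) = 0 := by
    rw [eval_prod]
    exact Finset.prod_eq_zero hαs (by simp)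
  have hgn : (∏ β ∈ s, (X - Polynomial.C β) : C[X]) ≠ 0 :=
    (monic_prod_X_sub_C (fun β => β) s).ne_zero
  generalize (∏ β ∈ s, (X - Polynomial.C β) : C[X]) = g at htw hUW hg0 hgn
  have hgn' : (g : PowerSeries C) ≠ 0 := by exact_mod_cast hgn
  have hWS : W ∈ Sol k Φ := ⟨hW, fun x => by
    have := hUS.2 x
    simp only [hUW, map_mul, htw] at this
    refine mul_left_cancel₀ hgn' (this.trans ?_)
    rw [Finset.mul_sum]
    exact Finset.sum_congr rfl fun d _ => by ring⟩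
  obtain ⟨P, hP⟩ : W ∈ SpanK k V := hV ▸ hWS
  have hz := Matrix.eq_zero_of_vecMul_eq_zero hδ
    (v := fun a => polS C k (b a) - (g : PowerSeries C) * polS C k (P a)) (funext fun x => by
      have := hUW x
      rw [hP x, Finset.mul_sum] at this
      simp only [Matrix.vecMul, dotProduct, Matrix.of_apply, sub_mul, Finset.sum_sub_distrib,
        mul_assoc, Pi.zero_apply]
      exact sub_eq_zero.2 this)
  refine hc (funext fun a => ?_)
  have h1 := sub_eq_zero.1 (congrFun hz a)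
  rw [hpol, hpol, ← Polynomial.coe_mul] at h1
  have h2 := congrArg (eval α) (Polynomial.coe_injective C h1)
  rw [eval_mul, hg0, zero_mul, eval_map_algebraMap, hb] at h2
  exact h2

theorem sol_unit2 [IsAlgClosed C]
    (hres : ∀ x : C, ‖x‖ ≤ 1 → ∃ c : C, IsAlgebraic k c ∧ ‖x - c‖ < 1)
    {Φ : Matrix ι ι C[X]} (hΦ0 : Φ.det ≠ 0) (hΦ : ∀ β : C, Φ.det.IsRoot β → 1 < ‖β‖)
    {V : ι → ι → PowerSeries C} (hV : Sol k Φ = SpanK k V) (hδ : (Matrix.of V).det ≠ 0) (n : ℕ)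
    (hn : 1 ≤ n) :
    ‖PowerSeries.coeff n (Matrix.of V).det‖ < ‖PowerSeries.coeff 0 (Matrix.of V).det‖ := by
  have hS : ∀ a, V a ∈ Sol k Φ := fun a => hV ▸ SolC_mem V a
  have hcv : Conv 1 (Matrix.of V).det := conv_det (fun a b => (hS a).1 b) zero_le_one
  have htw := twS_det hS
  have hne := fun (α : C) (hα : IsAlgebraic k α) => sol_ne2 hΦ0 hΦ hV hδ hα
  obtain ⟨γ, h3, hg⟩ := SolM2_g hΦ0 hΦ
  generalize (Matrix.of V).det = δ at hδ hcv htw hne ⊢
  have hrec : ∀ β : C, ‖β‖ ≤ 1 → ‖evS β δ‖ ^ Fintype.card k =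
      γ * ‖evS (β ^ Fintype.card k) δ‖ := fun β hβ => by
    have hq : ‖β ^ Fintype.card k‖ ≤ 1 := by
      rw [norm_pow]
      exact pow_le_one₀ (norm_nonneg _) hβ
    rw [← norm_pow, ← evS_twS hcv hβ, htw, evS_mul (conv_coe 1 _) hcv hq, evS_coe, norm_mul,
      hg _ hq]
  obtain ⟨n0, hn0⟩ := hcv.exists_max
  have hc : PowerSeries.coeff n0 δ ≠ 0 := fun h => hδ (PowerSeries.ext fun i => by
    have := hn0 i
    rw [h, norm_zero] at this
    simpa using this)
  obtain ⟨P, hP, hP'⟩ := hcv.exists_red hres hc hn0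
  have hP0 : P ≠ 0 := by
    rintro rfl
    simpa using hP' n0
  generalize PowerSeries.coeff n0 δ = c at hc hP' hn0
  have hcp := norm_pos_iff.2 hc
  have hev : ∀ β : C, ‖β‖ ≤ 1 → ‖evS β δ - c * eval β P‖ < ‖c‖ := fun β hβ => by
    have h1 := norm_evS_lt (hcv.add (conv_coe 1 (Polynomial.C (-c) * P)) zero_le_one) hβ
      (B := ‖c‖) fun i => by
        rw [map_add, coeff_coe, coeff_C_mul, neg_mul, ← sub_eq_add_neg]
        exact hP' i
    rwa [evS_add hcv (conv_coe 1 _) hβ, evS_coe, eval_mul, eval_C, neg_mul,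
      ← sub_eq_add_neg] at h1
  have hult : ∀ x y : C, IsAlgebraic k y → y ≠ 0 → ‖x - c * y‖ < ‖c‖ → ‖x‖ = ‖c‖ :=
    fun x y hy hy0 h => by
      have e : ‖c * y‖ = ‖c‖ := by rw [norm_mul, alg_norm k hy hy0, mul_one]
      have := IsUltrametricDist.norm_add_eq_max_of_norm_ne_norm (x := x - c * y) (y := c * y)
        (by rw [e]; exact h.ne)
      rwa [sub_add_cancel, e, max_eq_right h.le] at this
  obtain ⟨Q, rfl⟩ : P ∈ lifts (algebraMap (algebraicClosure k C) C) :=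
    (lifts_iff_coeff_lifts P).2 fun i => ⟨⟨P.coeff i, mem_algebraicClosure_iff.2 (hP i)⟩, rfl⟩
  rw [coe_mapRingHom] at hP hP' hP0 hev
  have hA : ∀ β : algebraicClosure k C, IsAlgebraic k (β : C) := fun β =>
    mem_algebraicClosure_iff.1 β.2
  have hQ0 : Q ≠ 0 := by
    rintro rfl
    exact hP0 (Polynomial.map_zero _)
  have hevQ : ∀ β : algebraicClosure k C,
      ‖evS (β : C) δ - c * (eval β Q : algebraicClosure k C)‖ < ‖c‖ := fun β => by
    have := hev β (SolC_norm (hA β))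
    rwa [eval_map_algebraMap, show aeval (β : C) Q = (eval β Q : algebraicClosure k C) from
      aeval_algebraMap_apply_eq_algebraMap_eval β Q] at this
  have hgood : ∀ β : algebraicClosure k C, eval β Q ≠ 0 → ‖evS (β : C) δ‖ = ‖c‖ := fun β hβ =>
    hult _ _ (hA _) (by exact_mod_cast hβ) (hevQ β)
  have : IsAlgClosed (algebraicClosure k C) := IsAlgClosure.isAlgClosed k
  have hγ : ‖c‖ ^ Fintype.card k = γ * ‖c‖ := by
    obtain ⟨β, hβ⟩ : ∃ β, eval β (Q * expand _ (Fintype.card k) Q) ≠ 0 := by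
      by_contra h
      exact mul_ne_zero hQ0 ((expand_ne_zero Fintype.card_pos).2 hQ0)
        (zero_of_eval_zero _ fun x => not_not.1 fun hx => h ⟨x, hx⟩)
    rw [eval_mul, expand_eval, mul_ne_zero_iff] at hβ
    have h1 := hrec β (SolC_norm (hA β))
    have h2 := hgood _ hβ.2
    rw [IntermediateField.coe_pow] at h2
    rwa [hgood β hβ.1, h2] at h1
  have hdeg : Q.degree = 0 := by
    by_contra hd
    obtain ⟨α, hα⟩ := IsAlgClosed.exists_root Q hd
    have h1 := hevQ α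
    rw [hα.eq_zero, ZeroMemClass.coe_zero, mul_zero, sub_zero] at h1
    obtain ⟨f, hf, hαf, -⟩ := SolC_deg (hA α)
    have hit : ∀ i, ‖evS ((α : C) ^ Fintype.card k ^ i) δ‖ / ‖c‖ =
        (‖evS (α : C) δ‖ / ‖c‖) ^ Fintype.card k ^ i := fun i => by
      induction i with
      | zero => simp
      | succ i ih =>
        have h2 := hrec ((α : C) ^ Fintype.card k ^ i) (SolC_norm ((hA α).pow _))
        rw [pow_succ, pow_mul, pow_mul, ← ih, div_pow, h2, hγ, mul_div_mul_left _ _ h3.ne']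
    have h4 := hit f
    rw [hαf] at h4
    exact (pow_lt_self_of_lt_one₀ (div_pos (norm_pos_iff.2 (hne _ (hA α))) hcp)
      ((div_lt_one hcp).2 h1) (Nat.one_lt_pow hf.ne' Fintype.one_lt_card)).ne' h4
  have hQ := eq_C_of_degree_eq_zero hdeg
  have h0 : ‖PowerSeries.coeff 0 δ‖ = ‖c‖ := by
    refine hult _ _ (hP 0) ?_ (hP' 0)
    rw [coeff_map, _root_.map_ne_zero]
    intro h
    exact hQ0 (by rw [hQ, h, C_0])
  have h1 := hP' n
  rw [hQ, map_C, coeff_C, if_neg (by omega), mul_zero, sub_zero] at h1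
  rwa [h0]

theorem tate_abs2 [IsAlgClosed C] {g : C[X]} (hg0 : g ≠ 0) (hg : ∀ β : C, g.IsRoot β → 1 < ‖β‖)
    {δ : PowerSeries C} (hδ : Conv 1 δ) (he : twS k δ = (g : PowerSeries C) * δ) :
    ∃ R B : ℝ, 1 < R ∧ ∀ n, ‖PowerSeries.coeff n δ‖ * R ^ n ≤ B := by
  obtain ⟨ρ, hρ, hs⟩ : ∃ ρ : ℝ, 1 < ρ ∧ ∀ a ∈ g.roots, ρ ≤ ‖a‖ := by
    have h : ∀ a ∈ g.roots, 1 < ‖a‖ := fun a ha => hg a ((mem_roots hg0).1 ha)
    generalize g.roots = s at h
    induction s using Multiset.induction_on with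
    | empty => exact ⟨2, one_lt_two, by simp⟩
    | cons a s ih =>
      obtain ⟨ρ, h1, h2⟩ := ih fun b hb => h b (Multiset.mem_cons_of_mem hb)
      refine ⟨min ρ ‖a‖, lt_min h1 (h a (Multiset.mem_cons_self a s)), fun b hb => ?_⟩
      rcases Multiset.mem_cons.1 hb with rfl | hb
      · exact min_le_right _ _
      · exact (min_le_left _ _).trans (h2 b hb)
  have h0 : 0 < ρ := zero_lt_one.trans hρ
  have e : (((g.roots.map (X - Polynomial.C ·)).prod : C[X]) * δ : PowerSeries C) =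
      PowerSeries.C g.leadingCoeff⁻¹ * twS k δ := by
    rw [he]
    nth_rewrite 3 [(IsAlgClosed.splits g).eq_prod_roots]
    rw [Polynomial.coe_mul, Polynomial.coe_C, ← mul_assoc, ← mul_assoc, ← map_mul,
      inv_mul_cancel₀ (leadingCoeff_ne_zero.2 hg0), map_one, one_mul]
  obtain ⟨r, hr, hq⟩ : ∃ r, r ≠ 0 ∧ Fintype.card k = r + 1 :=
    ⟨Fintype.card k - 1, by have := Fintype.one_lt_card (α := k); omega⟩
  obtain ⟨n0, hn0⟩ : ∃ n0 : ℕ, ∀ j ≥ n0,
      ‖g.leadingCoeff⁻¹‖ * ‖PowerSeries.coeff j δ‖ ^ r ≤ 1 / 2 := by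
    have h1 : Filter.Tendsto (fun j => ‖PowerSeries.coeff j δ‖) Filter.atTop (nhds 0) := by
      simpa [Conv] using hδ
    have h2 := (h1.pow r).const_mul ‖g.leadingCoeff⁻¹‖
    rw [zero_pow hr, mul_zero] at h2
    exact Filter.eventually_atTop.1 (h2.eventually (ge_mem_nhds (by norm_num)))
  obtain ⟨K, hK0, hK⟩ : ∃ K : ℝ, 0 ≤ K ∧ ∀ j < n0,
      ‖g.leadingCoeff⁻¹‖ * ‖PowerSeries.coeff j δ‖ ^ (r + 1) * ρ ^ j ≤ K :=
    ⟨_, by positivity, fun j hj => Finset.single_le_sum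
      (f := fun j => ‖g.leadingCoeff⁻¹‖ * ‖PowerSeries.coeff j δ‖ ^ (r + 1) * ρ ^ j)
      (fun j _ => by positivity) (Finset.mem_range.2 hj)⟩
  refine ⟨ρ, K, hρ, fun n => ?_⟩
  obtain ⟨m0, hm0, hmax⟩ := Finset.exists_max_image (Finset.range (n + 1))
    (fun m => ‖PowerSeries.coeff m δ‖ * ρ ^ m) ⟨n, by simp⟩
  have hle := fun m (hm : m ≤ n) => hmax m (Finset.mem_range.2 (Nat.lt_succ_of_le hm))
  have hT0 : 0 ≤ ‖PowerSeries.coeff m0 δ‖ * ρ ^ m0 := by positivity
  have hmain := SolM2_div hρ.le _ hs δ n (max K (‖PowerSeries.coeff m0 δ‖ * ρ ^ m0 / 2))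
    (fun m hm => by
      rw [e, PowerSeries.coeff_C_mul, coeff_twS, norm_mul, norm_pow, hq]
      by_cases hj : m < n0
      · exact le_max_of_le_left (hK m hj)
      · refine le_max_of_le_right ?_
        rw [pow_succ, ← mul_assoc, mul_assoc]
        exact (mul_le_mul (hn0 m (not_lt.1 hj)) (hle m hm) (by positivity)
          (by norm_num)).trans_eq (by ring)) m0 (Nat.le_of_lt_succ (Finset.mem_range.1 hm0))
  refine (hle n le_rfl).trans ?_
  rcases le_max_iff.1 hmain with h | h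
  · exact h
  · linarith

theorem sol_index2 [IsAlgClosed C]
    (hres : ∀ x : C, ‖x‖ ≤ 1 → ∃ c : C, IsAlgebraic k c ∧ ‖x - c‖ < 1)
    {Φ : Matrix ι ι C[X]} (hΦ0 : Φ.det ≠ 0) (hΦ : ∀ β : C, Φ.det.IsRoot β → 1 < ‖β‖)
    {U : ι → ι → PowerSeries C} (hU : ∀ a, U a ∈ Sol k Φ) (hδ : (Matrix.of U).det ≠ 0) :
    ∃ (N : ℕ) (κ ρ : ℝ), (SpanK k U).relIndex (Sol k Φ) = Fintype.card k ^ N ∧ 1 < ρ ∧
      ∀ c : C, 1 < ‖c‖ → ‖c‖ ≤ ρ →
        Real.log ‖evS c (Matrix.of U).det‖ = κ + N * Real.log ‖c‖ := by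
  obtain ⟨W, hW, hWS⟩ := sol_denom hres hΦ0 hU hδ
  obtain ⟨V, T, hV, hT, hdet, hidx⟩ := sol_basis hU hδ hW hWS
  have hδV : (Matrix.of V).det ≠ 0 := fun e => hδ (by rw [hdet, e, mul_zero])
  have hVS : ∀ a, V a ∈ Sol k Φ := fun a => hV ▸ SolC_mem V a
  have hconv : Conv 1 (Matrix.of V).det := conv_det (fun a b => (hVS a).1 b) zero_le_one
  obtain ⟨R, M, hR, hM⟩ := tate_abs2 hΦ0 hΦ hconv (twS_det hVS)
  have hun := sol_unit2 hres hΦ0 hΦ hV hδV
  obtain ⟨ρ, hρ, hev⟩ := evS_unit hR hM hun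
  have hpos : 0 < ‖PowerSeries.coeff 0 (Matrix.of V).det‖ :=
    lt_of_le_of_lt (norm_nonneg _) (hun 1 le_rfl)
  have hconv' : Conv ((1 + R) / 2) (Matrix.of V).det :=
    conv_of_bound hM (by positivity) (by linarith)
  refine ⟨T.det.natDegree, Real.log ‖PowerSeries.coeff 0 (Matrix.of V).det‖,
    min ρ ((1 + R) / 2), hidx, lt_min hρ (by linarith), fun c hc hc' => ?_⟩
  have e : polS C k T.det = ((T.det.map (algebraMap k C) : C[X]) : PowerSeries C) := rfl
  rw [hdet, e, evS_mul (conv_coe _ _) hconv' (hc'.trans (min_le_right _ _)), evS_coe, norm_mul,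
    SolM_norm hT hc, hev c (hc'.trans (min_le_left _ _)),
    Real.log_mul (by positivity) hpos.ne', Real.log_pow, add_comm]

end Pool.Agent.FFC
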