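import Pool.Agent.P.MP_a2beea_nt.FC.EmbA
import Pool.Agent.P.MP_a2beea_nt.FC.Tate
import Pool.Agent.P.MP_a2beea_nt.FC.SolEv

/-! Decay of the coefficients of a cycle. `M` is a finite module over `OK ⊗ OE`, and `OE` is finite
over `k₀[X]` (`IsIntegralClosure.finite`), so there are finitely many `m a ∈ M` such that every
`x` is `∑ Q_a(t) • m a` with `Q_a ∈ OK[X]`, where `Q(t)` is the image of `Q` under the ring
homomorphism `OK[X] → OK ⊗ OE`, `c ↦ c ⊗ 1`, `X ↦ 1 ⊗ t`; `u (Q(t) • x) = Q^η * u x`. Every member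
of `dRLat` is `∑ Q_a(t) • τ (m a)` (the set of these sums is a submodule, since
`(1 ⊗ b) • τ x = τ ((1 ⊗ b) • x)` and `τ (Q(t) • m) = Q^σ(t) • τ m`). Apply `tate_abs` to
`jj ^ n • m a ∈ dRLat` (`jj_pow`); use `tate_bdd_add`, `tate_bdd_poly`, `tate_bdd_sum` of `Tate`.
`η` fixes `θ`. `ker_zero`: `Submodule.mem_smul_span_singleton`-like description
`x = jj • x'` (`Submodule.ideal_span_singleton_smul`, `Submodule.mem_smul_pointwise_iff_exists`),
`evS_mul`. -/

open Polynomial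
open scoped TensorProduct NNReal IntermediateField

namespace Pool.Agent.FFC

open Classical

variable {k₀ : Type*} [Field k₀] [Fintype k₀] {E K : Type*} [Field E] [Field K]
  [Algebra k₀ E] [Algebra k₀[X] E] [Algebra (RatFunc k₀) E] [IsScalarTower k₀ k₀[X] E]
  [IsScalarTower k₀[X] (RatFunc k₀) E]
  [Algebra k₀ K] [Algebra k₀[X] K] [Algebra (RatFunc k₀) K] [IsScalarTower k₀ k₀[X] K]
  [IsScalarTower k₀[X] (RatFunc k₀) K]
  [FiniteDimensional (RatFunc k₀) E] [Algebra.IsSeparable (RatFunc k₀) E]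
  [FiniteDimensional (RatFunc k₀) K] [IsGalois (RatFunc k₀) K]
  {OE OK : Type*} [CommRing OE] [CommRing OK]
  [Algebra k₀ OE] [Algebra k₀[X] OE] [Algebra OE E] [IsScalarTower k₀ k₀[X] OE]
  [IsScalarTower k₀[X] OE E] [IsIntegralClosure OE k₀[X] E]
  [Algebra k₀ OK] [Algebra k₀[X] OK] [Algebra OK K] [IsScalarTower k₀ k₀[X] OK]
  [IsScalarTower k₀[X] OK K] [IsIntegralClosure OK k₀[X] K]
  [Fintype (E →ₐ[RatFunc k₀] K)] {M : Type*} [AddCommGroup M] [Module (OK ⊗[k₀] OE) M]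
  {τ : M →+ M} {d : (E →ₐ[RatFunc k₀] K) → ℕ}
  {C : Type*} [NormedField C] [IsUltrametricDist C] [CompleteSpace C] [Algebra K C]
  {η : K ≃ₐ[RatFunc k₀] K} {u : M →+ PowerSeries C}

section Aux

variable (k₀ OE) in
/-- Evaluation of polynomials over `OK` at `1 ⊗ t`. -/
noncomputable def tateMEv : OK[X] →+* OK ⊗[k₀] OE :=
  eval₂RingHom Algebra.TensorProduct.includeLeftRingHom
    ((1 : OK) ⊗ₜ[k₀] algebraMap k₀[X] OE X)

omit [Fintype k₀] [IsScalarTower k₀ k₀[X] OE] [Algebra k₀[X] OK] [IsScalarTower k₀ k₀[X] OK] in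
theorem tateM_ev_C (c : OK) : tateMEv k₀ OE (Polynomial.C c) = c ⊗ₜ[k₀] (1 : OE) := by
  rw [tateMEv, coe_eval₂RingHom, eval₂_C]
  rfl

omit [Fintype k₀] [IsScalarTower k₀ k₀[X] OE] [Algebra k₀[X] OK] [IsScalarTower k₀ k₀[X] OK] in
theorem tateM_ev_X :
    tateMEv k₀ OE (X : OK[X]) = (1 : OK) ⊗ₜ[k₀] algebraMap k₀[X] OE X := by
  rw [tateMEv, coe_eval₂RingHom, eval₂_X]

omit [Fintype k₀] [Algebra k₀[X] OK] [IsScalarTower k₀ k₀[X] OK] in
theorem tateM_ev_map (p : k₀[X]) :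
    tateMEv k₀ OE (p.map (algebraMap k₀ OK)) = (1 : OK) ⊗ₜ[k₀] algebraMap k₀[X] OE p := by
  induction p using Polynomial.induction_on with
  | C a =>
    rw [map_C, tateM_ev_C, ← Polynomial.algebraMap_eq, ← IsScalarTower.algebraMap_apply,
      Algebra.algebraMap_eq_smul_one, Algebra.algebraMap_eq_smul_one, TensorProduct.smul_tmul]
  | add p q hp hq => rw [Polynomial.map_add, map_add, hp, hq, map_add, TensorProduct.tmul_add]
  | monomial n a ih =>
    rw [pow_succ, ← mul_assoc, Polynomial.map_mul _ (q := X), map_mul, ih, map_X, tateM_ev_X,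
      Algebra.TensorProduct.tmul_mul_tmul, one_mul, ← map_mul]

omit [IsScalarTower k₀ k₀[X] OE] [Algebra k₀[X] OK] [IsScalarTower k₀ k₀[X] OK] in
theorem tateM_sig_ev (Q : OK[X]) : sig k₀ OE OK (tateMEv k₀ OE Q) =
    tateMEv k₀ OE (Q.map (FiniteField.frobeniusAlgHom k₀ OK).toRingHom) := by
  induction Q using Polynomial.induction_on with
  | C c =>
    rw [map_C, tateM_ev_C, tateM_ev_C, sig, Algebra.TensorProduct.map_tmul]
    rfl
  | add P Q hP hQ => rw [map_add, map_add, hP, hQ, Polynomial.map_add, map_add]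
  | monomial n c ih =>
    rw [pow_succ, ← mul_assoc, map_mul, map_mul, ih, Polynomial.map_mul _ (q := X), map_mul, map_X,
      tateM_ev_X, sig, Algebra.TensorProduct.map_tmul, map_one, AlgHom.id_apply]

variable (k₀ OE OK) in
/-- The combinations of the `w a` with coefficients in `OK[t]`. -/
def tateMSp {ι : Type*} [Fintype ι] (w : ι → M) : AddSubgroup M where
  carrier := {x | ∃ Q : ι → OK[X], x = ∑ a, tateMEv k₀ OE (Q a) • w a}
  zero_mem' := ⟨0, by simp⟩
  add_mem' := by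
    rintro _ _ ⟨P, rfl⟩ ⟨Q, rfl⟩
    exact ⟨P + Q, by simp [add_smul, Finset.sum_add_distrib]⟩
  neg_mem' := by
    rintro _ ⟨P, rfl⟩
    exact ⟨-P, by simp⟩

omit [Fintype k₀] [IsScalarTower k₀ k₀[X] OE] [Algebra k₀[X] OK] [IsScalarTower k₀ k₀[X] OK] in
theorem tateM_sp_smul {ι : Type*} [Fintype ι] {w : ι → M} (P : OK[X]) {x : M}
    (hx : x ∈ tateMSp k₀ OE OK w) : tateMEv k₀ OE P • x ∈ tateMSp k₀ OE OK w := by
  obtain ⟨Q, rfl⟩ := hx
  exact ⟨fun a => P * Q a, by simp [Finset.smul_sum, mul_smul]⟩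

omit [Fintype k₀] [IsScalarTower k₀ k₀[X] OE] [Algebra k₀[X] OK] [IsScalarTower k₀ k₀[X] OK] in
theorem tateM_sp_self {ι : Type*} [Fintype ι] (w : ι → M) (a : ι) :
    w a ∈ tateMSp k₀ OE OK w := by
  refine ⟨Pi.single a 1, ?_⟩
  rw [Finset.sum_eq_single a (fun b _ hb => by simp [hb]) (by simp)]
  simp

omit [Fintype k₀] [Algebra k₀[X] OK] [IsScalarTower k₀ k₀[X] OK] in
theorem tateM_gen [Module.Finite k₀[X] OE] [Module.Finite (OK ⊗[k₀] OE) M] :
    ∃ (n n' : ℕ) (m : Fin n × Fin n' → M), ∀ x, x ∈ tateMSp k₀ OE OK m := by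
  obtain ⟨n, b, hb⟩ := Module.Finite.exists_fin (R := k₀[X]) (M := OE)
  obtain ⟨n', s, hs⟩ := Module.Finite.exists_fin (R := OK ⊗[k₀] OE) (M := M)
  refine ⟨n, n', fun a => ((1 : OK) ⊗ₜ[k₀] b a.1 : OK ⊗[k₀] OE) • s a.2, fun x => ?_⟩
  obtain ⟨r, rfl⟩ := (Submodule.mem_span_range_iff_exists_fun _).1
    (hs ▸ Submodule.mem_top : x ∈ Submodule.span (OK ⊗[k₀] OE) (Set.range s))
  refine AddSubgroup.sum_mem _ fun j _ => ?_
  generalize r j = y
  induction y using TensorProduct.induction_on with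
  | zero =>
    rw [zero_smul]
    exact zero_mem _
  | add y z hy hz =>
    rw [add_smul]
    exact add_mem hy hz
  | tmul c e =>
    obtain ⟨p, rfl⟩ := (Submodule.mem_span_range_iff_exists_fun _).1
      (hb ▸ Submodule.mem_top : e ∈ Submodule.span k₀[X] (Set.range b))
    rw [TensorProduct.tmul_sum, Finset.sum_smul]
    refine AddSubgroup.sum_mem _ fun i _ => ?_
    have e1 : (c ⊗ₜ[k₀] (p i • b i) : OK ⊗[k₀] OE) =
        tateMEv k₀ OE (Polynomial.C c * (p i).map (algebraMap k₀ OK)) *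
          ((1 : OK) ⊗ₜ[k₀] b i) := by
      rw [map_mul, tateM_ev_C, tateM_ev_map, Algebra.TensorProduct.tmul_mul_tmul,
        Algebra.TensorProduct.tmul_mul_tmul, mul_one, mul_one, one_mul, Algebra.smul_def]
    rw [e1, mul_smul]
    exact tateM_sp_smul _ (tateM_sp_self
      (fun a : Fin n × Fin n' => ((1 : OK) ⊗ₜ[k₀] b a.1 : OK ⊗[k₀] OE) • s a.2) (i, j))

omit [IsScalarTower k₀ k₀[X] OE] [Algebra k₀[X] OK] [IsScalarTower k₀ k₀[X] OK] in
theorem tateM_lat (hτ : ∀ (r : OK ⊗[k₀] OE) (x : M), τ (r • x) = sig k₀ OE OK r • τ x)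
    {ι : Type*} [Fintype ι] {m : ι → M} (hm : ∀ x, x ∈ tateMSp k₀ OE OK m) {x : M}
    (hx : x ∈ dRLat k₀ OE OK τ) : x ∈ tateMSp k₀ OE OK fun a => τ (m a) := by
  have h1 : ∀ y, τ y ∈ tateMSp k₀ OE OK fun a => τ (m a) := by
    intro y
    obtain ⟨Q, rfl⟩ := hm y
    refine ⟨fun a => (Q a).map (FiniteField.frobeniusAlgHom k₀ OK).toRingHom, ?_⟩
    rw [map_sum]
    exact Finset.sum_congr rfl fun a _ => by rw [hτ, tateM_sig_ev]
  have h2 : ∀ r : OK ⊗[k₀] OE, r • x ∈ tateMSp k₀ OE OK fun a => τ (m a) := by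
    unfold dRLat at hx
    induction hx using Submodule.span_induction with
    | mem y hy =>
      obtain ⟨y, rfl⟩ := hy
      intro r
      induction r using TensorProduct.induction_on with
      | zero =>
        rw [zero_smul]
        exact zero_mem _
      | add y z hy hz =>
        rw [add_smul]
        exact add_mem hy hz
      | tmul c e =>
        have e1 : (c ⊗ₜ[k₀] e : OK ⊗[k₀] OE) =
            tateMEv k₀ OE (Polynomial.C c) * sig k₀ OE OK ((1 : OK) ⊗ₜ[k₀] e) := by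
          rw [tateM_ev_C, sig, Algebra.TensorProduct.map_tmul, map_one, AlgHom.id_apply,
            Algebra.TensorProduct.tmul_mul_tmul, mul_one, one_mul]
        rw [e1, mul_smul, ← hτ]
        exact tateM_sp_smul _ (h1 _)
    | zero =>
      intro r
      rw [smul_zero]
      exact zero_mem _
    | add y z _ _ hy hz =>
      intro r
      rw [smul_add]
      exact add_mem (hy r) (hz r)
    | smul c y _ hy =>
      intro r
      rw [smul_smul]
      exact hy _
  simpa using h2 1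

end Aux

theorem tateM_u_ev (hu : IsCycle (k := k₀) (OE := OE) (OK := OK) τ η u) (Q : OK[X]) :
    ∃ P : C[X], ∀ x : M, u (tateMEv k₀ OE Q • x) = (P : PowerSeries C) * u x := by
  induction Q using Polynomial.induction_on with
  | C c =>
    exact ⟨Polynomial.C (algebraMap K C (η (algebraMap OK K c))), fun x => by
      rw [tateM_ev_C, hu.smul_const, Polynomial.coe_C]⟩
  | add P Q hP hQ =>
    obtain ⟨P', hP'⟩ := hP
    obtain ⟨Q', hQ'⟩ := hQ
    exact ⟨P' + Q', fun x => by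
      rw [map_add, add_smul, map_add, hP', hQ', Polynomial.coe_add, add_mul]⟩
  | monomial n c ih =>
    obtain ⟨P, hP⟩ := ih
    exact ⟨P * X, fun x => by
      rw [pow_succ, ← mul_assoc, map_mul, mul_smul, hP, tateM_ev_X, hu.smul_t, Polynomial.coe_mul,
        Polynomial.coe_X, mul_assoc]⟩

theorem tateM_u_sp (hu : IsCycle (k := k₀) (OE := OE) (OK := OK) τ η u) {ι : Type*} [Fintype ι]
    {w : ι → M} {x : M} (hx : x ∈ tateMSp k₀ OE OK w) :
    ∃ P : ι → C[X], u x = ∑ a, (P a : PowerSeries C) * u (w a) := by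
  obtain ⟨Q, rfl⟩ := hx
  choose P hP using fun a => tateM_u_ev hu (Q a)
  exact ⟨P, by rw [map_sum]; exact Finset.sum_congr rfl fun a _ => hP a _⟩

theorem IsCycle.iter (hu : IsCycle (k := k₀) (OE := OE) (OK := OK) τ η u) (b : ℕ) (x : M) (n : ℕ) :
    PowerSeries.coeff n (u (τ^[b] x)) = PowerSeries.coeff n (u x) ^ (Fintype.card k₀) ^ b := by
  induction b with
  | zero => simp
  | succ b ih => rw [Function.iterate_succ_apply', hu.twist, ih, ← pow_mul, ← pow_succ]

theorem IsCycle.smul_jj (hu : IsCycle (k := k₀) (OE := OE) (OK := OK) τ η u) (x : M) :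
    u (jj k₀ OE OK • x) =
      (PowerSeries.X - PowerSeries.C (algebraMap K C (algebraMap k₀[X] K X))) * u x := by
  have e : η (algebraMap OK K (algebraMap k₀[X] OK X)) = algebraMap k₀[X] K X := by
    rw [← IsScalarTower.algebraMap_apply, IsScalarTower.algebraMap_apply k₀[X] (RatFunc k₀) K,
      AlgEquiv.commutes]
  rw [jj, sub_smul, map_sub, hu.smul_t, hu.smul_const, e, sub_mul]

theorem tateM (hM : IsCMMotive OE OK d τ)
    (hu : IsCycle (k := k₀) (OE := OE) (OK := OK) τ η u)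
    (hθ : 1 < ‖algebraMap K C (algebraMap k₀[X] K X)‖) :
    (∀ x : M, ∃ B : ℝ, ∀ n,
        ‖PowerSeries.coeff n (u x)‖ * ‖algebraMap K C (algebraMap k₀[X] K X)‖ ^ n ≤ B) ∧
      ∀ x ∈ dRLat k₀ OE OK τ, ∃ B : ℝ, ∀ n, ‖PowerSeries.coeff n (u x)‖ *
        (‖algebraMap K C (algebraMap k₀[X] K X)‖ ^ (Fintype.card k₀)) ^ n ≤ B := by
  have : Module.Finite k₀[X] OE := IsIntegralClosure.finite k₀[X] (RatFunc k₀) E OE
  have := hM.invertible
  obtain ⟨n, n', m, hm⟩ := tateM_gen (k₀ := k₀) (OE := OE) (OK := OK) (M := M)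
  obtain ⟨N, hN⟩ := jj_pow hM
  choose P hP using fun a => tateM_u_sp hu (tateM_lat hM.semilinear hm (hN (m a)))
  have hq : 2 ≤ Fintype.card k₀ := Fintype.one_lt_card
  have hj : ∀ (j : ℕ) (x : M), u (jj k₀ OE OK ^ j • x) =
      (PowerSeries.X - PowerSeries.C (algebraMap K C (algebraMap k₀[X] K X))) ^ j * u x := by
    intro j x
    induction j with
    | zero => simp
    | succ j ih => rw [pow_succ', mul_smul, hu.smul_jj, ih, pow_succ', mul_assoc]
  obtain ⟨B, hB⟩ := tate_abs hθ hq N (fun a => u (m a)) (fun a => u (τ (m a)))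
    (fun a => hu.tate _) (fun a n => by rw [hu.twist, norm_pow]) P
    (fun a => by rw [← hj, hP])
  have h0 : (0 : ℝ) ≤ ‖algebraMap K C (algebraMap k₀[X] K X)‖ := norm_nonneg _
  refine ⟨fun x => ?_, fun x hx => ?_⟩
  · obtain ⟨Q, hQ⟩ := tateM_u_sp hu (hm x)
    rw [hQ]
    exact tate_bdd_sum h0 _ fun a => tate_bdd_poly h0 _ ⟨B, hB a⟩
  · obtain ⟨Q, hQ⟩ := tateM_u_sp hu (tateM_lat hM.semilinear hm hx)
    rw [hQ]
    refine tate_bdd_sum (pow_nonneg h0 _) _ fun a => tate_bdd_poly (pow_nonneg h0 _) _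
      ⟨B ^ Fintype.card k₀, fun j => ?_⟩
    rw [hu.twist, norm_pow, ← pow_mul, mul_comm (Fintype.card k₀), pow_mul, ← mul_pow]
    exact pow_le_pow_left₀ (by positivity) (hB a j) _

theorem lat_conv (hM : IsCMMotive OE OK d τ)
    (hu : IsCycle (k := k₀) (OE := OE) (OK := OK) τ η u)
    (hθ : 1 < ‖algebraMap K C (algebraMap k₀[X] K X)‖) {x : M} (hx : x ∈ dRLat k₀ OE OK τ) :
    Conv ‖algebraMap K C (algebraMap k₀[X] K X)‖ (u x) := by
  obtain ⟨B, hB⟩ := (tateM hM hu hθ).2 x hx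
  exact conv_of_bound hB (norm_nonneg _) (lt_self_pow₀ hθ Fintype.one_lt_card)

theorem ker_zero (hM : IsCMMotive OE OK d τ)
    (hu : IsCycle (k := k₀) (OE := OE) (OK := OK) τ η u)
    (hθ : 1 < ‖algebraMap K C (algebraMap k₀[X] K X)‖) {x : M} (hx : x ∈ dRKer k₀ OE OK τ) :
    HasSum (fun n => PowerSeries.coeff n (u x) * algebraMap K C (algebraMap k₀[X] K X) ^ n)
      0 := by
  rw [dRKer, Submodule.ideal_span_singleton_smul, Submodule.mem_smul_pointwise_iff_exists] at hx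
  obtain ⟨y, hy, rfl⟩ := hx
  have h1 := lat_conv hM hu hθ hy
  have h2 := (lat_conv hM hu hθ (Submodule.smul_mem _ (jj k₀ OE OK) hy)).hasSum le_rfl
  have e : (PowerSeries.X - PowerSeries.C (algebraMap K C (algebraMap k₀[X] K X)) :
      PowerSeries C) = ((X - Polynomial.C (algebraMap K C (algebraMap k₀[X] K X)) : C[X]) :
        PowerSeries C) := by
    rw [Polynomial.coe_sub, Polynomial.coe_X, Polynomial.coe_C]
  have h3 : evS (algebraMap K C (algebraMap k₀[X] K X)) (u (jj k₀ OE OK • y)) = 0 := by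
    rw [hu.smul_jj, e, evS_mul (conv_coe _ _) h1 le_rfl, evS_coe, eval_sub, eval_X, eval_C,
      sub_self, zero_mul]
  rwa [h3] at h2

end Pool.Agent.FFC
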