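import Pool.Agent.P.MP_a2beea_nt.FC.Bridge
import Pool.Agent.P.MP_a2beea_nt.FC.Defs5

/-! Extension of the field of constants. `exists_ext`: let `k[X]` act through `aeval (tE k₀ F)`, which
is injective (`Bridge_trans`, `Transcendental.extendScalars` or `IsAlgebraic.restrictScalars`);
use `RatFunc.liftAlgebra`, the local instance `Polynomial.algebra`,
`RatFunc.finrank_ratFunc_ratFunc`, `Module.finrank_mul_finrank`,
`FunctionField.finiteDimensional_of_constantExtension`, `IsGalois.tower_top_of_isGalois`,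
`Algebra.isSeparable_tower_top_of_isSeparable`; `k[X]` is integral over `k₀[X]`.
For `ff2`, `dg2`, `OO2` use `exists_ext`, `ff_of`, `Bridge_OO`, `Bridge_comp`
(`dg k (tE k E) = finrank (RatFunc k) E` by `Algebra.finrank_eq_of_equiv_equiv`). -/

open Polynomial
open scoped TensorProduct NNReal IntermediateField

namespace Pool.Agent.FFC

open Classical

section Gen

variable (k₀ : Type*) [Field k₀] (k : Type*) [Field k] [Algebra k₀ k] [Algebra.IsAlgebraic k₀ k]
  (F : Type*) [Field F] [Algebra k₀ F] [Algebra k₀[X] F] [Algebra (RatFunc k₀) F]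
  [IsScalarTower k₀ k₀[X] F] [IsScalarTower k₀[X] (RatFunc k₀) F]
  [FiniteDimensional (RatFunc k₀) F] [Algebra k F] [IsScalarTower k₀ k F]

attribute [local instance] Polynomial.algebra in
private theorem Two0_ext : ∃ (_ : Algebra k[X] F) (_ : Algebra (RatFunc k) F)
    (_ : IsScalarTower k k[X] F) (_ : IsScalarTower k[X] (RatFunc k) F),
    FiniteDimensional k₀ k ∧ tE k F = tE k₀ F ∧ FiniteDimensional (RatFunc k) F ∧
      Module.finrank (RatFunc k₀) F = Module.finrank k₀ k * Module.finrank (RatFunc k) F ∧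
      (Algebra.IsSeparable (RatFunc k₀) F → Algebra.IsSeparable (RatFunc k) F) ∧
      (IsGalois (RatFunc k₀) F → IsGalois (RatFunc k) F) ∧
      ∀ x : F, IsIntegral k[X] x ↔ IsIntegral k₀[X] x := by
  have htr : Transcendental k (tE k₀ F) := (Bridge_trans (k := k₀) F).extendScalars k
  let a1 : Algebra k[X] F := (aeval (tE k₀ F) : k[X] →ₐ[k] F).toRingHom.toAlgebra
  have hinj : Function.Injective (algebraMap k[X] F) := transcendental_iff_injective.1 htr
  have f1 : FaithfulSMul k[X] F := (faithfulSMul_iff_algebraMap_injective _ _).2 hinj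
  let a2 : Algebra (RatFunc k) F := RatFunc.liftAlgebra k F
  have t1 : IsScalarTower k k[X] F :=
    .of_algebraMap_eq fun c => ((aeval (tE k₀ F) : k[X] →ₐ[k] F).commutes c).symm
  have t2 : IsScalarTower k[X] (RatFunc k) F := RatFunc.isScalarTower_liftAlgebra k F
  have t3 : IsScalarTower k₀[X] k[X] F := .of_algebraMap_eq fun P => by
    change _ = aeval (tE k₀ F) (P.map (algebraMap k₀ k))
    rw [aeval_map_algebraMap, Bridge_aeval]
  let a3 : Algebra (RatFunc k₀) (RatFunc k) := RatFunc.liftAlgebra k₀ (RatFunc k)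
  have t5 : IsScalarTower k₀[X] (RatFunc k₀) (RatFunc k) :=
    RatFunc.isScalarTower_liftAlgebra k₀ (RatFunc k)
  have t4 : IsScalarTower (RatFunc k₀) (RatFunc k) F := by
    refine .of_algebraMap_eq' (IsLocalization.ringHom_ext (nonZeroDivisors k₀[X]) ?_)
    refine RingHom.ext fun P => ?_
    simp only [RingHom.comp_apply]
    rw [← IsScalarTower.algebraMap_apply, ← IsScalarTower.algebraMap_apply k₀[X] (RatFunc k₀),
      IsScalarTower.algebraMap_apply k₀[X] k[X] (RatFunc k), ← IsScalarTower.algebraMap_apply,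
      ← IsScalarTower.algebraMap_apply]
  have hfin : FiniteDimensional (RatFunc k₀) (RatFunc k) :=
    FiniteDimensional.left (RatFunc k₀) (RatFunc k) F
  have hk : FiniteDimensional k₀ k :=
    Module.finite_of_finrank_pos ((RatFunc.finrank_ratFunc_ratFunc k₀ k) ▸ Module.finrank_pos)
  have hi : Algebra.IsIntegral k₀[X] k[X] := inferInstance
  refine ⟨a1, a2, t1, t2, hk, aeval_X _, FiniteDimensional.right (RatFunc k₀) (RatFunc k) F, ?_,
    fun _ => Algebra.isSeparable_tower_top_of_isSeparable (RatFunc k₀) (RatFunc k) F,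
    fun _ => IsGalois.tower_top_of_isGalois (RatFunc k₀) (RatFunc k) F,
    fun x => ⟨fun hx => isIntegral_trans x hx, fun hx => hx.tower_top⟩⟩
  rw [← RatFunc.finrank_ratFunc_ratFunc k₀ k, Module.finrank_mul_finrank]

theorem exists_ext : ∃ (_ : Algebra k[X] F) (_ : Algebra (RatFunc k) F)
    (_ : IsScalarTower k k[X] F) (_ : IsScalarTower k[X] (RatFunc k) F),
    tE k F = tE k₀ F ∧ FiniteDimensional (RatFunc k) F ∧
      Module.finrank (RatFunc k₀) F = Module.finrank k₀ k * Module.finrank (RatFunc k) F ∧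
      (Algebra.IsSeparable (RatFunc k₀) F → Algebra.IsSeparable (RatFunc k) F) ∧
      (IsGalois (RatFunc k₀) F → IsGalois (RatFunc k) F) ∧
      ∀ x : F, IsIntegral k[X] x ↔ IsIntegral k₀[X] x := by
  obtain ⟨a1, a2, t1, t2, -, h⟩ := Two0_ext k₀ k F
  exact ⟨a1, a2, t1, t2, h⟩

include F in
theorem const_finite : FiniteDimensional k₀ k := by
  obtain ⟨_, _, _, _, h, -⟩ := Two0_ext k₀ k F
  exact h

end Gen

variable {k₀ : Type*} [Field k₀] [Fintype k₀] {E K : Type*} [Field E] [Field K]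
  [Algebra k₀ E] [Algebra k₀[X] E] [Algebra (RatFunc k₀) E] [IsScalarTower k₀ k₀[X] E]
  [IsScalarTower k₀[X] (RatFunc k₀) E]
  [Algebra k₀ K] [Algebra k₀[X] K] [Algebra (RatFunc k₀) K] [IsScalarTower k₀ k₀[X] K]
  [IsScalarTower k₀[X] (RatFunc k₀) K]
  [FiniteDimensional (RatFunc k₀) E] [Algebra.IsSeparable (RatFunc k₀) E]
  [FiniteDimensional (RatFunc k₀) K] [IsGalois (RatFunc k₀) K]
  {OE OK : Type*} [CommRing OE] [CommRing OK]
  [Algebra k₀ OE] [Algebra k₀[X] OE] [Algebra OE E] [IsScalarTower k₀ k₀[X] OE]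
  [IsScalarTower k₀[X] OE E] [IsIntegralClosure OE k₀[X] E]
  [Algebra k₀ OK] [Algebra k₀[X] OK] [Algebra OK K] [IsScalarTower k₀ k₀[X] OK]
  [IsScalarTower k₀[X] OK K] [IsIntegralClosure OK k₀[X] K]
  {L : Type*} [Field L] [Algebra k₀ L] [Algebra K L] [IsScalarTower k₀ K L] [IsAlgClosed L]
  [Algebra.IsAlgebraic K L]
  {k : Type*} [Field k] [Fintype k] [Algebra k₀ k] [Algebra k E] [IsScalarTower k₀ k E]
  [Algebra k L] [IsScalarTower k₀ k L]

theorem card_pow (k₀ k : Type*) [Field k₀] [Fintype k₀] [Field k] [Fintype k] [Algebra k₀ k] :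
    Fintype.card k₀ ^ Module.finrank k₀ k = Fintype.card k :=
  Module.card_eq_pow_finrank.symm

theorem finrank_pos2 (k₀ k : Type*) [Field k₀] [Fintype k₀] [Field k] [Fintype k] [Algebra k₀ k] :
    0 < Module.finrank k₀ k := Module.finrank_pos

variable (k₀) in
theorem isAlg_iff (x : L) : IsAlgebraic k x ↔ IsAlgebraic k₀ x :=
  ⟨fun h => h.restrictScalars k₀, fun h => h.tower_top k⟩

theorem ff2 (hreg : ∀ x : E, IsAlgebraic k x → x ∈ (algebraMap k E).range) :
    FF k (tE k₀ E) := by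
  obtain ⟨_, _, _, _, ht, _, -, hs, -⟩ := exists_ext k₀ k E
  have := hs inferInstance
  exact ht ▸ ff_of hreg

variable (k) in
theorem dg2 : Module.finrank (RatFunc k₀) E = (Module.finrank k₀ k) * dg k (tE k₀ E) := by
  obtain ⟨_, _, _, _, ht, _, hd, -⟩ := exists_ext k₀ k E
  have e : dg k (tE k E) = Module.finrank (RatFunc k) E :=
    (Algebra.finrank_eq_of_equiv_equiv
      (RatFunc.algEquivOfTranscendental (tE k E) (Bridge_trans E)).toRingEquiv (RingEquiv.refl E)
      (Bridge_comp E)).symm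
  rw [hd, ← ht, e]

theorem OO2 (a : E) : a ∈ OO k (tE k₀ E) ↔ a ∈ OO k₀ (tE k₀ E) := by
  obtain ⟨_, _, _, _, ht, -, -, -, -, hi⟩ := exists_ext k₀ k E
  rw [Bridge_OO (k := k₀) E a, ← hi, ← ht, Bridge_OO]

variable (OE) in
theorem mem_OO2 (a : E) : a ∈ OO k (tE k₀ E) ↔ ∃ b : OE, algebraMap OE E b = a :=
  (OO2 a).trans (mem_OO_iff_range OE a)

theorem th_trans2 : Transcendental k (th k₀ K L) :=
  (th_trans (k := k₀) (K := K) (L := L)).extendScalars k

theorem th_alg2 (x : L) : IsAlgebraic k⟮(th k₀ K L)⟯ x := by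
  have hle : k₀⟮th k₀ K L⟯ ≤ k⟮th k₀ K L⟯.restrictScalars k₀ :=
    IntermediateField.adjoin_simple_le_iff.2 (IntermediateField.mem_adjoin_simple_self k _)
  exact (th_alg (k := k₀) (K := K) x).ringHom_of_comp_eq
    (IntermediateField.inclusion hle).toRingHom (RingHom.id L)
    (IntermediateField.inclusion_injective hle) rfl

variable (k₀) in
theorem fr_eq (x : L) : fr k L x = x ^ (Fintype.card k₀) ^ (Module.finrank k₀ k) := by
  rw [card_pow, fr_apply]

end Pool.Agent.FFC
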