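import Pool.Agent.P.MP_a2beea_nt.FC.Defs3

/-! A Vandermonde bound. Induction with divided differences: prove the more general statement for an
arbitrary labelling by strong induction on the number of pairs `i < j` with the same label (or on
the number of columns whose label is shared). If `j₀` shares its label with other columns `l`,
subtract column `j₀` from each such column `l`: `Q(u_l) - Q(u_{j₀}) = (u_l - u_{j₀}) Q'(u_l)` with
`Q' = Q /ₘ (X - C u_{j₀})`, again with integral coefficients; then give `j₀` a new label. It may be
easier to describe labels by a `Setoid (Fin N)` and to let the polynomials depend on the column,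
with the hypothesis that related columns have the same polynomials. -/

open Polynomial
open scoped TensorProduct NNReal IntermediateField

namespace Pool.Agent.FFC

open Classical


theorem vand_dvd_aux {R : Type*} [CommRing R] {N : ℕ} {ι : Type*}
    (lab : Fin N → ι) (u : Fin N → R) (d : ℕ) :
    ∀ (Q : Fin N → Fin N → R[X]),
      (∀ i j l, N ≤ j.val + d → N ≤ l.val + d → lab j = lab l → Q i j = Q i l) →
      (∏ j ∈ Finset.univ.filter (fun j : Fin N => N ≤ j.val + d),
        ∏ l ∈ Finset.univ.filter (fun l => j < l ∧ lab j = lab l), (u j - u l)) ∣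
        Matrix.det (Matrix.of fun i j => (Q i j).eval (u j)) := by
  induction d with
  | zero =>
    intro Q _
    have : Finset.univ.filter (fun j : Fin N => N ≤ j.val + 0) = ∅ := by
      refine Finset.filter_eq_empty_iff.2 fun j _ => ?_
      have := j.isLt
      omega
    rw [this, Finset.prod_empty]
    exact one_dvd _
  | succ d ih =>
    intro Q hQ
    by_cases hd : N ≤ d
    · have e : Finset.univ.filter (fun j : Fin N => N ≤ j.val + (d + 1)) =
          Finset.univ.filter (fun j : Fin N => N ≤ j.val + d) := by
        refine Finset.filter_congr fun j _ => ?_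
        constructor <;> intro <;> omega
      rw [e]
      exact ih Q fun i j l h1 h2 h3 => hQ i j l (by omega) (by omega) h3
    · let m : Fin N := ⟨N - (d + 1), by omega⟩
      have hm : m.val = N - (d + 1) := rfl
      have e : Finset.univ.filter (fun j : Fin N => N ≤ j.val + (d + 1)) =
          insert m (Finset.univ.filter (fun j : Fin N => N ≤ j.val + d)) := by
        ext j
        simp only [Finset.mem_filter, Finset.mem_univ, true_and, Finset.mem_insert, Fin.ext_iff,
          hm]
        omega
      have hnm : m ∉ Finset.univ.filter (fun j : Fin N => N ≤ j.val + d) := by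
        simp only [Finset.mem_filter, Finset.mem_univ, true_and, hm]
        omega
      rw [e, Finset.prod_insert hnm]
      let Q2 : Fin N → Fin N → R[X] := fun i l =>
        if m < l ∧ lab m = lab l then -(Q i m /ₘ (X - C (u m))) else Q i l
      let c : Fin N → R := fun l => if m < l ∧ lab m = lab l then 1 else 0
      let w : Fin N → R := fun l => if m < l ∧ lab m = lab l then u m - u l else 1
      have hQ2 : ∀ i j l, N ≤ j.val + d → N ≤ l.val + d → lab j = lab l → Q2 i j = Q2 i l := by
        intro i j l h1 h2 h3
        have hj : m < j := by rw [Fin.lt_def, hm]; omega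
        have hl : m < l := by rw [Fin.lt_def, hm]; omega
        simp only [Q2, hj, hl, true_and, h3]
        split_ifs
        · rfl
        · exact hQ i j l (by omega) (by omega) h3
      have h1 : Matrix.det (Matrix.of fun i j => (Q i j).eval (u j)) =
          Matrix.det (Matrix.of fun i j => w j *
            (Matrix.of fun i j => (Q2 i j).eval (u j)) i j) := by
        refine (Matrix.det_transpose _).symm.trans (Eq.trans ?_ (Matrix.det_transpose _))
        refine Matrix.det_eq_of_forall_row_eq_smul_add_const c m (by simp [c]) fun l i => ?_
        simp only [Matrix.transpose_apply, Matrix.of_apply, c, w, Q2, lt_self_iff_false,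
          false_and, if_false, one_mul]
        split_ifs with h
        · have hl : N ≤ l.val + (d + 1) := by
            have := h.1
            rw [Fin.lt_def, hm] at this
            omega
          rw [← hQ i m l (by rw [hm]; omega) hl h.2]
          have h2 := congrArg (eval (u l)) (X_sub_C_mul_divByMonic_eq_sub_modByMonic (Q i m) (u m))
          rw [modByMonic_X_sub_C_eq_C_eval] at h2
          simp only [eval_mul, eval_sub, eval_X, eval_C] at h2
          rw [eval_neg]
          linear_combination -h2
        · simp
      rw [h1, Matrix.det_mul_row]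
      refine mul_dvd_mul ?_ (ih Q2 hQ2)
      rw [Finset.prod_filter]

theorem vand_dvd {R : Type*} [CommRing R] {N : ℕ} {ι : Type*}
    (lab : Fin N → ι) (u : Fin N → R) (Q : Fin N → ι → R[X]) :
    (∏ j, ∏ l ∈ Finset.univ.filter (fun l => j < l ∧ lab j = lab l), (u j - u l)) ∣
      Matrix.det (Matrix.of fun i j => (Q i (lab j)).eval (u j)) := by
  have h := vand_dvd_aux lab u N (fun i j => Q i (lab j)) fun i j l _ _ h => by rw [h]
  rwa [Finset.filter_true_of_mem fun j _ => Nat.le_add_left N j.val] at h

theorem vand_bound {L : Type*} [Field L] (v : Valuation L ℝ≥0) {N : ℕ} {ι : Type*}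
    (lab : Fin N → ι) (u : Fin N → L) (hu : ∀ j, v (u j) ≤ 1) (Q : Fin N → ι → L[X])
    (hQ : ∀ i x n, v ((Q i x).coeff n) ≤ 1) :
    v (Matrix.det (Matrix.of fun i j => (Q i (lab j)).eval (u j))) ≤
      ∏ j, ∏ l ∈ Finset.univ.filter (fun l => j < l ∧ lab j = lab l), v (u j - u l) := by
  have hl : ∀ i x, ∃ P : (v.integer)[X], P.map v.integer.subtype = Q i x := by
    intro i x
    rw [← mem_lifts, lifts_iff_coeff_lifts]
    intro n
    exact ⟨⟨_, hQ i x n⟩, rfl⟩
  choose P hP using hl
  let u0 : Fin N → v.integer := fun j => ⟨u j, hu j⟩
  obtain ⟨z, hz⟩ := vand_dvd lab u0 P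
  have h1 := congrArg v.integer.subtype hz
  rw [RingHom.map_det, map_mul, map_prod] at h1
  have e : v.integer.subtype.mapMatrix (Matrix.of fun i j => (P i (lab j)).eval (u0 j)) =
      Matrix.of fun i j => (Q i (lab j)).eval (u j) := by
    ext i j
    simp only [RingHom.mapMatrix_apply, Matrix.map_apply, Matrix.of_apply]
    rw [← hP, eval_map, ← eval₂_hom]
    rfl
  rw [e] at h1
  rw [h1, map_mul, map_prod]
  refine (mul_le_of_le_one_right' z.2).trans (le_of_eq ?_)
  refine Finset.prod_congr rfl fun j _ => ?_
  rw [map_prod, map_prod]
  rfl

end Pool.Agent.FFC
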