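import Pool.Agent.P.MP_a2beea_nt.FC.Place
import Pool.Agent.P.MP_a2beea_nt.RR.Main
import Pool.Agent.P.MP_a2beea_nt.RR.ZRec
import Pool.Agent.P.MP_a2beea_nt.RR.ZL
import Pool.Agent.P.MP_a2beea_nt.RR.ZAlg
import Pool.Agent.P.MP_a2beea_nt.RR.ZPts

/-! Riemann-Roch for the multiples of the polar divisor, and the zeta function. -/

open Polynomial
open scoped IntermediateField

namespace Pool.Agent.FFC

open Pool.Agent.P.MP_a2beea_nt

theorem rr_zeta {k E L : Type*} [Field k] [Fintype k] [Field E] [Algebra k E] [Field L]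
    [Algebra k L] [IsAlgClosed L] {t : E} (h : FF k t) : ∃ (g m0 : ℕ),
      (∀ m, m0 ≤ m → Module.finrank k (LL k t m) + g = m * dg k t + 1) ∧
      (∀ m, FiniteDimensional k (LL k t m)) ∧
      (∀ n, 1 ≤ n → {x : Pt k E L | x.O ≠ ⊤ ∧ (fr k L ^ n) • x = x}.Finite) ∧
      ((∃ C : ℝ, ∀ n, 1 ≤ n → (gram k L E g 0 n) ^ 2 ≤ C * (Fintype.card k : ℝ) ^ n) →
        ∃ P : ℤ[X], P.Monic ∧ P.eval 1 ≠ 0 ∧
          ∑ i ∈ Finset.range (P.natDegree + 1), ∑ j ∈ Finset.range (P.natDegree + 1),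
            (P.coeff i : ℝ) * P.coeff j * gram k L E g i j = 0) := by
  have := h.chart.isFF
  obtain ⟨g, Δ, -, -, hR⟩ := h.chart.riemann_roch h.reg
  have hH : RR.degD (RR.poleD k t) = dg k t := h.chart.degD_poleD
  refine ⟨g, 2 * g, fun m hm => ?_, fun m => ?_, fun n hn => (RR.nPts_eq L hn).1, ?_⟩
  · have hd : (1 : ℤ) ≤ dg k t := by exact_mod_cast h.dg_pos
    have hm' : 2 * (g : ℤ) ≤ m := by exact_mod_cast hm
    have h1 := hR.ell_eq (D := 0 + (m : ℤ) • RR.poleD k t) (by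
      rw [hR.degD_W h.reg, zero_add, map_zsmul, hH, smul_eq_mul]
      nlinarith [Int.natCast_nonneg m])
    rw [LL_eq_Ln h.ne_zero]
    rw [map_add, map_zero, zero_add (RR.degD _), map_zsmul, hH, smul_eq_mul] at h1
    have h2 : ((Module.finrank k (RR.Ln t (0 : RR.Divisor k E) m) : ℕ) : ℤ) =
      m * dg k t + 1 - g := h1
    zify
    omega
  · rw [LL_eq_Ln h.ne_zero]
    exact h.chart.finite_Ln 0 m
  · rintro ⟨C, hC⟩
    have h1 := RR.exists_degD_one (k := k) (E := E) C fun n hn => by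
      have := hC n hn
      rw [gram, if_neg (by omega), Nat.zero_min, Nat.zero_max, Nat.sub_zero,
        (RR.nPts_eq L hn).2] at this
      simpa using this
    obtain ⟨Lp, e1, e2, e3, e4⟩ := RR.exists_L h.reg hR h1
    obtain ⟨P, p1, -, p3, p4⟩ := RR.zeta_alg (Fintype.card k) g Fintype.card_pos (RR.Aeff k E)
      (RR.Npl k E) Lp RR.Aeff_zero RR.Aeff_rec e1 e2 e3
    refine ⟨P, p1, p3 ▸ e4, ?_⟩
    rw [← p4]
    refine Finset.sum_congr rfl fun i _ => Finset.sum_congr rfl fun j _ => ?_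
    rw [gram]
    split_ifs with hij
    · rfl
    · rw [(RR.nPts_eq L (by omega)).2]

end Pool.Agent.FFC
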